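import Pool.Agent.R684.PN.Stm
import Pool.Agent.H32CE.TMAG
import Pool.Agent.H32CE.TGRL
import Pool.Agent.H32CE.TINJ
import Pool.Agent.H32CE.TLYN
import Pool.Agent.H32CE.TBAS
import Pool.Agent.Helper111.EN.Resid

set_option autoImplicit false

/-!
# Free groups modulo a term of the lower central series are residually finite-`p`
-/

namespace Pool.Agent.R784.PNRES

open Pool.Agent.R684.PN

theorem magnus (r c : ℕ) (x : FreeGroup (Fin r)) :
    Pool.Agent.H32CE.D (c + 1) x ↔ x ∈ lc (FreeGroup (Fin r)) c :=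
  Pool.Agent.H32CE.t_MAG Pool.Agent.H32CE.t_GRL
    (Pool.Agent.H32CE.t_INJ Pool.Agent.H32CE.t_LYN) Pool.Agent.H32CE.t_BAS r c x

/-- powers: leading coefficients -/
theorem cf_pow {ι : Type} (k : ℕ) (hk : 1 ≤ k) (x : FreeGroup ι) (hx : Pool.Agent.H32CE.D k x)
    (m : ℕ) : Pool.Agent.H32CE.D k (x ^ m) ∧
      Pool.Agent.H32CE.cf k (x ^ m) = (m : ℝ) • Pool.Agent.H32CE.cf k x := by
  obtain ⟨h0, hmul, hDmul, -, -, hadd, -⟩ := Pool.Agent.H32CE.t_BAS ι
  induction m with
  | zero =>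
    have h1 : Pool.Agent.H32CE.mag (1 : FreeGroup ι) = 1 := by
      unfold Pool.Agent.H32CE.mag
      rw [map_one, Units.val_one]
    have h2 : ∀ i, 1 ≤ i → Pool.Agent.H32CE.cf i (1 : FreeGroup ι) = 0 := by
      intro i hi
      unfold Pool.Agent.H32CE.cf
      rw [h1, PowerSeries.coeff_one, if_neg (by omega)]
    rw [pow_zero]
    refine ⟨fun i h1 _ => h2 i h1, ?_⟩
    rw [h2 k hk]
    simp
  | succ m ih =>
    rw [pow_succ]
    refine ⟨hDmul k _ _ ih.1 hx, ?_⟩
    rw [hadd k k _ _ ih.1 hx k hk (by omega), ih.2]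
    push_cast
    rw [add_smul, one_smul]

/-- torsion freeness -/
theorem torsion_free (r c : ℕ) (x : FreeGroup (Fin r)) (m : ℕ) (hm : 1 ≤ m)
    (h : x ^ m ∈ lc (FreeGroup (Fin r)) c) : x ∈ lc (FreeGroup (Fin r)) c := by
  classical
  by_contra hx
  rw [← magnus] at hx h
  have hex : ∃ i, 1 ≤ i ∧ i < c + 1 ∧ Pool.Agent.H32CE.cf i x ≠ 0 := by
    unfold Pool.Agent.H32CE.D at hx
    push Not at hx
    obtain ⟨i, h1, h2, h3⟩ := hx
    exact ⟨i, h1, h2, h3⟩
  obtain ⟨h1, h2, h3⟩ := Nat.find_spec hex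
  have hD : Pool.Agent.H32CE.D (Nat.find hex) x := by
    intro i hi1 hi2
    by_contra h4
    exact Nat.find_min hex hi2 ⟨hi1, by omega, h4⟩
  have h5 := (cf_pow (Nat.find hex) h1 x hD m).2
  rw [h (Nat.find hex) h1 h2] at h5
  have h6 : (m : ℝ) ≠ 0 := by
    have : m ≠ 0 := by omega
    exact_mod_cast this
  rcases smul_eq_zero.mp h5.symm with h7 | h7
  · exact h6 h7
  · exact h3 h7

/-- the case of finitely many letters -/
theorem res_fin (r : ℕ) (p : ℕ) [hp : Fact p.Prime] (n : ℕ) (x : FreeGroup (Fin r))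
    (hx : x ∉ lc (FreeGroup (Fin r)) n) : ∃ (G : Type) (_ : Group G) (_ : Finite G)
    (f : FreeGroup (Fin r) →* G),
    IsPGroup p G ∧ (∀ y ∈ lc (FreeGroup (Fin r)) n, f y = 1) ∧ f x ≠ 1 := by
  let K := FreeGroup (Fin r) ⧸ lc (FreeGroup (Fin r)) n
  have hnil : Group.IsNilpotent K := by
    rw [Subgroup.nilpotent_iff_lowerCentralSeries]
    refine ⟨n, ?_⟩
    have h1 := Subgroup.map_lowerCentralSeries (⊤ : Subgroup (FreeGroup (Fin r)))
      (QuotientGroup.mk' (lc (FreeGroup (Fin r)) n)) n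
    rw [Subgroup.map_top_of_surjective _ (QuotientGroup.mk'_surjective _)] at h1
    rw [← h1, eq_bot_iff, Subgroup.map_le_iff_le_comap]
    intro y hy
    rw [Subgroup.mem_comap, Subgroup.mem_bot, ← MonoidHom.mem_ker, QuotientGroup.ker_mk']
    exact hy
  have hfg : Group.FG K := QuotientGroup.fg _
  have hker : ∀ y : FreeGroup (Fin r), (QuotientGroup.mk' (lc (FreeGroup (Fin r)) n)) y = 1 ↔
      y ∈ lc (FreeGroup (Fin r)) n := by
    intro y
    rw [← MonoidHom.mem_ker, QuotientGroup.ker_mk']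
  have htf : ∀ q ∈ {q : ℕ | q.Prime ∧ q ≠ p}, ∀ z : K, z ^ q = 1 → z = 1 := by
    intro q hq z hz
    obtain ⟨y, rfl⟩ := QuotientGroup.mk'_surjective _ z
    rw [← map_pow, hker] at hz
    rw [hker]
    exact torsion_free r n y q hq.1.one_lt.le hz
  obtain ⟨s, hs, hsπ, N, hN, hw, hfin, hpg⟩ := Pool.Agent.Helper111.EN.resid (K := K)
    {q : ℕ | q.Prime ∧ q ≠ p} (fun q hq => hq.1) p hp.out (fun h => h.2 rfl) htf
    (QuotientGroup.mk' (lc (FreeGroup (Fin r)) n) x) (fun h => hx ((hker x).mp h))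
  have hsp : s = p := by
    by_contra hne
    exact hsπ ⟨hs, hne⟩
  subst hsp
  refine ⟨K ⧸ N, inferInstance, hfin,
    (QuotientGroup.mk' N).comp (QuotientGroup.mk' (lc (FreeGroup (Fin r)) n)), hpg, ?_, ?_⟩
  · intro y hy
    rw [MonoidHom.comp_apply, (hker y).mpr hy, map_one]
  · rw [MonoidHom.comp_apply]
    intro h
    apply hw
    rwa [← MonoidHom.mem_ker, QuotientGroup.ker_mk'] at h

/-- homomorphisms respect the lower central series -/
theorem lc_map {G H : Type} [Group G] [Group H] (f : G →* H) (n : ℕ) (x : G) (hx : x ∈ lc G n) :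
    f x ∈ lc H n := by
  have h1 := Subgroup.map_lowerCentralSeries (⊤ : Subgroup G) f n
  have h2 : f x ∈ ((⊤ : Subgroup G).lowerCentralSeries n).map f := Subgroup.mem_map_of_mem f hx
  rw [h1] at h2
  exact Subgroup.lowerCentralSeries_mono n le_top h2

theorem exists_letters {X : Type} (x : FreeGroup X) :
    ∃ S : Set X, S.Finite ∧ x ∈ Subgroup.closure (FreeGroup.of '' S) := by
  induction x using FreeGroup.induction_on with
  | C1 => exact ⟨∅, Set.finite_empty, Subgroup.one_mem _⟩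
  | of a =>
    exact ⟨{a}, Set.finite_singleton a, Subgroup.subset_closure ⟨a, Set.mem_singleton a, rfl⟩⟩
  | inv_of a h =>
    obtain ⟨S, hS, hx⟩ := h
    exact ⟨S, hS, Subgroup.inv_mem _ hx⟩
  | mul x y hx hy =>
    obtain ⟨S, hS, hx⟩ := hx
    obtain ⟨T, hT, hy⟩ := hy
    refine ⟨S ∪ T, hS.union hT, Subgroup.mul_mem _ ?_ ?_⟩
    · exact Subgroup.closure_mono (Set.image_mono Set.subset_union_left) hx
    · exact Subgroup.closure_mono (Set.image_mono Set.subset_union_right) hy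

theorem t_RES : S_RES := by
  classical
  intro X p hp n x hx
  obtain ⟨S, hS, hxS⟩ := exists_letters x
  obtain ⟨r, ⟨e⟩⟩ : ∃ r : ℕ, Nonempty (S ≃ Fin r) := by
    have := hS.to_subtype
    exact Finite.exists_equiv_fin S
  let i : FreeGroup (Fin r) →* FreeGroup X := FreeGroup.lift fun k => FreeGroup.of (e.symm k : X)
  let ρ : FreeGroup X →* FreeGroup (Fin r) :=
    FreeGroup.lift fun a => if h : a ∈ S then FreeGroup.of (e ⟨a, h⟩) else 1
  have hiρ : i (ρ x) = x := by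
    have h1 : Subgroup.closure (FreeGroup.of '' S) ≤
        MonoidHom.eqLocus (i.comp ρ) (MonoidHom.id (FreeGroup X)) := by
      rw [Subgroup.closure_le]
      rintro _ ⟨a, ha, rfl⟩
      change (i.comp ρ) (FreeGroup.of a) = FreeGroup.of a
      rw [MonoidHom.comp_apply]
      simp only [i, ρ, FreeGroup.lift_apply_of, dif_pos ha, Equiv.symm_apply_apply]
    exact h1 hxS
  have hy : ρ x ∉ lc (FreeGroup (Fin r)) n := by
    intro h
    apply hx
    rw [← hiρ]
    exact lc_map i n _ h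
  obtain ⟨G, hG, hfin, f, hpG, hf1, hf2⟩ := res_fin r p n (ρ x) hy
  exact ⟨G, hG, hfin, f.comp ρ, hpG, fun y hy => hf1 _ (lc_map ρ n y hy), hf2⟩

end Pool.Agent.R784.PNRES
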