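import Pool.Statements.S00329
import Pool.Agent.R848.Final
import Pool.Agent.R848.G

set_option autoImplicit false
open Pool Pool.MP_9bd952_ag

namespace Pool.Agent.S00329

/-- For every connected smooth closed algebraic submanifold X of some C^n there is B such that every such Y homeomorphic to X has at most B non-constant holomorphic maps into C minus {0,1}. -/
theorem result :
  ∀ (n : ℕ) (X : Set (Fin n → ℂ)),
    (∃ S : Set (MvPolynomial (Fin n) ℂ), X = {x | ∀ P ∈ S, MvPolynomial.eval x P = 0}) →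
    (∀ p ∈ X, ∃ U : Set (Fin n → ℂ), IsOpen U ∧ p ∈ U ∧
      ∃ (k : ℕ) (F : (Fin n → ℂ) → (Fin k → ℂ)), DifferentiableOn ℂ F U ∧
        (∀ x ∈ U, Function.Surjective ⇑(fderiv ℂ F x)) ∧ X ∩ U = U ∩ F ⁻¹' {0}) →
    IsConnected X →
    ∃ B : ℕ, ∀ (m : ℕ) (Y : Set (Fin m → ℂ)),
      (∃ S : Set (MvPolynomial (Fin m) ℂ), Y = {y | ∀ P ∈ S, MvPolynomial.eval y P = 0}) →
      (∀ p ∈ Y, ∃ U : Set (Fin m → ℂ), IsOpen U ∧ p ∈ U ∧
        ∃ (k : ℕ) (F : (Fin m → ℂ) → (Fin k → ℂ)), DifferentiableOn ℂ F U ∧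
          (∀ x ∈ U, Function.Surjective ⇑(fderiv ℂ F x)) ∧ Y ∩ U = U ∩ F ⁻¹' {0}) →
      IsConnected Y →
      Nonempty (↥X ≃ₜ ↥Y) →
      {g : ↥Y → ℂ | (∀ y, g y ≠ 0 ∧ g y ≠ 1) ∧ (∃ a b, g a ≠ g b) ∧
        ∀ p : ↥Y, ∃ U : Set (Fin m → ℂ), IsOpen U ∧ (p : Fin m → ℂ) ∈ U ∧
          ∃ h : (Fin m → ℂ) → ℂ, DifferentiableOn ℂ h U ∧
            ∀ y : ↥Y, (y : Fin m → ℂ) ∈ U → h y = g y}.encard ≤ (B : ℕ∞) := by
  intro n X h1 h2 h3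
  exact Pool.Agent.R848.final Pool.Agent.R848.G n X h1 h2 h3

end Pool.Agent.S00329
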