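import Pool.Statements.S00348
import Pool.Agent.R846.PNN.Bounds

set_option autoImplicit false
open Pool Pool.MP_a30cf1_ag

namespace Pool.Agent.S00348

/-- The negation of the preceding statement: For L ≥ 1 and r ≥ 2, any coordinatewise-minimal positive width vector (with d_0, d_L fixed) whose depth-L polynomial network with x^r activation has Zariski-dense output set in the ambient space is unimodal. -/
theorem result :
    ¬ (∀ (L r : ℕ), 1 ≤ L → 2 ≤ r →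
  ∀ Filling : (Fin (L+1) → ℕ) → Prop,
  (∀ e : Fin (L+1) → ℕ, Filling e ↔
    ∀ P : MvPolynomial (ℕ × (ℕ →₀ ℕ)) ℂ,
      (∀ W : Fin L → ℕ → ℕ → ℂ,
        MvPolynomial.eval (fun p : ℕ × (ℕ →₀ ℕ) => MvPolynomial.coeff p.2
          ((List.finRange L).foldl
            (fun (h : ℕ → MvPolynomial ℕ ℂ) (k : Fin L) (a : ℕ) =>
              ∑ b ∈ Finset.range (e k.castSucc),
                MvPolynomial.C (W k a b) * h b ^ (if (k : ℕ) = 0 then 1 else r))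
            (fun b : ℕ => (MvPolynomial.X b : MvPolynomial ℕ ℂ)) p.1)) P = 0) →
      ∀ c : ℕ × (ℕ →₀ ℕ) → ℂ,
        (∀ p : ℕ × (ℕ →₀ ℕ), c p ≠ 0 →
          p.1 < e (Fin.last L) ∧ (∑ b ∈ p.2.support, p.2 b) = r ^ (L - 1) ∧
            ∀ b ∈ p.2.support, b < e 0) →
        MvPolynomial.eval c P = 0) →
  ∀ d : Fin (L+1) → ℕ, (∀ i, 1 ≤ d i) → Filling d →
  (∀ d' : Fin (L+1) → ℕ, (∀ i, 1 ≤ d' i) → d' 0 = d 0 →
      d' (Fin.last L) = d (Fin.last L) → d' ≤ d → Filling d' → d' = d) →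
  ∃ i : Fin (L+1), (∀ j k : Fin (L+1), j ≤ k → k ≤ i → d j ≤ d k) ∧
    (∀ j k : Fin (L+1), i ≤ j → j ≤ k → d k ≤ d j)) := by
  intro H
  have hle : ∀ e : Fin 8 → ℕ, e ≤ R846.PNN.dst →
      e 0 ≤ 2 ∧ e 1 ≤ 3 ∧ e 2 ≤ 4 ∧ e 3 ≤ 5 ∧ e 4 ≤ 4 ∧ e 5 ≤ 6 ∧ e 6 ≤ 4 ∧ e 7 ≤ 1 :=
    fun e he => ⟨he 0, he 1, he 2, he 3, he 4, he 5, he 6, he 7⟩
  obtain ⟨d, ⟨hd1, hdle, hd0, hd7, hdF⟩, hmin⟩ := exists_minimal_of_wellFoundedLT
    (fun e : Fin 8 → ℕ => (∀ i, 1 ≤ e i) ∧ e ≤ R846.PNN.dst ∧ e 0 = 2 ∧ e 7 = 1 ∧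
      R846.PNN.Fill e)
    ⟨R846.PNN.dst, by
      intro i; fin_cases i <;> simp [R846.PNN.dst], le_rfl, rfl, rfl, R846.PNN.fill_dst⟩
  obtain ⟨h0, h1, h2, h3, h4, h5, h6, h7⟩ := hle d hdle
  -- the three widths which cannot be lowered
  have k4 : d 4 = 4 := by
    by_contra hne
    refine R846.PNN.not_fill_E1 (hdF.mono ?_ (by rw [hd0]; rfl) (by rw [hd7]; rfl))
    intro i
    fin_cases i <;> simp [R846.PNN.E1] <;> omega
  have k3 : d 3 = 5 := by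
    by_contra hne
    refine R846.PNN.not_fill_E2 (hdF.mono ?_ (by rw [hd0]; rfl) (by rw [hd7]; rfl))
    intro i
    fin_cases i <;> simp [R846.PNN.E2] <;> omega
  have k5 : d 5 = 6 := by
    by_contra hne
    refine R846.PNN.not_fill_E3 (hdF.mono ?_ (by rw [hd0]; rfl) (by rw [hd7]; rfl))
    intro i
    fin_cases i <;> simp [R846.PNN.E3] <;> omega
  obtain ⟨i, hi1, hi2⟩ := H 7 2 (by norm_num) le_rfl R846.PNN.Fill (fun e => Iff.rfl) d hd1 hdF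
    (fun d' h1' h0' h7' hle' hF' => le_antisymm hle' (hmin ⟨h1', hle'.trans hdle,
      h0'.trans hd0, h7'.trans hd7, hF'⟩ hle'))
  rcases le_or_gt (4 : Fin 8) i with hi | hi
  · have := hi1 3 4 (by decide) hi
    omega
  · have hi' : i ≤ 4 := hi.le
    have := hi2 4 5 hi' (by decide)
    omega

end Pool.Agent.S00348
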