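import Pool.Statements.S00362
import Pool.Agent.R844.DeltoidCusp
import Pool.Agent.R844.DeltoidIrr

set_option autoImplicit false
open Pool Pool.MP_aaa69e_ag

namespace Pool.Agent.S00362

open Pool.Agent.R844.Deltoid in
/-- The complex deltoid (tricuspidal quartic with the bitangent at infinity) is homeomorphic to the
punctured plane and has three unibranch singular points. -/
theorem counterexample (x₀ : ↥{z : Fin 2 → ℂ | MvPolynomial.eval z F = 0}) :
    ¬ (Set.ncard {p : Fin 2 → ℂ | MvPolynomial.eval p F = 0 ∧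
        (∀ i : Fin 2, MvPolynomial.eval p (MvPolynomial.pderiv i F) = 0) ∧
        ∃ ε : ℝ, 0 < ε ∧ ∀ δ : ℝ, 0 < δ → δ < ε →
          IsPreconnected {q : Fin 2 → ℂ | MvPolynomial.eval q F = 0 ∧ q ≠ p ∧
            ‖q 0 - p 0‖ ^ 2 + ‖q 1 - p 1‖ ^ 2 < δ ^ 2}}
      ≤ Module.finrank ℤ
          (Additive (Abelianization
            (FundamentalGroup ↥{z : Fin 2 → ℂ | MvPolynomial.eval z F = 0} x₀))) + 1) := by
  intro h
  have h1 := finrank_le x₀
  -- a primitive cube root of unity
  obtain ⟨u, hu⟩ : ∃ u : ℂ, u ^ 2 + u + 1 = 0 := by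
    obtain ⟨s, hs⟩ := IsAlgClosed.exists_pow_nat_eq (-3 : ℂ) (n := 2) (by norm_num)
    refine ⟨(-1 + s) / 2, ?_⟩
    linear_combination hs / 4
  have hu3 : u ^ 3 = 1 := by linear_combination (u - 1) * hu
  have hu1 : u ≠ 1 := by
    rintro rfl
    norm_num at hu
  have hu0 : u ≠ 0 := by
    rintro rfl
    norm_num at hu
  have huu : u ^ 2 ≠ u := by
    intro h2
    apply hu1
    have : u * (u - 1) = 0 := by linear_combination h2
    exact sub_eq_zero.1 ((mul_eq_zero.1 this).resolve_left hu0)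
  have huu1 : u ^ 2 ≠ 1 := by
    intro h2
    have : u = -2 := by linear_combination hu - h2
    rw [this] at h2
    norm_num at h2
  set S : Set (Fin 2 → ℂ) := {p : Fin 2 → ℂ | MvPolynomial.eval p F = 0 ∧
        (∀ i : Fin 2, MvPolynomial.eval p (MvPolynomial.pderiv i F) = 0) ∧
        ∃ ε : ℝ, 0 < ε ∧ ∀ δ : ℝ, 0 < δ → δ < ε →
          IsPreconnected {q : Fin 2 → ℂ | MvPolynomial.eval q F = 0 ∧ q ≠ p ∧
            ‖q 0 - p 0‖ ^ 2 + ‖q 1 - p 1‖ ^ 2 < δ ^ 2}} with hS
  have hmem : ∀ t : ℂ, t ^ 3 = 1 → (![z t, w t] : Fin 2 → ℂ) ∈ S := by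
    intro t ht
    have ht0 : t ≠ 0 := by
      rintro rfl
      norm_num at ht
    refine ⟨?_, ?_, unibranch ht⟩
    · rw [eval_F]
      exact on_curve ht0
    · intro i
      fin_cases i
      · change MvPolynomial.eval (![z t, w t] : Fin 2 → ℂ) (MvPolynomial.pderiv 0 F) = 0
        rw [eval_F0]
        simp only [Matrix.cons_val_zero, Matrix.cons_val_one]
        rw [grad0 ht0, ht]
        simp
      · change MvPolynomial.eval (![z t, w t] : Fin 2 → ℂ) (MvPolynomial.pderiv 1 F) = 0
        rw [eval_F1]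
        simp only [Matrix.cons_val_zero, Matrix.cons_val_one]
        rw [grad1 ht0, ht]
        simp
  have hfin : S.Finite := by
    have hsub : S ⊆ (fun t : ℂ => (![z t, w t] : Fin 2 → ℂ)) '' {t : ℂ | t ^ 3 = 1} := by
      rintro p ⟨h2, h3, -⟩
      rw [eval_F] at h2
      obtain ⟨t, ht, h4, h5⟩ := surj h2
      have hp : (![z t, w t] : Fin 2 → ℂ) = p := by
        funext i
        fin_cases i
        · exact h4
        · exact h5
      refine ⟨t, ?_, hp⟩
      have h6 := h3 0
      rw [← hp, eval_F0] at h6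
      simp only [Matrix.cons_val_zero, Matrix.cons_val_one] at h6
      rw [grad0 ht, div_eq_zero_iff] at h6
      have h7 : (t ^ 3 - 1) ^ 3 = 0 := by
        rcases h6 with h6 | h6
        · rcases mul_eq_zero.1 h6 with h8 | h8
          · norm_num at h8
          · exact h8
        · exact absurd h6 (pow_ne_zero 4 ht)
      have h8 : t ^ 3 - 1 = 0 := pow_eq_zero_iff (three_ne_zero) |>.1 h7
      exact sub_eq_zero.1 h8
    refine Set.Finite.subset (Set.Finite.image _ ?_) hsub
    have h9 : {t : ℂ | t ^ 3 = 1} ⊆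
        ((Polynomial.X ^ 3 - Polynomial.C 1 : Polynomial ℂ).roots.toFinset : Set ℂ) := by
      intro x hx
      simp only [Finset.mem_coe, Multiset.mem_toFinset]
      rw [Polynomial.mem_roots (Polynomial.X_pow_sub_C_ne_zero (by norm_num) _)]
      simp only [Polynomial.IsRoot, Polynomial.eval_sub, Polynomial.eval_pow, Polynomial.eval_X,
        Polynomial.eval_C]
      rw [Set.mem_ofPred_eq] at hx
      rw [hx, sub_self]
    exact (Finset.finite_toSet _).subset h9
  have hinj : ∀ t s : ℂ, t ^ 3 = 1 → s ^ 3 = 1 → t ≠ s →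
      (![z t, w t] : Fin 2 → ℂ) ≠ ![z s, w s] := by
    intro t s ht hs hne heq
    apply hne
    apply inj
    · rintro rfl
      norm_num at ht
    · rintro rfl
      norm_num at hs
    · exact congrFun heq 0
    · exact congrFun heq 1
  have h13 : (1 : ℂ) ^ 3 = 1 := by norm_num
  have hu6 : (u ^ 2) ^ 3 = 1 := by
    rw [← pow_mul, mul_comm, pow_mul, hu3, one_pow]
  have hcard : 3 ≤ S.ncard := by
    have h10 : Set.ncard ({(![z 1, w 1] : Fin 2 → ℂ), ![z u, w u], ![z (u ^ 2), w (u ^ 2)]} :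
        Set (Fin 2 → ℂ)) = 3 := by
      rw [Set.ncard_eq_three]
      exact ⟨_, _, _, hinj _ _ h13 hu3 hu1.symm, hinj _ _ h13 hu6 huu1.symm,
        hinj _ _ hu3 hu6 huu.symm, rfl⟩
    rw [← h10]
    apply Set.ncard_le_ncard _ hfin
    rintro p (rfl | rfl | rfl)
    · exact hmem _ h13
    · exact hmem _ hu3
    · exact hmem _ hu6
  have h20 := (hcard.trans h).trans (Nat.add_le_add_right h1 1)
  omega

/-- The negation of the preceding statement: For every irreducible f in ℂ[x,y], the number of singular points of the curve f=0 where the curve has one local branch is at most the first Betti number (rank of abelianized fundamental group) of the curve plus one. -/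
theorem result :
    ¬ (∀ f : MvPolynomial (Fin 2) ℂ, Irreducible f →
    ∀ x₀ : ↥{z : Fin 2 → ℂ | MvPolynomial.eval z f = 0},
    Set.ncard {p : Fin 2 → ℂ | MvPolynomial.eval p f = 0 ∧
        (∀ i : Fin 2, MvPolynomial.eval p (MvPolynomial.pderiv i f) = 0) ∧
        ∃ ε : ℝ, 0 < ε ∧ ∀ δ : ℝ, 0 < δ → δ < ε →
          IsPreconnected {q : Fin 2 → ℂ | MvPolynomial.eval q f = 0 ∧ q ≠ p ∧
            ‖q 0 - p 0‖ ^ 2 + ‖q 1 - p 1‖ ^ 2 < δ ^ 2}}
      ≤ Module.finrank ℤ
          (Additive (Abelianization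
            (FundamentalGroup ↥{z : Fin 2 → ℂ | MvPolynomial.eval z f = 0} x₀))) + 1) := by
  intro h
  have hx : (![Pool.Agent.R844.Deltoid.z 1, Pool.Agent.R844.Deltoid.w 1] : Fin 2 → ℂ) ∈
      {z : Fin 2 → ℂ | MvPolynomial.eval z Pool.Agent.R844.Deltoid.F = 0} := by
    rw [Set.mem_ofPred_eq, Pool.Agent.R844.Deltoid.eval_F]
    exact Pool.Agent.R844.Deltoid.on_curve one_ne_zero
  exact counterexample ⟨_, hx⟩ (h _ Pool.Agent.R844.Deltoid.irreducible_F ⟨_, hx⟩)

end Pool.Agent.S00362
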