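import Pool.Statements.S00541
import Pool.Agent.H737R3.Points

set_option autoImplicit false
open Pool Pool.MP_ef83ea_ag

namespace Pool.Agent.S00541

/-- For any nonempty finite set of points in complex projective N-space (N at least 1) with ideal I, every m ≥ 1 satisfies alpha(I^(m))/m ≥ (alpha(I^(3)) + N - 1)/(N + 2), i.e. the Waldschmidt constant is at least that bound. -/
theorem result :
    ∀ (N : ℕ), 1 ≤ N → ∀ S : Finset (Fin (N + 1) → ℂ), S.Nonempty → (∀ p ∈ S, p ≠ 0) →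
      ∀ m : ℕ, 1 ≤ m →
        (((sInf {d : ℕ | ∃ f ∈ (⨅ p ∈ S,
              (Ideal.span (Set.range (fun ij : Fin (N + 1) × Fin (N + 1) =>
                (MvPolynomial.X ij.1 * MvPolynomial.C (p ij.2)
                  - MvPolynomial.X ij.2 * MvPolynomial.C (p ij.1) :
                  MvPolynomial (Fin (N + 1)) ℂ)))) ^ 3),
              f ≠ 0 ∧ f.totalDegree = d} : ℕ) : ℝ) + (N : ℝ) - 1) / ((N : ℝ) + 2)
          ≤ ((sInf {d : ℕ | ∃ f ∈ (⨅ p ∈ S,
              (Ideal.span (Set.range (fun ij : Fin (N + 1) × Fin (N + 1) =>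
                (MvPolynomial.X ij.1 * MvPolynomial.C (p ij.2)
                  - MvPolynomial.X ij.2 * MvPolynomial.C (p ij.1) :
                  MvPolynomial (Fin (N + 1)) ℂ)))) ^ m),
              f ≠ 0 ∧ f.totalDegree = d} : ℕ) : ℝ) / (m : ℝ) := by
  classical
  intro N hN S hS hS0 m hm
  obtain ⟨q, hq⟩ := hS
  have hI : ∀ r : ℕ, (⨅ p ∈ S,
      (Ideal.span (Set.range (fun ij : Fin (N + 1) × Fin (N + 1) =>
        (MvPolynomial.X ij.1 * MvPolynomial.C (p ij.2)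
          - MvPolynomial.X ij.2 * MvPolynomial.C (p ij.1) :
          MvPolynomial (Fin (N + 1)) ℂ)))) ^ r) = ⨅ p ∈ S, Pool.Agent.H737R3.linI p ^ r := by
    intro r
    refine iInf_congr fun p => iInf_congr fun hp => ?_
    rw [Pool.Agent.H737R3.span_eq_linI (hS0 p hp)]
  rw [hI, hI]
  set a := sInf {d : ℕ | ∃ f ∈ (⨅ p ∈ S, Pool.Agent.H737R3.linI p ^ 3),
    f ≠ 0 ∧ f.totalDegree = d} with ha
  set b := sInf {d : ℕ | ∃ f ∈ (⨅ p ∈ S, Pool.Agent.H737R3.linI p ^ m),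
    f ≠ 0 ∧ f.totalDegree = d} with hb
  have hne : {d : ℕ | ∃ f ∈ (⨅ p ∈ S, Pool.Agent.H737R3.linI p ^ m),
      f ≠ 0 ∧ f.totalDegree = d}.Nonempty := by
    obtain ⟨f, hf, hf0⟩ := Pool.Agent.H737R3.exists_mem_iInf hN S hS0 (fun _ => m)
    exact ⟨_, f, hf, hf0, rfl⟩
  obtain ⟨f, hf, hf0, hfd⟩ := Nat.sInf_mem hne
  rw [← hb] at hfd
  have hfp : ∀ p ∈ S, f ∈ Pool.Agent.H737R3.linI p ^ m := by
    intro p hp
    exact (Submodule.mem_iInf _).1 ((Submodule.mem_iInf _).1 hf p) hp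
  have hF0 := Pool.Agent.H737R3.top_component hf0
  have hFh := MvPolynomial.homogeneousComponent_isHomogeneous f.totalDegree f
  have hFv : ∀ p ∈ S, MvPolynomial.homogeneousComponent f.totalDegree f ∈
      Pool.Agent.Chud.mI p ^ m := fun p hp =>
    Ideal.pow_right_mono (Pool.Agent.H737R3.linI_le_mI p) m
      (Pool.Agent.H737R3.component_mem p m (hfp p hp) _)
  have hlow : Pool.Agent.H580C.LowT (S : Set (Fin (N + 1) → ℂ)) 3 a := by
    intro G d hG hGd hGv
    refine Nat.sInf_le ⟨G, ?_, hG, hGd.totalDegree hG⟩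
    rw [Submodule.mem_iInf]
    intro p
    rw [Submodule.mem_iInf]
    intro hp
    exact Pool.Agent.H737R3.mem_linI_pow hGd (hS0 p hp) (hGv p hp)
  have key := Pool.Agent.H580C.p_CD ℂ N 3 a m f.totalDegree
    (S : Set (Fin (N + 1) → ℂ)) _ hN (by norm_num) S.finite_toSet ⟨q, hq⟩
    (fun v hv => hS0 v hv) hlow hF0 hFh (fun p hp => hFv p hp)
  rw [hfd] at key
  have h := Pool.Agent.H737R3.real_of_nat (N := N) (t := 3) hN (by norm_num) hm key
  have e : ((3 : ℕ) : ℝ) + N - 1 = (N : ℝ) + 2 := by push_cast; ring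
  rw [e] at h
  exact h

end Pool.Agent.S00541
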