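import Pool.Statements.S00609
import Pool.Agent.R632.FinBin

set_option autoImplicit false
open Pool Pool.MP_042d8e_al

namespace Pool.Agent.S00609

open Equiv Pool.Agent.R632.FinBin

/-- contribution of the vertex `w` -/
def val (A : ℕ → Prop) [DecidablePred A] (g : Perm (List Bool)) (w : List Bool) : ZMod 2 :=
  if lab g w = true ∧ A w.length then 1 else 0

lemma val_support (A : ℕ → Prop) [DecidablePred A] (g : G) :
    (Function.support (val A g.1)).Finite := by
  refine g.2.2.subset ?_
  intro w hw
  rw [Function.mem_support] at hw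
  unfold val at hw
  by_contra hcon
  apply hw
  rw [if_neg]
  intro h
  exact hcon h.1

/-- The sum of the labels of `g` over the levels in the set `A`. -/
noncomputable def chi (A : ℕ → Prop) [DecidablePred A] : G →* Multiplicative (ZMod 2) where
  toFun g := Multiplicative.ofAdd (∑ᶠ w, val A g.1 w)
  map_one' := by
    have : ∀ w, val A (1 : G).1 w = 0 := by
      intro w
      unfold val
      rw [if_neg]
      rintro ⟨h, _⟩
      have := one_spec.2 w
      rw [show ((1 : G).1) = 1 from rfl, this] at h
      exact absurd h (by simp)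
    rw [finsum_congr this, finsum_zero]
    rfl
  map_mul' := by
    intro g h
    have h1 : ∀ w, val A (g * h).1 w = val A g.1 (h.1 w) + val A h.1 w := by
      intro w
      unfold val
      have h2 := (mul_spec g.2.1 h.2.1).2 w
      rw [show (g * h).1 = g.1 * h.1 from rfl, h2, length_eq h.2.1]
      by_cases hA : A w.length
      · cases hx : lab h.1 w <;> cases hy : lab g.1 (h.1 w) <;> simp [hA]
        decide
      · simp [hA]
    have h2 : (∑ᶠ w, val A (g * h).1 w) = (∑ᶠ w, val A g.1 w) + ∑ᶠ w, val A h.1 w := by
      rw [finsum_congr h1, finsum_add_distrib, finsum_comp_equiv h.1]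
      · have := (val_support A g).preimage (h.1.injective.injOn)
        exact this
      · exact val_support A h
    rw [h2]
    rfl

/-- the elements fixing all vertices of level at most `i` -/
def fix (i : ℕ) : Subgroup G where
  carrier := {g | ∀ w : List Bool, w.length ≤ i → g.1 w = w}
  mul_mem' := by
    intro g h hg hh w hw
    show g.1 (h.1 w) = w
    rw [hh w hw, hg w hw]
  one_mem' := fun w _ => rfl
  inv_mem' := by
    intro g hg w hw
    show g.1⁻¹ w = w
    rw [Perm.inv_eq_iff_eq, hg w hw]

/-- restriction to the levels at most `i` -/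
def res (i : ℕ) : G →* Perm {w : List Bool // w.length ≤ i} where
  toFun g := g.1.subtypePerm (fun w => by rw [length_eq g.2.1])
  map_one' := by
    ext w
    rfl
  map_mul' := by
    intro g h
    ext w
    rfl

instance finite_le (i : ℕ) : Finite {w : List Bool // w.length ≤ i} :=
  Set.Finite.to_subtype (List.finite_length_le Bool i)

lemma fix_eq (i : ℕ) : fix i = (res i).ker := by
  ext g
  constructor
  · intro h
    rw [MonoidHom.mem_ker]
    ext1 w
    exact Subtype.ext (h w.1 w.2)
  · intro h w hw
    have := congrArg (fun p => (p ⟨w, hw⟩).1) h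
    exact this

instance fix_normal (i : ℕ) : (fix i).Normal := by
  rw [fix_eq]
  infer_instance

instance fix_finiteIndex (i : ℕ) : (fix i).FiniteIndex := by
  rw [fix_eq]
  infer_instance

lemma fix_anti {i j : ℕ} (h : i ≤ j) : fix j ≤ fix i := fun _ hg w hw => hg w (hw.trans h)

/-- the set of levels number `a` -/
def lev (a n : ℕ) : Prop := (Nat.unpair n).1 = a

instance (a : ℕ) : DecidablePred (lev a) := fun _ => inferInstanceAs (Decidable (_ = _))

/-- the sequences of subgroups -/
noncomputable def M (a i : ℕ) : Subgroup G := fix i ⊓ (chi (lev a)).ker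

lemma chi_flip (A : ℕ → Prop) [DecidablePred A] (u : List Bool) :
    chi A ⟨flip u, flip_mem u⟩ = Multiplicative.ofAdd (if A u.length then 1 else 0) := by
  show Multiplicative.ofAdd (∑ᶠ w, val A (flip u) w) = _
  rw [finsum_eq_single _ u]
  · unfold val
    rw [(flip_spec u).2]
    simp
  · intro w hw
    unfold val
    rw [(flip_spec u).2]
    simp [hw]

lemma not_le {a b : ℕ} (hab : a ≠ b) (j : ℕ) : ¬ M b j ≤ M a 0 := by
  intro h
  let n := Nat.pair a j
  let u : List Bool := List.replicate n false
  have hu : u.length = n := List.length_replicate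
  have h1 : (⟨flip u, flip_mem u⟩ : G) ∈ M b j := by
    refine ⟨?_, ?_⟩
    · intro w hw
      apply flipFun_of_not
      rw [hu]
      exact hw.trans (Nat.right_le_pair a j)
    · show _ ∈ (chi (lev b)).ker
      rw [MonoidHom.mem_ker, chi_flip, if_neg]
      · rfl
      · rw [hu]
        unfold lev
        simp [n, hab]
  have h2 : _ ∈ (chi (lev a)).ker := (h h1).2
  rw [MonoidHom.mem_ker, chi_flip, if_pos] at h2
  · exact absurd h2 (by decide)
  · rw [hu]
    unfold lev
    simp [n]

lemma trans_aux : ∀ v w : List Bool, v.length = w.length → ∃ g : G, g.1 v = w := by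
  intro v
  induction v with
  | nil =>
    intro w hw
    have : w = [] := List.length_eq_zero_iff.mp hw.symm
    subst this
    exact ⟨1, rfl⟩
  | cons x v ih =>
    intro w hw
    cases w with
    | nil => simp at hw
    | cons y w =>
      obtain ⟨g, hg⟩ := ih w (by simpa using hw)
      by_cases h : xor x (lab g.1 v) = y
      · refine ⟨g, ?_⟩
        rw [g.2.1.2, hg, h]
      · refine ⟨⟨flip w, flip_mem w⟩ * g, ?_⟩
        show flip w (g.1 (x :: v)) = _
        rw [g.2.1.2, hg]
        have := (flip_spec w).1.2 (xor x (lab g.1 v)) w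
        rw [this, (flip_spec w).2, flip_apply_self]
        congr 1
        cases y <;> cases hx : xor x (lab g.1 v) <;> simp_all

lemma tail_iter (k : ℕ) (w : List Bool) : List.tail^[k] w = w.drop k := by
  induction k generalizing w with
  | zero => rfl
  | succ k ih => rw [Function.iterate_succ_apply, ih, List.drop_tail]

/-- There is a branch group (faithful, level-transitive on a locally finite rooted tree, finite-index rigid level stabilizers) with infinitely many pairwise inequivalent descending sequences of finite-index normal subgroups with trivial intersection. -/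
theorem result :
    ∃ (G : Type) (_ : Group G) (V : Type) (_ : MulAction G V) (lev : V → ℕ) (par : V → V),
      (∀ v w : V, lev v = 0 → lev w = 0 → v = w) ∧
      (∃ v : V, lev v = 0) ∧
      (∀ w : V, lev w = 0 → par w = w) ∧
      (∀ w : V, lev w ≠ 0 → lev (par w) + 1 = lev w) ∧
      (∀ n : ℕ, {v : V | lev v = n}.Finite) ∧
      (∀ v : V, ∃ w₁ w₂ : V, w₁ ≠ w₂ ∧ par w₁ = v ∧ par w₂ = v ∧
          lev w₁ = lev v + 1 ∧ lev w₂ = lev v + 1) ∧
      (∀ (g : G) (w : V), lev (g • w) = lev w ∧ par (g • w) = g • par w) ∧
      (∀ g : G, (∀ v : V, g • v = v) → g = 1) ∧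
      (∀ v w : V, lev v = lev w → ∃ g : G, g • v = w) ∧
      (∀ n : ℕ, (Subgroup.closure {g : G | ∃ v : V, lev v = n ∧
          ∀ w : V, (∀ k : ℕ, par^[k] w ≠ v) → g • w = w}).FiniteIndex) ∧
      ∃ M : ℕ → ℕ → Subgroup G,
        (∀ a : ℕ, Antitone (M a) ∧ (∀ i : ℕ, (M a i).Normal ∧ (M a i).FiniteIndex) ∧
            (⨅ i : ℕ, M a i) = ⊥) ∧
        (∀ a b : ℕ, a ≠ b →
            ¬ ((∀ i : ℕ, ∃ j : ℕ, M b j ≤ M a i) ∧ (∀ i : ℕ, ∃ j : ℕ, M a j ≤ M b i))) := by
  refine ⟨G, inferInstance, List Bool, inferInstance, List.length, List.tail, ?_, ⟨[], rfl⟩, ?_, ?_,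
    ?_, ?_, ?_, ?_, ?_, ?_, M, ?_, ?_⟩
  · intro v w hv hw
    rw [List.length_eq_zero_iff] at hv hw
    rw [hv, hw]
  · intro w hw
    rw [List.length_eq_zero_iff] at hw
    rw [hw]
    rfl
  · intro w hw
    cases w with
    | nil => simp at hw
    | cons x w => rfl
  · intro n
    exact List.finite_length_eq Bool n
  · intro v
    exact ⟨false :: v, true :: v, by simp, rfl, rfl, rfl, rfl⟩
  · intro g w
    refine ⟨length_eq g.2.1 w, ?_⟩
    show (g.1 w).tail = g.1 w.tail
    cases w with
    | nil => rw [List.tail_nil, g.2.1.1]; rfl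
    | cons x w => rw [g.2.1.2]; rfl
  · intro g hg
    apply Subtype.ext
    ext1 w
    exact hg w
  · exact trans_aux
  · intro n
    apply Subgroup.finiteIndex_of_le (H := fix n)
    intro g hg
    apply mem_closure_flip n _ _ _ g rfl
    · intro w hw
      unfold lab
      have := hg (false :: w) (by simpa using hw)
      rw [this]
      rfl
    · intro u hu
      apply Subgroup.subset_closure
      refine ⟨u.drop (u.length - n), ?_, ?_⟩
      · rw [List.length_drop]
        omega
      · intro w hw
        apply flip_apply_of_not_below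
        intro k hk
        apply hw (k + (u.length - n))
        rw [tail_iter] at hk
        rw [tail_iter, ← List.drop_drop, hk]
  · intro a
    refine ⟨?_, ?_, ?_⟩
    · intro i j hij
      exact inf_le_inf_right _ (fix_anti hij)
    · intro i
      unfold M
      exact ⟨inferInstance, inferInstance⟩
    · rw [eq_bot_iff]
      intro g hg
      rw [Subgroup.mem_bot]
      apply Subtype.ext
      ext1 w
      rw [Subgroup.mem_iInf] at hg
      exact (hg w.length).1 w le_rfl
  · intro a b hab h
    obtain ⟨j, hj⟩ := h.1 0
    exact not_le hab j hj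

end Pool.Agent.S00609
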