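import Pool.Statements.S00878
import Pool.Agent.Helper475.Torsion

set_option autoImplicit false
open scoped Pointwise
open Pool Pool.MP_1dd661_al

namespace Pool.Agent.S00878

/-- the shift action of a group `T` on the compact group of functions `T → ℤˣ` -/
def shift (T : Type) [Group T] : T →* MulAut (T → ℤˣ) where
  toFun t :=
    { toFun := fun f x => f (t⁻¹ * x)
      invFun := fun f x => f (t * x)
      left_inv := fun f => by ext x; simp
      right_inv := fun f => by ext x; simp
      map_mul' := fun f g => rfl }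
  map_one' := by ext f x; simp
  map_mul' s t := by ext f x; simp [mul_assoc]

theorem shift_apply (T : Type) [Group T] (t : T) (f : T → ℤˣ) (x : T) :
    shift T t f x = f (t⁻¹ * x) := rfl

/-- the subgroup of functions that are trivial on a finite set is open -/
theorem isOpen_triv {T : Type} (E : Set T) (hE : E.Finite) :
    IsOpen {f : T → ℤˣ | ∀ x ∈ E, f x = 1} := by
  have h : {f : T → ℤˣ | ∀ x ∈ E, f x = 1} = Set.pi E (fun _ => {1}) := by
    ext f; simp [Set.mem_pi]
  rw [h]
  exact isOpen_set_pi hE (fun _ _ => isOpen_discrete _)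

/-- an open set of functions that contains `1` contains all the functions trivial on some
finite set -/
theorem exists_triv {T : Type} (U : Set (T → ℤˣ)) (hU : IsOpen U) (h1 : (1 : T → ℤˣ) ∈ U) :
    ∃ E : Finset T, ∀ f : T → ℤˣ, (∀ x ∈ E, f x = 1) → f ∈ U := by
  rw [isOpen_pi_iff] at hU
  obtain ⟨I, u, hu, hI⟩ := hU 1 h1
  refine ⟨I, fun f hf => hI ?_⟩
  intro x hx
  rw [hf x hx]
  exact (hu x hx).2

theorem zpowers_finite {T : Type} [Group T] (t : T) (h : IsOfFinOrder t) :
    (Subgroup.zpowers t : Set T).Finite := by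
  have : Finite (Subgroup.zpowers t) := Finite.of_equiv _ (finEquivZPowers h)
  exact Set.toFinite _

theorem result :
    ¬ (∀ (G : Type) [Group G] [TopologicalSpace G] [IsTopologicalGroup G]
      [LocallyCompactSpace G] [TotallyDisconnectedSpace G]
      (H : Subgroup (MulAut G)) (tidy : MulAut G → Subgroup G → Prop),
      (∀ (a : MulAut G) (U : Subgroup G), tidy a U ↔
          ((U : Set G) =
              (⋂ n : ℕ, Set.image (⇑(a ^ n)) (U : Set G)) *
                (⋂ n : ℕ, Set.image (⇑(a⁻¹ ^ n)) (U : Set G)) ∧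
            IsClosed (⋃ m : ℕ, Set.image (⇑(a ^ m))
                (⋂ n : ℕ, Set.image (⇑(a ^ n)) (U : Set G))))) →
      (∀ a ∈ H, Continuous (⇑a)) →
      H.FG →
      (∃ U : Subgroup G, IsCompact (U : Set G) ∧ IsOpen (U : Set G) ∧
          ∀ a ∈ H, tidy a U) →
      ∃ l : List (MulAut G), l.Nodup ∧ (∀ a ∈ l, a ∈ H) ∧
        (⋂ (U : Subgroup G)
            (_ : IsCompact (U : Set G) ∧ IsOpen (U : Set G) ∧ ∀ a ∈ H, tidy a U),
            (U : Set G)) =
          (l.map (fun a => ⋂ (U : Subgroup G)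
              (_ : IsCompact (U : Set G) ∧ IsOpen (U : Set G) ∧ tidy a U),
              (U : Set G))).prod) := by
  intro hall
  obtain ⟨T, instT, S, hS, hinf, htors⟩ := Pool.Agent.Helper475.Torsion.exists_inf_torsion
  have : Group.FG T := ⟨⟨S, hS⟩⟩
  let tidy : MulAut (T → ℤˣ) → Subgroup (T → ℤˣ) → Prop := fun a U =>
          ((U : Set (T → ℤˣ)) =
              (⋂ n : ℕ, Set.image (⇑(a ^ n)) (U : Set (T → ℤˣ))) *
                (⋂ n : ℕ, Set.image (⇑(a⁻¹ ^ n)) (U : Set (T → ℤˣ))) ∧
            IsClosed (⋃ m : ℕ, Set.image (⇑(a ^ m))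
                (⋂ n : ℕ, Set.image (⇑(a ^ n)) (U : Set (T → ℤˣ)))))
  -- invariant closed subgroups are tidy
  have tidy_of_inv : ∀ (a : MulAut (T → ℤˣ)) (U : Subgroup (T → ℤˣ)),
      IsClosed (U : Set (T → ℤˣ)) → Set.image (⇑a) (U : Set (T → ℤˣ)) = U → tidy a U := by
    intro a U hcl hinv
    have hp : ∀ n : ℕ, Set.image (⇑(a ^ n)) (U : Set (T → ℤˣ)) = U := by
      intro n
      induction n with
      | zero => simp
      | succ n ih =>
        rw [pow_succ, MulAut.coe_mul, Set.image_comp, hinv, ih]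
    have hinv' : Set.image (⇑(a⁻¹)) (U : Set (T → ℤˣ)) = U := by
      conv_lhs => rw [← hinv]
      rw [← Set.image_comp, ← MulAut.coe_mul]
      simp
    have hp' : ∀ n : ℕ, Set.image (⇑(a⁻¹ ^ n)) (U : Set (T → ℤˣ)) = U := by
      intro n
      induction n with
      | zero => simp
      | succ n ih =>
        rw [pow_succ, MulAut.coe_mul, Set.image_comp, hinv', ih]
    refine ⟨?_, ?_⟩
    · simp only [hp, hp', Set.iInter_const]
      exact (coe_mul_coe U).symm
    · simp only [hp, Set.iInter_const, Set.iUnion_const]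
      exact hcl
  -- subgroups tidy for an automorphism of finite order are invariant
  have inv_of_tidy : ∀ (a : MulAut (T → ℤˣ)) (U : Subgroup (T → ℤˣ)),
      IsOfFinOrder a → tidy a U → ∀ f ∈ U, a f ∈ U := by
    intro a U ha hT
    obtain ⟨N, hN0, hN⟩ := (isOfFinOrder_iff_pow_eq_one).mp ha
    have key : ∀ f, f ∈ (⋂ n : ℕ, Set.image (⇑(a ^ n)) (U : Set (T → ℤˣ))) →
        ∀ n : ℕ, (a ^ n) f ∈ U := by
      intro f hf n
      -- use the exponent `k` with `k + n ≡ 0`
      have hmem := Set.mem_iInter.mp hf ((N - 1) * n)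
      obtain ⟨g, hg, hgf⟩ := hmem
      have : (a ^ n) f = g := by
        rw [← hgf, ← MulAut.mul_apply, ← pow_add]
        have : n + (N - 1) * n = N * n := by
          obtain ⟨M, rfl⟩ : ∃ M, N = M + 1 := ⟨N - 1, by omega⟩
          simp; ring
        rw [this, pow_mul, hN, one_pow, MulAut.one_apply]
      rw [this]; exact hg
    have key' : ∀ f, f ∈ (⋂ n : ℕ, Set.image (⇑(a⁻¹ ^ n)) (U : Set (T → ℤˣ))) →
        ∀ n : ℕ, (a ^ n) f ∈ U := by
      intro f hf n
      have hmem := Set.mem_iInter.mp hf n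
      obtain ⟨g, hg, hgf⟩ := hmem
      have : (a ^ n) f = g := by
        rw [← hgf, ← MulAut.mul_apply, inv_pow, mul_inv_cancel, MulAut.one_apply]
      rw [this]; exact hg
    intro f hf
    have hf' : f ∈ (U : Set (T → ℤˣ)) := hf
    rw [hT.1] at hf'
    obtain ⟨p, hp, q, hq, hpq⟩ := Set.mem_mul.mp hf'
    have h1 := key p hp 1
    have h2 := key' q hq 1
    rw [pow_one] at h1 h2
    rw [← hpq, map_mul]
    exact U.mul_mem h1 h2
  -- every element of the range has finite order
  have hfin : ∀ a ∈ (shift T).range, IsOfFinOrder a := by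
    rintro a ⟨t, rfl⟩
    exact MonoidHom.isOfFinOrder (shift T) (htors t)
  obtain ⟨l, hnd, hl, heq⟩ := hall (T → ℤˣ) (shift T).range tidy (fun a U => Iff.rfl)
    (by
      rintro a ⟨t, rfl⟩
      refine continuous_pi fun x => ?_
      exact continuous_apply (t⁻¹ * x))
    ((Group.fg_iff_subgroup_fg _).mp (Group.fg_range _))
    ⟨⊤, by simpa using isCompact_univ, by simp, fun a _ => tidy_of_inv a ⊤ (by simp)
      (by simp [Set.image_univ, (MulEquiv.surjective a).range_eq])⟩
  -- the nub of each element is trivial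
  have hnub : ∀ a ∈ (shift T).range, (⋂ (U : Subgroup (T → ℤˣ))
      (_ : IsCompact (U : Set (T → ℤˣ)) ∧ IsOpen (U : Set (T → ℤˣ)) ∧ tidy a U),
      (U : Set (T → ℤˣ))) = (1 : Set (T → ℤˣ)) := by
    rintro a ⟨t, rfl⟩
    apply Set.eq_of_subset_of_subset
    · intro f hf
      rw [Set.mem_one]
      funext x
      -- the open invariant subgroup given by the orbit of `x`
      let E : Set T := (fun s => s * x) '' (Subgroup.zpowers t : Set T)
      have hE : E.Finite := by
        apply Set.Finite.image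
        exact zpowers_finite t (htors t)
      let U : Subgroup (T → ℤˣ) :=
        { carrier := {f | ∀ y ∈ E, f y = 1}
          mul_mem' := fun {f g} hf hg y hy => by
            simp only [Pi.mul_apply, hf y hy, hg y hy, mul_one]
          one_mem' := fun y hy => rfl
          inv_mem' := fun {f} hf y hy => by
            simp only [Pi.inv_apply, hf y hy, inv_one] }
      have hUo : IsOpen (U : Set (T → ℤˣ)) := isOpen_triv E hE
      have hUc : IsClosed (U : Set (T → ℤˣ)) := U.isClosed_of_isOpen hUo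
      have hinv : Set.image (⇑(shift T t)) (U : Set (T → ℤˣ)) = U := by
        have hEt : ∀ s ∈ Subgroup.zpowers t, ∀ y ∈ E, s * y ∈ E := by
          rintro s hs y ⟨r, hr, rfl⟩
          exact ⟨s * r, mul_mem hs hr, by simp [mul_assoc]⟩
        apply Set.eq_of_subset_of_subset
        · rintro _ ⟨g, hg, rfl⟩ y hy
          rw [shift_apply]
          exact hg _ (hEt _ (inv_mem (Subgroup.mem_zpowers t)) y hy)
        · intro g hg
          refine ⟨(shift T t)⁻¹ g, ?_, by rw [← MulAut.mul_apply]; simp⟩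
          intro y hy
          rw [← map_inv, shift_apply]
          exact hg _ (hEt _ (by simp) y hy)
      have h1 := Set.mem_iInter₂.mp hf U ⟨hUc.isCompact, hUo, tidy_of_inv _ U hUc hinv⟩
      have h2 := h1 x ⟨1, one_mem _, one_mul x⟩
      exact h2
    · intro f hf
      rw [Set.mem_one] at hf
      subst hf
      exact Set.mem_iInter₂.mpr fun U _ => U.one_mem
  have hprod : (l.map (fun a => ⋂ (U : Subgroup (T → ℤˣ))
              (_ : IsCompact (U : Set (T → ℤˣ)) ∧ IsOpen (U : Set (T → ℤˣ)) ∧ tidy a U),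
              (U : Set (T → ℤˣ)))).prod = (1 : Set (T → ℤˣ)) := by
    apply List.prod_eq_one
    intro s hs
    obtain ⟨a, ha, rfl⟩ := List.mem_map.mp hs
    exact hnub a (hl a ha)
  rw [hprod] at heq
  -- but the nub of the whole group is everything
  let f0 : T → ℤˣ := fun _ => -1
  have hf0 : f0 ∈ (⋂ (U : Subgroup (T → ℤˣ))
            (_ : IsCompact (U : Set (T → ℤˣ)) ∧ IsOpen (U : Set (T → ℤˣ)) ∧
              ∀ a ∈ (shift T).range, tidy a U),
            (U : Set (T → ℤˣ))) := by
    refine Set.mem_iInter₂.mpr ?_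
    rintro U ⟨-, hUo, hUt⟩
    obtain ⟨E, hE⟩ := exists_triv (U : Set (T → ℤˣ)) hUo U.one_mem
    -- choose `t` with `t E` disjoint from `E`
    classical
    obtain ⟨t, ht⟩ := Infinite.exists_notMem_finset
      ((E ×ˢ E).image (fun p : T × T => p.1 * p.2⁻¹))
    have hdisj : ∀ y ∈ E, t⁻¹ * y ∉ E := by
      intro y hy hty
      apply ht
      rw [Finset.mem_image]
      exact ⟨(y, t⁻¹ * y), Finset.mem_product.mpr ⟨hy, hty⟩, by simp⟩
    -- decompose
    let g : T → ℤˣ := fun x => if x ∈ E then 1 else f0 x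
    let h : T → ℤˣ := fun x => if x ∈ E then f0 x else 1
    have hgU : g ∈ U := hE g (fun x hx => by simp [g, hx])
    have hh' : (shift T t)⁻¹ h ∈ U := by
      apply hE
      intro x hx
      rw [← map_inv, shift_apply, inv_inv]
      have : t * x ∉ E := by
        intro hmem
        exact hdisj _ hmem (by simpa using hx)
      simp [h, this]
    have hhU : h ∈ U := by
      have := inv_of_tidy (shift T t) U (hfin _ ⟨t, rfl⟩) (hUt _ ⟨t, rfl⟩) _ hh'
      rwa [← MulAut.mul_apply, mul_inv_cancel, MulAut.one_apply] at this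
    have : f0 = g * h := by
      funext x
      by_cases hx : x ∈ E <;> simp [g, h, hx]
    rw [this]
    exact U.mul_mem hgU hhU
  rw [heq, Set.mem_one] at hf0
  have := congrFun hf0 (1 : T)
  simp [f0] at this

end Pool.Agent.S00878
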