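import Pool.Statements.S00905
import Pool.Agent.R668.ZarProd

set_option autoImplicit false
open Pool Pool.MP_207b86_al

namespace Pool.Agent.S00905

open Pool.Agent.R668.ZarProd

/-- the word map of a word with constants is continuous for the product topology -/
theorem cont (w : Monoid.Coprod GG (FreeGroup Unit)) :
    Continuous (fun g : GG =>
      Monoid.Coprod.lift (MonoidHom.id GG) (FreeGroup.lift (fun _ => g)) w) := by
  induction w using Monoid.Coprod.induction_on with
  | inl m => simpa using continuous_const
  | inr n =>
    simp only [Monoid.Coprod.lift_apply_inr]
    induction n using FreeGroup.induction_on with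
    | C1 => simpa using continuous_const
    | of x =>
      simp only [FreeGroup.lift_apply_of]
      exact continuous_id
    | inv_of x _ =>
      simp only [map_inv, FreeGroup.lift_apply_of]
      exact continuous_inv
    | mul x y hx hy =>
      simp only [map_mul]
      exact hx.mul hy
  | mul x y hx hy =>
    simp only [map_mul]
    exact hx.mul hy

/-- There is an infinite group whose Zariski topology is both compact and Hausdorff. The closed sets of that topology are generated by solution sets of one-variable equations with constants from the group. -/
theorem result :
    ∃ (G : Type) (_ : Group G) (T : TopologicalSpace G),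
      Infinite G ∧
      T = TopologicalSpace.generateFrom
        {U : Set G | ∃ w : Monoid.Coprod G (FreeGroup Unit),
          U = {g : G | Monoid.Coprod.lift (MonoidHom.id G) (FreeGroup.lift (fun _ => g)) w = 1}ᶜ} ∧
      @CompactSpace G T ∧ @T2Space G T := by
  refine ⟨GG, inferInstance, Pi.topologicalSpace, inferInstance, ?_, inferInstance, inferInstance⟩
  symm
  apply eq_pi
  · rintro U ⟨w, rfl⟩
    rw [isOpen_compl_iff]
    exact isClosed_singleton.preimage (cont w)
  · intro a f
    refine ⟨(Monoid.Coprod.inl a⁻¹ * Monoid.Coprod.inr (FreeGroup.of ())) * Monoid.Coprod.inl f *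
      (Monoid.Coprod.inl a⁻¹ * Monoid.Coprod.inr (FreeGroup.of ()))⁻¹ * Monoid.Coprod.inl f⁻¹, ?_⟩
    ext x
    simp

end Pool.Agent.S00905
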