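import Pool.Statements.S01012

set_option autoImplicit false
open Pool Pool.MP_293fae_al

namespace Pool.Agent.S01012

open Polynomial

/-- The homomorphism from the Gaussian integers to the field with two elements. -/
noncomputable def psi : GaussianInt →+* ZMod 2 :=
  Zsqrtd.lift ⟨1, by decide⟩

theorem psi_apply (z : GaussianInt) : psi z = ((z.re + z.im : ℤ) : ZMod 2) := by
  have h : psi z = (z.re : ZMod 2) + (z.im : ZMod 2) * 1 := rfl
  rw [h]
  push_cast
  ring

/-- The homomorphism from the polynomials over the Gaussian integers to the field with two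
elements: the value at zero modulo `1 + i`. -/
noncomputable def phi : GaussianInt[X] →+* ZMod 2 :=
  psi.comp (evalRingHom 0)

theorem phi_apply (f : GaussianInt[X]) :
    phi f = (((f.eval 0).re + (f.eval 0).im : ℤ) : ZMod 2) := by
  have h : phi f = psi (f.eval 0) := rfl
  rw [h, psi_apply]

/-- The prime ideal `(1 + i, X)`. -/
noncomputable def P : Ideal GaussianInt[X] := RingHom.ker phi

instance : P.IsPrime := by
  unfold P
  exact RingHom.ker_isPrime phi

theorem mem_P {f : GaussianInt[X]} : f ∈ P ↔ (2 : ℤ) ∣ (f.eval 0).re + (f.eval 0).im := by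
  unfold P
  rw [RingHom.mem_ker, phi_apply, ZMod.intCast_zmod_eq_zero_iff_dvd]
  norm_num

/-- The Gaussian integer `1 + i`. -/
def pi0 : GaussianInt := ⟨1, 1⟩

theorem P_eq : P = Ideal.span {C pi0, X} := by
  apply le_antisymm
  · intro f hf
    rw [mem_P] at hf
    obtain ⟨k, hk⟩ := hf
    have h1 : f = C (f.eval 0) + X * (divX f) := by
      have := (divX_mul_X_add f)
      rw [mul_comm] at this
      conv_lhs => rw [← this]
      rw [add_comm, coeff_zero_eq_eval_zero]
    have h2 : f.eval 0 = pi0 * ⟨k, (f.eval 0).im - k⟩ := by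
      apply Zsqrtd.ext
      · simp [pi0, Zsqrtd.re_mul]
        linarith
      · simp [pi0, Zsqrtd.im_mul]
    rw [h1]
    apply Ideal.add_mem
    · rw [h2, C_mul]
      exact Ideal.mul_mem_right _ _ (Ideal.subset_span (by simp))
    · exact Ideal.mul_mem_right _ _ (Ideal.subset_span (by simp))
  · rw [Ideal.span_le]
    intro f hf
    simp only [Set.mem_insert_iff, Set.mem_singleton_iff] at hf
    rcases hf with rfl | rfl
    · show C pi0 ∈ P
      rw [mem_P]
      simp [pi0]
    · show X ∈ P
      rw [mem_P]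
      simp

theorem height_P : P.height = 2 := by
  apply le_antisymm
  · have h : P.height ≤ (({C pi0, X} : Set GaussianInt[X])).ncard := by
      apply Ideal.height_le_card_of_mem_minimalPrimes_span (Set.toFinite _)
      rw [← P_eq, Ideal.minimalPrimes_eq_subsingleton_self]
      exact Set.mem_singleton _
    refine h.trans ?_
    exact_mod_cast (Set.ncard_insert_le _ _).trans (by simp)
  · have hX : (Ideal.span {(X : GaussianInt[X])}).IsPrime := by
      rw [Ideal.span_singleton_prime X_ne_zero]
      exact prime_X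
    have h0 : (⊥ : Ideal GaussianInt[X]) < Ideal.span {(X : GaussianInt[X])} := by
      rw [bot_lt_iff_ne_bot, Ne, Ideal.span_singleton_eq_bot]
      exact X_ne_zero
    have h1 : Ideal.span {(X : GaussianInt[X])} < P := by
      refine lt_of_le_of_ne ?_ ?_
      · rw [P_eq]
        exact Ideal.span_mono (by simp)
      · intro h
        have h2 : C pi0 ∈ P := by rw [mem_P]; simp [pi0]
        rw [← h, Ideal.mem_span_singleton] at h2
        obtain ⟨g, hg⟩ := h2
        have h3 := congrArg (eval 0) hg
        simp [pi0] at h3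
        have h4 := congrArg Zsqrtd.re h3
        simp at h4
    have e0 := Ideal.height_add_one_le_of_lt_of_isPrime h0
    have e1 := Ideal.height_add_one_le_of_lt_of_isPrime h1
    calc (2 : ℕ∞) = 0 + 1 + 1 := by norm_num
      _ ≤ (⊥ : Ideal GaussianInt[X]).height + 1 + 1 := by rw [Ideal.height_bot]
      _ ≤ (Ideal.span {(X : GaussianInt[X])}).height + 1 := by gcongr
      _ ≤ P.height := e1

/-- The local ring of the polynomials over the Gaussian integers at `(1 + i, X)`. -/
abbrev R : Type := Localization.AtPrime P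

instance : IsDomain R :=
  IsLocalization.isDomain_localization P.primeCompl_le_nonZeroDivisors

theorem ringKrullDim_R : ringKrullDim R = 2 := by
  rw [IsLocalization.AtPrime.ringKrullDim_eq_height P R, height_P]
  rfl

theorem maximalIdeal_R : IsLocalRing.maximalIdeal R =
    Ideal.span {algebraMap GaussianInt[X] R (C pi0), algebraMap GaussianInt[X] R X} := by
  rw [← Localization.AtPrime.map_eq_maximalIdeal]
  refine (congrArg (Ideal.map (algebraMap GaussianInt[X] R)) P_eq).trans ?_
  rw [Ideal.map_span, Set.image_insert_eq, Set.image_singleton]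

/-- The Gaussian integer `2 + 2 i`. -/
def w0 : GaussianInt := ⟨2, 2⟩

theorem key4 : ∀ a b c d : ZMod 4, ¬ (a * a - b * b + (c * c - d * d) = 2 ∧
    2 * (a * b) + 2 * (c * d) = 2) := by decide

theorem key_uv : ∀ u v : ZMod 4, (2 : ZMod 4) * (u + v) = 2 →
    2 * (u * u - v * v) - 2 * (2 * (u * v)) = 2 ∧ 2 * (u * u - v * v) + 2 * (2 * (u * v)) = 2 := by
  decide

/-- No multiple of `2 + 2 i` by the square of a Gaussian integer prime to `1 + i` is a sum of two
squares of Gaussian integers. -/
theorem no_rep (s a b : GaussianInt) (hs : ¬ (2 : ℤ) ∣ s.re + s.im)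
    (h : w0 * s ^ 2 = a ^ 2 + b ^ 2) : False := by
  have hre := congrArg Zsqrtd.re h
  have him := congrArg Zsqrtd.im h
  simp only [w0, pow_two, Zsqrtd.re_mul, Zsqrtd.im_mul, Zsqrtd.re_add, Zsqrtd.im_add] at hre him
  have hre4 := congrArg (Int.cast : ℤ → ZMod 4) hre
  have him4 := congrArg (Int.cast : ℤ → ZMod 4) him
  push_cast at hre4 him4
  have hodd : (2 : ZMod 4) * ((s.re : ZMod 4) + (s.im : ZMod 4)) = 2 := by
    have h1 : (s.re + s.im) % 2 = 1 := by omega
    obtain ⟨k, hk⟩ : ∃ k, s.re + s.im = 2 * k + 1 := ⟨(s.re + s.im) / 2, by omega⟩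
    have h2 : (s.re : ZMod 4) + (s.im : ZMod 4) = 2 * (k : ZMod 4) + 1 := by
      have := congrArg (Int.cast : ℤ → ZMod 4) hk
      push_cast at this
      exact this
    rw [h2]
    have h4 : (4 : ZMod 4) = 0 := by decide
    linear_combination (k : ZMod 4) * h4
  obtain ⟨e1, e2⟩ := key_uv _ _ hodd
  apply key4 (a.re : ZMod 4) (a.im : ZMod 4) (b.re : ZMod 4) (b.im : ZMod 4)
  constructor
  · linear_combination e1 - hre4
  · linear_combination e2 - him4

theorem not_two (f : Fin 2 → R) : algebraMap GaussianInt[X] R (C w0) ≠ ∑ i, f i ^ 2 := by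
  classical
  intro h
  rw [Fin.sum_univ_two] at h
  obtain ⟨s, hs⟩ := IsLocalization.exist_integer_multiples_of_finset P.primeCompl
    ({f 0, f 1} : Finset R)
  obtain ⟨a, ha⟩ := hs (f 0) (by simp)
  obtain ⟨b, hb⟩ := hs (f 1) (by simp)
  have hinj : Function.Injective (algebraMap GaussianInt[X] R) :=
    IsLocalization.injective R P.primeCompl_le_nonZeroDivisors
  have h1 : C w0 * (s : GaussianInt[X]) ^ 2 = a ^ 2 + b ^ 2 := by
    apply hinj
    rw [map_mul, map_pow, map_add, map_pow, map_pow, ha, hb, h]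
    simp only [Algebra.smul_def]
    ring
  have h2 := congrArg (eval 0) h1
  simp only [eval_mul, eval_pow, eval_add, eval_C] at h2
  apply no_rep _ _ _ _ h2
  have h3 : (s : GaussianInt[X]) ∉ P := s.2
  rw [mem_P] at h3
  exact h3

theorem sumSq : IsSumSq (algebraMap GaussianInt[X] R (C w0)) := by
  have h : algebraMap GaussianInt[X] R (C w0) =
      algebraMap GaussianInt[X] R (C ⟨2, 1⟩) * algebraMap GaussianInt[X] R (C ⟨2, 1⟩) +
      (algebraMap GaussianInt[X] R (C ⟨-1, 1⟩) * algebraMap GaussianInt[X] R (C ⟨-1, 1⟩) +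
      (algebraMap GaussianInt[X] R (C ⟨0, 1⟩) * algebraMap GaussianInt[X] R (C ⟨0, 1⟩) + 0)) := by
    have key : w0 = ⟨2, 1⟩ * ⟨2, 1⟩ + (⟨-1, 1⟩ * ⟨-1, 1⟩ + ⟨0, 1⟩ * ⟨0, 1⟩) := by
      apply Zsqrtd.ext <;> simp [w0, Zsqrtd.re_mul, Zsqrtd.im_mul]
    rw [key]
    simp only [map_add, map_mul, add_zero]
  rw [h]
  exact IsSumSq.sq_add _ (IsSumSq.sq_add _ (IsSumSq.sq_add _ IsSumSq.zero))

/-- In the field of fractions of a domain of characteristic different from two that contains a
square root of `-1`, every element is a sum of two squares. -/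
theorem two_squares {B : Type} [CommRing B] [IsDomain B] (j : B) (hj : j * j = -1)
    (h2 : (2 : B) ≠ 0) (K : Type) [Field K] [Algebra B K] [IsFractionRing B K] (x : K) :
    ∃ f : Fin 2 → K, x = ∑ i, f i ^ 2 := by
  set k : K := algebraMap B K j with hk
  have hk2 : k * k = -1 := by
    rw [hk, ← map_mul, hj]
    simp
  have h2' : (2 : K) ≠ 0 := by
    intro h0
    apply h2
    apply IsFractionRing.injective B K
    rw [map_zero, map_ofNat]
    exact h0
  refine ⟨![(x + 1) / 2, k * (x - 1) / 2], ?_⟩
  rw [Fin.sum_univ_two]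
  simp only [Matrix.cons_val_zero, Matrix.cons_val_one]
  field_simp
  linear_combination (-(x - 1) ^ 2) * hk2

theorem final (H : ∀ (R : Type) [CommRing R] [IsDomain R] [IsLocalRing R] [IsNoetherianRing R],
      ringKrullDim R = 2 →
      (∃ a b : R, IsLocalRing.maximalIdeal R = Ideal.span {a, b}) →
      ∀ (K : Type) [Field K] [Algebra R K] [IsFractionRing R K],
      ∀ n : ℕ,
        ((∀ x : R, IsSumSq x → ∃ f : Fin n → R, x = ∑ i, f i ^ 2) ↔
          (∀ x : K, IsSumSq x → ∃ f : Fin n → K, x = ∑ i, f i ^ 2)))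
    {B : Type} [CommRing B] [IsDomain B] [IsLocalRing B] [IsNoetherianRing B]
    (hdim : ringKrullDim B = 2)
    (hmax : ∃ a b : B, IsLocalRing.maximalIdeal B = Ideal.span {a, b})
    (j : B) (hj : j * j = -1) (h2 : (2 : B) ≠ 0) (x0 : B) (hx0 : IsSumSq x0)
    (hno : ∀ f : Fin 2 → B, x0 ≠ ∑ i, f i ^ 2) : False := by
  obtain ⟨f, hf⟩ := (H B hdim hmax (FractionRing B) 2).2
    (fun x _ => two_squares j hj h2 (FractionRing B) x) x0 hx0
  exact hno f hf

/-- The negation of the preceding statement: For every 2-dimensional regular local ring R with fraction field K, and every n, every sum of squares in R is a sum of n squares iff the same holds in K; that is, the Pythagoras numbers of R and K agree. -/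
theorem result :
    ¬ (∀ (R : Type) [CommRing R] [IsDomain R] [IsLocalRing R] [IsNoetherianRing R],
      ringKrullDim R = 2 →
      (∃ a b : R, IsLocalRing.maximalIdeal R = Ideal.span {a, b}) →
      ∀ (K : Type) [Field K] [Algebra R K] [IsFractionRing R K],
      ∀ n : ℕ,
        ((∀ x : R, IsSumSq x → ∃ f : Fin n → R, x = ∑ i, f i ^ 2) ↔
          (∀ x : K, IsSumSq x → ∃ f : Fin n → K, x = ∑ i, f i ^ 2))) := by
  intro H
  have : IsNoetherianRing R := IsLocalization.isNoetherianRing P.primeCompl R inferInstance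
  have hinj : Function.Injective (algebraMap GaussianInt[X] R) :=
    IsLocalization.injective R P.primeCompl_le_nonZeroDivisors
  refine final H (B := R) ringKrullDim_R ⟨_, _, maximalIdeal_R⟩
    (algebraMap GaussianInt[X] R (C ⟨0, 1⟩)) ?_ ?_ _ sumSq not_two
  · have : (⟨0, 1⟩ : GaussianInt) * ⟨0, 1⟩ = -1 := by
      apply Zsqrtd.ext <;> simp [Zsqrtd.re_mul, Zsqrtd.im_mul]
    rw [← map_mul, ← map_mul, this]
    simp
  · intro h0
    have h1 : (2 : GaussianInt[X]) = 0 := by
      apply hinj
      rw [map_zero, map_ofNat]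
      exact h0
    have h3 := congrArg (eval 0) h1
    simp at h3

end Pool.Agent.S01012
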