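import Pool.Statements.S01384
import Pool.Agent.R673.KTMain

set_option autoImplicit false
open Pool Pool.MP_4b4c0c_al

namespace Pool.Agent.S01384

open Pool.Agent.R673.KT in
/-- The negation of the preceding statement: Every 3-transitive group on at least 3 points whose 3-point stabilizers are trivial and whose 2-point stabilizers have no involutions is permutation-isomorphic to PGL_2(P) on the projective line over some field P of characteristic 2. -/
theorem result :
    ¬ (∀ (G X : Type) [Group G] [MulAction G X],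
      (∃ a b c : X, a ≠ b ∧ a ≠ c ∧ b ≠ c) →
      (∀ a b c a' b' c' : X, a ≠ b → a ≠ c → b ≠ c → a' ≠ b' → a' ≠ c' → b' ≠ c' →
        ∃ g : G, g • a = a' ∧ g • b = b' ∧ g • c = c') →
      (∀ a b : X, a ≠ b → ∀ g : G, g • a = a → g • b = b → g * g = 1 → g = 1) →
      (∀ a b c : X, a ≠ b → a ≠ c → b ≠ c → ∀ g : G,
        g • a = a → g • b = b → g • c = c → g = 1) →
      ∃ (P : Type) (_ : Field P), CharP P 2 ∧
        ∃ e : X ≃ Projectivization P (Fin 2 → P),
          ∀ σ : Equiv.Perm (Projectivization P (Fin 2 → P)),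
            ((∃ g : G, ∀ x : X, σ (e x) = e (g • x)) ↔
              ∃ A : Matrix.GeneralLinearGroup (Fin 2) P,
                ∀ (v : Fin 2 → P) (hv : v ≠ 0) (w : Fin 2 → P) (hw : w ≠ 0),
                  w = Matrix.mulVec (A : Matrix (Fin 2) (Fin 2) P) v →
                    σ (Projectivization.mk P v hv) = Projectivization.mk P w hw)) := by
  intro H
  have X0 := X_ne
  have hX2 : (RatFunc.X * RatFunc.X : F) ≠ 0 := mul_ne_zero X0 X0
  -- two elements fixing the two base points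
  have hd1 : (dg (RatFunc.X * RatFunc.X)).det ≠ 0 := by rw [det_dg]; exact hX2
  have hd2 : (dg RatFunc.X).det ≠ 0 := by rw [det_dg]; exact X0
  have deg1 : RatFunc.intDegree (RatFunc.X * RatFunc.X : F) = 2 := by
    rw [RatFunc.intDegree_mul X0 X0, RatFunc.intDegree_X]; norm_num
  have deg2 : RatFunc.intDegree (RatFunc.X : F) = 1 := RatFunc.intDegree_X
  have ev : Even (2 : ℤ) := by decide
  have od : ¬ Even (1 : ℤ) := by decide
  have t1 : ∀ x : F, TF.tau 2 x = x := fun x => tau_even TF ev x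
  have t2 : ∀ x : F, TF.tau 1 x = shift x := fun x => tau_odd TF od x
  refine not_pgl TF (pm TF _ hd1) (pm TF _ hd2) (pm_mem TF _ hd1) (pm_mem TF _ hd2)
    ?_ ?_ ?_ ?_ ?_
    (H (GG TF) (X F) ⟨p1, p2, p3, p12, p13, p23⟩ ?_ ?_ ?_)
  · rw [p1, pm_mk, Projectivization.mk_eq_mk_iff']
    refine ⟨RatFunc.X * RatFunc.X, ?_⟩
    rw [act_dg _ _ deg1]
    ext i; fin_cases i <;> simp [e1]
  · rw [p2, pm_mk, Projectivization.mk_eq_mk_iff']
    refine ⟨1, ?_⟩
    rw [act_dg _ _ deg1]
    ext i; fin_cases i <;> simp [e2]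
  · rw [p1, pm_mk, Projectivization.mk_eq_mk_iff']
    refine ⟨RatFunc.X, ?_⟩
    rw [act_dg _ _ deg2]
    ext i; fin_cases i <;> simp [e1]
  · rw [p2, pm_mk, Projectivization.mk_eq_mk_iff']
    refine ⟨1, ?_⟩
    rw [act_dg _ _ deg2]
    ext i; fin_cases i <;> simp [e2]
  · intro h
    rw [p3, pm_mk, pm_mk, pm_mk, pm_mk, Projectivization.mk_eq_mk_iff'] at h
    obtain ⟨a, ha⟩ := h
    rw [act_dg _ _ deg1, act_dg _ _ deg2, act_dg _ _ deg2, act_dg _ _ deg1] at ha
    have h0 := congrFun ha 0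
    have h1 := congrFun ha 1
    simp [e3, t1, t2, shift_X] at h0 h1
    rw [h1] at h0
    have h5 : (RatFunc.X : F) * (RatFunc.X * (RatFunc.X + 1) + (RatFunc.X + 1)) = 
        RatFunc.X * (RatFunc.X * RatFunc.X + RatFunc.X) + RatFunc.X * (RatFunc.X + 1) := by ring
    have h2' : (2 : F) = 0 := CharTwo.two_eq_zero
    have h6 : (RatFunc.X : F) = 0 := by
      linear_combination h0 - (RatFunc.X * RatFunc.X) * h2'
    exact X0 h6
  · intro a b c a' b' c' h1 h2 h3 h4 h5 h6
    obtain ⟨g, hg, k1, k2, k3⟩ := transitive3 TF a b c a' b' c' h1 h2 h3 h4 h5 h6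
    exact ⟨⟨g, hg⟩, k1, k2, k3⟩
  · rintro a b hab ⟨g, hg⟩ k1 k2 k3
    have := fix2 TF a b hab g hg k1 k2 (by simpa using congrArg Subtype.val k3)
    exact Subtype.ext this
  · rintro a b c hab hac hbc ⟨g, hg⟩ k1 k2 k3
    have := fix3 TF a b c hab hac hbc g hg k1 k2 k3
    exact Subtype.ext this

end Pool.Agent.S01384
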