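import Pool.Statements.S01554

set_option autoImplicit false
open Pool Pool.MP_58cc81_al

namespace Pool.Agent.S01554

/-- the discrete elementary abelian group of countable rank -/
def V : Type := ℕ →₀ ZMod 2

noncomputable instance : AddCommGroup V := inferInstanceAs (AddCommGroup (ℕ →₀ ZMod 2))

instance : TopologicalSpace V := ⊥

instance : DiscreteTopology V := ⟨rfl⟩

/-- the compact connected group -/
abbrev K : Type := ℕ × ℕ → Circle

/-- coordinates of elements of `V` -/
def co (v : V) (i : ℕ) : ZMod 2 := (show ℕ →₀ ZMod 2 from v) i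

theorem co_add (v w : V) (i : ℕ) : co (v + w) i = co v i + co w i := rfl

theorem co_zero (i : ℕ) : co 0 i = 0 := rfl

theorem co_neg (v : V) (i : ℕ) : co (-v) i = - co v i := rfl

theorem V_ext {v w : V} (h : ∀ i, co v i = co w i) : v = w := Finsupp.ext h

/-- the bilinear map -/
noncomputable def bet (v w : V) : K := fun p =>
  if p.1 < p.2 then ZMod.toCircle (N := 2) (co v p.1 * co w p.2) else 1

theorem bet_add_left (v v' w : V) : bet (v + v') w = bet v w * bet v' w := by
  funext p
  simp only [bet, Pi.mul_apply]
  split_ifs with h
  · rw [co_add, add_mul, AddChar.map_add_eq_mul]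
  · simp

theorem bet_add_right (v w w' : V) : bet v (w + w') = bet v w * bet v w' := by
  funext p
  simp only [bet, Pi.mul_apply]
  split_ifs with h
  · rw [co_add, mul_add, AddChar.map_add_eq_mul]
  · simp

theorem bet_zero_left (w : V) : bet 0 w = 1 := by
  funext p
  simp [bet, co_zero]

theorem bet_zero_right (w : V) : bet w 0 = 1 := by
  funext p
  simp [bet, co_zero]

/-- the group -/
@[ext] structure G : Type where
  /-- central coordinate -/
  z : K
  /-- discrete coordinate -/
  v : V

/-- the underlying equivalence with the product -/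
def G.equiv : G ≃ K × V where
  toFun g := (g.z, g.v)
  invFun p := ⟨p.1, p.2⟩
  left_inv _ := rfl
  right_inv _ := rfl

noncomputable instance : Mul G := ⟨fun g h => ⟨g.z * h.z * bet g.v h.v, g.v + h.v⟩⟩
noncomputable instance : One G := ⟨⟨1, 0⟩⟩
noncomputable instance : Inv G := ⟨fun g => ⟨g.z⁻¹ * (bet g.v (-g.v))⁻¹, -g.v⟩⟩

theorem mul_z (g h : G) : (g * h).z = g.z * h.z * bet g.v h.v := rfl
theorem mul_v (g h : G) : (g * h).v = g.v + h.v := rfl
theorem one_z : (1 : G).z = 1 := rfl
theorem one_v : (1 : G).v = 0 := rfl
theorem inv_z (g : G) : (g⁻¹).z = g.z⁻¹ * (bet g.v (-g.v))⁻¹ := rfl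
theorem inv_v (g : G) : (g⁻¹).v = -g.v := rfl

theorem bet_neg_swap (v : V) : bet (-v) v = bet v (-v) := by
  have h1 : bet (-v) v * bet v v = 1 := by
    rw [← bet_add_left, neg_add_cancel, bet_zero_left]
  have h2 : bet v (-v) * bet v v = 1 := by
    rw [← bet_add_right, neg_add_cancel, bet_zero_right]
  exact mul_right_cancel (h1.trans h2.symm)

noncomputable instance : Group G :=
  Group.ofLeftAxioms
    (by
      intro a b c
      ext1
      · simp only [mul_z, mul_v, bet_add_left, bet_add_right]
        simp only [mul_comm, mul_left_comm]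
      · simp only [mul_v, add_assoc])
    (by
      intro a
      ext1
      · simp only [mul_z, one_z, one_v, bet_zero_left, one_mul, mul_one]
      · simp only [mul_v, one_v, zero_add])
    (by
      intro a
      ext1
      · simp only [mul_z, inv_z, inv_v, one_z, bet_neg_swap]
        rw [mul_right_comm a.z⁻¹, inv_mul_cancel, one_mul, inv_mul_cancel]
      · simp only [mul_v, inv_v, one_v, neg_add_cancel])

noncomputable instance : TopologicalSpace G := TopologicalSpace.induced G.equiv inferInstance

/-- homeomorphism with the product -/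
noncomputable def G.homeo : G ≃ₜ K × V := G.equiv.toHomeomorphOfIsInducing ⟨rfl⟩

theorem continuous_z : Continuous (G.z) := continuous_fst.comp G.homeo.continuous
theorem continuous_v : Continuous (G.v) := continuous_snd.comp G.homeo.continuous

theorem continuous_mk {X : Type} [TopologicalSpace X] {f : X → K} {g : X → V}
    (hf : Continuous f) (hg : Continuous g) : Continuous (fun x => (⟨f x, g x⟩ : G)) := by
  exact G.homeo.symm.continuous.comp (hf.prodMk hg)

theorem continuous_bet {X : Type} [TopologicalSpace X] {f g : X → V}
    (hf : Continuous f) (hg : Continuous g) : Continuous (fun x => bet (f x) (g x)) := by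
  have hd : DiscreteTopology (V × V) := inferInstance
  have h : Continuous (Function.uncurry bet : V × V → K) :=
    continuous_of_discreteTopology
  have h2 : Continuous (fun x => (f x, g x)) := hf.prodMk hg
  have h3 : Continuous (Function.uncurry bet ∘ (fun x => (f x, g x))) := Continuous.comp h h2
  exact h3

theorem cont_mul : Continuous (fun p : G × G => p.1 * p.2) := by
  have h1 : Continuous (fun p : G × G => p.1.z * p.2.z * bet p.1.v p.2.v) :=
    ((continuous_z.comp continuous_fst).mul (continuous_z.comp continuous_snd)).mul
        (continuous_bet (continuous_v.comp continuous_fst) (continuous_v.comp continuous_snd))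
  have h2 : Continuous (fun p : G × G => p.1.v + p.2.v) :=
    (continuous_of_discreteTopology (f := fun p : V × V => p.1 + p.2)).comp
        ((continuous_v.comp continuous_fst).prodMk (continuous_v.comp continuous_snd))
  exact continuous_mk h1 h2

theorem cont_inv : Continuous (fun p : G => p⁻¹) := by
  have h2 : Continuous (fun p : G => - p.v) :=
    (continuous_of_discreteTopology (f := fun p : V => -p)).comp continuous_v
  have h1 : Continuous (fun p : G => (p.z)⁻¹ * (bet p.v (-p.v))⁻¹) :=
    continuous_z.inv.mul (continuous_bet continuous_v h2).inv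
  exact continuous_mk h1 h2

instance : IsTopologicalGroup G where
  continuous_mul := cont_mul
  continuous_inv := cont_inv

instance : LocallyCompactSpace G :=
  G.homeo.isClosedEmbedding.locallyCompactSpace

instance : T2Space G := G.homeo.symm.t2Space

/-- central elements -/
theorem central (x g : G) (hx : x.v = 0) : g * x * g⁻¹ = x := by
  have h : g * x = x * g := by
    ext1
    · simp only [mul_z, hx, bet_zero_left, bet_zero_right, mul_one]
      exact mul_comm _ _
    · simp only [mul_v, hx, add_zero, zero_add]
  rw [h, mul_inv_cancel_right]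

/-- commuting elements have proportional images -/
theorem prop_of_comm (a b : G) (h : a * b = b * a) (ha : a.v ≠ 0) : b.v = 0 ∨ b.v = a.v := by
  have h1 : bet a.v b.v = bet b.v a.v := by
    have h2 := congrArg G.z h
    simp only [mul_z] at h2
    rw [mul_comm b.z a.z] at h2
    exact mul_left_cancel h2
  have h3 : ∀ i j : ℕ, i < j → co a.v i * co b.v j = co b.v i * co a.v j := by
    intro i j hij
    have h4 := congrFun h1 (i, j)
    simp only [bet, hij, if_true] at h4
    exact ZMod.injective_toCircle h4
  have h5 : ∀ i j : ℕ, co a.v i * co b.v j = co b.v i * co a.v j := by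
    intro i j
    rcases lt_trichotomy i j with hij | hij | hij
    · exact h3 i j hij
    · subst hij; exact mul_comm _ _
    · rw [mul_comm, mul_comm (co b.v i)]
      exact (h3 j i hij).symm
  obtain ⟨i, hi⟩ : ∃ i, co a.v i ≠ 0 := by
    by_contra hcon
    push Not at hcon
    exact ha (V_ext fun i => by rw [hcon i, co_zero])
  have hz : ∀ x : ZMod 2, x ≠ 0 → x = 1 := by decide
  have hi1 := hz _ hi
  have hz2 : ∀ x : ZMod 2, x = 0 ∨ x = 1 := by decide
  rcases hz2 (co b.v i) with h0 | h0
  · left
    apply V_ext
    intro j
    have := h5 i j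
    rw [hi1, h0, one_mul, zero_mul] at this
    rw [this, co_zero]
  · right
    apply V_ext
    intro j
    have := h5 i j
    rwa [hi1, h0, one_mul, one_mul] at this

/-- preimages of finite subsets of `V` are compact -/
theorem compact_fiber (F : Set V) (hF : F.Finite) : IsCompact {g : G | g.v ∈ F} := by
  have h : {g : G | g.v ∈ F} = G.homeo.symm '' (Set.univ ×ˢ F) := by
    ext g
    constructor
    · intro hg
      exact ⟨(g.z, g.v), ⟨trivial, hg⟩, rfl⟩
    · rintro ⟨⟨z, v⟩, ⟨-, hv⟩, rfl⟩
      exact hv
  rw [h]
  exact (isCompact_univ.prod hF.isCompact).image G.homeo.symm.continuous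

theorem compact_closure_of_subset (S : Set G) (F : Set V) (hF : F.Finite)
    (h : ∀ g ∈ S, g.v ∈ F) : IsCompact (closure S) := by
  refine IsCompact.of_isClosed_subset (compact_fiber F hF) isClosed_closure ?_
  exact closure_minimal h ((compact_fiber F hF).isClosed)

theorem sin_G : ∀ U ∈ nhds (1 : G), ∃ V ∈ nhds (1 : G), V ⊆ U ∧
    ∀ g x : G, x ∈ V → g * x * g⁻¹ ∈ V := by
  intro U hU
  refine ⟨U ∩ {g | g.v = 0}, ?_, Set.inter_subset_left, ?_⟩
  · refine Filter.inter_mem hU ?_
    have hopen : IsOpen {g : G | g.v = 0} := (isOpen_discrete {(0 : V)}).preimage continuous_v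
    exact hopen.mem_nhds one_v
  · intro g x hx
    rw [central x g hx.2]
    exact hx

theorem abelian_G : ∀ H : Subgroup G, (∀ a ∈ H, ∀ b ∈ H, a * b = b * a) →
    IsCompact (closure (H : Set G)) := by
  intro H hH
  by_cases hcase : ∀ a ∈ H, a.v = 0
  · exact compact_closure_of_subset _ {0} (Set.finite_singleton _) hcase
  · push Not at hcase
    obtain ⟨a, haH, ha⟩ := hcase
    refine compact_closure_of_subset _ {0, a.v} (Set.toFinite _) ?_
    intro b hb
    rcases prop_of_comm a b (hH a haH b hb) ha with h | h
    · left; exact h
    · right; exact h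

theorem locfin_G : ∀ K : Set G, IsCompact (closure K) →
    IsCompact (closure ((Subgroup.closure K : Subgroup G) : Set G)) := by
  intro S hS
  have hfin : (G.v '' (closure S)).Finite := (hS.image continuous_v).finite_of_discrete
  -- a finite set of coordinates
  classical
  let E : Finset ℕ := hfin.toFinset.biUnion (fun v => (show ℕ →₀ ZMod 2 from v).support)
  let F : Set V := {v | ∀ i, i ∉ E → co v i = 0}
  have hF : F.Finite := by
    refine Set.Finite.subset (E.finsupp (fun _ => (Finset.univ : Finset (ZMod 2)))).finite_toSet ?_
    intro v hv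
    rw [Finset.mem_coe, Finset.mem_finsupp_iff]
    refine ⟨?_, fun _ _ => Finset.mem_univ _⟩
    intro i hi
    by_contra hiE
    exact (Finsupp.mem_support_iff.mp hi) (hv i hiE)
  let W : Subgroup G :=
    { carrier := {g | g.v ∈ F}
      mul_mem' := fun {a b} ha hb i hi => by
        rw [mul_v, co_add, ha i hi, hb i hi, add_zero]
      one_mem' := fun i _ => co_zero i
      inv_mem' := fun {a} ha i hi => by
        rw [inv_v, co_neg, ha i hi, neg_zero] }
  have hSW : S ⊆ (W : Set G) := by
    intro g hg i hi
    by_contra hne
    apply hi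
    refine Finset.mem_biUnion.mpr ⟨g.v, ?_, Finsupp.mem_support_iff.mpr hne⟩
    rw [Set.Finite.mem_toFinset]
    exact ⟨g, subset_closure hg, rfl⟩
  have hle : Subgroup.closure S ≤ W := (Subgroup.closure_le W).mpr hSW
  exact compact_closure_of_subset _ F hF (fun g hg => hle hg)

theorem result :
    ¬ (∀ (G : Type) [Group G] [TopologicalSpace G] [IsTopologicalGroup G]
      [LocallyCompactSpace G] [T2Space G],
      (∀ U ∈ nhds (1 : G), ∃ V ∈ nhds (1 : G), V ⊆ U ∧
          ∀ g x : G, x ∈ V → g * x * g⁻¹ ∈ V) →
      (∀ H : Subgroup G, (∀ a ∈ H, ∀ b ∈ H, a * b = b * a) →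
          IsCompact (closure (H : Set G))) →
      (∀ K : Set G, IsCompact (closure K) →
          IsCompact (closure ((Subgroup.closure K : Subgroup G) : Set G))) →
      TotallyDisconnectedSpace G ∨ CompactSpace G) := by
  intro hall
  have key : TotallyDisconnectedSpace G ∨ CompactSpace G := by
    apply hall G sin_G abelian_G locfin_G
  rcases key with h | h
  · -- not totally disconnected
    let f : ℝ → G := fun t => ⟨fun _ => Circle.exp t, 0⟩
    have hf : Continuous f := continuous_mk
      (continuous_pi fun _ => Circle.exp.continuous) continuous_const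
    have hs : (Set.range f).Subsingleton :=
      (isPreconnected_range hf).subsingleton
    have h0 : f 0 = f Real.pi := hs ⟨0, rfl⟩ ⟨Real.pi, rfl⟩
    have h1 := congrFun (congrArg G.z h0) (0, 0)
    have h2 : Circle.exp 0 = Circle.exp Real.pi := h1
    have h3 := congrArg (fun c : Circle => (c : ℂ)) h2
    simp at h3
    norm_num at h3
  · -- not compact
    have hc : IsCompact (Set.range G.v) := by
      rw [← Set.image_univ]
      exact isCompact_univ.image continuous_v
    have hfin : (Set.range G.v).Finite := hc.finite_of_discrete
    have hsurj : Set.range G.v = Set.univ := by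
      apply Set.eq_univ_of_forall
      intro v
      exact ⟨⟨1, v⟩, rfl⟩
    rw [hsurj] at hfin
    have hV : Finite V := Set.finite_univ_iff.mp hfin
    have hV' : Finite (ℕ →₀ ZMod 2) := hV
    have hinj : Function.Injective (fun n : ℕ => (Finsupp.single n 1 : ℕ →₀ ZMod 2)) :=
      Finsupp.single_left_injective (by decide)
    exact not_finite_iff_infinite.mpr inferInstance (Finite.of_injective _ hinj)
end Pool.Agent.S01554
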