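import Pool.Statements.S01591
import Pool.Agent.W386.Conv

set_option autoImplicit false
open Pool Pool.MP_5c61b4_al

namespace Pool.Agent.S01591

/-- For n ≥ 2, if π₁: Γ₁→Q and π₂: Γ₂→Q are surjective, ker π₁ is of type F_n, Γ₁ and Γ₂ are F_{n+1}, and Q is F_{n+2}, then the fibre product of Γ₁ and Γ₂ over Q is of type F_{n+1}. -/
theorem result :
  ∀ (IsF : ℕ → (G : Type) → Group G → Prop),
    (∀ (m : ℕ) (G : Type) (inst : Group G), IsF m G inst ↔
      ((∃ (r : ℕ) (f : FreeGroup (Fin r) →* G) (S : Finset (FreeGroup (Fin r))),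
          Function.Surjective f ∧ f.ker = Subgroup.normalClosure (↑S : Set (FreeGroup (Fin r)))) ∧
       (∃ (k : ℕ → ℕ) (ε : MonoidAlgebra ℤ G →+* ℤ)
          (d : ∀ i : ℕ, (Fin (k (i+1)) → MonoidAlgebra ℤ G) →ₗ[MonoidAlgebra ℤ G]
                (Fin (k i) → MonoidAlgebra ℤ G)),
          (∀ g : G, ε (MonoidAlgebra.of ℤ G g) = 1) ∧
          (∃ x : Fin (k 0) → MonoidAlgebra ℤ G, ∑ j, ε (x j) = 1) ∧
          (0 < m → ∀ x : Fin (k 0) → MonoidAlgebra ℤ G,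
              (∑ j, ε (x j) = 0 ↔ x ∈ LinearMap.range (d 0))) ∧
          (∀ j : ℕ, j + 2 ≤ m → LinearMap.range (d (j+1)) = LinearMap.ker (d j))))) →
    ∀ (n : ℕ), 2 ≤ n →
    ∀ (Γ₁ Γ₂ Q : Type) [Group Γ₁] [Group Γ₂] [Group Q] (π₁ : Γ₁ →* Q) (π₂ : Γ₂ →* Q),
      Function.Surjective π₁ → Function.Surjective π₂ →
      IsF n (↥π₁.ker) inferInstance →
      IsF (n+1) Γ₁ inferInstance →
      IsF (n+1) Γ₂ inferInstance →
      IsF (n+2) Q inferInstance →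
      IsF (n+1)
        (↥(MonoidHom.eqLocus (π₁.comp (MonoidHom.fst Γ₁ Γ₂)) (π₂.comp (MonoidHom.snd Γ₁ Γ₂))))
        inferInstance := by
  intro IsF hIsF n hn Γ₁ Γ₂ Q _ _ _ π₁ π₂ h1 h2 hN hG1 hG2 hQ
  have key : ∀ (m : ℕ) (G : Type) (inst : Group G), IsF m G inst ↔
      (Group.IsFinitelyPresented G ∧ Pool.Agent.W386.IsFdata m G) := by
    intro m G inst
    rw [hIsF m G inst, Pool.Agent.W386.fp_iff]
    rfl
  rw [key] at hN hG1 hG2 hQ ⊢
  obtain ⟨hNp, hNd⟩ := hN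
  obtain ⟨hG1p, hG1d⟩ := hG1
  obtain ⟨hG2p, hG2d⟩ := hG2
  obtain ⟨hQp, hQd⟩ := hQ
  let P := MonoidHom.eqLocus (π₁.comp (MonoidHom.fst Γ₁ Γ₂)) (π₂.comp (MonoidHom.snd Γ₁ Γ₂))
  let j : π₁.ker →* P :=
    { toFun := fun x => ⟨(x.1, 1), by
        change π₁ x.1 = π₂ 1
        rw [map_one]; exact x.2⟩
      map_one' := rfl
      map_mul' := fun x y => Subtype.ext (Prod.ext rfl (mul_one 1).symm) }
  let π : P →* Γ₁ := (MonoidHom.fst Γ₁ Γ₂).comp P.subtype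
  let b : P →* Γ₂ := (MonoidHom.snd Γ₁ Γ₂).comp P.subtype
  have hπ : Function.Surjective π := by
    intro x
    obtain ⟨y, hy⟩ := h2 (π₁ x)
    exact ⟨⟨(x, y), hy.symm⟩, rfl⟩
  have hb : Function.Surjective b := by
    intro y
    obtain ⟨x, hx⟩ := h1 (π₂ y)
    exact ⟨⟨(x, y), hx⟩, rfl⟩
  have hj : Function.Injective (π.comp j) := fun x y hxy => Subtype.ext hxy
  have hj' : Function.Injective j := fun x y hxy => hj (congrArg π hxy)
  have hjb : b.ker = j.range := by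
    ext ⟨⟨x, y⟩, hxy⟩
    constructor
    · intro hy
      have hy' : y = 1 := hy
      subst hy'
      have hx : π₁ x = 1 := by
        have : π₁ x = π₂ 1 := hxy
        rw [this, map_one]
      exact ⟨⟨x, hx⟩, rfl⟩
    · rintro ⟨z, hz⟩
      have := congrArg (fun w : P => (w : Γ₁ × Γ₂).2) hz
      exact this.symm
  have hjc : π₁.ker = (π.comp j).range := by
    ext x
    constructor
    · intro hx
      exact ⟨⟨x, hx⟩, rfl⟩
    · rintro ⟨z, rfl⟩
      exact z.2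
  have hPp : Group.IsFinitelyPresented P :=
    Pool.Agent.W386.fp_ext j hj' b hb hjb hNp hG2p
  have hPfg : Group.FG P := Pool.Agent.W386.fp_fg hPp
  refine ⟨hPp, ?_⟩
  apply Pool.Agent.W386.data_of_fps
  exact Pool.Agent.W386.main_fp j π b π₁ hπ hb h1 hj hjb hjc hPfg
    (Pool.Agent.W386.ker_ifng π hπ hPfg hG1p) n
    (Pool.Agent.W386.fps_of_data (by omega) hNd)
    (Pool.Agent.W386.fps_of_data (by omega) hG1d)
    (Pool.Agent.W386.fps_of_data (by omega) hQd)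
    (Pool.Agent.W386.fps_of_data (by omega) hG2d)


end Pool.Agent.S01591
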