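import Pool.Statements.S01692
-- import your own Pool.Agent.* helpers here
import Pool.Agent.R635.Final

/-!
The growth series of `⟨x, v | (v x⁻¹)⁴ = x²⟩` (the group `⟨x, y | x² = y⁴⟩` with the generators
`x, v = y x`) is transcendental over `ℚ(z)`.

The quotient by the centre `⟨x²⟩` is `ℤ/2 * ℤ/4`; write `e : G → ℤ` for the homomorphism with
`x ↦ 2, v ↦ 3`.  An element of `G` is determined by its image `s` in the quotient and by `e`.  For each `s`
of length `N(s)` the elements over `s` of length exactly `N(s)` form an arithmetic progression whose length
`1 + fl(s)` is additive along `s`, so that their contribution to the growth series is rational with a double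
pole at `z₀` (`1 - z₀ - z₀² - z₀³ = 0`).  All further elements contribute, up to constant factors, `λ(s) z^{N(s)}`
where `λ(s)` is the length of the longest run of a certain type in `s` (along a run of a ladder of relators two
geodesics run in parallel, with different charges, and it costs 2 to change sides for a whole run);
the sum of these contributions behaves like `log(1/(z₀ - z)) / (z₀ - z)` at `z₀`, which is impossible for an
algebraic function.
-/

set_option autoImplicit false
open Pool Pool.MP_620157_al

namespace Pool.Agent.S01692

/-- The negation of the preceding statement: For every one-relator group ⟨x1..xn ∣ r⟩, the series sum over k of the number of elements of word length exactly k (in the generators x_i) satisfies a nonzero polynomial equation over Q[t], i.e. it is algebraic. -/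
theorem result :
    ¬ (∀ (n : ℕ) (r : FreeGroup (Fin n)),
      ∃ P : Polynomial (Polynomial ℚ), P ≠ 0 ∧
        Polynomial.eval₂ (Polynomial.coeToPowerSeries.ringHom)
          (PowerSeries.mk fun k : ℕ =>
            ((Nat.card
              {g : FreeGroup (Fin n) ⧸ Subgroup.normalClosure ({r} : Set (FreeGroup (Fin n))) //
                ∃ w : FreeGroup (Fin n),
                  (QuotientGroup.mk w :
                      FreeGroup (Fin n) ⧸ Subgroup.normalClosure ({r} : Set (FreeGroup (Fin n)))) = g ∧
                  (FreeGroup.toWord w).length = k ∧
                  ∀ w' : FreeGroup (Fin n),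
                    (QuotientGroup.mk w' :
                      FreeGroup (Fin n) ⧸ Subgroup.normalClosure ({r} : Set (FreeGroup (Fin n)))) = g →
                    k ≤ (FreeGroup.toWord w').length} : ℕ) : ℚ)) P = 0) := by
  intro h
  obtain ⟨P, hP, hP0⟩ := h 2 R635.OR.rel
  refine R635.OR.main _ (fun k => ?_) hP hP0
  congr 1
  exact Nat.card_congr (Equiv.subtypeEquivRight (fun g => R635.OR.len_iff g k))

end Pool.Agent.S01692
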