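import Pool.Statements.S02012
import Pool.Agent.R632.Klein

set_option autoImplicit false
open Pool Pool.MP_79f901_al

namespace Pool.Agent.S02012

/-- the vertices of the binary tree -/
abbrev V : Type := {l : List ℕ // ∀ i (h : i < l.length), l.get ⟨i, h⟩ < (fun _ : ℕ => 2) i}

/-- the bijection between the two models of the binary tree -/
def e : List Bool ≃ V where
  toFun w := ⟨w.map (fun b => cond b 1 0), by
    intro i h
    rw [List.get_eq_getElem, List.getElem_map]
    have h' : i < w.length := by rwa [List.length_map] at h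
    cases w[i]'h' <;> simp⟩
  invFun l := l.1.map (fun n => decide (n = 1))
  left_inv w := by
    show (w.map (fun b => cond b 1 0)).map (fun n => decide (n = 1)) = w
    rw [List.map_map]
    conv_rhs => rw [← List.map_id w]
    apply List.map_congr_left
    intro b _
    cases b <;> rfl
  right_inv l := by
    apply Subtype.ext
    show (l.1.map (fun n => decide (n = 1))).map (fun b => cond b 1 0) = l.1
    rw [List.map_map]
    conv_rhs => rw [← List.map_id l.1]
    apply List.map_congr_left
    intro b hb
    obtain ⟨i, hi, rfl⟩ := List.getElem_of_mem hb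
    have := l.2 i hi
    rw [List.get_eq_getElem] at this
    simp only [Function.comp, id]
    interval_cases h : l.1[i] <;> simp

lemma e_prefix (v w : List Bool) : (e v).1 <+: (e w).1 ↔ v <+: w := by
  constructor
  · intro h
    have h1 := h.map (fun n => decide (n = 1))
    have h2 : ∀ v : List Bool, (e v).1.map (fun n => decide (n = 1)) = v := e.left_inv
    rwa [h2, h2] at h1
  · intro h
    exact h.map _

lemma e_length (v : List Bool) : (e v).1.length = v.length := by
  show (v.map _).length = _
  rw [List.length_map]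

/-- The negation of the preceding statement: For every branch group L acting on a spherically homogeneous rooted tree, every automorphism of L is conjugation by a unique tree automorphism, so Aut L equals the normalizer of L in Aut T. -/
theorem result :
    ¬ (∀ (m : ℕ → ℕ), (∀ n, 2 ≤ m n) →
    ∀ L : Subgroup (Equiv.Perm {l : List ℕ // ∀ i (h : i < l.length), l.get ⟨i, h⟩ < m i}),
    (∀ g ∈ L, ∀ v w : {l : List ℕ // ∀ i (h : i < l.length), l.get ⟨i, h⟩ < m i},
        (List.IsPrefix v.1 w.1 ↔ List.IsPrefix (g v).1 (g w).1)) →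
    (∀ v w : {l : List ℕ // ∀ i (h : i < l.length), l.get ⟨i, h⟩ < m i},
        v.1.length = w.1.length → ∃ g ∈ L, g v = w) →
    (∀ n : ℕ, ((Subgroup.closure
        {g : Equiv.Perm {l : List ℕ // ∀ i (h : i < l.length), l.get ⟨i, h⟩ < m i} |
          g ∈ L ∧ ∃ u : {l : List ℕ // ∀ i (h : i < l.length), l.get ⟨i, h⟩ < m i},
            u.1.length = n ∧
            ∀ v : {l : List ℕ // ∀ i (h : i < l.length), l.get ⟨i, h⟩ < m i},
              ¬ List.IsPrefix u.1 v.1 → g v = v}).subgroupOf L).index ≠ 0) →
    ∀ φ : L ≃* L,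
      ∃! σ : Equiv.Perm {l : List ℕ // ∀ i (h : i < l.length), l.get ⟨i, h⟩ < m i},
        (∀ v w : {l : List ℕ // ∀ i (h : i < l.length), l.get ⟨i, h⟩ < m i},
          (List.IsPrefix v.1 w.1 ↔ List.IsPrefix (σ v).1 (σ w).1)) ∧
        ∀ g : L, ((φ g : L) : Equiv.Perm {l : List ℕ // ∀ i (h : i < l.length), l.get ⟨i, h⟩ < m i})
          = σ * (g : Equiv.Perm {l : List ℕ // ∀ i (h : i < l.length), l.get ⟨i, h⟩ < m i}) * σ⁻¹) := by
  intro H
  obtain ⟨L, h1, h2, h3, φ, h4⟩ := Pool.Agent.R632.Klein.main (V := V)
    (fun v w => List.IsPrefix v.1 w.1) (fun v => v.1.length) e e_prefix e_length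
  obtain ⟨σ, ⟨h5, h6⟩, -⟩ := H (fun _ => 2) (fun _ => le_rfl) L h1 h2 h3 φ
  exact h4 ⟨σ, h5, h6⟩

end Pool.Agent.S02012
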