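import Pool.Statements.S02070
import Pool.Agent.R717.GLSq2

set_option autoImplicit false
open Pool Pool.MP_7ed69f_al

namespace Pool.Agent.S02070


open Matrix Pool.Agent.R717.GLSq

/-- The structure on the ring of `p`-adic integers modulo the square of the maximal ideal. -/
lemma exists_sq (p : ℕ) [hp : Fact p.Prime] :
    ∃ Q : Sq (ℤ_[p] ⧸ IsLocalRing.maximalIdeal ℤ_[p] ^ 2) (ZMod p),
      ∀ a : ℤ_[p], Q.π (Ideal.Quotient.mk _ a) = PadicInt.toZMod a := by
  classical
  have hle : ∀ a ∈ IsLocalRing.maximalIdeal ℤ_[p] ^ 2, (PadicInt.toZMod : ℤ_[p] →+* ZMod p) a = 0 := by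
    intro a ha
    have h1 : a ∈ IsLocalRing.maximalIdeal ℤ_[p] := Ideal.pow_le_self two_ne_zero ha
    rw [← PadicInt.ker_toZMod] at h1
    exact h1
  let A := ℤ_[p] ⧸ IsLocalRing.maximalIdeal ℤ_[p] ^ 2
  let π : A →+* ZMod p := Ideal.Quotient.lift _ PadicInt.toZMod hle
  have hπ : ∀ a : ℤ_[p], π (Ideal.Quotient.mk _ a) = PadicInt.toZMod a := fun a => rfl
  have hpm : (p : ℤ_[p]) ∈ IsLocalRing.maximalIdeal ℤ_[p] := by
    rw [PadicInt.maximalIdeal_eq_span_p]
    exact Ideal.mem_span_singleton_self _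
  have hpp : (p : A) * (p : A) = 0 := by
    have h1 : ((p : ℤ_[p]) * (p : ℤ_[p])) ∈ IsLocalRing.maximalIdeal ℤ_[p] ^ 2 := by
      rw [sq]
      exact Ideal.mul_mem_mul hpm hpm
    have h2 := (Ideal.Quotient.eq_zero_iff_mem (I := IsLocalRing.maximalIdeal ℤ_[p] ^ 2)).mpr h1
    rw [map_mul, map_natCast] at h2
    exact h2
  let j0 : ℤ →+ A := (AddMonoidHom.mulLeft (p : A)).comp (Int.castAddHom A)
  have hj0 : ∀ m : ℤ, j0 m = (p : A) * (m : A) := fun m => rfl
  have hj0p : j0 p = 0 := by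
    rw [hj0, Int.cast_natCast, hpp]
  let j : ZMod p →+ A := ZMod.lift p ⟨j0, hj0p⟩
  have hj : ∀ m : ℤ, j (m : ZMod p) = (p : A) * (m : A) := by
    intro m
    rw [← hj0]
    exact ZMod.lift_coe p ⟨j0, hj0p⟩ m
  -- every element of `A` is an integer plus a multiple of `p`
  have hker : ∀ a : A, π a = 0 → ∃ b : A, a = (p : A) * b := by
    intro a ha
    obtain ⟨a, rfl⟩ := Ideal.Quotient.mk_surjective a
    rw [hπ] at ha
    have h1 : a ∈ IsLocalRing.maximalIdeal ℤ_[p] := by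
      rw [← PadicInt.ker_toZMod]; exact ha
    rw [PadicInt.maximalIdeal_eq_span_p, Ideal.mem_span_singleton] at h1
    obtain ⟨b, rfl⟩ := h1
    refine ⟨Ideal.Quotient.mk _ b, ?_⟩
    rw [map_mul, map_natCast]
  have hdec : ∀ a : A, ∃ (m : ℤ) (b : A), a = (m : A) + (p : A) * b ∧ π a = (m : ZMod p) := by
    intro a
    have h1 : π (a - (((π a).val : ℤ) : A)) = 0 := by
      rw [map_sub, map_intCast, sub_eq_zero]
      simp
    obtain ⟨b, hb⟩ := hker _ h1
    refine ⟨((π a).val : ℤ), b, ?_, ?_⟩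
    · rw [← hb]; ring
    · simp
  have hmulj : ∀ (a : A) (x : ZMod p), a * j x = j (π a * x) := by
    intro a x
    obtain ⟨m, b, ha, hm⟩ := hdec a
    obtain ⟨n, rfl⟩ := ZMod.intCast_surjective x
    rw [hm, hj, ← Int.cast_mul, hj, ha, Int.cast_mul]
    calc ((m : A) + (p : A) * b) * ((p : A) * (n : A))
        = (p : A) * ((m : A) * (n : A)) + ((p : A) * (p : A)) * (b * n) := by ring
      _ = (p : A) * ((m : A) * (n : A)) := by rw [hpp]; ring
  have hπj : ∀ x, π (j x) = 0 := by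
    intro x
    obtain ⟨n, rfl⟩ := ZMod.intCast_surjective x
    rw [hj, map_mul, map_natCast, ZMod.natCast_self, zero_mul]
  have hjinj : Function.Injective j := by
    rw [injective_iff_map_eq_zero]
    intro x hx
    obtain ⟨n, rfl⟩ := ZMod.intCast_surjective x
    rw [hj] at hx
    have h1 : ((p : ℤ_[p]) * (n : ℤ_[p])) ∈ IsLocalRing.maximalIdeal ℤ_[p] ^ 2 := by
      rw [← Ideal.Quotient.eq_zero_iff_mem, map_mul, map_natCast, map_intCast]
      exact hx
    rw [PadicInt.maximalIdeal_eq_span_p, Ideal.span_singleton_pow, Ideal.mem_span_singleton, sq] at h1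
    have hp0 : (p : ℤ_[p]) ≠ 0 := by
      exact_mod_cast hp.out.ne_zero
    have h2 : (p : ℤ_[p]) ∣ (n : ℤ_[p]) := (mul_dvd_mul_iff_left hp0).mp h1
    obtain ⟨c, hc⟩ := h2
    have h3 := congrArg (PadicInt.toZMod : ℤ_[p] →+* ZMod p) hc
    rw [map_intCast, map_mul, map_natCast, ZMod.natCast_self, zero_mul] at h3
    exact h3
  have hker' : ∀ a : A, π a = 0 → ∃ x, j x = a := by
    intro a ha
    obtain ⟨b, rfl⟩ := hker a ha
    obtain ⟨m, c, hb, -⟩ := hdec b
    refine ⟨(m : ZMod p), ?_⟩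
    rw [hj, hb, mul_add, ← mul_assoc, hpp, zero_mul, add_zero]
  have hunit : ∀ a : A, π a ≠ 0 → IsUnit a := by
    intro a ha
    obtain ⟨a, rfl⟩ := Ideal.Quotient.mk_surjective a
    rw [hπ] at ha
    have h1 : IsUnit a := by
      by_contra h
      have h2 : a ∈ IsLocalRing.maximalIdeal ℤ_[p] := (IsLocalRing.mem_maximalIdeal a).mpr h
      rw [← PadicInt.ker_toZMod] at h2
      exact ha h2
    exact h1.map _
  refine ⟨⟨π, j, ?_, hmulj, hπj, hjinj, hker', hunit⟩, hπ⟩
  intro x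
  obtain ⟨n, rfl⟩ := ZMod.intCast_surjective x
  exact ⟨(n : A), map_intCast π n⟩

lemma finite_quot (p : ℕ) [hp : Fact p.Prime] :
    Finite (ℤ_[p] ⧸ IsLocalRing.maximalIdeal ℤ_[p] ^ 2) := by
  obtain ⟨Q, -⟩ := exists_sq p
  let f : ZMod p → (ℤ_[p] ⧸ IsLocalRing.maximalIdeal ℤ_[p] ^ 2) := fun x => (Q.surj x).choose
  have hf : ∀ x, Q.π (f x) = x := fun x => (Q.surj x).choose_spec
  refine Finite.of_surjective (fun z : ZMod p × ZMod p => f z.1 + Q.j z.2) ?_
  intro a
  obtain ⟨y, hy⟩ := Q.ker (a - f (Q.π a)) (by rw [map_sub, hf, sub_self])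
  exact ⟨(Q.π a, y), by simp only [hy]; ring⟩

lemma card_res (p : ℕ) [hp : Fact p.Prime] :
    Nat.card (IsLocalRing.ResidueField ℤ_[p]) = p := by
  rw [Nat.card_congr (PadicInt.residueField (p := p)).toEquiv, Nat.card_zmod]

lemma finite_res (p : ℕ) [hp : Fact p.Prime] : Finite (IsLocalRing.ResidueField ℤ_[p]) :=
  Finite.of_equiv _ (PadicInt.residueField (p := p)).toEquiv.symm

/-- The polynomial `x³(x+1)(x²+x+1)`. -/
noncomputable def ePoly : Polynomial ℤ :=
  Polynomial.X ^ 3 * (Polynomial.X + 1) * (Polynomial.X ^ 2 + Polynomial.X + 1)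

lemma ePoly_eval (z : ℤ) : ePoly.eval z = z ^ 3 * (z + 1) * (z ^ 2 + z + 1) := by
  simp [ePoly]

/-- The negation of the preceding statement: For all N,r ≥ 2 there is a finite set of integer polynomials of degree ≤ C(N,2)·r whose values at q are exactly the dimensions of irreducible complex reps of GL_N(o/p^r) nontrivial on the level-(r−1) kernel, for every compact DVR o. -/
theorem result :
    ¬ (∀ N r : ℕ, 2 ≤ N → 2 ≤ r →
    ∃ P : Finset (Polynomial ℤ), (∀ d ∈ P, d.natDegree ≤ N.choose 2 * r) ∧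
    ∀ (R : Type) [CommRing R] [IsDomain R] [IsDiscreteValuationRing R]
      [Finite (IsLocalRing.ResidueField R)]
      [IsAdicComplete (IsLocalRing.maximalIdeal R) R],
    {z : ℤ | ∃ (V : Type) (_ : AddCommGroup V) (_ : Module ℂ V)
        (ρ : Representation ℂ
          (Matrix.GeneralLinearGroup (Fin N) (R ⧸ IsLocalRing.maximalIdeal R ^ r)) V),
        FiniteDimensional ℂ V ∧ Nontrivial V ∧
        (∀ W : Submodule ℂ V, (∀ g v, v ∈ W → ρ g v ∈ W) → W = ⊥ ∨ W = ⊤) ∧
        (∃ g : Matrix.GeneralLinearGroup (Fin N) (R ⧸ IsLocalRing.maximalIdeal R ^ r),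
          (∀ i j, ∃ a ∈ IsLocalRing.maximalIdeal R ^ (r - 1),
            g.val i j
              - (1 : Matrix (Fin N) (Fin N) (R ⧸ IsLocalRing.maximalIdeal R ^ r)) i j
              = Ideal.Quotient.mk (IsLocalRing.maximalIdeal R ^ r) a) ∧ ρ g ≠ 1) ∧
        (Module.finrank ℂ V : ℤ) = z}
    = (fun d : Polynomial ℤ => d.eval (Nat.card (IsLocalRing.ResidueField R) : ℤ)) ''
        (P : Set (Polynomial ℤ))) := by
  intro hall
  obtain ⟨P, -, hP⟩ := hall 3 2 (by norm_num) le_rfl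
  -- for every odd prime the value of `ePoly` is attained
  have hodd : ∀ p : ℕ, p.Prime → 2 < p → ∃ d ∈ P, d.eval (p : ℤ) = ePoly.eval (p : ℤ) := by
    intro p hp hp2
    have : Fact p.Prime := ⟨hp⟩
    have := finite_res p
    have := finite_quot p
    have h := hP ℤ_[p]
    obtain ⟨Q, hQ⟩ := exists_sq p
    have hk : (2 : ZMod p) ≠ 0 := by
      intro h0
      have h1 : ((2 : ℕ) : ZMod p) = 0 := by exact_mod_cast h0
      rw [ZMod.natCast_eq_zero_iff] at h1
      exact absurd (Nat.le_of_dvd (by norm_num) h1) (by omega)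
    obtain ⟨V, i1, i2, ρ, hfd, hnt, hirr, ⟨g, hg, hg1⟩, hfin⟩ := Q.exists_rep hk
    have hmem : ((Module.finrank ℂ V : ℕ) : ℤ) ∈ (fun d : Polynomial ℤ =>
        d.eval (Nat.card (IsLocalRing.ResidueField ℤ_[p]) : ℤ)) '' (P : Set (Polynomial ℤ)) := by
      rw [← h]
      refine ⟨V, i1, i2, ρ, hfd, hnt, hirr, ⟨g, ?_, hg1⟩, rfl⟩
      intro a b
      obtain ⟨c, hc⟩ := Ideal.Quotient.mk_surjective (g.val a b
        - (1 : Matrix (Fin 3) (Fin 3) (ℤ_[p] ⧸ IsLocalRing.maximalIdeal ℤ_[p] ^ 2)) a b)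
      refine ⟨c, ?_, hc.symm⟩
      have h1 : Q.π (g.val a b
          - (1 : Matrix (Fin 3) (Fin 3) (ℤ_[p] ⧸ IsLocalRing.maximalIdeal ℤ_[p] ^ 2)) a b) = 0 := by
        rw [MonoidHom.mem_ker] at hg
        have h2 : g.val.map Q.π = 1 := by
          rw [← Sq.red_val, hg, Units.val_one]
        have h3 := congrFun (congrFun h2 a) b
        rw [Matrix.map_apply] at h3
        rw [map_sub, h3]
        by_cases hab : a = b
        · subst hab; simp
        · simp [Matrix.one_apply_ne hab]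
      rw [← hc, hQ] at h1
      rw [show (2 - 1 : ℕ) = 1 from rfl, pow_one, ← PadicInt.ker_toZMod]
      exact h1
    obtain ⟨d, hd, hd2⟩ := hmem
    refine ⟨d, hd, ?_⟩
    simp only at hd2
    rw [card_res] at hd2
    rw [hd2, hfin, ePoly_eval, Nat.card_zmod]
    push_cast
    ring
  -- hence `ePoly` itself belongs to `P`
  have hmemP : ePoly ∈ P := by
    have hinf : {p : ℕ | p.Prime ∧ 2 < p}.Infinite := by
      have h1 : {p : ℕ | p.Prime}.Infinite := Nat.infinite_setOfPred_prime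
      have h2 : {p : ℕ | p.Prime} ⊆ {p : ℕ | p.Prime ∧ 2 < p} ∪ {2} := by
        intro p hp
        by_cases h3 : 2 < p
        · exact Or.inl ⟨hp, h3⟩
        · right
          have := Nat.Prime.two_le hp
          simp
          omega
      intro hfin
      exact h1 ((hfin.union (Set.finite_singleton 2)).subset h2)
    have : Infinite {p : ℕ | p.Prime ∧ 2 < p} := hinf.to_subtype
    let F : {p : ℕ | p.Prime ∧ 2 < p} → {d // d ∈ P} := fun p =>
      ⟨(hodd p.1 p.2.1 p.2.2).choose, (hodd p.1 p.2.1 p.2.2).choose_spec.1⟩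
    obtain ⟨d, hd⟩ := Finite.exists_infinite_fiber F
    have hde : (d : Polynomial ℤ) = ePoly := by
      apply Polynomial.eq_of_infinite_eval_eq
      have h1 : (F ⁻¹' {d}).Infinite := Set.infinite_coe_iff.mp hd
      have h2 : ((fun p : {p : ℕ | p.Prime ∧ 2 < p} => ((p : ℕ) : ℤ)) '' (F ⁻¹' {d})).Infinite := by
        apply h1.image
        intro a _ b _ hab
        apply Subtype.ext
        have hab' : ((a : ℕ) : ℤ) = ((b : ℕ) : ℤ) := hab
        exact_mod_cast hab'
      refine h2.mono ?_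
      rintro _ ⟨p, hp, rfl⟩
      have h3 : F p = d := hp
      have h4 := (hodd p.1 p.2.1 p.2.2).choose_spec.2
      change Polynomial.eval _ _ = Polynomial.eval _ _
      rw [← h3]
      exact h4
    rw [← hde]
    exact d.2
  -- contradiction for the prime two
  have : Fact (Nat.Prime 2) := ⟨Nat.prime_two⟩
  have := finite_res 2
  have := finite_quot 2
  have h := hP ℤ_[2]
  obtain ⟨Q, hQ⟩ := exists_sq 2
  have hmem : (168 : ℤ) ∈ (fun d : Polynomial ℤ =>
      d.eval (Nat.card (IsLocalRing.ResidueField ℤ_[2]) : ℤ)) '' (P : Set (Polynomial ℤ)) := by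
    refine ⟨ePoly, hmemP, ?_⟩
    simp only
    rw [card_res, ePoly_eval]
    norm_num
  rw [← h] at hmem
  obtain ⟨V, i1, i2, ρ, hfd, hnt, hirr, -, hfin⟩ := hmem
  have h84 := Q.finrank_le ρ hirr
  have h168 : Module.finrank ℂ V = 168 := by exact_mod_cast hfin
  omega

end Pool.Agent.S02070
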