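import Pool.Statements.S02155
import Pool.Agent.R638.SelfSim

set_option autoImplicit false
open Pool Pool.MP_8519b0_al

namespace Pool.Agent.S02155

open Matrix

/-- `SL₃(ℤ)` -/
abbrev SL := Matrix.SpecialLinearGroup (Fin 3) ℤ

/-- the matrix -/
def M (h : SL) : Matrix (Fin 3) (Fin 3) ℤ := h

theorem M_mul (a b : SL) : M (a * b) = M a * M b := Matrix.SpecialLinearGroup.coe_mul a b
theorem M_one : M 1 = 1 := rfl
theorem M_inv (a : SL) : M a⁻¹ = (M a).adjugate := Matrix.SpecialLinearGroup.coe_inv a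
theorem M_inj {a b : SL} (h : M a = M b) : a = b := Subtype.ext h
theorem M_det (a : SL) : (M a).det = 1 := a.2

/-- the matrices whose first column is `(1, 0, 0)` mod 2 -/
def H : Subgroup SL where
  carrier := {h | 2 ∣ M h 1 0 ∧ 2 ∣ M h 2 0}
  one_mem' := by simp [M_one]
  mul_mem' := by
    rintro a b ⟨h1, h2⟩ ⟨h3, h4⟩
    simp only [Set.mem_ofPred_eq, M_mul, Matrix.mul_apply, Fin.sum_univ_three]
    exact ⟨dvd_add (dvd_add (h1.mul_right _) (h3.mul_left _)) (h4.mul_left _),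
      dvd_add (dvd_add (h2.mul_right _) (h3.mul_left _)) (h4.mul_left _)⟩
  inv_mem' := by
    rintro a ⟨h1, h2⟩
    simp only [Set.mem_ofPred_eq, M_inv]
    rw [Matrix.adjugate_fin_three]
    simp only [Matrix.of_apply, Matrix.cons_val', Matrix.cons_val_zero, Matrix.cons_val_one,
      Matrix.cons_val_two, Matrix.head_cons, Matrix.tail_cons, Matrix.empty_val', Matrix.cons_val_fin_one]
    obtain ⟨x, hx⟩ := h1
    obtain ⟨y, hy⟩ := h2
    rw [hx, hy]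
    constructor
    · exact ⟨-(x * M a 2 2) + M a 1 2 * y, by ring⟩
    · refine ⟨x * M a 2 1 - M a 1 1 * y, ?_⟩
      change 2 * x * M a 2 1 - M a 1 1 * (2 * y) = _
      ring

theorem mem_H_iff (h : SL) : h ∈ H ↔ 2 ∣ M h 1 0 ∧ 2 ∣ M h 2 0 := Iff.rfl

/-- conjugation by `diag(2, 1, 1)` -/
def fm (h : SL) : Matrix (Fin 3) (Fin 3) ℤ :=
  !![M h 0 0, 2 * M h 0 1, 2 * M h 0 2; M h 1 0 / 2, M h 1 1, M h 1 2; M h 2 0 / 2, M h 2 1, M h 2 2]

theorem fm_det (h : SL) (hh : h ∈ H) : (fm h).det = 1 := by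
  obtain ⟨⟨x, hx⟩, ⟨y, hy⟩⟩ := hh
  have h1 := M_det h
  rw [Matrix.det_fin_three] at h1
  rw [fm, Matrix.det_fin_three]
  simp only [Matrix.of_apply, Matrix.cons_val', Matrix.cons_val_zero, Matrix.cons_val_one,
      Matrix.cons_val]
  rw [hx, hy] at h1 ⊢
  rw [Int.mul_ediv_cancel_left _ (by norm_num), Int.mul_ediv_cancel_left _ (by norm_num)]
  linarith

theorem fm_mul (a b : SL) (ha : a ∈ H) (hb : b ∈ H) : fm (a * b) = fm a * fm b := by
  obtain ⟨⟨a1, ha1⟩, ⟨a2, ha2⟩⟩ := ha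
  obtain ⟨⟨b1, hb1⟩, ⟨b2, hb2⟩⟩ := hb
  unfold fm
  rw [M_mul]
  ext i j
  simp only [Matrix.mul_apply, Fin.sum_univ_three]
  rw [ha1, ha2, hb1, hb2]
  rw [Int.mul_ediv_cancel_left a1 (by norm_num), Int.mul_ediv_cancel_left a2 (by norm_num),
    Int.mul_ediv_cancel_left b1 (by norm_num), Int.mul_ediv_cancel_left b2 (by norm_num)]
  have e5 : (2 * a1 * M b 0 0 + M a 1 1 * (2 * b1) + M a 1 2 * (2 * b2)) / 2 =
      a1 * M b 0 0 + M a 1 1 * b1 + M a 1 2 * b2 := by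
    apply Int.ediv_eq_of_eq_mul_left (by norm_num)
    ring
  have e6 : (2 * a2 * M b 0 0 + M a 2 1 * (2 * b1) + M a 2 2 * (2 * b2)) / 2 =
      a2 * M b 0 0 + M a 2 1 * b1 + M a 2 2 * b2 := by
    apply Int.ediv_eq_of_eq_mul_left (by norm_num)
    ring
  rw [e5, e6]
  fin_cases i <;> fin_cases j <;> simp <;> ring

/-- the virtual endomorphism -/
def f : H →* SL where
  toFun h := ⟨fm h.1, fm_det h.1 h.2⟩
  map_one' := by
    apply M_inj
    change fm 1 = 1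
    ext i j
    fin_cases i <;> fin_cases j <;> simp [fm, M_one]
  map_mul' := by
    rintro ⟨a, ha⟩ ⟨b, hb⟩
    exact M_inj (fm_mul a b ha hb)

theorem M_f (h : H) : M (f h) = fm h.1 := rfl

instance : H.FiniteIndex := by
  let φ : SL →* Matrix.SpecialLinearGroup (Fin 3) (ZMod 2) := SpecialLinearGroup.map (Int.castRingHom (ZMod 2))
  have h1 : φ.ker ≤ H := by
    intro g hg
    have h0 := MonoidHom.mem_ker.1 hg
    have h2 := congrArg (fun m : Matrix.SpecialLinearGroup (Fin 3) (ZMod 2) =>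
      (m : Matrix (Fin 3) (Fin 3) (ZMod 2)) 1 0) h0
    have h3 := congrArg (fun m : Matrix.SpecialLinearGroup (Fin 3) (ZMod 2) =>
      (m : Matrix (Fin 3) (Fin 3) (ZMod 2)) 2 0) h0
    simp [φ] at h2 h3
    exact ⟨(ZMod.intCast_zmod_eq_zero_iff_dvd _ 2).1 h2, (ZMod.intCast_zmod_eq_zero_iff_dvd _ 2).1 h3⟩
  have h2 : Finite φ.range := inferInstance
  have h3 : φ.ker.FiniteIndex := inferInstance
  exact Subgroup.finiteIndex_of_le h1

/-- `e₀ → e₁ → e₂ → e₀` -/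
def P : SL := ⟨!![0, 0, 1; 1, 0, 0; 0, 1, 0], by simp [Matrix.det_fin_three]⟩
def P' : SL := ⟨!![0, 1, 0; 0, 0, 1; 1, 0, 0], by simp [Matrix.det_fin_three]⟩
/-- `e₀ → e₀ + e₁` -/
def E1 : SL := ⟨!![1, 0, 0; 1, 1, 0; 0, 0, 1], by simp [Matrix.det_fin_three]⟩
def E1' : SL := ⟨!![1, 0, 0; -1, 1, 0; 0, 0, 1], by simp [Matrix.det_fin_three]⟩
/-- `e₀ → e₀ + e₂` -/
def E2 : SL := ⟨!![1, 0, 0; 0, 1, 0; 1, 0, 1], by simp [Matrix.det_fin_three]⟩
def E2' : SL := ⟨!![1, 0, 0; 0, 1, 0; -1, 0, 1], by simp [Matrix.det_fin_three]⟩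

theorem M_P : M P = !![0, 0, 1; 1, 0, 0; 0, 1, 0] := rfl
theorem M_P' : M P' = !![0, 1, 0; 0, 0, 1; 1, 0, 0] := rfl
theorem M_E1 : M E1 = !![1, 0, 0; 1, 1, 0; 0, 0, 1] := rfl
theorem M_E1' : M E1' = !![1, 0, 0; -1, 1, 0; 0, 0, 1] := rfl
theorem M_E2 : M E2 = !![1, 0, 0; 0, 1, 0; 1, 0, 1] := rfl
theorem M_E2' : M E2' = !![1, 0, 0; 0, 1, 0; -1, 0, 1] := rfl

theorem PP : P * P' = 1 := by
  apply M_inj
  rw [M_mul, M_P, M_P', M_one]
  decide
theorem EE1 : E1 * E1' = 1 := by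
  apply M_inj
  rw [M_mul, M_E1, M_E1', M_one]
  decide
theorem EE2 : E2 * E2' = 1 := by
  apply M_inj
  rw [M_mul, M_E2, M_E2', M_one]
  decide

theorem core (K : Subgroup SL) (hn : K.Normal) (hK : K ≤ H)
    (hf : ∀ (g : SL) (hg : g ∈ K), f ⟨g, hK hg⟩ ∈ K) : K = ⊥ := by
  have hpow : ∀ n : ℕ, ∀ g ∈ K, (2 : ℤ) ^ n ∣ M g 1 0 ∧ (2 : ℤ) ^ n ∣ M g 2 0 := by
    intro n
    induction n with
    | zero => intro g _; simp
    | succ n ih =>
      intro g hg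
      obtain ⟨h1, h2⟩ := ih _ (hf g hg)
      obtain ⟨⟨x, hx⟩, ⟨y, hy⟩⟩ := hK hg
      have e1 : M (f ⟨g, hK hg⟩) 1 0 = x := by
        change M g 1 0 / 2 = x
        rw [hx]; exact Int.mul_ediv_cancel_left _ (by norm_num)
      have e2 : M (f ⟨g, hK hg⟩) 2 0 = y := by
        change M g 2 0 / 2 = y
        rw [hy]; exact Int.mul_ediv_cancel_left _ (by norm_num)
      rw [e1] at h1
      rw [e2] at h2
      rw [hx, hy, pow_succ']
      exact ⟨mul_dvd_mul_left 2 h1, mul_dvd_mul_left 2 h2⟩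
  have hz : ∀ z : ℤ, (∀ n : ℕ, (2 : ℤ) ^ n ∣ z) → z = 0 := by
    intro z hz
    by_contra h
    have h1 := Int.le_of_dvd (abs_pos.2 h) ((dvd_abs _ _).2 (hz (z.natAbs + 1)))
    have h2 : z.natAbs < 2 ^ z.natAbs := Nat.lt_two_pow_self
    have h3 : ((z.natAbs : ℕ) : ℤ) < 2 ^ z.natAbs := by exact_mod_cast h2
    rw [Int.natCast_natAbs] at h3
    rw [pow_succ] at h1
    have h4 : (0 : ℤ) < 2 ^ z.natAbs := by positivity
    linarith
  have h0 : ∀ g ∈ K, M g 1 0 = 0 ∧ M g 2 0 = 0 := fun g hg =>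
    ⟨hz _ fun n => (hpow n g hg).1, hz _ fun n => (hpow n g hg).2⟩
  rw [eq_bot_iff]
  intro g hg
  have hconj : ∀ t t' : SL, t * t' = 1 → t' * g * t ∈ K := by
    intro t t' h
    have h1 : t = t'⁻¹ := eq_inv_of_mul_eq_one_left h
    rw [h1]
    exact hn.conj_mem g hg t'
  have c0 := h0 g hg
  have c1 := h0 _ (hconj P P' PP)
  have hPP' : (P * P) * (P' * P') = 1 := by
    calc (P * P) * (P' * P') = P * (P * P') * P' := by group
      _ = 1 := by rw [PP, mul_one, PP]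
  have c2 := h0 _ (hconj (P * P) (P' * P') hPP')
  have c3 := h0 _ (hconj E1 E1' EE1)
  have c4 := h0 _ (hconj E2 E2' EE2)
  have hd := M_det g
  rw [Matrix.det_fin_three] at hd
  simp only [M_mul, Matrix.mul_apply, Fin.sum_univ_three] at c1 c2 c3 c4
  simp [M_P, M_P', M_E1, M_E1', M_E2, M_E2'] at c1 c2 c3 c4
  obtain ⟨a1, a2⟩ := c0
  obtain ⟨b1, b2⟩ := c1
  obtain ⟨d1, d2⟩ := c2
  obtain ⟨k1, k2⟩ := c3
  obtain ⟨l1, l2⟩ := c4
  rw [Subgroup.mem_bot]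
  apply M_inj
  rw [M_one]
  have e1 : M g 1 1 = M g 0 0 := by linarith
  have e2 : M g 2 2 = M g 0 0 := by linarith
  rw [a1, a2, b1, b2, d1, d2, e1, e2] at hd
  have e3 : M g 0 0 = 1 := by
    have h1 : M g 0 0 ∣ 1 := ⟨M g 0 0 * M g 0 0, by linarith⟩
    rcases Int.isUnit_iff.1 (isUnit_of_dvd_one h1) with h | h
    · exact h
    · rw [h] at hd
      norm_num at hd
  ext i j
  fin_cases i <;> fin_cases j <;> simp [a1, a2, b1, b2, d1, d2, e1, e2, e3]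

/-- SL_3(Z) has a faithful action on finite words over some alphabet of at least 2 letters such that each g sends x·w to y·h(w) for some letter y and group element h depending only on g and x. -/
theorem result :
    ∃ (n : ℕ) (ρ : Matrix.SpecialLinearGroup (Fin 3) ℤ →* Equiv.Perm (List (Fin n))),
      2 ≤ n ∧ Function.Injective ρ ∧
      ∀ (g : Matrix.SpecialLinearGroup (Fin 3) ℤ) (x : Fin n),
        ∃ (h : Matrix.SpecialLinearGroup (Fin 3) ℤ) (y : Fin n),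
          ∀ w : List (Fin n), ρ g (x :: w) = y :: ρ h w := by
  have hH : H ≠ ⊤ := by
    intro h
    have : P ∈ H := by rw [h]; trivial
    obtain ⟨h1, -⟩ := this
    rw [M_P] at h1
    simp at h1
  obtain ⟨n, ρ, h1, h2, -, h3⟩ := Pool.Agent.R638.SelfSim.exists_selfSimilar H f hH core
  exact ⟨n, ρ, h1, h2, h3⟩

end Pool.Agent.S02155
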