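import Pool.Statements.S02197
import Pool.Agent.R636.HTE

/-!
The Higman-Thompson group on four letters is finitely presented and has non-uniform exponential
growth.

Let `V` be the Higman-Thompson group acting on the Cantor set of sequences of four letters.  It is
finitely presented (starting library).  Divide the Cantor set into `L = 6a + 1` cones (slots).
Let `S` be the set of the swaps of neighbouring slots, of one swap of the first child of the first
slot with the last slot, and of the three swaps of neighbouring children of the middle slot.  It
generates `V`.  Think of cones as boxes with four compartments, holding boxes, and so on.  Elements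
of `S` operate only on the boxes in the first slot and in the middle slot, and a box that comes out
of another box does so in the last slot.  So it must travel through `3a` slots before it is operated
on.  Each swap of slots moves two boxes by one slot, and so in `n` steps at most `L + 2n/(3a)` boxes
are opened.  An element is described by a forest whose size is linear in this number, and the ball of
radius `a²` has at most `exp (C a log a)` elements.
-/

set_option autoImplicit false
open Pool Pool.MP_89edc2_al

namespace Pool.Agent.S02197

/-- There is a finitely presented group with a finite generating set whose word balls grow at least like c^k for some c>1, yet for every c>1 some finite generating set has a ball of radius k with fewer than c^k elements. -/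
theorem result :
    ∃ (G : Type) (_ : Group G),
      (∃ (n : ℕ) (rels : Finset (FreeGroup (Fin n))),
        Nonempty (G ≃* PresentedGroup (rels : Set (FreeGroup (Fin n))))) ∧
      (∃ (S : Finset G), Subgroup.closure (S : Set G) = ⊤ ∧
        ∃ c : ℝ, 1 < c ∧ ∀ k : ℕ,
          c ^ k ≤ (Set.ncard {g : G | ∃ l : List G, l.length ≤ k ∧
            (∀ x ∈ l, x ∈ S ∨ x⁻¹ ∈ S) ∧ l.prod = g} : ℝ)) ∧
      (∀ c : ℝ, 1 < c → ∃ (S : Finset G), Subgroup.closure (S : Set G) = ⊤ ∧
        ∃ k : ℕ,
          (Set.ncard {g : G | ∃ l : List G, l.length ≤ k ∧
            (∀ x ∈ l, x ∈ S ∨ x⁻¹ ∈ S) ∧ l.prod = g} : ℝ) < c ^ k) := by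
  obtain ⟨Ws, F, T, hfp⟩ := Pool.Agent.R636.HT.main_fp
  exact ⟨Pool.Agent.R636.HT.VG F, inferInstance, hfp, Pool.Agent.R636.HT.main_growth T⟩

end Pool.Agent.S02197
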