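import Pool.Statements.S02286
import Pool.Agent.R668.ZarProd

set_option autoImplicit false
open Pool Pool.MP_91b10e_al

namespace Pool.Agent.S02286

open Pool.Agent.R668.ZarProd

/-- the word map of a word with constants is continuous for the product topology -/
theorem cont (w : Monoid.Coprod GG (Multiplicative ℤ)) :
    Continuous (fun g : GG =>
      Monoid.Coprod.lift (MonoidHom.id GG) (zpowersHom GG g) w) := by
  induction w using Monoid.Coprod.induction_on with
  | inl m => simpa using continuous_const
  | inr n =>
    simp only [Monoid.Coprod.lift_apply_inr, zpowersHom_apply]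
    exact continuous_zpow _
  | mul x y hx hy =>
    simp only [map_mul]
    exact hx.mul hy

/-- The negation of the preceding statement: For every group G, if the Zariski topology (closed subbasis: solution sets of one-variable equations with constants from G) is compact, then it is Noetherian. -/
theorem result :
    ¬ (∀ (G : Type) [Group G],
      @IsCompact G
        (TopologicalSpace.generateFrom
          {U : Set G | ∃ w : Monoid.Coprod G (Multiplicative ℤ),
            U = {x : G | Monoid.Coprod.lift (MonoidHom.id G) (zpowersHom G x) w ≠ 1}})
        Set.univ →
      @TopologicalSpace.NoetherianSpace G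
        (TopologicalSpace.generateFrom
          {U : Set G | ∃ w : Monoid.Coprod G (Multiplicative ℤ),
            U = {x : G | Monoid.Coprod.lift (MonoidHom.id G) (zpowersHom G x) w ≠ 1}})) := by
  intro H
  have key : TopologicalSpace.generateFrom
          {U : Set GG | ∃ w : Monoid.Coprod GG (Multiplicative ℤ),
            U = {x : GG | Monoid.Coprod.lift (MonoidHom.id GG) (zpowersHom GG x) w ≠ 1}} =
      Pi.topologicalSpace := by
    apply eq_pi
    · rintro U ⟨w, rfl⟩
      have h := (isClosed_singleton (x := (1 : GG))).preimage (cont w)
      exact h.isOpen_compl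
    · intro a f
      refine ⟨(Monoid.Coprod.inl a⁻¹ * Monoid.Coprod.inr (Multiplicative.ofAdd (1 : ℤ))) *
        Monoid.Coprod.inl f *
        (Monoid.Coprod.inl a⁻¹ * Monoid.Coprod.inr (Multiplicative.ofAdd (1 : ℤ)))⁻¹ *
        Monoid.Coprod.inl f⁻¹, ?_⟩
      ext x
      simp
  have h := H GG
  rw [key] at h
  have h2 : TopologicalSpace.NoetherianSpace GG := h isCompact_univ
  have h3 : Finite GG := TopologicalSpace.NoetherianSpace.finite
  exact not_finite GG

end Pool.Agent.S02286
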