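import Pool.Statements.S02538

/-!
Counterexample.  In the product over `n` of the matrix rings `M_{n+1}(ℚ[s]/(s^{n+1}))` let `X` be the
shift (in every component) and `Y` the matrix unit `(0, n)` times `s`.  The subalgebra `A` generated by
`X` and `Y` is (a model of) the monomial algebra whose nonzero words are the factors of
`(X^n Y)^n X^n`, `n ≥ 1`: every word is zero or one of the words `X^a`, `X^b Y (X^n Y)^m X^a`, so the
growth is polynomial, while the ideal generated by `Y X^n Y` is nilpotent of index about `n / 2`.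
-/

set_option autoImplicit false
open Pool Pool.MP_a19302_al

namespace Pool.Agent.S02538

open Polynomial
open scoped Pointwise

/-- the truncated polynomial ring `ℚ[s]/(s^(n+1))` -/
abbrev Rn (n : ℕ) : Type := AdjoinRoot (X ^ (n + 1) : ℚ[X])

/-- the class of `s` -/
noncomputable def s (n : ℕ) : Rn n := AdjoinRoot.root (X ^ (n + 1) : ℚ[X])

theorem s_pow_ne {n m : ℕ} (h : m ≤ n) : s n ^ m ≠ 0 := by
  intro h0
  have h1 : AdjoinRoot.mk (X ^ (n + 1) : ℚ[X]) (X ^ m) = 0 := by
    rw [map_pow, AdjoinRoot.mk_X]; exact h0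
  rw [AdjoinRoot.mk_eq_zero] at h1
  have h2 := Polynomial.natDegree_le_of_dvd h1 (pow_ne_zero _ X_ne_zero)
  rw [natDegree_X_pow, natDegree_X_pow] at h2
  omega

theorem s_pow_zero (n : ℕ) : s n ^ (n + 1) = 0 := by
  have h1 : AdjoinRoot.mk (X ^ (n + 1) : ℚ[X]) (X ^ (n + 1)) = 0 := AdjoinRoot.mk_self
  rw [map_pow, AdjoinRoot.mk_X] at h1
  exact h1

/-- the big ring -/
abbrev P : Type := (n : ℕ) → Matrix (Fin (n + 1)) (Fin (n + 1)) (Rn n)

/-- the shift -/
noncomputable def x : P := fun _ => Matrix.of fun i j => if (i : ℕ) = j + 1 then 1 else 0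

/-- the other generator -/
noncomputable def y : P := fun n => Matrix.of fun i j =>
  if (i : ℕ) = 0 ∧ (j : ℕ) = n then s n else 0

theorem x_pow (b n : ℕ) (i j : Fin (n + 1)) :
    (x ^ b) n i j = if (i : ℕ) = j + b then 1 else 0 := by
  induction b generalizing i j with
  | zero =>
    rw [pow_zero, Pi.one_apply, Matrix.one_apply]
    simp [Fin.ext_iff]
  | succ b ih =>
    rw [pow_succ, Pi.mul_apply, Matrix.mul_apply]
    have h1 : ∀ l : Fin (n + 1), (x ^ b) n i l * x n l j =
        if (i : ℕ) = j + (b + 1) ∧ (l : ℕ) = j + 1 then 1 else 0 := by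
      intro l
      rw [ih]
      simp only [x, Matrix.of_apply]
      by_cases h1 : (l : ℕ) = j + 1
      · by_cases h2 : (i : ℕ) = l + b
        · rw [if_pos h2, if_pos h1, if_pos ⟨by omega, h1⟩, mul_one]
        · rw [if_neg h2, zero_mul, if_neg (by omega)]
      · rw [if_neg h1, mul_zero, if_neg (by omega)]
    rw [Finset.sum_congr rfl fun l _ => h1 l]
    by_cases h2 : (i : ℕ) = j + (b + 1)
    · have h3 : (j : ℕ) + 1 < n + 1 := by omega
      rw [if_pos h2, Finset.sum_eq_single (⟨j + 1, h3⟩ : Fin (n + 1))]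
      · simp [h2]
      · intro l _ hl
        rw [if_neg]
        rintro ⟨_, h4⟩
        exact hl (Fin.ext h4)
      · simp
    · rw [if_neg h2]
      apply Finset.sum_eq_zero
      intro l _
      rw [if_neg (by tauto)]

/-- `Y X^b Y` lives in component `b` only -/
theorem yxy (b n : ℕ) (i j : Fin (n + 1)) :
    (y * x ^ b * y) n i j = if n = b ∧ (i : ℕ) = 0 ∧ (j : ℕ) = n then s n ^ 2 else 0 := by
  rw [Pi.mul_apply, Matrix.mul_apply]
  have h1 : ∀ l : Fin (n + 1), (y * x ^ b) n i l =
      if (i : ℕ) = 0 ∧ n = l + b then s n else 0 := by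
    intro l
    rw [Pi.mul_apply, Matrix.mul_apply, Finset.sum_eq_single (Fin.last n)]
    · rw [x_pow]
      simp only [y, Matrix.of_apply, Fin.val_last, and_true]
      by_cases h2 : (i : ℕ) = 0
      · by_cases h3 : n = l + b
        · simp [h2, ← h3]
        · simp [h2, h3]
      · simp [h2]
    · intro l' _ hl'
      simp only [y, Matrix.of_apply]
      rw [if_neg, zero_mul]
      rintro ⟨_, h4⟩
      exact hl' (Fin.ext h4)
    · simp
  rw [Finset.sum_eq_single (0 : Fin (n + 1))]
  · rw [h1]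
    simp only [y, Matrix.of_apply, Fin.val_zero, zero_add, true_and]
    by_cases h2 : (i : ℕ) = 0
    · by_cases h3 : n = b
      · by_cases h4 : (j : ℕ) = n
        · rw [if_pos ⟨h2, h3⟩, if_pos h4, if_pos ⟨h3, h2, h4⟩, pow_two]
        · rw [if_neg h4, mul_zero, if_neg (by tauto)]
      · rw [if_neg (by tauto), zero_mul, if_neg (by tauto)]
    · rw [if_neg (by tauto), zero_mul, if_neg (by tauto)]
  · intro l _ hl
    have h5 : (l : ℕ) ≠ 0 := fun h => hl (Fin.ext (by simpa using h))
    simp only [y, Matrix.of_apply]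
    rw [if_neg (fun h => h5 h.1), mul_zero]
  · simp

theorem yxyxy {b n : ℕ} (h : b ≠ n) : y * x ^ b * y * x ^ n * y = 0 := by
  have h1 : ∀ m, m ≠ b → (y * x ^ b * y) m = 0 := by
    intro m hm
    ext i j
    rw [yxy, if_neg (by tauto)]
    rfl
  have h2 : ∀ m, m ≠ n → (y * x ^ n * y) m = 0 := by
    intro m hm
    ext i j
    rw [yxy, if_neg (by tauto)]
    rfl
  funext m
  by_cases hm : m = b
  · have h3 : y * x ^ b * y * x ^ n * y = y * x ^ b * (y * x ^ n * y) := by
      simp only [mul_assoc]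
    rw [h3, Pi.mul_apply, h2 m (by omega), mul_zero]
    rfl
  · have h3 : y * x ^ b * y * x ^ n * y = (y * x ^ b * y) * (x ^ n * y) := by
      simp only [mul_assoc]
    rw [h3, Pi.mul_apply, h1 m hm, zero_mul]
    rfl

/-- the algebra -/
noncomputable abbrev A : Subalgebra ℚ P := Algebra.adjoin ℚ {x, y}

/-- the list of words -/
noncomputable def wd (b n m a : ℕ) : P := x ^ b * y * (x ^ n * y) ^ m * x ^ a

/-- the words of length at most `L` -/
def W (L : ℕ) : Set P :=
  {w | w = 0 ∨ (∃ a ≤ L, w = x ^ a) ∨ ∃ b ≤ L, ∃ n ≤ L, ∃ m ≤ L, ∃ a ≤ L, w = wd b n m a}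

theorem W_mono {L L' : ℕ} (h : L ≤ L') : W L ⊆ W L' := by
  rintro w (h0 | ⟨a, ha, rfl⟩ | ⟨b, hb, n, hn, m, hm, a, ha, rfl⟩)
  · exact Or.inl h0
  · exact Or.inr (Or.inl ⟨a, ha.trans h, rfl⟩)
  · exact Or.inr (Or.inr ⟨b, hb.trans h, n, hn.trans h, m, hm.trans h, a, ha.trans h, rfl⟩)

theorem W_x {L : ℕ} {w : P} (h : w ∈ W L) : x * w ∈ W (L + 1) := by
  rcases h with rfl | ⟨a, ha, rfl⟩ | ⟨b, hb, n, hn, m, hm, a, ha, rfl⟩
  · exact Or.inl (mul_zero _)
  · exact Or.inr (Or.inl ⟨a + 1, by omega, by rw [pow_succ']⟩)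
  · refine Or.inr (Or.inr ⟨b + 1, by omega, n, by omega, m, by omega, a, by omega, ?_⟩)
    unfold wd
    rw [pow_succ' x b]
    simp only [mul_assoc]

theorem W_y {L : ℕ} {w : P} (h : w ∈ W L) : y * w ∈ W (L + 1) := by
  rcases h with rfl | ⟨a, ha, rfl⟩ | ⟨b, hb, n, hn, m, hm, a, ha, rfl⟩
  · exact Or.inl (mul_zero _)
  · refine Or.inr (Or.inr ⟨0, by omega, 0, by omega, 0, by omega, a, by omega, ?_⟩)
    unfold wd
    rw [pow_zero, pow_zero, one_mul, mul_one]
  · rcases Nat.eq_zero_or_pos m with rfl | hm0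
    · refine Or.inr (Or.inr ⟨0, by omega, b, by omega, 1, by omega, a, by omega, ?_⟩)
      unfold wd
      rw [pow_zero, pow_zero, one_mul, pow_one, mul_one]
      simp only [mul_assoc]
    · obtain ⟨m', rfl⟩ : ∃ m', m = m' + 1 := ⟨m - 1, by omega⟩
      by_cases hbn : b = n
      · subst hbn
        refine Or.inr (Or.inr ⟨0, by omega, b, by omega, m' + 2, by omega, a, by omega, ?_⟩)
        unfold wd
        rw [pow_zero, one_mul, pow_succ' (x ^ b * y) (m' + 1)]
        simp only [mul_assoc]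
      · left
        have h1 := yxyxy hbn
        unfold wd
        rw [pow_succ' (x ^ n * y) m']
        calc y * (x ^ b * y * (x ^ n * y * (x ^ n * y) ^ m') * x ^ a) =
            (y * x ^ b * y * x ^ n * y) * ((x ^ n * y) ^ m' * x ^ a) := by
              simp only [mul_assoc]
          _ = 0 := by rw [h1, zero_mul]

/-- the generating set -/
noncomputable def G : Set P := {1, x, y}

theorem G_pow (n : ℕ) : G ^ n ⊆ W n := by
  induction n with
  | zero =>
    rw [pow_zero]
    intro w hw
    rw [Set.mem_one] at hw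
    subst hw
    exact Or.inr (Or.inl ⟨0, le_refl _, by rw [pow_zero]⟩)
  | succ n ih =>
    rw [pow_succ']
    rintro _ ⟨g, hg, w, hw, rfl⟩
    have hw' := ih hw
    simp only [G, Set.mem_insert_iff, Set.mem_singleton_iff] at hg
    rcases hg with rfl | rfl | rfl
    · simp only [one_mul]; exact W_mono (by omega) hw'
    · exact W_x hw'
    · exact W_y hw'

/-- an explicit finite set containing the words -/
noncomputable def WF (L : ℕ) : Finset P := by
  classical
  exact insert 0 ((Finset.range (L + 1)).image (fun a => x ^ a) ∪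
    ((Finset.range (L + 1) ×ˢ Finset.range (L + 1)) ×ˢ
      (Finset.range (L + 1) ×ˢ Finset.range (L + 1))).image
        (fun q => wd q.1.1 q.1.2 q.2.1 q.2.2))

theorem W_sub (L : ℕ) : W L ⊆ (WF L : Set P) := by
  classical
  rintro w (rfl | ⟨a, ha, rfl⟩ | ⟨b, hb, n, hn, m, hm, a, ha, rfl⟩)
  · simp [WF]
  · simp only [WF, Finset.coe_insert, Finset.coe_union, Finset.coe_image]
    exact Or.inr (Or.inl ⟨a, by simpa using Nat.lt_succ_of_le ha, rfl⟩)
  · simp only [WF, Finset.coe_insert, Finset.coe_union, Finset.coe_image]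
    refine Or.inr (Or.inr ⟨((b, n), (m, a)), ?_, rfl⟩)
    simp only [Finset.coe_product, Finset.coe_range, Set.mem_prod, Set.mem_Iio]
    omega

theorem WF_card (L : ℕ) : (WF L).card ≤ 3 * (L + 1) ^ 4 := by
  classical
  have h1 : 1 ≤ (L + 1) ^ 4 := Nat.one_le_pow _ _ (by omega)
  have h2 : L + 1 ≤ (L + 1) ^ 4 := Nat.le_self_pow (by norm_num) _
  have h3 : ((Finset.range (L + 1)).image (fun a => x ^ a)).card ≤ L + 1 :=
    Finset.card_image_le.trans (by simp)
  have h4 : (((Finset.range (L + 1) ×ˢ Finset.range (L + 1)) ×ˢ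
      (Finset.range (L + 1) ×ˢ Finset.range (L + 1))).image
        (fun q => wd q.1.1 q.1.2 q.2.1 q.2.2)).card ≤ (L + 1) ^ 4 := by
    refine Finset.card_image_le.trans (le_of_eq ?_)
    simp only [Finset.card_product, Finset.card_range]
    ring
  unfold WF
  refine (Finset.card_insert_le _ _).trans ?_
  refine (Nat.add_le_add_right (Finset.card_union_le _ _) 1).trans ?_
  omega

/-- the generating subspace of `A` -/
noncomputable def V : Submodule ℚ A :=
  Submodule.span ℚ {(1 : A), ⟨x, Algebra.subset_adjoin (by simp)⟩,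
    ⟨y, Algebra.subset_adjoin (by simp)⟩}

theorem V_map : V.map A.val.toLinearMap = Submodule.span ℚ G := by
  unfold V
  rw [Submodule.map_span]
  congr 1
  simp [G, Set.image_insert_eq, Set.image_singleton]

theorem V_pow_finrank (n : ℕ) : Module.finrank ℚ ↥(V ^ n) ≤ 3 * (n + 1) ^ 4 := by
  classical
  have h1 : (V ^ n).map A.val.toLinearMap = Submodule.span ℚ (G ^ n) := by
    rw [Submodule.map_pow, V_map, Submodule.span_pow]
  have h2 : Module.finrank ℚ ↥((V ^ n).map A.val.toLinearMap) = Module.finrank ℚ ↥(V ^ n) :=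
    (LinearEquiv.finrank_eq (Submodule.equivMapOfInjective A.val.toLinearMap
      Subtype.val_injective (V ^ n))).symm
  rw [← h2, h1]
  have h3 : Submodule.span ℚ (G ^ n) ≤ Submodule.span ℚ (WF n : Set P) :=
    Submodule.span_mono ((G_pow n).trans (W_sub n))
  have : FiniteDimensional ℚ (Submodule.span ℚ (WF n : Set P)) :=
    FiniteDimensional.span_finset ℚ (WF n)
  exact (Submodule.finrank_mono h3).trans ((finrank_span_finset_le_card (WF n)).trans (WF_card n))

/-- the elements supported at component `n` with entries divisible by `s` -/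
def InI (n : ℕ) (a : P) : Prop :=
  (∀ m, m ≠ n → a m = 0) ∧ ∀ i j, a n i j ∈ Ideal.span {s n}

theorem InI_zero (n : ℕ) : InI n 0 := ⟨fun _ _ => rfl, fun _ _ => Ideal.zero_mem _⟩

theorem InI_add {n : ℕ} {a b : P} (ha : InI n a) (hb : InI n b) : InI n (a + b) :=
  ⟨fun m hm => by rw [Pi.add_apply, ha.1 m hm, hb.1 m hm, add_zero],
    fun i j => Ideal.add_mem _ (ha.2 i j) (hb.2 i j)⟩

theorem InI_neg {n : ℕ} {a : P} (ha : InI n a) : InI n (-a) :=
  ⟨fun m hm => by rw [Pi.neg_apply, ha.1 m hm, neg_zero],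
    fun i j => (Ideal.neg_mem_iff _).mpr (ha.2 i j)⟩

theorem InI_mul_left {n : ℕ} (c : P) {a : P} (ha : InI n a) : InI n (c * a) :=
  ⟨fun m hm => by rw [Pi.mul_apply, ha.1 m hm, mul_zero],
    fun i j => by
      rw [Pi.mul_apply, Matrix.mul_apply]
      exact Ideal.sum_mem _ fun l _ => Ideal.mul_mem_left _ _ (ha.2 l j)⟩

theorem InI_mul_right {n : ℕ} {a : P} (c : P) (ha : InI n a) : InI n (a * c) :=
  ⟨fun m hm => by rw [Pi.mul_apply, ha.1 m hm, zero_mul],
    fun i j => by
      rw [Pi.mul_apply, Matrix.mul_apply]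
      exact Ideal.sum_mem _ fun l _ => Ideal.mul_mem_right _ _ (ha.2 i l)⟩

/-- the ideal of `A` -/
noncomputable def I (n : ℕ) : TwoSidedIdeal A :=
  TwoSidedIdeal.mk' {a : A | InI n (a : P)} (InI_zero n) (fun ha hb => InI_add ha hb)
    (fun ha => InI_neg ha) (fun ha => InI_mul_left _ ha) (fun ha => InI_mul_right _ ha)

theorem mem_I {n : ℕ} {a : A} : a ∈ I n ↔ InI n (a : P) :=
  TwoSidedIdeal.mem_mk' ..

theorem prod_mem (n : ℕ) : ∀ (l : List A), l ≠ [] → (∀ a ∈ l, a ∈ I n) →
    (∀ m, m ≠ n → (l.prod : P) m = 0) ∧ ∀ i j, (l.prod : P) n i j ∈ Ideal.span {s n ^ l.length} := by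
  intro l
  induction l with
  | nil => intro h; exact absurd rfl h
  | cons a l ih =>
    intro _ h
    have ha : InI n (a : P) := mem_I.mp (h a (by simp))
    by_cases hl : l = []
    · subst hl
      rw [List.prod_singleton]
      refine ⟨ha.1, fun i j => ?_⟩
      have h5 := ha.2 i j
      rw [← pow_one (s n)] at h5
      exact h5
    · obtain ⟨h1, h2⟩ := ih hl (fun b hb => h b (by simp [hb]))
      rw [List.prod_cons]
      constructor
      · intro m hm
        rw [MulMemClass.coe_mul, Pi.mul_apply, h1 m hm, mul_zero]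
      · intro i j
        have h6 : Ideal.span {s n ^ (a :: l).length} =
            Ideal.span {s n} * Ideal.span {s n ^ l.length} := by
          rw [Ideal.span_singleton_mul_span_singleton, List.length_cons, ← pow_succ']
        rw [h6, MulMemClass.coe_mul, Pi.mul_apply, Matrix.mul_apply]
        exact Ideal.sum_mem _ fun c _ => Ideal.mul_mem_mul (ha.2 i c) (h2 c j)

theorem I_nilp (n : ℕ) : ∀ f : Fin (n + 1) → A, (∀ i, f i ∈ I n) → (List.ofFn f).prod = 0 := by
  intro f hf
  have hne : List.ofFn f ≠ [] := by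
    intro h
    have := congrArg List.length h
    simp at this
  obtain ⟨h1, h2⟩ := prod_mem n (List.ofFn f) hne (by
    intro a ha
    rw [List.mem_ofFn] at ha
    obtain ⟨i, rfl⟩ := ha
    exact hf i)
  apply Subtype.ext
  funext m
  by_cases hm : m = n
  · subst hm
    ext i j
    have h3 := h2 i j
    rw [List.length_ofFn, s_pow_zero, Ideal.span_singleton_eq_bot.mpr rfl, Ideal.mem_bot] at h3
    rw [h3]
    rfl
  · rw [h1 m hm]
    rfl

/-- `X` and `Y` in `A` -/
noncomputable def xA : A := ⟨x, Algebra.subset_adjoin (by simp)⟩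

/-- `X` and `Y` in `A` -/
noncomputable def yA : A := ⟨y, Algebra.subset_adjoin (by simp)⟩

/-- the element of `I n` whose powers do not vanish for a long time -/
noncomputable def c (n : ℕ) : A := yA * xA ^ n * yA * xA ^ n

theorem c_val (n : ℕ) : (c n : P) = y * x ^ n * y * x ^ n := rfl

theorem c_apply (n m : ℕ) (i j : Fin (m + 1)) : (c n : P) m i j =
    if m = n ∧ (i : ℕ) = 0 ∧ (j : ℕ) = 0 then s m ^ 2 else 0 := by
  rw [c_val, Pi.mul_apply, Matrix.mul_apply, Finset.sum_eq_single (Fin.last m)]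
  · rw [yxy, x_pow]
    simp only [Fin.val_last, and_true]
    by_cases h1 : m = n
    · by_cases h2 : (i : ℕ) = 0
      · by_cases h3 : (j : ℕ) = 0
        · rw [if_pos ⟨h1, h2⟩, if_pos (by omega), if_pos ⟨h1, h2, h3⟩, mul_one]
        · rw [if_neg (show ¬ m = (j : ℕ) + n by omega), mul_zero, if_neg (by tauto)]
      · rw [if_neg (by tauto), zero_mul, if_neg (by tauto)]
    · rw [if_neg (by tauto), zero_mul, if_neg (by tauto)]
  · intro l _ hl
    rw [yxy, if_neg, zero_mul]
    rintro ⟨_, _, h4⟩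
    exact hl (Fin.ext h4)
  · simp

theorem c_mem (n : ℕ) : c n ∈ I n := by
  rw [mem_I]
  constructor
  · intro m hm
    ext i j
    rw [c_apply, if_neg (by tauto)]
    rfl
  · intro i j
    rw [c_apply]
    split_ifs
    · rw [Ideal.mem_span_singleton]
      exact dvd_pow_self _ (by norm_num)
    · exact Ideal.zero_mem _

theorem c_pow (n k : ℕ) : ((c n ^ k : A) : P) n 0 0 = s n ^ (2 * k) := by
  induction k with
  | zero =>
    rw [pow_zero, mul_zero, pow_zero, OneMemClass.coe_one, Pi.one_apply, Matrix.one_apply_eq]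
  | succ k ih =>
    rw [pow_succ, MulMemClass.coe_mul, Pi.mul_apply, Matrix.mul_apply,
      Finset.sum_eq_single (0 : Fin (n + 1))]
    · rw [ih, c_apply, if_pos (by simp)]
      ring
    · intro l _ hl
      rw [c_apply, if_neg, mul_zero]
      rintro ⟨_, h2, _⟩
      exact hl (Fin.ext (by simpa using h2))
    · simp

/-- The negation of the preceding statement: Every finitely generated associative algebra over a field with polynomially bounded growth (finite GK dimension) has a nilpotent two-sided ideal containing every nilpotent two-sided ideal. -/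
theorem result :
    ¬ (∀ (k : Type) [Field k] (A : Type) [Ring A] [Algebra k A],
      Algebra.FiniteType k A →
      (∃ V : Submodule k A, FiniteDimensional k V ∧ (1 : A) ∈ V ∧
          Algebra.adjoin k (V : Set A) = ⊤ ∧
          ∃ C d : ℕ, ∀ n : ℕ, Module.finrank k ↥(V ^ n) ≤ C * (n + 1) ^ d) →
      ∃ N : TwoSidedIdeal A,
        (∃ m : ℕ, ∀ f : Fin m → A, (∀ i, f i ∈ N) → (List.ofFn f).prod = 0) ∧
        ∀ I : TwoSidedIdeal A,
          (∃ m : ℕ, ∀ f : Fin m → A, (∀ i, f i ∈ I) → (List.ofFn f).prod = 0) → I ≤ N) := by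
  intro H
  have hgen : Algebra.adjoin ℚ ({xA, yA} : Set A) = ⊤ := by
    have h1 := Algebra.adjoin_adjoin_coe_preimage (R := ℚ) (s := ({x, y} : Set P))
    rw [← h1]
    congr 1
    ext z
    simp only [Set.mem_insert_iff, Set.mem_singleton_iff, Set.mem_preimage]
    constructor
    · rintro (rfl | rfl)
      · exact Or.inl rfl
      · exact Or.inr rfl
    · rintro (h | h)
      · exact Or.inl (Subtype.ext h)
      · exact Or.inr (Subtype.ext h)
  have hV : Algebra.adjoin ℚ (V : Set A) = ⊤ := by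
    rw [eq_top_iff, ← hgen]
    apply Algebra.adjoin_mono
    rintro z (rfl | rfl)
    · exact Submodule.subset_span (by simp [xA])
    · exact Submodule.subset_span (by simp [yA])
  have hft : Algebra.FiniteType ℚ A := by
    classical
    refine ⟨⟨({xA, yA} : Finset A), ?_⟩⟩
    rw [← hgen]
    congr 1
    simp
  obtain ⟨N, ⟨m, hN⟩, hmax⟩ := H ℚ A hft ⟨V,
    FiniteDimensional.span_of_finite ℚ (by simp), Submodule.subset_span (by simp), hV,
    3, 4, V_pow_finrank⟩
  have h1 : I (2 * m) ≤ N := hmax _ ⟨_, I_nilp (2 * m)⟩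
  have h2 : c (2 * m) ∈ N := h1 (c_mem _)
  have h3 := hN (fun _ => c (2 * m)) (fun _ => h2)
  rw [List.ofFn_const, List.prod_replicate] at h3
  have h4 := c_pow (2 * m) m
  rw [h3] at h4
  exact s_pow_ne (le_refl _) h4.symm

end Pool.Agent.S02538
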