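import Pool.Statements.S02592
import Pool.Agent.Results.MP_eeceb3_al.RankTwoVectorSpace

set_option autoImplicit false
open Pool Pool.MP_a5fc06_al

namespace Pool.Agent.S02592

open Pool.Agent.Helper705.Rad

theorem aux {F : Type} [Group F] (N M : Subgroup F) [hN : N.Normal] [hM : M.Normal] (h : N = M)
    (hyp : IsSolvable (F ⧸ N) → ∀ g : F ⧸ N, g ≠ 1 →
      ∃ H : Subgroup (F ⧸ N), H.index ≠ 0 ∧ g ∉ H) :
    IsSolvable (F ⧸ M) → ∀ g : F ⧸ M, g ≠ 1 → ∃ H : Subgroup (F ⧸ M), H.index ≠ 0 ∧ g ∉ H := by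
  subst h
  exact hyp

/-- The negation of the preceding statement: For every set of group laws and every rank, if the relatively free group (free group modulo the verbal subgroup of those laws) is soluble, then every nontrivial element avoids some finite-index subgroup, i.e. the group is residually finite. -/
theorem result :
    ¬ (∀ (W : Set (FreeGroup ℕ)) (α : Type),
      IsSolvable (FreeGroup α ⧸ Subgroup.normalClosure
        {x : FreeGroup α | ∃ w ∈ W, ∃ φ : FreeGroup ℕ →* FreeGroup α, φ w = x}) →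
      ∀ g : FreeGroup α ⧸ Subgroup.normalClosure
          {x : FreeGroup α | ∃ w ∈ W, ∃ φ : FreeGroup ℕ →* FreeGroup α, φ w = x},
        g ≠ 1 →
          ∃ H : Subgroup (FreeGroup α ⧸ Subgroup.normalClosure
              {x : FreeGroup α | ∃ w ∈ W, ∃ φ : FreeGroup ℕ →* FreeGroup α, φ w = x}),
            H.index ≠ 0 ∧ g ∉ H) := by
  intro hall
  obtain ⟨U, v, d, hres⟩ := Pool.Agent.Results.MP_eeceb3_al.RankTwoVectorSpace.result
  obtain ⟨hsol, -, hroot, -, hne, -⟩ := hres (Fin 2)
  have hnt := hne.2 inferInstance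
  -- the two descriptions of the verbal subgroup agree
  have hV : Subgroup.normalClosure
      {x : FreeGroup (Fin 2) | ∃ w ∈ U, ∃ φ : FreeGroup ℕ →* FreeGroup (Fin 2), φ w = x} =
      Verbal U (FreeGroup (Fin 2)) := by
    apply le_antisymm
    · exact Subgroup.normalClosure_le_normal fun x hx => Subgroup.subset_closure hx
    · unfold Verbal
      rw [Subgroup.closure_le]
      exact fun x hx => Subgroup.subset_normalClosure hx
  have h2 := aux _ _ hV (hall U (Fin 2)) ⟨⟨d, hsol⟩⟩
  obtain ⟨h, hh1⟩ := (Subgroup.ne_bot_iff_exists_ne_one).1 hnt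
  have hh2 : (h : FreeGroup (Fin 2) ⧸ Verbal U (FreeGroup (Fin 2))) ≠ 1 :=
    fun e => hh1 (Subtype.ext e)
  obtain ⟨H, hH, hgH⟩ := h2 _ hh2
  -- the radicable subgroup lies in every subgroup of finite index
  have hfi : H.FiniteIndex := ⟨hH⟩
  have hpos : 1 ≤ H.normalCore.index :=
    Nat.one_le_iff_ne_zero.2 (Subgroup.FiniteIndex.index_ne_zero (H := H.normalCore))
  obtain ⟨y, ⟨hy, hyn⟩, -⟩ := hroot h.1 h.2 H.normalCore.index hpos
  apply hgH
  apply Subgroup.normalCore_le H
  rw [← hyn]
  exact Subgroup.pow_index_mem H.normalCore y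

end Pool.Agent.S02592
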