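import Pool.Statements.S02672
import Pool.Agent.Results.MP_ac3292_al.NoSplit

set_option autoImplicit false
open Pool Pool.MP_ac3292_al

namespace Pool.Agent.S02672

open Pool.Agent.Results.MP_ac3292_al.NoSplit

/-- The negation of the preceding statement: For all f.g. G with Cayley graph Γ and m:ℕ: if asdim G ≥ m+2 and some X with asdim X ≤ m coarsely separates Γ (two distinct deep components of the complement of the r-neighbourhood), then G is a nontrivial amalgam K₀ *_H K₁ or an HNN extension A*_H over some subgroup H with asdim H ≤ m+1. -/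
theorem result :
    ¬ (∀ (G : Type) [Group G] (S : Finset G), Subgroup.closure (S : Set G) = ⊤ →
  ∀ (Γ : SimpleGraph G), Γ = SimpleGraph.fromRel (fun g h : G => g⁻¹ * h ∈ S) →
  ∀ (asdimLE : Set G → ℕ → Prop),
    (∀ (Y : Set G) (k : ℕ), asdimLE Y k ↔
      ∀ R : ℕ, ∃ 𝒰 : Set (Set G), (∀ U ∈ 𝒰, U ⊆ Y) ∧ Y ⊆ ⋃₀ 𝒰 ∧
        (∃ D : ℕ, ∀ U ∈ 𝒰, ∀ a ∈ U, ∀ b ∈ U, Γ.dist a b ≤ D) ∧
        ∀ y ∈ Y, {U ∈ 𝒰 | ∃ z ∈ U, Γ.dist y z ≤ R}.encard ≤ (k + 1 : ℕ∞)) →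
  ∀ (m : ℕ), ¬ asdimLE Set.univ (m + 1) →
  ∀ (X : Set G), asdimLE X m →
  (∃ r : ℕ, ∃ Ω : Set G, Ω = {v : G | ∀ x ∈ X, r < Γ.dist v x} ∧
    ∃ C₁ C₂ : (Γ.induce Ω).ConnectedComponent, C₁ ≠ C₂ ∧
      ∀ C : (Γ.induce Ω).ConnectedComponent, (C = C₁ ∨ C = C₂) →
        ∀ D : ℕ, ∃ v : Ω, (Γ.induce Ω).connectedComponentMk v = C ∧
          ∀ x ∈ X, D < Γ.dist (v : G) x) →
  ∃ H : Subgroup G, asdimLE (H : Set G) (m + 1) ∧
    ((∃ (K : Bool → Subgroup G) (hK : ∀ i, H ≤ K i), (∀ i, H ≠ K i) ∧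
        ∃ e : Monoid.PushoutI (fun i : Bool => Subgroup.inclusion (hK i)) ≃* G,
          ∀ (i : Bool) (a : K i), e (Monoid.PushoutI.of i a) = (a : G)) ∨
     (∃ (A : Subgroup G) (B₁ B₂ : Subgroup A) (φ : B₁ ≃* B₂)
        (e : HNNExtension A B₁ B₂ φ ≃* G),
          (∀ a : A, e (HNNExtension.of a) = (a : G)) ∧ H = B₁.map A.subtype))) := by
  intro hmain
  obtain ⟨G, instG, S, hS, hasd, ⟨X, hX, r, hr, C₁, C₂, hne, hC₁, hC₂⟩, hsplit⟩ :=
    Pool.Agent.Results.MP_ac3292_al.NoSplit.result 2 le_rfl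
  have hΓ : cayley S = SimpleGraph.fromRel (fun g h : G => g⁻¹ * h ∈ S) := rfl
  obtain ⟨H, -, h | h⟩ := hmain G S hS (cayley S) hΓ
    (fun Y k => ∀ R : ℕ, ∃ 𝒰 : Set (Set G), (∀ U ∈ 𝒰, U ⊆ Y) ∧ Y ⊆ ⋃₀ 𝒰 ∧
        (∃ D : ℕ, ∀ U ∈ 𝒰, ∀ a ∈ U, ∀ b ∈ U, (cayley S).dist a b ≤ D) ∧
        ∀ y ∈ Y, {U ∈ 𝒰 | ∃ z ∈ U, (cayley S).dist y z ≤ R}.encard ≤ (k + 1 : ℕ∞))
    (fun Y k => Iff.rfl) 0
    (by
      intro h
      apply hasd
      intro R
      obtain ⟨𝒰, h1, h2, ⟨D, h3⟩, h4⟩ := h R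
      refine ⟨𝒰, Subtype.val, D, fun i => h1 i.1 i.2, ?_, fun i => h3 i.1 i.2, ?_⟩
      · intro y hy
        obtain ⟨U, hU, hyU⟩ := h2 hy
        exact ⟨⟨U, hU⟩, hyU⟩
      · intro y hy
        have h5 := h4 y hy
        have h6 : (Subtype.val '' {i : 𝒰 | ∃ z ∈ i.1, (cayley S).dist y z ≤ R}) ⊆
            {U ∈ 𝒰 | ∃ z ∈ U, (cayley S).dist y z ≤ R} := by
          rintro _ ⟨i, hi, rfl⟩
          exact ⟨i.2, hi⟩
        have h7 := Set.encard_le_encard h6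
        rw [Subtype.val_injective.encard_image] at h7
        refine h7.trans (h5.trans ?_)
        norm_num)
    X
    (by
      intro R
      obtain ⟨ι, U, D, h1, h2, h3, h4⟩ := hX R
      refine ⟨Set.range U, ?_, ?_, ⟨D, ?_⟩, ?_⟩
      · rintro _ ⟨i, rfl⟩
        exact h1 i
      · intro y hy
        obtain ⟨i, hi⟩ := h2 y hy
        exact ⟨U i, ⟨i, rfl⟩, hi⟩
      · rintro _ ⟨i, rfl⟩
        exact h3 i
      · intro y hy
        have h5 := h4 y hy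
        have h6 : {V ∈ Set.range U | ∃ z ∈ V, (cayley S).dist y z ≤ R} ⊆
            U '' {i : ι | ∃ z ∈ U i, (cayley S).dist y z ≤ R} := by
          rintro _ ⟨⟨i, rfl⟩, hi⟩
          exact ⟨i, hi, rfl⟩
        refine (Set.encard_le_encard h6).trans ((Set.encard_image_le _ _).trans (h5.trans ?_))
        norm_num)
    ⟨r, _, rfl, C₁, C₂, hne, by
      rintro C (rfl | rfl) D
      · obtain ⟨v, hv, hv2⟩ := hC₁ D
        exact ⟨v, hv, hv2⟩
      · obtain ⟨v, hv, hv2⟩ := hC₂ D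
        exact ⟨v, hv, hv2⟩⟩
  · obtain ⟨K, hK, hne, e, he⟩ := h
    apply hsplit H
    left
    refine ⟨fun i => K i, fun i => inferInstance, fun i => Subgroup.inclusion (hK i),
      fun i => Subgroup.inclusion_injective _, fun i hs => hne i ?_, e, ?_⟩
    · apply le_antisymm (hK i)
      intro x hx
      obtain ⟨y, hy⟩ := hs ⟨x, hx⟩
      have : (y : G) = x := congrArg Subtype.val hy
      rw [← this]
      exact y.2
    · intro x
      rw [← Monoid.PushoutI.of_apply_eq_base (fun i : Bool => Subgroup.inclusion (hK i)) true x,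
        he]
      rfl
  · obtain ⟨A, B₁, B₂, φ, e, he, hH⟩ := h
    apply hsplit H
    right
    refine ⟨A, inferInstance, B₁, B₂, φ, e, ?_⟩
    rw [hH, Subgroup.map_map]
    congr 1
    ext a
    exact (he a).symm

end Pool.Agent.S02672
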