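import Pool.Statements.S02882
import Pool.Agent.Results.MP_8bc403_al.GenDepend

set_option autoImplicit false
open Pool Pool.MP_bb0bfc_al

namespace Pool.Agent.S02882

open Pool.Agent.Results.MP_8bc403_al.GenDepend
open scoped commutatorElement

lemma pal_word {X : Set F2} {p : F2} (h : IsPalindrome X p) :
    ∃ w : List F2, (∀ x ∈ w, x ∈ X ∨ x⁻¹ ∈ X) ∧ w.reverse = w ∧ w.prod = p := by
  obtain ⟨w, -, hw, hp⟩ := h
  refine ⟨w.map fun (q : X × Bool) => cond q.2 (q.1 : F2) (q.1 : F2)⁻¹, ?_, ?_, hp⟩
  · intro x hx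
    obtain ⟨⟨y, e⟩, -, rfl⟩ := List.mem_map.1 hx
    cases e
    · right; simp
    · left; exact y.2
  · rw [← List.map_reverse, hw]

/-- an automorphism of the line commuting with the unit translation is equivariant under all
integer translations -/
lemma equiv_int {f : ℝ ≃o ℝ} (hf : f * z = z * f) (x : ℝ) (n : ℤ) : f (x + n) = f x + n := by
  have h1 : ∀ x, f (x + 1) = f x + 1 := fun x => DFunLike.congr_fun hf x
  induction n using Int.induction_on with
  | zero => simp
  | succ n ih =>
    have e : x + ((n + 1 : ℤ) : ℝ) = (x + ((n : ℤ) : ℝ)) + 1 := by push_cast; ring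
    rw [e, h1, ih]; push_cast; ring
  | pred n ih =>
    have h2 := h1 (x + ((-(n : ℤ) - 1 : ℤ) : ℝ))
    have e : x + ((-(n : ℤ) - 1 : ℤ) : ℝ) + 1 = x + ((-(n : ℤ) : ℤ) : ℝ) := by push_cast; ring
    rw [e, ih] at h2
    push_cast at h2 ⊢
    linarith

/-- the displacement of an automorphism commuting with the unit translation varies by at most one -/
lemma disp {f : ℝ ≃o ℝ} (hf : f * z = z * f) (s t : ℝ) : (f s - s) - (f t - t) ≤ 1 := by
  -- choose the integer n with t + n ≤ s < t + n + 1
  set n : ℤ := ⌊s - t⌋ with hn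
  have h1 : (n : ℝ) ≤ s - t := Int.floor_le _
  have h2 : s - t < n + 1 := Int.lt_floor_add_one _
  have h3 : f s ≤ f (t + ((n + 1 : ℤ) : ℝ)) := f.monotone (by push_cast; linarith)
  rw [equiv_int hf] at h3
  push_cast at h3
  linarith

lemma disp_abs {f : ℝ ≃o ℝ} (hf : f * z = z * f) (s t : ℝ) : |(f s - s) - (f t - t)| ≤ 1 := by
  rw [abs_le]
  have h1 := disp hf s t
  have h2 := disp hf t s
  constructor <;> linarith

lemma comm_move (g h : F2) (x : ℝ) : |act ⁅g, h⁆ x - x| ≤ 2 := by
  have hg := (act_comm g)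
  have hh := (act_comm h)
  obtain ⟨t, rfl⟩ : ∃ t, act h (act g t) = x := ⟨(act g).symm ((act h).symm x), by simp⟩
  have e : act ⁅g, h⁆ (act h (act g t)) = act g (act h t) := by
    have : act ⁅g, h⁆ * act h * act g = act g * act h := by
      rw [← map_mul, ← map_mul, ← map_mul, commutatorElement_def]
      congr 1; group
    exact DFunLike.congr_fun this t
  rw [e]
  have h1 := disp_abs hg (act h t) t
  have h2 := disp_abs hh t (act g t)
  rw [abs_le] at h1 h2 ⊢
  constructor <;> linarith [h1.1, h1.2, h2.1, h2.2]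

lemma comm_list_move (l : List F2) (hl : ∀ c ∈ l, c ∈ commutatorSet F2) (x : ℝ) :
    |act l.prod x - x| ≤ 2 * l.length := by
  induction l generalizing x with
  | nil => simp
  | cons p l ih =>
    have h1 := ih (fun p hp => hl p (List.mem_cons_of_mem _ hp)) x
    obtain ⟨g, h, rfl⟩ := hl p List.mem_cons_self
    have h2 := comm_move g h (act l.prod x)
    rw [List.prod_cons, map_mul, List.length_cons]
    change |act ⁅g, h⁆ (act l.prod x) - x| ≤ _
    push_cast
    calc |act ⁅g, h⁆ (act l.prod x) - x|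
        = |(act ⁅g, h⁆ (act l.prod x) - act l.prod x) + (act l.prod x - x)| := by
          congr 1; ring
      _ ≤ _ := abs_add_le _ _
      _ ≤ _ := by linarith

lemma c_mem : c ∈ commutator F2 := by
  have : c = ⁅a, b⁻¹⁆ := by simp [c, commutatorElement_def, mul_assoc]
  rw [this]
  exact Subgroup.commutator_mem_commutator trivial trivial

/-- The negation of the preceding statement: For every finitely generated group G: some finite generating set gives a uniform bound on the number of palindromic words needed to write any element iff there is a uniform bound on the number of commutators needed to write any element of the derived subgroup. -/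
theorem result :
    ¬ (∀ (G : Type) [Group G] [Group.FG G],
      (∃ S : Finset G, Subgroup.closure (S : Set G) = ⊤ ∧
        ∃ n : ℕ, ∀ g : G, ∃ L : List (List G), L.length ≤ n ∧
          (∀ w ∈ L, w.reverse = w ∧ ∀ x ∈ w, x ∈ S ∨ x⁻¹ ∈ S) ∧
          (L.map List.prod).prod = g) ↔
      (∃ n : ℕ, ∀ g ∈ commutator G, ∃ l : List G, l.length ≤ n ∧
          (∀ c ∈ l, c ∈ commutatorSet G) ∧ l.prod = g)) := by
  classical
  intro H
  have hFG : Group.FG F2 := inferInstance
  obtain ⟨n, hn⟩ := (H F2).1 ⟨{a, b, a * b}, by rw [← closure_abc]; simp, 3, by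
    intro g
    obtain ⟨i, j, h⟩ := exists_form g
    have hX : (({a, b, a * b} : Finset F2) : Set F2) = ({a, b, a * b} : Set F2) := by simp
    obtain ⟨w1, hw1, hr1, hp1⟩ := pal_word
      (isPalindrome_zpow (X := ({a, b, a * b} : Set F2)) (s := a) (Or.inl rfl) i)
    obtain ⟨w2, hw2, hr2, hp2⟩ := pal_word
      (isPalindrome_zpow (X := ({a, b, a * b} : Set F2)) (s := b) (Or.inr (Or.inl rfl)) j)
    obtain ⟨w3, hw3, hr3, hp3⟩ := pal_word (mem_relSub h)
    refine ⟨[w1, w2, w3], by simp, ?_, by simp [hp1, hp2, hp3, mul_assoc]⟩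
    have key : ∀ w : List F2, (∀ x ∈ w, x ∈ ({a, b, a * b} : Set F2) ∨
        x⁻¹ ∈ ({a, b, a * b} : Set F2)) → ∀ x ∈ w, x ∈ ({a, b, a * b} : Finset F2) ∨
        x⁻¹ ∈ ({a, b, a * b} : Finset F2) := by
      intro w hw x hx
      have := hw x hx
      rw [← hX] at this
      simpa only [Finset.mem_coe] using this
    intro w hw
    simp only [List.mem_cons, List.not_mem_nil, or_false] at hw
    rcases hw with rfl | rfl | rfl
    · exact ⟨hr1, key _ hw1⟩
    · exact ⟨hr2, key _ hw2⟩
    · exact ⟨hr3, key _ hw3⟩⟩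
  obtain ⟨l, hlen, hl, hprod⟩ := hn (c ^ (2 * n + 1)) (pow_mem c_mem _)
  have h := comm_list_move l hl 0
  rw [hprod, act_c_pow, sub_zero, abs_neg, Nat.abs_cast] at h
  have h2 : 2 * n + 1 ≤ 2 * l.length := by exact_mod_cast h
  omega

end Pool.Agent.S02882
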