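import Pool.Statements.S02883
import Pool.Agent.Results.MP_bb8083_al.LinearExponent

set_option autoImplicit false
open scoped Pointwise
open Pool Pool.MP_bb8083_al

namespace Pool.Agent.S02883

/-- For every group G and every partition of G into n pairwise disjoint sets, some cell A has (A·A⁻¹) raised to the power 4^(n−1) equal to a subgroup of G of finite index at most n. -/
theorem result :
    ∀ (G : Type) [Group G] (n : ℕ) (A : Fin n → Set G),
      Pairwise (fun i j => Disjoint (A i) (A j)) →
      (⋃ i, A i) = Set.univ →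
      ∃ i : Fin n, ∃ H : Subgroup G,
        ((A i * (A i)⁻¹) ^ (4 ^ (n - 1)) : Set G) = (H : Set G) ∧
        H.index ≠ 0 ∧ H.index ≤ n := by
  intro G _ n A _ hA
  obtain ⟨i, H, h0, hn, hk⟩ :=
    Pool.Agent.Results.MP_bb8083_al.LinearExponent.result n A hA
  refine ⟨i, H, hk _ ?_, h0, hn⟩
  have hlt : ∀ m : ℕ, m + 3 ≤ m + 3 → 3 * (m + 3) / 2 + 1 ≤ 4 ^ (m + 2) := by
    intro m _
    have h1 : 4 * (m + 3) ≤ 4 ^ (m + 2) := by
      induction m with
      | zero => norm_num
      | succ k ih =>
        have := ih le_rfl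
        rw [show k + 1 + 2 = (k + 2) + 1 by ring, pow_succ]
        omega
    omega
  have hdiv : n / H.index ≤ n := Nat.div_le_self _ _
  split_ifs with h
  · have h4 : n ≤ 4 ^ (n - 1) := by
      interval_cases n
      · exact Nat.zero_le _
      · norm_num
      · norm_num
    exact hdiv.trans h4
  · obtain ⟨m, rfl⟩ : ∃ m, n = m + 3 := ⟨n - 3, by omega⟩
    have h3 := hlt m le_rfl
    have : 3 * ((m + 3) / H.index) / 2 ≤ 3 * (m + 3) / 2 :=
      Nat.div_le_div_right (Nat.mul_le_mul_left _ hdiv)
    have e : m + 3 - 1 = m + 2 := by omega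
    rw [e]
    omega


end Pool.Agent.S02883
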