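import Pool.Statements.S03052

/-!
Counterexample for `p = 3`: in the restricted enveloping algebra of the Heisenberg Lie algebra over
`F_3` with `x^[3] = y^[3] = 0`, `z^[3] = z`, which has the direct factor `M_3(F_3)`, there is a copy of
`M_2(F_3)`; its least `n` is `2`, not a power of `3`.
-/

set_option autoImplicit false
open Pool Pool.MP_cacfbf_al

namespace Pool.Agent.S03052

attribute [local instance 100] LieRing.ofAssociativeRing

instance fact3 : Fact (Nat.Prime 3) := ⟨by norm_num⟩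

/-- the ground field -/
abbrev F : Type := ZMod 3

/-- the Heisenberg Lie algebra -/
@[ext] structure H where
  a : F
  b : F
  c : F

namespace H

/-- coordinates -/
def equiv : H ≃ F × F × F where
  toFun v := (v.a, v.b, v.c)
  invFun v := ⟨v.1, v.2.1, v.2.2⟩
  left_inv _ := rfl
  right_inv _ := rfl

instance : Zero H := ⟨⟨0, 0, 0⟩⟩
instance : Add H := ⟨fun u v => ⟨u.a + v.a, u.b + v.b, u.c + v.c⟩⟩
instance : Neg H := ⟨fun u => ⟨-u.a, -u.b, -u.c⟩⟩
instance : Sub H := ⟨fun u v => ⟨u.a - v.a, u.b - v.b, u.c - v.c⟩⟩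
instance : SMul F H := ⟨fun t u => ⟨t * u.a, t * u.b, t * u.c⟩⟩

@[simp] theorem zero_a : (0 : H).a = 0 := rfl
@[simp] theorem zero_b : (0 : H).b = 0 := rfl
@[simp] theorem zero_c : (0 : H).c = 0 := rfl
@[simp] theorem add_a (u v : H) : (u + v).a = u.a + v.a := rfl
@[simp] theorem add_b (u v : H) : (u + v).b = u.b + v.b := rfl
@[simp] theorem add_c (u v : H) : (u + v).c = u.c + v.c := rfl
@[simp] theorem neg_a (u : H) : (-u).a = -u.a := rfl
@[simp] theorem neg_b (u : H) : (-u).b = -u.b := rfl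
@[simp] theorem neg_c (u : H) : (-u).c = -u.c := rfl
@[simp] theorem sub_a (u v : H) : (u - v).a = u.a - v.a := rfl
@[simp] theorem sub_b (u v : H) : (u - v).b = u.b - v.b := rfl
@[simp] theorem sub_c (u v : H) : (u - v).c = u.c - v.c := rfl
@[simp] theorem smul_a (t : F) (u : H) : (t • u).a = t * u.a := rfl
@[simp] theorem smul_b (t : F) (u : H) : (t • u).b = t * u.b := rfl
@[simp] theorem smul_c (t : F) (u : H) : (t • u).c = t * u.c := rfl

instance : AddCommGroup H where
  add_assoc u v w := by ext <;> simp [add_assoc]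
  zero_add u := by ext <;> simp
  add_zero u := by ext <;> simp
  nsmul := nsmulRec
  zsmul := zsmulRec
  neg_add_cancel u := by ext <;> simp
  add_comm u v := by ext <;> simp [add_comm]
  sub_eq_add_neg u v := by ext <;> simp [sub_eq_add_neg]

instance : Module F H where
  one_smul u := by ext <;> simp
  mul_smul s t u := by ext <;> simp [mul_assoc]
  smul_zero t := by ext <;> simp
  smul_add t u v := by ext <;> simp [mul_add]
  add_smul s t u := by ext <;> simp [add_mul]
  zero_smul u := by ext <;> simp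

instance : Bracket H H := ⟨fun u v => ⟨0, 0, u.a * v.b - u.b * v.a⟩⟩

@[simp] theorem lie_a (u v : H) : ⁅u, v⁆.a = 0 := rfl
@[simp] theorem lie_b (u v : H) : ⁅u, v⁆.b = 0 := rfl
@[simp] theorem lie_c (u v : H) : ⁅u, v⁆.c = u.a * v.b - u.b * v.a := rfl

instance : LieRing H where
  add_lie u v w := by ext <;> simp <;> ring
  lie_add u v w := by ext <;> simp <;> ring
  lie_self u := by ext <;> simp <;> ring
  leibniz_lie u v w := by ext <;> simp

instance : LieAlgebra F H where
  lie_smul t u v := by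
    ext
    · simp
    · simp
    · simp; ring

end H

/-- the `p`-map -/
def f (u : H) : H := ⟨0, 0, u.c ^ 3⟩

@[simp] theorem f_a (u : H) : (f u).a = 0 := rfl
@[simp] theorem f_b (u : H) : (f u).b = 0 := rfl
@[simp] theorem f_c (u : H) : (f u).c = u.c ^ 3 := rfl

theorem f_smul (t : F) (u : H) : f (t • u) = t ^ 3 • f u := by
  ext <;> simp <;> ring

theorem f_add (u v : H) : f (u + v) = f u + f v := by
  ext <;> simp [add_pow_char]

theorem f_ad (u v : H) : (LieAlgebra.ad F H u ^ 3) v = ⁅f u, v⁆ := by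
  have h : (LieAlgebra.ad F H u ^ 3) v = ⁅u, ⁅u, ⁅u, v⁆⁆⁆ := by
    simp [pow_succ, LieAlgebra.ad_apply]
  rw [h]
  ext <;> simp

/-- cubing is additive modulo 3 on elements with central commutator -/
theorem cube_add {A : Type} [Ring A] [Algebra F A] (u v : A)
    (h1 : (u * v - v * u) * u = u * (u * v - v * u))
    (h2 : (u * v - v * u) * v = v * (u * v - v * u)) : (u + v) ^ 3 = u ^ 3 + v ^ 3 := by
  have h3 : ∀ a : A, (3 : ℤ) • a = 0 := by
    intro a
    have h4 : ((3 : ℤ) : F) • a = (3 : ℤ) • a := by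
      rw [← Int.cast_smul_eq_zsmul F]
    rw [← h4, show (((3 : ℤ) : F)) = 0 from by decide, zero_smul]
  have h5 : (u + v) ^ 3 - (u ^ 3 + v ^ 3) =
      (3 : ℤ) • (u * u * v - u * (u * v - v * u)) + (3 : ℤ) • (u * v * v - (u * v - v * u) * v)
      + (u * (u * v - v * u) - (u * v - v * u) * u)
      + ((u * v - v * u) * v - v * (u * v - v * u)) := by
    simp only [pow_succ, pow_zero, one_mul]
    noncomm_ring
  rw [h3, h3, h1, h2, sub_self, sub_self, add_zero, add_zero, add_zero] at h5
  exact sub_eq_zero.mp h5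

/-- the relations of the restricted enveloping algebra -/
abbrev rel : UniversalEnvelopingAlgebra F H → UniversalEnvelopingAlgebra F H → Prop :=
  fun a b => ∃ x : H, a = UniversalEnvelopingAlgebra.ι F x ^ 3 ∧
    b = UniversalEnvelopingAlgebra.ι F (f x)

/-- the restricted enveloping algebra -/
abbrev Q : Type := RingQuot rel

theorem f_env (x y : H) :
    UniversalEnvelopingAlgebra.ι F (f (x + y)) - UniversalEnvelopingAlgebra.ι F (f x)
        - UniversalEnvelopingAlgebra.ι F (f y)
      = (UniversalEnvelopingAlgebra.ι F x + UniversalEnvelopingAlgebra.ι F y) ^ 3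
        - UniversalEnvelopingAlgebra.ι F x ^ 3 - UniversalEnvelopingAlgebra.ι F y ^ 3 := by
  have hc : ∀ u v w : H, (UniversalEnvelopingAlgebra.ι F u * UniversalEnvelopingAlgebra.ι F v -
      UniversalEnvelopingAlgebra.ι F v * UniversalEnvelopingAlgebra.ι F u) *
        UniversalEnvelopingAlgebra.ι F w =
      UniversalEnvelopingAlgebra.ι F w * (UniversalEnvelopingAlgebra.ι F u *
        UniversalEnvelopingAlgebra.ι F v -
      UniversalEnvelopingAlgebra.ι F v * UniversalEnvelopingAlgebra.ι F u) := by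
    intro u v w
    have h1 : UniversalEnvelopingAlgebra.ι F u * UniversalEnvelopingAlgebra.ι F v -
      UniversalEnvelopingAlgebra.ι F v * UniversalEnvelopingAlgebra.ι F u =
        UniversalEnvelopingAlgebra.ι F ⁅u, v⁆ := by
      rw [LieHom.map_lie, LieRing.of_associative_ring_bracket]
    have h2 : ⁅⁅u, v⁆, w⁆ = 0 := by
      ext <;> simp
    have h3 := LieHom.map_lie (UniversalEnvelopingAlgebra.ι F) ⁅u, v⁆ w
    rw [h2, map_zero, LieRing.of_associative_ring_bracket] at h3
    rw [h1]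
    exact (sub_eq_zero.mp h3.symm)
  rw [cube_add _ _ (hc _ _ _) (hc _ _ _), f_add, map_add]
  abel

/-- the class of an element of the Lie algebra -/
noncomputable def q (u : H) : Q := RingQuot.mkAlgHom F rel (UniversalEnvelopingAlgebra.ι F u)

theorem q_lie (u v : H) : q u * q v - q v * q u = q ⁅u, v⁆ := by
  unfold q
  rw [LieHom.map_lie, LieRing.of_associative_ring_bracket, map_sub, map_mul, map_mul]

theorem q_cube (u : H) : q u ^ 3 = q (f u) := by
  unfold q
  rw [← map_pow]
  exact RingQuot.mkAlgHom_rel F ⟨u, rfl, rfl⟩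

theorem q_zero : q 0 = 0 := by
  unfold q
  rw [map_zero, map_zero]

/-- generators -/
noncomputable def X : Q := q ⟨1, 0, 0⟩
/-- generators -/
noncomputable def Y : Q := q ⟨0, 1, 0⟩
/-- generators -/
noncomputable def Z : Q := q ⟨0, 0, 1⟩

theorem XY : X * Y = Y * X + Z := by
  have h := q_lie ⟨1, 0, 0⟩ ⟨0, 1, 0⟩
  have h2 : ⁅(⟨1, 0, 0⟩ : H), (⟨0, 1, 0⟩ : H)⁆ = ⟨0, 0, 1⟩ := by ext <;> simp
  rw [h2] at h
  exact sub_eq_iff_eq_add'.mp h

theorem XZ : Z * X = X * Z := by
  have h := q_lie ⟨0, 0, 1⟩ ⟨1, 0, 0⟩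
  have h2 : ⁅(⟨0, 0, 1⟩ : H), (⟨1, 0, 0⟩ : H)⁆ = 0 := by ext <;> simp
  rw [h2, q_zero] at h
  exact sub_eq_zero.mp h

theorem YZ : Z * Y = Y * Z := by
  have h := q_lie ⟨0, 0, 1⟩ ⟨0, 1, 0⟩
  have h2 : ⁅(⟨0, 0, 1⟩ : H), (⟨0, 1, 0⟩ : H)⁆ = 0 := by ext <;> simp
  rw [h2, q_zero] at h
  exact sub_eq_zero.mp h

theorem X3 : X * X * X = 0 := by
  have h := q_cube ⟨1, 0, 0⟩
  have h2 : f ⟨1, 0, 0⟩ = 0 := by ext <;> simp
  rw [h2, q_zero] at h
  rw [← h]
  simp only [X, pow_succ, pow_zero, one_mul]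

theorem Y3 : Y * Y * Y = 0 := by
  have h := q_cube ⟨0, 1, 0⟩
  have h2 : f ⟨0, 1, 0⟩ = 0 := by ext <;> simp
  rw [h2, q_zero] at h
  rw [← h]
  simp only [Y, pow_succ, pow_zero, one_mul]

theorem Z3 : Z * Z * Z = Z := by
  have h := q_cube ⟨0, 0, 1⟩
  have h2 : f ⟨0, 0, 1⟩ = ⟨0, 0, 1⟩ := by ext <;> simp
  rw [h2] at h
  rw [show Z = q ⟨0, 0, 1⟩ from rfl]
  simp only [pow_succ, pow_zero, one_mul] at h
  exact h

theorem three (a : Q) : a + a + a = 0 := by
  have h4 : (3 : F) • a = a + a + a := by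
    rw [show (3 : F) = 1 + 1 + 1 from by decide, add_smul, add_smul, one_smul]
  rw [← h4, show (3 : F) = 0 from by decide, zero_smul]

/-- the central idempotent -/
noncomputable def e : Q := -(Z * Z + Z)

theorem Ze : Z * e = e := by
  unfold e
  have : Z * -(Z * Z + Z) = -(Z * Z * Z + Z * Z) := by noncomm_ring
  rw [this, Z3, add_comm]

theorem ee : e * e = e := by
  have h1 : e * e = -(Z * (Z * e) + Z * e) := by
    conv_lhs => enter [1]; unfold e
    noncomm_ring
  rw [h1, Ze, Ze]
  have := three e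
  rw [← sub_eq_zero, ← neg_eq_zero, ← this]
  abel

theorem eX : e * X = X * e := by
  unfold e
  have h1 : -(Z * Z + Z) * X = -(Z * (Z * X) + Z * X) := by noncomm_ring
  rw [h1, XZ, ← mul_assoc, XZ]
  noncomm_ring

theorem eY : e * Y = Y * e := by
  unfold e
  have h1 : -(Z * Z + Z) * Y = -(Z * (Z * Y) + Z * Y) := by noncomm_ring
  rw [h1, YZ, ← mul_assoc, YZ]
  noncomm_ring

theorem eZ : e * Z = e := by
  have h : e * Z = Z * e := by
    unfold e
    noncomm_ring
  rw [h, Ze]


section Abstract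

variable {A : Type} [Ring A] {e x y : A}

/-- the rank one projection -/
def Pr (e x y : A) : A := e - y * x * (y * x)

theorem xP (h3 : ∀ a : A, a + a + a = 0) (hxe : x * e = x) (hex : e * x = x)
    (hey : e * y = y) (hye : y * e = y) (hxy : x * y = y * x + e) (hx : x * x * x = 0) :
    x * Pr e x y = 0 := by
  have h1 : x * Pr e x y = x * e - (x * y) * (x * y) * x := by
    unfold Pr; noncomm_ring
  have h2 : (y * x + e) * (y * x + e) * x =
      y * (x * y) * (x * x) + y * (x * e) * x + (e * y) * (x * x) + e * (e * x) := by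
    noncomm_ring
  have h4 : y * (y * x + e) * (x * x) = y * y * (x * x * x) + (y * e) * (x * x) := by
    noncomm_ring
  rw [h1, hxy, h2, hxy, h4, hx, hxe, hex, hex, hey, hye, mul_zero, zero_add]
  have h5 := h3 (y * x * x)
  have h6 : y * (x * x) = y * x * x := by rw [mul_assoc]
  rw [h6]
  rw [h5, zero_add, sub_self]

theorem Py (h3 : ∀ a : A, a + a + a = 0) (hxe : x * e = x)
    (hey : e * y = y) (hye : y * e = y) (hxy : x * y = y * x + e) (hy : y * y * y = 0) :
    Pr e x y * y = 0 := by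
  have h1 : Pr e x y * y = e * y - y * (x * y) * (x * y) := by
    unfold Pr; noncomm_ring
  have h2 : y * (y * x + e) * (y * x + e) =
      y * y * (x * y) * x + y * y * (x * e) + (y * e) * y * x + (y * e) * e := by
    noncomm_ring
  have h4 : y * y * (y * x + e) * x = y * y * y * (x * x) + y * (y * e) * x := by
    noncomm_ring
  rw [h1, hxy, h2, hxy, h4, hy, hxe, hey, hye, hye, zero_mul, zero_add]
  have h5 := h3 (y * y * x)
  rw [h5, zero_add, sub_self]

theorem PP (he : e * e = e) (hxe : x * e = x) (h : Pr e x y * y = 0) :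
    Pr e x y * Pr e x y = Pr e x y := by
  have h1 : Pr e x y * Pr e x y = Pr e x y * e - (Pr e x y * y) * (x * (y * x)) := by
    conv_lhs => rw [show Pr e x y * Pr e x y = Pr e x y * (e - y * x * (y * x)) from rfl]
    noncomm_ring
  rw [h1, h, zero_mul, sub_zero]
  have h2 : Pr e x y * e = e * e - y * x * (y * (x * e)) := by
    unfold Pr; noncomm_ring
  rw [h2, he, hxe]
  rfl

theorem PxyP (he : e * e = e) (hxe : x * e = x) (hxy : x * y = y * x + e)
    (h : Pr e x y * y = 0) : Pr e x y * x * (y * Pr e x y) = Pr e x y := by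
  have h1 : Pr e x y * x * (y * Pr e x y) = Pr e x y * (x * y) * Pr e x y := by
    noncomm_ring
  have h3 : Pr e x y * (y * x + e) * Pr e x y =
      (Pr e x y * y) * x * Pr e x y + (Pr e x y * e) * Pr e x y := by noncomm_ring
  have h2 : Pr e x y * e = e * e - y * x * (y * (x * e)) := by
    unfold Pr; noncomm_ring
  have h4 : e - y * x * (y * x) = Pr e x y := rfl
  rw [h1, hxy, h3, h, zero_mul, zero_mul, zero_add, h2, he, hxe, h4, PP he hxe h]

end Abstract


/-- `e X` -/
noncomputable def X' : Q := e * X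
/-- `e Y` -/
noncomputable def Y' : Q := e * Y

theorem eX' : e * X' = X' := by unfold X'; rw [← mul_assoc, ee]
theorem X'e : X' * e = X' := by unfold X'; rw [mul_assoc, ← eX, ← mul_assoc, ee]
theorem eY' : e * Y' = Y' := by unfold Y'; rw [← mul_assoc, ee]
theorem Y'e : Y' * e = Y' := by unfold Y'; rw [mul_assoc, ← eY, ← mul_assoc, ee]

theorem X'Y' : X' * Y' = Y' * X' + e := by
  have h1 : X' * Y' = e * (X * Y) := by
    have : X' * Y' = (X' * e) * Y := by unfold Y'; rw [mul_assoc]
    rw [this, X'e, X', mul_assoc]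
  have h2 : Y' * X' = e * (Y * X) := by
    have : Y' * X' = (Y' * e) * X := by unfold X'; rw [mul_assoc]
    rw [this, Y'e, Y', mul_assoc]
  rw [h1, h2, XY, mul_add, eZ]

theorem X'3 : X' * X' * X' = 0 := by
  have h1 : X' * X' * X' = e * (X * X * X) := by
    have h2 : X' * X' = e * (X * X) := by
      have : X' * X' = (X' * e) * X := by rw [mul_assoc, ← X']
      rw [this, X'e, X', mul_assoc]
    have h3 : e * (X * X) * X' = (e * (X * X) * e) * X := by rw [X']; noncomm_ring
    have h4 : e * (X * X) * e = e * (X * X) := by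
      calc e * (X * X) * e = e * (X * (X * e)) := by noncomm_ring
        _ = e * (X * (e * X)) := by rw [← eX]
        _ = e * ((X * e) * X) := by noncomm_ring
        _ = e * ((e * X) * X) := by rw [← eX]
        _ = (e * e) * (X * X) := by noncomm_ring
        _ = e * (X * X) := by rw [ee]
    rw [h2, h3, h4, mul_assoc, mul_assoc]
  rw [h1, X3, mul_zero]

theorem Y'3 : Y' * Y' * Y' = 0 := by
  have h1 : Y' * Y' * Y' = e * (Y * Y * Y) := by
    have h2 : Y' * Y' = e * (Y * Y) := by
      have : Y' * Y' = (Y' * e) * Y := by rw [mul_assoc, ← Y']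
      rw [this, Y'e, Y', mul_assoc]
    have h3 : e * (Y * Y) * Y' = (e * (Y * Y) * e) * Y := by rw [Y']; noncomm_ring
    have h4 : e * (Y * Y) * e = e * (Y * Y) := by
      calc e * (Y * Y) * e = e * (Y * (Y * e)) := by noncomm_ring
        _ = e * (Y * (e * Y)) := by rw [← eY]
        _ = e * ((Y * e) * Y) := by noncomm_ring
        _ = e * ((e * Y) * Y) := by rw [← eY]
        _ = (e * e) * (Y * Y) := by noncomm_ring
        _ = e * (Y * Y) := by rw [ee]
    rw [h2, h3, h4, mul_assoc, mul_assoc]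
  rw [h1, Y3, mul_zero]

/-- the rank one projection in `Q` -/
noncomputable def P : Q := Pr e X' Y'

theorem X'P : X' * P = 0 := xP three X'e eX' eY' Y'e X'Y' X'3
theorem PY' : P * Y' = 0 := Py three X'e eY' Y'e X'Y' Y'3
theorem P_P : P * P = P := PP ee X'e PY'
theorem PX'Y'P : P * X' * (Y' * P) = P := PxyP ee X'e X'Y' PY'

/-! ### the copy of `M_2` -/

open Matrix

/-- left vectors -/
noncomputable def lv : Fin 2 → Q := ![P, Y' * P]
/-- right vectors -/
noncomputable def rv : Fin 2 → Q := ![P, P * X']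

theorem lvP (i : Fin 2) : lv i * P = lv i := by
  fin_cases i
  · exact P_P
  · change Y' * P * P = Y' * P
    rw [mul_assoc, P_P]

theorem rv_lv (i j : Fin 2) : rv i * lv j = if i = j then P else 0 := by
  fin_cases i <;> fin_cases j
  · exact P_P
  · change P * (Y' * P) = 0
    rw [← mul_assoc, PY', zero_mul]
  · change P * X' * P = 0
    rw [mul_assoc, X'P, mul_zero]
  · change P * X' * (Y' * P) = P
    exact PX'Y'P

/-- the embedding of `M_2` -/
noncomputable def Φ : Matrix (Fin 2) (Fin 2) F →ₙₐ[F] Q where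
  toFun M := ∑ i, ∑ j, M i j • (lv i * rv j)
  map_smul' c M := by
    simp only [Matrix.smul_apply, smul_eq_mul, Finset.smul_sum, mul_smul, MonoidHom.id_apply]
  map_zero' := by simp
  map_add' M N := by
    simp only [Matrix.add_apply, add_smul, Finset.sum_add_distrib]
  map_mul' M N := by
    have h1 : ∀ i j k l : Fin 2, (lv i * rv j) * (lv k * rv l) =
        if j = k then lv i * rv l else 0 := by
      intro i j k l
      have : (lv i * rv j) * (lv k * rv l) = lv i * (rv j * lv k) * rv l := by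
        simp only [mul_assoc]
      rw [this, rv_lv]
      split_ifs
      · rw [lvP]
      · simp
    simp only [Finset.sum_mul, Finset.mul_sum, smul_mul_smul_comm, h1]
    simp only [Fin.sum_univ_two, Matrix.mul_apply, add_smul]
    simp
    abel

/-- the standard polynomial of degree four -/
def S4 {A : Type} [Ring A] (a b c d : A) : A :=
  (a * b - b * a) * (c * d - d * c) + (c * d - d * c) * (a * b - b * a)
  - (a * c - c * a) * (b * d - d * b) - (b * d - d * b) * (a * c - c * a)
  + (a * d - d * a) * (b * c - c * b) + (b * c - c * b) * (a * d - d * a)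

theorem S4_matrix (a b c d : Matrix (Fin 2) (Fin 2) F) : S4 a b c d = 0 := by
  ext i j
  fin_cases i <;> fin_cases j <;>
    simp [S4, Matrix.mul_apply, Fin.sum_univ_two] <;> ring

theorem S4_Φ (a b c d : Matrix (Fin 2) (Fin 2) F) : S4 (Φ a) (Φ b) (Φ c) (Φ d) = 0 := by
  have h := S4_matrix a b c d
  have h2 : Φ (S4 a b c d) = S4 (Φ a) (Φ b) (Φ c) (Φ d) := by
    simp only [S4, map_add, map_sub, map_mul]
  rw [← h2, h, map_zero]

theorem S4_sum {A : Type} [Ring A] (r : Fin 4 → A) :
    (∑ σ : Equiv.Perm (Fin 4), ((Equiv.Perm.sign σ : ℤˣ) : ℤ) • (List.ofFn fun i => r (σ i)).prod)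
      = S4 (r 0) (r 1) (r 2) (r 3) := by
  have e1 : ∀ (i : Fin 4) (e : Equiv.Perm (Fin 3)), (Equiv.Perm.decomposeFin.symm (i, e)) 2 = Equiv.swap 0 i (e 1).succ := by
    intro i e; exact Equiv.Perm.decomposeFin_symm_apply_succ e i 1
  have e2 : ∀ (i : Fin 4) (e : Equiv.Perm (Fin 3)), (Equiv.Perm.decomposeFin.symm (i, e)) 3 = Equiv.swap 0 i (e 2).succ := by
    intro i e; exact Equiv.Perm.decomposeFin_symm_apply_succ e i 2
  have e3 : ∀ (i : Fin 3) (e : Equiv.Perm (Fin 2)), (Equiv.Perm.decomposeFin.symm (i, e)) 2 = Equiv.swap 0 i (e 1).succ := by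
    intro i e; exact Equiv.Perm.decomposeFin_symm_apply_succ e i 1
  simp [Finset.univ_perm_fin_succ, ← Finset.univ_product_univ, Finset.sum_product,
    Fin.sum_univ_succ, Equiv.Perm.decomposeFin.symm_sign, List.ofFn_succ, S4, e1, e2, e3]
  have s31 : (Equiv.swap (0 : Fin 3) 1) 2 = 2 := by decide
  have s32 : (Equiv.swap (0 : Fin 3) 2) 1 = 1 := by decide
  have s1 : (Equiv.swap (0 : Fin 4) 1) 2 = 2 := by decide
  have s2 : (Equiv.swap (0 : Fin 4) 1) 3 = 3 := by decide
  have s3 : (Equiv.swap (0 : Fin 4) 2) 1 = 1 := by decide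
  have s4 : (Equiv.swap (0 : Fin 4) 2) 3 = 3 := by decide
  have s5 : (Equiv.swap (0 : Fin 4) 3) 1 = 1 := by decide
  have s6 : (Equiv.swap (0 : Fin 4) 3) 2 = 2 := by decide
  have t1 : (1 : Fin 3).succ = 2 := rfl
  have t2 : (2 : Fin 3).succ = 3 := rfl
  simp only [s1, s2, s3, s4, s5, s6, s31, s32, t1, t2]
  simp
  noncomm_ring

/-! ### the representation on `F[t]/(t^3)` -/

/-- derivative -/
def mX : Matrix (Fin 3) (Fin 3) F := !![0, 1, 0; 0, 0, 2; 0, 0, 0]
/-- multiplication by `t` -/
def mY : Matrix (Fin 3) (Fin 3) F := !![0, 0, 0; 1, 0, 0; 0, 1, 0]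

theorem mXY : mX * mY - mY * mX = 1 := by decide

/-- the representation of the Lie algebra -/
def ρL : H →ₗ⁅F⁆ Matrix (Fin 3) (Fin 3) F where
  toFun u := u.a • mX + u.b • mY + u.c • (1 : Matrix (Fin 3) (Fin 3) F)
  map_add' u v := by
    simp only [H.add_a, H.add_b, H.add_c, add_smul]; abel
  map_smul' t u := by
    simp only [H.smul_a, H.smul_b, H.smul_c, mul_smul, smul_add, RingHom.id_apply]
  map_lie' := by
    intro u v
    rw [LieRing.of_associative_ring_bracket]
    simp only [H.lie_a, H.lie_b, H.lie_c, zero_smul, zero_add]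
    have h1 : (u.a * v.b - u.b * v.a) • (1 : Matrix (Fin 3) (Fin 3) F) =
        (u.a * v.b - u.b * v.a) • (mX * mY - mY * mX) := by rw [mXY]
    rw [h1]
    ext i j
    simp only [Matrix.smul_apply, Matrix.sub_apply, Matrix.mul_apply, Matrix.add_apply,
      Fin.sum_univ_three, smul_eq_mul, Matrix.one_apply]
    fin_cases i <;> fin_cases j <;> simp <;> ring

theorem ρL_apply (u : H) : ρL u = u.a • mX + u.b • mY + u.c • (1 : Matrix (Fin 3) (Fin 3) F) := rfl

theorem ρL_cube (u : H) : ρL u ^ 3 = ρL (f u) := by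
  obtain ⟨a, b, c⟩ := u
  rw [ρL_apply, ρL_apply]
  simp only [f_a, f_b, f_c]
  revert a b c
  decide

/-- the representation of the restricted enveloping algebra -/
noncomputable def ρ : Q →ₐ[F] Matrix (Fin 3) (Fin 3) F :=
  RingQuot.liftAlgHom F ⟨UniversalEnvelopingAlgebra.lift F ρL, by
    rintro _ _ ⟨u, rfl, rfl⟩
    rw [map_pow, UniversalEnvelopingAlgebra.lift_ι_apply, UniversalEnvelopingAlgebra.lift_ι_apply,
      ρL_cube]⟩

theorem ρ_q (u : H) : ρ (q u) = ρL u := by
  unfold ρ q
  rw [RingQuot.liftAlgHom_mkAlgHom_apply, UniversalEnvelopingAlgebra.lift_ι_apply]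

theorem ρX : ρ X = mX := by
  rw [X, ρ_q, ρL_apply]; simp
theorem ρY : ρ Y = mY := by
  rw [Y, ρ_q, ρL_apply]; simp
theorem ρZ : ρ Z = 1 := by
  rw [Z, ρ_q, ρL_apply]; simp

theorem P_ne : P ≠ 0 := by
  intro h
  have h1 : ρ P = 0 := by rw [h, map_zero]
  have he : ρ e = 1 := by
    unfold e
    rw [map_neg, map_add, map_mul, ρZ]
    decide
  have hX' : ρ X' = mX := by rw [X', map_mul, he, ρX, one_mul]
  have hY' : ρ Y' = mY := by rw [Y', map_mul, he, ρY, one_mul]
  unfold P Pr at h1
  rw [map_sub, map_mul, map_mul, he, hX', hY'] at h1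
  revert h1
  decide

/-- the subalgebra -/
noncomputable def R : NonUnitalSubalgebra F Q := NonUnitalAlgHom.range Φ

theorem Φ_lr (i j : Fin 2) : lv i * rv j ∈ R := by
  refine ⟨Matrix.single i j 1, ?_⟩
  change ∑ a, ∑ b, (Matrix.single i j (1 : F)) a b • (lv a * rv b) = lv i * rv j
  simp [Matrix.single_apply, Finset.sum_ite_eq', ite_and]

/-- The negation of the preceding statement: For every prime p, field F of char p, Lie p-algebra L and PI non-unital subalgebra R of u(L): if n is the least positive integer such that some power of the standard polynomial S_2n vanishes on R, then n is a power of p. -/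
theorem result :
    ¬ (∀ (p : ℕ), p.Prime → ∀ (F : Type) [Field F] [CharP F p] (L : Type) [LieRing L] [LieAlgebra F L]
    (f : L → L),
    (∀ (a : F) (x : L), f (a • x) = a ^ p • f x) →
    (∀ x y : L, (LieAlgebra.ad F L x ^ p) y = ⁅f x, y⁆) →
    (∀ x y : L,
      UniversalEnvelopingAlgebra.ι F (f (x + y)) - UniversalEnvelopingAlgebra.ι F (f x)
        - UniversalEnvelopingAlgebra.ι F (f y)
      = (UniversalEnvelopingAlgebra.ι F x + UniversalEnvelopingAlgebra.ι F y) ^ p
        - UniversalEnvelopingAlgebra.ι F x ^ p - UniversalEnvelopingAlgebra.ι F y ^ p) →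
    ∀ R : NonUnitalSubalgebra F (RingQuot (fun a b : UniversalEnvelopingAlgebra F L =>
        ∃ x : L, a = UniversalEnvelopingAlgebra.ι F x ^ p ∧ b = UniversalEnvelopingAlgebra.ι F (f x))),
    (∃ m : ℕ, ∃ φ : FreeAlgebra F (Fin m), φ ≠ 0 ∧
      ∀ r : Fin m → RingQuot (fun a b : UniversalEnvelopingAlgebra F L =>
        ∃ x : L, a = UniversalEnvelopingAlgebra.ι F x ^ p ∧ b = UniversalEnvelopingAlgebra.ι F (f x)),
        (∀ i, r i ∈ R) → FreeAlgebra.lift F r φ = 0) →
    ∀ n : ℕ, 1 ≤ n →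
      (∃ t : ℕ, 1 ≤ t ∧
        ∀ r : Fin (2 * n) → RingQuot (fun a b : UniversalEnvelopingAlgebra F L =>
          ∃ x : L, a = UniversalEnvelopingAlgebra.ι F x ^ p ∧ b = UniversalEnvelopingAlgebra.ι F (f x)),
          (∀ i, r i ∈ R) →
          (∑ σ : Equiv.Perm (Fin (2 * n)),
            ((Equiv.Perm.sign σ : ℤˣ) : ℤ) • (List.ofFn fun i => r (σ i)).prod) ^ t = 0) →
      (∀ m : ℕ, 1 ≤ m → m < n →
        ¬ ∃ t : ℕ, 1 ≤ t ∧
          ∀ r : Fin (2 * m) → RingQuot (fun a b : UniversalEnvelopingAlgebra F L =>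
            ∃ x : L, a = UniversalEnvelopingAlgebra.ι F x ^ p ∧ b = UniversalEnvelopingAlgebra.ι F (f x)),
            (∀ i, r i ∈ R) →
            (∑ σ : Equiv.Perm (Fin (2 * m)),
              ((Equiv.Perm.sign σ : ℤˣ) : ℤ) • (List.ofFn fun i => r (σ i)).prod) ^ t = 0) →
      ∃ k : ℕ, n = p ^ k) := by
  intro G
  have h4 : ∀ r : Fin 4 → Q, (∀ i, r i ∈ R) → S4 (r 0) (r 1) (r 2) (r 3) = 0 := by
    intro r hr
    obtain ⟨a, ha⟩ := hr 0
    obtain ⟨b, hb⟩ := hr 1
    obtain ⟨c, hc⟩ := hr 2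
    obtain ⟨d, hd⟩ := hr 3
    have := S4_Φ a b c d
    rw [← ha, ← hb, ← hc, ← hd]
    exact this
  have hG := G 3 (by norm_num) F H f f_smul f_ad f_env R
    ⟨4, S4 (FreeAlgebra.ι F 0) (FreeAlgebra.ι F 1) (FreeAlgebra.ι F 2) (FreeAlgebra.ι F 3), ?_, ?_⟩
    2 (by norm_num) ⟨1, le_refl _, ?_⟩ ?_
  · obtain ⟨k, hk⟩ := hG
    rcases k with _ | k
    · norm_num at hk
    · have : 3 ∣ 2 := ⟨3 ^ k, by rw [hk, pow_succ']⟩
      norm_num at this
  · intro h0
    have h1 := congrArg (FreeAlgebra.lift F (![!![1, 0, 0; 0, 0, 0; 0, 0, 0],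
      !![0, 1, 0; 0, 0, 0; 0, 0, 0], !![0, 0, 0; 0, 1, 0; 0, 0, 0],
      !![0, 0, 0; 0, 0, 1; 0, 0, 0]] : Fin 4 → Matrix (Fin 3) (Fin 3) F)) h0
    rw [map_zero] at h1
    simp only [S4, map_add, map_sub, map_mul, FreeAlgebra.lift_ι_apply] at h1
    revert h1
    decide
  · intro r hr
    have h1 := h4 r hr
    simp only [S4, map_add, map_sub, map_mul, FreeAlgebra.lift_ι_apply] at h1 ⊢
    exact h1
  · intro r hr
    rw [pow_one]
    exact (S4_sum r).trans (h4 r hr)
  · intro m hm1 hm2
    obtain rfl : m = 1 := by omega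
    rintro ⟨t, ht, h⟩
    have h1 := h ![P * X', Y' * P] (by
      intro i
      fin_cases i
      · have := Φ_lr 0 1
        simp only [lv, rv, Matrix.cons_val_zero, Matrix.cons_val_one] at this
        rw [← mul_assoc, P_P] at this
        exact this
      · have := Φ_lr 1 0
        simp only [lv, rv, Matrix.cons_val_zero, Matrix.cons_val_one] at this
        rw [mul_assoc, P_P] at this
        exact this)
    have h2 : (∑ σ : Equiv.Perm (Fin (2 * 1)), ((Equiv.Perm.sign σ : ℤˣ) : ℤ) •
        (List.ofFn fun i => (![P * X', Y' * P] : Fin 2 → Q) (σ i)).prod) =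
        P - Y' * P * (P * X') := by
      have h3 : ∀ r : Fin 2 → Q, (∑ σ : Equiv.Perm (Fin 2), ((Equiv.Perm.sign σ : ℤˣ) : ℤ) •
        (List.ofFn fun i => r (σ i)).prod) = r 0 * r 1 - r 1 * r 0 := by
        intro r
        simp [Finset.univ_perm_fin_succ, ← Finset.univ_product_univ, Finset.sum_product,
          Fin.sum_univ_succ, Equiv.Perm.decomposeFin.symm_sign, List.ofFn_succ, sub_eq_add_neg]
      have h5 := h3 ![P * X', Y' * P]
      refine h5.trans ?_
      simp only [Matrix.cons_val_zero, Matrix.cons_val_one]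
      rw [PX'Y'P]
    rw [h2] at h1
    have h6 : ∀ s : ℕ, P * (P - Y' * P * (P * X')) ^ s = P := by
      intro s
      induction s with
      | zero => rw [pow_zero, mul_one]
      | succ s ih =>
        rw [pow_succ', ← mul_assoc]
        have : P * (P - Y' * P * (P * X')) = P := by
          have h7 : P * (P - Y' * P * (P * X')) = P * P - (P * Y') * P * (P * X') := by
            noncomm_ring
          rw [h7, PY', P_P, zero_mul, zero_mul, sub_zero]
        rw [this, ih]
    have h8 := h6 t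
    rw [h1, mul_zero] at h8
    exact P_ne h8.symm

end Pool.Agent.S03052
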