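import Pool.Statements.S03148
import Pool.Agent.R793.BS.RepSide
import Pool.Agent.R793.BS.Seq

set_option autoImplicit false
open CategoryTheory CategoryTheory.MonoidalCategory CategoryTheory.Limits
open Pool Pool.MP_d25222_al

namespace Pool.Agent.S03148

/-- The negation of the preceding statement: Take a finite group G, a field k of prime characteristic, and a finite-dimensional kG-module M. Let c_n be the dimension of the non-projective part of the n-th tensor power of M. Then the series sum c_n t^n is a rational function: a nonzero polynomial times it is a polynomial. -/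
theorem result :
    ¬ (∀ (p : ℕ) (k : Type) [Field k] [CharP k p], p.Prime →
      ∀ (G : Type) [Group G] [Finite G] (M : Rep k G), FiniteDimensional k M.V →
        ∃ P Q : Polynomial ℚ, Q ≠ 0 ∧
          (Q : PowerSeries ℚ) *
              PowerSeries.mk (fun n : ℕ =>
                ((sInf {d : ℕ | ∃ N P' : Rep k G, Projective P' ∧
                    Nonempty ((fun X : Rep k G => X ⊗ M)^[n] (𝟙_ (Rep k G)) ≅ N ⊞ P') ∧
                    Module.finrank k N.V = d} : ℕ) : ℚ)) =
            (P : PowerSeries ℚ)) := by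
  intro h
  haveI : Fact (Nat.Prime 2) := ⟨Nat.prime_two⟩
  obtain ⟨P, Q, hQ, hPQ⟩ := h 2 (ZMod 2) Nat.prime_two R793.BS.G4 R793.BS.MM R793.BS.MM_fd
  have e : (PowerSeries.mk (fun n : ℕ =>
      ((sInf {d : ℕ | ∃ N P' : Rep (ZMod 2) R793.BS.G4, Projective P' ∧
        Nonempty ((fun X : Rep (ZMod 2) R793.BS.G4 => X ⊗ R793.BS.MM)^[n]
          (𝟙_ (Rep (ZMod 2) R793.BS.G4)) ≅ N ⊞ P') ∧
        Module.finrank (ZMod 2) N.V = d} : ℕ) : ℚ))) =
      PowerSeries.mk (fun n : ℕ => ((R793.BS.gg n 0 : ℤ) : ℚ)) := by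
    congr 1
    funext n
    rw [← R793.BS.core_TT n, Int.cast_natCast]
    rfl
  refine R793.BS.not_rational (fun n => R793.BS.gg n 0) ?_ ?_ P Q hQ ?_
  · change R793.BS.gg 0 0 = 1
    rw [R793.BS.gg_zero]
    norm_num
  · intro n
    exact R793.BS.seq_rec R793.BS.gg R793.BS.gg_zero R793.BS.gg_succ n
  · rw [← hPQ, e]

end Pool.Agent.S03148
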