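import Pool.Statements.S03469
import Pool.Agent.Helper58.EN.JZ

set_option autoImplicit false
open Pool Pool.MP_ecbc69_al

namespace Pool.Agent.S03469

open Pool.Agent.Helper58.EN in
theorem closure_eq (n : ℕ) (R : Type) [Ring R] :
    (Subgroup.closure
          {g : Matrix.GeneralLinearGroup (Fin n) R |
            ∃ i j : Fin n, i ≠ j ∧ ∃ r : R,
              (g : Matrix (Fin n) (Fin n) R) =
                1 + Matrix.of (fun a b => if a = i ∧ b = j then r else 0)}) = El (Fin n) R := by
  have key : {g : Matrix.GeneralLinearGroup (Fin n) R |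
            ∃ i j : Fin n, i ≠ j ∧ ∃ r : R,
              (g : Matrix (Fin n) (Fin n) R) =
                1 + Matrix.of (fun a b => if a = i ∧ b = j then r else 0)} =
      {g : (Matrix (Fin n) (Fin n) R)ˣ | ∃ i j, ∃ h : i ≠ j, ∃ x ∈ (Set.univ : Set R),
        g = tv i j h x} := by
    ext g
    have hm : ∀ (i j : Fin n) (r : R),
        (Matrix.of (fun a b => if a = i ∧ b = j then r else 0) : Matrix (Fin n) (Fin n) R) =
          Matrix.single i j r := by
      intro i j r
      ext a b
      simp only [Matrix.of_apply, Matrix.single_apply]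
      exact if_congr (by rw [eq_comm (a := a), eq_comm (a := b)]) rfl rfl
    constructor
    · rintro ⟨i, j, hij, r, hr⟩
      refine ⟨i, j, hij, r, Set.mem_univ _, ?_⟩
      apply Units.ext
      rw [hr, hm, tv_val]
    · rintro ⟨i, j, hij, r, -, rfl⟩
      refine ⟨i, j, hij, r, ?_⟩
      rw [hm]
      exact tv_val i j hij r
  rw [key]
  rfl

/-- For every unital ring satisfying a multilinear polynomial identity with a coefficient 1, and every n ≥ 3, the subgroup of GL_n(R) generated by elementary transvections I + rE_ij (i ≠ j) is normal in GL_n(R). -/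
theorem result :
    ∀ (R : Type) [Ring R],
      (∃ d : ℕ, 0 < d ∧ ∃ c : Equiv.Perm (Fin d) → ℤ, c 1 = 1 ∧
        ∀ x : Fin d → R,
          ∑ σ : Equiv.Perm (Fin d), ((c σ : ℤ) : R) * (List.ofFn (fun i => x (σ i))).prod = 0) →
      ∀ n : ℕ, 3 ≤ n →
        (Subgroup.closure
          {g : Matrix.GeneralLinearGroup (Fin n) R |
            ∃ i j : Fin n, i ≠ j ∧ ∃ r : R,
              (g : Matrix (Fin n) (Fin n) R) =
                1 + Matrix.of (fun a b => if a = i ∧ b = j then r else 0)}).Normal := by
  intro R _ hPI n hn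
  obtain ⟨d, -, c, hc, hPI⟩ := hPI
  rw [closure_eq]
  refine ⟨fun e he g => ?_⟩
  exact Pool.Agent.Helper58.EN.main (ι := Fin n) (by simpa using hn) d c hc R hPI g e he

end Pool.Agent.S03469
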