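import Pool.Statements.S03595
import Pool.Agent.R783.TIG.Main

set_option autoImplicit false
open Pool Pool.MP_f8d790_al

namespace Pool.Agent.S03595

/-- An infinite compact Hausdorff group G has every choice of conjugates of its elements topologically generating G if and only if G has a closed, connected, abelian normal subgroup with totally disconnected (profinite) quotient. -/
theorem result :
    ∀ (G : Type) [Group G] [TopologicalSpace G] [IsTopologicalGroup G] [CompactSpace G]
      [T2Space G] [Infinite G],
      (∀ f : G → G,
          (Subgroup.closure (Set.range (fun x : G => f x * x * (f x)⁻¹))).topologicalClosure = ⊤) ↔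
        ∃ N : Subgroup G, N.Normal ∧ IsClosed (N : Set G) ∧ IsConnected (N : Set G) ∧
          (∀ a ∈ N, ∀ b ∈ N, a * b = b * a) ∧ TotallyDisconnectedSpace (G ⧸ N) := by
  intro G _ _ _ _ _ _
  rw [Pool.Agent.R783.TIG.tig_iff]
  constructor
  · intro h
    exact ⟨Subgroup.connectedComponentOfOne G, Pool.Agent.R783.TIG.normal_comp,
      isClosed_connectedComponent, isConnected_connectedComponent,
      fun a ha b hb => Pool.Agent.R783.TIG.comp_comm h a b ha hb,
      Pool.Agent.R783.TIG.quot_td _ rfl⟩
  · rintro ⟨N, hN, hNc, -, hab, htd⟩ H hH hc
    exact Pool.Agent.R783.TIG.tig_of N hN hNc hab htd H hH hc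

end Pool.Agent.S03595
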