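import Pool.Statements.S03597
import Pool.Agent.R689.CarlC

set_option autoImplicit false
open Pool Pool.MP_f8ecd9_al

namespace Pool.Agent.S03597

/-- Over R = k[x_1..x_d]/(x_i^2) with char k = 2, every minimal graded finite free complex P of rank n has total homology of P ⊗_R P of k-dimension at least 2^d · n. -/
theorem result :
    ∀ (k : Type) [Field k] [CharP k 2] (d : ℕ) (I : Ideal (MvPolynomial (Fin d) k)),
      I = Ideal.span (Set.range (fun i : Fin d => (MvPolynomial.X i : MvPolynomial (Fin d) k) ^ 2)) →
      ∀ (n : ℕ) (D : Matrix (Fin n) (Fin n) (MvPolynomial (Fin d) k ⧸ I)),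
        D * D = 0 →
        (∃ deg : Fin n → ℕ, ∀ i j, D i j ≠ 0 → deg j = deg i + 1) →
        (∀ i j, IsNilpotent (D i j)) →
        2 ^ d * n +
            Module.finrank k
              (LinearMap.range
                ((Matrix.mulVecLin
                    (Matrix.kronecker D (1 : Matrix (Fin n) (Fin n) (MvPolynomial (Fin d) k ⧸ I)) +
                      Matrix.kronecker (1 : Matrix (Fin n) (Fin n) (MvPolynomial (Fin d) k ⧸ I)) D)).restrictScalars k))
          ≤ Module.finrank k
              (LinearMap.ker
                ((Matrix.mulVecLin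
                    (Matrix.kronecker D (1 : Matrix (Fin n) (Fin n) (MvPolynomial (Fin d) k ⧸ I)) +
                      Matrix.kronecker (1 : Matrix (Fin n) (Fin n) (MvPolynomial (Fin d) k ⧸ I)) D)).restrictScalars k)) := by
  intro k _ _ d I hI n D hD hdeg hnil
  subst hI
  obtain ⟨deg, hdeg⟩ := hdeg
  exact Pool.Agent.R689.Carl.main D hD deg hdeg hnil

end Pool.Agent.S03597
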