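import Pool.Statements.S03774
import Pool.Agent.R287.TTOf

set_option autoImplicit false
open Matrix
open Pool Pool.MP_0ac5c2_an

namespace Pool.Agent.S03774

/-- The negation of the preceding statement: For n at least 4, every complex symmetric n×n matrix with no two orthogonal nonzero eigenvectors is unitarily equivalent to a truncated Toeplitz operator, encoded via the compressed-shift model and Sarason's rank-two criterion M − TMT* = u⊗k + k⊗v.

Proof (for `n = 10`): dimension count. A symmetric `M` satisfying the criterion and without orthogonal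
eigenvectors is a polynomial expression in a real symmetric matrix `X`, a real vector `c` and two
complex coefficient vectors: `M = ∑ p_j ∑_{i<j} X^i c cᵀ X^(j-1-i) + ∑ r_j X^j`. So the symmetric matrices
of this kind lie in the range of a smooth map from a space of real dimension 105 to the space of
complex symmetric matrices, of real dimension 110, while the symmetric matrices without orthogonal
eigenvectors form a nonempty open set. -/
theorem result :
    ¬ (∀ n : ℕ, 4 ≤ n → ∀ M : Matrix (Fin n) (Fin n) ℂ, Mᵀ = M →
      (¬ ∃ x y : Fin n → ℂ, ∃ a b : ℂ, x ≠ 0 ∧ y ≠ 0 ∧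
          M *ᵥ x = a • x ∧ M *ᵥ y = b • y ∧ star x ⬝ᵥ y = 0) →
      ∃ T : Matrix (Fin n) (Fin n) ℂ, ∃ k u v : Fin n → ℂ,
        1 - T * Tᴴ = Matrix.vecMulVec k (star k) ∧
        (∀ μ : ℂ, ∀ x : Fin n → ℂ, x ≠ 0 → T *ᵥ x = μ • x → ‖μ‖ < 1) ∧
        M - T * M * Tᴴ = Matrix.vecMulVec u (star k) + Matrix.vecMulVec k (star v)) := by
  intro h
  obtain ⟨M, hM, hM2, hM3⟩ := Pool.Agent.R287.TTO.exists_counterexample
  exact hM3 (h 10 (by norm_num) M hM hM2)

end Pool.Agent.S03774
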