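import Pool.Statements.S03793
import Pool.Agent.R188.Jo

set_option autoImplicit false
open Pool Pool.MP_0c3c48_an

namespace Pool.Agent.S03793

/-- For every ω>0 and integer r, if p,q are consecutive constrictions (A≠0, sole point of L_r on their horizontal line) of the phase-lock area L_r in A>0, then the segment from p to q lies in L_r. -/
theorem result :
    ∀ ω : ℝ, 0 < ω → ∀ r : ℤ, ∀ L : Set (ℝ × ℝ),
      L = {p : ℝ × ℝ | ∃ f : ℝ → ℝ,
            (∀ t : ℝ, HasDerivAt f (-Real.sin (f t) + p.1 + p.2 * Real.cos (ω * t)) t) ∧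
            Filter.Tendsto (fun t : ℝ => f t / (ω * t)) Filter.atTop (nhds (r : ℝ))} →
      ∀ p q : ℝ × ℝ,
        (p ∈ L ∧ p.2 ≠ 0 ∧ ∀ x ∈ L, x.2 = p.2 → x = p) →
        (q ∈ L ∧ q.2 ≠ 0 ∧ ∀ x ∈ L, x.2 = q.2 → x = q) →
        0 < p.2 → p.2 < q.2 →
        (∀ c ∈ L, c.2 ≠ 0 → (∀ x ∈ L, x.2 = c.2 → x = c) → ¬ (p.2 < c.2 ∧ c.2 < q.2)) →
        segment ℝ p q ⊆ L := by
  intro ω hω r L hL p q hp hq hp0 hpq _
  rw [H535R3.LL_exists hω r] at hL
  subst hL
  have hε : 0 < 1 / ω := by positivity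
  have axis : ∀ c : ℝ × ℝ, 0 < c.2 → c ∈ H535R3.LL ω r →
      (∀ x ∈ H535R3.LL ω r, x.2 = c.2 → x = c) → c.1 = r * ω := by
    rintro ⟨B, A⟩ hA hc hu
    have h1 := (H535R3.mem_LL hω r B A).1 hc
    have h2 := R188.Jo.axis_of_single hε (div_pos hA hω) h1 (by
      intro b' hb'
      have h3 : (b' * ω, A) ∈ H535R3.LL ω r := by
        rw [H535R3.mem_LL hω, mul_div_cancel_right₀ _ hω.ne']; exact hb'
      have h4 := congrArg Prod.fst (hu _ h3 rfl)
      simp only at h4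
      rw [← h4, mul_div_cancel_right₀ _ hω.ne'])
    simp only
    rw [← h2, div_mul_cancel₀ _ hω.ne']
  have hp1 := axis p hp0 hp.1 hp.2.2
  have hq1 := axis q (hp0.trans hpq) hq.1 hq.2.2
  rintro z ⟨s, t, hs, ht, hst, rfl⟩
  have e1 : (s • p + t • q).1 = r * ω := by
    simp only [Prod.fst_add, Prod.smul_fst, smul_eq_mul, hp1, hq1]
    rw [← add_mul, hst, one_mul]
  have e2 : p.2 ≤ (s • p + t • q).2 := by
    simp only [Prod.snd_add, Prod.smul_snd, smul_eq_mul]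
    nlinarith
  have e3 : (s • p + t • q) = ((r : ℝ) * ω, (s • p + t • q).2) := Prod.ext e1 rfl
  rw [e3, H535R3.mem_LL hω, mul_div_cancel_right₀ _ hω.ne']
  refine R188.Jo.axis_up hε (div_pos hp0 hω).le (div_le_div_of_nonneg_right e2 hω.le) ?_
  have h5 := (H535R3.mem_LL hω r p.1 p.2).1 hp.1
  rw [hp1, mul_div_cancel_right₀ _ hω.ne'] at h5
  exact h5

end Pool.Agent.S03793
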