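import Pool.Statements.S03851
-- import your own Pool.Agent.* helpers here

set_option autoImplicit false
open Pool Pool.MP_115f17_an

namespace Pool.Agent.S03851

open scoped ZeroAtInfty
open Filter

/-- The weight two backward shift on c_0. -/
noncomputable def shiftFun (f : C₀(ℕ, ℝ)) : C₀(ℕ, ℝ) where
  toFun n := 2 * f (n + 1)
  continuous_toFun := continuous_of_discreteTopology
  zero_at_infty' := by
    have h := f.zero_at_infty'
    rw [Filter.cocompact_eq_cofinite, Nat.cofinite_eq_atTop] at h ⊢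
    have h2 := (h.comp (tendsto_add_atTop_nat 1)).const_mul (2 : ℝ)
    simpa using h2

lemma shiftFun_apply (f : C₀(ℕ, ℝ)) (n : ℕ) : shiftFun f n = 2 * f (n + 1) := rfl

lemma abs_apply_le (f : C₀(ℕ, ℝ)) (n : ℕ) : |f n| ≤ ‖f‖ := by
  rw [← ZeroAtInftyContinuousMap.norm_toBCF_eq_norm]
  exact f.toBCF.norm_coe_le_norm n

lemma norm_le_of (f : C₀(ℕ, ℝ)) (C : ℝ) (hC : 0 ≤ C) (h : ∀ n, |f n| ≤ C) : ‖f‖ ≤ C := by
  rw [← ZeroAtInftyContinuousMap.norm_toBCF_eq_norm]
  exact (BoundedContinuousFunction.norm_le hC).2 h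

noncomputable def T : C₀(ℕ, ℝ) →L[ℝ] C₀(ℕ, ℝ) :=
  LinearMap.mkContinuous
    { toFun := shiftFun
      map_add' := by
        intro f g; ext n
        simp [shiftFun_apply, mul_add]
      map_smul' := by
        intro c f; ext n
        simp [shiftFun_apply]; ring }
    2 (by
      intro f
      apply norm_le_of _ _ (by positivity)
      intro n
      change |2 * f (n + 1)| ≤ _
      rw [abs_mul, abs_of_pos (by norm_num : (0:ℝ) < 2)]
      exact mul_le_mul_of_nonneg_left (abs_apply_le f _) (by norm_num))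

lemma T_apply (f : C₀(ℕ, ℝ)) (n : ℕ) : T f n = 2 * f (n + 1) := rfl

lemma T_iter (f : C₀(ℕ, ℝ)) (k n : ℕ) : ((⇑T)^[k] f) n = 2 ^ k * f (n + k) := by
  induction k generalizing n with
  | zero => simp
  | succ k ih =>
    rw [Function.iterate_succ_apply', T_apply, ih, pow_succ]
    rw [show n + 1 + k = n + (k + 1) by ring]
    ring

/-- Any sequence with `|c n| ≤ n` gives a vector. -/
noncomputable def vec (c : ℕ → ℝ) (hc : ∀ n, |c n| ≤ n) : C₀(ℕ, ℝ) where
  toFun n := c n / 2 ^ n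
  continuous_toFun := continuous_of_discreteTopology
  zero_at_infty' := by
    rw [Filter.cocompact_eq_cofinite, Nat.cofinite_eq_atTop]
    have h1 : Tendsto (fun n : ℕ => (n : ℝ) / 2 ^ n) atTop (nhds 0) := by
      have := tendsto_pow_const_div_const_pow_of_one_lt 1 (r := (2:ℝ)) (by norm_num)
      simpa using this
    apply squeeze_zero_norm _ h1
    intro n
    rw [Real.norm_eq_abs, abs_div, abs_of_pos (by positivity : (0:ℝ) < 2 ^ n)]
    exact div_le_div_of_nonneg_right (hc n) (by positivity)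

lemma vec_apply (c : ℕ → ℝ) (hc : ∀ n, |c n| ≤ n) (n : ℕ) : vec c hc n = c n / 2 ^ n := rfl

lemma T_iter_vec (c : ℕ → ℝ) (hc : ∀ n, |c n| ≤ n) (k n : ℕ) :
    ((⇑T)^[k] (vec c hc)) n = c (n + k) / 2 ^ n := by
  rw [T_iter, vec_apply, pow_add]
  field_simp

/-- The scale word. -/
noncomputable def c (g : ℕ → (ℕ →₀ ℚ) × ℕ) (n : ℕ) : ℝ :=
  let u : ℝ := match padicValNat 2 (Nat.log 2 n) with
    | 0 => 1
    | t + 1 => (((g t).1 (n % 2 ^ (g t).2) : ℚ) : ℝ)
  if |u| ≤ n then u else 0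

lemma c_le (g : ℕ → (ℕ →₀ ℚ) × ℕ) (n : ℕ) : |c g n| ≤ n := by
  unfold c
  simp only
  split_ifs with h
  · exact h
  · simp

lemma c_odd (g : ℕ → (ℕ →₀ ℚ) × ℕ) (n L : ℕ) (hL : Nat.log 2 n = L) (hodd : ¬ 2 ∣ L)
    (hn : 1 ≤ n) : c g n = 1 := by
  unfold c
  have : padicValNat 2 L = 0 := padicValNat.eq_zero_of_not_dvd hodd
  rw [hL, this]
  simp only
  rw [if_pos]
  simp
  exact_mod_cast hn

lemma c_type (g : ℕ → (ℕ →₀ ℚ) × ℕ) (n L t : ℕ) (hL : Nat.log 2 n = L)
    (ht : padicValNat 2 L = t + 1)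
    (hn : |(((g t).1 (n % 2 ^ (g t).2) : ℚ) : ℝ)| ≤ n) :
    c g n = (((g t).1 (n % 2 ^ (g t).2) : ℚ) : ℝ) := by
  unfold c
  rw [hL, ht]
  simp only
  rw [if_pos hn]

/-- no positive density in the small visit set -/
lemma gap (g : ℕ → (ℕ →₀ ℚ) × ℕ) (A : Set ℕ)
    (hA : A ⊆ {k : ℕ | (⇑T)^[k] (vec (c g) (c_le g)) ∈ {y : C₀(ℕ, ℝ) | y 0 < 1 / 2}}) :
    ¬ ∃ d : ℝ, 0 < d ∧
            Filter.Tendsto
              (fun n : ℕ => (({k : ℕ | k < n ∧ k ∈ A}.ncard : ℕ) : ℝ) / (n : ℝ))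
              Filter.atTop (nhds d) := by
  rintro ⟨d, hd, hlim⟩
  have key : ∀ i : ℕ, {k : ℕ | k < 2 ^ (2 * i + 2) ∧ k ∈ A} = {k : ℕ | k < 2 ^ (2 * i + 1) ∧ k ∈ A} := by
    intro i
    ext k
    simp only [Set.mem_setOf_eq]
    constructor
    · rintro ⟨h1, h2⟩
      refine ⟨?_, h2⟩
      by_contra hk
      push Not at hk
      have h3 := hA h2
      simp only [Set.mem_setOf_eq] at h3
      rw [T_iter_vec] at h3
      simp only [zero_add, pow_zero, div_one] at h3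
      rw [c_odd g k (2 * i + 1) ((Nat.log_eq_iff (by left; omega)).2 ⟨hk, h1⟩) (by omega)
        (le_trans Nat.one_le_two_pow hk)] at h3
      norm_num at h3
    · rintro ⟨h1, h2⟩
      refine ⟨lt_of_lt_of_le h1 (Nat.pow_le_pow_right (by norm_num) (by omega)), h2⟩
  have t1 : Tendsto (fun i : ℕ => 2 ^ (2 * i + 1)) atTop (atTop : Filter ℕ) := by
    apply tendsto_atTop_mono (f := fun i : ℕ => i) _ tendsto_id
    intro i
    have : 2 * i + 1 < 2 ^ (2 * i + 1) := Nat.lt_two_pow_self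
    omega
  have t2 : Tendsto (fun i : ℕ => 2 ^ (2 * i + 2)) atTop (atTop : Filter ℕ) := by
    apply tendsto_atTop_mono (f := fun i : ℕ => i) _ tendsto_id
    intro i
    have : 2 * i + 2 < 2 ^ (2 * i + 2) := Nat.lt_two_pow_self
    omega
  have l1 := hlim.comp t1
  have l2 := hlim.comp t2
  have l3 : Tendsto (fun i : ℕ => (1/2 : ℝ) * (((fun n : ℕ => (({k : ℕ | k < n ∧ k ∈ A}.ncard : ℕ) : ℝ) / (n : ℝ)) ∘ fun i : ℕ => 2 ^ (2 * i + 1)) i)) atTop (nhds ((1/2 : ℝ) * d)) :=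
    l1.const_mul _
  have heq : ((fun n : ℕ => (({k : ℕ | k < n ∧ k ∈ A}.ncard : ℕ) : ℝ) / (n : ℝ)) ∘ fun i : ℕ => 2 ^ (2 * i + 2)) = (fun i : ℕ => (1/2 : ℝ) * (((fun n : ℕ => (({k : ℕ | k < n ∧ k ∈ A}.ncard : ℕ) : ℝ) / (n : ℝ)) ∘ fun i : ℕ => 2 ^ (2 * i + 1)) i)) := by
    funext i
    simp only [Function.comp]
    rw [key i]
    push_cast
    rw [pow_succ (2:ℝ) (2 * i + 1)]
    field_simp
  rw [heq] at l2
  have := tendsto_nhds_unique l2 l3
  linarith

/-- main visiting lemma -/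
lemma visits (g : ℕ → (ℕ →₀ ℚ) × ℕ) (hg : Function.Surjective g) (y : C₀(ℕ, ℝ)) (ε : ℝ) (hε : 0 < ε) :
    ∃ t s L0 : ℕ, ∀ L, L0 ≤ L → padicValNat 2 L = t + 1 → ∀ j, j < 2 ^ (L - 1 - s) →
      s + 1 ≤ L ∧
      (⇑T)^[2 ^ L + 2 ^ s * j] (vec (c g) (c_le g)) ∈ Metric.ball y ε := by
  -- choose s
  have hy : Tendsto (fun n : ℕ => y n) atTop (nhds 0) := by
    have h := y.zero_at_infty'
    rw [Filter.cocompact_eq_cofinite, Nat.cofinite_eq_atTop] at h
    exact h
  have e8 : 0 < ε / 8 := by positivity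
  have h1 : ∀ᶠ n : ℕ in atTop, |y n| ≤ ε / 8 := by
    have := (Metric.tendsto_atTop.1 hy) (ε / 8) e8
    obtain ⟨N, hN⟩ := this
    filter_upwards [eventually_ge_atTop N] with n hn
    have := hN n hn
    rw [Real.dist_eq, sub_zero] at this
    exact this.le
  have h2 : ∀ᶠ n : ℕ in atTop, (‖y‖ + ε / 8) / 2 ^ n ≤ ε / 8 := by
    have : Tendsto (fun n : ℕ => (‖y‖ + ε / 8) * (1 / 2) ^ n) atTop (nhds ((‖y‖ + ε / 8) * 0)) :=
      (tendsto_pow_atTop_nhds_zero_of_lt_one (by norm_num) (by norm_num)).const_mul _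
    rw [mul_zero] at this
    have := this.eventually (ge_mem_nhds e8)
    filter_upwards [this] with n hn
    rw [one_div, inv_pow] at hn
    rw [div_eq_mul_inv]
    exact hn
  have h3 : ∀ᶠ m : ℕ in atTop, 5 * (m : ℝ) / 2 ^ m ≤ ε / 8 := by
    have := tendsto_pow_const_div_const_pow_of_one_lt 1 (r := (2:ℝ)) (by norm_num)
    have := this.const_mul (5 : ℝ)
    rw [mul_zero] at this
    have := this.eventually (ge_mem_nhds e8)
    filter_upwards [this] with n hn
    simp only [pow_one] at hn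
    rw [mul_div_assoc]
    exact hn
  obtain ⟨N1, hN1⟩ := eventually_atTop.1 h1
  obtain ⟨N2, hN2⟩ := eventually_atTop.1 h2
  obtain ⟨N3, hN3⟩ := eventually_atTop.1 h3
  set s := max N1 N2 with hs
  have hs1 : ∀ m, 2 ^ s ≤ m → |y m| ≤ ε / 8 := fun m hm =>
    hN1 m (le_trans (le_max_left _ _) (le_trans Nat.lt_two_pow_self.le hm))
  have hs2 : (‖y‖ + ε / 8) / 2 ^ (2 ^ s) ≤ ε / 8 :=
    hN2 _ (le_trans (le_max_right N1 N2) Nat.lt_two_pow_self.le)
  -- rational approximation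
  have hq : ∀ n : ℕ, ∃ q : ℚ, |(q : ℝ) / 2 ^ n - y n| ≤ ε / 8 := by
    intro n
    obtain ⟨q, hq1, hq2⟩ := exists_rat_btwn (show 2 ^ n * (y n - ε / 8) < 2 ^ n * (y n + ε / 8) by
      apply mul_lt_mul_of_pos_left _ (by positivity); linarith)
    refine ⟨q, ?_⟩
    rw [abs_le]
    have hp : (0:ℝ) < 2 ^ n := by positivity
    constructor
    · rw [neg_le_sub_iff_le_add, ← sub_le_iff_le_add, le_div_iff₀ hp]
      linarith
    · rw [sub_le_iff_le_add, div_le_iff₀ hp]
      linarith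
  choose q hq using hq
  let v : ℕ →₀ ℚ := Finsupp.onFinset (Finset.range (2 ^ s)) (fun n => if n < 2 ^ s then q n else 0)
    (by intro n hn; by_contra h; simp at h; simp [not_lt.2 h] at hn)
  have hv : ∀ n, n < 2 ^ s → v n = q n := by
    intro n hn
    simp [v, hn]
  obtain ⟨t, ht⟩ := hg (v, s)
  -- bound
  obtain ⟨M, hM⟩ : ∃ M : ℕ, ∀ n, |((v n : ℚ) : ℝ)| ≤ M := by
    have hfin : (Set.range (fun n => |((v n : ℚ) : ℝ)|)).Finite := by
      apply Set.Finite.subset (s := (fun n => |((v n : ℚ) : ℝ)|) '' (v.support : Set ℕ) ∪ {0})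
      · exact ((Finset.finite_toSet _).image _).union (Set.finite_singleton _)
      · rintro _ ⟨n, rfl⟩
        by_cases h : n ∈ v.support
        · left; exact ⟨n, h, rfl⟩
        · right
          rw [Finsupp.notMem_support_iff] at h
          simp [h]
    obtain ⟨B, hB⟩ := hfin.bddAbove
    obtain ⟨M, hM⟩ := exists_nat_ge B
    exact ⟨M, fun n => le_trans (hB ⟨n, rfl⟩) hM⟩
  refine ⟨t, s, max (s + 1) (max M (N3 + 1)), ?_⟩
  intro L hL hLt j hj
  have hsL : s + 1 ≤ L := le_trans (le_max_left _ _) hL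
  have hML : M ≤ L := le_trans (le_trans (le_max_left _ _) (le_max_right _ _)) hL
  have hNL : N3 + 1 ≤ L := le_trans (le_trans (le_max_right _ _) (le_max_right _ _)) hL
  refine ⟨hsL, ?_⟩
  rw [Metric.mem_ball, dist_eq_norm]
  set k := 2 ^ L + 2 ^ s * j with hk
  have hkub : 2 ^ s * j < 2 ^ (L - 1) := by
    calc 2 ^ s * j < 2 ^ s * 2 ^ (L - 1 - s) := by
            apply Nat.mul_lt_mul_of_pos_left hj (by positivity)
      _ = 2 ^ (L - 1) := by rw [← pow_add]; congr 1; omega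
  have hpowL : 2 ^ L = 2 * 2 ^ (L - 1) := by
    rw [← pow_succ']; congr 1; omega
  have hpowL1 : 2 ^ (L + 1) = 4 * 2 ^ (L - 1) := by
    rw [pow_succ, hpowL]; ring
  have hsL1 : 2 ^ s ≤ 2 ^ (L - 1) := Nat.pow_le_pow_right (by norm_num) (by omega)
  have hkmod : ∀ m, (m + k) % 2 ^ s = m % 2 ^ s := by
    intro m
    have : 2 ^ L = 2 ^ s * 2 ^ (L - s) := by rw [← pow_add]; congr 1; omega
    rw [hk, this, ← mul_add, Nat.add_mul_mod_self_left]
  refine lt_of_le_of_lt (norm_le_of _ (ε / 4) (by positivity) ?_) (by linarith)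
  intro m
  rw [ZeroAtInftyContinuousMap.sub_apply, T_iter_vec]
  have hp : (0:ℝ) < 2 ^ m := by positivity
  by_cases hm : m < 2 ^ (L - 1)
  · -- inside scale
    have hlog : Nat.log 2 (m + k) = L := by
      apply (Nat.log_eq_iff (by left; omega)).2
      constructor
      · omega
      · omega
    have hle : |(((g t).1 ((m + k) % 2 ^ (g t).2) : ℚ) : ℝ)| ≤ ((m + k : ℕ) : ℝ) := by
      rw [ht]
      refine le_trans (hM _) ?_
      have : M ≤ m + k := le_trans hML (le_trans Nat.lt_two_pow_self.le (by omega))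
      exact_mod_cast this
    rw [c_type g (m + k) L t hlog hLt hle, ht]
    simp only
    rw [hkmod]
    by_cases hm2 : m < 2 ^ s
    · rw [Nat.mod_eq_of_lt hm2, hv m hm2]
      exact le_trans (hq m) (by linarith)
    · push Not at hm2
      have hr : m % 2 ^ s < 2 ^ s := Nat.mod_lt _ (by positivity)
      rw [hv _ hr]
      set r := m % 2 ^ s with hrdef
      have hrm : r + 2 ^ s ≤ m := by
        have h5 := Nat.mod_add_div m (2 ^ s)
        have h6 : 1 ≤ m / 2 ^ s := (Nat.one_le_div_iff (by positivity)).2 hm2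
        have h7 : 2 ^ s * 1 ≤ 2 ^ s * (m / 2 ^ s) := Nat.mul_le_mul_left _ h6
        omega
      have hqr : |(q r : ℝ) / 2 ^ r| ≤ ‖y‖ + ε / 8 := by
        have h5 := hq r
        have h6 := abs_apply_le y r
        have h7 : |(q r : ℝ) / 2 ^ r| ≤ |(q r : ℝ) / 2 ^ r - y r| + |y r| := by
          have := abs_add_le ((q r : ℝ) / 2 ^ r - y r) (y r)
          simpa using this
        linarith
      have h8 : |(q r : ℝ) / 2 ^ m| ≤ ε / 8 := by
        refine le_trans ?_ hs2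
        have h9 : (q r : ℝ) / 2 ^ m = ((q r : ℝ) / 2 ^ r) / 2 ^ (m - r) := by
          rw [div_div, ← pow_add]; congr 2; omega
        rw [h9, abs_div, abs_of_pos (by positivity : (0:ℝ) < 2 ^ (m - r))]
        apply div_le_div₀ (by positivity) hqr (by positivity)
        exact pow_le_pow_right₀ (by norm_num) (by omega)
      have h10 := hs1 m hm2
      calc |(q r : ℝ) / 2 ^ m - y m| ≤ |(q r : ℝ) / 2 ^ m| + |y m| := abs_sub _ _
        _ ≤ ε / 8 + ε / 8 := add_le_add h8 h10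
        _ = ε / 4 := by ring
  · push Not at hm
    have h10 := hs1 m (le_trans hsL1 hm)
    have h11 : |c g (m + k) / 2 ^ m| ≤ ε / 8 := by
      refine le_trans ?_ (hN3 m ?_)
      · rw [abs_div, abs_of_pos hp]
        apply div_le_div_of_nonneg_right _ hp.le
        refine le_trans (c_le g _) ?_
        have : m + k ≤ 5 * m := by omega
        exact_mod_cast this
      · have : L - 1 < 2 ^ (L - 1) := Nat.lt_two_pow_self
        omega
    calc |c g (m + k) / 2 ^ m - y m| ≤ |c g (m + k) / 2 ^ m| + |y m| := abs_sub _ _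
      _ ≤ ε / 8 + ε / 8 := add_le_add h11 h10
      _ = ε / 4 := by ring

lemma exists_scale (a n : ℕ) (hn : 2 ^ (2 ^ (a + 1) + 2) ≤ n) (L0 : ℕ) (hn0 : 2 ^ (L0 + 2 ^ (a + 1) + 2) ≤ n) :
    ∃ L, L0 ≤ L ∧ padicValNat 2 L = a ∧ 2 ^ (L + 1) ≤ n ∧ n < 2 ^ (L + 2 + 2 ^ (a + 1)) := by
  set m := Nat.log 2 n with hm
  have hn1 : n ≠ 0 := by
    have : 0 < 2 ^ (2 ^ (a + 1) + 2) := by positivity
    omega
  have hm1 : 2 ^ m ≤ n := Nat.pow_log_le_self 2 hn1
  have hm2 : n < 2 ^ (m + 1) := Nat.lt_pow_succ_log_self (by norm_num) n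
  have hm3 : L0 + 2 ^ (a + 1) + 2 ≤ m := by
    rw [hm]; exact (Nat.le_log_iff_pow_le (by norm_num) hn1).2 hn0
  have hpa : 2 ^ (a + 1) = 2 * 2 ^ a := by rw [pow_succ]; ring
  set i := (m - 1 - 2 ^ a) / 2 ^ (a + 1) with hi
  have hdiv := Nat.mod_add_div (m - 1 - 2 ^ a) (2 ^ (a + 1))
  have hmod := Nat.mod_lt (m - 1 - 2 ^ a) (show 0 < 2 ^ (a + 1) by positivity)
  rw [← hi] at hdiv
  have hL : 2 ^ a * (2 * i + 1) = 2 ^ (a + 1) * i + 2 ^ a := by rw [hpa]; ring
  refine ⟨2 ^ a * (2 * i + 1), ?_, ?_, ?_, ?_⟩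
  · rw [hL]; omega
  · have : Fact (Nat.Prime 2) := ⟨Nat.prime_two⟩
    rw [padicValNat.mul (by positivity) (by omega), padicValNat.prime_pow,
      padicValNat.eq_zero_of_not_dvd (by omega : ¬ 2 ∣ 2 * i + 1)]
    simp
  · refine le_trans (Nat.pow_le_pow_right (by norm_num) ?_) hm1
    rw [hL]; omega
  · refine lt_of_lt_of_le hm2 (Nat.pow_le_pow_right (by norm_num) ?_)
    rw [hL]; omega

/-- Some bounded operator on a real or complex Banach space has a frequently hypercyclic vector x and a nonempty open U such that no subset of the visit set of x in U has a natural density that exists and is positive. -/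
theorem result :
    ∃ (𝕜 : Type) (_ : RCLike 𝕜) (X : Type) (_ : NormedAddCommGroup X)
      (_ : NormedSpace 𝕜 X) (_ : CompleteSpace X) (T : X →L[𝕜] X) (x : X),
      (∀ U : Set X, IsOpen U → U.Nonempty →
        ∃ δ : ℝ, 0 < δ ∧ ∀ᶠ n : ℕ in Filter.atTop,
          δ * (n : ℝ) ≤ (({k : ℕ | k < n ∧ (⇑T)^[k] x ∈ U}.ncard : ℕ) : ℝ)) ∧
      ∃ U : Set X, IsOpen U ∧ U.Nonempty ∧
        ∀ A : Set ℕ, A ⊆ {k : ℕ | (⇑T)^[k] x ∈ U} →
          ¬ ∃ d : ℝ, 0 < d ∧
            Filter.Tendsto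
              (fun n : ℕ => (({k : ℕ | k < n ∧ k ∈ A}.ncard : ℕ) : ℝ) / (n : ℝ))
              Filter.atTop (nhds d) := by
  obtain ⟨g, hg⟩ := exists_surjective_nat ((ℕ →₀ ℚ) × ℕ)
  refine ⟨ℝ, inferInstance, C₀(ℕ, ℝ), inferInstance, inferInstance, inferInstance, T,
    vec (c g) (c_le g), ?_, ?_⟩
  · intro U hU hne
    obtain ⟨y, hy⟩ := hne
    obtain ⟨ε, hε, hball⟩ := Metric.isOpen_iff.1 hU y hy
    obtain ⟨t, s, L0, hvis⟩ := visits g hg y ε hε
    refine ⟨1 / 2 ^ (s + 3 + 2 ^ (t + 2)), by positivity, ?_⟩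
    filter_upwards [eventually_ge_atTop (2 ^ (L0 + 2 ^ (t + 2) + 2))] with n hn
    obtain ⟨L, hL0, hLt, hLn, hnL⟩ := exists_scale (t + 1) n
      (le_trans (Nat.pow_le_pow_right (by norm_num) (by
        have : t + 1 + 1 = t + 2 := rfl
        rw [this]; omega)) hn) L0 hn
    have hsL : s + 1 ≤ L := (hvis L hL0 hLt 0 (by positivity)).1
    have hcount : 2 ^ (L - 1 - s) ≤ {k : ℕ | k < n ∧ (⇑T)^[k] (vec (c g) (c_le g)) ∈ U}.ncard := by
      have hinj : Function.Injective (fun j : ℕ => 2 ^ L + 2 ^ s * j) := by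
        intro a b hab
        simp only at hab
        have h1 : 2 ^ s * a = 2 ^ s * b := by omega
        exact Nat.eq_of_mul_eq_mul_left (by positivity) h1
      have hsub : ((Finset.range (2 ^ (L - 1 - s))).image (fun j : ℕ => 2 ^ L + 2 ^ s * j) : Set ℕ) ⊆
          {k : ℕ | k < n ∧ (⇑T)^[k] (vec (c g) (c_le g)) ∈ U} := by
        intro k hk
        simp only [Finset.coe_image, Set.mem_image, Finset.coe_range, Set.mem_Iio] at hk
        obtain ⟨j, hj, rfl⟩ := hk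
        refine ⟨?_, hball (hvis L hL0 hLt j hj).2⟩
        have hkub : 2 ^ s * j < 2 ^ (L - 1) := by
          calc 2 ^ s * j < 2 ^ s * 2 ^ (L - 1 - s) := by
                  apply Nat.mul_lt_mul_of_pos_left hj (by positivity)
            _ = 2 ^ (L - 1) := by rw [← pow_add]; congr 1; omega
        have hpowL : 2 ^ L = 2 * 2 ^ (L - 1) := by
          rw [← pow_succ']; congr 1; omega
        have hpowL1 : 2 ^ (L + 1) = 2 * 2 ^ L := by
          rw [← pow_succ']
        omega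
      have hfin : {k : ℕ | k < n ∧ (⇑T)^[k] (vec (c g) (c_le g)) ∈ U}.Finite :=
        (Set.finite_Iio n).subset (fun k hk => hk.1)
      have := Set.ncard_le_ncard hsub hfin
      rw [Set.ncard_coe_finset, Finset.card_image_of_injective _ hinj, Finset.card_range] at this
      exact this
    have hcount' : ((2 ^ (L - 1 - s) : ℕ) : ℝ) ≤ (({k : ℕ | k < n ∧ (⇑T)^[k] (vec (c g) (c_le g)) ∈ U}.ncard : ℕ) : ℝ) := by
      exact_mod_cast hcount
    refine le_trans ?_ hcount'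
    rw [div_mul_eq_mul_div, one_mul, div_le_iff₀ (by positivity)]
    push_cast
    rw [← pow_add]
    have : (n : ℝ) ≤ ((2 ^ (L + 2 + 2 ^ (t + 1 + 1)) : ℕ) : ℝ) := by exact_mod_cast hnL.le
    refine le_trans this ?_
    push_cast
    apply le_of_eq
    congr 1
    have : t + 1 + 1 = t + 2 := rfl
    rw [this]; omega
  · refine ⟨{y | y 0 < 1 / 2}, ?_, ⟨0, by simp⟩, ?_⟩
    · have hcont : Continuous (fun y : C₀(ℕ, ℝ) => y 0) := by
        rw [Metric.continuous_iff]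
        intro b ε hε
        refine ⟨ε, hε, fun a hab => ?_⟩
        rw [dist_eq_norm] at hab
        rw [Real.dist_eq]
        exact lt_of_le_of_lt (abs_apply_le (a - b) 0) hab
      exact isOpen_lt hcont continuous_const
    · intro A hA
      exact gap g A hA

end Pool.Agent.S03851
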