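import Pool.Statements.S04135
import Pool.Agent.R232.RadInc

/-!
The construction is the one of `Pool.Agent.Helper704.RB` (any finite measure on the sphere).  It is
applied to the image of a finite measure equivalent to Lebesgue measure under `x ↦ x / |x|`.
-/

set_option autoImplicit false
open MeasureTheory
open Pool Pool.MP_28e115_an

namespace Pool.Agent.S04135

variable {n : ℕ}

/-- the Euclidean norm on `Fin n → ℂ` -/
noncomputable def nrm (x : Fin n → ℂ) : ℝ := Real.sqrt (∑ i, ‖x i‖ ^ 2)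

lemma norm_toLp (x : Fin n → ℂ) : ‖(WithLp.toLp 2 x : EuclideanSpace ℂ (Fin n))‖ = nrm x := by
  rw [EuclideanSpace.norm_eq]; rfl

/-- the direction of a vector; for the zero vector a fixed unit vector -/
noncomputable def dir0 (e : EuclideanSpace ℂ (Fin n)) (x : Fin n → ℂ) : EuclideanSpace ℂ (Fin n) :=
  haveI := Classical.dec (x = 0)
  if x = 0 then e else (((nrm x)⁻¹ : ℝ) : ℂ) • WithLp.toLp 2 x

lemma dir0_norm (e : EuclideanSpace ℂ (Fin n)) (he : ‖e‖ = 1) (x : Fin n → ℂ) :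
    ‖dir0 e x‖ = 1 := by
  unfold dir0
  split_ifs with h
  · exact he
  · rw [norm_smul, norm_toLp, Complex.norm_real, Real.norm_eq_abs, abs_of_nonneg]
    · have : nrm x ≠ 0 := by
        rw [← norm_toLp, norm_ne_zero_iff]
        intro h0
        exact h (by simpa using congrArg (WithLp.ofLp) h0)
      exact inv_mul_cancel₀ this
    · exact inv_nonneg.2 (Real.sqrt_nonneg _)

lemma measurable_dir0 (e : EuclideanSpace ℂ (Fin n)) : Measurable (dir0 e) := by
  unfold dir0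
  have h1 : Measurable (fun x : Fin n → ℂ => (WithLp.toLp 2 x : EuclideanSpace ℂ (Fin n))) :=
    (PiLp.continuous_toLp 2 (fun _ : Fin n => ℂ)).measurable
  have h2 : Measurable (fun x : Fin n → ℂ => (((nrm x)⁻¹ : ℝ) : ℂ)) := by
    apply Complex.measurable_ofReal.comp
    apply Measurable.inv
    unfold nrm
    apply Continuous.measurable
    fun_prop
  have h3 := h2.smul h1
  exact Measurable.ite (measurableSet_singleton 0) measurable_const h3

/-- For every n ≥ 2 there is a bounded holomorphic function on the unit ball of ℂⁿ whose restriction to almost every radius r ↦ f(rζ), 0 ≤ r < 1, has infinite total variation, i.e. a nonrectifiable image. -/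
theorem result :
    ∀ n : ℕ, 2 ≤ n →
      ∃ f : (Fin n → ℂ) → ℂ,
        DifferentiableOn ℂ f {z : Fin n → ℂ | ∑ i, ‖z i‖ ^ 2 < 1} ∧
        (∃ M : ℝ, ∀ z ∈ {z : Fin n → ℂ | ∑ i, ‖z i‖ ^ 2 < 1}, ‖f z‖ ≤ M) ∧
        ∀ᵐ x ∂(volume : Measure (Fin n → ℂ)),
          eVariationOn
            (fun r : ℝ => f ((((r / Real.sqrt (∑ i, ‖x i‖ ^ 2) : ℝ)) : ℂ) • x))
            (Set.Ico (0 : ℝ) 1) = ⊤ := by
  intro n hn
  obtain ⟨e, he⟩ : ∃ e : EuclideanSpace ℂ (Fin n), ‖e‖ = 1 :=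
    ⟨EuclideanSpace.single ⟨0, by omega⟩ 1, by simp⟩
  set dir : (Fin n → ℂ) → Metric.sphere (0 : EuclideanSpace ℂ (Fin n)) 1 := fun x =>
    ⟨dir0 e x, by rw [mem_sphere_zero_iff_norm]; exact dir0_norm e he x⟩ with hdir
  have hdirm : Measurable dir := (measurable_dir0 e).subtype_mk
  set μ : Measure (Metric.sphere (0 : EuclideanSpace ℂ (Fin n)) 1) :=
    (volume : Measure (Fin n → ℂ)).toFinite.map dir with hμ
  have : IsFiniteMeasure μ := by rw [hμ]; infer_instance
  obtain ⟨F, hFd, hFb, r, hr, hr0, hr1, hae⟩ := Pool.Agent.R232.RadInc.main2 (by omega) μ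
  have hball : ∀ z : Fin n → ℂ, ∑ i, ‖z i‖ ^ 2 < 1 →
      (WithLp.toLp 2 z : EuclideanSpace ℂ (Fin n)) ∈ Metric.ball (0 : EuclideanSpace ℂ (Fin n)) 1 := by
    intro z hz
    rw [mem_ball_zero_iff, norm_toLp, nrm, Real.sqrt_lt' one_pos]
    simpa using hz
  refine ⟨fun z => F (WithLp.toLp 2 z), ?_, ⟨1, fun z hz => hFb _ (hball z hz)⟩, ?_⟩
  · have h1 : Differentiable ℂ (fun z : Fin n → ℂ => (WithLp.toLp 2 z : EuclideanSpace ℂ (Fin n))) :=
      (PiLp.continuousLinearEquiv 2 ℂ (fun _ : Fin n => ℂ)).symm.differentiable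
    exact hFd.comp h1.differentiableOn fun z hz => hball z hz
  · have h1 := ae_of_ae_map hdirm.aemeasurable hae
    rw [ae_toFinite] at h1
    have hne : ∀ᵐ x ∂(volume : Measure (Fin n → ℂ)), x ≠ 0 := by
      have : Nonempty (Fin n) := ⟨⟨0, by omega⟩⟩
      exact Measure.ae_ne volume 0
    filter_upwards [h1, hne] with x hx hx0
    have hdx : (dir x).1 = (((nrm x)⁻¹ : ℝ) : ℂ) • WithLp.toLp 2 x := by
      simp only [hdir, dir0, if_neg hx0]
    have hpath : ∀ t : ℝ, F (WithLp.toLp 2 ((((t / Real.sqrt (∑ i, ‖x i‖ ^ 2) : ℝ)) : ℂ) • x)) =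
        F ((t : ℂ) • (dir x).1) := by
      intro t
      rw [hdx, smul_smul, ← Complex.ofReal_mul, ← div_eq_mul_inv]
      rfl
    rw [eq_top_iff]
    refine le_of_forall_lt fun c hc => ?_
    obtain ⟨m, hm⟩ := hx c.toReal
    have h2 := eVariationOn.sum_le (f := fun r : ℝ => F (WithLp.toLp 2
      ((((r / Real.sqrt (∑ i, ‖x i‖ ^ 2) : ℝ)) : ℂ) • x))) (s := Set.Ico (0 : ℝ) 1) (n := m) hr
      (fun k => ⟨hr0 k, hr1 k⟩)
    refine lt_of_lt_of_le ?_ h2
    have h3 : (∑ i ∈ Finset.range m, edist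
        (F (WithLp.toLp 2 ((((r (i + 1) / Real.sqrt (∑ i, ‖x i‖ ^ 2) : ℝ)) : ℂ) • x)))
        (F (WithLp.toLp 2 ((((r i / Real.sqrt (∑ i, ‖x i‖ ^ 2) : ℝ)) : ℂ) • x)))) =
        ENNReal.ofReal (∑ k ∈ Finset.range m,
          ‖F ((r (k + 1) : ℂ) • (dir x).1) - F ((r k : ℂ) • (dir x).1)‖) := by
      rw [ENNReal.ofReal_sum_of_nonneg fun _ _ => norm_nonneg _]
      refine Finset.sum_congr rfl fun k _ => ?_
      rw [hpath, hpath, edist_dist, dist_eq_norm]
    rw [h3]
    exact (ENNReal.lt_ofReal_iff_toReal_lt hc.ne).2 hm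

end Pool.Agent.S04135
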