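import Pool.Statements.S04241
import Pool.Agent.R245.UI.Main
-- import your own Pool.Agent.* helpers here

set_option autoImplicit false
open Pool Pool.MP_2fa38d_an

namespace Pool.Agent.S04241

/-- For every sequence of distinct points a_n tending to infinity with multiplicities p_n, contained in the zero set of a nonzero F in the class and universal interpolating, some nonzero f in the class vanishes on it with ∣f^(p_n)(a_n)∣/p_n! ≥ ε exp(-c ρ(a_n)). -/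
theorem result :
  ∀ (ρ : ℂ → ℝ), ρ = (fun z : ℂ => |z.im| + Real.log (1 + ‖z‖ ^ 2)) →
  ∀ (E : (ℂ → ℂ) → Prop),
    E = (fun f : ℂ → ℂ => Differentiable ℂ f ∧
      ∃ A > (0:ℝ), ∃ B > (0:ℝ), ∀ z : ℂ, ‖f z‖ ≤ A * Real.exp (B * ρ z)) →
  ∀ (a : ℕ → ℂ) (p : ℕ → ℕ),
    Function.Injective a →
    Filter.Tendsto (fun n => ‖a n‖) Filter.atTop Filter.atTop →
    (∀ n, 1 ≤ p n) →
    (∃ F : ℂ → ℂ, E F ∧ (∃ z, F z ≠ 0) ∧
      ∀ n, ∀ k < p n, iteratedDeriv k F (a n) = 0) →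
    (∀ lam : ℕ → ℕ → ℂ,
      (∃ A > (0:ℝ), ∃ B > (0:ℝ), ∀ n, ∀ κ < p n,
        ‖lam n κ‖ ≤ A * Real.exp (B * ρ (a n))) →
      ∃ g : ℂ → ℂ, E g ∧ ∀ n, ∀ κ < p n,
        iteratedDeriv κ g (a n) / (κ.factorial : ℂ) = lam n κ) →
    ∃ f : ℂ → ℂ, E f ∧ (∃ z, f z ≠ 0) ∧
      (∀ n, ∀ k < p n, iteratedDeriv k f (a n) = 0) ∧
      ∃ ε > (0:ℝ), ∃ c > (0:ℝ), ∀ n,
        ε * Real.exp (-(c * ρ (a n))) ≤
          ‖iteratedDeriv (p n) f (a n)‖ / ((p n).factorial : ℝ) := by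
  intro ρ hρ E hE a p hinj _ hp hF hint
  have hρ' : ρ = Pool.Agent.W778.UI.rho := hρ
  subst hρ'
  subst hE
  obtain ⟨F, ⟨hFd, A, hA, B, hB, hb⟩, ⟨c₀, hc₀⟩, hz⟩ := hF
  have hz0 : ∀ n, F (a n) = 0 := fun n => by
    have := hz n 0 (hp n)
    rwa [iteratedDeriv_zero] at this
  obtain ⟨f, hf, hne, hjet, ε, hε, c, hc, hlow⟩ :=
    Pool.Agent.R245.UI.main a p hinj hp hFd hA hB hb hc₀ hz0 (by
      intro x hx
      obtain ⟨g, ⟨hgd, hgb⟩, hg⟩ := hint (fun n κ => if κ + 1 = p n then x n else 0)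
        ⟨1, one_pos, 1, one_pos, fun n κ _ => by
          have h1 : (1 : ℝ) ≤ 1 * Real.exp (1 * Pool.Agent.W778.UI.rho (a n)) := by
            rw [one_mul, one_mul]
            exact Real.one_le_exp (Pool.Agent.W778.UI.rho_nonneg _)
          refine le_trans ?_ h1
          split_ifs
          · exact hx n
          · simp⟩
      exact ⟨g, ⟨hgd, hg⟩, hgb⟩)
  exact ⟨f, hf, hne, hjet, ε, hε, c, hc, hlow⟩


end Pool.Agent.S04241
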