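import Pool.Statements.S04349
-- import your own Pool.Agent.* helpers here
import Pool.Agent.R230.HR.Glue

set_option autoImplicit false
open Pool Pool.MP_37b94e_an

namespace Pool.Agent.S04349

/-- Every vector of `ℂⁿ`, `n ≥ 2`, is in the image of an injective linear map `ℂⁿ⁻¹ → ℂⁿ`. -/
theorem exists_injective {n : ℕ} (hn : 2 ≤ n) (v : Fin n → ℂ) :
    ∃ (L : (Fin (n - 1) → ℂ) →ₗ[ℂ] (Fin n → ℂ)) (x : Fin (n - 1) → ℂ), Function.Injective L ∧
      L x = v := by
  -- a non-zero functional that vanishes at `v`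
  obtain ⟨φ, hφ, hφv⟩ : ∃ φ : (Fin n → ℂ) →ₗ[ℂ] ℂ, φ ≠ 0 ∧ φ v = 0 := by
    let i0 : Fin n := ⟨0, by omega⟩
    let i1 : Fin n := ⟨1, by omega⟩
    have hi : i0 ≠ i1 := by simp [i0, i1]
    by_cases h : v i0 = 0
    · refine ⟨LinearMap.proj i0, fun h0 => ?_, h⟩
      have := congrArg (fun f => f (Pi.single i0 1)) h0
      simp at this
    · refine ⟨v i1 • LinearMap.proj i0 - v i0 • LinearMap.proj i1, fun h0 => h ?_, ?_⟩
      · have := congrArg (fun f => f (Pi.single i1 1)) h0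
        simpa [hi] using this
      · simp [mul_comm]
  have hker : Module.finrank ℂ (LinearMap.ker φ) = n - 1 := by
    have h1 := LinearMap.finrank_range_add_finrank_ker φ
    have h2 : Module.finrank ℂ (LinearMap.range φ) = 1 := by
      rw [LinearMap.range_eq_top.2 (LinearMap.surjective hφ)]
      simp
    rw [h2] at h1
    simp only [Module.finrank_fintype_fun_eq_card, Fintype.card_fin] at h1
    omega
  let e : (Fin (n - 1) → ℂ) ≃ₗ[ℂ] LinearMap.ker φ :=
    LinearEquiv.ofFinrankEq _ _ (by rw [hker]; simp)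
  refine ⟨(LinearMap.ker φ).subtype.comp e.toLinearMap, e.symm ⟨v, hφv⟩, ?_, ?_⟩
  · exact (Submodule.subtype_injective _).comp e.injective
  · simp

/-- For n ≥ 2 and each k there is c such that any real-analytic p on ℂⁿ whose restriction to every affine complex hyperplane is a sum of k terms ±∣holomorphic∣² is itself a sum of c terms ±∣entire holomorphic∣². -/
theorem result :
    ∀ n : ℕ, 2 ≤ n → ∀ k : ℕ, ∃ c : ℕ, ∀ p : (Fin n → ℂ) → ℝ,
      AnalyticOnNhd ℝ p Set.univ →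
      (∀ (a : Fin n → ℂ) (L : (Fin (n - 1) → ℂ) →ₗ[ℂ] (Fin n → ℂ)),
        Function.Injective L →
        ∃ (ε : Fin k → ℝ) (g : Fin k → (Fin (n - 1) → ℂ) → ℂ),
          (∀ j, ε j = 1 ∨ ε j = -1) ∧ (∀ j, Differentiable ℂ (g j)) ∧
          ∀ x, p (a + L x) = ∑ j, ε j * Complex.normSq (g j x)) →
      ∃ (ε : Fin c → ℝ) (f : Fin c → (Fin n → ℂ) → ℂ),
        (∀ j, ε j = 1 ∨ ε j = -1) ∧ (∀ j, Differentiable ℂ (f j)) ∧
        ∀ z, p z = ∑ j, ε j * Complex.normSq (f j z) := by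
  intro n hn k
  refine ⟨2 * (((k ^ n) ^ n) * ((k ^ n) ^ n)), fun p hp hres => ?_⟩
  refine Pool.Agent.R230.HR.exists_rep (k := k) ?_ (fun x => hp x (Set.mem_univ x))
  intro z v
  obtain ⟨L, x, hL, hx⟩ := exists_injective hn v
  obtain ⟨ε, g, -, hg, hpg⟩ := hres z L hL
  refine ⟨ε, fun j t => g j (t • x), fun j => ?_, fun t => ?_⟩
  · exact (hg j).comp (f := fun t : ℂ => t • x) (by fun_prop)
  · rw [← hx, ← map_smul, hpg]

end Pool.Agent.S04349
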