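import Pool.Statements.S04452
import Pool.Agent.R247.MZ.E

set_option autoImplicit false
open MeasureTheory
open Pool Pool.MP_40db9a_an

namespace Pool.Agent.S04452

/-- The negation of the preceding statement: For smooth weakly cancelling T, kernel K of the multiplier ∣ξ∣^-α(T_e - i T_o), and p-homogeneous locally Lipschitz Φ: ∣∫Φ(K*f)∣ ≤ C‖f‖₁^p for all mean-zero test f iff Φ∘K integrates to 0 on the sphere. -/
theorem result :
    ¬ (∀ (d ℓ : ℕ), 1 ≤ d → 1 ≤ ℓ → ∀ α : ℝ, 0 < α → α < (d : ℝ) →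
  ∀ T : EuclideanSpace ℝ (Fin d) → (Fin ℓ → ℝ),
    ContDiff ℝ ((⊤ : ℕ∞) : WithTop ℕ∞) T →
    ∫ θ, T (θ : EuclideanSpace ℝ (Fin d))
        ∂((volume : Measure (EuclideanSpace ℝ (Fin d))).toSphere) = 0 →
  ∀ Φ : (Fin ℓ → ℝ) → ℝ, LocallyLipschitz Φ →
    (∀ t : ℝ, 0 < t → ∀ y : Fin ℓ → ℝ,
        Φ (t • y) = t ^ ((d : ℝ) / ((d : ℝ) - α)) * Φ y) →
  ∀ K : EuclideanSpace ℝ (Fin d) → (Fin ℓ → ℝ),
    ContinuousOn K {x | x ≠ 0} →
    (∀ t : ℝ, 0 < t → ∀ x : EuclideanSpace ℝ (Fin d), x ≠ 0 →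
        K (t • x) = t ^ (α - (d : ℝ)) • K x) →
    (∀ f : EuclideanSpace ℝ (Fin d) → ℝ,
        ContDiff ℝ ((⊤ : ℕ∞) : WithTop ℕ∞) f → HasCompactSupport f →
        ∀ x : EuclideanSpace ℝ (Fin d), ∀ j : Fin ℓ,
          (((∫ y, K (x - y) j * f y : ℝ)) : ℂ) =
            ∫ ξ, ((‖ξ‖ ^ (-α) : ℝ) : ℂ) *
              ((((T (‖ξ‖⁻¹ • ξ) j + T (-(‖ξ‖⁻¹ • ξ)) j) / 2 : ℝ) : ℂ)
                - Complex.I * (((T (‖ξ‖⁻¹ • ξ) j - T (-(‖ξ‖⁻¹ • ξ)) j) / 2 : ℝ) : ℂ)) *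
              (∫ y, Complex.exp (-(2 * (Real.pi : ℂ) * Complex.I * ((inner ℝ y ξ : ℝ) : ℂ)))
                    * ((f y : ℝ) : ℂ)) *
              Complex.exp (2 * (Real.pi : ℂ) * Complex.I * ((inner ℝ x ξ : ℝ) : ℂ))) →
    ((∃ C : ℝ, ∀ f : EuclideanSpace ℝ (Fin d) → ℝ,
        ContDiff ℝ ((⊤ : ℕ∞) : WithTop ℕ∞) f → HasCompactSupport f →
        ∫ x, f x = 0 →
        |∫ x, Φ (fun j : Fin ℓ => ∫ y, K (x - y) j * f y)|
          ≤ C * (∫ x, |f x|) ^ ((d : ℝ) / ((d : ℝ) - α)))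
      ↔ ∫ θ, Φ (K (θ : EuclideanSpace ℝ (Fin d)))
            ∂((volume : Measure (EuclideanSpace ℝ (Fin d))).toSphere) = 0)) := by
  intro h
  open Pool.Agent.R247.MZ in
  have h1 := h 2 2 (by norm_num) (by norm_num) 1 one_pos (by norm_num) TT TT_smooth TT_mean Ph Ph_lip
    (by
      intro t ht y
      have e : ((2 : ℕ) : ℝ) / (((2 : ℕ) : ℝ) - 1) = ((2 : ℕ) : ℝ) := by norm_num
      rw [e, Real.rpow_natCast]
      exact Ph_hom ht y) KK KK_cont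
    (by
      intro t ht x _
      funext j
      have e : (1 : ℝ) - ((2 : ℕ) : ℝ) = -1 := by norm_num
      rw [Pi.smul_apply, smul_eq_mul, e, Real.rpow_neg_one]
      exact KK_hom ht x j)
    (fun f hf hs x j => mult hf hs x j)
  open Pool.Agent.R247.MZ in
  have h2 : ∫ θ, Ph (KK (θ : EuclideanSpace ℝ (Fin 2)))
      ∂((volume : Measure (EuclideanSpace ℝ (Fin 2))).toSphere) = 0 := by
    have : ∀ θ : Metric.sphere (0 : EuclideanSpace ℝ (Fin 2)) 1,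
        Ph (KK (θ : EuclideanSpace ℝ (Fin 2))) = 0 := Ph_KK
    simp [this]
  obtain ⟨C, hC⟩ := h1.2 h2
  open Pool.Agent.R247.MZ in
  obtain ⟨N, hN⟩ := exists_nat_gt (4 * |C| / ((volume : Measure E).real S0 / 64))
  open Pool.Agent.R247.MZ in
  obtain ⟨n, hn1, hn⟩ := blow mo_moll N
  have hn0 : (0 : ℝ) < n := by linarith
  open Pool.Agent.R247.MZ in
  have h3 := hC (ff mo n) (ff_smooth n) (ff_cs hn1) (ff_mean mo_moll hn0)
  open Pool.Agent.R247.MZ in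
  have h4 : ∀ x : EuclideanSpace ℝ (Fin 2),
      (fun j : Fin 2 => ∫ y, KK (x - y) j * ff mo n y) = fun j => Gn mo n x j := fun x =>
    funext fun j => pot mo_moll hn0 x j
  simp_rw [h4] at h3
  have e : ((2 : ℕ) : ℝ) / (((2 : ℕ) : ℝ) - 1) = ((2 : ℕ) : ℝ) := by norm_num
  rw [e, Real.rpow_natCast] at h3
  open Pool.Agent.R247.MZ in
  have h5 := ff_abs mo_moll hn0
  open Pool.Agent.R247.MZ in
  have h6 : 0 ≤ ∫ y, |ff mo n y| := MeasureTheory.integral_nonneg fun y => abs_nonneg _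
  open Pool.Agent.R247.MZ in
  have h7 : C * (∫ y, |ff mo n y|) ^ 2 ≤ 4 * |C| := by
    calc C * (∫ y, |ff mo n y|) ^ 2 ≤ |C| * (∫ y, |ff mo n y|) ^ 2 := by
          gcongr
          exact le_abs_self C
      _ ≤ |C| * 2 ^ 2 := by gcongr
      _ = 4 * |C| := by ring
  open Pool.Agent.R247.MZ in
  have h8 : 0 < (volume : Measure E).real S0 / 64 := div_pos S0_pos (by norm_num)
  rw [div_lt_iff₀ h8] at hN
  have h9 := le_abs_self (∫ x : EuclideanSpace ℝ (Fin 2),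
    Pool.Agent.R247.MZ.Ph (fun j => Pool.Agent.R247.MZ.Gn Pool.Agent.R247.MZ.mo n x j))
  linarith

end Pool.Agent.S04452
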