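import Pool.Statements.S04457
import Pool.Agent.R979.QC.Fin

set_option autoImplicit false
open Pool Pool.MP_410ea2_an

namespace Pool.Agent.S04457

/-- There is a quasiconformal homeomorphism f of the plane (metric definition) and an uncountable set E of reals such that every rectifiable curve lying in f of the union of the vertical lines over E is constant. -/
theorem result :
    ∃ f : ℂ ≃ₜ ℂ,
      (∃ H : ℝ, ∀ x : ℂ, ∃ δ > (0 : ℝ), ∀ y z : ℂ,
          dist y x = dist z x → dist y x < δ →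
            dist (f y) (f x) ≤ H * dist (f z) (f x)) ∧
      ∃ E : Set ℝ, ¬ E.Countable ∧
        ∀ γ : ℝ → ℂ, ContinuousOn γ (Set.Icc 0 1) →
          BoundedVariationOn γ (Set.Icc 0 1) →
          (∀ t ∈ Set.Icc (0 : ℝ) 1, γ t ∈ f '' {z : ℂ | z.re ∈ E}) →
          ∀ s ∈ Set.Icc (0 : ℝ) 1, ∀ t ∈ Set.Icc (0 : ℝ) 1, γ s = γ t :=
  Pool.Agent.R979.QC.main

end Pool.Agent.S04457
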