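import Pool.Statements.S04554
import Pool.Agent.R202.Rot

set_option autoImplicit false
open Pool Pool.MP_483d01_an

namespace Pool.Agent.S04554

open MeasureTheory Set

/-- the interval exchange of the statement, for an arbitrary permutation -/
noncomputable def F (d : ℕ) (π : Equiv.Perm (Fin d)) (v : Fin d → ℝ) (x : ℝ) : ℝ :=
  x + ∑ j : Fin d,
          (Set.Ico (∑ i ∈ (Finset.univ : Finset (Fin d)).filter (fun i : Fin d => i < j), v i)
             ((∑ i ∈ (Finset.univ : Finset (Fin d)).filter (fun i : Fin d => i < j), v i) + v j)).indicator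
            (fun _ : ℝ => (∑ i ∈ (Finset.univ : Finset (Fin d)).filter (fun i : Fin d => π i < π j), v i) -
                      ∑ i ∈ (Finset.univ : Finset (Fin d)).filter (fun i : Fin d => i < j), v i) x

/-- the condition of the statement -/
def UEc (d : ℕ) (π : Equiv.Perm (Fin d)) (v : Fin d → ℝ) : Prop :=
  ∃! μ : Measure ℝ, IsProbabilityMeasure μ ∧ μ ((Set.Ico (0 : ℝ) (∑ i : Fin d, v i))ᶜ) = 0 ∧
    Measure.map (F d π v) μ = μ

/-- four intervals in reversed order -/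
noncomputable def G (a b c e : ℝ) (x : ℝ) : ℝ :=
  x + ((Set.Ico 0 a).indicator (fun _ => b + c + e) x
    + (Set.Ico a (a + b)).indicator (fun _ => c + e - a) x
    + (Set.Ico (a + b) (a + b + c)).indicator (fun _ => e - (a + b)) x
    + (Set.Ico (a + b + c) (a + b + c + e)).indicator (fun _ => -(a + b + c)) x)

lemma F_eq (a b c e : ℝ) : F 4 Fin.revPerm ![a, b, c, e] = G a b c e := by
  funext x
  unfold F G
  have f0 : (Finset.univ : Finset (Fin 4)).filter (fun i : Fin 4 => i < 0) = ∅ := by decide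
  have f1 : (Finset.univ : Finset (Fin 4)).filter (fun i : Fin 4 => i < 1) = {0} := by decide
  have f2 : (Finset.univ : Finset (Fin 4)).filter (fun i : Fin 4 => i < 2) = {0, 1} := by decide
  have f3 : (Finset.univ : Finset (Fin 4)).filter (fun i : Fin 4 => i < 3) = {0, 1, 2} := by decide
  have g0 : (Finset.univ : Finset (Fin 4)).filter
      (fun i : Fin 4 => Fin.revPerm i < Fin.revPerm 0) = {1, 2, 3} := by decide
  have g1 : (Finset.univ : Finset (Fin 4)).filter
      (fun i : Fin 4 => Fin.revPerm i < Fin.revPerm 1) = {2, 3} := by decide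
  have g2 : (Finset.univ : Finset (Fin 4)).filter
      (fun i : Fin 4 => Fin.revPerm i < Fin.revPerm 2) = {3} := by decide
  have g3 : (Finset.univ : Finset (Fin 4)).filter
      (fun i : Fin 4 => Fin.revPerm i < Fin.revPerm 3) = ∅ := by decide
  rw [Fin.sum_univ_four, f0, f1, f2, f3, g0, g1, g2, g3]
  have s1 : ∑ i ∈ ({0, 1} : Finset (Fin 4)), (![a, b, c, e] : Fin 4 → ℝ) i = a + b := by
    rw [Finset.sum_insert (by decide), Finset.sum_singleton]; simp
  have s2 : ∑ i ∈ ({0, 1, 2} : Finset (Fin 4)), (![a, b, c, e] : Fin 4 → ℝ) i = a + b + c := by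
    rw [Finset.sum_insert (by decide), Finset.sum_insert (by decide), Finset.sum_singleton]
    simp; ring
  have s3 : ∑ i ∈ ({1, 2, 3} : Finset (Fin 4)), (![a, b, c, e] : Fin 4 → ℝ) i = b + c + e := by
    rw [Finset.sum_insert (by decide), Finset.sum_insert (by decide), Finset.sum_singleton]
    simp; ring
  have s4 : ∑ i ∈ ({2, 3} : Finset (Fin 4)), (![a, b, c, e] : Fin 4 → ℝ) i = c + e := by
    rw [Finset.sum_insert (by decide), Finset.sum_singleton]; simp
  rw [s1, s2, s3, s4]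
  simp

lemma sum_eq (a b c e : ℝ) : ∑ i : Fin 4, (![a, b, c, e] : Fin 4 → ℝ) i = a + b + c + e := by
  rw [Fin.sum_univ_four]; simp

section values

variable {a b c e x : ℝ}

lemma G_A (hb : 0 ≤ b) (hc : 0 ≤ c) (h0 : 0 ≤ x) (h1 : x < a) :
    G a b c e x = x + (b + c + e) := by
  unfold G
  simp only [indicator_apply, mem_Ico]
  rw [if_pos ⟨h0, h1⟩, if_neg (fun h => by linarith [h.1]), if_neg (fun h => by linarith [h.1]),
    if_neg (fun h => by linarith [h.1])]
  ring

lemma G_B (hc : 0 ≤ c) (h0 : a ≤ x) (h1 : x < a + b) :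
    G a b c e x = x + (c + e - a) := by
  unfold G
  simp only [indicator_apply, mem_Ico]
  rw [if_neg (fun h => by linarith [h.2]), if_pos ⟨h0, h1⟩, if_neg (fun h => by linarith [h.1]),
    if_neg (fun h => by linarith [h.1])]
  ring

lemma G_C (hb : 0 ≤ b) (h0 : a + b ≤ x) (h1 : x < a + b + c) :
    G a b c e x = x + (e - (a + b)) := by
  unfold G
  simp only [indicator_apply, mem_Ico]
  rw [if_neg (fun h => by linarith [h.2]), if_neg (fun h => by linarith [h.2]), if_pos ⟨h0, h1⟩,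
    if_neg (fun h => by linarith [h.1])]
  ring

lemma G_D (hb : 0 ≤ b) (hc : 0 ≤ c) (h0 : a + b + c ≤ x) (h1 : x < a + b + c + e) :
    G a b c e x = x - (a + b + c) := by
  unfold G
  simp only [indicator_apply, mem_Ico]
  rw [if_neg (fun h => by linarith [h.2]), if_neg (fun h => by linarith [h.2]),
    if_neg (fun h => by linarith [h.2]), if_pos ⟨h0, h1⟩]
  ring

lemma G_meas (a b c e : ℝ) : Measurable (G a b c e) := by
  unfold G
  refine measurable_id.add ((((?_ : Measurable _).add ?_).add ?_).add ?_) <;>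
  exact measurable_const.indicator measurableSet_Ico

end values

/-- the angle -/
noncomputable abbrev al : ℝ := Real.sqrt 2 - 1

lemma al_pos : 0 < al := by
  have : (1 : ℝ) < Real.sqrt 2 := by
    rw [Real.lt_sqrt (by norm_num)]; norm_num
  unfold al; linarith

lemma al_lt : al < 1 := by
  have : Real.sqrt 2 < 2 := by
    rw [Real.sqrt_lt (by norm_num) (by norm_num)]; norm_num
  unfold al; linarith

lemma al_irr : Irrational (-al) := by
  have := irrational_sqrt_two.sub_intCast 1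
  rw [Int.cast_one] at this
  exact this.neg

/-- the uniquely ergodic interval exchange -/
noncomputable abbrev T : ℝ → ℝ := G al (1 - al) 1 2

lemma T_A {x : ℝ} (h0 : 0 ≤ x) (h1 : x < al) : T x = x + (4 - al) := by
  have := al_lt
  rw [T, G_A (by linarith) (by norm_num) h0 h1]; ring

lemma T_B {x : ℝ} (h0 : al ≤ x) (h1 : x < 1) : T x = x + (3 - al) := by
  rw [T, G_B (by norm_num) h0 (by linarith)]; ring

lemma T_C {x : ℝ} (h0 : 1 ≤ x) (h1 : x < 2) : T x = x + 1 := by
  have := al_lt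
  rw [T, G_C (by linarith) (by linarith) (by linarith)]; ring

lemma T_D {x : ℝ} (h0 : 2 ≤ x) (h1 : x < 4) : T x = x - 2 := by
  have := al_lt
  rw [T, G_D (by linarith) (by norm_num) (by linarith) (by linarith)]; ring

/-- points of `[i, i+1)` whose class is in `B` -/
def S (i : ℝ) (B : Set UnitAddCircle) : Set ℝ := Ico i (i + 1) ∩ {x | (x : UnitAddCircle) ∈ B}

lemma S_meas (i : ℝ) {B : Set UnitAddCircle} (hB : MeasurableSet B) : MeasurableSet (S i B) :=
  measurableSet_Ico.inter (AddCircle.measurable_mk' hB)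

/-- invariant probability measures -/
structure Inv (μ : Measure ℝ) : Prop where
  prob : IsProbabilityMeasure μ
  supp : μ (Ico (0 : ℝ) 4)ᶜ = 0
  inv : μ.map T = μ

lemma Inv.pre {μ : Measure ℝ} (h : Inv μ) {E E' : Set ℝ} (hE : MeasurableSet E)
    (hEE : ∀ x ∈ Ico (0 : ℝ) 4, T x ∈ E ↔ x ∈ E') : μ E = μ E' := by
  conv_lhs => rw [← h.inv]
  rw [Measure.map_apply (G_meas _ _ _ _) hE]
  apply measure_congr
  have : ∀ᵐ x ∂μ, x ∈ Ico (0 : ℝ) 4 := by
    rw [ae_iff]; exact h.supp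
  filter_upwards [this] with x hx
  exact propext (hEE x hx)

lemma coe_int (n : ℤ) (x : ℝ) : ((x + n : ℝ) : UnitAddCircle) = (x : UnitAddCircle) := by
  rw [AddCircle.coe_add]
  have : ((n : ℝ) : UnitAddCircle) = 0 := by
    have := AddCircle.coe_eq_zero_iff (p := (1 : ℝ)) (x := (n : ℝ))
    rw [this]; exact ⟨n, by simp⟩
  rw [this, add_zero]

lemma cases4 {x : ℝ} (hx : x ∈ Ico (0 : ℝ) 4) :
    (0 ≤ x ∧ x < al) ∨ (al ≤ x ∧ x < 1) ∨ (1 ≤ x ∧ x < 2) ∨ (2 ≤ x ∧ x < 3) ∨ (3 ≤ x ∧ x < 4) := by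
  rcases lt_or_ge x al with h | h
  · exact Or.inl ⟨hx.1, h⟩
  rcases lt_or_ge x 1 with h1 | h1
  · exact Or.inr (Or.inl ⟨h, h1⟩)
  rcases lt_or_ge x 2 with h2 | h2
  · exact Or.inr (Or.inr (Or.inl ⟨h1, h2⟩))
  rcases lt_or_ge x 3 with h3 | h3
  · exact Or.inr (Or.inr (Or.inr (Or.inl ⟨h2, h3⟩)))
  · exact Or.inr (Or.inr (Or.inr (Or.inr ⟨h3, hx.2⟩)))

lemma Inv.S1 {μ : Measure ℝ} (h : Inv μ) {B : Set UnitAddCircle} (hB : MeasurableSet B) :
    μ (S 1 B) = μ (S 3 B) := by
  have ha := al_pos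
  have hb := al_lt
  refine h.pre (S_meas 1 hB) fun x hx => ?_
  simp only [S, mem_inter_iff, mem_Ico, mem_ofPred_eq]
  rcases cases4 hx with ⟨h0, h1⟩ | ⟨h0, h1⟩ | ⟨h0, h1⟩ | ⟨h0, h1⟩ | ⟨h0, h1⟩
  · rw [T_A h0 h1]
    constructor
    · rintro ⟨⟨h3, h4⟩, -⟩; linarith
    · rintro ⟨⟨h3, h4⟩, -⟩; linarith
  · rw [T_B h0 h1]
    constructor
    · rintro ⟨⟨h3, h4⟩, -⟩; linarith
    · rintro ⟨⟨h3, h4⟩, -⟩; linarith
  · rw [T_C h0 h1]
    constructor
    · rintro ⟨⟨h3, h4⟩, -⟩; linarith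
    · rintro ⟨⟨h3, h4⟩, -⟩; linarith
  · rw [T_D h0 (by linarith)]
    constructor
    · rintro ⟨⟨h3, h4⟩, -⟩; linarith
    · rintro ⟨⟨h3, h4⟩, -⟩; linarith
  · rw [T_D (by linarith) h1]
    have e : ((x - 2 : ℝ) : UnitAddCircle) = (x : UnitAddCircle) := by
      have := coe_int (-2) x
      rw [← this]; congr 1; push_cast; ring
    rw [e]
    constructor
    · rintro ⟨⟨h3, h4⟩, h5⟩; exact ⟨⟨by linarith, by linarith⟩, h5⟩
    · rintro ⟨⟨h3, h4⟩, h5⟩; exact ⟨⟨by linarith, by linarith⟩, h5⟩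

lemma Inv.S2 {μ : Measure ℝ} (h : Inv μ) {B : Set UnitAddCircle} (hB : MeasurableSet B) :
    μ (S 2 B) = μ (S 1 B) := by
  have ha := al_pos
  have hb := al_lt
  refine h.pre (S_meas 2 hB) fun x hx => ?_
  simp only [S, mem_inter_iff, mem_Ico, mem_ofPred_eq]
  rcases cases4 hx with ⟨h0, h1⟩ | ⟨h0, h1⟩ | ⟨h0, h1⟩ | ⟨h0, h1⟩ | ⟨h0, h1⟩
  · rw [T_A h0 h1]
    constructor
    · rintro ⟨⟨h3, h4⟩, -⟩; linarith
    · rintro ⟨⟨h3, h4⟩, -⟩; linarith
  · rw [T_B h0 h1]
    constructor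
    · rintro ⟨⟨h3, h4⟩, -⟩; linarith
    · rintro ⟨⟨h3, h4⟩, -⟩; linarith
  · rw [T_C h0 h1]
    have e : ((x + 1 : ℝ) : UnitAddCircle) = (x : UnitAddCircle) := by
      have := coe_int 1 x
      rw [← this]; congr 1; push_cast; ring
    rw [e]
    constructor
    · rintro ⟨⟨h3, h4⟩, h5⟩; exact ⟨⟨by linarith, by linarith⟩, h5⟩
    · rintro ⟨⟨h3, h4⟩, h5⟩; exact ⟨⟨by linarith, by linarith⟩, h5⟩
  · rw [T_D h0 (by linarith)]
    constructor
    · rintro ⟨⟨h3, h4⟩, -⟩; linarith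
    · rintro ⟨⟨h3, h4⟩, -⟩; linarith
  · rw [T_D (by linarith) h1]
    constructor
    · rintro ⟨⟨h3, h4⟩, -⟩; linarith
    · rintro ⟨⟨h3, h4⟩, -⟩; linarith

lemma Inv.S0 {μ : Measure ℝ} (h : Inv μ) {B : Set UnitAddCircle} (hB : MeasurableSet B) :
    μ (S 0 B) = μ (S 2 B) := by
  have ha := al_pos
  have hb := al_lt
  refine h.pre (S_meas 0 hB) fun x hx => ?_
  simp only [S, mem_inter_iff, mem_Ico, mem_ofPred_eq]
  rcases cases4 hx with ⟨h0, h1⟩ | ⟨h0, h1⟩ | ⟨h0, h1⟩ | ⟨h0, h1⟩ | ⟨h0, h1⟩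
  · rw [T_A h0 h1]
    constructor
    · rintro ⟨⟨h3, h4⟩, -⟩; linarith
    · rintro ⟨⟨h3, h4⟩, -⟩; linarith
  · rw [T_B h0 h1]
    constructor
    · rintro ⟨⟨h3, h4⟩, -⟩; linarith
    · rintro ⟨⟨h3, h4⟩, -⟩; linarith
  · rw [T_C h0 h1]
    constructor
    · rintro ⟨⟨h3, h4⟩, -⟩; linarith
    · rintro ⟨⟨h3, h4⟩, -⟩; linarith
  · rw [T_D h0 (by linarith)]
    have e : ((x - 2 : ℝ) : UnitAddCircle) = (x : UnitAddCircle) := by
      have := coe_int (-2) x
      rw [← this]; congr 1; push_cast; ring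
    rw [e]
    constructor
    · rintro ⟨⟨h3, h4⟩, h5⟩; exact ⟨⟨by linarith, by linarith⟩, h5⟩
    · rintro ⟨⟨h3, h4⟩, h5⟩; exact ⟨⟨by linarith, by linarith⟩, h5⟩
  · rw [T_D (by linarith) h1]
    constructor
    · rintro ⟨⟨h3, h4⟩, -⟩; linarith
    · rintro ⟨⟨h3, h4⟩, -⟩; linarith

lemma Inv.S3 {μ : Measure ℝ} (h : Inv μ) {B : Set UnitAddCircle} (hB : MeasurableSet B) :
    μ (S 3 B) = μ (S 0 ((fun z : UnitAddCircle => z + ((-al : ℝ) : UnitAddCircle)) ⁻¹' B)) := by
  have ha := al_pos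
  have hb := al_lt
  refine h.pre (S_meas 3 hB) fun x hx => ?_
  simp only [S, mem_inter_iff, mem_Ico, mem_ofPred_eq, mem_preimage]
  have e : ∀ n : ℤ, ((x + (n - al) : ℝ) : UnitAddCircle) = (x : UnitAddCircle) + ((-al : ℝ) : UnitAddCircle) := by
    intro n
    have := coe_int n (x + -al)
    rw [← AddCircle.coe_add, ← this]; congr 1; ring
  rcases cases4 hx with ⟨h0, h1⟩ | ⟨h0, h1⟩ | ⟨h0, h1⟩ | ⟨h0, h1⟩ | ⟨h0, h1⟩
  · rw [T_A h0 h1]
    have e4 := e 4
    push_cast at e4
    rw [e4]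
    constructor
    · rintro ⟨⟨h3, h4⟩, h5⟩; exact ⟨⟨by linarith, by linarith⟩, h5⟩
    · rintro ⟨⟨h3, h4⟩, h5⟩; exact ⟨⟨by linarith, by linarith⟩, h5⟩
  · rw [T_B h0 h1]
    have e4 := e 3
    push_cast at e4
    rw [e4]
    constructor
    · rintro ⟨⟨h3, h4⟩, h5⟩; exact ⟨⟨by linarith, by linarith⟩, h5⟩
    · rintro ⟨⟨h3, h4⟩, h5⟩; exact ⟨⟨by linarith, by linarith⟩, h5⟩
  · rw [T_C h0 h1]
    constructor
    · rintro ⟨⟨h3, h4⟩, -⟩; linarith
    · rintro ⟨⟨h3, h4⟩, -⟩; linarith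
  · rw [T_D h0 (by linarith)]
    constructor
    · rintro ⟨⟨h3, h4⟩, -⟩; linarith
    · rintro ⟨⟨h3, h4⟩, -⟩; linarith
  · rw [T_D (by linarith) h1]
    constructor
    · rintro ⟨⟨h3, h4⟩, -⟩; linarith
    · rintro ⟨⟨h3, h4⟩, -⟩; linarith


lemma Inv.circ {μ : Measure ℝ} (h : Inv μ) {B : Set UnitAddCircle} (hB : MeasurableSet B) :
    μ (S 0 B) = μ (Ico 0 1) * volume B := by
  have := h.prob
  set ν : Measure UnitAddCircle := (μ.restrict (Ico 0 1)).map (fun x : ℝ => (x : UnitAddCircle))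
    with hν
  have hm : Measurable (fun x : ℝ => (x : UnitAddCircle)) := AddCircle.measurable_mk'
  have hval : ∀ {B : Set UnitAddCircle}, MeasurableSet B → ν B = μ (S 0 B) := by
    intro B hB
    rw [hν, Measure.map_apply hm hB, Measure.restrict_apply (hm hB)]
    congr 1
    ext x
    simp only [S, mem_inter_iff, mem_preimage, mem_ofPred_eq, zero_add]
    tauto
  have hfin : IsFiniteMeasure ν := by
    rw [hν]; infer_instance
  have hinv : ν.map (fun x : UnitAddCircle => x + ((-al : ℝ) : UnitAddCircle)) = ν := by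
    ext B hB
    have hmm : Measurable (fun x : UnitAddCircle => x + ((-al : ℝ) : UnitAddCircle)) := by fun_prop
    rw [Measure.map_apply hmm hB, hval (hmm hB), hval hB, ← h.S3 hB, ← h.S1 hB, ← h.S2 hB,
      ← h.S0 hB]
  have h1 := R202.rot_unique al_irr hinv
  have h2 : ν univ = μ (Ico 0 1) := by
    rw [hval MeasurableSet.univ]
    congr 1
    ext x
    simp [S]
  rw [← hval hB, ← h2]
  conv_lhs => rw [h1]
  simp

/-- the part of `E` in `[i, i+1)`, as a subset of the circle -/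
def cut (i : ℝ) (E : Set ℝ) : Set UnitAddCircle :=
  {z | ((AddCircle.measurableEquivIco 1 i z : Ico i (i + 1)) : ℝ) ∈ E}

lemma cut_meas (i : ℝ) {E : Set ℝ} (hE : MeasurableSet E) : MeasurableSet (cut i E) := by
  unfold cut
  exact (measurable_subtype_coe.comp (AddCircle.measurableEquivIco 1 i).measurable) hE

lemma S_cut (i : ℝ) (E : Set ℝ) : S i (cut i E) = Ico i (i + 1) ∩ E := by
  ext x
  simp only [S, cut, mem_inter_iff, mem_ofPred_eq]
  constructor
  · rintro ⟨h1, h2⟩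
    refine ⟨h1, ?_⟩
    have : ((AddCircle.measurableEquivIco 1 i (x : UnitAddCircle) : Ico i (i + 1)) : ℝ) = x :=
      AddCircle.equivIco_coe_of_mem (p := (1 : ℝ)) h1
    rwa [this] at h2
  · rintro ⟨h1, h2⟩
    refine ⟨h1, ?_⟩
    have : ((AddCircle.measurableEquivIco 1 i (x : UnitAddCircle) : Ico i (i + 1)) : ℝ) = x :=
      AddCircle.equivIco_coe_of_mem (p := (1 : ℝ)) h1
    rwa [this]

lemma Inv.total {μ : Measure ℝ} (h : Inv μ) {E : Set ℝ} (hE : MeasurableSet E) :
    μ E = μ (Ico 0 1) * (volume (cut 0 E) + volume (cut 1 E) + volume (cut 2 E)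
      + volume (cut 3 E)) := by
  have h0 := h.circ (cut_meas 0 hE)
  have h1 := h.circ (cut_meas 1 hE)
  have h2 := h.circ (cut_meas 2 hE)
  have h3 := h.circ (cut_meas 3 hE)
  have e1 : μ (S 1 (cut 1 E)) = μ (S 0 (cut 1 E)) := by
    rw [h.S0 (cut_meas 1 hE), h.S2 (cut_meas 1 hE)]
  have e2 : μ (S 2 (cut 2 E)) = μ (S 0 (cut 2 E)) := by
    rw [h.S0 (cut_meas 2 hE)]
  have e3 : μ (S 3 (cut 3 E)) = μ (S 0 (cut 3 E)) := by
    rw [h.S0 (cut_meas 3 hE), h.S2 (cut_meas 3 hE), h.S1 (cut_meas 3 hE)]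
  rw [mul_add, mul_add, mul_add, ← h0, ← h1, ← h2, ← h3, ← e1, ← e2, ← e3]
  rw [S_cut, S_cut, S_cut, S_cut]
  have hfull : μ E = μ (Ico 0 4 ∩ E) := by
    apply measure_congr
    have : ∀ᵐ x ∂μ, x ∈ Ico (0 : ℝ) 4 := by
      rw [ae_iff]; exact h.supp
    filter_upwards [this] with x hx
    exact propext ⟨fun hxE => ⟨hx, hxE⟩, fun hxE => hxE.2⟩
  rw [hfull]
  have u : Ico (0 : ℝ) 4 ∩ E = (((Ico 0 (0 + 1) ∩ E) ∪ (Ico 1 (1 + 1) ∩ E)) ∪ (Ico 2 (2 + 1) ∩ E)) ∪
      (Ico 3 (3 + 1) ∩ E) := by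
    ext x
    simp only [mem_inter_iff, mem_union, mem_Ico]
    constructor
    · rintro ⟨⟨h0, h4⟩, hx⟩
      rcases lt_or_ge x 1 with a1 | a1
      · exact Or.inl (Or.inl (Or.inl ⟨⟨h0, by linarith⟩, hx⟩))
      rcases lt_or_ge x 2 with a2 | a2
      · exact Or.inl (Or.inl (Or.inr ⟨⟨a1, by linarith⟩, hx⟩))
      rcases lt_or_ge x 3 with a3 | a3
      · exact Or.inl (Or.inr ⟨⟨a2, by linarith⟩, hx⟩)
      · exact Or.inr ⟨⟨a3, by linarith⟩, hx⟩
    · rintro (((⟨⟨h0, h4⟩, hx⟩ | ⟨⟨h0, h4⟩, hx⟩) | ⟨⟨h0, h4⟩, hx⟩) | ⟨⟨h0, h4⟩, hx⟩) <;>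
        exact ⟨⟨by linarith, by linarith⟩, hx⟩
  rw [u, measure_union, measure_union, measure_union]
  · rw [Set.disjoint_left]
    rintro x ⟨⟨h0, h4⟩, -⟩ ⟨⟨h5, h6⟩, -⟩; linarith
  · exact measurableSet_Ico.inter hE
  · rw [Set.disjoint_left]
    rintro x (⟨⟨h0, h4⟩, -⟩ | ⟨⟨h0, h4⟩, -⟩) ⟨⟨h5, h6⟩, -⟩ <;> linarith
  · exact measurableSet_Ico.inter hE
  · rw [Set.disjoint_left]
    rintro x ((⟨⟨h0, h4⟩, -⟩ | ⟨⟨h0, h4⟩, -⟩) | ⟨⟨h0, h4⟩, -⟩) ⟨⟨h5, h6⟩, -⟩ <;> linarith
  · exact measurableSet_Ico.inter hE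

lemma Inv.unique {μ μ' : Measure ℝ} (h : Inv μ) (h' : Inv μ') : μ = μ' := by
  have key : ∀ {ρ : Measure ℝ}, Inv ρ → ρ (Ico 0 1) = 1 / 4 := by
    intro ρ hρ
    have := hρ.prob
    have h1 := hρ.total MeasurableSet.univ
    have hc : ∀ i : ℝ, cut i univ = univ := by
      intro i; ext x; simp [cut]
    rw [hc, hc, hc, hc, measure_univ] at h1
    have h2 : (volume (univ : Set UnitAddCircle)) = 1 := by simp
    rw [h2] at h1
    have h3 : (1 : ENNReal) + 1 + 1 + 1 = 4 := by norm_num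
    rw [h3] at h1
    rw [ENNReal.eq_div_iff (by norm_num) (by norm_num), mul_comm]
    exact h1.symm
  ext E hE
  rw [h.total hE, h'.total hE, key h, key h']

lemma map_piece (l r c : ℝ) (hT : ∀ x ∈ Ico l r, T x = x + c) :
    (volume.restrict (Ico l r)).map T = volume.restrict (Ico (l + c) (r + c)) := by
  have h1 : T =ᵐ[volume.restrict (Ico l r)] (fun x => x + c) := by
    filter_upwards [ae_restrict_mem measurableSet_Ico] with x hx
    exact hT x hx
  rw [Measure.map_congr h1]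
  have h2 := (measurePreserving_add_right (volume : Measure ℝ) c).restrict_preimage
    (s := Ico (l + c) (r + c)) measurableSet_Ico
  rw [Set.preimage_add_const_Ico, add_sub_cancel_right, add_sub_cancel_right] at h2
  exact h2.map_eq

lemma restrict_split (l m r : ℝ) (h1 : l ≤ m) (h2 : m ≤ r) :
    (volume : Measure ℝ).restrict (Ico l r) = volume.restrict (Ico l m) + volume.restrict (Ico m r) := by
  rw [← Ico_union_Ico_eq_Ico h1 h2, Measure.restrict_union _ measurableSet_Ico]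
  rw [Set.disjoint_left]
  rintro x ⟨-, h4⟩ ⟨h5, -⟩; linarith

lemma exists_inv : Inv ((1 / 4 : ENNReal) • (volume : Measure ℝ).restrict (Ico 0 4)) := by
  have ha := al_pos
  have hb := al_lt
  refine ⟨⟨?_⟩, ?_, ?_⟩
  · rw [Measure.smul_apply, Measure.restrict_apply MeasurableSet.univ, univ_inter, Real.volume_Ico,
      smul_eq_mul, sub_zero]
    have : ENNReal.ofReal 4 = 4 := by norm_num
    rw [this, ENNReal.div_mul_cancel (by norm_num) (by norm_num)]
  · rw [Measure.smul_apply, Measure.restrict_apply measurableSet_Ico.compl, compl_inter_self,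
      measure_empty, smul_zero]
  · rw [Measure.map_smul]
    congr 1
    have s1 := restrict_split 0 al 4 ha.le (by linarith)
    have s2 := restrict_split al 1 4 hb.le (by norm_num)
    have s3 := restrict_split 1 2 4 (by norm_num) (by norm_num)
    have m1 := map_piece 0 al (4 - al) (fun x hx => T_A hx.1 hx.2)
    have m2 := map_piece al 1 (3 - al) (fun x hx => T_B hx.1 hx.2)
    have m3 := map_piece 1 2 1 (fun x hx => T_C hx.1 hx.2)
    have m4 := map_piece 2 4 (-2) (fun x hx => by rw [T_D hx.1 hx.2]; ring)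
    have hTm : Measurable T := G_meas _ _ _ _
    have r1 := restrict_split 0 2 4 (by norm_num) (by norm_num)
    have r2 := restrict_split 2 3 4 (by norm_num) (by norm_num)
    have r3 := restrict_split 3 (4 - al) 4 (by linarith) (by linarith)
    conv_lhs => rw [s1, s2, s3]
    rw [Measure.map_add _ _ hTm, Measure.map_add _ _ hTm, Measure.map_add _ _ hTm, m1, m2, m3, m4]
    rw [r1, r2, r3]
    have e1 : (0 : ℝ) + (4 - al) = 4 - al := by ring
    have e2 : al + (4 - al) = 4 := by ring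
    have e3 : al + (3 - al) = 3 := by ring
    have e4 : (1 : ℝ) + (3 - al) = 4 - al := by ring
    have e5 : (1 : ℝ) + 1 = 2 := by ring
    have e6 : (2 : ℝ) + 1 = 3 := by ring
    have e7 : (2 : ℝ) + -2 = 0 := by ring
    have e8 : (4 : ℝ) + -2 = 2 := by ring
    rw [e1, e2, e3, e4, e5, e6, e7, e8]
    abel

lemma ue_zero : UEc 4 Fin.revPerm ![al, 1 - al, 1, 2] := by
  unfold UEc
  rw [F_eq, sum_eq]
  have e : al + (1 - al) + 1 + 2 = 4 := by ring
  rw [e]
  have h := exists_inv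
  exact ⟨_, ⟨h.prob, h.supp, h.inv⟩, fun μ hμ => Inv.unique ⟨hμ.1, hμ.2.1, hμ.2.2⟩ h⟩

/-- the periodic orbit measures of the perturbed exchange -/
noncomputable def per (x : ℝ) : Measure ℝ :=
  (1 / 3 : ENNReal) • (Measure.dirac x + Measure.dirac (x + 1) + Measure.dirac (x + 2))

lemma not_ue {t : ℝ} (h0 : 0 < t) (h1 : t < 1 - al) :
    ¬ UEc 4 Fin.revPerm ![al, 1 - al - t, 1 + t, 2 - t] := by
  have ha := al_pos
  unfold UEc
  rw [F_eq, sum_eq]
  have e : al + (1 - al - t) + (1 + t) + (2 - t) = 4 - t := by ring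
  rw [e]
  intro hU
  have hin : ∀ x : ℝ, 1 - t ≤ x → x < 1 → IsProbabilityMeasure (per x) ∧
      per x (Ico (0 : ℝ) (4 - t))ᶜ = 0 ∧
      Measure.map (G al (1 - al - t) (1 + t) (2 - t)) (per x) = per x := by
    intro x hx0 hx1
    refine ⟨⟨?_⟩, ?_, ?_⟩
    · simp only [per, Measure.smul_apply, Measure.add_apply, measure_univ, smul_eq_mul]
      have : (1 : ENNReal) + 1 + 1 = 3 := by norm_num
      rw [this, ENNReal.div_mul_cancel (by norm_num) (by norm_num)]
    · simp only [per, Measure.smul_apply, Measure.add_apply, smul_eq_mul]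
      rw [Measure.dirac_apply' _ measurableSet_Ico.compl, Measure.dirac_apply' _
        measurableSet_Ico.compl, Measure.dirac_apply' _ measurableSet_Ico.compl]
      rw [indicator_of_notMem, indicator_of_notMem, indicator_of_notMem]
      · simp
      · simp only [mem_compl_iff, mem_Ico, not_not]; constructor <;> linarith
      · simp only [mem_compl_iff, mem_Ico, not_not]; constructor <;> linarith
      · simp only [mem_compl_iff, mem_Ico, not_not]; constructor <;> linarith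
    · have hm := G_meas al (1 - al - t) (1 + t) (2 - t)
      unfold per
      rw [Measure.map_smul, Measure.map_add _ _ hm, Measure.map_add _ _ hm, Measure.map_dirac' hm,
        Measure.map_dirac' hm, Measure.map_dirac' hm]
      rw [G_C (by linarith) (by linarith) (by linarith), G_C (by linarith) (by linarith)
        (by linarith), G_D (by linarith) (by linarith) (by linarith) (by linarith)]
      have e1 : x + (2 - t - (al + (1 - al - t))) = x + 1 := by ring
      have e2 : x + 1 + (2 - t - (al + (1 - al - t))) = x + 2 := by ring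
      have e3 : x + 2 - (al + (1 - al - t) + (1 + t)) = x := by ring
      rw [e1, e2, e3]
      congr 1
      abel
  have heq := hU.unique (hin (1 - t) le_rfl (by linarith)) (hin (1 - t / 2) (by linarith) (by linarith))
  have h2 := congrArg (fun m : Measure ℝ => m {1 - t}) heq
  simp only [per, Measure.smul_apply, Measure.add_apply, smul_eq_mul] at h2
  rw [Measure.dirac_apply' _ (measurableSet_singleton _), Measure.dirac_apply' _
    (measurableSet_singleton _), Measure.dirac_apply' _ (measurableSet_singleton _),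
    Measure.dirac_apply' _ (measurableSet_singleton _), Measure.dirac_apply' _
    (measurableSet_singleton _), Measure.dirac_apply' _ (measurableSet_singleton _)] at h2
  have n1 : (1 - t / 2 : ℝ) ∉ ({1 - t} : Set ℝ) := by
    rw [mem_singleton_iff]; intro h; linarith
  have n2 : (1 - t / 2 + 1 : ℝ) ∉ ({1 - t} : Set ℝ) := by
    rw [mem_singleton_iff]; intro h; linarith
  have n3 : (1 - t / 2 + 2 : ℝ) ∉ ({1 - t} : Set ℝ) := by
    rw [mem_singleton_iff]; intro h; linarith
  rw [indicator_of_notMem n1, indicator_of_notMem n2, indicator_of_notMem n3,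
    indicator_of_mem (mem_singleton _)] at h2
  simp at h2

/-- The negation of the preceding statement: For any permutation and any positive length vector a whose interval exchange has a unique invariant probability measure, and any direction b, there is ε>0 such that for almost every t in (−ε,ε) the lengths a+tb are again uniquely ergodic. -/
theorem result :
    ¬ (∀ (d : ℕ) (π : Equiv.Perm (Fin d)) (UE : (Fin d → ℝ) → Prop),
    (∀ v : Fin d → ℝ, UE v ↔ ∃! μ : MeasureTheory.Measure ℝ,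
        MeasureTheory.IsProbabilityMeasure μ ∧
        μ ((Set.Ico (0 : ℝ) (∑ i : Fin d, v i))ᶜ) = 0 ∧
        MeasureTheory.Measure.map (fun x : ℝ => x + ∑ j : Fin d,
          (Set.Ico (∑ i ∈ (Finset.univ : Finset (Fin d)).filter (fun i : Fin d => i < j), v i)
             ((∑ i ∈ (Finset.univ : Finset (Fin d)).filter (fun i : Fin d => i < j), v i) + v j)).indicator
            (fun _ : ℝ => (∑ i ∈ (Finset.univ : Finset (Fin d)).filter (fun i : Fin d => π i < π j), v i) -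
                      ∑ i ∈ (Finset.univ : Finset (Fin d)).filter (fun i : Fin d => i < j), v i) x) μ = μ) →
    ∀ a b : Fin d → ℝ, (∀ i, 0 < a i) → UE a →
      ∃ ε : ℝ, 0 < ε ∧
        ∀ᵐ t : ℝ ∂(MeasureTheory.volume.restrict (Set.Ioo (-ε) ε)), UE (a + t • b)) := by
  intro H
  have ha := al_pos
  have hb := al_lt
  obtain ⟨ε, hε, hae⟩ := H 4 Fin.revPerm (UEc 4 Fin.revPerm) (fun v => Iff.rfl)
    ![al, 1 - al, 1, 2] ![0, -1, 1, -1] (by
      intro i
      fin_cases i
      · exact ha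
      · show (0 : ℝ) < 1 - al
        linarith
      · show (0 : ℝ) < 1
        norm_num
      · show (0 : ℝ) < 2
        norm_num) ue_zero
  rw [ae_restrict_iff' measurableSet_Ioo] at hae
  have hpos : 0 < min ε (1 - al) := lt_min hε (by linarith)
  have hnull : volume (Ioo (0 : ℝ) (min ε (1 - al))) = 0 := by
    refine measure_mono_null ?_ (ae_iff.1 hae)
    intro t ht hcon
    have h1 : t ∈ Ioo (-ε) ε := ⟨by linarith [ht.1], ht.2.trans_le (min_le_left _ _)⟩
    have h2 := hcon h1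
    have e : (![al, 1 - al, 1, 2] + t • ![0, -1, 1, -1] : Fin 4 → ℝ)
        = ![al, 1 - al - t, 1 + t, 2 - t] := by
      funext i
      fin_cases i <;> simp <;> ring
    rw [e] at h2
    exact not_ue ht.1 (ht.2.trans_le (min_le_right _ _)) h2
  rw [Real.volume_Ioo, sub_zero, ENNReal.ofReal_eq_zero] at hnull
  linarith

end Pool.Agent.S04554
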