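import Pool.Statements.S04606
import Pool.Agent.Results.MP_4bee3f_an.EndpointGainFails

set_option autoImplicit false
open MeasureTheory
open Pool Pool.MP_4bee3f_an

namespace Pool.Agent.S04606

/-- The negation of the preceding statement: For all n≥2, k, open connected Ω⊆ℝⁿ, and linear elliptic systems with a locally Lipschitz a.e. solution u whose a.e. Jacobian equals a nonvanishing J: if A,B,c,J are C^{k,1} then u is C^{k+1,1}, and if A,B,c,J are C^{k+1} then u is C^{k+2}. -/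
theorem result :
    ¬ (∀ (n : ℕ), 2 ≤ n → ∀ (k : ℕ) (Ω : Set (EuclideanSpace ℝ (Fin n))), IsOpen Ω → IsConnected Ω →
  ∀ (A : Fin n → Fin n → Fin n → EuclideanSpace ℝ (Fin n) → ℝ)
    (B : Fin n → Fin n → EuclideanSpace ℝ (Fin n) → ℝ)
    (c : Fin n → EuclideanSpace ℝ (Fin n) → ℝ)
    (u : Fin n → EuclideanSpace ℝ (Fin n) → ℝ)
    (J : EuclideanSpace ℝ (Fin n) → ℝ),
  (∀ x ∈ Ω, ∀ ξ : Fin n → ℝ, ξ ≠ 0 →
      (Matrix.of fun i l => ∑ j, ξ j * A j i l x).det ≠ 0) →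
  (∀ i, ∀ x ∈ Ω, ∃ C : NNReal, ∃ U ∈ nhds x, LipschitzOnWith C (u i) (U ∩ Ω)) →
  (∀ᵐ x ∂(volume.restrict Ω), ∀ i,
      ∑ j, ∑ l, A j i l x * fderiv ℝ (u l) x (EuclideanSpace.single j 1)
        + ∑ l, B i l x * u l x = c i x) →
  (∀ x ∈ Ω, J x ≠ 0) →
  (∀ᵐ x ∂(volume.restrict Ω),
      (Matrix.of fun i j => fderiv ℝ (u i) x (EuclideanSpace.single j 1)).det = J x) →
  (((∀ j i l, ContDiffOn ℝ k (A j i l) Ω ∧ ∀ x ∈ Ω, ∃ C : NNReal, ∃ U ∈ nhds x,
        LipschitzOnWith C (iteratedFDeriv ℝ k (A j i l)) (U ∩ Ω)) ∧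
    (∀ i l, ContDiffOn ℝ k (B i l) Ω ∧ ∀ x ∈ Ω, ∃ C : NNReal, ∃ U ∈ nhds x,
        LipschitzOnWith C (iteratedFDeriv ℝ k (B i l)) (U ∩ Ω)) ∧
    (∀ i, ContDiffOn ℝ k (c i) Ω ∧ ∀ x ∈ Ω, ∃ C : NNReal, ∃ U ∈ nhds x,
        LipschitzOnWith C (iteratedFDeriv ℝ k (c i)) (U ∩ Ω)) ∧
    (ContDiffOn ℝ k J Ω ∧ ∀ x ∈ Ω, ∃ C : NNReal, ∃ U ∈ nhds x,
        LipschitzOnWith C (iteratedFDeriv ℝ k J) (U ∩ Ω)) →
    ∀ i, ContDiffOn ℝ (k + 1) (u i) Ω ∧ ∀ x ∈ Ω, ∃ C : NNReal, ∃ U ∈ nhds x,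
        LipschitzOnWith C (iteratedFDeriv ℝ (k + 1) (u i)) (U ∩ Ω)) ∧
   ((∀ j i l, ContDiffOn ℝ (k + 1) (A j i l) Ω) ∧
    (∀ i l, ContDiffOn ℝ (k + 1) (B i l) Ω) ∧
    (∀ i, ContDiffOn ℝ (k + 1) (c i) Ω) ∧
    ContDiffOn ℝ (k + 1) J Ω →
    ∀ i, ContDiffOn ℝ (k + 2) (u i) Ω))) := by
  intro H
  obtain ⟨Ω, A, B, c, u, x₀, hop, hcon, hx0, hell, hA, hB, hc, ⟨hlip, hsol⟩, hjac0, hjacs, hnot⟩ :=
    (Pool.Agent.Results.MP_4bee3f_an.EndpointGainFails.result 0).2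
  have hcomp : ∀ (x : EuclideanSpace ℝ (Fin 2)), DifferentiableAt ℝ u x → ∀ (l : Fin 2)
      (v : EuclideanSpace ℝ (Fin 2)), fderiv ℝ (fun y => u y l) x v = fderiv ℝ u x v l := by
    intro x hx l v
    have h1 : HasFDerivAt (fun y => u y l)
        ((EuclideanSpace.proj l : EuclideanSpace ℝ (Fin 2) →L[ℝ] ℝ).comp (fderiv ℝ u x)) x :=
      (EuclideanSpace.proj l : EuclideanSpace ℝ (Fin 2) →L[ℝ] ℝ).hasFDerivAt.comp x hx.hasFDerivAt
    rw [h1.fderiv]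
    rfl
  have key := H 2 le_rfl 0 Ω hop hcon (fun j i l x => A j x i l) (fun i l x => B x i l)
    (fun i x => c x i) (fun i x => u x i)
    (Pool.Agent.Results.MP_4bee3f_an.EndpointGainFails.jac u) ?_ ?_ ?_ hjac0 ?_
  · have h2 := key.2 ⟨fun j i l => by simpa using (hA j i l).1, fun i l => by simpa using (hB i l).1,
      fun i => by simpa using (hc i).1, by simpa using hjacs.1⟩
    refine hnot Ω hop hx0 subset_rfl ?_
    refine Pool.Agent.Results.MP_4bee3f_an.EndpointGainFails.HolderClass.of_zero hop ?_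
    rw [contDiffOn_euclidean]
    intro i
    have h3 := h2 i
    simpa using h3
  · intro x hx ξ hξ
    have h := hell x hx ξ hξ
    have e : (Matrix.of fun i l => ∑ j, ξ j * A j x i l) = ∑ j, ξ j • A j x := by
      ext i l
      simp [Matrix.sum_apply]
    rw [e]
    exact h
  · intro i x hx
    obtain ⟨K, t, ht, hK⟩ := hlip hx
    rw [mem_nhdsWithin] at ht
    obtain ⟨V, hV, hxV, hVt⟩ := ht
    refine ⟨K, V, hV.mem_nhds hxV, ?_⟩
    intro y hy z hz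
    have h4 := hK (hVt hy) (hVt hz)
    refine le_trans ?_ h4
    have h5 : LipschitzWith 1 (fun w : EuclideanSpace ℝ (Fin 2) => w i) := by
      refine LipschitzWith.of_dist_le_mul fun a b => ?_
      rw [NNReal.coe_one, one_mul]
      have := EuclideanSpace.dist_eq a b
      rw [this]
      have h6 : (dist (a i) (b i)) ^ 2 ≤ ∑ j, dist (a j) (b j) ^ 2 :=
        Finset.single_le_sum (f := fun j => dist (a j) (b j) ^ 2) (fun j _ => sq_nonneg _)
          (Finset.mem_univ i)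
      exact Real.le_sqrt_of_sq_le h6
    have h7 := h5 (u y) (u z)
    simpa using h7
  · filter_upwards [hsol] with x hx i
    obtain ⟨hd, he⟩ := hx
    have h8 := congrFun he i
    simp only [Pi.add_apply, Finset.sum_apply, Matrix.mulVec, dotProduct,
      Pool.Agent.Results.MP_4bee3f_an.EndpointGainFails.pd] at h8
    rw [← h8]
    congr 1
    refine Finset.sum_congr rfl fun j _ => Finset.sum_congr rfl fun l _ => ?_
    rw [hcomp x hd]
  · filter_upwards [hsol] with x hx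
    obtain ⟨hd, _⟩ := hx
    unfold Pool.Agent.Results.MP_4bee3f_an.EndpointGainFails.jac
    congr 1
    ext i j
    simp only [Matrix.of_apply, Pool.Agent.Results.MP_4bee3f_an.EndpointGainFails.pd]
    rw [hcomp x hd]

end Pool.Agent.S04606
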