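import Pool.Statements.S04624
-- import your own Pool.Agent.* helpers here

set_option autoImplicit false
open MeasureTheory
open Pool Pool.MP_4d58d7_an

namespace Pool.Agent.S04624

/-- `u` -/
noncomputable def cu : ℝ := 201 / 200
/-- `v` -/
noncomputable def cv : ℝ := 1 / 200

/-- The sketching matrix with off-diagonal entries `s * v`. -/
noncomputable def om (s : ℝ) : Fin 2 → Fin 2 → ℝ := ![![cu, s * cv], ![s * cv, cu]]

/-- The matrix `A = e₁`. -/
def mA : Matrix (Fin 2) (Fin 1) ℝ := !![1; 0]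

/-- The matrix `B = e₁ + e₂`. -/
def mB : Matrix (Fin 2) (Fin 1) ℝ := !![1; 1]

/-- The good event of the statement for the above `A`, `B`, with `C * ε = e`. -/
def Good (e : ℝ) (ω : Fin 2 → Fin 2 → ℝ) : Prop :=
  ∀ G : Matrix (Fin 1) (Fin 2) ℝ,
          (Matrix.transpose (Matrix.of ω) * mA) * G * (Matrix.transpose (Matrix.of ω) * mA)
              = Matrix.transpose (Matrix.of ω) * mA →
          G * (Matrix.transpose (Matrix.of ω) * mA) * G = G →
          Matrix.transpose ((Matrix.transpose (Matrix.of ω) * mA) * G)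
              = (Matrix.transpose (Matrix.of ω) * mA) * G →
          Matrix.transpose (G * (Matrix.transpose (Matrix.of ω) * mA))
              = G * (Matrix.transpose (Matrix.of ω) * mA) →
          ∀ X : Matrix (Fin 1) (Fin 1) ℝ,
            Real.sqrt (∑ i, ∑ j, ((mA * (G * Matrix.transpose (Matrix.of ω) * mB) - mB) i j) ^ 2) ≤
              (1 + e) * Real.sqrt (∑ i, ∑ j, ((mA * X - mB) i j) ^ 2)

lemma not_good_zero (e : ℝ) (he : e < 1 / 10) : ¬ Good e 0 := by
  intro h
  have := h 0 (by simp) (by simp) (by simp) (by simp) !![1]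
  simp [mA, mB, Matrix.of_apply, Fin.sum_univ_succ] at this
  have h2 : Real.sqrt (1 + 1) ≤ 1 + e := this
  have h3 : (6 / 5 : ℝ) < Real.sqrt (1 + 1) := by
    rw [Real.lt_sqrt (by norm_num)]; norm_num
  have h4 : (6 / 5 : ℝ) < 1 + e := lt_of_lt_of_le h3 h2
  linarith

lemma not_good_om (e s : ℝ) (hs : s ^ 2 = 1) (he : e < 1 / 100000) : ¬ Good e (om s) := by
  intro h
  have hA : Matrix.transpose (Matrix.of (om s)) * mA = !![cu; s * cv] := by
    ext i j
    fin_cases i <;> fin_cases j <;> simp [om, mA, Matrix.mul_apply, Fin.sum_univ_succ]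
  have hn : cu * cu + s * cv * (s * cv) = 40402 / 40000 := by
    have : s * cv * (s * cv) = s ^ 2 * cv ^ 2 := by ring
    rw [this, hs]; unfold cu cv; norm_num
  have := h ((40000 / 40402 : ℝ) • !![cu, s * cv]) (by
      rw [hA]; ext i j
      fin_cases i <;> fin_cases j <;> simp [Matrix.mul_apply] <;>
        first
        | linear_combination (40000 / 40402 * cu) * hn
        | linear_combination (40000 / 40402 * (s * cv)) * hn)
    (by
      rw [hA]; ext i j
      fin_cases i <;> fin_cases j <;> simp [Matrix.mul_apply] <;>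
        first
        | linear_combination (40000 / 40402 * (40000 / 40402) * cu) * hn
        | linear_combination (40000 / 40402 * (40000 / 40402) * (s * cv)) * hn)
    (by
      rw [hA]; ext i j
      fin_cases i <;> fin_cases j <;> simp [Matrix.mul_apply] <;> ring)
    (by
      rw [hA]; ext i j
      fin_cases i <;> fin_cases j <;> simp [Matrix.mul_apply]) !![1]
  have e1 : (((40000 / 40402 : ℝ) • !![cu, s * cv] : Matrix (Fin 1) (Fin 2) ℝ) *
      Matrix.transpose (Matrix.of (om s)) * mB) = !![1 + s * (402 / 40402)] := by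
    ext i j
    fin_cases i; fin_cases j
    simp only [Matrix.mul_apply, Fin.sum_univ_two, Matrix.smul_apply, Matrix.transpose_apply,
      Matrix.of_apply, om, mB]
    simp
    have h1 : cu * (s * cv) = s * (201 / 40000) := by unfold cu cv; ring
    linear_combination (40000 / 40402 : ℝ) * hn + (2 * 40000 / 40402 : ℝ) * h1
  rw [e1] at this
  simp [mA, mB, Fin.sum_univ_succ] at this
  have h2 : (s * (402 / 40402)) ^ 2 = (402 / 40402) ^ 2 := by
    rw [mul_pow, hs, one_mul]
  rw [h2] at this
  have h3 : (1 + 1 / 100000 : ℝ) < Real.sqrt ((402 / 40402) ^ 2 + 1) := by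
    rw [Real.lt_sqrt (by norm_num)]; norm_num
  linarith

/-- The probability law of the sketching matrix: `om 1` and `om (-1)` with probability
`20000 / 40402` each, and `0` otherwise. -/
noncomputable def law : Measure (Fin 2 → Fin 2 → ℝ) :=
  ENNReal.ofReal (20000 / 40402) • Measure.dirac (om 1) +
    (ENNReal.ofReal (20000 / 40402) • Measure.dirac (om (-1)) +
      ENNReal.ofReal (402 / 40402) • Measure.dirac 0)

instance : IsProbabilityMeasure law := by
  constructor
  unfold law
  simp only [Measure.add_apply, Measure.smul_apply, measure_univ, smul_eq_mul, mul_one]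
  rw [← ENNReal.ofReal_add (by norm_num) (by norm_num),
    ← ENNReal.ofReal_add (by norm_num) (by norm_num)]
  norm_num

lemma integral_law (f : (Fin 2 → Fin 2 → ℝ) → ℝ) :
    ∫ ω, f ω ∂law = 20000 / 40402 * f (om 1) + (20000 / 40402 * f (om (-1)) +
      402 / 40402 * f 0) := by
  have hi : ∀ a : Fin 2 → Fin 2 → ℝ, Integrable f (Measure.dirac a) := fun a =>
    integrable_dirac (by simp)
  have hs : ∀ (r : ℝ) (a : Fin 2 → Fin 2 → ℝ),
      Integrable f (ENNReal.ofReal r • Measure.dirac a) := fun r a =>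
    (hi a).smul_measure ENNReal.ofReal_ne_top
  unfold law
  rw [integral_add_measure (hs _ _) ((hs _ _).add_measure (hs _ _)),
    integral_add_measure (hs _ _) (hs _ _)]
  simp only [integral_smul_measure, integral_dirac, smul_eq_mul]
  rw [ENNReal.toReal_ofReal (by norm_num), ENNReal.toReal_ofReal (by norm_num)]

lemma quad_om (s : ℝ) (hs : s ^ 2 = 1) (x : Fin 2 → ℝ) :
    ∑ j, (∑ i, om s i j * x i) ^ 2 =
      (40402 / 40000) * (x 0 ^ 2 + x 1 ^ 2) + s * (804 / 40000) * (x 0 * x 1) := by
  simp only [Fin.sum_univ_two, om]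
  simp
  have h1 : (cu * x 0 + s * cv * x 1) ^ 2 + (s * cv * x 0 + cu * x 1) ^ 2
      = (cu ^ 2 + s ^ 2 * cv ^ 2) * (x 0 ^ 2 + x 1 ^ 2) + s * (4 * cu * cv) * (x 0 * x 1) := by
    ring
  rw [h1, hs]
  unfold cu cv
  ring

lemma quad_om_ge (s : ℝ) (hs : s ^ 2 = 1) (x : Fin 2 → ℝ) :
    ∑ i, x i ^ 2 ≤ ∑ j, (∑ i, om s i j * x i) ^ 2 := by
  rw [quad_om s hs x, Fin.sum_univ_two]
  nlinarith [sq_nonneg (x 0 + s * x 1), hs, sq_nonneg (x 0), sq_nonneg (x 1)]

/-- The negation of the preceding statement: There are constants C and c₀>0 such that, for any isotropic n×k random matrix Ω that is a dimension-d OSI with injectivity 1−ε and failure 0.01, sketch-and-solve has error at most (1+Cε)·OPT with probability at least c₀. -/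
theorem result :
    ¬ (∃ C : ℝ, ∃ c₀ : ℝ, 0 < c₀ ∧
    ∀ (n d p k : ℕ), 0 < n → 0 < d → 0 < p → 0 < k →
    ∀ ε : ℝ, 0 < ε → ε < 1 →
    ∀ (A : Matrix (Fin n) (Fin d) ℝ), A.rank = d →
    ∀ (B : Matrix (Fin n) (Fin p) ℝ),
    ∀ (μ : Measure (Fin n → Fin k → ℝ)) [IsProbabilityMeasure μ],
      (∀ x : Fin n → ℝ, ∫ ω, (∑ j, (∑ i, ω i j * x i) ^ 2) ∂μ = ∑ i, x i ^ 2) →
      (∀ V : Submodule ℝ (Fin n → ℝ), Module.finrank ℝ V = d →
         ENNReal.ofReal (99 / 100) ≤
           μ {ω | ∀ x ∈ V, (1 - ε) * ∑ i, x i ^ 2 ≤ ∑ j, (∑ i, ω i j * x i) ^ 2}) →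
      ENNReal.ofReal c₀ ≤ μ {ω | ∀ G : Matrix (Fin d) (Fin k) ℝ,
          (Matrix.transpose (Matrix.of ω) * A) * G * (Matrix.transpose (Matrix.of ω) * A)
              = Matrix.transpose (Matrix.of ω) * A →
          G * (Matrix.transpose (Matrix.of ω) * A) * G = G →
          Matrix.transpose ((Matrix.transpose (Matrix.of ω) * A) * G)
              = (Matrix.transpose (Matrix.of ω) * A) * G →
          Matrix.transpose (G * (Matrix.transpose (Matrix.of ω) * A))
              = G * (Matrix.transpose (Matrix.of ω) * A) →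
          ∀ X : Matrix (Fin d) (Fin p) ℝ,
            Real.sqrt (∑ i, ∑ j, ((A * (G * Matrix.transpose (Matrix.of ω) * B) - B) i j) ^ 2) ≤
              (1 + C * ε) * Real.sqrt (∑ i, ∑ j, ((A * X - B) i j) ^ 2)}) := by
  rintro ⟨C, c₀, hc₀, H⟩
  -- choose `ε` with `C * ε < 1 / 100000`
  obtain ⟨ε, hε0, hε1, hCε⟩ : ∃ ε : ℝ, 0 < ε ∧ ε < 1 ∧ C * ε < 1 / 100000 := by
    refine ⟨1 / (200000 * (|C| + 1)), by positivity, ?_, ?_⟩
    · rw [div_lt_one (by positivity)]
      nlinarith [abs_nonneg C]
    · rw [mul_one_div, div_lt_div_iff₀ (by positivity) (by norm_num)]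
      nlinarith [le_abs_self C, abs_nonneg C]
  have hrank : mA.rank = 1 := by
    refine le_antisymm ?_ ?_
    · simpa using Matrix.rank_le_width mA
    · have h1 : mA.transpose * mA = 1 := by
        ext i j
        fin_cases i; fin_cases j
        simp [mA, Matrix.mul_apply, Fin.sum_univ_two]
      have h2 := Matrix.rank_mul_le_right mA.transpose mA
      rw [h1, Matrix.rank_one] at h2
      simpa using h2
  have key := H 2 1 1 2 (by norm_num) (by norm_num) (by norm_num) (by norm_num) ε hε0 hε1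
    mA hrank mB law ?_ ?_
  · have hbad : law {ω | Good (C * ε) ω} = 0 := by
      have h1 : om 1 ∉ {ω | Good (C * ε) ω} := not_good_om _ 1 (by norm_num) hCε
      have h2 : om (-1) ∉ {ω | Good (C * ε) ω} := not_good_om _ (-1) (by norm_num) hCε
      have h3 : (0 : Fin 2 → Fin 2 → ℝ) ∉ {ω | Good (C * ε) ω} :=
        not_good_zero _ (by linarith)
      unfold law
      simp only [Measure.add_apply, Measure.smul_apply, Measure.dirac_apply,
        Set.indicator_of_notMem h1, Set.indicator_of_notMem h2, Set.indicator_of_notMem h3,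
        smul_zero, add_zero]
    have hpos : 0 < ENNReal.ofReal c₀ := ENNReal.ofReal_pos.2 hc₀
    have : ENNReal.ofReal c₀ ≤ law {ω | Good (C * ε) ω} := key
    rw [hbad] at this
    exact absurd this (not_le.2 hpos)
  · intro x
    rw [integral_law, quad_om 1 (by norm_num), quad_om (-1) (by norm_num), Fin.sum_univ_two]
    simp
    ring
  · intro V _
    have hmem : ∀ s : ℝ, s ^ 2 = 1 → om s ∈ {ω : Fin 2 → Fin 2 → ℝ |
        ∀ x ∈ V, (1 - ε) * ∑ i, x i ^ 2 ≤ ∑ j, (∑ i, ω i j * x i) ^ 2} := by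
      intro s hs x _
      refine le_trans ?_ (quad_om_ge s hs x)
      have : 0 ≤ ∑ i, x i ^ 2 := Finset.sum_nonneg fun i _ => sq_nonneg _
      nlinarith
    have h1 := hmem 1 (by norm_num)
    have h2 := hmem (-1) (by norm_num)
    unfold law
    simp only [Measure.add_apply, Measure.smul_apply, Measure.dirac_apply,
      Set.indicator_of_mem h1, Set.indicator_of_mem h2, Pi.one_apply, smul_eq_mul, mul_one]
    rw [← add_assoc, ← ENNReal.ofReal_add (by norm_num) (by norm_num)]
    refine le_trans (ENNReal.ofReal_le_ofReal (by norm_num)) le_self_add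

end Pool.Agent.S04624
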