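import Pool.Statements.S04649
import Pool.Agent.R260.LacE

set_option autoImplicit false
open Pool Pool.MP_5053af_an

namespace Pool.Agent.S04649

/-- For every sequence of positive integers with n_{k+1} ≥ q n_k for some q>1, the set of x in [0,2π) at which the partial sums of cos(n_k x) come arbitrarily close to every real number infinitely often has Lebesgue measure 2π. -/
theorem result :
    ∀ (n : ℕ → ℕ) (q : ℝ), 1 < q → (∀ k, 0 < n k) →
      (∀ k, q * (n k : ℝ) ≤ (n (k + 1) : ℝ)) →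
      MeasureTheory.volume
        {x : ℝ | x ∈ Set.Ico 0 (2 * Real.pi) ∧
          ∀ ξ : ℝ, ∀ ε : ℝ, 0 < ε →
            ∃ᶠ m in Filter.atTop,
              |(∑ k ∈ Finset.range m, Real.cos ((n k : ℝ) * x)) - ξ| < ε}
        = ENNReal.ofReal (2 * Real.pi) := by
  intro n q hq hpos h
  have h0 := Pool.Agent.R260.Lac.all_null n q hq hpos h
  set B : Set ℝ := {x : ℝ | ∀ ξ : ℝ, ∀ ε : ℝ, 0 < ε →
            ∃ᶠ m in Filter.atTop,
              |(∑ k ∈ Finset.range m, Real.cos ((n k : ℝ) * x)) - ξ| < ε} with hB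
  have h1 : ∀ᵐ x ∂(MeasureTheory.volume.restrict (Set.Ioc 0 (2 * Real.pi))), x ∈ B := by
    rw [MeasureTheory.ae_iff]
    exact h0
  have h2 : ∀ᵐ x ∂(MeasureTheory.volume.restrict (Set.Ico 0 (2 * Real.pi))), x ∈ B := by
    rw [MeasureTheory.restrict_Ico_eq_restrict_Ioc]
    exact h1
  rw [MeasureTheory.ae_restrict_iff' measurableSet_Ico] at h2
  have h3 : ({x : ℝ | x ∈ Set.Ico 0 (2 * Real.pi) ∧ x ∈ B} : Set ℝ)
      =ᵐ[MeasureTheory.volume] (Set.Ico 0 (2 * Real.pi) : Set ℝ) := by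
    filter_upwards [h2] with x hx
    apply propext
    constructor
    · intro hh; exact hh.1
    · intro hh; exact ⟨hh, hx hh⟩
  have h4 := MeasureTheory.measure_congr h3
  have h5 : MeasureTheory.volume (Set.Ico (0:ℝ) (2 * Real.pi)) = ENNReal.ofReal (2 * Real.pi) := by
    rw [Real.volume_Ico, sub_zero]
  rw [h5] at h4
  exact h4

end Pool.Agent.S04649
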