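import Pool.Statements.S04683
import Pool.Agent.R249.AN.Fin

set_option autoImplicit false
open Filter Topology
open scoped ENNReal
open Pool Pool.MP_535d13_an

namespace Pool.Agent.S04683

/-- For every gauge φ (increasing, φ(0)=0, positive, continuous at 0) with r/φ(r)→0, there is a closed set of uniqueness K⊆[0,1] on the circle whose set of absolutely normal points has positive φ-Hausdorff measure. -/
theorem result :
    ∀ φ : ℝ → ℝ, MonotoneOn φ (Set.Ici 0) → φ 0 = 0 → (∀ r : ℝ, 0 < r → 0 < φ r) →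
      Tendsto φ (𝓝[>] (0:ℝ)) (𝓝 0) →
      Tendsto (fun r : ℝ => r / φ r) (𝓝[>] (0:ℝ)) (𝓝 0) →
      ∃ K : Set ℝ, IsClosed K ∧ K ⊆ Set.Icc (0:ℝ) 1 ∧
        (∀ c : ℤ → ℂ,
          (∀ x : ℝ, (∀ m : ℤ, x + (m:ℝ) ∉ K) →
            Tendsto (fun N : ℕ => ∑ n ∈ Finset.Icc (-(N:ℤ)) (N:ℤ),
              c n * Complex.exp (2 * (Real.pi:ℂ) * Complex.I * (n:ℂ) * (x:ℂ))) atTop (𝓝 0)) →
          ∀ n : ℤ, c n = 0) ∧
        0 < MeasureTheory.Measure.mkMetric (fun r : ℝ≥0∞ => ENNReal.ofReal (φ r.toReal))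
          (K ∩ {x : ℝ | ∀ b : ℕ, 2 ≤ b → ∀ k : ℕ, ∀ w : Fin k → ℤ,
            (∀ j : Fin k, 0 ≤ w j ∧ w j < (b:ℤ)) →
            Tendsto (fun N : ℕ =>
              ((((Finset.range N).filter (fun i : ℕ =>
                ∀ j : Fin k, ⌊x * (b:ℝ) ^ (i + j.val + 1)⌋ % (b:ℤ) = w j)).card : ℝ) / (N:ℝ)))
              atTop (𝓝 (1 / (b:ℝ) ^ k))}) := by
  intro φ _ _ hpos _ hlim
  obtain ⟨a, ha, ha16, hφ⟩ := Pool.Agent.R249.AN.exists_positions hpos hlim
  refine ⟨Pool.Agent.R249.AN.KK a, Pool.Agent.R249.AN.isClosed_KK a, Set.inter_subset_left,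
    fun c hc n => ?_, ?_⟩
  · exact Pool.Agent.R249.AN.unique_KK ha hc n
  · refine lt_of_lt_of_le ?_ (Pool.Agent.R249.AN.mu_le_mkMetric ha ha16 hφ _)
    set S : Set ℝ := Pool.Agent.R249.AN.KK a ∩ {x : ℝ | ∀ b : ℕ, 2 ≤ b → ∀ k : ℕ,
      ∀ w : Fin k → ℤ, (∀ j : Fin k, 0 ≤ w j ∧ w j < (b:ℤ)) →
            Tendsto (fun N : ℕ =>
              ((((Finset.range N).filter (fun i : ℕ =>
                ∀ j : Fin k, ⌊x * (b:ℝ) ^ (i + j.val + 1)⌋ % (b:ℤ) = w j)).card : ℝ) / (N:ℝ)))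
              atTop (𝓝 (1 / (b:ℝ) ^ k))} with hS
    have hnull : Pool.Agent.R249.AN.mu (Set.range a) Sᶜ = 0 := by
      have h1 : ∀ᵐ x ∂(Pool.Agent.R249.AN.mu (Set.range a)), x ∈ S := by
        have h2 : ∀ᵐ x ∂(Pool.Agent.R249.AN.mu (Set.range a)), x ∈ Pool.Agent.R249.AN.KK a := by
          rw [MeasureTheory.ae_iff]
          exact Pool.Agent.R249.AN.mu_KK a
        filter_upwards [Pool.Agent.R249.AN.ae_weyl ha ha16, h2] with x hx hxK
        refine ⟨hxK, ?_⟩
        intro b hb k w hw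
        have h3 := Pool.Agent.H493R3.block_freq b hb x (fun h hh => hx b h hb hh) k
          (fun j => ⟨(w j).toNat, by
            have := hw j
            omega⟩)
        refine h3.congr fun N => ?_
        congr 2
        refine congrArg Finset.card ?_
        refine Finset.filter_congr fun i _ => ?_
        refine forall_congr' fun j => ?_
        have e1 : i + 1 + (j : ℕ) = i + j.val + 1 := by omega
        have e2 : (((w j).toNat : ℕ) : ℤ) = w j := Int.toNat_of_nonneg (hw j).1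
        simp only [e1, e2]
      exact h1
    have h4 : (1 : ℝ≥0∞) ≤ Pool.Agent.R249.AN.mu (Set.range a) S := by
      have h5 : Pool.Agent.R249.AN.mu (Set.range a) Set.univ = 1 := MeasureTheory.measure_univ
      rw [← h5, ← Set.union_compl_self S]
      refine (MeasureTheory.measure_union_le _ _).trans ?_
      rw [hnull, add_zero]
    exact lt_of_lt_of_le one_pos h4

end Pool.Agent.S04683
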