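import Pool.Statements.S04766
import Pool.Agent.R302.HJ.Final
import Pool.Agent.R302.HJ.Space

set_option autoImplicit false
open Pool Pool.MP_5bf80f_an

namespace Pool.Agent.S04766

/-- The negation of the preceding statement: For every real Banach space whose bidual modulo the canonical image is infinite-dimensional, there are ℓ≥1 and L>0 such that each [ℕ]^{ℓk} maps into X with distance at least half the symmetric difference of the first k entries and at most L times Hamming distance. -/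
theorem result :
    ¬ (∀ (X : Type) [NormedAddCommGroup X] [NormedSpace ℝ X] [CompleteSpace X],
    (∀ s : Finset ((X →L[ℝ] ℝ) →L[ℝ] ℝ), ∃ φ : (X →L[ℝ] ℝ) →L[ℝ] ℝ,
      φ ∉ Submodule.span ℝ
        ((↑s : Set ((X →L[ℝ] ℝ) →L[ℝ] ℝ)) ∪
          {ψ : (X →L[ℝ] ℝ) →L[ℝ] ℝ | ∃ x : X, ∀ g : X →L[ℝ] ℝ, ψ g = g x})) →
    ∃ ℓ : ℕ, 1 ≤ ℓ ∧ ∃ L : ℝ, 0 < L ∧ ∀ k : ℕ, ∃ f : (Fin (ℓ * k) → ℕ) → X,
      ∀ x y : Fin (ℓ * k) → ℕ, StrictMono x → StrictMono y →
        ((symmDiff ((Finset.univ.filter (fun i : Fin (ℓ * k) => i.val < k)).image x)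
            ((Finset.univ.filter (fun i : Fin (ℓ * k) => i.val < k)).image y)).card : ℝ) / 2
          ≤ ‖f x - f y‖ ∧
        ‖f x - f y‖ ≤ L * (hammingDist x y : ℝ)) := by
  intro hall
  obtain ⟨X, i1, i2, i3, J, hd, h1, h2, h3⟩ := Pool.Agent.R302.HJ.exists_space
  obtain ⟨ℓ, hℓ, L, hL, H⟩ := hall X h3
  exact Pool.Agent.R302.HJ.no_map J hd h1 h2 ℓ hℓ L hL H

end Pool.Agent.S04766
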