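import Pool.Statements.S04908
import Pool.Agent.Results.MP_68b5a7_an.InteriorPoint

set_option autoImplicit false
open Pool Pool.MP_68b5a7_an

namespace Pool.Agent.S04908

/-- The negation of the preceding statement: For every partition of [0,1)² into finitely many half-open rectangles whose translates also partition it, the piecewise-translation map returns every point to within ε of itself, in Euclidean torus distance, at some time N ≥ 1. -/
theorem result :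
    ¬ (∀ (m : ℕ) (a1 b1 a2 b2 v1 v2 : Fin m → ℝ) (φ : ℝ × ℝ → ℝ × ℝ),
      Pairwise (fun r s : Fin m =>
        Disjoint (Set.Ico (a1 r) (b1 r) ×ˢ Set.Ico (a2 r) (b2 r))
          (Set.Ico (a1 s) (b1 s) ×ˢ Set.Ico (a2 s) (b2 s))) →
      (⋃ r : Fin m, Set.Ico (a1 r) (b1 r) ×ˢ Set.Ico (a2 r) (b2 r))
          = Set.Ico (0:ℝ) 1 ×ˢ Set.Ico (0:ℝ) 1 →
      Pairwise (fun r s : Fin m =>
        Disjoint
          (Set.Ico (a1 r + v1 r) (b1 r + v1 r) ×ˢ Set.Ico (a2 r + v2 r) (b2 r + v2 r))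
          (Set.Ico (a1 s + v1 s) (b1 s + v1 s) ×ˢ Set.Ico (a2 s + v2 s) (b2 s + v2 s))) →
      (⋃ r : Fin m,
          Set.Ico (a1 r + v1 r) (b1 r + v1 r) ×ˢ Set.Ico (a2 r + v2 r) (b2 r + v2 r))
          = Set.Ico (0:ℝ) 1 ×ˢ Set.Ico (0:ℝ) 1 →
      (∀ r : Fin m, ∀ x ∈ Set.Ico (a1 r) (b1 r) ×ˢ Set.Ico (a2 r) (b2 r),
          φ x = (x.1 + v1 r, x.2 + v2 r)) →
      ∀ x ∈ Set.Ico (0:ℝ) 1 ×ˢ Set.Ico (0:ℝ) 1, ∀ ε : ℝ, 0 < ε →
        ∃ N : ℕ, 1 ≤ N ∧ ∃ k1 k2 : ℤ,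
          ((φ^[N] x).1 - x.1 + (k1 : ℝ)) ^ 2 + ((φ^[N] x).2 - x.2 + (k2 : ℝ)) ^ 2 ≤ ε ^ 2) := by
  intro H
  open Pool.Agent.Results.MP_68b5a7_an.InteriorPoint in
  have hirr : Irrational (Real.sqrt 2 / 4) := by
    have := irrational_sqrt_two.div_natCast (m := 4) (by norm_num)
    exact_mod_cast this
  have h2 : Real.sqrt 2 ^ 2 = 2 := Real.sq_sqrt (by norm_num)
  have h0 : 0 < Real.sqrt 2 / 4 := by positivity
  have h1 : Real.sqrt 2 / 4 < 1 / 2 := by nlinarith [Real.sqrt_nonneg 2]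
  have hE := Pool.Agent.Results.MP_68b5a7_an.InteriorPoint.isExchange h0 h1
  let e : Fin (4 * 4) ≃ Fin 4 × Fin 4 := finProdFinEquiv.symm
  obtain ⟨N, hN, k1, k2, hk⟩ := H (4 * 4)
    (fun i => Pool.Agent.Results.MP_68b5a7_an.InteriorPoint.A (Real.sqrt 2 / 4) (e i).1)
    (fun i => Pool.Agent.Results.MP_68b5a7_an.InteriorPoint.B (Real.sqrt 2 / 4) (e i).1)
    (fun i => Pool.Agent.Results.MP_68b5a7_an.InteriorPoint.C (Real.sqrt 2 / 4) (e i).2)
    (fun i => Pool.Agent.Results.MP_68b5a7_an.InteriorPoint.D (Real.sqrt 2 / 4) (e i).2)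
    (fun i => Pool.Agent.Results.MP_68b5a7_an.InteriorPoint.VA (Real.sqrt 2 / 4) (e i).1)
    (fun i => Pool.Agent.Results.MP_68b5a7_an.InteriorPoint.VC (Real.sqrt 2 / 4) (e i).2)
    (Pool.Agent.Results.MP_68b5a7_an.InteriorPoint.φ (Real.sqrt 2 / 4))
    (fun i j hij => hE.disjoint (e i) (e j) (fun h => hij (e.injective h)))
    (by
      exact (e.surjective.iUnion_comp (fun i : Fin 4 × Fin 4 =>
        Pool.Agent.Results.MP_68b5a7_an.InteriorPoint.Rect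
          (Pool.Agent.Results.MP_68b5a7_an.InteriorPoint.A (Real.sqrt 2 / 4) i.1)
          (Pool.Agent.Results.MP_68b5a7_an.InteriorPoint.B (Real.sqrt 2 / 4) i.1)
          (Pool.Agent.Results.MP_68b5a7_an.InteriorPoint.C (Real.sqrt 2 / 4) i.2)
          (Pool.Agent.Results.MP_68b5a7_an.InteriorPoint.D (Real.sqrt 2 / 4) i.2))).trans hE.cover)
    (fun i j hij => hE.disjoint' (e i) (e j) (fun h => hij (e.injective h)))
    (by
      exact (e.surjective.iUnion_comp (fun i : Fin 4 × Fin 4 =>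
        Pool.Agent.Results.MP_68b5a7_an.InteriorPoint.Rect
          (Pool.Agent.Results.MP_68b5a7_an.InteriorPoint.A (Real.sqrt 2 / 4) i.1
            + Pool.Agent.Results.MP_68b5a7_an.InteriorPoint.VA (Real.sqrt 2 / 4) i.1)
          (Pool.Agent.Results.MP_68b5a7_an.InteriorPoint.B (Real.sqrt 2 / 4) i.1
            + Pool.Agent.Results.MP_68b5a7_an.InteriorPoint.VA (Real.sqrt 2 / 4) i.1)
          (Pool.Agent.Results.MP_68b5a7_an.InteriorPoint.C (Real.sqrt 2 / 4) i.2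
            + Pool.Agent.Results.MP_68b5a7_an.InteriorPoint.VC (Real.sqrt 2 / 4) i.2)
          (Pool.Agent.Results.MP_68b5a7_an.InteriorPoint.D (Real.sqrt 2 / 4) i.2
            + Pool.Agent.Results.MP_68b5a7_an.InteriorPoint.VC (Real.sqrt 2 / 4) i.2))).trans hE.cover')
    (fun r x hx => hE.trans (e r) x hx)
    (1 / 4, 1 / 4) ⟨⟨by norm_num, by norm_num⟩, ⟨by norm_num, by norm_num⟩⟩ (1 / 4) (by norm_num)
  obtain ⟨n, rfl⟩ : ∃ n, N = n + 1 := ⟨N - 1, by omega⟩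
  obtain ⟨t, k, -, ht0, ht1, h⟩ :=
    Pool.Agent.Results.MP_68b5a7_an.InteriorPoint.orbit hirr h0 h1 n
  rw [h] at hk
  simp only at hk
  have key : ∀ (u : ℝ) (k : ℤ), |u| ≤ 1 / 2 → u ^ 2 ≤ (u + (k : ℝ)) ^ 2 := by
    intro u k hu
    rw [abs_le] at hu
    rcases lt_trichotomy k 0 with hk0 | hk0 | hk0
    · have : (k : ℝ) ≤ -1 := by exact_mod_cast (by omega : k ≤ -1)
      nlinarith
    · subst hk0; simp
    · have : (1 : ℝ) ≤ k := by exact_mod_cast (by omega : 1 ≤ k)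
      nlinarith
  have e1 := key (1 / 4 + t - 1 / 4) k1 (by rw [abs_le]; constructor <;> linarith)
  have e2 := key (3 / 4 - t - 1 / 4) k2 (by rw [abs_le]; constructor <;> linarith)
  nlinarith [sq_nonneg (t - 1 / 4)]


end Pool.Agent.S04908
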