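import Pool.Statements.S04980
import Pool.Agent.Results.MP_6ded3d_an.PlanarNonsmoothMinimizer

set_option autoImplicit false
open MeasureTheory Set
open Pool Pool.MP_6ded3d_an
open Pool.Agent.Results.MP_6ded3d_an.PlanarNonsmoothMinimizer

namespace Pool.Agent.S04980

/-- The negation of the preceding statement: For all n≥2, bounded domains Ω, p>1 and homeomorphic g of finite distortion with L^p inner distortion, every homeomorphism with g's boundary values minimizing the L^p inner-distortion energy is a C^∞ diffeomorphism of Ω onto g(Ω). -/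
theorem result :
    ¬ (∀ (n : ℕ), 2 ≤ n →
  ∀ (Ω : Set (EuclideanSpace ℝ (Fin n))), IsOpen Ω → IsConnected Ω → Bornology.IsBounded Ω →
  ∀ (opNorm : Matrix (Fin n) (Fin n) ℝ → ℝ),
    (∀ A : Matrix (Fin n) (Fin n) ℝ,
      opNorm A = ‖LinearMap.toContinuousLinearMap (Matrix.toEuclideanLin A)‖) →
  ∀ (FD : (EuclideanSpace ℝ (Fin n) → EuclideanSpace ℝ (Fin n)) →
      (EuclideanSpace ℝ (Fin n) → Matrix (Fin n) (Fin n) ℝ) → Prop),
    (∀ (f : EuclideanSpace ℝ (Fin n) → EuclideanSpace ℝ (Fin n))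
       (Df : EuclideanSpace ℝ (Fin n) → Matrix (Fin n) (Fin n) ℝ),
      FD f Df ↔
      ((∀ i : Fin n, LocallyIntegrableOn (fun x => WithLp.ofLp (f x) i) Ω) ∧
       (∀ i j : Fin n, LocallyIntegrableOn (fun x => Df x i j) Ω) ∧
       (∀ φ : EuclideanSpace ℝ (Fin n) → ℝ,
          ContDiff ℝ ((⊤ : ℕ∞) : WithTop ℕ∞) φ → HasCompactSupport φ → tsupport φ ⊆ Ω →
          ∀ i j : Fin n,
            ∫ x in Ω, WithLp.ofLp (f x) i * fderiv ℝ φ x (EuclideanSpace.single j (1 : ℝ))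
              = - ∫ x in Ω, Df x i j * φ x) ∧
       LocallyIntegrableOn (fun x => (Df x).det) Ω ∧
       (∀ᵐ x ∂(volume.restrict Ω), 0 ≤ (Df x).det) ∧
       ∃ K : EuclideanSpace ℝ (Fin n) → ℝ, Measurable K ∧ (∀ x ∈ Ω, 1 ≤ K x) ∧
         ∀ᵐ x ∂(volume.restrict Ω), opNorm (Df x) ^ n ≤ K x * (Df x).det)) →
  ∀ (KI : (EuclideanSpace ℝ (Fin n) → Matrix (Fin n) (Fin n) ℝ) → EuclideanSpace ℝ (Fin n) → ℝ),
    (∀ (Df : EuclideanSpace ℝ (Fin n) → Matrix (Fin n) (Fin n) ℝ) (x : EuclideanSpace ℝ (Fin n)),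
      KI Df x = if 0 < (Df x).det
        then opNorm (Df x).adjugate ^ n / (Df x).det ^ (n - 1) else 1) →
  ∀ p : ℝ, 1 < p →
  ∀ g : EuclideanSpace ℝ (Fin n) → EuclideanSpace ℝ (Fin n),
    ContinuousOn g (closure Ω) → InjOn g (closure Ω) → g '' closure Ω = closure (g '' Ω) →
    (∃ Dg : EuclideanSpace ℝ (Fin n) → Matrix (Fin n) (Fin n) ℝ,
      FD g Dg ∧ ∫⁻ x in Ω, ENNReal.ofReal (KI Dg x ^ p) < ⊤) →
  ∀ (f : EuclideanSpace ℝ (Fin n) → EuclideanSpace ℝ (Fin n))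
    (Df : EuclideanSpace ℝ (Fin n) → Matrix (Fin n) (Fin n) ℝ),
    ContinuousOn f (closure Ω) → InjOn f (closure Ω) → f '' closure Ω = closure (g '' Ω) →
    (∀ x ∈ frontier Ω, f x = g x) → FD f Df →
    (∀ (h : EuclideanSpace ℝ (Fin n) → EuclideanSpace ℝ (Fin n))
       (Dh : EuclideanSpace ℝ (Fin n) → Matrix (Fin n) (Fin n) ℝ),
       ContinuousOn h (closure Ω) → InjOn h (closure Ω) → h '' closure Ω = closure (g '' Ω) →
       (∀ x ∈ frontier Ω, h x = g x) → FD h Dh →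
       ∫⁻ x in Ω, ENNReal.ofReal (KI Df x ^ p) ≤ ∫⁻ x in Ω, ENNReal.ofReal (KI Dh x ^ p)) →
    (f '' Ω = g '' Ω ∧ ContDiffOn ℝ ((⊤ : ℕ∞) : WithTop ℕ∞) f Ω ∧
      ∃ f' : EuclideanSpace ℝ (Fin n) → EuclideanSpace ℝ (Fin n),
        MapsTo f' (g '' Ω) Ω ∧ (∀ x ∈ Ω, f' (f x) = x) ∧ (∀ y ∈ g '' Ω, f (f' y) = y) ∧
        ContDiffOn ℝ ((⊤ : ℕ∞) : WithTop ℕ∞) f' (g '' Ω))) := by
  intro H
  have h1 : (1 / 2 : ℝ) < 3 / 2 := by norm_num
  have h2 : (-1 / 2 : ℝ) < 1 / 2 := by norm_num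
  have h3 : (0:ℝ) < 1 / 2 := by norm_num
  have hp : (1:ℝ) < 2 := by norm_num
  set Ω : Set (E 2) := Rect (1 / 2) (3 / 2) (-1 / 2) (1 / 2) with hΩ
  have hhomeo := gmap_homeo 2 h3 h1 h2
  have hmin := gmap_minimizer hp h3 h1 h2
  have hFD : ∀ (f : E 2 → E 2) (Df : E 2 → Mat 2), FiniteDistortion Ω f Df ↔
      ((∀ i : Fin 2, LocallyIntegrableOn (fun x => WithLp.ofLp (f x) i) Ω) ∧
       (∀ i j : Fin 2, LocallyIntegrableOn (fun x => Df x i j) Ω) ∧
       (∀ φ : EuclideanSpace ℝ (Fin 2) → ℝ,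
          ContDiff ℝ ((⊤ : ℕ∞) : WithTop ℕ∞) φ → HasCompactSupport φ → tsupport φ ⊆ Ω →
          ∀ i j : Fin 2,
            ∫ x in Ω, WithLp.ofLp (f x) i * fderiv ℝ φ x (EuclideanSpace.single j (1 : ℝ))
              = - ∫ x in Ω, Df x i j * φ x) ∧
       LocallyIntegrableOn (fun x => (Df x).det) Ω ∧
       (∀ᵐ x ∂(volume.restrict Ω), 0 ≤ (Df x).det) ∧
       ∃ K : EuclideanSpace ℝ (Fin 2) → ℝ, Measurable K ∧ (∀ x ∈ Ω, 1 ≤ K x) ∧
         ∀ᵐ x ∂(volume.restrict Ω), opNorm (Df x) ^ 2 ≤ K x * (Df x).det) := by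
    intro f Df
    constructor
    · rintro ⟨⟨a1, a2, a3⟩, b, c, K, d1, d2, d3⟩
      refine ⟨a1, a2, ?_, b, c, K, d1, fun x _ => d2 x, d3⟩
      intro φ e1 e2 e3 i j
      have := a3 φ ⟨e1, e2, e3⟩ i j
      calc ∫ x in Ω, WithLp.ofLp (f x) i * fderiv ℝ φ x (EuclideanSpace.single j (1 : ℝ))
          = ∫ x in Ω, dj φ j x * f x i := by
            congr 1; funext x; rw [mul_comm]; rfl
        _ = _ := this
        _ = _ := by congr 2; funext x; rw [mul_comm]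
    · rintro ⟨a1, a2, a3, b, c, K, d1, d2, d3⟩
      refine ⟨⟨a1, a2, ?_⟩, b, c, fun x => max (K x) 1, d1.max measurable_const,
        fun x => le_max_right _ _, ?_⟩
      · rintro φ ⟨e1, e2, e3⟩ i j
        have := a3 φ e1 e2 e3 i j
        calc ∫ x in Ω, dj φ j x * f x i
            = ∫ x in Ω, WithLp.ofLp (f x) i * fderiv ℝ φ x (EuclideanSpace.single j (1 : ℝ)) := by
              congr 1; funext x; rw [mul_comm]; rfl
          _ = _ := this
          _ = _ := by congr 2; funext x; rw [mul_comm]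
      · filter_upwards [d3, c] with x hx hx2
        exact hx.trans (mul_le_mul_of_nonneg_right (le_max_left _ _) hx2)
  have hbij : ∀ f : E 2 → E 2, BijOn f (closure Ω) (closure (gmap 2 '' Ω)) ↔
      InjOn f (closure Ω) ∧ f '' closure Ω = closure (gmap 2 '' Ω) := by
    intro f
    constructor
    · intro h
      exact ⟨h.injOn, h.image_eq⟩
    · rintro ⟨h, h'⟩
      rw [← h']
      exact h.bijOn_image
  have hcomp : IsCompact (closure Ω) := (isBounded_Rect _ _ _ _).isCompact_closure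
  obtain ⟨q1, q2, -⟩ := hhomeo
  have key := H 2 le_rfl Ω (isOpen_Rect _ _ _ _) (isConnected_Rect h1 h2) (isBounded_Rect _ _ _ _)
    opNorm (fun A => rfl) (FiniteDistortion Ω) hFD (fun Df x => innerDistortion (Df x))
    (fun Df x => rfl) 2 hp (gmap 2) q1 q2.injOn q2.image_eq
    ⟨gmat 2, gmap_finiteDistortion 2 h3, ?_⟩ (gmap 2) (gmat 2) q1 q2.injOn q2.image_eq
    (fun _ _ => rfl) (gmap_finiteDistortion 2 h3) ?_
  · exact gmap_not_C2 hp (contDiffOn_infty.1 key.2.1 2)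
  · have h5 := (gmap_memLp 2 h3 : MemLp (fun x => innerDistortion (gmat 2 x)) (ENNReal.ofReal 2)
      (volume.restrict Ω))
    have h6 := lintegral_rpow_enorm_lt_top_of_eLpNorm_lt_top (by simp) (by simp) h5.2
    refine lt_of_le_of_lt (lintegral_mono fun x => ?_) h6
    simp only
    rw [ENNReal.toReal_ofReal (by norm_num)]
    have h7 : (0:ℝ) ≤ innerDistortion (gmat 2 x) := by
      unfold innerDistortion
      split_ifs with h8
      · have h9 : ∀ A : Mat 2, (0:ℝ) ≤ opNorm A := fun A => by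
          rw [← toL_norm]
          exact norm_nonneg _
        exact div_nonneg (pow_nonneg (h9 _) _) (pow_nonneg h8.le _)
      · exact zero_le_one
    rw [← ENNReal.ofReal_rpow_of_nonneg h7 (by norm_num), Real.enorm_eq_ofReal h7]
  · intro h Dh a1 a2 a3 a4 a5
    have h8 := isHomeoOnto_of_compact hcomp a1 a2
    rw [a3] at h8
    exact hmin.2 h Dh ⟨⟨a1, (hbij h).2 ⟨a2, a3⟩, h8.2.2⟩, a5, a4⟩

end Pool.Agent.S04980
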