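import Pool.Statements.S05106

set_option autoImplicit false
open Pool Pool.MP_7987d1_an

namespace Pool.Agent.S05106

/-- The logistic profile `s ↦ 1/(1+e^{-s})`. -/
noncomputable def sg (s : ℝ) : ℝ := (1 + Real.exp (-s))⁻¹

theorem den_pos (s : ℝ) : 0 < 1 + Real.exp (-s) := by positivity

theorem sg_pos (s : ℝ) : 0 < sg s := inv_pos.2 (den_pos s)

theorem sg_lt_one (s : ℝ) : sg s < 1 := by
  unfold sg
  exact inv_lt_one_of_one_lt₀ (by linarith [Real.exp_pos (-s)])

theorem hasDerivAt_sg (s : ℝ) : HasDerivAt sg (sg s * (1 - sg s)) s := by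
  have h1 : HasDerivAt (fun s : ℝ => 1 + Real.exp (-s)) (-Real.exp (-s)) s := by
    have := (Real.hasDerivAt_exp (-s)).comp s (hasDerivAt_neg s)
    simpa using this.const_add 1
  have h2 := h1.inv (den_pos s).ne'
  have h3 : - -Real.exp (-s) / (1 + Real.exp (-s)) ^ 2 = sg s * (1 - sg s) := by
    unfold sg
    have := (den_pos s).ne'
    field_simp
    try ring
  rw [h3] at h2
  exact h2

theorem hasDerivAt_sg' (s : ℝ) :
    HasDerivAt (fun s => sg s * (1 - sg s)) (sg s * (1 - sg s) * (1 - 2 * sg s)) s := by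
  have h := (hasDerivAt_sg s).mul ((hasDerivAt_sg s).const_sub 1)
  have e : sg s * (1 - sg s) * (1 - 2 * sg s) =
      sg s * (1 - sg s) * (1 - sg s) + sg s * -(sg s * (1 - sg s)) := by ring
  rw [e]
  exact h

theorem contDiff_sg : ContDiff ℝ 2 sg := by
  unfold sg
  refine ContDiff.inv (by fun_prop) (fun s => (den_pos s).ne')

/-- The explicit travelling front `1/(1+exp(-(x_1/√2 + 3t/2)))`, written with `k = 1/√2`. -/
noncomputable def fr (k : ℝ) (p : EuclideanSpace ℝ (Fin 1) × ℝ) : ℝ :=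
  sg (k * p.1 0 + 3 / 2 * p.2)

theorem contDiff_fr (k : ℝ) : ContDiff ℝ 2 (fr k) := by
  unfold fr
  refine contDiff_sg.comp ?_
  have : ContDiff ℝ 2 (fun p : EuclideanSpace ℝ (Fin 1) × ℝ => p.1 0) := by
    exact (EuclideanSpace.proj (𝕜 := ℝ) (0 : Fin 1)).contDiff.comp contDiff_fst
  fun_prop

/-- The coordinate functional. -/
noncomputable def P0 : EuclideanSpace ℝ (Fin 1) →L[ℝ] ℝ := EuclideanSpace.proj (0 : Fin 1)

theorem P0_apply (x : EuclideanSpace ℝ (Fin 1)) : P0 x = x 0 := rfl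

theorem hasFDerivAt_lin (k c : ℝ) (x : EuclideanSpace ℝ (Fin 1)) :
    HasFDerivAt (fun y : EuclideanSpace ℝ (Fin 1) => k * y 0 + c) (k • P0) x := by
  have h := P0.hasFDerivAt (x := x)
  exact (h.const_mul k).add_const c

theorem hasFDerivAt_one (k c : ℝ) (x : EuclideanSpace ℝ (Fin 1)) :
    HasFDerivAt (fun y : EuclideanSpace ℝ (Fin 1) => sg (k * y 0 + c))
      ((sg (k * x 0 + c) * (1 - sg (k * x 0 + c))) •
        (k • P0)) x :=
  HasDerivAt.comp_hasFDerivAt (h₂ := sg) x (hasDerivAt_sg (k * x 0 + c)) (hasFDerivAt_lin k c x)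

theorem fderiv_one (k c : ℝ) :
    fderiv ℝ (fun y : EuclideanSpace ℝ (Fin 1) => sg (k * y 0 + c)) =
      fun x => (sg (k * x 0 + c) * (1 - sg (k * x 0 + c))) •
        (k • P0) := by
  ext1 x
  exact (hasFDerivAt_one k c x).fderiv

theorem fderiv_two (k c : ℝ) (x : EuclideanSpace ℝ (Fin 1)) :
    fderiv ℝ (fderiv ℝ (fun y : EuclideanSpace ℝ (Fin 1) => sg (k * y 0 + c))) x =
      ((sg (k * x 0 + c) * (1 - sg (k * x 0 + c)) * (1 - 2 * sg (k * x 0 + c))) •
        (k • P0)).smulRight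
        (k • P0) := by
  rw [fderiv_one]
  have h := (hasDerivAt_sg' (k * x 0 + c)).comp_hasFDerivAt x (hasFDerivAt_lin k c x)
  exact (h.smul_const (k • P0)).fderiv

theorem single_zero : (EuclideanSpace.single (0 : Fin 1) (1 : ℝ)) (0 : Fin 1) = 1 := by simp

theorem deriv_time (k a : ℝ) (t : ℝ) :
    deriv (fun s : ℝ => sg (k * a + 3 / 2 * s)) t =
      sg (k * a + 3 / 2 * t) * (1 - sg (k * a + 3 / 2 * t)) * (3 / 2) := by
  have h1 : HasDerivAt (fun s : ℝ => k * a + 3 / 2 * s) (3 / 2) t := by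
    have := ((hasDerivAt_id t).const_mul (3 / 2 : ℝ)).const_add (k * a)
    simpa using this
  exact ((hasDerivAt_sg (k * a + 3 / 2 * t)).comp t h1).deriv

/-- The negation of the preceding statement: For 1≤n≤8, every C² solution of Δu−u_t=u³−u for t<0 with ∣u∣≤1, ∂u/∂x_n>0 and u_t≥0 has the form u(x,t)=g(ν·x) for a unit vector ν, i.e. is one-dimensional and time-independent. -/
theorem result :
    ¬ (∀ m : ℕ, m + 1 ≤ 8 → ∀ u : EuclideanSpace ℝ (Fin (m + 1)) × ℝ → ℝ,
    ContDiffOn ℝ 2 u {p | p.2 < 0} →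
    (∀ x : EuclideanSpace ℝ (Fin (m + 1)), ∀ t : ℝ, t < 0 →
      |u (x, t)| ≤ 1 ∧
      (∑ i : Fin (m + 1), iteratedFDeriv ℝ 2 (fun y => u (y, t)) x
          (fun _ => EuclideanSpace.single i (1 : ℝ)))
        - deriv (fun s => u (x, s)) t = u (x, t) ^ 3 - u (x, t) ∧
      0 < fderiv ℝ (fun y => u (y, t)) x (EuclideanSpace.single (Fin.last m) (1 : ℝ)) ∧
      0 ≤ deriv (fun s => u (x, s)) t) →
    ∃ ν : EuclideanSpace ℝ (Fin (m + 1)), ‖ν‖ = 1 ∧
      ∃ g : ℝ → ℝ, ∀ x : EuclideanSpace ℝ (Fin (m + 1)), ∀ t : ℝ, t < 0 →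
        u (x, t) = g (inner ℝ ν x)) := by
  intro H
  obtain ⟨k, hk0, hk2⟩ : ∃ k : ℝ, 0 < k ∧ k * k = 1 / 2 := by
    refine ⟨Real.sqrt (1 / 2), Real.sqrt_pos.2 (by norm_num), ?_⟩
    exact Real.mul_self_sqrt (by norm_num)
  obtain ⟨ν, -, g, hg⟩ := H 0 (by norm_num) (fr k) (contDiff_fr k).contDiffOn (by
    intro x t ht
    have hp := sg_pos (k * x 0 + 3 / 2 * t)
    have hl := sg_lt_one (k * x 0 + 3 / 2 * t)
    refine ⟨?_, ?_, ?_, ?_⟩
    · change |sg (k * x 0 + 3 / 2 * t)| ≤ 1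
      rw [abs_of_pos hp]
      exact hl.le
    · change (∑ i : Fin (0 + 1), iteratedFDeriv ℝ 2
          (fun y : EuclideanSpace ℝ (Fin 1) => sg (k * y 0 + 3 / 2 * t)) x
          (fun _ => EuclideanSpace.single i (1 : ℝ)))
        - deriv (fun s => sg (k * x 0 + 3 / 2 * s)) t
          = sg (k * x 0 + 3 / 2 * t) ^ 3 - sg (k * x 0 + 3 / 2 * t)
      rw [deriv_time]
      have hs : (∑ i : Fin (0 + 1), iteratedFDeriv ℝ 2
          (fun y : EuclideanSpace ℝ (Fin 1) => sg (k * y 0 + 3 / 2 * t)) x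
          (fun _ => EuclideanSpace.single i (1 : ℝ))) =
          iteratedFDeriv ℝ 2
          (fun y : EuclideanSpace ℝ (Fin 1) => sg (k * y 0 + 3 / 2 * t)) x
          (fun _ => EuclideanSpace.single 0 (1 : ℝ)) := by
        simp
      rw [hs, iteratedFDeriv_two_apply, fderiv_two]
      simp only [ContinuousLinearMap.smulRight_apply, _root_.smul_apply,
        P0_apply, single_zero, smul_eq_mul]
      linear_combination (sg (k * x 0 + 3 / 2 * t) * (1 - sg (k * x 0 + 3 / 2 * t)) *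
        (1 - 2 * sg (k * x 0 + 3 / 2 * t))) * hk2
    · change 0 < fderiv ℝ (fun y : EuclideanSpace ℝ (Fin 1) => sg (k * y 0 + 3 / 2 * t)) x
        (EuclideanSpace.single 0 (1 : ℝ))
      rw [fderiv_one]
      simp only [_root_.smul_apply, P0_apply, single_zero,
        smul_eq_mul]
      have : 0 < 1 - sg (k * x 0 + 3 / 2 * t) := by linarith
      positivity
    · change 0 ≤ deriv (fun s => sg (k * x 0 + 3 / 2 * s)) t
      rw [deriv_time]
      have : 0 < 1 - sg (k * x 0 + 3 / 2 * t) := by linarith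
      positivity)
  have h1 := hg 0 (-1) (by norm_num)
  have h2 := hg 0 (-2) (by norm_num)
  have h3 : fr k (0, -1) = fr k (0, -2) := h1.trans h2.symm
  unfold fr sg at h3
  have h4 := inv_injective h3
  have h5 := add_left_cancel h4
  have h6 := Real.exp_injective h5
  simp at h6
  norm_num at h6

end Pool.Agent.S05106
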