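import Pool.Statements.S05156
-- import your own Pool.Agent.* helpers here

set_option autoImplicit false
open Pool Pool.MP_7d5b5f_an

namespace Pool.Agent.S05156

/-- The negation of the preceding statement: For each p>1 there is C, independent of dimension d and coordinate k, so the discrete Riesz transform with kernel Γ((d+1)/2)π^{-(d+1)/2} x_k/∣x∣^{d+1} on ℤ^d is bounded on ℓ^p with norm at most C (tested on finitely supported f). -/
theorem result :
    ¬ (∀ p : ℝ, 1 < p → ∃ C : ℝ, 0 < C ∧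
      ∀ (d : ℕ) (k : Fin d) (S T : Finset (Fin d → ℤ)) (f : (Fin d → ℤ) → ℝ),
        ∑ n ∈ T, |∑ m ∈ S,
            ((Real.Gamma (((d : ℝ) + 1) / 2) / Real.pi ^ (((d : ℝ) + 1) / 2)) *
              (((n k - m k : ℤ) : ℝ) /
                (Real.sqrt (∑ i, (((n i - m i : ℤ) : ℝ)) ^ 2)) ^ (d + 1))) * f m| ^ p
          ≤ C ^ p * ∑ m ∈ S, |f m| ^ p) := by
  intro h
  obtain ⟨C, hC, h⟩ := h 2 (by norm_num)
  -- the normalising constants are unbounded along odd dimensions
  obtain ⟨m, hm⟩ : ∃ m : ℕ, C < (m.factorial : ℝ) / Real.pi ^ (m + 1) := by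
    have h0 : Filter.Tendsto (fun m : ℕ => Real.pi ^ m / (m.factorial : ℝ)) Filter.atTop
        (nhds 0) := FloorSemiring.tendsto_pow_div_factorial_atTop Real.pi
    have h1 : ∀ᶠ m : ℕ in Filter.atTop, Real.pi ^ m / (m.factorial : ℝ) < 1 / (C * Real.pi) :=
      h0.eventually (gt_mem_nhds (by positivity))
    obtain ⟨m, hm⟩ := h1.exists
    refine ⟨m, ?_⟩
    have hf : (0 : ℝ) < m.factorial := by exact_mod_cast m.factorial_pos
    have hpi := Real.pi_pos
    rw [div_lt_div_iff₀ hf (by positivity)] at hm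
    rw [lt_div_iff₀ (by positivity), pow_succ]
    nlinarith [hm]
  -- test on the unit mass at the origin, evaluated at the unit vector
  have h2 := h (2 * m + 1) 0 {0} {Pi.single 0 1} (fun _ => 1)
  simp only [Finset.sum_singleton] at h2
  have hG : Real.Gamma ((((2 * m + 1 : ℕ) : ℝ) + 1) / 2) = (m.factorial : ℝ) := by
    rw [← Real.Gamma_nat_eq_factorial]
    congr 1
    push_cast
    ring
  have hP : Real.pi ^ ((((2 * m + 1 : ℕ) : ℝ) + 1) / 2) = Real.pi ^ (m + 1) := by
    rw [← Real.rpow_natCast]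
    congr 1
    push_cast
    ring
  have hs : ∑ i : Fin (2 * m + 1),
      ((((Pi.single 0 1 : Fin (2 * m + 1) → ℤ) i - (0 : Fin (2 * m + 1) → ℤ) i : ℤ) : ℝ)) ^ 2
        = 1 := by
    rw [Finset.sum_eq_single (0 : Fin (2 * m + 1))]
    · simp
    · intro b _ hb
      simp [Pi.single_eq_of_ne hb]
    · simp
  rw [hs, hG, hP] at h2
  have h3 : ((((Pi.single 0 1 : Fin (2 * m + 1) → ℤ) 0 - (0 : Fin (2 * m + 1) → ℤ) 0 : ℤ)) : ℝ)
      = 1 := by simp
  rw [h3] at h2
  simp only [Real.sqrt_one, one_pow, div_one, mul_one, abs_one, Real.one_rpow] at h2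
  have hpos : 0 < (m.factorial : ℝ) / Real.pi ^ (m + 1) := hC.trans hm
  rw [abs_of_pos hpos] at h2
  have h4 : C ^ (2 : ℝ) < ((m.factorial : ℝ) / Real.pi ^ (m + 1)) ^ (2 : ℝ) :=
    Real.rpow_lt_rpow hC.le hm (by norm_num)
  linarith

end Pool.Agent.S05156
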