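import Pool.Statements.S05168
import Pool.Agent.R740.Hol.Final

set_option autoImplicit false
open MeasureTheory
open Pool Pool.MP_7dd24e_an

namespace Pool.Agent.S05168

/-- The negation of the preceding statement: If two nested topological spheres in R^3 bound a shell whose Newtonian potential is constant in the inner cavity, then the two surfaces are the images of concentric spheres of radii 1 and k<1 under one invertible affine map. -/
theorem result :
    ¬ (∀ (S S₁ U T₁ : Set (EuclideanSpace ℝ (Fin 3))),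
    Nonempty (S ≃ₜ Metric.sphere (0 : EuclideanSpace ℝ (Fin 3)) 1) →
    Nonempty (S₁ ≃ₜ Metric.sphere (0 : EuclideanSpace ℝ (Fin 3)) 1) →
    IsOpen U → IsConnected U → Bornology.IsBounded U → frontier U = S →
    IsOpen T₁ → IsConnected T₁ → Bornology.IsBounded T₁ → frontier T₁ = S₁ →
    closure T₁ ⊆ U →
    (∃ c : ℝ, ∀ P ∈ T₁, ∫ M in U \ closure T₁, (dist P M)⁻¹ = c) →
    ∃ (f : EuclideanSpace ℝ (Fin 3) ≃ᵃ[ℝ] EuclideanSpace ℝ (Fin 3)) (k : ℝ),
      0 < k ∧ k < 1 ∧
      S = f '' Metric.sphere (0 : EuclideanSpace ℝ (Fin 3)) 1 ∧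
      S₁ = f '' Metric.sphere (0 : EuclideanSpace ℝ (Fin 3)) k) := by
  intro hall
  obtain ⟨K, hKc, hKne, hKsub, hstar, c, hc⟩ := Pool.Agent.R740.Hol.exists_cavity
  have hcl := Pool.Agent.R740.Hol.closure_int hKc hstar
  have hbd : Bornology.IsBounded Pool.Agent.R740.Hol.cube :=
    (Metric.isBounded_ball (x := (0:EuclideanSpace ℝ (Fin 3))) (r := 2)).subset
      Pool.Agent.R740.Hol.cube_sub
  obtain ⟨f, k, -, -, h1, -⟩ := hall (frontier Pool.Agent.R740.Hol.cube) (frontier (interior K))
    Pool.Agent.R740.Hol.cube (interior K) Pool.Agent.R740.Hol.cube_homeo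
    (Pool.Agent.R740.Hol.frontier_homeo hKc hKne hstar)
    Pool.Agent.R740.Hol.cube_open
    (Pool.Agent.R740.Hol.cube_convex.isConnected ⟨0, Pool.Agent.R740.Hol.zero_mem_cube⟩)
    hbd rfl isOpen_interior (Pool.Agent.R740.Hol.int_connected hKne hstar)
    (hKc.isBounded.subset interior_subset) rfl (by rw [hcl]; exact hKsub)
    ⟨c, fun P hP => by rw [hcl]; exact hc P (interior_subset hP)⟩
  exact Pool.Agent.R740.Hol.cube_not_ellipsoid f h1

end Pool.Agent.S05168
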