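import Pool.Statements.S05228
import Pool.Agent.H345R3.HomP

set_option autoImplicit false
open Pool Pool.MP_8222c7_an

namespace Pool.Agent.S05228

/-- An element of the Jacobson radical of a commutative complex Banach algebra has quasispectrum
inside `{0}`. -/
theorem quasispectrum_subset_of_mem_jacobson {B : Type} [NormedCommRing B] [NormedAlgebra ℂ B]
    {x : B} (hx : x ∈ Ideal.jacobson (⊥ : Ideal B)) : quasispectrum ℂ x ⊆ {0} := by
  intro μ hμ
  rw [Set.mem_singleton_iff]
  by_contra h0
  rw [quasispectrum_eq_spectrum_union_zero ℂ x] at hμ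
  rcases hμ with hμ | hμ
  · rw [spectrum.mem_iff] at hμ
    apply hμ
    have h1 : IsUnit (x * (-algebraMap ℂ B μ⁻¹) + 1) := by
      have := Ideal.mem_jacobson_bot.1 hx (-algebraMap ℂ B μ⁻¹)
      exact this
    have h2 : algebraMap ℂ B μ - x = algebraMap ℂ B μ * (x * (-algebraMap ℂ B μ⁻¹) + 1) := by
      have h3 : algebraMap ℂ B μ * algebraMap ℂ B μ⁻¹ = 1 := by
        rw [← map_mul, mul_inv_cancel₀ h0, map_one]
      calc algebraMap ℂ B μ - x = algebraMap ℂ B μ -
            (algebraMap ℂ B μ * algebraMap ℂ B μ⁻¹) * x := by rw [h3, one_mul]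
        _ = algebraMap ℂ B μ * (x * (-algebraMap ℂ B μ⁻¹) + 1) := by ring
    rw [h2]
    exact ((isUnit_iff_ne_zero.2 h0).map (algebraMap ℂ B)).mul h1
  · exact h0 hμ

/-- The negation of the preceding statement: Every non-radical commutative amenable complex Banach algebra A has this property: two continuous homomorphisms from A into a commutative Banach algebra whose difference takes only quasinilpotent (radical) values are equal. -/
theorem result :
    ¬ (∀ (A : Type) [NonUnitalNormedCommRing A] [NormedSpace ℂ A] [IsScalarTower ℂ A A]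
      [SMulCommClass ℂ A A] [CompleteSpace A],
      (∃ a : A, ¬ quasispectrum ℂ a ⊆ {0}) →
      (∀ (E : Type) [NormedAddCommGroup E] [NormedSpace ℂ E] [CompleteSpace E]
        (l r : A →L[ℂ] (E →L[ℂ] E)),
        (∀ a b : A, l (a * b) = (l a).comp (l b)) →
        (∀ a b : A, r (a * b) = (r b).comp (r a)) →
        (∀ a b : A, (l a).comp (r b) = (r b).comp (l a)) →
        ∀ D : A →L[ℂ] (E →L[ℂ] ℂ),
          (∀ (a b : A) (x : E), D (a * b) x = D b (r a x) + D a (l b x)) →
          ∃ f : E →L[ℂ] ℂ, ∀ (a : A) (x : E), D a x = f (r a x) - f (l a x)) →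
      ∀ (B : Type) [NonUnitalNormedCommRing B] [NormedSpace ℂ B] [IsScalarTower ℂ B B]
        [SMulCommClass ℂ B B] [CompleteSpace B]
        (φ ψ : A →ₙₐ[ℂ] B), Continuous φ → Continuous ψ →
        (∀ a : A, quasispectrum ℂ (φ a - ψ a) ⊆ {0}) → φ = ψ) := by
  intro H
  obtain ⟨A, _, _, hAc, -, -, hAm, B, _, _, hBc, -, φ, ψ, hφ, hψ, -, -, hrad, hne⟩ :=
    Pool.Agent.H345R3.HomP.main
  haveI := hAc
  haveI := hBc
  apply hne
  have hnt : Nontrivial A := by
    rcases subsingleton_or_nontrivial A with h | h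
    · exfalso
      apply hne
      ext a
      rw [Subsingleton.elim a 0, map_zero, map_zero]
    · exact h
  have h1 := H A ⟨1, fun h => by
    have h2 : (1 : ℂ) ∈ quasispectrum ℂ (1 : A) := by
      rw [quasispectrum_eq_spectrum_union_zero ℂ (1 : A)]
      left
      rw [spectrum.one_eq]
      exact rfl
    exact one_ne_zero (h h2)⟩ (by
    intro E _ _ _ l r hl hr hlr D hD
    exact H611R3.ZL.amenable_iff.1 hAm E inferInstance inferInstance inferInstance l r
      (fun a b x => by rw [hl]; rfl) (fun a b x => by rw [hr]; rfl)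
      (fun a b x => DFunLike.congr_fun (hlr a b) x) D hD) B
    (φ : A →ₙₐ[ℂ] B) (ψ : A →ₙₐ[ℂ] B) hφ hψ
    (fun a => quasispectrum_subset_of_mem_jacobson (hrad a))
  ext a
  exact DFunLike.congr_fun h1 a

end Pool.Agent.S05228
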