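import Pool.Statements.S05242
import Pool.Agent.R226.JC4
import Pool.Agent.R226.Unip

set_option autoImplicit false
open Pool Pool.MP_830bfa_an

namespace Pool.Agent.S05242

open MvPolynomial in
/-- There is a non-injective polynomial self-map of some `ℝ^((m+1)*4)` all of whose Jacobian
matrices have only the eigenvalue one. It is the unipotent stabilisation of the counterexample to
the Jacobian conjecture in dimension four of `Pool.Agent.R226.JC4`. -/
theorem core : ∃ (m : ℕ) (f : (Fin ((m + 1) * 4) → ℝ) → (Fin ((m + 1) * 4) → ℝ)), ContDiff ℝ 1 f ∧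
      (∀ x, ∀ z : ℂ, Polynomial.aeval z (LinearMap.toMatrix'
        ((fderiv ℝ f x : (Fin ((m + 1) * 4) → ℝ) →L[ℝ] (Fin ((m + 1) * 4) → ℝ)) :
          (Fin ((m + 1) * 4) → ℝ) →ₗ[ℝ] (Fin ((m + 1) * 4) → ℝ))).charpoly = 0 → z = 1) ∧
      ¬ Function.Injective f := by
  let φ : ℤ →+* ℝ := Int.castRingHom ℝ
  refine Pool.Agent.R226.Unip.exists_unipotent (fun i => MvPolynomial.map φ (R226.JC4.F i)) 64 (by norm_num)
    ?_ ![1, 0, 0, 0] ![-1, 0, -3, 5 / 2] (R226.JC4.points_ne ℝ) ?_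
  · have h := congrArg (MvPolynomial.map φ) R226.JC4.det_F
    rw [RingHom.map_det, MvPolynomial.map_C] at h
    have e : (Matrix.of fun i j => pderiv j (MvPolynomial.map φ (R226.JC4.F i))) =
        (MvPolynomial.map φ).mapMatrix (Matrix.of fun i j => pderiv j (R226.JC4.F i)) := by
      ext1 i j
      rw [Matrix.of_apply, RingHom.mapMatrix_apply, Matrix.map_apply, Matrix.of_apply, pderiv_map]
    rw [e, h]
    congr 1
  · intro i
    have h1 := (R226.JC4.not_injective ℝ).1 i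
    have h2 := (R226.JC4.not_injective ℝ).2 i
    rw [aeval_def, ← eval_map] at h1 h2
    exact h1.trans h2.symm

/-- The negation of the preceding statement: For every n ≥ 2, a C¹ map f from ℝⁿ to ℝⁿ whose Jacobian is everywhere invertible, with every complex eigenvalue of every Jacobian of modulus at least some fixed ε > 0, is injective. -/
theorem result :
    ¬ (∀ n : ℕ, 2 ≤ n → ∀ f : (Fin n → ℝ) → (Fin n → ℝ), ContDiff ℝ 1 f →
      (∀ x : Fin n → ℝ,
        (LinearMap.toMatrix' ((fderiv ℝ f x : (Fin n → ℝ) →L[ℝ] (Fin n → ℝ)) :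
          (Fin n → ℝ) →ₗ[ℝ] (Fin n → ℝ))).det ≠ 0) →
      (∃ ε : ℝ, 0 < ε ∧ ∀ x : Fin n → ℝ, ∀ z : ℂ,
        Polynomial.aeval z
          (LinearMap.toMatrix' ((fderiv ℝ f x : (Fin n → ℝ) →L[ℝ] (Fin n → ℝ)) :
            (Fin n → ℝ) →ₗ[ℝ] (Fin n → ℝ))).charpoly = 0 → ε ≤ ‖z‖) →
      Function.Injective f) := by
  intro H
  obtain ⟨m, f, hf, heig, hninj⟩ := core
  apply hninj
  refine H ((m + 1) * 4) (by omega) f hf ?_ ⟨1, one_pos, ?_⟩
  · intro x h0
    have h1 : Polynomial.aeval (0 : ℂ) (LinearMap.toMatrix'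
        ((fderiv ℝ f x : (Fin ((m + 1) * 4) → ℝ) →L[ℝ] (Fin ((m + 1) * 4) → ℝ)) :
          (Fin ((m + 1) * 4) → ℝ) →ₗ[ℝ] (Fin ((m + 1) * 4) → ℝ))).charpoly = 0 := by
      have h2 : (LinearMap.toMatrix'
        ((fderiv ℝ f x : (Fin ((m + 1) * 4) → ℝ) →L[ℝ] (Fin ((m + 1) * 4) → ℝ)) :
          (Fin ((m + 1) * 4) → ℝ) →ₗ[ℝ] (Fin ((m + 1) * 4) → ℝ))).charpoly.eval 0 = 0 := by
        rw [Matrix.eval_charpoly, map_zero, zero_sub, Matrix.det_neg, h0, mul_zero]
      have h3 := Polynomial.aeval_algebraMap_apply ℂ (0 : ℝ) (LinearMap.toMatrix'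
        ((fderiv ℝ f x : (Fin ((m + 1) * 4) → ℝ) →L[ℝ] (Fin ((m + 1) * 4) → ℝ)) :
          (Fin ((m + 1) * 4) → ℝ) →ₗ[ℝ] (Fin ((m + 1) * 4) → ℝ))).charpoly
      rw [map_zero, Polynomial.coe_aeval_eq_eval, h2, map_zero] at h3
      exact h3
    exact zero_ne_one (heig x 0 h1)
  · intro x z hz
    rw [heig x z hz, norm_one]

end Pool.Agent.S05242
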