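import Pool.Statements.S05335

set_option autoImplicit false
open Pool Pool.MP_8c09cc_an

namespace Pool.Agent.S05335

section aux

variable {X : Type} [NormedAddCommGroup X] [NormedSpace ℂ X]

/-- A homogeneous polynomial bounded by `M` on the pairs `(x, x*)` with `x* x = 1` moves the unit
ball, in the first order, by at most `M`. -/
lemma small_step {k : ℕ} (A : ContinuousMultilinearMap ℂ (fun _ : Fin k => X) X) {M η : ℝ}
    (hη : 0 < η) (hM0 : 0 ≤ M)
    (hM : ∀ (x : X) (f : X →L[ℂ] ℂ), ‖x‖ = 1 → ‖f‖ = 1 → f x = 1 → ‖f (A (fun _ => x))‖ ≤ M) :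
    ∃ α : ℝ, 0 < α ∧ ∀ (z : X) (θ : ℂ), ‖z‖ ≤ 1 → ‖θ‖ = 1 →
      ‖z + (α : ℂ) • θ • A (fun _ => z)‖ ≤ 1 + α * (M + η) := by
  set C : ℝ := ‖A‖ with hC
  have hC0 : 0 ≤ C := norm_nonneg _
  -- choice of alpha
  have hlim : Filter.Tendsto (fun a : ℝ => (1 + a * C) ^ k * M +
      C * k * (1 + a * C) ^ (k - 1) * (a * C)) (nhdsWithin 0 (Set.Ioi 0)) (nhds M) := by
    have h1 : Continuous (fun a : ℝ => (1 + a * C) ^ k * M +
      C * k * (1 + a * C) ^ (k - 1) * (a * C)) := by fun_prop
    have h2 := (h1.tendsto 0).mono_left (nhdsWithin_le_nhds (s := Set.Ioi (0 : ℝ)))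
    simpa using h2
  have hev := (hlim.eventually (gt_mem_nhds (show M < M + η by linarith))).and
    self_mem_nhdsWithin
  obtain ⟨α, hα1, hα2⟩ := hev.exists
  have hα : 0 < α := hα2
  refine ⟨α, hα, fun z θ hz hθ => ?_⟩
  set w : X := z + (α : ℂ) • θ • A (fun _ => z) with hw
  by_cases hw0 : ‖w‖ = 0
  · rw [hw0]; positivity
  obtain ⟨g, hg1, hg2⟩ := exists_dual_vector ℂ w hw0
  have hwpos : 0 < ‖w‖ := lt_of_le_of_ne (norm_nonneg _) (Ne.symm hw0)
  have hAz : ‖A (fun _ => z)‖ ≤ C := by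
    have h1 := A.le_opNorm (fun _ => z)
    have h2 : ∏ _i : Fin k, ‖z‖ ≤ 1 := by
      simp only [Finset.prod_const, Finset.card_univ, Fintype.card_fin]
      exact pow_le_one₀ (norm_nonneg _) hz
    calc ‖A (fun _ => z)‖ ≤ C * ∏ _i : Fin k, ‖z‖ := h1
      _ ≤ C * 1 := mul_le_mul_of_nonneg_left h2 hC0
      _ = C := mul_one _
  have hwz : ‖w - z‖ ≤ α * C := by
    have : w - z = (α : ℂ) • θ • A (fun _ => z) := by rw [hw]; abel
    rw [this, norm_smul, norm_smul, hθ, one_mul, Complex.norm_real, Real.norm_of_nonneg hα.le]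
    exact mul_le_mul_of_nonneg_left hAz hα.le
  have hwn : ‖w‖ ≤ 1 + α * C := by
    have : ‖w‖ ≤ ‖z‖ + ‖w - z‖ := by
      have := norm_add_le z (w - z)
      simpa using this
    linarith
  -- bound at w
  set u : X := ((‖w‖⁻¹ : ℝ) : ℂ) • w with hu
  have hu1 : ‖u‖ = 1 := by
    rw [hu, norm_smul, Complex.norm_real, norm_inv, norm_norm, inv_mul_cancel₀ hw0]
  have hgu : g u = 1 := by
    rw [hu, map_smul, hg2, smul_eq_mul]
    have hc : ((‖w‖ : ℝ) : ℂ) ≠ 0 := by exact_mod_cast hw0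
    rw [Complex.ofReal_inv]
    exact inv_mul_cancel₀ hc
  have hwu : (fun _ : Fin k => w) = fun _ : Fin k => ((‖w‖ : ℝ) : ℂ) • u := by
    funext _
    rw [hu, smul_smul, ← Complex.ofReal_mul, mul_inv_cancel₀ hw0]
    simp
  have hAw : ‖g (A (fun _ => w))‖ ≤ ‖w‖ ^ k * M := by
    have h1 : A (fun _ => w) = (((‖w‖ : ℝ) : ℂ) ^ k) • A (fun _ => u) := by
      rw [hwu]
      have := A.map_smul_univ (fun _ : Fin k => ((‖w‖ : ℝ) : ℂ)) (fun _ => u)
      simpa using this
    rw [h1, map_smul, norm_smul, norm_pow, Complex.norm_real, norm_norm]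
    exact mul_le_mul_of_nonneg_left (hM u g hu1 hg1 hgu) (by positivity)
  have hdiff : ‖A (fun _ => z) - A (fun _ => w)‖ ≤ C * k * (1 + α * C) ^ (k - 1) * (α * C) := by
    have h1 := A.norm_image_sub_le (fun _ => z) (fun _ => w)
    rw [Fintype.card_fin] at h1
    have h2 : max ‖(fun _ : Fin k => z)‖ ‖(fun _ : Fin k => w)‖ ≤ 1 + α * C := by
      refine max_le ?_ ?_
      · exact (pi_norm_const_le z).trans (by nlinarith)
      · exact (pi_norm_const_le w).trans hwn
    have h3 : ‖(fun _ : Fin k => z) - (fun _ : Fin k => w)‖ ≤ α * C := by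
      have h4 : (fun _ : Fin k => z) - (fun _ : Fin k => w) = fun _ : Fin k => (z - w) := rfl
      rw [h4]
      refine (pi_norm_const_le _).trans ?_
      rw [norm_sub_rev]; exact hwz
    have h5 : (0 : ℝ) ≤ max ‖(fun _ : Fin k => z)‖ ‖(fun _ : Fin k => w)‖ :=
      le_max_of_le_left (norm_nonneg _)
    calc ‖A (fun _ => z) - A (fun _ => w)‖
        ≤ C * k * max ‖(fun _ : Fin k => z)‖ ‖(fun _ : Fin k => w)‖ ^ (k - 1) *
          ‖(fun _ : Fin k => z) - (fun _ : Fin k => w)‖ := h1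
      _ ≤ C * k * (1 + α * C) ^ (k - 1) * (α * C) := by gcongr
  have hgA : ‖g (A (fun _ => z))‖ ≤ ‖w‖ ^ k * M + C * k * (1 + α * C) ^ (k - 1) * (α * C) := by
    have h1 : g (A (fun _ => z)) = g (A (fun _ => w)) + g (A (fun _ => z) - A (fun _ => w)) := by
      rw [← map_add]; congr 1; abel
    rw [h1]
    refine (norm_add_le _ _).trans (add_le_add hAw ?_)
    refine (g.le_opNorm _).trans ?_
    rw [hg1, one_mul]
    exact hdiff
  have hgz : ‖g z‖ ≤ 1 := (g.le_opNorm z).trans (by rw [hg1, one_mul]; exact hz)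
  have hmain : ‖w‖ ≤ 1 + α * ‖g (A (fun _ => z))‖ := by
    have h1 : ((‖w‖ : ℝ) : ℂ) = g z + (α : ℂ) * (θ * g (A (fun _ => z))) := by
      have : g w = g z + (α : ℂ) * (θ * g (A (fun _ => z))) := by
        rw [hw, map_add, map_smul, map_smul, smul_eq_mul, smul_eq_mul]
      rw [← this]; exact hg2.symm
    have h2 : ‖w‖ = ‖g z + (α : ℂ) * (θ * g (A (fun _ => z)))‖ := by
      rw [← h1, Complex.norm_real, norm_norm]
    rw [h2]
    refine (norm_add_le _ _).trans (add_le_add hgz ?_)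
    rw [norm_mul, norm_mul, hθ, one_mul, Complex.norm_real, Real.norm_of_nonneg hα.le]
  have hpow : ‖w‖ ^ k * M ≤ (1 + α * C) ^ k * M := by
    gcongr
  have : ‖g (A (fun _ => z))‖ ≤ M + η := by linarith
  calc ‖w‖ ≤ 1 + α * ‖g (A (fun _ => z))‖ := hmain
    _ ≤ 1 + α * (M + η) := by gcongr

end aux

/-- The polynomial `f ↦ A (f(t), ..., f(t))` on `C(K, X)`. -/
noncomputable def lift {k : ℕ} {X : Type} [NormedAddCommGroup X] [NormedSpace ℂ X]
    (K : Type) [TopologicalSpace K] [CompactSpace K]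
    (A : ContinuousMultilinearMap ℂ (fun _ : Fin k => X) X) :
    ContinuousMultilinearMap ℂ (fun _ : Fin k => C(K, X)) C(K, X) :=
  MultilinearMap.mkContinuous
    { toFun := fun m => ⟨fun t => A (fun i => m i t),
        A.cont.comp (continuous_pi fun i => (m i).continuous)⟩
      map_update_add' := by
        intro _ m i x y
        ext t
        have h : ∀ v : C(K, X), (fun j => (Function.update m i v) j t)
            = Function.update (fun j => m j t) i (v t) := by
          intro v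
          funext j
          by_cases hj : j = i
          · subst hj; simp
          · simp [hj]
        simp only [ContinuousMap.coe_mk, ContinuousMap.add_apply, h, A.map_update_add]
      map_update_smul' := by
        intro _ m i c x
        ext t
        have h : ∀ v : C(K, X), (fun j => (Function.update m i v) j t)
            = Function.update (fun j => m j t) i (v t) := by
          intro v
          funext j
          by_cases hj : j = i
          · subst hj; simp
          · simp [hj]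
        simp only [ContinuousMap.coe_mk, ContinuousMap.smul_apply, h, A.map_update_smul] }
    ‖A‖ (by
      intro m
      refine (ContinuousMap.norm_le _ (by positivity)).2 fun t => ?_
      refine (A.le_opNorm _).trans ?_
      refine mul_le_mul_of_nonneg_left ?_ (norm_nonneg _)
      exact Finset.prod_le_prod (fun _ _ => norm_nonneg _)
        fun i _ => ContinuousMap.norm_coe_le_norm (m i) t)

lemma lift_apply {k : ℕ} {X : Type} [NormedAddCommGroup X] [NormedSpace ℂ X]
    (K : Type) [TopologicalSpace K] [CompactSpace K]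
    (A : ContinuousMultilinearMap ℂ (fun _ : Fin k => X) X) (m : Fin k → C(K, X)) (t : K) :
    lift K A m t = A (fun i => m i t) := rfl

/-- For every k ≥ 1, nontrivial complex Banach space X and nonempty compact Hausdorff K, the k-th polynomial numerical index of C(K,X) equals that of X: a constant c bounds v(P) ≥ c‖P‖ for all k-homogeneous P on X iff it does on C(K,X). -/
theorem result :
  ∀ (k : ℕ), 1 ≤ k →
  ∀ (X : Type) [NormedAddCommGroup X] [NormedSpace ℂ X] [CompleteSpace X] [Nontrivial X],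
  ∀ (K : Type) [TopologicalSpace K] [CompactSpace K] [T2Space K] [Nonempty K],
  ∀ c : ℝ,
    (∀ (A : ContinuousMultilinearMap ℂ (fun _ : Fin k => X) X) (y : X), ‖y‖ ≤ 1 →
      ∀ ε : ℝ, 0 < ε →
        ∃ (x : X) (f : X →L[ℂ] ℂ), ‖x‖ = 1 ∧ ‖f‖ = 1 ∧ f x = 1 ∧
          c * ‖A (fun _ => y)‖ - ε < ‖f (A (fun _ => x))‖) ↔
    (∀ (A : ContinuousMultilinearMap ℂ (fun _ : Fin k => C(K, X)) C(K, X)) (y : C(K, X)),
      ‖y‖ ≤ 1 → ∀ ε : ℝ, 0 < ε →
        ∃ (x : C(K, X)) (f : C(K, X) →L[ℂ] ℂ), ‖x‖ = 1 ∧ ‖f‖ = 1 ∧ f x = 1 ∧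
          c * ‖A (fun _ => y)‖ - ε < ‖f (A (fun _ => x))‖) := by
  intro k hk X _ _ _ _ K _ _ _ _ c
  constructor
  · intro hX A y hy ε hε
    -- a point where the norm is attained
    obtain ⟨t0, -, ht0⟩ := isCompact_univ.exists_isMaxOn (Set.univ_nonempty (α := K))
      (f := fun t => ‖A (fun _ => y) t‖) (A (fun _ => y)).continuous.norm.continuousOn
    have hnorm : ‖A (fun _ => y)‖ ≤ ‖A (fun _ => y) t0‖ :=
      (ContinuousMap.norm_le _ (norm_nonneg _)).2 fun t => ht0 (Set.mem_univ t)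
    set η : ℝ := ε / (2 * (|c| + 1)) with hη
    have hη0 : 0 < η := by positivity
    -- continuity of the value at `t0`
    have hcontA : Continuous (fun g : C(K, X) => ‖A (fun _ => g) t0‖) := by
      have h1 : Continuous (fun g : C(K, X) => A (fun _ => g)) :=
        A.cont.comp (continuous_pi fun _ => continuous_id)
      exact ((ContinuousMap.evalCLM ℂ t0).continuous.comp h1).norm
    obtain ⟨δ, hδ, hδ'⟩ := Metric.continuous_iff.1 hcontA y η hη0
    -- Urysohn function
    set U : Set K := {t | ‖y t - y t0‖ < δ / 2} with hU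
    have hUo : IsOpen U := isOpen_lt (by fun_prop) continuous_const
    have ht0U : t0 ∈ U := by simp [hU, hδ]
    obtain ⟨φ, hφ0, hφ1, hφ⟩ := exists_continuous_zero_one_of_isClosed (s := Uᶜ) (t := {t0})
      hUo.isClosed_compl isClosed_singleton (by
        rw [Set.disjoint_singleton_right]; exact fun h => h ht0U)
    have hφt0 : φ t0 = 1 := hφ1 rfl
    -- unit vector in the direction of `y t0`
    obtain ⟨u0, hu0, hu0'⟩ : ∃ u : X, ‖u‖ = 1 ∧ y t0 = ((‖y t0‖ : ℝ) : ℂ) • u := by
      by_cases h : y t0 = 0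
      · obtain ⟨v, hv⟩ := exists_ne (0 : X)
        have hv' : ‖v‖ ≠ 0 := norm_ne_zero_iff.2 hv
        refine ⟨((‖v‖⁻¹ : ℝ) : ℂ) • v, ?_, by simp [h]⟩
        rw [norm_smul, Complex.norm_real, norm_inv, norm_norm, inv_mul_cancel₀ hv']
      · have hv' : ‖y t0‖ ≠ 0 := norm_ne_zero_iff.2 h
        refine ⟨((‖y t0‖⁻¹ : ℝ) : ℂ) • y t0, ?_, ?_⟩
        · rw [norm_smul, Complex.norm_real, norm_inv, norm_norm, inv_mul_cancel₀ hv']
        · rw [smul_smul, ← Complex.ofReal_mul, mul_inv_cancel₀ hv']; simp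
    -- the affine disc
    let a : C(K, X) := ⟨fun t => ((1 - φ t : ℝ) : ℂ) • y t, by fun_prop⟩
    let b : C(K, X) := ⟨fun t => ((φ t : ℝ) : ℂ) • u0, by fun_prop⟩
    let G : ℂ → C(K, X) := fun z => a + z • b
    have hGn : ∀ z : ℂ, ‖z‖ ≤ 1 → ‖G z‖ ≤ 1 := by
      intro z hz
      refine (ContinuousMap.norm_le _ zero_le_one).2 fun t => ?_
      have h1 : G z t = ((1 - φ t : ℝ) : ℂ) • y t + z • (((φ t : ℝ) : ℂ) • u0) := rfl
      rw [h1]
      have h2 := hφ t
      have h3 : ‖y t‖ ≤ 1 := (ContinuousMap.norm_coe_le_norm y t).trans hy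
      refine (norm_add_le _ _).trans ?_
      rw [norm_smul, norm_smul, norm_smul, hu0, mul_one, Complex.norm_real, Complex.norm_real,
        Real.norm_of_nonneg h2.1, Real.norm_of_nonneg (by linarith [h2.2])]
      have h4 : (1 - φ t) * ‖y t‖ ≤ (1 - φ t) * 1 :=
        mul_le_mul_of_nonneg_left h3 (by linarith [h2.2])
      have h5 : ‖z‖ * φ t ≤ 1 * φ t := mul_le_mul_of_nonneg_right hz h2.1
      linarith
    have hG0 : ‖G ((‖y t0‖ : ℝ) : ℂ) - y‖ < δ := by
      refine lt_of_le_of_lt ((ContinuousMap.norm_le _ (by positivity)).2 fun t => ?_)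
        (half_lt_self hδ)
      have h1 : (G ((‖y t0‖ : ℝ) : ℂ) - y) t = ((φ t : ℝ) : ℂ) • (y t0 - y t) := by
        have h2 : (G ((‖y t0‖ : ℝ) : ℂ) - y) t = ((1 - φ t : ℝ) : ℂ) • y t +
          ((‖y t0‖ : ℝ) : ℂ) • (((φ t : ℝ) : ℂ) • u0) - y t := rfl
        rw [h2, smul_comm ((‖y t0‖ : ℝ) : ℂ), ← hu0', smul_sub]
        push_cast
        rw [sub_smul, one_smul]
        abel
      rw [h1, norm_smul, Complex.norm_real, Real.norm_of_nonneg (hφ t).1]
      by_cases ht : t ∈ U
      · have h3 : ‖y t0 - y t‖ ≤ δ / 2 := by rw [norm_sub_rev]; exact le_of_lt ht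
        calc φ t * ‖y t0 - y t‖ ≤ 1 * (δ / 2) :=
              mul_le_mul (hφ t).2 h3 (norm_nonneg _) zero_le_one
          _ = δ / 2 := one_mul _
      · have h4 : φ t = 0 := hφ0 ht
        rw [h4, zero_mul]; positivity
    -- maximum modulus
    have hdiff : Differentiable ℂ (fun z : ℂ => A (fun _ => G z) t0) := by
      have h1 : Differentiable ℂ (fun z : ℂ => A (fun _ => G z)) := by
        have h2 : Differentiable ℂ (fun z : ℂ => (fun _ : Fin k => G z)) := by
          refine differentiable_pi.2 fun _ => ?_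
          exact (differentiable_const a).add (differentiable_id.smul_const b)
        exact (A.contDiff (n := 1)).differentiable (by simp) |>.comp h2
      exact (ContinuousMap.evalCLM ℂ t0).differentiable.comp h1
    obtain ⟨z1, hz1, hz1'⟩ := Complex.exists_mem_frontier_isMaxOn_norm
      (f := fun z : ℂ => A (fun _ => G z) t0) (U := Metric.ball (0 : ℂ) 1)
      Metric.isBounded_ball ⟨0, by simp⟩ hdiff.diffContOnCl
    rw [frontier_ball _ one_ne_zero, mem_sphere_zero_iff_norm] at hz1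
    have hyt0 : ‖y t0‖ ≤ 1 := (ContinuousMap.norm_coe_le_norm y t0).trans hy
    have hbig : ‖A (fun _ => y)‖ - η < ‖A (fun _ => G z1) t0‖ := by
      have h1 : ((‖y t0‖ : ℝ) : ℂ) ∈ closure (Metric.ball (0 : ℂ) 1) := by
        rw [closure_ball _ one_ne_zero, mem_closedBall_zero_iff, Complex.norm_real, norm_norm]
        exact hyt0
      have h2 : ‖A (fun _ => G ((‖y t0‖ : ℝ) : ℂ)) t0‖ ≤ ‖A (fun _ => G z1) t0‖ := hz1' h1
      have h3 := hδ' (G ((‖y t0‖ : ℝ) : ℂ)) (by rw [dist_eq_norm]; exact hG0)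
      rw [Real.dist_eq] at h3
      have h4 := (abs_lt.1 h3).1
      linarith
    -- norming functional of `x1 = z1 u0`
    set x1 : X := z1 • u0 with hx1
    have hx1n : ‖x1‖ = 1 := by rw [hx1, norm_smul, hz1, hu0, one_mul]
    obtain ⟨g, hg1, hg2⟩ := exists_dual_vector ℂ x1 (by rw [hx1n]; exact one_ne_zero)
    have hgx1 : g x1 = 1 := by rw [hg2, hx1n]; simp
    -- the operator
    let Φ : X →L[ℂ] C(K, X) := LinearMap.mkContinuous
      { toFun := fun x => ⟨fun t => ((1 - φ t : ℝ) : ℂ) • (g x • y t) + ((φ t : ℝ) : ℂ) • x, by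
          fun_prop⟩
        map_add' := by
          intro x x'
          ext t
          simp only [ContinuousMap.coe_mk, ContinuousMap.add_apply, map_add, add_smul, smul_add]
          abel
        map_smul' := by
          intro r x
          ext t
          simp only [ContinuousMap.coe_mk, ContinuousMap.smul_apply, map_smul, smul_eq_mul,
            RingHom.id_apply, smul_add]
          rw [smul_comm ((φ t : ℝ) : ℂ) r, mul_smul, smul_comm ((1 - φ t : ℝ) : ℂ) r] }
      1 (by
        intro x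
        rw [one_mul]
        refine (ContinuousMap.norm_le _ (norm_nonneg _)).2 fun t => ?_
        have h2 := hφ t
        have h3 : ‖y t‖ ≤ 1 := (ContinuousMap.norm_coe_le_norm y t).trans hy
        have h4 : ‖g x‖ ≤ ‖x‖ := (g.le_opNorm x).trans (by rw [hg1, one_mul])
        change ‖((1 - φ t : ℝ) : ℂ) • (g x • y t) + ((φ t : ℝ) : ℂ) • x‖ ≤ ‖x‖
        refine (norm_add_le _ _).trans ?_
        rw [norm_smul, norm_smul, norm_smul, Complex.norm_real, Complex.norm_real,
          Real.norm_of_nonneg h2.1, Real.norm_of_nonneg (by linarith [h2.2])]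
        have h5 : ‖g x‖ * ‖y t‖ ≤ ‖x‖ * 1 :=
          mul_le_mul h4 h3 (norm_nonneg _) (norm_nonneg _)
        have h6 : (1 - φ t) * (‖g x‖ * ‖y t‖) ≤ (1 - φ t) * (‖x‖ * 1) :=
          mul_le_mul_of_nonneg_left h5 (by linarith [h2.2])
        linarith)
    have hΦt : ∀ (x : X) (t : K), Φ x t =
        ((1 - φ t : ℝ) : ℂ) • (g x • y t) + ((φ t : ℝ) : ℂ) • x := fun _ _ => rfl
    have hΦt0 : ∀ x : X, Φ x t0 = x := by
      intro x
      rw [hΦt, hφt0]; simp
    have hΦn : ∀ x : X, ‖Φ x‖ = ‖x‖ := by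
      intro x
      refine le_antisymm ?_ ?_
      · have h := Φ.le_of_opNorm_le (c := 1)
          (LinearMap.mkContinuous_norm_le _ zero_le_one _) x
        simpa using h
      · have := ContinuousMap.norm_coe_le_norm (Φ x) t0
        rwa [hΦt0] at this
    have hΦx1 : Φ x1 = G z1 := by
      ext t
      rw [hΦt, hgx1, one_smul]
      change _ = ((1 - φ t : ℝ) : ℂ) • y t + z1 • (((φ t : ℝ) : ℂ) • u0)
      rw [hx1, smul_comm z1]
    let B : ContinuousMultilinearMap ℂ (fun _ : Fin k => X) X :=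
      (ContinuousMap.evalCLM ℂ t0).compContinuousMultilinearMap
        (A.compContinuousLinearMap (fun _ => Φ))
    have hB : ∀ x : X, B (fun _ => x) = A (fun _ => Φ x) t0 := fun x => rfl
    obtain ⟨x, f, hx, hf, hfx, hlt⟩ := hX B x1 hx1n.le (ε / 2) (by positivity)
    rw [hB, hB, hΦx1] at hlt
    refine ⟨Φ x, f.comp (ContinuousMap.evalCLM ℂ t0), by rw [hΦn, hx], ?_, ?_, ?_⟩
    · refine le_antisymm ?_ ?_
      · refine ContinuousLinearMap.opNorm_le_bound _ zero_le_one fun h => ?_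
        change ‖f (h t0)‖ ≤ 1 * ‖h‖
        refine (f.le_opNorm _).trans ?_
        rw [hf]
        gcongr
        exact ContinuousMap.norm_coe_le_norm h t0
      · have h1 := (f.comp (ContinuousMap.evalCLM ℂ t0)).le_opNorm (Φ x)
        have h2 : (f.comp (ContinuousMap.evalCLM ℂ t0)) (Φ x) = 1 := by
          change f (Φ x t0) = 1
          rw [hΦt0, hfx]
        rw [h2, hΦn, hx, mul_one, norm_one] at h1
        exact h1
    · change f (Φ x t0) = 1
      rw [hΦt0, hfx]
    · change _ < ‖f (A (fun _ => Φ x) t0)‖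
      rcases le_or_gt 0 c with hc | hc
      · refine lt_of_le_of_lt ?_ hlt
        have h1 : c * (‖A (fun _ => y)‖ - η) ≤ c * ‖A (fun _ => G z1) t0‖ :=
          mul_le_mul_of_nonneg_left hbig.le hc
        have h2 : c * η ≤ ε / 2 := by
          rw [hη, abs_of_nonneg hc, mul_div_assoc', div_le_div_iff₀ (by positivity) (by norm_num)]
          nlinarith
        linarith
      · refine lt_of_lt_of_le ?_ (norm_nonneg _)
        have h1 : c * ‖A (fun _ => y)‖ ≤ 0 :=
          mul_nonpos_of_nonpos_of_nonneg hc.le (norm_nonneg _)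
        linarith
  · intro hC A y hy ε hε
    by_contra hcon
    push Not at hcon
    set M : ℝ := c * ‖A (fun _ => y)‖ - ε with hM
    -- there is a pair in `Π(X)`
    have hM0 : 0 ≤ M := by
      obtain ⟨v, hv⟩ := exists_ne (0 : X)
      have hv' : ‖v‖ ≠ 0 := norm_ne_zero_iff.2 hv
      have hv1 : ‖((‖v‖⁻¹ : ℝ) : ℂ) • v‖ = 1 := by
        rw [norm_smul, Complex.norm_real, norm_inv, norm_norm, inv_mul_cancel₀ hv']
      obtain ⟨g, hg1, hg2⟩ := exists_dual_vector ℂ (((‖v‖⁻¹ : ℝ) : ℂ) • v)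
        (by rw [hv1]; exact one_ne_zero)
      exact (norm_nonneg _).trans (hcon _ g hv1 hg1 (by rw [hg2, hv1]; simp))
    obtain ⟨α, hα, hstep⟩ := small_step A (M := M) (η := ε / 2) (by positivity) hM0 hcon
    obtain ⟨x, F, hx, hF, hFx, hlt⟩ := hC (lift K A) (ContinuousMap.const K y)
      ((ContinuousMap.norm_le _ zero_le_one).2 fun _ => hy) (ε / 2) (by positivity)
    have h1 : ‖lift K A (fun _ => ContinuousMap.const K y)‖ = ‖A (fun _ => y)‖ := by
      have h2 : lift K A (fun _ => ContinuousMap.const K y) =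
          ContinuousMap.const K (A (fun _ => y)) := by
        ext t; rfl
      rw [h2]
      refine le_antisymm ((ContinuousMap.norm_le _ (norm_nonneg _)).2 fun _ => le_rfl) ?_
      obtain ⟨t⟩ := ‹Nonempty K›
      exact ContinuousMap.norm_coe_le_norm (ContinuousMap.const K (A (fun _ => y))) t
    rw [h1] at hlt
    have hlt' : M + ε / 2 < ‖F (lift K A (fun _ => x))‖ := by rw [hM]; linarith
    set p : ℂ := F (lift K A (fun _ => x)) with hp
    have hp0 : p ≠ 0 := by
      intro h; rw [h, norm_zero] at hlt'; linarith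
    have hpn : ((‖p‖ : ℝ) : ℂ) ≠ 0 := by
      exact_mod_cast (norm_ne_zero_iff.2 hp0)
    obtain ⟨θ, hθ, hθp⟩ : ∃ θ : ℂ, ‖θ‖ = 1 ∧ θ * p = ((‖p‖ : ℝ) : ℂ) := by
      refine ⟨((‖p‖ : ℝ) : ℂ) / p, ?_, div_mul_cancel₀ _ hp0⟩
      rw [norm_div, Complex.norm_real, norm_norm, div_self (norm_ne_zero_iff.2 hp0)]
    have hup : ‖x + (α : ℂ) • θ • lift K A (fun _ => x)‖ ≤ 1 + α * (M + ε / 2) := by
      refine (ContinuousMap.norm_le _ (by positivity)).2 fun t => ?_
      exact hstep (x t) θ ((ContinuousMap.norm_coe_le_norm x t).trans hx.le) hθ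
    have hlow : 1 + α * ‖p‖ ≤ ‖x + (α : ℂ) • θ • lift K A (fun _ => x)‖ := by
      have h2 := F.le_opNorm (x + (α : ℂ) • θ • lift K A (fun _ => x))
      rw [hF, one_mul] at h2
      refine le_trans ?_ h2
      rw [map_add, hFx, map_smul, map_smul, ← hp, smul_eq_mul, smul_eq_mul, hθp]
      rw [← Complex.ofReal_mul, ← Complex.ofReal_one, ← Complex.ofReal_add, Complex.norm_real,
        Real.norm_of_nonneg (by positivity)]
    have : α * (M + ε / 2) < α * ‖p‖ := mul_lt_mul_of_pos_left hlt' hα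
    linarith

end Pool.Agent.S05335
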