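import Pool.Statements.S05348
import Pool.Agent.R295.IncrAU2

set_option autoImplicit false
open Filter Topology
open Pool Pool.MP_8d2143_an

namespace Pool.Agent.S05348

/-- The negation of the preceding statement: Every C*-algebra that has an approximate identity (a net over a nonempty directed set) made of projections also has one made of projections that increases, meaning e_i e_j = e_i whenever i ≤ j. -/
theorem result :
    ¬ (∀ (A : Type) [NonUnitalCStarAlgebra A],
      (∃ (Λ : Type) (_ : Preorder Λ) (_ : IsDirected Λ (· ≤ ·)) (_ : Nonempty Λ) (e : Λ → A),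
        (∀ i, IsIdempotentElem (e i) ∧ IsSelfAdjoint (e i)) ∧
        ∀ a : A, Tendsto (fun i => e i * a) atTop (𝓝 a) ∧
          Tendsto (fun i => a * e i) atTop (𝓝 a)) →
      (∃ (Λ : Type) (_ : Preorder Λ) (_ : IsDirected Λ (· ≤ ·)) (_ : Nonempty Λ) (e : Λ → A),
        (∀ i, IsIdempotentElem (e i) ∧ IsSelfAdjoint (e i)) ∧
        (∀ i j, i ≤ j → e i * e j = e i) ∧
        ∀ a : A, Tendsto (fun i => e i * a) atTop (𝓝 a) ∧
          Tendsto (fun i => a * e i) atTop (𝓝 a))) := by
  classical
  intro H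
  let i0 : CStarAlgebra (Matrix (Fin 2) (Fin 2) ℂ) := Matrix.instCStarAlgebra
  let X : Type := (Cardinal.aleph 2).out
  have hX : Cardinal.aleph 2 ≤ Cardinal.mk X := by
    rw [Cardinal.mk_out]
  let A := R295.IncrAU.alg R295.IncrAU.data X
  have hcl : IsClosed (A : Set (R295.IncrAU.Amb (Matrix (Fin 2) (Fin 2) ℂ) X)) :=
    NonUnitalStarSubalgebra.isClosed_topologicalClosure _
  let i4 : NonUnitalCStarAlgebra A :=
    NonUnitalStarSubalgebra.nonUnitalCStarAlgebra A (h_closed := hcl)
  have hap : ∃ (Λ : Type) (_ : Preorder Λ) (_ : IsDirected Λ (· ≤ ·)) (_ : Nonempty Λ)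
      (e : Λ → A), (∀ i, IsIdempotentElem (e i) ∧ IsSelfAdjoint (e i)) ∧
        ∀ a : A, Tendsto (fun i => e i * a) atTop (𝓝 a) ∧
          Tendsto (fun i => a * e i) atTop (𝓝 a) := by
    refine ⟨Finset X × ℕ, inferInstance, inferInstance, inferInstance,
      fun i => ⟨R295.IncrAU.eAmb R295.IncrAU.data i.1 i.2, R295.IncrAU.eAmb_mem _ _ _⟩, ?_, ?_⟩
    · intro i
      refine ⟨?_, ?_⟩
      · apply Subtype.ext
        ext1
        funext y
        exact R295.IncrAU.eFun_idem R295.IncrAU.data i.1 i.2 y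
      · apply Subtype.ext
        ext1
        funext y
        exact R295.IncrAU.eFun_star R295.IncrAU.data i.1 i.2 y
    · intro a
      obtain ⟨k1, k2⟩ := R295.IncrAU.has_approx R295.IncrAU.data a.2
      exact ⟨tendsto_subtype_rng.2 k1, tendsto_subtype_rng.2 k2⟩
  obtain ⟨Λ, i1, i2, i3, e, h1, h2, h3⟩ := H A hap
  refine R295.IncrAU.no_incr R295.IncrAU.data hX (fun i => (e i : R295.IncrAU.Amb _ X))
    (fun i => (e i).2) (fun i => congrArg Subtype.val (h1 i).1)
    (fun i j hij => congrArg Subtype.val (h2 i j hij)) ?_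
  intro a ha
  exact (continuous_subtype_val.tendsto _).comp (h3 ⟨a, ha⟩).1

end Pool.Agent.S05348
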