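import Pool.Statements.S05466
-- import your own Pool.Agent.* helpers here

set_option autoImplicit false
open MeasureTheory Filter Topology
open Pool Pool.MP_95eb0c_an

namespace Pool.Agent.S05466

/-! ### A square wave -/

/-- the `1`-periodic square wave with values `1` on `[0,1/2)` and `0` on `[1/2,1)` -/
noncomputable def sq (y : ℝ) : ℝ := if Int.fract y < 1 / 2 then 1 else 0

lemma sq_measurable : Measurable sq :=
  Measurable.ite (measurable_fract measurableSet_Iio) measurable_const measurable_const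

lemma sq_zero_or_one (y : ℝ) : sq y = 0 ∨ sq y = 1 := by
  unfold sq; split_ifs <;> simp

lemma sq_half (y : ℝ) : sq (y + 1 / 2) = 1 - sq y := by
  unfold sq
  have h0 := Int.fract_nonneg y
  have h1 := Int.fract_lt_one y
  by_cases h : Int.fract y < 1 / 2
  · have h2 : Int.fract (y + 1 / 2) = Int.fract y + 1 / 2 := by
      rw [Int.fract_eq_iff]
      refine ⟨by linarith, by linarith, ⌊y⌋, ?_⟩
      have := Int.self_sub_floor y
      linarith
    rw [if_neg (by linarith), if_pos h]; norm_num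
  · have h2 : Int.fract (y + 1 / 2) = Int.fract y - 1 / 2 := by
      rw [Int.fract_eq_iff]
      refine ⟨by linarith, by linarith, ⌊y⌋ + 1, ?_⟩
      have := Int.self_sub_floor y
      push_cast
      linarith
    rw [if_pos (by linarith), if_neg h]; norm_num

/-- the travelling square wave of wave length `1 / (n+1)` and speed `1` -/
noncomputable def th (n : ℕ) (z : ℝ × ℝ) : ℝ := sq (((n : ℝ) + 1) * (z.1 - z.2))

lemma th_measurable (n : ℕ) : Measurable (th n) :=
  sq_measurable.comp (by fun_prop)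

lemma th_zero_or_one (n : ℕ) (z : ℝ × ℝ) : th n z = 0 ∨ th n z = 1 := sq_zero_or_one _

lemma th_shift (n : ℕ) (z : ℝ × ℝ) :
    th n (((1 / (2 * ((n : ℝ) + 1)) : ℝ), (0 : ℝ)) + z) = 1 - th n z := by
  unfold th
  have h : ((n : ℝ) + 1) ≠ 0 := by positivity
  rw [← sq_half]
  congr 1
  simp only [Prod.fst_add, Prod.snd_add]
  field_simp
  ring

/-! ### Travelling waves are weak solutions of the transport equation -/

lemma transport {g : ℝ → ℝ} (hg : Measurable g) {C : ℝ} (hC : ∀ y, |g y| ≤ C)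
    {φ : ℝ × ℝ → ℝ} (hφ : ContDiff ℝ ((⊤ : ℕ∞) : WithTop ℕ∞) φ) (hc : HasCompactSupport φ) :
    ∫ z : ℝ × ℝ, g (z.1 - z.2) * fderiv ℝ φ z (1, 1) = 0 := by
  set T : ℝ × ℝ → ℝ × ℝ := fun w => (w.2 + w.1, w.2) with hT
  have hTm : MeasurePreserving T (volume : Measure (ℝ × ℝ)) volume :=
    (Measure.measurePreserving_swap (μ := (volume : Measure ℝ)) (ν := (volume : Measure ℝ))).comp
      (measurePreserving_prod_add_swap (volume : Measure ℝ) (volume : Measure ℝ))
  have hTc : Continuous T := by fun_prop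
  have hTi : Function.Injective T := by
    rintro ⟨a, b⟩ ⟨c, d⟩ h
    simp only [hT, Prod.mk.injEq] at h
    obtain ⟨h1, h2⟩ := h
    rw [h2] at h1
    rw [h2, add_left_cancel h1]
  have hTe : MeasurableEmbedding T := hTc.measurableEmbedding hTi
  rw [← hTm.integral_comp hTe]
  have hd : Continuous (fun z => fderiv ℝ φ z (1, 1)) :=
    (hφ.continuous_fderiv (by simp)).clm_apply continuous_const
  have hdc : HasCompactSupport (fun z => fderiv ℝ φ z (1, 1)) := hc.fderiv_apply ℝ (1, 1)
  have hTcl : Topology.IsClosedEmbedding T := by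
    let e : (ℝ × ℝ) ≃ₜ (ℝ × ℝ) :=
      { toFun := T
        invFun := fun w => (w.1 - w.2, w.2)
        left_inv := fun w => by simp [hT]
        right_inv := fun w => by simp [hT]
        continuous_toFun := hTc
        continuous_invFun := by fun_prop }
    exact e.isClosedEmbedding
  have hI : Integrable (fun w : ℝ × ℝ => g w.1 * fderiv ℝ φ (T w) (1, 1)) := by
    have h1 : Integrable (fun w : ℝ × ℝ => fderiv ℝ φ (T w) (1, 1)) :=
      (hd.comp hTc).integrable_of_hasCompactSupport (hdc.comp_isClosedEmbedding hTcl)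
    exact h1.bdd_mul (c := C) (hg.comp measurable_fst).aestronglyMeasurable
      (Filter.Eventually.of_forall fun w => by simpa [Real.norm_eq_abs] using hC w.1)
  have e1 : (fun w : ℝ × ℝ => g ((T w).1 - (T w).2) * fderiv ℝ φ (T w) (1, 1)) =
      fun w => g w.1 * fderiv ℝ φ (T w) (1, 1) := by
    funext w
    simp [hT]
  rw [e1]
  rw [Measure.volume_eq_prod] at hI ⊢
  rw [integral_prod _ hI]
  refine (integral_congr_ae (Filter.Eventually.of_forall fun y => ?_)).trans (integral_zero _ _)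
  show ∫ t : ℝ, g y * fderiv ℝ φ (t + y, t) (1, 1) = 0
  rw [integral_const_mul]
  have h2 : ∀ t : ℝ, HasDerivAt (fun t : ℝ => φ (t + y, t)) (fderiv ℝ φ (t + y, t) (1, 1)) t := by
    intro t
    have h3 : HasDerivAt (fun t : ℝ => (t + y, t)) ((1 : ℝ), (1 : ℝ)) t :=
      ((hasDerivAt_id t).add_const y).prodMk (hasDerivAt_id t)
    exact HasFDerivAt.comp_hasDerivAt (f := fun t : ℝ => (t + y, t)) t
      ((hφ.differentiable (by simp)) (t + y, t)).hasFDerivAt h3
  have hcl : Topology.IsClosedEmbedding (fun t : ℝ => (t + y, t)) :=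
    Function.LeftInverse.isClosedEmbedding (f := Prod.snd) (fun t => rfl) continuous_snd
      (by fun_prop)
  have h4 : Integrable (fun t : ℝ => fderiv ℝ φ (t + y, t) (1, 1)) :=
    (hd.comp hcl.continuous).integrable_of_hasCompactSupport (hdc.comp_isClosedEmbedding hcl)
  have h5 : Integrable (fun t : ℝ => φ (t + y, t)) :=
    (hφ.continuous.comp hcl.continuous).integrable_of_hasCompactSupport
      (hc.comp_isClosedEmbedding hcl)
  rw [integral_eq_zero_of_hasDerivAt_of_integrable h2 h4 h5, mul_zero]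


lemma int_fderiv_zero {φ : ℝ × ℝ → ℝ} (hφ : ContDiff ℝ ((⊤ : ℕ∞) : WithTop ℕ∞) φ)
    (hc : HasCompactSupport φ) (w : ℝ × ℝ) : ∫ z : ℝ × ℝ, fderiv ℝ φ z w = 0 := by
  have hd : Continuous (fun z => fderiv ℝ φ z w) :=
    (hφ.continuous_fderiv (by simp)).clm_apply continuous_const
  have hdc : HasCompactSupport (fun z => fderiv ℝ φ z w) := hc.fderiv_apply ℝ w
  have h1 : Integrable (fun z => fderiv ℝ φ z w) := hd.integrable_of_hasCompactSupport hdc
  have h2 : Integrable φ := hφ.continuous.integrable_of_hasCompactSupport hc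
  have := integral_mul_fderiv_eq_neg_fderiv_mul_of_integrable (μ := (volume : Measure (ℝ × ℝ)))
    (f := fun _ => (1 : ℝ)) (g := φ) (v := w) (by simp) (by simpa using h1) (by simpa using h2)
    (fun x _ => by fun_prop) (fun x _ => (hφ.differentiable (by simp)) x)
  simpa using this

lemma th_abs_le (n : ℕ) (z : ℝ × ℝ) : |th n z| ≤ 1 := by
  rcases th_zero_or_one n z with h | h <;> simp [h]

lemma weak (n : ℕ) {φ : ℝ × ℝ → ℝ} (hφ : ContDiff ℝ ((⊤ : ℕ∞) : WithTop ℕ∞) φ)
    (hc : HasCompactSupport φ) (a b c : ℝ) :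
    ∫ z : ℝ × ℝ, (a * fderiv ℝ φ z (0, 1) + b * fderiv ℝ φ z (1, 0)
      + c * (th n z * fderiv ℝ φ z (1, 1))) = 0 := by
  have hi : ∀ w, Integrable (fun z => fderiv ℝ φ z w) := fun w =>
    ((hφ.continuous_fderiv (by simp)).clm_apply continuous_const).integrable_of_hasCompactSupport
      (hc.fderiv_apply ℝ w)
  have h1 : Integrable (fun z : ℝ × ℝ => th n z * fderiv ℝ φ z (1, 1)) :=
    (hi (1, 1)).bdd_mul (c := 1) (th_measurable n).aestronglyMeasurable
      (Filter.Eventually.of_forall fun w => by simpa [Real.norm_eq_abs] using th_abs_le n w)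
  have h0 : Integrable (fun z : ℝ × ℝ => a * fderiv ℝ φ z (0, 1) + b * fderiv ℝ φ z (1, 0)) :=
    ((hi _).const_mul a).add ((hi _).const_mul b)
  rw [integral_add h0 (h1.const_mul c),
    integral_add ((hi _).const_mul a) ((hi _).const_mul b),
    integral_const_mul, integral_const_mul, integral_const_mul,
    int_fderiv_zero hφ hc, int_fderiv_zero hφ hc]
  have h2 := transport (g := fun y => sq (((n : ℝ) + 1) * y)) (sq_measurable.comp (by fun_prop))
    (C := 1) (fun y => by rcases sq_zero_or_one (((n : ℝ) + 1) * y) with h | h <;> simp [h]) hφ hc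
  have h3 : ∫ z : ℝ × ℝ, th n z * fderiv ℝ φ z (1, 1) = 0 := h2
  rw [h3]
  simp

/-! ### Continuity of translations in `L¹` and weak convergence -/

lemma translation {G : ℝ × ℝ → ℝ} (hG : Integrable G) {h : ℕ → ℝ × ℝ}
    (hh : Tendsto h atTop (𝓝 0)) :
    Tendsto (fun n => ∫ z, |G (h n + z) - G z|) atTop (𝓝 0) := by
  have : Fact (1 ≤ (1:ENNReal)) := ⟨le_rfl⟩
  have : Fact ((1:ENNReal) ≠ ⊤) := ⟨by simp⟩
  set F : Lp ℝ 1 (volume : Measure (ℝ×ℝ)) := (memLp_one_iff_integrable.2 hG).toLp G with hF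
  have hc : Continuous (fun a : (ℝ × ℝ)ᵈᵃᵃ => a +ᵥ F) :=
    continuous_vadd.comp (continuous_id.prodMk continuous_const)
  have h1 : Tendsto (fun n => (DomAddAct.mk (h n)) +ᵥ F) atTop
      (𝓝 (DomAddAct.mk (0 : ℝ × ℝ) +ᵥ F)) :=
    (hc.tendsto _).comp ((DomAddAct.continuous_mk.tendsto _).comp hh)
  have h0 : DomAddAct.mk (0 : ℝ × ℝ) +ᵥ F = F := by
    rw [hF, DomAddAct.mk_vadd_toLp]
    congr 1
    funext z
    simp
  rw [h0, tendsto_iff_norm_sub_tendsto_zero] at h1
  refine h1.congr fun n => ?_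
  rw [hF, DomAddAct.mk_vadd_toLp, ← MemLp.toLp_sub, L1.norm_eq_integral_norm]
  refine integral_congr_ae ?_
  filter_upwards [MemLp.coeFn_toLp (((memLp_one_iff_integrable.2 hG).comp_measurePreserving (measurePreserving_vadd (h n) volume)).sub (memLp_one_iff_integrable.2 hG))] with z hz
  refine (congrArg norm hz).trans ?_
  simp [Real.norm_eq_abs]

lemma step_tendsto : Tendsto (fun n : ℕ => (((1 / (2 * ((n : ℝ) + 1)) : ℝ), (0 : ℝ)) : ℝ × ℝ))
    atTop (𝓝 0) := by
  have h : Tendsto (fun n : ℕ => (1 / (2 * ((n : ℝ) + 1)) : ℝ)) atTop (𝓝 0) := by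
    have h1 := (tendsto_one_div_add_atTop_nhds_zero_nat (𝕜 := ℝ)).const_mul (1 / 2 : ℝ)
    rw [mul_zero] at h1
    refine h1.congr fun n => ?_
    have : ((n : ℝ) + 1) ≠ 0 := by positivity
    field_simp
  exact h.prodMk_nhds tendsto_const_nhds

lemma weak_star {G : ℝ × ℝ → ℝ} (hG : Integrable G) :
    Tendsto (fun n => ∫ z, th n z * G z) atTop (𝓝 ((1 / 2 : ℝ) * ∫ z, G z)) := by
  have hb := translation hG step_tendsto
  rw [tendsto_iff_norm_sub_tendsto_zero]
  have hb2 := hb.const_mul (1 / 2 : ℝ)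
  rw [mul_zero] at hb2
  refine squeeze_zero (fun n => norm_nonneg _) (fun n => ?_) hb2
  set h : ℝ × ℝ := ((1 / (2 * ((n : ℝ) + 1)) : ℝ), (0 : ℝ)) with hh
  have hGh : Integrable (fun z => G (h + z)) := hG.comp_add_left h
  have hth : ∀ {F : ℝ × ℝ → ℝ}, Integrable F → Integrable (fun z => th n z * F z) := fun hF =>
    hF.bdd_mul (c := 1) (th_measurable n).aestronglyMeasurable
      (Filter.Eventually.of_forall fun w => by simpa [Real.norm_eq_abs] using th_abs_le n w)
  have e1 : ∫ z, th n z * G z = ∫ z, (1 - th n z) * G (h + z) := by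
    rw [← integral_add_left_eq_self (fun z => th n z * G z) h]
    refine integral_congr_ae (Filter.Eventually.of_forall fun z => ?_)
    simp only []
    rw [th_shift n z]
  have e2 : 2 * (∫ z, th n z * G z) - ∫ z, G z = ∫ z, (1 - th n z) * (G (h + z) - G z) := by
    have e3 : (fun z => (1 - th n z) * (G (h + z) - G z)) =
        fun z => (1 - th n z) * G (h + z) - (G z - th n z * G z) := by
      funext z; ring
    have i1 : Integrable (fun z => (1 - th n z) * G (h + z)) := by
      have : (fun z => (1 - th n z) * G (h + z)) = fun z => G (h + z) - th n z * G (h + z) := by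
        funext z; ring
      rw [this]
      exact hGh.sub (hth hGh)
    have i2 : Integrable (fun z => G z - th n z * G z) := hG.sub (hth hG)
    rw [e3, integral_sub i1 i2, integral_sub hG (hth hG), ← e1]
    ring
  have e4 : (∫ z, th n z * G z) - (1 / 2 : ℝ) * ∫ z, G z =
      (1 / 2 : ℝ) * ∫ z, (1 - th n z) * (G (h + z) - G z) := by
    rw [← e2]; ring
  rw [e4, norm_mul, Real.norm_eq_abs, abs_of_pos (by norm_num : (0 : ℝ) < 1 / 2)]
  refine mul_le_mul_of_nonneg_left ?_ (by norm_num)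
  refine (norm_integral_le_integral_norm _).trans ?_
  refine integral_mono_of_nonneg (Filter.Eventually.of_forall fun z => norm_nonneg _)
    (hGh.sub hG).abs (Filter.Eventually.of_forall fun z => ?_)
  rcases th_zero_or_one n z with hz | hz <;> simp [hz]

lemma half_meas : MeasurableSet {z : ℝ × ℝ | 0 < z.2} := measurableSet_lt measurable_const measurable_snd

lemma half_integral {φ : ℝ × ℝ → ℝ} (hs : tsupport φ ⊆ {z : ℝ × ℝ | 0 < z.2}) {F : ℝ × ℝ → ℝ}
    (hF : ∀ z, fderiv ℝ φ z = 0 → F z = 0) :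
    ∫ z in {z : ℝ × ℝ | 0 < z.2}, F z = ∫ z, F z := by
  refine setIntegral_eq_integral_of_forall_compl_eq_zero fun z hz => hF z ?_
  by_contra h
  exact hz (hs (support_fderiv_subset ℝ h))


/-- The negation of the preceding statement: For ideal gas γ>1, any sequence of bounded weak solutions of 1D Lagrangian gas dynamics on t>0 with uniform bounds τ,p bounded away from 0 and ∣v∣≤V, converging weak-* in L^∞, has velocity and pressure converging in L¹ on every compact subset. -/
theorem result :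
    ¬ (∀ (γ : ℝ), 1 < γ →
  ∀ (τe ve pe : ℕ → ℝ × ℝ → ℝ) (τ v p : ℝ × ℝ → ℝ) (τm τM pm pM V : ℝ),
  0 < τm → τm ≤ τM → 0 < pm → pm ≤ pM →
  (∀ n, AEStronglyMeasurable (τe n) (volume.restrict {z : ℝ × ℝ | 0 < z.2}) ∧
        AEStronglyMeasurable (ve n) (volume.restrict {z : ℝ × ℝ | 0 < z.2}) ∧
        AEStronglyMeasurable (pe n) (volume.restrict {z : ℝ × ℝ | 0 < z.2})) →
  (∀ n, ∀ᵐ z ∂(volume.restrict {z : ℝ × ℝ | 0 < z.2}),
        τm ≤ τe n z ∧ τe n z ≤ τM ∧ pm ≤ pe n z ∧ pe n z ≤ pM ∧ |ve n z| ≤ V) →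
  (∀ n, ∀ φ : ℝ × ℝ → ℝ, ContDiff ℝ ((⊤ : ℕ∞) : WithTop ℕ∞) φ → HasCompactSupport φ →
      tsupport φ ⊆ {z : ℝ × ℝ | 0 < z.2} →
      (∫ z in {z : ℝ × ℝ | 0 < z.2},
          (τe n z * fderiv ℝ φ z (0, 1) - ve n z * fderiv ℝ φ z (1, 0))) = 0 ∧
      (∫ z in {z : ℝ × ℝ | 0 < z.2},
          (ve n z * fderiv ℝ φ z (0, 1) + pe n z * fderiv ℝ φ z (1, 0))) = 0 ∧
      (∫ z in {z : ℝ × ℝ | 0 < z.2},
          ((ve n z ^ 2 / 2 + pe n z * τe n z / (γ - 1)) * fderiv ℝ φ z (0, 1)
            + pe n z * ve n z * fderiv ℝ φ z (1, 0))) = 0) →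
  AEStronglyMeasurable τ (volume.restrict {z : ℝ × ℝ | 0 < z.2}) →
  AEStronglyMeasurable v (volume.restrict {z : ℝ × ℝ | 0 < z.2}) →
  AEStronglyMeasurable p (volume.restrict {z : ℝ × ℝ | 0 < z.2}) →
  (∃ C : ℝ, ∀ᵐ z ∂(volume.restrict {z : ℝ × ℝ | 0 < z.2}),
      |τ z| ≤ C ∧ |v z| ≤ C ∧ |p z| ≤ C) →
  (∀ g : ℝ × ℝ → ℝ, Integrable g (volume.restrict {z : ℝ × ℝ | 0 < z.2}) →
      Tendsto (fun n => ∫ z in {z : ℝ × ℝ | 0 < z.2}, τe n z * g z) atTop
        (𝓝 (∫ z in {z : ℝ × ℝ | 0 < z.2}, τ z * g z)) ∧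
      Tendsto (fun n => ∫ z in {z : ℝ × ℝ | 0 < z.2}, ve n z * g z) atTop
        (𝓝 (∫ z in {z : ℝ × ℝ | 0 < z.2}, v z * g z)) ∧
      Tendsto (fun n => ∫ z in {z : ℝ × ℝ | 0 < z.2}, pe n z * g z) atTop
        (𝓝 (∫ z in {z : ℝ × ℝ | 0 < z.2}, p z * g z))) →
  ∀ K : Set (ℝ × ℝ), IsCompact K → K ⊆ {z : ℝ × ℝ | 0 < z.2} →
    Tendsto (fun n => ∫ z in K, |ve n z - v z|) atTop (𝓝 0) ∧
    Tendsto (fun n => ∫ z in K, |pe n z - p z|) atTop (𝓝 0)) := by
  intro H
  have key := H 3 (by norm_num) (fun n z => 5 - th n z) (fun n z => th n z) (fun n z => 1 + th n z)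
    (fun _ => 9 / 2) (fun _ => 1 / 2) (fun _ => 3 / 2) 4 5 1 2 1 (by norm_num) (by norm_num)
    (by norm_num) (by norm_num) ?_ ?_ ?_ aestronglyMeasurable_const aestronglyMeasurable_const
    aestronglyMeasurable_const ?_ ?_ (Set.Icc 0 1 ×ˢ Set.Icc 1 2)
    (isCompact_Icc.prod isCompact_Icc) ?_
  · have h1 := key.1
    have h2 : ∀ n, ∫ z in (Set.Icc (0 : ℝ) 1 ×ˢ Set.Icc (1 : ℝ) 2), |th n z - 1 / 2| = 1 / 2 := by
      intro n
      have : (fun z : ℝ × ℝ => |th n z - 1 / 2|) = fun _ => (1 / 2 : ℝ) := by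
        funext z
        rcases th_zero_or_one n z with hz | hz <;> rw [hz] <;> norm_num [abs_of_pos]
      rw [this, setIntegral_const, Measure.volume_eq_prod, measureReal_prod_prod]
      norm_num
    have h3 : Tendsto (fun _ : ℕ => (1 / 2 : ℝ)) atTop (𝓝 0) := by
      refine h1.congr fun n => ?_
      exact h2 n
    have h4 := tendsto_nhds_unique h3 tendsto_const_nhds
    norm_num at h4
  · intro n
    exact ⟨(measurable_const.sub (th_measurable n)).aestronglyMeasurable,
      (th_measurable n).aestronglyMeasurable,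
      (measurable_const.add (th_measurable n)).aestronglyMeasurable⟩
  · intro n
    refine Filter.Eventually.of_forall fun z => ?_
    rcases th_zero_or_one n z with hz | hz <;> simp only [hz] <;> norm_num
  · intro n φ hφ hc hs
    have hadd : ∀ z, fderiv ℝ φ z (1, 1) = fderiv ℝ φ z (0, 1) + fderiv ℝ φ z (1, 0) := by
      intro z
      rw [← map_add]
      simp
    refine ⟨?_, ?_, ?_⟩
    · rw [half_integral hs (fun z hz => by simp [hz])]
      refine (integral_congr_ae (Filter.Eventually.of_forall fun z => ?_)).trans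
        (weak n hφ hc 5 0 (-1))
      simp only [hadd]
      ring
    · rw [half_integral hs (fun z hz => by simp [hz])]
      refine (integral_congr_ae (Filter.Eventually.of_forall fun z => ?_)).trans
        (weak n hφ hc 0 1 1)
      simp only [hadd]
      ring
    · rw [half_integral hs (fun z hz => by simp [hz])]
      refine (integral_congr_ae (Filter.Eventually.of_forall fun z => ?_)).trans
        (weak n hφ hc (5 / 2) 0 2)
      simp only [hadd]
      rcases th_zero_or_one n z with hz | hz <;> rw [hz] <;> ring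
  · refine ⟨5, Filter.Eventually.of_forall fun z => ?_⟩
    norm_num [abs_of_pos]
  · intro g hg
    set G : ℝ × ℝ → ℝ := Set.indicator {z : ℝ × ℝ | 0 < z.2} g with hGdef
    have hG : Integrable G := (integrable_indicator_iff half_meas).2 hg
    have hw := weak_star hG
    have hint : ∫ z, G z = ∫ z in {z : ℝ × ℝ | 0 < z.2}, g z := integral_indicator half_meas
    have hthn : ∀ n, ∫ z, th n z * G z = ∫ z in {z : ℝ × ℝ | 0 < z.2}, th n z * g z := by
      intro n
      rw [← integral_indicator half_meas]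
      refine integral_congr_ae (Filter.Eventually.of_forall fun z => ?_)
      by_cases hz : z ∈ {z : ℝ × ℝ | 0 < z.2}
      · simp only [hGdef, Set.indicator_of_mem hz]
      · simp only [hGdef, Set.indicator_of_notMem hz, mul_zero]
    have hthi : ∀ n, IntegrableOn (fun z => th n z * g z) {z : ℝ × ℝ | 0 < z.2} := fun n =>
      Integrable.bdd_mul (c := 1) hg (th_measurable n).aestronglyMeasurable
        (Filter.Eventually.of_forall fun w => by simpa [Real.norm_eq_abs] using th_abs_le n w)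
    rw [hint] at hw
    have hw' : Tendsto (fun n => ∫ z in {z : ℝ × ℝ | 0 < z.2}, th n z * g z) atTop
        (𝓝 ((1 / 2 : ℝ) * ∫ z in {z : ℝ × ℝ | 0 < z.2}, g z)) := hw.congr hthn
    refine ⟨?_, ?_, ?_⟩
    · have e : ∀ n, ∫ z in {z : ℝ × ℝ | 0 < z.2}, (5 - th n z) * g z =
          5 * (∫ z in {z : ℝ × ℝ | 0 < z.2}, g z) - ∫ z in {z : ℝ × ℝ | 0 < z.2}, th n z * g z := by
        intro n
        rw [← integral_const_mul, ← integral_sub (hg.const_mul 5) (hthi n)]
        refine integral_congr_ae (Filter.Eventually.of_forall fun z => ?_)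
        simp only []
        ring
      simp only [e]
      have := hw'.const_sub (5 * (∫ z in {z : ℝ × ℝ | 0 < z.2}, g z))
      refine this.trans_eq ?_
      rw [integral_const_mul]
      congr 1
      ring
    · rw [integral_const_mul]
      exact hw'
    · have e : ∀ n, ∫ z in {z : ℝ × ℝ | 0 < z.2}, (1 + th n z) * g z =
          (∫ z in {z : ℝ × ℝ | 0 < z.2}, g z) + ∫ z in {z : ℝ × ℝ | 0 < z.2}, th n z * g z := by
        intro n
        rw [← integral_add hg (hthi n)]
        refine integral_congr_ae (Filter.Eventually.of_forall fun z => ?_)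
        simp only []
        ring
      simp only [e]
      have := hw'.const_add (∫ z in {z : ℝ × ℝ | 0 < z.2}, g z)
      refine this.trans_eq ?_
      rw [integral_const_mul]
      congr 1
      ring
  · rintro ⟨x, t⟩ ⟨_, h2⟩
    simp only [Set.mem_Icc, Set.mem_setOf_eq] at h2 ⊢
    linarith [h2.1]

end Pool.Agent.S05466
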