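import Pool.Statements.S05648
import Pool.Agent.R217.LL.Geo

set_option autoImplicit false
open MeasureTheory Filter Topology
open Pool Pool.MP_a271d0_an Pool.Agent.R217.LL

namespace Pool.Agent.S05648

/-- The negation of the preceding statement: For every N≥3, smooth bounded domain Ω in R^N with 0 on its boundary, s in (0,2) and 2*(s)-1<p<(N+2)/(N-2), there is an H^1_0 function u>0 on Ω weakly solving Δu - u^p + u^(2*(s)-1)/∣x∣^s = 0. -/
theorem result :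
    ¬ (∀ (N : ℕ), 3 ≤ N →
  ∀ (Ω : Set (EuclideanSpace ℝ (Fin N))),
    IsOpen Ω → IsConnected Ω → Bornology.IsBounded Ω →
    (∃ ρ : EuclideanSpace ℝ (Fin N) → ℝ,
        ContDiff ℝ ((⊤ : ℕ∞) : WithTop ℕ∞) ρ ∧ Ω = {x | ρ x < 0} ∧
        ∀ x ∈ frontier Ω, fderiv ℝ ρ x ≠ 0) →
    (0 : EuclideanSpace ℝ (Fin N)) ∈ frontier Ω →
  ∀ s : ℝ, 0 < s → s < 2 →
  ∀ p : ℝ, 2 * ((N : ℝ) - s) / ((N : ℝ) - 2) - 1 < p →
    p < ((N : ℝ) + 2) / ((N : ℝ) - 2) →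
  ∃ u : EuclideanSpace ℝ (Fin N) → ℝ,
  ∃ G : EuclideanSpace ℝ (Fin N) → EuclideanSpace ℝ (Fin N),
    MemLp u 2 volume ∧ MemLp G 2 volume ∧
    (∃ φ : ℕ → EuclideanSpace ℝ (Fin N) → ℝ,
        (∀ n, ContDiff ℝ ((⊤ : ℕ∞) : WithTop ℕ∞) (φ n) ∧
              HasCompactSupport (φ n) ∧ tsupport (φ n) ⊆ Ω) ∧
        Tendsto (fun n => eLpNorm (fun x => φ n x - u x) 2 volume) atTop (𝓝 0) ∧
        Tendsto (fun n => eLpNorm (fun x => gradient (φ n) x - G x) 2 volume)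
          atTop (𝓝 0)) ∧
    (∀ᵐ x ∂(volume : Measure (EuclideanSpace ℝ (Fin N))), x ∈ Ω → 0 < u x) ∧
    ∀ ψ : EuclideanSpace ℝ (Fin N) → ℝ,
      ContDiff ℝ ((⊤ : ℕ∞) : WithTop ℕ∞) ψ → HasCompactSupport ψ → tsupport ψ ⊆ Ω →
        Integrable (fun x => inner ℝ (G x) (gradient ψ x)) volume ∧
        Integrable (fun x => u x ^ p * ψ x) volume ∧
        Integrable (fun x => u x ^ (2 * ((N : ℝ) - s) / ((N : ℝ) - 2) - 1) * ψ x / ‖x‖ ^ s)
          volume ∧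
        ∫ x, (inner ℝ (G x) (gradient ψ x) + u x ^ p * ψ x
              - u x ^ (2 * ((N : ℝ) - s) / ((N : ℝ) - 2) - 1) * ψ x / ‖x‖ ^ s) = 0) := by
  intro hall
  have hball : IsOpen (Metric.ball cc 1) := Metric.isOpen_ball
  obtain ⟨u, G, hu, hG, hφ, hpos, hweak⟩ := hall 3 le_rfl (Metric.ball cc 1) hball
    ⟨⟨cc, Metric.mem_ball_self one_pos⟩, (convex_ball cc 1).isPreconnected⟩ Metric.isBounded_ball
    ball_smooth ball_zero 1 one_pos one_lt_two 4 (by norm_num) (by norm_num)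
  clear hall
  have hHP : HP (Metric.ball cc 1) u G := ⟨hu, hG, hφ⟩
  have hnn : ∀ᵐ x ∂(volume : Measure E3), 0 ≤ u x := by
    filter_upwards [hpos, hHP.zero] with x hx hx0
    by_cases hxΩ : x ∈ Metric.ball cc 1
    · exact (hx hxΩ).le
    · exact (hx0 hxΩ).ge
  refine no_solution hHP hball ⟨cc, Metric.mem_ball_self one_pos⟩ ball_star (R := 2)
    (by norm_num) ?_ hpos ?_
  · intro x hx
    rw [mem_ball_iff_norm] at hx
    have h1 : ‖x‖ ≤ ‖x - cc‖ + ‖cc‖ := by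
      simpa using norm_add_le (x - cc) cc
    rw [norm_cc] at h1
    linarith
  · intro ψ hψ
    have e := (hweak ψ hψ.1 hψ.2.1 hψ.2.2).2.2.2
    rw [← e]
    apply integral_congr_ae
    filter_upwards [hnn] with x hx
    have e1 : (2 * (((3:ℕ) : ℝ) - 1) / (((3:ℕ) : ℝ) - 2) - 1) = ((3:ℕ) : ℝ) := by norm_num
    have e2 : (4:ℝ) = ((4:ℕ) : ℝ) := by norm_num
    rw [e1, Real.rpow_natCast, e2, Real.rpow_natCast, Real.rpow_one]

end Pool.Agent.S05648
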