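import Pool.Statements.S05680
import Pool.Agent.R220.Disc

set_option autoImplicit false
open Pool Pool.MP_a50f86_an

namespace Pool.Agent.S05680

/-- The negation of the preceding statement: For every bounded convex smoothly bounded domain in R^n (n≥3), point p and nonzero conformal frame (u,v), there is a conformal harmonic disc with maximal scaling at p, unique on the disc, and it is an injective immersion proper into the domain. -/
theorem result :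
    ¬ (∀ n : ℕ, 3 ≤ n → ∀ Ω : Set (EuclideanSpace ℝ (Fin n)),
    IsOpen Ω → Bornology.IsBounded Ω → Convex ℝ Ω →
    (∃ U : Set (EuclideanSpace ℝ (Fin n)), ∃ ρ : EuclideanSpace ℝ (Fin n) → ℝ,
        IsOpen U ∧ closure Ω ⊆ U ∧ ContDiffOn ℝ ((⊤ : ℕ∞) : WithTop ℕ∞) ρ U ∧
        Ω = {x | x ∈ U ∧ ρ x < 0} ∧ ∀ x ∈ frontier Ω, fderiv ℝ ρ x ≠ 0) →
    ∀ p ∈ Ω, ∀ u v : EuclideanSpace ℝ (Fin n),
      ‖u‖ = ‖v‖ → inner ℝ u v = 0 → u ≠ 0 →
      ∃ f : ℂ → EuclideanSpace ℝ (Fin n),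
        (∃ r : ℝ, 0 < r ∧
          (ContDiffOn ℝ 2 f (Metric.ball (0 : ℂ) 1) ∧
            (∀ z ∈ Metric.ball (0 : ℂ) 1, f z ∈ Ω) ∧
            (∀ z ∈ Metric.ball (0 : ℂ) 1,
              ‖fderiv ℝ f z (1 : ℂ)‖ = ‖fderiv ℝ f z Complex.I‖ ∧
              inner ℝ (fderiv ℝ f z (1 : ℂ)) (fderiv ℝ f z Complex.I) = 0) ∧
            (∀ z ∈ Metric.ball (0 : ℂ) 1,
              fderiv ℝ (fun w => fderiv ℝ f w (1 : ℂ)) z (1 : ℂ) +
                fderiv ℝ (fun w => fderiv ℝ f w Complex.I) z Complex.I = 0)) ∧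
          f 0 = p ∧ fderiv ℝ f 0 (1 : ℂ) = r • u ∧ fderiv ℝ f 0 Complex.I = r • v ∧
          ∀ g : ℂ → EuclideanSpace ℝ (Fin n), ∀ s : ℝ, 0 < s →
            (ContDiffOn ℝ 2 g (Metric.ball (0 : ℂ) 1) ∧
              (∀ z ∈ Metric.ball (0 : ℂ) 1, g z ∈ Ω) ∧
              (∀ z ∈ Metric.ball (0 : ℂ) 1,
                ‖fderiv ℝ g z (1 : ℂ)‖ = ‖fderiv ℝ g z Complex.I‖ ∧
                inner ℝ (fderiv ℝ g z (1 : ℂ)) (fderiv ℝ g z Complex.I) = 0) ∧
              (∀ z ∈ Metric.ball (0 : ℂ) 1,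
                fderiv ℝ (fun w => fderiv ℝ g w (1 : ℂ)) z (1 : ℂ) +
                  fderiv ℝ (fun w => fderiv ℝ g w Complex.I) z Complex.I = 0)) →
            g 0 = p → fderiv ℝ g 0 (1 : ℂ) = s • u → fderiv ℝ g 0 Complex.I = s • v →
            s ≤ r) ∧
        (∀ h : ℂ → EuclideanSpace ℝ (Fin n),
          (∃ r : ℝ, 0 < r ∧
            (ContDiffOn ℝ 2 h (Metric.ball (0 : ℂ) 1) ∧
              (∀ z ∈ Metric.ball (0 : ℂ) 1, h z ∈ Ω) ∧
              (∀ z ∈ Metric.ball (0 : ℂ) 1,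
                ‖fderiv ℝ h z (1 : ℂ)‖ = ‖fderiv ℝ h z Complex.I‖ ∧
                inner ℝ (fderiv ℝ h z (1 : ℂ)) (fderiv ℝ h z Complex.I) = 0) ∧
              (∀ z ∈ Metric.ball (0 : ℂ) 1,
                fderiv ℝ (fun w => fderiv ℝ h w (1 : ℂ)) z (1 : ℂ) +
                  fderiv ℝ (fun w => fderiv ℝ h w Complex.I) z Complex.I = 0)) ∧
            h 0 = p ∧ fderiv ℝ h 0 (1 : ℂ) = r • u ∧ fderiv ℝ h 0 Complex.I = r • v ∧
            ∀ g : ℂ → EuclideanSpace ℝ (Fin n), ∀ s : ℝ, 0 < s →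
              (ContDiffOn ℝ 2 g (Metric.ball (0 : ℂ) 1) ∧
                (∀ z ∈ Metric.ball (0 : ℂ) 1, g z ∈ Ω) ∧
                (∀ z ∈ Metric.ball (0 : ℂ) 1,
                  ‖fderiv ℝ g z (1 : ℂ)‖ = ‖fderiv ℝ g z Complex.I‖ ∧
                  inner ℝ (fderiv ℝ g z (1 : ℂ)) (fderiv ℝ g z Complex.I) = 0) ∧
                (∀ z ∈ Metric.ball (0 : ℂ) 1,
                  fderiv ℝ (fun w => fderiv ℝ g w (1 : ℂ)) z (1 : ℂ) +
                    fderiv ℝ (fun w => fderiv ℝ g w Complex.I) z Complex.I = 0)) →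
              g 0 = p → fderiv ℝ g 0 (1 : ℂ) = s • u → fderiv ℝ g 0 Complex.I = s • v →
              s ≤ r) →
          Set.EqOn h f (Metric.ball (0 : ℂ) 1)) ∧
        Set.InjOn f (Metric.ball (0 : ℂ) 1) ∧
        (∀ z ∈ Metric.ball (0 : ℂ) 1, fderiv ℝ f z (1 : ℂ) ≠ 0) ∧
        (∀ K : Set (EuclideanSpace ℝ (Fin n)), IsCompact K → K ⊆ Ω →
          IsCompact (Metric.ball (0 : ℂ) 1 ∩ f ⁻¹' K))) := by
  intro H
  obtain ⟨f, ⟨r, hr, ⟨hs, hm, hc, hh⟩, hf0, hfx, hfy, hmax⟩, huniq, -⟩ :=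
    H 3 le_rfl Pool.Agent.R220.Disc.Om Pool.Agent.R220.Disc.Om_open
      Pool.Agent.R220.Disc.Om_bounded Pool.Agent.R220.Disc.Om_convex
      ⟨Set.univ, Pool.Agent.R220.Disc.rho, isOpen_univ, Set.subset_univ _,
        Pool.Agent.R220.Disc.rho_contDiff.contDiffOn, by ext x; simp [Pool.Agent.R220.Disc.Om],
        fun x hx => Pool.Agent.R220.Disc.rho_regular hx⟩ 0 Pool.Agent.R220.Disc.zero_mem_Om
      (EuclideanSpace.single 0 1) (EuclideanSpace.single 1 1) (by simp)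
      (by rw [EuclideanSpace.inner_single_left]; simp)
      (by
        intro h
        have := congrArg (fun x : EuclideanSpace ℝ (Fin 3) => x 0) h
        simp at this)
  have hCH : Pool.Agent.R220.Disc.CH Pool.Agent.R220.Disc.Om f := ⟨hs, hm, hc, hh⟩
  have hR := Pool.Agent.R220.Disc.R_CH hCH
  have hEq := huniq (fun z => Pool.Agent.R220.Disc.R (f z)) ⟨r, hr,
    ⟨hR.smooth, hR.maps, hR.conf, hR.harm⟩, by simp only [hf0, map_zero],
    by rw [Pool.Agent.R220.Disc.R_fderiv, hfx, Pool.Agent.R220.Disc.R_single0],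
    by rw [Pool.Agent.R220.Disc.R_fderiv, hfy, Pool.Agent.R220.Disc.R_single1], hmax⟩
  have h2 : ∀ z ∈ Metric.ball (0 : ℂ) 1, f z 2 = 0 := by
    intro z hz
    have h3 := congrArg (fun x : EuclideanSpace ℝ (Fin 3) => x 2) (hEq hz)
    simp only [Pool.Agent.R220.Disc.R_apply, if_true] at h3
    linarith
  have h4 := Pool.Agent.R220.Disc.planar_bound hCH h2 hf0 hr hfx hfy
  have hE := Pool.Agent.R220.Disc.enn_CH
  have h5 := hmax Pool.Agent.R220.Disc.enn (13 / 12) (by norm_num)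
    ⟨hE.smooth, hE.maps, hE.conf, hE.harm⟩ Pool.Agent.R220.Disc.enn_zero
    Pool.Agent.R220.Disc.enn_x Pool.Agent.R220.Disc.enn_y
  linarith

end Pool.Agent.S05680
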