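import Pool.Statements.S05816
import Pool.Agent.R236.CogenE

set_option autoImplicit false
open Filter Topology
open Pool Pool.MP_ae9c87_an

namespace Pool.Agent.S05816

/-- The negation of the preceding statement: For every contractive strongly continuous semigroup T on a complex Hilbert space with cogenerator V = I − 2∫₀^∞ e^{−t}T(t)dt, T(t)x → 0 weakly for all x iff Vⁿx → 0 weakly for all x. -/
theorem result :
    ¬ (∀ (H : Type) [NormedAddCommGroup H] [InnerProductSpace ℂ H] [CompleteSpace H]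
      (T : ℝ → H →L[ℂ] H),
      T 0 = 1 →
      (∀ s t : ℝ, 0 ≤ s → 0 ≤ t → T (s + t) = T s * T t) →
      (∀ x : H, ContinuousOn (fun t : ℝ => T t x) (Set.Ici 0)) →
      (∀ t : ℝ, 0 ≤ t → ‖T t‖ ≤ 1) →
      ((∀ x y : H, Tendsto (fun t : ℝ => inner ℂ (T t x) y) atTop (𝓝 0)) ↔
        (∀ x y : H, Tendsto (fun n : ℕ =>
            inner ℂ ((fun z : H => z - (2 : ℂ) •
              ∫ t in Set.Ioi (0 : ℝ), ((Real.exp (-t) : ℝ) : ℂ) • T t z)^[n] x) y)
            atTop (𝓝 0)))) := by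
  intro hall
  obtain ⟨μ, hμ, h1, h2⟩ := Pool.Agent.R236.Cogen.exists_measure
  have key := hall (Pool.Agent.R236.Cogen.H μ) (Pool.Agent.R236.Cogen.T μ)
    (Pool.Agent.R236.Cogen.T_zero μ) (fun s t _ _ => Pool.Agent.R236.Cogen.T_add μ s t)
    (fun x => (Pool.Agent.R236.Cogen.continuous_T μ x).continuousOn)
    (fun t _ => Pool.Agent.R236.Cogen.norm_T_le μ t)
  have hV : ∀ x y : Pool.Agent.R236.Cogen.H μ, Tendsto (fun n : ℕ =>
      inner ℂ ((fun z : Pool.Agent.R236.Cogen.H μ => z - (2 : ℂ) •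
        ∫ t in Set.Ioi (0 : ℝ), ((Real.exp (-t) : ℝ) : ℂ) •
          Pool.Agent.R236.Cogen.T μ t z)^[n] x) y) atTop (𝓝 0) := by
    intro x y
    refine (Pool.Agent.R236.Cogen.weakly_stable μ h2 x y).congr fun n => ?_
    have e1 : (fun z : Pool.Agent.R236.Cogen.H μ => z - (2 : ℂ) •
        ∫ t in Set.Ioi (0 : ℝ), ((Real.exp (-t) : ℝ) : ℂ) • Pool.Agent.R236.Cogen.T μ t z)
        = fun z => Pool.Agent.R236.Cogen.M μ Pool.Agent.R236.Cogen.v z := by
      funext z
      exact Pool.Agent.R236.Cogen.cogen μ z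
    rw [e1, Pool.Agent.R236.Cogen.M_pow]
  have hT := key.2 hV
  set one : Pool.Agent.R236.Cogen.H μ :=
    ContinuousMap.toLp 2 μ ℂ (1 : C(Pool.Agent.R236.Cogen.X, ℂ)) with hone
  have h3 := hT one one
  have hom : Tendsto Pool.Agent.R236.Cogen.om atTop atTop := by
    have h := (tendsto_pow_atTop_atTop_of_one_lt (r := (64:ℝ)) (by norm_num))
    have h' := (h.comp (tendsto_add_atTop_nat 1)).const_mul_atTop (r := 2 * Real.pi)
      (by positivity)
    refine h'.congr fun k => ?_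
    rw [Pool.Agent.R236.Cogen.om_eq]; rfl
  have h4 := h3.comp hom
  have h5 : ∀ j, (inner ℂ (Pool.Agent.R236.Cogen.T μ (Pool.Agent.R236.Cogen.om j) one) one : ℂ)
      = 1 / 2 := by
    intro j
    rw [hone, Pool.Agent.R236.Cogen.T, Pool.Agent.R236.Cogen.inner_toLp]
    have h6 : ∀ x : Pool.Agent.R236.Cogen.X,
        (starRingEnd ℂ) (Pool.Agent.R236.Cogen.e (Pool.Agent.R236.Cogen.om j) x)
          * ((starRingEnd ℂ) ((1 : C(Pool.Agent.R236.Cogen.X, ℂ)) x)
            * (1 : C(Pool.Agent.R236.Cogen.X, ℂ)) x)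
        = (starRingEnd ℂ) (Complex.exp ((Pool.Agent.R236.Cogen.om j * x : ℝ) * Complex.I)) := by
      intro x
      rw [Pool.Agent.R236.Cogen.e_apply]
      simp
    simp_rw [h6]
    rw [integral_conj, h1 j]
    have h9 : (1 / 2 : ℂ) = ((1 / 2 : ℝ) : ℂ) := by push_cast; ring
    rw [h9, Complex.conj_ofReal]
  have h7 : Tendsto (fun _ : ℕ => (1 / 2 : ℂ)) atTop (𝓝 0) :=
    h4.congr fun j => h5 j
  have h8 := tendsto_nhds_unique h7 tendsto_const_nhds
  norm_num at h8

end Pool.Agent.S05816
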