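import Pool.Statements.S05853
import Pool.Agent.R263.BerH

set_option autoImplicit false
open Polynomial MeasureTheory
open Pool Pool.MP_b1555f_an

namespace Pool.Agent.S05853

open Pool.Agent.R263.Ber in
lemma om_exists (N : ℕ) (hN : N = 3 ∨ N = 4) : ∃ ω : ℂ, Om N ω := by
  rcases hN with rfl | rfl
  · refine ⟨⟨-1 / 2, √3 / 2⟩, ?_, Or.inl ⟨rfl, ?_⟩⟩
    · positivity
    · have h3 : √3 * √3 = 3 := Real.mul_self_sqrt (by norm_num)
      apply Complex.ext
      · rw [sq]
        simp only [Complex.add_re, Complex.mul_re, Complex.one_re, Complex.zero_re]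
        nlinarith
      · rw [sq]
        simp only [Complex.add_im, Complex.mul_im, Complex.one_im, Complex.zero_im]
        ring
  · exact ⟨Complex.I, by simp, Or.inr ⟨rfl, Complex.I_sq⟩⟩

/-- For N=3,4, k<N, j≥1: the monic Bergman orthogonal polynomials of degrees jN+k and (j+1)N+k on the regular N-gon are z^k q(z^N), with q having real roots in (0,1), simple and strictly interlacing. -/
theorem result :
    ∀ N : ℕ, (N = 3 ∨ N = 4) → ∀ k : ℕ, k < N → ∀ j : ℕ, 1 ≤ j →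
    ∀ p p' : Polynomial ℂ,
      p.Monic → p.natDegree = j * N + k →
      (∀ r : Polynomial ℂ, r.natDegree < j * N + k →
        ∫ z in interior (convexHull ℝ {w : ℂ | w ^ N = 1}),
          p.eval z * (starRingEnd ℂ) (r.eval z) = 0) →
      p'.Monic → p'.natDegree = (j + 1) * N + k →
      (∀ r : Polynomial ℂ, r.natDegree < (j + 1) * N + k →
        ∫ z in interior (convexHull ℝ {w : ℂ | w ^ N = 1}),
          p'.eval z * (starRingEnd ℂ) (r.eval z) = 0) →
      ∃ t s : ℕ → ℝ,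
        p = X ^ k * (∏ ν ∈ Finset.range j, (X - C ((t ν : ℝ) : ℂ))).comp (X ^ N) ∧
        p' = X ^ k * (∏ ν ∈ Finset.range (j + 1), (X - C ((s ν : ℝ) : ℂ))).comp (X ^ N) ∧
        0 < s 0 ∧ s j < 1 ∧ ∀ ν, ν < j → s ν < t ν ∧ t ν < s (ν + 1) := by
  intro N hN k hk j hj p p' hp hd ho hp' hd' ho'
  obtain ⟨ω, hω⟩ := om_exists N hN
  obtain ⟨q, hq, hqd, hpq, hqo⟩ := Pool.Agent.R263.Ber.structure_thm hω hk hj p hp hd ho
  obtain ⟨q', hq', hqd', hpq', hqo'⟩ :=
    Pool.Agent.R263.Ber.structure_thm hω hk (by omega) p' hp' hd' ho'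
  obtain ⟨t, s, ht, hs, h1, h2, h3⟩ :=
    Pool.Agent.R263.Ber.interlace hω hk j q q' hq hqd hq' hqd' hqo hqo'
  have hmap : ∀ (n : ℕ) (r : ℕ → ℝ),
      (∏ ν ∈ Finset.range n, (X - C (r ν))).map Complex.ofRealHom =
        ∏ ν ∈ Finset.range n, (X - C ((r ν : ℝ) : ℂ)) := by
    intro n r
    rw [Polynomial.map_prod]
    apply Finset.prod_congr rfl
    intro ν _
    simp
  refine ⟨t, s, ?_, ?_, h1, h2, h3⟩
  · rw [hpq, ht, hmap]
  · rw [hpq', hs, hmap]

end Pool.Agent.S05853
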