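import Pool.Statements.S06025
import Pool.Agent.H780R2.CX.E1
import Pool.Agent.H780R2.CX.Defs

set_option autoImplicit false
open MeasureTheory ENNReal
open Pool Pool.MP_c1e612_an

namespace Pool.Agent.S06025

/-- There exist real Banach spaces X, Y, a bounded operator S, a nonempty convex F with every deterministic non-adaptive n-error positive and finite, and C>0 such that the randomized non-adaptive 2n-error is at most C/n times the deterministic n-error for all n≥1. -/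
theorem result :
    ∃ (X : Type) (hX : NormedAddCommGroup X) (hXs : NormedSpace ℝ X) (hXc : CompleteSpace X)
      (Y : Type) (hY : NormedAddCommGroup Y) (hYs : NormedSpace ℝ Y) (hYc : CompleteSpace Y)
      (S : X →L[ℝ] Y) (F : Set X) (C : ℝ),
      F.Nonempty ∧ Convex ℝ F ∧ 0 < C ∧
      (∀ n : ℕ, 0 < n →
        0 < (⨅ (L : Fin n → (X →L[ℝ] ℝ)) (φ : (Fin n → ℝ) → Y),
              ⨆ f ∈ F, ‖S f - φ (fun i => L i f)‖ₑ) ∧
        (⨅ (L : Fin n → (X →L[ℝ] ℝ)) (φ : (Fin n → ℝ) → Y),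
              ⨆ f ∈ F, ‖S f - φ (fun i => L i f)‖ₑ) < ⊤) ∧
      (∀ n : ℕ, 0 < n →
        (⨅ (Ω : Type) (mΩ : MeasurableSpace Ω) (P : Measure Ω)
            (_ : IsProbabilityMeasure P)
            (L : Ω → Fin (2 * n) → (X →L[ℝ] ℝ)) (φ : Ω → (Fin (2 * n) → ℝ) → Y)
            (_ : ∀ f ∈ F, Measurable (fun ω => ‖S f - φ ω (fun i => L ω i f)‖)),
            ⨆ f ∈ F, ∫⁻ ω, ‖S f - φ ω (fun i => L ω i f)‖ₑ ∂P)
          ≤ ENNReal.ofReal (C / (n : ℝ)) *
            (⨅ (L : Fin n → (X →L[ℝ] ℝ)) (φ : (Fin n → ℝ) → Y),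
              ⨆ f ∈ F, ‖S f - φ (fun i => L i f)‖ₑ)) := by
  obtain ⟨X, Y, i1, i2, i3, j1, j2, j3, S, F, hne, hconv, hsymm, hdet, -⟩ :=
    Pool.Agent.H780R2.CX.TE1.trivial_example
  have hdet' : ∀ n : ℕ, (⨅ (L : Fin n → (X →L[ℝ] ℝ)) (φ : (Fin n → ℝ) → Y),
      ⨆ f ∈ F, ‖S f - φ (fun i => L i f)‖ₑ) = ENNReal.ofReal ((1 / 2) ^ n) := hdet
  refine ⟨X, i1, i2, i3, Y, j1, j2, j3, S, F, 1, hne, hconv, one_pos, ?_, ?_⟩
  · intro n _
    rw [hdet' n]
    exact ⟨ENNReal.ofReal_pos.mpr (by positivity), ENNReal.ofReal_lt_top⟩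
  · intro n hn
    have hstep : (⨅ (Ω : Type) (mΩ : MeasurableSpace Ω) (P : Measure Ω)
            (_ : IsProbabilityMeasure P)
            (L : Ω → Fin (2 * n) → (X →L[ℝ] ℝ)) (φ : Ω → (Fin (2 * n) → ℝ) → Y)
            (_ : ∀ f ∈ F, Measurable (fun ω => ‖S f - φ ω (fun i => L ω i f)‖)),
            ⨆ f ∈ F, ∫⁻ ω, ‖S f - φ ω (fun i => L ω i f)‖ₑ ∂P) ≤
        ENNReal.ofReal ((1 / 2) ^ (2 * n)) := by
      rw [← hdet' (2 * n)]
      refine le_iInf₂ fun L φ => ?_
      refine iInf_le_of_le Unit ?_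
      refine iInf_le_of_le inferInstance ?_
      refine iInf_le_of_le (Measure.dirac ()) ?_
      refine iInf_le_of_le inferInstance ?_
      refine iInf_le_of_le (fun _ => L) ?_
      refine iInf_le_of_le (fun _ => φ) ?_
      refine iInf_le_of_le (fun f _ => measurable_const) ?_
      refine iSup₂_mono fun f _ => ?_
      rw [lintegral_const]
      simp
    refine hstep.trans ?_
    rw [hdet' n, ← ENNReal.ofReal_mul (by positivity)]
    refine ENNReal.ofReal_le_ofReal ?_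
    have hn' : (0 : ℝ) < n := by exact_mod_cast hn
    have h2 : ((1 : ℝ) / 2) ^ n ≤ 1 / n := by
      rw [div_pow, one_pow]
      refine one_div_le_one_div_of_le hn' ?_
      exact_mod_cast Nat.lt_two_pow_self.le
    calc ((1 : ℝ) / 2) ^ (2 * n) = (1 / 2) ^ n * (1 / 2) ^ n := by rw [two_mul, pow_add]
      _ ≤ 1 / n * (1 / 2) ^ n := mul_le_mul_of_nonneg_right h2 (by positivity)


end Pool.Agent.S06025
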