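import Pool.Statements.S06217
import Pool.Agent.R233.CH.Concl
import Pool.Agent.R233.CH.Gaps

set_option autoImplicit false
open Pool Pool.MP_cf7d1d_an

namespace Pool.Agent.S06217

/-- There is a subset K of C^2 homeomorphic to the Cantor space whose polynomial hull differs from K and equals its rational hull (points z such that every polynomial vanishing at z vanishes somewhere on K). -/
theorem result :
    ∃ K : Set (Fin 2 → ℂ),
      Nonempty (↥K ≃ₜ (ℕ → Bool)) ∧
      {z : Fin 2 → ℂ | ∀ p : MvPolynomial (Fin 2) ℂ,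
          ∃ w ∈ K, ‖MvPolynomial.eval z p‖ ≤ ‖MvPolynomial.eval w p‖} ≠ K ∧
      {z : Fin 2 → ℂ | ∀ p : MvPolynomial (Fin 2) ℂ,
          ∃ w ∈ K, ‖MvPolynomial.eval z p‖ ≤ ‖MvPolynomial.eval w p‖} =
      {z : Fin 2 → ℂ | ∀ p : MvPolynomial (Fin 2) ℂ,
          MvPolynomial.eval z p = 0 → ∃ w ∈ K, MvPolynomial.eval w p = 0} := by
  obtain ⟨K, h1, -, h3, h4⟩ := Pool.Agent.R233.CH.concl Pool.Agent.R233.CH.existsGaps
  exact ⟨K, h1, h3, h4⟩

end Pool.Agent.S06217
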