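import Pool.Statements.S06280
import Pool.Agent.R232.OrderMono

/-!
The counterexample is the monomial map `f (x, y, z) = (x z, x ^ 2 y, y ^ 2 z ^ 2)` of `ℂ ^ 3`.
Its exponent matrix has the eigenvalues `3` and `(1 ± √-7) / 2`; the eigenvector of `3` is
`(1, 1, 2)`.  The order of the `k`-th iterate is the smaller of the degrees `x_k`, `y_k` of its first
two coordinates.  For `k ≥ 1` the number `x_k` is even and `y_k` is odd, and
`y_k - x_k = 2 / √7 * Im (((1 + √-7) / 2) ^ k)`.  A sequence with a linear recursion with integer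
coefficients is periodic modulo `2` from some place on; so the sign of `y_k - x_k` would be periodic
from some place on, which is false since no positive power of `(1 + √-7) / 2` is real.
-/

set_option autoImplicit false
open Pool Pool.MP_d4c9a2_an

namespace Pool.Agent.S06280

open Pool.Agent.R232.OrderMono

/-- no constant sign along a geometric progression with nonreal ratio -/
lemma no_const_sign (c μ : ℂ) (hμ : μ.im ≠ 0) : ¬ ∀ j : ℕ, 0 < (c * μ ^ j).im := by
  intro h
  set w : ℕ → ℝ := fun j => (c * μ ^ j).im with hw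
  have hsq : μ ^ 2 = (2 * μ.re : ℝ) * μ - (Complex.normSq μ : ℝ) := by
    apply Complex.ext
    · simp [pow_two, Complex.normSq_apply]; ring
    · simp [pow_two, Complex.normSq_apply]; ring
  have hrec : ∀ j, w (j + 2) = 2 * μ.re * w (j + 1) - Complex.normSq μ * w j := by
    intro j
    simp only [hw]
    have h1 : c * μ ^ (j + 2) = (2 * μ.re : ℝ) * (c * μ ^ (j + 1)) -
        (Complex.normSq μ : ℝ) * (c * μ ^ j) := by
      calc c * μ ^ (j + 2) = c * μ ^ j * μ ^ 2 := by ring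
        _ = _ := by rw [hsq]; ring
    rw [h1, Complex.sub_im, Complex.im_ofReal_mul, Complex.im_ofReal_mul]
  have hn : μ.re < ‖μ‖ := by
    refine lt_of_le_of_ne (Complex.re_le_norm μ) ?_
    intro he
    have h1 := Complex.sq_norm_sub_sq_re μ
    rw [← he] at h1
    apply hμ
    have : μ.im ^ 2 = 0 := by linarith
    exact pow_eq_zero_iff (two_ne_zero) |>.1 this
  set δ : ℝ := 2 * (‖μ‖ - μ.re) with hδ
  have hδ0 : 0 < δ := by simp only [hδ]; linarith
  have hstep : ∀ j : ℕ, w (j + 1) / w j ≤ w 1 / w 0 - j * δ := by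
    intro j
    induction j with
    | zero => simp
    | succ j ih =>
      have p0 : 0 < w j := h j
      have p1 : 0 < w (j + 1) := h (j + 1)
      have h2 : w (j + 1 + 1) / w (j + 1) = 2 * μ.re - ‖μ‖ ^ 2 / (w (j + 1) / w j) := by
        rw [show j + 1 + 1 = j + 2 from rfl, hrec, Complex.normSq_eq_norm_sq]
        field_simp
      have hρ : 0 < w (j + 1) / w j := div_pos p1 p0
      have h3 : 2 * ‖μ‖ ≤ w (j + 1) / w j + ‖μ‖ ^ 2 / (w (j + 1) / w j) := by
        set ρ := w (j + 1) / w j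
        have h4 : ρ + ‖μ‖ ^ 2 / ρ - 2 * ‖μ‖ = (ρ - ‖μ‖) ^ 2 / ρ := by
          field_simp
          ring
        have h5 : 0 ≤ (ρ - ‖μ‖) ^ 2 / ρ := by positivity
        linarith
      rw [h2]
      push_cast
      simp only [hδ] at ih ⊢
      linarith
  obtain ⟨N, hN⟩ := exists_nat_gt ((w 1 / w 0) / δ)
  have h1 := hstep N
  have h2 : w 1 / w 0 < N * δ := by
    rwa [div_lt_iff₀ hδ0] at hN
  have h3 : 0 < w (N + 1) / w N := div_pos (h _) (h _)
  linarith

/-- the difference of the degrees of the first two coordinates -/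
def p (k : ℕ) : ℤ := ((X k).2.1 : ℤ) - ((X k).1 : ℤ)

lemma p_rec (k : ℕ) : p (k + 2) = p (k + 1) - 2 * p k := by
  have h1 : X (k + 1) = ((X k).1 + (X k).2.2, 2 * (X k).1 + (X k).2.1,
    2 * (X k).2.1 + 2 * (X k).2.2) := rfl
  have h2 : X (k + 2) = ((X (k + 1)).1 + (X (k + 1)).2.2,
    2 * (X (k + 1)).1 + (X (k + 1)).2.1, 2 * (X (k + 1)).2.1 + 2 * (X (k + 1)).2.2) := rfl
  simp only [p]
  rw [h2, h1]
  push_cast
  ring

/-- the number `(1 + √-7) / 2` -/
noncomputable def lam : ℂ := ⟨1 / 2, Real.sqrt 7 / 2⟩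

lemma lam_sq : lam ^ 2 = lam - 2 := by
  have h7 : Real.sqrt 7 * Real.sqrt 7 = 7 := Real.mul_self_sqrt (by norm_num)
  apply Complex.ext
  · simp [lam, pow_two]
    nlinarith
  · simp [lam, pow_two]
    ring

lemma im_pow (k : ℕ) : (lam ^ k).im = Real.sqrt 7 / 2 * (p k : ℝ) ∧
    (lam ^ (k + 1)).im = Real.sqrt 7 / 2 * (p (k + 1) : ℝ) := by
  induction k with
  | zero =>
    constructor
    · simp [p, X]
    · simp [p, X, lam]
  | succ k ih =>
    refine ⟨ih.2, ?_⟩
    have h1 : lam ^ (k + 2) = lam ^ (k + 1) - 2 * lam ^ k := by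
      calc lam ^ (k + 2) = lam ^ k * lam ^ 2 := by ring
        _ = _ := by rw [lam_sq]; ring
    rw [show k + 1 + 1 = k + 2 from rfl, h1, p_rec, Complex.sub_im, ih.2]
    have h2 : (2 * lam ^ k).im = 2 * (lam ^ k).im := by simp
    rw [h2, ih.1]
    push_cast
    ring

lemma p_odd (k : ℕ) : p (k + 1) ≠ 0 := by
  have := X_parity k
  simp only [p]
  omega

lemma sign_change (k₀ q : ℕ) (hq : 0 < q) :
    (¬ ∀ j : ℕ, 0 < p (k₀ + q * j)) ∧ ¬ ∀ j : ℕ, p (k₀ + q * j) < 0 := by
  have hs : 0 < Real.sqrt 7 / 2 := by positivity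
  have hμ : (lam ^ q).im ≠ 0 := by
    obtain ⟨q', rfl⟩ : ∃ q', q = q' + 1 := ⟨q - 1, by omega⟩
    rw [(im_pow _).2]
    exact mul_ne_zero hs.ne' (by exact_mod_cast p_odd q')
  have hpow : ∀ j : ℕ, lam ^ (k₀ + q * j) = lam ^ k₀ * (lam ^ q) ^ j := by
    intro j; rw [pow_add, pow_mul]
  constructor
  · intro h
    apply no_const_sign (lam ^ k₀) (lam ^ q) hμ
    intro j
    rw [← hpow, (im_pow _).1]
    exact mul_pos hs (by exact_mod_cast h j)
  · intro h
    apply no_const_sign (-(lam ^ k₀)) (lam ^ q) hμ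
    intro j
    rw [neg_mul, ← hpow, Complex.neg_im, (im_pow _).1]
    have : (p (k₀ + q * j) : ℝ) < 0 := by exact_mod_cast h j
    nlinarith

/-- the Jacobian matrix of `f` -/
def J (z : Fin 3 → ℂ) : Matrix (Fin 3) (Fin 3) ℂ :=
  !![z 2, 0, z 0; 2 * z 0 * z 1, z 0 ^ 2, 0; 0, 2 * z 1 * z 2 ^ 2, z 1 ^ 2 * (2 * z 2)]

lemma hasFDerivAt_f (z : Fin 3 → ℂ) :
    HasFDerivAt f (LinearMap.toContinuousLinearMap (Matrix.toLin' (J z))) z := by
  have hc : ∀ i : Fin 3, HasFDerivAt (fun z : Fin 3 → ℂ => z i)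
      (ContinuousLinearMap.proj (R := ℂ) (φ := fun _ : Fin 3 => ℂ) i) z := fun i =>
    (ContinuousLinearMap.proj (R := ℂ) (φ := fun _ : Fin 3 => ℂ) i).hasFDerivAt
  rw [hasFDerivAt_pi']
  intro i
  fin_cases i
  · have h := (hc 0).mul (hc 2)
    refine h.congr_fderiv ?_
    ext v
    simp [J, Matrix.toLin'_apply, dotProduct, Fin.sum_univ_three]
    ring
  · have h := ((hc 0).pow 2).mul (hc 1)
    refine h.congr_fderiv ?_
    ext v
    simp [J, Matrix.toLin'_apply, dotProduct, Fin.sum_univ_three]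
    ring
  · have h := ((hc 1).pow 2).mul ((hc 2).pow 2)
    refine h.congr_fderiv ?_
    ext v
    simp [J, Matrix.toLin'_apply, dotProduct, Fin.sum_univ_three]
    ring

lemma det_fderiv (z : Fin 3 → ℂ) :
    (fderiv ℂ f z).det = 6 * (z 0 ^ 2 * z 1 ^ 2 * z 2 ^ 2) := by
  rw [(hasFDerivAt_f z).fderiv, ContinuousLinearMap.det]
  have : ((LinearMap.toContinuousLinearMap (Matrix.toLin' (J z)) :
      (Fin 3 → ℂ) →L[ℂ] (Fin 3 → ℂ)) : (Fin 3 → ℂ) →ₗ[ℂ] (Fin 3 → ℂ)) = Matrix.toLin' (J z) := by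
    ext; simp
  rw [this, LinearMap.det_toLin', J, Matrix.det_fin_three]
  simp
  ring

/-- The negation of the preceding statement: For every holomorphic germ f of ℂⁿ fixing 0 that is non-invertible and dominant, the orders of vanishing c(f^k) of its iterates at 0 eventually satisfy a linear recursion with integer coefficients. -/
theorem result :
    ¬ (∀ (n : ℕ) (f : (Fin n → ℂ) → (Fin n → ℂ)),
      AnalyticAt ℂ f 0 → f 0 = 0 →
      (fderiv ℂ f 0).det = 0 →
      (∀ ε : ℝ, 0 < ε → ∃ z : Fin n → ℂ, ‖z‖ < ε ∧ (fderiv ℂ f z).det ≠ 0) →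
      ∃ (d : ℕ) (a : Fin d → ℤ) (K : ℕ), ∀ k : ℕ, K ≤ k →
        ((sInf {m : ℕ | iteratedFDeriv ℂ m (f^[k + d]) 0 ≠ 0} : ℕ) : ℤ) =
          ∑ i : Fin d, a i *
            ((sInf {m : ℕ | iteratedFDeriv ℂ m (f^[k + (i : ℕ)]) 0 ≠ 0} : ℕ) : ℤ)) := by
  intro H
  obtain ⟨d, a, K, hK⟩ := H 3 f
    (by
      have hd : Differentiable ℂ f := fun z => (hasFDerivAt_f z).differentiableAt
      rw [analyticAt_pi_iff]
      intro i
      have hx : ∀ j : Fin 3, AnalyticAt ℂ (fun z : Fin 3 → ℂ => z j) 0 := fun j =>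
        (ContinuousLinearMap.proj (R := ℂ) (φ := fun _ : Fin 3 => ℂ) j).analyticAt 0
      fin_cases i
      · exact (hx 0).mul (hx 2)
      · exact ((hx 0).pow 2).mul (hx 1)
      · exact ((hx 1).pow 2).mul ((hx 2).pow 2))
    (by ext i; fin_cases i <;> simp [f])
    (by rw [det_fderiv]; simp)
    (by
      intro ε hε
      refine ⟨fun _ => ((ε / 2 : ℝ) : ℂ), ?_, ?_⟩
      · rw [pi_norm_const, Complex.norm_real, Real.norm_of_nonneg (by positivity)]
        linarith
      · rw [det_fderiv]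
        have : ((ε / 2 : ℝ) : ℂ) ≠ 0 := by
          rw [Ne, Complex.ofReal_eq_zero]; positivity
        exact mul_ne_zero (by norm_num)
          (mul_ne_zero (mul_ne_zero (pow_ne_zero _ this) (pow_ne_zero _ this))
            (pow_ne_zero _ this)))
  set c : ℕ → ℕ := fun k => min (X k).1 (X k).2.1 with hc
  have hrec : ∀ k, K ≤ k → ((c (k + d) : ℕ) : ℤ) = ∑ i : Fin d, a i * ((c (k + i) : ℕ) : ℤ) := by
    intro k hk
    have := hK k hk
    simp only [order_iterate] at this
    exact this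
  -- the states modulo 2
  set s : ℕ → (Fin d → ZMod 2) := fun k i => ((c (K + 1 + k + i) : ℕ) : ZMod 2) with hs
  obtain ⟨k₁, k₂, hne, heq⟩ := Finite.exists_ne_map_eq_of_infinite s
  wlog hlt : k₁ < k₂ generalizing k₁ k₂
  · exact this k₂ k₁ hne.symm heq.symm (by omega)
  set q : ℕ := k₂ - k₁ with hq
  have hper : ∀ j : ℕ, ((c (K + 1 + k₁ + j) : ℕ) : ZMod 2) = ((c (K + 1 + k₂ + j) : ℕ) : ZMod 2) := by
    intro j
    induction j using Nat.strong_induction_on with
    | _ j ih =>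
      by_cases hj : j < d
      · have := congrFun heq ⟨j, hj⟩
        simpa [hs] using this
      · obtain ⟨j', rfl⟩ : ∃ j', j = j' + d := ⟨j - d, by omega⟩
        have e1 := hrec (K + 1 + k₁ + j') (by omega)
        have e2 := hrec (K + 1 + k₂ + j') (by omega)
        have f1 := congrArg (fun t : ℤ => (t : ZMod 2)) e1
        have f2 := congrArg (fun t : ℤ => (t : ZMod 2)) e2
        push_cast at f1 f2
        rw [← add_assoc, ← add_assoc, f1, f2]
        refine Finset.sum_congr rfl fun i _ => ?_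
        rw [add_assoc (K + 1 + k₁), add_assoc (K + 1 + k₂), ih (j' + i) (by omega)]
  have hsgn : ∀ k, (((c (k + 1) : ℕ) : ZMod 2) = 0 ↔ 0 < p (k + 1)) := by
    intro k
    rw [ZMod.natCast_eq_zero_iff]
    obtain ⟨h1, h2, h3⟩ := X_parity k
    simp only [hc, p]
    omega
  have hstep : ∀ j : ℕ, (0 < p (K + 1 + k₁ + q * j) ↔ 0 < p (K + 1 + k₁)) := by
    intro j
    induction j with
    | zero => simp
    | succ j ih =>
      rw [← ih]
      have h1 := hper (q * j)
      have e1 : K + 1 + k₂ + q * j = (K + k₁ + q * (j + 1)) + 1 := by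
        rw [mul_add]; omega
      have e2 : K + 1 + k₁ + q * j = (K + k₁ + q * j) + 1 := by omega
      rw [e1, e2] at h1
      have e3 : K + 1 + k₁ + q * (j + 1) = (K + k₁ + q * (j + 1)) + 1 := by omega
      rw [e2, e3, ← hsgn, ← hsgn, h1]
  have hq0 : 0 < q := by omega
  obtain ⟨g1, g2⟩ := sign_change (K + 1 + k₁) q hq0
  by_cases h0 : 0 < p (K + 1 + k₁)
  · exact g1 fun j => (hstep j).2 h0
  · apply g2
    intro j
    have h1 : ¬ 0 < p (K + 1 + k₁ + q * j) := fun h => h0 ((hstep j).1 h)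
    have h2 : p (K + 1 + k₁ + q * j) ≠ 0 := by
      have := p_odd (K + k₁ + q * j)
      rwa [show K + k₁ + q * j + 1 = K + 1 + k₁ + q * j by omega] at this
    omega

end Pool.Agent.S06280
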