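import Pool.Statements.S06350
import Pool.Agent.R233.RFin

set_option autoImplicit false
open Pool Pool.MP_d89f1e_an

namespace Pool.Agent.S06350

/-- The negation of the preceding statement: For n≥2, if f is a normalized univalent holomorphic map of the unit ball whose image is not Runge, then there are normalized injective entire maps Ψ_k, all with the same proper image Ω, converging to f locally uniformly on the ball. -/
theorem result :
    ¬ (∀ n : ℕ, 2 ≤ n →
    ∀ f : EuclideanSpace ℂ (Fin n) → EuclideanSpace ℂ (Fin n),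
      DifferentiableOn ℂ f (Metric.ball 0 1) →
      Set.InjOn f (Metric.ball 0 1) →
      f 0 = 0 →
      fderiv ℂ f 0 = ContinuousLinearMap.id ℂ (EuclideanSpace ℂ (Fin n)) →
      ¬ (∀ g : EuclideanSpace ℂ (Fin n) → ℂ,
          DifferentiableOn ℂ g (f '' Metric.ball 0 1) →
          ∀ K : Set (EuclideanSpace ℂ (Fin n)), IsCompact K → K ⊆ f '' Metric.ball 0 1 →
          ∀ ε : ℝ, 0 < ε →
          ∃ p : MvPolynomial (Fin n) ℂ, ∀ z ∈ K,
            ‖g z - MvPolynomial.eval (fun i => EuclideanSpace.proj i z) p‖ < ε) →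
      ∃ Ω : Set (EuclideanSpace ℂ (Fin n)), Ω ≠ Set.univ ∧
        ∃ Ψ : ℕ → EuclideanSpace ℂ (Fin n) → EuclideanSpace ℂ (Fin n),
          (∀ k, Differentiable ℂ (Ψ k) ∧ Function.Injective (Ψ k) ∧ Ψ k 0 = 0 ∧
              fderiv ℂ (Ψ k) 0 = ContinuousLinearMap.id ℂ (EuclideanSpace ℂ (Fin n)) ∧
              Set.range (Ψ k) = Ω) ∧
          TendstoLocallyUniformlyOn Ψ f Filter.atTop (Metric.ball 0 1)) := by
  intro H
  obtain ⟨S, a, F, h0, ha, hdense, h, hF⟩ := Pool.Agent.R233.RG.exists_F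
  obtain ⟨Ω, -, Ψ, hΨ, hlim⟩ := H 3 (by norm_num) F (Pool.Agent.R233.RG.F_diff h0 h hF)
    ((Pool.Agent.R233.RG.F_inj h hF).mono Metric.ball_subset_closedBall)
    (Pool.Agent.R233.RG.F_zero h0 h hF) (Pool.Agent.R233.RG.F_fderiv h0 h hF)
    (Pool.Agent.R233.RG.not_runge h0 h hF)
  exact Pool.Agent.R233.RG.no_common h0 hdense ha h hF (fun k => (hΨ k).1)
    (fun k => (hΨ k).2.1) (fun k => (hΨ k).2.2.1) (fun k => (hΨ k).2.2.2.2) hlim

end Pool.Agent.S06350
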