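import Pool.Statements.S06395
import Pool.Agent.R263.SobO

set_option autoImplicit false
open MeasureTheory Polynomial
open Pool Pool.MP_dd438b_an

namespace Pool.Agent.S06395

/-- If real polynomials pₙ of degree n are orthogonal for both ∫fg dφ and ∫fg dφ+∫f'g' dψ+∫f''g'' dη (η≠0, φ infinite support, finite moments), then some pₙ(ax+b) is orthogonal for a classical or Krall-type measure. -/
theorem result :
  ∀ (φ ψ η : MeasureTheory.Measure ℝ) (p : ℕ → Polynomial ℝ),
    (∀ k : ℕ, MeasureTheory.Integrable (fun x : ℝ => x ^ k) φ) →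
    (∀ k : ℕ, MeasureTheory.Integrable (fun x : ℝ => x ^ k) ψ) →
    (∀ k : ℕ, MeasureTheory.Integrable (fun x : ℝ => x ^ k) η) →
    (∀ s : Finset ℝ, φ ((↑s : Set ℝ)ᶜ) ≠ 0) →
    η ≠ 0 →
    (∀ n : ℕ, (p n).degree = ((n : ℕ) : WithBot ℕ)) →
    (∀ n m : ℕ, n ≠ m → ∫ x, (p n).eval x * (p m).eval x ∂φ = 0) →
    (∀ n : ℕ, ∫ x, (p n).eval x * (p n).eval x ∂φ ≠ 0) →
    (∀ n m : ℕ, n ≠ m →
      (∫ x, (p n).eval x * (p m).eval x ∂φ)
        + (∫ x, (Polynomial.derivative (p n)).eval x
              * (Polynomial.derivative (p m)).eval x ∂ψ)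
        + (∫ x, (Polynomial.derivative (Polynomial.derivative (p n))).eval x
              * (Polynomial.derivative (Polynomial.derivative (p m))).eval x ∂η) = 0) →
    (∀ n : ℕ,
      (∫ x, (p n).eval x * (p n).eval x ∂φ)
        + (∫ x, (Polynomial.derivative (p n)).eval x
              * (Polynomial.derivative (p n)).eval x ∂ψ)
        + (∫ x, (Polynomial.derivative (Polynomial.derivative (p n))).eval x
              * (Polynomial.derivative (Polynomial.derivative (p n))).eval x ∂η) ≠ 0) →
    ∃ μ : MeasureTheory.Measure ℝ,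
      ((∃ α β : ℝ, -1 < α ∧ -1 < β ∧
          μ = MeasureTheory.volume.withDensity (fun x : ℝ => ENNReal.ofReal
            ((Set.Icc (-1 : ℝ) 1).indicator (fun y : ℝ => (1 - y) ^ α * (1 + y) ^ β) x)))
        ∨ (∃ α : ℝ, -1 < α ∧
          μ = MeasureTheory.volume.withDensity (fun x : ℝ => ENNReal.ofReal
            ((Set.Ioi (0 : ℝ)).indicator (fun y : ℝ => y ^ α * Real.exp (-y)) x)))
        ∨ (μ = MeasureTheory.volume.withDensity (fun x : ℝ => ENNReal.ofReal
            (Real.exp (-(x ^ 2)))))
        ∨ (∃ A : ℝ, 0 < A ∧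
          μ = MeasureTheory.volume.restrict (Set.Icc (-1 : ℝ) 1)
            + ENNReal.ofReal (1 / A) • (MeasureTheory.Measure.dirac (-1 : ℝ)
                + MeasureTheory.Measure.dirac (1 : ℝ)))
        ∨ (∃ R : ℝ, 0 < R ∧
          μ = MeasureTheory.volume.withDensity (fun x : ℝ => ENNReal.ofReal
            ((Set.Ioi (0 : ℝ)).indicator (fun y : ℝ => Real.exp (-y)) x))
            + ENNReal.ofReal (1 / R) • MeasureTheory.Measure.dirac (0 : ℝ))
        ∨ (∃ α M : ℝ, -1 < α ∧ 0 < M ∧
          μ = MeasureTheory.volume.withDensity (fun x : ℝ => ENNReal.ofReal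
            ((Set.Ico (0 : ℝ) 1).indicator (fun y : ℝ => (1 - y) ^ α) x))
            + ENNReal.ofReal (1 / M) • MeasureTheory.Measure.dirac (0 : ℝ)))
      ∧ ∃ a b : ℝ, a ≠ 0 ∧
        (∀ n : ℕ, ((p n).comp (Polynomial.C a * Polynomial.X + Polynomial.C b)).degree
            = ((n : ℕ) : WithBot ℕ)) ∧
        (∀ n m : ℕ, n ≠ m →
          ∫ x, ((p n).comp (Polynomial.C a * Polynomial.X + Polynomial.C b)).eval x
            * ((p m).comp (Polynomial.C a * Polynomial.X + Polynomial.C b)).eval x ∂μ = 0) ∧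
        (∀ n : ℕ,
          ∫ x, ((p n).comp (Polynomial.C a * Polynomial.X + Polynomial.C b)).eval x
            * ((p n).comp (Polynomial.C a * Polynomial.X + Polynomial.C b)).eval x ∂μ ≠ 0) := by
  intro φ ψ η p hφ hψ hη hinf hη0 hdeg horth hnz hS1 _
  have hgood : Pool.Agent.R263.Sob.Good φ := by
    have o1 : ∀ n m : ℕ, n ≠ m → Pool.Agent.R263.Sob.mom φ hφ (p n * p m) = 0 := by
      intro n m hnm
      rw [Pool.Agent.R263.Sob.mom_apply, ← horth n m hnm]
      simp only [Polynomial.eval_mul]
    have o2 : ∀ n : ℕ, Pool.Agent.R263.Sob.mom φ hφ (p n * p n) ≠ 0 := by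
      intro n
      rw [Pool.Agent.R263.Sob.mom_apply]
      simp only [Polynomial.eval_mul]
      exact hnz n
    have o3 : ∀ n m : ℕ, n ≠ m → Pool.Agent.R263.Sob.B (Pool.Agent.R263.Sob.mom ψ hψ)
        (Pool.Agent.R263.Sob.mom η hη) (p n) (p m) = 0 := by
      intro n m hnm
      have h1 := hS1 n m hnm
      rw [horth n m hnm, zero_add] at h1
      rw [Pool.Agent.R263.Sob.B, Pool.Agent.R263.Sob.mom_apply, Pool.Agent.R263.Sob.mom_apply]
      simp only [Polynomial.eval_mul]
      exact h1
    obtain ⟨A, b, a₂, a₁, d4, d3, d2, d1, e0, e1, e3⟩ :=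
      Pool.Agent.R263.Sob.extract (Pool.Agent.R263.Sob.mom φ hφ) (Pool.Agent.R263.Sob.mom ψ hψ)
        (Pool.Agent.R263.Sob.mom η hη) p hdeg o1 o2 o3
    have hη1 : ∫ _x, (1 : ℝ) ∂η ≠ 0 := by
      have hfin : IsFiniteMeasure η := by
        have h := hη 0
        simp only [pow_zero] at h
        rcases (integrable_const_iff (μ := η) (c := (1 : ℝ))).mp h with h | h
        · exact absurd h one_ne_zero
        · exact h
      rw [integral_const, smul_eq_mul, mul_one]
      intro h
      rw [Measure.real, ENNReal.toReal_eq_zero_iff] at h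
      rcases h with h | h
      · exact hη0 (Measure.measure_univ_eq_zero.mp h)
      · exact measure_ne_top η _ h
    have S : Pool.Agent.R263.Sob.Sol φ A b a₂ a₁ :=
      { mom := hφ
        inf := hinf
        eta := ⟨η, hη, hη1, fun g => e0 g⟩
        A0 := by
          rintro rfl
          have := e0 1
          rw [zero_mul, map_zero, Pool.Agent.R263.Sob.mom_apply] at this
          simp only [Polynomial.eval_one] at this
          exact hη1 this
        dA := d4
        db := d3
        da₂ := d2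
        da₁ := d1
        F1 := fun g => e1 g
        F3 := fun g => e3 g }
    exact S.good
  obtain ⟨μ, hμ, a, b, c, ha, hc, hf⟩ := hgood
  refine ⟨μ, hμ, a, b, ha, ?_, ?_, ?_⟩
  · intro n
    rw [← hdeg n]
    have h2 : (Polynomial.C a * Polynomial.X + Polynomial.C b : ℝ[X]).natDegree = 1 :=
      Polynomial.natDegree_linear ha
    have hpn : p n ≠ 0 := by
      intro h0
      have := hdeg n
      rw [h0] at this
      simp at this
    have hcn : (p n).comp (Polynomial.C a * Polynomial.X + Polynomial.C b) ≠ 0 := by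
      intro h0
      rcases Polynomial.comp_eq_zero_iff.mp h0 with h | h
      · exact hpn h
      · rw [h.2] at h2
        simp at h2
    rw [Polynomial.degree_eq_natDegree hcn, Polynomial.degree_eq_natDegree hpn,
      Polynomial.natDegree_comp, h2, mul_one]
  · intro n m hnm
    have h := hf (p n * p m)
    simp only [Polynomial.mul_comp, Polynomial.eval_mul] at h
    rw [h, horth n m hnm, mul_zero]
  · intro n
    have h := hf (p n * p n)
    simp only [Polynomial.mul_comp, Polynomial.eval_mul] at h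
    rw [h]
    exact mul_ne_zero hc (hnz n)


end Pool.Agent.S06395
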