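import Pool.Statements.S06444
import Pool.Agent.R272.OnlP1
import Pool.Agent.R272.NonA

set_option autoImplicit false
open MeasureTheory
open scoped ENNReal
open Pool Pool.MP_e081a1_an

namespace Pool.Agent.S06444

/-- The negation of the preceding statement: For every p in [1,∞) other than 2, every bounded geometry metric space with the p-operator norm localization property (ℓ^p-valued L^p, all nonzero locally finite Borel measures) has Yu's property A. -/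
theorem result :
    ¬ (∀ (p : ℝ≥0∞) [Fact (1 ≤ p)], p ≠ ⊤ → p ≠ 2 →
    ∀ (X : Type) [MetricSpace X] [MeasurableSpace X] [BorelSpace X],
      (∀ R : ℝ, 0 < R → ∃ N : ℕ, ∀ x : X,
          (Metric.ball x R).Finite ∧ (Metric.ball x R).ncard ≤ N) →
      (∃ c : ℝ, 0 < c ∧ c ≤ 1 ∧ ∃ f : ℕ → ℕ, Monotone f ∧
        ∀ (ν : Measure X) [IsLocallyFiniteMeasure ν], ν ≠ 0 → ∀ r : ℕ,
          ∀ T : Lp (lp (fun _ : ℕ => ℝ) p) p ν →L[ℝ] Lp (lp (fun _ : ℕ => ℝ) p) p ν,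
            (∀ x y : X, (r : ℝ) < dist x y →
              ∃ U V : Set X, IsOpen U ∧ IsOpen V ∧ x ∈ U ∧ y ∈ V ∧
                ∀ g : Lp (lp (fun _ : ℕ => ℝ) p) p ν,
                  (∀ᵐ z ∂ν, z ∉ U → ⇑g z = 0) → ∀ᵐ z ∂ν, z ∈ V → ⇑(T g) z = 0) →
            ∃ ξ : Lp (lp (fun _ : ℕ => ℝ) p) p ν, ξ ≠ 0 ∧
              (∃ S : Set X, (∀ a ∈ S, ∀ b ∈ S, dist a b ≤ (f r : ℝ)) ∧
                ∀ᵐ z ∂ν, z ∉ S → ⇑ξ z = 0) ∧
              c * ‖T‖ * ‖ξ‖ ≤ ‖T ξ‖) →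
      (∀ R : ℝ, 0 < R → ∀ ε : ℝ, 0 < ε →
        ∃ S : ℝ, ∃ A : X → Set (X × ℕ),
          (∀ x, (A x).Finite) ∧ (∀ x, (x, 0) ∈ A x) ∧
          (∀ x, ∀ w ∈ A x, dist w.1 x ≤ S) ∧
          ∀ x y, dist x y < R →
            ((symmDiff (A x) (A y)).ncard : ℝ) < ε * ((A x ∩ A y).ncard : ℝ))) := by
  intro hmain
  obtain ⟨X, hX, hbg, hnonA⟩ := Pool.Agent.R272.NonA.exists_nonA
  letI : MeasurableSpace X := borel X
  haveI : BorelSpace X := ⟨rfl⟩
  haveI : Fact ((1 : ℝ≥0∞) ≤ 1) := ⟨le_rfl⟩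
  apply hnonA
  refine hmain 1 (by simp) (by norm_num) X hbg ?_
  refine ⟨1 / 2, by norm_num, by norm_num, fun _ => 0, monotone_const, ?_⟩
  intro ν _ hν r T _
  -- `X` is countable
  have hcount : Countable X := by
    rcases isEmpty_or_nonempty X with h | ⟨⟨x0⟩⟩
    · infer_instance
    · rw [← Set.countable_univ_iff]
      have : (Set.univ : Set X) = ⋃ n : ℕ, Metric.ball x0 ((n : ℝ) + 1) := by
        ext x
        simp only [Set.mem_univ, Set.mem_iUnion, Metric.mem_ball, true_iff]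
        obtain ⟨n, hn⟩ := exists_nat_ge (dist x x0)
        exact ⟨n, by linarith⟩
      rw [this]
      apply Set.countable_iUnion
      intro n
      obtain ⟨N, hN⟩ := hbg ((n : ℝ) + 1) (by positivity)
      exact (hN x0).1.countable
  haveI : Nontrivial (lp (fun _ : ℕ => ℝ) 1) := by
    refine ⟨lp.single 1 0 1, 0, ?_⟩
    intro h
    have := congrArg (fun f : lp (fun _ : ℕ => ℝ) 1 => (f : ℕ → ℝ) 0) h
    simp at this
  obtain ⟨ξ, hξ0, ⟨x, hx⟩, hξ⟩ := Pool.Agent.R272.OnlP1.exists_single hν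
    (fun x => isCompact_singleton.measure_lt_top.ne) T
  refine ⟨ξ, hξ0, ⟨{x}, ?_, hx⟩, hξ⟩
  intro a ha b hb
  rw [Set.mem_singleton_iff] at ha hb
  subst ha; subst hb
  simp

end Pool.Agent.S06444
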