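import Pool.Statements.S06486
import Pool.Agent.R392.Haight2

set_option autoImplicit false
open scoped Pointwise
open Pool Pool.MP_e3f633_an

namespace Pool.Agent.S06486

/-- The negation of the preceding statement: For every compact set A of reals whose difference set A−A contains a neighbourhood of 0, the sumset A+A+A+A has non-empty interior. -/
theorem result :
    ¬ (∀ A : Set ℝ, IsCompact A → A - A ∈ nhds (0 : ℝ) →
      (interior (A + A + A + A)).Nonempty) := by
  intro h
  obtain ⟨A, hc, hd, hv⟩ := Pool.Agent.R392.Haight.main
  have h1 := h A hc hd
  rw [MeasureTheory.Measure.interior_eq_empty_of_null (μ := MeasureTheory.volume) hv] at h1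
  exact Set.not_nonempty_empty h1

end Pool.Agent.S06486
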