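import Pool.Statements.S06506
-- import your own Pool.Agent.* helpers here
import Pool.Agent.R159.HN.CAN
import Pool.Agent.R159.HN.MEAS
import Pool.Agent.R159.HN.HAR
import Pool.Agent.R159.HN.BD
import Pool.Agent.R159.HN.RECT
import Pool.Agent.R159.HN.SQ
import Pool.Agent.R159.HN.W
import Pool.Agent.R159.HN.HP
import Pool.Agent.R159.HN.FIN

set_option autoImplicit false
open Pool Pool.MP_e5f19a_an

namespace Pool.Agent.S06506

/-- The negation of the preceding statement: Every domain in ℂ whose complement has positive logarithmic capacity (it contains a compact set carrying a finite-energy probability measure) has a non-constant holomorphic f on it with ∣f∣² bounded by a harmonic function. -/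
theorem result :
    ¬ (∀ Ω : Set ℂ, IsOpen Ω → IsConnected Ω →
      (∃ K : Set ℂ, IsCompact K ∧ K ⊆ Ωᶜ ∧
        ∃ μ : MeasureTheory.Measure ℂ, MeasureTheory.IsProbabilityMeasure μ ∧
          MeasureTheory.NoAtoms μ ∧ μ Kᶜ = 0 ∧
          MeasureTheory.Integrable (fun p : ℂ × ℂ => Real.log ‖p.1 - p.2‖) (μ.prod μ)) →
      ∃ f : ℂ → ℂ, DifferentiableOn ℂ f Ω ∧
        (∃ u : ℂ → ℝ,
          (∀ z ∈ Ω, ∃ r > 0, Metric.ball z r ⊆ Ω ∧
            ∃ g : ℂ → ℂ, DifferentiableOn ℂ g (Metric.ball z r) ∧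
              ∀ w ∈ Metric.ball z r, u w = (g w).re) ∧
          ∀ z ∈ Ω, ‖f z‖ ^ 2 ≤ u z) ∧
        ∃ z ∈ Ω, ∃ w ∈ Ω, f z ≠ f w) := by
  intro h
  have hC := Pool.Agent.R159.HN.CAN.main
  have hH := Pool.Agent.R159.HN.HAR.main
  have hB := Pool.Agent.R159.HN.BD.main hH
  have hR := Pool.Agent.R159.HN.RECT.main
  have hS := Pool.Agent.R159.HN.SQ.main hC hR
  have hW := Pool.Agent.R159.HN.W.main
  have hP := Pool.Agent.R159.HN.HP.main hC hH
  have hM := Pool.Agent.R159.HN.MEAS.main hC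
  obtain ⟨f, hf, ⟨u, hu, hfu⟩, z, hz, w, hw, hne⟩ := h Pool.Agent.R159.HN.Eᶜ hC.2.2.2.1 hC.2.2.2.2
    ⟨Pool.Agent.R159.HN.E, hC.2.2.1, by rw [compl_compl], hM⟩
  exact hne (Pool.Agent.R159.HN.FIN.core hC hB hS hW hP f u hf hu hfu z hz w hw)

end Pool.Agent.S06506
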