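import Pool.Statements.S06521
-- import your own Pool.Agent.* helpers here
import Pool.Agent.R267.NUTop

set_option autoImplicit false
open Pool Pool.MP_e7ec4f_an

namespace Pool.Agent.S06521

open Pool.Agent.R267 Pool.Agent.R267.NU

/-- the parameters of the example -/
noncomputable def P0 : Par where
  g _ := 4
  J c := c
  s _ := 1 / 2
  hg _ := le_refl _
  hs0 _ := by norm_num
  hs _ := le_refl _

theorem tqg_fails : ¬ (∃ C : ℝ, ∀ f : XX ℝ P0, ∀ A : Finset ℕ, A.Nonempty →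
          (∀ n ∈ A, ∀ k : ℕ, k ∉ A → ‖bf P0 k f‖ ≤ ‖bf P0 n f‖) →
          ∀ t : ℝ, (∀ n ∈ A, t ≤ ‖bf P0 n f‖) →
            t * ‖(∑ n ∈ A, (bf P0 n f / ((‖bf P0 n f‖ : ℝ) : ℝ)) • bx (𝕜 := ℝ) P0 n : XX ℝ P0)‖ ≤
              C * ‖f‖) := by
  rintro ⟨C, hC⟩
  obtain ⟨J, hJ⟩ := pow_unbounded_of_one_lt (2 * |C|) (by norm_num : (1 : ℝ) < 2)
  set f : XX ℝ P0 := arrVec P0 J geo with hf
  have hnf : ‖f‖ ≤ 1 := by
    rw [hf, norm_arrVec]
    exact norm_geo_le (by norm_num [P0])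
  have hmem : ∀ (d : ℕ) (j : Fin (P0.J d + 1)) (m : Fin (P0.g d ^ P0.J d)),
      (enm P0).symm ⟨d, (j, m)⟩ ∈ rows P0 J (fun _ => True) ↔ d = J := by
    intro d j m
    rw [mem_rows]
    constructor
    · rintro ⟨h, _⟩; exact h
    · intro h; exact ⟨h, trivial⟩
  have hval : ∀ n ∈ rows P0 J (fun _ => True), (1 / 2 : ℝ) ^ J ≤ bf P0 n f ∧ 0 < bf P0 n f := by
    intro n hn
    obtain ⟨⟨d, j, m⟩, rfl⟩ := (enm P0).symm.surjective n
    have hd := (hmem d j m).mp hn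
    subst hd
    rw [hf, bf_arrVec]
    have hjd : (j : ℕ) ≤ d := by
      have := j.2
      change (j : ℕ) < d + 1 at this
      omega
    constructor
    · change (1 / 2 : ℝ) ^ d ≤ (1 / 2 : ℝ) ^ (j : ℕ)
      exact pow_le_pow_of_le_one (by norm_num) (by norm_num) hjd
    · change (0 : ℝ) < (1 / 2 : ℝ) ^ (j : ℕ)
      positivity
  have hne : (rows P0 J (fun _ => True)).Nonempty := by
    refine ⟨(enm P0).symm ⟨J, Classical.arbitrary (KK P0 J)⟩, ?_⟩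
    exact (hmem J (Classical.arbitrary (KK P0 J)).1 (Classical.arbitrary (KK P0 J)).2).mpr rfl
  have h1 := hC f (rows P0 J (fun _ => True)) hne (by
      intro n _ k hk
      obtain ⟨⟨d, j, m⟩, rfl⟩ := (enm P0).symm.surjective k
      have hd : d ≠ J := fun h => hk ((hmem d j m).mpr h)
      rw [hf, bf_arrVec_ne P0 hd, norm_zero]
      exact norm_nonneg _) ((1 / 2 : ℝ) ^ J) (by
      intro n hn
      have := hval n hn
      rw [Real.norm_of_nonneg this.2.le]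
      exact this.1)
  have h2 : (∑ n ∈ rows P0 J (fun _ => True),
      (bf P0 n f / ((‖bf P0 n f‖ : ℝ) : ℝ)) • bx (𝕜 := ℝ) P0 n : XX ℝ P0) =
      arrVec P0 J (fun _ _ => 1) := by
    rw [Finset.sum_congr rfl (g := fun n => (1 : ℝ) • (bx P0 n : XX ℝ P0)), sum_rows]
    · congr 1
      funext j m
      rw [if_pos trivial]
    · intro n hn
      have := hval n hn
      rw [Real.norm_of_nonneg this.2.le]
      rw [div_self this.2.ne']
  rw [h2, norm_arrVec] at h1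
  have h3 : (4 : ℝ) ^ J * (1 / 2) ≤ ‖shear (P0.s J) (fun _ _ => 1 : Arr ℝ (P0.g J) (P0.J J))‖ := by
    have := last_row_lower (𝕜 := ℝ) (g := 4) (J := J) (by norm_num) (fun _ _ => 1) (1 / 2) (by
      intro n
      have hp : ‖(1 / 2 : ℝ) • pavg (𝕜 := ℝ) (g := 4) (J := J) (fun _ _ => 1) (Fin.last J)‖
          ≤ 1 / 2 := by
        rw [norm_smul]
        unfold pavg
        split_ifs
        · simp
        · rw [avg_const (by norm_num) _ _ (1 : ℝ) (fun _ => rfl)]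
          simp
      have h4 := norm_sub_norm_le (1 : ℝ)
        ((1 / 2 : ℝ) • pavg (𝕜 := ℝ) (g := 4) (J := J) (fun _ _ => 1) (Fin.last J))
      rw [norm_one] at h4
      linarith)
    exact_mod_cast this
  have h5 : C * ‖f‖ ≤ |C| := by
    calc C * ‖f‖ ≤ |C| * ‖f‖ := mul_le_mul_of_nonneg_right (le_abs_self C) (norm_nonneg _)
      _ ≤ |C| * 1 := mul_le_mul_of_nonneg_left hnf (abs_nonneg _)
      _ = |C| := mul_one _
  have h6 : (1 / 2 : ℝ) ^ J * ((4 : ℝ) ^ J * (1 / 2)) ≤ |C| := by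
    refine le_trans (mul_le_mul_of_nonneg_left h3 (by positivity)) (h1.trans h5)
  have h7 : (1 / 2 : ℝ) ^ J * ((4 : ℝ) ^ J * (1 / 2)) = 2 ^ J / 2 := by
    rw [← mul_assoc, ← mul_pow]
    norm_num
    ring
  rw [h7] at h6
  linarith

/-- There is a real or complex quasi-Banach space with a bounded biorthogonal basis that is nearly unconditional (coordinates at least a can be projected boundedly) but not truncation quasi-greedy. -/
theorem result :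
    ∃ (𝕂 : Type) (_ : RCLike 𝕂) (X : Type) (_ : AddCommGroup X) (_ : Module 𝕂 X)
      (q : X → ℝ) (κ : ℝ) (x : ℕ → X) (xs : ℕ → X →ₗ[𝕂] 𝕂),
      (∀ f : X, 0 ≤ q f) ∧
      (∀ f : X, q f = 0 → f = 0) ∧
      (∀ (c : 𝕂) (f : X), q (c • f) = ‖c‖ * q f) ∧
      (∀ f g : X, q (f + g) ≤ κ * (q f + q g)) ∧
      (∀ u : ℕ → X, (∀ ε : ℝ, 0 < ε → ∃ N : ℕ, ∀ m ≥ N, ∀ n ≥ N, q (u m - u n) < ε) →
        ∃ f : X, ∀ ε : ℝ, 0 < ε → ∃ N : ℕ, ∀ n ≥ N, q (u n - f) < ε) ∧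
      (∃ B : ℝ, ∀ n : ℕ, q (x n) ≤ B) ∧
      (∃ M : ℝ, ∀ (n : ℕ) (f : X), ‖xs n f‖ ≤ M * q f) ∧
      (∀ m n : ℕ, xs m (x n) = if m = n then 1 else 0) ∧
      (∀ f : X, ∀ ε : ℝ, 0 < ε → ∃ g ∈ Submodule.span 𝕂 (Set.range x), q (f - g) < ε) ∧
      (∀ a : ℝ, 0 < a → a ≤ 1 → ∃ C : ℝ, ∀ f : X, (∀ n : ℕ, ‖xs n f‖ ≤ 1) →
        ∀ A : Finset ℕ, (∀ n ∈ A, a ≤ ‖xs n f‖) →
          q (∑ n ∈ A, xs n f • x n) ≤ C * q f) ∧
      ¬ (∃ C : ℝ, ∀ f : X, ∀ A : Finset ℕ, A.Nonempty →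
          (∀ n ∈ A, ∀ k : ℕ, k ∉ A → ‖xs k f‖ ≤ ‖xs n f‖) →
          ∀ t : ℝ, (∀ n ∈ A, t ≤ ‖xs n f‖) →
            t * q (∑ n ∈ A, (xs n f / ((‖xs n f‖ : ℝ) : 𝕂)) • x n) ≤ C * q f) := by
  have : ∀ c, CompleteSpace (VV ℝ (P0.g c) (P0.J c)) := fun c => FiniteDimensional.complete ℝ _
  refine ⟨ℝ, inferInstance, XX ℝ P0, inferInstance, inferInstance, fun f => ‖f‖, 1, bx P0, bf P0,
    fun f => norm_nonneg f, fun f h => norm_eq_zero.mp h, fun c f => norm_smul c f,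
    fun f g => by rw [one_mul]; exact norm_add_le f g, ?_, ⟨2, norm_bx P0⟩, ⟨2, norm_bf P0⟩,
    bf_bx P0, ?_, ?_, tqg_fails⟩
  · intro u hu
    have hc : CauchySeq u := by
      rw [Metric.cauchySeq_iff]
      intro ε hε
      obtain ⟨N, hN⟩ := hu ε hε
      refine ⟨N, fun m hm n hn => ?_⟩
      rw [dist_eq_norm]
      exact hN m hm n hn
    obtain ⟨f, hf⟩ := cauchySeq_tendsto_of_complete hc
    refine ⟨f, fun ε hε => ?_⟩
    obtain ⟨N, hN⟩ := (Metric.tendsto_atTop.mp hf) ε hε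
    refine ⟨N, fun n hn => ?_⟩
    have := hN n hn
    rwa [dist_eq_norm] at this
  · intro f ε hε
    obtain ⟨g, hg, hgf⟩ := Metric.mem_closure_iff.mp (dense_bx (𝕜 := ℝ) P0 f) ε hε
    refine ⟨g, hg, ?_⟩
    rwa [dist_eq_norm] at hgf
  · intro a ha _
    exact nearly_unc P0 (unu_of P0 4 (fun c => Or.inr ⟨rfl, rfl⟩)) a ha

end Pool.Agent.S06521
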