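import Pool.Statements.S06524
import Pool.Agent.R247.BM.F

set_option autoImplicit false
open MeasureTheory Filter Topology Metric
open Pool Pool.MP_e7f1de_an

namespace Pool.Agent.S06524


open Pool.Agent.R247.BM in
/-- the isometry between the plane and `EuclideanSpace ℝ (Fin 2)` -/
noncomputable def ee : ℂ ≃ₗᵢ[ℝ] EuclideanSpace ℝ (Fin 2) := Complex.orthonormalBasisOneI.repr

lemma ee_mp : MeasurePreserving ee volume volume := ee.measurePreserving

lemma ee_me : MeasurableEmbedding ee := ee.toHomeomorph.measurableEmbedding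

lemma ee_set_integral (F : EuclideanSpace ℝ (Fin 2) → ℝ) (s : Set (EuclideanSpace ℝ (Fin 2))) :
    ∫ x in s, F x = ∫ z in ee ⁻¹' s, F (ee z) :=
  (ee_mp.setIntegral_preimage_emb ee_me F s).symm

lemma ee_intOn (F : EuclideanSpace ℝ (Fin 2) → ℝ) (s : Set (EuclideanSpace ℝ (Fin 2))) :
    IntegrableOn F s volume ↔ IntegrableOn (F ∘ ee) (ee ⁻¹' s) volume :=
  (ee_mp.integrableOn_comp_preimage ee_me).symm

lemma ee_ball (c : ℂ) (r : ℝ) : ee ⁻¹' (ball (ee c) r) = ball c r := by
  ext z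
  simp

lemma ee_vol (s : Set (EuclideanSpace ℝ (Fin 2))) (hs : MeasurableSet s) :
    volume.real s = volume.real (ee ⁻¹' s) := by
  rw [measureReal_def, measureReal_def, ee_mp.measure_preimage hs.nullMeasurableSet]

lemma ee_avg (F : EuclideanSpace ℝ (Fin 2) → ℝ) (c : ℂ) (r : ℝ) :
    ⨍ x in ball (ee c) r, F x = ⨍ z in ball c r, F (ee z) := by
  rw [setAverage_eq, setAverage_eq, ee_set_integral, ee_ball, ee_vol _ measurableSet_ball, ee_ball]

/-- The negation of the preceding statement: For every kernel homogeneous of degree -n, mean zero on the sphere, with angular part in L log L, there is C such that the principal-value operator sends each bounded compactly supported f with ∣f∣≤M to a function of BMO norm at most C·M. -/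
theorem result :
    ¬ (∀ (n : ℕ), 1 ≤ n →
    ∀ (k : EuclideanSpace ℝ (Fin n) → ℝ), Measurable k →
    (∀ x : EuclideanSpace ℝ (Fin n), x ≠ 0 → ∀ t : ℝ, 0 < t →
        k (t • x) = t ^ (-(n : ℤ)) * k x) →
    IntegrableOn k {x : EuclideanSpace ℝ (Fin n) | 1 ≤ ‖x‖ ∧ ‖x‖ ≤ 2} volume →
    (∫ x in {x : EuclideanSpace ℝ (Fin n) | 1 ≤ ‖x‖ ∧ ‖x‖ ≤ 2}, k x) = 0 →
    IntegrableOn (fun x => |k x| * max 0 (Real.log |k x|))
        {x : EuclideanSpace ℝ (Fin n) | 1 ≤ ‖x‖ ∧ ‖x‖ ≤ 2} volume →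
    ∃ C : ℝ, ∀ (f : EuclideanSpace ℝ (Fin n) → ℝ) (M : ℝ),
      Measurable f → HasCompactSupport f → (∀ x, |f x| ≤ M) →
      ∀ g : EuclideanSpace ℝ (Fin n) → ℝ,
        (∀ᵐ x ∂(volume : Measure (EuclideanSpace ℝ (Fin n))),
          Tendsto (fun ε : ℝ => ∫ y in {y : EuclideanSpace ℝ (Fin n) | ε < ‖y‖}, k y * f (x - y))
            (𝓝[>] 0) (𝓝 (g x))) →
        ∀ (c : EuclideanSpace ℝ (Fin n)) (r : ℝ), 0 < r →
          IntegrableOn g (ball c r) volume ∧
          (⨍ x in ball c r, |g x - ⨍ y in ball c r, g y|) ≤ C * M) := by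
  intro H
  obtain ⟨N, hN, hmain⟩ := Pool.Agent.R247.BM.mainC
  set k0 : ℂ → ℝ := Pool.Agent.R247.BM.ker N hN with hk0
  set k : EuclideanSpace ℝ (Fin 2) → ℝ := fun x => k0 (ee.symm x) with hk
  have hke : ∀ z : ℂ, k (ee z) = k0 z := fun z => by rw [hk]; simp
  have hann : ee ⁻¹' {x : EuclideanSpace ℝ (Fin 2) | 1 ≤ ‖x‖ ∧ ‖x‖ ≤ 2}
      = {z : ℂ | ‖z‖ ∈ Set.Icc (1 : ℝ) 2} := by
    ext z
    simp
  have hkm : Measurable k :=
    (Pool.Agent.R247.BM.ker_meas N hN).comp ee.symm.continuous.measurable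
  obtain ⟨C, hC⟩ := H 2 (by norm_num) k hkm
    (by
      intro x _ t ht
      have h := Pool.Agent.R247.BM.ker_hom N hN (ee.symm x) t ht
      have h2 : ee.symm (t • x) = (t : ℂ) * ee.symm x := by
        rw [map_smul, Complex.real_smul]
      rw [hk]
      simp only
      rw [h2, hk0, h]
      norm_num)
    (by
      rw [ee_intOn, hann]
      have : k ∘ ee = k0 := funext hke
      rw [this]
      exact Pool.Agent.R247.BM.ker_intOn N hN one_pos)
    (by
      rw [ee_set_integral, hann]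
      simp_rw [hke]
      exact Pool.Agent.R247.BM.ker_int_zero N hN _ measurableSet_Icc)
    (by
      rw [ee_intOn, hann]
      have : ((fun x => |k x| * max 0 (Real.log |k x|)) ∘ ee)
          = fun z => |k0 z| * max 0 (Real.log |k0 z|) := by
        funext z
        simp only [Function.comp_apply, hke]
      rw [this]
      exact Pool.Agent.R247.BM.ker_log_intOn N hN)
  obtain ⟨f0, hf0, hf0s, hf0b, hf0g⟩ := hmain C
  choose g0 hg0 using Pool.Agent.R247.BM.pv_exists N hN f0 hf0 hf0s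
  set f : EuclideanSpace ℝ (Fin 2) → ℝ := fun x => f0 (ee.symm x) with hf
  set g : EuclideanSpace ℝ (Fin 2) → ℝ := fun x => g0 (ee.symm x) with hg
  have hge : ∀ z : ℂ, g (ee z) = g0 z := fun z => by rw [hg]; simp
  have hfm : Measurable f := (hf0.continuous.comp ee.symm.continuous).measurable
  have hfs : HasCompactSupport f := hf0s.comp_homeomorph ee.symm.toHomeomorph
  have hlim : ∀ᵐ x ∂(volume : Measure (EuclideanSpace ℝ (Fin 2))),
      Tendsto (fun ε : ℝ => ∫ y in {y : EuclideanSpace ℝ (Fin 2) | ε < ‖y‖}, k y * f (x - y))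
        (𝓝[>] 0) (𝓝 (g x)) := by
    refine ae_of_all _ fun x => ?_
    have h := hg0 (ee.symm x)
    refine h.congr fun ε => ?_
    rw [ee_set_integral]
    have hs : ee ⁻¹' {y : EuclideanSpace ℝ (Fin 2) | ε < ‖y‖} = {y : ℂ | ε < ‖y‖} := by
      ext z
      simp
    rw [hs]
    refine setIntegral_congr_fun (measurable_norm measurableSet_Ioi) fun z _ => ?_
    rw [hke]
    have h2 : f (x - ee z) = f0 (ee.symm x - z) := by
      rw [hf]
      simp only
      rw [map_sub, LinearIsometryEquiv.symm_apply_apply]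
    rw [h2]
  obtain ⟨hint, hle⟩ := hC f 1 hfm hfs (fun x => hf0b _) g hlim (ee 0) 1 one_pos
  rw [ee_intOn, ee_ball] at hint
  have hgc : g ∘ ee = g0 := funext hge
  rw [hgc] at hint
  have h3 := hf0g g0 hg0 hint
  rw [ee_avg, ee_avg] at hle
  simp_rw [hge] at hle
  linarith

end Pool.Agent.S06524
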