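import Pool.Statements.S06533
import Pool.Agent.R327.OR.Main

set_option autoImplicit false
open MeasureTheory Filter Topology
open Pool Pool.MP_e8a8db_an

namespace Pool.Agent.S06533

/-- Every nontrivial mixing measure-preserving system on a probability space has an over-recurrent set, or a bounded non-constant function f with ∫ f·f∘T^n ≥ (∫ f)^2 for all n ≥ 1. -/
theorem result :
    ∀ (X : Type) [MeasurableSpace X] (μ : Measure X) [IsProbabilityMeasure μ] (T : X → X),
      MeasurePreserving T μ μ →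
      (∃ A : Set X, MeasurableSet A ∧ 0 < μ A ∧ μ A < 1) →
      (∀ A B : Set X, MeasurableSet A → MeasurableSet B →
        Tendsto (fun n : ℕ => μ (A ∩ T^[n] ⁻¹' B)) atTop (𝓝 (μ A * μ B))) →
      (∃ A : Set X, MeasurableSet A ∧ 0 < μ A ∧ μ A < 1 ∧
          ∀ n : ℕ, 1 ≤ n → μ A ^ 2 ≤ μ (A ∩ T^[n] ⁻¹' A)) ∨
      (∃ f : X → ℝ, MemLp f ⊤ μ ∧ (¬ ∃ c : ℝ, f =ᵐ[μ] fun _ => c) ∧
          ∀ n : ℕ, 1 ≤ n → (∫ x, f x ∂μ) ^ 2 ≤ ∫ x, f x * f (T^[n] x) ∂μ) := by
  intro X _ μ _ T hT ⟨D, hD, hD0, hD1⟩ hmixE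
  right
  have hmix : Pool.Agent.R327.OR.Mix μ T := by
    intro A B hA hB
    have h := hmixE A B hA hB
    have h2 := (ENNReal.tendsto_toReal
      (ENNReal.mul_ne_top (measure_ne_top μ A) (measure_ne_top μ B))).comp h
    rw [ENNReal.toReal_mul] at h2
    exact h2
  have h0 : 0 < μ.real D := ENNReal.toReal_pos hD0.ne' (measure_ne_top μ D)
  have h1 : μ.real D < 1 := by
    have := (ENNReal.toReal_lt_toReal (measure_ne_top μ D) ENNReal.one_ne_top).2 hD1
    simpa [Measure.real] using this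
  obtain ⟨f, hfm, ⟨C, hC⟩, hf⟩ := Pool.Agent.R327.OR.main hmix hT hD h0 h1
  refine ⟨f, ?_, ?_, fun n _ => (hf n).le⟩
  · apply memLp_top_of_bound hfm.aestronglyMeasurable C
    refine Eventually.of_forall fun x => ?_
    rw [Real.norm_eq_abs, abs_of_nonneg (hC x).1]
    exact (hC x).2
  · rintro ⟨c, hc⟩
    have h2 := hf 0
    simp only [Function.iterate_zero, id_eq] at h2
    have e1 : ∫ x, f x ∂μ = c := by
      rw [integral_congr_ae hc]; simp
    have e2 : ∫ x, f x * f x ∂μ = c * c := by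
      have : (fun x => f x * f x) =ᵐ[μ] fun _ => c * c := by
        filter_upwards [hc] with x hx
        rw [hx]
      rw [integral_congr_ae this]; simp
    rw [e1, e2] at h2
    nlinarith

end Pool.Agent.S06533
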