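import Pool.Statements.S06632
import Pool.Agent.Helper841.SnowC7

set_option autoImplicit false
open Pool Pool.MP_efb015_an

namespace Pool.Agent.S06632

/-- The negation of the preceding statement: For every exponent q with 2 < q < ∞, real L_q[0,1] admits a coarse embedding into ℓ_q, or it admits a uniform embedding (injective, uniformly continuous, with uniformly continuous inverse on the image) into ℓ_q. -/
theorem result :
    ¬ (∀ (p : ENNReal) [Fact (1 ≤ p)], (2 : ENNReal) < p → p ≠ ⊤ →
      (∃ f : MeasureTheory.Lp ℝ p ((MeasureTheory.volume : MeasureTheory.Measure ℝ).restrict (Set.Icc 0 1)) →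
            lp (fun _ : ℕ => ℝ) p,
          ∃ ρ₁ ρ₂ : ℝ → ℝ, MonotoneOn ρ₁ (Set.Ici 0) ∧ MonotoneOn ρ₂ (Set.Ici 0) ∧
            Filter.Tendsto ρ₁ Filter.atTop Filter.atTop ∧
            ∀ x y, ρ₁ (dist x y) ≤ dist (f x) (f y) ∧ dist (f x) (f y) ≤ ρ₂ (dist x y)) ∨
      (∃ f : MeasureTheory.Lp ℝ p ((MeasureTheory.volume : MeasureTheory.Measure ℝ).restrict (Set.Icc 0 1)) →
            lp (fun _ : ℕ => ℝ) p,
          IsUniformEmbedding f)) := by
  intro h
  haveI : Fact ((1 : ENNReal) ≤ 3) := ⟨by norm_num⟩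
  rcases h 3 (by norm_num) (by norm_num) with ⟨f, ρ₁, ρ₂, h1, h2, h3, h4⟩ | ⟨f, hf⟩
  · refine Pool.Agent.Helper841.Snow.no_coarse (P := 3) (by norm_num) (by norm_num)
      ⟨f, fun t => ρ₁ (max t 0), fun t => ρ₂ (max t 0), ?_, ?_, ?_, ?_⟩
    · intro a b hab
      exact h1 (Set.mem_Ici.2 (le_max_right _ _)) (Set.mem_Ici.2 (le_max_right _ _))
        (max_le_max hab le_rfl)
    · intro a b hab
      exact h2 (Set.mem_Ici.2 (le_max_right _ _)) (Set.mem_Ici.2 (le_max_right _ _))
        (max_le_max hab le_rfl)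
    · refine h3.congr' ?_
      filter_upwards [Filter.eventually_ge_atTop (0 : ℝ)] with t ht
      rw [max_eq_left ht]
    · intro x y
      have hd : max (dist x y) 0 = dist x y := max_eq_left dist_nonneg
      simp only [hd]
      exact h4 x y
  · exact Pool.Agent.Helper841.Snow.no_uniform (P := 3) (by norm_num) (by norm_num) ⟨f, hf⟩

end Pool.Agent.S06632
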