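import Pool.Statements.S06633
import Pool.Agent.R222.Polar.Limit

set_option autoImplicit false
open Filter Topology
open scoped ENNReal
open Pool Pool.MP_efb919_an

namespace Pool.Agent.S06633

/-- For every nonempty compact perfect nowhere dense K in [0,1] of positive Lebesgue measure and every s>1, the N-point Riesz s-polarization constant of K divided by N^s converges to a finite limit as N tends to infinity. -/
theorem result :
    ∀ K : Set ℝ, K ⊆ Set.Icc (0 : ℝ) 1 → K.Nonempty → IsCompact K → Perfect K →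
      IsNowhereDense K → 0 < MeasureTheory.volume K →
      ∀ s : ℝ, 1 < s →
        ∃ L : ℝ≥0∞, L ≠ ⊤ ∧
          Tendsto
            (fun N : ℕ =>
              (⨆ (x : Fin N → ℝ) (_ : ∀ i, x i ∈ K),
                  ⨅ y ∈ K, ∑ j, (ENNReal.ofReal |y - x j|) ^ (-s)) /
                ((N : ℝ≥0∞) ^ s))
            atTop (𝓝 L) := by
  intro K hK01 hne hK _ _ hpos s hs
  refine ⟨_, ?_, Pool.Agent.R222.Polar.limit hK01 hK hne hpos hs⟩
  refine ENNReal.mul_ne_top ?_ (Pool.Agent.R222.Polar.cst_ne_top hs)
  have hfin : MeasureTheory.volume K ≠ ⊤ := hK.measure_lt_top.ne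
  rw [← ENNReal.ofReal_toReal hfin,
    ENNReal.ofReal_rpow_of_pos (ENNReal.toReal_pos hpos.ne' hfin)]
  exact ENNReal.ofReal_ne_top

end Pool.Agent.S06633
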