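import Pool.Statements.S06698
import Pool.Agent.R392.NW.Fin

set_option autoImplicit false
open Pool Pool.MP_f42c0e_an

namespace Pool.Agent.S06698

/-- The negation of the preceding statement: There exist n ≥ 1 and entire φ_1..φ_n, each a ratio of finite sums of exponentials of entire functions, and an entire f not of that form, with f^n + φ_1 f^(n-1) + ... + φ_n = 0 everywhere. -/
theorem result :
    ¬ (∃ n : ℕ, 1 ≤ n ∧ ∃ φ : Fin n → ℂ → ℂ,
      (∀ i, Differentiable ℂ (φ i) ∧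
        ∃ m k : ℕ, ∃ F : Fin m → ℂ → ℂ, ∃ G : Fin k → ℂ → ℂ,
          (∀ a, Differentiable ℂ (F a)) ∧ (∀ b, Differentiable ℂ (G b)) ∧
          (∃ z, ∑ b, Complex.exp (G b z) ≠ 0) ∧
          ∀ z, φ i z * ∑ b, Complex.exp (G b z) = ∑ a, Complex.exp (F a z)) ∧
      ∃ f : ℂ → ℂ, Differentiable ℂ f ∧
        ¬ (∃ m k : ℕ, ∃ F : Fin m → ℂ → ℂ, ∃ G : Fin k → ℂ → ℂ,
          (∀ a, Differentiable ℂ (F a)) ∧ (∀ b, Differentiable ℂ (G b)) ∧
          (∃ z, ∑ b, Complex.exp (G b z) ≠ 0) ∧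
          ∀ z, f z * ∑ b, Complex.exp (G b z) = ∑ a, Complex.exp (F a z)) ∧
        ∀ z, f z ^ n + ∑ i : Fin n, φ i z * f z ^ (n - 1 - (i : ℕ)) = 0) := by
  rintro ⟨n, hn, φ, hφ, f, hf, hnot, heq⟩
  exact hnot (Pool.Agent.R392.NW.main_fun n hn φ hφ f hf heq)

end Pool.Agent.S06698
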