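import Pool.Statements.S06809
import Pool.Agent.R952.LZ.P_SD
import Pool.Agent.R952.LZ.P_SUBG
import Pool.Agent.R952.LZ.P_PL
import Pool.Agent.R952.LZ.P_PROX
import Pool.Agent.R952.LZ.P_LIM
import Pool.Agent.R952.LZ.P_NCFIN
import Pool.Agent.R952.LZ.P_GRID
import Pool.Agent.R952.LZ.P_FINAL

set_option autoImplicit false
open Pool Pool.MP_fc7644_an

namespace Pool.Agent.S06809

open MeasureTheory Set Metric
open Pool.Agent.R952.LZ

/-- Every measurable set of positive measure in `EuclideanSpace ℝ (Fin d)` is mapped by a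
contraction of the whole space onto a set containing a ball. -/
theorem euclid {d : ℕ} (E : Set (E2 d)) (hE : MeasurableSet E) (hpos : 0 < volume E) :
    ∃ (F : E2 d → E2 d) (x : E2 d) (ρ : ℝ), LipschitzWith 1 F ∧ 0 < ρ ∧ ball x ρ ⊆ F '' E :=
  ball_image (t_LIM (t_NCFIN t_SD t_GRIDX t_GRIDQ) t_SUBG t_PL) (t_PROX t_SUBG) E hE hpos
    (om d) (om_pos d) (fun x _ hr => vol_cball_real x hr.le)

/-- The clamp onto the unit interval. -/
noncomputable def clamp (t : ℝ) : ℝ := max 0 (min 1 t)

theorem clamp_lip : LipschitzWith 1 clamp := by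
  have h : LipschitzWith 1 (fun t : ℝ => max 0 (min 1 t)) :=
    (LipschitzWith.id.const_min 1).const_max 0
  exact h

theorem clamp_mem (t : ℝ) : 0 ≤ clamp t ∧ clamp t ≤ 1 :=
  ⟨le_max_left _ _, max_le zero_le_one (min_le_left _ _)⟩

theorem clamp_eq {t : ℝ} (h0 : 0 ≤ t) (h1 : t ≤ 1) : clamp t = t := by
  rw [clamp, min_eq_right h1, max_eq_right h0]

/-- For every d > 2 and every measurable set E in R^d of positive Lebesgue measure, there is a Lipschitz map from R^d into the cube [0,1]^d whose image of E is the whole cube. -/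
theorem result :
    ∀ d : ℕ, 2 < d → ∀ E : Set (Fin d → ℝ), MeasurableSet E →
      0 < MeasureTheory.volume E →
      ∃ f : (Fin d → ℝ) → (Fin d → ℝ), ∃ K : NNReal, LipschitzWith K f ∧
        Set.range f ⊆ Set.Icc (0 : Fin d → ℝ) 1 ∧
        f '' E = Set.Icc (0 : Fin d → ℝ) 1 := by
  intro d _ E hE hpos
  let e : E2 d ≃L[ℝ] (Fin d → ℝ) := EuclideanSpace.equiv (Fin d) ℝ
  have hmp : MeasurePreserving (e : E2 d → (Fin d → ℝ)) := PiLp.volume_preserving_ofLp (Fin d)
  have hE' : MeasurableSet (e ⁻¹' E) := hmp.measurable hE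
  have hpos' : 0 < volume (e ⁻¹' E) := by
    rw [hmp.measure_preimage hE.nullMeasurableSet]
    exact hpos
  obtain ⟨F, x, ρ, hF, hρ, hball⟩ := euclid (e ⁻¹' E) hE' hpos'
  have hopen : IsOpen (e.symm ⁻¹' (ball x ρ)) := isOpen_ball.preimage e.symm.continuous
  have hmem : e x ∈ e.symm ⁻¹' (ball x ρ) := by
    simp [hρ]
  obtain ⟨a, ha, hsub⟩ := Metric.isOpen_iff.1 hopen (e x) hmem
  obtain ⟨b, hb, hba⟩ : ∃ b : ℝ, 0 < b ∧ b < a := ⟨a / 2, by positivity, by linarith⟩
  let g : (Fin d → ℝ) → (Fin d → ℝ) := fun z i => clamp ((z i - (e x i - b)) / (2 * b))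
  have hg : LipschitzWith (Real.toNNReal (1 / (2 * b))) g := by
    refine LipschitzWith.of_dist_le_mul fun z w => ?_
    rw [dist_pi_le_iff (by positivity)]
    intro i
    have h1 := clamp_lip.dist_le_mul ((z i - (e x i - b)) / (2 * b)) ((w i - (e x i - b)) / (2 * b))
    rw [NNReal.coe_one, one_mul, Real.dist_eq ((z i - (e x i - b)) / (2 * b))] at h1
    have h2 : (z i - (e x i - b)) / (2 * b) - (w i - (e x i - b)) / (2 * b) =
        1 / (2 * b) * (z i - w i) := by ring
    rw [h2, abs_mul, abs_of_pos (by positivity : 0 < 1 / (2 * b))] at h1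
    rw [Real.coe_toNNReal _ (by positivity)]
    refine h1.trans (mul_le_mul_of_nonneg_left ?_ (by positivity))
    have h3 := dist_le_pi_dist z w i
    rwa [Real.dist_eq] at h3
  refine ⟨fun z => g (e (F (e.symm z))), _,
    hg.comp (e.lipschitz.comp (hF.comp e.symm.lipschitz)), ?_, ?_⟩
  · rintro _ ⟨z, rfl⟩
    exact ⟨fun i => (clamp_mem _).1, fun i => (clamp_mem _).2⟩
  · apply Subset.antisymm
    · rintro _ ⟨z, _, rfl⟩
      exact ⟨fun i => (clamp_mem _).1, fun i => (clamp_mem _).2⟩
    · rintro t ⟨ht0, ht1⟩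
      have ht0' : ∀ i, 0 ≤ t i := fun i => ht0 i
      have ht1' : ∀ i, t i ≤ 1 := fun i => ht1 i
      let z : Fin d → ℝ := fun i => e x i - b + 2 * b * t i
      have hgz : g z = t := by
        funext i
        have h1 : (z i - (e x i - b)) / (2 * b) = t i := by
          show (e x i - b + 2 * b * t i - (e x i - b)) / (2 * b) = t i
          field_simp
          ring
        show clamp ((z i - (e x i - b)) / (2 * b)) = t i
        rw [h1]
        exact clamp_eq (ht0' i) (ht1' i)
      have hz : z ∈ ball (e x) a := by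
        rw [mem_ball]
        refine lt_of_le_of_lt ?_ hba
        rw [dist_pi_le_iff hb.le]
        intro i
        rw [Real.dist_eq, abs_le]
        have h0 := ht0' i
        have h1 := ht1' i
        constructor
        · show -b ≤ e x i - b + 2 * b * t i - e x i
          nlinarith
        · show e x i - b + 2 * b * t i - e x i ≤ b
          nlinarith
      have hz2 : e.symm z ∈ ball x ρ := hsub hz
      obtain ⟨u, hu, hFu⟩ := hball hz2
      refine ⟨e u, hu, ?_⟩
      show g (e (F (e.symm (e u)))) = t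
      rw [e.symm_apply_apply, hFu, e.apply_symm_apply, hgz]

end Pool.Agent.S06809
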