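import Pool.Statements.S07056

set_option autoImplicit false
open Pool Pool.MP_0959cd_co

namespace Pool.Agent.S07056

open Finset

/-- The vertices of the tree: the root `none`, its five children `some (i, none)` and the 25 leaves
`some (i, some j)`. -/
abbrev T := Option (Fin 5 × Option (Fin 5))

/-- The weights: tree arcs have weight `1/5`; every leaf sends weight `1/2` to its parent and to the root. -/
noncomputable def q : T → T → ℝ
  | none, some (_, none) => 1 / 5
  | some (i, none), some (j, some _) => if i = j then 1 / 5 else 0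
  | some (i, some _), some (j, none) => if i = j then 1 / 2 else 0
  | some (_, some _), none => 1 / 2
  | _, _ => 0

lemma q_nonneg (u v : T) : 0 ≤ q u v := by
  rcases u with _ | ⟨i, _ | a⟩ <;> rcases v with _ | ⟨j, _ | b⟩ <;> simp only [q] <;> (try split_ifs) <;> norm_num

lemma q_le (u v : T) : q u v ≤ 1 := by
  rcases u with _ | ⟨i, _ | a⟩ <;> rcases v with _ | ⟨j, _ | b⟩ <;> simp only [q] <;> (try split_ifs) <;> norm_num

lemma q_diag (u : T) : q u u = 0 := by
  rcases u with _ | ⟨i, _ | a⟩ <;> simp only [q]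

lemma q_out (u : T) : 1 ≤ ∑ v, q u v := by
  rw [Fintype.sum_option, Fintype.sum_prod_type]
  simp only [Fintype.sum_option]
  rcases u with _ | ⟨i, _ | a⟩
  · simp [q]
  · simp [q]
  · simp [q]
    norm_num

lemma next_root (v : T) (h : 0 < q none v) : ∃ i, v = some (i, none) := by
  rcases v with _ | ⟨j, _ | b⟩
  · simp [q] at h
  · exact ⟨j, rfl⟩
  · simp [q] at h

lemma next_child (i : Fin 5) (v : T) (h : 0 < q (some (i, none)) v) : ∃ a, v = some (i, some a) := by
  rcases v with _ | ⟨j, _ | b⟩
  · simp [q] at h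
  · simp [q] at h
  · simp only [q] at h
    split_ifs at h with h1
    · subst h1
      exact ⟨b, rfl⟩
    · simp at h

lemma next_leaf (i a : Fin 5) (v : T) (h : 0 < q (some (i, some a)) v) : v = none ∨ v = some (i, none) := by
  rcases v with _ | ⟨j, _ | b⟩
  · left; rfl
  · simp only [q] at h
    split_ifs at h with h1
    · subst h1
      right; rfl
    · simp at h
  · simp [q] at h

/-- A cycle starting at the root. -/
lemma cyc_root (k : ℕ) (c : Fin (k + 2) → T) (hc : Function.Injective c)
    (h : ∀ i, 0 < q (c i) (c (i + 1))) (h0 : c 0 = none) : ∑ i, q (c i) (c (i + 1)) ≤ 9 / 10 := by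
  have h1 := h 0
  rw [h0, zero_add] at h1
  obtain ⟨i, hi⟩ := next_root _ h1
  have h2 := h 1
  rw [hi] at h2
  obtain ⟨a, ha⟩ := next_child _ _ h2
  have h3 := h (1 + 1)
  rw [ha] at h3
  have h4 := next_leaf _ _ _ h3
  rcases k with _ | _ | k
  · -- two vertices
    have e : (1 + 1 : Fin (0 + 2)) = 0 := rfl
    rw [e, h0] at ha
    simp at ha
  · -- three vertices
    have e : (1 + 1 : Fin (0 + 1 + 2)) = 2 := rfl
    have e' : (2 + 1 : Fin (0 + 1 + 2)) = 0 := rfl
    rw [e] at ha
    rw [Fin.sum_univ_three, zero_add, e, e', h0, hi, ha]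
    simp only [q, if_true]
    norm_num
  · exfalso
    rcases h4 with h4 | h4
    · rw [← h0] at h4
      have := hc h4
      rw [Fin.ext_iff] at this
      simp only [Fin.val_add, Fin.val_one, Fin.val_zero, Nat.mod_add_mod] at this
      rw [Nat.mod_eq_of_lt (by omega)] at this
      omega
    · rw [← hi] at h4
      have := hc h4
      rw [Fin.ext_iff] at this
      simp only [Fin.val_add, Fin.val_one, Nat.mod_add_mod] at this
      rw [Nat.mod_eq_of_lt (by omega)] at this
      omega

/-- A cycle starting at a child of the root. -/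
lemma cyc_child (k : ℕ) (c : Fin (k + 2) → T) (hc : Function.Injective c)
    (h : ∀ i, 0 < q (c i) (c (i + 1))) (hn : ∀ j, c j ≠ none) (i : Fin 5) (h0 : c 0 = some (i, none)) :
    ∑ i, q (c i) (c (i + 1)) ≤ 9 / 10 := by
  have h1 := h 0
  rw [h0, zero_add] at h1
  obtain ⟨a, ha⟩ := next_child _ _ h1
  have h2 := h 1
  rw [ha] at h2
  have h3 := next_leaf _ _ _ h2
  rcases h3 with h3 | h3
  · exact absurd h3 (hn _)
  · rcases k with _ | k
    · have e : (1 + 1 : Fin (0 + 2)) = 0 := rfl
      rw [Fin.sum_univ_two, zero_add, e, h0, ha]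
      simp only [q, if_true]
      norm_num
    · exfalso
      rw [← h0] at h3
      have := hc h3
      rw [Fin.ext_iff] at this
      simp only [Fin.val_add, Fin.val_one, Fin.val_zero] at this
      rw [Nat.mod_eq_of_lt (by omega)] at this
      omega

lemma rot (k : ℕ) (c : Fin (k + 2) → T) (a : Fin (k + 2)) (hc : Function.Injective c)
    (h : ∀ i, 0 < q (c i) (c (i + 1))) :
    ∃ d : Fin (k + 2) → T, Function.Injective d ∧ (∀ i, 0 < q (d i) (d (i + 1))) ∧ d 0 = c a ∧
      (∀ j, ∃ j', d j = c j') ∧ ∑ i, q (d i) (d (i + 1)) = ∑ i, q (c i) (c (i + 1)) := by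
  refine ⟨fun i => c (i + a), fun x y hxy => by simpa using hc hxy, fun i => ?_, by simp, fun j => ⟨_, rfl⟩, ?_⟩
  · have := h (i + a)
    rwa [add_right_comm] at this
  · rw [← Equiv.sum_comp (Equiv.addRight a) (fun i => q (c i) (c (i + 1)))]
    apply Finset.sum_congr rfl
    intro i _
    simp only [Equiv.coe_addRight]
    rw [add_right_comm]

lemma cyc (k : ℕ) (c : Fin (k + 2) → T) (hc : Function.Injective c)
    (h : ∀ i, 0 < q (c i) (c (i + 1))) : ∑ i, q (c i) (c (i + 1)) ≤ 9 / 10 := by
  by_cases hr : ∃ a, c a = none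
  · obtain ⟨a, ha⟩ := hr
    obtain ⟨d, hd, h', h0, -, hs⟩ := rot k c a hc h
    rw [← hs]
    exact cyc_root k d hd h' (h0.trans ha)
  · push Not at hr
    have key : ∃ a i, c a = some (i, none) := by
      rcases e : c 0 with _ | ⟨i, _ | a⟩
      · exact absurd e (hr 0)
      · exact ⟨0, i, e⟩
      · have h1 := h 0
        rw [e] at h1
        rcases next_leaf _ _ _ h1 with h2 | h2
        · exact absurd h2 (hr _)
        · exact ⟨_, _, h2⟩
    obtain ⟨a, i, ha⟩ := key
    obtain ⟨d, hd, h', h0, hm, hs⟩ := rot k c a hc h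
    rw [← hs]
    refine cyc_child k d hd h' (fun j => ?_) i (h0.trans ha)
    obtain ⟨j', hj'⟩ := hm j
    rw [hj']
    exact hr j'

/-- The whole digraph: `(true, u)` is the tree digraph, `(false, u)` is its reverse, and there is a
matching of arcs of weight `1` from the second to the first. -/
noncomputable def p : Bool × T → Bool × T → ℝ
  | (true, u), (true, v) => q u v
  | (false, u), (false, v) => q v u
  | (false, u), (true, v) => if u = v then 1 else 0
  | (true, _), (false, _) => 0

lemma p_nonneg (u v : Bool × T) : 0 ≤ p u v := by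
  rcases u with ⟨_ | _, u⟩ <;> rcases v with ⟨_ | _, v⟩ <;> simp only [p]
  · exact q_nonneg _ _
  · split_ifs <;> norm_num
  · exact le_refl _
  · exact q_nonneg _ _

lemma p_le (u v : Bool × T) : p u v ≤ 1 := by
  rcases u with ⟨_ | _, u⟩ <;> rcases v with ⟨_ | _, v⟩ <;> simp only [p]
  · exact q_le _ _
  · split_ifs <;> norm_num
  · norm_num
  · exact q_le _ _

lemma p_out (u : Bool × T) : 1 ≤ ∑ v, p u v := by
  rw [Fintype.sum_prod_type, Fintype.sum_bool]
  rcases u with ⟨_ | _, u⟩
  · simp only [p]
    rw [Finset.sum_ite_eq]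
    have : 0 ≤ ∑ x, q x u := Finset.sum_nonneg fun x _ => q_nonneg _ _
    simp only [mem_univ, if_true]
    linarith
  · simp only [p]
    simpa using q_out u

lemma p_in (u : Bool × T) : 1 ≤ ∑ v, p v u := by
  rw [Fintype.sum_prod_type, Fintype.sum_bool]
  rcases u with ⟨_ | _, u⟩
  · simp only [p]
    simpa using q_out u
  · simp only [p]
    rw [Finset.sum_ite_eq']
    have : 0 ≤ ∑ x, q x u := Finset.sum_nonneg fun x _ => q_nonneg _ _
    simp only [mem_univ, if_true]
    linarith

lemma step (u v : Bool × T) (h : 0 < p u v) (hu : u.1 = true) : v.1 = true := by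
  rcases u with ⟨_ | _, u⟩ <;> rcases v with ⟨_ | _, v⟩ <;> simp_all [p]

lemma all_of_step (n : ℕ) (P : Fin (n + 2) → Prop) (h : ∀ i, P i → P (i + 1)) (a : Fin (n + 2)) (ha : P a)
    (b : Fin (n + 2)) : P b := by
  have key : ∀ m : ℕ, P (a + Fin.ofNat (n + 2) m) := by
    intro m
    induction m with
    | zero =>
      have : a + Fin.ofNat (n + 2) 0 = a := by
        simp
      rwa [this]
    | succ m ih =>
      have : a + Fin.ofNat (n + 2) (m + 1) = a + Fin.ofNat (n + 2) m + 1 := by
        apply Fin.ext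
        simp [Fin.val_add, add_assoc]
      rw [this]
      exact h _ ih
  have := key ((b - a : Fin (n + 2)) : ℕ)
  have e : a + Fin.ofNat (n + 2) ((b - a : Fin (n + 2)) : ℕ) = b := by
    have e1 : Fin.ofNat (n + 2) ((b - a : Fin (n + 2)) : ℕ) = b - a := by
      apply Fin.ext
      simp [Fin.ofNat, Nat.mod_eq_of_lt (b - a).isLt]
    rw [e1, add_sub_cancel]
  rwa [e] at this

/-- The problem has a negative answer: there is a (not strongly connected) digraph with all weighted outdegrees and
indegrees at least one in which all directed cycles have weight at most `9/10`. -/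
theorem result :
    ¬ (∀ (V : Type) [Fintype V] [Nonempty V] (G : Digraph V) (p : V → V → ℝ),
      (∀ v, ¬ G.Adj v v) →
      (∀ u v, 0 ≤ p u v ∧ p u v ≤ 1) →
      (∀ u v, ¬ G.Adj u v → p u v = 0) →
      (∀ u, 1 ≤ ∑ v, p u v) →
      (∀ u, 1 ≤ ∑ v, p v u) →
      ∃ (k : ℕ) (c : Fin (k + 2) → V),
        Function.Injective c ∧
        (∀ i, G.Adj (c i) (c (i + 1))) ∧
        1 ≤ ∑ i, p (c i) (c (i + 1))) := by
  intro H
  obtain ⟨k, c, hc, hadj, hsum⟩ := H (Bool × T) ⟨fun u v => 0 < p u v⟩ p
    (fun v => by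
      rcases v with ⟨_ | _, v⟩ <;> simp [p, q_diag])
    (fun u v => ⟨p_nonneg u v, p_le u v⟩)
    (fun u v h => le_antisymm (not_lt.1 h) (p_nonneg u v))
    p_out p_in
  change ∀ i, 0 < p (c i) (c (i + 1)) at hadj
  by_cases hT : ∃ a, (c a).1 = true
  · obtain ⟨a, ha⟩ := hT
    have hb : ∀ b, (c b).1 = true := fun b =>
      all_of_step k (fun i => (c i).1 = true) (fun i hi => step _ _ (hadj i) hi) a ha b
    have e : ∀ b, c b = (true, (c b).2) := fun b => Prod.ext (hb b) rfl
    have e2 : ∀ i, p (c i) (c (i + 1)) = q (c i).2 (c (i + 1)).2 := by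
      intro i
      rw [e i, e (i + 1)]
      rfl
    have := cyc k (fun i => (c i).2) (fun x y hxy => hc (by rw [e x, e y]; simpa using hxy))
      (fun i => by rw [← e2]; exact hadj i)
    simp only [e2] at hsum
    linarith
  · push Not at hT
    have e : ∀ b, c b = (false, (c b).2) := fun b => Prod.ext (by simpa using hT b) rfl
    have e2 : ∀ i, p (c i) (c (i + 1)) = q (c (i + 1)).2 (c i).2 := by
      intro i
      rw [e i, e (i + 1)]
      rfl
    have e3 : ∀ i : Fin (k + 2), -(i + 1) + 1 = -i := by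
      intro i
      rw [neg_add, neg_add_cancel_right]
    have := cyc k (fun i => (c (-i)).2) (fun x y hxy => by
        have := hc (show c (-x) = c (-y) by rw [e (-x), e (-y)]; simpa using hxy)
        simpa using this)
      (fun i => by
        have := hadj (-(i + 1))
        rwa [e2, e3] at this)
    have hs : ∑ i, q (c (-i)).2 (c (-(i + 1))).2 = ∑ i, q (c (i + 1)).2 (c i).2 := by
      rw [← Equiv.sum_comp ((Equiv.addRight 1).trans (Equiv.neg (Fin (k + 2)))) (fun i => q (c (i + 1)).2 (c i).2)]
      apply Finset.sum_congr rfl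
      intro i _
      simp only [Equiv.trans_apply, Equiv.coe_addRight, Equiv.neg_apply]
      rw [e3]
    simp only [e2] at hsum
    rw [hs] at this
    linarith

end Pool.Agent.S07056
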