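import Pool.Statements.S07114

set_option autoImplicit false
open Filter Topology
open Pool Pool.MP_0b90e2_co

namespace Pool.Agent.S07114

/-- the colour of the pair `x, y`: pairs inside one of the two halves get colour `0`, pairs between
the halves get an arbitrary colour -/
def col (m : ℕ) (g : Fin m → Fin m → Fin 25) (x y : Fin (2 * m)) : Fin 25 :=
  if h : x.val < m ∧ m ≤ y.val then g ⟨x.val, h.1⟩ ⟨y.val - m, by omega⟩
  else if h : y.val < m ∧ m ≤ x.val then g ⟨y.val, h.1⟩ ⟨x.val - m, by omega⟩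
  else 0

lemma col_symm (m : ℕ) (g : Fin m → Fin m → Fin 25) (x y : Fin (2 * m)) :
    col m g x y = col m g y x := by
  unfold col
  by_cases h1 : x.val < m ∧ m ≤ y.val
  · have h2 : ¬ (y.val < m ∧ m ≤ x.val) := by omega
    rw [dif_pos h1, dif_neg h2, dif_pos h1]
  · by_cases h2 : y.val < m ∧ m ≤ x.val
    · rw [dif_neg h1, dif_pos h2, dif_pos h2]
    · rw [dif_neg h1, dif_neg h2, dif_neg h2, dif_neg h1]

/-- the colouring -/
def colouring (m : ℕ) (g : Fin m → Fin m → Fin 25) :
    {e : Sym2 (Fin (2 * m)) // ¬ e.IsDiag} → Fin 25 :=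
  fun e => Sym2.lift ⟨col m g, col_symm m g⟩ e.1

lemma colouring_inj (m : ℕ) : Function.Injective (colouring m) := by
  intro g g' h
  funext i j
  have hne : (⟨i.val, by omega⟩ : Fin (2 * m)) ≠ ⟨j.val + m, by omega⟩ := by
    intro hh
    have := congrArg Fin.val hh
    simp only at this
    omega
  have h1 := congrFun h ⟨s((⟨i.val, by omega⟩ : Fin (2 * m)), ⟨j.val + m, by omega⟩), by
    rw [Sym2.mk_isDiag_iff]; exact hne⟩
  unfold colouring at h1
  simp only [Sym2.lift_mk] at h1
  unfold col at h1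
  have hc : (⟨i.val, by omega⟩ : Fin (2 * m)).val < m ∧ m ≤ (⟨j.val + m, by omega⟩ : Fin (2 * m)).val := by
    simp only
    omega
  rw [dif_pos hc, dif_pos hc] at h1
  have e1 : (⟨j.val + m - m, by omega⟩ : Fin m) = j := by
    apply Fin.ext; simp
  simpa [e1] using h1

lemma colouring_ok (m : ℕ) (g : Fin m → Fin m → Fin 25) (S : Finset (Fin (2 * m)))
    (hS : S.card = 4) :
    ((Finset.univ.filter
      (fun e : {e : Sym2 (Fin (2 * m)) // ¬ e.IsDiag} => e.1 ∈ S.sym2)).image
        (colouring m g)).card < 6 := by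
  classical
  set S₁ := S.filter (fun x => x.val < m) with hS₁
  set S₂ := S.filter (fun x => ¬ x.val < m) with hS₂
  have hsum : S₁.card + S₂.card = 4 := by
    rw [hS₁, hS₂, Finset.card_filter_add_card_filter_not, hS]
  have hprod : S₁.card * S₂.card ≤ 4 := by
    have : S₁.card ≤ 4 := by omega
    have h2 : S₂.card = 4 - S₁.card := by omega
    rw [h2]
    interval_cases S₁.card <;> norm_num
  have hsub : (Finset.univ.filter
      (fun e : {e : Sym2 (Fin (2 * m)) // ¬ e.IsDiag} => e.1 ∈ S.sym2)).image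
        (colouring m g) ⊆ insert 0 ((S₁ ×ˢ S₂).image (fun p => col m g p.1 p.2)) := by
    intro a ha
    rw [Finset.mem_image] at ha
    obtain ⟨⟨e, he⟩, heS, rfl⟩ := ha
    rw [Finset.mem_filter] at heS
    have heS2 := heS.2
    simp only at heS2
    induction e using Sym2.ind with
    | _ x y =>
      rw [Finset.mk_mem_sym2_iff] at heS2
      unfold colouring
      simp only [Sym2.lift_mk]
      by_cases h1 : x.val < m ∧ m ≤ y.val
      · apply Finset.mem_insert_of_mem
        rw [Finset.mem_image]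
        refine ⟨(x, y), ?_, rfl⟩
        rw [Finset.mem_product, hS₁, hS₂, Finset.mem_filter, Finset.mem_filter]
        exact ⟨⟨heS2.1, h1.1⟩, ⟨heS2.2, by simpa using h1.2⟩⟩
      · by_cases h2 : y.val < m ∧ m ≤ x.val
        · apply Finset.mem_insert_of_mem
          rw [Finset.mem_image]
          refine ⟨(y, x), ?_, (col_symm m g x y).symm⟩
          rw [Finset.mem_product, hS₁, hS₂, Finset.mem_filter, Finset.mem_filter]
          exact ⟨⟨heS2.2, h2.1⟩, ⟨heS2.1, by simpa using h2.2⟩⟩
        · apply Finset.mem_insert.2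
          left
          unfold col
          rw [dif_neg h1, dif_neg h2]
  calc _ ≤ _ := Finset.card_le_card hsub
    _ ≤ ((S₁ ×ˢ S₂).image (fun p => col m g p.1 p.2)).card + 1 := Finset.card_insert_le _ _
    _ ≤ (S₁ ×ˢ S₂).card + 1 := by gcongr; exact Finset.card_image_le
    _ = S₁.card * S₂.card + 1 := by rw [Finset.card_product]
    _ < 6 := by omega

lemma lower (m : ℕ) :
    25 ^ (m * m) ≤ Nat.card {c : {e : Sym2 (Fin (2 * m)) // ¬ e.IsDiag} → Fin 25 //
              ∀ S : Finset (Fin (2 * m)), S.card = 4 →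
                ((Finset.univ.filter
                    (fun e : {e : Sym2 (Fin (2 * m)) // ¬ e.IsDiag} => e.1 ∈ S.sym2)).image c).card < 6} := by
  have h1 : Nat.card (Fin m → Fin m → Fin 25) = 25 ^ (m * m) := by
    simp [Nat.card_eq_fintype_card, pow_mul]
  rw [← h1]
  apply Nat.card_le_card_of_injective
    (fun g => (⟨colouring m g, fun S hS => colouring_ok m g S hS⟩ :
      {c : {e : Sym2 (Fin (2 * m)) // ¬ e.IsDiag} → Fin 25 //
              ∀ S : Finset (Fin (2 * m)), S.card = 4 →
                ((Finset.univ.filter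
                    (fun e : {e : Sym2 (Fin (2 * m)) // ¬ e.IsDiag} => e.1 ∈ S.sym2)).image c).card < 6}))
  intro g g' h
  exact colouring_inj m (Subtype.ext_iff.1 h)

/-- The negation of the preceding statement: For all k≥3, 3≤s≤C(k,2), r≥s: the number of r-colorings of the edges of K_n in which every k-vertex set spans fewer than s colors, divided by C(r,s-1)·(s-1)^{C(n,2)}, tends to 1 as n→∞. -/
theorem result :
    ¬ (∀ k s r : ℕ, 3 ≤ k → 3 ≤ s → s ≤ k.choose 2 → s ≤ r →
      Tendsto
        (fun n : ℕ =>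
          (Nat.card {c : {e : Sym2 (Fin n) // ¬ e.IsDiag} → Fin r //
              ∀ S : Finset (Fin n), S.card = k →
                ((Finset.univ.filter
                    (fun e : {e : Sym2 (Fin n) // ¬ e.IsDiag} => e.1 ∈ S.sym2)).image c).card < s} : ℝ)
            / ((r.choose (s - 1) : ℝ) * ((s : ℝ) - 1) ^ (n.choose 2)))
        atTop (𝓝 1)) := by
  intro H
  have h := H 4 6 25 (by norm_num) (by norm_num) (by decide) (by norm_num)
  have h2 := h.eventually (gt_mem_nhds (show (1 : ℝ) < 2 by norm_num))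
  obtain ⟨N, hN⟩ := eventually_atTop.1 h2
  set m : ℕ := N + 8 with hm
  have h3 := hN (2 * m) (by omega)
  have hlow := lower m
  have hchoose : (2 * m).choose 2 = m * (2 * m - 1) := by
    rw [Nat.choose_two_right, mul_assoc, Nat.mul_div_cancel_left _ (by norm_num)]
  have hC : (25 : ℕ).choose (6 - 1) = 53130 := by
    norm_num [Nat.choose]
  have hden : (0 : ℝ) < ((25 : ℕ).choose (6 - 1) : ℝ) * (((6 : ℕ) : ℝ) - 1) ^ ((2 * m).choose 2) := by
    rw [hC]
    positivity
  rw [div_lt_iff₀ hden] at h3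
  have hlow' : (25 : ℝ) ^ (m * m) ≤ (Nat.card {c : {e : Sym2 (Fin (2 * m)) // ¬ e.IsDiag} → Fin 25 //
              ∀ S : Finset (Fin (2 * m)), S.card = 4 →
                ((Finset.univ.filter
                    (fun e : {e : Sym2 (Fin (2 * m)) // ¬ e.IsDiag} => e.1 ∈ S.sym2)).image c).card < 6} : ℝ) := by
    exact_mod_cast hlow
  have h4 := lt_of_le_of_lt hlow' h3
  rw [hC, hchoose] at h4
  have h5 : (((6 : ℕ) : ℝ) - 1) = 5 := by norm_num
  rw [h5] at h4
  have h20 : 2 * m - 1 + 1 = 2 * m := by omega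
  have h21 : 2 * (m * m) = m * (2 * m - 1) + m := by
    calc 2 * (m * m) = m * (2 * m) := by ring
      _ = m * (2 * m - 1 + 1) := by rw [h20]
      _ = m * (2 * m - 1) + m := by ring
  have h6 : (25 : ℝ) ^ (m * m) = 5 ^ (m * (2 * m - 1)) * 5 ^ m := by
    rw [← pow_add, ← h21, pow_mul (5 : ℝ) 2 (m * m), show (5 : ℝ) ^ 2 = 25 by norm_num]
  rw [h6] at h4
  have h7 : (0 : ℝ) < 5 ^ (m * (2 * m - 1)) := by positivity
  generalize (5 : ℝ) ^ (m * (2 * m - 1)) = A at h4 h7
  have h8 : (5 : ℝ) ^ m < 106260 := by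
    generalize (5 : ℝ) ^ m = B at h4
    have e1 : ((53130 : ℕ) : ℝ) = 53130 := by norm_num
    rw [e1] at h4
    have h5 : A * B < A * 106260 := by
      calc A * B < 2 * (53130 * A) := h4
        _ = A * 106260 := by ring
    exact lt_of_mul_lt_mul_left h5 h7.le
  have h9 : (5 : ℝ) ^ 8 ≤ 5 ^ m := pow_le_pow_right₀ (by norm_num) (by omega)
  norm_num at h9
  linarith

end Pool.Agent.S07114
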