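import Pool.Statements.S07160

set_option autoImplicit false
open Pool Pool.MP_0cd801_co

namespace Pool.Agent.S07160

/-- The out-neighbours of the vertices of the counterexample (12 vertices, in- and out-degree 3). -/
def out : ℕ → List ℕ
  | 0 => [3, 6, 9]
  | 1 => [3, 7, 10]
  | 2 => [1, 5, 9]
  | 3 => [2, 8, 11]
  | 4 => [0, 1, 11]
  | 5 => [3, 4, 10]
  | 6 => [2, 4, 7]
  | 7 => [0, 5, 11]
  | 8 => [1, 5, 6]
  | 9 => [4, 7, 8]
  | 10 => [0, 2, 8]
  | 11 => [6, 9, 10]
  | _ => []

/-- Depth-first search: can the directed path `path` (last vertex first) be prolonged by `m` further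
new vertices so that its last vertex has an arc to the vertex `0`? -/
def search : ℕ → List ℕ → Bool
  | _, [] => false
  | 0, v :: _ => (out v).contains 0
  | m + 1, v :: p => (out v).any (fun w => !((v :: p).contains w) && search m (w :: v :: p))

/-- The path `g k, g (k - 1), …, g 0`. -/
def pathL (g : ℕ → ℕ) : ℕ → List ℕ
  | 0 => [g 0]
  | k + 1 => g (k + 1) :: pathL g k

lemma pathL_cons (g : ℕ → ℕ) (k : ℕ) : ∃ p, pathL g k = g k :: p := by
  cases k with
  | zero => exact ⟨[], rfl⟩
  | succ k => exact ⟨pathL g k, rfl⟩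

lemma mem_pathL {g : ℕ → ℕ} {k x : ℕ} (h : x ∈ pathL g k) : ∃ i ≤ k, x = g i := by
  induction k with
  | zero => exact ⟨0, le_rfl, by simpa [pathL] using h⟩
  | succ k ih =>
    rcases List.mem_cons.1 h with h | h
    · exact ⟨k + 1, le_rfl, h⟩
    · obtain ⟨i, hi, hx⟩ := ih h
      exact ⟨i, by omega, hx⟩

lemma search_true {g : ℕ → ℕ} (hadj : ∀ k, k < 12 → g (k + 1) ∈ out (g k))
    (hinj : ∀ i j, i < 12 → j < 12 → g i = g j → i = j) (h12 : g 12 = 0) :
    ∀ m k, m + k = 11 → search m (pathL g k) = true := by
  intro m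
  induction m with
  | zero =>
    intro k hk
    obtain rfl : k = 11 := by omega
    obtain ⟨p, hp⟩ := pathL_cons g 11
    rw [hp]
    have := hadj 11 (by norm_num)
    rw [h12] at this
    simpa [search] using this
  | succ m ih =>
    intro k hk
    obtain ⟨p, hp⟩ := pathL_cons g k
    have h1 := ih (k + 1) (by omega)
    have h2 : g (k + 1) ∉ pathL g k := by
      intro hmem
      obtain ⟨i, hi, hx⟩ := mem_pathL hmem
      have := hinj (k + 1) i (by omega) (by omega) hx
      omega
    have h3 : pathL g (k + 1) = g (k + 1) :: pathL g k := rfl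
    rw [h3, hp] at h1
    rw [hp] at h2
    rw [hp]
    simp only [search, List.any_eq_true]
    refine ⟨g (k + 1), hadj k (by omega), ?_⟩
    rw [h1]
    simpa using h2

lemma search_false : search 11 [0] = false := by decide +kernel

/-- The digraph of the counterexample. -/
def G : Digraph (Fin 12) where
  Adj u v := v.val ∈ out u.val

instance : DecidableRel G.Adj := fun u v => inferInstanceAs (Decidable (v.val ∈ out u.val))

/-- The negation of the preceding statement: For every d > 2 and n ≤ 4d+1, every oriented graph on n vertices in which each vertex has in-degree d and out-degree d has a directed Hamilton cycle, i.e. a cyclic ordering of all n vertices with an arc from each vertex to the next. -/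
theorem result :
    ¬ (∀ (d n : ℕ), 2 < d → n ≤ 4 * d + 1 →
      ∀ G : Digraph (Fin n),
        (∀ u v : Fin n, G.Adj u v → ¬ G.Adj v u) →
        (∀ v : Fin n, Set.ncard {u : Fin n | G.Adj v u} = d) →
        (∀ v : Fin n, Set.ncard {u : Fin n | G.Adj u v} = d) →
        ∃ f : Fin n → Fin n, Function.Bijective f ∧
          ∀ i j : Fin n, j.val = (i.val + 1) % n → G.Adj (f i) (f j)) := by
  intro H
  have hor : ∀ u v : Fin 12, G.Adj u v → ¬ G.Adj v u := by decide
  have hout : ∀ v : Fin 12, Set.ncard {u : Fin 12 | G.Adj v u} = 3 := by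
    intro v
    rw [Set.ncard_eq_toFinset_card']
    revert v
    decide
  have hin : ∀ v : Fin 12, Set.ncard {u : Fin 12 | G.Adj u v} = 3 := by
    intro v
    rw [Set.ncard_eq_toFinset_card']
    revert v
    decide
  obtain ⟨f, hf, hadj⟩ := H 3 12 (by norm_num) (by norm_num) G hor hout hin
  obtain ⟨i0, hi0⟩ := hf.2 (0 : Fin 12)
  let c : ℕ → Fin 12 := fun k => ⟨(i0.val + k) % 12, Nat.mod_lt _ (by norm_num)⟩
  let g : ℕ → ℕ := fun k => (f (c k)).val
  have hc0 : c 0 = i0 := by
    apply Fin.ext
    show (i0.val + 0) % 12 = i0.val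
    have := i0.2
    omega
  have hc12 : c 12 = i0 := by
    apply Fin.ext
    show (i0.val + 12) % 12 = i0.val
    have := i0.2
    omega
  have hg0 : g 0 = 0 := by
    show (f (c 0)).val = 0
    rw [hc0, hi0]; rfl
  have hg12 : g 12 = 0 := by
    show (f (c 12)).val = 0
    rw [hc12, hi0]; rfl
  have hgadj : ∀ k, k < 12 → g (k + 1) ∈ out (g k) := by
    intro k _
    exact hadj (c k) (c (k + 1)) (by
      show (i0.val + (k + 1)) % 12 = ((i0.val + k) % 12 + 1) % 12
      omega)
  have hginj : ∀ i j, i < 12 → j < 12 → g i = g j → i = j := by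
    intro i j hi hj hij
    have h1 : c i = c j := hf.1 (Fin.ext hij)
    have h2 : (i0.val + i) % 12 = (i0.val + j) % 12 := congrArg Fin.val h1
    omega
  have h1 := search_true hgadj hginj hg12 11 0 rfl
  have h2 : pathL g 0 = [0] := by
    show [g 0] = [0]
    rw [hg0]
  rw [h2, search_false] at h1
  exact absurd h1 (by decide)

end Pool.Agent.S07160
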