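import Pool.Statements.S07181
import Pool.Agent.Helper635.LLL

set_option autoImplicit false
open Pool Pool.MP_0dd31c_co

namespace Pool.Agent.S07181

open Pool.Agent.Helper635.LLL

open Classical in
/-- The number of functions with prescribed values on a set. -/
theorem cnt_fixed {m : ℕ} (S : Finset (Fin m)) (f : Fin m → Bool) :
    cnt (fun ω : Fin m → Bool => ∀ i ∈ S, ω i = f i) * 2 ^ S.card = 2 ^ m := by
  have h1 : ev (fun ω : Fin m → Bool => ∀ i ∈ S, ω i = f i)
      = Fintype.piFinset (fun i => if i ∈ S then {f i} else Finset.univ) := by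
    ext ω
    rw [mem_ev, Fintype.mem_piFinset]
    constructor
    · intro h i
      by_cases hi : i ∈ S
      · simp [hi, h i hi]
      · simp [hi]
    · intro h i hi
      have := h i
      simpa [hi] using this
  rw [cnt, h1, Fintype.card_piFinset]
  have h2 : ∀ i : Fin m, (if i ∈ S then ({f i} : Finset Bool) else Finset.univ).card
      = if i ∈ S then 1 else 2 := by
    intro i
    by_cases hi : i ∈ S <;> simp [hi]
  rw [Finset.prod_congr rfl (fun i _ => h2 i)]
  have h3 : (∏ i : Fin m, if i ∈ S then 1 else 2) * 2 ^ S.card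
      = ∏ i : Fin m, (2 : ℕ) := by
    have h4 : (2 : ℕ) ^ S.card = ∏ i : Fin m, if i ∈ S then 2 else 1 := by
      rw [Finset.prod_ite]
      simp
    rw [h4, ← Finset.prod_mul_distrib]
    refine Finset.prod_congr rfl (fun i _ => ?_)
    by_cases hi : i ∈ S <;> simp [hi]
  rw [h3]
  simp

section

variable {V : Finset ℕ}

/-- The position of a vertex in a fixed enumeration of `V`. -/
noncomputable def pos (V : Finset ℕ) (v : ℕ) : ℕ :=
  if h : v ∈ V then (V.equivFin ⟨v, h⟩).val else 0

/-- The vertex at a position. -/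
noncomputable def vert (V : Finset ℕ) (k : ℕ) : ℕ :=
  if h : k < V.card then (V.equivFin.symm ⟨k, h⟩).val else 0

theorem pos_lt {v : ℕ} (h : v ∈ V) : pos V v < V.card := by
  rw [pos, dif_pos h]
  exact Fin.isLt _

theorem vert_mem {k : ℕ} (h : k < V.card) : vert V k ∈ V := by
  rw [vert, dif_pos h]
  exact Subtype.coe_prop _

theorem pos_vert {k : ℕ} (h : k < V.card) : pos V (vert V k) = k := by
  have h1 := vert_mem h
  rw [pos, dif_pos h1]
  have h2 : (⟨vert V k, h1⟩ : V) = V.equivFin.symm ⟨k, h⟩ := by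
    apply Subtype.ext
    simp only [vert, dif_pos h]
  rw [h2]
  simp

theorem vert_pos {v : ℕ} (h : v ∈ V) : vert V (pos V v) = v := by
  have h1 := pos_lt h
  rw [vert, dif_pos h1]
  have h2 : (⟨pos V v, h1⟩ : Fin V.card) = V.equivFin ⟨v, h⟩ := by
    apply Fin.ext
    simp only [pos, dif_pos h]
  rw [h2]
  simp

theorem pos_inj {u v : ℕ} (hu : u ∈ V) (hv : v ∈ V) (h : pos V u = pos V v) : u = v := by
  rw [← vert_pos hu, ← vert_pos hv, h]

/-- The red set of an outcome: one vertex of every pair. -/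
noncomputable def red (V : Finset ℕ) (ω : Fin (V.card / 2) → Bool) : Finset ℕ :=
  Finset.univ.image (fun i : Fin (V.card / 2) => vert V (2 * i.val + (ω i).toNat))

theorem red_lt (i : Fin (V.card / 2)) (b : Bool) : 2 * i.val + b.toNat < V.card := by
  have := i.isLt
  have h2 : b.toNat ≤ 1 := Bool.toNat_le b
  omega

theorem red_subset (ω : Fin (V.card / 2) → Bool) : red V ω ⊆ V := by
  intro v hv
  rw [red, Finset.mem_image] at hv
  obtain ⟨i, -, rfl⟩ := hv
  exact vert_mem (red_lt i (ω i))

theorem red_card (ω : Fin (V.card / 2) → Bool) : (red V ω).card = V.card / 2 := by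
  rw [red, Finset.card_image_of_injective, Finset.card_univ, Fintype.card_fin]
  intro i j hij
  have h := congrArg (pos V) hij
  simp only at h
  rw [pos_vert (red_lt i (ω i)), pos_vert (red_lt j (ω j))] at h
  have h1 := Bool.toNat_le (ω i)
  have h2 := Bool.toNat_le (ω j)
  apply Fin.ext
  omega

theorem mem_red {ω : Fin (V.card / 2) → Bool} {v : ℕ} (hv : v ∈ V)
    (h : pos V v / 2 < V.card / 2) :
    v ∈ red V ω ↔ (ω ⟨pos V v / 2, h⟩).toNat = pos V v % 2 := by
  rw [red, Finset.mem_image]
  constructor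
  · rintro ⟨i, -, rfl⟩
    have h1 := pos_vert (red_lt i (ω i))
    have h2 := Bool.toNat_le (ω i)
    have h3 : (⟨pos V (vert V (2 * i.val + (ω i).toNat)) / 2, h⟩ : Fin (V.card / 2)) = i := by
      apply Fin.ext
      simp only
      omega
    rw [h3]
    omega
  · intro h1
    refine ⟨⟨pos V v / 2, h⟩, Finset.mem_univ _, ?_⟩
    have h2 : 2 * (pos V v / 2) + (ω ⟨pos V v / 2, h⟩).toNat = pos V v := by omega
    simp only
    rw [h2, vert_pos hv]

/-- The set of pairs that meet `A`. -/
noncomputable def pairs (V A : Finset ℕ) : Finset (Fin (V.card / 2)) :=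
  Finset.univ.filter (fun i => ∃ v ∈ A, pos V v / 2 = i.val)

/-- The bad event: `A` is monochromatic. -/
def Bad (V A : Finset ℕ) (ω : Fin (V.card / 2) → Bool) : Prop :=
  A ⊆ red V ω ∨ Disjoint A (red V ω)

theorem red_congr {A : Finset ℕ} (hA : A ⊆ V) {ω ω' : Fin (V.card / 2) → Bool}
    (h : ∀ t ∈ pairs V A, ω t = ω' t) {v : ℕ} (hv : v ∈ A) : v ∈ red V ω ↔ v ∈ red V ω' := by
  by_cases hlt : pos V v / 2 < V.card / 2
  · rw [mem_red (hA hv) hlt, mem_red (hA hv) hlt, h]
    rw [pairs, Finset.mem_filter]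
    exact ⟨Finset.mem_univ _, v, hv, rfl⟩
  · have hno : ∀ ω : Fin (V.card / 2) → Bool, v ∉ red V ω := by
      intro ω hin
      rw [red, Finset.mem_image] at hin
      obtain ⟨i, -, hi⟩ := hin
      have h1 := pos_vert (red_lt i (ω i))
      rw [hi] at h1
      have h2 := Bool.toNat_le (ω i)
      have h3 := i.isLt
      omega
    exact ⟨fun hin => absurd hin (hno ω), fun hin => absurd hin (hno ω')⟩

theorem bad_dep {A : Finset ℕ} (hA : A ⊆ V) :
    Helper635.LLL.DependsOn (Bad V A) (pairs V A) := by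
  intro ω ω' h hb
  rcases hb with hb | hb
  · left
    intro v hv
    exact (red_congr hA h hv).1 (hb hv)
  · right
    rw [Finset.disjoint_left] at hb ⊢
    intro v hv hin
    exact hb hv ((red_congr hA h hv).2 hin)

theorem pairs_card_le {A : Finset ℕ} : (pairs V A).card ≤ A.card := by
  have h1 : (pairs V A).image (fun i => i.val) ⊆ A.image (fun v => pos V v / 2) := by
    intro k hk
    rw [Finset.mem_image] at hk ⊢
    obtain ⟨i, hi, rfl⟩ := hk
    rw [pairs, Finset.mem_filter] at hi
    exact hi.2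
  have h2 : ((pairs V A).image (fun i => i.val)).card = (pairs V A).card :=
    Finset.card_image_of_injective _ Fin.val_injective
  rw [← h2]
  exact (Finset.card_le_card h1).trans Finset.card_image_le

/-- If no pair is contained in `A`, then `A` meets at least `|A| - 1` pairs. -/
theorem le_pairs_card {A : Finset ℕ} (hA : A ⊆ V)
    (hinj : ∀ u ∈ A, ∀ v ∈ A, pos V u / 2 = pos V v / 2 → u = v) :
    A.card ≤ (pairs V A).card + 1 := by
  have h1 : A.image (fun v => pos V v / 2) ⊆
      insert (V.card / 2) ((pairs V A).image (fun i => i.val)) := by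
    intro k hk
    rw [Finset.mem_image] at hk
    obtain ⟨v, hv, rfl⟩ := hk
    have h2 := pos_lt (hA hv)
    rw [Finset.mem_insert, Finset.mem_image]
    by_cases h3 : pos V v / 2 < V.card / 2
    · right
      refine ⟨⟨pos V v / 2, h3⟩, ?_, rfl⟩
      rw [pairs, Finset.mem_filter]
      exact ⟨Finset.mem_univ _, v, hv, rfl⟩
    · left
      omega
  have h2 : (A.image (fun v => pos V v / 2)).card = A.card :=
    Finset.card_image_of_injOn (fun u hu v hv h => hinj u hu v hv h)
  have h3 : ((pairs V A).image (fun i => i.val)).card ≤ (pairs V A).card :=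
    Finset.card_image_le
  have h4 := (Finset.card_le_card h1).trans (Finset.card_insert_le _ _)
  omega

theorem bad_cnt {A : Finset ℕ} (hA : A ⊆ V) :
    cnt (Bad V A) * 2 ^ A.card ≤ 4 * 2 ^ (V.card / 2) := by
  by_cases hinj : ∀ u ∈ A, ∀ v ∈ A, pos V u / 2 = pos V v / 2 → u = v
  · -- the two constant patterns
    set f : Fin (V.card / 2) → Bool := fun i => decide (vert V (2 * i.val + 1) ∈ A) with hf
    have key : ∀ i ∈ pairs V A, ∃ v ∈ A, pos V v / 2 = i.val ∧
        (pos V v % 2 = (f i).toNat) := by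
      intro i hi
      rw [pairs, Finset.mem_filter] at hi
      obtain ⟨v, hv, h1⟩ := hi.2
      refine ⟨v, hv, h1, ?_⟩
      by_cases h2 : vert V (2 * i.val + 1) ∈ A
      · have h3 : pos V (vert V (2 * i.val + 1)) = 2 * i.val + 1 :=
          pos_vert (red_lt i true)
        have h4 : v = vert V (2 * i.val + 1) := hinj v hv _ h2 (by omega)
        have h5 : f i = true := by simp [hf, h2]
        rw [h5, h4, h3]
        simp
      · have h5 : f i = false := by simp [hf, h2]
        rw [h5]
        have h6 : pos V v % 2 = 0 ∨ pos V v % 2 = 1 := by omega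
        rcases h6 with h6 | h6
        · simpa using h6
        · exfalso
          apply h2
          have h7 : 2 * i.val + 1 = pos V v := by omega
          rw [h7, vert_pos (hA hv)]
          exact hv
    have hsub : ev (Bad V A) ⊆ ev (fun ω => ∀ i ∈ pairs V A, ω i = f i) ∪
        ev (fun ω => ∀ i ∈ pairs V A, ω i = !(f i)) := by
      intro ω hω
      rw [mem_ev] at hω
      rw [Finset.mem_union, mem_ev, mem_ev]
      rcases hω with hω | hω
      · left
        intro i hi
        obtain ⟨v, hv, h1, h2⟩ := key i hi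
        have h3 : pos V v / 2 < V.card / 2 := by
          have := i.isLt
          omega
        have h4 := (mem_red (hA hv) h3).1 (hω hv)
        have h5 : (⟨pos V v / 2, h3⟩ : Fin (V.card / 2)) = i := Fin.ext h1
        rw [h5, h2] at h4
        cases hx : ω i <;> cases hy : f i <;> simp [hx, hy] at h4 ⊢
      · right
        intro i hi
        obtain ⟨v, hv, h1, h2⟩ := key i hi
        have h3 : pos V v / 2 < V.card / 2 := by
          have := i.isLt
          omega
        have h4 : ¬ v ∈ red V ω := fun hin => Finset.disjoint_left.1 hω hv hin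
        rw [mem_red (hA hv) h3] at h4
        have h5 : (⟨pos V v / 2, h3⟩ : Fin (V.card / 2)) = i := Fin.ext h1
        rw [h5, h2] at h4
        cases hx : ω i <;> cases hy : f i <;> simp [hx, hy] at h4 ⊢
    have hle : cnt (Bad V A) ≤ cnt (fun ω : Fin (V.card / 2) → Bool =>
          ∀ i ∈ pairs V A, ω i = f i) +
        cnt (fun ω : Fin (V.card / 2) → Bool => ∀ i ∈ pairs V A, ω i = !(f i)) :=
      (Finset.card_le_card hsub).trans (Finset.card_union_le _ _)
    have h1 := cnt_fixed (pairs V A) f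
    have h2 := cnt_fixed (pairs V A) (fun i => !(f i))
    have h3 := le_pairs_card hA hinj
    calc cnt (Bad V A) * 2 ^ A.card
        ≤ cnt (Bad V A) * 2 ^ ((pairs V A).card + 1) :=
          Nat.mul_le_mul_left _ (Nat.pow_le_pow_right (by norm_num) h3)
      _ ≤ (cnt (fun ω : Fin (V.card / 2) → Bool => ∀ i ∈ pairs V A, ω i = f i) +
          cnt (fun ω : Fin (V.card / 2) → Bool => ∀ i ∈ pairs V A, ω i = !(f i))) *
          2 ^ ((pairs V A).card + 1) := Nat.mul_le_mul_right _ hle
      _ = 4 * 2 ^ (V.card / 2) := by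
          rw [pow_succ, add_mul, ← mul_assoc, ← mul_assoc, h1, h2]
          ring
  · push Not at hinj
    obtain ⟨u, hu, v, hv, h1, h2⟩ := hinj
    have h0 : cnt (Bad V A) = 0 := by
      rw [cnt, Finset.card_eq_zero, Finset.eq_empty_iff_forall_notMem]
      intro ω hω
      rw [mem_ev] at hω
      have hpu := pos_lt (hA hu)
      have hpv := pos_lt (hA hv)
      have hne' : pos V u ≠ pos V v := fun h => h2 (pos_inj (hA hu) (hA hv) h)
      have h3 : pos V u / 2 < V.card / 2 := by omega
      have h4 : pos V v / 2 < V.card / 2 := by omega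
      have h5 : (⟨pos V u / 2, h3⟩ : Fin (V.card / 2)) = ⟨pos V v / 2, h4⟩ := Fin.ext h1
      have h6 : u ∈ red V ω ↔ ¬ v ∈ red V ω := by
        rw [mem_red (hA hu) h3, mem_red (hA hv) h4, h5]
        have := Bool.toNat_le (ω ⟨pos V v / 2, h4⟩)
        omega
      rcases hω with hω | hω
      · exact (h6.1 (hω hu)) (hω hv)
      · have h7 : u ∉ red V ω := fun hin => Finset.disjoint_left.1 hω hu hin
        have h8 : v ∉ red V ω := fun hin => Finset.disjoint_left.1 hω hv hin
        exact h7 (h6.2 h8)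
    rw [h0]
    simp

end

/-- Any instance gives the same cardinality. -/
theorem card_inst (m : ℕ) (inst : Fintype (Fin m → Bool)) :
    @Fintype.card (Fin m → Bool) inst = 2 ^ m := by
  have h : inst = Pi.instFintype := Subsingleton.elim _ _
  rw [h, Fintype.card_fun, Fintype.card_fin, Fintype.card_bool]

/-- The number of dependent events. -/
theorem dep_count (c : ℝ) (hc0 : 0 < c) (n : ℕ) (F : Finset (Finset ℕ)) (V : Finset ℕ)
    (hcard : ∀ A ∈ F, A.card = n)
    (hdeg : ∀ v : ℕ, ((F.filter (fun A => v ∈ A)).card : ℝ) ≤ c ^ n)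
    (hsubV : ∀ A ∈ F, A ⊆ V) (A : Finset ℕ) (hA : A ∈ F)
    (inst : DecidablePred (fun B => ¬ Disjoint (pairs V A) (pairs V B))) :
    ((@Finset.filter _ (fun B => ¬ Disjoint (pairs V A) (pairs V B)) inst F).card : ℝ) ≤
      2 * (n : ℝ) * c ^ n := by
  have h1 : @Finset.filter _ (fun B => ¬ Disjoint (pairs V A) (pairs V B)) inst F ⊆
      ((pairs V A) ×ˢ (Finset.univ : Finset Bool)).biUnion
        (fun q => F.filter (fun B => vert V (2 * q.1.val + q.2.toNat) ∈ B)) := by
    intro B hB
    rw [Finset.mem_filter, Finset.not_disjoint_iff] at hB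
    obtain ⟨hBF, i, hiA, hiB⟩ := hB
    rw [pairs, Finset.mem_filter] at hiB
    obtain ⟨-, v, hv, hvi⟩ := hiB
    rw [Finset.mem_biUnion]
    refine ⟨(i, decide (pos V v % 2 = 1)), ?_, ?_⟩
    · rw [Finset.mem_product]
      exact ⟨hiA, Finset.mem_univ _⟩
    · rw [Finset.mem_filter]
      refine ⟨hBF, ?_⟩
      have h2 : 2 * i.val + (decide (pos V v % 2 = 1)).toNat = pos V v := by
        by_cases h3 : pos V v % 2 = 1
        · simp [h3]; omega
        · simp [h3]; omega
      simp only
      rw [h2, vert_pos (hsubV B hBF hv)]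
      exact hv
  have h2 : (((pairs V A) ×ˢ (Finset.univ : Finset Bool)).card : ℝ) ≤ 2 * n := by
    rw [Finset.card_product, Finset.card_univ, Fintype.card_bool]
    have := pairs_card_le (V := V) (A := A)
    rw [hcard A hA] at this
    push_cast
    have h4 : ((pairs V A).card : ℝ) ≤ n := by exact_mod_cast this
    linarith
  have h6 := (Finset.card_le_card h1).trans Finset.card_biUnion_le
  have h7 := (Nat.cast_le (α := ℝ)).2 h6
  rw [Nat.cast_sum] at h7
  refine h7.trans ?_
  refine (Finset.sum_le_sum (fun q _ => hdeg (vert V (2 * q.1.val + q.2.toNat)))).trans ?_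
  rw [Finset.sum_const, nsmul_eq_mul]
  exact mul_le_mul_of_nonneg_right h2 (by positivity)

/-- The local lemma step. -/
theorem main_step (c : ℝ) (hc1 : 1 < c) (n : ℕ) (hn1 : 1 ≤ n)
    (hsmall : (n : ℝ) * (c / 2) ^ n < 1 / 32) (F : Finset (Finset ℕ)) (V : Finset ℕ)
    (hcard : ∀ A ∈ F, A.card = n)
    (hdeg : ∀ v : ℕ, ((F.filter (fun A => v ∈ A)).card : ℝ) ≤ c ^ n)
    (hsubV : ∀ A ∈ F, A ⊆ V) :
    ∃ ω : Fin (V.card / 2) → Bool, ∀ A ∈ F, ¬ Bad V A ω := by
  have hc0 : (0 : ℝ) < c := by linarith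
  have hcn : (1 : ℝ) ≤ c ^ n := one_le_pow₀ hc1.le
  have hnR : (1 : ℝ) ≤ n := by exact_mod_cast hn1
  apply lll F (fun A => Bad V A) (fun A => pairs V A)
    (fun A hA => bad_dep (hsubV A hA)) (4 / 2 ^ n) ⌊2 * (n : ℝ) * c ^ n⌋₊ (by positivity)
  · intro A hA
    have h1 := bad_cnt (hsubV A hA)
    rw [hcard A hA] at h1
    have h2 : (cnt (Bad V A) : ℝ) * 2 ^ n ≤ 4 * 2 ^ (V.card / 2) := by exact_mod_cast h1
    rw [card_inst, div_mul_eq_mul_div, le_div_iff₀ (by positivity)]
    push_cast
    exact h2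
  · intro A hA
    exact Nat.le_floor (dep_count c hc0 n F V hcard hdeg hsubV A hA _)
  · have h1 : ((⌊2 * (n : ℝ) * c ^ n⌋₊ : ℕ) : ℝ) ≤ 2 * n * c ^ n :=
      Nat.floor_le (by positivity)
    have h2 : 4 * (4 / 2 ^ n) * ((⌊2 * (n : ℝ) * c ^ n⌋₊ : ℕ) : ℝ)
        ≤ 4 * (4 / 2 ^ n) * (2 * n * c ^ n) :=
      mul_le_mul_of_nonneg_left h1 (by positivity)
    refine h2.trans ?_
    have h3 : 4 * (4 / 2 ^ n) * (2 * n * c ^ n) = 32 * ((n : ℝ) * (c / 2) ^ n) := by
      rw [div_pow]
      ring
    rw [h3]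
    linarith
  · have h1 : (((1 : ℕ) : ℝ)) ≤ 2 * (n : ℝ) * c ^ n := by
      rw [Nat.cast_one]
      nlinarith
    exact Nat.le_floor h1
  · rw [card_inst]
    positivity

/-- For every c in (1,2) there is n0 such that for n ≥ n0 every n-uniform finite hypergraph with all degrees at most c^n has a red set of exactly half (floor) of its vertices such that no edge is all red or all blue. -/
theorem result :
    ∀ c : ℝ, 1 < c → c < 2 →
      ∃ n₀ : ℕ, ∀ n : ℕ, n₀ ≤ n →
        ∀ F : Finset (Finset ℕ),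
          (∀ A ∈ F, A.card = n) →
          (∀ v : ℕ, ((F.filter (fun A => v ∈ A)).card : ℝ) ≤ c ^ n) →
          ∃ R : Finset ℕ, R ⊆ F.biUnion id ∧
            R.card = (F.biUnion id).card / 2 ∧
            ∀ A ∈ F, (A ∩ R).Nonempty ∧ ¬ A ⊆ R := by
  intro c hc1 hc2
  have hlim := tendsto_self_mul_const_pow_of_lt_one (r := c / 2) (by positivity) (by linarith)
  have hev := (hlim.eventually (gt_mem_nhds (show (0 : ℝ) < 1 / 32 by norm_num))).and
    (Filter.eventually_ge_atTop 1)
  obtain ⟨n₀, hn₀⟩ := Filter.eventually_atTop.1 hev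
  refine ⟨n₀, fun n hn F hcard hdeg => ?_⟩
  obtain ⟨hsmall, hn1⟩ := hn₀ n hn
  have hsubV : ∀ A ∈ F, A ⊆ F.biUnion id := fun A hA => Finset.subset_biUnion_of_mem id hA
  obtain ⟨ω, hω⟩ := main_step c hc1 n hn1 hsmall F (F.biUnion id) hcard hdeg hsubV
  refine ⟨red (F.biUnion id) ω, red_subset ω, red_card ω, fun A hA => ?_⟩
  have h := hω A hA
  rw [Bad, not_or] at h
  refine ⟨?_, h.1⟩
  rw [← Finset.not_disjoint_iff_nonempty_inter]
  exact h.2

end Pool.Agent.S07181
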