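import Pool.Statements.S07316
import Pool.Agent.R69.StepUp2

set_option autoImplicit false
open Pool Pool.MP_150b74_co

namespace Pool.Agent.S07316

/-- The negation of the preceding statement: For r≥3, q≥2, ε>0 there is D such that for every ρ in [0,1]^q with sum below q−ε, some C gives, for all k≥1, an n with ln n ≤ C·k^D where every q-colouring of r-sets of [n] has an S of size ≥k and colour j with min colour-j degree in S ≥ ρ_j·C(∣S∣−1,r−1). -/
theorem result :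
    ¬ (∀ r q : ℕ, 3 ≤ r → 2 ≤ q → ∀ ε : ℝ, 0 < ε →
      ∃ D : ℝ, ∀ ρ : Fin q → ℝ, (∀ i, 0 ≤ ρ i ∧ ρ i ≤ 1) → ∑ i, ρ i < (q : ℝ) - ε →
        ∃ C : ℝ, ∀ k : ℕ, 1 ≤ k → ∃ n : ℕ, Real.log (n : ℝ) ≤ C * (k : ℝ) ^ D ∧
          ∀ φ : Finset (Fin n) → Fin q, ∃ S : Finset (Fin n), k ≤ S.card ∧ ∃ j : Fin q,
            ∀ v ∈ S, ρ j * (((S.card - 1).choose (r - 1) : ℕ) : ℝ) ≤
              (((S.powersetCard r).filter (fun e => v ∈ e ∧ φ e = j)).card : ℝ)) := by
  intro h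
  obtain ⟨D, hD⟩ := h 4 2 (by norm_num) le_rfl (1 / 100) (by norm_num)
  obtain ⟨C, hC⟩ := hD ![1, 49 / 50] (by
    intro i
    fin_cases i <;> norm_num) (by
    rw [Fin.sum_univ_two]
    norm_num)
  obtain ⟨D', hD'⟩ := exists_nat_ge D
  obtain ⟨C', hC'⟩ := exists_nat_ge C
  obtain ⟨s, hs2, hs⟩ := Pool.Agent.R69.StepUp.exists_param C' D'
  have hk1 : (1 : ℝ) ≤ ((4 * s + 2 : ℕ) : ℝ) := by
    exact_mod_cast (show 1 ≤ 4 * s + 2 by omega)
  obtain ⟨n, hn, hφ⟩ := hC (4 * s + 2) (by omega)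
  have hn2 : n ≤ 2 ^ (2 * C' * (4 * s + 2) ^ D') := by
    rcases Nat.eq_zero_or_pos n with h0 | h0
    · rw [h0]
      exact Nat.zero_le _
    · have h1 : Real.log n ≤ C' * ((4 * s + 2 : ℕ) : ℝ) ^ D' := by
        refine hn.trans ?_
        have h2 : ((4 * s + 2 : ℕ) : ℝ) ^ D ≤ ((4 * s + 2 : ℕ) : ℝ) ^ D' := by
          rw [← Real.rpow_natCast]
          exact Real.rpow_le_rpow_of_exponent_le hk1 hD'
        have h3 : 0 ≤ ((4 * s + 2 : ℕ) : ℝ) ^ D := Real.rpow_nonneg (by positivity) _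
        calc C * ((4 * s + 2 : ℕ) : ℝ) ^ D ≤ C' * ((4 * s + 2 : ℕ) : ℝ) ^ D :=
              mul_le_mul_of_nonneg_right hC' h3
          _ ≤ C' * ((4 * s + 2 : ℕ) : ℝ) ^ D' :=
              mul_le_mul_of_nonneg_left h2 (Nat.cast_nonneg _)
      have h2 : Real.log n ≤ Real.log ((2 : ℝ) ^ (2 * C' * (4 * s + 2) ^ D')) := by
        rw [Real.log_pow]
        have h3 : (1 / 2 : ℝ) ≤ Real.log 2 := by
          have := Real.log_two_gt_d9
          linarith
        have h4 : (0 : ℝ) ≤ C' * ((4 * s + 2 : ℕ) : ℝ) ^ D' := by positivity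
        refine h1.trans ?_
        push_cast at h4 ⊢
        nlinarith
      have h3 : (0 : ℝ) < n := by exact_mod_cast h0
      have h4 := (Real.log_le_log_iff h3 (by positivity)).1 h2
      exact_mod_cast h4
  obtain ⟨φ, hφ7, hφ0⟩ := Pool.Agent.R69.StepUp.exists_col n (2 * C' * (4 * s + 2) ^ D') s
    (by omega) hn2 hs
  obtain ⟨S, hS, j, hj⟩ := hφ φ
  fin_cases j
  · apply hφ0 S hS
    apply Pool.Agent.R69.StepUp.all_zero_of_degree
    intro v hv
    simpa using hj v hv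
  · obtain ⟨T, _, hT7, hT⟩ := Pool.Agent.R69.StepUp.seven_of_degree φ S (by omega) (by
      intro v hv
      simpa using hj v hv)
    exact hφ7 T hT7 hT

end Pool.Agent.S07316
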