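import Pool.Statements.S07338
import Pool.Agent.R236.AntiLab

set_option autoImplicit false
open Pool Pool.MP_163d7b_co

namespace Pool.Agent.S07338

/-- The negation of the preceding statement: Every finite connected simple graph that has an edge labeling by 1..m (bijective) with distinct vertex sums also has such a labeling where a vertex of smaller degree always gets a strictly smaller vertex sum. -/
theorem result :
    ¬ (∀ (V : Type) [Fintype V] [DecidableEq V] (G : SimpleGraph V) [DecidableRel G.Adj],
      G.Connected →
      (∃ f : Sym2 V → ℕ,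
          Set.BijOn f G.edgeSet (Set.Icc 1 G.edgeFinset.card) ∧
          Function.Injective (fun v : V => ∑ w ∈ G.neighborFinset v, f s(v, w))) →
      ∃ f : Sym2 V → ℕ,
          Set.BijOn f G.edgeSet (Set.Icc 1 G.edgeFinset.card) ∧
          Function.Injective (fun v : V => ∑ w ∈ G.neighborFinset v, f s(v, w)) ∧
          ∀ u v : V, G.degree u < G.degree v →
            (∑ w ∈ G.neighborFinset u, f s(u, w)) < (∑ w ∈ G.neighborFinset v, f s(v, w))) := by
  intro h
  obtain ⟨f, hb, hi, hm⟩ := h (Pool.Agent.R236.Anti.W 25) (Pool.Agent.R236.Anti.T 25)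
    Pool.Agent.R236.Anti.conn
    ⟨Pool.Agent.R236.Anti.f0, Pool.Agent.R236.Anti.f0_bij, Pool.Agent.R236.Anti.f0_inj⟩
  exact Pool.Agent.R236.Anti.no_strong (le_refl 25) f hb hi hm

end Pool.Agent.S07338
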