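import Pool.Statements.S07447
import Pool.Agent.R42.BrE

set_option autoImplicit false
open Pool Pool.MP_1b70d9_co

namespace Pool.Agent.S07447

/-- For every infinite graph in which each cycle of length at least 4 has two vertices closer in the graph than along the cycle, every finite vertex set lies in a finite vertex set whose induced subgraph has the same shortcut property. -/
theorem result :
    ∀ (V : Type) (G : SimpleGraph V), Infinite V →
      (∀ (u : V) (c : G.Walk u u), c.IsCycle → 4 ≤ c.length →
        ∃ i j : ℕ, i ≤ j ∧ j < c.length ∧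
          G.dist (c.getVert i) (c.getVert j) < min (j - i) (c.length - (j - i))) →
      ∀ S : Finset V, ∃ T : Finset V, S ⊆ T ∧
        ∀ (u : (T : Set V)) (c : (G.induce (T : Set V)).Walk u u), c.IsCycle → 4 ≤ c.length →
          ∃ i j : ℕ, i ≤ j ∧ j < c.length ∧
            (G.induce (T : Set V)).dist (c.getVert i) (c.getVert j)
              < min (j - i) (c.length - (j - i)) := by
  intro V G _ hG S
  have hNI := Pool.Agent.R42.Br.NI_of_cycles hG
  obtain ⟨T, hST, hT⟩ := Pool.Agent.R42.Br.exists_closed (G := G) S
  refine ⟨T, hST, ?_⟩
  intro u c _ h4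
  exact Pool.Agent.R42.Br.cycles_of_NI
    (Pool.Agent.R42.Br.NI_closed hNI T.card T rfl hT) u c h4

end Pool.Agent.S07447
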