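import Pool.Statements.S07480
import Pool.Agent.R85.Cube2

set_option autoImplicit false
open Classical Filter Topology
open Pool Pool.MP_1cd2aa_co

namespace Pool.Agent.S07480

open Finset Pool.Agent.R85.Cube2

/-- The negation of the preceding statement: For every m ≥ 7, the largest fraction of 2-dimensional subcubes of the n-cube that can be chosen with no (3m+2)-dimensional subcube having all its 2-subcubes chosen tends to 1 − 1/(m+1)³ as n → ∞. -/
theorem result :
    ¬ (∀ m : ℕ, 7 ≤ m →
      Tendsto
        (fun n : ℕ =>
          ((((Finset.univ : Finset (Finset (Fin n → Option Bool))).filter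
              (fun F =>
                (∀ x ∈ F, (Finset.univ.filter (fun i => x i = none)).card = 2) ∧
                ∀ C : Fin n → Option Bool,
                  (Finset.univ.filter (fun i => C i = none)).card = 3 * m + 2 →
                  ¬ (∀ D : Fin n → Option Bool,
                      (Finset.univ.filter (fun i => D i = none)).card = 2 →
                      (∀ (i : Fin n) (b : Bool), C i = some b → D i = some b) →
                      D ∈ F))).sup Finset.card : ℕ) : ℝ) /
          (((Finset.univ : Finset (Fin n → Option Bool)).filter
              (fun D => (Finset.univ.filter (fun i => D i = none)).card = 2)).card : ℝ))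
        atTop (𝓝 (1 - 1 / ((m : ℝ) + 1) ^ 3))) := by
  intro hmain
  have h19 := hmain 19 (by norm_num)
  have hge : (1 - 27 / 64 ^ 3 : ℝ) ≤ 1 - 1 / (((19 : ℕ) : ℝ) + 1) ^ 3 := by
    apply ge_of_tendsto h19
    filter_upwards [eventually_ge_atTop 2] with n hn
    choose V hV hH using fun B : Finset (Fin n) => Pool.Agent.R85.Hit.exists_hitting B
    set Q : Finset (Fin n → Option Bool) := univ.filter (fun D => #(stars D) = 2) with hQ
    set T : Finset (Fin n → Option Bool) := univ.filter (fun D => Sel V D ∧ #(stars D) = 2) with hT
    have hTQ : T ⊆ Q := by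
      intro D hD
      rw [hT, mem_filter] at hD
      rw [hQ, mem_filter]
      exact ⟨hD.1, hD.2.2⟩
    have hcard : 64 ^ 3 * #T ≤ 27 * #Q := global_le V hV
    have hQpos : 0 < #Q := by
      have h1 : (⟨0, by omega⟩ : Fin n) < ⟨1, by omega⟩ := by
        rw [Fin.lt_def]; norm_num
      have h2 := fiber_total h1
      have h3 : 0 < 2 ^ (n - 2) := by positivity
      refine (h3.trans_le h2).trans_le (card_le_card ?_)
      intro D hD
      rw [mem_filter] at hD
      rw [hQ, mem_filter]
      exact ⟨hD.1, by rw [hD.2, card_pair h1.ne]⟩
    have hsup : #(Q \ T) ≤ ((Finset.univ : Finset (Finset (Fin n → Option Bool))).filter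
              (fun F =>
                (∀ x ∈ F, (Finset.univ.filter (fun i => x i = none)).card = 2) ∧
                ∀ C : Fin n → Option Bool,
                  (Finset.univ.filter (fun i => C i = none)).card = 3 * 19 + 2 →
                  ¬ (∀ D : Fin n → Option Bool,
                      (Finset.univ.filter (fun i => D i = none)).card = 2 →
                      (∀ (i : Fin n) (b : Bool), C i = some b → D i = some b) →
                      D ∈ F))).sup Finset.card := by
      apply Finset.le_sup (f := Finset.card)
      rw [mem_filter]
      refine ⟨mem_univ _, ?_, ?_⟩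
      · intro D hD
        rw [Finset.mem_sdiff, hQ, mem_filter] at hD
        exact hD.1.2
      · intro C hC hall
        obtain ⟨D, hSel, hD2, hDC⟩ := sel_hits V hH C hC
        have := hall D hD2 hDC
        rw [Finset.mem_sdiff] at this
        apply this.2
        rw [hT, mem_filter]
        exact ⟨mem_univ _, hSel, hD2⟩
    have hQpos' : (0 : ℝ) < #Q := by exact_mod_cast hQpos
    show (1 - 27 / 64 ^ 3 : ℝ) ≤ _ / (#Q : ℝ)
    rw [le_div_iff₀ hQpos']
    refine le_trans ?_ (Nat.cast_le.mpr hsup)
    rw [cast_card_sdiff hTQ]
    have hcard' : (64 : ℝ) ^ 3 * #T ≤ 27 * #Q := by exact_mod_cast hcard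
    linarith
  norm_num at hge

end Pool.Agent.S07480
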