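import Pool.Statements.S07487
import Pool.Agent.Helper539.General

set_option autoImplicit false
open Pool Pool.MP_1cfd87_co

namespace Pool.Agent.S07487

open SimpleGraph Filter Topology Pool.Agent.Helper539

theorem arrows_iff {m K t : ℕ} (F : SimpleGraph (Fin m)) (G : SimpleGraph (Fin K)) :
    (∀ R : SimpleGraph (Fin m), R ≤ F →
      (∃ f : Fin K → Fin m, Function.Injective f ∧
          ∀ a b, G.Adj a b → R.Adj (f a) (f b)) ∨
      (∃ g : Fin t ⊕ Fin t → Fin m, Function.Injective g ∧
          ∀ i, F.Adj (g (Sum.inl i)) (g (Sum.inr i)) ∧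
            ¬ R.Adj (g (Sum.inl i)) (g (Sum.inr i)))) ↔
      Arrows F G (matchingGraph t) := by
  refine forall_congr' fun R => forall_congr' fun hR => or_congr ?_ ?_
  · constructor
    · rintro ⟨f, hf, h⟩
      exact ⟨⟨⟨f, fun {a b} hab => h a b hab⟩, hf⟩⟩
    · rintro ⟨f⟩
      exact ⟨f, f.injective, fun a b hab => f.toHom.map_adj hab⟩
  · rw [matchingGraph_isContained_iff]
    constructor
    · rintro ⟨g, hg, h⟩
      refine ⟨fun x => if x.2 then g (Sum.inr x.1) else g (Sum.inl x.1), ?_, ?_⟩
      · rintro ⟨i, a⟩ ⟨j, b⟩ hij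
        cases a <;> cases b <;> simp at hij
        · have := hg hij
          simp at this
          simp [this]
        · have := hg hij
          simp at this
        · have := hg hij
          simp at this
        · have := hg hij
          simp at this
          simp [this]
      · intro i
        simpa using h i
    · rintro ⟨f, hf, h⟩
      refine ⟨Sum.elim (fun i => f (i, false)) (fun i => f (i, true)), ?_, ?_⟩
      · rintro (i | i) (j | j) hij <;> simp at hij
        · have := hf hij
          simp at this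
          simp [this]
        · have := hf hij
          simp at this
        · have := hf hij
          simp at this
        · have := hf hij
          simp at this
          simp [this]
      · intro i
        have := h i
        rw [SimpleGraph.sdiff_adj] at this
        simpa using this

/-- For any sequence of graphs without isolated vertices, with at least one edge, bounded max degree and vertex count tending to infinity, the limsup over t of the size Ramsey number of (G_n, tK_2) divided by t times ∣E(G_n)∣ tends to 0. -/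
theorem result :
  ∀ (k : ℕ → ℕ) (G : ∀ n, SimpleGraph (Fin (k n))),
    Filter.Tendsto k Filter.atTop Filter.atTop →
    (∃ D : ℕ, ∀ n v, ((G n).neighborSet v).ncard ≤ D) →
    (∀ n, ∃ v w, (G n).Adj v w) →
    (∀ n v, ∃ w, (G n).Adj v w) →
    ∀ ε : ℝ, 0 < ε → ∃ N : ℕ, ∀ n ≥ N, ∃ T : ℕ, ∀ t ≥ T,
      ((sInf {e : ℕ | ∃ (m : ℕ) (F : SimpleGraph (Fin m)), F.edgeSet.ncard = e ∧
          ∀ R : SimpleGraph (Fin m), R ≤ F →
            (∃ f : Fin (k n) → Fin m, Function.Injective f ∧
                ∀ a b, (G n).Adj a b → R.Adj (f a) (f b)) ∨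
            (∃ g : Fin t ⊕ Fin t → Fin m, Function.Injective g ∧
                ∀ i, F.Adj (g (Sum.inl i)) (g (Sum.inr i)) ∧
                  ¬ R.Adj (g (Sum.inl i)) (g (Sum.inr i)))} : ℕ) : ℝ)
        / ((t : ℝ) * (((G n).edgeSet.ncard : ℕ) : ℝ)) ≤ ε := by
  intro k G hk hD hedge hiso ε hε
  obtain ⟨D, hD⟩ := hD
  obtain ⟨ε0, hε0, h⟩ := general_case.{0} (ε / 2) (half_pos hε)
  obtain ⟨K, hK⟩ := exists_nat_ge (2 * D / ε0)
  obtain ⟨N, hN⟩ := (Filter.tendsto_atTop_atTop.1 hk) K
  refine ⟨N, fun n hn => ?_⟩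
  have hKn : (K : ℝ) ≤ k n := by exact_mod_cast hN n hn
  have hne : (G n).edgeSet.Nonempty := by
    obtain ⟨v, w, hvw⟩ := hedge n
    exact ⟨s(v, w), hvw⟩
  have hm : (0 : ℝ) < (G n).edgeSet.ncard := by
    have : 0 < (G n).edgeSet.ncard := (Set.ncard_pos (Set.toFinite _)).2 hne
    exact_mod_cast this
  have hcard : (k n : ℝ) ≤ 2 * (G n).edgeSet.ncard := by
    have := card_le_two_mul (G n) (hiso n)
    rw [Fintype.card_fin] at this
    exact_mod_cast this
  obtain ⟨ρ, hρ, hρ0, hρle⟩ := exists_limit (G n)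
  obtain ⟨t, ht1, ht⟩ := h (Fin (k n)) (G n) hne (hiso n) (by
    intro v
    have h1 : (((G n).neighborSet v).ncard : ℝ) ≤ D := by exact_mod_cast hD n v
    refine h1.trans ?_
    rw [div_le_iff₀ hε0] at hK
    have h2 : (K : ℝ) * ε0 ≤ 2 * (G n).edgeSet.ncard * ε0 :=
      mul_le_mul_of_nonneg_right (hKn.trans hcard) hε0.le
    linarith)
  have hρε : ρ < ε := by
    have h1 := hρle t (by omega)
    have ht0 : (0 : ℝ) < t := by exact_mod_cast ht1
    have h2 : (sizeRamsey (G n) (matchingGraph t) : ℝ) / (t * (G n).edgeSet.ncard) ≤ ε / 2 := by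
      rw [div_le_iff₀ (by positivity)]
      exact ht
    linarith
  obtain ⟨T, hT⟩ := Filter.eventually_atTop.1 ((tendsto_order.1 hρ).2 ε hρε)
  refine ⟨T, fun t ht => ?_⟩
  have hset : sInf {e : ℕ | ∃ (m : ℕ) (F : SimpleGraph (Fin m)), F.edgeSet.ncard = e ∧
          ∀ R : SimpleGraph (Fin m), R ≤ F →
            (∃ f : Fin (k n) → Fin m, Function.Injective f ∧
                ∀ a b, (G n).Adj a b → R.Adj (f a) (f b)) ∨
            (∃ g : Fin t ⊕ Fin t → Fin m, Function.Injective g ∧
                ∀ i, F.Adj (g (Sum.inl i)) (g (Sum.inr i)) ∧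
                  ¬ R.Adj (g (Sum.inl i)) (g (Sum.inr i)))} =
      sizeRamsey (G n) (matchingGraph t) := by
    unfold sizeRamsey
    congr 1
    ext e
    simp only [Set.mem_setOf_eq, arrows_iff]
  rw [hset]
  exact (hT t ht).le

end Pool.Agent.S07487
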