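import Pool.Statements.S07574
-- import your own Pool.Agent.* helpers here

set_option autoImplicit false
open Pool Pool.MP_1f8616_co

namespace Pool.Agent.S07574

/-- The negation of the preceding statement: Every countable poset with no saturated chain (or its reverse) that is an ω-indexed linear sum of infinite co-wellfounded chains has, for each k≥2, k disjoint chains and a partition into antichains where each antichain A meets at least min(∣A∣,k) chains. -/
theorem result :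
    ¬ (∀ (α : Type) [PartialOrder α] [Countable α],
    (¬ ∃ C : Set α, IsChain (· ≤ ·) C ∧
        (∀ x, x ∉ C → ∀ y ∈ C, ∀ z ∈ C, y < x → x < z → ¬ IsChain (· ≤ ·) (insert x C)) ∧
        ∃ f : α → ℕ,
          ((∀ x ∈ C, ∀ y ∈ C, x ≤ y → f x ≤ f y) ∧
            ∀ i : ℕ, Set.Infinite {x | x ∈ C ∧ f x = i} ∧
              ¬ ∃ s : ℕ → α, StrictMono s ∧ ∀ n, s n ∈ C ∧ f (s n) = i) ∨
          ((∀ x ∈ C, ∀ y ∈ C, x ≤ y → f y ≤ f x) ∧
            ∀ i : ℕ, Set.Infinite {x | x ∈ C ∧ f x = i} ∧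
              ¬ ∃ s : ℕ → α, StrictAnti s ∧ ∀ n, s n ∈ C ∧ f (s n) = i)) →
    ∀ k : ℕ, 2 ≤ k →
      ∃ C : Fin k → Set α, (∀ j, IsChain (· ≤ ·) (C j)) ∧
        Pairwise (fun i j => Disjoint (C i) (C j)) ∧
        ∃ g : α → ℕ, ∀ i : ℕ, IsAntichain (· ≤ ·) {x | g x = i} ∧
          min (Set.encard {x | g x = i}) (k : ℕ∞) ≤
            Set.encard {j : Fin k | (C j ∩ {x | g x = i}).Nonempty}) := by
  intro H
  have hfin : ∀ C : Set (Σ n : ℕ, Fin (n + 1)), IsChain (· ≤ ·) C → C.Finite := by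
    intro C hC
    rcases C.eq_empty_or_nonempty with h | ⟨⟨n, a⟩, hn⟩
    · rw [h]; exact Set.finite_empty
    · refine Set.Finite.subset (Set.finite_range (fun b : Fin (n + 1) => (⟨n, b⟩ : Σ n : ℕ, Fin (n + 1)))) ?_
      rintro ⟨m, b⟩ hm
      have hmn : m = n := by
        by_cases he : (⟨m, b⟩ : Σ n : ℕ, Fin (n + 1)) = ⟨n, a⟩
        · exact congrArg Sigma.fst he
        · rcases hC hm hn he with h | h
          · cases h; rfl
          · cases h; rfl
      subst hmn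
      exact ⟨b, rfl⟩
  obtain ⟨C, hC, -, g, hg⟩ := H (Σ n : ℕ, Fin (n + 1)) (by
    rintro ⟨C, hC, -, f, hf | hf⟩
    · exact (hf.2 0).1 ((hfin C hC).subset fun x hx => hx.1)
    · exact (hf.2 0).1 ((hfin C hC).subset fun x hx => hx.1)) 2 le_rfl
  have hU : (⋃ j, C j).Finite := Set.finite_iUnion fun j => hfin _ (hC j)
  have hrange : Set.range g ⊆ g '' (⋃ j, C j) := by
    rintro _ ⟨x, rfl⟩
    have h1 := (hg (g x)).2
    have h2 : (1 : ℕ∞) ≤ Set.encard {y | g y = g x} :=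
      Set.one_le_encard_iff_nonempty.mpr ⟨x, rfl⟩
    have h3 : (1 : ℕ∞) ≤ Set.encard {j : Fin 2 | (C j ∩ {y | g y = g x}).Nonempty} :=
      le_trans (le_min h2 (by norm_num)) h1
    obtain ⟨j, y, hy1, hy2⟩ := Set.one_le_encard_iff_nonempty.mp h3
    exact ⟨y, Set.mem_iUnion.mpr ⟨j, hy1⟩, hy2⟩
  have hrf : (Set.range g).Finite := (hU.image g).subset hrange
  have hcard : ∀ n : ℕ, n + 1 ≤ (Set.range g).ncard := by
    intro n
    have hinj : Function.Injective (fun b : Fin (n + 1) => g ⟨n, b⟩) := by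
      intro a b hab
      by_contra hne
      rcases le_total a b with h | h
      · exact (hg (g ⟨n, b⟩)).1 (show (⟨n, a⟩ : Σ n : ℕ, Fin (n + 1)) ∈ _ from hab)
          (show (⟨n, b⟩ : Σ n : ℕ, Fin (n + 1)) ∈ _ from rfl)
          (fun he => hne (by simpa using he)) (Sigma.mk_le_mk_iff.mpr h)
      · exact (hg (g ⟨n, b⟩)).1 (show (⟨n, b⟩ : Σ n : ℕ, Fin (n + 1)) ∈ _ from rfl)
          (show (⟨n, a⟩ : Σ n : ℕ, Fin (n + 1)) ∈ _ from hab)
          (fun he => hne (by simpa using he.symm)) (Sigma.mk_le_mk_iff.mpr h)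
    have h1 : (Set.range (fun b : Fin (n + 1) => g ⟨n, b⟩)).ncard = n + 1 := by
      rw [← Set.image_univ, Set.ncard_image_of_injective _ hinj, Set.ncard_univ, Nat.card_fin]
    rw [← h1]
    refine Set.ncard_le_ncard ?_ hrf
    rintro _ ⟨b, rfl⟩
    exact ⟨_, rfl⟩
  have := hcard (Set.range g).ncard
  omega

end Pool.Agent.S07574
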