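import Pool.Statements.S07891

/-!
The ray of `Dr(3, 9)` defined by the tropical point configuration `{0, 1} × {0, 1, 2}`.  Its heights
on the octahedra take the values 1, 2 and 3 (up to scaling), while for a corank vector they are at
most 2.
-/

set_option autoImplicit false
open Pool Pool.MP_2e1090_co

namespace Pool.Agent.S07891

/-- codes of the triples of height at least one -/
def onesCode : ℕ := 726838724464839811763263258725949730185495671055134404972667434412140111601775790118662834697549533816466501203032082385432836277534720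

/-- codes of the triples of height two -/
def twosCode : ℕ := 630432099142311667396464641611249760557163098849905077873738917579949437260039708964577187949773772568902831517466624

/-- the height of a triple, as a function of its code (the sum of the powers `2 ^ i`) -/
def T (c : ℕ) : ℕ := (onesCode.testBit c).toNat + (twosCode.testBit c).toNat

/-- the lifting function of `Δ(3, 9)` -/
def wn (B : Finset (Fin 9)) : ℕ := T (∑ i ∈ B, 2 ^ (i : ℕ))

/-- the height of the triple `{i, j, k}` -/
def wt (i j k : Fin 9) : ℕ := T (2 ^ (i : ℕ) + (2 ^ (j : ℕ) + 2 ^ (k : ℕ)))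

theorem wn_eq {i j k : Fin 9} (hij : i ≠ j) (hik : i ≠ k) (hjk : j ≠ k) :
    wn {i, j, k} = wt i j k := by
  unfold wn wt
  rw [Finset.sum_insert (by simp [hij, hik]), Finset.sum_insert (by simp [hjk]),
    Finset.sum_singleton]

/-- the three-term relation, as a boolean test -/
def plk (s i j k l : Fin 9) : Bool :=
  (i == s) || (j == s) || (k == s) || (l == s) || (i == j) || (i == k) || (i == l) || (j == k) ||
    (j == l) || (k == l) ||
    ((wt i j s + wt k l s == wt i k s + wt j l s) &&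
      (wt i j s + wt k l s).ble (wt i l s + wt j k s)) ||
    ((wt i j s + wt k l s == wt i l s + wt j k s) &&
      (wt i j s + wt k l s).ble (wt i k s + wt j l s)) ||
    ((wt i k s + wt j l s == wt i l s + wt j k s) &&
      (wt i k s + wt j l s).ble (wt i j s + wt k l s))

theorem plk_true : ∀ s i j k l : Fin 9, plk s i j k l = true := by
  decide +kernel

/-- the lifting function as a real function -/
noncomputable def w (B : Finset (Fin 9)) : ℝ := (wn B : ℝ)

theorem plucker (S : Finset (Fin 9)) (i j k l : Fin 9) (hS : S.card + 2 = 3)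
    (hi : i ∉ S) (hj : j ∉ S) (hk : k ∉ S) (hl : l ∉ S)
    (hij : i ≠ j) (hik : i ≠ k) (hil : i ≠ l) (hjk : j ≠ k) (hjl : j ≠ l) (hkl : k ≠ l) :
    ((w (insert i (insert j S)) + w (insert k (insert l S))
            = w (insert i (insert k S)) + w (insert j (insert l S)) ∧
          w (insert i (insert j S)) + w (insert k (insert l S))
            ≤ w (insert i (insert l S)) + w (insert j (insert k S))) ∨
         (w (insert i (insert j S)) + w (insert k (insert l S))
            = w (insert i (insert l S)) + w (insert j (insert k S)) ∧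
          w (insert i (insert j S)) + w (insert k (insert l S))
            ≤ w (insert i (insert k S)) + w (insert j (insert l S))) ∨
         (w (insert i (insert k S)) + w (insert j (insert l S))
            = w (insert i (insert l S)) + w (insert j (insert k S)) ∧
          w (insert i (insert k S)) + w (insert j (insert l S))
            ≤ w (insert i (insert j S)) + w (insert k (insert l S)))) := by
  have hS1 : S.card = 1 := by omega
  obtain ⟨s, rfl⟩ := Finset.card_eq_one.1 hS1
  rw [Finset.mem_singleton] at hi hj hk hl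
  have h := plk_true s i j k l
  simp only [plk, Bool.or_eq_true, beq_iff_eq, hi, hj, hk, hl, hij, hik, hil, hjk, hjl, hkl,
    false_or, Bool.and_eq_true, Nat.ble_eq] at h
  unfold w
  rw [wn_eq hij hi hj, wn_eq hkl hk hl, wn_eq hik hi hk, wn_eq hjl hj hl, wn_eq hil hi hl,
    wn_eq hjk hj hk]
  rcases h with (h | h) | h
  · left
    exact ⟨by exact_mod_cast h.1, by exact_mod_cast h.2⟩
  · right; left
    exact ⟨by exact_mod_cast h.1, by exact_mod_cast h.2⟩
  · right; right
    exact ⟨by exact_mod_cast h.1, by exact_mod_cast h.2⟩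

/-- `B` is a triple whose tilted height is minimal -/
def Cell (v : Finset (Fin 9) → ℝ) (c : Fin 9 → ℝ) : Set (Finset (Fin 9)) :=
  {B : Finset (Fin 9) | B.card = 3 ∧ ∀ B' : Finset (Fin 9), B'.card = 3 →
    v B - ∑ i ∈ B, c i ≤ v B' - ∑ i ∈ B', c i}

/-- the slopes of cell 0 -/
def c0 : Fin 9 → ℕ := ![0, 0, 0, 0, 0, 0, 0, 0, 0]

/-- the slopes of cell 1 -/
def c1 : Fin 9 → ℕ := ![1, 0, 1, 0, 1, 1, 0, 1, 1]

/-- the slopes of cell 2 -/
def c2 : Fin 9 → ℕ := ![0, 0, 1, 0, 0, 0, 0, 1, 1]

/-- the slopes of cell 3 -/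
def c3 : Fin 9 → ℕ := ![0, 1, 1, 0, 0, 0, 1, 1, 1]

/-- the slopes of cell 4 -/
def c4 : Fin 9 → ℕ := ![1, 0, 2, 0, 1, 1, 0, 1, 2]

/-- the slopes of cell 5 -/
def c5 : Fin 9 → ℕ := ![2, 0, 2, 0, 1, 2, 0, 1, 2]

theorem sum3 {R : Type} [AddCommMonoid R] (f : Fin 9 → R) {i j k : Fin 9} (hij : i ≠ j)
    (hik : i ≠ k) (hjk : j ≠ k) : ∑ x ∈ ({i, j, k} : Finset (Fin 9)), f x = f i + (f j + f k) := by
  rw [Finset.sum_insert (by simp [hij, hik]), Finset.sum_insert (by simp [hjk]),
    Finset.sum_singleton]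

/-- a triple attaining the lower bound `-m` of the tilted heights belongs to the cell -/
theorem mem_cell {c : Fin 9 → ℕ} {m : ℕ}
    (hc : ∀ i j k : Fin 9, i = j ∨ i = k ∨ j = k ∨ c i + (c j + c k) ≤ wt i j k + m)
    {i j k : Fin 9} (hij : i ≠ j) (hik : i ≠ k) (hjk : j ≠ k)
    (h : c i + (c j + c k) = wt i j k + m) :
    ({i, j, k} : Finset (Fin 9)) ∈ Cell w (fun x => (c x : ℝ)) := by
  refine ⟨?_, ?_⟩
  · rw [Finset.card_eq_three]
    exact ⟨i, j, k, hij, hik, hjk, rfl⟩
  · intro B' hB'
    obtain ⟨i', j', k', h1, h2, h3, rfl⟩ := Finset.card_eq_three.1 hB'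
    rw [sum3 _ hij hik hjk, sum3 _ h1 h2 h3]
    unfold w
    rw [wn_eq hij hik hjk, wn_eq h1 h2 h3]
    have h4 : c i' + (c j' + c k') ≤ wt i' j' k' + m := by
      rcases hc i' j' k' with h | h | h | h
      · exact absurd h h1
      · exact absurd h h2
      · exact absurd h h3
      · exact h
    have h5 : ((c i' + (c j' + c k') : ℕ) : ℝ) ≤ ((wt i' j' k' + m : ℕ) : ℝ) := by
      exact_mod_cast h4
    have h6 : ((c i + (c j + c k) : ℕ) : ℝ) = ((wt i j k + m : ℕ) : ℝ) := by
      exact_mod_cast h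
    push_cast at h5 h6
    linarith

theorem hc0 : ∀ i j k : Fin 9, i = j ∨ i = k ∨ j = k ∨ c0 i + (c0 j + c0 k) ≤ wt i j k + 0 := by
  decide +kernel

theorem hc1 : ∀ i j k : Fin 9, i = j ∨ i = k ∨ j = k ∨ c1 i + (c1 j + c1 k) ≤ wt i j k + 2 := by
  decide +kernel

theorem hc2 : ∀ i j k : Fin 9, i = j ∨ i = k ∨ j = k ∨ c2 i + (c2 j + c2 k) ≤ wt i j k + 1 := by
  decide +kernel

theorem hc3 : ∀ i j k : Fin 9, i = j ∨ i = k ∨ j = k ∨ c3 i + (c3 j + c3 k) ≤ wt i j k + 2 := by
  decide +kernel

theorem hc4 : ∀ i j k : Fin 9, i = j ∨ i = k ∨ j = k ∨ c4 i + (c4 j + c4 k) ≤ wt i j k + 3 := by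
  decide +kernel

theorem hc5 : ∀ i j k : Fin 9, i = j ∨ i = k ∨ j = k ∨ c5 i + (c5 j + c5 k) ≤ wt i j k + 4 := by
  decide +kernel

/-- every cell of `w` is contained in a cell of `v` -/
def Refines (v : Finset (Fin 9) → ℝ) : Prop :=
  ∀ c : Fin 9 → ℝ, ∃ c' : Fin 9 → ℝ, Cell w c ⊆ Cell v c'

/-- `v` is affine on each of the cells: there are a constant and slopes computing it -/
theorem affine_on {v : Finset (Fin 9) → ℝ} (hv : Refines v) {c : Fin 9 → ℕ} {m : ℕ}
    (hc : ∀ i j k : Fin 9, i = j ∨ i = k ∨ j = k ∨ c i + (c j + c k) ≤ wt i j k + m)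
    {i₀ j₀ k₀ : Fin 9} (hij : i₀ ≠ j₀) (hik : i₀ ≠ k₀) (hjk : j₀ ≠ k₀)
    (h : c i₀ + (c j₀ + c k₀) = wt i₀ j₀ k₀ + m) :
    ∃ a : Fin 9 → ℝ, (∀ i j k : Fin 9, i ≠ j → i ≠ k → j ≠ k →
        c i + (c j + c k) = wt i j k + m → v {i, j, k} = a i + (a j + a k)) ∧
      ∀ i j k : Fin 9, i ≠ j → i ≠ k → j ≠ k → a i + (a j + a k) ≤ v {i, j, k} := by
  obtain ⟨c', hc'⟩ := hv (fun x => (c x : ℝ))
  have h0 := hc' (mem_cell hc hij hik hjk h)
  have h0' := h0.2
  rw [sum3 _ hij hik hjk] at h0'
  refine ⟨fun x => c' x + (v {i₀, j₀, k₀} - (c' i₀ + (c' j₀ + c' k₀))) / 3, ?_, ?_⟩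
  · intro i j k h1 h2 h3 h4
    have h5 := hc' (mem_cell hc h1 h2 h3 h4)
    have h6 := h5.2 {i₀, j₀, k₀} h0.1
    have h7 := h0' {i, j, k} h5.1
    rw [sum3 _ h1 h2 h3] at h6 h7
    rw [sum3 _ hij hik hjk] at h6
    linarith
  · intro i j k h1 h2 h3
    have h7 := h0' {i, j, k} (Finset.card_eq_three.2 ⟨i, j, k, h1, h2, h3, rfl⟩)
    rw [sum3 _ h1 h2 h3] at h7
    linarith

/-- all triples -/
def triples : List (Fin 9 × Fin 9 × Fin 9) := [(0, 1, 2), (0, 1, 3), (0, 1, 4), (0, 1, 5), (0, 1, 6), (0, 1, 7), (0, 1, 8), (0, 2, 3), (0, 2, 4), (0, 2, 5), (0, 2, 6), (0, 2, 7), (0, 2, 8), (0, 3, 4), (0, 3, 5), (0, 3, 6), (0, 3, 7), (0, 3, 8), (0, 4, 5), (0, 4, 6), (0, 4, 7), (0, 4, 8), (0, 5, 6), (0, 5, 7), (0, 5, 8), (0, 6, 7), (0, 6, 8), (0, 7, 8), (1, 2, 3), (1, 2, 4), (1, 2, 5), (1, 2, 6), (1, 2, 7), (1, 2, 8), (1, 3, 4), (1, 3, 5), (1, 3, 6), (1, 3, 7), (1, 3, 8), (1, 4, 5), (1, 4, 6), (1, 4, 7), (1, 4, 8), (1, 5, 6), (1, 5, 7), (1, 5, 8), (1, 6, 7), (1, 6, 8), (1, 7, 8), (2, 3, 4), (2, 3,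 5), (2, 3, 6), (2, 3, 7), (2, 3, 8), (2, 4, 5), (2, 4, 6), (2, 4, 7), (2, 4, 8), (2, 5, 6), (2, 5, 7), (2, 5, 8), (2, 6, 7), (2, 6, 8), (2, 7, 8), (3, 4, 5), (3, 4, 6), (3, 4, 7), (3, 4, 8), (3, 5, 6), (3, 5, 7), (3, 5, 8), (3, 6, 7), (3, 6, 8), (3, 7, 8), (4, 5, 6), (4, 5, 7), (4, 5, 8), (4, 6, 7), (4, 6, 8), (4, 7, 8), (5, 6, 7), (5, 6, 8), (5, 7, 8), (6, 7, 8)]

theorem mem_triples : ∀ i j k : Fin 9, j ≤ i ∨ k ≤ j ∨ (i, j, k) ∈ triples := by
  decide +kernel

/-- the value of `v` on a triple is `lam` times the height plus the sum of the slopes -/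
def Good (v : Finset (Fin 9) → ℝ) (lam : ℝ) (a : Fin 9 → ℝ) (B : Finset (Fin 9)) : Prop :=
  v B = lam * w B + ∑ i ∈ B, a i

theorem good_of {v : Finset (Fin 9) → ℝ} {lam : ℝ} {a : Fin 9 → ℝ} {i j k : Fin 9} (x : ℕ)
    (hij : i ≠ j) (hik : i ≠ k) (hjk : j ≠ k) (hx : wt i j k = x)
    (h : v {i, j, k} = lam * (x : ℝ) + (a i + (a j + a k))) : Good v lam a {i, j, k} := by
  unfold Good w
  rw [sum3 a hij hik hjk, wn_eq hij hik hjk, hx, h]

theorem good_all {P : Finset (Fin 9) → Prop} (h : ∀ i j k : Fin 9, i < j → j < k → P {i, j, k})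
    (B : Finset (Fin 9)) (hB : B.card = 3) : P B := by
  obtain ⟨i, j, k, h1, h2, h3, rfl⟩ := Finset.card_eq_three.1 hB
  rcases lt_or_gt_of_ne h1 with h12 | h12 <;> rcases lt_or_gt_of_ne h2 with h13 | h13 <;>
    rcases lt_or_gt_of_ne h3 with h23 | h23
  · exact h i j k h12 h23
  · have := h i k j h13 h23
    rwa [Finset.pair_comm k j] at this
  · exact absurd (h12.trans h23) (not_lt.2 h13.le)
  · have := h k i j h13 h12
    rwa [Finset.insert_comm k i, Finset.pair_comm k j] at this
  · have := h j i k h12 h13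
    rwa [Finset.insert_comm j i] at this
  · exact absurd (h13.trans h23) (not_lt.2 h12.le)
  · have := h j k i h23 h13
    rwa [Finset.pair_comm k i, Finset.insert_comm j i] at this
  · have := h k j i h23 h12
    rwa [Finset.pair_comm j i, Finset.insert_comm k i, Finset.pair_comm k j] at this

/-- **Rigidity**, first part: the values of `v` on the triples. -/
theorem rigid_values {v : Finset (Fin 9) → ℝ} (hv : Refines v) :
    ∃ lam : ℝ, 0 ≤ lam ∧ ∃ a : Fin 9 → ℝ,
    v {0, 1, 2} = lam * 0 + (a 0 + (a 1 + a 2)) ∧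
    v {0, 1, 3} = lam * 0 + (a 0 + (a 1 + a 3)) ∧
    v {0, 1, 4} = lam * 0 + (a 0 + (a 1 + a 4)) ∧
    v {0, 1, 5} = lam * 0 + (a 0 + (a 1 + a 5)) ∧
    v {0, 1, 6} = lam * 0 + (a 0 + (a 1 + a 6)) ∧
    v {0, 1, 7} = lam * 0 + (a 0 + (a 1 + a 7)) ∧
    v {0, 1, 8} = lam * 0 + (a 0 + (a 1 + a 8)) ∧
    v {0, 2, 3} = lam * 0 + (a 0 + (a 2 + a 3)) ∧
    v {0, 2, 4} = lam * 1 + (a 0 + (a 2 + a 4)) ∧
    v {0, 2, 5} = lam * 2 + (a 0 + (a 2 + a 5)) ∧
    v {0, 2, 6} = lam * 0 + (a 0 + (a 2 + a 6)) ∧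
    v {0, 2, 7} = lam * 1 + (a 0 + (a 2 + a 7)) ∧
    v {0, 2, 8} = lam * 2 + (a 0 + (a 2 + a 8)) ∧
    v {0, 3, 4} = lam * 0 + (a 0 + (a 3 + a 4)) ∧
    v {0, 3, 5} = lam * 0 + (a 0 + (a 3 + a 5)) ∧
    v {0, 3, 6} = lam * 0 + (a 0 + (a 3 + a 6)) ∧
    v {0, 3, 7} = lam * 0 + (a 0 + (a 3 + a 7)) ∧
    v {0, 3, 8} = lam * 0 + (a 0 + (a 3 + a 8)) ∧
    v {0, 4, 5} = lam * 1 + (a 0 + (a 4 + a 5)) ∧
    v {0, 4, 6} = lam * 0 + (a 0 + (a 4 + a 6)) ∧
    v {0, 4, 7} = lam * 1 + (a 0 + (a 4 + a 7)) ∧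
    v {0, 4, 8} = lam * 1 + (a 0 + (a 4 + a 8)) ∧
    v {0, 5, 6} = lam * 0 + (a 0 + (a 5 + a 6)) ∧
    v {0, 5, 7} = lam * 1 + (a 0 + (a 5 + a 7)) ∧
    v {0, 5, 8} = lam * 2 + (a 0 + (a 5 + a 8)) ∧
    v {0, 6, 7} = lam * 0 + (a 0 + (a 6 + a 7)) ∧
    v {0, 6, 8} = lam * 0 + (a 0 + (a 6 + a 8)) ∧
    v {0, 7, 8} = lam * 1 + (a 0 + (a 7 + a 8)) ∧
    v {1, 2, 3} = lam * 0 + (a 1 + (a 2 + a 3)) ∧
    v {1, 2, 4} = lam * 0 + (a 1 + (a 2 + a 4)) ∧
    v {1, 2, 5} = lam * 0 + (a 1 + (a 2 + a 5)) ∧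
    v {1, 2, 6} = lam * 1 + (a 1 + (a 2 + a 6)) ∧
    v {1, 2, 7} = lam * 1 + (a 1 + (a 2 + a 7)) ∧
    v {1, 2, 8} = lam * 1 + (a 1 + (a 2 + a 8)) ∧
    v {1, 3, 4} = lam * 0 + (a 1 + (a 3 + a 4)) ∧
    v {1, 3, 5} = lam * 0 + (a 1 + (a 3 + a 5)) ∧
    v {1, 3, 6} = lam * 0 + (a 1 + (a 3 + a 6)) ∧
    v {1, 3, 7} = lam * 0 + (a 1 + (a 3 + a 7)) ∧
    v {1, 3, 8} = lam * 0 + (a 1 + (a 3 + a 8)) ∧
    v {1, 4, 5} = lam * 0 + (a 1 + (a 4 + a 5)) ∧
    v {1, 4, 6} = lam * 0 + (a 1 + (a 4 + a 6)) ∧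
    v {1, 4, 7} = lam * 0 + (a 1 + (a 4 + a 7)) ∧
    v {1, 4, 8} = lam * 0 + (a 1 + (a 4 + a 8)) ∧
    v {1, 5, 6} = lam * 0 + (a 1 + (a 5 + a 6)) ∧
    v {1, 5, 7} = lam * 0 + (a 1 + (a 5 + a 7)) ∧
    v {1, 5, 8} = lam * 0 + (a 1 + (a 5 + a 8)) ∧
    v {1, 6, 7} = lam * 1 + (a 1 + (a 6 + a 7)) ∧
    v {1, 6, 8} = lam * 1 + (a 1 + (a 6 + a 8)) ∧
    v {1, 7, 8} = lam * 1 + (a 1 + (a 7 + a 8)) ∧
    v {2, 3, 4} = lam * 0 + (a 2 + (a 3 + a 4)) ∧
    v {2, 3, 5} = lam * 0 + (a 2 + (a 3 + a 5)) ∧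
    v {2, 3, 6} = lam * 0 + (a 2 + (a 3 + a 6)) ∧
    v {2, 3, 7} = lam * 1 + (a 2 + (a 3 + a 7)) ∧
    v {2, 3, 8} = lam * 1 + (a 2 + (a 3 + a 8)) ∧
    v {2, 4, 5} = lam * 1 + (a 2 + (a 4 + a 5)) ∧
    v {2, 4, 6} = lam * 0 + (a 2 + (a 4 + a 6)) ∧
    v {2, 4, 7} = lam * 1 + (a 2 + (a 4 + a 7)) ∧
    v {2, 4, 8} = lam * 2 + (a 2 + (a 4 + a 8)) ∧
    v {2, 5, 6} = lam * 0 + (a 2 + (a 5 + a 6)) ∧
    v {2, 5, 7} = lam * 1 + (a 2 + (a 5 + a 7)) ∧
    v {2, 5, 8} = lam * 2 + (a 2 + (a 5 + a 8)) ∧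
    v {2, 6, 7} = lam * 1 + (a 2 + (a 6 + a 7)) ∧
    v {2, 6, 8} = lam * 1 + (a 2 + (a 6 + a 8)) ∧
    v {2, 7, 8} = lam * 2 + (a 2 + (a 7 + a 8)) ∧
    v {3, 4, 5} = lam * 0 + (a 3 + (a 4 + a 5)) ∧
    v {3, 4, 6} = lam * 0 + (a 3 + (a 4 + a 6)) ∧
    v {3, 4, 7} = lam * 0 + (a 3 + (a 4 + a 7)) ∧
    v {3, 4, 8} = lam * 0 + (a 3 + (a 4 + a 8)) ∧
    v {3, 5, 6} = lam * 0 + (a 3 + (a 5 + a 6)) ∧
    v {3, 5, 7} = lam * 0 + (a 3 + (a 5 + a 7)) ∧
    v {3, 5, 8} = lam * 0 + (a 3 + (a 5 + a 8)) ∧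
    v {3, 6, 7} = lam * 0 + (a 3 + (a 6 + a 7)) ∧
    v {3, 6, 8} = lam * 0 + (a 3 + (a 6 + a 8)) ∧
    v {3, 7, 8} = lam * 1 + (a 3 + (a 7 + a 8)) ∧
    v {4, 5, 6} = lam * 0 + (a 4 + (a 5 + a 6)) ∧
    v {4, 5, 7} = lam * 1 + (a 4 + (a 5 + a 7)) ∧
    v {4, 5, 8} = lam * 1 + (a 4 + (a 5 + a 8)) ∧
    v {4, 6, 7} = lam * 0 + (a 4 + (a 6 + a 7)) ∧
    v {4, 6, 8} = lam * 0 + (a 4 + (a 6 + a 8)) ∧
    v {4, 7, 8} = lam * 1 + (a 4 + (a 7 + a 8)) ∧
    v {5, 6, 7} = lam * 0 + (a 5 + (a 6 + a 7)) ∧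
    v {5, 6, 8} = lam * 0 + (a 5 + (a 6 + a 8)) ∧
    v {5, 7, 8} = lam * 1 + (a 5 + (a 7 + a 8)) ∧
    v {6, 7, 8} = lam * 1 + (a 6 + (a 7 + a 8)) := by
  obtain ⟨a0, ha0, hb0⟩ := affine_on hv hc0 (i₀ := 0) (j₀ := 1) (k₀ := 2) (by decide) (by decide)
    (by decide) (by decide +kernel)
  obtain ⟨a1, ha1, hb1⟩ := affine_on hv hc1 (i₀ := 0) (j₀ := 1) (k₀ := 2) (by decide) (by decide)
    (by decide) (by decide +kernel)
  obtain ⟨a2, ha2, hb2⟩ := affine_on hv hc2 (i₀ := 0) (j₀ := 1) (k₀ := 2) (by decide) (by decide)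
    (by decide) (by decide +kernel)
  obtain ⟨a3, ha3, hb3⟩ := affine_on hv hc3 (i₀ := 0) (j₀ := 1) (k₀ := 2) (by decide) (by decide)
    (by decide) (by decide +kernel)
  obtain ⟨a4, ha4, hb4⟩ := affine_on hv hc4 (i₀ := 0) (j₀ := 1) (k₀ := 2) (by decide) (by decide)
    (by decide) (by decide +kernel)
  obtain ⟨a5, ha5, hb5⟩ := affine_on hv hc5 (i₀ := 0) (j₀ := 1) (k₀ := 2) (by decide) (by decide)
    (by decide) (by decide +kernel)
  obtain ⟨lam, hlam⟩ : ∃ lam : ℝ, lam = v {0, 2, 4} - (a0 0 + (a0 2 + a0 4)) := ⟨_, rfl⟩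
  have g012 : v {0, 1, 2} = lam * 0 + (a0 0 + (a0 1 + a0 2)) := by
    rw [mul_zero, zero_add]; exact ha0 0 1 2 (by decide) (by decide) (by decide) (by decide +kernel)
  have g013 : v {0, 1, 3} = lam * 0 + (a0 0 + (a0 1 + a0 3)) := by
    rw [mul_zero, zero_add]; exact ha0 0 1 3 (by decide) (by decide) (by decide) (by decide +kernel)
  have g014 : v {0, 1, 4} = lam * 0 + (a0 0 + (a0 1 + a0 4)) := by
    rw [mul_zero, zero_add]; exact ha0 0 1 4 (by decide) (by decide) (by decide) (by decide +kernel)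
  have g015 : v {0, 1, 5} = lam * 0 + (a0 0 + (a0 1 + a0 5)) := by
    rw [mul_zero, zero_add]; exact ha0 0 1 5 (by decide) (by decide) (by decide) (by decide +kernel)
  have g016 : v {0, 1, 6} = lam * 0 + (a0 0 + (a0 1 + a0 6)) := by
    rw [mul_zero, zero_add]; exact ha0 0 1 6 (by decide) (by decide) (by decide) (by decide +kernel)
  have g017 : v {0, 1, 7} = lam * 0 + (a0 0 + (a0 1 + a0 7)) := by
    rw [mul_zero, zero_add]; exact ha0 0 1 7 (by decide) (by decide) (by decide) (by decide +kernel)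
  have g018 : v {0, 1, 8} = lam * 0 + (a0 0 + (a0 1 + a0 8)) := by
    rw [mul_zero, zero_add]; exact ha0 0 1 8 (by decide) (by decide) (by decide) (by decide +kernel)
  have g023 : v {0, 2, 3} = lam * 0 + (a0 0 + (a0 2 + a0 3)) := by
    rw [mul_zero, zero_add]; exact ha0 0 2 3 (by decide) (by decide) (by decide) (by decide +kernel)
  have g026 : v {0, 2, 6} = lam * 0 + (a0 0 + (a0 2 + a0 6)) := by
    rw [mul_zero, zero_add]; exact ha0 0 2 6 (by decide) (by decide) (by decide) (by decide +kernel)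
  have g034 : v {0, 3, 4} = lam * 0 + (a0 0 + (a0 3 + a0 4)) := by
    rw [mul_zero, zero_add]; exact ha0 0 3 4 (by decide) (by decide) (by decide) (by decide +kernel)
  have g035 : v {0, 3, 5} = lam * 0 + (a0 0 + (a0 3 + a0 5)) := by
    rw [mul_zero, zero_add]; exact ha0 0 3 5 (by decide) (by decide) (by decide) (by decide +kernel)
  have g036 : v {0, 3, 6} = lam * 0 + (a0 0 + (a0 3 + a0 6)) := by
    rw [mul_zero, zero_add]; exact ha0 0 3 6 (by decide) (by decide) (by decide) (by decide +kernel)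
  have g037 : v {0, 3, 7} = lam * 0 + (a0 0 + (a0 3 + a0 7)) := by
    rw [mul_zero, zero_add]; exact ha0 0 3 7 (by decide) (by decide) (by decide) (by decide +kernel)
  have g038 : v {0, 3, 8} = lam * 0 + (a0 0 + (a0 3 + a0 8)) := by
    rw [mul_zero, zero_add]; exact ha0 0 3 8 (by decide) (by decide) (by decide) (by decide +kernel)
  have g046 : v {0, 4, 6} = lam * 0 + (a0 0 + (a0 4 + a0 6)) := by
    rw [mul_zero, zero_add]; exact ha0 0 4 6 (by decide) (by decide) (by decide) (by decide +kernel)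
  have g056 : v {0, 5, 6} = lam * 0 + (a0 0 + (a0 5 + a0 6)) := by
    rw [mul_zero, zero_add]; exact ha0 0 5 6 (by decide) (by decide) (by decide) (by decide +kernel)
  have g067 : v {0, 6, 7} = lam * 0 + (a0 0 + (a0 6 + a0 7)) := by
    rw [mul_zero, zero_add]; exact ha0 0 6 7 (by decide) (by decide) (by decide) (by decide +kernel)
  have g068 : v {0, 6, 8} = lam * 0 + (a0 0 + (a0 6 + a0 8)) := by
    rw [mul_zero, zero_add]; exact ha0 0 6 8 (by decide) (by decide) (by decide) (by decide +kernel)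
  have g123 : v {1, 2, 3} = lam * 0 + (a0 1 + (a0 2 + a0 3)) := by
    rw [mul_zero, zero_add]; exact ha0 1 2 3 (by decide) (by decide) (by decide) (by decide +kernel)
  have g124 : v {1, 2, 4} = lam * 0 + (a0 1 + (a0 2 + a0 4)) := by
    rw [mul_zero, zero_add]; exact ha0 1 2 4 (by decide) (by decide) (by decide) (by decide +kernel)
  have g125 : v {1, 2, 5} = lam * 0 + (a0 1 + (a0 2 + a0 5)) := by
    rw [mul_zero, zero_add]; exact ha0 1 2 5 (by decide) (by decide) (by decide) (by decide +kernel)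
  have g134 : v {1, 3, 4} = lam * 0 + (a0 1 + (a0 3 + a0 4)) := by
    rw [mul_zero, zero_add]; exact ha0 1 3 4 (by decide) (by decide) (by decide) (by decide +kernel)
  have g135 : v {1, 3, 5} = lam * 0 + (a0 1 + (a0 3 + a0 5)) := by
    rw [mul_zero, zero_add]; exact ha0 1 3 5 (by decide) (by decide) (by decide) (by decide +kernel)
  have g136 : v {1, 3, 6} = lam * 0 + (a0 1 + (a0 3 + a0 6)) := by
    rw [mul_zero, zero_add]; exact ha0 1 3 6 (by decide) (by decide) (by decide) (by decide +kernel)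
  have g137 : v {1, 3, 7} = lam * 0 + (a0 1 + (a0 3 + a0 7)) := by
    rw [mul_zero, zero_add]; exact ha0 1 3 7 (by decide) (by decide) (by decide) (by decide +kernel)
  have g138 : v {1, 3, 8} = lam * 0 + (a0 1 + (a0 3 + a0 8)) := by
    rw [mul_zero, zero_add]; exact ha0 1 3 8 (by decide) (by decide) (by decide) (by decide +kernel)
  have g145 : v {1, 4, 5} = lam * 0 + (a0 1 + (a0 4 + a0 5)) := by
    rw [mul_zero, zero_add]; exact ha0 1 4 5 (by decide) (by decide) (by decide) (by decide +kernel)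
  have g146 : v {1, 4, 6} = lam * 0 + (a0 1 + (a0 4 + a0 6)) := by
    rw [mul_zero, zero_add]; exact ha0 1 4 6 (by decide) (by decide) (by decide) (by decide +kernel)
  have g147 : v {1, 4, 7} = lam * 0 + (a0 1 + (a0 4 + a0 7)) := by
    rw [mul_zero, zero_add]; exact ha0 1 4 7 (by decide) (by decide) (by decide) (by decide +kernel)
  have g148 : v {1, 4, 8} = lam * 0 + (a0 1 + (a0 4 + a0 8)) := by
    rw [mul_zero, zero_add]; exact ha0 1 4 8 (by decide) (by decide) (by decide) (by decide +kernel)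
  have g156 : v {1, 5, 6} = lam * 0 + (a0 1 + (a0 5 + a0 6)) := by
    rw [mul_zero, zero_add]; exact ha0 1 5 6 (by decide) (by decide) (by decide) (by decide +kernel)
  have g157 : v {1, 5, 7} = lam * 0 + (a0 1 + (a0 5 + a0 7)) := by
    rw [mul_zero, zero_add]; exact ha0 1 5 7 (by decide) (by decide) (by decide) (by decide +kernel)
  have g158 : v {1, 5, 8} = lam * 0 + (a0 1 + (a0 5 + a0 8)) := by
    rw [mul_zero, zero_add]; exact ha0 1 5 8 (by decide) (by decide) (by decide) (by decide +kernel)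
  have g234 : v {2, 3, 4} = lam * 0 + (a0 2 + (a0 3 + a0 4)) := by
    rw [mul_zero, zero_add]; exact ha0 2 3 4 (by decide) (by decide) (by decide) (by decide +kernel)
  have g235 : v {2, 3, 5} = lam * 0 + (a0 2 + (a0 3 + a0 5)) := by
    rw [mul_zero, zero_add]; exact ha0 2 3 5 (by decide) (by decide) (by decide) (by decide +kernel)
  have g236 : v {2, 3, 6} = lam * 0 + (a0 2 + (a0 3 + a0 6)) := by
    rw [mul_zero, zero_add]; exact ha0 2 3 6 (by decide) (by decide) (by decide) (by decide +kernel)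
  have g246 : v {2, 4, 6} = lam * 0 + (a0 2 + (a0 4 + a0 6)) := by
    rw [mul_zero, zero_add]; exact ha0 2 4 6 (by decide) (by decide) (by decide) (by decide +kernel)
  have g256 : v {2, 5, 6} = lam * 0 + (a0 2 + (a0 5 + a0 6)) := by
    rw [mul_zero, zero_add]; exact ha0 2 5 6 (by decide) (by decide) (by decide) (by decide +kernel)
  have g345 : v {3, 4, 5} = lam * 0 + (a0 3 + (a0 4 + a0 5)) := by
    rw [mul_zero, zero_add]; exact ha0 3 4 5 (by decide) (by decide) (by decide) (by decide +kernel)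
  have g346 : v {3, 4, 6} = lam * 0 + (a0 3 + (a0 4 + a0 6)) := by
    rw [mul_zero, zero_add]; exact ha0 3 4 6 (by decide) (by decide) (by decide) (by decide +kernel)
  have g347 : v {3, 4, 7} = lam * 0 + (a0 3 + (a0 4 + a0 7)) := by
    rw [mul_zero, zero_add]; exact ha0 3 4 7 (by decide) (by decide) (by decide) (by decide +kernel)
  have g348 : v {3, 4, 8} = lam * 0 + (a0 3 + (a0 4 + a0 8)) := by
    rw [mul_zero, zero_add]; exact ha0 3 4 8 (by decide) (by decide) (by decide) (by decide +kernel)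
  have g356 : v {3, 5, 6} = lam * 0 + (a0 3 + (a0 5 + a0 6)) := by
    rw [mul_zero, zero_add]; exact ha0 3 5 6 (by decide) (by decide) (by decide) (by decide +kernel)
  have g357 : v {3, 5, 7} = lam * 0 + (a0 3 + (a0 5 + a0 7)) := by
    rw [mul_zero, zero_add]; exact ha0 3 5 7 (by decide) (by decide) (by decide) (by decide +kernel)
  have g358 : v {3, 5, 8} = lam * 0 + (a0 3 + (a0 5 + a0 8)) := by
    rw [mul_zero, zero_add]; exact ha0 3 5 8 (by decide) (by decide) (by decide) (by decide +kernel)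
  have g367 : v {3, 6, 7} = lam * 0 + (a0 3 + (a0 6 + a0 7)) := by
    rw [mul_zero, zero_add]; exact ha0 3 6 7 (by decide) (by decide) (by decide) (by decide +kernel)
  have g368 : v {3, 6, 8} = lam * 0 + (a0 3 + (a0 6 + a0 8)) := by
    rw [mul_zero, zero_add]; exact ha0 3 6 8 (by decide) (by decide) (by decide) (by decide +kernel)
  have g456 : v {4, 5, 6} = lam * 0 + (a0 4 + (a0 5 + a0 6)) := by
    rw [mul_zero, zero_add]; exact ha0 4 5 6 (by decide) (by decide) (by decide) (by decide +kernel)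
  have g467 : v {4, 6, 7} = lam * 0 + (a0 4 + (a0 6 + a0 7)) := by
    rw [mul_zero, zero_add]; exact ha0 4 6 7 (by decide) (by decide) (by decide) (by decide +kernel)
  have g468 : v {4, 6, 8} = lam * 0 + (a0 4 + (a0 6 + a0 8)) := by
    rw [mul_zero, zero_add]; exact ha0 4 6 8 (by decide) (by decide) (by decide) (by decide +kernel)
  have g567 : v {5, 6, 7} = lam * 0 + (a0 5 + (a0 6 + a0 7)) := by
    rw [mul_zero, zero_add]; exact ha0 5 6 7 (by decide) (by decide) (by decide) (by decide +kernel)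
  have g568 : v {5, 6, 8} = lam * 0 + (a0 5 + (a0 6 + a0 8)) := by
    rw [mul_zero, zero_add]; exact ha0 5 6 8 (by decide) (by decide) (by decide) (by decide +kernel)
  have g024 : v {0, 2, 4} = lam * 1 + (a0 0 + (a0 2 + a0 4)) := by rw [hlam]; ring
  have e1_027 := ha1 0 2 7 (by decide) (by decide) (by decide) (by decide +kernel)
  have e1_014 := ha1 0 1 4 (by decide) (by decide) (by decide) (by decide +kernel)
  have e1_017 := ha1 0 1 7 (by decide) (by decide) (by decide) (by decide +kernel)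
  have e1_024 := ha1 0 2 4 (by decide) (by decide) (by decide) (by decide +kernel)
  have g027 : v {0, 2, 7} = lam * 1 + (a0 0 + (a0 2 + a0 7)) := by
    linear_combination e1_027 + e1_014 - e1_017 - e1_024 - g014 + g017 + g024
  have e1_045 := ha1 0 4 5 (by decide) (by decide) (by decide) (by decide +kernel)
  have e1_012 := ha1 0 1 2 (by decide) (by decide) (by decide) (by decide +kernel)
  have e1_015 := ha1 0 1 5 (by decide) (by decide) (by decide) (by decide +kernel)
  have g045 : v {0, 4, 5} = lam * 1 + (a0 0 + (a0 4 + a0 5)) := by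
    linear_combination e1_045 + e1_012 - e1_015 - e1_024 - g012 + g015 + g024
  have e1_047 := ha1 0 4 7 (by decide) (by decide) (by decide) (by decide +kernel)
  have g047 : v {0, 4, 7} = lam * 1 + (a0 0 + (a0 4 + a0 7)) := by
    linear_combination e1_047 + e1_012 - e1_014 - e1_027 - g012 + g014 + g027
  have e1_048 := ha1 0 4 8 (by decide) (by decide) (by decide) (by decide +kernel)
  have e1_018 := ha1 0 1 8 (by decide) (by decide) (by decide) (by decide +kernel)
  have g048 : v {0, 4, 8} = lam * 1 + (a0 0 + (a0 4 + a0 8)) := by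
    linear_combination e1_048 + e1_012 - e1_018 - e1_024 - g012 + g018 + g024
  have e1_057 := ha1 0 5 7 (by decide) (by decide) (by decide) (by decide +kernel)
  have g057 : v {0, 5, 7} = lam * 1 + (a0 0 + (a0 5 + a0 7)) := by
    linear_combination e1_057 + e1_012 - e1_015 - e1_027 - g012 + g015 + g027
  have e1_078 := ha1 0 7 8 (by decide) (by decide) (by decide) (by decide +kernel)
  have g078 : v {0, 7, 8} = lam * 1 + (a0 0 + (a0 7 + a0 8)) := by
    linear_combination e1_078 + e1_012 - e1_018 - e1_027 - g012 + g018 + g027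
  have e1_245 := ha1 2 4 5 (by decide) (by decide) (by decide) (by decide +kernel)
  have e1_125 := ha1 1 2 5 (by decide) (by decide) (by decide) (by decide +kernel)
  have g245 : v {2, 4, 5} = lam * 1 + (a0 2 + (a0 4 + a0 5)) := by
    linear_combination e1_245 + e1_012 - e1_024 - e1_125 - g012 + g024 + g125
  have e1_247 := ha1 2 4 7 (by decide) (by decide) (by decide) (by decide +kernel)
  have e1_124 := ha1 1 2 4 (by decide) (by decide) (by decide) (by decide +kernel)
  have g247 : v {2, 4, 7} = lam * 1 + (a0 2 + (a0 4 + a0 7)) := by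
    linear_combination e1_247 + e1_012 - e1_027 - e1_124 - g012 + g027 + g124
  have e1_257 := ha1 2 5 7 (by decide) (by decide) (by decide) (by decide +kernel)
  have g257 : v {2, 5, 7} = lam * 1 + (a0 2 + (a0 5 + a0 7)) := by
    linear_combination e1_257 + e1_012 - e1_027 - e1_125 - g012 + g027 + g125
  have e1_457 := ha1 4 5 7 (by decide) (by decide) (by decide) (by decide +kernel)
  have g457 : v {4, 5, 7} = lam * 1 + (a0 4 + (a0 5 + a0 7)) := by
    linear_combination e1_457 + e1_012 - e1_014 - e1_257 - g012 + g014 + g257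
  have e1_458 := ha1 4 5 8 (by decide) (by decide) (by decide) (by decide +kernel)
  have g458 : v {4, 5, 8} = lam * 1 + (a0 4 + (a0 5 + a0 8)) := by
    linear_combination e1_458 + e1_012 - e1_018 - e1_245 - g012 + g018 + g245
  have e1_478 := ha1 4 7 8 (by decide) (by decide) (by decide) (by decide +kernel)
  have g478 : v {4, 7, 8} = lam * 1 + (a0 4 + (a0 7 + a0 8)) := by
    linear_combination e1_478 + e1_012 - e1_018 - e1_247 - g012 + g018 + g247
  have e1_578 := ha1 5 7 8 (by decide) (by decide) (by decide) (by decide +kernel)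
  have g578 : v {5, 7, 8} = lam * 1 + (a0 5 + (a0 7 + a0 8)) := by
    linear_combination e1_578 + e1_012 - e1_018 - e1_257 - g012 + g018 + g257
  have e2_127 := ha2 1 2 7 (by decide) (by decide) (by decide) (by decide +kernel)
  have e2_023 := ha2 0 2 3 (by decide) (by decide) (by decide) (by decide +kernel)
  have e2_027 := ha2 0 2 7 (by decide) (by decide) (by decide) (by decide +kernel)
  have e2_123 := ha2 1 2 3 (by decide) (by decide) (by decide) (by decide +kernel)
  have g127 : v {1, 2, 7} = lam * 1 + (a0 1 + (a0 2 + a0 7)) := by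
    linear_combination e2_127 + e2_023 - e2_027 - e2_123 - g023 + g027 + g123
  have e2_128 := ha2 1 2 8 (by decide) (by decide) (by decide) (by decide +kernel)
  have e2_017 := ha2 0 1 7 (by decide) (by decide) (by decide) (by decide +kernel)
  have e2_018 := ha2 0 1 8 (by decide) (by decide) (by decide) (by decide +kernel)
  have g128 : v {1, 2, 8} = lam * 1 + (a0 1 + (a0 2 + a0 8)) := by
    linear_combination e2_128 + e2_017 - e2_018 - e2_127 - g017 + g018 + g127
  have e2_178 := ha2 1 7 8 (by decide) (by decide) (by decide) (by decide +kernel)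
  have e2_012 := ha2 0 1 2 (by decide) (by decide) (by decide) (by decide +kernel)
  have g178 : v {1, 7, 8} = lam * 1 + (a0 1 + (a0 7 + a0 8)) := by
    linear_combination e2_178 + e2_012 - e2_017 - e2_128 - g012 + g017 + g128
  have e2_237 := ha2 2 3 7 (by decide) (by decide) (by decide) (by decide +kernel)
  have g237 : v {2, 3, 7} = lam * 1 + (a0 2 + (a0 3 + a0 7)) := by
    linear_combination e2_237 + e2_012 - e2_023 - e2_127 - g012 + g023 + g127
  have e2_238 := ha2 2 3 8 (by decide) (by decide) (by decide) (by decide +kernel)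
  have g238 : v {2, 3, 8} = lam * 1 + (a0 2 + (a0 3 + a0 8)) := by
    linear_combination e2_238 + e2_012 - e2_023 - e2_128 - g012 + g023 + g128
  have e2_267 := ha2 2 6 7 (by decide) (by decide) (by decide) (by decide +kernel)
  have e2_026 := ha2 0 2 6 (by decide) (by decide) (by decide) (by decide +kernel)
  have g267 : v {2, 6, 7} = lam * 1 + (a0 2 + (a0 6 + a0 7)) := by
    linear_combination e2_267 + e2_012 - e2_026 - e2_127 - g012 + g026 + g127
  have e2_268 := ha2 2 6 8 (by decide) (by decide) (by decide) (by decide +kernel)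
  have g268 : v {2, 6, 8} = lam * 1 + (a0 2 + (a0 6 + a0 8)) := by
    linear_combination e2_268 + e2_012 - e2_026 - e2_128 - g012 + g026 + g128
  have e2_278 := ha2 2 7 8 (by decide) (by decide) (by decide) (by decide +kernel)
  have g278 : v {2, 7, 8} = lam * 2 + (a0 2 + (a0 7 + a0 8)) := by
    linear_combination e2_278 + e2_012 - e2_027 - e2_128 - g012 + g027 + g128
  have e2_378 := ha2 3 7 8 (by decide) (by decide) (by decide) (by decide +kernel)
  have g378 : v {3, 7, 8} = lam * 1 + (a0 3 + (a0 7 + a0 8)) := by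
    linear_combination e2_378 + e2_012 - e2_017 - e2_238 - g012 + g017 + g238
  have e2_678 := ha2 6 7 8 (by decide) (by decide) (by decide) (by decide +kernel)
  have g678 : v {6, 7, 8} = lam * 1 + (a0 6 + (a0 7 + a0 8)) := by
    linear_combination e2_678 + e2_012 - e2_017 - e2_268 - g012 + g017 + g268
  have e3_126 := ha3 1 2 6 (by decide) (by decide) (by decide) (by decide +kernel)
  have e3_017 := ha3 0 1 7 (by decide) (by decide) (by decide) (by decide +kernel)
  have e3_016 := ha3 0 1 6 (by decide) (by decide) (by decide) (by decide +kernel)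
  have e3_127 := ha3 1 2 7 (by decide) (by decide) (by decide) (by decide +kernel)
  have g126 : v {1, 2, 6} = lam * 1 + (a0 1 + (a0 2 + a0 6)) := by
    linear_combination e3_126 + e3_017 - e3_016 - e3_127 - g017 + g016 + g127
  have e3_167 := ha3 1 6 7 (by decide) (by decide) (by decide) (by decide +kernel)
  have e3_012 := ha3 0 1 2 (by decide) (by decide) (by decide) (by decide +kernel)
  have g167 : v {1, 6, 7} = lam * 1 + (a0 1 + (a0 6 + a0 7)) := by
    linear_combination e3_167 + e3_012 - e3_016 - e3_127 - g012 + g016 + g127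
  have e3_168 := ha3 1 6 8 (by decide) (by decide) (by decide) (by decide +kernel)
  have e3_128 := ha3 1 2 8 (by decide) (by decide) (by decide) (by decide +kernel)
  have g168 : v {1, 6, 8} = lam * 1 + (a0 1 + (a0 6 + a0 8)) := by
    linear_combination e3_168 + e3_012 - e3_016 - e3_128 - g012 + g016 + g128
  have e4_028 := ha4 0 2 8 (by decide) (by decide) (by decide) (by decide +kernel)
  have e4_124 := ha4 1 2 4 (by decide) (by decide) (by decide) (by decide +kernel)
  have e4_024 := ha4 0 2 4 (by decide) (by decide) (by decide) (by decide +kernel)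
  have e4_128 := ha4 1 2 8 (by decide) (by decide) (by decide) (by decide +kernel)
  have g028 : v {0, 2, 8} = lam * 2 + (a0 0 + (a0 2 + a0 8)) := by
    linear_combination e4_028 + e4_124 - e4_024 - e4_128 - g124 + g024 + g128
  have e4_248 := ha4 2 4 8 (by decide) (by decide) (by decide) (by decide +kernel)
  have e4_012 := ha4 0 1 2 (by decide) (by decide) (by decide) (by decide +kernel)
  have g248 : v {2, 4, 8} = lam * 2 + (a0 2 + (a0 4 + a0 8)) := by
    linear_combination e4_248 + e4_012 - e4_024 - e4_128 - g012 + g024 + g128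
  have e4_258 := ha4 2 5 8 (by decide) (by decide) (by decide) (by decide +kernel)
  have e4_125 := ha4 1 2 5 (by decide) (by decide) (by decide) (by decide +kernel)
  have g258 : v {2, 5, 8} = lam * 2 + (a0 2 + (a0 5 + a0 8)) := by
    linear_combination e4_258 + e4_012 - e4_028 - e4_125 - g012 + g028 + g125
  have e5_025 := ha5 0 2 5 (by decide) (by decide) (by decide) (by decide +kernel)
  have e5_018 := ha5 0 1 8 (by decide) (by decide) (by decide) (by decide +kernel)
  have e5_015 := ha5 0 1 5 (by decide) (by decide) (by decide) (by decide +kernel)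
  have e5_028 := ha5 0 2 8 (by decide) (by decide) (by decide) (by decide +kernel)
  have g025 : v {0, 2, 5} = lam * 2 + (a0 0 + (a0 2 + a0 5)) := by
    linear_combination e5_025 + e5_018 - e5_015 - e5_028 - g018 + g015 + g028
  have e5_058 := ha5 0 5 8 (by decide) (by decide) (by decide) (by decide +kernel)
  have e5_012 := ha5 0 1 2 (by decide) (by decide) (by decide) (by decide +kernel)
  have g058 : v {0, 5, 8} = lam * 2 + (a0 0 + (a0 5 + a0 8)) := by
    linear_combination e5_058 + e5_012 - e5_015 - e5_028 - g012 + g015 + g028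
  have hl := hb0 0 2 4 (by decide) (by decide) (by decide)
  refine ⟨lam, by rw [hlam]; linarith, a0, g012, g013, g014, g015, g016, g017, g018, g023, g024, g025, g026, g027, g028, g034, g035, g036, g037, g038, g045, g046, g047, g048, g056, g057, g058, g067, g068, g078, g123, g124, g125, g126, g127, g128, g134, g135, g136, g137, g138, g145, g146, g147, g148, g156, g157, g158, g167, g168, g178, g234, g235, g236, g237, g238, g245, g246, g247, g248, g256, g257, g258, g267, g268, g278, g345, g346, g347, g348, g356, g357, g358, g367, g368, g378, g456, g457, g458, g467, g468, g478, g567, g568, g578, g678⟩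

set_option maxHeartbeats 4000000 in
/-- **Rigidity**: if every cell of `w` is contained in a cell of `v` then `v` is a nonnegative
multiple of `w` plus an affine function. -/
theorem rigid {v : Finset (Fin 9) → ℝ} (hv : Refines v) :
    ∃ lam : ℝ, 0 ≤ lam ∧ ∃ a : Fin 9 → ℝ, ∀ B : Finset (Fin 9), B.card = 3 →
      v B = lam * w B + ∑ i ∈ B, a i := by
  obtain ⟨lam, hlam, a, g012, g013, g014, g015, g016, g017, g018, g023, g024, g025, g026, g027, g028, g034, g035, g036, g037, g038, g045, g046, g047, g048, g056, g057, g058, g067, g068, g078, g123, g124, g125, g126, g127, g128, g134, g135, g136, g137, g138, g145, g146, g147, g148, g156, g157, g158, g167, g168, g178, g234, g235, g236, g237, g238, g245, g246, g247, g248, g256, g257, g258, g267, g268, g278, g345, g346, g347, g348, g356, g357, g358, g367, g368, g378, g456, g457, g458, g467, g468, g478, g567, g568, g578, g678⟩ := rigid_values hv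
  refine ⟨lam, hlam, a, ?_⟩
  refine good_all (P := fun B => v B = lam * w B + ∑ i ∈ B, a i) ?_
  intro i j k hij hjk
  have h4 : (i, j, k) ∈ triples := by
    rcases mem_triples i j k with h | h | h
    · exact absurd hij (not_lt.2 h)
    · exact absurd hjk (not_lt.2 h)
    · exact h
  simp only [triples, List.mem_cons, List.not_mem_nil, or_false, Prod.mk.injEq] at h4
  rcases h4 with ⟨rfl, rfl, rfl⟩ | ⟨rfl, rfl, rfl⟩ | ⟨rfl, rfl, rfl⟩ | ⟨rfl, rfl, rfl⟩ | ⟨rfl, rfl, rfl⟩ | ⟨rfl, rfl, rfl⟩ | ⟨rfl, rfl, rfl⟩ | ⟨rfl, rfl, rfl⟩ | ⟨rfl, rfl, rfl⟩ | ⟨rfl, rfl, rfl⟩ | ⟨rfl, rfl, rfl⟩ | ⟨rfl, rfl, rfl⟩ | ⟨rfl, rfl, rfl⟩ | ⟨rfl, rfl, rfl⟩ | ⟨rfl, rfl, rfl⟩ | ⟨rfl, rfl, rfl⟩ | ⟨rfl, rfl, rfl⟩ | ⟨rfl, rfl, rfl⟩ | ⟨rfl, rfl, rfl⟩ | ⟨rfl, rfl, rfl⟩ | ⟨rfl, rfl, rfl⟩ | ⟨rfl, rfl, rfl⟩ | ⟨rfl, rfl, rfl⟩ | ⟨rfl, rfl, rfl⟩ | ⟨rfl, rfl, rfl⟩ | ⟨rfl, rfl, rfl⟩ | ⟨rfl, rfl, rfl⟩ | ⟨rfl, rfl, rfl⟩ | ⟨rfl, rfl, rfl⟩ | ⟨rfl, rfl, rfl⟩ | ⟨rfl, rfl, rfl⟩ | ⟨rfl, rfl, rfl⟩ | ⟨rfl, rfl, rfl⟩ | ⟨rfl, rfl, rfl⟩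 | ⟨rfl, rfl, rfl⟩ | ⟨rfl, rfl, rfl⟩ | ⟨rfl, rfl, rfl⟩ | ⟨rfl, rfl, rfl⟩ | ⟨rfl, rfl, rfl⟩ | ⟨rfl, rfl, rfl⟩ | ⟨rfl, rfl, rfl⟩ | ⟨rfl, rfl, rfl⟩ | ⟨rfl, rfl, rfl⟩ | ⟨rfl, rfl, rfl⟩ | ⟨rfl, rfl, rfl⟩ | ⟨rfl, rfl, rfl⟩ | ⟨rfl, rfl, rfl⟩ | ⟨rfl, rfl, rfl⟩ | ⟨rfl, rfl, rfl⟩ | ⟨rfl, rfl, rfl⟩ | ⟨rfl, rfl, rfl⟩ | ⟨rfl, rfl, rfl⟩ | ⟨rfl, rfl, rfl⟩ | ⟨rfl, rfl, rfl⟩ | ⟨rfl, rfl, rfl⟩ | ⟨rfl, rfl, rfl⟩ | ⟨rfl, rfl, rfl⟩ | ⟨rfl, rfl, rfl⟩ | ⟨rfl, rfl, rfl⟩ | ⟨rfl, rfl, rfl⟩ | ⟨rfl, rfl, rfl⟩ | ⟨rfl, rfl, rfl⟩ | ⟨rfl, rfl, rfl⟩ | ⟨rfl, rfl, rfl⟩ | ⟨rfl, rfl, rfl⟩ | ⟨rfl, rfl, rfl⟩ | ⟨rfl, rfl, rfl⟩ | ⟨rfl, rfl, rfl⟩ | ⟨rfl, rfl, rfl⟩ | ⟨rfl, rfl, rfl⟩ | ⟨rfl, rfl, rfl⟩ | ⟨rfl, rfl, rfl⟩ | ⟨rfl, rfl, rfl⟩ | ⟨rfl, rfl, rfl⟩ | ⟨rfl, rfl, rfl⟩ | ⟨rfl, rfl, rfl⟩ | ⟨rfl, rfl, rfl⟩ | ⟨rfl, rfl, rfl⟩ | ⟨rfl, rfl, rfl⟩ | ⟨rfl, rfl, rfl⟩ | ⟨rfl, rfl, rfl⟩ | ⟨rfl, rfl, rfl⟩ | ⟨rfl, rfl, rfl⟩ | ⟨rfl, rfl, rfl⟩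
  · exact good_of 0 (by decide) (by decide) (by decide) (by decide +kernel) (by exact_mod_cast g012)
  · exact good_of 0 (by decide) (by decide) (by decide) (by decide +kernel) (by exact_mod_cast g013)
  · exact good_of 0 (by decide) (by decide) (by decide) (by decide +kernel) (by exact_mod_cast g014)
  · exact good_of 0 (by decide) (by decide) (by decide) (by decide +kernel) (by exact_mod_cast g015)
  · exact good_of 0 (by decide) (by decide) (by decide) (by decide +kernel) (by exact_mod_cast g016)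
  · exact good_of 0 (by decide) (by decide) (by decide) (by decide +kernel) (by exact_mod_cast g017)
  · exact good_of 0 (by decide) (by decide) (by decide) (by decide +kernel) (by exact_mod_cast g018)
  · exact good_of 0 (by decide) (by decide) (by decide) (by decide +kernel) (by exact_mod_cast g023)
  · exact good_of 1 (by decide) (by decide) (by decide) (by decide +kernel) (by exact_mod_cast g024)
  · exact good_of 2 (by decide) (by decide) (by decide) (by decide +kernel) (by exact_mod_cast g025)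
  · exact good_of 0 (by decide) (by decide) (by decide) (by decide +kernel) (by exact_mod_cast g026)
  · exact good_of 1 (by decide) (by decide) (by decide) (by decide +kernel) (by exact_mod_cast g027)
  · exact good_of 2 (by decide) (by decide) (by decide) (by decide +kernel) (by exact_mod_cast g028)
  · exact good_of 0 (by decide) (by decide) (by decide) (by decide +kernel) (by exact_mod_cast g034)
  · exact good_of 0 (by decide) (by decide) (by decide) (by decide +kernel) (by exact_mod_cast g035)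
  · exact good_of 0 (by decide) (by decide) (by decide) (by decide +kernel) (by exact_mod_cast g036)
  · exact good_of 0 (by decide) (by decide) (by decide) (by decide +kernel) (by exact_mod_cast g037)
  · exact good_of 0 (by decide) (by decide) (by decide) (by decide +kernel) (by exact_mod_cast g038)
  · exact good_of 1 (by decide) (by decide) (by decide) (by decide +kernel) (by exact_mod_cast g045)
  · exact good_of 0 (by decide) (by decide) (by decide) (by decide +kernel) (by exact_mod_cast g046)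
  · exact good_of 1 (by decide) (by decide) (by decide) (by decide +kernel) (by exact_mod_cast g047)
  · exact good_of 1 (by decide) (by decide) (by decide) (by decide +kernel) (by exact_mod_cast g048)
  · exact good_of 0 (by decide) (by decide) (by decide) (by decide +kernel) (by exact_mod_cast g056)
  · exact good_of 1 (by decide) (by decide) (by decide) (by decide +kernel) (by exact_mod_cast g057)
  · exact good_of 2 (by decide) (by decide) (by decide) (by decide +kernel) (by exact_mod_cast g058)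
  · exact good_of 0 (by decide) (by decide) (by decide) (by decide +kernel) (by exact_mod_cast g067)
  · exact good_of 0 (by decide) (by decide) (by decide) (by decide +kernel) (by exact_mod_cast g068)
  · exact good_of 1 (by decide) (by decide) (by decide) (by decide +kernel) (by exact_mod_cast g078)
  · exact good_of 0 (by decide) (by decide) (by decide) (by decide +kernel) (by exact_mod_cast g123)
  · exact good_of 0 (by decide) (by decide) (by decide) (by decide +kernel) (by exact_mod_cast g124)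
  · exact good_of 0 (by decide) (by decide) (by decide) (by decide +kernel) (by exact_mod_cast g125)
  · exact good_of 1 (by decide) (by decide) (by decide) (by decide +kernel) (by exact_mod_cast g126)
  · exact good_of 1 (by decide) (by decide) (by decide) (by decide +kernel) (by exact_mod_cast g127)
  · exact good_of 1 (by decide) (by decide) (by decide) (by decide +kernel) (by exact_mod_cast g128)
  · exact good_of 0 (by decide) (by decide) (by decide) (by decide +kernel) (by exact_mod_cast g134)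
  · exact good_of 0 (by decide) (by decide) (by decide) (by decide +kernel) (by exact_mod_cast g135)
  · exact good_of 0 (by decide) (by decide) (by decide) (by decide +kernel) (by exact_mod_cast g136)
  · exact good_of 0 (by decide) (by decide) (by decide) (by decide +kernel) (by exact_mod_cast g137)
  · exact good_of 0 (by decide) (by decide) (by decide) (by decide +kernel) (by exact_mod_cast g138)
  · exact good_of 0 (by decide) (by decide) (by decide) (by decide +kernel) (by exact_mod_cast g145)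
  · exact good_of 0 (by decide) (by decide) (by decide) (by decide +kernel) (by exact_mod_cast g146)
  · exact good_of 0 (by decide) (by decide) (by decide) (by decide +kernel) (by exact_mod_cast g147)
  · exact good_of 0 (by decide) (by decide) (by decide) (by decide +kernel) (by exact_mod_cast g148)
  · exact good_of 0 (by decide) (by decide) (by decide) (by decide +kernel) (by exact_mod_cast g156)
  · exact good_of 0 (by decide) (by decide) (by decide) (by decide +kernel) (by exact_mod_cast g157)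
  · exact good_of 0 (by decide) (by decide) (by decide) (by decide +kernel) (by exact_mod_cast g158)
  · exact good_of 1 (by decide) (by decide) (by decide) (by decide +kernel) (by exact_mod_cast g167)
  · exact good_of 1 (by decide) (by decide) (by decide) (by decide +kernel) (by exact_mod_cast g168)
  · exact good_of 1 (by decide) (by decide) (by decide) (by decide +kernel) (by exact_mod_cast g178)
  · exact good_of 0 (by decide) (by decide) (by decide) (by decide +kernel) (by exact_mod_cast g234)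
  · exact good_of 0 (by decide) (by decide) (by decide) (by decide +kernel) (by exact_mod_cast g235)
  · exact good_of 0 (by decide) (by decide) (by decide) (by decide +kernel) (by exact_mod_cast g236)
  · exact good_of 1 (by decide) (by decide) (by decide) (by decide +kernel) (by exact_mod_cast g237)
  · exact good_of 1 (by decide) (by decide) (by decide) (by decide +kernel) (by exact_mod_cast g238)
  · exact good_of 1 (by decide) (by decide) (by decide) (by decide +kernel) (by exact_mod_cast g245)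
  · exact good_of 0 (by decide) (by decide) (by decide) (by decide +kernel) (by exact_mod_cast g246)
  · exact good_of 1 (by decide) (by decide) (by decide) (by decide +kernel) (by exact_mod_cast g247)
  · exact good_of 2 (by decide) (by decide) (by decide) (by decide +kernel) (by exact_mod_cast g248)
  · exact good_of 0 (by decide) (by decide) (by decide) (by decide +kernel) (by exact_mod_cast g256)
  · exact good_of 1 (by decide) (by decide) (by decide) (by decide +kernel) (by exact_mod_cast g257)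
  · exact good_of 2 (by decide) (by decide) (by decide) (by decide +kernel) (by exact_mod_cast g258)
  · exact good_of 1 (by decide) (by decide) (by decide) (by decide +kernel) (by exact_mod_cast g267)
  · exact good_of 1 (by decide) (by decide) (by decide) (by decide +kernel) (by exact_mod_cast g268)
  · exact good_of 2 (by decide) (by decide) (by decide) (by decide +kernel) (by exact_mod_cast g278)
  · exact good_of 0 (by decide) (by decide) (by decide) (by decide +kernel) (by exact_mod_cast g345)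
  · exact good_of 0 (by decide) (by decide) (by decide) (by decide +kernel) (by exact_mod_cast g346)
  · exact good_of 0 (by decide) (by decide) (by decide) (by decide +kernel) (by exact_mod_cast g347)
  · exact good_of 0 (by decide) (by decide) (by decide) (by decide +kernel) (by exact_mod_cast g348)
  · exact good_of 0 (by decide) (by decide) (by decide) (by decide +kernel) (by exact_mod_cast g356)
  · exact good_of 0 (by decide) (by decide) (by decide) (by decide +kernel) (by exact_mod_cast g357)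
  · exact good_of 0 (by decide) (by decide) (by decide) (by decide +kernel) (by exact_mod_cast g358)
  · exact good_of 0 (by decide) (by decide) (by decide) (by decide +kernel) (by exact_mod_cast g367)
  · exact good_of 0 (by decide) (by decide) (by decide) (by decide +kernel) (by exact_mod_cast g368)
  · exact good_of 1 (by decide) (by decide) (by decide) (by decide +kernel) (by exact_mod_cast g378)
  · exact good_of 0 (by decide) (by decide) (by decide) (by decide +kernel) (by exact_mod_cast g456)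
  · exact good_of 1 (by decide) (by decide) (by decide) (by decide +kernel) (by exact_mod_cast g457)
  · exact good_of 1 (by decide) (by decide) (by decide) (by decide +kernel) (by exact_mod_cast g458)
  · exact good_of 0 (by decide) (by decide) (by decide) (by decide +kernel) (by exact_mod_cast g467)
  · exact good_of 0 (by decide) (by decide) (by decide) (by decide +kernel) (by exact_mod_cast g468)
  · exact good_of 1 (by decide) (by decide) (by decide) (by decide +kernel) (by exact_mod_cast g478)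
  · exact good_of 0 (by decide) (by decide) (by decide) (by decide +kernel) (by exact_mod_cast g567)
  · exact good_of 0 (by decide) (by decide) (by decide) (by decide +kernel) (by exact_mod_cast g568)
  · exact good_of 1 (by decide) (by decide) (by decide) (by decide +kernel) (by exact_mod_cast g578)
  · exact good_of 1 (by decide) (by decide) (by decide) (by decide +kernel) (by exact_mod_cast g678)

theorem w_val {i j k : Fin 9} {x : ℕ} (hij : i ≠ j) (hik : i ≠ k) (hjk : j ≠ k)
    (hx : wt i j k = x) : w {i, j, k} = x := by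
  unfold w
  rw [wn_eq hij hik hjk, hx]

theorem card3 {i j k : Fin 9} (hij : i ≠ j) (hik : i ≠ k) (hjk : j ≠ k) :
    ({i, j, k} : Finset (Fin 9)).card = 3 :=
  Finset.card_eq_three.2 ⟨i, j, k, hij, hik, hjk, rfl⟩

theorem w024 : w {0, 2, 4} = 1 := by
  rw [w_val (x := 1) (by decide) (by decide) (by decide) (by decide +kernel)]; norm_num
theorem w016 : w {0, 1, 6} = 0 := by
  rw [w_val (x := 0) (by decide) (by decide) (by decide) (by decide +kernel)]; norm_num
theorem w012 : w {0, 1, 2} = 0 := by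
  rw [w_val (x := 0) (by decide) (by decide) (by decide) (by decide +kernel)]; norm_num
theorem w046 : w {0, 4, 6} = 0 := by
  rw [w_val (x := 0) (by decide) (by decide) (by decide) (by decide +kernel)]; norm_num
theorem w205 : w {2, 0, 5} = 2 := by
  rw [w_val (x := 2) (by decide) (by decide) (by decide) (by decide +kernel)]; norm_num
theorem w216 : w {2, 1, 6} = 1 := by
  rw [w_val (x := 1) (by decide) (by decide) (by decide) (by decide +kernel)]; norm_num
theorem w201 : w {2, 0, 1} = 0 := by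
  rw [w_val (x := 0) (by decide) (by decide) (by decide) (by decide +kernel)]; norm_num
theorem w256 : w {2, 5, 6} = 0 := by
  rw [w_val (x := 0) (by decide) (by decide) (by decide) (by decide +kernel)]; norm_num

theorem not_affine : ¬ ∃ c : Fin 9 → ℝ, ∀ B : Finset (Fin 9), B.card = 3 →
    ∀ B' : Finset (Fin 9), B'.card = 3 → w B - ∑ i ∈ B, c i ≤ w B' - ∑ i ∈ B', c i := by
  rintro ⟨c, hc⟩
  have h1 := hc {0, 2, 4} (card3 (by decide) (by decide) (by decide)) {0, 1, 2}
    (card3 (by decide) (by decide) (by decide))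
  have h2 := hc {0, 1, 6} (card3 (by decide) (by decide) (by decide)) {0, 4, 6}
    (card3 (by decide) (by decide) (by decide))
  rw [sum3 c (by decide) (by decide) (by decide), sum3 c (by decide) (by decide) (by decide),
    w024, w012] at h1
  rw [sum3 c (by decide) (by decide) (by decide), sum3 c (by decide) (by decide) (by decide),
    w016, w046] at h2
  linarith

/-- the rank in a matroid on `Fin 9` as a natural number -/
noncomputable def rk (M : Matroid (Fin 9)) (X : Finset (Fin 9)) : ℕ :=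
  (M.eRk (X : Set (Fin 9))).toNat

theorem rk_cast (M : Matroid (Fin 9)) (X : Finset (Fin 9)) :
    ((rk M X : ℕ) : ℕ∞) = M.eRk (X : Set (Fin 9)) := by
  unfold rk
  apply ENat.natCast_toNat
  have h : M.eRk (X : Set (Fin 9)) ≤ (X : Set (Fin 9)).encard := M.eRk_le_encard _
  intro htop
  rw [htop, top_le_iff, Set.encard_eq_top_iff] at h
  exact h X.finite_toSet

theorem rk_mono (M : Matroid (Fin 9)) {X Y : Finset (Fin 9)} (h : X ⊆ Y) : rk M X ≤ rk M Y := by
  have := M.eRk_mono (Finset.coe_subset.2 h)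
  rw [← rk_cast, ← rk_cast] at this
  exact_mod_cast this

theorem rk_insert (M : Matroid (Fin 9)) (e : Fin 9) (X : Finset (Fin 9)) :
    rk M (insert e X) ≤ rk M X + 1 := by
  have := M.eRk_insert_le_add_one e (X : Set (Fin 9))
  rw [← Finset.coe_insert, ← rk_cast, ← rk_cast] at this
  exact_mod_cast this

/-- the height of an octahedron in a corank subdivision is at most two -/
theorem rk_gap (M : Matroid (Fin 9)) (s i j k l : Fin 9) :
    rk M {s, i, k} + rk M {s, j, l} ≤ rk M {s, i, j} + rk M {s, k, l} + 2 := by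
  have h1 : rk M {s, i, k} ≤ rk M {s, i} + 1 := by
    have := rk_insert M k {s, i}
    have h : (insert k {s, i} : Finset (Fin 9)) = {s, i, k} := by
      ext x; simp only [Finset.mem_insert, Finset.mem_singleton]; tauto
    rwa [h] at this
  have h2 : rk M {s, j, l} ≤ rk M {s, l} + 1 := by
    have := rk_insert M j {s, l}
    have h : (insert j {s, l} : Finset (Fin 9)) = {s, j, l} := by
      ext x; simp only [Finset.mem_insert, Finset.mem_singleton]; tauto
    rwa [h] at this
  have h3 : rk M {s, i} ≤ rk M {s, i, j} := rk_mono M (by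
    intro x; simp only [Finset.mem_insert, Finset.mem_singleton]; tauto)
  have h4 : rk M {s, l} ≤ rk M {s, k, l} := rk_mono M (by
    intro x; simp only [Finset.mem_insert, Finset.mem_singleton]; tauto)
  omega

theorem not_corank (M : Matroid (Fin 9))
    (h1 : ∀ c : Fin 9 → ℝ, ∃ c' : Fin 9 → ℝ,
      Cell w c = Cell (fun B => (3 : ℝ) - ((M.eRk (B : Set (Fin 9))).toNat : ℝ)) c')
    (h2 : ∀ c : Fin 9 → ℝ, ∃ c' : Fin 9 → ℝ,
      Cell (fun B => (3 : ℝ) - ((M.eRk (B : Set (Fin 9))).toNat : ℝ)) c = Cell w c') : False := by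
  obtain ⟨lam, hlam, a, ha⟩ := rigid (v := fun B => (3 : ℝ) - ((M.eRk (B : Set (Fin 9))).toNat : ℝ))
    (fun c => by
      obtain ⟨c', hc'⟩ := h1 c
      exact ⟨c', hc'.subset⟩)
  have key : ∀ i j k : Fin 9, i ≠ j → i ≠ k → j ≠ k →
      (3 : ℝ) - (rk M {i, j, k} : ℝ) = lam * w {i, j, k} + (a i + (a j + a k)) := by
    intro i j k hij hik hjk
    have := ha {i, j, k} (card3 hij hik hjk)
    rw [sum3 a hij hik hjk] at this
    exact this
  -- the multiplier is positive
  have hpos : 0 < lam := by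
    rcases hlam.lt_or_eq with h | h
    · exact h
    · exfalso
      obtain ⟨c', hc'⟩ := h2 a
      apply not_affine
      refine ⟨c', ?_⟩
      intro B hB B' hB'
      have hmem : B ∈ Cell (fun B => (3 : ℝ) - ((M.eRk (B : Set (Fin 9))).toNat : ℝ)) a := by
        refine ⟨hB, ?_⟩
        intro B'' hB''
        have e1 := ha B hB
        have e2 := ha B'' hB''
        rw [← h] at e1 e2
        simp only at e1 e2 ⊢
        rw [e1, e2]
        simp
      rw [hc'] at hmem
      exact hmem.2 B' hB'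
  have k1 := key 0 2 4 (by decide) (by decide) (by decide)
  have k2 := key 0 1 6 (by decide) (by decide) (by decide)
  have k3 := key 0 1 2 (by decide) (by decide) (by decide)
  have k4 := key 0 4 6 (by decide) (by decide) (by decide)
  rw [w024] at k1
  rw [w016] at k2
  rw [w012] at k3
  rw [w046] at k4
  have k5 := key 2 0 5 (by decide) (by decide) (by decide)
  have k6 := key 2 1 6 (by decide) (by decide) (by decide)
  have k7 := key 2 0 1 (by decide) (by decide) (by decide)
  have k8 := key 2 5 6 (by decide) (by decide) (by decide)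
  rw [w205] at k5
  rw [w216] at k6
  rw [w201] at k7
  rw [w256] at k8
  have hint : lam = (((rk M {0, 1, 2} : ℤ) + rk M {0, 4, 6} - rk M {0, 2, 4} - rk M {0, 1, 6} : ℤ) : ℝ) := by
    push_cast
    linarith
  have hge : (1 : ℝ) ≤ lam := by
    rw [hint] at hpos ⊢
    have h3 : (0 : ℤ) < (rk M {0, 1, 2} : ℤ) + rk M {0, 4, 6} - rk M {0, 2, 4} - rk M {0, 1, 6} := by
      exact_mod_cast hpos
    have h4 : (1 : ℤ) ≤ (rk M {0, 1, 2} : ℤ) + rk M {0, 4, 6} - rk M {0, 2, 4} - rk M {0, 1, 6} := h3
    exact_mod_cast h4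
  have hgap := rk_gap M 2 0 5 1 6
  have hgap' : (rk M {2, 0, 1} : ℝ) + rk M {2, 5, 6} ≤ rk M {2, 0, 5} + rk M {2, 1, 6} + 2 := by
    exact_mod_cast hgap
  linarith

/-- Some Dressian Dr(d,n) has a tropical Plücker vector inducing a coarsest nontrivial matroid subdivision (a ray) that differs from the subdivision induced by the corank vector of every rank-d matroid on n elements. -/
theorem result :
    ∃ d n : ℕ, ∃ w : Finset (Fin n) → ℝ,
      (∀ (S : Finset (Fin n)) (i j k l : Fin n), S.card + 2 = d →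
        i ∉ S → j ∉ S → k ∉ S → l ∉ S →
        i ≠ j → i ≠ k → i ≠ l → j ≠ k → j ≠ l → k ≠ l →
        ((w (insert i (insert j S)) + w (insert k (insert l S))
            = w (insert i (insert k S)) + w (insert j (insert l S)) ∧
          w (insert i (insert j S)) + w (insert k (insert l S))
            ≤ w (insert i (insert l S)) + w (insert j (insert k S))) ∨
         (w (insert i (insert j S)) + w (insert k (insert l S))
            = w (insert i (insert l S)) + w (insert j (insert k S)) ∧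
          w (insert i (insert j S)) + w (insert k (insert l S))
            ≤ w (insert i (insert k S)) + w (insert j (insert l S))) ∨
         (w (insert i (insert k S)) + w (insert j (insert l S))
            = w (insert i (insert l S)) + w (insert j (insert k S)) ∧
          w (insert i (insert k S)) + w (insert j (insert l S))
            ≤ w (insert i (insert j S)) + w (insert k (insert l S))))) ∧
      (¬ ∃ c : Fin n → ℝ, ∀ B : Finset (Fin n), B.card = d →
          ∀ B' : Finset (Fin n), B'.card = d →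
            w B - ∑ i ∈ B, c i ≤ w B' - ∑ i ∈ B', c i) ∧
      (∀ v : Finset (Fin n) → ℝ,
        (∀ (S : Finset (Fin n)) (i j k l : Fin n), S.card + 2 = d →
          i ∉ S → j ∉ S → k ∉ S → l ∉ S →
          i ≠ j → i ≠ k → i ≠ l → j ≠ k → j ≠ l → k ≠ l →
          ((v (insert i (insert j S)) + v (insert k (insert l S))
              = v (insert i (insert k S)) + v (insert j (insert l S)) ∧
            v (insert i (insert j S)) + v (insert k (insert l S))
              ≤ v (insert i (insert l S)) + v (insert j (insert k S))) ∨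
           (v (insert i (insert j S)) + v (insert k (insert l S))
              = v (insert i (insert l S)) + v (insert j (insert k S)) ∧
            v (insert i (insert j S)) + v (insert k (insert l S))
              ≤ v (insert i (insert k S)) + v (insert j (insert l S))) ∨
           (v (insert i (insert k S)) + v (insert j (insert l S))
              = v (insert i (insert l S)) + v (insert j (insert k S)) ∧
            v (insert i (insert k S)) + v (insert j (insert l S))
              ≤ v (insert i (insert j S)) + v (insert k (insert l S))))) →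
        (∀ c : Fin n → ℝ, ∃ c' : Fin n → ℝ,
          {B : Finset (Fin n) | B.card = d ∧ ∀ B' : Finset (Fin n), B'.card = d →
              w B - ∑ i ∈ B, c i ≤ w B' - ∑ i ∈ B', c i} ⊆
          {B : Finset (Fin n) | B.card = d ∧ ∀ B' : Finset (Fin n), B'.card = d →
              v B - ∑ i ∈ B, c' i ≤ v B' - ∑ i ∈ B', c' i}) →
        (∃ c : Fin n → ℝ, ∀ B : Finset (Fin n), B.card = d →
          ∀ B' : Finset (Fin n), B'.card = d →
            v B - ∑ i ∈ B, c i ≤ v B' - ∑ i ∈ B', c i) ∨
        ((∀ c : Fin n → ℝ, ∃ c' : Fin n → ℝ,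
          {B : Finset (Fin n) | B.card = d ∧ ∀ B' : Finset (Fin n), B'.card = d →
              w B - ∑ i ∈ B, c i ≤ w B' - ∑ i ∈ B', c i} =
          {B : Finset (Fin n) | B.card = d ∧ ∀ B' : Finset (Fin n), B'.card = d →
              v B - ∑ i ∈ B, c' i ≤ v B' - ∑ i ∈ B', c' i}) ∧
         (∀ c : Fin n → ℝ, ∃ c' : Fin n → ℝ,
          {B : Finset (Fin n) | B.card = d ∧ ∀ B' : Finset (Fin n), B'.card = d →
              v B - ∑ i ∈ B, c i ≤ v B' - ∑ i ∈ B', c i} =
          {B : Finset (Fin n) | B.card = d ∧ ∀ B' : Finset (Fin n), B'.card = d →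
              w B - ∑ i ∈ B, c' i ≤ w B' - ∑ i ∈ B', c' i}))) ∧
      (¬ ∃ M : Matroid (Fin n), M.E = Set.univ ∧ M.eRank = (d : ℕ∞) ∧
        (∀ c : Fin n → ℝ, ∃ c' : Fin n → ℝ,
          {B : Finset (Fin n) | B.card = d ∧ ∀ B' : Finset (Fin n), B'.card = d →
              w B - ∑ i ∈ B, c i ≤ w B' - ∑ i ∈ B', c i} =
          {B : Finset (Fin n) | B.card = d ∧ ∀ B' : Finset (Fin n), B'.card = d →
              ((d : ℝ) - ((M.eRk (B : Set (Fin n))).toNat : ℝ)) - ∑ i ∈ B, c' i ≤
              ((d : ℝ) - ((M.eRk (B' : Set (Fin n))).toNat : ℝ)) - ∑ i ∈ B', c' i}) ∧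
        (∀ c : Fin n → ℝ, ∃ c' : Fin n → ℝ,
          {B : Finset (Fin n) | B.card = d ∧ ∀ B' : Finset (Fin n), B'.card = d →
              ((d : ℝ) - ((M.eRk (B : Set (Fin n))).toNat : ℝ)) - ∑ i ∈ B, c i ≤
              ((d : ℝ) - ((M.eRk (B' : Set (Fin n))).toNat : ℝ)) - ∑ i ∈ B', c i} =
          {B : Finset (Fin n) | B.card = d ∧ ∀ B' : Finset (Fin n), B'.card = d →
              w B - ∑ i ∈ B, c' i ≤ w B' - ∑ i ∈ B', c' i})) := by
  refine ⟨3, 9, w, plucker, not_affine, ?_, ?_⟩
  · intro v _ hv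
    obtain ⟨lam, hlam, a, ha⟩ := rigid (v := v) hv
    rcases hlam.lt_or_eq with h | h
    · right
      constructor
      · intro c
        refine ⟨fun i => lam * c i + a i, ?_⟩
        ext B
        simp only [Set.mem_ofPred_eq]
        refine and_congr_right (fun hB => forall_congr' (fun B' => ?_))
        refine imp_congr_right (fun hB' => ?_)
        rw [ha B hB, ha B' hB', Finset.sum_add_distrib, Finset.sum_add_distrib, ← Finset.mul_sum,
          ← Finset.mul_sum]
        constructor
        · intro h5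
          have := mul_le_mul_of_nonneg_left h5 h.le
          linarith
        · intro h5
          have h6 : lam * (w B - ∑ i ∈ B, c i) ≤ lam * (w B' - ∑ i ∈ B', c i) := by linarith
          exact le_of_mul_le_mul_left h6 h
      · intro c
        refine ⟨fun i => lam⁻¹ * (c i - a i), ?_⟩
        ext B
        simp only [Set.mem_ofPred_eq]
        refine and_congr_right (fun hB => forall_congr' (fun B' => ?_))
        refine imp_congr_right (fun hB' => ?_)
        rw [ha B hB, ha B' hB', ← Finset.mul_sum, ← Finset.mul_sum, Finset.sum_sub_distrib,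
          Finset.sum_sub_distrib]
        constructor
        · intro h5
          have h6 : lam⁻¹ * (lam * w B + ∑ i ∈ B, a i - ∑ i ∈ B, c i) ≤
              lam⁻¹ * (lam * w B' + ∑ i ∈ B', a i - ∑ i ∈ B', c i) :=
            mul_le_mul_of_nonneg_left h5 (inv_nonneg.2 h.le)
          have e : ∀ x y z : ℝ, lam⁻¹ * (lam * x + y - z) = x - lam⁻¹ * (z - y) := by
            intro x y z
            field_simp
            ring
          rwa [e, e] at h6
        · intro h5
          have h6 := mul_le_mul_of_nonneg_left h5 h.le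
          have e : ∀ x y z : ℝ, lam * (x - lam⁻¹ * (z - y)) = lam * x + y - z := by
            intro x y z
            field_simp
            ring
          rwa [e, e] at h6
    · left
      refine ⟨a, ?_⟩
      intro B hB B' hB'
      rw [ha B hB, ha B' hB', ← h]
      simp
  · rintro ⟨M, -, -, h1, h2⟩
    refine not_corank M ?_ ?_
    · intro c
      obtain ⟨c', hc'⟩ := h1 c
      refine ⟨c', ?_⟩
      simpa [Cell] using hc'
    · intro c
      obtain ⟨c', hc'⟩ := h2 c
      refine ⟨c', ?_⟩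
      simpa [Cell] using hc'

end Pool.Agent.S07891
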