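import Pool.Statements.S07942
import Pool.Agent.R50.OddCycle

/-!
The claw `K_{1,3}` refutes the statement: a graph of chromatic number larger than `2` contains an
induced odd cycle, which contains no claw and has chromatic number `3`, while the claw has
chromatic number `2`.
-/

set_option autoImplicit false
open Pool Pool.MP_30ed83_co

namespace Pool.Agent.S07942

open SimpleGraph Pool.Agent.R50.OddCycle

theorem claw_colorable : (starGraph (0 : Fin 4)).Colorable 2 :=
  ⟨Coloring.mk (fun v => if v = 0 then (0 : Fin 2) else 1) (by decide)⟩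

theorem claw_ne : starGraph (0 : Fin 4) ≠ ⊥ := by
  intro h
  have h1 : (starGraph (0 : Fin 4)).Adj 0 1 := by decide
  rw [h] at h1
  exact h1

/-- The negation of the preceding statement: For every finite graph F with an edge and every r, some finite graph G has chromatic number above r and clique number equal to F's, and every induced subgraph of G with no induced copy of F has chromatic number at most that of F. -/
theorem result :
    ¬ (∀ (n : ℕ) (F : SimpleGraph (Fin n)), F ≠ ⊥ →
      ∀ r : ℕ, ∃ (m : ℕ) (G : SimpleGraph (Fin m)),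
        (r : ℕ∞) < G.chromaticNumber ∧
        G.cliqueNum = F.cliqueNum ∧
        ∀ s : Set (Fin m), ¬ F.IsIndContained (G.induce s) →
          (G.induce s).chromaticNumber ≤ F.chromaticNumber) := by
  intro h
  obtain ⟨m, G, hchi, -, hs⟩ := h 4 (starGraph (0 : Fin 4)) claw_ne 2
  have hG : ¬ G.Colorable 2 := by
    intro hc
    exact absurd hc.chromaticNumber_le (not_le.2 hchi)
  obtain ⟨n, hodd, hn3, f, hf, hinj, hch⟩ := exists_induced_odd_cycle hG
  let s : Set (Fin m) := {v | ∃ i < n, f i = v}
  have hmem : ∀ i ≤ n, f i ∈ s := by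
    intro i hi
    rcases Nat.lt_or_ge i n with h1 | h1
    · exact ⟨i, h1, rfl⟩
    · have h2 : i = n := le_antisymm hi h1
      subst h2
      exact ⟨0, by omega, hf.1⟩
  refine not_colorable_of_closed hodd hf hmem ?_
  refine chromaticNumber_le_iff_colorable.1 ((hs s ?_).trans claw_colorable.chromaticNumber_le)
  rintro ⟨e⟩
  obtain ⟨i, hi, hei⟩ := (e 0).2
  obtain ⟨a, ha, hea⟩ := (e 1).2
  obtain ⟨b, hb, heb⟩ := (e 2).2
  obtain ⟨c, hc, hec⟩ := (e 3).2
  have adj : ∀ j : Fin 4, j ≠ 0 → G.Adj (e 0).1 (e j).1 := by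
    intro j hj
    have h1 : (starGraph (0 : Fin 4)).Adj 0 j := by
      rw [starGraph_adj]
      exact ⟨hj.symm, Or.inl rfl⟩
    exact e.map_rel_iff.2 h1
  have ne : ∀ j k : Fin 4, j ≠ k → (e j).1 ≠ (e k).1 := fun j k hjk h1 =>
    hjk (e.injective (Subtype.ext h1))
  have h1 := hch i hi a ha (by rw [hei, hea]; exact adj 1 (by decide))
  have h2 := hch i hi b hb (by rw [hei, heb]; exact adj 2 (by decide))
  have h3 := hch i hi c hc (by rw [hei, hec]; exact adj 3 (by decide))
  have hab : a ≠ b := fun h4 => ne 1 2 (by decide) (by rw [← hea, ← heb, h4])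
  have hac : a ≠ c := fun h4 => ne 1 3 (by decide) (by rw [← hea, ← hec, h4])
  have hbc : b ≠ c := fun h4 => ne 2 3 (by decide) (by rw [← heb, ← hec, h4])
  omega

end Pool.Agent.S07942
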