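import Pool.Statements.S07963
import Pool.Agent.R54.CR.Main

set_option autoImplicit false
open Pool Pool.MP_31cced_co

namespace Pool.Agent.S07963

/-- For every finite simple graph G on n vertices with clique number ω and every integer λ ≥ n, the number of proper (λ−1)-colourings divided by the number of proper λ-colourings is at most (1−ω/λ)(1−1/λ)^(n−ω). -/
theorem result :
    ∀ (V : Type) [Fintype V] (G : SimpleGraph V) (lam : ℕ),
      Fintype.card V ≤ lam →
      (Nat.card (G.Coloring (Fin (lam - 1))) : ℝ) / (Nat.card (G.Coloring (Fin lam)) : ℝ)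
        ≤ (1 - ((sSup {k : ℕ | ∃ s : Finset V, G.IsNClique k s} : ℕ) : ℝ) / (lam : ℝ))
          * (1 - 1 / (lam : ℝ)) ^ (Fintype.card V - sSup {k : ℕ | ∃ s : Finset V, G.IsNClique k s}) := by
  intro V _ G lam hlam
  have hmem : sSup {k : ℕ | ∃ s : Finset V, G.IsNClique k s}
      ∈ {k : ℕ | ∃ s : Finset V, G.IsNClique k s} := by
    apply Nat.sSup_mem
    · exact ⟨0, ∅, by simp [SimpleGraph.isNClique_iff]⟩
    · refine ⟨Fintype.card V, ?_⟩
      rintro k ⟨s, hs⟩
      rw [← hs.card_eq]
      exact Finset.card_le_univ s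
  obtain ⟨K, hK⟩ := hmem
  set w : ℕ := sSup {k : ℕ | ∃ s : Finset V, G.IsNClique k s} with hw
  clear_value w
  have hKc : K.card = w := hK.card_eq
  have hwV : w ≤ Fintype.card V := by rw [← hKc]; exact Finset.card_le_univ K
  rcases lam with _ | n
  · have h0 : Fintype.card V = 0 := by omega
    have hw0 : w = 0 := by omega
    rw [h0, hw0]
    simp only [Nat.sub_zero, pow_zero, mul_one, Nat.cast_zero, div_zero, sub_zero]
    exact div_self_le_one _
  · have hP := Pool.Agent.R54.CR.main G n Finset.univ K (Finset.subset_univ K)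
      (fun a ha b hb hab => hK.isClique ha hb hab) (by rw [Finset.card_univ]; exact hlam)
    unfold Pool.Agent.R54.CR.f at hP
    rw [Pool.Agent.H331R2.ChromLC.card_C_univ, Pool.Agent.H331R2.ChromLC.card_C_univ, hKc,
      Finset.card_univ] at hP
    rw [Nat.add_sub_cancel]
    push_cast
    have hwR : (w : ℝ) ≤ (n : ℝ) + 1 := by exact_mod_cast hwV.trans hlam
    have hn1 : (0 : ℝ) < (n : ℝ) + 1 := by positivity
    apply div_le_of_le_mul₀ (Nat.cast_nonneg _)
    · apply mul_nonneg
      · rw [sub_nonneg, div_le_one hn1]; exact hwR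
      · apply pow_nonneg
        rw [sub_nonneg, div_le_one hn1]
        have : (0 : ℝ) ≤ n := Nat.cast_nonneg _
        linarith
    · refine hP.trans (le_of_eq ?_)
      ring

end Pool.Agent.S07963
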