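import Pool.Statements.S08038
import Pool.Agent.R400.NoUniform

set_option autoImplicit false
open Pool Pool.MP_349e33_co

namespace Pool.Agent.S08038

/-- The negation of the preceding statement: There is c>0 such that for every finite graph F and every ε>0, for all large Δ, every finite F-free graph of maximum degree Δ has chromatic number at most (c+ε)Δ/log Δ. -/
theorem result :
    ¬ (∃ c : ℝ, 0 < c ∧
      ∀ (k : ℕ) (F : SimpleGraph (Fin k)), ∀ ε : ℝ, 0 < ε →
        ∃ Δ₀ : ℕ, ∀ Δ : ℕ, Δ₀ ≤ Δ →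
          ∀ (V : Type) [Fintype V] (G : SimpleGraph V) [DecidableRel G.Adj],
            F.Free G → G.maxDegree = Δ →
              ∃ n : ℕ, G.Colorable n ∧
                (n : ℝ) ≤ (c + ε) * ((Δ : ℝ) / Real.log (Δ : ℝ))) := by
  rintro ⟨c, hc, h⟩
  obtain ⟨r, hr⟩ := Pool.Agent.R400.NoUniform.main (c + 1) (by linarith)
  obtain ⟨Δ₀, hΔ₀⟩ := h (r + 1) ⊤ 1 one_pos
  obtain ⟨V, inst, G, dec, hfree, hmax, hcol⟩ := hr Δ₀
  obtain ⟨n, hn, hn2⟩ := hΔ₀ _ hmax V G hfree rfl
  exact absurd hn2 (not_le.2 (hcol n hn))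

end Pool.Agent.S08038
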