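import Pool.Statements.S08250
import Pool.Agent.R57.P5Sound
import Pool.Agent.R57.P5Cert

set_option autoImplicit false
open Pool Pool.MP_3d2668_co

namespace Pool.Agent.S08250

/-- The negation of the preceding statement: There is a finite nonempty graph that is 3-colourable, has no induced 5-vertex path, and has a proper 4-colouring in which every vertex has neighbours of all three colours other than its own. -/
theorem result :
    ¬ (∃ (V : Type) (_ : Fintype V) (_ : Nonempty V) (G : SimpleGraph V),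
      G.Colorable 3 ∧
      IsEmpty (SimpleGraph.pathGraph 5 ↪g G) ∧
      ∃ c : G.Coloring (Fin 4), ∀ v : V, ∀ i : Fin 4, i ≠ c v →
        ∃ w : V, G.Adj v w ∧ c w = i) := by
  rintro ⟨V, _, ⟨x⟩, G, h3, h5, c, hfr⟩
  obtain ⟨y, hy⟩ : ∃ y : V, c y = 0 := by
    by_cases h : c x = 0
    · exact ⟨x, h⟩
    · obtain ⟨w, -, hw⟩ := hfr x 0 (Ne.symm h)
      exact ⟨w, hw⟩
  refine Pool.Agent.R57.P5.check_sound (c := c) h3 h5 (fun v w h => c.valid h) hfr _
    (fun _ => y) 1 0 0 0 ⟨by norm_num, le_rfl, ?_, ?_, ?_, by norm_num⟩ Pool.Agent.R57.P5.check_ok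
  · intro i j _ h
    simp [Pool.Agent.R57.P5.bit] at h
  · intro i j _ h
    simp [Pool.Agent.R57.P5.bit] at h
  · intro i _
    simp [hy, Pool.Agent.R57.P5.cl]

end Pool.Agent.S08250
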