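import Pool.Statements.S08268

set_option autoImplicit false
open Pool Pool.MP_3df3be_co

namespace Pool.Agent.S08268

/-- In a subsquare on rows `R`, columns `C` and symbols `S`, a row of `R` carries a symbol of `S`
exactly in the columns of `C`. -/
theorem sub_row {n : ℕ} (L : Fin n → Fin n → Fin n) (h1 : ∀ i, Function.Bijective (L i))
    {R C S : Finset (Fin n)} (hCS : C.card = S.card)
    (h : ∀ r ∈ R, ∀ c ∈ C, L r c ∈ S) {r : Fin n} (hr : r ∈ R) (c : Fin n) :
    L r c ∈ S ↔ c ∈ C := by
  constructor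
  · intro hc
    have hsub : C.image (L r) ⊆ S := by
      intro x hx
      obtain ⟨c', hc', rfl⟩ := Finset.mem_image.1 hx
      exact h r hr c' hc'
    have heq : C.image (L r) = S := by
      apply Finset.eq_of_subset_of_card_le hsub
      rw [Finset.card_image_of_injective _ (h1 r).1, hCS]
    rw [← heq] at hc
    obtain ⟨c', hc', he⟩ := Finset.mem_image.1 hc
    rw [← (h1 r).1 he]
    exact hc'
  · exact h r hr c

theorem no_both (L : Fin 8 → Fin 8 → Fin 8) (h1 : ∀ i, Function.Bijective (L i))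
    (h2 : ∀ j, Function.Bijective (fun i => L i j))
    (R C S : Finset (Fin 8)) (hR : R.card = 4) (hC : C.card = 4) (hS : S.card = 4)
    (h : ∀ r ∈ R, ∀ c ∈ C, L r c ∈ S)
    (R' C' S' : Finset (Fin 8)) (hR' : R'.card = 3) (hC' : C'.card = 3) (hS' : S'.card = 3)
    (h' : ∀ r ∈ R', ∀ c ∈ C', L r c ∈ S') : False := by
  classical
  have hrow : ∀ r ∈ R, ∀ c, L r c ∈ S ↔ c ∈ C := fun r hr c =>
    sub_row L h1 (by rw [hC, hS]) h hr c
  have hcol : ∀ c ∈ C, ∀ r, L r c ∈ S ↔ r ∈ R := fun c hc r =>
    sub_row (fun a b => L b a) h2 (by rw [hR, hS]) (fun x hx y hy => h y hy x hx) hc r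
  -- the four blocks
  have hblock : ∀ r c, L r c ∈ S ↔ (r ∈ R ↔ c ∈ C) := by
    intro r c
    by_cases hr : r ∈ R
    · simp [hr, hrow r hr c]
    · by_cases hc : c ∈ C
      · simp [hr, hc, hcol c hc r]
      · simp only [hr, hc, iff_self, iff_true]
        have hsub : Finset.univ.filter (fun x => L r x ∈ S) ⊆ Cᶜ := by
          intro x hx
          rw [Finset.mem_compl]
          intro hxC
          exact hr ((hcol x hxC r).1 (Finset.mem_filter.1 hx).2)
        have hcard : (Finset.univ.filter (fun x => L r x ∈ S)).card = 4 := by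
          rw [← hS]
          apply Finset.card_bij (fun x _ => L r x)
          · intro x hx
            exact (Finset.mem_filter.1 hx).2
          · intro x _ y _ he
            exact (h1 r).1 he
          · intro y hy
            obtain ⟨x, hx⟩ := (h1 r).2 y
            exact ⟨x, Finset.mem_filter.2 ⟨Finset.mem_univ _, by rw [hx]; exact hy⟩, hx⟩
        have heq : Finset.univ.filter (fun x => L r x ∈ S) = Cᶜ := by
          apply Finset.eq_of_subset_of_card_le hsub
          rw [hcard, Finset.card_compl, hC]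
          decide
        have : c ∈ Finset.univ.filter (fun x => L r x ∈ S) := by
          rw [heq, Finset.mem_compl]
          exact hc
        exact (Finset.mem_filter.1 this).2
  have hrow' : ∀ r ∈ R', ∀ c, L r c ∈ S' ↔ c ∈ C' := fun r hr c =>
    sub_row L h1 (by rw [hC', hS']) h' hr c
  have hcol' : ∀ c ∈ C', ∀ r, L r c ∈ S' ↔ r ∈ R' := fun c hc r =>
    sub_row (fun a b => L b a) h2 (by rw [hR', hS']) (fun x hx y hy => h' y hy x hx) hc r
  -- counting symbols of `S` in a line of the small subsquare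
  have cntr : ∀ r ∈ R', (C'.filter (fun c => L r c ∈ S)).card = (S'.filter (fun s => s ∈ S)).card := by
    intro r hr
    apply Finset.card_bij (fun x _ => L r x)
    · intro x hx
      rw [Finset.mem_filter] at hx ⊢
      exact ⟨h' r hr x hx.1, hx.2⟩
    · intro x _ y _ he
      exact (h1 r).1 he
    · intro y hy
      rw [Finset.mem_filter] at hy
      obtain ⟨x, hx⟩ := (h1 r).2 y
      refine ⟨x, ?_, hx⟩
      rw [Finset.mem_filter, ← hrow' r hr x, hx]
      exact hy
  have cntc : ∀ c ∈ C', (R'.filter (fun r => L r c ∈ S)).card = (S'.filter (fun s => s ∈ S)).card := by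
    intro c hc
    apply Finset.card_bij (fun x _ => L x c)
    · intro x hx
      rw [Finset.mem_filter] at hx ⊢
      exact ⟨h' x hx.1 c hc, hx.2⟩
    · intro x _ y _ he
      exact (h2 c).1 he
    · intro y hy
      rw [Finset.mem_filter] at hy
      obtain ⟨x, hx⟩ := (h2 c).2 y
      refine ⟨x, ?_, hx⟩
      rw [Finset.mem_filter, ← hcol' c hc x]
      simp only at hx
      rw [hx]
      exact hy
  have e1 := Finset.card_filter_add_card_filter_not (s := C') (fun c => c ∈ C)
  have e2 := Finset.card_filter_add_card_filter_not (s := R') (fun r => r ∈ R)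
  have f1 : ∀ r ∈ R', r ∈ R → (C'.filter (fun c => c ∈ C)).card =
      (S'.filter (fun s => s ∈ S)).card := by
    intro r hr hrR
    rw [← cntr r hr]
    congr 1
    apply Finset.filter_congr
    intro c _
    rw [hblock]; simp [hrR]
  have f2 : ∀ r ∈ R', r ∉ R → (C'.filter (fun c => ¬ c ∈ C)).card =
      (S'.filter (fun s => s ∈ S)).card := by
    intro r hr hrR
    rw [← cntr r hr]
    congr 1
    apply Finset.filter_congr
    intro c _
    rw [hblock]; simp [hrR]
  have g1 : ∀ c ∈ C', c ∈ C → (R'.filter (fun r => r ∈ R)).card =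
      (S'.filter (fun s => s ∈ S)).card := by
    intro c hc hcC
    rw [← cntc c hc]
    congr 1
    apply Finset.filter_congr
    intro r _
    rw [hblock]; simp [hcC]
  have g2 : ∀ c ∈ C', c ∉ C → (R'.filter (fun r => ¬ r ∈ R)).card =
      (S'.filter (fun s => s ∈ S)).card := by
    intro c hc hcC
    rw [← cntc c hc]
    congr 1
    apply Finset.filter_congr
    intro r _
    rw [hblock]; simp [hcC]
  -- all rows of the small subsquare are on the same side of `R`
  have hside : (∀ r ∈ R', r ∈ R) ∨ (∀ r ∈ R', r ∉ R) := by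
    by_contra hcon
    push Not at hcon
    obtain ⟨⟨r, hr, hrR⟩, ⟨r', hr', hrR'⟩⟩ := hcon
    have a1 := f1 r' hr' hrR'
    have a2 := f2 r hr hrR
    omega
  have hsideC : (∀ c ∈ C', c ∈ C) ∨ (∀ c ∈ C', c ∉ C) := by
    by_contra hcon
    push Not at hcon
    obtain ⟨⟨c, hc, hcC⟩, ⟨c', hc', hcC'⟩⟩ := hcon
    have a1 := g1 c' hc' hcC'
    have a2 := g2 c hc hcC
    omega
  -- a further row on the same side
  obtain ⟨r₁, hr₁⟩ : R'.Nonempty := by
    rw [← Finset.card_pos]; omega
  obtain ⟨r₀, hr₀, hr₀R⟩ : ∃ r₀, r₀ ∉ R' ∧ (r₀ ∈ R ↔ r₁ ∈ R) := by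
    rcases hside with hs | hs
    · have : ∃ x ∈ R, x ∉ R' := Finset.exists_mem_notMem_of_card_lt_card (by omega)
      obtain ⟨x, hx, hx'⟩ := this
      exact ⟨x, hx', by simp [hx, hs r₁ hr₁]⟩
    · have : ∃ x ∈ Rᶜ, x ∉ R' := by
        apply Finset.exists_mem_notMem_of_card_lt_card
        rw [Finset.card_compl, hR, hR']
        decide
      obtain ⟨x, hx, hx'⟩ := this
      rw [Finset.mem_compl] at hx
      exact ⟨x, hx', by simp [hx, hs r₁ hr₁]⟩
  have hmem : ∀ c ∈ C', (L r₀ c ∈ S ↔ L r₁ c ∈ S) := by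
    intro c _
    rw [hblock, hblock, hr₀R]
  -- six symbols on the same side of `S`
  obtain ⟨c₁, hc₁⟩ : C'.Nonempty := by
    rw [← Finset.card_pos]; omega
  have hS1 : ∀ s ∈ S', (s ∈ S ↔ L r₁ c₁ ∈ S) := by
    intro s hs
    obtain ⟨c, hc⟩ := (h1 r₁).2 s
    have hcC' : c ∈ C' := by rw [← hrow' r₁ hr₁ c, hc]; exact hs
    rw [← hc, hblock, hblock]
    rcases hsideC with hq | hq
    · simp [hq c hcC', hq c₁ hc₁]
    · simp [hq c hcC', hq c₁ hc₁]
  have hS2 : ∀ c ∈ C', (L r₀ c ∈ S ↔ L r₁ c₁ ∈ S) := by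
    intro c hc
    rw [hmem c hc]
    exact hS1 _ (h' r₁ hr₁ c hc)
  have hdisj : Disjoint S' (C'.image (L r₀)) := by
    rw [Finset.disjoint_left]
    intro s hs hs'
    obtain ⟨c, hc, rfl⟩ := Finset.mem_image.1 hs'
    exact hr₀ ((hcol' c hc r₀).1 hs)
  have hcard : (S' ∪ C'.image (L r₀)).card = 6 := by
    rw [Finset.card_union_of_disjoint hdisj, Finset.card_image_of_injective _ (h1 r₀).1, hS', hC']
  by_cases hcase : L r₁ c₁ ∈ S
  · have hsub : S' ∪ C'.image (L r₀) ⊆ S := by
      intro s hs
      rcases Finset.mem_union.1 hs with hs | hs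
      · exact (hS1 s hs).2 hcase
      · obtain ⟨c, hc, rfl⟩ := Finset.mem_image.1 hs
        exact (hS2 c hc).2 hcase
    have := Finset.card_le_card hsub
    omega
  · have hsub : S' ∪ C'.image (L r₀) ⊆ Sᶜ := by
      intro s hs
      rw [Finset.mem_compl]
      rcases Finset.mem_union.1 hs with hs | hs
      · exact fun hx => hcase ((hS1 s hs).1 hx)
      · obtain ⟨c, hc, rfl⟩ := Finset.mem_image.1 hs
        exact fun hx => hcase ((hS2 c hc).1 hx)
    have := Finset.card_le_card hsub
    rw [Finset.card_compl, hS, hcard] at this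
    revert this
    decide

/-- The negation of the preceding statement: For every n there is a latin square of order n such that, for each m with 1 ≤ m and 2m ≤ n, some m rows and m columns meet in an m×m subarray using only m symbols, i.e. a latin subsquare of order m. -/
theorem result :
    ¬ (∀ n : ℕ, ∃ L : Fin n → Fin n → Fin n,
      (∀ i : Fin n, Function.Bijective (L i)) ∧
      (∀ j : Fin n, Function.Bijective (fun i : Fin n => L i j)) ∧
      ∀ m : ℕ, 1 ≤ m → 2 * m ≤ n →
        ∃ R C S : Finset (Fin n),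
          R.card = m ∧ C.card = m ∧ S.card = m ∧
          ∀ r ∈ R, ∀ c ∈ C, L r c ∈ S) := by
  intro hall
  obtain ⟨L, h1, h2, h3⟩ := hall 8
  obtain ⟨R, C, S, hR, hC, hS, h⟩ := h3 4 (by norm_num) (by norm_num)
  obtain ⟨R', C', S', hR', hC', hS', h'⟩ := h3 3 (by norm_num) (by norm_num)
  exact no_both L h1 h2 R C S hR hC hS h R' C' S' hR' hC' hS' h'

end Pool.Agent.S08268
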