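import Pool.Statements.S08598
import Mathlib

set_option autoImplicit false
open Pool Pool.MP_4a9f27_co

namespace Pool.Agent.S08598

/-- The group of the example. -/
abbrev Gp (N : ℕ) : Type := Multiplicative (ZMod N × ℤ)

/-- the elements of the first factor -/
def S0 (N : ℕ) [NeZero N] : Finset (Gp N) :=
  Finset.univ.image (fun x : ZMod N => Multiplicative.ofAdd (x, (0 : ℤ)))

/-- `D` elements of the coset of `(0, 1)` -/
def S1 (N D : ℕ) : Finset (Gp N) :=
  (Finset.range D).image (fun i : ℕ => Multiplicative.ofAdd ((i : ZMod N), (1 : ℤ)))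

theorem snd_bound (N D : ℕ) [NeZero N] (T : Finset (Gp N)) (hT : T ⊆ S0 N ∪ S1 N D) :
    0 ≤ (Multiplicative.toAdd (∏ x ∈ T, x)).2 ∧ (Multiplicative.toAdd (∏ x ∈ T, x)).2 ≤ D := by
  have h1 : (Multiplicative.toAdd (∏ x ∈ T, x)).2 = ∑ x ∈ T, (Multiplicative.toAdd x).2 := by
    rw [toAdd_prod, Prod.snd_sum]
  rw [h1]
  have h2 : ∀ x ∈ T, (Multiplicative.toAdd x).2 = if x ∈ S1 N D then 1 else 0 := by
    intro x hx
    by_cases h : x ∈ S1 N D
    · rw [if_pos h]
      simp only [S1, Finset.mem_image] at h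
      obtain ⟨i, _, rfl⟩ := h
      rfl
    · rw [if_neg h]
      have := hT hx
      rw [Finset.mem_union] at this
      rcases this with h' | h'
      · simp only [S0, Finset.mem_image] at h'
        obtain ⟨i, _, rfl⟩ := h'
        rfl
      · exact absurd h' h
  rw [Finset.sum_congr rfl h2, Finset.sum_boole]
  refine ⟨by positivity, ?_⟩
  have h3 : (T.filter (fun x => x ∈ S1 N D)).card ≤ (S1 N D).card :=
    Finset.card_le_card (fun x hx => (Finset.mem_filter.mp hx).2)
  have h4 : (S1 N D).card ≤ D := by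
    unfold S1
    exact (Finset.card_image_le).trans (by simp)
  exact_mod_cast h3.trans h4

theorem prods_bound (N D : ℕ) [NeZero N] :
    Set.ncard {g : Gp N | ∃ l : List (Gp N), l.Nodup ∧ (∀ x ∈ l, x ∈ S0 N ∪ S1 N D) ∧
      l.prod = g} ≤ N * (D + 1) := by
  classical
  have hsub : {g : Gp N | ∃ l : List (Gp N), l.Nodup ∧ (∀ x ∈ l, x ∈ S0 N ∪ S1 N D) ∧
      l.prod = g} ⊆ (((Finset.univ : Finset (ZMod N)) ×ˢ Finset.range (D + 1)).image
        (fun p : ZMod N × ℕ => (Multiplicative.ofAdd (p.1, (p.2 : ℤ)) : Gp N)) :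
          Finset (Gp N)) := by
    rintro g ⟨l, hl, hS, rfl⟩
    have h1 : l.prod = ∏ x ∈ l.toFinset, x := by
      rw [List.prod_toFinset _ hl]; simp
    have h2 := snd_bound N D l.toFinset (fun x hx => hS x (List.mem_toFinset.mp hx))
    rw [← h1] at h2
    rw [Finset.mem_coe, Finset.mem_image]
    refine ⟨((Multiplicative.toAdd l.prod).1, ((Multiplicative.toAdd l.prod).2).toNat), ?_, ?_⟩
    · rw [Finset.mem_product]
      refine ⟨Finset.mem_univ _, ?_⟩
      rw [Finset.mem_range]
      simp only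
      omega
    · simp only [Int.toNat_of_nonneg h2.1]
      rfl
  calc _ ≤ _ := Set.ncard_le_ncard hsub (Finset.finite_toSet _)
    _ = _ := Set.ncard_coe_finset _
    _ ≤ _ := Finset.card_image_le
    _ = N * (D + 1) := by rw [Finset.card_product]; simp [ZMod.card]

/-- A finite subgroup of the group of the example lies in the first factor. -/
theorem snd_zero (N : ℕ) (H : Subgroup (Gp N)) (hH : (H : Set (Gp N)).Finite) (g : Gp N)
    (hg : g ∈ H) : (Multiplicative.toAdd g).2 = 0 := by
  by_contra hne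
  have hinj : Function.Injective (fun k : ℕ => g ^ k) := by
    intro a b hab
    simp only at hab
    have h1 : (Multiplicative.toAdd (g ^ a)).2 = (Multiplicative.toAdd (g ^ b)).2 := by rw [hab]
    rw [toAdd_pow, toAdd_pow, Prod.smul_snd, Prod.smul_snd] at h1
    rw [nsmul_eq_mul, nsmul_eq_mul] at h1
    exact_mod_cast mul_right_cancel₀ hne h1
  exact Set.infinite_of_injective_forall_mem hinj (fun k => H.pow_mem hg k) hH

/-- The negation of the preceding statement: There is c>0 such that for every group G and finite S in G, some finite subgroup H has #(products of distinct elements of S in any order, including 1) at least ∣H∣ + c·∣H∣·∣S minus H∣². -/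
theorem result :
    ¬ (∃ c : ℝ, 0 < c ∧ ∀ (G : Type) [Group G] (S : Finset G),
      ∃ H : Subgroup G, (H : Set G).Finite ∧
        ((Set.ncard {g : G | ∃ l : List G, l.Nodup ∧ (∀ x ∈ l, x ∈ S) ∧ l.prod = g} : ℕ) : ℝ)
          ≥ (Nat.card H : ℝ) + c * (Nat.card H : ℝ)
              * ((Set.ncard ((S : Set G) \ (H : Set G)) : ℕ) : ℝ) ^ 2) := by
  classical
  rintro ⟨c, hc, hall⟩
  obtain ⟨D, hD⟩ := exists_nat_gt (1 / c)
  have hD0 : 0 < D := by
    have : (0 : ℝ) < D := lt_trans (by positivity) hD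
    exact_mod_cast this
  have hcD : 1 < c * D := by
    rw [div_lt_iff₀ hc] at hD; linarith
  obtain ⟨N', hN'⟩ := exists_nat_gt (4 * (D + 1) / c)
  obtain ⟨N, hN⟩ : ∃ N : ℕ, N = N' + D + 1 := ⟨_, rfl⟩
  have hNe : NeZero N := ⟨by omega⟩
  have hND : D < N := by omega
  have hNc : 4 * ((D : ℝ) + 1) < c * N := by
    have h1 : (N' : ℝ) < N := by exact_mod_cast (by omega : N' < N)
    have h2 : 4 * ((D : ℝ) + 1) / c < N := hN'.trans h1
    rw [div_lt_iff₀ hc] at h2; linarith
  have hN0 : (0 : ℝ) < N := by exact_mod_cast (by omega : 0 < N)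
  obtain ⟨H, hHfin, hH⟩ := hall (Gp N) (S0 N ∪ S1 N D)
  have hub : ((Set.ncard {g : Gp N | ∃ l : List (Gp N), l.Nodup ∧
      (∀ x ∈ l, x ∈ S0 N ∪ S1 N D) ∧ l.prod = g} : ℕ) : ℝ) ≤ N * (D + 1) := by
    exact_mod_cast prods_bound N D
  -- the trace on the first factor
  set ι : ZMod N → Gp N := fun x => Multiplicative.ofAdd (x, (0 : ℤ)) with hι
  have hιinj : Function.Injective ι := by
    intro a b hab
    have : (a, (0 : ℤ)) = (b, 0) := Multiplicative.ofAdd.injective hab
    exact (Prod.ext_iff.mp this).1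
  let K : AddSubgroup (ZMod N) :=
    { carrier := {x | ι x ∈ H}
      zero_mem' := by
        show ι 0 ∈ H
        exact H.one_mem
      add_mem' := by
        intro a b ha hb
        show ι (a + b) ∈ H
        have : ι (a + b) = ι a * ι b := by
          rw [hι]; simp only
          rw [← ofAdd_add]; simp
        rw [this]; exact H.mul_mem ha hb
      neg_mem' := by
        intro a ha
        show ι (-a) ∈ H
        have : ι (-a) = (ι a)⁻¹ := by
          rw [hι]; simp only
          rw [← ofAdd_neg]; simp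
        rw [this]; exact H.inv_mem ha }
  have hKmem : ∀ x, x ∈ K ↔ ι x ∈ H := fun x => Iff.rfl
  have himage : (H : Set (Gp N)) = ι '' (K : Set (ZMod N)) := by
    ext g
    constructor
    · intro hg
      have h2 := snd_zero N H hHfin g hg
      have h3 : ι (Multiplicative.toAdd g).1 = g := by
        rw [hι]; simp only
        rw [← h2]
        rfl
      exact ⟨_, (hKmem _).mpr (by rw [h3]; exact hg), h3⟩
    · rintro ⟨x, hx, rfl⟩
      exact hx
  have hcardHK : Nat.card H = Nat.card K := by
    show (H : Set (Gp N)).ncard = (K : Set (ZMod N)).ncard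
    rw [himage]
    exact Set.ncard_image_of_injective _ hιinj
  have hKdvd : Nat.card K ∣ N := by
    have := AddSubgroup.card_addSubgroup_dvd_card K
    rwa [Nat.card_zmod] at this
  have hSfin : ((S0 N ∪ S1 N D : Finset (Gp N)) : Set (Gp N)).Finite := Finset.finite_toSet _
  by_cases hK : K = ⊤
  · -- `H` is the first factor
    have hcK : Nat.card K = N := by
      rw [hK]
      rw [AddSubgroup.card_top, Nat.card_zmod]
    have hS1 : (S1 N D : Set (Gp N)) ⊆
        ((S0 N ∪ S1 N D : Finset (Gp N)) : Set (Gp N)) \ (H : Set (Gp N)) := by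
      intro g hg
      refine ⟨?_, ?_⟩
      · rw [Finset.coe_union]; exact Or.inr hg
      · intro hgH
        have h2 := snd_zero N H hHfin g hgH
        simp only [S1, Finset.coe_image, Set.mem_image] at hg
        obtain ⟨i, _, rfl⟩ := hg
        change (1 : ℤ) = 0 at h2
        omega
    have hcS1 : (S1 N D).card = D := by
      unfold S1
      rw [Finset.card_image_of_injOn, Finset.card_range]
      intro a ha b hb hab
      have h3 : (((a : ℕ) : ZMod N), (1 : ℤ)) = (((b : ℕ) : ZMod N), 1) :=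
        Multiplicative.ofAdd.injective hab
      have h4 := (Prod.ext_iff.mp h3).1
      simp only at h4
      rw [ZMod.natCast_eq_natCast_iff'] at h4
      have ha' : a < D := by simpa using ha
      have hb' : b < D := by simpa using hb
      rwa [Nat.mod_eq_of_lt (by omega), Nat.mod_eq_of_lt (by omega)] at h4
    have hlow : (D : ℝ) ≤ ((Set.ncard (((S0 N ∪ S1 N D : Finset (Gp N)) : Set (Gp N)) \
        (H : Set (Gp N))) : ℕ) : ℝ) := by
      have := Set.ncard_le_ncard hS1 (hSfin.subset Set.sdiff_subset)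
      rw [Set.ncard_coe_finset, hcS1] at this
      exact_mod_cast this
    rw [hcardHK, hcK] at hH
    have hD1 : (0 : ℝ) < D := by exact_mod_cast hD0
    have h5 : (D : ℝ) ^ 2 ≤ ((Set.ncard (((S0 N ∪ S1 N D : Finset (Gp N)) : Set (Gp N)) \
        (H : Set (Gp N))) : ℕ) : ℝ) ^ 2 := by
      apply pow_le_pow_left₀ hD1.le hlow
    have h6 : (N : ℝ) + c * N * (D : ℝ) ^ 2 ≤ N * (D + 1) := by
      have h7 : c * (N : ℝ) * (D : ℝ) ^ 2 ≤ c * N * ((Set.ncard (((S0 N ∪ S1 N D :
        Finset (Gp N)) : Set (Gp N)) \ (H : Set (Gp N))) : ℕ) : ℝ) ^ 2 := by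
        apply mul_le_mul_of_nonneg_left h5
        positivity
      linarith
    have h8 : (N : ℝ) * D * 1 < N * D * (c * D) := by
      apply mul_lt_mul_of_pos_left hcD
      positivity
    nlinarith
  · -- `H` has at most `N / 2` elements
    have hcK : 2 * Nat.card K ≤ N := by
      obtain ⟨q, hq⟩ := hKdvd
      have hq1 : q ≠ 1 := by
        rintro rfl
        apply hK
        apply AddSubgroup.eq_top_of_card_eq
        rw [Nat.card_zmod]
        rw [mul_one] at hq
        exact hq.symm
      have hq0 : q ≠ 0 := by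
        rintro rfl
        rw [mul_zero] at hq
        omega
      have hq2 : 2 ≤ q := by omega
      calc 2 * Nat.card K ≤ q * Nat.card K := Nat.mul_le_mul_right _ hq2
        _ = Nat.card K * q := mul_comm _ _
        _ = N := hq.symm
    have hsub : ι '' ((Set.univ : Set (ZMod N)) \ (K : Set (ZMod N))) ⊆
        ((S0 N ∪ S1 N D : Finset (Gp N)) : Set (Gp N)) \ (H : Set (Gp N)) := by
      rintro _ ⟨x, ⟨_, hx⟩, rfl⟩
      refine ⟨?_, ?_⟩
      · rw [Finset.coe_union]
        left
        simp [S0, hι]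
      · intro h
        exact hx ((hKmem x).mpr h)
    have hlow : N ≤ 2 * Set.ncard (((S0 N ∪ S1 N D : Finset (Gp N)) : Set (Gp N)) \
        (H : Set (Gp N))) := by
      have h1 := Set.ncard_le_ncard hsub (hSfin.subset Set.sdiff_subset)
      rw [Set.ncard_image_of_injective _ hιinj] at h1
      have h2 : (Set.univ \ (K : Set (ZMod N))).ncard + (K : Set (ZMod N)).ncard = N := by
        have := Set.ncard_sdiff_add_ncard_of_subset (Set.subset_univ (K : Set (ZMod N)))
          (Set.toFinite _)
        rw [this, Set.ncard_univ, Nat.card_zmod]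
      have h3 : (K : Set (ZMod N)).ncard = Nat.card K := rfl
      omega
    have hlow' : (N : ℝ) / 2 ≤ ((Set.ncard (((S0 N ∪ S1 N D : Finset (Gp N)) : Set (Gp N)) \
        (H : Set (Gp N))) : ℕ) : ℝ) := by
      have : (N : ℝ) ≤ 2 * ((Set.ncard (((S0 N ∪ S1 N D : Finset (Gp N)) : Set (Gp N)) \
        (H : Set (Gp N))) : ℕ) : ℝ) := by exact_mod_cast hlow
      linarith
    have hK1 : (1 : ℝ) ≤ Nat.card H := by
      rw [hcardHK]
      have : 0 < Nat.card K := Nat.card_pos
      exact_mod_cast this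
    have h5 : ((N : ℝ) / 2) ^ 2 ≤ ((Set.ncard (((S0 N ∪ S1 N D : Finset (Gp N)) : Set (Gp N)) \
        (H : Set (Gp N))) : ℕ) : ℝ) ^ 2 := pow_le_pow_left₀ (by positivity) hlow' 2
    have h6 : c * 1 * ((N : ℝ) / 2) ^ 2 ≤ c * Nat.card H * ((Set.ncard (((S0 N ∪ S1 N D :
        Finset (Gp N)) : Set (Gp N)) \ (H : Set (Gp N))) : ℕ) : ℝ) ^ 2 := by
      apply mul_le_mul _ h5 (by positivity) (by positivity)
      exact mul_le_mul_of_nonneg_left hK1 hc.le
    have h7 : (1 : ℝ) + c * 1 * ((N : ℝ) / 2) ^ 2 ≤ N * (D + 1) := by linarith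
    have h8 : (N : ℝ) * (4 * ((D : ℝ) + 1)) < N * (c * N) := mul_lt_mul_of_pos_left hNc hN0
    nlinarith

end Pool.Agent.S08598
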