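import Pool.Statements.S08686
-- import your own Pool.Agent.* helpers here

set_option autoImplicit false
open Pool Pool.MP_4e7ec3_co

namespace Pool.Agent.S08686

/-- the map on the indices: every block of four consecutive points is mapped to its two middle
points, and the two middle points are interchanged -/
def tau (j : ℕ) : ℕ := 4 * (j / 4) + (if j % 4 = 0 then 1 else if j % 4 = 1 then 2
  else if j % 4 = 2 then 1 else 2)

/-- the sixteen points `j / 15` -/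
noncomputable def FF : Finset ℝ := (Finset.range 16).image (fun j : ℕ => (j : ℝ) / 15)

/-- the displacing map -/
noncomputable def TT (x : ℝ) : ℝ := (tau ⌊15 * x⌋₊ : ℕ) / 15

theorem mem_FF (x : ℝ) : x ∈ FF ↔ ∃ j : ℕ, j < 16 ∧ x = j / 15 := by
  unfold FF
  rw [Finset.mem_image]
  constructor
  · rintro ⟨j, hj, rfl⟩
    exact ⟨j, Finset.mem_range.mp hj, rfl⟩
  · rintro ⟨j, hj, rfl⟩
    exact ⟨j, Finset.mem_range.mpr hj, rfl⟩

theorem TT_apply (j : ℕ) : TT ((j : ℝ) / 15) = (tau j : ℕ) / 15 := by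
  unfold TT
  rw [mul_div_cancel₀ (j : ℝ) (by norm_num : (15 : ℝ) ≠ 0), Nat.floor_natCast]

theorem tau_spec (j : ℕ) (hj : j < 16) : tau j < 16 ∧ tau j ≠ j ∧ 1 ≤ tau j ∧ tau j + 1 < 16 ∧
    (tau j - 1) / 4 = j / 4 ∧ tau j / 4 = j / 4 ∧ (tau j + 1) / 4 = j / 4 := by
  unfold tau
  split_ifs <;> omega

theorem div_lt_iff' (a b : ℕ) : (a : ℝ) / 15 < (b : ℝ) / 15 ↔ a < b := by
  rw [div_lt_div_iff_of_pos_right (by norm_num : (0 : ℝ) < 15)]
  exact Nat.cast_lt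

theorem div_le_iff' (a b : ℕ) : (a : ℝ) / 15 ≤ (b : ℝ) / 15 ↔ a ≤ b := by
  rw [div_le_div_iff_of_pos_right (by norm_num : (0 : ℝ) < 15)]
  exact Nat.cast_le

/-- The negation of the preceding statement: There is a constant k such that for every finite F in [0,1] containing 0 and 1, every ε>0, and every T:F→F moving each point by more than ε, some p₀ in F reaches a point at distance at least 1/3 in at most k/ε steps, each step going to T(p) or a neighbour of T(p) in F. -/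
theorem result :
    ¬ (∃ k : ℝ, ∀ (F : Finset ℝ) (ε : ℝ) (T : ℝ → ℝ),
      (∀ p ∈ F, 0 ≤ p ∧ p ≤ 1) → (0 : ℝ) ∈ F → (1 : ℝ) ∈ F → 0 < ε →
      (∀ p ∈ F, T p ∈ F ∧ ε < |p - T p|) →
      ∃ p₀ ∈ F, ∃ n : ℕ, (n : ℝ) ≤ k / ε ∧
        ∃ x : ℕ → ℝ, x 0 = p₀ ∧
          (∀ i < n,
            x (i + 1) = T (x i) ∨
            (x (i + 1) ∈ F ∧ x (i + 1) < T (x i) ∧
              ∀ r ∈ F, r < T (x i) → r ≤ x (i + 1)) ∨
            (x (i + 1) ∈ F ∧ T (x i) < x (i + 1) ∧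
              ∀ r ∈ F, T (x i) < r → x (i + 1) ≤ r)) ∧
          1 / 3 ≤ |x n - p₀|) := by
  rintro ⟨k, hk⟩
  have g1 : ∀ p ∈ FF, 0 ≤ p ∧ p ≤ 1 := by
    intro p hp
    obtain ⟨j, hj, rfl⟩ := (mem_FF p).mp hp
    have h1 : (j : ℝ) ≤ 15 := by
      have : j ≤ 15 := by omega
      exact_mod_cast this
    have h0 : (0 : ℝ) ≤ j := Nat.cast_nonneg j
    constructor
    · positivity
    · linarith
  have g2 : (0 : ℝ) ∈ FF := (mem_FF 0).mpr ⟨0, by norm_num, by norm_num⟩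
  have g3 : (1 : ℝ) ∈ FF := (mem_FF 1).mpr ⟨15, by norm_num, by norm_num⟩
  have g4 : ∀ p ∈ FF, TT p ∈ FF ∧ (1 / 20 : ℝ) < |p - TT p| := by
    intro p hp
    obtain ⟨j, hj, rfl⟩ := (mem_FF p).mp hp
    obtain ⟨t1, t2, -⟩ := tau_spec j hj
    rw [TT_apply]
    refine ⟨(mem_FF _).mpr ⟨tau j, t1, rfl⟩, ?_⟩
    rcases lt_or_gt_of_ne t2 with h | h
    · have h' : ((tau j : ℕ) : ℝ) + 1 ≤ j := by exact_mod_cast h
      rw [lt_abs]
      left
      linarith
    · have h' : (j : ℝ) + 1 ≤ (tau j : ℕ) := by exact_mod_cast h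
      rw [lt_abs]
      right
      linarith
  obtain ⟨p₀, hp₀, n, -, x, hx0, hstep, hfar⟩ := hk FF (1 / 20) TT g1 g2 g3 (by norm_num) g4
  obtain ⟨j₀, hj₀, rfl⟩ := (mem_FF p₀).mp hp₀
  have key : ∀ i, i ≤ n → ∃ l : ℕ, l < 16 ∧ x i = (l : ℝ) / 15 ∧ l / 4 = j₀ / 4 := by
    intro i
    induction i with
    | zero => intro _; exact ⟨j₀, hj₀, hx0, rfl⟩
    | succ i ih =>
      intro hi
      obtain ⟨j, hj, hxj, hjj⟩ := ih (by omega)
      obtain ⟨t1, t2, t3, t4, t5, t6, t7⟩ := tau_spec j hj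
      have hT : TT (x i) = (tau j : ℕ) / 15 := by rw [hxj, TT_apply]
      rcases hstep i (by omega) with h | ⟨hF, hlt, hmax⟩ | ⟨hF, hlt, hmin⟩
      · exact ⟨tau j, t1, by rw [h, hT], by omega⟩
      · obtain ⟨l, hl, hxl⟩ := (mem_FF _).mp hF
        rw [hxl, hT, div_lt_iff'] at hlt
        have h1 := hmax (((tau j - 1 : ℕ) : ℝ) / 15) ((mem_FF _).mpr ⟨_, by omega, rfl⟩)
          (by rw [hT, div_lt_iff']; omega)
        rw [hxl, div_le_iff'] at h1
        have : l = tau j - 1 := by omega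
        exact ⟨l, hl, hxl, by rw [this, t5, hjj]⟩
      · obtain ⟨l, hl, hxl⟩ := (mem_FF _).mp hF
        rw [hxl, hT, div_lt_iff'] at hlt
        have h1 := hmin (((tau j + 1 : ℕ) : ℝ) / 15) ((mem_FF _).mpr ⟨_, by omega, rfl⟩)
          (by rw [hT, div_lt_iff']; omega)
        rw [hxl, div_le_iff'] at h1
        have : l = tau j + 1 := by omega
        exact ⟨l, hl, hxl, by rw [this, t7, hjj]⟩
  obtain ⟨l, hl, hxl, hll⟩ := key n le_rfl
  rw [hxl] at hfar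
  have h1 : (l : ℝ) ≤ j₀ + 3 := by
    have : l ≤ j₀ + 3 := by omega
    exact_mod_cast this
  have h2 : (j₀ : ℝ) ≤ l + 3 := by
    have : j₀ ≤ l + 3 := by omega
    exact_mod_cast this
  have h3 : |(l : ℝ) / 15 - (j₀ : ℝ) / 15| ≤ 1 / 5 := by
    rw [abs_le]
    constructor <;> linarith
  linarith

end Pool.Agent.S08686
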