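import Pool.Statements.S08706
import Pool.Agent.R50.Burling

/-!
Burling graphs (triangle-free, of unbounded chromatic number) have the property that every induced
subgraph is `3`-colourable or has a star cutset.
-/

set_option autoImplicit false
open Pool Pool.MP_4f8534_co

namespace Pool.Agent.S08706

open Pool.Agent.R50.Burling

/-- The negation of the preceding statement: There is a constant c such that every finite triangle-free graph, each of whose induced subgraphs is 3-colorable or has a star cutset (a star whose removal leaves two mutually unreachable vertices), is c-colorable. -/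
theorem result :
    ¬ (∃ c : ℕ, ∀ (V : Type) [Fintype V] (G : SimpleGraph V),
      G.CliqueFree 3 →
      (∀ T : Set V, (G.induce T).Colorable 3 ∨
        ∃ S : Set V, S ⊆ T ∧ (∃ v ∈ S, ∀ w ∈ S, w ≠ v → G.Adj v w) ∧
          ∃ a b : ↥(T \ S), ¬ (G.induce (T \ S)).Reachable a b) →
      G.Colorable c) := by
  rintro ⟨c, hc⟩
  obtain ⟨V, hV, D, A, ρ, leaf, h, hrich⟩ := exists_rich (c + 1)
  obtain ⟨C⟩ := hc V (graph h) (triangleFree h) (cutset h)
  obtain ⟨x, -, t, ht, hbr⟩ := hrich (fun v => (C v : ℕ)) (fun v w hvw h1 =>
    C.valid (show (graph h).Adj v w from Or.inl hvw) (Fin.ext h1))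
  have h1 : t ⊆ Finset.range c := by
    intro i hi
    obtain ⟨v, -, hv⟩ := hbr i hi
    rw [Finset.mem_range, ← hv]
    exact (C v).2
  have h2 := Finset.card_le_card h1
  rw [ht, Finset.card_range] at h2
  omega

end Pool.Agent.S08706
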