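import Pool.Statements.S08782
import Pool.Agent.R133.Snp.Fin

set_option autoImplicit false
open Pool Pool.MP_5400b1_co

namespace Pool.Agent.S08782

/-- The negation of the preceding statement: For every finite graph G: if, for each k, its chromatic polynomial in k variables is a nonnegative integer combination of Schur polynomials, then for each k every lattice point in its Newton polytope is an exponent of that polynomial. -/
theorem result :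
    ¬ (∀ (V : Type) [Fintype V] (G : SimpleGraph V),
      (∀ k : ℕ, ∃ c : YoungDiagram →₀ ℕ,
        (∑ᶠ κ : {κ : V → Fin k // ∀ u v, G.Adj u v → κ u ≠ κ v},
            ∏ v, (MvPolynomial.X ((κ.1 v : ℕ)) : MvPolynomial ℕ ℤ)) =
          c.sum (fun μ a => a • ∑ᶠ T : {T : SemistandardYoungTableau μ //
              ∀ p ∈ μ.cells, T p.1 p.2 < k},
            ∏ p ∈ μ.cells, (MvPolynomial.X (T.1 p.1 p.2) : MvPolynomial ℕ ℤ))) →
      ∀ k : ℕ, ∀ α : ℕ →₀ ℕ,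
        (fun i : ℕ => (α i : ℝ)) ∈ convexHull ℝ
          ((fun β : ℕ →₀ ℕ => (fun i : ℕ => (β i : ℝ))) ''
            ((∑ᶠ κ : {κ : V → Fin k // ∀ u v, G.Adj u v → κ u ≠ κ v},
              ∏ v, (MvPolynomial.X ((κ.1 v : ℕ)) : MvPolynomial ℕ ℤ)).support : Set (ℕ →₀ ℕ))) →
        α ∈ (∑ᶠ κ : {κ : V → Fin k // ∀ u v, G.Adj u v → κ u ≠ κ v},
              ∏ v, (MvPolynomial.X ((κ.1 v : ℕ)) : MvPolynomial ℕ ℤ)).support) := by
  intro H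
  have h := H (Fin 13) Pool.Agent.R133.Snp.G (fun k =>
    ⟨Pool.Agent.R133.Snp.toC (Pool.Agent.R133.Snp.F 4 2 2 5),
      (Pool.Agent.R133.Snp.finsum_eq_PC (fun u v => Pool.Agent.R133.Snp.adj4
        (Pool.Agent.R133.Snp.cl u) (Pool.Agent.R133.Snp.cl v)) k).trans
        (Pool.Agent.R133.Snp.PC_univ k)⟩) 3
    Pool.Agent.R133.Snp.al
  refine Pool.Agent.R133.Snp.al_notMem ?_
  have e := Pool.Agent.R133.Snp.finsum_eq_PC
    (fun u v => Pool.Agent.R133.Snp.adj4 (Pool.Agent.R133.Snp.cl u) (Pool.Agent.R133.Snp.cl v)) 3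
  rw [← e]
  refine h ?_
  have hc := convex_convexHull ℝ ((fun β : ℕ →₀ ℕ => (fun i : ℕ => (β i : ℝ))) ''
    ((∑ᶠ κ : {κ : Fin 13 → Fin 3 // ∀ u v, Pool.Agent.R133.Snp.G.Adj u v → κ u ≠ κ v},
      ∏ v, (MvPolynomial.X ((κ.1 v : ℕ)) : MvPolynomial ℕ ℤ)).support : Set (ℕ →₀ ℕ)))
  have e' : (∑ᶠ κ : {κ : Fin 13 → Fin 3 // ∀ u v, Pool.Agent.R133.Snp.G.Adj u v → κ u ≠ κ v},
      ∏ v, (MvPolynomial.X ((κ.1 v : ℕ)) : MvPolynomial ℕ ℤ)) =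
      Pool.Agent.R133.Snp.PC (fun u v => Pool.Agent.R133.Snp.adj4
        (Pool.Agent.R133.Snp.cl u) (Pool.Agent.R133.Snp.cl v)) Finset.univ 3 := e
  have m1 : (fun i : ℕ => (Pool.Agent.R133.Snp.con Pool.Agent.R133.Snp.f1 i : ℝ)) ∈
      convexHull ℝ ((fun β : ℕ →₀ ℕ => (fun i : ℕ => (β i : ℝ))) ''
    ((∑ᶠ κ : {κ : Fin 13 → Fin 3 // ∀ u v, Pool.Agent.R133.Snp.G.Adj u v → κ u ≠ κ v},
      ∏ v, (MvPolynomial.X ((κ.1 v : ℕ)) : MvPolynomial ℕ ℤ)).support : Set (ℕ →₀ ℕ))) := by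
    apply subset_convexHull
    refine ⟨_, ?_, rfl⟩
    rw [e', Finset.mem_coe, Pool.Agent.R133.Snp.mem_support_PC]
    exact ⟨_, Pool.Agent.R133.Snp.f1_mem, rfl⟩
  have m2 : (fun i : ℕ => (Pool.Agent.R133.Snp.con Pool.Agent.R133.Snp.f2 i : ℝ)) ∈
      convexHull ℝ ((fun β : ℕ →₀ ℕ => (fun i : ℕ => (β i : ℝ))) ''
    ((∑ᶠ κ : {κ : Fin 13 → Fin 3 // ∀ u v, Pool.Agent.R133.Snp.G.Adj u v → κ u ≠ κ v},
      ∏ v, (MvPolynomial.X ((κ.1 v : ℕ)) : MvPolynomial ℕ ℤ)).support : Set (ℕ →₀ ℕ))) := by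
    apply subset_convexHull
    refine ⟨_, ?_, rfl⟩
    rw [e', Finset.mem_coe, Pool.Agent.R133.Snp.mem_support_PC]
    exact ⟨_, Pool.Agent.R133.Snp.f2_mem, rfl⟩
  have h3 := hc m1 m2 (by norm_num : (0:ℝ) ≤ 1 / 2) (by norm_num : (0:ℝ) ≤ 1 / 2) (by norm_num)
  have h4 : (fun i : ℕ => (Pool.Agent.R133.Snp.al i : ℝ)) =
      (1 / 2 : ℝ) • (fun i : ℕ => (Pool.Agent.R133.Snp.con Pool.Agent.R133.Snp.f1 i : ℝ)) +
      (1 / 2 : ℝ) • (fun i : ℕ => (Pool.Agent.R133.Snp.con Pool.Agent.R133.Snp.f2 i : ℝ)) := by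
    funext i
    exact Pool.Agent.R133.Snp.mid i
  rw [h4]
  exact h3

end Pool.Agent.S08782
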