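import Pool.Statements.S08825
import Pool.Agent.R35.PathPair
import Pool.Agent.Helper805.CHS.Density

set_option autoImplicit false
open Pool Pool.MP_5651c1_co

namespace Pool.Agent.S08825

open Finset Pool.Agent.Helper805.CHS

/-- the degree sum of a graph without a large complete minor -/
lemma sum_deg {V : Type} [Fintype V] (G : SimpleGraph V) [DecidableRel G.Adj] (t : ℕ)
    (h : ¬ ∃ f : Fin (t + 2) → Set V,
            (∀ i, (G.induce (f i)).Connected) ∧
            (∀ i j, i ≠ j → Disjoint (f i) (f j)) ∧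
            (∀ i j, i ≠ j → ∃ u ∈ f i, ∃ v ∈ f j, G.Adj u v)) :
    ∑ v : V, G.degree v ≤ 2 * 2 ^ t * Fintype.card V := by
  classical
  set P : Finset (Set V) := univ.image (fun v : V => ({v} : Set V)) with hP
  have hinj : Function.Injective (fun v : V => ({v} : Set V)) := Set.singleton_injective
  have hPc : P.card = Fintype.card V := by
    rw [hP, Finset.card_image_of_injective _ hinj, Finset.card_univ]
  have hF : Fam G P := by
    constructor
    · intro A hA
      rw [hP, mem_image] at hA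
      obtain ⟨v, -, rfl⟩ := hA
      exact Pool.Agent.R35.Cong.single_conn v
    · intro A hA B hB hAB
      rw [hP, mem_image] at hA hB
      obtain ⟨v, -, rfl⟩ := hA
      obtain ⟨u, -, rfl⟩ := hB
      rw [Set.disjoint_singleton]
      rintro rfl
      exact hAB rfl
  have h1 : ¬ (2 * (2 ^ t - 1) * P.card < (prs G P).card) := by
    intro hlt
    obtain ⟨f, h1, h2, h3, -⟩ := mader G t P hF hlt
    exact h ⟨f, h1, h2, h3⟩
  have h2 : ∑ v : V, G.degree v ≤ (prs G P).card := by
    have e1 : ∑ v : V, G.degree v =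
        ((univ : Finset V).sigma (fun v => G.neighborFinset v)).card := by
      rw [Finset.card_sigma]
      rfl
    rw [e1]
    apply Finset.card_le_card_of_injOn (fun x => (({x.1} : Set V), ({x.2} : Set V)))
    · rintro ⟨a, b⟩ hx
      rw [Finset.mem_coe, mem_sigma, SimpleGraph.mem_neighborFinset] at hx
      rw [Finset.mem_coe, mem_prs]
      refine ⟨mem_image_of_mem _ (mem_univ _), mem_image_of_mem _ (mem_univ _), ?_,
        a, rfl, b, rfl, hx.2⟩
      intro e
      exact hx.2.ne (hinj e)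
    · rintro ⟨a, b⟩ _ ⟨a', b'⟩ _ he
      simp only [Prod.mk.injEq, Set.singleton_eq_singleton_iff] at he
      obtain ⟨rfl, rfl⟩ := he
      rfl
  have h3 : 2 * (2 ^ t - 1) * P.card ≤ 2 * 2 ^ t * Fintype.card V := by
    rw [hPc]
    exact Nat.mul_le_mul_right _ (Nat.mul_le_mul_left _ (Nat.sub_le _ _))
  omega

/-- For every t there is c>0 such that every finite path-pairable graph on n≥2 vertices with no K_t minor has a vertex of degree at least c·n. -/
theorem result :
    ∀ t : ℕ, ∃ c : ℝ, 0 < c ∧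
      ∀ (V : Type) [Fintype V] (G : SimpleGraph V) [DecidableRel G.Adj],
        2 ≤ Fintype.card V →
        (∀ (k : ℕ) (s r : Fin k → V), Function.Injective (Sum.elim s r) →
          ∃ p : (i : Fin k) → G.Walk (s i) (r i),
            (∀ i, (p i).IsPath) ∧
            ∀ i j, i ≠ j → ∀ e ∈ (p i).edges, e ∉ (p j).edges) →
        (¬ ∃ f : Fin t → Set V,
            (∀ i, (G.induce (f i)).Connected) ∧
            (∀ i j, i ≠ j → Disjoint (f i) (f j)) ∧
            (∀ i j, i ≠ j → ∃ u ∈ f i, ∃ v ∈ f j, G.Adj u v)) →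
        ∃ v : V, c * (Fintype.card V : ℝ) ≤ (G.degree v : ℝ) := by
  intro t
  set K : ℝ := 18 * 2 ^ t * ((t + 2 : ℕ) * (t + 2 : ℕ) : ℝ) ^ 4 with hK
  have hKpos : 0 < K := by
    rw [hK]
    positivity
  refine ⟨1 / (2 * K), by positivity, ?_⟩
  intro V _ G _ hn hpp hno
  classical
  by_contra hcon
  push Not at hcon
  have hno' : ¬ ∃ f : Fin (t + 2) → Set V,
            (∀ i, (G.induce (f i)).Connected) ∧
            (∀ i j, i ≠ j → Disjoint (f i) (f j)) ∧
            (∀ i j, i ≠ j → ∃ u ∈ f i, ∃ v ∈ f j, G.Adj u v) := by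
    rintro ⟨f, h1, h2, h3⟩
    apply hno
    refine ⟨fun i => f (Fin.castAdd 2 i), fun i => h1 _, fun i j hij => h2 _ _ ?_,
      fun i j hij => h3 _ _ ?_⟩
    · intro e; exact hij (Fin.castAdd_injective _ _ e)
    · intro e; exact hij (Fin.castAdd_injective _ _ e)
  have hsum := sum_deg G t hno'
  obtain ⟨w, hw⟩ := Pool.Agent.R35.PathPair.exists_system (G := G) hpp hn
  set n : ℕ := Fintype.card V with hnn
  have hnpos : (0 : ℝ) < n := by
    have : 0 < n := by omega
    exact_mod_cast this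
  have key : (Fintype.card (Fin (t + 2) × Fin (t + 2))) ^ 4 *
      (∑ v : V, (univ.filter (fun p : V × V => v ∈ (w p.1 p.2).support.toFinset)).card ^ 2) <
        n ^ 4 := by
    rw [Fintype.card_prod, Fintype.card_fin]
    have h1 : (∑ v : V, (univ.filter (fun p : V × V =>
        v ∈ (w p.1 p.2).support.toFinset)).card ^ 2) ≤ ∑ v : V, (3 * n * G.degree v) ^ 2 :=
      Finset.sum_le_sum (fun v _ => Nat.pow_le_pow_left (hw v) 2)
    have h2 : ((∑ v : V, (3 * n * G.degree v) ^ 2 : ℕ) : ℝ) ≤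
        9 * (n : ℝ) ^ 2 * (1 / (2 * K) * n * (2 * 2 ^ t * n)) := by
      push_cast
      have e1 : ∀ v : V, (3 * (n : ℝ) * (G.degree v : ℝ)) ^ 2 ≤
          9 * (n : ℝ) ^ 2 * (1 / (2 * K) * n) * (G.degree v : ℝ) := by
        intro v
        have h3 := (hcon v).le
        have h4 : (0 : ℝ) ≤ G.degree v := Nat.cast_nonneg _
        have h5 : (G.degree v : ℝ) * G.degree v ≤ (1 / (2 * K) * n) * G.degree v :=
          mul_le_mul_of_nonneg_right h3 h4
        have h6 : (0 : ℝ) ≤ 9 * (n : ℝ) ^ 2 := by positivity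
        calc (3 * (n : ℝ) * (G.degree v : ℝ)) ^ 2
            = 9 * (n : ℝ) ^ 2 * ((G.degree v : ℝ) * G.degree v) := by ring
          _ ≤ 9 * (n : ℝ) ^ 2 * ((1 / (2 * K) * n) * G.degree v) :=
              mul_le_mul_of_nonneg_left h5 h6
          _ = _ := by ring
      refine (Finset.sum_le_sum (fun v _ => e1 v)).trans ?_
      rw [← Finset.mul_sum]
      have e2 : (∑ v : V, (G.degree v : ℝ)) ≤ 2 * 2 ^ t * n := by
        exact_mod_cast hsum
      have e3 : (0 : ℝ) ≤ 9 * (n : ℝ) ^ 2 * (1 / (2 * K) * n) := by positivity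
      calc 9 * (n : ℝ) ^ 2 * (1 / (2 * K) * n) * ∑ v : V, (G.degree v : ℝ)
          ≤ 9 * (n : ℝ) ^ 2 * (1 / (2 * K) * n) * (2 * 2 ^ t * n) :=
            mul_le_mul_of_nonneg_left e2 e3
        _ = _ := by ring
    have h3 : (((t + 2) * (t + 2)) ^ 4 * (∑ v : V, (univ.filter (fun p : V × V =>
        v ∈ (w p.1 p.2).support.toFinset)).card ^ 2 : ℕ) : ℝ) < (n : ℝ) ^ 4 := by
      have h1' : ((∑ v : V, (univ.filter (fun p : V × V =>
        v ∈ (w p.1 p.2).support.toFinset)).card ^ 2 : ℕ) : ℝ) ≤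
          9 * (n : ℝ) ^ 2 * (1 / (2 * K) * n * (2 * 2 ^ t * n)) :=
        le_trans (by exact_mod_cast h1) h2
      have h4 : (0 : ℝ) ≤ (((t : ℝ) + 2) * ((t : ℝ) + 2)) ^ 4 := by positivity
      have h5 := mul_le_mul_of_nonneg_left h1' h4
      refine lt_of_le_of_lt h5 ?_
      have h6 : (((t : ℝ) + 2) * ((t : ℝ) + 2)) ^ 4 *
          (9 * (n : ℝ) ^ 2 * (1 / (2 * K) * n * (2 * 2 ^ t * n))) =
          (K / (2 * K)) * (n : ℝ) ^ 4 := by
        rw [hK]
        push_cast
        ring
      rw [h6]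
      have h7 : K / (2 * K) = 1 / 2 := by
        field_simp
      rw [h7]
      have h8 : (0 : ℝ) < (n : ℝ) ^ 4 := by positivity
      linarith
    exact_mod_cast h3
  haveI : Nonempty V := Fintype.card_pos_iff.1 (by omega)
  obtain ⟨φ, hφ⟩ := Pool.Agent.R35.Cong.placement (W := Fin (t + 2) × Fin (t + 2))
    (fun x y => (w x y).support.toFinset) key
  exact hno' (Pool.Agent.R35.Cong.minor_of_placement (by omega)
    (fun x y => (w x y).support.toFinset) w (fun x y z => List.mem_toFinset) φ hφ)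

end Pool.Agent.S08825
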