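import Pool.Statements.S08905
import Pool.Agent.R27.GraphRep
import Pool.Agent.Results.MP_b00834_co.NoSevenDoubleCover

set_option autoImplicit false
open Pool Pool.MP_596978_co

namespace Pool.Agent.S08905

open Pool.Agent.R27.GraphRep Pool.Agent.Helper998.VecMatroid

section aux

variable {n m : ℕ} (ends : Fin m → Sym2 (Fin n)) (a b : Fin m → Fin n)

/-- value of a functional on an incidence vector over `ZMod 2` -/
lemma dual_val (f : Module.Dual (ZMod 2) (Fin n → ZMod 2)) (e : Fin m) :
    f (inc (ZMod 2) a b e) ≠ 0 ↔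
      (f (Pi.single (a e) 1) ≠ 0 ∧ f (Pi.single (b e) 1) = 0) ∨
      (f (Pi.single (a e) 1) = 0 ∧ f (Pi.single (b e) 1) ≠ 0) := by
  unfold inc
  rw [map_sub]
  generalize f (Pi.single (a e) 1) = x
  generalize f (Pi.single (b e) 1) = y
  revert x y
  decide

lemma isCut_iff (hab : ∀ e, ends e = s(a e, b e)) (D : Finset (Fin m)) :
    (∃ S : Finset (Fin n), ∀ e : Fin m, e ∈ D ↔ ∃ a ∈ S, ∃ b ∉ S, ends e = s(a, b)) ↔
      ∃ f : Module.Dual (ZMod 2) (Fin n → ZMod 2),
        {i | f (inc (ZMod 2) a b i) ≠ 0} = (D : Set (Fin m)) := by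
  classical
  have key : ∀ (S : Finset (Fin n)) (e : Fin m), (∃ a ∈ S, ∃ b ∉ S, ends e = s(a, b)) ↔
      ((a e ∈ S ∧ b e ∉ S) ∨ (a e ∉ S ∧ b e ∈ S)) := by
    intro S e
    constructor
    · rintro ⟨x, hx, y, hy, h⟩
      rw [hab e, Sym2.eq_iff] at h
      rcases h with ⟨h1, h2⟩ | ⟨h1, h2⟩
      · left; rw [h1, h2]; exact ⟨hx, hy⟩
      · right; rw [h1, h2]; exact ⟨hy, hx⟩
    · rintro (⟨h1, h2⟩ | ⟨h1, h2⟩)
      · exact ⟨a e, h1, b e, h2, hab e⟩
      · exact ⟨b e, h2, a e, h1, by rw [hab e, Sym2.eq_swap]⟩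
  constructor
  · rintro ⟨S, hS⟩
    let f : Module.Dual (ZMod 2) (Fin n → ZMod 2) := ∑ w ∈ S, LinearMap.proj w
    have hf : ∀ y : Fin n → ZMod 2, f y = ∑ w ∈ S, y w := by
      intro y; simp [f]
    have hs : ∀ w : Fin n, f (Pi.single w 1) = if w ∈ S then 1 else 0 := by
      intro w
      rw [hf]
      simp only [Pi.single_apply]
      rw [Finset.sum_ite_eq']
    refine ⟨f, ?_⟩
    ext e
    simp only [Set.mem_ofPred_eq, Finset.mem_coe]
    rw [dual_val, hS e, key S e, hs, hs]
    by_cases h1 : a e ∈ S <;> by_cases h2 : b e ∈ S <;> simp [h1, h2]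
  · rintro ⟨f, hf⟩
    refine ⟨Finset.univ.filter (fun v => f (Pi.single v 1) ≠ 0), fun e => ?_⟩
    rw [key, ← Finset.mem_coe, ← hf, Set.mem_ofPred_eq, dual_val]
    simp

lemma even_iff (hab : ∀ e, ends e = s(a e, b e)) (hl : ∀ e, a e ≠ b e) (C : Finset (Fin m)) :
    (∀ v : Fin n, Even (C.filter (fun e => v ∈ ends e)).card) ↔
      IsRel (F := ZMod 2) (inc (ZMod 2) a b) (fun e => if e ∈ C then 1 else 0) := by
  classical
  unfold IsRel
  rw [funext_iff]
  refine forall_congr' fun v => ?_
  rw [Finset.sum_apply, Pi.zero_apply, ← ZMod.natCast_eq_zero_iff_even, Finset.card_filter,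
    Nat.cast_sum]
  have h1 : ∀ e : Fin m, ((fun e => if e ∈ C then (1 : ZMod 2) else 0) e •
      inc (ZMod 2) a b e) v = if e ∈ C then (((if v ∈ ends e then 1 else 0 : ℕ)) : ZMod 2) else 0 := by
    intro e
    unfold inc
    have h2 : v ∈ ends e ↔ (v = a e ∨ v = b e) := by rw [hab e, Sym2.mem_iff]
    simp only [Pi.smul_apply, Pi.sub_apply, Pi.single_apply, smul_eq_mul, ite_mul, one_mul,
      zero_mul]
    by_cases he : e ∈ C
    · rw [if_pos he, if_pos he]
      by_cases h3 : v = a e
      · have h4 : v ≠ b e := by rw [h3]; exact hl e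
        rw [if_pos h3, if_neg h4, if_pos (h2.2 (Or.inl h3))]
        simp
      · by_cases h4 : v = b e
        · rw [if_neg h3, if_pos h4, if_pos (h2.2 (Or.inr h4))]
          decide
        · rw [if_neg h3, if_neg h4, if_neg (fun h => (h2.1 h).elim h3 h4)]
          simp
    · rw [if_neg he, if_neg he]
  rw [Finset.sum_congr rfl (fun e _ => h1 e), Finset.sum_ite_mem, Finset.univ_inter]

lemma ite_support (C : Finset (Fin m)) :
    Function.support (fun e => if e ∈ C then (1 : ZMod 2) else 0) = (C : Set (Fin m)) := by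
  classical
  ext e
  simp

lemma eq_ite (c : Fin m → ZMod 2) (C : Finset (Fin m)) (h : Function.support c = (C : Set (Fin m))) :
    c = fun e => if e ∈ C then (1 : ZMod 2) else 0 := by
  classical
  funext e
  have h1 : c e ≠ 0 ↔ e ∈ C := by
    rw [← Function.mem_support, h, Finset.mem_coe]
  by_cases he : e ∈ C
  · rw [if_pos he]
    have := h1.2 he
    revert this
    generalize c e = x
    revert x; decide
  · rw [if_neg he]
    by_contra hne
    exact he (h1.1 hne)

lemma circuit_iff (hab : ∀ e, ends e = s(a e, b e)) (hl : ∀ e, a e ≠ b e) (C : Finset (Fin m)) :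
    (C.Nonempty ∧ (∀ v : Fin n, Even (C.filter (fun e => v ∈ ends e)).card) ∧
          ∀ D ⊆ C, D.Nonempty → (∀ v : Fin n, Even (D.filter (fun e => v ∈ ends e)).card) →
            D = C) ↔ (vecMatroid (ZMod 2) (inc (ZMod 2) a b)).IsCircuit (C : Set (Fin m)) := by
  classical
  constructor
  · rintro ⟨h1, h2, h3⟩
    rw [even_iff ends a b hab hl] at h2
    rw [← ite_support C]
    refine isCircuit_of_minimal _ ?_ h2 ?_
    · intro h
      obtain ⟨e, he⟩ := h1
      have := congrFun h e
      simp [he] at this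
    · intro d hd hrel hsub
      rw [ite_support] at hsub ⊢
      have hfin : (Function.support d).Finite := Set.toFinite _
      have h4 : d = fun e => if e ∈ hfin.toFinset then (1 : ZMod 2) else 0 :=
        eq_ite d _ (by simp)
      have h5 : hfin.toFinset = C := by
        apply h3
        · intro e he
          exact hsub (by simpa using he)
        · rw [Set.Finite.toFinset_nonempty, Function.support_nonempty_iff]
          exact hd
        · rw [even_iff ends a b hab hl, ← h4]
          exact hrel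
      rw [← h5]
      simp
  · intro hC
    refine ⟨by simpa using hC.nonempty, ?_, ?_⟩
    · obtain ⟨c, hc, hrel, hs⟩ := exists_of_isCircuit _ hC
      rw [even_iff ends a b hab hl, ← eq_ite c C hs]
      exact hrel
    · intro D hDC hD hev
      rw [even_iff ends a b hab hl] at hev
      have hdep : (vecMatroid (ZMod 2) (inc (ZMod 2) a b)).Dep (D : Set (Fin m)) := by
        rw [dep_iff]
        refine ⟨_, ?_, hev, ?_⟩
        · intro h
          obtain ⟨e, he⟩ := hD
          have := congrFun h e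
          simp [he] at this
        · rw [ite_support]
      have := hC.eq_of_dep_subset hdep (by exact_mod_cast hDC)
      exact_mod_cast this

/-- the cographic matroid -/
noncomputable def cog : Matroid (Fin m) := (vecMatroid (ZMod 2) (inc (ZMod 2) a b))✶

lemma bond_iff (hab : ∀ e, ends e = s(a e, b e)) (isCut : Finset (Fin m) → Prop)
    (hcut : ∀ D, isCut D ↔
        ∃ S : Finset (Fin n), ∀ e : Fin m, e ∈ D ↔ ∃ a ∈ S, ∃ b ∉ S, ends e = s(a, b))
    (D : Finset (Fin m)) :
    (isCut D ∧ D.Nonempty ∧ ∀ D' ⊆ D, D'.Nonempty → isCut D' → D' = D) ↔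
      (cog a b).IsCircuit (D : Set (Fin m)) := by
  classical
  have hcut' : ∀ D, isCut D ↔ ∃ f : Module.Dual (ZMod 2) (Fin n → ZMod 2),
        {i | f (inc (ZMod 2) a b i) ≠ 0} = (D : Set (Fin m)) := by
    intro D
    rw [hcut, isCut_iff ends a b hab]
  change _ ↔ (vecMatroid (ZMod 2) (inc (ZMod 2) a b)).IsCocircuit (D : Set (Fin m))
  constructor
  · rintro ⟨h1, h2, h3⟩
    rw [hcut'] at h1
    obtain ⟨f, hf⟩ := h1
    rw [← hf]
    apply isCocircuit_of_minimal
    · obtain ⟨e, he⟩ := h2
      rw [← Finset.mem_coe, ← hf] at he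
      exact ⟨e, he⟩
    · intro g hg hsub i hi
      have hfin : {i | g (inc (ZMod 2) a b i) ≠ 0}.Finite := Set.toFinite _
      have h4 : hfin.toFinset = D := by
        apply h3
        · intro j hj
          rw [Set.Finite.mem_toFinset] at hj
          have := hsub j hj
          rw [← Finset.mem_coe, ← hf]
          exact this
        · rw [Set.Finite.toFinset_nonempty]
          exact hg
        · rw [hcut']
          exact ⟨g, by simp⟩
      have h5 : i ∈ D := by
        rw [← Finset.mem_coe, ← hf]; exact hi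
      rw [← h4, Set.Finite.mem_toFinset] at h5
      exact h5
  · intro hD
    obtain ⟨f, hf, hfD⟩ := exists_of_isCocircuit _ hD
    refine ⟨(hcut' D).2 ⟨f, hfD⟩, by simpa using hD.nonempty, ?_⟩
    intro D' hD'D hne hD'
    rw [hcut'] at hD'
    obtain ⟨g, hg⟩ := hD'
    rw [Matroid.isCocircuit_iff_minimal_compl_nonspanning] at hD
    have h1 : ¬ (vecMatroid (ZMod 2) (inc (ZMod 2) a b)).Spanning
        ((vecMatroid (ZMod 2) (inc (ZMod 2) a b)).E \ (D' : Set (Fin m))) := by
      rw [vecMatroid_E, ← Set.compl_eq_univ_sdiff, not_spanning_compl_iff]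
      refine ⟨g, ?_, hg.subset⟩
      obtain ⟨e, he⟩ := hne
      rw [← Finset.mem_coe, ← hg] at he
      exact ⟨e, he⟩
    have h2 := hD.eq_of_subset h1 (by exact_mod_cast hD'D)
    exact_mod_cast h2

/-- all values of `g` away from `v` agree, when `g` is constant along the edges off `v` -/
def Off (v : Fin n) : Prop := ∀ g : Fin n → ZMod 2,
  (∀ e, v ≠ a e → v ≠ b e → g (a e) = g (b e)) → ∀ u w, u ≠ v → w ≠ v → g u = g w

lemma star_circuit (hl : ∀ e, a e ≠ b e) (v : Fin n) (hoff : Off a b v)
    (hne : ∃ e, v = a e ∨ v = b e) :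
    (cog a b).IsCircuit {e | v = a e ∨ v = b e} := by
  classical
  change (vecMatroid (ZMod 2) (inc (ZMod 2) a b)).IsCocircuit _
  have hval : ∀ e, (LinearMap.proj v : Module.Dual (ZMod 2) (Fin n → ZMod 2))
      (inc (ZMod 2) a b e) ≠ 0 ↔ (v = a e ∨ v = b e) := by
    intro e
    rw [dual_val]
    simp only [LinearMap.proj_apply, Pi.single_apply]
    have := hl e
    by_cases h1 : v = a e
    · have h2 : v ≠ b e := by rw [h1]; exact this
      simp [h1, this]
    · by_cases h2 : v = b e
      · simp [h2, this.symm]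
      · simp [h1, h2]
  have h0 : {e | v = a e ∨ v = b e} = {e | (LinearMap.proj v :
      Module.Dual (ZMod 2) (Fin n → ZMod 2)) (inc (ZMod 2) a b e) ≠ 0} := by
    ext e
    exact (hval e).symm
  rw [h0]
  apply isCocircuit_of_minimal
  · obtain ⟨e, he⟩ := hne
    exact ⟨e, (hval e).2 he⟩
  · intro g hg hsub i hi
    rw [hval] at hi
    have hconst := hoff (fun u => g (Pi.single u 1)) (by
      intro e h1 h2
      have h3 : g (inc (ZMod 2) a b e) = 0 := by
        by_contra hcon
        exact ((hval e).1 (hsub e hcon)).elim h1 h2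
      unfold inc at h3
      rw [map_sub, sub_eq_zero] at h3
      exact h3)
    obtain ⟨j, hj⟩ := hg
    have hj' := (hval j).1 (hsub j hj)
    have hother : ∀ e, (v = a e ∨ v = b e) → ∃ u, u ≠ v ∧
        (g (inc (ZMod 2) a b e) ≠ 0 ↔ g (Pi.single v 1) ≠ g (Pi.single u 1)) := by
      intro e he
      have hle := hl e
      rcases he with he | he
      · refine ⟨b e, fun h => hle (by rw [← he, h]), ?_⟩
        unfold inc
        rw [map_sub, sub_ne_zero, he]
      · refine ⟨a e, fun h => hle (by rw [← he, h]), ?_⟩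
        unfold inc
        rw [map_sub, sub_ne_zero, he]
        exact ne_comm
    obtain ⟨u, hu, hgu⟩ := hother i hi
    obtain ⟨w, hw, hgw⟩ := hother j hj'
    rw [hgu]
    rw [hgw] at hj
    rw [hconst u w hu hw]
    exact hj

/-- the edges at `u` and those at `w` are in common circuits -/
def Pr (u w : Fin n) : Prop := ∀ e f, (u = a e ∨ u = b e) → (w = a f ∨ w = b f) →
  ∃ C : Set (Fin m), (cog a b).IsCircuit C ∧ e ∈ C ∧ f ∈ C

lemma Pr_refl (hl : ∀ e, a e ≠ b e) (hoff : ∀ v, Off a b v) (u : Fin n) : Pr a b u u :=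
  fun e _ he hf => ⟨_, star_circuit a b hl u (hoff u) ⟨e, he⟩, he, hf⟩

instance : (cog a b).Finite := ⟨Set.toFinite _⟩

lemma Pr_step (hl : ∀ e, a e ≠ b e) (hoff : ∀ v, Off a b v) (u v w : Fin n) (e0 : Fin m)
    (h1 : u = a e0 ∨ u = b e0) (h2 : v = a e0 ∨ v = b e0) (h : Pr a b v w) : Pr a b u w := by
  intro e f he hf
  obtain ⟨C, hC, h0C, hfC⟩ := h e0 f h2 hf
  exact H211.MC.circuit_trans (star_circuit a b hl u (hoff u) ⟨e, he⟩) hC he hfC ⟨e0, h1, h0C⟩

end aux

/-- Every 2-connected loopless multigraph whose largest bond has c edges has c cycles, repetitions allowed, such that every edge lies in at least two of them. -/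
theorem result :
  ∀ (n m : ℕ) (ends : Fin m → Sym2 (Fin n)),
    (∀ e, ¬ (ends e).IsDiag) →
    ((3 ≤ n ∧
      (SimpleGraph.fromRel (fun u v : Fin n => ∃ e : Fin m, ends e = s(u, v))).Connected ∧
      (∀ v : Fin n,
        ((SimpleGraph.fromRel (fun u w : Fin n => ∃ e : Fin m, ends e = s(u, w))).induce
          ({v}ᶜ : Set (Fin n))).Connected)) ∨
     (n = 2 ∧ 2 ≤ m)) →
    ∀ (isCycle isCut isBond : Finset (Fin m) → Prop),
      (∀ C, isCycle C ↔
        (C.Nonempty ∧ (∀ v : Fin n, Even (C.filter (fun e => v ∈ ends e)).card) ∧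
          ∀ D ⊆ C, D.Nonempty → (∀ v : Fin n, Even (D.filter (fun e => v ∈ ends e)).card) →
            D = C)) →
      (∀ D, isCut D ↔
        ∃ S : Finset (Fin n), ∀ e : Fin m, e ∈ D ↔ ∃ a ∈ S, ∃ b ∉ S, ends e = s(a, b)) →
      (∀ D, isBond D ↔
        (isCut D ∧ D.Nonempty ∧ ∀ D' ⊆ D, D'.Nonempty → isCut D' → D' = D)) →
      ∀ c : ℕ, (∃ B, isBond B ∧ B.card = c) → (∀ B, isBond B → B.card ≤ c) →
        ∃ F : Fin c → Finset (Fin m), (∀ i, isCycle (F i)) ∧
          ∀ e : Fin m, 2 ≤ (Finset.univ.filter (fun i => e ∈ F i)).card := by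
  intro n m ends hdiag hG isCycle isCut isBond hcyc hcut hbond c hex hmax
  classical
  have hch : ∀ e, ∃ p : Fin n × Fin n, ends e = s(p.1, p.2) := by
    intro e
    induction ends e with
    | _ x y => exact ⟨(x, y), rfl⟩
  choose p hp using hch
  let a : Fin m → Fin n := fun e => (p e).1
  let b : Fin m → Fin n := fun e => (p e).2
  have hab : ∀ e, ends e = s(a e, b e) := hp
  have hl : ∀ e, a e ≠ b e := by
    intro e h
    apply hdiag e
    rw [hab e, h]
    exact Sym2.mk_isDiag_iff.2 rfl
  have hadj : ∀ u w : Fin n, (SimpleGraph.fromRel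
      (fun u v : Fin n => ∃ e : Fin m, ends e = s(u, v))).Adj u w →
      ∃ e, (a e = u ∧ b e = w) ∨ (a e = w ∧ b e = u) := by
    intro u w h
    rw [SimpleGraph.fromRel_adj] at h
    rcases h.2 with ⟨e, he⟩ | ⟨e, he⟩
    · rw [hab e, Sym2.eq_iff] at he
      exact ⟨e, he⟩
    · rw [hab e, Sym2.eq_iff] at he
      exact ⟨e, he.symm⟩
  -- away from a vertex
  have hoff : ∀ v, Off a b v := by
    intro v g hg u w hu hw
    rcases hG with ⟨_, _, hind⟩ | ⟨hn2, _⟩
    · obtain ⟨W⟩ := (hind v).preconnected ⟨u, by simpa using hu⟩ ⟨w, by simpa using hw⟩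
      have key : ∀ (x y : ({v}ᶜ : Set (Fin n))), ((SimpleGraph.fromRel
          (fun u w : Fin n => ∃ e : Fin m, ends e = s(u, w))).induce
          ({v}ᶜ : Set (Fin n))).Walk x y → g x = g y := by
        intro x y W
        induction W with
        | nil => rfl
        | @cons x z y h _ ih =>
          rw [← ih]
          have h' : (SimpleGraph.fromRel (fun u w : Fin n => ∃ e : Fin m, ends e = s(u, w))).Adj
            x.1 z.1 := h
          obtain ⟨e, he⟩ := hadj _ _ h'
          have hx : x.1 ≠ v := x.2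
          have hz : z.1 ≠ v := z.2
          rcases he with ⟨h1, h2⟩ | ⟨h1, h2⟩
          · rw [← h1, ← h2]
            exact hg e (by rw [h1]; exact hx.symm) (by rw [h2]; exact hz.symm)
          · rw [← h1, ← h2]
            exact (hg e (by rw [h1]; exact hz.symm) (by rw [h2]; exact hx.symm)).symm
      exact key _ _ W
    · subst hn2
      have h2 : ∀ v u w : Fin 2, u ≠ v → w ≠ v → u = w := by decide
      rw [h2 v u w hu hw]
  -- pairs of edges
  have hPr : ∀ e f : Fin m, ∃ C : Set (Fin m), (cog a b).IsCircuit C ∧ e ∈ C ∧ f ∈ C := by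
    intro e f
    rcases hG with ⟨_, hconn, _⟩ | ⟨hn2, _⟩
    · obtain ⟨W⟩ := hconn.preconnected (a e) (a f)
      have key : ∀ (x y : Fin n), (SimpleGraph.fromRel
          (fun u w : Fin n => ∃ e : Fin m, ends e = s(u, w))).Walk x y → Pr a b x y := by
        intro x y W
        induction W with
        | nil => exact Pr_refl a b hl hoff _
        | @cons x z y h _ ih =>
          obtain ⟨e0, he⟩ := hadj _ _ h
          rcases he with ⟨h1, h2⟩ | ⟨h1, h2⟩
          · exact Pr_step a b hl hoff x z y e0 (Or.inl h1.symm) (Or.inr h2.symm) ih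
          · exact Pr_step a b hl hoff x z y e0 (Or.inr h2.symm) (Or.inl h1.symm) ih
      exact key _ _ W e f (Or.inl rfl) (Or.inl rfl)
    · subst hn2
      apply Pr_refl a b hl hoff (a e) e f (Or.inl rfl)
      have h1 := hl f
      revert h1
      generalize a e = x
      generalize a f = y
      generalize b f = z
      revert x y z
      decide
  have hm2 : 2 ≤ m := by
    rcases hG with ⟨hn3, hconn, _⟩ | ⟨_, hm⟩
    · by_contra hlt
      push Not at hlt
      have hedge : ∀ v : Fin n, ∃ e, v = a e ∨ v = b e := by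
        intro v
        obtain ⟨w, hw⟩ : ∃ w : Fin n, w ≠ v := by
          have : Nontrivial (Fin n) := Fin.nontrivial_iff_two_le.2 (by omega)
          exact exists_ne v
        obtain ⟨W⟩ := hconn.preconnected v w
        cases W with
        | nil => exact absurd rfl hw
        | cons h _ =>
          obtain ⟨e, he⟩ := hadj _ _ h
          rcases he with ⟨h1, _⟩ | ⟨_, h2⟩
          · exact ⟨e, Or.inl h1.symm⟩
          · exact ⟨e, Or.inr h2.symm⟩
      obtain ⟨e1, h1⟩ := hedge ⟨0, by omega⟩
      obtain ⟨e2, h2⟩ := hedge ⟨1, by omega⟩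
      obtain ⟨e3, h3⟩ := hedge ⟨2, by omega⟩
      have h12 : e1 = e2 := Fin.ext (by have := e1.2; have := e2.2; omega)
      have h13 : e1 = e3 := Fin.ext (by have := e1.2; have := e3.2; omega)
      subst h12 h13
      have e01 : (⟨0, by omega⟩ : Fin n) ≠ ⟨1, by omega⟩ := by
        intro h; exact absurd (congrArg Fin.val h) (by norm_num)
      have e02 : (⟨0, by omega⟩ : Fin n) ≠ ⟨2, by omega⟩ := by
        intro h; exact absurd (congrArg Fin.val h) (by norm_num)
      have e12 : (⟨1, by omega⟩ : Fin n) ≠ ⟨2, by omega⟩ := by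
        intro h; exact absurd (congrArg Fin.val h) (by norm_num)
      rcases h1 with h1 | h1 <;> rcases h2 with h2 | h2 <;> rcases h3 with h3 | h3 <;>
        first
        | exact e01 (h1.trans h2.symm)
        | exact e02 (h1.trans h3.symm)
        | exact e12 (h2.trans h3.symm)
    · exact hm
  -- representations
  have hrep2 : H211.MC.Representable (ZMod 2) (cog a b) := by
    obtain ⟨k, φ, hφ⟩ := Pool.Agent.Helper998.DualRep.dual_rep (F := ZMod 2) (inc (ZMod 2) a b)
    exact ⟨k, φ, fun I _ => hφ I⟩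
  have hrepQ : H211.MC.Representable ℚ (cog a b) := by
    obtain ⟨k, φ, hφ⟩ := Pool.Agent.Helper998.DualRep.dual_rep (F := ℚ) (inc ℚ a b)
    have h1 : vecMatroid (ZMod 2) (inc (ZMod 2) a b) = vecMatroid ℚ (inc ℚ a b) :=
      Matroid.ext_indep rfl fun I _ => indep_field (ZMod 2) ℚ a b I
    refine ⟨k, φ, fun I _ => ?_⟩
    unfold cog
    rw [h1]
    exact hφ I
  have hmain := Pool.Agent.Results.MP_b00834_co.NoSevenDoubleCover.result (cog a b) ⟨Set.toFinite _⟩
    (by
      change 2 ≤ (Set.univ : Set (Fin m)).ncard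
      rw [Set.ncard_univ, Nat.card_eq_fintype_card, Fintype.card_fin]
      exact hm2)
    (fun e _ f _ => hPr e f)
    (Or.inr (Or.inr ⟨hrep2, ℚ, inferInstance, two_ne_zero, hrepQ⟩))
  obtain ⟨D, hD, hcov⟩ := hmain.2 c
    (by
      obtain ⟨B, hB, hBc⟩ := hex
      rw [hbond, bond_iff ends a b hab isCut hcut] at hB
      exact ⟨(B : Set (Fin m)), hB, by rw [Set.ncard_coe_finset]; exact hBc⟩)
    (by
      intro C hC
      have h1 : C = ((Set.toFinite C).toFinset : Set (Fin m)) := (Set.Finite.coe_toFinset _).symm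
      rw [h1] at hC ⊢
      rw [← bond_iff ends a b hab isCut hcut, ← hbond] at hC
      rw [Set.ncard_coe_finset]
      exact hmax _ hC)
  refine ⟨fun i => (Set.toFinite (D i)).toFinset, ?_, ?_⟩
  · intro i
    rw [hcyc, circuit_iff ends a b hab hl]
    have h1 := hD i
    rw [Matroid.IsCocircuit] at h1
    unfold cog at h1
    rw [Matroid.dual_dual] at h1
    rw [Set.Finite.coe_toFinset]
    exact h1
  · intro e
    obtain ⟨i, j, hij, hi, hj⟩ := hcov e (Set.mem_univ e)
    apply Nat.succ_le_of_lt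
    rw [Finset.one_lt_card]
    refine ⟨i, ?_, j, ?_, hij⟩
    · rw [Finset.mem_filter]
      exact ⟨Finset.mem_univ _, (Set.Finite.mem_toFinset _).2 hi⟩
    · rw [Finset.mem_filter]
      exact ⟨Finset.mem_univ _, (Set.Finite.mem_toFinset _).2 hj⟩

end Pool.Agent.S08905
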