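import Pool.Statements.S08907
import Pool.Agent.R397.PerMain

set_option autoImplicit false
open Pool Pool.MP_596cf1_co

namespace Pool.Agent.S08907

/-- There is a constant c > 1 such that, for all large n, the number of distinct values taken by the permanent of n×n matrices with entries ±1 is at least c^n. -/
theorem result :
    ∃ c : ℝ, 1 < c ∧ ∃ N : ℕ, ∀ n : ℕ, N ≤ n →
      c ^ n ≤ ((Set.ncard {p : ℤ | ∃ A : Matrix (Fin n) (Fin n) ℤ,
        (∀ i j, A i j = 1 ∨ A i j = -1) ∧ A.permanent = p} : ℕ) : ℝ) := by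
  refine ⟨1001 / 1000, by norm_num, 101, fun n hn => ?_⟩
  obtain ⟨k, rfl⟩ : ∃ k, n = k + 1 := ⟨n - 1, by omega⟩
  obtain ⟨h, hh⟩ : ∃ h, h = k / 100 := ⟨_, rfl⟩
  have hk : 100 * h ≤ k := by omega
  have hk2 : k + 1 ≤ 100 * (h + 1) := by omega
  have h1 : 1 ≤ h := by omega
  have key := R397.PP.main k h hk h1
  have key' : (2 : ℝ) ^ h ≤ ((Set.ncard {p : ℤ | ∃ A : Matrix (Fin (k + 1)) (Fin (k + 1)) ℤ,
        (∀ i j, A i j = 1 ∨ A i j = -1) ∧ A.permanent = p} : ℕ) : ℝ) := by exact_mod_cast key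
  refine le_trans ?_ key'
  have e1 : (1001 / 1000 : ℝ) ^ (k + 1) ≤ (1001 / 1000 : ℝ) ^ (100 * (h + 1)) :=
    pow_le_pow_right₀ (by norm_num) hk2
  have e2 : (1001 / 1000 : ℝ) ^ 100 ≤ 6 / 5 := by norm_num
  have e3 : (1001 / 1000 : ℝ) ^ (100 * (h + 1)) ≤ (6 / 5) ^ (h + 1) := by
    rw [pow_mul]
    exact pow_le_pow_left₀ (by positivity) e2 _
  have e4 : (6 / 5 : ℝ) ^ (h + 1) ≤ 2 ^ h := by
    clear e1 e3 key key' hk hk2 hh hn
    induction h, h1 using Nat.le_induction with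
    | base => norm_num
    | succ h _ ih =>
      rw [pow_succ, pow_succ (2 : ℝ)]
      have : (0 : ℝ) < (6 / 5) ^ (h + 1) := by positivity
      nlinarith
  linarith

end Pool.Agent.S08907
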