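import Pool.Statements.S09354
import Pool.Agent.R137.DArcais

set_option autoImplicit false
open Pool Pool.MP_6d0115_co

namespace Pool.Agent.S09354

/-- The negation of the preceding statement: If P_0=1 and n·P_n = x·Σ_{k=1}^n σ(k)P_{n-k} (the D'Arcais polynomials), then for all n and k≥1 the coefficients of P_n satisfy a_{k-1}a_{k+1} ≤ a_k². -/
theorem result :
    ¬ (∀ P : ℕ → Polynomial ℚ, P 0 = 1 →
      (∀ n : ℕ, 1 ≤ n →
        (n : Polynomial ℚ) * P n =
          Polynomial.X * ∑ k ∈ Finset.Icc 1 n,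
            ((ArithmeticFunction.sigma 1 k : ℕ) : Polynomial ℚ) * P (n - k)) →
      ∀ n k : ℕ, 1 ≤ k →
        (P n).coeff (k - 1) * (P n).coeff (k + 1) ≤ (P n).coeff k ^ 2) := by
  intro h
  obtain ⟨n, hn⟩ := Pool.Agent.R137.DArcais.exists_bad
  have := h Pool.Agent.R137.DArcais.P Pool.Agent.R137.DArcais.P_zero
    Pool.Agent.R137.DArcais.P_rec n 2 (by norm_num)
  exact absurd this (not_le.2 hn)

end Pool.Agent.S09354
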