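import Pool.Statements.S09406
import Pool.Agent.R30.K9Comb
import Pool.Agent.R30.K9Draw

set_option autoImplicit false
open Pool Pool.MP_6f60ef_co

namespace Pool.Agent.S09406

open Pool.Agent.R30.K9 in
/-- the crossing point of the explicit drawing -/
noncomputable def z0 : ℂ := ⟨9 - 3 / 77, 21 - 27 / 77⟩

open Pool.Agent.R30.K9 in
lemma z0_unique (s t : ℝ) (h : sg 0 3 4 s = sg 0 5 7 t) : sg 0 3 4 s = z0 := by
  have hx := congrArg Complex.re h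
  have hy := congrArg Complex.im h
  simp only [sg, cx, cy, Matrix.cons_val, Matrix.cons_val_zero] at hx hy
  push_cast at hx hy
  apply Complex.ext
  · simp only [sg, cx, z0, Matrix.cons_val, Matrix.cons_val_zero]
    push_cast
    linarith
  · simp only [sg, cy, z0, Matrix.cons_val, Matrix.cons_val_zero]
    push_cast
    linarith

open Pool.Agent.R30.K9 in
lemma eight_point : ∀ (u v a b : Fin 9), (u, v, a, b) ∈ eight → ∀ (z : ℂ) (s t : ℝ),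
    sg 0 u v s = z → sg 0 a b t = z → z = z0 := by
  have hz : ∀ (z : ℂ), (∃ s, sg 0 3 4 s = z) → (∃ t, sg 0 5 7 t = z) → z = z0 := by
    rintro z ⟨s, hs⟩ ⟨t, ht⟩
    rw [← hs]
    exact z0_unique s t (hs.trans ht.symm)
  have sw : ∀ (u v : Fin 9) (z : ℂ), (∃ s, sg 0 u v s = z) → ∃ s, sg 0 v u s = z := by
    rintro u v z ⟨s, hs⟩
    exact ⟨1 - s, by rw [sg_swap]; simpa using hs⟩
  intro u v a b hm z s t hs ht
  have h1 : ∃ s, sg 0 u v s = z := ⟨s, hs⟩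
  have h2 : ∃ s, sg 0 a b s = z := ⟨t, ht⟩
  simp only [eight, Finset.mem_insert, Finset.mem_singleton, Prod.mk.injEq] at hm
  rcases hm with ⟨rfl, rfl, rfl, rfl⟩ | ⟨rfl, rfl, rfl, rfl⟩ | ⟨rfl, rfl, rfl, rfl⟩ |
    ⟨rfl, rfl, rfl, rfl⟩ | ⟨rfl, rfl, rfl, rfl⟩ | ⟨rfl, rfl, rfl, rfl⟩ | ⟨rfl, rfl, rfl, rfl⟩ |
    ⟨rfl, rfl, rfl, rfl⟩
  · exact hz z h1 h2
  · exact hz z (sw _ _ _ h1) h2
  · exact hz z h1 (sw _ _ _ h2)
  · exact hz z (sw _ _ _ h1) (sw _ _ _ h2)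
  · exact hz z h2 h1
  · exact hz z h2 (sw _ _ _ h1)
  · exact hz z (sw _ _ _ h2) h1
  · exact hz z (sw _ _ _ h2) (sw _ _ _ h1)

/-- The set of ordered crossings of a drawing in two planes. -/
def crs (c : Fin 9 → Fin 9 → Fin 2) (γ : Fin 2 → Fin 9 → Fin 9 → ℝ → ℂ) :
    Set (Fin 2 × Fin 9 × Fin 9 × Fin 9 × Fin 9 × ℂ) :=
  {x | (⊤ : SimpleGraph (Fin 9)).Adj x.2.1 x.2.2.1 ∧
    (⊤ : SimpleGraph (Fin 9)).Adj x.2.2.2.1 x.2.2.2.2.1 ∧
    c x.2.1 x.2.2.1 = x.1 ∧ c x.2.2.2.1 x.2.2.2.2.1 = x.1 ∧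
    ¬ (x.2.1 = x.2.2.2.1 ∧ x.2.2.1 = x.2.2.2.2.1) ∧
    ¬ (x.2.1 = x.2.2.2.2.1 ∧ x.2.2.1 = x.2.2.2.1) ∧
    (∃ t : ℝ, 0 < t ∧ t < 1 ∧ γ x.1 x.2.1 x.2.2.1 t = x.2.2.2.2.2) ∧
    (∃ t : ℝ, 0 < t ∧ t < 1 ∧ γ x.1 x.2.2.2.1 x.2.2.2.2.1 t = x.2.2.2.2.2)}

open Pool.Agent.R30.K9 in
lemma crs_sub : crs col sg ⊆
    ((eight.image fun q => ((0 : Fin 2), q.1, q.2.1, q.2.2.1, q.2.2.2, z0) : Finset _) :
      Set (Fin 2 × Fin 9 × Fin 9 × Fin 9 × Fin 9 × ℂ)) := by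
  rintro ⟨i, u, v, a, b, z⟩ ⟨huv, hab, h1, h2, h3, h4, ⟨s, hs0, hs1, hs⟩, ⟨t, ht0, ht1, ht⟩⟩
  simp only [SimpleGraph.top_adj] at huv hab h1 h2 h3 h4 hs ht
  obtain ⟨k1, k2⟩ := cross_sign huv hab h3 h4 hs0 hs1 ht0 ht1 (hs.trans ht.symm)
  obtain ⟨rfl, hm⟩ := only i u v a b huv hab h1 h2 k1 k2
  have hz := eight_point u v a b hm z s t hs ht
  rw [Finset.mem_coe, Finset.mem_image]
  exact ⟨(u, v, a, b), hm, by rw [hz]⟩

/-- crossings in both planes: at least nine ordered crossings -/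
lemma nine (c : Fin 9 → Fin 9 → Fin 2) (γ : Fin 2 → Fin 9 → Fin 9 → ℝ → ℂ)
    (hc : ∀ u v, u ≠ v → c u v = c v u)
    (hγ : ∀ i u v, u ≠ v → c u v = i → ∀ t : ℝ, 0 ≤ t → t ≤ 1 → γ i v u t = γ i u v (1 - t))
    (hfin : (crs c γ).Finite) (x y : Fin 2 × Fin 9 × Fin 9 × Fin 9 × Fin 9 × ℂ)
    (hx : x ∈ crs c γ) (hy : y ∈ crs c γ) (hxy : x.1 ≠ y.1) : 9 ≤ (crs c γ).ncard := by
  classical
  obtain ⟨i, u, v, a, b, z⟩ := x
  obtain ⟨huv, hab, h1, h2, h3, h4, h5, h6⟩ := hx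
  simp only [SimpleGraph.top_adj] at huv hab h1 h2 h3 h4 h5 h6
  have sw : ∀ u v : Fin 9, u ≠ v → c u v = i → (∃ t : ℝ, 0 < t ∧ t < 1 ∧ γ i u v t = z) →
      ∃ t : ℝ, 0 < t ∧ t < 1 ∧ γ i v u t = z := by
    rintro u v huv hcu ⟨t, h0, h1, ht⟩
    refine ⟨1 - t, by linarith, by linarith, ?_⟩
    rw [hγ i u v huv hcu (1 - t) (by linarith) (by linarith)]
    simpa using ht
  have h1' : c v u = i := by rw [← hc u v huv]; exact h1
  have h2' : c b a = i := by rw [← hc a b hab]; exact h2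
  have h5' := sw u v huv h1 h5
  have h6' := sw a b hab h2 h6
  have mem : ∀ u v a b : Fin 9, u ≠ v → a ≠ b → c u v = i → c a b = i → ¬ (u = a ∧ v = b) →
      ¬ (u = b ∧ v = a) → (∃ t : ℝ, 0 < t ∧ t < 1 ∧ γ i u v t = z) →
      (∃ t : ℝ, 0 < t ∧ t < 1 ∧ γ i a b t = z) → (i, u, v, a, b, z) ∈ crs c γ := by
    intro u v a b k1 k2 k3 k4 k5 k6 k7 k8
    exact ⟨k1, k2, k3, k4, k5, k6, k7, k8⟩
  set L : List (Fin 2 × Fin 9 × Fin 9 × Fin 9 × Fin 9 × ℂ) :=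
    [y, (i, u, v, a, b, z), (i, v, u, a, b, z), (i, u, v, b, a, z), (i, v, u, b, a, z),
      (i, a, b, u, v, z), (i, b, a, u, v, z), (i, a, b, v, u, z), (i, b, a, v, u, z)] with hL
  have hnd : L.Nodup := by
    have hy' : ∀ q, y ≠ (i, q) := by
      rintro q rfl
      exact hxy rfl
    simp only [hL, List.nodup_cons, List.mem_cons, List.not_mem_nil, or_false, hy',
      Prod.mk.injEq, true_and, and_true, not_or, List.nodup_nil, not_false_eq_true]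
    grind
  have hsub : (L.toFinset : Set _) ⊆ crs c γ := by
    intro q hq
    rw [Finset.mem_coe, List.mem_toFinset, hL] at hq
    simp only [List.mem_cons, List.not_mem_nil, or_false] at hq
    rcases hq with rfl | rfl | rfl | rfl | rfl | rfl | rfl | rfl | rfl
    · exact hy
    · exact mem _ _ _ _ huv hab h1 h2 h3 h4 h5 h6
    · exact mem _ _ _ _ huv.symm hab h1' h2 (by tauto) (by tauto) h5' h6
    · exact mem _ _ _ _ huv hab.symm h1 h2' (by tauto) (by tauto) h5 h6'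
    · exact mem _ _ _ _ huv.symm hab.symm h1' h2' (by tauto) (by tauto) h5' h6'
    · exact mem _ _ _ _ hab huv h2 h1 (by grind) (by grind) h6 h5
    · exact mem _ _ _ _ hab.symm huv h2' h1 (by grind) (by grind) h6' h5
    · exact mem _ _ _ _ hab huv.symm h2 h1' (by grind) (by grind) h6 h5'
    · exact mem _ _ _ _ hab.symm huv.symm h2' h1' (by grind) (by grind) h6' h5'
  calc 9 = L.length := by rw [hL]; rfl
    _ = L.toFinset.card := (List.toFinset_card_of_nodup hnd).symm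
    _ = (L.toFinset : Set _).ncard := (Set.ncard_coe_finset _).symm
    _ ≤ _ := Set.ncard_le_ncard hsub hfin

lemma fin2_aux : ∀ (i x y : Fin 2), (y = 1 ↔ x = 0) → (y = i ↔ ¬ (x = i)) := by decide

/-- The negation of the preceding statement: If G is a complete graph or a complete bipartite graph with an even number of edges, then G has a drawing on two planes with minimum total crossings among all such drawings whose two plane subgraphs are isomorphic. -/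
theorem result :
    ¬ (∀ (V : Type) [Finite V] (G : SimpleGraph V),
      (G = ⊤ ∨ ∃ a b : ℕ, Nonempty (G ≃g completeBipartiteGraph (Fin a) (Fin b))) →
      Even (Set.ncard G.edgeSet) →
      ∃ (c : V → V → Fin 2) (p : Fin 2 → V → ℂ) (γ : Fin 2 → V → V → ℝ → ℂ),
        ((∀ u v : V, G.Adj u v → c u v = c v u) ∧
          (∀ i : Fin 2, Function.Injective (p i)) ∧
          (∀ i : Fin 2, ∀ u v : V, G.Adj u v → c u v = i →
            ContinuousOn (γ i u v) (Set.Icc (0:ℝ) 1) ∧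
            Set.InjOn (γ i u v) (Set.Icc (0:ℝ) 1) ∧
            γ i u v 0 = p i u ∧ γ i u v 1 = p i v ∧
            (∀ t : ℝ, 0 ≤ t → t ≤ 1 → γ i v u t = γ i u v (1 - t)) ∧
            ∀ t : ℝ, 0 < t → t < 1 → ∀ w : V, γ i u v t ≠ p i w) ∧
          Set.Finite {x : Fin 2 × V × V × V × V × ℂ |
            G.Adj x.2.1 x.2.2.1 ∧ G.Adj x.2.2.2.1 x.2.2.2.2.1 ∧
            c x.2.1 x.2.2.1 = x.1 ∧ c x.2.2.2.1 x.2.2.2.2.1 = x.1 ∧
            ¬ (x.2.1 = x.2.2.2.1 ∧ x.2.2.1 = x.2.2.2.2.1) ∧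
            ¬ (x.2.1 = x.2.2.2.2.1 ∧ x.2.2.1 = x.2.2.2.1) ∧
            (∃ t : ℝ, 0 < t ∧ t < 1 ∧ γ x.1 x.2.1 x.2.2.1 t = x.2.2.2.2.2) ∧
            (∃ t : ℝ, 0 < t ∧ t < 1 ∧ γ x.1 x.2.2.2.1 x.2.2.2.2.1 t = x.2.2.2.2.2)}) ∧
        Nonempty (SimpleGraph.fromRel (fun u v => G.Adj u v ∧ c u v = 0) ≃g
          SimpleGraph.fromRel (fun u v => G.Adj u v ∧ c u v = 1)) ∧
        ∀ (c' : V → V → Fin 2) (p' : Fin 2 → V → ℂ) (γ' : Fin 2 → V → V → ℝ → ℂ),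
          ((∀ u v : V, G.Adj u v → c' u v = c' v u) ∧
            (∀ i : Fin 2, Function.Injective (p' i)) ∧
            (∀ i : Fin 2, ∀ u v : V, G.Adj u v → c' u v = i →
              ContinuousOn (γ' i u v) (Set.Icc (0:ℝ) 1) ∧
              Set.InjOn (γ' i u v) (Set.Icc (0:ℝ) 1) ∧
              γ' i u v 0 = p' i u ∧ γ' i u v 1 = p' i v ∧
              (∀ t : ℝ, 0 ≤ t → t ≤ 1 → γ' i v u t = γ' i u v (1 - t)) ∧
              ∀ t : ℝ, 0 < t → t < 1 → ∀ w : V, γ' i u v t ≠ p' i w) ∧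
            Set.Finite {x : Fin 2 × V × V × V × V × ℂ |
              G.Adj x.2.1 x.2.2.1 ∧ G.Adj x.2.2.2.1 x.2.2.2.2.1 ∧
              c' x.2.1 x.2.2.1 = x.1 ∧ c' x.2.2.2.1 x.2.2.2.2.1 = x.1 ∧
              ¬ (x.2.1 = x.2.2.2.1 ∧ x.2.2.1 = x.2.2.2.2.1) ∧
              ¬ (x.2.1 = x.2.2.2.2.1 ∧ x.2.2.1 = x.2.2.2.1) ∧
              (∃ t : ℝ, 0 < t ∧ t < 1 ∧ γ' x.1 x.2.1 x.2.2.1 t = x.2.2.2.2.2) ∧
              (∃ t : ℝ, 0 < t ∧ t < 1 ∧ γ' x.1 x.2.2.2.1 x.2.2.2.2.1 t = x.2.2.2.2.2)}) →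
          Set.ncard {x : Fin 2 × V × V × V × V × ℂ |
              G.Adj x.2.1 x.2.2.1 ∧ G.Adj x.2.2.2.1 x.2.2.2.2.1 ∧
              c x.2.1 x.2.2.1 = x.1 ∧ c x.2.2.2.1 x.2.2.2.2.1 = x.1 ∧
              ¬ (x.2.1 = x.2.2.2.1 ∧ x.2.2.1 = x.2.2.2.2.1) ∧
              ¬ (x.2.1 = x.2.2.2.2.1 ∧ x.2.2.1 = x.2.2.2.1) ∧
              (∃ t : ℝ, 0 < t ∧ t < 1 ∧ γ x.1 x.2.1 x.2.2.1 t = x.2.2.2.2.2) ∧
              (∃ t : ℝ, 0 < t ∧ t < 1 ∧ γ x.1 x.2.2.2.1 x.2.2.2.2.1 t = x.2.2.2.2.2)} ≤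
            Set.ncard {x : Fin 2 × V × V × V × V × ℂ |
              G.Adj x.2.1 x.2.2.1 ∧ G.Adj x.2.2.2.1 x.2.2.2.2.1 ∧
              c' x.2.1 x.2.2.1 = x.1 ∧ c' x.2.2.2.1 x.2.2.2.2.1 = x.1 ∧
              ¬ (x.2.1 = x.2.2.2.1 ∧ x.2.2.1 = x.2.2.2.2.1) ∧
              ¬ (x.2.1 = x.2.2.2.2.1 ∧ x.2.2.1 = x.2.2.2.1) ∧
              (∃ t : ℝ, 0 < t ∧ t < 1 ∧ γ' x.1 x.2.1 x.2.2.1 t = x.2.2.2.2.2) ∧
              (∃ t : ℝ, 0 < t ∧ t < 1 ∧ γ' x.1 x.2.2.2.1 x.2.2.2.2.1 t = x.2.2.2.2.2)}) := by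
  classical
  intro hall
  have heven : Even (Set.ncard (⊤ : SimpleGraph (Fin 9)).edgeSet) := by
    rw [Set.ncard_eq_toFinset_card']
    change Even (⊤ : SimpleGraph (Fin 9)).edgeFinset.card
    rw [SimpleGraph.card_edgeFinset_top_eq_card_choose_two, Fintype.card_fin]
    decide
  obtain ⟨c, p, γ, ⟨hc, hp, harc, hfin⟩, ⟨φ⟩, hopt⟩ := hall (Fin 9) ⊤ (Or.inl rfl) heven
  change (crs c γ).Finite at hfin
  -- the explicit drawing
  have h8 := hopt Pool.Agent.R30.K9.col Pool.Agent.R30.K9.pt Pool.Agent.R30.K9.sg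
    ⟨fun u v _ => Pool.Agent.R30.K9.col_symm u v, Pool.Agent.R30.K9.pt_inj,
      fun i u v huv _ => ⟨(Pool.Agent.R30.K9.sg_cont i u v).continuousOn,
        fun s _ t _ hst => Pool.Agent.R30.K9.sg_inj huv hst,
        Pool.Agent.R30.K9.sg_zero i u v, Pool.Agent.R30.K9.sg_one i u v,
        fun t _ _ => Pool.Agent.R30.K9.sg_swap i u v t,
        fun t h0 h1 w => Pool.Agent.R30.K9.sg_avoid i u v w huv t h0 h1⟩,
      (Finset.finite_toSet _).subset crs_sub⟩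
  change (crs c γ).ncard ≤ (crs Pool.Agent.R30.K9.col Pool.Agent.R30.K9.sg).ncard at h8
  have h8' : (crs c γ).ncard ≤ 8 := by
    refine h8.trans ((Set.ncard_le_ncard crs_sub (Finset.finite_toSet _)).trans ?_)
    rw [Set.ncard_coe_finset]
    exact Finset.card_image_le.trans (by decide)
  -- one plane has no crossing
  have hex : ∃ i : Fin 2, ∀ x ∈ crs c γ, x.1 ≠ i := by
    by_contra hcon
    push Not at hcon
    obtain ⟨x, hx, hx0⟩ := hcon 0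
    obtain ⟨y, hy, hy1⟩ := hcon 1
    have := nine c γ (fun u v h => hc u v h) (fun i u v h h' => (harc i u v h h').2.2.2.2.1) hfin
      x y hx hy (by rw [hx0, hy1]; decide)
    omega
  obtain ⟨i, hi⟩ := hex
  -- the complementing permutation
  have hσ : ∀ a b, a ≠ b → (c (φ a) (φ b) = 1 ↔ c a b = 0) := by
    intro a b hab
    have hab' : φ a ≠ φ b := fun h => hab (φ.injective h)
    have h := φ.map_rel_iff' (a := a) (b := b)
    change (SimpleGraph.fromRel (fun u v => (⊤ : SimpleGraph (Fin 9)).Adj u v ∧ c u v = 1)).Adj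
      (φ a) (φ b) ↔ (SimpleGraph.fromRel
        (fun u v => (⊤ : SimpleGraph (Fin 9)).Adj u v ∧ c u v = 0)).Adj a b at h
    simp only [SimpleGraph.fromRel_adj, SimpleGraph.top_adj] at h
    rw [← hc (φ a) (φ b) hab', ← hc a b hab] at h
    simpa [hab, hab', hab.symm, hab'.symm] using h
  refine Pool.Agent.R30.K9.no_selfcompl_plane (fun a b => a ≠ b ∧ c a b = i) ?_ φ.toEquiv ?_ ?_
  · rintro a b ⟨hab, h⟩
    exact ⟨hab.symm, by rw [← hc a b hab]; exact h⟩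
  · intro a b hab
    have hab' : φ a ≠ φ b := fun h => hab (φ.injective h)
    have h := hσ a b hab
    change (φ a ≠ φ b ∧ c (φ a) (φ b) = i) ↔ ¬ (a ≠ b ∧ c a b = i)
    simp only [hab, hab', ne_eq, not_false_eq_true, true_and]
    exact fin2_aux i _ _ h
  · refine ⟨p i, γ i, hp i, ?_, ?_⟩
    · rintro u v huv ⟨-, h⟩
      obtain ⟨k1, -, k2, k3, -, k4⟩ := harc i u v huv h
      exact ⟨k1, k2, k3, k4⟩
    · rintro u v a b huv hab ⟨-, h⟩ ⟨-, h'⟩ n1 n2 n3 n4 s t s0 s1 t0 t1 hst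
      exact hi (i, u, v, a, b, γ i u v s) ⟨huv, hab, h, h', fun k => n1 k.1, fun k => n2 k.1,
        ⟨s, s0, s1, rfl⟩, ⟨t, t0, t1, hst.symm⟩⟩ rfl

end Pool.Agent.S09406
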