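import Pool.Statements.S09613
import Pool.Agent.R120.ExtSq2

set_option autoImplicit false
open Pool Pool.MP_78b1ee_co

namespace Pool.Agent.S09613

open Pool.Agent.R120.ExtSq in
private lemma getD_W (k j : ℕ) (hj : j < 38 + len k) :
    ((List.range (38 + len k)).map (fun i => (W k i : ℚ))).getD j 0 = (W k j : ℚ) := by
  rw [List.getD_eq_getElem _ _ (by simpa using hj)]
  simp

open Pool.Agent.R120.ExtSq in
private lemma getD_ins (k p j : ℕ) (x : ℚ) (hp : p ≤ 38 + len k) (hj : j < 39 + len k) :
    (((List.range (38 + len k)).map (fun i => (W k i : ℚ))).take p ++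
      x :: ((List.range (38 + len k)).map (fun i => (W k i : ℚ))).drop p).getD j 0 =
      ins (W k) p x j := by
  have hlen : (((List.range (38 + len k)).map (fun i => (W k i : ℚ))).take p).length = p := by
    simp [hp]
  unfold ins
  by_cases h1 : j < p
  · rw [if_pos h1, List.getD_append _ _ _ _ (by rw [hlen]; exact h1),
      List.getD_eq_getElem _ _ (by rw [hlen]; exact h1)]
    simp
  · rw [if_neg h1, List.getD_append_right _ _ _ _ (by rw [hlen]; omega), hlen]
    by_cases h2 : j = p
    · rw [if_pos h2, h2]; simp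
    · rw [if_neg h2, show j - p = (j - p - 1) + 1 by omega, List.getD_cons_succ,
        List.getD_eq_getElem _ _ (by simp; omega)]
      simp only [List.getElem_drop, List.getElem_map, List.getElem_range]
      congr 3
      omega

/-- For every N there is a list of distinct rationals of length at least N with no two adjacent order-isomorphic blocks of length at least 2, such that inserting any new value at any position creates such a pair. -/
theorem result :
    ∀ N : ℕ, ∃ w : List ℚ, N ≤ w.length ∧ w.Nodup ∧
      (¬ ∃ i ℓ : ℕ, 2 ≤ ℓ ∧ i + 2 * ℓ ≤ w.length ∧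
          ∀ a < ℓ, ∀ b < ℓ,
            (w.getD (i + a) 0 < w.getD (i + b) 0 ↔
              w.getD (i + ℓ + a) 0 < w.getD (i + ℓ + b) 0)) ∧
      ∀ p : ℕ, p ≤ w.length → ∀ x : ℚ, x ∉ w →
        ∃ i ℓ : ℕ, 2 ≤ ℓ ∧ i + 2 * ℓ ≤ w.length + 1 ∧
          ∀ a < ℓ, ∀ b < ℓ,
            ((w.take p ++ x :: w.drop p).getD (i + a) 0 <
                (w.take p ++ x :: w.drop p).getD (i + b) 0 ↔
              (w.take p ++ x :: w.drop p).getD (i + ℓ + a) 0 <
                (w.take p ++ x :: w.drop p).getD (i + ℓ + b) 0) := by
  intro N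
  set k := N + 5 with hk
  have hlen := Pool.Agent.R120.ExtSq.le_len k
  refine ⟨(List.range (38 + Pool.Agent.R120.ExtSq.len k)).map
    (fun i => (Pool.Agent.R120.ExtSq.W k i : ℚ)), ?_, ?_, ?_, ?_⟩
  · rw [List.length_map, List.length_range]; omega
  · refine (List.nodup_map_iff_inj_on List.nodup_range).2 ?_
    intro i hi j hj h
    rw [List.mem_range] at hi hj
    exact Pool.Agent.R120.ExtSq.W_inj k i j hi hj (by exact_mod_cast h)
  · rintro ⟨i, ℓ, h2, hle, h⟩
    rw [List.length_map, List.length_range] at hle
    refine Pool.Agent.R120.ExtSq.W_sqFree k (by omega) i ℓ h2 hle ?_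
    intro a ha b hb
    have := h a ha b hb
    rw [getD_W k _ (by omega), getD_W k _ (by omega), getD_W k _ (by omega),
      getD_W k _ (by omega)] at this
    exact_mod_cast this
  · intro p hp x hx
    rw [List.length_map, List.length_range] at hp
    have hx' : ∀ i < 38 + Pool.Agent.R120.ExtSq.len k,
        x ≠ (Pool.Agent.R120.ExtSq.W k i : ℚ) := by
      intro i hi h
      apply hx
      rw [List.mem_map]
      exact ⟨i, List.mem_range.2 hi, h.symm⟩
    obtain ⟨i, ℓ, h2, hle, h⟩ := Pool.Agent.R120.ExtSq.ins_all k p (by omega) hp x hx'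
    refine ⟨i, ℓ, h2, ?_, ?_⟩
    · rw [List.length_map, List.length_range]; omega
    · intro a ha b hb
      rw [getD_ins k p _ x hp (by omega), getD_ins k p _ x hp (by omega),
        getD_ins k p _ x hp (by omega), getD_ins k p _ x hp (by omega)]
      exact h a ha b hb

end Pool.Agent.S09613
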