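import Pool.Statements.S09632
import Pool.Agent.R83.EOForest

set_option autoImplicit false
open Pool Pool.MP_79efce_co

namespace Pool.Agent.S09632

/-- The negation of the preceding statement: Assume F is an edge-ordered forest whose F-free edge-ordered graphs on n vertices have o(n^2) edges, which is equivalent to order chromatic number 2. Then such graphs have at most C·n·(log n)^c edges for some constants c and C. -/
theorem result :
    ¬ (∀ (k : ℕ) (F : SimpleGraph (Fin k)) (L : Sym2 (Fin k) → ℕ),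
      F.IsAcyclic → Set.InjOn L F.edgeSet →
      (∀ ε : ℝ, 0 < ε → ∃ N : ℕ, ∀ n : ℕ, N ≤ n →
        ∀ (G : SimpleGraph (Fin n)) (M : Sym2 (Fin n) → ℕ), Set.InjOn M G.edgeSet →
          (¬ ∃ φ : Fin k ↪ Fin n, (∀ a b, F.Adj a b → G.Adj (φ a) (φ b)) ∧
              ∀ e ∈ F.edgeSet, ∀ f ∈ F.edgeSet, L e < L f →
                M (Sym2.map (⇑φ) e) < M (Sym2.map (⇑φ) f)) →
          (G.edgeSet.ncard : ℝ) ≤ ε * (n : ℝ) ^ 2) →
      ∃ (c : ℕ) (C : ℝ), ∀ n : ℕ, 2 ≤ n →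
        ∀ (G : SimpleGraph (Fin n)) (M : Sym2 (Fin n) → ℕ), Set.InjOn M G.edgeSet →
          (¬ ∃ φ : Fin k ↪ Fin n, (∀ a b, F.Adj a b → G.Adj (φ a) (φ b)) ∧
              ∀ e ∈ F.edgeSet, ∀ f ∈ F.edgeSet, L e < L f →
                M (Sym2.map (⇑φ) e) < M (Sym2.map (⇑φ) f)) →
          (G.edgeSet.ncard : ℝ) ≤ C * (n : ℝ) * (Real.log (n : ℝ)) ^ c) := by
  intro H
  obtain ⟨c, C, hcC⟩ := H 7 W153.EO.pat W153.EO.lab W153.EO.pat_acyclic W153.EO.lab_injOn (by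
    intro ε hε
    obtain ⟨N, hN⟩ := R83.pat_dense ε hε
    refine ⟨N, fun n hn G M hM hC => hN n hn G M hM ?_⟩
    rintro ⟨φ, h1, h2, h3⟩
    exact hC ⟨⟨φ, h1⟩, h2, h3⟩)
  obtain ⟨n, hn, G, g, hg, hC, hlt⟩ := R83.pat_lower C c 2
  have := hcC n hn G g hg (by
    rintro ⟨φ, h2, h3⟩
    exact hC ⟨φ, φ.injective, h2, h3⟩)
  linarith

end Pool.Agent.S09632
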