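import Pool.Statements.S09637

set_option autoImplicit false
open Pool Pool.MP_7a5332_co

namespace Pool.Agent.S09637

open Finset SimpleGraph

section aux

variable {n : ℕ}

theorem fin3_aux : ∀ p q r s : Fin 3, r ≠ s → p ≠ s → q ≠ s → p ≠ r → q ≠ r → p = q := by
  decide

/-- Counting facts around a vertex of maximum degree in a triangle-free graph with many edges. -/
theorem setup (hn : 100 ≤ n) (G : SimpleGraph (Fin n)) [DecidableRel G.Adj]
    (hT : G.CliqueFree 3)
    (hm : (99 / 400 : ℝ) * (n : ℝ) ^ 2 < (#G.edgeFinset : ℝ)) :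
    ∃ A : Finset (Fin n), (∀ a ∈ A, ∀ b ∈ A, ¬ G.Adj a b) ∧
      (0.45 : ℝ) * n ≤ (#A : ℝ) ∧ (0.45 : ℝ) * n ≤ (#(Aᶜ) : ℝ) ∧
      (∑ a ∈ A, ((#(Aᶜ) : ℝ) - #(G.neighborFinset a))) ≤ (n : ℝ) ^ 2 / 200 ∧
      (∑ b ∈ Aᶜ, ((#A : ℝ) - #(G.neighborFinset b ∩ A))) ≤ (n : ℝ) ^ 2 / 200 := by
  classical
  have hne : Nonempty (Fin n) := ⟨⟨0, by omega⟩⟩
  obtain ⟨u, hu⟩ := G.exists_maximal_degree_vertex
  set A := G.neighborFinset u with hAdef
  have hAcard : #A = G.maxDegree := by rw [hAdef, card_neighborFinset_eq_degree, hu]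
  have hind : ∀ a ∈ A, ∀ b ∈ A, ¬ G.Adj a b := by
    intro a ha b hb hab
    rw [hAdef, mem_neighborFinset] at ha hb
    have := hT {u, a, b}
    apply this
    rw [is3Clique_triple_iff]
    exact ⟨ha, hb, hab⟩
  refine ⟨A, hind, ?_⟩
  have hcompl : (#(Aᶜ) : ℝ) = n - #A := by
    rw [card_compl, Fintype.card_fin, Nat.cast_sub]
    simpa using card_le_univ A
  -- 2m = sum of degrees
  have hsum : (∑ v, (G.degree v : ℝ)) = 2 * (#G.edgeFinset : ℝ) := by
    exact_mod_cast G.sum_degrees_eq_twice_card_edges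
  have hsplit : (∑ a ∈ A, (G.degree a : ℝ)) + ∑ b ∈ Aᶜ, (G.degree b : ℝ) =
      2 * (#G.edgeFinset : ℝ) := by
    rw [← hsum, sum_add_sum_compl]
  have hB : ∑ b ∈ Aᶜ, (G.degree b : ℝ) ≤ (#(Aᶜ) : ℝ) * #A := by
    calc ∑ b ∈ Aᶜ, (G.degree b : ℝ) ≤ ∑ b ∈ Aᶜ, (#A : ℝ) := by
          apply sum_le_sum
          intro b _
          rw [hAcard]
          exact_mod_cast G.degree_le_maxDegree b
      _ = _ := by rw [sum_const, nsmul_eq_mul]
  -- neighbours of vertices in A lie in Aᶜ
  have hnA : ∀ a ∈ A, G.neighborFinset a ⊆ Aᶜ := by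
    intro a ha b hb
    rw [mem_neighborFinset] at hb
    rw [mem_compl]
    intro hbA
    exact hind a ha b hbA hb
  have hA' : ∑ a ∈ A, (G.degree a : ℝ) ≤ (#A : ℝ) * #(Aᶜ) := by
    calc ∑ a ∈ A, (G.degree a : ℝ) ≤ ∑ a ∈ A, (#(Aᶜ) : ℝ) := by
          apply sum_le_sum
          intro a ha
          rw [← card_neighborFinset_eq_degree]
          exact_mod_cast card_le_card (hnA a ha)
      _ = _ := by rw [sum_const, nsmul_eq_mul]
  -- double counting
  have hdc : ∑ a ∈ A, (G.degree a : ℝ) = ∑ b ∈ Aᶜ, (#(G.neighborFinset b ∩ A) : ℝ) := by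
    have h1 : ∑ a ∈ A, #(bipartiteAbove (fun a b => G.Adj a b) (Aᶜ) a) =
        ∑ b ∈ Aᶜ, #(bipartiteBelow (fun a b => G.Adj a b) A b) :=
      sum_card_bipartiteAbove_eq_sum_card_bipartiteBelow _
    have h2 : ∀ a ∈ A, #(bipartiteAbove (fun a b => G.Adj a b) (Aᶜ) a) = G.degree a := by
      intro a ha
      rw [← card_neighborFinset_eq_degree]
      congr 1
      ext b
      simp only [bipartiteAbove, mem_filter, mem_neighborFinset]
      constructor
      · exact fun h => h.2
      · intro h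
        exact ⟨hnA a ha (by rwa [mem_neighborFinset]), h⟩
    have h3 : ∀ b ∈ Aᶜ, #(bipartiteBelow (fun a b => G.Adj a b) A b) =
        #(G.neighborFinset b ∩ A) := by
      intro b _
      congr 1
      ext a
      simp only [bipartiteBelow, mem_filter, mem_inter, mem_neighborFinset]
      constructor
      · exact fun h => ⟨h.2.symm, h.1⟩
      · exact fun h => ⟨h.2, h.1.symm⟩
    rw [sum_congr rfl h2, sum_congr rfl h3] at h1
    exact_mod_cast h1
  set a : ℝ := (#A : ℝ) with ha
  set m : ℝ := (#G.edgeFinset : ℝ) with hmdef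
  set N : ℝ := (n : ℝ) with hN
  have hN100 : (100 : ℝ) ≤ N := by rw [hN]; exact_mod_cast hn
  rw [hcompl] at hB hA'
  rw [hcompl]
  have hprod : 99 / 400 * N ^ 2 < a * (N - a) := by nlinarith
  have hsq : (a - N / 2) ^ 2 ≤ (N / 20) ^ 2 := by nlinarith
  have habs := abs_le_of_sq_le_sq' hsq (by positivity)
  refine ⟨by linarith [habs.1], by linarith [habs.2], ?_, ?_⟩
  · rw [sum_sub_distrib, sum_const, nsmul_eq_mul]
    simp only [card_neighborFinset_eq_degree]
    rw [← ha]
    nlinarith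
  · rw [sum_sub_distrib, sum_const, nsmul_eq_mul, ← hdc, hcompl]
    nlinarith

/-- The combinatorial core: a sufficiently dense triangle-free graph is not 4-critical. -/
theorem core (hn : 100 ≤ n) (G : SimpleGraph (Fin n)) [DecidableRel G.Adj]
    (hT : G.CliqueFree 3) (h3 : ¬ G.Colorable 3)
    (hcrit : ∀ e ∈ G.edgeSet, (G.deleteEdges {e}).Colorable 3)
    (hm : (99 / 400 : ℝ) * (n : ℝ) ^ 2 < (#G.edgeFinset : ℝ)) : False := by
  classical
  obtain ⟨A, hA, hAl, hBl, hsA, hsB⟩ := setup hn G hT hm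
  set N : ℝ := (n : ℝ) with hN
  have hN100 : (100 : ℝ) ≤ N := by rw [hN]; exact_mod_cast hn
  set A₀ := A.filter (fun a => (#(Aᶜ) : ℝ) - #(G.neighborFinset a) ≤ N / 10) with hA₀
  set B₀ := (Aᶜ).filter (fun b => (#A : ℝ) - #(G.neighborFinset b ∩ A) ≤ N / 10) with hB₀
  have hnA : ∀ a ∈ A, G.neighborFinset a ⊆ Aᶜ := by
    intro a ha b hb
    rw [mem_neighborFinset] at hb
    rw [mem_compl]
    intro hbA
    exact hA a ha b hbA hb
  -- sizes of the exceptional parts
  have hexA : (#(A \ A₀) : ℝ) ≤ N / 20 := by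
    have h1 : (#(A \ A₀) : ℝ) * (N / 10) ≤ ∑ a ∈ A \ A₀, ((#(Aᶜ) : ℝ) - #(G.neighborFinset a)) := by
      rw [← nsmul_eq_mul, ← sum_const]
      apply sum_le_sum
      intro a ha
      rw [mem_sdiff, hA₀, mem_filter] at ha
      by_contra hcon
      exact ha.2 ⟨ha.1, by linarith⟩
    have h2 : ∑ a ∈ A \ A₀, ((#(Aᶜ) : ℝ) - #(G.neighborFinset a)) ≤
        ∑ a ∈ A, ((#(Aᶜ) : ℝ) - #(G.neighborFinset a)) := by
      apply sum_le_sum_of_subset_of_nonneg sdiff_subset
      intro a ha _
      have : (#(G.neighborFinset a) : ℝ) ≤ #(Aᶜ) := by exact_mod_cast card_le_card (hnA a ha)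
      linarith
    have h3 : (#(A \ A₀) : ℝ) * (N / 10) ≤ N ^ 2 / 200 := h1.trans (h2.trans hsA)
    by_contra hcon
    push Not at hcon
    nlinarith
  have hexB : (#(Aᶜ \ B₀) : ℝ) ≤ N / 20 := by
    have h1 : (#(Aᶜ \ B₀) : ℝ) * (N / 10) ≤
        ∑ b ∈ Aᶜ \ B₀, ((#A : ℝ) - #(G.neighborFinset b ∩ A)) := by
      rw [← nsmul_eq_mul, ← sum_const]
      apply sum_le_sum
      intro b hb
      rw [mem_sdiff, hB₀, mem_filter] at hb
      by_contra hcon
      exact hb.2 ⟨hb.1, by linarith⟩
    have h2 : ∑ b ∈ Aᶜ \ B₀, ((#A : ℝ) - #(G.neighborFinset b ∩ A)) ≤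
        ∑ b ∈ Aᶜ, ((#A : ℝ) - #(G.neighborFinset b ∩ A)) := by
      apply sum_le_sum_of_subset_of_nonneg sdiff_subset
      intro b hb _
      have : (#(G.neighborFinset b ∩ A) : ℝ) ≤ #A := by exact_mod_cast card_le_card inter_subset_right
      linarith
    have h3 : (#(Aᶜ \ B₀) : ℝ) * (N / 10) ≤ N ^ 2 / 200 := h1.trans (h2.trans hsB)
    by_contra hcon
    push Not at hcon
    nlinarith
  -- useful cardinality estimate
  have hinter : ∀ (S T U : Finset (Fin n)), T ⊆ S → (#(T ∩ U) : ℝ) ≥ #T - #(S \ U) := by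
    intro S T U hTS
    have h1 : T \ U ⊆ S \ U := sdiff_subset_sdiff hTS (Subset.refl _)
    have h2 : (#(T \ U) : ℝ) ≤ #(S \ U) := by exact_mod_cast card_le_card h1
    have h3 : (#(T \ U) : ℝ) + #(T ∩ U) = #T := by exact_mod_cast card_sdiff_add_card_inter T U
    linarith
  have hsd : ∀ (S U : Finset (Fin n)), U ⊆ S → (#(S \ U) : ℝ) = #S - #U := by
    intro S U hUS
    rw [cast_card_sdiff hUS]
  -- choose y
  have hB₀sub : B₀ ⊆ Aᶜ := filter_subset _ _
  have hA₀sub : A₀ ⊆ A := filter_subset _ _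
  have hB₀pos : 0 < #B₀ := by
    have := hsd _ _ hB₀sub
    have h' : (0 : ℝ) < #B₀ := by linarith
    exact_mod_cast h'
  obtain ⟨y, hy⟩ := card_pos.mp hB₀pos
  have hyA : y ∉ A := by
    have := hB₀sub hy
    rwa [mem_compl] at this
  have hBdeg : ∀ b ∈ B₀, (#(G.neighborFinset b ∩ A) : ℝ) ≥ #A - N / 10 := by
    intro b hb
    rw [hB₀, mem_filter] at hb
    linarith [hb.2]
  have hAdeg : ∀ a ∈ A₀, (#(G.neighborFinset a) : ℝ) ≥ #(Aᶜ) - N / 10 := by
    intro a ha
    rw [hA₀, mem_filter] at ha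
    linarith [ha.2]
  set Y := G.neighborFinset y ∩ A₀ with hY
  have hYcard : (#Y : ℝ) ≥ 0.3 * N := by
    have h1 : Y = (G.neighborFinset y ∩ A) ∩ A₀ := by
      rw [hY, inter_assoc, inter_eq_right.mpr hA₀sub]
    have h2 := hinter A (G.neighborFinset y ∩ A) A₀ inter_subset_right
    rw [← h1] at h2
    have := hBdeg y hy
    linarith
  -- key claim
  have key : ∀ x ∈ Y, ∃ r ∈ Aᶜ \ B₀, G.Adj x r ∧ ∀ a' ∈ Y, a' ≠ x → ¬ G.Adj r a' := by
    intro x hx
    have hx' := hx
    rw [hY, mem_inter, mem_neighborFinset] at hx'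
    obtain ⟨hyx, hxA₀⟩ := hx'
    have hxA : x ∈ A := hA₀sub hxA₀
    have hxy : G.Adj x y := hyx.symm
    have hne : x ≠ y := hxy.ne
    obtain ⟨c⟩ := hcrit s(x, y) (by rwa [mem_edgeSet])
    have hadj : ∀ p q, G.Adj p q → s(p, q) ≠ s(x, y) → c p ≠ c q := by
      intro p q hpq hs
      apply c.valid
      rw [deleteEdges_adj]
      exact ⟨hpq, by simpa using hs⟩
    -- both ends get the same colour
    have hcxy : c x = c y := by
      by_contra hcon
      apply h3
      refine ⟨Coloring.mk c ?_⟩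
      intro p q hpq
      by_cases hs : s(p, q) = s(x, y)
      · rw [Sym2.eq_iff] at hs
        rcases hs with ⟨rfl, rfl⟩ | ⟨rfl, rfl⟩
        · exact hcon
        · exact fun h => hcon h.symm
      · exact hadj p q hpq hs
    -- colours of neighbours of y in A
    have hYc : ∀ a ∈ Y, a ≠ x → c a ≠ c x := by
      intro a ha hax
      rw [hY, mem_inter, mem_neighborFinset] at ha
      rw [hcxy]
      apply hadj a y ha.1.symm
      intro hs
      rw [Sym2.eq_iff] at hs
      rcases hs with ⟨h1, _⟩ | ⟨h1, _⟩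
      · exact hax h1
      · exact ha.1.ne' h1
    have hXc : ∀ b, G.Adj x b → b ≠ y → c b ≠ c x := by
      intro b hb hby h
      apply hadj x b hb _ h.symm
      intro hs
      rw [Sym2.eq_iff] at hs
      rcases hs with ⟨_, h1⟩ | ⟨h1, h2⟩
      · exact hby h1
      · exact hne h1
    -- the colour on Y \ {x} is constant
    have hconst : ∀ a ∈ Y, a ≠ x → ∀ a' ∈ Y, a' ≠ x → c a = c a' := by
      intro a ha hax a' ha' ha'x
      have ha0 : a ∈ A₀ := (mem_inter.mp (hY ▸ ha)).2
      have ha0' : a' ∈ A₀ := (mem_inter.mp (hY ▸ ha')).2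
      -- a common neighbour
      have h1 := hAdeg a ha0
      have h2 := hAdeg a' ha0'
      have h3' := hAdeg x hxA₀
      have s1 := hnA a (hA₀sub ha0)
      have s2 := hnA a' (hA₀sub ha0')
      have s3 := hnA x hxA
      have t1 := hinter (Aᶜ) (G.neighborFinset a) (G.neighborFinset a') s1
      rw [hsd _ _ s2] at t1
      have t2 := hinter (Aᶜ) (G.neighborFinset a ∩ G.neighborFinset a') (G.neighborFinset x)
        (inter_subset_left.trans s1)
      rw [hsd _ _ s3] at t2
      have t3 : (1 : ℝ) < #((G.neighborFinset a ∩ G.neighborFinset a') ∩ G.neighborFinset x) := by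
        linarith
      have t4 : 1 < #((G.neighborFinset a ∩ G.neighborFinset a') ∩ G.neighborFinset x) := by
        exact_mod_cast t3
      obtain ⟨b, hb, hby⟩ := exists_mem_ne t4 y
      simp only [mem_inter, mem_neighborFinset] at hb
      obtain ⟨⟨hab, ha'b⟩, hxb⟩ := hb
      have e1 : c b ≠ c x := hXc b hxb hby
      have e2 : c a ≠ c x := hYc a ha hax
      have e3 : c a' ≠ c x := hYc a' ha' ha'x
      have e4 : c a ≠ c b := by
        apply hadj a b hab
        intro hs
        rw [Sym2.eq_iff] at hs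
        rcases hs with ⟨h, _⟩ | ⟨_, h⟩
        · exact hax h
        · exact hxb.ne' h
      have e5 : c a' ≠ c b := by
        apply hadj a' b ha'b
        intro hs
        rw [Sym2.eq_iff] at hs
        rcases hs with ⟨h, _⟩ | ⟨_, h⟩
        · exact ha'x h
        · exact hxb.ne' h
      exact fin3_aux _ _ _ _ e1 e2 e3 e4 e5
    -- pick a reference vertex a ∈ Y, a ≠ x
    have hY1 : 1 < #Y := by
      have : (1 : ℝ) < #Y := by linarith
      exact_mod_cast this
    obtain ⟨a, haY, hax⟩ := exists_mem_ne hY1 x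
    -- x has a neighbour r ≠ y of colour c a
    obtain ⟨r, hxr, hry, hcr⟩ : ∃ r, G.Adj x r ∧ r ≠ y ∧ c r = c a := by
      by_contra hcon
      push Not at hcon
      apply h3
      refine ⟨Coloring.mk (Function.update c x (c a)) ?_⟩
      intro p q hpq
      by_cases hp : p = x
      · subst hp
        rw [Function.update_self, Function.update_of_ne hpq.ne']
        by_cases hq : q = y
        · subst hq
          rw [← hcxy]
          exact hYc a haY hax
        · exact (hcon q hpq hq).symm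
      · by_cases hq : q = x
        · subst hq
          rw [Function.update_self, Function.update_of_ne hp]
          by_cases hp' : p = y
          · subst hp'
            rw [← hcxy]
            exact (hYc a haY hax).symm
          · exact hcon p hpq.symm hp'
        · rw [Function.update_of_ne hp, Function.update_of_ne hq]
          apply hadj p q hpq
          intro hs
          rw [Sym2.eq_iff] at hs
          rcases hs with ⟨h, _⟩ | ⟨_, h⟩
          · exact hp h
          · exact hq h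
    have hrA : r ∉ A := fun h => hA x hxA r h hxr
    have hnoadj : ∀ a' ∈ Y, a' ≠ x → ¬ G.Adj r a' := by
      intro a' ha' ha'x h
      have e1 : c a' = c a := hconst a' ha' ha'x a haY hax
      apply hadj r a' h _ (hcr.trans e1.symm)
      intro hs
      rw [Sym2.eq_iff] at hs
      rcases hs with ⟨_, h'⟩ | ⟨h', _⟩
      · rw [hY, mem_inter, mem_neighborFinset] at ha'
        exact ha'.1.ne' h'
      · exact hry h'
    have hrB : r ∉ B₀ := by
      intro hr
      have h1 := hBdeg r hr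
      have h2 := hBdeg y hy
      have t1 := hinter A (G.neighborFinset r ∩ A) (G.neighborFinset y ∩ A) inter_subset_right
      rw [hsd _ _ inter_subset_right] at t1
      have t2 := hinter A ((G.neighborFinset r ∩ A) ∩ (G.neighborFinset y ∩ A)) A₀
        (inter_subset_left.trans inter_subset_right)
      have t3 : (1 : ℝ) < #(((G.neighborFinset r ∩ A) ∩ (G.neighborFinset y ∩ A)) ∩ A₀) := by
        linarith
      have t4 : 1 < #(((G.neighborFinset r ∩ A) ∩ (G.neighborFinset y ∩ A)) ∩ A₀) := by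
        exact_mod_cast t3
      obtain ⟨a', ha', ha'x⟩ := exists_mem_ne t4 x
      simp only [mem_inter, mem_neighborFinset] at ha'
      have ha'Y : a' ∈ Y := by
        rw [hY, mem_inter, mem_neighborFinset]
        exact ⟨ha'.1.2.1, ha'.2⟩
      exact hnoadj a' ha'Y ha'x ha'.1.1.1
    exact ⟨r, by rw [mem_sdiff, mem_compl]; exact ⟨hrA, hrB⟩, hxr, hnoadj⟩
  -- conclude by injectivity
  choose! f hf1 hf2 hf3 using key
  have hinj : Set.InjOn f (Y : Set (Fin n)) := by
    intro x hx x' hx' hfx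
    by_contra hne
    have h1 := hf3 x hx x' hx' (fun h => hne h.symm)
    apply h1
    rw [hfx]
    exact (hf2 x' hx').symm
  have hle : #Y ≤ #(Aᶜ \ B₀) := card_le_card_of_injOn f hf1 hinj
  have hle' : (#Y : ℝ) ≤ #(Aᶜ \ B₀) := by exact_mod_cast hle
  linarith

end aux

/-- There is a constant c < 1/4 such that, for all large n, every triangle-free 4-critical graph on n vertices (chromatic number 4, no isolated vertices, each edge deletion leaves it 3-colorable) has at most c·n² edges. -/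
theorem result :
    ∃ c : ℝ, c < 1 / 4 ∧ ∃ N : ℕ, ∀ n : ℕ, N ≤ n → ∀ G : SimpleGraph (Fin n),
      G.CliqueFree 3 → G.chromaticNumber = 4 → (∀ v : Fin n, ∃ w : Fin n, G.Adj v w) →
      (∀ e ∈ G.edgeSet, (G.deleteEdges {e}).Colorable 3) →
      (G.edgeSet.ncard : ℝ) ≤ c * (n : ℝ) ^ 2 := by
  classical
  refine ⟨99 / 400, by norm_num, 100, ?_⟩
  intro n hn G hT hchi _ hcrit
  by_contra hcon
  push Not at hcon
  have hcard : G.edgeSet.ncard = #G.edgeFinset := by
    rw [← coe_edgeFinset, Set.ncard_coe_finset]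
  rw [hcard] at hcon
  refine core hn G hT ?_ hcrit hcon
  intro h
  have := h.chromaticNumber_le
  rw [hchi] at this
  exact absurd this (by norm_num)

end Pool.Agent.S09637
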