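import Pool.Statements.S09692
-- import your own Pool.Agent.* helpers here

set_option autoImplicit false
open Pool Pool.MP_7cf704_co

namespace Pool.Agent.S09692

/-- Vertices: blobs `v k j i` (6 twins each), single vertices `p k j i`, blobs `b k j` (5 twins each)
and blobs `c k` (2 twins each), for `k, j, i` in `Fin 3`; 240 vertices in total. -/
abbrev Vert : Type :=
  (Fin 3 × Fin 3 × Fin 3 × Fin 6) ⊕ (Fin 3 × Fin 3 × Fin 3) ⊕ (Fin 3 × Fin 3 × Fin 5) ⊕ (Fin 3 × Fin 2)

/-- Adjacency of the 13-regular graph all of whose maximal independent sets pairwise meet. -/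
def adj : Vert → Vert → Bool
  | .inl (k, j, i, _), .inl (k', j', i', _) => decide (k = k') && decide (j = j') && !decide (i = i')
  | .inl (k, j, i, _), .inr (.inl (k', j', i')) =>
      decide (k = k') && decide (j = j') && decide (i = i')
  | .inr (.inl (k, j, i)), .inl (k', j', i', _) =>
      decide (k = k') && decide (j = j') && decide (i = i')
  | .inr (.inl (k, j, _)), .inr (.inr (.inl (k', j', _))) => decide (k = k') && decide (j = j')
  | .inr (.inr (.inl (k, j, _))), .inr (.inl (k', j', _)) => decide (k = k') && decide (j = j')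
  | .inr (.inr (.inl (k, j, _))), .inr (.inr (.inl (k', j', _))) =>
      decide (k = k') && !decide (j = j')
  | .inr (.inl (k, _, _)), .inr (.inr (.inr (k', _))) => decide (k = k')
  | .inr (.inr (.inr (k, _))), .inr (.inl (k', _, _)) => decide (k = k')
  | .inr (.inr (.inr (k, _))), .inr (.inr (.inr (k', _))) => !decide (k = k')
  | _, _ => false

theorem adj_symm (x y : Vert) (h : adj x y = true) : adj y x = true := by
  rcases x with ⟨k, j, i, c⟩ | ⟨k, j, i⟩ | ⟨k, j, c⟩ | ⟨k, c⟩ <;>
  rcases y with ⟨k', j', i', c'⟩ | ⟨k', j', i'⟩ | ⟨k', j', c'⟩ | ⟨k', c'⟩ <;>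
  simp only [adj, Bool.and_eq_true, Bool.not_eq_true', decide_eq_true_eq,
    decide_eq_false_iff_not] at h ⊢ <;> grind

theorem adj_irrefl (x : Vert) : ¬ adj x x = true := by
  rcases x with ⟨k, j, i, c⟩ | ⟨k, j, i⟩ | ⟨k, j, c⟩ | ⟨k, c⟩ <;> simp [adj]

/-- The 13-regular graph. -/
def G0 : SimpleGraph Vert where
  Adj x y := adj x y = true
  symm := ⟨fun x y h => adj_symm x y h⟩
  loopless := ⟨adj_irrefl⟩

instance : DecidableRel G0.Adj := fun x y => inferInstanceAs (Decidable (adj x y = true))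

theorem G0_regular : G0.IsRegularOfDegree 13 := by
  intro v
  revert v
  decide +kernel

/-- Two predicates on `Fin 3`, each holding at most once, fail simultaneously somewhere. -/
theorem pigeon (P Q : Fin 3 → Prop) (hP : ∀ i j, P i → P j → i = j)
    (hQ : ∀ i j, Q i → Q j → i = j) : ∃ i, ¬ P i ∧ ¬ Q i := by
  by_contra hcon
  push Not at hcon
  by_cases h0 : P 0
  · have h1 : Q 1 := hcon 1 (fun h => absurd (hP 0 1 h0 h) (by decide))
    have h2 : Q 2 := hcon 2 (fun h => absurd (hP 0 2 h0 h) (by decide))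
    exact absurd (hQ 1 2 h1 h2) (by decide)
  · have h0' : Q 0 := hcon 0 h0
    by_cases h1 : P 1
    · have h2 : Q 2 := hcon 2 (fun h => absurd (hP 1 2 h1 h) (by decide))
      exact absurd (hQ 0 2 h0' h2) (by decide)
    · exact absurd (hQ 0 1 h0' (hcon 1 h1)) (by decide)

theorem indep_of_clique {s : Set Vert} (hs : G0ᶜ.IsClique s) {x y : Vert} (hx : x ∈ s) (hy : y ∈ s) :
    ¬ adj x y = true := by
  intro h
  by_cases hxy : x = y
  · subst hxy
    exact adj_irrefl x h
  · have := hs hx hy hxy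
    rw [SimpleGraph.compl_adj] at this
    exact this.2 h

theorem dominates {s : Set Vert} (hs : Maximal G0ᶜ.IsClique s) {x : Vert} (hx : x ∉ s) :
    ∃ y ∈ s, adj x y = true := by
  by_contra hcon
  push Not at hcon
  apply hx
  have hins : G0ᶜ.IsClique (insert x s) := by
    intro a ha b hb hab
    rw [SimpleGraph.compl_adj]
    refine ⟨hab, fun hadj => ?_⟩
    rcases ha with rfl | ha <;> rcases hb with rfl | hb
    · exact hab rfl
    · exact hcon b hb hadj
    · exact hcon a ha (adj_symm _ _ hadj)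
    · exact indep_of_clique hs.prop ha hb hadj
  exact hs.le_of_ge hins (Set.subset_insert x s) (Set.mem_insert x s)

/-- The negation of the preceding statement: Every finite simple graph that is regular of some degree and is not complete contains two disjoint cliques, each maximal under inclusion. -/
theorem result :
    ¬ (∀ (V : Type) [Fintype V] [DecidableEq V] (G : SimpleGraph V) [DecidableRel G.Adj] (d : ℕ),
      G.IsRegularOfDegree d → G ≠ ⊤ →
        ∃ s t : Set V, Maximal G.IsClique s ∧ Maximal G.IsClique t ∧ Disjoint s t) := by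
  intro H
  obtain ⟨s, t, hs, ht, hst⟩ := H Vert G0ᶜ _ G0_regular.compl (by
    intro h
    have h1 : G0ᶜ.Adj (.inl (0, 0, 0, 0)) (.inl (0, 0, 1, 0)) := by
      rw [h]; decide
    rw [SimpleGraph.compl_adj] at h1
    exact h1.2 (by decide))
  obtain ⟨k, hks, hkt⟩ := pigeon (fun k => ∃ c, (.inr (.inr (.inr (k, c))) : Vert) ∈ s)
    (fun k => ∃ c, (.inr (.inr (.inr (k, c))) : Vert) ∈ t)
    (by
      rintro i j ⟨c, hc⟩ ⟨c', hc'⟩
      by_contra hij
      exact indep_of_clique hs.prop hc hc' (by simp [adj, hij]))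
    (by
      rintro i j ⟨c, hc⟩ ⟨c', hc'⟩
      by_contra hij
      exact indep_of_clique ht.prop hc hc' (by simp [adj, hij]))
  obtain ⟨j, hjs, hjt⟩ := pigeon (fun j => ∃ c, (.inr (.inr (.inl (k, j, c))) : Vert) ∈ s)
    (fun j => ∃ c, (.inr (.inr (.inl (k, j, c))) : Vert) ∈ t)
    (by
      rintro i j ⟨c, hc⟩ ⟨c', hc'⟩
      by_contra hij
      exact indep_of_clique hs.prop hc hc' (by simp [adj, hij]))
    (by
      rintro i j ⟨c, hc⟩ ⟨c', hc'⟩
      by_contra hij
      exact indep_of_clique ht.prop hc hc' (by simp [adj, hij]))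
  obtain ⟨i, his, hit⟩ := pigeon (fun i => ∃ c, (.inl (k, j, i, c) : Vert) ∈ s)
    (fun i => ∃ c, (.inl (k, j, i, c) : Vert) ∈ t)
    (by
      rintro i j ⟨c, hc⟩ ⟨c', hc'⟩
      by_contra hij
      exact indep_of_clique hs.prop hc hc' (by simp [adj, hij]))
    (by
      rintro i j ⟨c, hc⟩ ⟨c', hc'⟩
      by_contra hij
      exact indep_of_clique ht.prop hc hc' (by simp [adj, hij]))
  have key : ∀ r : Set Vert, Maximal G0ᶜ.IsClique r →
      (¬ ∃ c, (.inr (.inr (.inr (k, c))) : Vert) ∈ r) →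
      (¬ ∃ c, (.inr (.inr (.inl (k, j, c))) : Vert) ∈ r) →
      (¬ ∃ c, (.inl (k, j, i, c) : Vert) ∈ r) → (.inr (.inl (k, j, i)) : Vert) ∈ r := by
    intro r hr h1 h2 h3
    by_contra hp
    obtain ⟨y, hy, hadj⟩ := dominates hr hp
    rcases y with ⟨k', j', i', c'⟩ | ⟨k', j', i'⟩ | ⟨k', j', c'⟩ | ⟨k', c'⟩
    · simp only [adj, Bool.and_eq_true, decide_eq_true_eq] at hadj
      obtain ⟨⟨rfl, rfl⟩, rfl⟩ := hadj
      exact h3 ⟨c', hy⟩
    · simp [adj] at hadj
    · simp only [adj, Bool.and_eq_true, decide_eq_true_eq] at hadj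
      obtain ⟨rfl, rfl⟩ := hadj
      exact h2 ⟨c', hy⟩
    · simp only [adj, decide_eq_true_eq] at hadj
      subst hadj
      exact h1 ⟨c', hy⟩
  exact Set.disjoint_left.1 hst (key s hs hks hjs his) (key t ht hkt hjt hit)

end Pool.Agent.S09692
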