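import Pool.Statements.S09874

set_option autoImplicit false
open Pool Pool.MP_85fffe_co

namespace Pool.Agent.S09874

/-- The interval `0, …, 4L` without its midpoint. -/
def XN (L : ℕ) : Finset ℕ := (Finset.range (4 * L + 1)).filter (fun x => x ≠ 2 * L)

/-- The set of all `x` with `x + t ∈ XN L` for `t = 0`, `t = L` and all `t ∈ T`. -/
noncomputable def AN (L : ℕ) (T : Finset ℕ) : Finset ℕ :=
  open scoped Classical in
  (Finset.range (3 * L + 1)).filter (fun x : ℕ => ∀ t ∈ (insert 0 (insert L T) : Finset ℕ), x + t ≠ 2 * L)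

/-- Cast of a finite set of naturals to the reals. -/
noncomputable def cst (A : Finset ℕ) : Finset ℝ := A.image (fun n : ℕ => (n : ℝ))

lemma mem_cst {A : Finset ℕ} {x : ℝ} : x ∈ cst A ↔ ∃ n ∈ A, (n : ℝ) = x := by
  simp [cst]

lemma cast_mem_cst {A : Finset ℕ} {n : ℕ} : (n : ℝ) ∈ cst A ↔ n ∈ A := by
  rw [mem_cst]
  constructor
  · rintro ⟨m, hm, h⟩
    have : m = n := by exact_mod_cast h
    exact this ▸ hm
  · intro h
    exact ⟨n, h, rfl⟩

lemma mem_XN {L x : ℕ} : x ∈ XN L ↔ x ≤ 4 * L ∧ x ≠ 2 * L := by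
  simp [XN]

lemma mem_AN {L x : ℕ} {T : Finset ℕ} :
    x ∈ AN L T ↔ x ≤ 3 * L ∧ ∀ t ∈ (insert 0 (insert L T) : Finset ℕ), x + t ≠ 2 * L := by
  simp only [AN, Finset.mem_filter, Finset.mem_range, Nat.lt_succ_iff]

lemma zero_mem {L : ℕ} (hL : 0 < L) {T : Finset ℕ} (hT : ∀ t ∈ T, t < L) : 0 ∈ AN L T := by
  rw [mem_AN]
  refine ⟨Nat.zero_le _, ?_⟩
  intro t ht
  rcases Finset.mem_insert.1 ht with rfl | ht
  · omega
  rcases Finset.mem_insert.1 ht with rfl | ht
  · omega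
  have := hT t ht
  omega

lemma trans_sub {L : ℕ} {T : Finset ℕ} (hT : ∀ t ∈ T, t < L) {t : ℕ}
    (ht : t ∈ (insert 0 (insert L T) : Finset ℕ)) : (cst (AN L T)).image (· + (t : ℝ)) ⊆ cst (XN L) := by
  intro x hx
  rcases Finset.mem_image.1 hx with ⟨y, hy, rfl⟩
  rcases mem_cst.1 hy with ⟨n, hn, rfl⟩
  have h1 : (n : ℝ) + (t : ℝ) = ((n + t : ℕ) : ℝ) := by push_cast; ring
  rw [h1, cast_mem_cst, mem_XN]
  rw [mem_AN] at hn
  have h2 : t ≤ L := by
    rcases Finset.mem_insert.1 ht with rfl | ht'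
    · omega
    rcases Finset.mem_insert.1 ht' with rfl | ht'
    · exact le_refl _
    exact (hT t ht').le
  exact ⟨by omega, hn.2 t ht⟩

lemma AN_inj {L : ℕ} {T T' : Finset ℕ} (hT : ∀ t ∈ T, 0 < t ∧ t < L)
    (h : AN L T = AN L T') : T ⊆ T' := by
  intro t ht
  have h1 := hT t ht
  have h2 : 2 * L - t ∉ AN L T := by
    rw [mem_AN]
    rintro ⟨_, h3⟩
    exact h3 t (by simp [ht]) (by omega)
  rw [h] at h2
  by_contra hcon
  apply h2
  rw [mem_AN]
  refine ⟨by omega, ?_⟩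
  intro s hs h3
  have h4 : s = t := by omega
  subst h4
  rcases Finset.mem_insert.1 hs with h5 | hs
  · omega
  rcases Finset.mem_insert.1 hs with h5 | hs
  · omega
  exact hcon hs

lemma cst_inj {A B : Finset ℕ} (h : cst A = cst B) : A = B := by
  ext n
  rw [← cast_mem_cst (A := A), h, cast_mem_cst]

/-- The negation of the preceding statement: There is a constant C such that for every finite set X of n reals, any family of maximally repeated patterns of X, no two of which are translates of each other, has at most C·n members. -/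
theorem result :
    ¬ (∃ C : ℕ, ∀ X : Finset ℝ, ∀ S : Finset (Finset ℝ),
      (∀ A ∈ S,
        A.Nonempty ∧ A ⊆ X ∧
        (∃ t : ℝ, t ≠ 0 ∧ A.image (· + t) ⊆ X) ∧
        (∀ B : Finset ℝ, A ⊂ B →
          ¬ (∀ t : ℝ, A.image (· + t) ⊆ X → B.image (· + t) ⊆ X))) →
      (∀ A ∈ S, ∀ B ∈ S, ∀ t : ℝ, B = A.image (· + t) → A = B) →
      S.card ≤ C * X.card) := by
  rintro ⟨C, hC⟩
  -- choose `L` with `2 ^ (L - 1) > C * (4 * L + 1)`
  obtain ⟨L, hL0, hL⟩ : ∃ L : ℕ, 0 < L ∧ C * (4 * L + 1) < 2 ^ (L - 1) := by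
    have h1 : Filter.Tendsto (fun n : ℕ => ((n : ℝ)) / 2 ^ n) Filter.atTop (nhds 0) := by
      have := tendsto_pow_const_div_const_pow_of_one_lt 1 (r := (2 : ℝ)) (by norm_num)
      simpa using this
    have h2 : Filter.Tendsto (fun n : ℕ => (1 : ℝ) / 2 ^ n) Filter.atTop (nhds 0) := by
      have := tendsto_pow_const_div_const_pow_of_one_lt 0 (r := (2 : ℝ)) (by norm_num)
      simpa using this
    have h3 : Filter.Tendsto (fun n : ℕ => (C : ℝ) * (4 * ((n : ℝ) / 2 ^ n) + 5 * ((1 : ℝ) / 2 ^ n)))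
        Filter.atTop (nhds ((C : ℝ) * (4 * 0 + 5 * 0))) :=
      ((h1.const_mul 4).add (h2.const_mul 5)).const_mul (C : ℝ)
    have h4 : ∀ᶠ n : ℕ in Filter.atTop,
        (C : ℝ) * (4 * ((n : ℝ) / 2 ^ n) + 5 * ((1 : ℝ) / 2 ^ n)) < 1 :=
      h3.eventually (gt_mem_nhds (by norm_num))
    obtain ⟨n, hn⟩ := h4.exists
    refine ⟨n + 1, Nat.succ_pos _, ?_⟩
    have h5 : (0 : ℝ) < 2 ^ n := by positivity
    have h6 : (C : ℝ) * (4 * ((n : ℝ) / 2 ^ n) + 5 * ((1 : ℝ) / 2 ^ n))
        = (C : ℝ) * (4 * (n : ℝ) + 5) / 2 ^ n := by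
      field_simp
    rw [h6, div_lt_one h5] at hn
    have h7 : ((C * (4 * (n + 1) + 1) : ℕ) : ℝ) < ((2 ^ (n + 1 - 1) : ℕ) : ℝ) := by
      rw [Nat.add_sub_cancel]
      push_cast
      calc (C : ℝ) * (4 * ((n : ℝ) + 1) + 1) = (C : ℝ) * (4 * (n : ℝ) + 5) := by ring
        _ < 2 ^ n := hn
    exact_mod_cast h7
  have key := hC (cst (XN L)) (((Finset.Ioo 0 L).powerset).image (fun T => cst (AN L T))) ?_ ?_
  · have hcard : (((Finset.Ioo 0 L).powerset).image (fun T => cst (AN L T))).card = 2 ^ (L - 1) := by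
      rw [Finset.card_image_of_injOn, Finset.card_powerset, Nat.card_Ioo, Nat.sub_zero]
      intro T hT T' hT' h
      have hT1 : ∀ t ∈ T, 0 < t ∧ t < L := fun t ht =>
        Finset.mem_Ioo.1 (Finset.mem_powerset.1 (Finset.mem_coe.1 hT) ht)
      have hT2 : ∀ t ∈ T', 0 < t ∧ t < L := fun t ht =>
        Finset.mem_Ioo.1 (Finset.mem_powerset.1 (Finset.mem_coe.1 hT') ht)
      have h1 := cst_inj h
      exact Finset.Subset.antisymm (AN_inj hT1 h1) (AN_inj hT2 h1.symm)
    have hX : (cst (XN L)).card ≤ 4 * L + 1 := by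
      calc (cst (XN L)).card ≤ (XN L).card := Finset.card_image_le
        _ ≤ (Finset.range (4 * L + 1)).card := Finset.card_filter_le _ _
        _ = 4 * L + 1 := Finset.card_range _
    rw [hcard] at key
    have := Nat.mul_le_mul_left C hX
    omega
  · intro A hA
    rcases Finset.mem_image.1 hA with ⟨T, hT, rfl⟩
    have hT1 : ∀ t ∈ T, 0 < t ∧ t < L := fun t ht =>
      Finset.mem_Ioo.1 (Finset.mem_powerset.1 hT ht)
    have hT2 : ∀ t ∈ T, t < L := fun t ht => (hT1 t ht).2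
    refine ⟨⟨0, ?_⟩, ?_, ⟨L, ?_, ?_⟩, ?_⟩
    · have := cast_mem_cst.2 (zero_mem hL0 hT2)
      simpa using this
    · have := trans_sub hT2 (t := 0) (by simp)
      intro x hx
      apply this
      refine Finset.mem_image.2 ⟨x, hx, by simp⟩
    · exact_mod_cast hL0.ne'
    · exact trans_sub hT2 (by simp)
    · intro B hB hcon
      obtain ⟨hsub, hne⟩ := Finset.ssubset_iff_subset_ne.1 hB
      apply hne
      apply Finset.Subset.antisymm hsub
      intro b hb
      have h0 : ∀ t ∈ (insert 0 (insert L T) : Finset ℕ), b + (t : ℝ) ∈ cst (XN L) := fun t ht =>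
        hcon t (trans_sub hT2 ht) (Finset.mem_image.2 ⟨b, hb, rfl⟩)
      have h1 := h0 0 (by simp)
      rw [Nat.cast_zero, add_zero] at h1
      obtain ⟨m, hm, rfl⟩ := mem_cst.1 h1
      rw [cast_mem_cst, mem_AN]
      have h2 : ∀ t ∈ (insert 0 (insert L T) : Finset ℕ), m + t ≤ 4 * L ∧ m + t ≠ 2 * L := by
        intro t ht
        have h3 := h0 t ht
        have h4 : (m : ℝ) + (t : ℝ) = ((m + t : ℕ) : ℝ) := by push_cast; ring
        rw [h4, cast_mem_cst, mem_XN] at h3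
        exact h3
      refine ⟨?_, fun t ht => (h2 t ht).2⟩
      have := (h2 L (by simp)).1
      omega
  · intro A hA B hB t h
    rcases Finset.mem_image.1 hA with ⟨T, hT, rfl⟩
    rcases Finset.mem_image.1 hB with ⟨T', hT', rfl⟩
    have hT2 : ∀ t ∈ T, t < L := fun t ht =>
      (Finset.mem_Ioo.1 (Finset.mem_powerset.1 hT ht)).2
    have hT2' : ∀ t ∈ T', t < L := fun t ht =>
      (Finset.mem_Ioo.1 (Finset.mem_powerset.1 hT' ht)).2
    have hz : (0 : ℝ) ∈ cst (AN L T) := by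
      have := cast_mem_cst.2 (zero_mem hL0 hT2)
      simpa using this
    have hz' : (0 : ℝ) ∈ cst (AN L T') := by
      have := cast_mem_cst.2 (zero_mem hL0 hT2')
      simpa using this
    have h1 : 0 ≤ t := by
      have : (0 : ℝ) + t ∈ cst (AN L T') := by
        rw [h]
        exact Finset.mem_image.2 ⟨0, hz, rfl⟩
      obtain ⟨n, _, hn⟩ := mem_cst.1 this
      rw [zero_add] at hn
      rw [← hn]
      positivity
    have h2 : t ≤ 0 := by
      rw [h] at hz'
      obtain ⟨y, hy, hy2⟩ := Finset.mem_image.1 hz'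
      obtain ⟨n, _, hn⟩ := mem_cst.1 hy
      have : (0 : ℝ) ≤ y := by rw [← hn]; positivity
      linarith
    have h3 : t = 0 := le_antisymm h2 h1
    subst h3
    rw [h]
    ext x
    simp
end Pool.Agent.S09874
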