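import Pool.Statements.S09932

/-!
# Minimum arc-strong spanning subdigraphs of tournaments: a counterexample

The tournament `T` (arc set `arcs`) has 38 vertices and is 7-arc-strong.  Its vertex set is
partitioned into `X` (15 vertices), `Y` (15 vertices) and `Z` (8 vertices).  Counting the arcs of a
spanning subdigraph `H` with all in- and out-degrees at least 7 by the out-degrees of `Y ∪ Z` and
the in-degrees of `X ∪ Z` gives
`|H| ≥ 7 * 46 - e_T(Y ∪ Z, X ∪ Z) + e_H(X, Y) = 278 + e_H(X, Y)`.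
There is such an `H` with 278 arcs (`sub`).  A 7-arc-strong `H` with at most 278 arcs would use no
arc from `X` to `Y`, but the set `cutS` has exactly 7 out-going arcs in `T`, one of which is an arc
from `X` to `Y`.
That `T` is 7-arc-strong is certified by 7 arc-disjoint out-branchings and 7 arc-disjoint
in-branchings with root 0.
-/

set_option autoImplicit false
open Pool Pool.MP_883534_co

namespace Pool.Agent.S09932

def rowsA : List Nat :=
  [231928500222, 524268, 137439215608, 137439477744, 137439477730, 8128, 16256, 32512, 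
  65024, 130048, 260096, 520192, 516097, 507937, 491617, 458977, 393697, 263137, 2020, 
  128982712319, 129115881471, 129382219775, 129914896383, 130980249599, 133110956031, 
  206091845631, 274744213503, 274610520063, 274343133183, 273808359423, 272738811903, 
  270599716863, 266321526783, 188979085310, 240518692862, 206158954495, 146062966782,
  33554402]

def rowsB : List Nat :=
  [94489280542, 1004, 137438968856, 137439461392, 137438954466, 8128, 16256, 32512, 65024, 
  130048, 260096, 520192, 516097, 507937, 491617, 458977, 393697, 263137, 2020, 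
  51672776704, 86165684224, 86432022528, 104144568320, 105209921536, 38621151232, 
  42882564096, 17045651456, 16911958016, 16644571136, 16109797376, 15040249856, 
  21491089408, 17212899328, 188978561054, 240518168606, 206158430239, 146062442526,
  33030146]

def parOut : List (List Nat) :=
  [[0, 34, 34, 0, 3, 0, 0, 0, 0, 0, 0, 0, 3, 9, 11, 3, 11, 34, 0, 27, 37, 20, 20, 20, 20,
  20, 20, 20, 21, 23, 25, 26, 27, 36, 0, 34, 34, 34],
   [0, 0, 1, 1, 2, 1, 1, 1, 1, 1, 1, 1, 1, 1, 1, 1, 1, 1, 1, 28, 29, 37, 21, 21, 21, 21,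
  21, 21, 25, 22, 23, 25, 25, 21, 21, 21, 21, 3],
   [0, 4, 18, 2, 0, 4, 4, 4, 4, 4, 4, 4, 4, 4, 4, 4, 4, 4, 4, 31, 31, 30, 30, 31, 37, 24,
  24, 24, 24, 24, 24, 24, 31, 24, 24, 24, 24, 4],
   [0, 33, 33, 33, 33, 33, 33, 33, 33, 33, 33, 33, 33, 33, 33, 33, 33, 33, 33, 37, 19, 19,
  19, 19, 19, 19, 19, 26, 22, 25, 26, 27, 26, 0, 33, 33, 35, 33],
   [0, 37, 0, 23, 23, 2, 2, 2, 2, 2, 2, 2, 2, 2, 2, 2, 2, 2, 11, 30, 28, 29, 31, 37, 23,
  23, 23, 23, 23, 26, 28, 28, 28, 23, 23, 23, 23, 2],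
   [0, 36, 36, 36, 36, 36, 36, 36, 36, 36, 36, 36, 36, 36, 36, 36, 36, 36, 36, 29, 30, 31,
  32, 32, 32, 36, 25, 25, 26, 27, 27, 30, 29, 25, 25, 25, 0, 36],
   [0, 22, 22, 22, 22, 37, 37, 37, 37, 37, 37, 37, 37, 37, 37, 37, 37, 37, 37, 32, 32, 32,
  37, 22, 22, 22, 22, 22, 27, 28, 29, 29, 30, 22, 22, 22, 22, 0]]

def rkOut : List (List Nat) :=
  [[0, 2, 2, 1, 2, 1, 1, 1, 1, 1, 1, 1, 2, 2, 2, 2, 2, 2, 1, 5, 3, 4, 4, 4, 4, 4, 4, 4, 5,
  5, 5, 5, 5, 3, 1, 2, 2, 2],
   [0, 1, 2, 2, 3, 2, 2, 2, 2, 2, 2, 2, 2, 2, 2, 2, 2, 2, 2, 7, 7, 4, 5, 5, 5, 5, 5, 5, 6,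
  6, 6, 6, 6, 5, 5, 5, 5, 3],
   [0, 2, 3, 4, 1, 2, 2, 2, 2, 2, 2, 2, 2, 2, 2, 2, 2, 2, 2, 5, 5, 5, 5, 5, 3, 4, 4, 4, 4,
  4, 4, 4, 5, 4, 4, 4, 4, 2],
   [0, 2, 2, 2, 2, 2, 2, 2, 2, 2, 2, 2, 2, 2, 2, 2, 2, 2, 2, 3, 4, 4, 4, 4, 4, 4, 4, 5, 5,
  5, 5, 6, 5, 1, 2, 2, 3, 2],
   [0, 3, 1, 4, 4, 2, 2, 2, 2, 2, 2, 2, 2, 2, 2, 2, 2, 2, 3, 6, 5, 6, 6, 3, 4, 4, 4, 4, 4,
  5, 5, 5, 5, 4, 4, 4, 4, 2],
   [0, 2, 2, 2, 2, 2, 2, 2, 2, 2, 2, 2, 2, 2, 2, 2, 2, 2, 2, 5, 5, 6, 6, 6, 6, 2, 3, 3, 4,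
  4, 4, 5, 5, 3, 3, 3, 1, 2],
   [0, 3, 3, 3, 3, 2, 2, 2, 2, 2, 2, 2, 2, 2, 2, 2, 2, 2, 2, 8, 8, 8, 2, 3, 3, 3, 3, 3, 4,
  5, 6, 6, 7, 3, 3, 3, 3, 1]]

def parIn : List (List Nat) :=
  [[0, 15, 15, 15, 15, 10, 9, 12, 15, 15, 15, 15, 15, 15, 15, 0, 8, 8, 9, 0, 0, 0, 0, 0, 0,
  0, 0, 0, 0, 0, 0, 0, 0, 15, 15, 15, 25, 22],
   [0, 12, 12, 12, 12, 12, 12, 11, 12, 12, 12, 12, 0, 5, 6, 5, 5, 6, 8, 12, 12, 12, 12, 12,
  12, 12, 12, 12, 12, 12, 12, 12, 12, 12, 12, 12, 12, 12],
   [0, 17, 17, 17, 17, 11, 11, 13, 13, 16, 17, 17, 17, 17, 17, 17, 17, 0, 10, 17, 17, 17,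
  17, 17, 17, 17, 17, 17, 17, 17, 17, 17, 17, 17, 17, 17, 17, 17],
   [0, 14, 14, 14, 14, 9, 8, 14, 14, 14, 14, 14, 14, 14, 0, 7, 7, 7, 7, 14, 14, 14, 14, 14,
  14, 14, 14, 14, 14, 14, 14, 14, 14, 14, 14, 14, 14, 14],
   [0, 16, 16, 16, 16, 6, 13, 10, 11, 11, 16, 16, 16, 16, 16, 16, 0, 9, 6, 16, 16, 16, 16,
  16, 16, 16, 16, 16, 16, 16, 16, 16, 16, 16, 16, 16, 16, 16],
   [0, 3, 37, 37, 37, 7, 10, 9, 10, 13, 11, 18, 18, 18, 18, 18, 18, 18, 2, 35, 35, 35, 35,
  35, 35, 35, 35, 35, 35, 35, 35, 35, 35, 35, 35, 0, 33, 24],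
   [0, 13, 13, 13, 13, 8, 7, 8, 9, 10, 13, 13, 13, 0, 5, 6, 6, 5, 5, 13, 13, 13, 13, 13,
  13, 13, 13, 13, 13, 13, 13, 13, 13, 13, 13, 13, 13, 13]]

def rkIn : List (List Nat) :=
  [[0, 2, 2, 2, 2, 3, 3, 3, 2, 2, 2, 2, 2, 2, 2, 1, 3, 3, 3, 1, 1, 1, 1, 1, 1, 1, 1, 1, 1,
  1, 1, 1, 1, 2, 2, 2, 2, 2],
   [0, 2, 2, 2, 2, 2, 2, 3, 2, 2, 2, 2, 1, 3, 3, 3, 3, 3, 3, 2, 2, 2, 2, 2, 2, 2, 2, 2, 2,
  2, 2, 2, 2, 2, 2, 2, 2, 2],
   [0, 2, 2, 2, 2, 3, 3, 3, 3, 3, 2, 2, 2, 2, 2, 2, 2, 1, 3, 2, 2, 2, 2, 2, 2, 2, 2, 2, 2,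
  2, 2, 2, 2, 2, 2, 2, 2, 2],
   [0, 2, 2, 2, 2, 3, 3, 2, 2, 2, 2, 2, 2, 2, 1, 3, 3, 3, 3, 2, 2, 2, 2, 2, 2, 2, 2, 2, 2,
  2, 2, 2, 2, 2, 2, 2, 2, 2],
   [0, 2, 2, 2, 2, 4, 3, 3, 3, 3, 2, 2, 2, 2, 2, 2, 1, 4, 4, 2, 2, 2, 2, 2, 2, 2, 2, 2, 2,
  2, 2, 2, 2, 2, 2, 2, 2, 2],
   [0, 5, 4, 4, 4, 9, 8, 8, 8, 7, 7, 6, 6, 6, 6, 6, 6, 6, 5, 2, 2, 2, 2, 2, 2, 2, 2, 2, 2,
  2, 2, 2, 2, 2, 2, 1, 3, 3],
   [0, 2, 2, 2, 2, 5, 6, 5, 4, 3, 2, 2, 2, 1, 6, 7, 7, 6, 6, 2, 2, 2, 2, 2, 2, 2, 2, 2, 2,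
  2, 2, 2, 2, 2, 2, 2, 2, 2]]

/-- Adjacency test: bit `v` of row `u`. -/
def bit (rows : List Nat) (u v : Nat) : Bool := (rows.getD u 0).testBit v

/-- Table look-up. -/
def look (t : List (List Nat)) (i v : Nat) : Nat := (t.getD i []).getD v 0

/-- The arc set of the tournament. -/
def arcs : Finset (Fin 38 × Fin 38) := Finset.univ.filter fun e => bit rowsA e.1 e.2 = true

/-- The arc set of the small subdigraph with all in- and out-degrees at least 7. -/
def sub : Finset (Fin 38 × Fin 38) := Finset.univ.filter fun e => bit rowsB e.1 e.2 = true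

/-- membership in `Y ∪ Z` -/
def inYZ (v : Fin 38) : Bool := !((v.1 == 0) || (19 ≤ v.1 && v.1 ≤ 32))

/-- membership in `X ∪ Z` -/
def inXZ (v : Fin 38) : Bool := !((v.1 == 37) || (5 ≤ v.1 && v.1 ≤ 18))

/-- the vertex set of the small cut -/
def cutS : Finset (Fin 38) := Finset.univ.filter fun v => v.1 ≤ 18

theorem mem_arcs (u v : Fin 38) : (u, v) ∈ arcs ↔ bit rowsA u v = true := by
  simp [arcs]

theorem mem_sub (u v : Fin 38) : (u, v) ∈ sub ↔ bit rowsB u v = true := by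
  simp [sub]

theorem irrefl_check : ∀ u : Fin 38, bit rowsA u u = false := by decide +kernel

theorem tour_check : ∀ u v : Fin 38, u ≠ v → bit rowsA u v = !(bit rowsA v u) := by
  decide +kernel

theorem sub_check : ∀ u v : Fin 38, bit rowsB u v = true → bit rowsA u v = true := by
  decide +kernel

theorem sub_card : sub.card = 278 := by decide +kernel

theorem deg_check : ∀ v : Fin 38, 7 ≤ (sub.filter (fun e => e.1 = v)).card ∧
    7 ≤ (sub.filter (fun e => e.2 = v)).card := by decide +kernel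

theorem cost_check : (arcs.filter (fun e => inYZ e.1 = true ∧ inXZ e.2 = true)).card = 44 := by
  decide +kernel

theorem cut_check : (arcs.filter (fun e => (e.1 ∈ cutS ∧ e.2 ∉ cutS) ∧
    ¬ (inYZ e.1 = false ∧ inXZ e.2 = false))).card = 6 := by decide +kernel

theorem yz_card : (Finset.univ.filter (fun v => inYZ v = true)).card = 23 := by decide +kernel

theorem xz_card : (Finset.univ.filter (fun v => inXZ v = true)).card = 23 := by decide +kernel

theorem out_check : ∀ i : Fin 7, ∀ v : Fin 38, v ≠ 0 →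
    look parOut i v < 38 ∧ bit rowsA (look parOut i v) v = true ∧
      look rkOut i (look parOut i v) < look rkOut i v := by decide +kernel

theorem in_check : ∀ i : Fin 7, ∀ v : Fin 38, v ≠ 0 →
    look parIn i v < 38 ∧ bit rowsA v (look parIn i v) = true ∧
      look rkIn i (look parIn i v) < look rkIn i v := by decide +kernel

theorem out_disj : ∀ i j : Fin 7, ∀ v : Fin 38, v ≠ 0 → look parOut i v = look parOut j v →
    i = j := by decide +kernel

theorem in_disj : ∀ i j : Fin 7, ∀ v : Fin 38, v ≠ 0 → look parIn i v = look parIn j v →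
    i = j := by decide +kernel

/-- Each branching crosses each cut. -/
theorem exists_cross (P : Fin 38 → Prop) [DecidablePred P] (h0 : P 0) (p : Fin 38 → Nat)
    (r : Nat → Nat) (hp : ∀ v : Fin 38, v ≠ 0 → p v < 38 ∧ r (p v) < r v) (v : Fin 38)
    (hv : ¬ P v) : ∃ w : Fin 38, ¬ P w ∧ w ≠ 0 ∧ ∃ h : p w < 38, P ⟨p w, h⟩ := by
  induction hn : r v using Nat.strong_induction_on generalizing v with
  | _ n ih =>
    have hv0 : v ≠ 0 := fun h => hv (h ▸ h0)
    obtain ⟨h1, h2⟩ := hp v hv0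
    by_cases hP : P ⟨p v, h1⟩
    · exact ⟨v, hv, hv0, h1, hP⟩
    · exact ih (r (p v)) (by omega) ⟨p v, h1⟩ hP rfl

theorem strong (S : Finset (Fin 38)) (hS : S.Nonempty) (hS' : S ≠ Finset.univ) :
    7 ≤ (arcs.filter (fun e => e.1 ∈ S ∧ e.2 ∉ S)).card := by
  classical
  by_cases h0 : (0 : Fin 38) ∈ S
  · obtain ⟨v, hv⟩ : ∃ v, v ∉ S := by
      by_contra hcon
      push Not at hcon
      exact hS' (Finset.eq_univ_iff_forall.2 hcon)
    have key : ∀ i : Fin 7, ∃ w : Fin 38, w ∉ S ∧ w ≠ 0 ∧ ∃ h : look parOut i w < 38,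
        (⟨look parOut i w, h⟩ : Fin 38) ∈ S := fun i =>
      exists_cross (fun v => v ∈ S) h0 (fun v => look parOut i v) (fun v => look rkOut i v)
        (fun v hv => ⟨(out_check i v hv).1, (out_check i v hv).2.2⟩) v hv
    choose w hw1 hw2 hw3 hw4 using key
    have hinj : Function.Injective
        (fun i : Fin 7 => ((⟨look parOut i (w i), hw3 i⟩ : Fin 38), w i)) := by
      intro i j hij
      have h1 : w i = w j := congrArg Prod.snd hij
      have h2 : look parOut i (w i) = look parOut j (w j) := by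
        have := congrArg Prod.fst hij
        exact congrArg Fin.val this
      rw [← h1] at h2
      exact out_disj i j (w i) (hw2 i) h2
    have := Finset.card_le_card_of_injOn (s := (Finset.univ : Finset (Fin 7)))
      (t := arcs.filter (fun e => e.1 ∈ S ∧ e.2 ∉ S))
      (fun i : Fin 7 => ((⟨look parOut i (w i), hw3 i⟩ : Fin 38), w i))
      (by
        intro i _
        simp only [Finset.coe_filter, Set.mem_ofPred_eq]
        refine ⟨(mem_arcs _ _).2 ?_, hw4 i, hw1 i⟩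
        exact (out_check i (w i) (hw2 i)).2.1)
      (hinj.injOn)
    simpa using this
  · obtain ⟨v, hv⟩ := hS
    have key : ∀ i : Fin 7, ∃ w : Fin 38, ¬ (w ∉ S) ∧ w ≠ 0 ∧ ∃ h : look parIn i w < 38,
        (⟨look parIn i w, h⟩ : Fin 38) ∉ S := fun i =>
      exists_cross (fun v => v ∉ S) h0 (fun v => look parIn i v) (fun v => look rkIn i v)
        (fun v hv => ⟨(in_check i v hv).1, (in_check i v hv).2.2⟩) v (not_not.2 hv)
    choose w hw1 hw2 hw3 hw4 using key
    have hinj : Function.Injective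
        (fun i : Fin 7 => (w i, (⟨look parIn i (w i), hw3 i⟩ : Fin 38))) := by
      intro i j hij
      have h1 : w i = w j := congrArg Prod.fst hij
      have h2 : look parIn i (w i) = look parIn j (w j) := by
        have := congrArg Prod.snd hij
        exact congrArg Fin.val this
      rw [← h1] at h2
      exact in_disj i j (w i) (hw2 i) h2
    have := Finset.card_le_card_of_injOn (s := (Finset.univ : Finset (Fin 7)))
      (t := arcs.filter (fun e => e.1 ∈ S ∧ e.2 ∉ S))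
      (fun i : Fin 7 => (w i, (⟨look parIn i (w i), hw3 i⟩ : Fin 38)))
      (by
        intro i _
        simp only [Finset.coe_filter, Set.mem_ofPred_eq]
        refine ⟨(mem_arcs _ _).2 ?_, not_not.1 (hw1 i), hw4 i⟩
        exact (in_check i (w i) (hw2 i)).2.1)
      (hinj.injOn)
    simpa using this

/-- The negation of the preceding statement: In any k-arc-strong tournament (k≥1), for every spanning subdigraph with all in- and out-degrees at least k there is a spanning k-arc-strong subdigraph with at most as many arcs; that is, the two minimum arc counts coincide. -/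
theorem result :
    ¬ (∀ (n k : ℕ) (A : Finset (Fin n × Fin n)), 1 ≤ k →
      (∀ u : Fin n, (u, u) ∉ A) →
      (∀ u v : Fin n, u ≠ v → ((u, v) ∈ A ↔ (v, u) ∉ A)) →
      (∀ S : Finset (Fin n), S.Nonempty → S ≠ Finset.univ →
          k ≤ (A.filter (fun e => e.1 ∈ S ∧ e.2 ∉ S)).card) →
      ∀ B ⊆ A,
        (∀ v : Fin n, k ≤ (B.filter (fun e => e.1 = v)).card ∧
                      k ≤ (B.filter (fun e => e.2 = v)).card) →
        ∃ C ⊆ A, C.card ≤ B.card ∧
          ∀ S : Finset (Fin n), S.Nonempty → S ≠ Finset.univ →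
            k ≤ (C.filter (fun e => e.1 ∈ S ∧ e.2 ∉ S)).card) := by
  classical
  intro H
  obtain ⟨C, hCA, hCcard, hC⟩ := H 38 7 arcs (by norm_num)
    (fun u hu => by
      have h1 := (mem_arcs u u).1 hu
      rw [irrefl_check u] at h1
      exact Bool.false_ne_true h1)
    (fun u v huv => by
      rw [mem_arcs, mem_arcs, tour_check u v huv]
      cases bit rowsA v u <;> simp)
    strong sub
    (fun e he => by
      obtain ⟨u, v⟩ := e
      exact (mem_arcs u v).2 (sub_check u v ((mem_sub u v).1 he)))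
    deg_check
  rw [sub_card] at hCcard
  -- degrees in `C`
  have hout : ∀ v : Fin 38, 7 ≤ (C.filter (fun e => e.1 = v)).card := by
    intro v
    have h1 := hC {v} (Finset.singleton_nonempty v) (by
      intro h
      have := congrArg Finset.card h
      simp at this)
    refine h1.trans (Finset.card_le_card ?_)
    intro e he
    rw [Finset.mem_filter] at he ⊢
    exact ⟨he.1, Finset.mem_singleton.1 he.2.1⟩
  have hin : ∀ v : Fin 38, 7 ≤ (C.filter (fun e => e.2 = v)).card := by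
    intro v
    have h1 := hC (Finset.univ.erase v) (by
      refine ⟨if v = 0 then 1 else 0, ?_⟩
      split_ifs with h
      · subst h; simp
      · simpa using fun h' => h h'.symm) (by
      intro h
      have := h ▸ Finset.mem_univ v
      simp at this)
    refine h1.trans (Finset.card_le_card ?_)
    intro e he
    rw [Finset.mem_filter] at he ⊢
    refine ⟨he.1, ?_⟩
    by_contra hne
    exact he.2.2 (Finset.mem_erase.2 ⟨hne, Finset.mem_univ _⟩)
  -- double counting
  have hsum1 : 7 * 23 ≤ (C.filter (fun e => inYZ e.1 = true)).card := by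
    have h1 : (C.filter (fun e => inYZ e.1 = true)).card =
        ∑ v ∈ Finset.univ.filter (fun v => inYZ v = true), (C.filter (fun e => e.1 = v)).card := by
      rw [Finset.card_eq_sum_card_fiberwise (f := Prod.fst)
        (t := Finset.univ.filter (fun v => inYZ v = true))]
      · apply Finset.sum_congr rfl
        intro v hv
        congr 1
        ext e
        simp only [Finset.mem_filter, Finset.mem_univ, true_and] at hv ⊢
        constructor
        · rintro ⟨⟨h1, _⟩, h3⟩; exact ⟨h1, h3⟩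
        · rintro ⟨h1, h3⟩; exact ⟨⟨h1, by rw [h3]; exact hv⟩, h3⟩
      · intro e he
        simp only [Finset.coe_filter, Set.mem_ofPred_eq, Finset.mem_univ, true_and] at he ⊢
        exact he.2
    rw [h1]
    calc 7 * 23 = ∑ v ∈ Finset.univ.filter (fun v => inYZ v = true), 7 := by
          rw [Finset.sum_const, yz_card]
          rfl
      _ ≤ _ := Finset.sum_le_sum (fun v _ => hout v)
  have hsum2 : 7 * 23 ≤ (C.filter (fun e => inXZ e.2 = true)).card := by
    have h1 : (C.filter (fun e => inXZ e.2 = true)).card =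
        ∑ v ∈ Finset.univ.filter (fun v => inXZ v = true), (C.filter (fun e => e.2 = v)).card := by
      rw [Finset.card_eq_sum_card_fiberwise (f := Prod.snd)
        (t := Finset.univ.filter (fun v => inXZ v = true))]
      · apply Finset.sum_congr rfl
        intro v hv
        congr 1
        ext e
        simp only [Finset.mem_filter, Finset.mem_univ, true_and] at hv ⊢
        constructor
        · rintro ⟨⟨h1, _⟩, h3⟩; exact ⟨h1, h3⟩
        · rintro ⟨h1, h3⟩; exact ⟨⟨h1, by rw [h3]; exact hv⟩, h3⟩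
      · intro e he
        simp only [Finset.coe_filter, Set.mem_ofPred_eq, Finset.mem_univ, true_and] at he ⊢
        exact he.2
    rw [h1]
    calc 7 * 23 = ∑ v ∈ Finset.univ.filter (fun v => inXZ v = true), 7 := by
          rw [Finset.sum_const, xz_card]
          rfl
      _ ≤ _ := Finset.sum_le_sum (fun v _ => hin v)
  have hboth : (C.filter (fun e => inYZ e.1 = true ∧ inXZ e.2 = true)).card ≤ 44 := by
    rw [← cost_check]
    exact Finset.card_le_card (Finset.filter_subset_filter _ hCA)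
  have hid : (C.filter (fun e => inYZ e.1 = true)).card + (C.filter (fun e => inXZ e.2 = true)).card
      + (C.filter (fun e => inYZ e.1 = false ∧ inXZ e.2 = false)).card =
      C.card + (C.filter (fun e => inYZ e.1 = true ∧ inXZ e.2 = true)).card := by
    have hc : C.card = ∑ e ∈ C, 1 := Finset.card_eq_sum_ones C
    rw [hc]
    simp only [Finset.card_filter, ← Finset.sum_add_distrib]
    apply Finset.sum_congr rfl
    intro e _
    cases inYZ e.1 <;> cases inXZ e.2 <;> simp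
  have hnone : (C.filter (fun e => inYZ e.1 = false ∧ inXZ e.2 = false)).card = 0 := by omega
  rw [Finset.card_eq_zero] at hnone
  have hcut := hC cutS ⟨0, by decide +kernel⟩ (by decide +kernel)
  have hle : (C.filter (fun e => e.1 ∈ cutS ∧ e.2 ∉ cutS)).card ≤ 6 := by
    rw [← cut_check]
    apply Finset.card_le_card
    intro e he
    rw [Finset.mem_filter] at he ⊢
    refine ⟨hCA he.1, he.2, fun hbad => ?_⟩
    have : e ∈ C.filter (fun e => inYZ e.1 = false ∧ inXZ e.2 = false) :=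
      Finset.mem_filter.2 ⟨he.1, hbad⟩
    rw [hnone] at this
    exact absurd this (Finset.notMem_empty _)
  omega

end Pool.Agent.S09932
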