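import Pool.Statements.S09946
import Pool.Agent.R85.Thin

set_option autoImplicit false
open Pool Pool.MP_8888ff_co

namespace Pool.Agent.S09946

open Finset SimpleGraph Pool.Agent.R85

theorem fin4a : ∀ i : Fin 4, i.1 % 2 ≠ (i + 1).1 % 2 := by decide
theorem fin4b : ∀ i : Fin 4, i.1 % 2 ≠ (i + 3).1 % 2 := by decide
theorem fin4c : ∀ i : Fin 4, i + 1 ≠ i + 3 := by decide

/-- A finite acyclic graph is thin up to every size. -/
theorem acyclic_thin {n : ℕ} {G : SimpleGraph (Fin n)} (hG : G.IsAcyclic) (s : ℕ) : Thin G s := by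
  classical
  intro S h2 _
  set G' := G.induce (S : Set (Fin n)) with hG'
  have hac : G'.IsAcyclic := hG.induce _
  -- a longest path
  let P : ℕ → Prop := fun l => ∃ (u v : (S : Set (Fin n))) (p : G'.Walk u v), p.IsPath ∧ p.length = l
  obtain ⟨x, hx, y, hy, hxy⟩ := one_lt_card.mp (show 1 < #S by omega)
  have hP0 : P 0 := ⟨⟨x, hx⟩, ⟨x, hx⟩, Walk.nil, Walk.IsPath.nil, rfl⟩
  set m := Nat.findGreatest P (Fintype.card (S : Set (Fin n))) with hm
  have hPm : P m := Nat.findGreatest_spec (Nat.zero_le _) hP0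
  have hmax : ∀ l, P l → l ≤ m := by
    intro l hl
    apply Nat.le_findGreatest _ hl
    obtain ⟨u, v, p, hp, rfl⟩ := hl
    exact hp.length_lt.le
  obtain ⟨u, v, p, hp, hlen⟩ := hPm
  have hlow : ∀ (u v : (S : Set (Fin n))) (p : G'.Walk u v), p.IsPath → p.length = m →
      Low G S u := by
    intro u v p hp hlen a ha b hb hua hub
    have key : ∀ c (hc : c ∈ S), G.Adj u c → (⟨c, hc⟩ : (S : Set (Fin n))) = p.snd := by
      intro c hc huc
      have hadj : G'.Adj u ⟨c, hc⟩ := huc
      apply hac.eq_snd_of_adj_start hp hadj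
      by_contra hcon
      have h1 : P (m + 1) := by
        refine ⟨⟨c, hc⟩, v, Walk.cons hadj.symm p, ?_, ?_⟩
        · rw [Walk.cons_isPath_iff]
          exact ⟨hp, hcon⟩
        · rw [Walk.length_cons, hlen]
      have := hmax _ h1
      omega
    have h1 := key a ha hua
    have h2 := key b hb hub
    have := h1.trans h2.symm
    exact congrArg Subtype.val this
  by_cases hm0 : m = 0
  · -- no edges inside S
    have hno : ∀ a ∈ S, ∀ b ∈ S, ¬ G.Adj a b := by
      intro a ha b hb hab
      have hadj : G'.Adj ⟨a, ha⟩ ⟨b, hb⟩ := hab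
      have h1 : P 1 := by
        refine ⟨⟨a, ha⟩, ⟨b, hb⟩, Walk.cons hadj Walk.nil, ?_, rfl⟩
        rw [Walk.cons_isPath_iff]
        refine ⟨Walk.IsPath.nil, ?_⟩
        simpa using hab.ne
      have := hmax _ h1
      omega
    exact ⟨x, hx, y, hy, hxy, fun a ha _ _ h _ => absurd h (hno x hx a ha),
      fun a ha _ _ h _ => absurd h (hno y hy a ha)⟩
  · refine ⟨u, u.2, v, v.2, ?_, hlow u v p hp hlen, hlow v u p.reverse hp.reverse ?_⟩
    · intro huv
      have huv' : u = v := Subtype.ext huv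
      subst huv'
      rw [Walk.isPath_iff_eq_nil] at hp
      rw [hp] at hlen
      simp at hlen
      omega
    · rw [Walk.length_reverse, hlen]

/-- The negation of the preceding statement: For every graph family whose members all contain a cycle and one is bipartite, some c>0 ensures every graph with min degree δ≥1 and max degree Δ has a spanning F-free subgraph of min degree at least c·ex(K_Δ,F)·δ/Δ². -/
theorem result :
    ¬ (∀ F : Set (Σ k : ℕ, SimpleGraph (Fin k)),
      (∀ p ∈ F, ¬ p.2.IsAcyclic) →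
      (∃ p ∈ F, p.2.Colorable 2) →
      ∃ c : ℝ, 0 < c ∧
        ∀ δ Δ : ℕ, 1 ≤ δ → δ ≤ Δ →
          ∀ n : ℕ, ∀ G : SimpleGraph (Fin n),
            (∀ v, δ ≤ (G.neighborSet v).ncard) →
            (∃ v, (G.neighborSet v).ncard = δ) →
            (∀ v, (G.neighborSet v).ncard ≤ Δ) →
            (∃ v, (G.neighborSet v).ncard = Δ) →
            ∀ T : SimpleGraph (Fin Δ),
              (∀ p ∈ F, ¬ p.2.IsContained T) →
              ∃ H : SimpleGraph (Fin n), H ≤ G ∧
                (∀ p ∈ F, ¬ p.2.IsContained H) ∧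
                ∀ v, c * (T.edgeSet.ncard : ℝ) * (δ : ℝ) / (Δ : ℝ) ^ 2
                  ≤ ((H.neighborSet v).ncard : ℝ)) := by
  classical
  intro hmain
  choose N T hdN hTe hThin using fun i : ℕ => exists_regular_thin_fin i i
  have hex : ∀ k : ℕ, ∃ i, k ≤ N i := fun k => ⟨k, (hdN k).le⟩
  -- the slowly growing girth threshold
  let g : ℕ → ℕ := fun k => Nat.find (hex k)
  have hgN : ∀ i, g (N i) ≤ i := fun i => Nat.find_min' (hex (N i)) le_rfl
  have hgmono : ∀ {a b : ℕ}, a ≤ b → g a ≤ g b := by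
    intro a b hab
    exact Nat.find_min' (hex a) (hab.trans (Nat.find_spec (hex b)))
  have hgunb : ∀ m, ∃ K, ∀ k, K ≤ k → m ≤ g k := by
    intro m
    refine ⟨(∑ j ∈ range m, N j) + 1, fun k hk => ?_⟩
    by_contra hcon
    push Not at hcon
    have h1 : k ≤ N (g k) := Nat.find_spec (hex k)
    have h2 : N (g k) ≤ ∑ j ∈ range m, N j :=
      single_le_sum (f := N) (fun _ _ => Nat.zero_le _) (mem_range.mpr hcon)
    omega
  -- the family: graphs on `k` vertices that have a cycle of length at most `g k`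
  let F : Set (Σ k : ℕ, SimpleGraph (Fin k)) := {p | ¬ Thin p.2 (g p.1)}
  have hF : ∀ p, p ∈ F ↔ ¬ Thin p.2 (g p.1) := fun p => Iff.rfl
  obtain ⟨c, hc, hgood⟩ := hmain F (fun p hp hac => hp (acyclic_thin hac _)) (by
    -- a bipartite member
    obtain ⟨K, hK⟩ := hgunb 4
    let k := K + 4
    let Q : SimpleGraph (Fin k) :=
      { Adj := fun a b => a.1 % 2 ≠ b.1 % 2
        symm := ⟨fun a b h => h.symm⟩
        loopless := ⟨fun a h => h rfl⟩ }
    refine ⟨⟨k, Q⟩, ?_, ?_⟩
    · rw [hF]
      intro hth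
      have hg4 : 4 ≤ g k := hK k (by simp [k])
      have hk4 : 4 ≤ k := by simp [k]
      let ι : Fin 4 → Fin k := fun i => ⟨i.1, by omega⟩
      have hιinj : Function.Injective ι := by
        intro a b hab
        simp only [ι, Fin.mk.injEq] at hab
        exact Fin.ext hab
      obtain ⟨v, hv, _, _, _, hlow, _⟩ := hth (univ.image ι)
        (by rw [card_image_of_injective _ hιinj]; simp)
        (by rw [card_image_of_injective _ hιinj]; simpa using hg4)
      rw [mem_image] at hv
      obtain ⟨i, _, rfl⟩ := hv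
      have hcon := hlow (ι (i + 1)) (mem_image_of_mem _ (mem_univ _)) (ι (i + 3))
        (mem_image_of_mem _ (mem_univ _))
        (fin4a i) (fin4b i)
      exact fin4c i (hιinj hcon)
    · refine ⟨Coloring.mk (fun a => (⟨a.1 % 2, Nat.mod_lt _ (by norm_num)⟩ : Fin 2)) ?_⟩
      intro a b hab h
      apply hab
      simpa [Fin.ext_iff] using h)
  -- choose the index
  obtain ⟨i, hi⟩ := exists_nat_gt (4 / c)
  have hi0 : (0 : ℝ) < i := lt_trans (by positivity) hi
  have hiNat : 1 ≤ i := by
    have : (0 : ℝ) < i := hi0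
    exact_mod_cast this
  have hci : 4 < c * i := by
    rw [div_lt_iff₀ hc] at hi
    linarith
  set Δ := N i with hΔ
  have hΔi : i < Δ := hdN i
  obtain ⟨K, hK⟩ := hgunb (Δ + 1)
  set M := K + 1 with hM
  let e : Fin M × Fin (Δ + 1) ≃ Fin (M * (Δ + 1)) := finProdFinEquiv
  let G : SimpleGraph (Fin (M * (Δ + 1))) :=
    { Adj := fun a b => a ≠ b ∧ (e.symm a).1 = (e.symm b).1
      symm := ⟨fun a b h => ⟨h.1.symm, h.2.symm⟩⟩
      loopless := ⟨fun a h => h.1 rfl⟩ }
  have hdeg : ∀ v, (G.neighborSet v).ncard = Δ := by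
    intro v
    have h1 : G.neighborSet v =
        (fun j => e ((e.symm v).1, j)) '' ({(e.symm v).2}ᶜ : Set (Fin (Δ + 1))) := by
      ext w
      simp only [mem_neighborSet, Set.mem_image, Set.mem_compl_iff, Set.mem_singleton_iff]
      constructor
      · rintro ⟨hne, h⟩
        refine ⟨(e.symm w).2, ?_, ?_⟩
        · intro h2
          apply hne
          apply e.symm.injective
          exact Prod.ext h h2.symm
        · rw [h, Prod.mk.eta, Equiv.apply_symm_apply]
      · rintro ⟨j, hj, rfl⟩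
        refine ⟨?_, ?_⟩
        · intro h2
          apply hj
          rw [h2, Equiv.symm_apply_apply]
        · rw [Equiv.symm_apply_apply]
    rw [h1, Set.ncard_image_of_injective, Set.ncard_compl, Set.ncard_singleton,
      Nat.card_eq_fintype_card, Fintype.card_fin]
    · omega
    · intro a b hab
      have := e.injective hab
      simp only [Prod.mk.injEq, true_and] at this
      exact this
  let v₀ : Fin (M * (Δ + 1)) := e (⟨0, by omega⟩, ⟨0, by omega⟩)
  obtain ⟨H, hHG, hHF, hHdeg⟩ := hgood Δ Δ (by omega) le_rfl (M * (Δ + 1)) G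
    (fun v => (hdeg v).ge) ⟨v₀, hdeg v₀⟩ (fun v => (hdeg v).le) ⟨v₀, hdeg v₀⟩ (T i) (by
      rintro p hp ⟨f⟩
      apply hp
      have hcard : p.1 ≤ N i := by
        have := Fintype.card_le_of_injective f.toEmbedding f.toEmbedding.injective
        simpa using this
      exact ((hThin i).mono ((hgmono hcard).trans (hgN i))).of_contained f)
  -- H is thin
  have hHthin : Thin H (g (M * (Δ + 1))) := by
    by_contra hcon
    exact hHF ⟨_, H⟩ hcon (IsContained.refl H)
  have hgbig : Δ + 1 ≤ g (M * (Δ + 1)) := by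
    apply hK
    calc K ≤ M * 1 := by omega
      _ ≤ M * (Δ + 1) := Nat.mul_le_mul_left _ (by omega)
  -- the block of v₀
  let ι : Fin (Δ + 1) → Fin (M * (Δ + 1)) := fun j => e (⟨0, by omega⟩, j)
  have hιinj : Function.Injective ι := by
    intro a b hab
    have := e.injective hab
    simp only [Prod.mk.injEq, true_and] at this
    exact this
  obtain ⟨v, hv, _, _, _, hlow, _⟩ := hHthin (univ.image ι)
    (by rw [card_image_of_injective _ hιinj]; simp; omega)
    (by rw [card_image_of_injective _ hιinj]; simpa using hgbig)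
  rw [mem_image] at hv
  obtain ⟨j, _, rfl⟩ := hv
  -- the degree of this vertex in H is at least two
  have hd := hHdeg (ι j)
  have hTe' : (2 : ℝ) * ((T i).edgeSet.ncard : ℝ) = i * Δ := by exact_mod_cast hTe i
  have hΔpos : (0 : ℝ) < Δ := by
    have : 0 < Δ := by omega
    exact_mod_cast this
  have hval : c * ((T i).edgeSet.ncard : ℝ) * (Δ : ℝ) / (Δ : ℝ) ^ 2 = c * i / 2 := by
    have h1 : ((T i).edgeSet.ncard : ℝ) = i * Δ / 2 := by linarith
    rw [h1]
    field_simp
  rw [hval] at hd
  have hd2 : (2 : ℝ) < ((H.neighborSet (ι j)).ncard : ℝ) := by linarith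
  have hd2' : 1 < (H.neighborSet (ι j)).ncard := by
    have : 2 < (H.neighborSet (ι j)).ncard := by exact_mod_cast hd2
    omega
  rw [Set.one_lt_ncard_iff (Set.toFinite _)] at hd2'
  obtain ⟨a, b, ha, hb, hab⟩ := hd2'
  rw [mem_neighborSet] at ha hb
  have hmem : ∀ a, H.Adj (ι j) a → a ∈ univ.image ι := by
    intro a ha
    have h1 := (hHG ha).2
    rw [mem_image]
    refine ⟨(e.symm a).2, mem_univ _, ?_⟩
    show e (_, (e.symm a).2) = a
    have h2 : (e.symm (ι j)).1 = (⟨0, by omega⟩ : Fin M) := by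
      simp [ι]
    rw [h2] at h1
    rw [h1, Prod.mk.eta, Equiv.apply_symm_apply]
  exact hab (hlow a (hmem a ha) b (hmem b hb) ha hb)

end Pool.Agent.S09946
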