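import Pool.Statements.S10055

set_option autoImplicit false
open Pool Pool.MP_8d311f_co

namespace Pool.Agent.S10055

open DihedralGroup

/-- The eight elements of the dihedral group of order 8, numbered by `0, ..., 7`. -/
def el : ℕ → DihedralGroup 4
  | 0 => r 0
  | 1 => r 2
  | 2 => sr 1
  | 3 => sr 3
  | 4 => sr 0
  | 5 => sr 2
  | 6 => r 3
  | _ => r 1

/-- Numbers of the entries of a generalised Hadamard matrix of order 16 over the dihedral group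
of order 8. -/
def code : List (List ℕ) :=
  [[0, 0, 0, 0, 0, 0, 0, 0, 0, 0, 0, 0, 0, 0, 0, 0],
   [0, 3, 4, 6, 0, 2, 4, 6, 1, 3, 5, 7, 1, 2, 5, 7],
   [0, 4, 7, 3, 1, 5, 6, 2, 1, 5, 7, 2, 0, 4, 6, 3],
   [0, 6, 2, 4, 1, 6, 3, 5, 0, 7, 3, 4, 1, 7, 2, 5],
   [0, 0, 1, 1, 2, 3, 2, 3, 5, 5, 4, 4, 6, 6, 7, 7],
   [0, 2, 4, 7, 3, 1, 6, 4, 5, 6, 0, 3, 7, 5, 2, 1],
   [0, 4, 6, 2, 3, 7, 5, 1, 4, 0, 2, 7, 6, 3, 1, 5],
   [0, 6, 3, 5, 2, 5, 1, 7, 4, 3, 6, 1, 7, 0, 4, 2],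
   [0, 1, 1, 0, 5, 4, 4, 5, 7, 6, 7, 6, 2, 3, 3, 2],
   [0, 2, 5, 6, 5, 7, 0, 2, 6, 4, 3, 1, 3, 1, 7, 4],
   [0, 5, 7, 2, 4, 1, 3, 6, 7, 2, 1, 5, 3, 6, 4, 0],
   [0, 7, 3, 4, 4, 3, 7, 1, 6, 1, 5, 2, 2, 5, 0, 6],
   [0, 1, 0, 1, 6, 6, 7, 7, 3, 2, 2, 3, 5, 4, 5, 4],
   [0, 3, 5, 7, 6, 4, 2, 0, 2, 1, 6, 5, 4, 7, 1, 3],
   [0, 5, 6, 3, 7, 2, 1, 4, 2, 7, 4, 0, 5, 1, 3, 6],
   [0, 7, 2, 5, 7, 0, 5, 3, 3, 4, 1, 6, 4, 2, 6, 1]]

/-- The matrix. -/
def H (i j : Fin 16) : DihedralGroup 4 := el ((code.getD i.val []).getD j.val 0)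

theorem rows : ∀ i j : Fin 16, i ≠ j → ∀ g : DihedralGroup 4,
    (Finset.univ.filter (fun k : Fin 16 => H i k * (H j k)⁻¹ = g)).card = 2 := by
  decide +kernel

theorem column : (Finset.univ.filter (fun k : Fin 16 => H k 1 * (H k 5)⁻¹ = sr 1)).card ≠ 2 := by
  decide +kernel

theorem natCard_N : Nat.card (DihedralGroup 4) = 8 := by
  rw [DihedralGroup.nat_card]

/-- There is a finite group N of order w dividing v and a v×v matrix over N such that, for any two distinct rows, each group element occurs exactly v/w times among the entrywise quotients h_ik h_jk⁻¹, while this fails for some pair of distinct columns. -/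
theorem result :
    ∃ (N : Type) (_ : Group N) (_ : Finite N) (v : ℕ) (H : Fin v → Fin v → N),
      Nat.card N ∣ v ∧
      (∀ i j : Fin v, i ≠ j → ∀ g : N,
        Nat.card {k : Fin v // H i k * (H j k)⁻¹ = g} = v / Nat.card N) ∧
      ¬ (∀ i j : Fin v, i ≠ j → ∀ g : N,
        Nat.card {k : Fin v // H k i * (H k j)⁻¹ = g} = v / Nat.card N) := by
  refine ⟨DihedralGroup 4, inferInstance, inferInstance, 16, H, ?_, ?_, ?_⟩
  · rw [natCard_N]; norm_num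
  · intro i j hij g
    rw [natCard_N, Nat.card_eq_fintype_card, Fintype.card_subtype]
    exact rows i j hij g
  · intro h
    have h1 := h 1 5 (by decide) (sr 1)
    rw [natCard_N, Nat.card_eq_fintype_card, Fintype.card_subtype] at h1
    exact column h1

end Pool.Agent.S10055
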