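import Pool.Statements.S10164
import Pool.Agent.R725.NR

set_option autoImplicit false
open Pool Pool.MP_924390_co

namespace Pool.Agent.S10164

open Finset Pool.Agent.R725.NR

/-- The negation of the preceding statement: There is a constant c such that every finite graph of path-width at most 2 can, from any lists of at least c colours per vertex, be coloured so that no path on 2k vertices has its first-half colour sequence equal to its second-half one. -/
theorem result :
    ¬ (∃ c : ℕ, ∀ (V : Type) [Fintype V] (G : SimpleGraph V),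
      (∃ B : ℕ → Finset V,
        (∀ i, (B i).card ≤ 3) ∧
        (∀ v : V, ∃ i, v ∈ B i) ∧
        (∀ u v : V, G.Adj u v → ∃ i, u ∈ B i ∧ v ∈ B i) ∧
        (∀ (v : V) (i j k : ℕ), i ≤ j → j ≤ k → v ∈ B i → v ∈ B k → v ∈ B j)) →
      ∀ L : V → Finset ℕ, (∀ v, c ≤ (L v).card) →
        ∃ f : V → ℕ, (∀ v, f v ∈ L v) ∧
          ∀ (u w : V) (p : G.Walk u w), p.IsPath →
            ∀ k : ℕ, 1 ≤ k → p.length + 1 = 2 * k →
              ¬ (∀ i : ℕ, i < k → f (p.getVert i) = f (p.getVert (i + k)))) := by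
  classical
  rintro ⟨c, hc⟩
  -- choose `M` with large harmonic sum
  obtain ⟨M, hM⟩ : ∃ M : ℕ, (2 * c : ℝ) < ∑ i ∈ range M, 1 / ((i : ℝ) + 1) := by
    have := Real.tendsto_sum_range_one_div_nat_succ_atTop.eventually_gt_atTop (2 * c : ℝ)
    exact this.exists
  set d : ℕ := c + 1 with hd
  set N : ℕ := 2 * M.factorial with hN
  set U : Finset ℕ := range ((N + 1) * d) with hU
  set S0 : Finset (Finset ℕ) := powersetCard d U with hS0
  set K : ℕ := S0.card with hK
  have hUcard : U.card = (N + 1) * d := by rw [hU, card_range]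
  have hKpos : 0 < K := by
    rw [hK, hS0, card_powersetCard, hUcard]
    exact Nat.choose_pos (Nat.le_mul_of_pos_left d (Nat.succ_pos N))
  let J : Fin K → Finset ℕ := fun j => ((S0.equivFin).symm j).1
  have hJmem : ∀ j, J j ∈ S0 := fun j => ((S0.equivFin).symm j).2
  have hJcard : ∀ j, (J j).card = d := fun j => (mem_powersetCard.1 (hJmem j)).2
  have hJsurj : ∀ A, A ⊆ U → A.card = d → ∃ j, J j = A := by
    intro A hA hA'
    have hA'' : A ∈ S0 := mem_powersetCard.2 ⟨hA, hA'⟩
    refine ⟨S0.equivFin ⟨A, hA''⟩, ?_⟩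
    simp [J]
  let L : Vt N K → Finset ℕ := fun v =>
    match v with
    | Sum.inl a => Ico (a.val * d) ((a.val + 1) * d)
    | Sum.inr p => J p.2
  have hL : ∀ v, c ≤ (L v).card := by
    intro v
    rcases v with a | p
    · change c ≤ (Ico (a.val * d) ((a.val + 1) * d)).card
      rw [Nat.card_Ico, ← Nat.sub_mul]
      have : a.val + 1 - a.val = 1 := by omega
      rw [this, one_mul]
      omega
    · change c ≤ (J p.2).card
      rw [hJcard]
      omega
  obtain ⟨f, hfL, hf⟩ := hc (Vt N K) (Gr N K) ⟨Bag N K, pw N K hKpos⟩ L hL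
  -- colours of the path vertices
  let a : ℕ → ℕ := fun t => f (P N K t)
  have ha : ∀ t, t ≤ N → a t / d = t ∧ a t ∈ U := by
    intro t ht
    have h1 : a t ∈ Ico ((t % (N + 1)) * d) (((t % (N + 1)) + 1) * d) := hfL (P N K t)
    rw [Nat.mod_eq_of_lt (by omega), mem_Ico] at h1
    constructor
    · exact Nat.div_eq_of_lt_le h1.1 h1.2
    · rw [hU, mem_range]
      exact lt_of_lt_of_le h1.2 (Nat.mul_le_mul_right d (by omega))
  -- missing colours
  let F : ℕ → Finset ℕ := fun t => U.filter (fun u => ∀ j : Fin K, f (W N K t j) ≠ u)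
  have hF : ∀ t, (F t).card ≤ c := by
    intro t
    by_contra hcon
    have hcon' : d ≤ (F t).card := by omega
    obtain ⟨A, hA1, hA2⟩ := Finset.exists_subset_card_eq hcon'
    obtain ⟨j, hj⟩ := hJsurj A (hA1.trans (filter_subset _ _)) hA2
    have h1 : f (W N K t j) ∈ J j := hfL (W N K t j)
    rw [hj] at h1
    exact (mem_filter.1 (hA1 h1)).2 j rfl
  -- every window is blocked
  have hwin : ∀ m s : ℕ, 1 ≤ m → s + 2 * m ≤ N + 1 → ∃ t,
      s ≤ t ∧ t + 2 ≤ s + 2 * m ∧
        ((t + 1 < s + m ∧ a (t + m) ∈ F t) ∨ (s + m ≤ t + 1 ∧ a (t + 1 - m) ∈ F t)) := by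
    intro m s hm hs
    by_contra hcon
    push Not at hcon
    -- targets are available
    have hav : ∀ t : ℕ, ∃ j : Fin K,
        (s ≤ t → t + 1 < s + m → f (W N K t j) = a (t + m)) ∧
        (s + m ≤ t + 1 → t + 2 ≤ s + 2 * m → f (W N K t j) = a (t + 1 - m)) := by
      intro t
      by_cases h1 : s ≤ t ∧ t + 1 < s + m
      · have h2 := (hcon t h1.1 (by omega)).1 h1.2
        have h3 : a (t + m) ∈ U := (ha (t + m) (by omega)).2
        have h4 : ∃ j : Fin K, f (W N K t j) = a (t + m) := by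
          by_contra h5
          push Not at h5
          exact h2 (mem_filter.2 ⟨h3, h5⟩)
        obtain ⟨j, hj⟩ := h4
        exact ⟨j, fun _ _ => hj, fun h _ => by omega⟩
      · by_cases h1' : s + m ≤ t + 1 ∧ t + 2 ≤ s + 2 * m
        · have h2 := (hcon t (by omega) h1'.2).2 h1'.1
          have h3 : a (t + 1 - m) ∈ U := (ha (t + 1 - m) (by omega)).2
          have h4 : ∃ j : Fin K, f (W N K t j) = a (t + 1 - m) := by
            by_contra h5
            push Not at h5
            exact h2 (mem_filter.2 ⟨h3, h5⟩)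
          obtain ⟨j, hj⟩ := h4
          exact ⟨j, fun _ h => by omega, fun _ _ => hj⟩
        · exact ⟨⟨0, hKpos⟩, fun h h' => absurd ⟨h, h'⟩ h1, fun h h' => absurd ⟨h, h'⟩ h1'⟩
    choose w hw1 hw2 using hav
    obtain ⟨u, v, p, hp, k, hk1, hk2, hk3⟩ := rep_path N K f m s hm hs w hw1 hw2
    exact hf u v p hp k hk1 hk2 hk3
  -- counting
  let S : Finset (Σ _ : ℕ, ℕ) := (range M).sigma (fun i => range (N / (2 * (i + 1))))
  let T : Finset (Σ _ : ℕ, ℕ) := (range N).sigma (fun t => F t)
  have hex : ∀ x : (Σ _ : ℕ, ℕ), ∃ y : (Σ _ : ℕ, ℕ), x ∈ S →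
      (y ∈ T ∧ y.1 / (2 * (x.1 + 1)) = x.2 ∧
        (y.2 / d = y.1 + (x.1 + 1) ∨ (y.2 / d = y.1 - x.1 ∧ x.1 ≤ y.1))) := by
    rintro ⟨i, q⟩
    by_cases hx : (⟨i, q⟩ : Σ _ : ℕ, ℕ) ∈ S
    · rw [mem_sigma] at hx
      obtain ⟨hi, hq⟩ := hx
      simp only [mem_range] at hi hq
      have hq' : 2 * (i + 1) * (q + 1) ≤ N := by
        have h1 : (q + 1) * (2 * (i + 1)) ≤ N := (Nat.le_div_iff_mul_le (by omega)).1 hq
        rw [mul_comm]; exact h1
      have hq'' : 2 * (i + 1) * q + 2 * (i + 1) ≤ N := by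
        rw [mul_add, mul_one] at hq'; exact hq'
      obtain ⟨t, ht1, ht2, ht3⟩ := hwin (i + 1) (2 * (i + 1) * q) (by omega) (by omega)
      have htN : t < N := by omega
      have hdivt : t / (2 * (i + 1)) = q := by
        apply Nat.div_eq_of_lt_le
        · rw [mul_comm]; exact ht1
        · rw [mul_comm, mul_add, mul_one]; omega
      rcases ht3 with ⟨h1, h2⟩ | ⟨h1, h2⟩
      · refine ⟨⟨t, a (t + (i + 1))⟩, fun _ => ⟨mem_sigma.2 ⟨mem_range.2 htN, h2⟩, hdivt, ?_⟩⟩
        left
        exact (ha _ (by omega)).1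
      · refine ⟨⟨t, a (t + 1 - (i + 1))⟩,
          fun _ => ⟨mem_sigma.2 ⟨mem_range.2 htN, h2⟩, hdivt, ?_⟩⟩
        right
        constructor
        · have := (ha (t + 1 - (i + 1)) (by omega)).1
          change a (t + 1 - (i + 1)) / d = t - i
          rw [this]; omega
        · change i ≤ t
          omega
    · exact ⟨⟨0, 0⟩, fun h => absurd h hx⟩
  choose φ hφ using hex
  have hcard : S.card ≤ T.card := by
    apply Finset.card_le_card_of_injOn φ
    · intro x hx
      exact (hφ x hx).1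
    · intro x hx y hy hxy
      have h1 := (hφ x hx).2
      have h2 := (hφ y hy).2
      rw [hxy] at h1
      obtain ⟨h11, h12⟩ := h1
      obtain ⟨h21, h22⟩ := h2
      have h3 : x.1 = y.1 := by
        rcases h12 with h12 | h12 <;> rcases h22 with h22 | h22 <;> omega
      have h4 : x.2 = y.2 := by rw [← h11, ← h21, h3]
      obtain ⟨x1, x2⟩ := x
      obtain ⟨y1, y2⟩ := y
      simp only at h3 h4
      rw [h3, h4]
  have hT : T.card ≤ N * c := by
    rw [card_sigma]
    calc ∑ t ∈ range N, (F t).card ≤ ∑ _t ∈ range N, c := sum_le_sum (fun t _ => hF t)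
      _ = N * c := by simp
  have hS : (S.card : ℝ) = (M.factorial : ℝ) * ∑ i ∈ range M, 1 / ((i : ℝ) + 1) := by
    rw [card_sigma]
    push_cast
    rw [mul_sum]
    apply sum_congr rfl
    intro i hi
    rw [card_range]
    have hdvd : (i + 1) ∣ M.factorial :=
      Nat.dvd_factorial (Nat.succ_pos i) (by have := mem_range.1 hi; omega)
    have e : N / (2 * (i + 1)) = M.factorial / (i + 1) := by
      rw [hN, Nat.mul_div_mul_left _ _ (by norm_num)]
    rw [e, Nat.cast_div_charZero hdvd]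
    push_cast
    ring
  have hfac : (0 : ℝ) < (M.factorial : ℝ) := by exact_mod_cast Nat.factorial_pos M
  have h1 : (S.card : ℝ) ≤ (N * c : ℕ) := by exact_mod_cast hcard.trans hT
  rw [hS, hN] at h1
  push_cast at h1
  have h2 : (M.factorial : ℝ) * (2 * c) < (M.factorial : ℝ) * ∑ i ∈ range M, 1 / ((i : ℝ) + 1) :=
    mul_lt_mul_of_pos_left hM hfac
  linarith

end Pool.Agent.S10164
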