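import Pool.Statements.S10281
import Pool.Agent.R121.SemiBaxter

set_option autoImplicit false
open Pool Pool.MP_975621_co

namespace Pool.Agent.S10281

open Finset Pool.Agent.R121.SB

attribute [local instance] Classical.propDecidable

lemma barred_iff {n : ℕ} (σ : Equiv.Perm (Fin n)) :
    (∀ i j k l : Fin n, i < j → j < k → k < l →
          σ j < σ i → σ i < σ l → σ l < σ k →
          ∃ m : Fin n, j < m ∧ m < k ∧ σ i < σ m ∧ σ m < σ l) ↔ Valid σ := by
  constructor
  · intro H a b c d h1 h2 h3 ⟨h4, h5, h6⟩
    obtain ⟨m, hm1, hm2, _⟩ := H a b c d h1 (by rw [Fin.lt_def]; omega) h3 h4 h5 h6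
    rw [Fin.lt_def] at hm1 hm2
    omega
  · intro H i j k l hij hjk hkl h1 h2 h3
    by_contra hno
    push Not at hno
    have key : ∀ x : ℕ, ∀ hx : x < n, (j : ℕ) ≤ x → x ≤ k → σ ⟨x, hx⟩ < σ i := by
      intro x
      induction x with
      | zero =>
        intro hx h4 h5
        have : j = ⟨0, hx⟩ := Fin.ext (by simpa using h4)
        rw [← this]
        exact h1
      | succ x ih =>
        intro hx h4 h5
        rcases Nat.eq_or_lt_of_le h4 with h6 | h6
        · have : j = ⟨x + 1, hx⟩ := Fin.ext (by simpa using h6)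
          rw [← this]
          exact h1
        · have h7 := ih (by omega) (by omega) (by omega)
          by_contra h8
          have hne : σ ⟨x + 1, hx⟩ ≠ σ i := by
            intro h
            have := σ.injective h
            rw [← this] at hij
            rw [Fin.lt_def] at hij
            simp only at hij
            omega
          have h9 : σ i < σ ⟨x + 1, hx⟩ := lt_of_le_of_ne (not_lt.1 h8) (Ne.symm hne)
          have hxl : (⟨x + 1, hx⟩ : Fin n) < l := by
            rw [Fin.lt_def] at hkl ⊢
            simp only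
            omega
          have h10 : σ l < σ ⟨x + 1, hx⟩ := by
            rcases Nat.eq_or_lt_of_le h5 with h11 | h11
            · have : k = ⟨x + 1, hx⟩ := Fin.ext h11.symm
              rw [← this]
              exact h3
            · have h12 := hno ⟨x + 1, hx⟩ (by rw [Fin.lt_def]; simp only; omega)
                (by rw [Fin.lt_def]; simp only; omega) h9
              apply lt_of_le_of_ne h12
              intro h
              have := σ.injective h
              exact absurd this hxl.ne'
          apply H i ⟨x, by omega⟩ ⟨x + 1, hx⟩ l (by rw [Fin.lt_def] at hij ⊢; simp only; omega) rfl hxl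
          exact ⟨h7, h2, h10⟩
    have := key k k.2 (by rw [Fin.lt_def] at hjk; omega) le_rfl
    have h4 : σ i < σ k := h2.trans h3
    exact absurd (lt_trans this h4) (lt_irrefl _)

lemma card_inv (n : ℕ) :
    Nat.card {e : Fin n → Fin n //
        (∀ i : Fin n, (e i).val ≤ i.val) ∧
        ∀ i j k : Fin n, i < j → j < k →
          ¬ (e i = e k ∧ e j < e i) ∧ ¬ (e j < e k ∧ e k < e i)} =
      ((IS n).filter fun e => ValidI e).card := by
  rw [← Fintype.card_coe, ← Nat.card_eq_fintype_card]
  apply Nat.card_congr
  refine ⟨fun e => ⟨fun i => (e.1 i : ℕ), ?_⟩, fun e => ⟨fun i => ⟨e.1 i, ?_⟩, ?_⟩, ?_, ?_⟩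
  · obtain ⟨e, h1, h2⟩ := e
    simp only [IS, mem_filter, Fintype.mem_piFinset, mem_range]
    refine ⟨fun i => by have := h1 i; omega, ?_⟩
    intro i j k hij hjk ⟨h3, h4⟩
    obtain ⟨h5, h6⟩ := h2 i j k hij hjk
    simp only at h3 h4
    rcases Nat.eq_or_lt_of_le h4 with h7 | h7
    · refine h5 ⟨Fin.ext h7.symm, ?_⟩
      rw [Fin.lt_def, ← h7]
      exact h3
    · exact h6 ⟨by rw [Fin.lt_def]; exact h3, by rw [Fin.lt_def]; exact h7⟩
  · obtain ⟨e, h⟩ := e
    simp only [IS, mem_filter, Fintype.mem_piFinset, mem_range] at h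
    have := h.1 i
    have := i.2
    simp only
    omega
  · obtain ⟨e, h⟩ := e
    simp only [IS, mem_filter, Fintype.mem_piFinset, mem_range] at h
    refine ⟨fun i => by have := h.1 i; simp only; omega, ?_⟩
    intro i j k hij hjk
    have h3 := h.2 i j k hij hjk
    simp only [Fin.lt_def, Fin.mk.injEq]
    constructor
    · rintro ⟨h4, h5⟩
      exact h3 ⟨by omega, by omega⟩
    · rintro ⟨h4, h5⟩
      exact h3 ⟨h4, by omega⟩
  · intro e
    rfl
  · intro e
    rfl

/-- For every n, the number of permutations of length n in which every 2154 occurrence extends to a 21354 occurrence equals the number of inversion sequences of length n avoiding the patterns 101 and 201. -/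
theorem result :
    ∀ n : ℕ,
      Nat.card {σ : Equiv.Perm (Fin n) //
        ∀ i j k l : Fin n, i < j → j < k → k < l →
          σ j < σ i → σ i < σ l → σ l < σ k →
          ∃ m : Fin n, j < m ∧ m < k ∧ σ i < σ m ∧ σ m < σ l}
      =
      Nat.card {e : Fin n → Fin n //
        (∀ i : Fin n, (e i).val ≤ i.val) ∧
        ∀ i j k : Fin n, i < j → j < k →
          ¬ (e i = e k ∧ e j < e i) ∧ ¬ (e j < e k ∧ e k < e i)} := by
  intro n
  rw [card_inv]
  have h1 : Nat.card {σ : Equiv.Perm (Fin n) //
        ∀ i j k l : Fin n, i < j → j < k → k < l →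
          σ j < σ i → σ i < σ l → σ l < σ k →
          ∃ m : Fin n, j < m ∧ m < k ∧ σ i < σ m ∧ σ m < σ l} =
      (univ.filter fun τ : Equiv.Perm (Fin n) => Valid τ).card := by
    rw [← Fintype.card_subtype, ← Nat.card_eq_fintype_card]
    exact Nat.card_congr (Equiv.subtypeEquivRight fun σ => barred_iff σ)
  rw [h1]
  cases n with
  | succ m => exact card_eq m
  | zero =>
    have h2 : (univ.filter fun τ : Equiv.Perm (Fin 0) => Valid τ) = univ := by
      apply filter_true_of_mem
      intro τ _ a
      exact a.elim0
    have h3 : ((IS 0).filter fun e => ValidI e) = IS 0 := by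
      apply filter_true_of_mem
      intro τ _ a
      exact a.elim0
    rw [h2, h3]
    simp [IS]

end Pool.Agent.S10281
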