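import Pool.Statements.S10311
import Pool.Agent.H176R2.R5.FN
import Pool.Agent.H176R2.R5.OR

set_option autoImplicit false
open Pool Pool.MP_98a5df_co

namespace Pool.Agent.S10311

open Finset H176R2.R5

/-- the edges of the graph, as ordered pairs -/
private def eset {n : ℕ} (G : SimpleGraph (Fin n)) : Set (Fin n × Fin n) :=
  {e | e.1 < e.2 ∧ G.Adj e.1 e.2}

private theorem gr_eset {n : ℕ} (G : SimpleGraph (Fin n)) : OR.gr (eset G) = G := by
  ext a b
  constructor
  · rintro ⟨-, h | h⟩
    · exact h.2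
    · exact h.2.symm
  · intro h
    refine ⟨h.ne, ?_⟩
    rcases lt_or_gt_of_ne h.ne with h1 | h1
    · exact Or.inl ⟨h1, h⟩
    · exact Or.inr ⟨h1, h.symm⟩

private theorem i2_eset {n : ℕ} (G : SimpleGraph (Fin n)) [DecidableRel G.Adj]
    (X : Finset (Fin n)) :
    i2 G X ≤ 2 * (Finset.univ.filter (fun e : Fin n × Fin n =>
      e.1 ∈ X ∧ e.2 ∈ X ∧ e.1 < e.2 ∧ G.Adj e.1 e.2)).card := by
  classical
  rw [g1_i2_card]
  set A := Finset.univ.filter (fun e : Fin n × Fin n =>
      e.1 ∈ X ∧ e.2 ∈ X ∧ e.1 < e.2 ∧ G.Adj e.1 e.2) with hA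
  have h1 : (X ×ˢ X).filter (fun p => G.Adj p.1 p.2) ⊆ A ∪ A.image Prod.swap := by
    rintro ⟨a, b⟩ h
    simp only [mem_filter, mem_product] at h
    obtain ⟨⟨ha, hb⟩, hab⟩ := h
    rw [mem_union]
    rcases lt_or_gt_of_ne hab.ne with h2 | h2
    · left
      rw [hA, mem_filter]
      exact ⟨mem_univ _, ha, hb, h2, hab⟩
    · right
      rw [mem_image]
      refine ⟨(b, a), ?_, rfl⟩
      rw [hA, mem_filter]
      exact ⟨mem_univ _, hb, ha, h2, hab.symm⟩
  calc _ ≤ (A ∪ A.image Prod.swap).card := by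
        convert card_le_card h1
    _ ≤ A.card + (A.image Prod.swap).card := card_union_le _ _
    _ ≤ A.card + A.card := Nat.add_le_add_left card_image_le _
    _ = 2 * A.card := (two_mul _).symm

/-- Every finite 5-regular graph in which each set of k≥3 vertices spans at most 3k−6 edges has a placement in R^3 whose rigidity matrix has linearly independent rows. -/
theorem result :
    ∀ (n : ℕ) (G : SimpleGraph (Fin n)) [DecidableRel G.Adj],
      G.IsRegularOfDegree 5 →
      (∀ S : Finset (Fin n), 3 ≤ S.card →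
        (Finset.univ.filter (fun e : Fin n × Fin n =>
          e.1 ∈ S ∧ e.2 ∈ S ∧ e.1 < e.2 ∧ G.Adj e.1 e.2)).card ≤ 3 * S.card - 6) →
      ∃ p : Fin n → Fin 3 → ℝ,
        LinearIndependent ℝ
          (fun e : {e : Fin n × Fin n // e.1 < e.2 ∧ G.Adj e.1 e.2} =>
            (fun (w : Fin n) (i : Fin 3) =>
              if w = e.val.1 then p e.val.1 i - p e.val.2 i
              else if w = e.val.2 then p e.val.2 i - p e.val.1 i
              else 0)) := by
  intro n G _ hreg hcount
  obtain ⟨p, hp⟩ := exists_generic (Fin n)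
  have hS : Sparse G := by
    intro X hX
    have h1 := i2_eset G X
    have h2 := hcount X hX
    omega
  have hd : ∀ v, (G.neighborSet v).ncard ≤ 5 := by
    intro v
    have h1 := hreg v
    rw [← SimpleGraph.card_neighborSet_eq_degree] at h1
    rw [← h1, Set.ncard_eq_toFinset_card', Set.toFinset_card]
  have h3 : RowInd G p := rowInd_of_sparse hd ((TR.sparse_iff G).2 hS) hp
  have h4 : Ind p G := (TR.rowInd_iff G p).1 h3
  refine ⟨p, ?_⟩
  have h5 := (OR.ind_iff (I := eset G) (fun e he => he.1) p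
    (fun e w i => if w = e.1.1 then p e.1.1 i - p e.1.2 i
      else if w = e.1.2 then p e.1.2 i - p e.1.1 i else 0) (fun e v k => rfl)).2
      (by rw [gr_eset]; exact h4)
  exact h5

end Pool.Agent.S10311
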