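import Pool.Statements.S10411
-- import your own Pool.Agent.* helpers here

set_option autoImplicit false
open Pool Pool.MP_9d9bd3_co

namespace Pool.Agent.S10411

/-! The graph has 16 vertices: 8 points and 8 lines of the Moebius-Kantor configuration (points
`i`, lines `{j, j+1, j+3}` modulo 8). Points are pairwise adjacent, lines are pairwise adjacent, and
a point is adjacent to a line iff it does not lie on it. Over the complex numbers the configuration
is realised in the projective plane, which gives a symmetric matrix of rank at most 3. Over the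
reals a matrix of rank at most 3 would realise the configuration in the real projective plane,
which forces an equation `P ^ 2 + P * T + T ^ 2 = 0` with `T ≠ 0`. -/

/-- Multiplication of Eisenstein integers `a + b ω`, written as pairs. -/
def emul (x y : ℤ × ℤ) : ℤ × ℤ := (x.1 * y.1 - x.2 * y.2, x.1 * y.2 + x.2 * y.1 - x.2 * y.2)

/-- The 16 vectors: 8 points, then 8 lines. -/
def V : Fin 16 → Fin 3 → ℤ × ℤ := ![
  ![(-1, 0), (-1, 0), (-1, 0)], ![(-1, 0), (-1, 0), (0, 0)], ![(-1, 0), (0, 0), (-1, 0)],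
  ![(-2, 0), (-2, 0), (-1, 0)], ![(-2, 0), (-1, 0), (-1, 0)], ![(-2, 1), (-2, 0), (-1, 1)],
  ![(-2, -2), (-1, -2), (-1, -1)], ![(-1, -1), (0, -1), (-1, -1)],
  ![(-1, 0), (1, 0), (0, 0)], ![(1, 0), (-1, 0), (-1, 0)], ![(2, 0), (-1, 0), (-2, 0)],
  ![(1, 0), (0, 0), (-2, 0)], ![(1, 0), (-1, -1), (-1, 1)], ![(-1, -1), (1, 0), (0, 1)],
  ![(1, 1), (-1, -1), (-1, 0)], ![(-1, 0), (0, 0), (1, 0)]]

/-- The bilinear Gram matrix of the 16 vectors. -/
def gram (i j : Fin 16) : ℤ × ℤ :=
  emul (V i 0) (V j 0) + emul (V i 1) (V j 1) + emul (V i 2) (V j 2)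

theorem emul_comm (x y : ℤ × ℤ) : emul x y = emul y x := by
  unfold emul; ext <;> ring

theorem gram_comm (i j : Fin 16) : gram i j = gram j i := by
  unfold gram
  rw [emul_comm (V i 0), emul_comm (V i 1), emul_comm (V i 2)]

/-- The graph. -/
def G : SimpleGraph (Fin 16) where
  Adj i j := i ≠ j ∧ gram i j ≠ (0, 0)
  symm := ⟨fun i j h => ⟨h.1.symm, by rw [gram_comm]; exact h.2⟩⟩
  loopless := ⟨fun i h => h.1 rfl⟩

/-- A primitive third root of unity. -/
noncomputable def om : ℂ := ⟨-1 / 2, Real.sqrt 3 / 2⟩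

theorem om_sq : om ^ 2 = -1 - om := by
  have h3 : Real.sqrt 3 * Real.sqrt 3 = 3 := Real.mul_self_sqrt (by norm_num)
  apply Complex.ext
  · simp [om, pow_two]
    nlinarith
  · simp [om, pow_two]
    ring

/-- Eisenstein integers as complex numbers. -/
noncomputable def phi (x : ℤ × ℤ) : ℂ := x.1 + x.2 * om

theorem phi_add (x y : ℤ × ℤ) : phi (x + y) = phi x + phi y := by
  simp only [phi, Prod.fst_add, Prod.snd_add, Int.cast_add]
  ring

theorem phi_mul (x y : ℤ × ℤ) : phi (emul x y) = phi x * phi y := by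
  simp only [phi, emul, Int.cast_sub, Int.cast_add, Int.cast_mul]
  linear_combination (-(x.2 : ℂ) * y.2) * om_sq

theorem phi_eq_zero (x : ℤ × ℤ) : phi x = 0 ↔ x = (0, 0) := by
  constructor
  · intro h
    have him := congrArg Complex.im h
    simp only [phi, om, Complex.add_im, Complex.intCast_im, Complex.mul_im, Complex.intCast_re,
      zero_mul, add_zero, zero_add, Complex.zero_im] at him
    have hs : Real.sqrt 3 ≠ 0 := by positivity
    have h2 : (x.2 : ℝ) = 0 := by
      rcases mul_eq_zero.1 him with h | h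
      · exact h
      · exact absurd h (by positivity)
    have h2' : x.2 = 0 := by exact_mod_cast h2
    have h1 : ((x.1 : ℤ) : ℂ) = 0 := by
      simpa [phi, h2'] using h
    have h1' : x.1 = 0 := by exact_mod_cast h1
    exact Prod.ext h1' h2'
  · rintro rfl
    simp [phi]

/-- The complex vectors as a matrix. -/
noncomputable def W : Matrix (Fin 16) (Fin 3) ℂ := Matrix.of fun i k => phi (V i k)

theorem gramC (i j : Fin 16) : (W * W.transpose) i j = phi (gram i j) := by
  rw [Matrix.mul_apply, Fin.sum_univ_three]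
  simp only [Matrix.transpose_apply, W, Matrix.of_apply, gram, phi_add, phi_mul]

theorem dep (A : Matrix (Fin 16) (Fin 16) ℝ) (h : A.rank ≤ 3) (i j k m : Fin 16) :
    ∃ x y z w : ℝ, (x ≠ 0 ∨ y ≠ 0 ∨ z ≠ 0 ∨ w ≠ 0) ∧
      ∀ c, x * A i c + y * A j c + z * A k c + w * A m c = 0 := by
  have hn : ¬ LinearIndependent ℝ (![A i, A j, A k, A m] : Fin 4 → Fin 16 → ℝ) := by
    intro hli
    have h1 := finrank_span_eq_card hli
    have h2 : Module.finrank ℝ (Submodule.span ℝ
        (Set.range (![A i, A j, A k, A m] : Fin 4 → Fin 16 → ℝ))) ≤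
        Module.finrank ℝ (Submodule.span ℝ (Set.range A.row)) := by
      apply Submodule.finrank_mono
      apply Submodule.span_mono
      rintro _ ⟨l, rfl⟩
      fin_cases l
      · exact ⟨i, rfl⟩
      · exact ⟨j, rfl⟩
      · exact ⟨k, rfl⟩
      · exact ⟨m, rfl⟩
    rw [h1, ← Matrix.rank_eq_finrank_span_row] at h2
    simp at h2
    omega
  rw [Fintype.not_linearIndependent_iff] at hn
  obtain ⟨g, hg, l, hl⟩ := hn
  refine ⟨g 0, g 1, g 2, g 3, ?_, ?_⟩
  · fin_cases l
    · exact Or.inl hl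
    · exact Or.inr (Or.inl hl)
    · exact Or.inr (Or.inr (Or.inl hl))
    · exact Or.inr (Or.inr (Or.inr hl))
  · intro c
    have := congrFun hg c
    simpa [Fin.sum_univ_four] using this

/-- Three points on a line: the third row is a combination of the first two with nonzero
coefficients. -/
theorem line (A : Matrix (Fin 16) (Fin 16) ℝ) (h : A.rank ≤ 3) (i j k m c ci cj : Fin 16)
    (hic : A i c = 0) (hjc : A j c = 0) (hkc : A k c = 0) (hmc : A m c ≠ 0)
    (hi1 : A i ci = 0) (hi2 : A j ci ≠ 0) (hi3 : A k ci ≠ 0)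
    (hj1 : A j cj = 0) (hj2 : A i cj ≠ 0) (hj3 : A k cj ≠ 0) :
    ∃ u v : ℝ, u ≠ 0 ∧ v ≠ 0 ∧ ∀ c, A k c = u * A i c + v * A j c := by
  obtain ⟨x, y, z, w, hne, hs⟩ := dep A h i j k m
  have hw : w = 0 := by
    have := hs c
    rw [hic, hjc, hkc] at this
    have : w * A m c = 0 := by linarith
    rcases mul_eq_zero.1 this with h | h
    · exact h
    · exact absurd h hmc
  subst hw
  have e1 : y * A j ci + z * A k ci = 0 := by
    have := hs ci
    rw [hi1] at this
    linarith
  have e2 : x * A i cj + z * A k cj = 0 := by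
    have := hs cj
    rw [hj1] at this
    linarith
  have hz : z ≠ 0 := by
    rintro rfl
    have hy : y = 0 := by
      have : y * A j ci = 0 := by linarith
      rcases mul_eq_zero.1 this with h | h
      · exact h
      · exact absurd h hi2
    have hx : x = 0 := by
      have : x * A i cj = 0 := by linarith
      rcases mul_eq_zero.1 this with h | h
      · exact h
      · exact absurd h hj2
    subst hx hy
    simp at hne
  have hx : x ≠ 0 := by
    rintro rfl
    have : z * A k cj = 0 := by linarith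
    rcases mul_eq_zero.1 this with h | h
    · exact hz h
    · exact hj3 h
  have hy : y ≠ 0 := by
    rintro rfl
    have : z * A k ci = 0 := by linarith
    rcases mul_eq_zero.1 this with h | h
    · exact hz h
    · exact hi3 h
  refine ⟨-x / z, -y / z, div_ne_zero (neg_ne_zero.2 hx) hz, div_ne_zero (neg_ne_zero.2 hy) hz,
    fun c => ?_⟩
  have := hs c
  field_simp
  linarith

theorem no_real (A : Matrix (Fin 16) (Fin 16) ℝ)
    (hA : ∀ i j : Fin 16, i ≠ j → (A i j ≠ 0 ↔ G.Adj i j)) : ¬ A.rank ≤ 3 := by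
  intro h
  have nz : ∀ i j : Fin 16, (i ≠ j ∧ gram i j ≠ (0, 0)) → A i j ≠ 0 := fun i j hij =>
    (hA i j hij.1).2 hij
  have zr : ∀ i j : Fin 16, (i ≠ j ∧ gram i j = (0, 0)) → A i j = 0 := by
    intro i j hij
    by_contra hne
    exact ((hA i j hij.1).1 hne).2 hij.2
  -- line j is vertex 8 + j, containing points j, j+1, j+3
  obtain ⟨a0, a1, ha0, ha1, ha⟩ := line A h 0 1 3 2 8 13 9 (zr _ _ (by decide)) (zr _ _ (by decide))
    (zr _ _ (by decide)) (nz _ _ (by decide)) (zr _ _ (by decide)) (nz _ _ (by decide))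
    (nz _ _ (by decide)) (zr _ _ (by decide)) (nz _ _ (by decide)) (nz _ _ (by decide))
  obtain ⟨b1, b2, hb1, hb2, hb⟩ := line A h 1 2 4 0 9 14 10 (zr _ _ (by decide))
    (zr _ _ (by decide)) (zr _ _ (by decide)) (nz _ _ (by decide)) (zr _ _ (by decide))
    (nz _ _ (by decide)) (nz _ _ (by decide)) (zr _ _ (by decide)) (nz _ _ (by decide))
    (nz _ _ (by decide))
  obtain ⟨c0, c2, hc0, hc2, hc⟩ := line A h 0 2 7 1 15 13 10 (zr _ _ (by decide))
    (zr _ _ (by decide)) (zr _ _ (by decide)) (nz _ _ (by decide)) (zr _ _ (by decide))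
    (nz _ _ (by decide)) (nz _ _ (by decide)) (zr _ _ (by decide)) (nz _ _ (by decide))
    (nz _ _ (by decide))
  obtain ⟨d2, d3, hd2, hd3, hd⟩ := line A h 2 3 5 0 10 9 11 (zr _ _ (by decide))
    (zr _ _ (by decide)) (zr _ _ (by decide)) (nz _ _ (by decide)) (zr _ _ (by decide))
    (nz _ _ (by decide)) (nz _ _ (by decide)) (zr _ _ (by decide)) (nz _ _ (by decide))
    (nz _ _ (by decide))
  obtain ⟨e7, e1, he7, he1, he⟩ := line A h 7 1 6 0 14 12 9 (zr _ _ (by decide))
    (zr _ _ (by decide)) (zr _ _ (by decide)) (nz _ _ (by decide)) (zr _ _ (by decide))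
    (nz _ _ (by decide)) (nz _ _ (by decide)) (zr _ _ (by decide)) (nz _ _ (by decide))
    (nz _ _ (by decide))
  obtain ⟨f3, f4, hf3, hf4, hf⟩ := line A h 3 4 6 0 11 10 12 (zr _ _ (by decide))
    (zr _ _ (by decide)) (zr _ _ (by decide)) (nz _ _ (by decide)) (zr _ _ (by decide))
    (nz _ _ (by decide)) (nz _ _ (by decide)) (zr _ _ (by decide)) (nz _ _ (by decide))
    (nz _ _ (by decide))
  obtain ⟨g7, g4, hg7, hg4, hg⟩ := line A h 7 4 5 0 12 14 9 (zr _ _ (by decide))
    (zr _ _ (by decide)) (zr _ _ (by decide)) (nz _ _ (by decide)) (zr _ _ (by decide))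
    (nz _ _ (by decide)) (nz _ _ (by decide)) (zr _ _ (by decide)) (nz _ _ (by decide))
    (nz _ _ (by decide))
  obtain ⟨h5, h0, hh5, hh0, hh⟩ := line A h 5 0 6 1 13 10 8 (zr _ _ (by decide))
    (zr _ _ (by decide)) (zr _ _ (by decide)) (nz _ _ (by decide)) (zr _ _ (by decide))
    (nz _ _ (by decide)) (nz _ _ (by decide)) (zr _ _ (by decide)) (nz _ _ (by decide))
    (nz _ _ (by decide))
  -- independence of rows 0, 1, 2
  have ind : ∀ x y z : ℝ, (∀ c, x * A 0 c + y * A 1 c + z * A 2 c = 0) → x = 0 ∧ y = 0 ∧ z = 0 := by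
    intro x y z hs
    have hz : z = 0 := by
      have := hs 8
      rw [zr 0 8 (by decide), zr 1 8 (by decide)] at this
      have h' : z * A 2 8 = 0 := by linarith
      rcases mul_eq_zero.1 h' with h | h
      · exact h
      · exact absurd h (nz 2 8 (by decide))
    subst hz
    have hy : y = 0 := by
      have := hs 13
      rw [zr 0 13 (by decide)] at this
      have h' : y * A 1 13 = 0 := by linarith
      rcases mul_eq_zero.1 h' with h | h
      · exact h
      · exact absurd h (nz 1 13 (by decide))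
    subst hy
    have hx : x = 0 := by
      have := hs 9
      have h' : x * A 0 9 = 0 := by linarith
      rcases mul_eq_zero.1 h' with h | h
      · exact h
      · exact absurd h (nz 0 9 (by decide))
    exact ⟨hx, rfl, rfl⟩
  -- row 6 from line 3
  obtain ⟨k1, k2, k3⟩ := ind (e7 * c0 - f3 * a0) (e1 - f3 * a1 - f4 * b1) (e7 * c2 - f4 * b2) (by
    intro c
    have h1 := he c
    have h2 := hf c
    rw [hc c] at h1
    rw [ha c, hb c] at h2
    linarith)
  -- row 5 from line 4
  obtain ⟨k4, k5, k6⟩ := ind (d3 * a0 - g7 * c0) (d3 * a1 - g4 * b1) (d2 - g4 * b2 - g7 * c2) (by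
    intro c
    have h1 := hd c
    have h2 := hg c
    rw [ha c] at h1
    rw [hc c, hb c] at h2
    linarith)
  -- row 6 from line 5
  obtain ⟨k7, k8, k9⟩ := ind (e7 * c0 - h5 * d3 * a0 - h0) (e1 - h5 * d3 * a1)
    (e7 * c2 - h5 * d2) (by
    intro c
    have h1 := he c
    have h2 := hh c
    rw [hc c] at h1
    rw [hd c, ha c] at h2
    linarith)
  set T := d3 * e7 * a1 * c2 with hT
  set P := f3 * a1 * g4 * b2 with hP
  set Q := f4 * b1 * g7 * c2 with hQ
  have hT0 : T ≠ 0 := by
    rw [hT]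
    positivity
  have s1 : P + Q + T = 0 := by
    have t1 : e1 * d2 = d3 * a1 * (e7 * c2) := by
      have u1 : e1 = h5 * d3 * a1 := by linarith
      have u2 : e7 * c2 = h5 * d2 := by linarith
      rw [u1, u2]; ring
    have u1 : e1 = f3 * a1 + f4 * b1 := by linarith
    have u2 : d2 = g4 * b2 + g7 * c2 := by linarith
    have u3 : f3 * g7 * (a0 * c0) = e7 * d3 * (a0 * c0) := by
      have v1 : f3 * a0 = e7 * c0 := by linarith
      have v2 : g7 * c0 = d3 * a0 := by linarith
      calc f3 * g7 * (a0 * c0) = (f3 * a0) * (g7 * c0) := by ring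
        _ = e7 * c0 * (d3 * a0) := by rw [v1, v2]
        _ = _ := by ring
    have u4 : f3 * g7 = e7 * d3 := mul_right_cancel₀ (mul_ne_zero ha0 hc0) u3
    have v3 : f4 * b2 = e7 * c2 := by linarith
    have v4 : g4 * b1 = d3 * a1 := by linarith
    rw [u1, u2] at t1
    have : P + Q + (f3 * g7) * (a1 * c2) + (g4 * b1) * (f4 * b2) = d3 * a1 * (e7 * c2) := by
      rw [hP, hQ, ← t1]; ring
    rw [u4, v3, v4] at this
    rw [hT]
    linarith
  have s2 : P * Q = T ^ 2 := by
    have u3 : f3 * g7 * (a0 * c0) = e7 * d3 * (a0 * c0) := by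
      have v1 : f3 * a0 = e7 * c0 := by linarith
      have v2 : g7 * c0 = d3 * a0 := by linarith
      calc f3 * g7 * (a0 * c0) = (f3 * a0) * (g7 * c0) := by ring
        _ = e7 * c0 * (d3 * a0) := by rw [v1, v2]
        _ = _ := by ring
    have u4 : f3 * g7 = e7 * d3 := mul_right_cancel₀ (mul_ne_zero ha0 hc0) u3
    have v3 : f4 * b2 = e7 * c2 := by linarith
    have v4 : g4 * b1 = d3 * a1 := by linarith
    calc P * Q = (f3 * g7) * (a1 * c2) * (g4 * b1) * (f4 * b2) := by rw [hP, hQ]; ring
      _ = (e7 * d3) * (a1 * c2) * (d3 * a1) * (e7 * c2) := by rw [u4, v3, v4]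
      _ = T ^ 2 := by rw [hT]; ring
  have s3 : P ^ 2 + P * T + T ^ 2 = 0 := by
    have : Q = -P - T := by linarith
    rw [this] at s2
    linarith
  have : 0 < T ^ 2 := by positivity
  nlinarith [sq_nonneg (2 * P + T)]

/-- There is a finite simple graph G and a complex symmetric matrix with G's off-diagonal nonzero pattern whose rank is below the rank of every real symmetric matrix with that pattern, i.e. real minimum rank exceeds complex minimum rank. -/
theorem result :
    ∃ n : ℕ, ∃ G : SimpleGraph (Fin n), ∃ B : Matrix (Fin n) (Fin n) ℂ,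
      B.IsSymm ∧ (∀ i j : Fin n, i ≠ j → (B i j ≠ 0 ↔ G.Adj i j)) ∧
      ∀ A : Matrix (Fin n) (Fin n) ℝ, A.IsSymm →
        (∀ i j : Fin n, i ≠ j → (A i j ≠ 0 ↔ G.Adj i j)) →
        B.rank < A.rank := by
  refine ⟨16, G, W * W.transpose, ?_, ?_, ?_⟩
  · ext i j
    rw [Matrix.transpose_apply, gramC, gramC, gram_comm]
  · intro i j hij
    rw [gramC, Ne, phi_eq_zero]
    exact ⟨fun h => ⟨hij, h⟩, fun h => h.2⟩
  · intro A _ hA
    have h1 : (W * W.transpose).rank ≤ 3 := by
      calc (W * W.transpose).rank ≤ W.rank := Matrix.rank_mul_le_left _ _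
        _ ≤ 3 := by simpa using Matrix.rank_le_width W
    have h2 := no_real A hA
    omega

end Pool.Agent.S10411
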