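-- Proof of frozen statement S10497.
import Pool.Statements.S10497
import Pool.Agent.R136.InvFinal

set_option autoImplicit false
open Pool Pool.MP_a1a173_co

namespace Pool.Agent.S10497

/-- For every n, the type-B descent polynomial summed over involutions of the hyperoctahedral group B_n (with w(0)=0) equals the sum over i from 0 to n/2 of g_i x^i (1+x)^(n-2i), with every g_i a nonnegative integer. -/
theorem result : ∀ n : ℕ, ∃ γ : ℕ → ℕ,
    (∑ w ∈ (Finset.univ : Finset (Equiv.Perm (Fin n) × (Fin n → Bool))).filter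
        (fun w => ∀ i : Fin n, w.1 (w.1 i) = i ∧ w.2 (w.1 i) = w.2 i),
      (Polynomial.X : Polynomial ℤ) ^
        ((Finset.univ.filter (fun j : Fin n => j.val = 0 ∧ w.2 j = true)).card +
          (Finset.univ.filter (fun p : Fin n × Fin n => p.2.val = p.1.val + 1 ∧
            (if w.2 p.2 then (-1 : ℤ) else 1) * (((w.1 p.2 : ℕ) : ℤ) + 1) <
            (if w.2 p.1 then (-1 : ℤ) else 1) * (((w.1 p.1 : ℕ) : ℤ) + 1))).card))
    = ∑ i ∈ Finset.range (n / 2 + 1),
        Polynomial.C (γ i : ℤ) * Polynomial.X ^ i * (1 + Polynomial.X) ^ (n - 2 * i) := by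
  intro n
  classical
  have hexp : ∀ w ∈ (Finset.univ : Finset (Equiv.Perm (Fin n) × (Fin n → Bool))).filter
        (fun w => ∀ i : Fin n, w.1 (w.1 i) = i ∧ w.2 (w.1 i) = w.2 i),
      (Polynomial.X : Polynomial ℤ) ^
        ((Finset.univ.filter (fun j : Fin n => j.val = 0 ∧ w.2 j = true)).card +
          (Finset.univ.filter (fun p : Fin n × Fin n => p.2.val = p.1.val + 1 ∧
            (if w.2 p.2 then (-1 : ℤ) else 1) * (((w.1 p.2 : ℕ) : ℤ) + 1) <
            (if w.2 p.1 then (-1 : ℤ) else 1) * (((w.1 p.1 : ℕ) : ℤ) + 1))).card) =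
      (Polynomial.X : Polynomial ℤ) ^ (Pool.Agent.R136.Inv.Des false w).card := by
    intro w _
    rw [Pool.Agent.R136.Inv.card_Des]
  rw [Finset.sum_congr rfl hexp]
  have hset : (Finset.univ : Finset (Equiv.Perm (Fin n) × (Fin n → Bool))).filter
        (fun w => ∀ i : Fin n, w.1 (w.1 i) = i ∧ w.2 (w.1 i) = w.2 i) =
      (Finset.univ : Finset (Equiv.Perm (Fin n) × (Fin n → Bool))).filter
        (fun w => Pool.Agent.R136.Inv.IsInv w) := by
    ext w
    simp only [Finset.mem_filter, Pool.Agent.R136.Inv.IsInv]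
  rw [hset]
  have hQ := Pool.Agent.R136.Inv.poly_eq n
  have hmap : (∑ w ∈ (Finset.univ : Finset (Equiv.Perm (Fin n) × (Fin n → Bool))).filter
      (fun w => Pool.Agent.R136.Inv.IsInv w),
      (Polynomial.X : Polynomial ℤ) ^ (Pool.Agent.R136.Inv.Des false w).card).map
        (Int.castRingHom ℚ) = ∑ k ∈ Finset.range (n / 2 + 1),
        Polynomial.C (Pool.Agent.R136.InvGF.E n k) * Polynomial.X ^ k *
          (1 + Polynomial.X) ^ (n - 2 * k) := by
    rw [← hQ, Polynomial.map_sum]
    apply Finset.sum_congr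
    · ext w; simp
    · intro w _
      simp
  have hint := Pool.Agent.R136.Inv.int_of_sum n (n / 2 + 1) _ _ hmap
  have hnat : ∀ k < n / 2 + 1, ∃ z : ℕ, Pool.Agent.R136.InvGF.E n k = z := by
    intro k hk
    obtain ⟨z, hz⟩ := hint k hk
    have h0 := Pool.Agent.R136.InvGF.E_nonneg n k
    rw [hz] at h0
    have h1 : 0 ≤ z := by exact_mod_cast h0
    obtain ⟨m, rfl⟩ := Int.eq_ofNat_of_zero_le h1
    refine ⟨m, ?_⟩
    rw [hz]
    exact_mod_cast rfl
  choose! γ hγ using hnat
  refine ⟨γ, ?_⟩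
  apply Polynomial.map_injective (Int.castRingHom ℚ) Int.cast_injective
  rw [hmap, Polynomial.map_sum]
  apply Finset.sum_congr rfl
  intro k hk
  rw [Finset.mem_range] at hk
  rw [hγ k hk]
  simp

end Pool.Agent.S10497
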