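import Pool.Statements.S10718
import Pool.Agent.Helper337.PolygonProofC
import Pool.Agent.R147.PolygonRadial

set_option autoImplicit false
open Pool Pool.MP_ab53bf_co

namespace Pool.Agent.S10718

open Set Pool.Agent.Helper337.PolygonPattern

/-- test: vertex `i` is at distance at least `1 / 2` from the edge `j` -/
def sepV (Z : ZMod 14 → ℤ × ℤ) (i j : ZMod 14) : Bool :=
  let c := Z i
  let a := Z j
  let b := Z (j + 1)
  decide (1 ≤ a.1 - c.1 ∧ 1 ≤ b.1 - c.1) || decide (1 ≤ c.1 - a.1 ∧ 1 ≤ c.1 - b.1) ||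
  decide (1 ≤ a.2 - c.2 ∧ 1 ≤ b.2 - c.2) || decide (1 ≤ c.2 - a.2 ∧ 1 ≤ c.2 - b.2) ||
  decide (1 ≤ (a.1 + a.2) - (c.1 + c.2) ∧ 1 ≤ (b.1 + b.2) - (c.1 + c.2)) ||
  decide (1 ≤ (c.1 + c.2) - (a.1 + a.2) ∧ 1 ≤ (c.1 + c.2) - (b.1 + b.2)) ||
  decide (1 ≤ (a.1 - a.2) - (c.1 - c.2) ∧ 1 ≤ (b.1 - b.2) - (c.1 - c.2)) ||
  decide (1 ≤ (c.1 - c.2) - (a.1 - a.2) ∧ 1 ≤ (c.1 - c.2) - (b.1 - b.2))

theorem sepV_all : ∀ i j, j ≠ i → j + 1 ≠ i → sepV XZ i j = true := by decide +kernel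

theorem norm_ge_of (v : ℝ × ℝ) (α β : ℝ) (hα : |α| ≤ 1) (hβ : |β| ≤ 1)
    (h : 1 ≤ α * v.1 + β * v.2) : 1 / 2 ≤ ‖v‖ := by
  have h1 : |v.1| ≤ ‖v‖ := norm_fst_le v
  have h2 : |v.2| ≤ ‖v‖ := norm_snd_le v
  have e1 : α * v.1 ≤ |v.1| := by
    calc α * v.1 ≤ |α * v.1| := le_abs_self _
      _ = |α| * |v.1| := abs_mul _ _
      _ ≤ 1 * |v.1| := mul_le_mul_of_nonneg_right hα (abs_nonneg _)
      _ = |v.1| := one_mul _
  have e2 : β * v.2 ≤ |v.2| := by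
    calc β * v.2 ≤ |β * v.2| := le_abs_self _
      _ = |β| * |v.2| := abs_mul _ _
      _ ≤ 1 * |v.2| := mul_le_mul_of_nonneg_right hβ (abs_nonneg _)
      _ = |v.2| := one_mul _
  linarith

theorem far_aux (a b c : ℤ × ℤ) (α β : ℤ) (hα : |(α : ℝ)| ≤ 1) (hβ : |(β : ℝ)| ≤ 1)
    (h1 : 1 ≤ α * (a.1 - c.1) + β * (a.2 - c.2)) (h2 : 1 ≤ α * (b.1 - c.1) + β * (b.2 - c.2))
    (p : ℝ × ℝ) (hp : p ∈ segment ℝ (toR a) (toR b)) : 1 / 2 ≤ ‖p - toR c‖ := by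
  obtain ⟨t, h0, h1', hx, hy⟩ := mem_segment_coords hp
  refine norm_ge_of _ α β hα hβ ?_
  have k1 : (1 : ℝ) ≤ α * (a.1 - c.1) + β * (a.2 - c.2) := by exact_mod_cast h1
  have k2 : (1 : ℝ) ≤ α * (b.1 - c.1) + β * (b.2 - c.2) := by exact_mod_cast h2
  have e : (α : ℝ) * (p - toR c).1 + β * (p - toR c).2 =
      (1 - t) * (α * (a.1 - c.1) + β * (a.2 - c.2)) +
        t * (α * (b.1 - c.1) + β * (b.2 - c.2)) := by
    simp only [Prod.fst_sub, Prod.snd_sub, hx, hy, toR]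
    ring
  rw [e]
  have := mul_le_mul_of_nonneg_left k1 (sub_nonneg.mpr h1')
  have := mul_le_mul_of_nonneg_left k2 h0
  linarith

theorem far_xx (i j : ZMod 14) (h1 : j ≠ i) (h2 : j + 1 ≠ i) (p : ℝ × ℝ)
    (hp : p ∈ segment ℝ (xx j) (xx (j + 1))) : 2 * (1 / 4 : ℝ) ≤ ‖p - xx i‖ := by
  have h := sepV_all i j h1 h2
  simp only [sepV, Bool.or_eq_true, decide_eq_true_eq] at h
  have e : (2 * (1 / 4) : ℝ) = 1 / 2 := by norm_num
  rw [e]
  rcases h with ((((((h | h) | h) | h) | h) | h) | h) | h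
  · exact far_aux _ _ _ 1 0 (by norm_num) (by norm_num) (by linarith [h.1]) (by linarith [h.2]) p hp
  · exact far_aux _ _ _ (-1) 0 (by norm_num) (by norm_num) (by linarith [h.1]) (by linarith [h.2])
      p hp
  · exact far_aux _ _ _ 0 1 (by norm_num) (by norm_num) (by linarith [h.1]) (by linarith [h.2]) p hp
  · exact far_aux _ _ _ 0 (-1) (by norm_num) (by norm_num) (by linarith [h.1]) (by linarith [h.2])
      p hp
  · exact far_aux _ _ _ 1 1 (by norm_num) (by norm_num) (by linarith [h.1]) (by linarith [h.2]) p hp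
  · exact far_aux _ _ _ (-1) (-1) (by norm_num) (by norm_num) (by linarith [h.1])
      (by linarith [h.2]) p hp
  · exact far_aux _ _ _ 1 (-1) (by norm_num) (by norm_num) (by linarith [h.1]) (by linarith [h.2])
      p hp
  · exact far_aux _ _ _ (-1) 1 (by norm_num) (by norm_num) (by linarith [h.1]) (by linarith [h.2])
      p hp

/-- integer vector of the extra edge -/
def UZ (i : ZMod 14) : ℤ × ℤ :=
  (2 * (XZ i).1 - (XZ (i - 1)).1 - (XZ (i + 1)).1, 2 * (XZ i).2 - (XZ (i - 1)).2 - (XZ (i + 1)).2)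

/-- vector of the extra edge -/
noncomputable def uu (i : ZMod 14) : ℝ × ℝ := (2 : ℝ) • xx i - xx (i - 1) - xx (i + 1)

theorem uu_eq (i : ZMod 14) : uu i = toR (UZ i) := by
  unfold uu UZ xx toR
  apply Prod.ext
  · simp only [Prod.fst_sub, Prod.smul_fst, smul_eq_mul]; push_cast; ring
  · simp only [Prod.snd_sub, Prod.smul_snd, smul_eq_mul]; push_cast; ring

theorem UZ_bound : ∀ i, UZ i ≠ 0 ∧ |(UZ i).1| ≤ 200 ∧ |(UZ i).2| ≤ 200 := by decide +kernel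

theorem adj_bound : ∀ i, 1 ≤ |(XZ (i + 1)).1 - (XZ i).1| ∨ 1 ≤ |(XZ (i + 1)).2 - (XZ i).2| := by
  decide +kernel

theorem uu_ne (i : ZMod 14) : uu i ≠ 0 := by
  rw [uu_eq]
  intro h
  apply (UZ_bound i).1
  have h1 := congrArg Prod.fst h
  have h2 := congrArg Prod.snd h
  simp only [toR, Prod.fst_zero, Prod.snd_zero] at h1 h2
  exact Prod.ext (by exact_mod_cast h1) (by exact_mod_cast h2)

theorem uu_norm (i : ZMod 14) : ‖uu i‖ ≤ 200 := by
  rw [uu_eq, Prod.norm_def]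
  apply max_le
  · have := (UZ_bound i).2.1
    show |((UZ i).1 : ℝ)| ≤ 200
    exact_mod_cast this
  · have := (UZ_bound i).2.2
    show |((UZ i).2 : ℝ)| ≤ 200
    exact_mod_cast this

theorem adj_xx (i : ZMod 14) : 2 * (1 / 4 : ℝ) ≤ ‖xx (i + 1) - xx i‖ := by
  have e : (2 * (1 / 4) : ℝ) ≤ 1 := by norm_num
  refine e.trans ?_
  rw [Prod.norm_def]
  rcases adj_bound i with h | h
  · apply le_max_of_le_left
    show (1 : ℝ) ≤ |((XZ (i + 1)).1 : ℝ) - (XZ i).1|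
    exact_mod_cast h
  · apply le_max_of_le_right
    show (1 : ℝ) ≤ |((XZ (i + 1)).2 : ℝ) - (XZ i).2|
    exact_mod_cast h

theorem rot (i : Fin 14) : finRotate 14 i = i + 1 := finRotate_apply i

theorem rot_symm (i : Fin 14) : (finRotate 14).symm i = i - 1 := by
  rw [Equiv.symm_apply_eq, rot, sub_add_cancel]

/-- the reflection commutes with the construction of the extra edges -/
theorem tau_pend (ε : ℝ) (i : ZMod 14) :
    tau (xx i + ε • uu i) =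
      yy (i + 7) + ε • ((2 : ℝ) • yy (i + 7) - yy (i + 7 - 1) - yy (i + 7 + 1)) := by
  have h1 : i + 7 - 1 = (i - 1) + 7 := by ring
  have h2 : i + 7 + 1 = (i + 1) + 7 := by ring
  rw [h1, h2, ← tau_xx, ← tau_xx, ← tau_xx]
  unfold uu
  simp only [tau_apply]
  apply Prod.ext
  · simp
  · simp; ring

theorem same_pattern (ε₁ ε₂ : ℝ) (h1 : 0 < ε₁) (h1' : ε₁ < 1 / 1000) (h2 : 0 < ε₂)
    (h2' : ε₂ < 1 / 1000) :
    ∃ h : Homeomorph (ℝ × ℝ) (ℝ × ℝ),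
      (∀ j : ZMod 14, h '' segment ℝ (xx j) (xx (j + 1)) =
        segment ℝ (yy (j + 7)) (yy (j + 7 + 1))) ∧
      (∀ j : ZMod 14, h (xx j) = yy (j + 7)) ∧
      (∀ j : ZMod 14, h '' segment ℝ (xx j) (xx j + ε₁ • uu j) =
        segment ℝ (yy (j + 7)) (yy (j + 7) +
          ε₂ • ((2 : ℝ) • yy (j + 7) - yy (j + 7 - 1) - yy (j + 7 + 1)))) ∧
      (∀ j : ZMod 14, h (xx j + ε₁ • uu j) = yy (j + 7) +
          ε₂ • ((2 : ℝ) • yy (j + 7) - yy (j + 7 - 1) - yy (j + 7 + 1))) := by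
  have hb : ∀ ε : ℝ, 0 < ε → ε < 1 / 1000 → ∀ i, ε * ‖uu i‖ < 1 / 4 := by
    intro ε h h' i
    have := uu_norm i
    have := norm_nonneg (uu i)
    nlinarith
  obtain ⟨g, a1, a2, a3, a4⟩ : ∃ h : Homeomorph (ℝ × ℝ) (ℝ × ℝ),
      (∀ j : ZMod 14, h '' segment ℝ (xx j) (xx (j + 1)) = segment ℝ (xx j) (xx (j + 1))) ∧
      (∀ j : ZMod 14, h (xx j) = xx j) ∧
      (∀ j : ZMod 14, h '' segment ℝ (xx j) (xx j + ε₁ • uu j) =
        segment ℝ (xx j) (xx j + ε₂ • uu j)) ∧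
      (∀ j : ZMod 14, h (xx j + ε₁ • uu j) = xx j + ε₂ • uu j) :=
    Pool.Agent.R147.Radial.exists_rescale (n := 14) xx
      (Equiv.addRight (1 : ZMod 14)) uu (1 / 4) (by norm_num)
      (fun i j hj hj2 p hp => far_xx i j hj hj2 p hp)
      (fun i => adj_xx i) uu_ne ε₁ ε₂ h1 h2 (hb ε₁ h1 h1') (hb ε₂ h2 h2')
  have hco : (g.trans tau : ℝ × ℝ → ℝ × ℝ) = (tau : ℝ × ℝ → ℝ × ℝ) ∘ (g : ℝ × ℝ → ℝ × ℝ) := rfl
  refine ⟨g.trans tau, ?_, ?_, ?_, ?_⟩
  · intro j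
    rw [hco, image_comp]
    exact (congrArg (fun S : Set (ℝ × ℝ) => tau '' S) (a1 j)).trans (tau_edge j)
  · intro j
    exact (congrArg tau (a2 j)).trans (tau_xx j)
  · intro j
    rw [hco, image_comp]
    refine (congrArg (fun S : Set (ℝ × ℝ) => tau '' S) (a3 j)).trans ?_
    refine (tau_segment _ _).trans ?_
    rw [tau_pend, tau_xx]
  · intro j
    exact (congrArg tau (a4 j)).trans (tau_pend ε₂ j)

theorem union_shift {α : Type*} (f g : ZMod 14 → Set α) (h : ∀ j, f j = g (j + 7)) :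
    ⋃ j, f j = ⋃ j, g j := by
  simp_rw [h]
  exact (Equiv.addRight (7 : ZMod 14)).surjective.iUnion_comp g

theorem relabel (f : ZMod 14 → ZMod 14)
    (hf : (∀ i, f (i + 1) = f i + 1) ∨ (∀ i, f (i + 1) = f i - 1)) : IsRelabelling f := by
  refine ⟨f 0, ?_⟩
  rcases hf with h | h
  · left
    have key : ∀ k : ℕ, f (k : ZMod 14) = f 0 + (k : ZMod 14) := by
      intro k
      induction k with
      | zero => simp
      | succ k ih =>
        push_cast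
        rw [h, ih]
        ring
    intro i
    have := key (ZMod.val i)
    rw [ZMod.natCast_zmod_val] at this
    exact this
  · right
    have key : ∀ k : ℕ, f (k : ZMod 14) = f 0 - (k : ZMod 14) := by
      intro k
      induction k with
      | zero => simp
      | succ k ih =>
        push_cast
        rw [h, ih]
        ring
    intro i
    have := key (ZMod.val i)
    rw [ZMod.natCast_zmod_val] at this
    exact this

theorem ord_iff (x : Fin 14 → ℝ × ℝ) :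
    (∀ (p : ℝ × ℝ) (i j k : Fin 14), p ∈ segment ℝ (x i) (x (finRotate 14 i)) →
      p ∈ segment ℝ (x j) (x (finRotate 14 j)) → p ∈ segment ℝ (x k) (x (finRotate 14 k)) →
      i = j ∨ j = k ∨ i = k) ↔ Ordinary (n := 14) x := by
  simp only [rot]
  constructor
  · intro h p i j k hij hjk hik hh
    rcases h p i j k hh.1 hh.2.1 hh.2.2 with e | e | e
    · exact hij e
    · exact hjk e
    · exact hik e
  · intro h p i j k h1 h2 h3
    by_contra hcon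
    push Not at hcon
    exact h p i j k hcon.1 hcon.2.1 hcon.2.2 ⟨h1, h2, h3⟩

/-- the two polygons, with vertices labelled by `Fin 14` -/
def XF : Fin 14 → ℝ × ℝ := xx
def YF : Fin 14 → ℝ × ℝ := yy

theorem e7 : ∀ k : ZMod 14, k + 7 + 7 = k := by decide +kernel

theorem same_mapset (ε₁ ε₂ : ℝ) (h : Homeomorph (ℝ × ℝ) (ℝ × ℝ))
    (a1 : ∀ j : ZMod 14, h '' segment ℝ (xx j) (xx (j + 1)) =
        segment ℝ (yy (j + 7)) (yy (j + 7 + 1)))
    (a3 : ∀ j : ZMod 14, h '' segment ℝ (xx j) (xx j + ε₁ • uu j) =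
        segment ℝ (yy (j + 7)) (yy (j + 7) +
          ε₂ • ((2 : ℝ) • yy (j + 7) - yy (j + 7 - 1) - yy (j + 7 + 1)))) :
    h '' ((⋃ i : ZMod 14, segment ℝ (xx i) (xx (i + 1))) ∪ ⋃ i : ZMod 14, segment ℝ (xx i)
      (xx i + ε₁ • ((2:ℝ) • xx i - xx (i - 1) - xx (i + 1)))) =
    (⋃ i : ZMod 14, segment ℝ (yy i) (yy (i + 1))) ∪ ⋃ i : ZMod 14, segment ℝ (yy i)
      (yy i + ε₂ • ((2:ℝ) • yy i - yy (i - 1) - yy (i + 1))) := by
  rw [image_union, image_iUnion, image_iUnion]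
  congr 1
  · exact union_shift _ _ a1
  · exact union_shift _ _ a3

theorem same_nodes (ε₁ ε₂ : ℝ) (h : Homeomorph (ℝ × ℝ) (ℝ × ℝ))
    (a1 : ∀ j : ZMod 14, h '' segment ℝ (xx j) (xx (j + 1)) =
        segment ℝ (yy (j + 7)) (yy (j + 7 + 1)))
    (a2 : ∀ j : ZMod 14, h (xx j) = yy (j + 7))
    (a4 : ∀ j : ZMod 14, h (xx j + ε₁ • uu j) = yy (j + 7) +
          ε₂ • ((2 : ℝ) • yy (j + 7) - yy (j + 7 - 1) - yy (j + 7 + 1))) :
    h '' (Set.range xx ∪ {p : ℝ × ℝ | ∃ i j : ZMod 14, i ≠ j ∧ p ∈ segment ℝ (xx i) (xx (i + 1)) ∧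
        p ∈ segment ℝ (xx j) (xx (j + 1))} ∪
      Set.range (fun i : ZMod 14 => xx i + ε₁ • ((2:ℝ) • xx i - xx (i - 1) - xx (i + 1)))) =
    Set.range yy ∪ {p : ℝ × ℝ | ∃ i j : ZMod 14, i ≠ j ∧ p ∈ segment ℝ (yy i) (yy (i + 1)) ∧
        p ∈ segment ℝ (yy j) (yy (j + 1))} ∪
      Set.range (fun i : ZMod 14 => yy i + ε₂ • ((2:ℝ) • yy i - yy (i - 1) - yy (i + 1))) := by
  rw [image_union, image_union]
  congr 1
  · congr 1
    · ext p
      constructor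
      · rintro ⟨_, ⟨i, rfl⟩, rfl⟩
        exact ⟨i + 7, (a2 i).symm⟩
      · rintro ⟨i, rfl⟩
        refine ⟨xx (i + 7), ⟨i + 7, rfl⟩, ?_⟩
        rw [a2, e7]
    · have hmem : ∀ p, ∀ j : ZMod 14, h p ∈ segment ℝ (yy (j + 7)) (yy (j + 7 + 1)) ↔
          p ∈ segment ℝ (xx j) (xx (j + 1)) := by
        intro p j
        rw [← a1 j]
        exact h.injective.mem_set_image
      ext q
      constructor
      · rintro ⟨p, ⟨i, j, hij, hi, hj⟩, rfl⟩
        exact ⟨i + 7, j + 7, fun e => hij (add_right_cancel e), (hmem p i).mpr hi,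
          (hmem p j).mpr hj⟩
      · rintro ⟨i, j, hij, hi, hj⟩
        refine ⟨h.symm q, ⟨i + 7, j + 7, fun e => hij (add_right_cancel e), ?_, ?_⟩,
          h.apply_symm_apply q⟩
        · refine (hmem _ (i + 7)).mp ?_
          rw [h.apply_symm_apply, e7]
          exact hi
        · refine (hmem _ (j + 7)).mp ?_
          rw [h.apply_symm_apply, e7]
          exact hj
  · ext q
    constructor
    · rintro ⟨_, ⟨i, rfl⟩, rfl⟩
      exact ⟨i + 7, (a4 i).symm⟩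
    · rintro ⟨i, rfl⟩
      refine ⟨_, ⟨i + 7, rfl⟩, ?_⟩
      refine (a4 (i + 7)).trans ?_
      rw [e7]

/-- The negation of the preceding statement: If two ordinary proper n-gons have the same pattern and some dihedral relabelling of the second makes corresponding edges same-direction parallel, then some such relabelling admits a continuous deformation of the first into it keeping the pattern and all edge directions. -/
theorem result :
    ¬ (∀ (n : ℕ), 3 ≤ n →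
  ∀ (Edge : (Fin n → ℝ × ℝ) → Fin n → Set (ℝ × ℝ)),
    (∀ x i, Edge x i = segment ℝ (x i) (x (finRotate n i))) →
  ∀ (Pend : (Fin n → ℝ × ℝ) → ℝ → Fin n → ℝ × ℝ),
    (∀ x ε i, Pend x ε i = x i + ε • ((2:ℝ) • x i - x ((finRotate n).symm i) - x (finRotate n i))) →
  ∀ (Ordinary : (Fin n → ℝ × ℝ) → Prop),
    (∀ x, Ordinary x ↔ ∀ (p : ℝ × ℝ) (i j k : Fin n), p ∈ Edge x i → p ∈ Edge x j → p ∈ Edge x k →
      i = j ∨ j = k ∨ i = k) →
  ∀ (Proper : (Fin n → ℝ × ℝ) → Prop),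
    (∀ x, Proper x ↔ (∀ i, x i ≠ x (finRotate n i)) ∧
      ∀ i, ¬ Collinear ℝ ({x ((finRotate n).symm i), x i, x (finRotate n i)} : Set (ℝ × ℝ))) →
  ∀ (MapSet : (Fin n → ℝ × ℝ) → ℝ → Set (ℝ × ℝ)),
    (∀ x ε, MapSet x ε = (⋃ i, Edge x i) ∪ ⋃ i, segment ℝ (x i) (Pend x ε i)) →
  ∀ (Nodes : (Fin n → ℝ × ℝ) → ℝ → Set (ℝ × ℝ)),
    (∀ x ε, Nodes x ε = Set.range x ∪ {p : ℝ × ℝ | ∃ i j, i ≠ j ∧ p ∈ Edge x i ∧ p ∈ Edge x j}
      ∪ Set.range (Pend x ε)) →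
  ∀ (SamePattern : (Fin n → ℝ × ℝ) → (Fin n → ℝ × ℝ) → Prop),
    (∀ x y, SamePattern x y ↔ ∃ δ : ℝ, 0 < δ ∧ ∀ ε₁ ε₂ : ℝ, 0 < ε₁ → ε₁ < δ → 0 < ε₂ → ε₂ < δ →
      ∃ h : Homeomorph (ℝ × ℝ) (ℝ × ℝ), h '' MapSet x ε₁ = MapSet y ε₂ ∧ h '' Nodes x ε₁ = Nodes y ε₂) →
  ∀ (Dihedral : Equiv.Perm (Fin n) → Prop),
    (∀ σ, Dihedral σ ↔ (∀ i, σ (finRotate n i) = finRotate n (σ i)) ∨
      (∀ i, σ (finRotate n i) = (finRotate n).symm (σ i))) →
  ∀ (Parallel : (Fin n → ℝ × ℝ) → (Fin n → ℝ × ℝ) → Prop),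
    (∀ x z, Parallel x z ↔ ∀ i, ∃ c : ℝ, 0 < c ∧ z (finRotate n i) - z i = c • (x (finRotate n i) - x i)) →
  ∀ x y : Fin n → ℝ × ℝ,
    Ordinary x → Proper x → Ordinary y → Proper y → SamePattern x y →
    (∃ σ : Equiv.Perm (Fin n), Dihedral σ ∧ Parallel x (fun i => y (σ i))) →
    ∃ σ : Equiv.Perm (Fin n), Dihedral σ ∧ Parallel x (fun i => y (σ i)) ∧
      ∃ X : ℝ → Fin n → ℝ × ℝ,
        (∀ j, ContinuousOn (fun t => X t j) (Set.Icc (0:ℝ) 1)) ∧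
        X 0 = x ∧ X 1 = (fun i => y (σ i)) ∧
        ∀ t ∈ Set.Icc (0:ℝ) 1,
          Ordinary (X t) ∧ Proper (X t) ∧ SamePattern x (X t) ∧ Parallel x (X t)) := by
  intro H
  have H := H 14 (by norm_num)
    (fun x i => segment ℝ (x i) (x (finRotate 14 i))) (fun _ _ => rfl)
    (fun x ε i => x i + ε • ((2:ℝ) • x i - x ((finRotate 14).symm i) - x (finRotate 14 i)))
    (fun _ _ _ => rfl)
    (fun x => ∀ (p : ℝ × ℝ) (i j k : Fin 14), p ∈ segment ℝ (x i) (x (finRotate 14 i)) →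
      p ∈ segment ℝ (x j) (x (finRotate 14 j)) → p ∈ segment ℝ (x k) (x (finRotate 14 k)) →
      i = j ∨ j = k ∨ i = k) (fun _ => Iff.rfl)
    (fun x => (∀ i, x i ≠ x (finRotate 14 i)) ∧
      ∀ i, ¬ Collinear ℝ ({x ((finRotate 14).symm i), x i, x (finRotate 14 i)} : Set (ℝ × ℝ)))
    (fun _ => Iff.rfl)
    _ (fun _ _ => rfl) _ (fun _ _ => rfl) _ (fun _ _ => Iff.rfl) _ (fun _ => Iff.rfl)
    _ (fun _ _ => Iff.rfl) XF YF ((ord_iff XF).mpr ordinaryX) ?_ ((ord_iff YF).mpr ordinaryY) ?_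
    ?_ ?_
  · obtain ⟨σ, hσ, hpar, X, hc, h0, h1, hX⟩ := H
    simp only [rot, rot_symm] at hσ hpar hX
    have hrel := relabel (fun i : ZMod 14 => (σ i : Fin 14)) hσ
    have huniq := relabelling_unique hrel hpar
    refine no_path (P := X) hc h0 (h1.trans huniq) ?_ ?_
    · intro t ht
      refine (ord_iff (X t)).mp ?_
      simp only [rot]
      exact (hX t ht).1
    · intro t ht
      exact (hX t ht).2.2.2
  · simp only [rot, rot_symm]
    exact ⟨polyX, properX⟩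
  · simp only [rot, rot_symm]
    exact ⟨polyY, properY⟩
  · refine ⟨1 / 1000, by norm_num, ?_⟩
    intro ε₁ ε₂ h1 h1' h2 h2'
    obtain ⟨h, a1, a2, a3, a4⟩ := same_pattern ε₁ ε₂ h1 h1' h2 h2'
    refine ⟨h, ?_, ?_⟩
    · simp only [rot, rot_symm]
      exact same_mapset ε₁ ε₂ h a1 a3
    · simp only [rot, rot_symm]
      exact same_nodes ε₁ ε₂ h a1 a2 a4
  · refine ⟨1, Or.inl (fun _ => rfl), ?_⟩
    simp only [rot]
    exact parallel_xy

end Pool.Agent.S10718
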