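import Pool.Statements.S10731
import Pool.Agent.W31.JP.Win

set_option autoImplicit false
open Classical
open Pool Pool.MP_abf15b_co

namespace Pool.Agent.S10731

/-- pairs `p.1 < p.2` of adjacent vertices with a symmetric property, and edges -/
theorem card_pairs {n : ℕ} (G : SimpleGraph (Fin n)) (q : Fin n → Prop) :
    ((Finset.univ : Finset (Fin n × Fin n)).filter
      (fun p => p.1 < p.2 ∧ G.Adj p.1 p.2 ∧ q p.1 ∧ q p.2)).card =
    (G.edgeFinset.filter (fun e => ∀ v ∈ e, q v)).card := by
  refine Finset.card_bij (fun p _ => s(p.1, p.2)) ?_ ?_ ?_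
  · rintro ⟨a, b⟩ h
    simp only [Finset.mem_filter, Finset.mem_univ, true_and] at h
    simp only [Finset.mem_filter, SimpleGraph.mem_edgeFinset, SimpleGraph.mem_edgeSet]
    refine ⟨h.2.1, ?_⟩
    intro v hv
    rcases Sym2.mem_iff.1 hv with rfl | rfl
    · exact h.2.2.1
    · exact h.2.2.2
  · rintro ⟨a, b⟩ h ⟨c, d⟩ h' heq
    simp only [Finset.mem_filter, Finset.mem_univ, true_and] at h h'
    rcases Sym2.eq_iff.1 heq with ⟨h1, h2⟩ | ⟨h1, h2⟩
    · simp_all
    · exfalso
      simp only at h1 h2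
      subst h1; subst h2
      exact absurd h.1 (not_lt.2 h'.1.le)
  · intro e he
    induction e using Sym2.ind with
    | _ a b =>
      simp only [Finset.mem_filter, SimpleGraph.mem_edgeFinset, SimpleGraph.mem_edgeSet] at he
      have ha : q a := he.2 a (Sym2.mem_mk_left a b)
      have hb : q b := he.2 b (Sym2.mem_mk_right a b)
      rcases lt_trichotomy a b with h | h | h
      · exact ⟨(a, b), by simp [h, he.1, ha, hb], rfl⟩
      · exact absurd h he.1.ne
      · exact ⟨(b, a), by simp [h, he.1.symm, ha, hb], Sym2.eq_swap⟩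

/-- For every real C there is m such that every finite graph with m edges has a vertex bipartition where both parts span fewer than m/4 + sqrt(m/32) − C edges; i.e. m/4 + sqrt(m/32) − g(m) is unbounded above. -/
theorem result :
    ∀ C : ℝ, ∃ m : ℕ, ∀ n : ℕ, ∀ G : SimpleGraph (Fin n),
      G.edgeFinset.card = m →
      ∃ S : Finset (Fin n),
        ((max (G.edgeFinset.filter (fun e => ∀ v ∈ e, v ∈ S)).card
              (G.edgeFinset.filter (fun e => ∀ v ∈ e, v ∉ S)).card : ℕ) : ℝ) + C
          < (m : ℝ) / 4 + Real.sqrt ((m : ℝ) / 32) := by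
  intro C
  obtain ⟨N, hN⟩ := exists_nat_gt ((20000 * |C|) ^ 2)
  have hl : 2000 ≤ max 2000 N := le_max_left _ _
  have hNl : N ≤ max 2000 N := le_max_right _ _
  generalize max 2000 N = l at hl hNl
  have hm : l ≤ l * (2 * l - 1) := Nat.le_mul_of_pos_right _ (by omega)
  refine ⟨l * (2 * l - 1), fun n G hG => ?_⟩
  have hG' : ((Finset.univ : Finset (Fin n × Fin n)).filter
      (fun p => p.1 < p.2 ∧ G.Adj p.1 p.2)).card = l * (2 * l - 1) := by
    have h := card_pairs G (fun _ => True)
    simp only [and_self, and_true, implies_true, Finset.filter_true] at h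
    rw [← hG]
    convert h using 2
  obtain ⟨S, hS⟩ := Pool.Agent.W31.JP.main_window hl le_rfl (Nat.le_add_right _ _) n G hG'
  refine ⟨S, ?_⟩
  have h1 := card_pairs G (fun v => v ∈ S)
  have h2 := card_pairs G (fun v => v ∉ S)
  have h3 : C ≤ Real.sqrt ((l * (2 * l - 1) : ℕ) : ℝ) / 20000 := by
    have h4 : 20000 * |C| ≤ Real.sqrt ((l * (2 * l - 1) : ℕ) : ℝ) := by
      apply Real.le_sqrt_of_sq_le
      have : (N : ℝ) ≤ ((l * (2 * l - 1) : ℕ) : ℝ) := by exact_mod_cast hNl.trans hm
      linarith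
    have := le_abs_self C
    linarith
  have h5 : (((max (G.edgeFinset.filter (fun e => ∀ v ∈ e, v ∈ S)).card
      (G.edgeFinset.filter (fun e => ∀ v ∈ e, v ∉ S)).card : ℕ)) : ℝ) <
      ((l * (2 * l - 1) : ℕ) : ℝ) / 4 + Real.sqrt (((l * (2 * l - 1) : ℕ) : ℝ) / 32)
        - Real.sqrt ((l * (2 * l - 1) : ℕ) : ℝ) / 20000 := by
    refine lt_of_le_of_lt (le_of_eq ?_) hS
    congr 2
    · convert h1.symm
    · convert h2.symm
  linarith

end Pool.Agent.S10731
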