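import Pool.Statements.S10800
import Pool.Agent.R87.BicNum

set_option autoImplicit false
open scoped Classical
open Filter Topology
open Pool Pool.MP_aef546_co

namespace Pool.Agent.S10800

/-- The negation of the preceding statement: For every fixed p with 0<p<1/2, the probability that G(n,p) has biclique partition number equal to n minus its independence number tends to 1 as n tends to infinity. -/
theorem result :
    ¬ (∀ p : ℝ, 0 < p → p < 1 / 2 →
      Tendsto (fun n : ℕ => ∑ G : SimpleGraph (Fin n),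
        if sInf {k : ℕ | ∃ A B : Fin k → Finset (Fin n),
              (∀ i, Disjoint (A i) (B i)) ∧
              ∀ u v : Fin n,
                (G.Adj u v → ∃! i, (u ∈ A i ∧ v ∈ B i) ∨ (v ∈ A i ∧ u ∈ B i)) ∧
                (¬ G.Adj u v → ∀ i, ¬ (u ∈ A i ∧ v ∈ B i))}
            = n - Gᶜ.cliqueNum
        then p ^ G.edgeFinset.card * (1 - p) ^ (n.choose 2 - G.edgeFinset.card)
        else 0)
        atTop (𝓝 1)) := by
  intro hcon
  have h := hcon (9 / 20) (by norm_num) (by norm_num)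
  have hev := h.eventually_const_lt (u := (585 / 1000 : ℝ)) (by norm_num)
  obtain ⟨n₀, hn₀⟩ := Filter.eventually_atTop.1 hev
  obtain ⟨k₀, hk₀⟩ := R87.BicNum.exists_m
  obtain ⟨m, hk4, h15, hM, hA, hB⟩ := hk₀ (max k₀ n₀) (le_max_left _ _)
  set k := max k₀ n₀ with hk
  have hkm : k ≤ m := by
    have h1 : (1 : ℝ) ≤ ((k : ℝ) + 1) ^ 17 := one_le_pow₀ (by
      have : (0 : ℝ) ≤ k := by positivity
      linarith)
    have h2 : (k : ℝ) + 1 ≤ ((k : ℝ) + 1) ^ 18 := by
      rw [pow_succ]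
      have : (0 : ℝ) ≤ (k : ℝ) + 1 := by positivity
      nlinarith
    have h3 : (k : ℝ) ≤ m := by
      have : (0 : ℝ) ≤ ((k : ℝ) + 1) ^ 18 := by positivity
      linarith
    exact_mod_cast h3
  obtain ⟨ρ, hρ, hρ2, hD, hC⟩ := R87.BicNum.bound hk4 h15 hM hA hB
  have hn := hn₀ (m + m / k) (((le_max_right k₀ n₀).trans hkm).trans (Nat.le_add_right _ _))
  have e1 : (1 : ℝ) - 9 / 20 = 11 / 20 := by norm_num
  have e2 : ((9 / 20 : ℝ)) ^ 2 + (11 / 20) ^ 2 = 101 / 200 := by norm_num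
  have e3 : ((9 / 20 : ℝ)) ^ 3 + (11 / 20) ^ 3 = 103 / 400 := by norm_num
  have hP := R87.BicMain.Pr_BP_le (p := 9 / 20) (ρ := ρ) (m := m) (n2 := m / k) (k := k)
    (by norm_num) (by norm_num) (by norm_num) hkm hρ (by rw [e1, e2, e3]; exact hρ2)
  rw [e1] at hP
  have hsum : ∀ n : ℕ, (∑ G : SimpleGraph (Fin n),
        if sInf {k : ℕ | ∃ A B : Fin k → Finset (Fin n),
              (∀ i, Disjoint (A i) (B i)) ∧
              ∀ u v : Fin n,
                (G.Adj u v → ∃! i, (u ∈ A i ∧ v ∈ B i) ∨ (v ∈ A i ∧ u ∈ B i)) ∧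
                (¬ G.Adj u v → ∀ i, ¬ (u ∈ A i ∧ v ∈ B i))}
            = n - Gᶜ.cliqueNum
        then (9 / 20 : ℝ) ^ G.edgeFinset.card * (1 - 9 / 20) ^ (n.choose 2 - G.edgeFinset.card)
        else 0) =
      W166.Gnp.Pr (W166.Gnp.allE n) (9 / 20) (fun S => R87.BicMain.BP
        (SimpleGraph.fromEdgeSet (S : Set (Sym2 (Fin n))))) := by
    intro n
    rw [← W166.Gnp.sum_eq_Pr]
    apply Finset.sum_congr rfl
    intro G _
    have hc : G.edgeFinset.card = G.edgeSet.ncard := by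
      rw [SimpleGraph.edgeFinset, Set.ncard_eq_toFinset_card']
    rw [hc]
    unfold R87.BicMain.BP
    congr
  rw [hsum] at hn
  linarith

end Pool.Agent.S10800
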