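import Pool.Statements.S11006
import Pool.Agent.R135.OctCount

set_option autoImplicit false
open scoped Pointwise
open Pool Pool.MP_b7cbb2_co

namespace Pool.Agent.S11006

open Pool.Agent.R135.Oct

/-- the determinant of `1 - X M` for the unit matrix -/
lemma det_one : Matrix.det (1 - (Polynomial.X : Polynomial ℤ) •
    (fm 0).map Polynomial.C) = (1 - Polynomial.X) ^ 3 := by
  rw [Matrix.det_fin_three]
  simp [fm]
  ring

/-- the determinant of `1 - X M` for the first rotation -/
lemma det_rot1 : Matrix.det (1 - (Polynomial.X : Polynomial ℤ) •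
    (fm 1).map Polynomial.C) = 1 - Polynomial.X ^ 3 := by
  rw [Matrix.det_fin_three]
  simp [fm]
  ring

/-- the determinant of `1 - X M` for the second rotation -/
lemma det_rot2 : Matrix.det (1 - (Polynomial.X : Polynomial ℤ) •
    (fm 2).map Polynomial.C) = 1 - Polynomial.X ^ 3 := by
  rw [Matrix.det_fin_three]
  simp [fm]
  ring

lemma rot1_fix (x : Fin 3 → ℤ) : Matrix.mulVec (fm 1) x = x ↔ x 0 = x 1 ∧ x 1 = x 2 := by
  have e : Matrix.mulVec (fm 1) x = ![x 2, x 0, x 1] := by
    funext i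
    fin_cases i <;> simp [fm, Matrix.mulVec, dotProduct, Fin.sum_univ_three]
  rw [e]
  constructor
  · intro h
    have h0 := congrFun h 0
    have h1 := congrFun h 1
    have h2 := congrFun h 2
    simp at h0 h1 h2
    omega
  · rintro ⟨h1, h2⟩
    funext i
    fin_cases i <;> simp <;> omega

lemma rot2_fix (x : Fin 3 → ℤ) : Matrix.mulVec (fm 2) x = x ↔ x 0 = x 1 ∧ x 1 = x 2 := by
  have e : Matrix.mulVec (fm 2) x = ![x 1, x 2, x 0] := by
    funext i
    fin_cases i <;> simp [fm, Matrix.mulVec, dotProduct, Fin.sum_univ_three]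
  rw [e]
  constructor
  · intro h
    have h0 := congrFun h 0
    have h1 := congrFun h 1
    have h2 := congrFun h 2
    simp at h0 h1 h2
    omega
  · rintro ⟨h1, h2⟩
    funext i
    fin_cases i <;> simp <;> omega

/-- the equivariant series -/
noncomputable def Phi (g : Multiplicative (ZMod 3)) : PowerSeries ℤ :=
  PowerSeries.mk (fun m : ℕ => (((fixedSet (f g) m).ncard : ℕ) : ℤ))
        * (1 - PowerSeries.X)
        * ((Matrix.det (1 - (Polynomial.X : Polynomial ℤ) •
              (f g).map Polynomial.C) : Polynomial ℤ) : PowerSeries ℤ)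

lemma Phi_zero : Phi (Multiplicative.ofAdd 0) =
    PowerSeries.mk c1 * (1 - PowerSeries.X) ^ 4 := by
  have h1 : f (Multiplicative.ofAdd 0) = fm 0 := rfl
  have h0 : fm 0 = 1 := rfl
  unfold Phi
  rw [h1, det_one]
  have h2 : (fun m : ℕ => (((fixedSet (fm 0) m).ncard : ℕ) : ℤ)) = c1 := by
    funext m; rw [h0]; exact ncard_one m
  rw [h2]
  push_cast
  ring

lemma Phi_one : Phi (Multiplicative.ofAdd 1) =
    PowerSeries.mk c3 * (1 - PowerSeries.X) * (1 - PowerSeries.X ^ 3) := by
  have h1 : f (Multiplicative.ofAdd 1) = fm 1 := rfl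
  unfold Phi
  rw [h1, det_rot1]
  have h2 : (fun m : ℕ => (((fixedSet (fm 1) m).ncard : ℕ) : ℤ)) = c3 := by
    funext m; exact fixedSet_rot _ rot1_fix m
  rw [h2]
  push_cast
  ring

lemma Phi_two : Phi (Multiplicative.ofAdd 2) =
    PowerSeries.mk c3 * (1 - PowerSeries.X) * (1 - PowerSeries.X ^ 3) := by
  have h1 : f (Multiplicative.ofAdd 2) = fm 2 := rfl
  unfold Phi
  rw [h1, det_rot2]
  have h2 : (fun m : ℕ => (((fixedSet (fm 2) m).ncard : ℕ) : ℤ)) = c3 := by
    funext m; exact fixedSet_rot _ rot2_fix m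
  rw [h2]
  push_cast
  ring

lemma series_c1 : PowerSeries.mk c1 * (1 - PowerSeries.X) ^ 4 =
    1 + 2 * PowerSeries.X + PowerSeries.X ^ 2 := by
  have h0 := tri_card 0
  have h1 := tri_card 1
  have h2 := tri_card 2
  have h3 := tri_card 3
  have key : ∀ n, c1 (n + 4) - 4 * c1 (n + 3) + 6 * c1 (n + 2) - 4 * c1 (n + 1) + c1 n = 0 := by
    intro n
    have a0 := tri_card n
    have a1 := tri_card (n + 1)
    have a2 := tri_card (n + 2)
    have a3 := tri_card (n + 3)
    have a4 := tri_card (n + 4)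
    unfold c1
    push_cast at a0 a1 a2 a3 a4
    have : 3 * (((tri (n + 4)).card : ℤ) - 4 * (tri (n + 3)).card + 6 * (tri (n + 2)).card
      - 4 * (tri (n + 1)).card + (tri n).card) = 0 := by
      linear_combination a4 - 4 * a3 + 6 * a2 - 4 * a1 + a0
    omega
  have e : PowerSeries.mk c1 * (1 - PowerSeries.X) ^ 4 = PowerSeries.mk c1 -
      4 * (PowerSeries.X * PowerSeries.mk c1) + 6 * (PowerSeries.X ^ 2 * PowerSeries.mk c1)
      - 4 * (PowerSeries.X ^ 3 * PowerSeries.mk c1) + PowerSeries.X ^ 4 * PowerSeries.mk c1 := by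
    ring
  have c10 : c1 0 = 1 := by unfold c1; push_cast at h0; omega
  have c11 : c1 1 = 6 := by unfold c1; push_cast at h1; omega
  have c12 : c1 2 = 19 := by unfold c1; push_cast at h2; omega
  have c13 : c1 3 = 44 := by unfold c1; push_cast at h3; omega
  rw [e]
  ext n
  have n2 : (2 : PowerSeries ℤ) = PowerSeries.C 2 := by simp
  have n4 : (4 : PowerSeries ℤ) = PowerSeries.C 4 := by simp
  have n6 : (6 : PowerSeries ℤ) = PowerSeries.C 6 := by simp
  rw [n2, n4, n6]
  simp only [map_add, map_sub, PowerSeries.coeff_C_mul, PowerSeries.coeff_X_pow_mul',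
    PowerSeries.coeff_mk, PowerSeries.coeff_one, PowerSeries.coeff_X_pow, PowerSeries.coeff_X]
  rcases n with _ | _ | _ | _ | n
  · simp [c10]
  · rw [← pow_one (PowerSeries.X : PowerSeries ℤ)]
    simp [PowerSeries.coeff_X_pow_mul', c10, c11]
  · rw [← pow_one (PowerSeries.X : PowerSeries ℤ)]
    simp [PowerSeries.coeff_X_pow_mul', c10, c11, c12]
  · rw [← pow_one (PowerSeries.X : PowerSeries ℤ)]
    simp [PowerSeries.coeff_X_pow_mul', c10, c11, c12, c13]
  · rw [← pow_one (PowerSeries.X : PowerSeries ℤ)]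
    have := key n
    simp [PowerSeries.coeff_X_pow_mul']
    linarith

lemma series_c3 : PowerSeries.mk c3 * (1 - PowerSeries.X) * (1 - PowerSeries.X ^ 3) =
    1 - PowerSeries.X + PowerSeries.X ^ 2 := by
  have key0 : ∀ n, c3 (n + 3) = c3 n + 1 := by
    intro n
    obtain ⟨k, r, hr, rfl⟩ : ∃ k r : ℕ, r < 3 ∧ n = 3 * k + r :=
      ⟨n / 3, n % 3, Nat.mod_lt _ (by norm_num), by omega⟩
    unfold c3
    have h3 : r = 0 ∨ r = 1 ∨ r = 2 := by omega
    rcases h3 with rfl | rfl | rfl <;> omega
  have key : ∀ n, c3 (n + 4) - c3 (n + 3) - c3 (n + 1) + c3 n = 0 := by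
    intro n
    have h1 := key0 n
    have h2 := key0 (n + 1)
    have h3 : n + 1 + 3 = n + 4 := by ring
    rw [h3] at h2
    linarith
  have e : PowerSeries.mk c3 * (1 - PowerSeries.X) * (1 - PowerSeries.X ^ 3) =
      PowerSeries.mk c3 - (PowerSeries.X ^ 1 * PowerSeries.mk c3)
      - (PowerSeries.X ^ 3 * PowerSeries.mk c3) + PowerSeries.X ^ 4 * PowerSeries.mk c3 := by
    ring
  rw [e]
  ext n
  simp only [map_add, map_sub, PowerSeries.coeff_X_pow_mul',
    PowerSeries.coeff_mk, PowerSeries.coeff_one, PowerSeries.coeff_X_pow, PowerSeries.coeff_X]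
  rcases n with _ | _ | _ | _ | n
  · simp [c3]
  · simp [c3]
  · simp [c3]
  · simp [c3]
  · have := key n
    simp
    linarith

lemma coeff_Phi (g : Multiplicative (ZMod 3)) : Phi g =
    (if g = 1 then 1 + 2 * PowerSeries.X + PowerSeries.X ^ 2
      else 1 - PowerSeries.X + PowerSeries.X ^ 2) := by
  have h : ∀ a : ZMod 3, a = 0 ∨ a = 1 ∨ a = 2 := by decide
  have hg : g = Multiplicative.ofAdd (Multiplicative.toAdd g) := rfl
  rw [hg]
  rcases h (Multiplicative.toAdd g) with h | h | h
  · rw [h, if_pos (by rfl), Phi_zero, series_c1]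
  · rw [h, if_neg (by decide), Phi_one, series_c3]
  · rw [h, if_neg (by decide), Phi_two, series_c3]

lemma span_P : vectorSpan ℝ P = ⊤ := by
  have h : ∀ i : Fin 3, (Pi.single i (1 : ℝ) : Fin 3 → ℝ) ∈ vectorSpan ℝ P := by
    intro i
    fin_cases i
    · have := vsub_mem_vectorSpan ℝ (emb_mem_P (v := ![1, 1, 0]) (by decide))
        (emb_mem_P (v := ![0, 1, 0]) (by decide))
      convert this using 1
      funext j
      fin_cases j <;> simp [emb]
    · have := vsub_mem_vectorSpan ℝ (emb_mem_P (v := ![1, 1, 0]) (by decide))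
        (emb_mem_P (v := ![1, 0, 0]) (by decide))
      convert this using 1
      funext j
      fin_cases j <;> simp [emb]
    · have := vsub_mem_vectorSpan ℝ (emb_mem_P (v := ![1, 0, 1]) (by decide))
        (emb_mem_P (v := ![1, 0, 0]) (by decide))
      convert this using 1
      funext j
      fin_cases j <;> simp [emb]
  rw [eq_top_iff]
  intro x _
  have hx : x = ∑ i, x i • (Pi.single i (1 : ℝ) : Fin 3 → ℝ) := by
    funext j
    simp [Finset.sum_apply, Pi.single_apply]
  rw [hx]
  exact Submodule.sum_mem _ fun i _ => Submodule.smul_mem _ _ (h i)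

/-- The negation of the preceding statement: For any finite group acting linearly on Z^n and invariant lattice polytope P whose equivariant h*-series is a polynomial, every coefficient with positive h*_i has nonzero sum over the group, i.e. contains the trivial representation. -/
theorem result :
    ¬ (∀ (G : Type) [Group G] [Fintype G] (n : ℕ)
      (ρ : G →* Matrix.GeneralLinearGroup (Fin n) ℤ)
      (V : Finset (Fin n → ℤ)) (P : Set (Fin n → ℝ)),
      V.Nonempty →
      (∀ g : G, ∀ v ∈ V,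
        Matrix.mulVec (ρ g : Matrix (Fin n) (Fin n) ℤ) v ∈ V) →
      P = convexHull ℝ
        ((fun v : Fin n → ℤ => fun j => ((v j : ℤ) : ℝ)) '' (V : Set (Fin n → ℤ))) →
      ∀ (d : ℕ) (ι : (Fin d → ℤ) →ₗ[ℤ] (Fin n → ℤ))
        (σ : G → Matrix (Fin d) (Fin d) ℤ) (Φ : G → PowerSeries ℤ),
      Function.Injective ι →
      (∀ x : Fin n → ℤ,
        (∃ y : Fin d → ℤ, ι y = x) ↔
          (fun j => ((x j : ℤ) : ℝ)) ∈ vectorSpan ℝ P) →
      (∀ (g : G) (y : Fin d → ℤ),
        ι (Matrix.mulVec (σ g) y) =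
          Matrix.mulVec (ρ g : Matrix (Fin n) (Fin n) ℤ) (ι y)) →
      (∀ g : G, Φ g =
        PowerSeries.mk (fun m : ℕ =>
          ((Set.ncard {x : Fin n → ℤ |
              (fun j => ((x j : ℤ) : ℝ)) ∈ (m : ℝ) • P ∧
              Matrix.mulVec (ρ g : Matrix (Fin n) (Fin n) ℤ) x = x} : ℕ) : ℤ))
        * (1 - PowerSeries.X)
        * ((Matrix.det (1 - (Polynomial.X : Polynomial ℤ) •
              (σ g).map Polynomial.C) : Polynomial ℤ) : PowerSeries ℤ)) →
      (∃ N : ℕ, ∀ g : G, ∀ i : ℕ, N ≤ i →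
        PowerSeries.coeff (R := ℤ) i (Φ g) = 0) →
      ∀ i : ℕ, 0 < PowerSeries.coeff (R := ℤ) i (Φ 1) →
        (∑ g : G, PowerSeries.coeff (R := ℤ) i (Φ g)) ≠ 0) := by
  intro H
  have h := H (Multiplicative (ZMod 3)) 3 f.toHomUnits V P V_nonempty V_inv rfl 3
    LinearMap.id (fun g => f g) Phi (fun a b h => h) (fun x => by
      rw [span_P]
      exact ⟨fun _ => Submodule.mem_top, fun _ => ⟨x, rfl⟩⟩) (fun g y => rfl) (fun g => rfl)
    ⟨3, fun g i hi => by
      rw [coeff_Phi]
      split_ifs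
      · have n2 : (2 : PowerSeries ℤ) = PowerSeries.C 2 := by simp
        rw [n2]
        simp only [map_add, map_sub, PowerSeries.coeff_C_mul, PowerSeries.coeff_one,
          PowerSeries.coeff_X_pow, PowerSeries.coeff_X]
        rw [if_neg (by omega), if_neg (by omega), if_neg (by omega)]
        norm_num
      · simp only [map_add, map_sub, PowerSeries.coeff_one,
          PowerSeries.coeff_X_pow, PowerSeries.coeff_X]
        rw [if_neg (by omega), if_neg (by omega), if_neg (by omega)]
        norm_num⟩ 1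
  have n2 : (2 : PowerSeries ℤ) = PowerSeries.C 2 := by simp
  have e0 : PowerSeries.coeff (R := ℤ) 1 (Phi 1) = 2 := by
    rw [coeff_Phi, if_pos rfl, n2]
    simp only [map_add, map_sub, PowerSeries.coeff_C_mul, PowerSeries.coeff_one,
      PowerSeries.coeff_X_pow, PowerSeries.coeff_X]
    norm_num
  have e1 : ∀ g : Multiplicative (ZMod 3), g ≠ 1 → PowerSeries.coeff (R := ℤ) 1 (Phi g) = -1 := by
    intro g hg
    rw [coeff_Phi, if_neg hg]
    simp only [map_add, map_sub, PowerSeries.coeff_one,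
      PowerSeries.coeff_X_pow, PowerSeries.coeff_X]
    norm_num
  apply h (by rw [e0]; norm_num)
  have e2 : ∀ g : Multiplicative (ZMod 3), PowerSeries.coeff (R := ℤ) 1 (Phi g) =
      if g = 1 then 2 else -1 := by
    intro g
    by_cases hg : g = 1
    · rw [if_pos hg, hg, e0]
    · rw [if_neg hg, e1 g hg]
  rw [Finset.sum_congr rfl fun g _ => e2 g]
  decide

end Pool.Agent.S11006
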