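import Pool.Statements.S11238

/-!
The family `A = {σ : σ(1) ≤ k or σ(2) ≤ k}` in `S_n` with `n - 1 = 2 k (k - 1)` has
`|A| = (2 k - 1/2) (n - 1)!`, so `c` is a half-integer, while the squared distance of `1_A` to the
sum of the `2 k` indicators of 1-cosets is `1 / (2 n) = ε c / n` with `ε = 1 / (4 k - 1)`.
-/

set_option autoImplicit false
open Pool Pool.MP_c1e4cd_co

namespace Pool.Agent.S11238

open Finset

lemma sum_succ_swap {N : ℕ} (p : Fin (N + 2)) (h : Fin (N + 2) → ℝ) :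
    ∑ q : Fin (N + 1), h (Equiv.swap 0 p q.succ) = (∑ b, h b) - h p := by
  have h1 : ∑ b, h (Equiv.swap 0 p b) = ∑ b, h b := Equiv.sum_comp (Equiv.swap 0 p) h
  rw [Fin.sum_univ_succ] at h1
  rw [← h1, Equiv.swap_apply_left]
  ring

lemma sum_perm_two {N : ℕ} (g : Fin (N + 2) → Fin (N + 2) → ℝ) :
    ∑ σ : Equiv.Perm (Fin (N + 2)), g (σ 0) (σ 1) =
      (N.factorial : ℝ) * ∑ p, ((∑ b, g p b) - g p p) := by
  rw [← Equiv.sum_comp (Equiv.Perm.decomposeFin (n := N + 1)).symm, Fintype.sum_prod_type,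
    Finset.mul_sum]
  refine Finset.sum_congr rfl fun p _ => ?_
  have h1 : ∀ e : Equiv.Perm (Fin (N + 1)),
      g ((Equiv.Perm.decomposeFin.symm (p, e)) 0) ((Equiv.Perm.decomposeFin.symm (p, e)) 1) =
        g p (Equiv.swap 0 p (e 0).succ) := by
    intro e
    rw [Equiv.Perm.decomposeFin_symm_apply_zero]
    have : (1 : Fin (N + 2)) = (0 : Fin (N + 1)).succ := rfl
    rw [this, Equiv.Perm.decomposeFin_symm_apply_succ]
  rw [Finset.sum_congr rfl fun e _ => h1 e]
  rw [← Equiv.sum_comp (Equiv.Perm.decomposeFin (n := N)).symm, Fintype.sum_prod_type]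
  have h2 : ∀ q : Fin (N + 1), ∑ e : Equiv.Perm (Fin N),
      g p (Equiv.swap 0 p ((Equiv.Perm.decomposeFin.symm (q, e)) 0).succ) =
        (N.factorial : ℝ) * g p (Equiv.swap 0 p q.succ) := by
    intro q
    simp only [Equiv.Perm.decomposeFin_symm_apply_zero]
    rw [Finset.sum_const, Finset.card_univ, Fintype.card_perm, Fintype.card_fin, nsmul_eq_mul]
  rw [Finset.sum_congr rfl fun q _ => h2 q, ← Finset.mul_sum, sum_succ_swap p (g p)]

/-- The negation of the preceding statement: Some C₀>0 works for all n≥1: if A⊆S_n, c=∣A∣/(n-1)!, and 1_A is within mean-square εc/n of the span of 1-coset indicators, then 1_A is within C₀εc/n of a union of round(c) distinct 1-cosets, and ∣c−round(c)∣≤C₀ε. -/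
theorem result :
    ¬ (∃ C₀ : ℝ, 0 < C₀ ∧ ∀ n : ℕ, 1 ≤ n → ∀ A : Finset (Equiv.Perm (Fin n)), ∀ ε : ℝ, 0 ≤ ε →
    (∃ a : Fin n → Fin n → ℝ,
      (1 / (n.factorial : ℝ)) * ∑ σ : Equiv.Perm (Fin n),
          ((if σ ∈ A then (1:ℝ) else 0) - ∑ i : Fin n, a i (σ i)) ^ 2
        ≤ ε * ((A.card : ℝ) / ((n - 1).factorial : ℝ)) / n) →
    ∃ S : Finset (Fin n × Fin n),
      (S.card : ℤ) = round ((A.card : ℝ) / ((n - 1).factorial : ℝ)) ∧
      (1 / (n.factorial : ℝ)) * ∑ σ : Equiv.Perm (Fin n),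
          ((if σ ∈ A then (1:ℝ) else 0) - (if ∃ p ∈ S, σ p.1 = p.2 then (1:ℝ) else 0)) ^ 2
        ≤ C₀ * ε * ((A.card : ℝ) / ((n - 1).factorial : ℝ)) / n ∧
      |(A.card : ℝ) / ((n - 1).factorial : ℝ)
          - ((round ((A.card : ℝ) / ((n - 1).factorial : ℝ)) : ℤ) : ℝ)| ≤ C₀ * ε) := by
  classical
  rintro ⟨C₀, hC, H⟩
  obtain ⟨k0, hk0⟩ := exists_nat_ge C₀
  obtain ⟨k, hk, hk2⟩ : ∃ k : ℕ, C₀ ≤ k ∧ 2 ≤ k :=
    ⟨k0 + 2, by push_cast; linarith, by omega⟩
  obtain ⟨m, rfl⟩ : ∃ m, k = m + 1 := ⟨k - 1, by omega⟩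
  have hm : 1 ≤ m := by omega
  obtain ⟨N, hN⟩ : ∃ N, N + 1 = 2 * ((m + 1) * m) :=
    ⟨2 * ((m + 1) * m) - 1, by
      have : 1 ≤ (m + 1) * m := Nat.mul_pos (by omega) hm
      omega⟩
  have hNr : ((N : ℝ) + 1) = 2 * (((m : ℝ) + 1) * m) := by exact_mod_cast hN
  have hmr : (1 : ℝ) ≤ m := by exact_mod_cast hm
  set X : Fin (N + 2) → ℝ := fun j => if (j : ℕ) < m + 1 then 1 else 0 with hX
  have hkN : m + 1 ≤ N + 2 := by nlinarith
  have hXsum : ∑ j, X j = (m : ℝ) + 1 := by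
    simp only [hX]
    rw [Finset.sum_ite, Finset.sum_const_zero, add_zero, Finset.sum_const, nsmul_eq_mul, mul_one]
    have : (Finset.univ.filter (fun j : Fin (N + 2) => (j : ℕ) < m + 1)).card = m + 1 := by
      rw [Fin.card_filter_val_lt]
      omega
    rw [this]
    push_cast
    ring
  have hXX : ∀ j, X j * X j = X j := by
    intro j
    simp only [hX]
    split_ifs <;> simp
  set A : Finset (Equiv.Perm (Fin (N + 2))) :=
    Finset.univ.filter (fun σ => ((σ 0 : Fin (N + 2)) : ℕ) < m + 1 ∨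
      ((σ 1 : Fin (N + 2)) : ℕ) < m + 1) with hA
  have hind : ∀ σ : Equiv.Perm (Fin (N + 2)),
      (if σ ∈ A then (1 : ℝ) else 0) = X (σ 0) + X (σ 1) - X (σ 0) * X (σ 1) := by
    intro σ
    simp only [hA, Finset.mem_filter, Finset.mem_univ, true_and, hX]
    by_cases h0 : ((σ 0 : Fin (N + 2)) : ℕ) < m + 1 <;>
      by_cases h1 : ((σ 1 : Fin (N + 2)) : ℕ) < m + 1 <;> simp [h0, h1]
  have hs1 : ∑ σ : Equiv.Perm (Fin (N + 2)), X (σ 0) * X (σ 1) =
      (N.factorial : ℝ) * (((m : ℝ) + 1) * m) := by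
    rw [sum_perm_two (fun p b => X p * X b)]
    congr 1
    simp only [hXX, ← Finset.mul_sum, hXsum]
    rw [Finset.sum_sub_distrib, ← Finset.sum_mul, hXsum]
    ring
  have hs2 : ∑ σ : Equiv.Perm (Fin (N + 2)), (X (σ 0) + X (σ 1)) =
      (N.factorial : ℝ) * (2 * ((m : ℝ) + 1) * (N + 1)) := by
    rw [sum_perm_two (fun p b => X p + X b)]
    congr 1
    simp only [Finset.sum_add_distrib, Finset.sum_sub_distrib, Finset.sum_const, hXsum,
      Finset.card_univ, Fintype.card_fin, nsmul_eq_mul, ← Finset.mul_sum]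
    push_cast
    ring
  have hfac : (0 : ℝ) < (N.factorial : ℝ) := by exact_mod_cast N.factorial_pos
  have hN1 : ((N + 1).factorial : ℝ) = (N + 1) * (N.factorial : ℝ) := by
    rw [Nat.factorial_succ]; push_cast; ring
  have hN2 : ((N + 2).factorial : ℝ) = (N + 2) * ((N + 1) * (N.factorial : ℝ)) := by
    rw [Nat.factorial_succ, Nat.factorial_succ]; push_cast; ring
  have hcard : (A.card : ℝ) = (N.factorial : ℝ) * ((2 * ((m : ℝ) + 1) - 1 / 2) * (N + 1)) := by
    have e1 : (A.card : ℝ) = ∑ σ : Equiv.Perm (Fin (N + 2)), (if σ ∈ A then (1 : ℝ) else 0) := by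
      rw [Finset.sum_ite_mem, Finset.univ_inter, Finset.sum_const, nsmul_eq_mul, mul_one]
    rw [e1, Finset.sum_congr rfl fun σ _ => hind σ, Finset.sum_sub_distrib, hs1, hs2, hNr]
    ring
  have hc : (A.card : ℝ) / ((N + 2 - 1).factorial : ℝ) = 2 * ((m : ℝ) + 1) - 1 / 2 := by
    have : N + 2 - 1 = N + 1 := by omega
    rw [this, hN1, hcard]
    field_simp
  have hcpos : (0 : ℝ) < 2 * ((m : ℝ) + 1) - 1 / 2 := by linarith
  obtain ⟨S, -, -, h3⟩ := H (N + 2) (by omega) A (1 / (2 * (2 * ((m : ℝ) + 1) - 1 / 2)))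
    (by positivity) ⟨fun i j => if i = 0 ∨ i = 1 then X j else 0, by
      rw [hc]
      have hsum : ∀ σ : Equiv.Perm (Fin (N + 2)),
          ∑ i : Fin (N + 2), (if i = 0 ∨ i = 1 then X (σ i) else 0) = X (σ 0) + X (σ 1) := by
        intro σ
        have h01 : (0 : Fin (N + 2)) ≠ 1 := by
          intro h
          have := congrArg Fin.val h
          simp at this
        have e : ∀ i : Fin (N + 2), (if i = 0 ∨ i = 1 then X (σ i) else 0) =
            (if i = 0 then X (σ i) else 0) + (if i = 1 then X (σ i) else 0) := by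
          intro i
          by_cases hi0 : i = 0
          · have hi1 : i ≠ 1 := fun h => h01 (hi0.symm.trans h)
            simp [hi0, h01]
          · by_cases hi1 : i = 1 <;> simp [hi0, hi1]
        rw [Finset.sum_congr rfl fun i _ => e i, Finset.sum_add_distrib]
        simp
      have hsq : ∀ σ : Equiv.Perm (Fin (N + 2)),
          ((if σ ∈ A then (1:ℝ) else 0) -
            ∑ i : Fin (N + 2), (if i = 0 ∨ i = 1 then X (σ i) else 0)) ^ 2 =
            X (σ 0) * X (σ 1) := by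
        intro σ
        rw [hind, hsum]
        calc (X (σ 0) + X (σ 1) - X (σ 0) * X (σ 1) - (X (σ 0) + X (σ 1))) ^ 2
            = (X (σ 0) * X (σ 0)) * (X (σ 1) * X (σ 1)) := by ring
          _ = X (σ 0) * X (σ 1) := by rw [hXX, hXX]
      rw [Finset.sum_congr rfl fun σ _ => hsq σ, hs1, hN2]
      apply le_of_eq
      push_cast
      have h2 : ((N : ℝ) + 2) ≠ 0 := by positivity
      have h3 : ((N : ℝ) + 1) ≠ 0 := by positivity
      have h4 : ((m : ℝ) + 1) * m = ((N : ℝ) + 1) / 2 := by rw [hNr]; ring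
      rw [h4]
      have hne : (2 * ((m : ℝ) + 1) - 1 / 2) ≠ 0 := hcpos.ne'
      generalize (2 * ((m : ℝ) + 1) - 1 / 2) = c at hne
      field_simp⟩
  rw [hc] at h3
  set z : ℤ := round (2 * ((m : ℝ) + 1) - 1 / 2) with hz
  have hhalf : (1 : ℝ) / 2 ≤ |2 * ((m : ℝ) + 1) - 1 / 2 - (z : ℝ)| := by
    rcases le_or_gt z (2 * ((m : ℤ) + 1) - 1) with h | h
    · have : (z : ℝ) ≤ 2 * ((m : ℝ) + 1) - 1 := by exact_mod_cast h
      rw [abs_of_nonneg (by linarith)]
      linarith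
    · have h' : 2 * ((m : ℤ) + 1) ≤ z := by omega
      have : 2 * ((m : ℝ) + 1) ≤ (z : ℝ) := by exact_mod_cast h'
      rw [abs_of_nonpos (by linarith)]
      linarith
  have h4 := hhalf.trans h3
  have h5 : C₀ * (1 / (2 * (2 * ((m : ℝ) + 1) - 1 / 2))) = C₀ / (4 * m + 3) := by
    have : (2 * (2 * ((m : ℝ) + 1) - 1 / 2)) = 4 * m + 3 := by ring
    rw [this]
    ring
  rw [h5, div_le_div_iff₀ (by norm_num) (by positivity)] at h4
  push_cast at hk
  nlinarith

end Pool.Agent.S11238
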