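import Pool.Statements.S11473
import Pool.Agent.R35.Brooks

set_option autoImplicit false
open Pool Pool.MP_cc29fe_co

namespace Pool.Agent.S11473

/-- Every finite connected graph with n vertices and clique number ω, where n ≥ ω+1 ≥ 4, has a set of at most (ω−2)/(ω−1)·n vertices distinguishing every adjacent pair by distance, i.e. local metric dimension ≤ (ω−2)n/(ω−1). -/
theorem result :
    ∀ (V : Type) [Fintype V] (G : SimpleGraph V), G.Connected →
      ∀ ω : ℕ, (∃ s : Finset V, G.IsNClique ω s) → G.CliqueFree (ω + 1) →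
        4 ≤ ω + 1 → ω + 1 ≤ Fintype.card V →
        ∃ W : Finset V,
          (∀ u v : V, G.Adj u v → ∃ w ∈ W, G.dist u w ≠ G.dist v w) ∧
          (W.card : ℝ) ≤ ((ω : ℝ) - 2) / ((ω : ℝ) - 1) * (Fintype.card V : ℝ) := by
  classical
  intro V _ G hG ω _ hfree hω hn
  obtain ⟨q, rfl⟩ : ∃ q, ω = q + 1 := ⟨ω - 1, by omega⟩
  have hq : 2 ≤ q := by omega
  have hqpos : (0 : ℝ) < (q : ℝ) := by
    have : 0 < q := by omega
    exact_mod_cast this
  rcases Pool.Agent.R35.Brooks.exists_good G hG hq hfree with ⟨c, hc⟩ | hcl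
  swap
  · exfalso
    have h1 := hcl.card_eq
    rw [Finset.card_univ] at h1
    omega
  -- a large colour class
  have hbig : ∃ i : Fin q, Fintype.card V ≤ q * (Finset.univ.filter (fun v => c v = i)).card := by
    by_contra hno
    push Not at hno
    have h1 : Fintype.card V = ∑ i : Fin q, (Finset.univ.filter (fun v => c v = i)).card := by
      rw [← Finset.card_univ]
      exact Finset.card_eq_sum_card_fiberwise (fun v _ => Finset.mem_univ _)
    have h2 : ∑ i : Fin q, q * (Finset.univ.filter (fun v => c v = i)).card <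
        ∑ i : Fin q, Fintype.card V :=
      Finset.sum_lt_sum_of_nonempty ⟨⟨0, by omega⟩, Finset.mem_univ _⟩ (fun i _ => hno i)
    rw [← Finset.mul_sum, ← h1, Finset.sum_const, Finset.card_univ, Fintype.card_fin,
      smul_eq_mul] at h2
    exact lt_irrefl _ h2
  obtain ⟨i, hi⟩ := hbig
  refine ⟨Finset.univ.filter (fun v => ¬ c v = i), ?_, ?_⟩
  · intro u v huv
    by_cases hu : c u = i
    · by_cases hv : c v = i
      · obtain ⟨w, -, hwc, hw⟩ := hc u (Finset.mem_univ _) v (Finset.mem_univ _) huv
          (by rw [hu, hv])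
        refine ⟨w, ?_, ?_⟩
        · simp only [Finset.mem_filter, Finset.mem_univ, true_and]
          rwa [hu] at hwc
        · intro hd
          apply hw
          rw [G.adj_comm w u, G.adj_comm w v, ← SimpleGraph.dist_eq_one_iff_adj,
            ← SimpleGraph.dist_eq_one_iff_adj, hd]
      · refine ⟨v, by simpa using hv, ?_⟩
        rw [SimpleGraph.dist_self, SimpleGraph.dist_eq_one_iff_adj.2 huv]
        exact one_ne_zero
    · refine ⟨u, by simpa using hu, ?_⟩
      rw [SimpleGraph.dist_self, SimpleGraph.dist_eq_one_iff_adj.2 huv.symm]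
      exact zero_ne_one
  · have h1 : (Finset.univ.filter (fun v => c v = i)).card +
        (Finset.univ.filter (fun v => ¬ c v = i)).card = Fintype.card V := by
      rw [← Finset.card_univ]
      exact Finset.card_filter_add_card_filter_not _
    have h2 : ((Finset.univ.filter (fun v => c v = i)).card : ℝ) +
        ((Finset.univ.filter (fun v => ¬ c v = i)).card : ℝ) = (Fintype.card V : ℝ) := by
      exact_mod_cast h1
    have h3 : (Fintype.card V : ℝ) ≤
        (q : ℝ) * ((Finset.univ.filter (fun v => c v = i)).card : ℝ) := by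
      exact_mod_cast hi
    have h4 : ((q + 1 : ℕ) : ℝ) - 2 = (q : ℝ) - 1 := by push_cast; ring
    have h5 : ((q + 1 : ℕ) : ℝ) - 1 = (q : ℝ) := by push_cast; ring
    rw [h4, h5, div_mul_eq_mul_div, le_div_iff₀ hqpos]
    nlinarith

end Pool.Agent.S11473
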