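import Pool.Statements.S11608

set_option autoImplicit false
open Pool Pool.MP_d1f9c8_co

namespace Pool.Agent.S11608

/-- A class of graphs on the vertex sets `Fin n`. -/
abbrev Cls := (n : ℕ) → SimpleGraph (Fin n) → Prop

/-- closed under subgraphs (and isomorphisms) -/
def Her (A : Cls) : Prop :=
  ∀ (a b : ℕ) (G : SimpleGraph (Fin a)) (H : SimpleGraph (Fin b)) (f : H →g G),
    Function.Injective f → A a G → A b H

/-- the subgraph induced on `S` is in the class -/
def In (A : Cls) {n : ℕ} (G : SimpleGraph (Fin n)) (S : Set (Fin n)) : Prop :=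
  ∃ (r : ℕ) (K : SimpleGraph (Fin r)), A r K ∧ Nonempty (G.induce S ≃g K)

theorem In.intro {A : Cls} (hA : Her A) {n : ℕ} {G : SimpleGraph (Fin n)} {S : Set (Fin n)}
    {r : ℕ} {K : SimpleGraph (Fin r)} (hK : A r K) (f : Fin n → Fin r)
    (hinj : ∀ x ∈ S, ∀ y ∈ S, f x = f y → x = y)
    (hadj : ∀ x ∈ S, ∀ y ∈ S, G.Adj x y → K.Adj (f x) (f y)) : In A G S := by
  classical
  let e : S ≃ Fin (Fintype.card S) := Fintype.equivFin S
  refine ⟨Fintype.card S, (G.induce S).map e.toEmbedding, ?_, ⟨SimpleGraph.Iso.map e _⟩⟩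
  refine hA r _ K _ ⟨fun i => f (e.symm i).1, ?_⟩ ?_ hK
  · intro i j h
    rw [SimpleGraph.map_adj] at h
    obtain ⟨u, v, huv, rfl, rfl⟩ := h
    simp only [Equiv.toEmbedding_apply, Equiv.symm_apply_apply]
    exact hadj _ u.2 _ v.2 huv
  · intro i j h
    have := hinj _ (e.symm i).2 _ (e.symm j).2 h
    exact e.symm.injective (Subtype.ext this)

theorem In.elim {A : Cls} {n : ℕ} {G : SimpleGraph (Fin n)} {S : Set (Fin n)} (h : In A G S) :
    ∃ (r : ℕ) (K : SimpleGraph (Fin r)), A r K ∧ ∃ f : S → Fin r, Function.Bijective f ∧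
      ∀ x y : S, G.Adj x y ↔ K.Adj (f x) (f y) := by
  obtain ⟨r, K, hK, ⟨e⟩⟩ := h
  refine ⟨r, K, hK, e, e.bijective, fun x y => ?_⟩
  rw [e.map_adj_iff]
  rfl

/-- same induced subgraph -/
theorem In.congr {A : Cls} {n : ℕ} {G G' : SimpleGraph (Fin n)} {S : Set (Fin n)} (h : In A G S)
    (hG : ∀ x ∈ S, ∀ y ∈ S, G.Adj x y ↔ G'.Adj x y) : In A G' S := by
  obtain ⟨r, K, hK, ⟨e⟩⟩ := h
  refine ⟨r, K, hK, ⟨⟨e.toEquiv, ?_⟩⟩⟩
  intro x y
  have := e.map_adj_iff (v := x) (w := y)
  exact this.trans (hG x x.2 y y.2)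

/-- pulling back a small graph -/
theorem In.her {A : Cls} (hA : Her A) {n : ℕ} {G : SimpleGraph (Fin n)} {S : Set (Fin n)}
    (h : In A G S) {r : ℕ} (K : SimpleGraph (Fin r)) (f : Fin r → Fin n) (hf : Function.Injective f)
    (hS : ∀ i, f i ∈ S) (hadj : ∀ i j, K.Adj i j → G.Adj (f i) (f j)) : A r K := by
  obtain ⟨s, L, hL, ⟨e⟩⟩ := h
  refine hA s r L K ⟨fun i => e ⟨f i, hS i⟩, ?_⟩ ?_ hL
  · intro i j hij
    rw [e.map_adj_iff]
    exact hadj i j hij
  · intro i j hij
    have := e.injective hij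
    exact hf (Subtype.ext_iff.1 this)

/-- `A ∘ B = C` -/
def IsProd (A B C : Cls) : Prop := ∀ (n : ℕ) (G : SimpleGraph (Fin n)),
  (C n G ↔ ∃ S : Set (Fin n), In A G S ∧ In B G Sᶜ)

/-- edgeless graphs on at most three vertices and all graphs on at most two vertices -/
def P : Cls := fun n G => n ≤ 2 ∨ (n ≤ 3 ∧ ∀ x y, ¬ G.Adj x y)

/-- graphs on at most four vertices and subgraphs of `K_{3,3}` -/
def Q : Cls := fun n G => n ≤ 4 ∨ ∃ c : Fin n → Bool, (∀ x y, G.Adj x y → c x ≠ c y) ∧
  ∀ b, (Finset.univ.filter fun x => c x = b).card ≤ 3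

theorem card_le_of_inj {a b : ℕ} {G : SimpleGraph (Fin a)} {H : SimpleGraph (Fin b)} (f : H →g G)
    (hf : Function.Injective f) : b ≤ a := by
  simpa using Fintype.card_le_of_injective f hf

theorem P_her : Her P := by
  intro a b G H f hf h
  have hba := card_le_of_inj f hf
  rcases h with h | ⟨h, h2⟩
  · exact Or.inl (hba.trans h)
  · exact Or.inr ⟨hba.trans h, fun x y hxy => h2 _ _ (f.map_adj hxy)⟩

theorem Q_her : Her Q := by
  intro a b G H f hf h
  have hba := card_le_of_inj f hf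
  rcases h with h | ⟨c, h1, h2⟩
  · exact Or.inl (hba.trans h)
  · refine Or.inr ⟨fun x => c (f x), fun x y hxy => h1 _ _ (f.map_adj hxy), fun b => ?_⟩
    refine le_trans ?_ (h2 b)
    refine Finset.card_le_card_of_injOn f ?_ hf.injOn
    intro x hx
    simpa using hx

theorem P_one : P 1 ⊥ := Or.inl (by norm_num)
theorem Q_one : Q 1 ⊥ := Or.inl (by norm_num)

theorem symm_prod {A B C : Cls} (h : IsProd A B C) : IsProd B A C := by
  intro n G
  rw [h n G]
  constructor
  · rintro ⟨S, h1, h2⟩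
    exact ⟨Sᶜ, h2, by rwa [compl_compl]⟩
  · rintro ⟨S, h1, h2⟩
    exact ⟨Sᶜ, h2, by rwa [compl_compl]⟩

/-- if all members of `C = A ∘ B` have at most `N` vertices then the sets used in the factor `B`
have at most `N - 1` vertices -/
theorem order_bound {A B C : Cls} (hA : Her A) (hB : Her B) (hA1 : A 1 ⊥) (h : IsProd A B C)
    (N : ℕ) (hN : ∀ n G, C n G → n ≤ N) {r : ℕ} {K : SimpleGraph (Fin r)} (hK : B r K) :
    r + 1 ≤ N := by
  let G : SimpleGraph (Fin (r + 1)) := K.map Fin.succ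
  have hG : C (r + 1) G := by
    rw [h]
    refine ⟨{0}, ?_, ?_⟩
    · refine In.intro hA hA1 (fun _ => 0) ?_ ?_
      · intro x hx y hy _
        rw [Set.mem_singleton_iff] at hx hy
        rw [hx, hy]
      · intro x hx y hy hxy
        rw [Set.mem_singleton_iff] at hx hy
        rw [hx, hy] at hxy
        exact absurd hxy (G.loopless.irrefl 0)
    · rcases Nat.eq_zero_or_pos r with rfl | hr
      · have hz : ∀ x : Fin (0 + 1), x ∈ ({0}ᶜ : Set (Fin (0 + 1))) → False := by
          intro x hx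
          exact hx (Fin.ext (by have := x.2; simp at this ⊢))
        exact ⟨0, K, hK, ⟨⟨⟨fun x => (hz x.1 x.2).elim,
          fun x => x.elim0, fun x => (hz x.1 x.2).elim,
          fun x => x.elim0⟩, fun {x y} => (hz x.1 x.2).elim⟩⟩⟩
      · refine In.intro hB hK (fun x => if hx : x = 0 then ⟨0, hr⟩ else x.pred hx) ?_ ?_
        · intro x hx y hy hxy
          have hx' : x ≠ 0 := hx
          have hy' : y ≠ 0 := hy
          simp only [dif_neg hx', dif_neg hy'] at hxy
          exact Fin.pred_inj.1 hxy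
        · intro x hx y hy hxy
          have hx' : x ≠ 0 := hx
          have hy' : y ≠ 0 := hy
          simp only [dif_neg hx', dif_neg hy']
          rw [SimpleGraph.map_adj'] at hxy
          obtain ⟨-, u, v, huv, rfl, rfl⟩ := hxy
          simpa using huv
  exact hN _ _ hG

theorem ncard_le_of_in {A B C : Cls} (hA : Her A) (hB : Her B) (hA1 : A 1 ⊥) (h : IsProd A B C)
    (N : ℕ) (hN : ∀ n G, C n G → n ≤ N) {n : ℕ} {G : SimpleGraph (Fin n)} {S : Set (Fin n)}
    (hS : In B G S) : S.ncard + 1 ≤ N := by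
  obtain ⟨r, K, hK, f, hf, -⟩ := hS.elim
  have h1 := order_bound hA hB hA1 h N hN hK
  have h2 : S.ncard = r := by
    rw [← Nat.card_coe_set_eq, Nat.card_eq_of_bijective f hf]
    simp
  omega

theorem P_irr (A B : Cls) (hA : Her A) (hB : Her B) (hA1 : A 1 ⊥) (hB1 : B 1 ⊥)
    (h : IsProd A B P) : False := by
  have hN : ∀ n G, P n G → n ≤ 3 := by
    rintro n G (h | ⟨h, -⟩)
    · omega
    · exact h
  have h3 : P 3 ⊥ := Or.inr ⟨le_refl _, by simp⟩
  obtain ⟨S, hS, hS'⟩ := (h 3 ⊥).1 h3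
  have b1 := ncard_le_of_in hA hB hA1 h 3 hN hS'
  have b2 := ncard_le_of_in hB hA hB1 (symm_prod h) 3 hN hS
  have b3 : S.ncard + Sᶜ.ncard = 3 := by
    rw [Set.ncard_add_ncard_compl]; simp
  have n1 : S.Nonempty := by
    rw [← Set.ncard_pos]; omega
  have n2 : Sᶜ.Nonempty := by
    rw [← Set.ncard_pos]; omega
  obtain ⟨u, hu⟩ := n1
  obtain ⟨v, hv⟩ := n2
  let J : SimpleGraph (Fin 3) := SimpleGraph.fromRel (fun x y => x ∈ S ∧ y ∉ S)
  have hJ : P 3 J := by
    rw [h]
    refine ⟨S, hS.congr ?_, hS'.congr ?_⟩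
    · intro x hx y hy
      simp only [SimpleGraph.bot_adj, false_iff, J, SimpleGraph.fromRel_adj]
      tauto
    · intro x hx y hy
      have hx' : x ∉ S := hx
      have hy' : y ∉ S := hy
      simp only [SimpleGraph.bot_adj, false_iff, J, SimpleGraph.fromRel_adj]
      tauto
  rcases hJ with h | ⟨-, h⟩
  · omega
  · apply h u v
    rw [SimpleGraph.fromRel_adj]
    refine ⟨?_, Or.inl ⟨hu, hv⟩⟩
    rintro rfl
    exact hv hu

/-- the complete bipartite graph with sides `{0,1,2}` and `{3,4,5}` -/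
def K33 : SimpleGraph (Fin 6) := SimpleGraph.fromRel (fun x y => x.val < 3 ∧ 3 ≤ y.val)

theorem K33_adj (x y : Fin 6) : K33.Adj x y ↔ (x.val < 3 ∧ 3 ≤ y.val) ∨ (y.val < 3 ∧ 3 ≤ x.val) := by
  rw [K33, SimpleGraph.fromRel_adj]
  constructor
  · exact fun h => h.2
  · intro h
    refine ⟨?_, h⟩
    rintro rfl
    omega

theorem K33_Q : Q 6 K33 := by
  refine Or.inr ⟨fun x => decide (x.val < 3), ?_, by decide⟩
  intro x y h
  rw [K33_adj] at h
  rcases h with h | h
  · have h2 : ¬ (y.val < 3) := by omega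
    simp [h.1, h2]
  · have h2 : ¬ (x.val < 3) := by omega
    simp [h.1, h2]

/-- an independent set of `K33` has at most three vertices -/
theorem K33_indep (S : Set (Fin 6)) (hS : ∀ x ∈ S, ∀ y ∈ S, ¬ K33.Adj x y) : S.ncard ≤ 3 := by
  by_cases h : ∃ x ∈ S, x.val < 3
  · obtain ⟨x, hx, hx3⟩ := h
    have : S ⊆ ((Finset.univ.filter fun z : Fin 6 => z.val < 3 : Finset (Fin 6)) : Set (Fin 6)) := by
      intro y hy
      have := hS x hx y hy
      rw [K33_adj] at this
      simp only [Finset.coe_filter, Finset.mem_univ, true_and, Set.mem_ofPred_eq]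
      omega
    refine (Set.ncard_le_ncard this).trans ?_
    rw [Set.ncard_coe_finset]
    decide
  · push Not at h
    have : S ⊆ ((Finset.univ.filter fun z : Fin 6 => 3 ≤ z.val : Finset (Fin 6)) : Set (Fin 6)) := by
      intro y hy
      have := h y hy
      simpa using this
    refine (Set.ncard_le_ncard this).trans ?_
    rw [Set.ncard_coe_finset]
    decide

theorem Q_bound : ∀ n G, Q n G → n ≤ 6 := by
  rintro n G (h | ⟨c, -, h⟩)
  · omega
  · have h1 := h true
    have h2 := h false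
    have h3 : (Finset.univ.filter fun x => c x = true).card +
        (Finset.univ.filter fun x => c x = false).card = n := by
      have := Finset.card_filter_add_card_filter_not (s := (Finset.univ : Finset (Fin n)))
        (fun x => c x = true)
      simpa using this
    omega

/-- three vertices of a graph in `Q` with more than four vertices do not form a triangle -/
theorem Q_tri {n : ℕ} {G : SimpleGraph (Fin n)} (h : Q n G) (hn : 4 < n) (x y z : Fin n)
    (h1 : G.Adj x y) (h2 : G.Adj y z) (h3 : G.Adj x z) : False := by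
  rcases h with h | ⟨c, h, -⟩
  · omega
  · have := h _ _ h1
    have := h _ _ h2
    have := h _ _ h3
    cases hx : c x <;> cases hy : c y <;> cases hz : c z <;> simp_all

theorem three_of {A : Cls} (hA : Her A) {n : ℕ} {G : SimpleGraph (Fin n)} {S : Set (Fin n)}
    (h : In A G S) (hS : 3 ≤ S.ncard) : A 3 ⊥ := by
  obtain ⟨r, K, hK, f, hf, -⟩ := h.elim
  have h2 : S.ncard = r := by
    rw [← Nat.card_coe_set_eq, Nat.card_eq_of_bijective f hf]
    simp
  refine hA r 3 K ⊥ ⟨fun i => ⟨i.val, by omega⟩, ?_⟩ ?_ hK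
  · intro a b hab
    exact absurd hab (by simp)
  · intro a b hab
    have := Fin.mk.inj_iff.1 hab
    exact Fin.ext this

/-- `K_2` in one factor and three isolated vertices in the other one -/
theorem five {A B : Cls} (hA : Her A) (hB : Her B) (h : IsProd A B Q) (h2 : A 2 ⊤) (h3 : B 3 ⊥) :
    False := by
  let J : SimpleGraph (Fin 5) := SimpleGraph.fromRel (fun x _ => x.val < 2)
  have hJ : Q 5 J := by
    rw [h]
    refine ⟨{x | x.val < 2}, ?_, ?_⟩
    · refine In.intro hA h2 (fun x => ⟨x.val % 2, Nat.mod_lt _ (by norm_num)⟩) ?_ ?_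
      · intro x hx y hy hxy
        have hx' : x.val < 2 := hx
        have hy' : y.val < 2 := hy
        have := Fin.mk.inj_iff.1 hxy
        apply Fin.ext
        omega
      · intro x hx y hy hxy
        have hx' : x.val < 2 := hx
        have hy' : y.val < 2 := hy
        rw [SimpleGraph.top_adj]
        intro hcon
        have := Fin.mk.inj_iff.1 hcon
        exact hxy.ne (Fin.ext (by omega))
    · refine In.intro hB h3 (fun x => ⟨(x.val - 2) % 3, Nat.mod_lt _ (by norm_num)⟩) ?_ ?_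
      · intro x hx y hy hxy
        have hx' : ¬ x.val < 2 := hx
        have hy' : ¬ y.val < 2 := hy
        have := Fin.mk.inj_iff.1 hxy
        have := x.2
        have := y.2
        apply Fin.ext
        omega
      · intro x hx y hy hxy
        have hx' : ¬ x.val < 2 := hx
        have hy' : ¬ y.val < 2 := hy
        rw [SimpleGraph.fromRel_adj] at hxy
        exact absurd hxy.2 (by tauto)
  have ad : ∀ x y : Fin 5, x ≠ y → x.val < 2 → J.Adj x y := by
    intro x y hxy hx
    rw [SimpleGraph.fromRel_adj]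
    exact ⟨hxy, Or.inl hx⟩
  exact Q_tri hJ (by norm_num) 0 1 2 (ad _ _ (by decide) (by decide))
    (ad _ _ (by decide) (by decide)) (ad _ _ (by decide) (by decide))

theorem Q_irr (A B : Cls) (hA : Her A) (hB : Her B) (hA1 : A 1 ⊥) (hB1 : B 1 ⊥)
    (h : IsProd A B Q) : False := by
  obtain ⟨S, hS, hS'⟩ := (h 6 K33).1 K33_Q
  have b1 := ncard_le_of_in hA hB hA1 h 6 Q_bound hS'
  have b2 := ncard_le_of_in hB hA hB1 (symm_prod h) 6 Q_bound hS
  have b3 : S.ncard + Sᶜ.ncard = 6 := by
    rw [Set.ncard_add_ncard_compl]; simp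
  have n1 : S.Nonempty := by
    rw [← Set.ncard_pos]; omega
  have n2 : Sᶜ.Nonempty := by
    rw [← Set.ncard_pos]; omega
  let J : SimpleGraph (Fin 6) := K33 ⊔ SimpleGraph.fromRel (fun x y => x ∈ S ∧ y ∉ S)
  have hJ : Q 6 J := by
    rw [h]
    refine ⟨S, hS.congr ?_, hS'.congr ?_⟩
    · intro x hx y hy
      simp only [J, SimpleGraph.sup_adj, SimpleGraph.fromRel_adj]
      tauto
    · intro x hx y hy
      have hx' : x ∉ S := hx
      have hy' : y ∉ S := hy
      simp only [J, SimpleGraph.sup_adj, SimpleGraph.fromRel_adj]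
      tauto
  have cross : ∀ x ∈ S, ∀ y ∈ Sᶜ, J.Adj x y := by
    intro x hx y hy
    simp only [J, SimpleGraph.sup_adj, SimpleGraph.fromRel_adj]
    right
    refine ⟨?_, Or.inl ⟨hx, hy⟩⟩
    rintro rfl
    exact hy hx
  obtain ⟨u, hu⟩ := n1
  obtain ⟨v, hv⟩ := n2
  have i1 : S.ncard ≤ 3 := by
    apply K33_indep
    intro x hx y hy hxy
    exact Q_tri hJ (by norm_num) x y v (Or.inl hxy) (cross _ hy _ hv) (cross _ hx _ hv)
  have i2 : Sᶜ.ncard ≤ 3 := by
    apply K33_indep
    intro x hx y hy hxy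
    exact Q_tri hJ (by norm_num) u x y (cross _ hu _ hx) (Or.inl hxy) (cross _ hu _ hy)
  have a3 : A 3 ⊥ := three_of hA hS (by omega)
  have c3 : B 3 ⊥ := three_of hB hS' (by omega)
  obtain ⟨T, hT, hT'⟩ := (h 4 ⊤).1 (Or.inl (by norm_num))
  have b4 : T.ncard + Tᶜ.ncard = 4 := by
    rw [Set.ncard_add_ncard_compl]; simp
  have two : ∀ (D : Cls) (U : Set (Fin 4)), Her D → In D (⊤ : SimpleGraph (Fin 4)) U →
      2 ≤ U.ncard → D 2 ⊤ := by
    intro D U hD hU h2
    obtain ⟨p, q, hp, hq, hpq⟩ := (Set.one_lt_ncard_iff (Set.toFinite U)).1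
      (show 1 < U.ncard by omega)
    refine hU.her hD ⊤ ![p, q] ?_ ?_ ?_
    · intro i j hij
      fin_cases i <;> fin_cases j <;> simp_all
    · intro i
      fin_cases i
      · exact hp
      · exact hq
    · intro i j hij
      rw [SimpleGraph.top_adj] at hij ⊢
      fin_cases i <;> fin_cases j <;> simp_all
      exact fun h => hpq h.symm
  rcases le_or_gt 2 T.ncard with h2 | h2
  · exact five hA hB h (two A T hA hT h2) c3
  · exact five hB hA (symm_prod h) (two B Tᶜ hB hT' (by omega)) a3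

/-- description of `In P` -/
theorem in_P {n : ℕ} {G : SimpleGraph (Fin n)} {S : Set (Fin n)} :
    In P G S ↔ S.ncard ≤ 2 ∨ (S.ncard ≤ 3 ∧ ∀ x ∈ S, ∀ y ∈ S, ¬ G.Adj x y) := by
  classical
  constructor
  · intro h
    obtain ⟨r, K, hK, f, hf, hadj⟩ := h.elim
    have h2 : S.ncard = r := by
      rw [← Nat.card_coe_set_eq, Nat.card_eq_of_bijective f hf]
      simp
    rcases hK with h | ⟨h, h3⟩
    · left; omega
    · right
      refine ⟨by omega, fun x hx y hy hxy => ?_⟩
      exact h3 _ _ ((hadj ⟨x, hx⟩ ⟨y, hy⟩).1 hxy)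
  · intro h
    let e : S ≃ Fin (Fintype.card S) := Fintype.equivFin S
    have h2 : S.ncard = Fintype.card S := by
      rw [← Nat.card_coe_set_eq, Nat.card_eq_fintype_card]
    refine ⟨Fintype.card S, (G.induce S).map e.toEmbedding, ?_, ⟨SimpleGraph.Iso.map e _⟩⟩
    rcases h with h | ⟨h, h3⟩
    · left; omega
    · right
      refine ⟨by omega, fun x y hxy => ?_⟩
      rw [SimpleGraph.map_adj] at hxy
      obtain ⟨u, v, huv, -, -⟩ := hxy
      exact h3 _ u.2 _ v.2 huv

/-- description of `In Q` -/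
theorem in_Q {n : ℕ} {G : SimpleGraph (Fin n)} {S : Set (Fin n)} :
    In Q G S ↔ S.ncard ≤ 4 ∨ ∃ T ⊆ S, T.ncard ≤ 3 ∧ (S \ T).ncard ≤ 3 ∧
      (∀ x ∈ T, ∀ y ∈ T, ¬ G.Adj x y) ∧ (∀ x ∈ S \ T, ∀ y ∈ S \ T, ¬ G.Adj x y) := by
  classical
  constructor
  · intro h
    obtain ⟨r, K, hK, f, hf, hadj⟩ := h.elim
    have h2 : S.ncard = r := by
      rw [← Nat.card_coe_set_eq, Nat.card_eq_of_bijective f hf]
      simp
    rcases hK with h | ⟨c, h3, h4⟩
    · left; omega
    · right
      have key : ∀ (b : Bool) (U : Set (Fin n)),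
          (∀ x ∈ U, ∃ hx : x ∈ S, c (f ⟨x, hx⟩) = b) → U.ncard ≤ 3 := by
        intro b U hU
        refine le_trans ?_ (h4 b)
        let e := Equiv.ofBijective f hf
        have hsub : U ⊆ (fun i => (e.symm i).1) ''
            ((Finset.univ.filter fun x => c x = b : Finset (Fin r)) : Set (Fin r)) := by
          intro x hx
          obtain ⟨h5, h6⟩ := hU x hx
          refine ⟨f ⟨x, h5⟩, by simpa using h6, ?_⟩
          have : e.symm (f ⟨x, h5⟩) = ⟨x, h5⟩ := e.symm_apply_apply ⟨x, h5⟩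
          simp only [this]
        refine (Set.ncard_le_ncard hsub (Set.toFinite _)).trans ?_
        refine (Set.ncard_image_le (Set.toFinite _)).trans ?_
        rw [Set.ncard_coe_finset]
      refine ⟨{x | ∃ hx : x ∈ S, c (f ⟨x, hx⟩) = true}, fun x hx => hx.1, ?_, ?_, ?_, ?_⟩
      · exact key true _ fun x hx => hx
      · refine key false _ fun x hx => ⟨hx.1, ?_⟩
        by_contra hcon
        exact hx.2 ⟨hx.1, by simpa using hcon⟩
      · rintro x ⟨hx, hx2⟩ y ⟨hy, hy2⟩ hxy
        exact h3 _ _ ((hadj ⟨x, hx⟩ ⟨y, hy⟩).1 hxy) (by rw [hx2, hy2])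
      · rintro x ⟨hx, hx2⟩ y ⟨hy, hy2⟩ hxy
        have e1 : c (f ⟨x, hx⟩) = false := by
          by_contra hcon
          exact hx2 ⟨hx, by simpa using hcon⟩
        have e2 : c (f ⟨y, hy⟩) = false := by
          by_contra hcon
          exact hy2 ⟨hy, by simpa using hcon⟩
        exact h3 _ _ ((hadj ⟨x, hx⟩ ⟨y, hy⟩).1 hxy) (by rw [e1, e2])
  · intro h
    let e : S ≃ Fin (Fintype.card S) := Fintype.equivFin S
    have h2 : S.ncard = Fintype.card S := by
      rw [← Nat.card_coe_set_eq, Nat.card_eq_fintype_card]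
    refine ⟨Fintype.card S, (G.induce S).map e.toEmbedding, ?_, ⟨SimpleGraph.Iso.map e _⟩⟩
    rcases h with h | ⟨T, hTS, hT1, hT2, hT3, hT4⟩
    · left; omega
    · right
      refine ⟨fun i => decide ((e.symm i).1 ∈ T), ?_, ?_⟩
      · intro i j hij
        rw [SimpleGraph.map_adj] at hij
        obtain ⟨u, v, huv, rfl, rfl⟩ := hij
        simp only [Equiv.toEmbedding_apply, Equiv.symm_apply_apply]
        intro hcon
        rw [decide_eq_decide] at hcon
        by_cases hu : u.1 ∈ T
        · exact hT3 _ hu _ (hcon.1 hu) huv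
        · exact hT4 _ ⟨u.2, hu⟩ _ ⟨v.2, fun hv => hu (hcon.2 hv)⟩ huv
      · have key : ∀ (U : Set (Fin n)) (V : Finset (Fin (Fintype.card S))), U.ncard ≤ 3 →
            (∀ i ∈ V, (e.symm i).1 ∈ U) → V.card ≤ 3 := by
          intro U V hU hV
          refine le_trans ?_ hU
          rw [← Set.ncard_coe_finset]
          refine Set.ncard_le_ncard_of_injOn (fun i => (e.symm i).1) (fun i hi => hV i hi) ?_
          intro i _ j _ hij
          exact e.symm.injective (Subtype.ext hij)
        intro b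
        cases b
        · refine key (S \ T) _ hT2 ?_
          intro i hi
          simp only [Finset.mem_filter, Finset.mem_univ, true_and, decide_eq_false_iff_not] at hi
          exact ⟨(e.symm i).2, hi⟩
        · refine key T _ hT1 ?_
          intro i hi
          simpa using hi

theorem fwd {n : ℕ} {G : SimpleGraph (Fin n)} {c : Fin n → Fin 3}
    (h : ∀ i, In P G {v | c v = i}) : ∃ S : Set (Fin n), In P G S ∧ In Q G Sᶜ := by
  have key : ∀ i j k : Fin 3, (∀ x, x = i ∨ x = j ∨ x = k) → i ≠ k → j ≠ k → i ≠ j →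
      (({v | c v = i}.ncard ≤ 2 ∧ {v | c v = j}.ncard ≤ 2) ∨
      (¬ {v | c v = i}.ncard ≤ 2 ∧ ¬ {v | c v = j}.ncard ≤ 2)) →
      ∃ S : Set (Fin n), In P G S ∧ In Q G Sᶜ := by
    intro i j k hall hik hjk hij hcase
    refine ⟨{v | c v = k}, h k, ?_⟩
    have hcompl : {v | c v = k}ᶜ = {v | c v = i} ∪ {v | c v = j} := by
      ext v
      simp only [Set.mem_compl_iff, Set.mem_ofPred_eq, Set.mem_union]
      constructor
      · intro hv
        rcases hall (c v) with h1 | h1 | h1
        · exact Or.inl h1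
        · exact Or.inr h1
        · exact absurd h1 hv
      · rintro (h1 | h1) h2
        · exact hik (h1.symm.trans h2)
        · exact hjk (h1.symm.trans h2)
    rw [in_Q, hcompl]
    rcases hcase with ⟨h1, h2⟩ | ⟨h1, h2⟩
    · left
      refine (Set.ncard_union_le _ _).trans ?_
      omega
    · right
      have hi := (in_P.1 (h i)).resolve_left h1
      have hj := (in_P.1 (h j)).resolve_left h2
      have hd : ({v | c v = i} ∪ {v | c v = j}) \ {v | c v = i} = {v | c v = j} := by
        ext v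
        simp only [Set.mem_sdiff, Set.mem_ofPred_eq, Set.mem_union]
        constructor
        · rintro ⟨h3 | h3, h4⟩
          · exact absurd h3 h4
          · exact h3
        · intro h3
          exact ⟨Or.inr h3, fun h4 => hij (h4.symm.trans h3)⟩
      refine ⟨{v | c v = i}, Set.subset_union_left, hi.1, ?_, hi.2, ?_⟩
      · rw [hd]; exact hj.1
      · rw [hd]; exact hj.2
  by_cases h0 : {v | c v = 0}.ncard ≤ 2 <;> by_cases h1 : {v | c v = 1}.ncard ≤ 2 <;>
    by_cases h2 : {v | c v = 2}.ncard ≤ 2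
  all_goals first
    | exact key 0 1 2 (by decide) (by decide) (by decide) (by decide) (Or.inl ⟨h0, h1⟩)
    | exact key 0 1 2 (by decide) (by decide) (by decide) (by decide) (Or.inr ⟨h0, h1⟩)
    | exact key 0 2 1 (by decide) (by decide) (by decide) (by decide) (Or.inl ⟨h0, h2⟩)
    | exact key 0 2 1 (by decide) (by decide) (by decide) (by decide) (Or.inr ⟨h0, h2⟩)
    | exact key 1 2 0 (by decide) (by decide) (by decide) (by decide) (Or.inl ⟨h1, h2⟩)
    | exact key 1 2 0 (by decide) (by decide) (by decide) (by decide) (Or.inr ⟨h1, h2⟩)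

theorem bwd {n : ℕ} {G : SimpleGraph (Fin n)} {S : Set (Fin n)} (h1 : In P G S)
    (h2 : In Q G Sᶜ) : ∃ c : Fin n → Fin 3, ∀ i, In P G {v | c v = i} := by
  classical
  obtain ⟨T, hT, hT1, hT2⟩ : ∃ T ⊆ Sᶜ, In P G T ∧ In P G (Sᶜ \ T) := by
    rcases in_Q.1 h2 with h | ⟨T, hT, h3, h4, h5, h6⟩
    · rcases le_or_gt (Sᶜ.ncard) 2 with h7 | h7
      · refine ⟨Sᶜ, le_refl _, in_P.2 (Or.inl h7), in_P.2 (Or.inl ?_)⟩
        simp
      · obtain ⟨T, hT, hT2⟩ := Set.exists_subset_card_eq (s := Sᶜ) (n := 2) (by omega)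
        refine ⟨T, hT, in_P.2 (Or.inl (by omega)), in_P.2 (Or.inl ?_)⟩
        rw [Set.ncard_sdiff hT]
        omega
    · exact ⟨T, hT, in_P.2 (Or.inr ⟨h3, h5⟩), in_P.2 (Or.inr ⟨h4, h6⟩)⟩
  refine ⟨fun v => if v ∈ S then 0 else if v ∈ T then 1 else 2, fun i => ?_⟩
  fin_cases i
  · convert h1 using 1
    ext v
    by_cases hv : v ∈ S <;> by_cases hv' : v ∈ T <;> simp [hv, hv']
  · convert hT1 using 1
    ext v
    by_cases hv : v ∈ S <;> by_cases hv' : v ∈ T <;> simp [hv, hv']
    exact absurd hv (hT hv')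
  · convert hT2 using 1
    ext v
    by_cases hv : v ∈ S <;> by_cases hv' : v ∈ T <;> simp [hv, hv']

/-- The negation of the preceding statement: Among subgraph-closed classes of finite graphs, with product = vertex partition into parts in the factors, any two factorizations of a class into irreducible factors (contain K1, not a product of two such classes) agree up to reordering. -/
theorem result :
    ¬ (∀ (m k : ℕ) (Ps : Fin m → (n : ℕ) → SimpleGraph (Fin n) → Prop)
      (Qs : Fin k → (n : ℕ) → SimpleGraph (Fin n) → Prop),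
      (∀ i : Fin m,
        (∀ (a b : ℕ) (G : SimpleGraph (Fin a)) (H : SimpleGraph (Fin b)) (f : H →g G),
          Function.Injective f → Ps i a G → Ps i b H) ∧
        Ps i 1 ⊥ ∧
        ∀ A B : (n : ℕ) → SimpleGraph (Fin n) → Prop,
          (∀ (a b : ℕ) (G : SimpleGraph (Fin a)) (H : SimpleGraph (Fin b)) (f : H →g G),
            Function.Injective f → A a G → A b H) →
          (∀ (a b : ℕ) (G : SimpleGraph (Fin a)) (H : SimpleGraph (Fin b)) (f : H →g G),
            Function.Injective f → B a G → B b H) →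
          A 1 ⊥ → B 1 ⊥ →
          ¬ ∀ (n : ℕ) (G : SimpleGraph (Fin n)),
            (Ps i n G ↔ ∃ S : Set (Fin n),
              (∃ (r : ℕ) (K : SimpleGraph (Fin r)), A r K ∧ Nonempty (G.induce S ≃g K)) ∧
              (∃ (r : ℕ) (K : SimpleGraph (Fin r)), B r K ∧ Nonempty (G.induce Sᶜ ≃g K)))) →
      (∀ j : Fin k,
        (∀ (a b : ℕ) (G : SimpleGraph (Fin a)) (H : SimpleGraph (Fin b)) (f : H →g G),
          Function.Injective f → Qs j a G → Qs j b H) ∧
        Qs j 1 ⊥ ∧
        ∀ A B : (n : ℕ) → SimpleGraph (Fin n) → Prop,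
          (∀ (a b : ℕ) (G : SimpleGraph (Fin a)) (H : SimpleGraph (Fin b)) (f : H →g G),
            Function.Injective f → A a G → A b H) →
          (∀ (a b : ℕ) (G : SimpleGraph (Fin a)) (H : SimpleGraph (Fin b)) (f : H →g G),
            Function.Injective f → B a G → B b H) →
          A 1 ⊥ → B 1 ⊥ →
          ¬ ∀ (n : ℕ) (G : SimpleGraph (Fin n)),
            (Qs j n G ↔ ∃ S : Set (Fin n),
              (∃ (r : ℕ) (K : SimpleGraph (Fin r)), A r K ∧ Nonempty (G.induce S ≃g K)) ∧
              (∃ (r : ℕ) (K : SimpleGraph (Fin r)), B r K ∧ Nonempty (G.induce Sᶜ ≃g K)))) →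
      (∀ (n : ℕ) (G : SimpleGraph (Fin n)),
        (∃ c : Fin n → Fin m, ∀ i : Fin m, ∃ (r : ℕ) (K : SimpleGraph (Fin r)),
            Ps i r K ∧ Nonempty (G.induce {v | c v = i} ≃g K)) ↔
        (∃ c : Fin n → Fin k, ∀ j : Fin k, ∃ (r : ℕ) (K : SimpleGraph (Fin r)),
            Qs j r K ∧ Nonempty (G.induce {v | c v = j} ≃g K))) →
      ∃ σ : Fin m ≃ Fin k, ∀ (i : Fin m) (n : ℕ) (G : SimpleGraph (Fin n)),
        (Ps i n G ↔ Qs (σ i) n G)) := by
  intro H
  obtain ⟨σ, -⟩ := H 3 2 (fun _ => P) ![P, Q]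
    (fun _ => ⟨P_her, P_one, fun A B hA hB hA1 hB1 h => P_irr A B hA hB hA1 hB1 h⟩) (by
      intro j
      fin_cases j
      · exact ⟨P_her, P_one, fun A B hA hB hA1 hB1 h => P_irr A B hA hB hA1 hB1 h⟩
      · exact ⟨Q_her, Q_one, fun A B hA hB hA1 hB1 h => Q_irr A B hA hB hA1 hB1 h⟩) (by
      intro n G
      constructor
      · rintro ⟨c, hc⟩
        obtain ⟨S, h1, h2⟩ := fwd (G := G) (c := c) hc
        classical
        refine ⟨fun v => if v ∈ S then 0 else 1, fun j => ?_⟩
        fin_cases j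
        · show In P G _
          convert h1 using 1
          ext v
          by_cases hv : v ∈ S <;> simp [hv]
        · show In Q G _
          convert h2 using 1
          ext v
          by_cases hv : v ∈ S <;> simp [hv]
      · rintro ⟨c, hc⟩
        have h1 : In P G {v | c v = 0} := hc 0
        have h2 : In Q G {v | c v = 1} := hc 1
        have h3 : {v | c v = 1} = {v | c v = 0}ᶜ := by
          ext v
          simp only [Set.mem_ofPred_eq, Set.mem_compl_iff]
          omega
        rw [h3] at h2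
        exact bwd h1 h2)
  have := Fintype.card_congr σ
  simp at this

end Pool.Agent.S11608
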