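import Pool.Statements.S11612
import Pool.Agent.R37.Tree
import Pool.Agent.R37.TreeMk

set_option autoImplicit false
open Pool Pool.MP_d20af1_co

/-!
The counterexample is a subdivision of `K5` on 11 vertices. The branch vertices `0,1,2,3,4` span
the 5-cycle `0-1-2-3-4-0`; the other five pairs are joined by the paths
`0-5-2`, `0-6-3`, `1-7-3`, `2-8-4`, `1-9-10-4`.
Its treewidth is 4, its tree-independence number is 2 and its tree-chromatic number is 2
(the bags are the closed neighbourhood of `0` and the set of all vertices other than `0`).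
-/

namespace Pool.Agent.S11612

open Pool.Agent.R37

def edges : List (Fin 11 × Fin 11) :=
  [(0,1),(1,2),(2,3),(3,4),(4,0),(0,5),(5,2),(0,6),(6,3),(1,7),(7,3),(2,8),(8,4),(1,9),(9,10),
   (10,4)]

def adjB (u v : Fin 11) : Bool := edges.contains (u, v) || edges.contains (v, u)

def G : SimpleGraph (Fin 11) where
  Adj u v := adjB u v = true
  symm := ⟨by
    have h : ∀ u v : Fin 11, adjB u v = true → adjB v u = true := by decide +kernel
    exact h⟩
  loopless := ⟨by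
    have h : ∀ u : Fin 11, ¬ (adjB u u = true) := by decide +kernel
    exact h⟩

def par1 : Fin 7 → Fin 7 := ![0, 0, 0, 0, 0, 0, 5]

def bag1 : Fin 7 → Finset (Fin 11) :=
  ![{0, 1, 2, 3, 4}, {0, 2, 5}, {0, 3, 6}, {1, 3, 7}, {2, 4, 8}, {1, 4, 9}, {4, 9, 10}]

def top1 : Fin 11 → Fin 7 := ![0, 0, 0, 0, 0, 1, 2, 3, 4, 5, 6]

def par2 : Fin 2 → Fin 2 := ![0, 0]

def bag2 : Fin 2 → Finset (Fin 11) := ![{0, 1, 4, 5, 6}, {1, 2, 3, 4, 5, 6, 7, 8, 9, 10}]

def top2 : Fin 11 → Fin 2 := ![0, 0, 1, 1, 0, 0, 0, 1, 1, 1, 1]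

def col2 : Fin 2 → Fin 11 → Fin 2 :=
  ![![0, 1, 1, 1, 1, 1, 1, 1, 1, 1, 1], ![0, 0, 1, 0, 1, 0, 1, 1, 0, 1, 0]]

theorem first : ∃ (n : ℕ) (T : SimpleGraph (Fin n)) (B : Fin n → Finset (Fin 11)),
    T.IsTree ∧
    (∀ u v : Fin 11, G.Adj u v → ∃ i, u ∈ B i ∧ v ∈ B i) ∧
    (∀ v : Fin 11, (T.induce {i : Fin n | v ∈ B i}).Connected) ∧
    (∀ i : Fin n, ∀ S : Finset (Fin 11), S ⊆ B i → G.IsIndepSet (S : Set (Fin 11)) →
      S.card ≤ 2) := by
  refine ⟨7, parGraph par1, bag1, ?_, ?_, ?_, ?_⟩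
  · exact isTree_parGraph (dep := Fin.val) 0 (by decide) (by decide)
  · have h : ∀ u v : Fin 11, adjB u v = true → ∃ i, u ∈ bag1 i ∧ v ∈ bag1 i := by decide +kernel
    exact h
  · intro v
    refine connected_of_top (dep := Fin.val) (τ := top1 v) ?_ ?_
    · have h : ∀ v : Fin 11, v ∈ bag1 (top1 v) := by decide +kernel
      exact h v
    · have h : ∀ v : Fin 11, ∀ s : Fin 7, v ∈ bag1 s → s ≠ top1 v →
          (par1 s).val < s.val ∧ v ∈ bag1 (par1 s) := by decide +kernel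
      exact h v
  · have h : ∀ i : Fin 7, ∀ a ∈ bag1 i, ∀ b ∈ bag1 i, ∀ c ∈ bag1 i, a ≠ b → a ≠ c → b ≠ c →
        adjB a b = true ∨ adjB a c = true ∨ adjB b c = true := by decide +kernel
    intro i S hS hI
    by_contra hcon
    obtain ⟨a, ha, b, hb, c, hc, hab, hac, hbc⟩ := Finset.two_lt_card.mp (not_le.mp hcon)
    rcases h i a (hS ha) b (hS hb) c (hS hc) hab hac hbc with h1 | h1 | h1
    · exact hI ha hb hab h1
    · exact hI ha hc hac h1
    · exact hI hb hc hbc h1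

theorem second : ∃ (n : ℕ) (T : SimpleGraph (Fin n)) (B : Fin n → Finset (Fin 11)),
    T.IsTree ∧
    (∀ u v : Fin 11, G.Adj u v → ∃ i, u ∈ B i ∧ v ∈ B i) ∧
    (∀ v : Fin 11, (T.induce {i : Fin n | v ∈ B i}).Connected) ∧
    (∀ i : Fin n, (G.induce (B i : Set (Fin 11))).Colorable 2) := by
  refine ⟨2, parGraph par2, bag2, ?_, ?_, ?_, ?_⟩
  · exact isTree_parGraph (dep := Fin.val) 0 (by decide) (by decide)
  · have h : ∀ u v : Fin 11, adjB u v = true → ∃ i, u ∈ bag2 i ∧ v ∈ bag2 i := by decide +kernel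
    exact h
  · intro v
    refine connected_of_top (dep := Fin.val) (τ := top2 v) ?_ ?_
    · have h : ∀ v : Fin 11, v ∈ bag2 (top2 v) := by decide +kernel
      exact h v
    · have h : ∀ v : Fin 11, ∀ s : Fin 2, v ∈ bag2 s → s ≠ top2 v →
          (par2 s).val < s.val ∧ v ∈ bag2 (par2 s) := by decide +kernel
      exact h v
  · intro i
    refine ⟨SimpleGraph.Coloring.mk (fun v => col2 i v.1) ?_⟩
    have h : ∀ i : Fin 2, ∀ u v : Fin 11, u ∈ bag2 i → v ∈ bag2 i → adjB u v = true →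
        col2 i u ≠ col2 i v := by decide +kernel
    intro u v huv
    exact h i u.1 v.1 u.2 v.2 huv

theorem third {n : ℕ} {T : SimpleGraph (Fin n)} {B : Fin n → Finset (Fin 11)} (hT : T.IsTree)
    (he : ∀ u v : Fin 11, G.Adj u v → ∃ i, u ∈ B i ∧ v ∈ B i)
    (hc : ∀ v : Fin 11, (T.induce {i : Fin n | v ∈ B i}).Connected) :
    ∃ t, 5 ≤ (B t).card := by
  obtain ⟨r⟩ := hT.connected.nonempty
  obtain ⟨R, -⟩ := exists_rooting hT r
  have hs : ∀ v, R.Sub {i : Fin n | v ∈ B i} := fun v => Rooting.sub_of_connected (hc v)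
  have hn : ∀ u v : Fin 11, adjB u v = true →
      ({i : Fin n | u ∈ B i} ∩ {i : Fin n | v ∈ B i}).Nonempty := by
    intro u v h
    obtain ⟨i, h1, h2⟩ := he u v h
    exact ⟨i, h1, h2⟩
  have hn' : ∀ (u v : Fin 11) (X Y : Set (Fin n)), adjB u v = true →
      {i : Fin n | u ∈ B i} ⊆ X → {i : Fin n | v ∈ B i} ⊆ Y → (X ∩ Y).Nonempty := by
    intro u v X Y h hX hY
    obtain ⟨i, h1, h2⟩ := hn u v h
    exact ⟨i, hX h1, hY h2⟩
  let S : Fin 11 → Set (Fin n) := fun v => {i : Fin n | v ∈ B i}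
  let M : Fin 5 → Set (Fin n) :=
    ![S 0 ∪ S 5 ∪ S 6, S 1 ∪ S 7 ∪ S 9, S 2 ∪ S 8, S 3, S 4 ∪ S 10]
  have m00 : S 0 ⊆ M 0 := fun x hx => Or.inl (Or.inl hx)
  have m05 : S 5 ⊆ M 0 := fun x hx => Or.inl (Or.inr hx)
  have m06 : S 6 ⊆ M 0 := fun x hx => Or.inr hx
  have m11 : S 1 ⊆ M 1 := fun x hx => Or.inl (Or.inl hx)
  have m17 : S 7 ⊆ M 1 := fun x hx => Or.inl (Or.inr hx)
  have m19 : S 9 ⊆ M 1 := fun x hx => Or.inr hx
  have m22 : S 2 ⊆ M 2 := fun x hx => Or.inl hx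
  have m28 : S 8 ⊆ M 2 := fun x hx => Or.inr hx
  have m33 : S 3 ⊆ M 3 := fun x hx => hx
  have m44 : S 4 ⊆ M 4 := fun x hx => Or.inl hx
  have m410 : S 10 ⊆ M 4 := fun x hx => Or.inr hx
  have hM : ∀ j ∈ (Finset.univ : Finset (Fin 5)), R.Sub (M j) := by
    intro j _
    fin_cases j
    · refine Rooting.Sub.union (Rooting.Sub.union (hs 0) (hs 5) (hn 0 5 (by decide))) (hs 6) ?_
      exact hn' 0 6 _ _ (by decide) (fun x hx => Or.inl hx) (fun x hx => hx)
    · refine Rooting.Sub.union (Rooting.Sub.union (hs 1) (hs 7) (hn 1 7 (by decide))) (hs 9) ?_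
      exact hn' 1 9 _ _ (by decide) (fun x hx => Or.inl hx) (fun x hx => hx)
    · exact Rooting.Sub.union (hs 2) (hs 8) (hn 2 8 (by decide))
    · exact hs 3
    · exact Rooting.Sub.union (hs 4) (hs 10) (hn 4 10 (by decide))
  have hMn : ∀ j, (M j).Nonempty := by
    intro j
    obtain ⟨τ, hτ⟩ := hM j (Finset.mem_univ j)
    exact ⟨τ, hτ.1⟩
  have hP : ∀ i ∈ (Finset.univ : Finset (Fin 5)), ∀ j ∈ (Finset.univ : Finset (Fin 5)),
      (M i ∩ M j).Nonempty := by
    have h01 := hn' 0 1 (M 0) (M 1) (by decide) m00 m11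
    have h02 := hn' 5 2 (M 0) (M 2) (by decide) m05 m22
    have h03 := hn' 6 3 (M 0) (M 3) (by decide) m06 m33
    have h04 := hn' 0 4 (M 0) (M 4) (by decide) m00 m44
    have h12 := hn' 1 2 (M 1) (M 2) (by decide) m11 m22
    have h13 := hn' 7 3 (M 1) (M 3) (by decide) m17 m33
    have h14 := hn' 9 10 (M 1) (M 4) (by decide) m19 m410
    have h23 := hn' 2 3 (M 2) (M 3) (by decide) m22 m33
    have h24 := hn' 8 4 (M 2) (M 4) (by decide) m28 m44
    have h34 := hn' 3 4 (M 3) (M 4) (by decide) m33 m44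
    intro i _ j _
    fin_cases i <;> fin_cases j
    · rw [Set.inter_self]; exact hMn 0
    · exact h01
    · exact h02
    · exact h03
    · exact h04
    · rw [Set.inter_comm]; exact h01
    · rw [Set.inter_self]; exact hMn 1
    · exact h12
    · exact h13
    · exact h14
    · rw [Set.inter_comm]; exact h02
    · rw [Set.inter_comm]; exact h12
    · rw [Set.inter_self]; exact hMn 2
    · exact h23
    · exact h24
    · rw [Set.inter_comm]; exact h03
    · rw [Set.inter_comm]; exact h13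
    · rw [Set.inter_comm]; exact h23
    · rw [Set.inter_self]; exact hMn 3
    · exact h34
    · rw [Set.inter_comm]; exact h04
    · rw [Set.inter_comm]; exact h14
    · rw [Set.inter_comm]; exact h24
    · rw [Set.inter_comm]; exact h34
    · rw [Set.inter_self]; exact hMn 4
  obtain ⟨t, ht⟩ := Rooting.helly (R := R) Finset.univ ⟨0, Finset.mem_univ _⟩ M hM hP
  refine ⟨t, ?_⟩
  have h0 : ∃ a, (a = 0 ∨ a = 5 ∨ a = 6) ∧ a ∈ B t := by
    rcases ht 0 (Finset.mem_univ _) with (h | h) | h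
    · exact ⟨0, by simp, h⟩
    · exact ⟨5, by simp, h⟩
    · exact ⟨6, by simp, h⟩
  have h1 : ∃ a, (a = 1 ∨ a = 7 ∨ a = 9) ∧ a ∈ B t := by
    rcases ht 1 (Finset.mem_univ _) with (h | h) | h
    · exact ⟨1, by simp, h⟩
    · exact ⟨7, by simp, h⟩
    · exact ⟨9, by simp, h⟩
  have h2 : ∃ a, (a = 2 ∨ a = 8) ∧ a ∈ B t := by
    rcases ht 2 (Finset.mem_univ _) with h | h
    · exact ⟨2, by simp, h⟩
    · exact ⟨8, by simp, h⟩
  have h3 : 3 ∈ B t := ht 3 (Finset.mem_univ _)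
  have h4 : ∃ a, (a = 4 ∨ a = 10) ∧ a ∈ B t := by
    rcases ht 4 (Finset.mem_univ _) with h | h
    · exact ⟨4, by simp, h⟩
    · exact ⟨10, by simp, h⟩
  obtain ⟨a0, ha0, hb0⟩ := h0
  obtain ⟨a1, ha1, hb1⟩ := h1
  obtain ⟨a2, ha2, hb2⟩ := h2
  obtain ⟨a4, ha4, hb4⟩ := h4
  have hsub : ({a0, a1, a2, 3, a4} : Finset (Fin 11)) ⊆ B t := by
    intro x hx
    simp only [Finset.mem_insert, Finset.mem_singleton] at hx
    rcases hx with rfl | rfl | rfl | rfl | rfl <;> assumption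
  have hcard : ({a0, a1, a2, 3, a4} : Finset (Fin 11)).card = 5 := by
    rcases ha0 with rfl | rfl | rfl <;> rcases ha1 with rfl | rfl | rfl <;>
      rcases ha2 with rfl | rfl <;> rcases ha4 with rfl | rfl <;> decide
  rw [← hcard]
  exact Finset.card_le_card hsub

/-- The negation of the preceding statement: For every finite graph G and all a, k: if G has a tree decomposition whose bags all have independence number at most a, and one whose bags all induce k-colorable subgraphs, then G has a tree decomposition with all bags of size at most a·k. -/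
theorem result :
    ¬ (∀ (V : Type) [Fintype V] (G : SimpleGraph V) (a k : ℕ),
      (∃ (n : ℕ) (T : SimpleGraph (Fin n)) (B : Fin n → Finset V),
        T.IsTree ∧
        (∀ u v : V, G.Adj u v → ∃ i, u ∈ B i ∧ v ∈ B i) ∧
        (∀ v : V, (T.induce {i : Fin n | v ∈ B i}).Connected) ∧
        (∀ i : Fin n, ∀ S : Finset V, S ⊆ B i → G.IsIndepSet (S : Set V) → S.card ≤ a)) →
      (∃ (n : ℕ) (T : SimpleGraph (Fin n)) (B : Fin n → Finset V),
        T.IsTree ∧
        (∀ u v : V, G.Adj u v → ∃ i, u ∈ B i ∧ v ∈ B i) ∧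
        (∀ v : V, (T.induce {i : Fin n | v ∈ B i}).Connected) ∧
        (∀ i : Fin n, (G.induce (B i : Set V)).Colorable k)) →
      (∃ (n : ℕ) (T : SimpleGraph (Fin n)) (B : Fin n → Finset V),
        T.IsTree ∧
        (∀ u v : V, G.Adj u v → ∃ i, u ∈ B i ∧ v ∈ B i) ∧
        (∀ v : V, (T.induce {i : Fin n | v ∈ B i}).Connected) ∧
        (∀ i : Fin n, (B i).card ≤ a * k))) := by
  intro H
  obtain ⟨n, T, B, hT, he, hc, hb⟩ := H (Fin 11) G 2 2 first second
  obtain ⟨t, ht⟩ := third hT he hc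
  have := hb t
  omega

end Pool.Agent.S11612
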