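import Pool.Statements.S11654
import Pool.Agent.R987.PaintGraph

set_option autoImplicit false
open Pool Pool.MP_d32fcc_co

namespace Pool.Agent.S11654

/-!
# A 4-paintable graph that is not `(45, 11)`-paintable

Gadget `D`: a graph on nine vertices with token numbers `f = (4,4,4,4,2,4,2,2,4)`.  Painter wins the
ordinary painting game on `(D, f)` (`Pool.Agent.R987.Paint.gadget_win`; a strategy with 181
positions is checked by the kernel).  On the other hand, there are 60 sets of vertices covering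
every vertex `v` exactly `11 f(v) + 1` times whose independence numbers add up to `98 < 99 = 9 * 11`,
so Lister wins the `11`-fold game on `(D, 11 f + 1)` by presenting these sets one after the other.
Two nonadjacent roots are joined to the three vertices with `f(v) = 2` of every one of many copies
of `D`; this graph is 4-paintable.  In the `(45, 11)`-game Lister first plays the roots in such a
way that in one copy the three vertices lose `22` tokens and get no colour.
-/

open Pool.Agent.R987.Paint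

/-- the sets with (bounds for) their independence numbers -/
def s1 : Finset (Fin 9) × ℕ := ({0, 4, 5}, 1)
def s2 : Finset (Fin 9) × ℕ := ({0, 1, 3, 4, 5, 7, 8}, 2)
def s3 : Finset (Fin 9) × ℕ := ({0, 1, 2, 3}, 1)
def s4 : Finset (Fin 9) × ℕ := ({0, 1, 2, 3, 5, 6, 8}, 2)
def s5 : Finset (Fin 9) × ℕ := ({0, 1, 2, 4, 5, 6, 8}, 2)
def s6 : Finset (Fin 9) × ℕ := ({2, 3, 5, 6, 7, 8}, 2)
def s7 : Finset (Fin 9) × ℕ := ({0, 1, 2, 3, 5, 7, 8}, 2)
def s8 : Finset (Fin 9) × ℕ := ({1, 2, 3, 8}, 1)

/-- the sequence of Lister -/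
def LL : List (Finset (Fin 9) × ℕ) :=
  List.replicate 7 s1 ++ List.replicate 8 s2 ++ List.replicate 8 s3 ++ List.replicate 7 s4 ++
  List.replicate 8 s5 ++ List.replicate 8 s6 ++ List.replicate 7 s7 ++ List.replicate 7 s8

theorem LL_sum : (LL.map Prod.snd).sum = 98 := by decide +kernel

theorem LL_count : ∀ v : Fin 9, (if isA v then 23 else 45) ≤
    LL.countP (fun p => decide (v ∈ p.1)) := by decide +kernel

theorem one_of (S : Finset (Fin 9)) (h : ∀ u ∈ S, ∀ v ∈ S, u ≠ v → D.Adj u v)
    (J : Finset (Fin 9)) (hJ : J ⊆ S) (hind : ∀ u ∈ J, ∀ v ∈ J, u ≠ v → ¬ D.Adj u v) :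
    J.card ≤ 1 := by
  by_contra hne
  push Not at hne
  obtain ⟨u, hu, v, hv, huv⟩ := Finset.one_lt_card.mp hne
  exact hind u hu v hv huv (h u (hJ hu) v (hJ hv) huv)

theorem two_of (S : Finset (Fin 9)) (h : ∀ u ∈ S, ∀ v ∈ S, ∀ w ∈ S, u ≠ v → u ≠ w → v ≠ w →
      D.Adj u v ∨ D.Adj u w ∨ D.Adj v w)
    (J : Finset (Fin 9)) (hJ : J ⊆ S) (hind : ∀ u ∈ J, ∀ v ∈ J, u ≠ v → ¬ D.Adj u v) :
    J.card ≤ 2 := by
  by_contra hne
  push Not at hne
  obtain ⟨u, hu, v, hv, w, hw, huv, huw, hvw⟩ := Finset.two_lt_card.mp hne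
  rcases h u (hJ hu) v (hJ hv) w (hJ hw) huv huw hvw with h | h | h
  · exact hind u hu v hv huv h
  · exact hind u hu w hw huw h
  · exact hind v hv w hw hvw h

theorem LL_ind : ∀ p ∈ LL, ∀ J : Finset (Fin 9), J ⊆ p.1 →
    (∀ u ∈ J, ∀ v ∈ J, u ≠ v → ¬ D.Adj u v) → J.card ≤ p.2 := by
  intro p hp
  have h : p = s1 ∨ p = s2 ∨ p = s3 ∨ p = s4 ∨ p = s5 ∨ p = s6 ∨ p = s7 ∨ p = s8 := by
    unfold LL at hp
    simp only [List.mem_append, List.mem_replicate] at hp
    tauto
  rcases h with rfl | rfl | rfl | rfl | rfl | rfl | rfl | rfl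
  · exact one_of _ (by decide +kernel)
  · exact two_of _ (by decide +kernel)
  · exact one_of _ (by decide +kernel)
  · exact two_of _ (by decide +kernel)
  · exact two_of _ (by decide +kernel)
  · exact two_of _ (by decide +kernel)
  · exact two_of _ (by decide +kernel)
  · exact one_of _ (by decide +kernel)

/-- the index set of the copies -/
abbrev CC : Type := ↥((Finset.range 45).powerset) × ↥((Finset.range 45).powerset)

theorem lister_big : ¬ Win (Gr CC) (fun _ => 45) (fun _ => 11) := by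
  intro h
  obtain ⟨t₁, n₁, T₁, hw₁, hT₁, hc₁, hr₁, ho₁, hg₁⟩ :=
    root_play CC false 45 11 (by norm_num) (fun c => c.1.1) (fun _ => True) (fun _ => 45)
      (fun _ => 45) (fun _ => 11) h rfl rfl (fun _ _ _ => ⟨rfl, rfl⟩) 45 le_rfl
  have hn₁ : n₁ (Sum.inl false) = 0 := by
    have h1 := (win_inv hw₁).1 (Sum.inl false)
    omega
  have hT₁c : T₁.card = 11 := by omega
  obtain ⟨t₂, n₂, T₂, hw₂, hT₂, hc₂, hr₂, ho₂, hg₂⟩ :=
    root_play CC true 45 11 (by norm_num) (fun c => c.2.1)
      (fun c => c.1.1 ∩ Finset.range 45 = T₁) (fun v => 45 - (if isA v then 11 else 0))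
      t₁ n₁ hw₁ ho₁.1 ho₁.2 (fun c hc v => by
        obtain ⟨h1, h2⟩ := hg₁ c trivial hc v
        refine ⟨h1, ?_⟩
        rw [hT₁c] at h2
        omega) 45 le_rfl
  have hn₂ : n₂ (Sum.inl true) = 0 := by
    have h1 := (win_inv hw₂).1 (Sum.inl true)
    omega
  have hT₂c : T₂.card = 11 := by omega
  let c : CC := (⟨T₁, Finset.mem_powerset.mpr hT₁⟩, ⟨T₂, Finset.mem_powerset.mpr hT₂⟩)
  have hfin := hg₂ c (Finset.inter_eq_left.mpr hT₁) (Finset.inter_eq_left.mpr hT₂)
  refine seq_play CC c LL LL_ind t₂ n₂ hw₂ ?_ ?_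
  · intro v _
    obtain ⟨_, h2⟩ := hfin v
    have h3 := LL_count v
    rw [hT₂c] at h2
    by_cases hA : isA v
    · rw [if_pos hA] at h3
      simp only [if_pos hA] at h2
      omega
    · rw [if_neg hA] at h3
      simp only [if_neg hA] at h2
      omega
  · rw [LL_sum]
    have e : ∀ v : Fin 9, n₂ (Sum.inr (c, v)) = 11 := fun v => (hfin v).1
    simp only [e, Finset.sum_const, Finset.card_univ, Fintype.card_fin]
    norm_num

/-- The negation of the preceding statement: For every finite graph that is k-paintable (online k-list-colourable), and all positive a, b with a > k·b, the graph is (a:b)-paintable. This is equivalent to the strong fractional paint number being at most the paint number. -/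
theorem result :
    ¬ (∀ (V : Type) [Fintype V] (G : SimpleGraph V) (k a b : ℕ), 0 < b → k * b < a →
    (∀ W : (V → ℕ) → (V → ℕ) → Prop,
      (∀ t n : V → ℕ, (∀ v, n v ≤ t v) →
        (∀ M : Set V, M.Nonempty → (∀ v ∈ M, 0 < n v) →
          ∃ I ⊆ M, G.IsIndepSet I ∧
            W (t - M.indicator (fun _ => (1 : ℕ))) (n - I.indicator (fun _ => (1 : ℕ)))) →
        W t n) →
      W (fun _ => k) (fun _ => 1)) →
    (∀ W : (V → ℕ) → (V → ℕ) → Prop,
      (∀ t n : V → ℕ, (∀ v, n v ≤ t v) →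
        (∀ M : Set V, M.Nonempty → (∀ v ∈ M, 0 < n v) →
          ∃ I ⊆ M, G.IsIndepSet I ∧
            W (t - M.indicator (fun _ => (1 : ℕ))) (n - I.indicator (fun _ => (1 : ℕ)))) →
        W t n) →
      W (fun _ => a) (fun _ => b))) := by
  intro H
  exact lister_big (H (Bool ⊕ (CC × Fin 9)) (Gr CC) 4 45 11 (by norm_num) (by norm_num)
    (painter_big CC))

end Pool.Agent.S11654
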