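import Pool.Statements.S11655
import Pool.Agent.R100.ChgAsm

set_option autoImplicit false
open Filter
open Pool Pool.MP_d33b86_co

namespace Pool.Agent.S11655

open Pool.Agent.R100.Chg in
lemma no_config {a b : ℕ} {A : Set ℕ} (hpos : ∀ n ∈ A, 0 < n) (hfree : ThreeAPFree A)
    (hcfg : ∀ F : Cfg a b, IsC F → ¬ ∀ q, yy F q ∈ A) (X : Finset ℤ) (hX : X.card = a + 1)
    (k : Fin (b + 1) → ℤ) (hk : Function.Injective k)
    (hall : ∀ i, ∀ x ∈ X, x + k i ∈ (fun n : ℕ => (n : ℤ)) '' A) : False := by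
  classical
  set K : Finset ℤ := Finset.univ.image k with hKdef
  have hK : K.card = b + 1 := by
    rw [hKdef, Finset.card_image_of_injective _ hk, Finset.card_univ, Fintype.card_fin]
  set x := X.orderEmbOfFin hX with hx
  set κ := K.orderEmbOfFin hK with hκ
  have hmem : ∀ (i : Fin (a + 1)) (j : Fin (b + 1)), ∃ n : ℕ, n ∈ A ∧ (n : ℤ) = x i + κ j := by
    intro i j
    have h1 : x i ∈ X := Finset.orderEmbOfFin_mem X hX i
    have h2 : κ j ∈ K := Finset.orderEmbOfFin_mem K hK j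
    rw [hKdef, Finset.mem_image] at h2
    obtain ⟨l, -, hl⟩ := h2
    obtain ⟨n, hn, hn'⟩ := hall l (x i) h1
    exact ⟨n, hn, by rw [← hl]; exact hn'⟩
  choose z hz1 hz2 using hmem
  have hxm : ∀ i j, i < j → x i < x j := fun i j h => x.strictMono h
  have hκm : ∀ i j, i < j → κ i < κ j := fun i j h => κ.strictMono h
  set F : Cfg a b := (z 0 0, (fun i => z i.succ 0), fun j => z 0 j.succ) with hF
  have hy : ∀ i j, yy F (i, j) = z i j := by
    intro i j
    have h00 := hz2 0 0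
    rcases Fin.eq_zero_or_eq_succ i with rfl | ⟨i', rfl⟩ <;>
    rcases Fin.eq_zero_or_eq_succ j with rfl | ⟨j', rfl⟩
    · rw [yy_zero_zero]
    · rw [yy_zero_succ]
    · rw [yy_succ_zero]
    · rw [yy_succ_succ]
      simp only [hF]
      have h1 := hz2 i'.succ 0
      have h2 := hz2 0 j'.succ
      have h3 := hz2 i'.succ j'.succ
      have h4 := hxm 0 i'.succ (Fin.succ_pos i')
      omega
  have hC : IsC F := by
    refine ⟨hpos _ (hz1 0 0), ?_, ?_, ?_⟩
    · intro i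
      have h1 := hz2 i.succ 0
      have h2 := hz2 0 0
      have h4 := hxm 0 i.succ (Fin.succ_pos i)
      simp only [hF]
      omega
    · intro j
      have h1 := hz2 0 j.succ
      have h2 := hz2 0 0
      have h4 := hκm 0 j.succ (Fin.succ_pos j)
      simp only [hF]
      omega
    · rintro ⟨i, j⟩ ⟨i', j'⟩ h
      rw [hy, hy] at h
      have e1 := hz2 i j
      have e2 := hz2 i' j'
      have e3 := hz2 i j'
      have e4 := hz2 i' j
      have hap : z i j' + z i' j = z i j + z i j := by omega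
      have h5 := hfree (hz1 i j') (hz1 i j) (hz1 i' j) hap
      have h6 : κ j' = κ j := by omega
      have h7 : j' = j := κ.injective h6
      subst h7
      have h8 : x i = x i' := by omega
      rw [x.injective h8]
  exact hcfg F hC (fun q => by rw [show q = (q.1, q.2) from rfl, hy]; exact hz1 _ _)

/-- For all integers g ≥ h ≥ 2 there is an infinite set A of positive integers containing no g distinct translates of any h-element set, such that for every ε>0, eventually ∣A ∩ [1,n]∣ ≥ n^(α(g,h)−ε). -/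
theorem result :
    ∀ g h : ℕ, 2 ≤ h → h ≤ g →
      ∃ A : Set ℤ,
        A ⊆ {n : ℤ | 1 ≤ n} ∧ A.Infinite ∧
        (∀ X : Finset ℤ, X.card = h → ∀ k : Fin g → ℤ, Function.Injective k →
          ¬ (∀ i : Fin g, ∀ x ∈ X, x + k i ∈ A)) ∧
        ∀ ε : ℝ, 0 < ε →
          ∀ᶠ n : ℕ in atTop,
            (n : ℝ) ^ ((1 - 1 / (h : ℝ)) * (1 - 1 / (g : ℝ)) *
                (1 + 1 / ((h : ℝ) * (g : ℝ) - 1)) - ε)
              ≤ ((A ∩ Set.Icc (1 : ℤ) (n : ℤ)).ncard : ℝ) := by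
  intro g h hh hg
  obtain ⟨a, rfl⟩ : ∃ a, h = a + 1 := ⟨h - 1, by omega⟩
  obtain ⟨b, rfl⟩ : ∃ b, g = b + 1 := ⟨g - 1, by omega⟩
  have ha : 0 < a := by omega
  have hb : 0 < b := by omega
  obtain ⟨k0, hk03, A, hpos, hfree, hcfg, hdens⟩ := Pool.Agent.R100.Chg.exists_set ha hb
  set α := Pool.Agent.R100.Chg.alp a b with hαdef
  have hα0 : 0 < α := Pool.Agent.R100.Chg.alp_pos ha hb
  have hα1 : α ≤ 1 := by
    have h1 := Pool.Agent.R100.Chg.alp_add_bet ha hb
    have h2 := Pool.Agent.R100.Chg.bet_pos ha hb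
    linarith
  have hexp : (1 - 1 / ((a + 1 : ℕ) : ℝ)) * (1 - 1 / ((b + 1 : ℕ) : ℝ)) *
      (1 + 1 / (((a + 1 : ℕ) : ℝ) * ((b + 1 : ℕ) : ℝ) - 1)) = α := by
    rw [hαdef]
    unfold Pool.Agent.R100.Chg.alp
    have ha' : (0 : ℝ) < a := by exact_mod_cast ha
    have hb' : (0 : ℝ) < b := by exact_mod_cast hb
    have h1 : ((a : ℝ) + 1) * ((b : ℝ) + 1) - 1 = (a : ℝ) * b + a + b := by ring
    push_cast
    rw [h1]
    have h2 : (0 : ℝ) < (a : ℝ) * b + a + b := by positivity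
    field_simp
    ring
  refine ⟨(fun n : ℕ => (n : ℤ)) '' A, ?_, ?_, ?_, ?_⟩
  · rintro _ ⟨n, hn, rfl⟩
    have := hpos n hn
    simp only [Set.mem_ofPred_eq]
    omega
  · apply Set.Infinite.image (fun x _ y _ h => by exact_mod_cast h)
    apply Set.infinite_of_not_bddAbove
    rintro ⟨M, hM⟩
    have hk : k0 ≤ max k0 M := le_max_left _ _
    have h1 := hdens (max k0 M) hk
    have h2 : (0 : ℝ) < ((A ∩ Set.Ico (2 ^ ((max k0 M) ^ 2)) (2 ^ ((max k0 M) ^ 2 + 1))).ncard : ℝ) :=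
      lt_of_lt_of_le (by positivity) h1
    have h3 : 0 < (A ∩ Set.Ico (2 ^ ((max k0 M) ^ 2)) (2 ^ ((max k0 M) ^ 2 + 1))).ncard := by
      exact_mod_cast h2
    obtain ⟨x, hx, hx1, -⟩ := (Set.ncard_pos ((Set.finite_Ico _ _).subset
      Set.inter_subset_right)).1 h3
    have h4 := hM hx
    have h5 : M < 2 ^ ((max k0 M) ^ 2) := by
      calc M < 2 ^ M := Nat.lt_two_pow_self
        _ ≤ 2 ^ ((max k0 M) ^ 2) := by
          apply Nat.pow_le_pow_right (by norm_num)
          calc M ≤ max k0 M := le_max_right _ _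
            _ ≤ (max k0 M) ^ 2 := Nat.le_self_pow (by norm_num) _
    omega
  · intro X hX k hk hall
    exact no_config hpos hfree hcfg X hX k hk hall
  · intro ε hε
    rw [hexp]
    set ε' := min ε α with hε'
    have hε'0 : 0 < ε' := lt_min hε hα0
    have hε'1 : ε' ≤ ε := min_le_left _ _
    have hε'2 : ε' ≤ α := min_le_right _ _
    obtain ⟨k1, hk1⟩ := exists_nat_ge (23 / ε')
    set k2 := max k0 k1 with hk2
    filter_upwards [Filter.eventually_ge_atTop (2 ^ (k2 ^ 2 + 1))] with n hn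
    have hn1 : 1 ≤ n := le_trans Nat.one_le_two_pow hn
    have hn1' : (1 : ℝ) ≤ n := by exact_mod_cast hn1
    set L := Nat.log 2 n with hL
    have hL1 : k2 ^ 2 + 1 ≤ L := Nat.le_log_of_pow_le (by norm_num) hn
    set k := Nat.sqrt (L - 1) with hkdef
    have hkk : k2 ≤ k := by
      rw [hkdef, Nat.le_sqrt']; omega
    have hks : k ^ 2 + 1 ≤ L := by
      have : k ^ 2 ≤ L - 1 := by rw [hkdef]; exact Nat.sqrt_le' _
      omega
    have hks2 : L ≤ (k + 1) ^ 2 := by
      have : L - 1 < (k + 1) ^ 2 := by rw [hkdef]; exact Nat.lt_succ_sqrt' _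
      omega
    have hnlow : 2 ^ (k ^ 2 + 1) ≤ n :=
      (Nat.pow_le_pow_right (by norm_num) hks).trans (Nat.pow_log_le_self 2 (by omega))
    have hnup : n ≤ 2 ^ ((k + 1) ^ 2 + 1) := by
      have h1 : n < 2 ^ (L + 1) := Nat.lt_pow_succ_log_self (by norm_num) n
      exact h1.le.trans (Nat.pow_le_pow_right (by norm_num) (by omega))
    have hk0k : k0 ≤ k := (le_max_left _ _).trans hkk
    have hd := hdens k hk0k
    have hsub : ((fun n : ℕ => (n : ℤ)) '' (A ∩ Set.Ico (2 ^ (k ^ 2)) (2 ^ (k ^ 2 + 1)))) ⊆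
        ((fun n : ℕ => (n : ℤ)) '' A) ∩ Set.Icc (1 : ℤ) (n : ℤ) := by
      rintro _ ⟨m, ⟨hm, hm1, hm2⟩, rfl⟩
      refine ⟨⟨m, hm, rfl⟩, ?_, ?_⟩
      · have := hpos m hm
        simp only
        omega
      · simp only
        have : m < n := lt_of_lt_of_le hm2 hnlow
        omega
    have hcard : (A ∩ Set.Ico (2 ^ (k ^ 2)) (2 ^ (k ^ 2 + 1))).ncard ≤
        (((fun n : ℕ => (n : ℤ)) '' A) ∩ Set.Icc (1 : ℤ) (n : ℤ)).ncard := by
      calc (A ∩ Set.Ico (2 ^ (k ^ 2)) (2 ^ (k ^ 2 + 1))).ncard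
          = ((fun n : ℕ => (n : ℤ)) '' (A ∩ Set.Ico (2 ^ (k ^ 2)) (2 ^ (k ^ 2 + 1)))).ncard := by
            rw [Set.ncard_image_of_injective _ (fun x y h => by exact_mod_cast h)]
        _ ≤ _ := Set.ncard_le_ncard hsub ((Set.finite_Icc _ _).subset Set.inter_subset_right)
    have hcard' : ((A ∩ Set.Ico (2 ^ (k ^ 2)) (2 ^ (k ^ 2 + 1))).ncard : ℝ) ≤
        ((((fun n : ℕ => (n : ℤ)) '' A) ∩ Set.Icc (1 : ℤ) (n : ℤ)).ncard : ℝ) := by
      exact_mod_cast hcard
    refine le_trans ?_ (hd.trans hcard')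
    have hkR : (k1 : ℝ) ≤ k := by exact_mod_cast (le_max_right _ _).trans hkk
    have hk1R : (1 : ℝ) ≤ k := by
      have : 3 ≤ k := hk03.trans hk0k
      exact_mod_cast (by omega : 1 ≤ k)
    have h23 : 23 ≤ ε' * k := by
      have := hk1.trans hkR
      rw [div_le_iff₀ hε'0] at this
      linarith
    calc (n : ℝ) ^ (α - ε) ≤ (n : ℝ) ^ (α - ε') :=
          Real.rpow_le_rpow_of_exponent_le hn1' (by linarith)
      _ ≤ ((2 ^ ((k + 1) ^ 2 + 1) : ℕ) : ℝ) ^ (α - ε') :=
          Real.rpow_le_rpow (by positivity) (by exact_mod_cast hnup) (by linarith)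
      _ = (2 : ℝ) ^ ((((k : ℝ) + 1) ^ 2 + 1) * (α - ε')) := by
          push_cast
          rw [← Real.rpow_natCast, ← Real.rpow_mul (by norm_num)]
          push_cast
          rfl
      _ ≤ _ := by
          apply Real.rpow_le_rpow_of_exponent_le (by norm_num)
          nlinarith [mul_nonneg hε'0.le (by linarith : (0 : ℝ) ≤ k), mul_le_mul_of_nonneg_right h23
            (by linarith : (0 : ℝ) ≤ (k : ℝ))]

end Pool.Agent.S11655
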