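import Pool.Statements.S11675
import Pool.Agent.R525.SubsetSumAll

set_option autoImplicit false
open Pool Pool.MP_d40e3c_co

namespace Pool.Agent.S11675

/-- There is a real c > 1/9 such that for all large m, every m-element subset of an abelian group with no nonempty subset summing to zero has at least ⌈c m²⌉ distinct nonempty subset sums. -/
theorem result :
    ∃ c : ℝ, 1 / 9 < c ∧ ∃ M : ℕ, ∀ m : ℕ, M ≤ m →
      ∀ (G : Type) [AddCommGroup G] [DecidableEq G] (A : Finset G),
        A.card = m →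
        (∀ B ⊆ A, B.Nonempty → ∑ x ∈ B, x ≠ 0) →
        ⌈c * ((m : ℝ) ^ 2)⌉ ≤
          (((A.powerset.erase ∅).image (fun B => ∑ x ∈ B, x)).card : ℤ) := by
  obtain ⟨M, hM⟩ := Pool.Agent.R525.SubsetSumAll.main_all
  refine ⟨1 / 2, by norm_num, M, ?_⟩
  intro m hm G _ _ A hA hZ
  have h1 := hM G A hZ (by rw [hA]; exact hm)
  rw [hA] at h1
  have h2 : A.subsetSum.card ≤ ((A.powerset.erase ∅).image (fun B => ∑ x ∈ B, x)).card + 1 := by
    have h3 : A.subsetSum ⊆ insert 0 ((A.powerset.erase ∅).image (fun B => ∑ x ∈ B, x)) := by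
      intro s hs
      rw [Finset.mem_subsetSum_iff] at hs
      obtain ⟨B, hB, rfl⟩ := hs
      by_cases hne : B = ∅
      · rw [hne, Finset.sum_empty]
        exact Finset.mem_insert_self _ _
      · exact Finset.mem_insert_of_mem (Finset.mem_image.2
          ⟨B, Finset.mem_erase.2 ⟨hne, Finset.mem_powerset.2 hB⟩, rfl⟩)
    exact (Finset.card_le_card h3).trans (Finset.card_insert_le _ _)
  have h4 : m ^ 2 / 2 + 1 ≤ ((A.powerset.erase ∅).image (fun B => ∑ x ∈ B, x)).card := by omega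
  have h5 : m ^ 2 < 2 * (m ^ 2 / 2) + 2 := by omega
  rw [Int.ceil_le]
  generalize m ^ 2 / 2 = q at h4 h5
  generalize ((A.powerset.erase ∅).image (fun B => ∑ x ∈ B, x)).card = r at h4 ⊢
  have h6 : (m : ℝ) ^ 2 < 2 * (q : ℝ) + 2 := by exact_mod_cast h5
  have h7 : (q : ℝ) + 1 ≤ (r : ℝ) := by exact_mod_cast h4
  rw [Int.cast_natCast]
  linarith


end Pool.Agent.S11675
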