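import Pool.Statements.S11707
import Pool.Agent.R38.ThreeGraph4

set_option autoImplicit false
open Classical
open Pool Pool.MP_d61016_co

namespace Pool.Agent.S11707

/-- Every finite three-graph A embeds as an induced substructure in some finite three-graph B such that every partial automorphism of A extends to an automorphism of B. -/
theorem result :
    ∀ (n : ℕ) (rA : Fin n → Fin n → Prop) (HA : Finset (Finset (Fin n))),
      (Equivalence rA ∧ (∀ a b c, rA a b ∨ rA b c ∨ rA a c) ∧
        (∀ e ∈ HA, e.card = 4 ∧ ∀ v ∈ e, (e.filter (fun w => rA v w)).card = 2) ∧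
        (∀ S : Finset (Fin n), S.card = 5 →
          (∀ v ∈ S, (S.filter (fun w => rA v w)).card ≤ 3) →
          Even (HA.filter (fun e => e ⊆ S)).card)) →
      ∃ (m : ℕ) (rB : Fin m → Fin m → Prop) (HB : Finset (Finset (Fin m))),
        (Equivalence rB ∧ (∀ a b c, rB a b ∨ rB b c ∨ rB a c) ∧
          (∀ e ∈ HB, e.card = 4 ∧ ∀ v ∈ e, (e.filter (fun w => rB v w)).card = 2) ∧
          (∀ S : Finset (Fin m), S.card = 5 →
            (∀ v ∈ S, (S.filter (fun w => rB v w)).card ≤ 3) →
            Even (HB.filter (fun e => e ⊆ S)).card)) ∧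
        ∃ f : Fin n ↪ Fin m,
          (∀ x y, rA x y ↔ rB (f x) (f y)) ∧
          (∀ e : Finset (Fin n), e ∈ HA ↔ e.map f ∈ HB) ∧
          ∀ (S : Finset (Fin n)) (p : Fin n → Fin n),
            Set.InjOn p (S : Set (Fin n)) →
            (∀ x ∈ S, ∀ y ∈ S, rA x y ↔ rA (p x) (p y)) →
            (∀ e ⊆ S, e ∈ HA ↔ e.image p ∈ HA) →
            ∃ σ : Fin m ≃ Fin m,
              (∀ x y, rB x y ↔ rB (σ x) (σ y)) ∧
              (∀ e : Finset (Fin m), e ∈ HB ↔ e.map σ.toEmbedding ∈ HB) ∧
              ∀ x ∈ S, σ (f x) = f (p x) := by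
  intro n rA HA hA
  obtain ⟨hr, h2, hH, hE⟩ := hA
  -- the sides
  obtain ⟨sA, hs⟩ : ∃ sA : Fin n → Bool, ∀ x y, rA x y ↔ sA x = sA y := by
    by_cases hn : Nonempty (Fin n)
    · obtain ⟨x0⟩ := hn
      refine ⟨fun x => decide (rA x0 x), fun x y => ?_⟩
      constructor
      · intro h
        have : rA x0 x ↔ rA x0 y := ⟨fun h' => hr.trans h' h, fun h' => hr.trans h' (hr.symm h)⟩
        simp only [this]
      · intro h
        by_cases h1 : rA x0 x
        · have h3 : rA x0 y := by
            simp only [h1, decide_true] at h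
            exact of_decide_eq_true h.symm
          exact hr.trans (hr.symm h1) h3
        · have h3 : ¬ rA x0 y := by
            simp only [h1, decide_false] at h
            exact of_decide_eq_false h.symm
          rcases h2 x x0 y with h4 | h4 | h4
          · exact absurd (hr.symm h4) h1
          · exact absurd h4 h3
          · exact h4
    · refine ⟨fun _ => false, fun x => absurd ⟨x⟩ hn⟩
  have hr' : ∀ (e : Finset (Fin n)) (v : Fin n),
      (e.filter (fun w => rA v w)) = (e.filter (fun w => sA v = sA w)) := by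
    intro e v
    apply Finset.filter_congr
    intro w _
    exact hs v w
  have hH' : ∀ e ∈ HA, Agent.R38.ThreeGraph.Two sA e := by
    intro e he
    rw [← Agent.R38.ThreeGraph.two_iff]
    refine ⟨(hH e he).1, fun v hv => ?_⟩
    rw [← hr']
    exact (hH e he).2 v hv
  have hE' : ∀ (S : Finset (Fin n)) (b : Bool), Agent.R38.ThreeGraph.cnt sA b S = 3 →
      Agent.R38.ThreeGraph.cnt sA (!b) S = 2 → Even (HA.filter (fun e => e ⊆ S)).card := by
    intro S b h3 h2'
    apply hE S
    · rw [← Agent.R38.ThreeGraph.cnt_add sA b S]; omega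
    · intro v hv
      rw [hr', Agent.R38.ThreeGraph.filter_side]
      rcases Bool.eq_or_eq_not (sA v) b with h | h
      · rw [h]; omega
      · rw [h]; omega
  obtain ⟨HB, b1, b2, f, f1, f2, f3⟩ := Agent.R38.ThreeGraph.core sA HA hH' hE'
  -- transport to `Fin m`
  let B : Type := Agent.R38.ThreeGraph.Bt (Fin n)
  let E : B ≃ Fin (Fintype.card B) := Fintype.equivFin B
  let sC : Fin (Fintype.card B) → Bool := fun x => Agent.R38.ThreeGraph.sB (E.symm x)
  let HC : Finset (Finset (Fin (Fintype.card B))) :=
    Finset.univ.filter (fun e => e.map E.symm.toEmbedding ∈ HB)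
  have hHC : ∀ e, e ∈ HC ↔ e.map E.symm.toEmbedding ∈ HB := by
    intro e
    simp only [HC, Finset.mem_filter, Finset.mem_univ, true_and]
  have hsC : ∀ v, Agent.R38.ThreeGraph.sB (E.symm v) = xor (sC v) false := by
    intro v; rw [Bool.xor_false]
  have hTwo : ∀ e ∈ HC, Agent.R38.ThreeGraph.Two sC e := by
    intro e he
    have := b1 _ ((hHC e).mp he)
    rwa [Agent.R38.ThreeGraph.two_map E.symm.toEmbedding false hsC] at this
  refine ⟨Fintype.card B, fun x y => sC x = sC y, HC, ⟨?_, ?_, ?_, ?_⟩,
    f.trans E.toEmbedding, ?_, ?_, ?_⟩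
  · exact ⟨fun _ => rfl, fun h => h.symm, fun h h' => h.trans h'⟩
  · intro a b c
    have h3 : ∀ p q r : Bool, p = q ∨ q = r ∨ p = r := by decide
    exact h3 _ _ _
  · intro e he
    have h := (Agent.R38.ThreeGraph.two_iff sC e).mpr (hTwo e he)
    refine ⟨h.1, fun v hv => ?_⟩
    convert h.2 v hv
  · intro S h5 h3
    obtain ⟨b, hb3, hb2⟩ := Agent.R38.ThreeGraph.cnt_cases (side := sC) h5
      (fun v hv => by convert h3 v hv)
    have hb3' : Agent.R38.ThreeGraph.cnt Agent.R38.ThreeGraph.sB b
        (S.map E.symm.toEmbedding) = 3 := by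
      rw [Agent.R38.ThreeGraph.cnt_map E.symm.toEmbedding b false hsC, Bool.xor_false]
      exact hb3
    have hb2' : Agent.R38.ThreeGraph.cnt Agent.R38.ThreeGraph.sB (!b)
        (S.map E.symm.toEmbedding) = 2 := by
      rw [Agent.R38.ThreeGraph.cnt_map E.symm.toEmbedding (!b) false hsC, Bool.xor_false]
      exact hb2
    have h := b2 _ b hb3' hb2'
    have hc : (HC.filter (fun e => e ⊆ S)).card =
        (HB.filter (fun e => e ⊆ S.map E.symm.toEmbedding)).card := by
      apply Finset.card_bij (fun e _ => e.map E.symm.toEmbedding)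
      · intro e he
        have he' := Finset.mem_filter.mp he
        exact Finset.mem_filter.mpr ⟨(hHC e).mp he'.1, Finset.map_subset_map.mpr he'.2⟩
      · intro e1 _ e2 _ h12
        exact Finset.map_injective _ h12
      · intro e he
        have he' := Finset.mem_filter.mp he
        have h1 : (e.map E.toEmbedding).map E.symm.toEmbedding = e := by
          rw [Finset.map_map]
          ext x
          simp
        refine ⟨e.map E.toEmbedding, Finset.mem_filter.mpr ⟨?_, ?_⟩, h1⟩
        · rw [hHC, h1]; exact he'.1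
        · have h2 := he'.2
          rw [← h1] at h2
          exact Finset.map_subset_map.mp h2
    rw [hc]
    exact h
  · intro x y
    rw [hs]
    simp only [sC, Function.Embedding.trans_apply, Equiv.coe_toEmbedding, Equiv.symm_apply_apply,
      f1]
  · intro e
    rw [hHC, f2]
    have : (e.map (f.trans E.toEmbedding)).map E.symm.toEmbedding = e.map f := by
      rw [Finset.map_map]
      congr 1
      exact DFunLike.ext _ _ fun x => E.symm_apply_apply _
    rw [this]
  · intro S p hp hrp hep
    obtain ⟨σ, s1, s2, s3⟩ := f3 S p hp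
      (fun x hx y hy => by rw [← hs, ← hs]; exact hrp x hx y hy)
      (fun e he => by convert hep e he)
    refine ⟨(E.symm.trans σ).trans E, ?_, ?_, ?_⟩
    · intro x y
      simp only [sC, Equiv.trans_apply, Equiv.symm_apply_apply]
      exact s1 _ _
    · intro e
      rw [hHC, hHC, s2]
      have : (e.map ((E.symm.trans σ).trans E).toEmbedding).map E.symm.toEmbedding =
          (e.map E.symm.toEmbedding).map σ.toEmbedding := by
        rw [Finset.map_map, Finset.map_map]
        congr 1
        exact DFunLike.ext _ _ fun x => E.symm_apply_apply _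
      rw [this]
    · intro x hx
      simp only [Equiv.trans_apply, Function.Embedding.trans_apply, Equiv.coe_toEmbedding,
        Equiv.symm_apply_apply]
      rw [s3 x hx]

end Pool.Agent.S11707
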