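import Pool.Statements.S11816

set_option autoImplicit false
open Pool Pool.MP_daf6f7_co

namespace Pool.Agent.S11816

/-- The nine vertices of the Schrijver graph `SG (6, 2)`: two-element subsets of a six-cycle that
contain no two neighbours. -/
def P : Fin 9 → Fin 6 × Fin 6 :=
  ![(0, 2), (0, 3), (0, 4), (1, 3), (1, 4), (1, 5), (2, 4), (2, 5), (3, 5)]

/-- Adjacency: the two pairs are disjoint. -/
abbrev adj (i j : Fin 9) : Prop :=
  (P i).1 ≠ (P j).1 ∧ (P i).1 ≠ (P j).2 ∧ (P i).2 ≠ (P j).1 ∧ (P i).2 ≠ (P j).2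

/-- The dual hypergraph: the edge `E i` is the set of all edges of the graph at the vertex `i`. -/
def E (i : Fin 9) : Finset (Fin 9 × Fin 9) :=
  Finset.univ.filter (fun v => v.1 < v.2 ∧ adj v.1 v.2 ∧ (v.1 = i ∨ v.2 = i))

theorem mem_E {i : Fin 9} {v : Fin 9 × Fin 9} :
    v ∈ E i ↔ v.1 < v.2 ∧ adj v.1 v.2 ∧ (v.1 = i ∨ v.2 = i) := by
  simp [E]

theorem adj_symm {i j : Fin 9} (h : adj i j) : adj j i :=
  ⟨h.1.symm, h.2.2.1.symm, h.2.1.symm, h.2.2.2.symm⟩

theorem adj_irrefl (i : Fin 9) : ¬ adj i i := fun h => h.1 rfl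

/-- Non-adjacent different vertices have disjoint hyperedges. -/
theorem disj {i j : Fin 9} (hij : i ≠ j) (h : ¬ adj i j) : Disjoint (E i) (E j) := by
  rw [Finset.disjoint_left]
  intro v hi hj
  rw [mem_E] at hi hj
  obtain ⟨h1, h2, h3⟩ := hi
  obtain ⟨-, -, h4⟩ := hj
  rcases h3 with h3 | h3 <;> rcases h4 with h4 | h4
  · exact hij (h3.symm.trans h4)
  · rw [h3, h4] at h2; exact h h2
  · rw [h3, h4] at h2; exact h (adj_symm h2)
  · exact hij (h3.symm.trans h4)

/-- Adjacent vertices share a vertex of the dual hypergraph. -/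
theorem share {i j : Fin 9} (h : adj i j) : ∃ v, v ∈ E i ∧ v ∈ E j := by
  rcases lt_trichotomy i j with hl | hl | hl
  · exact ⟨(i, j), mem_E.2 ⟨hl, h, Or.inl rfl⟩, mem_E.2 ⟨hl, h, Or.inr rfl⟩⟩
  · exact absurd (hl ▸ h) (adj_irrefl _)
  · exact ⟨(j, i), mem_E.2 ⟨hl, adj_symm h, Or.inr rfl⟩, mem_E.2 ⟨hl, adj_symm h, Or.inl rfl⟩⟩

theorem deg_le (S : Finset (Fin 9)) (v : Fin 9 × Fin 9) :
    (S.filter (fun i => v ∈ E i)).card ≤ 2 := by
  have h : S.filter (fun i => v ∈ E i) ⊆ {v.1, v.2} := by
    intro i hi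
    rw [Finset.mem_filter, mem_E] at hi
    simp only [Finset.mem_insert, Finset.mem_singleton]
    rcases hi.2.2.2 with h | h
    · exact Or.inl h.symm
    · exact Or.inr h.symm
  exact (Finset.card_le_card h).trans Finset.card_le_two

set_option synthInstance.maxSize 2000 in
theorem no3 : ∀ c0 c3 : Fin 3, c0 ≠ c3 → ∀ c4 : Fin 3, c0 ≠ c4 → ∀ c5, c0 ≠ c5 →
    ∀ c8, c0 ≠ c8 → c4 ≠ c8 → ∀ c1, c1 ≠ c4 → c1 ≠ c5 → ∀ c6, c1 ≠ c6 → c3 ≠ c6 → c5 ≠ c6 →
      c6 ≠ c8 → ∀ c7, c1 ≠ c7 → c3 ≠ c7 → c4 ≠ c7 → ∀ c2, c2 ≠ c3 → c2 ≠ c5 → c2 ≠ c7 →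
      c2 ≠ c8 → False := by
  decide

/-- The hypergraph has no proper edge-colouring with three colours. -/
theorem no_col (c : Fin 9 → Fin 3) : ∃ i j, adj i j ∧ c i = c j := by
  by_contra hcon
  push Not at hcon
  exact no3 (c 0) (c 3) (hcon 0 3 (by decide)) (c 4) (hcon 0 4 (by decide)) (c 5)
    (hcon 0 5 (by decide)) (c 8) (hcon 0 8 (by decide)) (hcon 4 8 (by decide)) (c 1)
    (hcon 1 4 (by decide)) (hcon 1 5 (by decide)) (c 6) (hcon 1 6 (by decide))
    (hcon 3 6 (by decide)) (hcon 5 6 (by decide)) (hcon 6 8 (by decide)) (c 7)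
    (hcon 1 7 (by decide)) (hcon 3 7 (by decide)) (hcon 4 7 (by decide)) (c 2)
    (hcon 2 3 (by decide)) (hcon 2 5 (by decide)) (hcon 2 7 (by decide)) (hcon 2 8 (by decide))

/-- The star of `k`: the pairs that contain `k`. -/
abbrev inStar (k : Fin 6) (i : Fin 9) : Prop := (P i).1 = k ∨ (P i).2 = k

theorem star_card : ∀ i : Fin 9, (Finset.univ.filter (fun k => inStar k i)).card = 2 := by
  decide

/-- Some star contains a third of `S`. -/
theorem exists_star (S : Finset (Fin 9)) :
    ∃ k : Fin 6, S.card ≤ (S.filter (fun i => inStar k i)).card * 3 := by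
  by_contra hcon
  push Not at hcon
  have h1 : ∑ k : Fin 6, (S.filter (fun i => inStar k i)).card = 2 * S.card := by
    have h2 : ∀ k : Fin 6, (S.filter (fun i => inStar k i)).card
        = ∑ i ∈ S, if inStar k i then 1 else 0 := by
      intro k
      rw [Finset.card_filter]
    simp_rw [h2]
    rw [Finset.sum_comm]
    have h3 : ∀ i ∈ S, (∑ k : Fin 6, if inStar k i then 1 else 0) = 2 := by
      intro i _
      rw [← star_card i, Finset.card_filter]
    rw [Finset.sum_congr rfl h3]
    simp [mul_comm]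
  have h4 : ∑ k : Fin 6, (S.filter (fun i => inStar k i)).card * 3 < ∑ k : Fin 6, S.card :=
    Finset.sum_lt_sum_of_nonempty Finset.univ_nonempty (fun k _ => hcon k)
  rw [← Finset.sum_mul, h1] at h4
  simp at h4
  omega

theorem final {s : ℕ} (c : Fin 9 → Fin (s + 1)) (hs : s ≤ 2)
    (hc : ∀ i j, i ≠ j → c i = c j → Disjoint (E i) (E j)) : False := by
  have hlt : ∀ i, (c i).val < 3 := fun i => by
    have := (c i).isLt
    omega
  obtain ⟨i, j, hij, hcij⟩ := no_col (fun i => ⟨(c i).val, hlt i⟩)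
  have h1 : c i = c j := Fin.ext (Fin.mk.inj hcij)
  have hne : i ≠ j := fun h => adj_irrefl j (h ▸ hij)
  obtain ⟨v, hvi, hvj⟩ := share hij
  exact Finset.disjoint_left.1 (hc i j hne h1) hvi hvj

/-- The negation of the preceding statement: For any finite hypergraph (edges may repeat) in which every subfamily of edges has a matching of size at least its edge count divided by its max degree plus one, the edges can be colored with max degree plus one colors so same-colored edges are disjoint. -/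
theorem result :
    ¬ (∀ (V : Type) [Fintype V] [DecidableEq V] (m : ℕ) (e : Fin m → Finset V),
    (∀ i, (e i).Nonempty) →
    (∀ S : Finset (Fin m), ∃ M ⊆ S,
        (∀ i ∈ M, ∀ j ∈ M, i ≠ j → Disjoint (e i) (e j)) ∧
        S.card ≤ M.card *
          (Finset.univ.sup (fun v : V => (S.filter (fun i => v ∈ e i)).card) + 1)) →
    ∃ c : Fin m → Fin (Finset.univ.sup
        (fun v : V => (Finset.univ.filter (fun i : Fin m => v ∈ e i)).card) + 1),
      ∀ i j, i ≠ j → c i = c j → Disjoint (e i) (e j)) := by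
  intro H
  obtain ⟨c, hc⟩ := H (Fin 9 × Fin 9) 9 E
    (by
      intro i
      have : ∀ i : Fin 9, ∃ j, adj i j := by decide
      obtain ⟨j, hj⟩ := this i
      obtain ⟨v, hv, -⟩ := share hj
      exact ⟨v, hv⟩)
    (by
      intro S
      by_cases hS : ∃ i ∈ S, ∃ j ∈ S, adj i j
      · obtain ⟨i, hi, j, hj, hij⟩ := hS
        obtain ⟨k, hk⟩ := exists_star S
        refine ⟨S.filter (fun i => inStar k i), Finset.filter_subset _ _, ?_, ?_⟩
        · intro a ha b hb hab
          rw [Finset.mem_filter] at ha hb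
          refine disj hab (fun h => ?_)
          rcases ha.2 with h1 | h1 <;> rcases hb.2 with h2 | h2
          · exact h.1 (h1.trans h2.symm)
          · exact h.2.1 (h1.trans h2.symm)
          · exact h.2.2.1 (h1.trans h2.symm)
          · exact h.2.2.2 (h1.trans h2.symm)
        · obtain ⟨v, hvi, hvj⟩ := share hij
          have h2 : 2 ≤ Finset.univ.sup
              (fun v : Fin 9 × Fin 9 => (S.filter (fun i => v ∈ E i)).card) := by
            refine le_trans ?_ (Finset.le_sup (f := fun v : Fin 9 × Fin 9 =>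
              (S.filter (fun i => v ∈ E i)).card) (Finset.mem_univ v))
            have hne : i ≠ j := fun h => adj_irrefl j (h ▸ hij)
            rw [← Finset.card_pair hne]
            apply Finset.card_le_card
            intro a ha
            simp only [Finset.mem_insert, Finset.mem_singleton] at ha
            rw [Finset.mem_filter]
            rcases ha with rfl | rfl
            · exact ⟨hi, hvi⟩
            · exact ⟨hj, hvj⟩
          exact hk.trans (Nat.mul_le_mul_left _ (by omega))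
      · push Not at hS
        refine ⟨S, Finset.Subset.refl _, fun i hi j hj hij => disj hij (hS i hi j hj), ?_⟩
        exact Nat.le_mul_of_pos_right _ (Nat.succ_pos _))
  exact final c (Finset.sup_le (fun v _ => deg_le _ v)) hc

end Pool.Agent.S11816
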