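import Pool.Statements.S11882
import Pool.Agent.R178.CubeMain
-- import your own Pool.Agent.* helpers here

set_option autoImplicit false
open Pool Pool.MP_dd5568_co

namespace Pool.Agent.S11882

/-- The negation of the preceding statement: There is γ>0 such that for every n, every face-to-face triangulation of the unit n-cube into n-simplices with cube vertices (hulls cover the cube, any two meet in the hull of their common vertices) has at least γ^n·n! simplices. -/
theorem result :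
    ¬ (∃ γ : ℝ, 0 < γ ∧ ∀ n : ℕ, ∀ T : Finset (Finset (Fin n → ℝ)),
      (∀ S ∈ T, S.card = n + 1 ∧
        AffineIndependent ℝ (fun x : S => (x : Fin n → ℝ)) ∧
        ∀ v ∈ S, ∀ i : Fin n, v i = 0 ∨ v i = 1) →
      (⋃ S ∈ T, convexHull ℝ (↑S : Set (Fin n → ℝ))) = Set.Icc (0 : Fin n → ℝ) 1 →
      (∀ S ∈ T, ∀ S' ∈ T,
        convexHull ℝ (↑S : Set (Fin n → ℝ)) ∩ convexHull ℝ (↑S' : Set (Fin n → ℝ)) =
          convexHull ℝ (↑(S ∩ S') : Set (Fin n → ℝ))) →
      γ ^ n * (n.factorial : ℝ) ≤ (T.card : ℝ)) := by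
  rintro ⟨γ, hγ, H⟩
  have hlim := FloorSemiring.tendsto_pow_div_factorial_atTop (Real.pi ^ 2 / γ ^ 2)
  obtain ⟨n, hn⟩ := (hlim.eventually (gt_mem_nhds (zero_lt_one))).exists
  have hfac : (0:ℝ) < (n.factorial : ℝ) := by positivity
  rw [div_lt_one hfac] at hn
  obtain ⟨T, h1, h2, h3, h4⟩ := Pool.R178.exists_small_triangulation n
  have h5 := (H n T h1 h2 (fun S hS S' hS' => by
    convert h3 S hS S' hS')).trans h4
  have hsq : Real.sqrt ((n.factorial : ℝ) / (n + 1)) ≤ Real.sqrt (n.factorial : ℝ) := by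
    apply Real.sqrt_le_sqrt
    apply div_le_self hfac.le
    have : (0:ℝ) ≤ n := Nat.cast_nonneg n
    linarith
  have h6 : γ ^ n * (n.factorial : ℝ) ≤ Real.pi ^ n * Real.sqrt (n.factorial : ℝ) :=
    h5.trans (mul_le_mul_of_nonneg_left hsq (by positivity))
  have h7 : γ ^ n * Real.sqrt (n.factorial : ℝ) ≤ Real.pi ^ n := by
    have hs : 0 < Real.sqrt (n.factorial : ℝ) := Real.sqrt_pos.2 hfac
    have hss : Real.sqrt (n.factorial : ℝ) * Real.sqrt (n.factorial : ℝ) = (n.factorial : ℝ) :=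
      Real.mul_self_sqrt hfac.le
    have h6' : γ ^ n * Real.sqrt (n.factorial : ℝ) * Real.sqrt (n.factorial : ℝ) ≤
        Real.pi ^ n * Real.sqrt (n.factorial : ℝ) := by
      rw [mul_assoc, hss]; exact h6
    exact le_of_mul_le_mul_right h6' hs
  have h8 : (n.factorial : ℝ) ≤ (Real.pi ^ 2 / γ ^ 2) ^ n := by
    have h9 : (γ ^ n * Real.sqrt (n.factorial : ℝ)) ^ 2 ≤ (Real.pi ^ n) ^ 2 :=
      pow_le_pow_left₀ (by positivity) h7 2
    rw [mul_pow, Real.sq_sqrt hfac.le] at h9
    rw [div_pow, le_div_iff₀ (by positivity), ← pow_mul, ← pow_mul, mul_comm 2 n, pow_mul, pow_mul]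
    linarith
  linarith

end Pool.Agent.S11882
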