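-- Proof of the frozen statement S11888 (negation form of problem MP_dd77b8_co).
import Pool.Statements.S11888
import Pool.Agent.Results.MP_dd77b8_co.RobustDisproof

set_option autoImplicit false
open Pool Pool.MP_dd77b8_co

namespace Pool.Agent.S11888

open Pool.Agent.Results.MP_dd77b8_co.RobustDisproof in
/-- The set of the frozen statement is the set `X n`. -/
theorem set_eq (n : ℕ) :
    {f : EuclideanSpace ℝ {T : Finset (Fin n) // T.card = 4} | ∃ g : Finset (Fin n) → ℝ,
              f = WithLp.toLp 2 (fun T : {T : Finset (Fin n) // T.card = 4} =>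
                    ∏ S ∈ T.1.powersetCard 3, g S) ∧ ‖f‖ = 1} =
      Pool.Agent.Results.MP_dd77b8_co.RobustDisproof.X n := by
  classical
  have key : ∀ (g : Sets n 3 → ℝ) (g' : Finset (Fin n) → ℝ), (∀ S : Sets n 3, g' S.1 = g S) →
      (WithLp.toLp 2 (fun T : {T : Finset (Fin n) // T.card = 4} =>
                    ∏ S ∈ T.1.powersetCard 3, g' S)
        : EuclideanSpace ℝ {T : Finset (Fin n) // T.card = 4}) = prodFun g := by
    intro g g' h
    unfold prodFun
    congr 1
    funext T
    have h1 : (Finset.univ.filter (fun S : Sets n 3 => S.1 ⊆ T.1)).map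
          (Function.Embedding.subtype _) = T.1.powersetCard 3 := by
        ext U
        simp only [Finset.mem_map, Finset.mem_filter, Finset.mem_univ, true_and,
          Function.Embedding.subtype_apply, Finset.mem_powersetCard]
        constructor
        · rintro ⟨S, hS, rfl⟩; exact ⟨hS, S.2⟩
        · rintro ⟨h1, h2⟩; exact ⟨⟨U, h2⟩, h1, rfl⟩
    rw [← h1, Finset.prod_map]
    apply Finset.prod_congr rfl
    intro S _
    exact h S
  ext f
  constructor
  · rintro ⟨g, hf, hn⟩
    exact ⟨⟨fun S => g S.1, by rw [hf]; exact key _ _ (fun S => rfl)⟩, hn⟩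
  · rintro ⟨⟨g, hf⟩, hn⟩
    refine ⟨fun S => if h : S.card = 3 then g ⟨S, h⟩ else 0, ?_, hn⟩
    rw [hf]
    refine (key g _ ?_).symm
    intro S
    simp only [S.2, dif_pos]

/-- The negation of the preceding statement: For all large n, any way of writing the unit-norm vectors f_g of U_{4,n} in R^{C(n,4)} as a union of m sets, each of diameter below that of the whole set, needs m ≥ exp(C(n,4)^{4/5}). -/
theorem result :
    ¬ (∃ N : ℕ, ∀ n : ℕ, N ≤ n →
      ∀ X : Set (EuclideanSpace ℝ {T : Finset (Fin n) // T.card = 4}),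
        X = {f | ∃ g : Finset (Fin n) → ℝ,
              f = WithLp.toLp 2 (fun T : {T : Finset (Fin n) // T.card = 4} =>
                    ∏ S ∈ T.1.powersetCard 3, g S) ∧ ‖f‖ = 1} →
        ∀ m : ℕ, ∀ A : Fin m → Set (EuclideanSpace ℝ {T : Finset (Fin n) // T.card = 4}),
          (⋃ i, A i) = X →
          (∀ i, Metric.diam (A i) < Metric.diam X) →
          Real.exp (((n.choose 4 : ℕ) : ℝ) ^ ((4 : ℝ) / 5)) ≤ (m : ℝ)) := by
  rintro ⟨N, hN⟩
  have hn : 100 ≤ max N 100 := le_max_right _ _
  obtain ⟨h1, h2, -, -⟩ :=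
    Pool.Agent.Results.MP_dd77b8_co.RobustDisproof.result (max N 100) hn
  obtain ⟨b, ⟨⟨B, hB, hB'⟩, -⟩, hb⟩ := h1 _ (subset_refl _) h2
  have h3 := hN (max N 100) (le_max_left _ _) _ rfl b B (by rw [set_eq]; exact hB.symm)
    (by rw [set_eq]; exact hB')
  exact absurd h3 (not_le.2 hb)

end Pool.Agent.S11888
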