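import Pool.Statements.S11986
import Pool.Agent.R87.TensorPow

set_option autoImplicit false
open Filter Topology
open Pool Pool.MP_e10300_co

namespace Pool.Agent.S11986

open Pool.Agent.R87.BlowLimit Pool.Agent.R87.TensorPow

/-- Parameters: `q = j + 2`, `m = q + 1`, `r = q ^ 2`. -/
noncomputable def prob (j : ℕ) : ℝ := (1 - 1 / ((j : ℝ) + 3)) ^ ((j + 2) ^ 2)

theorem prob_pos (j : ℕ) : 0 < prob j := by
  unfold prob
  apply pow_pos
  rw [sub_pos, div_lt_one (by positivity)]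
  have : (0 : ℝ) ≤ j := Nat.cast_nonneg j
  linarith

theorem prob_le_one (j : ℕ) : prob j ≤ 1 := by
  unfold prob
  apply pow_le_one₀
  · rw [sub_nonneg, div_le_one (by positivity)]
    have : (0 : ℝ) ≤ j := Nat.cast_nonneg j
    linarith
  · have : (0 : ℝ) ≤ 1 / ((j : ℝ) + 3) := by positivity
    linarith

/-- The graph of words of length `(j+2)^2` over `j+3` letters. -/
abbrev Gam (j : ℕ) : SimpleGraph (Fin ((j + 2) ^ 2) → Fin (j + 3)) := tens (j + 3) ((j + 2) ^ 2)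

theorem card_pos' (j : ℕ) : 0 < (j + 3) ^ ((j + 2) ^ 2) := by positivity

noncomputable def enum (j : ℕ) : (Fin ((j + 2) ^ 2) → Fin (j + 3)) ≃ Fin ((j + 3) ^ ((j + 2) ^ 2)) :=
  Fintype.equivFinOfCardEq (by rw [Fintype.card_fun, Fintype.card_fin, Fintype.card_fin])

/-- The blowups. -/
noncomputable def gr (j n : ℕ) : SimpleGraph (Fin n) :=
  (Gam j).comap (per (card_pos' j) (enum j) n)

theorem gr_tendsto {W : Type} [Fintype W] [DecidableEq W] (F : SimpleGraph W) (j : ℕ) :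
    Tendsto (fun n : ℕ => (embs F (gr j n) : ℝ) / (n.descFactorial (Fintype.card W) : ℝ)) atTop
      (𝓝 (((homs F (⊤ : SimpleGraph (Fin (j + 3))) : ℝ) / ((j : ℝ) + 3) ^ Fintype.card W) ^
        ((j + 2) ^ 2))) := by
  have h := embs_tendsto F (Gam j) (card_pos' j) (enum j)
  have e : (homs F (Gam j) : ℝ) / (((j + 3) ^ ((j + 2) ^ 2) : ℕ) : ℝ) ^ Fintype.card W =
      ((homs F (⊤ : SimpleGraph (Fin (j + 3))) : ℝ) / ((j : ℝ) + 3) ^ Fintype.card W) ^
        ((j + 2) ^ 2) := by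
    rw [homs_tens F (by positivity)]
    push_cast
    rw [div_pow, ← pow_mul, ← pow_mul, mul_comm (Fintype.card W)]
  rw [e] at h
  exact h

/-- Normalised version. -/
theorem gr_tendsto_norm {W : Type} [Fintype W] [DecidableEq W] (F : SimpleGraph W) (j k e : ℕ)
    (hk : Fintype.card W = k) :
    Tendsto (fun n : ℕ => (embs F (gr j n) : ℝ) / ((n.descFactorial k : ℝ) * prob j ^ e)) atTop
      (𝓝 (((homs F (⊤ : SimpleGraph (Fin (j + 3))) : ℝ) / ((j : ℝ) + 3) ^ k /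
        (1 - 1 / ((j : ℝ) + 3)) ^ e) ^ ((j + 2) ^ 2))) := by
  have h := (gr_tendsto F j).div_const (prob j ^ e)
  rw [hk] at h
  have e1 : ((homs F (⊤ : SimpleGraph (Fin (j + 3))) : ℝ) / ((j : ℝ) + 3) ^ k) ^ ((j + 2) ^ 2) /
      prob j ^ e = ((homs F (⊤ : SimpleGraph (Fin (j + 3))) : ℝ) / ((j : ℝ) + 3) ^ k /
        (1 - 1 / ((j : ℝ) + 3)) ^ e) ^ ((j + 2) ^ 2) := by
    unfold prob
    rw [← pow_mul, mul_comm _ e, pow_mul, ← div_pow]
  rw [e1] at h
  refine h.congr (fun n => ?_)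
  rw [div_div]

theorem lim_two (j : ℕ) : (homs (⊤ : SimpleGraph (Fin 2)) (⊤ : SimpleGraph (Fin (j + 3))) : ℝ) /
    ((j : ℝ) + 3) ^ 2 / (1 - 1 / ((j : ℝ) + 3)) ^ 1 = 1 := by
  rw [homs_top]
  have h0 : (0 : ℝ) ≤ j := Nat.cast_nonneg j
  have h1 : (((j + 3).descFactorial 2 : ℕ) : ℝ) = ((j : ℝ) + 3) * (j + 2) := by
    simp [Nat.descFactorial]
    ring
  rw [h1]
  have h2 : (1 : ℝ) - 1 / ((j : ℝ) + 3) = ((j : ℝ) + 2) / (j + 3) := by field_simp; ring
  rw [h2]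
  field_simp

theorem lim_three (j : ℕ) :
    (homs (SimpleGraph.cycleGraph 3) (⊤ : SimpleGraph (Fin (j + 3))) : ℝ) /
    ((j : ℝ) + 3) ^ 3 / (1 - 1 / ((j : ℝ) + 3)) ^ 3 = 1 - 1 / ((j : ℝ) + 2) ^ 2 := by
  rw [SimpleGraph.cycleGraph_three_eq_top, homs_top]
  have h0 : (0 : ℝ) ≤ j := Nat.cast_nonneg j
  have h1 : (((j + 3).descFactorial 3 : ℕ) : ℝ) = ((j : ℝ) + 3) * (j + 2) * (j + 1) := by
    simp [Nat.descFactorial]
    ring
  rw [h1]
  have h2 : (1 : ℝ) - 1 / ((j : ℝ) + 3) = ((j : ℝ) + 2) / (j + 3) := by field_simp; ring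
  rw [h2]
  field_simp
  ring

theorem lim_four (j : ℕ) :
    (homs (SimpleGraph.cycleGraph 4) (⊤ : SimpleGraph (Fin (j + 3))) : ℝ) /
    ((j : ℝ) + 3) ^ 4 / (1 - 1 / ((j : ℝ) + 3)) ^ 4 = 1 + 1 / ((j : ℝ) + 2) ^ 3 := by
  rw [homs_cycle_four _ (by omega)]
  have h0 : (0 : ℝ) ≤ j := Nat.cast_nonneg j
  have h2 : (1 : ℝ) - 1 / ((j : ℝ) + 3) = ((j : ℝ) + 2) / (j + 3) := by field_simp; ring
  rw [h2]
  push_cast
  field_simp
  ring

theorem lim_bip (s t j : ℕ) :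
    ((homs (completeBipartiteGraph (Fin s) (Fin t)) (⊤ : SimpleGraph (Fin (j + 3))) : ℝ) /
      ((j : ℝ) + 3) ^ (s + t) / (1 - 1 / ((j : ℝ) + 3)) ^ (s * t)) ^ ((j + 2) ^ 2) ≤
    Real.exp ((t : ℝ) ^ 2 * (s : ℝ) ^ 2 * 2 ^ (s * t)) := by
  have h0 : (0 : ℝ) ≤ j := Nat.cast_nonneg j
  have h := bip_density s t (j + 3) (by omega)
  push_cast at h
  have hx : (1 : ℝ) / 2 ≤ 1 - 1 / ((j : ℝ) + 3) := by
    rw [le_sub_iff_add_le, ← le_sub_iff_add_le', div_le_iff₀ (by positivity)]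
    linarith
  have hxp : (1 / 2 : ℝ) ^ (s * t) ≤ (1 - 1 / ((j : ℝ) + 3)) ^ (s * t) :=
    pow_le_pow_left₀ (by norm_num) hx _
  have hpos : 0 < (1 - 1 / ((j : ℝ) + 3)) ^ (s * t) := lt_of_lt_of_le (by positivity) hxp
  set A := (homs (completeBipartiteGraph (Fin s) (Fin t)) (⊤ : SimpleGraph (Fin (j + 3))) : ℝ) /
      ((j : ℝ) + 3) ^ (s + t) with hA
  have hA0 : 0 ≤ A := by positivity
  set c : ℝ := (t : ℝ) ^ 2 * (s : ℝ) ^ 2 * 2 ^ (s * t) with hc
  have hc0 : 0 ≤ c := by positivity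
  have h1 : A / (1 - 1 / ((j : ℝ) + 3)) ^ (s * t) ≤ 1 + c / ((j : ℝ) + 3) ^ 2 := by
    rw [div_le_iff₀ hpos, add_mul, one_mul]
    refine h.trans (add_le_add_right ?_ _)
    have h2 : (t : ℝ) ^ 2 * (s : ℝ) ^ 2 / ((j : ℝ) + 3) ^ 2 =
        c / ((j : ℝ) + 3) ^ 2 * (1 / 2 : ℝ) ^ (s * t) := by
      rw [hc, one_div, inv_pow]
      field_simp
    rw [h2]
    exact mul_le_mul_of_nonneg_left hxp (by positivity)
  have h3 : 1 + c / ((j : ℝ) + 3) ^ 2 ≤ Real.exp (c / ((j : ℝ) + 3) ^ 2) := by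
    have := Real.add_one_le_exp (c / ((j : ℝ) + 3) ^ 2)
    linarith
  have h4 : (A / (1 - 1 / ((j : ℝ) + 3)) ^ (s * t)) ^ ((j + 2) ^ 2) ≤
      (Real.exp (c / ((j : ℝ) + 3) ^ 2)) ^ ((j + 2) ^ 2) :=
    pow_le_pow_left₀ (by positivity) (h1.trans h3) _
  refine h4.trans ?_
  rw [← Real.exp_nat_mul]
  apply Real.exp_le_exp.2
  push_cast
  rw [mul_div_assoc', div_le_iff₀ (by positivity)]
  have h5 : ((j : ℝ) + 2) ^ 2 ≤ ((j : ℝ) + 3) ^ 2 := by nlinarith
  nlinarith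


theorem growth (a : ℝ) (s : ℕ) (hs : 2 ≤ s) (c : ℝ) (hc : 0 < c) :
    Tendsto (fun n : ℕ => c / ((Real.log n) ^ a * (n : ℝ) ^ (-(1 / (s : ℝ))))) atTop atTop := by
  have hs' : (0 : ℝ) < 1 / (s : ℝ) := by
    have : (0 : ℝ) < s := by
      have : 0 < s := by omega
      exact_mod_cast this
    positivity
  have h1 : Tendsto (fun x : ℝ => Real.log x ^ a / x ^ (1 / (s : ℝ))) atTop (𝓝 0) :=
    (isLittleO_log_rpow_rpow_atTop a hs').tendsto_div_nhds_zero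
  have h2 : Tendsto (fun n : ℕ => Real.log n ^ a / (n : ℝ) ^ (1 / (s : ℝ))) atTop (𝓝 0) :=
    h1.comp tendsto_natCast_atTop_atTop
  have h3 : Tendsto (fun n : ℕ => (Real.log n) ^ a * (n : ℝ) ^ (-(1 / (s : ℝ)))) atTop
      (𝓝[>] 0) := by
    rw [tendsto_nhdsWithin_iff]
    constructor
    · refine h2.congr' ?_
      filter_upwards [eventually_gt_atTop 0] with n hn
      rw [Real.rpow_neg (Nat.cast_nonneg n), div_eq_mul_inv]
    · filter_upwards [eventually_gt_atTop 2] with n hn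
      have hn' : (1 : ℝ) < n := by
        have : 1 < n := by omega
        exact_mod_cast this
      have h4 : 0 < Real.log n := Real.log_pos hn'
      have h5 : (0 : ℝ) < n := by linarith
      exact mul_pos (Real.rpow_pos_of_pos h4 _) (Real.rpow_pos_of_pos h5 _)
  have h4 := h3.inv_tendsto_nhdsGT_zero
  have h5 := h4.const_mul_atTop hc
  refine h5.congr (fun n => ?_)
  rw [div_eq_mul_inv]
  rfl

theorem squeeze_one (x : ℕ → ℝ) (L : ℕ → ℝ) (J : ℕ → ℕ) (hJ : Tendsto J atTop atTop)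
    (hL : Tendsto L atTop (𝓝 1))
    (h : ∀ᶠ n in atTop, |x n - L (J n)| < 1 / ((J n : ℝ) + 1)) : Tendsto x atTop (𝓝 1) := by
  have h1 : Tendsto (fun n => L (J n)) atTop (𝓝 1) := hL.comp hJ
  have h2 : Tendsto (fun n => 1 / ((J n : ℝ) + 1)) atTop (𝓝 0) :=
    tendsto_one_div_add_atTop_nhds_zero_nat.comp hJ
  have h3 : Tendsto (fun n => x n - L (J n)) atTop (𝓝 0) := by
    rw [tendsto_zero_iff_abs_tendsto_zero]
    refine tendsto_of_tendsto_of_tendsto_of_le_of_le' tendsto_const_nhds h2 ?_ ?_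
    · exact Eventually.of_forall (fun n => abs_nonneg _)
    · filter_upwards [h] with n hn
      exact hn.le
  have h4 := h3.add h1
  rw [zero_add] at h4
  refine h4.congr (fun n => ?_)
  ring

theorem L4_tendsto : Tendsto (fun j : ℕ => (1 + 1 / ((j : ℝ) + 2) ^ 3) ^ ((j + 2) ^ 2)) atTop
    (𝓝 1) := by
  have hup : Tendsto (fun j : ℕ => Real.exp (1 / ((j : ℝ) + 1))) atTop (𝓝 1) := by
    have h1 : Tendsto (fun j : ℕ => 1 / ((j : ℝ) + 1)) atTop (𝓝 0) :=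
      tendsto_one_div_add_atTop_nhds_zero_nat
    have h2 := (Real.continuous_exp.tendsto 0).comp h1
    rw [Real.exp_zero] at h2
    exact h2
  refine tendsto_of_tendsto_of_tendsto_of_le_of_le tendsto_const_nhds hup ?_ ?_
  · intro j
    apply one_le_pow₀
    have : (0 : ℝ) ≤ 1 / ((j : ℝ) + 2) ^ 3 := by positivity
    linarith
  · intro j
    have h0 : (0 : ℝ) ≤ j := Nat.cast_nonneg j
    have h3 : 1 + 1 / ((j : ℝ) + 2) ^ 3 ≤ Real.exp (1 / ((j : ℝ) + 2) ^ 3) := by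
      have := Real.add_one_le_exp (1 / ((j : ℝ) + 2) ^ 3)
      linarith
    have h4 := pow_le_pow_left₀ (by positivity) h3 ((j + 2) ^ 2)
    refine h4.trans ?_
    rw [← Real.exp_nat_mul]
    apply Real.exp_le_exp.2
    push_cast
    rw [mul_one_div, div_le_div_iff₀ (by positivity) (by positivity)]
    have : 0 ≤ ((j : ℝ) + 2) ^ 2 := by positivity
    nlinarith

theorem L3_le (j : ℕ) : (1 - 1 / ((j : ℝ) + 2) ^ 2) ^ ((j + 2) ^ 2) ≤ 0.4 := by
  have h0 : (0 : ℝ) ≤ j := Nat.cast_nonneg j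
  have h1 : 0 ≤ 1 - 1 / ((j : ℝ) + 2) ^ 2 := by
    rw [sub_nonneg, div_le_one (by positivity)]
    nlinarith
  have h3 : 1 - 1 / ((j : ℝ) + 2) ^ 2 ≤ Real.exp (-(1 / ((j : ℝ) + 2) ^ 2)) := by
    have := Real.add_one_le_exp (-(1 / ((j : ℝ) + 2) ^ 2))
    linarith
  have h4 := pow_le_pow_left₀ h1 h3 ((j + 2) ^ 2)
  refine h4.trans ?_
  rw [← Real.exp_nat_mul]
  push_cast
  have h5 : ((j : ℝ) + 2) ^ 2 * -(1 / ((j : ℝ) + 2) ^ 2) = -1 := by field_simp
  rw [h5, Real.exp_neg]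
  have h6 : (2.7182818283 : ℝ) < Real.exp 1 := Real.exp_one_gt_d9
  rw [inv_le_comm₀ (Real.exp_pos 1) (by norm_num)]
  norm_num at h6 ⊢
  linarith

/-- The negation of the frozen statement. -/
theorem result :
    ¬ (∃ s : ℕ, 2 ≤ s ∧ ∃ a : ℝ, 0 < a ∧
      ∀ p : ℕ → ℝ, (∀ n, 0 < p n ∧ p n ≤ 1) →
        Tendsto (fun n : ℕ => p n / ((Real.log n) ^ a * (n : ℝ) ^ (-(1 / (s : ℝ))))) atTop atTop →
        ∀ G : ∀ n : ℕ, SimpleGraph (Fin n),
          Tendsto (fun n : ℕ =>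
            (Set.ncard {f : Fin 2 → Fin n | Function.Injective f ∧
                ∀ i j, (⊤ : SimpleGraph (Fin 2)).Adj i j → (G n).Adj (f i) (f j)} : ℝ) /
              ((n.descFactorial 2 : ℝ) * p n ^ 1)) atTop (𝓝 1) →
          Tendsto (fun n : ℕ =>
            (Set.ncard {f : Fin 4 → Fin n | Function.Injective f ∧
                ∀ i j, (SimpleGraph.cycleGraph 4).Adj i j → (G n).Adj (f i) (f j)} : ℝ) /
              ((n.descFactorial 4 : ℝ) * p n ^ 4)) atTop (𝓝 1) →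
          (∀ t : ℕ, 1 ≤ t → ∃ C : ℝ, ∀ n : ℕ,
            (Set.ncard {f : Fin s ⊕ Fin t → Fin n | Function.Injective f ∧
                ∀ i j, (completeBipartiteGraph (Fin s) (Fin t)).Adj i j → (G n).Adj (f i) (f j)} : ℝ) /
              ((n.descFactorial (s + t) : ℝ) * p n ^ (s * t)) ≤ C) →
          Tendsto (fun n : ℕ =>
            (Set.ncard {f : Fin 3 → Fin n | Function.Injective f ∧
                ∀ i j, (SimpleGraph.cycleGraph 3).Adj i j → (G n).Adj (f i) (f j)} : ℝ) /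
              ((n.descFactorial 3 : ℝ) * p n ^ 3)) atTop (𝓝 1)) := by
  rintro ⟨s, hs, a, -, H⟩
  set P : ℕ → ℕ → Prop := fun j n =>
    (|(embs (⊤ : SimpleGraph (Fin 2)) (gr j n) : ℝ) / ((n.descFactorial 2 : ℝ) * prob j ^ 1) - 1| <
      1 / ((j : ℝ) + 1)) ∧
    (|(embs (SimpleGraph.cycleGraph 4) (gr j n) : ℝ) / ((n.descFactorial 4 : ℝ) * prob j ^ 4) -
      (1 + 1 / ((j : ℝ) + 2) ^ 3) ^ ((j + 2) ^ 2)| < 1 / ((j : ℝ) + 1)) ∧
    ((embs (SimpleGraph.cycleGraph 3) (gr j n) : ℝ) / ((n.descFactorial 3 : ℝ) * prob j ^ 3) <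
      0.5) ∧
    (∀ t ∈ Finset.range (j + 1), (embs (completeBipartiteGraph (Fin s) (Fin t)) (gr j n) : ℝ) /
      ((n.descFactorial (s + t) : ℝ) * prob j ^ (s * t)) ≤
        Real.exp ((t : ℝ) ^ 2 * (s : ℝ) ^ 2 * 2 ^ (s * t)) + 1) ∧
    ((j : ℝ) ≤ prob j / ((Real.log n) ^ a * (n : ℝ) ^ (-(1 / (s : ℝ))))) with hP
  have hev : ∀ j, ∀ᶠ n in atTop, P j n := by
    intro j
    have hj : (0 : ℝ) < 1 / ((j : ℝ) + 1) := by positivity
    refine Eventually.and ?_ (Eventually.and ?_ (Eventually.and ?_ (Eventually.and ?_ ?_)))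
    · have h := gr_tendsto_norm (⊤ : SimpleGraph (Fin 2)) j 2 1 (Fintype.card_fin 2)
      rw [lim_two, one_pow] at h
      filter_upwards [(Metric.tendsto_nhds.1 h) _ hj] with n hn
      rwa [Real.dist_eq] at hn
    · have h := gr_tendsto_norm (SimpleGraph.cycleGraph 4) j 4 4 (Fintype.card_fin 4)
      rw [lim_four] at h
      filter_upwards [(Metric.tendsto_nhds.1 h) _ hj] with n hn
      rwa [Real.dist_eq] at hn
    · have h := gr_tendsto_norm (SimpleGraph.cycleGraph 3) j 3 3 (Fintype.card_fin 3)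
      rw [lim_three] at h
      filter_upwards [(Metric.tendsto_nhds.1 h) 0.1 (by norm_num)] with n hn
      rw [Real.dist_eq] at hn
      have h3 := L3_le j
      have h4 := (abs_lt.1 hn).2
      norm_num at h3 h4 ⊢
      linarith
    · rw [Filter.eventually_all_finset]
      intro t _
      have h := gr_tendsto_norm (completeBipartiteGraph (Fin s) (Fin t)) j (s + t) (s * t)
        (by rw [Fintype.card_sum, Fintype.card_fin, Fintype.card_fin])
      filter_upwards [(Metric.tendsto_nhds.1 h) 1 (by norm_num)] with n hn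
      rw [Real.dist_eq] at hn
      have h3 := lim_bip s t j
      have h4 := (abs_lt.1 hn).2
      linarith
    · exact (growth a s hs (prob j) (prob_pos j)).eventually_ge_atTop (j : ℝ)
  obtain ⟨J, hJ, hJP⟩ := exists_diagonal P hev
  have key := H (fun n => prob (J n)) (fun n => ⟨prob_pos _, prob_le_one _⟩) ?_
    (fun n => gr (J n) n) ?_ ?_ ?_
  · -- the contradiction
    have h1 : ∀ᶠ n in atTop, (embs (SimpleGraph.cycleGraph 3) (gr (J n) n) : ℝ) /
        ((n.descFactorial 3 : ℝ) * prob (J n) ^ 3) ≤ 0.5 := by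
      filter_upwards [hJP] with n hn
      exact hn.2.2.1.le
    have h2 := le_of_tendsto key h1
    norm_num at h2
  · refine tendsto_atTop_mono' atTop ?_ (tendsto_natCast_atTop_atTop.comp hJ)
    filter_upwards [hJP] with n hn
    exact hn.2.2.2.2
  · refine squeeze_one _ (fun _ => 1) J hJ tendsto_const_nhds ?_
    filter_upwards [hJP] with n hn
    exact hn.1
  · refine squeeze_one _ (fun j => (1 + 1 / ((j : ℝ) + 2) ^ 3) ^ ((j + 2) ^ 2)) J hJ L4_tendsto ?_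
    filter_upwards [hJP] with n hn
    exact hn.2.1
  · intro t _
    refine bounded_of_eventually (fun n => (embs (completeBipartiteGraph (Fin s) (Fin t))
      (gr (J n) n) : ℝ) / ((n.descFactorial (s + t) : ℝ) * prob (J n) ^ (s * t)))
      (Real.exp ((t : ℝ) ^ 2 * (s : ℝ) ^ 2 * 2 ^ (s * t)) + 1) ?_
    filter_upwards [hJP, hJ.eventually_ge_atTop t] with n hn hnt
    exact hn.2.2.2.1 t (Finset.mem_range.2 (by omega))

end Pool.Agent.S11986
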