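import Pool.Statements.S12030
import Pool.Agent.R104.SnStab

set_option autoImplicit false
open Pool Pool.MP_e2957e_co

namespace Pool.Agent.S12030

/-- The negation of the preceding statement: There is an absolute C₁>0 such that any A⊂S_n of size c(n−1)! whose transposition-graph edge boundary is at most ∣A∣(n!−∣A∣)/(n−1)!+δn∣A∣ lies within symmetric difference C₁cδ(n−1)! of a union of c distinct 1-cosets {σ: σ(i)=j}. -/
theorem result :
    ¬ (∃ C₁ : ℝ, 0 < C₁ ∧
      ∀ (n : ℕ), 1 ≤ n →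
      ∀ (c : ℕ) (δ : ℝ), 0 ≤ δ →
      ∀ A : Finset (Equiv.Perm (Fin n)),
        A.card = c * Nat.factorial (n - 1) →
        ((((A ×ˢ (Finset.univ.filter (fun p : Fin n × Fin n => p.1 < p.2))).filter
            (fun x => x.1 * Equiv.swap x.2.1 x.2.2 ∉ A)).card : ℕ) : ℝ)
          ≤ (A.card : ℝ) * ((Nat.factorial n : ℝ) - (A.card : ℝ)) / (Nat.factorial (n - 1) : ℝ)
            + δ * (n : ℝ) * (A.card : ℝ) →
        ∃ P : Finset (Fin n × Fin n), P.card = c ∧
          ((symmDiff A (Finset.univ.filter (fun σ : Equiv.Perm (Fin n) => ∃ p ∈ P, σ p.1 = p.2))).card : ℝ)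
            ≤ C₁ * (c : ℝ) * δ * (Nat.factorial (n - 1) : ℝ)) := by
  rintro ⟨C₁, hC, H⟩
  obtain ⟨m, hm⟩ := exists_nat_gt (8 * C₁ + 2)
  have hm2 : (2 : ℝ) < m := by linarith
  have hm2' : 2 < m := by exact_mod_cast hm2
  have hfac : ((m + 1).factorial : ℝ) > 0 := by exact_mod_cast Nat.factorial_pos _
  have hf2 : (((m + 2).factorial : ℕ) : ℝ) = ((m : ℝ) + 2) * ((m + 1).factorial : ℝ) := by
    rw [Nat.factorial_succ]; push_cast; ring
  have hf3 : (((m + 3).factorial : ℕ) : ℝ) = ((m : ℝ) + 3) * ((m + 2).factorial : ℝ) := by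
    rw [Nat.factorial_succ]; push_cast; ring
  have hf2p : (((m + 2).factorial : ℕ) : ℝ) > 0 := by exact_mod_cast Nat.factorial_pos _
  have hA := Pool.Agent.R104.SnStab.card_A (m := m)
  have hAr : ((Pool.Agent.R104.SnStab.A m).card : ℝ) = ((m : ℝ) + 1) * ((m + 2).factorial : ℝ) := by
    rw [hA]; push_cast; ring
  obtain ⟨P, hP, hle⟩ := H (m + 3) (by omega) (m + 1) (2 / (((m : ℝ) + 3) * ((m : ℝ) + 1)))
    (by positivity) (Pool.Agent.R104.SnStab.A m) (by
      rw [hA]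
      congr 1) (by
    have h1 := Pool.Agent.R104.SnStab.card_boundary (m := m)
    have h2 : ((((Pool.Agent.R104.SnStab.A m) ×ˢ
        (Finset.univ.filter (fun p : Fin (m + 3) × Fin (m + 3) => p.1 < p.2))).filter
        (fun x => x.1 * Equiv.swap x.2.1 x.2.2 ∉ Pool.Agent.R104.SnStab.A m)).card : ℝ) ≤
        2 * ((Pool.Agent.R104.SnStab.A m).card : ℝ) + 2 * ((m + 2).factorial : ℝ) := by
      exact_mod_cast h1
    refine h2.trans ?_
    have e1 : m + 3 - 1 = m + 2 := by omega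
    rw [e1, hAr, hf3]
    have e2 : ((m : ℝ) + 1) * ((m + 2).factorial : ℝ) *
        (((m : ℝ) + 3) * ((m + 2).factorial : ℝ) - ((m : ℝ) + 1) * ((m + 2).factorial : ℝ)) /
        ((m + 2).factorial : ℝ) = 2 * (((m : ℝ) + 1) * ((m + 2).factorial : ℝ)) := by
      field_simp
      ring
    have e3 : 2 / (((m : ℝ) + 3) * ((m : ℝ) + 1)) * ((m + 3 : ℕ) : ℝ) *
        (((m : ℝ) + 1) * ((m + 2).factorial : ℝ)) = 2 * ((m + 2).factorial : ℝ) := by
      push_cast
      field_simp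
    rw [e2, e3])
  have h3 := Pool.Agent.R104.SnStab.far (m := m) P hP
  have h4 : (((m - 1 : ℕ) : ℝ)) * ((m + 1).factorial : ℝ) ≤ 4 *
      ((symmDiff (Pool.Agent.R104.SnStab.A m) (Finset.univ.filter
        (fun σ : Equiv.Perm (Fin (m + 3)) => ∃ p ∈ P, σ p.1 = p.2))).card : ℝ) := by
    exact_mod_cast h3
  rw [Nat.cast_sub (by omega)] at h4
  have e1 : m + 3 - 1 = m + 2 := by omega
  rw [e1] at hle
  have e4 : C₁ * ((m + 1 : ℕ) : ℝ) * (2 / (((m : ℝ) + 3) * ((m : ℝ) + 1))) *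
      ((m + 2).factorial : ℝ) ≤ 2 * C₁ * ((m + 1).factorial : ℝ) := by
    rw [hf2]
    push_cast
    have e5 : C₁ * ((m : ℝ) + 1) * (2 / (((m : ℝ) + 3) * ((m : ℝ) + 1))) *
        (((m : ℝ) + 2) * ((m + 1).factorial : ℝ)) =
        (2 * C₁ * ((m + 1).factorial : ℝ)) * (((m : ℝ) + 2) / ((m : ℝ) + 3)) := by
      field_simp
    rw [e5]
    have e6 : ((m : ℝ) + 2) / ((m : ℝ) + 3) ≤ 1 := by
      rw [div_le_one (by positivity)]; linarith
    have e7 : 0 ≤ 2 * C₁ * ((m + 1).factorial : ℝ) := by positivity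
    nlinarith
  have h5 := hle.trans e4
  have h6 : ((m : ℝ) - 1) * ((m + 1).factorial : ℝ) ≤ 8 * C₁ * ((m + 1).factorial : ℝ) := by
    push_cast at h4
    linarith
  have h7 := le_of_mul_le_mul_right h6 hfac
  linarith

end Pool.Agent.S12030
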