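import Pool.Statements.S12060
import Pool.Agent.Results.MP_e3c312_co.CuspSymmetry

set_option autoImplicit false
open Pool Pool.MP_e3c312_co

namespace Pool.Agent.S12060

open scoped Topology
open Pool.Agent.Results.MP_e3c312_co.CuspSymmetry

/-- placements are related when an isometry maps one onto the other -/
abbrev R (q q' : Fin 7 → EuclideanSpace ℝ (Fin 3)) : Prop :=
  ∃ T : EuclideanSpace ℝ (Fin 3) ≃ᵢ EuclideanSpace ℝ (Fin 3), ∀ i, T (q i) = q' i

/-- the invariant -/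
noncomputable def inv0 (q : Fin 7 → EuclideanSpace ℝ (Fin 3)) : ℝ :=
  dist (q 2) (q 6) ^ 2 - dist (q 1) (q 6) ^ 2

theorem inv0_congr (q q' : Fin 7 → EuclideanSpace ℝ (Fin 3)) (h : R q q') : inv0 q = inv0 q' := by
  obtain ⟨T, hT⟩ := h
  unfold inv0
  rw [← hT 1, ← hT 2, ← hT 6, T.dist_eq, T.dist_eq]

/-- the invariant on the quotient -/
noncomputable def invQ : Quot R → ℝ := Quot.lift inv0 inv0_congr

theorem cont_ev (i : Fin 7) : Continuous fun q : Fin 7 → EuclideanSpace ℝ (Fin 3) => q i :=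
  continuous_apply i

theorem invQ_continuous : Continuous invQ := by
  apply continuous_quot_lift
  unfold inv0
  exact (((cont_ev 2).dist (cont_ev 6)).pow 2).sub (((cont_ev 1).dist (cont_ev 6)).pow 2)

/-- the local conditions -/
def Near0 (q : Fin 7 → EuclideanSpace ℝ (Fin 3)) : Prop :=
  0 < dist (q 1) (q 2) ∧ dist (q 1) (q 2) ^ 2 < 8 ∧
    |dist (q 3) (q 4) ^ 2 - 25| < 12 / 100 ∧ dist (q 3) (q 5) ^ 2 < 5661

theorem near0_congr (q q' : Fin 7 → EuclideanSpace ℝ (Fin 3)) (h : R q q') :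
    Near0 q = Near0 q' := by
  obtain ⟨T, hT⟩ := h
  unfold Near0
  rw [← hT 1, ← hT 2, ← hT 3, ← hT 4, ← hT 5, T.dist_eq, T.dist_eq, T.dist_eq]

theorem near0_isOpen : IsOpen {q | Near0 q} := by
  have c12 := (cont_ev 1).dist (cont_ev 2)
  have c34 := (cont_ev 3).dist (cont_ev 4)
  have c35 := (cont_ev 3).dist (cont_ev 5)
  exact (isOpen_lt continuous_const c12).inter ((isOpen_lt (c12.pow 2) continuous_const).inter
    ((isOpen_lt ((c34.pow 2).sub continuous_const).abs continuous_const).inter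
      (isOpen_lt (c35.pow 2) continuous_const)))

/-- the open set -/
def O : Set (Quot R) := {x | Quot.lift Near0 near0_congr x}

theorem O_isOpen : IsOpen O := by
  refine (isQuotientMap_quot_mk (r := R)).isOpen_preimage.1 ?_
  exact near0_isOpen

theorem near0_std {x : ℝ} (hx : x ∈ Dom) : Near0 (std x) := by
  have hrel := rel_std hx
  obtain ⟨h12, h34, h35, _, _, _, _⟩ := hrel.nonedges
  have hX := dom_X hx
  have hA := hrel.hA
  have hs : (fs (x ^ 2)) ≠ 0 := by
    intro h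
    have := hrel.hs
    rw [h] at this
    norm_num at this
  have hs2 : 0 < (fs (x ^ 2)) ^ 2 := by positivity
  change dist (std x 1) (std x 2) ^ 2 = 4 * (fz (x ^ 2)) ^ 2 at h12
  change dist (std x 3) (std x 4) ^ 2 = 25 + 12 * x ^ 2 at h34
  change dist (std x 3) (std x 5) ^ 2 = 5121 + 180 * x ^ 2 at h35
  refine ⟨?_, ?_, ?_, ?_⟩
  · have hz := hrel.z0
    have : dist (std x 1) (std x 2) ≠ 0 := by
      intro h
      rw [h] at h12
      have : 0 < (fz (x ^ 2)) ^ 2 := by positivity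
      nlinarith
    positivity
  · rw [h12]; linarith
  · rw [h34, add_sub_cancel_left, abs_of_nonneg (by positivity)]
    linarith
  · rw [h35]; linarith

theorem scale_mem (y : Set.Ioo (0 : ℝ) 1) : (2 * (y : ℝ) - 1) / 10 ∈ Dom := by
  obtain ⟨y, h1, h2⟩ := y
  constructor <;> simp only <;> linarith

/-- the curve of classes -/
noncomputable def curveQ (y : Set.Ioo (0 : ℝ) 1) : Quot R := Quot.mk R (std ((2 * (y : ℝ) - 1) / 10))

theorem curveQ_continuous : Continuous curveQ := by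
  unfold curveQ
  refine continuous_quot_mk.comp ?_
  refine cont_std.comp_continuous (by fun_prop) ?_
  exact fun y => scale_mem y

theorem invQ_curveQ (y : Set.Ioo (0 : ℝ) 1) :
    invQ (curveQ y) = 4 * fh ((2 * (y : ℝ) - 1) / 10) :=
  inv_std (scale_mem y)

theorem curveQ_isEmbedding : Topology.IsEmbedding curveQ := by
  refine Topology.IsEmbedding.of_comp curveQ_continuous invQ_continuous ?_
  have hc : Continuous (invQ ∘ curveQ) := invQ_continuous.comp curveQ_continuous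
  have hm : StrictMono (invQ ∘ curveQ) := by
    intro y y' h
    simp only [Function.comp, invQ_curveQ]
    have h' : (2 * (y : ℝ) - 1) / 10 < (2 * (y' : ℝ) - 1) / 10 := by
      have : (y : ℝ) < y' := h
      linarith
    have := fh_strictMono (scale_mem y) (scale_mem y') h'
    linarith
  refine hm.isEmbedding_of_ordConnected ?_
  have : PreconnectedSpace (Set.Ioo (0 : ℝ) 1) :=
    Subtype.preconnectedSpace isPreconnected_Ioo
  exact (isPreconnected_range hc).ordConnected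

/-- classes of placements with the edge lengths of `p7` -/
def Cset : Set (Quot R) := {x : Quot R | ∃ q : Fin 7 → EuclideanSpace ℝ (Fin 3),
  Quot.mk R q = x ∧ ∀ i j : Fin 7, G7.Adj i j → dist (q i) (q j) = dist (p7 i) (p7 j)}

theorem O_inter_C : O ∩ Cset = Set.range curveQ := by
  ext x
  constructor
  · rintro ⟨hx, q, rfl, hq⟩
    have h : Near0 q := hx
    obtain ⟨h1, h2, h3, h4⟩ := h
    obtain ⟨T, x, hx, hT⟩ := local_unique q hq h1 h2 h3 h4
    obtain ⟨a, b⟩ := hx
    refine ⟨⟨(10 * x + 1) / 2, by constructor <;> linarith⟩, ?_⟩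
    symm
    apply Quot.sound
    refine ⟨T, fun i => ?_⟩
    rw [hT i]
    have : (2 * ((10 * x + 1) / 2) - 1) / 10 = x := by ring
    simp only [this]
  · rintro ⟨y, rfl⟩
    exact ⟨near0_std (scale_mem y), std ((2 * (y : ℝ) - 1) / 10), rfl, std_mem (scale_mem y)⟩

/-- the homeomorphism -/
noncomputable def hom : ↥(O ∩ Cset) ≃ₜ ↥(Set.Ioo (0 : ℝ) 1) :=
  (Homeomorph.setCongr O_inter_C).trans curveQ_isEmbedding.toHomeomorph.symm

theorem hom_symm (b : Set.Ioo (0 : ℝ) 1) : (hom.symm b).1 = curveQ b := rfl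

/-- the motion -/
noncomputable def mot (t : ℝ) : Fin 7 → EuclideanSpace ℝ (Fin 3) := std (t / 20)

theorem mot_dom {t : ℝ} (ht : t ∈ Set.Icc (0 : ℝ) 1) : t / 20 ∈ Dom := by
  obtain ⟨h1, h2⟩ := ht
  constructor <;> linarith

theorem mk_mot {t : ℝ} (ht : t ∈ Set.Icc (0 : ℝ) 1) :
    Quot.mk R (mot t) = curveQ ⟨1 / 2 + t / 4, by
      obtain ⟨h1, h2⟩ := ht
      constructor <;> linarith⟩ := by
  unfold curveQ mot
  congr 2
  ring

theorem refl3_sq : refl3 * refl3 = 1 := by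
  ext1 v
  exact reflFun_invol v

/-- the group of order two generated by the reflection -/
noncomputable def Gm : Subgroup (EuclideanSpace ℝ (Fin 3) ≃ᵢ EuclideanSpace ℝ (Fin 3)) where
  carrier := {g | g = 1 ∨ g = refl3}
  one_mem' := Or.inl rfl
  mul_mem' := by
    rintro a b (rfl | rfl) (rfl | rfl)
    · left; simp
    · right; simp
    · right; simp
    · left; exact refl3_sq
  inv_mem' := by
    rintro a (rfl | rfl)
    · left; simp
    · right; exact inv_eq_of_mul_eq_one_left refl3_sq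

instance : Finite Gm := by
  have : Finite ({g | g = 1 ∨ g = refl3} : Set (EuclideanSpace ℝ (Fin 3) ≃ᵢ EuclideanSpace ℝ (Fin 3))) :=
    Set.Finite.subset (Set.toFinite {1, refl3}) (by
      rintro g (h | h)
      · exact Or.inl h
      · exact Or.inr h)
  exact this

/-- the reflection as an element of the group -/
noncomputable def rg : Gm := ⟨refl3, Or.inr rfl⟩

theorem gm_cases (g : Gm) : g = 1 ∨ g = rg := by
  obtain ⟨g, hg⟩ := g
  rcases hg with h | h
  · left; exact Subtype.ext h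
  · right; exact Subtype.ext h

theorem rg_mul : rg * rg = 1 := Subtype.ext refl3_sq

theorem rg_ne : rg ≠ 1 := fun h => refl3_ne (congrArg Subtype.val h)

open Classical in
/-- the homomorphism to the permutations -/
noncomputable def th : Gm →* Equiv.Perm (Fin 7) :=
  MonoidHom.mk' (fun g => if g = 1 then 1 else Equiv.swap 1 2) (by
    intro g h
    rcases gm_cases g with rfl | rfl <;> rcases gm_cases h with rfl | rfl
    · simp
    · simp
    · simp
    · rw [rg_mul, if_pos rfl, if_neg rg_ne]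
      exact (Equiv.swap_mul_self _ _).symm)

theorem th_rg : th rg = Equiv.swap 1 2 := by
  simp [th, rg_ne]

theorem th_adj (g : Gm) (u v : Fin 7) : G7.Adj u v ↔ G7.Adj (th g u) (th g v) := by
  rcases gm_cases g with rfl | rfl
  · rw [map_one]; rfl
  · rw [th_rg]
    revert u v
    decide

theorem th_symm (g : Gm) (i : Fin 7) :
    (g : EuclideanSpace ℝ (Fin 3) ≃ᵢ EuclideanSpace ℝ (Fin 3)) (p7 i) = p7 (th g i) := by
  rcases gm_cases g with rfl | rfl
  · rw [map_one]; rfl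
  · rw [th_rg]
    have := p7_symm rG i
    rw [theta_rG] at this
    exact this

theorem inv0_mot {t : ℝ} (ht : t ∈ Set.Icc (0 : ℝ) 1) : inv0 (mot t) = 4 * fh (t / 20) :=
  inv_std (mot_dom ht)

/-- The negation of the preceding statement: For any Γ-symmetric framework in ℝ^d, every expansive motion tracing one half-branch of a neighbourhood of [p] homeomorphic to an interval in the configuration space mod isometries can be moved by continuous isometries so it stays Γ-symmetric. -/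
theorem result :
    ¬ (∀ (d : ℕ) (V : Type) [Fintype V] (G : SimpleGraph V) (p : V → EuclideanSpace ℝ (Fin d))
    (Γ : Subgroup (EuclideanSpace ℝ (Fin d) ≃ᵢ EuclideanSpace ℝ (Fin d))) [Finite Γ]
    (θ : Γ →* Equiv.Perm V),
    (∀ γ : Γ, ∀ u v : V, G.Adj u v ↔ G.Adj (θ γ u) (θ γ v)) →
    (∀ γ : Γ, ∀ i : V,
      (γ : EuclideanSpace ℝ (Fin d) ≃ᵢ EuclideanSpace ℝ (Fin d)) (p i) = p (θ γ i)) →
    ∀ m : ℝ → V → EuclideanSpace ℝ (Fin d),
      ContinuousOn m (Set.Icc 0 1) → m 0 = p →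
      (∀ t ∈ Set.Icc (0:ℝ) 1, ∀ i j : V, G.Adj i j → dist (m t i) (m t j) = dist (p i) (p j)) →
      (∀ i j : V, MonotoneOn (fun t => dist (m t i) (m t j)) (Set.Icc (0:ℝ) 1)) →
      (∃ t ∈ Set.Icc (0:ℝ) 1, ∃ i j : V, dist (m t i) (m t j) ≠ dist (p i) (p j)) →
      Set.InjOn (fun t => Quot.mk (fun q q' : V → EuclideanSpace ℝ (Fin d) =>
          ∃ T : EuclideanSpace ℝ (Fin d) ≃ᵢ EuclideanSpace ℝ (Fin d), ∀ i, T (q i) = q' i) (m t))
        (Set.Icc (0:ℝ) 1) →
      (∃ O : Set (Quot (fun q q' : V → EuclideanSpace ℝ (Fin d) =>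
          ∃ T : EuclideanSpace ℝ (Fin d) ≃ᵢ EuclideanSpace ℝ (Fin d), ∀ i, T (q i) = q' i)),
        IsOpen O ∧
        ∃ h : ↥(O ∩ {x : Quot (fun q q' : V → EuclideanSpace ℝ (Fin d) =>
              ∃ T : EuclideanSpace ℝ (Fin d) ≃ᵢ EuclideanSpace ℝ (Fin d), ∀ i, T (q i) = q' i) |
              ∃ q : V → EuclideanSpace ℝ (Fin d),
                Quot.mk (fun q q' : V → EuclideanSpace ℝ (Fin d) =>
                  ∃ T : EuclideanSpace ℝ (Fin d) ≃ᵢ EuclideanSpace ℝ (Fin d), ∀ i, T (q i) = q' i) q = x ∧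
                ∀ i j : V, G.Adj i j → dist (q i) (q j) = dist (p i) (p j)}) ≃ₜ ↥(Set.Ioo (0:ℝ) 1),
        ∃ a : Set.Ioo (0:ℝ) 1,
          (h.symm a).1 = Quot.mk (fun q q' : V → EuclideanSpace ℝ (Fin d) =>
            ∃ T : EuclideanSpace ℝ (Fin d) ≃ᵢ EuclideanSpace ℝ (Fin d), ∀ i, T (q i) = q' i) p ∧
          ((∀ t ∈ Set.Ioc (0:ℝ) 1, ∃ b : Set.Ioo (0:ℝ) 1,
              (h.symm b).1 = Quot.mk (fun q q' : V → EuclideanSpace ℝ (Fin d) =>
                ∃ T : EuclideanSpace ℝ (Fin d) ≃ᵢ EuclideanSpace ℝ (Fin d), ∀ i, T (q i) = q' i) (m t) ∧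
              (a : ℝ) < (b : ℝ)) ∨
           (∀ t ∈ Set.Ioc (0:ℝ) 1, ∃ b : Set.Ioo (0:ℝ) 1,
              (h.symm b).1 = Quot.mk (fun q q' : V → EuclideanSpace ℝ (Fin d) =>
                ∃ T : EuclideanSpace ℝ (Fin d) ≃ᵢ EuclideanSpace ℝ (Fin d), ∀ i, T (q i) = q' i) (m t) ∧
              (b : ℝ) < (a : ℝ)))) →
      ∃ T : ℝ → (EuclideanSpace ℝ (Fin d) ≃ᵢ EuclideanSpace ℝ (Fin d)),
        (∀ x, T 0 x = x) ∧
        (∀ x, ContinuousOn (fun t => T t x) (Set.Icc (0:ℝ) 1)) ∧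
        ∀ t ∈ Set.Icc (0:ℝ) 1, ∀ γ : Γ, ∀ i : V,
          (γ : EuclideanSpace ℝ (Fin d) ≃ᵢ EuclideanSpace ℝ (Fin d)) (T t (m t i))
            = T t (m t (θ γ i))) := by
  intro H
  obtain ⟨T, hT0, hTc, hT⟩ := H 3 (Fin 7) G7 p7 Gm th th_adj th_symm mot
    (cont_std.comp (by fun_prop) fun t ht => mot_dom ht)
    (by show std (0 / 20) = p7; rw [zero_div, std_zero])
    (fun t ht i j hij => std_mem (mot_dom ht) i j hij)
    (by
      intro i j t ht t' ht' h
      exact std_dist_mono (by linarith [ht.1]) (by linarith) (mot_dom ht) (mot_dom ht') i j)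
    (by
      refine ⟨1, ⟨zero_le_one, le_rfl⟩, 3, 4, ?_⟩
      intro h
      have h1 : (1 : ℝ) ∈ Set.Icc (0 : ℝ) 1 := ⟨zero_le_one, le_rfl⟩
      obtain ⟨_, e1, _⟩ := (rel_std (mot_dom h1)).nonedges
      obtain ⟨_, e2, _⟩ := rel0.nonedges
      change dist (mot 1 3) (mot 1 4) ^ 2 = 25 + 12 * (1 / 20) ^ 2 at e1
      change dist (p7 3) (p7 4) ^ 2 = 25 + 12 * 0 at e2
      rw [h, e2] at e1
      norm_num at e1)
    (by
      intro t ht t' ht' h
      have h' : Quot.mk R (mot t) = Quot.mk R (mot t') := h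
      rw [mk_mot ht, mk_mot ht'] at h'
      have h2 : (1 / 2 + t / 4 : ℝ) = 1 / 2 + t' / 4 :=
        congrArg Subtype.val (curveQ_isEmbedding.injective h')
      linarith)
    (by
      refine ⟨O, O_isOpen, hom, ⟨1 / 2, by constructor <;> norm_num⟩, ?_, Or.inl ?_⟩
      · show curveQ ⟨1 / 2, _⟩ = Quot.mk R p7
        unfold curveQ
        rw [← std_zero]
        congr 2
        norm_num
      · intro t ht
        have ht' : t ∈ Set.Icc (0 : ℝ) 1 := ⟨ht.1.le, ht.2⟩
        refine ⟨⟨1 / 2 + t / 4, by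
          obtain ⟨h1, h2⟩ := ht'
          constructor <;> linarith⟩, ?_, ?_⟩
        · exact (mk_mot ht').symm
        · show (1 / 2 : ℝ) < 1 / 2 + t / 4
          have := ht.1
          linarith)
  have h1 : (1 : ℝ) ∈ Set.Icc (0 : ℝ) 1 := ⟨zero_le_one, le_rfl⟩
  have e6 := hT 1 h1 rg 6
  have e1 := hT 1 h1 rg 1
  rw [th_rg] at e6 e1
  have s6 : (Equiv.swap (1 : Fin 7) 2) 6 = 6 := by decide
  have s1 : (Equiv.swap (1 : Fin 7) 2) 1 = 2 := by decide
  rw [s6] at e6
  rw [s1] at e1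
  have e6' : refl3 (T 1 (mot 1 6)) = T 1 (mot 1 6) := e6
  have e1' : refl3 (T 1 (mot 1 1)) = T 1 (mot 1 2) := e1
  have hd : dist (mot 1 2) (mot 1 6) = dist (mot 1 1) (mot 1 6) := by
    calc dist (mot 1 2) (mot 1 6)
        = dist (T 1 (mot 1 2)) (T 1 (mot 1 6)) := ((T 1).dist_eq _ _).symm
      _ = dist (refl3 (T 1 (mot 1 1))) (refl3 (T 1 (mot 1 6))) := by rw [e1', e6']
      _ = dist (T 1 (mot 1 1)) (T 1 (mot 1 6)) := refl3.dist_eq _ _
      _ = dist (mot 1 1) (mot 1 6) := (T 1).dist_eq _ _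
  have h2 := inv0_mot h1
  have h3 : inv0 (mot 1) = 0 := by
    unfold inv0; rw [hd, sub_self]
  have h4 : fh (1 / 20) = 0 := by linarith
  have h5 : fh 0 = 0 := by simp [fh, fm]
  have h6 := fh_lt (x := 0) (y := 1 / 20) le_rfl (by norm_num) zero_dom (mot_dom h1)
  linarith

end Pool.Agent.S12060
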