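import Pool.Statements.S12199
import Pool.Agent.R3.Relax2

set_option autoImplicit false
open Pool Pool.MP_ea35a0_co

namespace Pool.Agent.S12199

/-- For every ε>0, every connected graph with enough edges m has simple-random-walk relaxation time (degree-weighted variance over edge Dirichlet form) at most (1+ε)·2m²/π², i.e. the path is asymptotically extremal. -/
theorem result :
    ∀ ε : ℝ, ε > 0 → ∃ M : ℕ, ∀ (n : ℕ) (G : SimpleGraph (Fin n)) [DecidableRel G.Adj],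
      G.Connected → M ≤ G.edgeFinset.card →
      ∀ f : Fin n → ℝ, ∃ c : ℝ,
        ∑ v, (G.degree v : ℝ) * (f v - c) ^ 2 ≤
          (1 + ε) * (2 * (G.edgeFinset.card : ℝ) ^ 2 / Real.pi ^ 2) *
            ((1 / 2 : ℝ) * ∑ u, ∑ v, (if G.Adj u v then (f u - f v) ^ 2 else 0)) := by
  intro ε hε
  refine ⟨⌈Real.pi ^ 2 / ε⌉₊ + 1, ?_⟩
  intro n G _ hG hM f
  have hm1 : 1 ≤ G.edgeFinset.card := le_trans (Nat.le_add_left _ _) hM
  obtain ⟨c, hc⟩ := Pool.Agent.R3.Relax.relax_bound G hG f hm1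
  refine ⟨c, hc.trans ?_⟩
  apply mul_le_mul_of_nonneg_right
  · have h1 : Real.pi ^ 2 / ε ≤ (G.edgeFinset.card : ℝ) := by
      have h2 := Nat.le_ceil (Real.pi ^ 2 / ε)
      have h3 : ((⌈Real.pi ^ 2 / ε⌉₊ + 1 : ℕ) : ℝ) ≤ (G.edgeFinset.card : ℝ) := by
        exact_mod_cast hM
      push_cast at h3
      linarith
    have hmR : (1 : ℝ) ≤ (G.edgeFinset.card : ℝ) := by exact_mod_cast hm1
    have h4 : Real.pi ^ 2 / ε ≤ (G.edgeFinset.card : ℝ) ^ 2 := by nlinarith
    have h5 : Real.pi ^ 2 ≤ ε * (G.edgeFinset.card : ℝ) ^ 2 := by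
      rw [div_le_iff₀ hε] at h4
      linarith
    have hpi : 0 < Real.pi ^ 2 := by positivity
    have h6 : 1 ≤ ε * (G.edgeFinset.card : ℝ) ^ 2 / Real.pi ^ 2 := by
      rw [le_div_iff₀ hpi]
      linarith
    have h7 : (1 + ε) * (2 * (G.edgeFinset.card : ℝ) ^ 2 / Real.pi ^ 2)
        = 2 * (G.edgeFinset.card : ℝ) ^ 2 / Real.pi ^ 2
          + 2 * (ε * (G.edgeFinset.card : ℝ) ^ 2 / Real.pi ^ 2) := by ring
    rw [h7]
    linarith
  · have : 0 ≤ ∑ u, ∑ v, (if G.Adj u v then (f u - f v) ^ 2 else 0) := by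
      refine Finset.sum_nonneg fun u _ => Finset.sum_nonneg fun v _ => ?_
      split_ifs
      · positivity
      · exact le_rfl
    positivity

end Pool.Agent.S12199
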