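import Pool.Statements.S12220
import Pool.Agent.R71.Main

set_option autoImplicit false
open Pool Pool.MP_eb1b1c_co

namespace Pool.Agent.S12220

/-- The negation of the preceding statement: Every finite graph in which each 2-colouring of the edges has a monochromatic triangle contains, as a subgraph, K5 minus the three edges 01, 23, 34 (the complement of P2 ∪ P3). -/
theorem result :
    ¬ (∀ n : ℕ, ∀ G : SimpleGraph (Fin n),
      (∀ c : Fin n → Fin n → Bool, (∀ x y : Fin n, G.Adj x y → c x y = c y x) →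
        ∃ x y z : Fin n,
          G.Adj x y ∧ G.Adj y z ∧ G.Adj x z ∧
          c x y = c y z ∧ c y z = c x z) →
      ∃ f : Fin 5 → Fin n, Function.Injective f ∧
        ∀ i j : Fin 5, i ≠ j →
          ¬ ((i = 0 ∧ j = 1) ∨ (i = 1 ∧ j = 0) ∨ (i = 2 ∧ j = 3) ∨
             (i = 3 ∧ j = 2) ∨ (i = 3 ∧ j = 4) ∨ (i = 4 ∧ j = 3)) →
          G.Adj (f i) (f j)) := by
  intro h
  obtain ⟨n, G, h1, h2⟩ := Pool.Agent.R71.Main.main
  obtain ⟨f, hf, hf2⟩ := h n G h1
  refine h2 f hf fun j => ?_
  fin_cases j
  · exact hf2 0 2 (by decide) (by decide)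
  · exact hf2 0 3 (by decide) (by decide)
  · exact hf2 0 4 (by decide) (by decide)
  · exact hf2 1 2 (by decide) (by decide)
  · exact hf2 1 3 (by decide) (by decide)
  · exact hf2 1 4 (by decide) (by decide)
  · exact hf2 2 4 (by decide) (by decide)

end Pool.Agent.S12220
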