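import Pool.Statements.S12391
import Pool.Agent.R153.MaeharaPair
import Pool.Agent.R153.MaeharaThree

set_option autoImplicit false
open Pool Pool.MP_f35a22_co

namespace Pool.Agent.S12391

open Pool.Agent.R153.Maehara

theorem mem_sphere_iff (p c : EuclideanSpace ℝ (Fin 3)) :
    p ∈ Metric.sphere c 1 ↔ ∑ k, (p k - c k) ^ 2 = 1 := by
  rw [mem_sphere_iff_norm, EuclideanSpace.norm_eq, Real.sqrt_eq_one]
  simp [sq_abs]

/-- The case of exactly five spheres, indexed by `Fin 5`. -/
theorem five (c : Fin 5 → EuclideanSpace ℝ (Fin 3))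
    (h : ∀ i, ∃ p : EuclideanSpace ℝ (Fin 3), ∀ j, j ≠ i → p ∈ Metric.sphere (c j) 1) :
    ∃ p : EuclideanSpace ℝ (Fin 3), ∀ j, p ∈ Metric.sphere (c j) 1 := by
  by_contra hcon
  push Not at hcon
  choose p hp using h
  refine core (p := fun i k => p i k) (c := fun i k => c i k) ⟨?_, ?_⟩
  · intro i j hij
    exact (mem_sphere_iff _ _).mp (hp i j (Ne.symm hij))
  · intro i hi
    obtain ⟨j, hj⟩ := hcon (p i)
    apply hj
    by_cases hji : j = i
    · subst hji
      rw [mem_sphere_iff]
      unfold t at hi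
      linarith
    · exact hp i j hji

/-- Three distinct unit spheres have at most two common points. -/
theorem three' (c0 c1 c2 x y z : EuclideanSpace ℝ (Fin 3)) (h01 : c0 ≠ c1) (h02 : c0 ≠ c2)
    (h12 : c1 ≠ c2) (hx : x ∈ Metric.sphere c0 1 ∧ x ∈ Metric.sphere c1 1 ∧ x ∈ Metric.sphere c2 1)
    (hy : y ∈ Metric.sphere c0 1 ∧ y ∈ Metric.sphere c1 1 ∧ y ∈ Metric.sphere c2 1)
    (hz : z ∈ Metric.sphere c0 1 ∧ z ∈ Metric.sphere c1 1 ∧ z ∈ Metric.sphere c2 1) :
    x = y ∨ x = z ∨ y = z := by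
  simp only [mem_sphere_iff] at hx hy hz
  have ext : ∀ a b : EuclideanSpace ℝ (Fin 3), (fun k => a k) = (fun k => b k) → a = b := by
    intro a b h
    ext k
    exact congrFun h k
  rcases three (fun k => c0 k) (fun k => c1 k) (fun k => c2 k) (fun k => x k) (fun k => y k)
    (fun k => z k) (fun h => h01 (ext _ _ h)) (fun h => h02 (ext _ _ h)) (fun h => h12 (ext _ _ h))
    hx.1 hx.2.1 hx.2.2 hy.1 hy.2.1 hy.2.2 hz.1 hz.2.1 hz.2.2 with h | h | h
  · exact Or.inl (ext _ _ h)
  · exact Or.inr (Or.inl (ext _ _ h))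
  · exact Or.inr (Or.inr (ext _ _ h))

/-- Any five distinct centres of the family have a common point of their spheres. -/
theorem fiveSet (S : Set (EuclideanSpace ℝ (Fin 3)))
    (h : ∀ T : Set (EuclideanSpace ℝ (Fin 3)), T ⊆ S → T.encard = 4 →
        ∃ p : EuclideanSpace ℝ (Fin 3), ∀ c ∈ T, p ∈ Metric.sphere c 1)
    (c : Fin 5 → EuclideanSpace ℝ (Fin 3)) (hc : Function.Injective c) (hS : ∀ i, c i ∈ S) :
    ∃ p : EuclideanSpace ℝ (Fin 3), ∀ j, p ∈ Metric.sphere (c j) 1 := by
  apply five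
  intro i
  obtain ⟨p, hp⟩ := h (c '' {j | j ≠ i}) (by rintro _ ⟨j, _, rfl⟩; exact hS j) (by
    rw [hc.encard_image]
    have : {j : Fin 5 | j ≠ i} = ((Finset.univ.erase i : Finset (Fin 5)) : Set (Fin 5)) := by
      ext j; simp
    rw [this, Set.encard_coe_eq_coe_finsetCard, Finset.card_erase_of_mem (Finset.mem_univ _)]
    simp)
  exact ⟨p, fun j hj => hp _ ⟨j, hj, rfl⟩⟩

theorem update_injective (c : Fin 5 → EuclideanSpace ℝ (Fin 3)) (hc : Function.Injective c)
    (i : Fin 5) (a : EuclideanSpace ℝ (Fin 3)) (ha : ∀ j, j ≠ i → c j ≠ a) :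
    Function.Injective (Function.update c i a) := by
  intro j k hjk
  by_cases hj : j = i
  · by_cases hk : k = i
    · rw [hj, hk]
    · subst hj
      rw [Function.update_self, Function.update_of_ne hk] at hjk
      exact (ha k hk hjk.symm).elim
  · by_cases hk : k = i
    · subst hk
      rw [Function.update_self, Function.update_of_ne hj] at hjk
      exact (ha j hj hjk).elim
    · rw [Function.update_of_ne hj, Function.update_of_ne hk] at hjk
      exact hc hjk

/-- For any set of at least 5 distinct centers in 3-space, if every 4 of the unit spheres around them share a common point, then one point lies on all of these unit spheres. -/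
theorem result :
    ∀ S : Set (EuclideanSpace ℝ (Fin 3)),
      5 ≤ S.encard →
      (∀ T : Set (EuclideanSpace ℝ (Fin 3)), T ⊆ S → T.encard = 4 →
        ∃ p : EuclideanSpace ℝ (Fin 3), ∀ c ∈ T, p ∈ Metric.sphere c 1) →
      ∃ p : EuclideanSpace ℝ (Fin 3), ∀ c ∈ S, p ∈ Metric.sphere c 1 := by
  intro S hS h
  -- five distinct centres
  obtain ⟨R, hRS, hR⟩ := Set.exists_subset_encard_eq hS
  have hRfin : R.Finite := Set.finite_of_encard_eq_coe (k := 5) (by exact_mod_cast hR)
  have hRn : R.ncard = 5 := by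
    rw [Set.ncard_def, hR]; rfl
  obtain ⟨e⟩ : Nonempty (Fin 5 ≃ R) := by
    have := hRfin.fintype
    have : Fintype.card R = 5 := by
      rw [← Nat.card_eq_fintype_card]; exact hRn
    exact ⟨(Fintype.equivFinOfCardEq this).symm⟩
  obtain ⟨c, hc, hcS⟩ : ∃ c : Fin 5 → EuclideanSpace ℝ (Fin 3),
      Function.Injective c ∧ ∀ i, c i ∈ S :=
    ⟨fun i => (e i : EuclideanSpace ℝ (Fin 3)),
      fun i j hij => e.injective (Subtype.ext hij), fun i => hRS (e i).2⟩
  by_contra hcon
  push Not at hcon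
  obtain ⟨x, hx⟩ := fiveSet S h c hc hcS
  obtain ⟨a, haS, hxa⟩ := hcon x
  have hca : ∀ j, c j ≠ a := fun j hj => hxa (hj ▸ hx j)
  have hc1 := update_injective c hc 4 a (fun j _ => hca j)
  have hc1S : ∀ i, Function.update c 4 a i ∈ S := by
    intro i
    by_cases hi : i = 4
    · rw [hi, Function.update_self]; exact haS
    · rw [Function.update_of_ne hi]; exact hcS i
  obtain ⟨y, hy⟩ := fiveSet S h _ hc1 hc1S
  obtain ⟨b, hbS, hyb⟩ := hcon y
  have hcb : ∀ j, Function.update c 4 a j ≠ b := fun j hj => hyb (hj ▸ hy j)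
  have hc2 := update_injective _ hc1 3 b (fun j _ => hcb j)
  have hc2S : ∀ i, Function.update (Function.update c 4 a) 3 b i ∈ S := by
    intro i
    by_cases hi : i = 3
    · rw [hi, Function.update_self]; exact hbS
    · rw [Function.update_of_ne hi]; exact hc1S i
  obtain ⟨z, hz⟩ := fiveSet S h _ hc2 hc2S
  have hya : y ∈ Metric.sphere a 1 := by simpa using hy 4
  have hza : z ∈ Metric.sphere a 1 := by
    have := hz 4
    rwa [Function.update_of_ne (by decide), Function.update_self] at this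
  have hzb : z ∈ Metric.sphere b 1 := by
    have := hz 3
    rwa [Function.update_self] at this
  have hy' : ∀ j : Fin 5, j ≠ 4 → y ∈ Metric.sphere (c j) 1 := by
    intro j hj
    have := hy j
    rwa [Function.update_of_ne hj] at this
  have hz' : ∀ j : Fin 5, j ≠ 4 → j ≠ 3 → z ∈ Metric.sphere (c j) 1 := by
    intro j hj hj3
    have := hz j
    rwa [Function.update_of_ne hj3, Function.update_of_ne hj] at this
  rcases three' (c 0) (c 1) (c 2) x y z (fun hh => absurd (hc hh) (by decide))
    (fun hh => absurd (hc hh) (by decide)) (fun hh => absurd (hc hh) (by decide))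
    ⟨hx 0, hx 1, hx 2⟩
    ⟨hy' 0 (by decide), hy' 1 (by decide), hy' 2 (by decide)⟩
    ⟨hz' 0 (by decide) (by decide), hz' 1 (by decide) (by decide),
      hz' 2 (by decide) (by decide)⟩ with hh | hh | hh
  · exact hxa (hh ▸ hya)
  · exact hxa (hh ▸ hza)
  · exact hyb (hh ▸ hzb)

end Pool.Agent.S12391
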