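import Pool.Statements.S12606
import Pool.Agent.Results.MP_fd346d_co.Disproof
-- import your own Pool.Agent.* helpers here

set_option autoImplicit false
open scoped Classical
open Pool Pool.MP_fd346d_co

namespace Pool.Agent.S12606

open Pool.Agent.Results.MP_fd346d_co.Disproof

/-- From the starting file's form of a realizer to the form used in the frozen statement. -/
theorem toRaw {P : Type} [PartialOrder P] {d : ℕ} (h : Realizable P d) :
    ∃ r : Fin d → P → P → Prop,
      (∀ i, (∀ x, r i x x) ∧ (∀ x y z, r i x y → r i y z → r i x z) ∧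
        (∀ x y, r i x y → r i y x → x = y) ∧ (∀ x y, r i x y ∨ r i y x)) ∧
      ∀ x y, x ≤ y ↔ ∀ i, r i x y := by
  obtain ⟨L, hL, h1, h2⟩ := h
  refine ⟨L, fun i => ?_, fun x y => ⟨fun hxy i => h1 i x y hxy, h2 x y⟩⟩
  have := hL i
  exact ⟨fun x => refl_of (L i) x, fun x y z => trans_of (L i),
    fun x y a b => antisymm_of (L i) a b, fun x y => total_of (L i) x y⟩

/-- The converse of `toRaw`. -/
theorem ofRaw {P : Type} [PartialOrder P] {d : ℕ} (h : ∃ r : Fin d → P → P → Prop,
      (∀ i, (∀ x, r i x x) ∧ (∀ x y z, r i x y → r i y z → r i x z) ∧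
        (∀ x y, r i x y → r i y x → x = y) ∧ (∀ x y, r i x y ∨ r i y x)) ∧
      ∀ x y, x ≤ y ↔ ∀ i, r i x y) : Realizable P d := by
  obtain ⟨r, hr, h1⟩ := h
  refine ⟨r, fun i => ?_, fun i x y hxy => (h1 x y).1 hxy i, fun x y hxy => (h1 x y).2 hxy⟩
  exact
    { refl := (hr i).1
      trans := (hr i).2.1
      antisymm := (hr i).2.2.1
      total := (hr i).2.2.2 }

/-- The negation of the preceding statement: For all posets P, Q with at least two elements and finite dimension, dim P + dim Q ≤ dim(P×Q) + b, where b counts the factors lacking a least or greatest element; dimension means the least number of linear orders whose intersection is the order. -/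
theorem result :
    ¬ (∀ (P Q : Type) [PartialOrder P] [PartialOrder Q], Nontrivial P → Nontrivial Q →
      (∃ d : ℕ, ∃ r : Fin d → P → P → Prop,
        (∀ i, (∀ x, r i x x) ∧ (∀ x y z, r i x y → r i y z → r i x z) ∧
          (∀ x y, r i x y → r i y x → x = y) ∧ (∀ x y, r i x y ∨ r i y x)) ∧
        ∀ x y, x ≤ y ↔ ∀ i, r i x y) →
      (∃ d : ℕ, ∃ r : Fin d → Q → Q → Prop,
        (∀ i, (∀ x, r i x x) ∧ (∀ x y z, r i x y → r i y z → r i x z) ∧
          (∀ x y, r i x y → r i y x → x = y) ∧ (∀ x y, r i x y ∨ r i y x)) ∧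
        ∀ x y, x ≤ y ↔ ∀ i, r i x y) →
      ∀ n : ℕ,
        (∃ r : Fin n → P × Q → P × Q → Prop,
          (∀ i, (∀ x, r i x x) ∧ (∀ x y z, r i x y → r i y z → r i x z) ∧
            (∀ x y, r i x y → r i y x → x = y) ∧ (∀ x y, r i x y ∨ r i y x)) ∧
          ∀ x y, x ≤ y ↔ ∀ i, r i x y) →
        ∃ a c : ℕ,
          a + c ≤ n + ((if (∃ x : P, ∀ y, x ≤ y) ∧ (∃ x : P, ∀ y, y ≤ x) then 0 else 1) +
                       (if (∃ x : Q, ∀ y, x ≤ y) ∧ (∃ x : Q, ∀ y, y ≤ x) then 0 else 1)) ∧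
          (∃ r : Fin a → P → P → Prop,
            (∀ i, (∀ x, r i x x) ∧ (∀ x y z, r i x y → r i y z → r i x z) ∧
              (∀ x y, r i x y → r i y x → x = y) ∧ (∀ x y, r i x y ∨ r i y x)) ∧
            ∀ x y, x ≤ y ↔ ∀ i, r i x y) ∧
          (∃ r : Fin c → Q → Q → Prop,
            (∀ i, (∀ x, r i x x) ∧ (∀ x y z, r i x y → r i y z → r i x z) ∧
              (∀ x y, r i x y → r i y x → x = y) ∧ (∀ x y, r i x y ∨ r i y x)) ∧
            ∀ x y, x ≤ y ↔ ∀ i, r i x y)) := by
  intro H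
  obtain ⟨n, m, V, iV, iD, hn2, hm, hnb, hne, h⟩ := core.{0} 0
  have hQ : dim (Finset (Fin n)) = n := dim_bool n
  have hlt := h (Finset (Fin n)) hQ
  have hPr : Realizable (Pairs V) m := realizable_of_dim_eq hm
  have hQr : Realizable (Finset (Fin n)) n := realizable_of_dim_eq hQ
  -- the dimension of the product is a natural number
  have hex : ∃ k : ℕ, dim (Pairs V × Finset (Fin n)) = k := by
    have hne' : dim (Pairs V × Finset (Fin n)) ≠ ⊤ := by
      intro htop
      rw [htop] at hlt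
      simp at hlt
    exact ⟨_, (ENat.natCast_toNat hne').symm⟩
  obtain ⟨k, hk⟩ := hex
  have hPQr : Realizable (Pairs V × Finset (Fin n)) k := realizable_of_dim_eq hk
  have hntP : Nontrivial (Pairs V) := by
    by_contra hcon
    rw [not_nontrivial_iff_subsingleton] at hcon
    obtain ⟨a⟩ := hne
    exact hnb ⟨⟨a, fun x => (Subsingleton.elim a x).le⟩, ⟨a, fun x => (Subsingleton.elim x a).le⟩⟩
  have hntQ : Nontrivial (Finset (Fin n)) := by
    have : Nonempty (Fin n) := ⟨⟨0, by omega⟩⟩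
    infer_instance
  obtain ⟨a, c, hac, ha, hc⟩ := H (Pairs V) (Finset (Fin n)) hntP hntQ ⟨m, toRaw hPr⟩ ⟨n, toRaw hQr⟩
    k (toRaw hPQr)
  have h1 : (m : ℕ∞) ≤ a := hm ▸ dim_le (ofRaw ha)
  have h2 : (n : ℕ∞) ≤ c := hQ ▸ dim_le (ofRaw hc)
  have h1' : m ≤ a := by exact_mod_cast h1
  have h2' : n ≤ c := by exact_mod_cast h2
  rw [hk] at hlt
  have h3 : k + 2 < m + n := by
    have h4 : ((k + 2 + 0 : ℕ) : ℕ∞) < ((m + n : ℕ) : ℕ∞) := by
      push_cast
      push_cast at hlt
      exact hlt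
    have h5 : k + 2 + 0 < m + n := by exact_mod_cast h4
    omega
  have h7 : a + c ≤ k + 2 := by
    refine hac.trans ?_
    split_ifs <;> omega
  omega

end Pool.Agent.S12606
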