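import Pool.Statements.S12897

set_option autoImplicit false
open Pool Pool.MP_26524f_gt

namespace Pool.Agent.S12897

/-- The case of one closed piece `C`: from the covers `𝒰 n` one can pick finitely many members
each such that every finite subset of `X ∩ C` is inside one of the picked sets. -/
theorem closed_piece {X Y C : Set ℝ} (hC : IsClosed C) (hXC : X ∩ C ⊆ Y)
    (hX : ∀ 𝒰 : ℕ → Set (Set ℝ),
          (∀ n, (∀ U ∈ 𝒰 n, ∃ V : Set ℝ, IsOpen V ∧ U = V ∩ X) ∧ X ∉ 𝒰 n ∧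
              X ⊆ ⋃₀ (𝒰 n) ∧ (𝒰 n).Infinite ∧
              ∀ x ∈ X, {U ∈ 𝒰 n | x ∉ U}.Finite) →
          ∃ ℱ : ℕ → Set (Set ℝ), (∀ n, (ℱ n).Finite ∧ ℱ n ⊆ 𝒰 n) ∧
            X ∉ (⋃ n, ℱ n) ∧ X ⊆ ⋃₀ (⋃ n, ℱ n) ∧
            ∀ F : Finset ℝ, (↑F : Set ℝ) ⊆ X →
              ∃ U ∈ (⋃ n, ℱ n), (↑F : Set ℝ) ⊆ U)
    (𝒰 : ℕ → Set (Set ℝ))
    (h𝒰 : ∀ n, (∀ U ∈ 𝒰 n, ∃ V : Set ℝ, IsOpen V ∧ U = V ∩ Y) ∧ Y ∉ 𝒰 n ∧
              Y ⊆ ⋃₀ (𝒰 n) ∧ (𝒰 n).Infinite ∧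
              ∀ x ∈ Y, {U ∈ 𝒰 n | x ∉ U}.Finite) :
    ∃ 𝒢 : ℕ → Set (Set ℝ), (∀ n, (𝒢 n).Finite ∧ 𝒢 n ⊆ 𝒰 n) ∧
      ∀ F : Finset ℝ, (↑F : Set ℝ) ⊆ X ∩ C → ∃ n, ∃ U ∈ 𝒢 n, (↑F : Set ℝ) ⊆ U := by
  classical
  by_cases hA : ∃ n, ∃ U ∈ 𝒰 n, X ∩ C ⊆ U
  · obtain ⟨n₀, U₀, hU₀, hsub⟩ := hA
    refine ⟨fun n => if n = n₀ then {U₀} else ∅, fun n => ?_, fun F hF => ?_⟩
    · by_cases hn : n = n₀
      · subst hn
        simp only [if_true]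
        exact ⟨Set.finite_singleton _, Set.singleton_subset_iff.2 hU₀⟩
      · simp only [if_neg hn]
        exact ⟨Set.finite_empty, Set.empty_subset _⟩
    · refine ⟨n₀, U₀, ?_, hF.trans hsub⟩
      simp
  · push Not at hA
    have hVex : ∀ n, ∀ U ∈ 𝒰 n, ∃ V : Set ℝ, IsOpen V ∧ U = V ∩ Y := fun n => (h𝒰 n).1
    choose! V hVo hVU using hVex
    let T : ℕ → Set ℝ → Set ℝ := fun n U => (V n U ∪ Cᶜ) ∩ X
    -- on the closed piece, `T n U` agrees with `U`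
    have hT : ∀ n, ∀ U ∈ 𝒰 n, ∀ x ∈ X ∩ C, x ∈ T n U → x ∈ U := by
      intro n U hU x hx hxT
      rcases hxT.1 with h1 | h1
      · rw [hVU n U hU]
        exact ⟨h1, hXC hx⟩
      · exact absurd hx.2 h1
    have hT' : ∀ n, ∀ U ∈ 𝒰 n, ∀ x ∈ X, x ∉ T n U → x ∈ Y ∧ x ∉ U := by
      intro n U hU x hx hxT
      have hxC : x ∈ C := by
        by_contra h
        exact hxT ⟨Or.inr h, hx⟩
      refine ⟨hXC ⟨hx, hxC⟩, fun hxU => hxT ⟨Or.inl ?_, hx⟩⟩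
      rw [hVU n U hU] at hxU
      exact hxU.1
    have hfin : ∀ n, ∀ x ∈ X, {U ∈ 𝒰 n | x ∉ T n U}.Finite := by
      intro n x hx
      by_cases hxY : x ∈ Y
      · refine ((h𝒰 n).2.2.2.2 x hxY).subset ?_
        rintro U ⟨hU, hxU⟩
        exact ⟨hU, (hT' n U hU x hx hxU).2⟩
      · have : {U ∈ 𝒰 n | x ∉ T n U} = ∅ := by
          rw [Set.eq_empty_iff_forall_notMem]
          rintro U ⟨hU, hxU⟩
          exact hxY (hT' n U hU x hx hxU).1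
        rw [this]
        exact Set.finite_empty
    obtain ⟨ℱ, hℱ, -, -, hω⟩ := hX (fun n => T n '' 𝒰 n) (by
      intro n
      refine ⟨?_, ?_, ?_, ?_, ?_⟩
      · rintro _ ⟨U, hU, rfl⟩
        exact ⟨V n U ∪ Cᶜ, (hVo n U hU).union hC.isOpen_compl, rfl⟩
      · rintro ⟨U, hU, hUX⟩
        refine hA n U hU (fun x hx => hT n U hU x hx ?_)
        rw [hUX]
        exact hx.1
      · intro x hx
        obtain ⟨U, hU, hxU⟩ := (h𝒰 n).2.2.2.1.exists_notMem_finite (hfin n x hx)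
        refine ⟨T n U, ⟨U, hU, rfl⟩, ?_⟩
        by_contra h
        exact hxU ⟨hU, h⟩
      · intro himg
        have hex : ∃ W ∈ T n '' 𝒰 n, {U ∈ 𝒰 n | T n U = W}.Infinite := by
          by_contra hcon
          push Not at hcon
          refine (h𝒰 n).2.2.2.1 ((himg.biUnion hcon).subset ?_)
          intro U hU
          exact Set.mem_biUnion (Set.mem_image_of_mem _ hU) ⟨hU, rfl⟩
        obtain ⟨W, ⟨U₀, hU₀, hW⟩, hinf⟩ := hex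
        refine hA n U₀ hU₀ (fun x hx => hT n U₀ hU₀ x hx ?_)
        obtain ⟨U, hU, hxU⟩ := hinf.exists_notMem_finite (hfin n x hx.1)
        have hxT : x ∈ T n U := by
          by_contra h
          exact hxU ⟨hU.1, h⟩
        rw [hU.2] at hxT
        rw [hW]
        exact hxT
      · intro x hx
        refine ((hfin n x hx).image (T n)).subset ?_
        rintro _ ⟨⟨U, hU, rfl⟩, hxU⟩
        exact ⟨U, ⟨hU, hxU⟩, rfl⟩)
    have hpre : ∀ n, ∀ W ∈ ℱ n, ∃ U ∈ 𝒰 n, T n U = W := fun n W hW => (hℱ n).2 hW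
    choose! q hq hqT using hpre
    refine ⟨fun n => q n '' ℱ n, fun n => ⟨(hℱ n).1.image _, ?_⟩, fun F hF => ?_⟩
    · rintro _ ⟨W, hW, rfl⟩
      exact hq n W hW
    · obtain ⟨W, hW, hFW⟩ := hω F (hF.trans Set.inter_subset_left)
      obtain ⟨n, hn⟩ := Set.mem_iUnion.1 hW
      refine ⟨n, q n W, Set.mem_image_of_mem _ hn, fun x hx => ?_⟩
      refine hT n _ (hq n W hn) x (hF hx) ?_
      rw [hqT n W hn]
      exact hFW hx

/-- If a set of reals has the property that from any sequence of open γ-covers one can pick finitely many sets from each so that together they form an open ω-cover, then every F_σ subset (relative to the set) has the same property. -/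
theorem result :
    ∀ P : Set ℝ → Prop,
      (∀ X : Set ℝ, P X ↔
        ∀ 𝒰 : ℕ → Set (Set ℝ),
          (∀ n, (∀ U ∈ 𝒰 n, ∃ V : Set ℝ, IsOpen V ∧ U = V ∩ X) ∧ X ∉ 𝒰 n ∧
              X ⊆ ⋃₀ (𝒰 n) ∧ (𝒰 n).Infinite ∧
              ∀ x ∈ X, {U ∈ 𝒰 n | x ∉ U}.Finite) →
          ∃ ℱ : ℕ → Set (Set ℝ), (∀ n, (ℱ n).Finite ∧ ℱ n ⊆ 𝒰 n) ∧
            X ∉ (⋃ n, ℱ n) ∧ X ⊆ ⋃₀ (⋃ n, ℱ n) ∧
            ∀ F : Finset ℝ, (↑F : Set ℝ) ⊆ X →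
              ∃ U ∈ (⋃ n, ℱ n), (↑F : Set ℝ) ⊆ U) →
      ∀ X Y : Set ℝ,
        (∃ K : ℕ → Set ℝ, (∀ n, IsClosed (K n)) ∧ Y = X ∩ (⋃ n, K n)) →
        P X → P Y := by
  classical
  intro P hP X Y hY hPX
  obtain ⟨K, hK, hYK⟩ := hY
  rw [hP] at hPX ⊢
  intro 𝒰 h𝒰
  let C : ℕ → Set ℝ := fun k => ⋃ i ∈ Finset.range (k + 1), K i
  have hC : ∀ k, IsClosed (C k) := fun k => isClosed_biUnion_finset fun i _ => hK i
  have hXC : ∀ k, X ∩ C k ⊆ Y := by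
    rintro k x ⟨hx, hxC⟩
    obtain ⟨i, -, hi⟩ := Set.mem_iUnion₂.1 hxC
    rw [hYK]
    exact ⟨hx, Set.mem_iUnion.2 ⟨i, hi⟩⟩
  have hYX : Y ⊆ X := by
    rw [hYK]
    exact Set.inter_subset_left
  have key := fun k : ℕ => closed_piece (hC k) (hXC k) hPX (fun n => 𝒰 (Nat.pair k n))
    (fun n => h𝒰 (Nat.pair k n))
  choose 𝒢 h𝒢 hω using key
  have hsub : ∀ m : ℕ, 𝒢 m.unpair.1 m.unpair.2 ⊆ 𝒰 m := by
    intro m
    have h := (h𝒢 m.unpair.1 m.unpair.2).2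
    rwa [Nat.pair_unpair] at h
  have hcov : ∀ F : Finset ℝ, (↑F : Set ℝ) ⊆ Y →
      ∃ U ∈ (⋃ m : ℕ, 𝒢 m.unpair.1 m.unpair.2), (↑F : Set ℝ) ⊆ U := by
    intro F hF
    have hex : ∀ x ∈ F, ∃ i, x ∈ K i := by
      intro x hx
      have h1 := hF hx
      rw [hYK] at h1
      exact Set.mem_iUnion.1 h1.2
    choose! i hi using hex
    have hFC : (↑F : Set ℝ) ⊆ X ∩ C (F.sup i) := by
      intro x hx
      refine ⟨hYX (hF hx), Set.mem_iUnion₂.2 ⟨i x, ?_, hi x hx⟩⟩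
      exact Finset.mem_range.2 (Nat.lt_succ_of_le (Finset.le_sup hx))
    obtain ⟨n, U, hU, hFU⟩ := hω (F.sup i) F hFC
    refine ⟨U, Set.mem_iUnion.2 ⟨Nat.pair (F.sup i) n, ?_⟩, hFU⟩
    rw [Nat.unpair_pair]
    exact hU
  refine ⟨fun m => 𝒢 m.unpair.1 m.unpair.2, fun m => ⟨(h𝒢 _ _).1, hsub m⟩, ?_, ?_, hcov⟩
  · intro h
    obtain ⟨m, hm⟩ := Set.mem_iUnion.1 h
    exact (h𝒰 m).2.1 (hsub m hm)
  · intro x hx
    obtain ⟨U, hU, hxU⟩ := hcov {x} (by simpa using hx)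
    exact ⟨U, hU, hxU (by simp)⟩

end Pool.Agent.S12897
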