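import Pool.Statements.S12905
import Pool.Agent.R771.Illum2

set_option autoImplicit false
open Pool Pool.MP_26bcd4_gt

namespace Pool.Agent.S12905

open Pool.Agent.R771.Illum in
/-- A supporting plane at a point of `K` which is not interior. -/
theorem exists_support {K : Set E3} (hc : Convex ℝ K) (hn : (interior K).Nonempty) {z : E3}
    (hz : z ∉ interior K) :
    ∃ f : E3 →ₗ[ℝ] ℝ, (∀ y ∈ K, f y ≤ f z) ∧ ∀ y ∈ interior K, f y < f z := by
  obtain ⟨f, hf⟩ := geometric_hahn_banach_open_point hc.interior isOpen_interior hz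
  refine ⟨f.toLinearMap, ?_, hf⟩
  intro y hy
  have h1 : y ∈ closure (interior K) := by
    rw [hc.closure_interior_eq_closure_of_nonempty_interior hn]
    exact subset_closure hy
  have h2 : closure (interior K) ⊆ {y | f y ≤ f z} :=
    closure_minimal (fun y hy => (hf y hy).le) (isClosed_le f.continuous continuous_const)
  exact h2 h1

/-- There is a natural number N such that for every compact convex set with nonempty interior in 3-space, every primitive inner illuminating set of it (a boundary subset illuminating from inside, no proper subset of which does) has at most N elements. -/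
theorem result :
    ∃ N : ℕ, ∀ K : Set (EuclideanSpace ℝ (Fin 3)),
      IsCompact K → Convex ℝ K → (interior K).Nonempty →
      ∀ A : Set (EuclideanSpace ℝ (Fin 3)),
        (A ⊆ frontier K ∧
          ∀ x ∈ frontier K, ∃ a ∈ A, ∃ ε : ℝ, 0 < ε ∧ ε < 1 ∧
            (1 - ε) • x + ε • a ∈ interior K) →
        (∀ B : Set (EuclideanSpace ℝ (Fin 3)), B ⊆ A → B ≠ A →
          ¬ (B ⊆ frontier K ∧
            ∀ x ∈ frontier K, ∃ b ∈ B, ∃ ε : ℝ, 0 < ε ∧ ε < 1 ∧
              (1 - ε) • x + ε • b ∈ interior K)) →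
        A.encard ≤ (N : ℕ∞) := by
  refine ⟨107, fun K hK hconv hint A hA hprim => ?_⟩
  by_contra hcon
  push Not at hcon
  obtain ⟨B, hBA, hBc⟩ := Set.exists_subset_encard_eq (s := A) (k := 108)
    (by
      have : ((108 : ℕ) : ℕ∞) = ((107 : ℕ) : ℕ∞) + 1 := rfl
      exact_mod_cast (this ▸ Order.add_one_le_of_lt hcon))
  have hBfin : B.Finite := Set.finite_of_encard_eq_coe (k := 108) (by exact_mod_cast hBc)
  obtain ⟨o, ho⟩ := hint
  have hfr : frontier K ⊆ K := hK.isClosed.frontier_subset
  -- private points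
  have hpriv : ∀ a ∈ A, ∃ x ∈ frontier K,
      (∃ ε : ℝ, 0 < ε ∧ ε < 1 ∧ (1 - ε) • x + ε • a ∈ interior K) ∧
      ∀ b ∈ A, b ≠ a → ∀ ε : ℝ, 0 < ε → ε < 1 → (1 - ε) • x + ε • b ∉ interior K := by
    intro a ha
    have h1 := hprim (A \ {a}) Set.diff_subset (by
      intro h
      have : a ∈ A \ {a} := by rw [h]; exact ha
      exact this.2 rfl)
    push Not at h1
    obtain ⟨x, hx, h2⟩ := h1 (Set.diff_subset.trans hA.1)
    refine ⟨x, hx, ?_, fun b hb hba ε h3 h4 => h2 b ⟨hb, hba⟩ ε h3 h4⟩
    obtain ⟨a', ha', ε, h3, h4, h5⟩ := hA.2 x hx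
    by_cases h6 : a' = a
    · exact ⟨ε, h3, h4, h6 ▸ h5⟩
    · exact absurd h5 (h2 a' ⟨ha', h6⟩ ε h3 h4)
  choose x hxf hxa hxb using hpriv
  let F : Pool.Agent.R771.Illum.Fam B :=
    { a := fun i => i.1
      x := fun i => x i.1 (hBA i.2)
      o := o
      Sp := fun f c => (∀ y ∈ K, f y ≤ c) ∧ ∀ y ∈ interior K, f y < c
      ha := fun f c h i => h.1 _ (hfr (hA.1 (hBA i.2)))
      hx := fun f c h i => h.1 _ (hfr (hxf i.1 (hBA i.2)))
      ho := fun f c h => h.2 o ho
      adj := by
        intro i j hij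
        have hne : j.1 ≠ i.1 := fun h => hij (Subtype.ext h.symm)
        have h1 := hxb i.1 (hBA i.2) j.1 (hBA j.2) hne (1 / 2) (by norm_num) (by norm_num)
        obtain ⟨f, hf1, hf2⟩ := exists_support hconv ⟨o, ho⟩ h1
        have h2 := hf1 _ (hfr (hxf i.1 (hBA i.2)))
        have h3 := hf1 _ (hfr (hA.1 (hBA j.2)))
        refine ⟨f, _, ⟨hf1, hf2⟩, ?_, ?_⟩
        · simp only [map_add, map_smul, smul_eq_mul] at h2 h3 ⊢
          linarith
        · simp only [map_add, map_smul, smul_eq_mul] at h2 h3 ⊢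
          linarith
      sep := by
        rintro i f c ⟨h1, h2⟩ h3 h4
        obtain ⟨ε, h5, h6, h7⟩ := hxa i.1 (hBA i.2)
        have h8 := h2 _ h7
        simp only [map_add, map_smul, smul_eq_mul] at h8
        rw [h3, h4] at h8
        linarith }
  haveI : Fintype B := hBfin.fintype
  have hcard := F.card_le
  have h9 : B.encard = (Fintype.card B : ℕ∞) := by
    rw [← Set.toFinset_card, Set.encard_eq_coe_toFinset_card]
  rw [h9] at hBc
  have h10 : Fintype.card B = 108 := by exact_mod_cast hBc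
  omega

end Pool.Agent.S12905
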