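import Pool.Statements.S12964

/-!
Counterexample with `n = 2`. Let `W = ℤ/2 * ℤ/2 * ℤ/2` (the Coxeter group of rank three with all
labels infinite). It acts on the hyperbolic plane with finite covolume, in such a way that the three
Coxeter generators act as half turns about the midpoints of the sides of an ideal triangle (the
image is the index three subgroup of `PSL(2, ℤ)`, the kernel of the map onto `ℤ/3`).
So the generators do not act as reflections.

In the coordinates below, the invariant cone is `x y + y z + z x > 0`, `x + y + z > 0` (positive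
definite binary quadratic forms in the coordinates of Selling), the ideal triangle is the
positive orthant, and the generators are
`(x, y, z) ↦ (-x, z + 2 x, y + 2 x)` and its two companions.
-/

set_option autoImplicit false
open Matrix
open Pool Pool.MP_2ee781_gt

namespace Pool.Agent.S12964

/-- the Coxeter matrix of rank three with all labels infinite -/
def Mx : CoxeterMatrix (Fin 3) where
  M := fun i j => if i = j then 1 else 0
  isSymm := by
    apply Matrix.IsSymm.ext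
    intro i j
    simp [eq_comm]
  diagonal := by simp
  off_diagonal := by
    intro i j h
    simp [h]

theorem Mx_diag (i : Fin 3) : Mx i i = 1 := Mx.diagonal i

theorem Mx_off {i j : Fin 3} (h : i ≠ j) : Mx i j = 0 := by
  show (if i = j then 1 else 0) = 0
  simp [h]

/-- the three half turns -/
def gm : Fin 3 → Matrix (Fin 3) (Fin 3) ℝ :=
  ![!![-1, 0, 0; 2, 0, 1; 2, 1, 0], !![0, 2, 1; 0, -1, 0; 1, 2, 0], !![0, 1, 2; 1, 0, 2; 0, 0, -1]]

theorem gm_sq (i : Fin 3) : gm i * gm i = 1 := by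
  fin_cases i <;> ext a b <;> fin_cases a <;> fin_cases b <;>
    simp [gm, Matrix.mul_apply, Fin.sum_univ_three]

theorem gm_det (i : Fin 3) : (gm i).det = 1 := by
  fin_cases i <;> simp [gm, Matrix.det_fin_three]

/-- the half turns as units -/
def gu (i : Fin 3) : (Matrix (Fin 3) (Fin 3) ℝ)ˣ := ⟨gm i, gm i, gm_sq i, gm_sq i⟩

theorem gu_liftable : Mx.IsLiftable gu := by
  intro i j
  by_cases h : i = j
  · subst h
    rw [Mx_diag, pow_one]
    ext1
    exact gm_sq i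
  · rw [Mx_off h, pow_zero]

/-- the Coxeter system -/
def cs : CoxeterSystem Mx Mx.Group := Mx.toCoxeterSystem

/-- the representation -/
noncomputable def rho : Mx.Group →* (Matrix (Fin 3) (Fin 3) ℝ)ˣ := cs.lift ⟨gu, gu_liftable⟩

theorem rho_simple (i : Fin 3) : rho (cs.simple i) = gu i := by
  simp [rho]

theorem rho_simple_val (i : Fin 3) : (rho (cs.simple i)).val = gm i := by
  rw [rho_simple]; rfl

/-- the invariant cone -/
def Cn : Set (Fin 3 → ℝ) := {p | 0 < p 0 * p 1 + p 1 * p 2 + p 0 * p 2 ∧ 0 < p 0 + p 1 + p 2}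

theorem mulVec0 (p : Fin 3 → ℝ) : gm 0 *ᵥ p = ![-p 0, p 2 + 2 * p 0, p 1 + 2 * p 0] := by
  ext a
  fin_cases a <;> simp [gm, Matrix.mulVec, dotProduct, Fin.sum_univ_three, add_comm]

theorem mulVec1 (p : Fin 3 → ℝ) : gm 1 *ᵥ p = ![p 2 + 2 * p 1, -p 1, p 0 + 2 * p 1] := by
  ext a
  fin_cases a <;> simp [gm, Matrix.mulVec, dotProduct, Fin.sum_univ_three, add_comm]

theorem mulVec2 (p : Fin 3 → ℝ) : gm 2 *ᵥ p = ![p 1 + 2 * p 2, p 0 + 2 * p 2, -p 2] := by
  ext a
  fin_cases a <;> simp [gm, Matrix.mulVec, dotProduct, Fin.sum_univ_three]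

/-- in the cone, if one coordinate is negative, then the others are large -/
theorem aux_neg {x y z : ℝ} (h1 : 0 < x * y + y * z + x * z) (h2 : 0 < x + y + z) :
    0 < y + z + 3 * x := by
  by_contra hcon
  push Not at hcon
  have hx : x < 0 := by nlinarith
  have hyz : 0 < y + z := by linarith
  nlinarith [sq_nonneg (y - z)]

theorem aux_pos {x y z : ℝ} (h1 : 0 < x * y + y * z + x * z) (h2 : 0 < x + y + z)
    (hx : x < 0) : 0 < y ∧ 0 < z := by
  have hyz : 0 < y + z := by linarith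
  have h3 : 0 < y * z := by nlinarith
  constructor
  · by_contra h
    push Not at h
    have : 0 < z := by linarith
    nlinarith
  · by_contra h
    push Not at h
    have : 0 < y := by linarith
    nlinarith

theorem gm_mem (i : Fin 3) {p : Fin 3 → ℝ} (hp : p ∈ Cn) : gm i *ᵥ p ∈ Cn := by
  obtain ⟨h1, h2⟩ := hp
  fin_cases i
  · show gm 0 *ᵥ p ∈ Cn
    rw [mulVec0]
    have := aux_neg (x := p 0) (y := p 1) (z := p 2) (by linarith) (by linarith)
    constructor
    · simp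
      nlinarith
    · simp
      linarith
  · show gm 1 *ᵥ p ∈ Cn
    rw [mulVec1]
    have := aux_neg (x := p 1) (y := p 0) (z := p 2) (by linarith) (by linarith)
    constructor
    · simp
      nlinarith
    · simp
      linarith
  · show gm 2 *ᵥ p ∈ Cn
    rw [mulVec2]
    have := aux_neg (x := p 2) (y := p 1) (z := p 0) (by linarith) (by linarith)
    constructor
    · simp
      nlinarith
    · simp
      linarith

theorem rho_mem (w : Mx.Group) : ∀ {p : Fin 3 → ℝ}, p ∈ Cn → (rho w).val *ᵥ p ∈ Cn := by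
  induction w using cs.simple_induction with
  | simple i =>
    intro p hp
    rw [rho_simple_val]
    exact gm_mem i hp
  | one =>
    intro p hp
    simpa using hp
  | mul w w' h h' =>
    intro p hp
    rw [map_mul, Units.val_mul, ← Matrix.mulVec_mulVec]
    exact h (h' hp)

theorem rho_det (w : Mx.Group) : (rho w).val.det = 1 := by
  induction w using cs.simple_induction with
  | simple i =>
    rw [rho_simple_val]
    exact gm_det i
  | one => simp
  | mul w w' h h' => rw [map_mul, Units.val_mul, Matrix.det_mul, h, h', one_mul]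

/-- integer entries -/
def gz : Fin 3 → Matrix (Fin 3) (Fin 3) ℤ :=
  ![!![-1, 0, 0; 2, 0, 1; 2, 1, 0], !![0, 2, 1; 0, -1, 0; 1, 2, 0], !![0, 1, 2; 1, 0, 2; 0, 0, -1]]

theorem gm_int (i a b : Fin 3) : ∃ k : ℤ, gm i a b = k := by
  refine ⟨gz i a b, ?_⟩
  fin_cases i <;> fin_cases a <;> fin_cases b <;> simp [gm, gz]

theorem rho_int (w : Mx.Group) : ∀ a b, ∃ k : ℤ, (rho w).val a b = k := by
  induction w using cs.simple_induction with
  | simple i =>
    intro a b
    rw [rho_simple_val]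
    exact gm_int i a b
  | one =>
    intro a b
    by_cases h : a = b
    · exact ⟨1, by simp [h]⟩
    · exact ⟨0, by simp [h]⟩
  | mul w w' h h' =>
    intro a b
    choose f hf using h
    choose g hg using h'
    refine ⟨∑ c, f a c * g c b, ?_⟩
    rw [map_mul, Units.val_mul, Matrix.mul_apply]
    push_cast
    exact Finset.sum_congr rfl fun c _ => by rw [hf, hg]

/-- ping-pong: the half turn `i` maps the points of the cone with positive coordinate `i` to
points with negative coordinate `i` -/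
theorem gm_apply_self (i : Fin 3) (p : Fin 3 → ℝ) : (gm i *ᵥ p) i = -p i := by
  fin_cases i
  · show (gm 0 *ᵥ p) 0 = -p 0
    rw [mulVec0]; simp
  · show (gm 1 *ᵥ p) 1 = -p 1
    rw [mulVec1]; simp
  · show (gm 2 *ᵥ p) 2 = -p 2
    rw [mulVec2]; simp

theorem pos_of_neg {p : Fin 3 → ℝ} (hp : p ∈ Cn) {i j : Fin 3} (hij : i ≠ j) (hi : p i < 0) :
    0 < p j := by
  obtain ⟨h1, h2⟩ := hp
  have h0 : p 0 < 0 → 0 < p 1 ∧ 0 < p 2 := fun h => aux_pos (by linarith) (by linarith) h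
  have h1' : p 1 < 0 → 0 < p 0 ∧ 0 < p 2 := fun h => aux_pos (by linarith) (by linarith) h
  have h2' : p 2 < 0 → 0 < p 0 ∧ 0 < p 1 := fun h => aux_pos (by linarith) (by linarith) h
  fin_cases i <;> fin_cases j <;> simp at hij hi ⊢
  · exact (h0 hi).1
  · exact (h0 hi).2
  · exact (h1' hi).1
  · exact (h1' hi).2
  · exact (h2' hi).1
  · exact (h2' hi).2

/-- the base point -/
def bp : Fin 3 → ℝ := fun _ => 1

theorem bp_mem : bp ∈ Cn := by
  simp [Cn, bp]
  norm_num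

theorem pingpong : ∀ (ω : List (Fin 3)), ω.IsChain (· ≠ ·) →
    ∀ i, ω.head? = some i → ((rho (cs.wordProd ω)).val *ᵥ bp) i < 0 := by
  intro ω
  induction ω with
  | nil => intro _ i hi; simp at hi
  | cons a l ih =>
    intro hch i hi
    simp only [List.head?_cons, Option.some.injEq] at hi
    subst hi
    rw [cs.wordProd_cons, map_mul, Units.val_mul, ← Matrix.mulVec_mulVec, rho_simple_val,
      gm_apply_self]
    have hmem : (rho (cs.wordProd l)).val *ᵥ bp ∈ Cn := rho_mem _ bp_mem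
    cases l with
    | nil => simp [bp]
    | cons b l' =>
      have hab : a ≠ b := by
        rw [List.isChain_cons_cons] at hch
        exact hch.1
      have hch' : (b :: l').IsChain (· ≠ ·) := by
        rw [List.isChain_cons_cons] at hch
        exact hch.2
      have := ih hch' b rfl
      have := pos_of_neg hmem hab.symm this
      linarith

theorem reduced_chain : ∀ (ω : List (Fin 3)), cs.IsReduced ω → ω.IsChain (· ≠ ·) := by
  intro ω
  induction ω with
  | nil => intro _; exact List.isChain_nil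
  | cons a l ih =>
    intro hred
    cases l with
    | nil => exact List.isChain_singleton _
    | cons b l' =>
      rw [List.isChain_cons_cons]
      refine ⟨?_, ih ?_⟩
      · rintro rfl
        have h1 : cs.wordProd (a :: a :: l') = cs.wordProd l' := by
          rw [cs.wordProd_cons, cs.wordProd_cons, ← mul_assoc, cs.simple_mul_simple_self, one_mul]
        have h2 : cs.length (cs.wordProd (a :: a :: l')) = (a :: a :: l').length := hred
        rw [h1] at h2
        have h3 := cs.length_wordProd_le l'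
        simp at h2
        omega
      · have := hred.drop 1
        simpa using this

theorem rho_injective : Function.Injective rho := by
  rw [injective_iff_map_eq_one]
  intro w hw
  obtain ⟨ω, hred, rfl⟩ := cs.exists_isReduced w
  cases ω with
  | nil => simp
  | cons a l =>
    exfalso
    have := pingpong _ (reduced_chain _ hred) a rfl
    rw [hw] at this
    simp [bp] at this
    linarith

/-! ### The cone -/

theorem Cn_open : IsOpen Cn := by
  have h1 : IsOpen {p : Fin 3 → ℝ | 0 < p 0 * p 1 + p 1 * p 2 + p 0 * p 2} :=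
    isOpen_lt continuous_const (by fun_prop)
  have h2 : IsOpen {p : Fin 3 → ℝ | 0 < p 0 + p 1 + p 2} :=
    isOpen_lt continuous_const (by fun_prop)
  exact h1.inter h2

/-- the reversed Cauchy-Schwarz inequality -/
theorem polar_pos {p q : Fin 3 → ℝ} (hp : p ∈ Cn) (hq : q ∈ Cn) :
    0 < p 0 * (q 1 + q 2) + p 1 * (q 0 + q 2) + p 2 * (q 0 + q 1) := by
  obtain ⟨h1, h2⟩ := hp
  obtain ⟨h3, h4⟩ := hq
  set P := p 0 ^ 2 + p 1 ^ 2 + p 2 ^ 2 with hP
  set Q := q 0 ^ 2 + q 1 ^ 2 + q 2 ^ 2 with hQ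
  set S := p 0 + p 1 + p 2 with hS
  set T := q 0 + q 1 + q 2 with hT
  have hPS : P < S ^ 2 := by rw [hP, hS]; nlinarith
  have hQT : Q < T ^ 2 := by rw [hQ, hT]; nlinarith
  have hP0 : 0 ≤ P := by positivity
  have hQ0 : 0 ≤ Q := by positivity
  have hcs : (p 0 * q 0 + p 1 * q 1 + p 2 * q 2) ^ 2 ≤ P * Q := by
    rw [hP, hQ]
    nlinarith [sq_nonneg (p 0 * q 1 - p 1 * q 0), sq_nonneg (p 0 * q 2 - p 2 * q 0),
      sq_nonneg (p 1 * q 2 - p 2 * q 1)]
  have hlt : P * Q < (S * T) ^ 2 := by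
    rw [mul_pow]
    have hT2 : 0 < T ^ 2 := by positivity
    nlinarith
  have h5 : p 0 * q 0 + p 1 * q 1 + p 2 * q 2 < S * T := by
    apply lt_of_pow_lt_pow_left₀ 2 (by positivity)
    exact lt_of_le_of_lt hcs hlt
  have h6 : S * T = (p 0 * (q 1 + q 2) + p 1 * (q 0 + q 2) + p 2 * (q 0 + q 1)) +
      (p 0 * q 0 + p 1 * q 1 + p 2 * q 2) := by rw [hS, hT]; ring
  linarith

theorem Cn_convex : Convex ℝ Cn := by
  rw [convex_iff_forall_pos]
  intro p hp q hq a b ha hb _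
  have h := polar_pos hp hq
  obtain ⟨h1, h2⟩ := hp
  obtain ⟨h3, h4⟩ := hq
  constructor
  · simp only [Pi.add_apply, Pi.smul_apply, smul_eq_mul]
    have e : (a * p 0 + b * q 0) * (a * p 1 + b * q 1) + (a * p 1 + b * q 1) * (a * p 2 + b * q 2) +
        (a * p 0 + b * q 0) * (a * p 2 + b * q 2) = a ^ 2 * (p 0 * p 1 + p 1 * p 2 + p 0 * p 2) +
        b ^ 2 * (q 0 * q 1 + q 1 * q 2 + q 0 * q 2) +
        a * b * (p 0 * (q 1 + q 2) + p 1 * (q 0 + q 2) + p 2 * (q 0 + q 1)) := by ring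
    rw [e]
    positivity
  · simp only [Pi.add_apply, Pi.smul_apply, smul_eq_mul]
    have e : (a * p 0 + b * q 0) + (a * p 1 + b * q 1) + (a * p 2 + b * q 2) =
      a * (p 0 + p 1 + p 2) + b * (q 0 + q 1 + q 2) := by ring
    rw [e]
    positivity

theorem Cn_smul {p : Fin 3 → ℝ} (hp : p ∈ Cn) {t : ℝ} (ht : 0 < t) : t • p ∈ Cn := by
  obtain ⟨h1, h2⟩ := hp
  constructor
  · simp only [Pi.smul_apply, smul_eq_mul]
    have e : (t * p 0) * (t * p 1) + (t * p 1) * (t * p 2) + (t * p 0) * (t * p 2) =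
      t ^ 2 * (p 0 * p 1 + p 1 * p 2 + p 0 * p 2) := by ring
    rw [e]
    positivity
  · simp only [Pi.smul_apply, smul_eq_mul]
    have e : t * p 0 + t * p 1 + t * p 2 = t * (p 0 + p 1 + p 2) := by ring
    rw [e]
    positivity

/-- the closure of the cone -/
theorem mem_closure_iff' (p : Fin 3 → ℝ) : p ∈ closure Cn ↔
    0 ≤ p 0 * p 1 + p 1 * p 2 + p 0 * p 2 ∧ 0 ≤ p 0 + p 1 + p 2 := by
  constructor
  · intro h
    have hc1 : IsClosed {p : Fin 3 → ℝ | 0 ≤ p 0 * p 1 + p 1 * p 2 + p 0 * p 2} :=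
      isClosed_le continuous_const (by fun_prop)
    have hc2 : IsClosed {p : Fin 3 → ℝ | 0 ≤ p 0 + p 1 + p 2} :=
      isClosed_le continuous_const (by fun_prop)
    have hsub : Cn ⊆ {p : Fin 3 → ℝ | 0 ≤ p 0 * p 1 + p 1 * p 2 + p 0 * p 2} ∩
        {p : Fin 3 → ℝ | 0 ≤ p 0 + p 1 + p 2} := fun x hx => ⟨hx.1.le, hx.2.le⟩
    exact closure_minimal hsub (hc1.inter hc2) h
  · rintro ⟨h1, h2⟩
    have hlim : Filter.Tendsto (fun n : ℕ => p + (1 / ((n : ℝ) + 1)) • bp) Filter.atTop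
        (nhds (p + (0 : ℝ) • bp)) := by
      apply Filter.Tendsto.add tendsto_const_nhds
      apply Filter.Tendsto.smul_const
      exact tendsto_one_div_add_atTop_nhds_zero_nat
    rw [zero_smul, add_zero] at hlim
    refine mem_closure_of_tendsto hlim (Filter.Eventually.of_forall fun n => ?_)
    have hn : 0 < 1 / ((n : ℝ) + 1) := by positivity
    generalize 1 / ((n : ℝ) + 1) = ε at hn
    constructor
    · simp only [Pi.add_apply, Pi.smul_apply, smul_eq_mul, bp, mul_one]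
      nlinarith [mul_nonneg hn.le h2, mul_pos hn hn]
    · simp only [Pi.add_apply, Pi.smul_apply, smul_eq_mul, bp, mul_one]
      linarith

theorem Cn_proper (x v : Fin 3 → ℝ) (hv : v ≠ 0) : ∃ t : ℝ, x + t • v ∉ closure Cn := by
  by_contra hcon
  push Not at hcon
  simp only [mem_closure_iff', Pi.add_apply, Pi.smul_apply, smul_eq_mul] at hcon
  have hS : v 0 + v 1 + v 2 = 0 := by
    by_contra hne
    have := (hcon (-(x 0 + x 1 + x 2 + 1) / (v 0 + v 1 + v 2))).2
    have e : x 0 + -(x 0 + x 1 + x 2 + 1) / (v 0 + v 1 + v 2) * v 0 +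
        (x 1 + -(x 0 + x 1 + x 2 + 1) / (v 0 + v 1 + v 2) * v 1) +
        (x 2 + -(x 0 + x 1 + x 2 + 1) / (v 0 + v 1 + v 2) * v 2) = -1 := by
      field_simp
      ring
    rw [e] at this
    linarith
  have hN : 0 < v 0 ^ 2 + v 1 ^ 2 + v 2 ^ 2 := by
    rcases Function.ne_iff.1 hv with ⟨i, hi⟩
    have hi' : v i ≠ 0 := hi
    fin_cases i
    · have : 0 < v 0 ^ 2 := by positivity
      positivity
    · have : 0 < v 1 ^ 2 := by positivity
      positivity
    · have : 0 < v 2 ^ 2 := by positivity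
      positivity
  set N := v 0 ^ 2 + v 1 ^ 2 + v 2 ^ 2 with hNdef
  set S := x 0 + x 1 + x 2 with hSdef
  have key : ∀ t : ℝ, t ^ 2 * N ≤ S ^ 2 := by
    intro t
    have h1 := (hcon t).1
    have h2 := (hcon (-t)).1
    have hv2 : v 2 = - v 0 - v 1 := by linarith
    rw [hNdef, hSdef]
    rw [hv2] at h1 h2 ⊢
    nlinarith [sq_nonneg (x 0), sq_nonneg (x 1), sq_nonneg (x 2)]
  have h := key ((S ^ 2 + 1) * (1 + N) / N)
  have e : ((S ^ 2 + 1) * (1 + N) / N) ^ 2 * N = (S ^ 2 + 1) ^ 2 * ((1 + N) ^ 2 / N) := by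
    field_simp
  rw [e] at h
  have h4 : 4 ≤ (1 + N) ^ 2 / N := by
    rw [le_div_iff₀ hN]
    nlinarith [sq_nonneg (1 - N)]
  have h5 : (S ^ 2 + 1) ^ 2 * 4 ≤ (S ^ 2 + 1) ^ 2 * ((1 + N) ^ 2 / N) :=
    mul_le_mul_of_nonneg_left h4 (by positivity)
  nlinarith [sq_nonneg S, sq_nonneg (S ^ 2)]

/-! ### Reduction -/

/-- the sum of the coordinates -/
def sm (p : Fin 3 → ℝ) : ℝ := p 0 + p 1 + p 2

theorem sm_gm (i : Fin 3) (p : Fin 3 → ℝ) : sm (gm i *ᵥ p) = sm p + 2 * p i := by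
  fin_cases i
  · show sm (gm 0 *ᵥ p) = sm p + 2 * p 0
    rw [mulVec0]; simp [sm]; ring
  · show sm (gm 1 *ᵥ p) = sm p + 2 * p 1
    rw [mulVec1]; simp [sm]; ring
  · show sm (gm 2 *ᵥ p) = sm p + 2 * p 2
    rw [mulVec2]; simp [sm]; ring

/-- the integer covector `sm ∘ rho w` -/
theorem sm_rho (w : Mx.Group) : ∃ n : Fin 3 → ℤ, ∀ p : Fin 3 → ℝ,
    sm ((rho w).val *ᵥ p) = ∑ j, (n j : ℝ) * p j := by
  choose f hf using rho_int w
  refine ⟨fun j => ∑ i, f i j, fun p => ?_⟩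
  simp only [sm, Matrix.mulVec, dotProduct, hf, Fin.sum_univ_three]
  push_cast
  ring

theorem reduction (p : Fin 3 → ℝ) (hp : p ∈ Cn) :
    ∃ w : Mx.Group, ∀ i, 0 ≤ ((rho w).val *ᵥ p) i := by
  -- a small perturbation
  obtain ⟨ε, hε, hball⟩ := Metric.isOpen_iff.1 Cn_open p hp
  have hpert : ∀ (j : Fin 3) (s : ℝ), |s| < ε → p + s • Pi.single j 1 ∈ Cn := by
    intro j s hs
    apply hball
    rw [Metric.mem_ball, dist_eq_norm, add_sub_cancel_left]
    refine lt_of_le_of_lt ?_ hs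
    rw [norm_smul, Real.norm_eq_abs]
    have : ‖(Pi.single j 1 : Fin 3 → ℝ)‖ ≤ 1 := by
      rw [pi_norm_le_iff_of_nonneg zero_le_one]
      intro i
      by_cases h : i = j
      · subst h; simp
      · simp [Pi.single_eq_of_ne h]
    calc |s| * ‖(Pi.single j 1 : Fin 3 → ℝ)‖ ≤ |s| * 1 := by gcongr
      _ = |s| := mul_one _
  choose n hn using sm_rho
  let K : ℤ := ⌈sm p / (ε / 2)⌉
  let A : Set (Fin 3 → ℤ) := {m | (∃ w, m = n w) ∧ ∑ j, (m j : ℝ) * p j ≤ sm p}
  have hA : A.Finite := by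
    apply (Set.finite_Icc (fun _ : Fin 3 => -K) (fun _ : Fin 3 => K)).subset
    rintro m ⟨⟨w, rfl⟩, hle⟩
    have key : ∀ j, |(n w j : ℝ)| ≤ K := by
      intro j
      have hpos : ∀ s : ℝ, |s| < ε → 0 < sm p + s * n w j := by
        intro s hs
        have h1 := (rho_mem w (hpert j s hs)).2
        have h2 : sm ((rho w).val *ᵥ (p + s • Pi.single j 1)) = ∑ i, (n w i : ℝ) * p i
            + s * n w j := by
          rw [hn]
          simp only [Pi.add_apply, Pi.smul_apply, smul_eq_mul, mul_add, Finset.sum_add_distrib]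
          congr 1
          rw [Finset.sum_eq_single j]
          · simp
            ring
          · intro b _ hb
            simp [Pi.single_eq_of_ne hb]
          · simp
        have h3 : 0 < sm ((rho w).val *ᵥ (p + s • Pi.single j 1)) := h1
        rw [h2] at h3
        linarith
      have h1 := hpos (ε / 2) (by rw [abs_of_pos (by linarith)]; linarith)
      have h2 := hpos (-(ε / 2)) (by rw [abs_neg, abs_of_pos (by linarith)]; linarith)
      have h3 : |(n w j : ℝ)| ≤ sm p / (ε / 2) := by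
        rw [le_div_iff₀ (by linarith)]
        rcases abs_cases (n w j : ℝ) with ⟨h, _⟩ | ⟨h, _⟩
        · rw [h]; linarith
        · rw [h]; linarith
      exact h3.trans (Int.le_ceil _)
    constructor
    · intro j
      have := (abs_le.1 (key j)).1
      exact_mod_cast this
    · intro j
      have := (abs_le.1 (key j)).2
      exact_mod_cast this
  have hne : A.Nonempty := by
    refine ⟨n 1, ⟨1, rfl⟩, ?_⟩
    rw [← hn]
    simp
  obtain ⟨m, ⟨⟨w, rfl⟩, hle⟩, hmin⟩ := Set.exists_min_image A (fun m => ∑ j, (m j : ℝ) * p j) hA hne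
  refine ⟨w, fun i => ?_⟩
  by_contra hneg
  push Not at hneg
  have h1 : ∑ j, (n (cs.simple i * w) j : ℝ) * p j = ∑ j, (n w j : ℝ) * p j +
      2 * ((rho w).val *ᵥ p) i := by
    rw [← hn, ← hn, map_mul, Units.val_mul, ← Matrix.mulVec_mulVec, rho_simple_val, sm_gm]
  have h2 := hmin (n (cs.simple i * w)) ⟨⟨_, rfl⟩, by rw [h1]; linarith⟩
  rw [h1] at h2
  linarith

/-! ### The Hilbert metric -/

/-- the Hilbert metric of the cone -/
noncomputable def dH (x y : Fin 3 → ℝ) : ℝ :=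
  (1 / 2) * Real.log (sInf {t : ℝ | t • y - x ∈ closure Cn} * sInf {t : ℝ | t • x - y ∈ closure Cn})

/-- the horocyclic coordinates: the vector `q` is a positive multiple of
`(x, x² + Y² - x, 1 - x)` -/
def coord (q : Fin 3 → ℝ) (c x Y : ℝ) : Prop :=
  q 0 = c * x ∧ q 1 = c * (x ^ 2 + Y ^ 2 - x) ∧ q 2 = c * (1 - x)

theorem nonneg_of_mem_closure {x y : Fin 3 → ℝ} (hx : x ∈ Cn) (hy : y ∈ Cn) {t : ℝ}
    (h : t • y - x ∈ closure Cn) : 0 ≤ t := by
  rw [mem_closure_iff'] at h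
  have := h.2
  simp only [Pi.sub_apply, Pi.smul_apply, smul_eq_mul] at this
  by_contra hneg
  push Not at hneg
  have h1 := hx.2
  have h2 := hy.2
  nlinarith

theorem sum_nonneg_of {a A b : ℝ} (hpos : 0 < a + b) (hv : 0 ≤ a * A + A * b + a * b) :
    0 ≤ a + A + b := by
  have h1 : (a + b) * (a + A + b) = (a * A + A * b + a * b) + (a ^ 2 + a * b + b ^ 2) := by ring
  have h2 : 0 ≤ a ^ 2 + a * b + b ^ 2 := by nlinarith [sq_nonneg (a + b), sq_nonneg a, sq_nonneg b]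
  have h3 : 0 ≤ (a + b) * (a + A + b) := by rw [h1]; linarith
  exact nonneg_of_mul_nonneg_right h3 hpos

/-- an upper bound for one of the two factors of the Hilbert metric -/
theorem sInf_le_of_coord {p q : Fin 3 → ℝ} (hp : p ∈ Cn) (hq : q ∈ Cn) {c x Y c' x' Y' u : ℝ}
    (h1 : coord p c x Y) (h2 : coord q c' x' Y') (hc : 0 < c) (hc' : 0 < c') (hY : 0 < Y)
    (hY' : 0 < Y') (hu : 0 < u) (hu1 : u ≤ 1) (hx : |x - x'| ≤ u * min Y Y')
    (hYY : |Y - Y'| ≤ u * min Y Y') :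
    0 ≤ sInf {t : ℝ | t • q - p ∈ closure Cn} ∧
      sInf {t : ℝ | t • q - p ∈ closure Cn} ≤ c * Y / (c' * Y') * (1 + 6 * u) := by
  constructor
  · apply Real.sInf_nonneg
    intro t ht
    exact nonneg_of_mem_closure hp hq ht
  · apply csInf_le
    · exact ⟨0, fun t ht => nonneg_of_mem_closure hp hq ht⟩
    · set κ := 1 + 6 * u with hκ
      obtain ⟨a0, a1, a2⟩ := h1
      obtain ⟨b0, b1, b2⟩ := h2
      have hmin : 0 < min Y Y' := lt_min hY hY'
      have hm1 : min Y Y' ≤ Y := min_le_left _ _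
      have hm2 : min Y Y' ≤ Y' := min_le_right _ _
      set μ := min Y Y' with hμ
      have hxx : (x - x') ^ 2 ≤ (u * μ) ^ 2 := by
        rw [← sq_abs (x - x')]
        exact pow_le_pow_left₀ (abs_nonneg _) hx 2
      have hyy : (Y - Y') ^ 2 ≤ (u * μ) ^ 2 := by
        rw [← sq_abs (Y - Y')]
        exact pow_le_pow_left₀ (abs_nonneg _) hYY 2
      have hμ2 : μ ^ 2 ≤ Y * Y' := by nlinarith
      -- the main inequality
      have hmain : κ * ((x - x') ^ 2 + Y ^ 2 + Y' ^ 2) ≤ (κ ^ 2 + 1) * (Y * Y') := by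
        have e1 : (x - x') ^ 2 + Y ^ 2 + Y' ^ 2 = (x - x') ^ 2 + (Y - Y') ^ 2 + 2 * (Y * Y') := by
          ring
        have e2 : (x - x') ^ 2 + (Y - Y') ^ 2 ≤ 2 * u ^ 2 * (Y * Y') := by
          have : (u * μ) ^ 2 ≤ u ^ 2 * (Y * Y') := by
            rw [mul_pow]
            exact mul_le_mul_of_nonneg_left hμ2 (by positivity)
          linarith
        have hκ0 : 0 < κ := by rw [hκ]; linarith
        have e3 : κ * (2 * u ^ 2) ≤ (κ - 1) ^ 2 := by
          rw [hκ]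
          nlinarith [sq_nonneg u]
        have hYY0 : 0 < Y * Y' := by positivity
        rw [e1]
        have e4 : κ * ((x - x') ^ 2 + (Y - Y') ^ 2) ≤ (κ - 1) ^ 2 * (Y * Y') := by
          calc κ * ((x - x') ^ 2 + (Y - Y') ^ 2) ≤ κ * (2 * u ^ 2 * (Y * Y')) := by gcongr
            _ = κ * (2 * u ^ 2) * (Y * Y') := by ring
            _ ≤ (κ - 1) ^ 2 * (Y * Y') := by gcongr
        nlinarith
      have hYκ : Y' < Y * κ := by
        have h3 := (abs_le.1 hYY).1
        have h4 : u * μ ≤ u * Y := by gcongr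
        rw [hκ]
        nlinarith
      -- the coordinates of the vector
      rw [Set.mem_ofPred_eq, mem_closure_iff']
      simp only [Pi.sub_apply, Pi.smul_apply, smul_eq_mul]
      rw [a0, a1, a2, b0, b1, b2]
      set t := c * Y / (c' * Y') * κ with ht
      have htc : t * c' = c * (Y * κ / Y') := by
        rw [ht]; field_simp
      have e0 : t * (c' * x') - c * x = c * (Y * κ / Y' * x' - x) := by
        rw [← mul_assoc, htc]; ring
      have e1 : t * (c' * (x' ^ 2 + Y' ^ 2 - x')) - c * (x ^ 2 + Y ^ 2 - x) =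
          c * (Y * κ / Y' * (x' ^ 2 + Y' ^ 2 - x') - (x ^ 2 + Y ^ 2 - x)) := by
        rw [← mul_assoc, htc]; ring
      have e2 : t * (c' * (1 - x')) - c * (1 - x) = c * (Y * κ / Y' * (1 - x') - (1 - x)) := by
        rw [← mul_assoc, htc]; ring
      rw [e0, e1, e2]
      set τ := Y * κ / Y' with hτ
      have hτ1 : 1 < τ := by rw [hτ, lt_div_iff₀ hY']; linarith
      have hdet : 0 ≤ τ ^ 2 * Y' ^ 2 - τ * ((x - x') ^ 2 + Y ^ 2 + Y' ^ 2) + Y ^ 2 := by
        have e5 : τ ^ 2 * Y' ^ 2 - τ * ((x - x') ^ 2 + Y ^ 2 + Y' ^ 2) + Y ^ 2 =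
            (Y / Y') * ((κ ^ 2 + 1) * (Y * Y') - κ * ((x - x') ^ 2 + Y ^ 2 + Y' ^ 2)) := by
          rw [hτ]
          field_simp
          ring
        rw [e5]
        apply mul_nonneg (by positivity)
        linarith
      have hv : 0 ≤ (τ * x' - x) * (τ * (x' ^ 2 + Y' ^ 2 - x') - (x ^ 2 + Y ^ 2 - x)) +
          (τ * (x' ^ 2 + Y' ^ 2 - x') - (x ^ 2 + Y ^ 2 - x)) * (τ * (1 - x') - (1 - x)) +
          (τ * x' - x) * (τ * (1 - x') - (1 - x)) := by
        have e6 : (τ * x' - x) * (τ * (x' ^ 2 + Y' ^ 2 - x') - (x ^ 2 + Y ^ 2 - x)) +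
          (τ * (x' ^ 2 + Y' ^ 2 - x') - (x ^ 2 + Y ^ 2 - x)) * (τ * (1 - x') - (1 - x)) +
          (τ * x' - x) * (τ * (1 - x') - (1 - x)) =
          τ ^ 2 * Y' ^ 2 - τ * ((x - x') ^ 2 + Y ^ 2 + Y' ^ 2) + Y ^ 2 := by ring
        rw [e6]
        exact hdet
      generalize hA : τ * (x' ^ 2 + Y' ^ 2 - x') - (x ^ 2 + Y ^ 2 - x) = A at hv
      have hsum : 0 ≤ (τ * x' - x) + A + (τ * (1 - x') - (1 - x)) := by
        have hpos : 0 < (τ * x' - x) + (τ * (1 - x') - (1 - x)) := by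
          have : (τ * x' - x) + (τ * (1 - x') - (1 - x)) = τ - 1 := by ring
          rw [this]; linarith
        exact sum_nonneg_of hpos hv
      constructor
      · have e7 : c * (τ * x' - x) * (c * A) + c * A * (c * (τ * (1 - x') - (1 - x))) +
            c * (τ * x' - x) * (c * (τ * (1 - x') - (1 - x))) = c ^ 2 * ((τ * x' - x) * A +
            A * (τ * (1 - x') - (1 - x)) + (τ * x' - x) * (τ * (1 - x') - (1 - x))) := by ring
        rw [e7]
        positivity
      · have e8 : c * (τ * x' - x) + c * A + c * (τ * (1 - x') - (1 - x)) =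
            c * ((τ * x' - x) + A + (τ * (1 - x') - (1 - x))) := by ring
        rw [e8]
        positivity

/-- upper bound for the Hilbert metric -/
theorem dH_le {p q : Fin 3 → ℝ} (hp : p ∈ Cn) (hq : q ∈ Cn) {c x Y c' x' Y' u : ℝ}
    (h1 : coord p c x Y) (h2 : coord q c' x' Y') (hc : 0 < c) (hc' : 0 < c') (hY : 0 < Y)
    (hY' : 0 < Y') (hu : 0 < u) (hu1 : u ≤ 1) (hx : |x - x'| ≤ u * min Y Y')
    (hYY : |Y - Y'| ≤ u * min Y Y') : dH p q ≤ 6 * u := by
  obtain ⟨s1, s2⟩ := sInf_le_of_coord hp hq h1 h2 hc hc' hY hY' hu hu1 hx hYY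
  obtain ⟨t1, t2⟩ := sInf_le_of_coord hq hp h2 h1 hc' hc hY' hY hu hu1
    (by rw [abs_sub_comm, min_comm]; exact hx) (by rw [abs_sub_comm, min_comm]; exact hYY)
  unfold dH
  set a := sInf {t : ℝ | t • q - p ∈ closure Cn} with ha
  set b := sInf {t : ℝ | t • p - q ∈ closure Cn} with hb
  have hab : a * b ≤ (1 + 6 * u) ^ 2 := by
    calc a * b ≤ (c * Y / (c' * Y') * (1 + 6 * u)) * (c' * Y' / (c * Y) * (1 + 6 * u)) :=
          mul_le_mul s2 t2 t1 (by positivity)
      _ = (1 + 6 * u) ^ 2 := by field_simp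
  rcases eq_or_lt_of_le (mul_nonneg s1 t1) with h0 | h0
  · rw [← h0, Real.log_zero]
    linarith
  · have h3 : Real.log (a * b) ≤ Real.log ((1 + 6 * u) ^ 2) := Real.log_le_log h0 hab
    rw [Real.log_pow] at h3
    have h4 : Real.log (1 + 6 * u) ≤ 6 * u := by
      have := Real.log_le_sub_one_of_pos (show (0 : ℝ) < 1 + 6 * u by linarith)
      linarith
    push_cast at h3
    linarith

/-! ### The covering -/

/-- cyclic rotation of the coordinates -/
def rot (k : Fin 3) (p : Fin 3 → ℝ) : Fin 3 → ℝ := fun i => p (i + k)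

theorem rot_mem (k : Fin 3) (p : Fin 3 → ℝ) : rot k p ∈ Cn ↔ p ∈ Cn := by
  fin_cases k
  · have : rot 0 p = p := by ext i; simp [rot]
    show rot 0 p ∈ Cn ↔ _
    rw [this]
  · show rot 1 p ∈ Cn ↔ _
    have h0 : rot 1 p 0 = p 1 := rfl
    have h1 : rot 1 p 1 = p 2 := rfl
    have h2 : rot 1 p 2 = p 0 := rfl
    simp only [Cn, Set.mem_ofPred_eq, h0, h1, h2]
    constructor <;> rintro ⟨h3, h4⟩ <;> constructor <;> linarith
  · show rot 2 p ∈ Cn ↔ _
    have h0 : rot 2 p 0 = p 2 := rfl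
    have h1 : rot 2 p 1 = p 0 := rfl
    have h2 : rot 2 p 2 = p 1 := rfl
    simp only [Cn, Set.mem_ofPred_eq, h0, h1, h2]
    constructor <;> rintro ⟨h3, h4⟩ <;> constructor <;> linarith

theorem rot_mem_closure (k : Fin 3) (p : Fin 3 → ℝ) : rot k p ∈ closure Cn ↔ p ∈ closure Cn := by
  rw [mem_closure_iff', mem_closure_iff']
  fin_cases k
  · have : rot 0 p = p := by ext i; simp [rot]
    show 0 ≤ rot 0 p 0 * rot 0 p 1 + rot 0 p 1 * rot 0 p 2 + rot 0 p 0 * rot 0 p 2 ∧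
      0 ≤ rot 0 p 0 + rot 0 p 1 + rot 0 p 2 ↔ _
    rw [this]
  · have h0 : rot 1 p 0 = p 1 := rfl
    have h1 : rot 1 p 1 = p 2 := rfl
    have h2 : rot 1 p 2 = p 0 := rfl
    show 0 ≤ rot 1 p 0 * rot 1 p 1 + rot 1 p 1 * rot 1 p 2 + rot 1 p 0 * rot 1 p 2 ∧
      0 ≤ rot 1 p 0 + rot 1 p 1 + rot 1 p 2 ↔ _
    rw [h0, h1, h2]
    constructor <;> rintro ⟨h3, h4⟩ <;> constructor <;> linarith
  · have h0 : rot 2 p 0 = p 2 := rfl
    have h1 : rot 2 p 1 = p 0 := rfl
    have h2 : rot 2 p 2 = p 1 := rfl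
    show 0 ≤ rot 2 p 0 * rot 2 p 1 + rot 2 p 1 * rot 2 p 2 + rot 2 p 0 * rot 2 p 2 ∧
      0 ≤ rot 2 p 0 + rot 2 p 1 + rot 2 p 2 ↔ _
    rw [h0, h1, h2]
    constructor <;> rintro ⟨h3, h4⟩ <;> constructor <;> linarith

theorem dH_rot (k : Fin 3) (p q : Fin 3 → ℝ) : dH (rot k p) (rot k q) = dH p q := by
  have key : ∀ x y : Fin 3 → ℝ, {t : ℝ | t • rot k y - rot k x ∈ closure Cn} =
      {t : ℝ | t • y - x ∈ closure Cn} := by
    intro x y
    ext t
    have : t • rot k y - rot k x = rot k (t • y - x) := by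
      ext i; simp [rot]
    rw [Set.mem_ofPred_eq, Set.mem_ofPred_eq, this, rot_mem_closure]
  unfold dH
  rw [key, key]

/-- the pieces of the covering -/
def piece (N : ℕ) (a : Fin 3 × Fin N × ℕ) : Set (Fin 3 → ℝ) :=
  {p | p ∈ Cn ∧ ∃ c x Y : ℝ, coord (rot a.1 p) c x Y ∧ 0 < c ∧ (a.2.1 : ℝ) / N ≤ x ∧
    x ≤ ((a.2.1 : ℝ) + 1) / N ∧ 1 / 2 + (a.2.2 : ℝ) / N ≤ Y ∧ Y ≤ 1 / 2 + ((a.2.2 : ℝ) + 1) / N}

/-- the diameter of a piece -/
theorem piece_dist {N : ℕ} (hN : 2 ≤ N) (a : Fin 3 × Fin N × ℕ) {p q : Fin 3 → ℝ}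
    (hp : p ∈ piece N a) (hq : q ∈ piece N a) :
    dH p q ≤ 6 * (1 / ((a.2.2 : ℝ) + N / 2)) := by
  obtain ⟨k, i, m⟩ := a
  obtain ⟨hpC, c, x, Y, h1, hc, hx1, hx2, hY1, hY2⟩ := hp
  obtain ⟨hqC, c', x', Y', h1', hc', hx1', hx2', hY1', hY2'⟩ := hq
  simp only at *
  rw [← dH_rot k]
  have hN0 : (2 : ℝ) ≤ N := by exact_mod_cast hN
  have hN1 : (0 : ℝ) < N := by linarith
  have hm0 : (0 : ℝ) ≤ m := Nat.cast_nonneg m
  have hmN : 0 ≤ (m : ℝ) / N := by positivity
  have hlow : 1 / 2 + (m : ℝ) / N = ((m : ℝ) + N / 2) / N := by field_simp; ring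
  have hu : 1 / ((m : ℝ) + N / 2) * (1 / 2 + (m : ℝ) / N) = 1 / N := by
    rw [hlow]
    have : (m : ℝ) + N / 2 ≠ 0 := by positivity
    field_simp
  have hmin : 1 / 2 + (m : ℝ) / N ≤ min Y Y' := le_min hY1 hY1'
  have hbound : 1 / (N : ℝ) ≤ 1 / ((m : ℝ) + N / 2) * min Y Y' := by
    rw [← hu]
    gcongr
  have hx3 : ((i : ℕ) : ℝ) / N + 1 / N = (((i : ℕ) : ℝ) + 1) / N := by ring
  have hY3 : (m : ℝ) / N + 1 / N = ((m : ℝ) + 1) / N := by ring
  apply dH_le ((rot_mem k p).2 hpC) ((rot_mem k q).2 hqC) h1 h1' hc hc'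
  · linarith
  · linarith
  · positivity
  · rw [div_le_one (by positivity)]
    linarith
  · refine le_trans ?_ hbound
    rw [abs_le]
    constructor <;> linarith
  · refine le_trans ?_ hbound
    rw [abs_le]
    constructor <;> linarith

/-- the pieces cover the positive orthant -/
theorem piece_cover {N : ℕ} (hN : 2 ≤ N) {p : Fin 3 → ℝ} (hp : p ∈ Cn) (h0 : ∀ i, 0 ≤ p i) :
    ∃ a, p ∈ piece N a := by
  have hN0 : (2 : ℝ) ≤ N := by exact_mod_cast hN
  have hN1 : (0 : ℝ) < N := by linarith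
  -- the largest coordinate
  obtain ⟨j, -, hj⟩ := Finset.exists_max_image Finset.univ p ⟨0, Finset.mem_univ 0⟩
  have hj' : ∀ i, p i ≤ p j := fun i => hj i (Finset.mem_univ i)
  set q := rot (j - 1) p with hq
  have hqC : q ∈ Cn := (rot_mem _ _).2 hp
  have hq1 : q 1 = p j := by rw [hq]; simp [rot]
  have hq0 : ∀ i, 0 ≤ q i := fun i => h0 _
  have hqm : ∀ i, q i ≤ q 1 := fun i => by rw [hq1]; exact hj' _
  obtain ⟨g1, g2⟩ := hqC
  have hc : 0 < q 0 + q 2 := by
    rcases eq_or_lt_of_le (add_nonneg (hq0 0) (hq0 2)) with h | h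
    · exfalso
      have e1 : q 0 = 0 := by linarith [hq0 0, hq0 2]
      have e2 : q 2 = 0 := by linarith [hq0 0, hq0 2]
      rw [e1, e2] at g1
      simp at g1
    · exact h
  set c := q 0 + q 2 with hcdef
  set x := q 0 / c with hx
  set D := q 0 * q 1 + q 1 * q 2 + q 0 * q 2 with hD
  set Y := Real.sqrt D / c with hY
  have hY2 : Y ^ 2 = D / c ^ 2 := by
    rw [hY, div_pow, Real.sq_sqrt g1.le]
  have hx0 : 0 ≤ x := div_nonneg (hq0 0) hc.le
  have hx1 : x ≤ 1 := by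
    rw [hx, div_le_one hc]
    linarith [hq0 2]
  have hY0 : 1 / 2 ≤ Y := by
    have h1 : (1 / 2 : ℝ) ^ 2 ≤ Y ^ 2 := by
      rw [hY2, le_div_iff₀ (by positivity)]
      have e0 := hqm 0
      have e2 := hqm 2
      have e3 := hq0 0
      have e4 := hq0 2
      rw [hD, hcdef]
      nlinarith [mul_nonneg e3 e4, mul_nonneg e3 (sub_nonneg.2 e0), mul_nonneg e4 (sub_nonneg.2 e2)]
    exact le_of_sq_le_sq h1 (by positivity)
  have hcoord : coord q c x Y := by
    refine ⟨?_, ?_, ?_⟩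
    · rw [hx]; field_simp
    · rw [hY2, hx, hD, hcdef]
      have : q 0 + q 2 ≠ 0 := by rw [← hcdef]; exact hc.ne'
      field_simp
      ring
    · rw [hx]; field_simp
      rw [hcdef]; ring
  -- the indices
  have hi : ∃ i : Fin N, (i : ℝ) / N ≤ x ∧ x ≤ ((i : ℝ) + 1) / N := by
    rcases eq_or_lt_of_le hx1 with h | h
    · refine ⟨⟨N - 1, by omega⟩, ?_, ?_⟩
      · rw [h, div_le_one hN1]
        have : (N - 1 : ℕ) ≤ N := Nat.sub_le _ _
        exact_mod_cast this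
      · rw [h]
        have : ((N - 1 : ℕ) : ℝ) + 1 = N := by
          have : 1 ≤ N := by omega
          push_cast [this]
          ring
        show 1 ≤ (((N - 1 : ℕ) : ℝ) + 1) / N
        rw [this, div_self hN1.ne']
    · refine ⟨⟨⌊x * N⌋₊, ?_⟩, ?_, ?_⟩
      · rw [Nat.floor_lt (by positivity)]
        nlinarith
      · rw [div_le_iff₀ hN1]
        exact Nat.floor_le (by positivity)
      · rw [le_div_iff₀ hN1]
        exact (Nat.lt_floor_add_one _).le
  obtain ⟨i, hi1, hi2⟩ := hi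
  refine ⟨(j - 1, i, ⌊(Y - 1 / 2) * N⌋₊), hp, c, x, Y, hcoord, hc, hi1, hi2, ?_, ?_⟩
  · have h5 : (⌊(Y - 1 / 2) * N⌋₊ : ℝ) ≤ (Y - 1 / 2) * N :=
      Nat.floor_le (mul_nonneg (by linarith) hN1.le)
    have h6 : (⌊(Y - 1 / 2) * N⌋₊ : ℝ) / N ≤ Y - 1 / 2 := by
      rw [div_le_iff₀ hN1]; exact h5
    simp only
    linarith
  · have h5 : (Y - 1 / 2) * N ≤ (⌊(Y - 1 / 2) * N⌋₊ : ℝ) + 1 := (Nat.lt_floor_add_one _).le
    have h6 : Y - 1 / 2 ≤ ((⌊(Y - 1 / 2) * N⌋₊ : ℝ) + 1) / N := by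
      rw [le_div_iff₀ hN1]; exact h5
    simp only
    linarith

/-! ### The measure of the ideal triangle -/

theorem sum_bound {c : ℝ} (hc : 1 < c) (n : ℕ) :
    ∑ m ∈ Finset.range n, (6 * (1 / ((m : ℝ) + c))) ^ 2 ≤ 36 / (c - 1) - 36 / (n + c - 1) := by
  induction n with
  | zero => simp
  | succ n ih =>
    rw [Finset.sum_range_succ]
    have hn : (0 : ℝ) ≤ n := Nat.cast_nonneg n
    have h1 : (0 : ℝ) < n + c := by linarith
    have h2 : (0 : ℝ) < n + c - 1 := by linarith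
    have h3 : (6 * (1 / ((n : ℝ) + c))) ^ 2 ≤ 36 / (n + c - 1) - 36 / (n + c) := by
      rw [div_sub_div _ _ h2.ne' h1.ne', mul_pow, div_pow, one_pow, mul_one_div,
        div_le_div_iff₀ (by positivity) (by positivity)]
      nlinarith
    have e : ((n + 1 : ℕ) : ℝ) + c - 1 = n + c := by push_cast; ring
    rw [e]
    linarith

theorem tsum_bound {N : ℕ} (hN : 4 ≤ N) :
    ∑' a : Fin 3 × Fin N × ℕ, ENNReal.ofReal (6 * (1 / ((a.2.2 : ℝ) + N / 2))) ^ 2 ≤
      ENNReal.ofReal 432 := by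
  have hN0 : (4 : ℝ) ≤ N := by exact_mod_cast hN
  have hinner : ∑' m : ℕ, ENNReal.ofReal (6 * (1 / ((m : ℝ) + N / 2))) ^ 2 ≤
      ENNReal.ofReal (36 / ((N : ℝ) / 2 - 1)) := by
    apply ENNReal.tsum_le_of_sum_range_le
    intro n
    have h1 : ∑ m ∈ Finset.range n, ENNReal.ofReal (6 * (1 / ((m : ℝ) + N / 2))) ^ 2 =
        ENNReal.ofReal (∑ m ∈ Finset.range n, (6 * (1 / ((m : ℝ) + N / 2))) ^ 2) := by
      rw [ENNReal.ofReal_sum_of_nonneg (fun m _ => by positivity)]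
      refine Finset.sum_congr rfl fun m _ => ?_
      rw [ENNReal.ofReal_pow (by positivity)]
    rw [h1]
    apply ENNReal.ofReal_le_ofReal
    have h2 := sum_bound (c := (N : ℝ) / 2) (by linarith) n
    have h3 : 0 ≤ 36 / ((n : ℝ) + N / 2 - 1) := by
      have : (0 : ℝ) ≤ n := Nat.cast_nonneg n
      apply div_nonneg (by norm_num)
      linarith
    linarith
  rw [ENNReal.tsum_prod', tsum_fintype]
  simp only [Finset.sum_const, Finset.card_univ, Fintype.card_fin]
  rw [ENNReal.tsum_prod', tsum_fintype]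
  simp only [Finset.sum_const, Finset.card_univ, Fintype.card_fin]
  calc 3 • (N • ∑' m : ℕ, ENNReal.ofReal (6 * (1 / ((m : ℝ) + N / 2))) ^ 2) ≤
        3 • (N • ENNReal.ofReal (36 / ((N : ℝ) / 2 - 1))) := by gcongr
    _ = ENNReal.ofReal (3 * (N * (36 / ((N : ℝ) / 2 - 1)))) := by
        rw [ENNReal.ofReal_mul (by norm_num), ENNReal.ofReal_mul (by linarith)]
        simp
    _ ≤ ENNReal.ofReal 432 := by
        apply ENNReal.ofReal_le_ofReal
        have h : (0 : ℝ) < (N : ℝ) / 2 - 1 := by linarith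
        rw [← mul_assoc, mul_div_assoc', div_le_iff₀ h]
        nlinarith

/-- the diameter -/
noncomputable def diamH (U : Set (Fin 3 → ℝ)) : ENNReal :=
  ⨆ x ∈ U, ⨆ y ∈ U, ENNReal.ofReal (dH x y)

theorem piece_diam {N : ℕ} (hN : 2 ≤ N) (a : Fin 3 × Fin N × ℕ) :
    diamH (piece N a) ≤ ENNReal.ofReal (6 * (1 / ((a.2.2 : ℝ) + N / 2))) := by
  unfold diamH
  refine iSup₂_le fun x hx => iSup₂_le fun y hy => ?_
  exact ENNReal.ofReal_le_ofReal (piece_dist hN a hx hy)

theorem exists_cover {r : ℝ} (hr : 0 < r) : ∃ U : ℕ → Set (Fin 3 → ℝ),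
    {p : Fin 3 → ℝ | p ∈ Cn ∧ ∀ i, 0 ≤ p i} ⊆ ⋃ i, U i ∧
    (∀ i, U i ⊆ Cn ∧ diamH (U i) ≤ ENNReal.ofReal r) ∧
    ∑' i, diamH (U i) ^ 2 ≤ ENNReal.ofReal 432 := by
  obtain ⟨N, hN⟩ := exists_nat_ge (max 4 (12 / r))
  have hN4 : 4 ≤ N := by
    have : (4 : ℝ) ≤ N := le_trans (le_max_left _ _) hN
    exact_mod_cast this
  have hNr : 12 / r ≤ N := le_trans (le_max_right _ _) hN
  have hN0 : (4 : ℝ) ≤ N := by exact_mod_cast hN4
  have : Nonempty (Fin N) := ⟨⟨0, by omega⟩⟩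
  have : Infinite (Fin 3 × Fin N × ℕ) := inferInstance
  obtain ⟨e⟩ : Nonempty (ℕ ≃ Fin 3 × Fin N × ℕ) := by
    obtain ⟨h⟩ := nonempty_denumerable (Fin 3 × Fin N × ℕ)
    exact ⟨(Denumerable.eqv _).symm⟩
  refine ⟨fun i => piece N (e i), ?_, ?_, ?_⟩
  · rintro p ⟨hp, h0⟩
    obtain ⟨a, ha⟩ := piece_cover (N := N) (by omega) hp h0
    rw [Set.mem_iUnion]
    exact ⟨e.symm a, by simpa using ha⟩
  · intro i
    refine ⟨fun p hp => hp.1, (piece_diam (by omega) _).trans ?_⟩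
    apply ENNReal.ofReal_le_ofReal
    have hm : (0 : ℝ) ≤ ((e i).2.2 : ℝ) := Nat.cast_nonneg _
    rw [mul_one_div, div_le_iff₀ (by positivity)]
    have : 12 ≤ N * r := by rwa [div_le_iff₀ hr] at hNr
    nlinarith
  · calc ∑' i, diamH (piece N (e i)) ^ 2 = ∑' a, diamH (piece N a) ^ 2 :=
          Equiv.tsum_eq e (fun a => diamH (piece N a) ^ 2)
      _ ≤ ∑' a : Fin 3 × Fin N × ℕ, ENNReal.ofReal (6 * (1 / ((a.2.2 : ℝ) + N / 2))) ^ 2 := by
          refine ENNReal.tsum_le_tsum fun a => ?_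
          gcongr
          exact piece_diam (by omega) a
      _ ≤ ENNReal.ofReal 432 := tsum_bound hN4

/-- The negation of the preceding statement: If a faithful det ±1 linear image of a Coxeter group is discrete, preserves a properly convex open cone, and has a finite-Hilbert-volume quotient, then each generator is a reflection and the group is the reflection group of a Coxeter polytope with facets indexed by the generators. -/
theorem result :
    ¬ (∀ (n : ℕ), 1 ≤ n →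
  ∀ (B W : Type) [Group W] (M : CoxeterMatrix B) (cs : CoxeterSystem M W)
    (ρ : W →* (Matrix (Fin (n+1)) (Fin (n+1)) ℝ)ˣ),
    Function.Injective ρ →
    (∀ w, (ρ w).val.det = 1 ∨ (ρ w).val.det = -1) →
  ∀ (C : Set (Fin (n+1) → ℝ)),
    IsOpen C → Convex ℝ C → C.Nonempty →
    (∀ x ∈ C, ∀ t : ℝ, 0 < t → t • x ∈ C) →
    (∀ x v : Fin (n+1) → ℝ, v ≠ 0 → ∃ t : ℝ, x + t • v ∉ closure C) →
    (∀ (w : W) (x : Fin (n+1) → ℝ), x ∈ C → (ρ w).val *ᵥ x ∈ C) →
    (∃ ε : ℝ, 0 < ε ∧ ∀ w : W,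
      (∀ i j, |(ρ w).val i j - (1 : Matrix (Fin (n+1)) (Fin (n+1)) ℝ) i j| < ε) → ρ w = 1) →
  ∀ (d : (Fin (n+1) → ℝ) → (Fin (n+1) → ℝ) → ℝ),
    (∀ x y, d x y = (1/2) * Real.log (sInf {t : ℝ | t • y - x ∈ closure C}
                                        * sInf {t : ℝ | t • x - y ∈ closure C})) →
  ∀ (diam : Set (Fin (n+1) → ℝ) → ENNReal),
    (∀ U, diam U = ⨆ x ∈ U, ⨆ y ∈ U, ENNReal.ofReal (d x y)) →
  ∀ (H : Set (Fin (n+1) → ℝ) → ENNReal),
    (∀ F, H F = ⨆ (r : ℝ) (_ : 0 < r), ⨅ (U : ℕ → Set (Fin (n+1) → ℝ))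
        (_ : F ⊆ ⋃ i, U i) (_ : ∀ i, U i ⊆ C ∧ diam (U i) ≤ ENNReal.ofReal r),
        ∑' i, diam (U i) ^ n) →
    (∃ F ⊆ C, (∀ x ∈ C, ∃ w : W, (ρ w).val *ᵥ x ∈ F) ∧ H F < ⊤) →
  (∀ b : B, ∃ α v : Fin (n+1) → ℝ, α ⬝ᵥ v = 2 ∧
      (ρ (cs.simple b)).val = 1 - Matrix.vecMulVec v α) ∧
  (Finite B ∧ ∃ α v : B → Fin (n+1) → ℝ,
     (∀ b, α b ⬝ᵥ v b = 2 ∧ (ρ (cs.simple b)).val = 1 - Matrix.vecMulVec (v b) (α b)) ∧
     (∃ x : Fin (n+1) → ℝ, ∀ b, α b ⬝ᵥ x < 0) ∧
     (∀ b, ∃ x : Fin (n+1) → ℝ, α b ⬝ᵥ x = 0 ∧ ∀ c, c ≠ b → α c ⬝ᵥ x < 0) ∧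
     (∀ w : W, ρ w ≠ 1 → ∀ x : Fin (n+1) → ℝ, (∀ b, α b ⬝ᵥ x < 0) →
        ¬ ∀ b, α b ⬝ᵥ ((ρ w).val *ᵥ x) < 0))) := by
  intro hmain
  have hconc := hmain 2 (by norm_num) (Fin 3) Mx.Group Mx cs rho rho_injective
    (fun w => Or.inl (rho_det w)) Cn Cn_open Cn_convex ⟨bp, bp_mem⟩
    (fun x hx t ht => Cn_smul hx ht) Cn_proper (fun w x hx => rho_mem w hx)
    ?_ dH (fun _ _ => rfl) diamH (fun _ => rfl)
    (fun F => ⨆ (r : ℝ) (_ : 0 < r), ⨅ (U : ℕ → Set (Fin 3 → ℝ))
        (_ : F ⊆ ⋃ i, U i) (_ : ∀ i, U i ⊆ Cn ∧ diamH (U i) ≤ ENNReal.ofReal r),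
        ∑' i, diamH (U i) ^ 2) (fun _ => rfl) ?_
  · -- the first generator is not a reflection: its trace is `-1`
    obtain ⟨α, v, h1, h2⟩ := hconc.1 0
    rw [rho_simple_val] at h2
    have h3 := congrArg Matrix.trace h2
    rw [Matrix.trace_sub, Matrix.trace_one, Matrix.trace_vecMulVec, dotProduct_comm, h1] at h3
    simp [gm, Matrix.trace, Fin.sum_univ_three] at h3
    norm_num at h3
  · -- discreteness
    refine ⟨1, one_pos, fun w hw => ?_⟩
    ext i j
    obtain ⟨k, hk⟩ := rho_int w i j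
    have h1 := hw i j
    rw [hk] at h1 ⊢
    rw [Units.val_one]
    by_cases hij : i = j
    · subst hij
      rw [Matrix.one_apply_eq] at h1 ⊢
      have h2 : |((k - 1 : ℤ) : ℝ)| < 1 := by push_cast; exact h1
      rw [← Int.cast_abs] at h2
      have h3 : |k - 1| < 1 := by exact_mod_cast h2
      have h4 : k = 1 := by
        have := Int.abs_lt_one_iff.1 h3
        omega
      rw [h4, Int.cast_one]
    · rw [Matrix.one_apply_ne hij] at h1 ⊢
      rw [sub_zero, ← Int.cast_abs] at h1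
      have h3 : |k| < 1 := by exact_mod_cast h1
      rw [Int.abs_lt_one_iff.1 h3, Int.cast_zero]
  · -- finite volume
    refine ⟨{p : Fin 3 → ℝ | p ∈ Cn ∧ ∀ i, 0 ≤ p i}, fun p hp => hp.1, ?_, ?_⟩
    · intro x hx
      obtain ⟨w, hw⟩ := reduction x hx
      exact ⟨w, rho_mem w hx, hw⟩
    · refine lt_of_le_of_lt ?_ (ENNReal.ofReal_lt_top (r := 432))
      refine iSup₂_le fun r hr => ?_
      obtain ⟨U, h1, h2, h3⟩ := exists_cover hr
      exact le_trans (iInf_le_of_le U (iInf_le_of_le h1 (iInf_le_of_le h2 le_rfl))) h3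

end Pool.Agent.S12964
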