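import Pool.Statements.S13073
import Pool.Agent.W595.S13073Aux

set_option autoImplicit false
open scoped Manifold
open CategoryTheory AlgebraicTopology
open Pool Pool.MP_4139f5_gt

namespace Pool.Agent.S13073

/-- For N at least 4, any continuous locally injective map of a compact connected surface with nonempty boundary into R^N, whose image spans R^N affinely and whose half-space preimages inject on mod-2 H0 and H1, has a convex hull spanned by finitely many points. -/
theorem result :
  ∀ (N : ℕ), 4 ≤ N →
  ∀ (M : Type) [TopologicalSpace M] [T2Space M] [CompactSpace M] [ConnectedSpace M]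
    [ChartedSpace (EuclideanHalfSpace 2) M], IsManifold (𝓡∂ 2) 0 M →
    ((𝓡∂ 2).boundary M).Nonempty →
  ∀ f : M → EuclideanSpace ℝ (Fin N), Continuous f →
    (∀ x : M, ∃ U ∈ nhds x, Set.InjOn f U) →
    affineSpan ℝ (Set.range f) = ⊤ →
    (∀ (l : EuclideanSpace ℝ (Fin N) →L[ℝ] ℝ), l ≠ 0 → ∀ c : ℝ, ∀ k : ℕ, k ≤ 1 →
      Mono (((singularHomologyFunctor (ModuleCat.{0} (ZMod 2)) k).obj
          (ModuleCat.of (ZMod 2) (ZMod 2))).map
        (TopCat.ofHom ⟨Subtype.val, continuous_subtype_val⟩ :
          TopCat.of ↥(f ⁻¹' {y | c ≤ l y}) ⟶ TopCat.of M))) →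
    ∃ S : Finset (EuclideanSpace ℝ (Fin N)),
      convexHull ℝ (Set.range f) = convexHull ℝ (↑S : Set (EuclideanSpace ℝ (Fin N))) := by
  intro N hN M _ _ _ _ _ _ hb f hf hloc hspan ht
  have : LocallyPathConnectedSpace M := ChartedSpace.locallyPathConnectedSpace (EuclideanHalfSpace 2) M
  have : PathConnectedSpace M := pathConnectedSpace_iff_connectedSpace.2 inferInstance
  refine Pool.Agent.Helper775.Surf.final_polytope hb hN f hf hloc ?_ (Or.inl ?_)
  · intro z t hz
    by_contra hcon
    push Not at hcon
    have h1 : ∀ y ∈ affineSpan ℝ (Set.range f), inner ℝ z y = t := by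
      intro y hy
      refine affineSpan_induction hy ?_ ?_
      · rintro _ ⟨x, rfl⟩
        exact hcon x
      · intro c u v w hu hv hw
        simp only [vsub_eq_sub, vadd_eq_add, inner_add_right, inner_smul_right, inner_sub_right]
        rw [hu, hv, hw]
        ring
    have h2 : inner ℝ z (0 : EuclideanSpace ℝ (Fin N)) = t := h1 _ (by rw [hspan]; trivial)
    have h3 : inner ℝ z z = t := h1 _ (by rw [hspan]; trivial)
    rw [inner_zero_right] at h2
    rw [← h2] at h3
    exact hz (inner_self_eq_zero.1 h3)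
  · intro z c hz
    have hl : innerSL ℝ z ≠ 0 := by
      intro h
      have h1 : innerSL ℝ z z = 0 := by rw [h]; rfl
      exact hz (inner_self_eq_zero.1 h1)
    refine ⟨?_, ?_⟩
    · exact Pool.Agent.W595.Bridge.preconnected_of_mono _ (ht (innerSL ℝ z) hl c 0 (by norm_num))
    · intro u hu hc hbd
      exact Pool.Agent.W595.Bridge.inj_of_mono _ 1 (ht (innerSL ℝ z) hl c 1 le_rfl) u hu hc hbd

end Pool.Agent.S13073
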