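import Pool.Statements.S13092
import Pool.Agent.R771.HTForm

set_option autoImplicit false
open LaurentPolynomial
open scoped Matrix
open Pool Pool.MP_436001_gt

namespace Pool.Agent.S13092
open Pool.Agent.R771.HT

/-- the integral isometry between the augmentation of the form and the standard form -/
def A0 : Matrix (Fin 4) (Fin 4) ℤ :=
  !![1, 1, 0, 0; 0, 0, 1, 1; -1, -2, -1, -1; -1, -1, -1, -2]

/-- its inverse -/
def B0 : Matrix (Fin 4) (Fin 4) ℤ :=
  !![2, 1, 1, 0; -1, -1, -1, 0; 1, 2, 0, 1; -1, -1, 0, -1]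

theorem A0_mul_B0 : A0 * B0 = 1 := by decide
theorem B0_mul_A0 : B0 * A0 = 1 := by decide
theorem A0_form : A0ᵀ * Lf (1 : ℤ) 1 * A0 = 1 := by decide


/-- The negation of the preceding statement: Suppose a nondegenerate Hermitian Laurent-polynomial form L has boundary linking form isometric to that of H2^g, L at t=1 equals Q plus 2g zeros, and L plus n H2's ≅ Q plus (g+n) H2's. Then L ≅ Q ⊕ H2^g. -/
theorem result :
    ¬ (∀ (σ : LaurentPolynomial ℤ →+* LaurentPolynomial ℤ) (ε : LaurentPolynomial ℤ →+* ℤ),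
      σ (T 1) = T (-1) → ε (T 1) = 1 →
      ∀ (H2 : Matrix (Fin 2) (Fin 2) (LaurentPolynomial ℤ)),
        H2 = !![0, T 1 - 1; T (-1) - 1, 0] →
      ∀ (k : ℕ) (Q : Matrix (Fin k) (Fin k) ℤ), Qᵀ = Q → IsUnit Q.det →
      ∀ (g r : ℕ) (L : Matrix (Fin r) (Fin r) (LaurentPolynomial ℤ)),
        (L.map σ)ᵀ = L → L.det ≠ 0 →
        (∃ (P Q1 : Matrix (Fin 2 × Fin g) (Fin r) (LaurentPolynomial ℤ))
            (P' Q2 : Matrix (Fin r) (Fin 2 × Fin g) (LaurentPolynomial ℤ))
            (S1 M : Matrix (Fin r) (Fin r) (LaurentPolynomial ℤ))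
            (S2 : Matrix (Fin 2 × Fin g) (Fin 2 × Fin g) (LaurentPolynomial ℤ)),
            P * L = Matrix.blockDiagonal (fun _ : Fin g => H2) * Q1 ∧
            P' * Matrix.blockDiagonal (fun _ : Fin g => H2) = L * Q2 ∧
            P' * P = 1 + L * S1 ∧
            P * P' = 1 + Matrix.blockDiagonal (fun _ : Fin g => H2) * S2 ∧
            (L.map (algebraMap (LaurentPolynomial ℤ) (FractionRing (LaurentPolynomial ℤ))))⁻¹
              - ((P.map σ)ᵀ).map (algebraMap (LaurentPolynomial ℤ) (FractionRing (LaurentPolynomial ℤ)))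
                * ((Matrix.blockDiagonal (fun _ : Fin g => H2)).map
                    (algebraMap (LaurentPolynomial ℤ) (FractionRing (LaurentPolynomial ℤ))))⁻¹
                * P.map (algebraMap (LaurentPolynomial ℤ) (FractionRing (LaurentPolynomial ℤ)))
              = M.map (algebraMap (LaurentPolynomial ℤ) (FractionRing (LaurentPolynomial ℤ)))) →
        (∃ (P : Matrix (Fin r) (Fin k ⊕ Fin 2 × Fin g) ℤ)
            (P' : Matrix (Fin k ⊕ Fin 2 × Fin g) (Fin r) ℤ),
            P * P' = 1 ∧ P' * P = 1 ∧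
            Pᵀ * L.map ε * P = Matrix.fromBlocks Q 0 0 0) →
        (∃ (n : ℕ) (P : Matrix (Fin r ⊕ Fin 2 × Fin n) (Fin k ⊕ Fin 2 × Fin (g + n)) (LaurentPolynomial ℤ))
            (P' : Matrix (Fin k ⊕ Fin 2 × Fin (g + n)) (Fin r ⊕ Fin 2 × Fin n) (LaurentPolynomial ℤ)),
            P * P' = 1 ∧ P' * P = 1 ∧
            (P.map σ)ᵀ * Matrix.fromBlocks L 0 0 (Matrix.blockDiagonal (fun _ : Fin n => H2)) * P
              = Matrix.fromBlocks (Q.map (Int.castRingHom (LaurentPolynomial ℤ))) 0 0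
                  (Matrix.blockDiagonal (fun _ : Fin (g + n) => H2))) →
        ∃ (P : Matrix (Fin r) (Fin k ⊕ Fin 2 × Fin g) (LaurentPolynomial ℤ))
          (P' : Matrix (Fin k ⊕ Fin 2 × Fin g) (Fin r) (LaurentPolynomial ℤ)),
          P * P' = 1 ∧ P' * P = 1 ∧
          (P.map σ)ᵀ * L * P
            = Matrix.fromBlocks (Q.map (Int.castRingHom (LaurentPolynomial ℤ))) 0 0
                (Matrix.blockDiagonal (fun _ : Fin g => H2))) := by
  intro H
  have hts : (T 1 : LaurentPolynomial ℤ) * T (-1) = 1 := by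
    rw [← T_add]; simp
  let σ : LaurentPolynomial ℤ →+* LaurentPolynomial ℤ := RingHomClass.toRingHom (invert (R := ℤ))
  let ε : LaurentPolynomial ℤ →+* ℤ := eval₂ (RingHom.id ℤ) 1
  have hσ : σ (T 1) = T (-1) := invert_T 1
  have hσ' : σ (T (-1)) = T 1 := by
    show invert (T (-1)) = T 1
    rw [invert_T, neg_neg]
  have hε : ε (T 1) = 1 := by
    show eval₂ (RingHom.id ℤ) 1 (T 1) = 1
    rw [eval₂_T]; simp
  have hε' : ε (T (-1)) = 1 := by
    show eval₂ (RingHom.id ℤ) 1 (T (-1)) = 1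
    rw [eval₂_T]; simp
  set L : Matrix (Fin 4) (Fin 4) (LaurentPolynomial ℤ) := Lf (T 1) (T (-1)) with hLdef
  have hL : (L.map σ)ᵀ = L := by
    rw [hLdef, map_Lf, hσ, hσ', transpose_Lf, Lf_swap]
  have hLi : L * Li (T 1) (T (-1)) = 1 := Lf_mul_Li _ _
  have hdet : L.det ≠ 0 := by
    intro h0
    have := congrArg Matrix.det hLi
    rw [Matrix.det_mul, h0, zero_mul, Matrix.det_one] at this
    exact zero_ne_one this
  refine absurd (H σ ε hσ hε !![0, T 1 - 1; T (-1) - 1, 0] rfl 4 1
    Matrix.transpose_one (by rw [Matrix.det_one]; exact isUnit_one) 0 4 L hL hdet ?_ ?_ ?_) ?_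
  · -- unimodular: the boundary is that of the empty form
    refine ⟨0, 0, 0, 0, -Li (T 1) (T (-1)), Li (T 1) (T (-1)), 0, ?_, ?_, ?_, ?_, ?_⟩
    · ext i; exact i.2.elim0
    · ext i j; exact j.2.elim0
    · rw [mul_neg, hLi]; simp
    · ext i; exact i.2.elim0
    · have h1 : (L.map (algebraMap (LaurentPolynomial ℤ) (FractionRing (LaurentPolynomial ℤ)))) *
          ((Li (T 1) (T (-1))).map
            (algebraMap (LaurentPolynomial ℤ) (FractionRing (LaurentPolynomial ℤ)))) = 1 := by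
        rw [← Matrix.map_mul, hLi]
        exact Matrix.map_one _ (map_zero _) (map_one _)
      rw [Matrix.inv_eq_right_inv h1]
      simp
  · -- the augmentation
    refine ⟨Matrix.fromCols A0 0, Matrix.fromRows B0 0, ?_, ?_, ?_⟩
    · rw [Matrix.fromCols_mul_fromRows, A0_mul_B0]; simp
    · ext i j
      rcases i with i | ⟨i, u⟩
      · rcases j with j | ⟨j, v⟩
        · have := congrFun (congrFun B0_mul_A0 i) j
          simpa [Matrix.mul_apply, Matrix.one_apply] using this
        · exact v.elim0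
      · exact u.elim0
    · have e1 : L.map ε = Lf (1 : ℤ) 1 := by rw [hLdef, map_Lf, hε, hε']
      rw [e1]
      ext i j
      rcases i with i | ⟨i, u⟩
      · rcases j with j | ⟨j, v⟩
        · have := congrFun (congrFun A0_form i) j
          simpa [Matrix.mul_apply] using this
        · exact v.elim0
      · exact u.elim0
  · -- the stable isometry
    refine ⟨1, (PM (T 1) (T (-1))).submatrix ix ix, (QM (T 1) (T (-1))).submatrix ix ix, ?_, ?_, ?_⟩
    · rw [Matrix.submatrix_mul_equiv, PM_mul_QM _ _ hts, Matrix.submatrix_one_equiv]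
    · rw [Matrix.submatrix_mul_equiv, mul_eq_one_comm.mp (PM_mul_QM _ _ hts),
        Matrix.submatrix_one_equiv]
    · have h1 := isometry (T 1 : LaurentPolynomial ℤ) (T (-1)) hts
      have h2 : ((PM (T 1 : LaurentPolynomial ℤ) (T (-1))).submatrix ix ix).map σ =
          (PM (T (-1)) (T 1)).submatrix ix ix := by
        rw [← Matrix.submatrix_map, map_PM, hσ, hσ']
      have h3 := fromBlocks_Lf (T 1 : LaurentPolynomial ℤ) (T (-1)) hts
      have h4 := fromBlocks_one (T 1 : LaurentPolynomial ℤ) (T (-1))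
      rw [h2, h3, Matrix.transpose_submatrix, Matrix.submatrix_mul_equiv,
        Matrix.submatrix_mul_equiv, h1, ← h4]
      congr 1
      exact (Matrix.map_one _ (map_zero _) (map_one _)).symm
  · -- no vector of norm one
    rintro ⟨P, P', hPP, hPP', hP⟩
    have h := congrFun (congrFun hP (Sum.inl 0)) (Sum.inl 0)
    have hr : Matrix.fromBlocks ((1 : Matrix (Fin 4) (Fin 4) ℤ).map
        (Int.castRingHom (LaurentPolynomial ℤ))) 0 0
        (Matrix.blockDiagonal (fun _ : Fin 0 => !![0, T 1 - 1; T (-1) - 1, 0]))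
        (Sum.inl 0) (Sum.inl 0) = 1 := by simp
    rw [hr] at h
    have hx : x = T 1 + T (-1) := rfl
    refine no_norm_one (P 0 (Sum.inl 0)) (P 1 (Sum.inl 0)) (P 2 (Sum.inl 0)) (P 3 (Sum.inl 0)) ?_
    rw [hx, ← form_apply (T 1) (T (-1)) (fun i => P i (Sum.inl 0))
      (fun i => invert (P i (Sum.inl 0))), ← h]
    simp only [Matrix.mul_apply, Matrix.transpose_apply, Matrix.map_apply, hLdef]
    rfl

end Pool.Agent.S13092
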