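import Pool.Statements.S13155
-- import your own Pool.Agent.* helpers here
import Pool.Agent.R821.FourMain

set_option autoImplicit false
open Pool Pool.MP_5008c3_gt

namespace Pool.Agent.S13155

/-- For every metrizable space X whose non-isolated points form a compact set, the subspace of the free topological group on X of elements of reduced length at most 4 is Fréchet–Urysohn. -/
theorem result :
    ∀ (X : Type) [τ : TopologicalSpace X] [TopologicalSpace.MetrizableSpace X],
      IsCompact {x : X | ¬ IsOpen ({x} : Set X)} →
      @FrechetUrysohnSpace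
        {w : FreeGroup X // ∃ L : List (X × Bool), L.length ≤ 4 ∧ FreeGroup.mk L = w}
        (TopologicalSpace.induced Subtype.val
          (sInf {t : GroupTopology (FreeGroup X) |
            @Continuous X (FreeGroup X) τ t.toTopologicalSpace FreeGroup.of}).toTopologicalSpace) := by
  intro X τ _ hK
  let _ : MetricSpace X := TopologicalSpace.metrizableSpaceMetric X
  let tF : TopologicalSpace (FreeGroup X) := Pool.Agent.R821.FG.topF X
  refine @FrechetUrysohnSpace.mk _ (TopologicalSpace.induced Subtype.val tF) ?_
  intro A a ha
  have h1 : a.val ∈ closure (Subtype.val '' A) := closure_induced.1 ha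
  have h2 : ∀ g ∈ Subtype.val '' A, ∃ L : List (X × Bool), L.length ≤ 4 ∧ FreeGroup.mk L = g := by
    rintro _ ⟨b, _, rfl⟩
    exact b.2
  obtain ⟨u, huA, hu⟩ := Pool.Agent.R821.FG.four_main hK h2 h1
  choose v hvA hv using huA
  refine ⟨v, hvA, ?_⟩
  rw [nhds_induced, Filter.tendsto_comap_iff]
  refine hu.congr fun n => ?_
  exact (hv n).symm

end Pool.Agent.S13155
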