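import Pool.Statements.S13204
-- import your own Pool.Agent.* helpers here

set_option autoImplicit false
open Pool Pool.MP_58de27_gt

namespace Pool.Agent.S13204

open Set Metric Topology

/-- A continuous function equal to `1` exactly on `A` and to `-1` exactly on `B`. -/
noncomputable def ury (A B : Set ℂ) (z : ℂ) : ℝ :=
  (infDist z B - infDist z A) / (infDist z A + infDist z B)

lemma den_pos {A B : Set ℂ} (hA : IsClosed A) (hB : IsClosed B) (hA' : A.Nonempty)
    (hB' : B.Nonempty) (h : Disjoint A B) (z : ℂ) : 0 < infDist z A + infDist z B := by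
  by_cases hz : z ∈ A
  · have hzB : z ∉ B := fun hb => Set.disjoint_left.1 h hz hb
    have := (hB.notMem_iff_infDist_pos hB').1 hzB
    have h2 : 0 ≤ infDist z A := infDist_nonneg
    linarith
  · have := (hA.notMem_iff_infDist_pos hA').1 hz
    have h2 : 0 ≤ infDist z B := infDist_nonneg
    linarith

lemma ury_cont {A B : Set ℂ} (hA : IsClosed A) (hB : IsClosed B) (hA' : A.Nonempty)
    (hB' : B.Nonempty) (h : Disjoint A B) : Continuous (ury A B) := by
  unfold ury
  refine Continuous.div ?_ ?_ ?_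
  · exact (continuous_infDist_pt B).sub (continuous_infDist_pt A)
  · exact (continuous_infDist_pt A).add (continuous_infDist_pt B)
  · intro z
    exact (den_pos hA hB hA' hB' h z).ne'

lemma ury_le {A B : Set ℂ} (hA : IsClosed A) (hB : IsClosed B) (hA' : A.Nonempty)
    (hB' : B.Nonempty) (h : Disjoint A B) (z : ℂ) : ury A B z ≤ 1 := by
  unfold ury
  rw [div_le_one (den_pos hA hB hA' hB' h z)]
  have h2 : 0 ≤ infDist z A := infDist_nonneg
  linarith

lemma le_ury {A B : Set ℂ} (hA : IsClosed A) (hB : IsClosed B) (hA' : A.Nonempty)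
    (hB' : B.Nonempty) (h : Disjoint A B) (z : ℂ) : -1 ≤ ury A B z := by
  unfold ury
  rw [le_div_iff₀ (den_pos hA hB hA' hB' h z)]
  have h2 : 0 ≤ infDist z B := infDist_nonneg
  linarith

lemma ury_one {A B : Set ℂ} (hA : IsClosed A) (hB : IsClosed B) (hA' : A.Nonempty)
    (hB' : B.Nonempty) (h : Disjoint A B) (z : ℂ) : ury A B z = 1 ↔ z ∈ A := by
  unfold ury
  rw [div_eq_one_iff_eq (den_pos hA hB hA' hB' h z).ne', hA.mem_iff_infDist_zero hA']
  constructor <;> intro h3 <;> linarith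

lemma ury_neg_one {A B : Set ℂ} (hA : IsClosed A) (hB : IsClosed B) (hA' : A.Nonempty)
    (hB' : B.Nonempty) (h : Disjoint A B) (z : ℂ) : ury A B z = -1 ↔ z ∈ B := by
  unfold ury
  rw [div_eq_iff (den_pos hA hB hA' hB' h z).ne', hB.mem_iff_infDist_zero hB']
  constructor <;> intro h3 <;> linarith

/-- The point of the unit circle at angle `t * π / 6`. -/
noncomputable def E (t : ℝ) : ℂ := Complex.exp ((t * (Real.pi / 6) : ℝ) * Complex.I)

lemma E_cont : Continuous E := by unfold E; fun_prop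

lemma norm_E (t : ℝ) : ‖E t‖ = 1 := by unfold E; exact Complex.norm_exp_ofReal_mul_I _

lemma im_E (s t : ℝ) : (E s * (starRingEnd ℂ) (E t)).im = Real.sin ((s - t) * (Real.pi / 6)) := by
  unfold E
  have h1 : (starRingEnd ℂ) (Complex.exp ((t * (Real.pi / 6) : ℝ) * Complex.I))
      = Complex.exp ((-(t * (Real.pi / 6)) : ℝ) * Complex.I) := by
    rw [← Complex.exp_conj, map_mul, Complex.conj_ofReal, Complex.conj_I]
    congr 1
    push_cast
    ring
  rw [h1, ← Complex.exp_add, ← add_mul, ← Complex.ofReal_add, Complex.exp_ofReal_mul_I_im]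
  congr 1
  ring

lemma im_E_neg {s t : ℝ} (h1 : 1 ≤ t - s) (h2 : t - s ≤ 5) :
    (E s * (starRingEnd ℂ) (E t)).im < 0 := by
  rw [im_E]
  have hpi := Real.pi_pos
  apply Real.sin_neg_of_neg_of_neg_pi_lt
  · nlinarith
  · nlinarith

lemma E_ne_I {t : ℝ} (h1 : 5 ≤ t) (h2 : t ≤ 13) : E t ≠ Complex.I := by
  intro h
  have h3 : Complex.I = Complex.exp ((Real.pi / 2 : ℝ) * Complex.I) := by
    rw [Complex.exp_mul_I, ← Complex.ofReal_cos, ← Complex.ofReal_sin, Real.cos_pi_div_two,
      Real.sin_pi_div_two]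
    simp
  unfold E at h
  rw [h3, Complex.exp_eq_exp_iff_exists_int] at h
  obtain ⟨n, hn⟩ := h
  have h4 := congrArg Complex.im hn
  simp at h4
  have hpi := Real.pi_pos
  have h5 : t = 3 + 12 * n := by
    have : (t - (3 + 12 * n)) * (Real.pi / 6) = 0 := by linarith
    rcases mul_eq_zero.1 this with h | h
    · linarith
    · linarith
  have h6 : (0 : ℝ) < n := by linarith
  have h7 : (n : ℝ) < 1 := by linarith
  have h8 : (0 : ℤ) < n := by exact_mod_cast h6
  have h9 : n < (1 : ℤ) := by exact_mod_cast h7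
  omega

noncomputable def b0 : Fin 5 → ℝ := ![0, 4, 4, 8, 8]
noncomputable def b1 : Fin 5 → ℝ := ![4, 4, 8, 8, 12]
noncomputable def a0 : Fin 5 → ℝ := ![5, 5, 9, 9, 13]
noncomputable def a1 : Fin 5 → ℝ := ![5, 9, 9, 13, 13]

noncomputable def B (i : Fin 5) : Set ℂ := E '' Icc (b0 i) (b1 i)
noncomputable def A (i : Fin 5) : Set ℂ := E '' Icc (a0 i) (a1 i)

lemma b_le (i : Fin 5) : b0 i ≤ b1 i := by
  fin_cases i <;> simp [b0, b1] <;> norm_num

lemma a_le (i : Fin 5) : a0 i ≤ a1 i := by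
  fin_cases i <;> simp [a0, a1] <;> norm_num

lemma B_closed (i : Fin 5) : IsClosed (B i) := (isCompact_Icc.image E_cont).isClosed
lemma A_closed (i : Fin 5) : IsClosed (A i) := (isCompact_Icc.image E_cont).isClosed
lemma B_ne (i : Fin 5) : (B i).Nonempty := (nonempty_Icc.2 (b_le i)).image _
lemma A_ne (i : Fin 5) : (A i).Nonempty := (nonempty_Icc.2 (a_le i)).image _

lemma BA (i : Fin 5) {z w : ℂ} (hz : z ∈ B i) (hw : w ∈ A i) :
    (z * (starRingEnd ℂ) w).im < 0 ∧ w ≠ Complex.I := by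
  obtain ⟨s, hs, rfl⟩ := hz
  obtain ⟨t, ht, rfl⟩ := hw
  have : 1 ≤ t - s ∧ t - s ≤ 5 ∧ 5 ≤ t ∧ t ≤ 13 := by
    rw [Set.mem_Icc] at hs ht
    fin_cases i <;> simp [b0, b1, a0, a1] at hs ht <;> refine ⟨?_, ?_, ?_, ?_⟩ <;> linarith
  exact ⟨im_E_neg this.1 this.2.1, E_ne_I this.2.2.1 this.2.2.2⟩

lemma disj (i : Fin 5) : Disjoint (A i) (B i) := by
  rw [Set.disjoint_left]
  intro z hA hB
  have := (BA i hB hA).1
  rw [Complex.mul_conj] at this
  simp at this

/-- The embedding of the plane. -/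
noncomputable def c (z : ℂ) : ℂ × (Fin 5 → ℝ) := (z / 2, fun i => ury (A i) (B i) z)

lemma c_cont : Continuous c := by
  unfold c
  refine Continuous.prodMk (by fun_prop) (continuous_pi fun i => ?_)
  exact ury_cont (A_closed i) (B_closed i) (A_ne i) (B_ne i) (disj i)

/-- Left inverse of `c`. -/
noncomputable def pr (x : ℂ × (Fin 5 → ℝ)) : ℂ := 2 * x.1

lemma pr_c (z : ℂ) : pr (c z) = z := by unfold pr c; ring

lemma pr_cont : Continuous pr := by unfold pr; fun_prop

/-- The curve. -/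
noncomputable def C : Set (ℂ × (Fin 5 → ℝ)) := c '' sphere (0 : ℂ) 1

lemma C_compact : IsCompact C := (isCompact_sphere _ _).image c_cont

lemma c_pr {x : ℂ × (Fin 5 → ℝ)} (hx : x ∈ C) : c (pr x) = x := by
  obtain ⟨z, _, rfl⟩ := hx
  rw [pr_c]

lemma pr_norm {x : ℂ × (Fin 5 → ℝ)} (hx : x ∈ C) : ‖pr x‖ = 1 := by
  obtain ⟨z, hz, rfl⟩ := hx
  rw [pr_c]
  simpa using hz

noncomputable def homeo : C ≃ₜ sphere (0 : ℂ) 1 where
  toFun x := ⟨pr x.1, by simpa using pr_norm x.2⟩
  invFun z := ⟨c z.1, ⟨z.1, z.2, rfl⟩⟩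
  left_inv x := Subtype.ext (c_pr x.2)
  right_inv z := Subtype.ext (pr_c _)
  continuous_toFun := by
    exact (pr_cont.comp continuous_subtype_val).subtype_mk _
  continuous_invFun := by
    exact (c_cont.comp continuous_subtype_val).subtype_mk _

lemma dist_coord (i : Fin 5) (z w : ℂ) :
    |ury (A i) (B i) z - ury (A i) (B i) w| ≤ dist (c z) (c w) := by
  have h1 : dist ((c z).2 i) ((c w).2 i) ≤ dist (c z).2 (c w).2 := dist_le_pi_dist _ _ i
  have h2 : dist (c z).2 (c w).2 ≤ dist (c z) (c w) := by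
    rw [Prod.dist_eq]; exact le_max_right _ _
  have h3 : dist ((c z).2 i) ((c w).2 i) = |ury (A i) (B i) z - ury (A i) (B i) w| := by
    rw [Real.dist_eq]; rfl
  linarith

lemma coord_le_two (i : Fin 5) (z w : ℂ) :
    |ury (A i) (B i) z - ury (A i) (B i) w| ≤ 2 := by
  have h1 := ury_le (A_closed i) (B_closed i) (A_ne i) (B_ne i) (disj i) z
  have h2 := ury_le (A_closed i) (B_closed i) (A_ne i) (B_ne i) (disj i) w
  have h3 := le_ury (A_closed i) (B_closed i) (A_ne i) (B_ne i) (disj i) z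
  have h4 := le_ury (A_closed i) (B_closed i) (A_ne i) (B_ne i) (disj i) w
  rw [abs_le]
  constructor <;> linarith

lemma dist_le_two {z w : ℂ} (hz : ‖z‖ = 1) (hw : ‖w‖ = 1) : dist (c z) (c w) ≤ 2 := by
  rw [Prod.dist_eq]
  refine max_le ?_ ?_
  · unfold c
    simp only
    rw [dist_eq_norm, ← sub_div, norm_div]
    have := norm_sub_le z w
    rw [hz, hw] at this
    simp
    linarith
  · rw [dist_pi_le_iff (by norm_num)]
    intro i
    rw [Real.dist_eq]
    exact coord_le_two i z w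

/-- First region. -/
def O1 (z w : ℂ) : Prop := (z * (starRingEnd ℂ) w).im < 0 ∧ w ≠ Complex.I

lemma dist_lt_two {z w : ℂ} (hz : ‖z‖ = 1) (hw : ‖w‖ = 1) (h : ¬ (O1 z w ∨ O1 w z)) :
    dist (c z) (c w) < 2 := by
  rw [Prod.dist_eq]
  refine max_lt ?_ ?_
  · unfold c
    simp only
    rw [dist_eq_norm, ← sub_div, norm_div]
    have := norm_sub_le z w
    rw [hz, hw] at this
    simp
    linarith
  · rw [dist_pi_lt_iff (by norm_num)]
    intro i
    rw [Real.dist_eq]
    by_contra hcon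
    apply h
    have h1 := ury_le (A_closed i) (B_closed i) (A_ne i) (B_ne i) (disj i) z
    have h2 := ury_le (A_closed i) (B_closed i) (A_ne i) (B_ne i) (disj i) w
    have h3 := le_ury (A_closed i) (B_closed i) (A_ne i) (B_ne i) (disj i) z
    have h4 := le_ury (A_closed i) (B_closed i) (A_ne i) (B_ne i) (disj i) w
    have h5 : 2 ≤ |ury (A i) (B i) z - ury (A i) (B i) w| := not_lt.1 hcon
    rcases le_abs.1 h5 with h6 | h6
    · right
      have hz1 : ury (A i) (B i) z = 1 := by linarith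
      have hw1 : ury (A i) (B i) w = -1 := by linarith
      exact BA i ((ury_neg_one (A_closed i) (B_closed i) (A_ne i) (B_ne i) (disj i) w).1 hw1)
        ((ury_one (A_closed i) (B_closed i) (A_ne i) (B_ne i) (disj i) z).1 hz1)
    · left
      have hz1 : ury (A i) (B i) w = 1 := by linarith
      have hw1 : ury (A i) (B i) z = -1 := by linarith
      exact BA i ((ury_neg_one (A_closed i) (B_closed i) (A_ne i) (B_ne i) (disj i) z).1 hw1)
        ((ury_one (A_closed i) (B_closed i) (A_ne i) (B_ne i) (disj i) w).1 hz1)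

lemma isOpen_O1 : IsOpen {p : ℂ × ℂ | O1 p.1 p.2} := by
  unfold O1
  refine IsOpen.inter ?_ ?_
  · exact isOpen_lt (Complex.continuous_im.comp
      (continuous_fst.mul (Complex.continuous_conj.comp continuous_snd))) continuous_const
  · exact isOpen_ne_fun continuous_snd continuous_const

lemma exists_bound : ∃ s : ℝ, 0 ≤ s ∧ s < 2 ∧ ∀ z w : ℂ, ‖z‖ = 1 → ‖w‖ = 1 →
    s < dist (c z) (c w) → O1 z w ∨ O1 w z := by
  let G : Set (ℂ × ℂ) := (sphere (0 : ℂ) 1 ×ˢ sphere (0 : ℂ) 1) \
    ({p : ℂ × ℂ | O1 p.1 p.2} ∪ {p : ℂ × ℂ | O1 p.2 p.1})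
  have hopen2 : IsOpen {p : ℂ × ℂ | O1 p.2 p.1} := isOpen_O1.preimage continuous_swap
  have hG : IsCompact G :=
    ((isCompact_sphere _ _).prod (isCompact_sphere _ _)).diff (isOpen_O1.union hopen2)
  have hGne : G.Nonempty := by
    refine ⟨(1, 1), ?_, ?_⟩
    · simp
    · simp [O1]
  have hcont : ContinuousOn (fun p : ℂ × ℂ => dist (c p.1) (c p.2)) G :=
    (Continuous.dist (c_cont.comp continuous_fst) (c_cont.comp continuous_snd)).continuousOn
  obtain ⟨q, hq, hmax⟩ := hG.exists_isMaxOn hGne hcont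
  have hq1 : ‖q.1‖ = 1 := by simpa using hq.1.1
  have hq2 : ‖q.2‖ = 1 := by simpa using hq.1.2
  refine ⟨dist (c q.1) (c q.2), dist_nonneg, ?_, ?_⟩
  · apply dist_lt_two hq1 hq2
    intro h
    apply hq.2
    rcases h with h | h
    · left; exact h
    · right; exact h
  · intro z w hz hw hlt
    by_contra hcon
    have hmem : (z, w) ∈ G := by
      refine ⟨⟨by simpa using hz, by simpa using hw⟩, ?_⟩
      rintro (h | h)
      · exact hcon (Or.inl h)
      · exact hcon (Or.inr h)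
    have h2 : dist (c z) (c w) ≤ dist (c q.1) (c q.2) := hmax hmem
    exact absurd h2 (not_le.2 hlt)

/-- Stereographic coordinate. -/
noncomputable def kap (x : ℂ × (Fin 5 → ℝ)) : ℝ := (pr x).re / (1 - (pr x).im)

lemma im_lt {z : ℂ} (hz : ‖z‖ = 1) (hI : z ≠ Complex.I) : z.im < 1 := by
  have h1 : z.im ≤ 1 := by
    have := Complex.im_le_norm z
    linarith
  rcases lt_or_eq_of_le h1 with h | h
  · exact h
  · exfalso
    apply hI
    have h2 : z.re ^ 2 + z.im ^ 2 = 1 := by
      have := Complex.sq_norm z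
      rw [hz, Complex.normSq_apply] at this
      nlinarith
    have h3 : z.re = 0 := by
      rw [h] at h2
      nlinarith
    apply Complex.ext
    · simp [h3]
    · simp [h]

lemma kap_inj {x y : ℂ × (Fin 5 → ℝ)} (hx : x ∈ C) (hy : y ∈ C) (hxI : pr x ≠ Complex.I)
    (hyI : pr y ≠ Complex.I) (h : kap x = kap y) : pr x = pr y := by
  have hx1 := im_lt (pr_norm hx) hxI
  have hy1 := im_lt (pr_norm hy) hyI
  have h2 : (pr x).re ^ 2 + (pr x).im ^ 2 = 1 := by
    have := Complex.sq_norm (pr x)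
    rw [pr_norm hx, Complex.normSq_apply] at this
    nlinarith
  have h3 : (pr y).re ^ 2 + (pr y).im ^ 2 = 1 := by
    have := Complex.sq_norm (pr y)
    rw [pr_norm hy, Complex.normSq_apply] at this
    nlinarith
  unfold kap at h
  set a := (pr x).re
  set b := (pr x).im
  set a' := (pr y).re
  set b' := (pr y).im
  have hb : 0 < 1 - b := by linarith
  have hb' : 0 < 1 - b' := by linarith
  set k := a / (1 - b) with hk
  have e1 : a = k * (1 - b) := by rw [hk]; field_simp
  have e2 : a' = k * (1 - b') := by rw [h]; field_simp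
  have e3 : k ^ 2 * (1 - b) = 1 + b := by
    have : (k ^ 2 * (1 - b) - (1 + b)) * (1 - b) = 0 := by
      rw [e1] at h2; nlinarith
    rcases mul_eq_zero.1 this with h | h
    · linarith
    · exact absurd h hb.ne'
  have e4 : k ^ 2 * (1 - b') = 1 + b' := by
    have : (k ^ 2 * (1 - b') - (1 + b')) * (1 - b') = 0 := by
      rw [e2] at h3; nlinarith
    rcases mul_eq_zero.1 this with h | h
    · linarith
    · exact absurd h hb'.ne'
  have e5 : b = b' := by
    have : (k ^ 2 + 1) * (b - b') = 0 := by nlinarith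
    rcases mul_eq_zero.1 this with h | h
    · nlinarith [sq_nonneg k]
    · linarith
  have e6 : a = a' := by rw [e1, e2, e5]
  exact Complex.ext e6 e5

lemma key (K : Set ((ℂ × (Fin 5 → ℝ)) × (ℂ × (Fin 5 → ℝ)))) (hK : IsCompact K)
    (hc : IsConnected K) (hsub : K ⊆ C ×ˢ C) (heq : Prod.fst '' K = Prod.snd '' K)
    (hO : ∀ p ∈ K, O1 (pr p.1) (pr p.2)) : False := by
  have hI2 : ∀ p ∈ K, pr p.2 ≠ Complex.I := fun p hp => (hO p hp).2
  have hI1 : ∀ p ∈ K, pr p.1 ≠ Complex.I := by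
    intro p hp
    have : p.1 ∈ Prod.snd '' K := by rw [← heq]; exact ⟨p, hp, rfl⟩
    obtain ⟨q, hq, hqp⟩ := this
    rw [← hqp]
    exact hI2 q hq
  have hc1 : ContinuousOn (fun p : (ℂ × (Fin 5 → ℝ)) × (ℂ × (Fin 5 → ℝ)) => kap p.1) K := by
    unfold kap
    refine ContinuousOn.div ?_ ?_ ?_
    · exact (Complex.continuous_re.comp (pr_cont.comp continuous_fst)).continuousOn
    · exact (continuous_const.sub
        (Complex.continuous_im.comp (pr_cont.comp continuous_fst))).continuousOn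
    · intro p hp
      have := im_lt (pr_norm (hsub hp).1) (hI1 p hp)
      linarith
  have hc2 : ContinuousOn (fun p : (ℂ × (Fin 5 → ℝ)) × (ℂ × (Fin 5 → ℝ)) => kap p.2) K := by
    unfold kap
    refine ContinuousOn.div ?_ ?_ ?_
    · exact (Complex.continuous_re.comp (pr_cont.comp continuous_snd)).continuousOn
    · exact (continuous_const.sub
        (Complex.continuous_im.comp (pr_cont.comp continuous_snd))).continuousOn
    · intro p hp
      have := im_lt (pr_norm (hsub hp).2) (hI2 p hp)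
      linarith
  obtain ⟨p, hp, hmax⟩ := hK.exists_isMaxOn hc.nonempty hc1
  have h1 : p.1 ∈ Prod.snd '' K := by rw [← heq]; exact ⟨p, hp, rfl⟩
  obtain ⟨q, hq, hqp⟩ := h1
  have h2 : p.2 ∈ Prod.fst '' K := by rw [heq]; exact ⟨p, hp, rfl⟩
  obtain ⟨r, hr, hrp⟩ := h2
  have e1 : kap q.1 ≤ kap p.1 := hmax hq
  have e2 : kap r.1 ≤ kap p.1 := hmax hr
  have hg : ContinuousOn (fun p : (ℂ × (Fin 5 → ℝ)) × (ℂ × (Fin 5 → ℝ)) =>
    kap p.1 - kap p.2) K := hc1.sub hc2
  obtain ⟨w, hw, hw0⟩ := hc.isPreconnected.intermediate_value hq hp hg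
    (show (0 : ℝ) ∈ Icc _ _ from ⟨by rw [hqp]; linarith, by rw [← hrp]; linarith⟩)
  have hw1 : kap w.1 = kap w.2 := by
    have : kap w.1 - kap w.2 = 0 := hw0
    linarith
  have h3 := kap_inj (hsub hw).1 (hsub hw).2 (hI1 w hw) (hI2 w hw) hw1
  have h4 := (hO w hw).1
  rw [h3, Complex.mul_conj] at h4
  simp at h4

/-- Angle of the first point. -/
noncomputable def bu (u : ℝ) : ℝ := max 0 (min u 4) + max 0 (min (u - 8) 4) +
  max 0 (min (u - 16) 4)
/-- Angle of the second point. -/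
noncomputable def au (u : ℝ) : ℝ := 5 + max 0 (min (u - 4) 4) + max 0 (min (u - 12) 4)

lemma bu_cont : Continuous bu := by unfold bu; fun_prop
lemma au_cont : Continuous au := by unfold au; fun_prop

lemma in_box {u : ℝ} (h0 : 0 ≤ u) (h1 : u ≤ 20) : ∃ i : Fin 5, E (bu u) ∈ B i ∧ E (au u) ∈ A i := by
  unfold bu au B A
  rcases le_total u 4 with h4 | h4
  · refine ⟨0, ⟨_, ?_, rfl⟩, ⟨_, ?_, rfl⟩⟩
    · rw [min_eq_left h4, max_eq_right h0, min_eq_left (by linarith : u - 8 ≤ 4),
        max_eq_left (by linarith : u - 8 ≤ 0), min_eq_left (by linarith : u - 16 ≤ 4),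
        max_eq_left (by linarith : u - 16 ≤ 0)]
      simp [b0, b1]; exact ⟨h0, h4⟩
    · rw [min_eq_left (by linarith : u - 4 ≤ 4), max_eq_left (by linarith : u - 4 ≤ 0),
        min_eq_left (by linarith : u - 12 ≤ 4), max_eq_left (by linarith : u - 12 ≤ 0)]
      simp [a0, a1]
  rcases le_total u 8 with h8 | h8
  · refine ⟨1, ⟨_, ?_, rfl⟩, ⟨_, ?_, rfl⟩⟩
    · rw [min_eq_right h4, max_eq_right (by norm_num), min_eq_left (by linarith : u - 8 ≤ 4),
        max_eq_left (by linarith : u - 8 ≤ 0), min_eq_left (by linarith : u - 16 ≤ 4),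
        max_eq_left (by linarith : u - 16 ≤ 0)]
      simp [b0, b1]
    · rw [min_eq_left (by linarith : u - 4 ≤ 4), max_eq_right (by linarith : 0 ≤ u - 4),
        min_eq_left (by linarith : u - 12 ≤ 4), max_eq_left (by linarith : u - 12 ≤ 0)]
      simp [a0, a1]; constructor <;> linarith
  rcases le_total u 12 with h12 | h12
  · refine ⟨2, ⟨_, ?_, rfl⟩, ⟨_, ?_, rfl⟩⟩
    · rw [min_eq_right h4, max_eq_right (by norm_num), min_eq_left (by linarith : u - 8 ≤ 4),
        max_eq_right (by linarith : 0 ≤ u - 8), min_eq_left (by linarith : u - 16 ≤ 4),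
        max_eq_left (by linarith : u - 16 ≤ 0)]
      simp [b0, b1]; constructor <;> linarith
    · rw [min_eq_right (by linarith : 4 ≤ u - 4), max_eq_right (by norm_num),
        min_eq_left (by linarith : u - 12 ≤ 4), max_eq_left (by linarith : u - 12 ≤ 0)]
      simp [a0, a1]; norm_num
  rcases le_total u 16 with h16 | h16
  · refine ⟨3, ⟨_, ?_, rfl⟩, ⟨_, ?_, rfl⟩⟩
    · rw [min_eq_right h4, max_eq_right (by norm_num), min_eq_right (by linarith : 4 ≤ u - 8),
        max_eq_right (by norm_num), min_eq_left (by linarith : u - 16 ≤ 4),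
        max_eq_left (by linarith : u - 16 ≤ 0)]
      simp [b0, b1]; norm_num
    · rw [min_eq_right (by linarith : 4 ≤ u - 4), max_eq_right (by norm_num),
        min_eq_left (by linarith : u - 12 ≤ 4), max_eq_right (by linarith : 0 ≤ u - 12)]
      simp [a0, a1]; constructor <;> linarith
  · refine ⟨4, ⟨_, ?_, rfl⟩, ⟨_, ?_, rfl⟩⟩
    · rw [min_eq_right h4, max_eq_right (by norm_num), min_eq_right (by linarith : 4 ≤ u - 8),
        max_eq_right (by norm_num), min_eq_left (by linarith : u - 16 ≤ 4),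
        max_eq_right (by linarith : 0 ≤ u - 16)]
      simp [b0, b1]; constructor <;> linarith
    · rw [min_eq_right (by linarith : 4 ≤ u - 4), max_eq_right (by norm_num),
        min_eq_right (by linarith : 4 ≤ u - 12), max_eq_right (by norm_num)]
      simp [a0, a1]; norm_num

lemma bu_surj {s : ℝ} (h0 : 0 ≤ s) (h1 : s ≤ 12) : ∃ u, 0 ≤ u ∧ u ≤ 20 ∧ bu u = s := by
  have h : s ∈ Icc (bu 0) (bu 20) := by
    constructor
    · unfold bu; norm_num; exact h0
    · unfold bu; norm_num; exact h1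
  obtain ⟨u, hu, hus⟩ := intermediate_value_Icc (by norm_num : (0 : ℝ) ≤ 20)
    bu_cont.continuousOn h
  exact ⟨u, hu.1, hu.2, hus⟩

lemma E_surj {z : ℂ} (hz : ‖z‖ = 1) : ∃ s, 0 ≤ s ∧ s ≤ 12 ∧ E s = z := by
  have hpi := Real.pi_pos
  have h1 : Complex.exp (z.arg * Complex.I) = z := by
    have := Complex.norm_mul_exp_arg_mul_I z
    rw [hz] at this
    simpa using this
  rcases le_or_gt 0 z.arg with h | h
  · refine ⟨z.arg * 6 / Real.pi, by positivity, ?_, ?_⟩
    · rw [div_le_iff₀ hpi]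
      have := Complex.arg_le_pi z
      nlinarith
    · unfold E
      rw [← h1]
      congr 3
      rw [h1]
      field_simp
  · refine ⟨z.arg * 6 / Real.pi + 12, ?_, ?_, ?_⟩
    · have : -12 ≤ z.arg * 6 / Real.pi := by
        rw [le_div_iff₀ hpi]
        have := Complex.neg_pi_lt_arg z
        nlinarith
      linarith
    · have : z.arg * 6 / Real.pi ≤ 0 := by
        rw [div_le_iff₀ hpi]
        nlinarith
      linarith
    · unfold E
      have h2 : (((z.arg * 6 / Real.pi + 12) * (Real.pi / 6) : ℝ) : ℂ) * Complex.I =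
          z.arg * Complex.I + 2 * Real.pi * Complex.I := by
        have : (z.arg * 6 / Real.pi + 12) * (Real.pi / 6) = z.arg + 2 * Real.pi := by
          field_simp
          ring
        rw [this]
        push_cast
        ring
      rw [h2, Complex.exp_periodic, h1]

/-- The negation of the preceding statement: For every simple closed curve C in a metric space, the span of C (sup of ε with a connected Z in C×C, equal projections, all pairs at distance ≥ ε) equals the semi-span (same, second projection contained in first). -/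
theorem result :
    ¬ (∀ (X : Type) [MetricSpace X] (C : Set X),
      Nonempty (↥C ≃ₜ ↥(Metric.sphere (0 : ℂ) 1)) →
      sSup {ε : ℝ | ∃ Z : Set (X × X), Z ⊆ C ×ˢ C ∧ IsConnected Z ∧
          Prod.fst '' Z = Prod.snd '' Z ∧ ∀ p ∈ Z, ε ≤ dist p.1 p.2}
        = sSup {ε : ℝ | ∃ Z : Set (X × X), Z ⊆ C ×ˢ C ∧ IsConnected Z ∧
          Prod.snd '' Z ⊆ Prod.fst '' Z ∧ ∀ p ∈ Z, ε ≤ dist p.1 p.2}) := by
  intro H
  have h := H (ℂ × (Fin 5 → ℝ)) C ⟨homeo⟩
  obtain ⟨s, hs0, hs2, hs⟩ := exists_bound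
  have hspan : sSup {ε : ℝ | ∃ Z : Set ((ℂ × (Fin 5 → ℝ)) × (ℂ × (Fin 5 → ℝ))), Z ⊆ C ×ˢ C ∧
      IsConnected Z ∧ Prod.fst '' Z = Prod.snd '' Z ∧ ∀ p ∈ Z, ε ≤ dist p.1 p.2} ≤ s := by
    apply csSup_le
    · refine ⟨0, {(c 1, c 1)}, ?_, isConnected_singleton, ?_, ?_⟩
      · rintro _ rfl
        exact ⟨⟨1, by simp, rfl⟩, ⟨1, by simp, rfl⟩⟩
      · simp
      · intro p _
        exact dist_nonneg
    · rintro ε ⟨Z, hZC, hZ, hpr, hd⟩
      by_contra hcon
      have hε : s < ε := not_le.1 hcon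
      have hCC : IsCompact (C ×ˢ C) := C_compact.prod C_compact
      have hcl : closure Z ⊆ C ×ˢ C := closure_minimal hZC hCC.isClosed
      have hKc : IsCompact (closure Z) := hCC.of_isClosed_subset isClosed_closure hcl
      have hKd : ∀ p ∈ closure Z, ε ≤ dist p.1 p.2 := by
        have : closure Z ⊆ {p | ε ≤ dist p.1 p.2} :=
          closure_minimal hd (isClosed_le continuous_const continuous_dist)
        exact fun p hp => this hp
      have hKpr : Prod.fst '' closure Z = Prod.snd '' closure Z := by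
        rw [image_closure_of_isCompact hKc continuous_fst.continuousOn,
          image_closure_of_isCompact hKc continuous_snd.continuousOn, hpr]
      have hU1 : IsOpen {p : (ℂ × (Fin 5 → ℝ)) × (ℂ × (Fin 5 → ℝ)) | O1 (pr p.1) (pr p.2)} :=
        isOpen_O1.preimage ((pr_cont.comp continuous_fst).prodMk (pr_cont.comp continuous_snd))
      have hU2 : IsOpen {p : (ℂ × (Fin 5 → ℝ)) × (ℂ × (Fin 5 → ℝ)) | O1 (pr p.2) (pr p.1)} :=
        isOpen_O1.preimage ((pr_cont.comp continuous_snd).prodMk (pr_cont.comp continuous_fst))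
      have hcov : closure Z ⊆
          {p : (ℂ × (Fin 5 → ℝ)) × (ℂ × (Fin 5 → ℝ)) | O1 (pr p.1) (pr p.2)} ∪
          {p : (ℂ × (Fin 5 → ℝ)) × (ℂ × (Fin 5 → ℝ)) | O1 (pr p.2) (pr p.1)} := by
        intro p hp
        apply hs _ _ (pr_norm (hcl hp).1) (pr_norm (hcl hp).2)
        rw [c_pr (hcl hp).1, c_pr (hcl hp).2]
        exact lt_of_lt_of_le hε (hKd p hp)
      have hdis : Disjoint
          {p : (ℂ × (Fin 5 → ℝ)) × (ℂ × (Fin 5 → ℝ)) | O1 (pr p.1) (pr p.2)}
          {p : (ℂ × (Fin 5 → ℝ)) × (ℂ × (Fin 5 → ℝ)) | O1 (pr p.2) (pr p.1)} := by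
        rw [Set.disjoint_left]
        rintro p ⟨h1, _⟩ ⟨h2, _⟩
        rw [Complex.mul_im, Complex.conj_re, Complex.conj_im] at h1 h2
        nlinarith
      have hKconn : IsConnected (closure Z) := hZ.closure
      obtain ⟨p0, hp0⟩ := hKconn.nonempty
      rcases hcov hp0 with h0 | h0
      · have hin := hKconn.isPreconnected.subset_left_of_subset_union hU1 hU2 hdis hcov ⟨p0, hp0, h0⟩
        exact key _ hKc hKconn hcl hKpr (fun p hp => hin hp)
      · have hin := hKconn.isPreconnected.subset_right_of_subset_union hU1 hU2 hdis hcov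
          ⟨p0, hp0, h0⟩
        refine key (Prod.swap '' closure Z) (hKc.image continuous_swap)
          (hKconn.image _ continuous_swap.continuousOn) ?_ ?_ ?_
        · rintro _ ⟨p, hp, rfl⟩
          exact ⟨(hcl hp).2, (hcl hp).1⟩
        · rw [Set.image_image, Set.image_image]
          simpa using hKpr.symm
        · rintro _ ⟨p, hp, rfl⟩
          exact hin hp
  have hsemi : (2 : ℝ) ≤ sSup {ε : ℝ | ∃ Z : Set ((ℂ × (Fin 5 → ℝ)) × (ℂ × (Fin 5 → ℝ))),
      Z ⊆ C ×ˢ C ∧ IsConnected Z ∧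
          Prod.snd '' Z ⊆ Prod.fst '' Z ∧ ∀ p ∈ Z, ε ≤ dist p.1 p.2} := by
    apply le_csSup
    · refine ⟨2, ?_⟩
      rintro ε ⟨Z, hZC, hZ, -, hd⟩
      obtain ⟨p, hp⟩ := hZ.nonempty
      have h1 := hd p hp
      have h2 := dist_le_two (pr_norm (hZC hp).1) (pr_norm (hZC hp).2)
      rw [c_pr (hZC hp).1, c_pr (hZC hp).2] at h2
      linarith
    · refine ⟨(fun u : ℝ => (c (E (bu u)), c (E (au u)))) '' Icc 0 20, ?_, ?_, ?_, ?_⟩
      · rintro _ ⟨u, _, rfl⟩
        exact ⟨⟨_, by simp [norm_E], rfl⟩, ⟨_, by simp [norm_E], rfl⟩⟩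
      · refine (isConnected_Icc (by norm_num)).image _ (Continuous.continuousOn ?_)
        exact (c_cont.comp (E_cont.comp bu_cont)).prodMk (c_cont.comp (E_cont.comp au_cont))
      · rintro _ ⟨_, ⟨u, _, rfl⟩, rfl⟩
        obtain ⟨t, ht0, ht1, ht⟩ := E_surj (norm_E (au u))
        obtain ⟨v, hv0, hv1, hv⟩ := bu_surj ht0 ht1
        refine ⟨_, ⟨v, ⟨hv0, hv1⟩, rfl⟩, ?_⟩
        simp only
        rw [hv, ht]
      · rintro _ ⟨u, hu, rfl⟩
        obtain ⟨i, hB, hA⟩ := in_box hu.1 hu.2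
        have h1 := dist_coord i (E (bu u)) (E (au u))
        rw [(ury_neg_one (A_closed i) (B_closed i) (A_ne i) (B_ne i) (disj i) _).2 hB,
          (ury_one (A_closed i) (B_closed i) (A_ne i) (B_ne i) (disj i) _).2 hA] at h1
        norm_num at h1
        exact h1
  rw [h] at hspan
  linarith

end Pool.Agent.S13204
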