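import Pool.Statements.S13210
import Pool.Agent.R751.PlateC


/-!
Counterexample: a thin square plate `[-1,1]² × [-ε,ε]`. Every shadow has area at least of the order
of `ε` and bounded perimeter, so that its isoperimetric ratio is at least a constant times `ε`, while
the isoperimetric ratio of the plate is at most a constant times `ε²`.
-/

set_option autoImplicit false
open MeasureTheory
open scoped Pointwise
open Pool Pool.MP_598757_gt

namespace Pool.Agent.S13210

open Pool.Agent.R751 Set Filter

lemma part1 {u : E3} (hu : u ∈ Metric.sphere (0 : E3) 1) {L : ℝ}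
    (hL : Tendsto (fun t : ℝ =>
        ((volume ((fun x : E3 => x - (inner ℝ u x) • u) '' plate (1 / 1000)
              + Metric.closedBall (0 : E3) t)).toReal
          - 2 * t * ((volume (plate (1 / 1000) + segment ℝ (0 : E3) u)).toReal
              - (volume (plate (1 / 1000))).toReal)) / (Real.pi * t ^ 2))
        (nhdsWithin 0 (Set.Ioi 0)) (nhds L)) :
    1 / 50000 ≤ Real.pi * ((volume (plate (1 / 1000) + segment ℝ (0 : E3) u)).toReal
              - (volume (plate (1 / 1000))).toReal) / L ^ 2 := by
  have hu1 : ‖u‖ = 1 := by simpa using hu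
  set K : Set E3 := plate (1 / 1000) with hK
  have hKc : IsCompact K := Box_compact _ _ _
  have hKv : Convex ℝ K := Box_convex _ _ _
  obtain ⟨b, i, q, hi, hb, hq, hq2, hqb⟩ := exists_frame hu1
  have hA : (volume (K + segment ℝ (0 : E3) u)).toReal - (volume K).toReal = slope K u := by
    have h1 := G_eq hKc hKv u (zero_le_one (α := ℝ))
    have h2 := T_eq K u (zero_le_one (α := ℝ))
    rw [one_smul] at h2
    rw [h2]
    change G K u 1 - _ = _
    rw [h1]
    ring
  rw [hA] at hL ⊢
  have hui : |u i| ≤ 1 := by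
    have := abs_coord_le u i
    rwa [hu1] at this
  have hs1 : 2 * (1 / 1000) * q ≤ slope K u :=
    plate_slope (by norm_num) (by norm_num) b i q hi hb hq hqb hui
  obtain ⟨hP1, hP2⟩ := plate_prj (ε := 1 / 1000) (by norm_num) (by norm_num) (u := u) b hb
  have hPc : IsCompact (prj u K) := prj_compact u hKc
  have hPv : Convex ℝ (prj u K) := prj_convex u hKv
  have hsl : slope (prj u K) (b 2) = slope K u := by
    rw [hb]
    exact slope_prj hu1 hKc hKv (R := 2) (by norm_num)
      (fun x hx => plate_norm (by norm_num) (by norm_num) hx)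
  have hpi := Real.pi_pos
  have hlow : 2 * (1 / 1000) / Real.pi ≤ L := by
    refine ge_of_tendsto hL ?_
    filter_upwards [self_mem_nhdsWithin] with t ht
    have ht' : (0:ℝ) < t := ht
    have h1 := planar_lower b hPc hPv (R := 2) (r := 1 / 1000) (by norm_num) (by norm_num) ht' hP1 hP2
    rw [hsl] at h1
    change _ ≤ ((volume (prj u K + Metric.closedBall (0 : E3) t)).toReal - _) / _
    rw [div_le_div_iff₀ hpi (by positivity)]
    have h2 : 2 * (1 / 1000) * t ^ 2 ≤ (volume (prj u K + Metric.closedBall (0 : E3) t)).toReal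
      - 2 * t * slope K u := by linarith
    calc 2 * (1 / 1000) * (Real.pi * t ^ 2) = (2 * (1 / 1000) * t ^ 2) * Real.pi := by ring
      _ ≤ _ := mul_le_mul_of_nonneg_right h2 hpi.le
  have hup : L ≤ 32 / Real.pi := by
    have hlim : Tendsto (fun t : ℝ => (32 + 8 * t) / Real.pi) (nhdsWithin 0 (Set.Ioi 0))
        (nhds (32 / Real.pi)) := by
      have : Continuous fun t : ℝ => (32 + 8 * t) / Real.pi := by fun_prop
      have h1 := (this.tendsto 0).mono_left (nhdsWithin_le_nhds (s := Set.Ioi 0))
      simpa using h1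
    refine le_of_tendsto_of_tendsto hL hlim ?_
    filter_upwards [self_mem_nhdsWithin] with t ht
    have ht' : (0:ℝ) < t := ht
    have h1 := planar_upper b hPc hPv (R := 2) (by norm_num) ht' hP1
    rw [hsl] at h1
    change ((volume (prj u K + Metric.closedBall (0 : E3) t)).toReal - _) / _ ≤ _
    rw [div_le_div_iff₀ (by positivity) hpi]
    have h2 : (volume (prj u K + Metric.closedBall (0 : E3) t)).toReal
      - 2 * t * slope K u ≤ (32 + 8 * t) * t ^ 2 := by nlinarith
    calc _ ≤ ((32 + 8 * t) * t ^ 2) * Real.pi := mul_le_mul_of_nonneg_right h2 hpi.le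
      _ = _ := by ring
  have hL0 : 0 < L := lt_of_lt_of_le (by positivity) hlow
  rw [le_div_iff₀ (by positivity)]
  have hpi3 := Real.pi_gt_d2
  have hL2 : L ≤ 10.2 := by
    refine hup.trans ?_
    rw [div_le_iff₀ hpi]
    nlinarith
  have hq3 : (0.7:ℝ) ≤ q := by nlinarith
  nlinarith

lemma part2 : Tendsto (fun t : ℝ =>
        ((volume (plate (1 / 1000) + Metric.closedBall (0 : E3) t)).toReal
          - (volume (plate (1 / 1000))).toReal) / (2 * t))
        (nhdsWithin 0 (Set.Ioi 0)) (nhds (4 + 8 * (1 / 1000))) := by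
  have hlim : Tendsto (fun t : ℝ => 4 * (1 + 2 * (1 / 1000) + (2 + 1 / 1000) * t + t ^ 2))
      (nhdsWithin 0 (Set.Ioi 0)) (nhds (4 + 8 * (1 / 1000))) := by
    have : Continuous fun t : ℝ => 4 * (1 + 2 * (1 / 1000) + (2 + 1 / 1000) * t + t ^ 2) := by
      fun_prop
    have h1 := (this.tendsto 0).mono_left (nhdsWithin_le_nhds (s := Set.Ioi 0))
    convert h1 using 2
    norm_num
  refine tendsto_of_tendsto_of_tendsto_of_le_of_le' tendsto_const_nhds hlim ?_ ?_
  · filter_upwards [self_mem_nhdsWithin] with t ht
    have ht' : (0:ℝ) < t := ht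
    rw [plate_vol (by norm_num), le_div_iff₀ (by positivity)]
    have := plate_lower (ε := 1 / 1000) (by norm_num) ht'
    linarith
  · filter_upwards [self_mem_nhdsWithin] with t ht
    have ht' : (0:ℝ) < t := ht
    rw [plate_vol (by norm_num), div_le_iff₀ (by positivity)]
    have := plate_upper (ε := 1 / 1000) (by norm_num) ht'
    nlinarith

lemma plate_interior : (interior (plate (1 / 1000))).Nonempty := by
  refine ⟨0, mem_interior.2 ⟨Metric.ball 0 (1 / 1000), ?_, Metric.isOpen_ball,
    Metric.mem_ball_self (by norm_num)⟩⟩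
  intro x hx
  rw [mem_ball_zero_iff] at hx
  have h := fun j => abs_coord_le x j
  rw [mem_plate]
  exact ⟨by linarith [h 0], by linarith [h 1], by linarith [h 2]⟩

/-- The negation of the preceding statement: For every convex body K in 3-space and real c: if every orthogonal plane projection has isoperimetric ratio π·area/V₁² at least c, then 9π·vol(K)²/(2·V₂(K)³) is at least c (V₁, V₂ given via Steiner-formula limits). -/
theorem result :
    ¬ (∀ (K : Set (EuclideanSpace ℝ (Fin 3))) (c : ℝ),
    IsCompact K → Convex ℝ K → (interior K).Nonempty →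
    (∀ u ∈ Metric.sphere (0 : EuclideanSpace ℝ (Fin 3)) 1, ∀ L : ℝ,
      Filter.Tendsto (fun t : ℝ =>
        ((volume ((fun x : EuclideanSpace ℝ (Fin 3) => x - (inner ℝ u x) • u) '' K
              + Metric.closedBall (0 : EuclideanSpace ℝ (Fin 3)) t)).toReal
          - 2 * t * ((volume (K + segment ℝ (0 : EuclideanSpace ℝ (Fin 3)) u)).toReal
              - (volume K).toReal)) / (Real.pi * t ^ 2))
        (nhdsWithin 0 (Set.Ioi 0)) (nhds L) →
      c ≤ Real.pi * ((volume (K + segment ℝ (0 : EuclideanSpace ℝ (Fin 3)) u)).toReal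
              - (volume K).toReal) / L ^ 2) →
    ∀ S : ℝ,
      Filter.Tendsto (fun t : ℝ =>
        ((volume (K + Metric.closedBall (0 : EuclideanSpace ℝ (Fin 3)) t)).toReal
          - (volume K).toReal) / (2 * t))
        (nhdsWithin 0 (Set.Ioi 0)) (nhds S) →
      c ≤ 9 * Real.pi * (volume K).toReal ^ 2 / (2 * S ^ 3)) := by
  intro H
  have h := H (plate (1 / 1000)) (1 / 50000) (Box_compact _ _ _) (Box_convex _ _ _) plate_interior
    (fun u hu L hL => part1 hu hL) (4 + 8 * (1 / 1000)) part2
  rw [plate_vol (by norm_num), le_div_iff₀ (by norm_num)] at h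
  have hpi := Real.pi_lt_d2
  norm_num at h
  nlinarith

end Pool.Agent.S13210
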