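import Pool.Statements.S13341
import Pool.Agent.R979.NG.Fin

set_option autoImplicit false
open Bundle
open scoped Manifold ContDiff
open Pool Pool.MP_6d5819_gt

namespace Pool.Agent.S13341

/-- In a preconnected extended metric space all distances are finite. -/
theorem edist_ne_top_of_preconnected {M : Type} [EMetricSpace M] [PreconnectedSpace M]
    (x y : M) : edist x y ≠ ⊤ := by
  have hopen : IsOpen {z : M | edist z x < ⊤} := by
    have h := (continuous_id.edist (continuous_const (y := x)) : Continuous fun z : M => edist z x)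
    exact isOpen_lt h continuous_const
  have hclosed : IsClosed {z : M | edist z x < ⊤} := by
    rw [← isOpen_compl_iff, EMetric.isOpen_iff]
    intro z hz
    refine ⟨1, one_pos, ?_⟩
    intro w hw hwx
    apply hz
    have hzw : edist z w < 1 := by
      rw [edist_comm]; exact hw
    calc edist z x ≤ edist z w + edist w x := edist_triangle _ _ _
      _ < ⊤ := ENNReal.add_lt_top.2 ⟨hzw.trans ENNReal.one_lt_top, hwx⟩
  have huniv : {z : M | edist z x < ⊤} = Set.univ :=
    IsClopen.eq_univ ⟨hclosed, hopen⟩ ⟨x, by simp⟩
  have : y ∈ {z : M | edist z x < ⊤} := by rw [huniv]; trivial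
  rw [edist_comm]
  exact ne_of_lt this

/-- For every compact simply connected Riemannian manifold whose points all have isometric symmetries with differential minus identity, if some antipodal finite set is larger than the total real Betti number, then some integral homology group has an element of order 2. -/
theorem result :
  ∀ (d : ℕ) (M : Type) [EMetricSpace M]
    [ChartedSpace (EuclideanSpace ℝ (Fin d)) M]
    [IsManifold (𝓡 d) ∞ M]
    [RiemannianBundle (fun x : M ↦ TangentSpace (𝓡 d) x)]
    [IsContMDiffRiemannianBundle (𝓡 d) ∞ (EuclideanSpace ℝ (Fin d))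
      (fun x : M ↦ TangentSpace (𝓡 d) x)]
    [IsRiemannianManifold (𝓡 d) M]
    [CompactSpace M] [SimplyConnectedSpace M]
    (s : M → M → M),
    (∀ x : M, Isometry (s x) ∧ s x x = x ∧
      mfderiv (𝓡 d) (𝓡 d) (s x) x = -ContinuousLinearMap.id ℝ (EuclideanSpace ℝ (Fin d))) →
    (∃ A : Finset M, (∀ x ∈ A, ∀ y ∈ A, s x y = y) ∧
      (∑ i ∈ Finset.range (d + 1),
        Module.finrank ℝ
          ((((AlgebraicTopology.singularHomologyFunctor (ModuleCat.{0} ℝ) i).obj
            (ModuleCat.of ℝ ℝ)).obj (TopCat.of M) : ModuleCat.{0} ℝ) : Type)) < A.card) →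
    ∃ i : ℕ, ∃ g : ((((AlgebraicTopology.singularHomologyFunctor (ModuleCat.{0} ℤ) i).obj
            (ModuleCat.of ℤ ℤ)).obj (TopCat.of M) : ModuleCat.{0} ℤ) : Type),
      addOrderOf g = 2 := by
  intro d M iE iC iM iB iCB iR iK iS s hs hex
  obtain ⟨A, hA, hlt⟩ := hex
  have hpre : PreconnectedSpace M := inferInstance
  have h : ∀ x y : M, edist x y ≠ ⊤ := fun x y => edist_ne_top_of_preconnected x y
  letI iMet : MetricSpace M := EMetricSpace.toMetricSpace h
  exact @Pool.Agent.R979.NG.main_metric d M iMet iC iM iB iCB iR iK hpre s hs A hA hlt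

end Pool.Agent.S13341
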