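import Pool.Statements.S13574
import Pool.Agent.Results.MP_916210_gt.BetaOmega

set_option autoImplicit false
open Pool Pool.MP_916210_gt

namespace Pool.Agent.S13574

open Topology Filter Set
open Pool.Agent.Results.MP_916210_gt.BetaOmega

/-- The topology of pointwise convergence on `C(X, ℝ)`. -/
abbrev pw (X : Type) [TopologicalSpace X] : TopologicalSpace C(X, ℝ) :=
  TopologicalSpace.induced (fun f : C(X, ℝ) => (f : X → ℝ)) inferInstance

/-- The linear bijection between the two models of the space of continuous functions. -/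
def toC (X : Type) [TopologicalSpace X] : Cp X ≃ₗ[ℝ] C(X, ℝ) where
  toFun f := ⟨f.1, f.2⟩
  invFun f := ⟨f, f.continuous⟩
  map_add' _ _ := rfl
  map_smul' _ _ := rfl
  left_inv _ := rfl
  right_inv _ := rfl

theorem toC_cont (X : Type) [TopologicalSpace X] :
    @Continuous (Cp X) C(X, ℝ) inferInstance (pw X) (toC X) :=
  continuous_induced_rng.2 continuous_subtype_val

theorem toC_symm_cont (X : Type) [TopologicalSpace X] :
    @Continuous C(X, ℝ) (Cp X) (pw X) inferInstance (toC X).symm := by
  letI := pw X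
  exact Continuous.subtype_mk continuous_induced_dom _

theorem equiv_of {X Y : Type} [TopologicalSpace X] [TopologicalSpace Y] (h : LEquivalent X Y) :
    ∃ e : C(X, ℝ) ≃ₗ[ℝ] C(Y, ℝ), @Continuous _ _ (pw X) (pw Y) e ∧
      @Continuous _ _ (pw Y) (pw X) e.symm := by
  obtain ⟨L⟩ := h
  refine ⟨(toC X).symm.trans (L.toLinearEquiv.trans (toC Y)), ?_, ?_⟩
  · letI := pw X
    letI := pw Y
    exact (toC_cont Y).comp (L.continuous.comp (toC_symm_cont X))
  · letI := pw X
    letI := pw Y
    exact (toC_cont X).comp (L.symm.continuous.comp (toC_symm_cont Y))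

theorem of_equiv {X Y : Type} [TopologicalSpace X] [TopologicalSpace Y]
    (e : C(X, ℝ) ≃ₗ[ℝ] C(Y, ℝ)) (h1 : @Continuous _ _ (pw X) (pw Y) e)
    (h2 : @Continuous _ _ (pw Y) (pw X) e.symm) : LEquivalent X Y := by
  letI := pw X
  letI := pw Y
  exact ⟨{ toLinearEquiv := (toC X).trans (e.trans (toC Y).symm)
           continuous_toFun := (toC_symm_cont Y).comp (h1.comp (toC_cont X))
           continuous_invFun := (toC_symm_cont X).comp (h2.comp (toC_cont Y)) }⟩

/-- The one-point compactification of `ℕ` is homeomorphic to `ℕ∞`. -/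
theorem exists_homeo : Nonempty (OnePoint ℕ ≃ₜ ℕ∞) := by
  let f : OnePoint ℕ → ℕ∞ := fun x => x
  have hf : Continuous f := by
    rw [OnePoint.continuous_iff_from_nat]
    exact ENat.tendsto_natCast_nhds_top
  have hb : Function.Bijective f := Function.bijective_id
  exact ⟨hf.homeoOfEquivCompactToT2 (f := Equiv.ofBijective f hb)⟩

/-- The negation of the preceding statement: For every infinite Tychonoff space X: if C_p(X) is linearly homeomorphic to C_p(X ⊕ A) for each subspace A with a continuous linear extender, then C_p(X × convergent sequence) is linearly homeomorphic to C_p(X). -/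
theorem result :
    ¬ (∀ (X : Type) [TopologicalSpace X] [T35Space X] [Infinite X],
      (∀ A : Set X,
        (∃ φ : C(A, ℝ) →ₗ[ℝ] C(X, ℝ),
          @Continuous _ _
            (TopologicalSpace.induced (fun f : C(A, ℝ) => (f : A → ℝ)) inferInstance)
            (TopologicalSpace.induced (fun f : C(X, ℝ) => (f : X → ℝ)) inferInstance)
            (⇑φ) ∧
          ∀ f : C(A, ℝ), ∀ a : A, φ f a = f a) →
        ∃ e : C(X, ℝ) ≃ₗ[ℝ] C(X ⊕ A, ℝ),
          @Continuous _ _
            (TopologicalSpace.induced (fun f : C(X, ℝ) => (f : X → ℝ)) inferInstance)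
            (TopologicalSpace.induced (fun f : C(X ⊕ A, ℝ) => (f : X ⊕ A → ℝ)) inferInstance)
            (⇑e) ∧
          @Continuous _ _
            (TopologicalSpace.induced (fun f : C(X ⊕ A, ℝ) => (f : X ⊕ A → ℝ)) inferInstance)
            (TopologicalSpace.induced (fun f : C(X, ℝ) => (f : X → ℝ)) inferInstance)
            (⇑e.symm)) →
      ∃ e : C(X × OnePoint ℕ, ℝ) ≃ₗ[ℝ] C(X, ℝ),
        @Continuous _ _
          (TopologicalSpace.induced (fun f : C(X × OnePoint ℕ, ℝ) => (f : X × OnePoint ℕ → ℝ)) inferInstance)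
          (TopologicalSpace.induced (fun f : C(X, ℝ) => (f : X → ℝ)) inferInstance)
          (⇑e) ∧
        @Continuous _ _
          (TopologicalSpace.induced (fun f : C(X, ℝ) => (f : X → ℝ)) inferInstance)
          (TopologicalSpace.induced (fun f : C(X × OnePoint ℕ, ℝ) => (f : X × OnePoint ℕ → ℝ)) inferInstance)
          (⇑e.symm)) := by
  intro h
  have hinf : Infinite (Ultrafilter ℕ) :=
    Infinite.of_injective (pure : ℕ → Ultrafilter ℕ) (fun a b h => by
      have h1 : ({a} : Set ℕ) ∈ (pure b : Ultrafilter ℕ) := by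
        rw [← h]
        exact Ultrafilter.mem_pure.2 rfl
      exact (Ultrafilter.mem_pure.1 h1).symm)
  obtain ⟨e, he1, he2⟩ := h (Ultrafilter ℕ) (by
    rintro A ⟨φ, hφ1, hφ2⟩
    refine equiv_of (lstable A ?_)
    letI := pw A
    letI := pw (Ultrafilter ℕ)
    exact ⟨{ toLinearMap := (toC (Ultrafilter ℕ)).symm.toLinearMap.comp
               (φ.comp (toC A).toLinearMap)
             cont := (toC_symm_cont _).comp (hφ1.comp (toC_cont A)) }, fun f a => hφ2 _ a⟩)
  have h1 : LEquivalent (Ultrafilter ℕ × OnePoint ℕ) (Ultrafilter ℕ) := of_equiv e he1 he2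
  obtain ⟨g⟩ := exists_homeo
  exact not_sstable ((LEquivalent.of_homeo ((Homeomorph.refl _).prodCongr g.symm)).trans h1)

end Pool.Agent.S13574
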