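import Pool.Statements.S13589
import Pool.Agent.R760.NS4

set_option autoImplicit false
open Pool Pool.MP_93ef73_gt

namespace Pool.Agent.S13589

/-- There exist d, a nonempty compact totally disconnected A in R^d with two distinct Steiner trees S, T, no terminal interior to segments in both, and nonempty compact M (∣M∣=∣A∣ if A finite) and r>0 with S an r-minimizer for M. -/
theorem result :
  ∃ (d : ℕ) (A S T M : Set (EuclideanSpace ℝ (Fin d))) (r : ℝ),
    IsCompact A ∧ A.Nonempty ∧ IsTotallyDisconnected A ∧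
    (IsCompact S ∧ IsConnected S ∧ A ⊆ S ∧
      MeasureTheory.Measure.hausdorffMeasure 1 S < ⊤ ∧
      ∀ S' : Set (EuclideanSpace ℝ (Fin d)), IsCompact S' → IsConnected S' → A ⊆ S' →
        MeasureTheory.Measure.hausdorffMeasure 1 S ≤ MeasureTheory.Measure.hausdorffMeasure 1 S') ∧
    (IsCompact T ∧ IsConnected T ∧ A ⊆ T ∧
      MeasureTheory.Measure.hausdorffMeasure 1 T < ⊤ ∧
      ∀ S' : Set (EuclideanSpace ℝ (Fin d)), IsCompact S' → IsConnected S' → A ⊆ S' →
        MeasureTheory.Measure.hausdorffMeasure 1 T ≤ MeasureTheory.Measure.hausdorffMeasure 1 S') ∧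
    S ≠ T ∧
    IsCompact M ∧ M.Nonempty ∧ 0 < r ∧
    (A.Finite → M.Finite ∧ M.ncard = A.ncard) ∧
    (¬ ∃ a ∈ A,
        (∃ x y : EuclideanSpace ℝ (Fin d), x ≠ y ∧ segment ℝ x y ⊆ S ∧ a ∈ openSegment ℝ x y) ∧
        (∃ x y : EuclideanSpace ℝ (Fin d), x ≠ y ∧ segment ℝ x y ⊆ T ∧ a ∈ openSegment ℝ x y)) ∧
    (∀ y ∈ M, Metric.infDist y S ≤ r) ∧
    ∀ W : Set (EuclideanSpace ℝ (Fin d)), IsCompact W → IsConnected W →
      (∀ y ∈ M, Metric.infDist y W ≤ r) →
        MeasureTheory.Measure.hausdorffMeasure 1 S ≤ MeasureTheory.Measure.hausdorffMeasure 1 W := by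
  have hlow : ∀ W : Set (EuclideanSpace ℝ (Fin 2)), IsCompact W → IsConnected W →
      (∀ y ∈ Set.range R760.NS.mpt, Metric.infDist y W ≤ R760.NS.rr) →
      ENNReal.ofReal (2 + 2 * √3 + 4 / 50) ≤ MeasureTheory.Measure.hausdorffMeasure 1 W :=
    fun W h1 h2 h3 => R760.NS.lower_discs h1 h2 (fun l => h3 _ ⟨l, rfl⟩)
  have hcov : ∀ W : Set (EuclideanSpace ℝ (Fin 2)), Set.range R760.NS.term ⊆ W →
      ∀ y ∈ Set.range R760.NS.mpt, Metric.infDist y W ≤ R760.NS.rr := by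
    rintro W hW y ⟨l, rfl⟩
    exact (Metric.infDist_le_dist_of_mem (hW ⟨l, rfl⟩)).trans (R760.NS.term_mpt l)
  have hAS : Set.range R760.NS.term ⊆ R760.NS.SS := by
    rintro y ⟨l, rfl⟩
    exact R760.NS.term_SS l
  have hAT : Set.range R760.NS.term ⊆ R760.NS.TT := by
    rintro y ⟨l, rfl⟩
    exact R760.NS.term_TT l
  refine ⟨2, Set.range R760.NS.term, R760.NS.SS, R760.NS.TT, Set.range R760.NS.mpt, R760.NS.rr,
    (Set.finite_range _).isCompact, Set.range_nonempty _,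
    (Set.finite_range _).countable.isTotallyDisconnected,
    ⟨R760.NS.SS_compact, R760.NS.SS_conn, hAS,
      lt_of_le_of_lt R760.NS.SS_len ENNReal.ofReal_lt_top,
      fun S' h1 h2 h3 => R760.NS.SS_len.trans (hlow S' h1 h2 (hcov S' h3))⟩,
    ⟨R760.NS.TT_compact, R760.NS.TT_conn, hAT,
      lt_of_le_of_lt R760.NS.TT_len ENNReal.ofReal_lt_top,
      fun S' h1 h2 h3 => R760.NS.TT_len.trans (hlow S' h1 h2 (hcov S' h3))⟩,
    R760.NS.SS_ne_TT, (Set.finite_range _).isCompact, Set.range_nonempty _, R760.NS.rr_pos,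
    fun _ => ⟨Set.finite_range _, ?_⟩, ?_, hcov _ hAS,
    fun W h1 h2 h3 => R760.NS.SS_len.trans (hlow W h1 h2 h3)⟩
  · rw [← Set.image_univ, ← Set.image_univ, Set.ncard_image_of_injective _ R760.NS.mpt_inj,
      Set.ncard_image_of_injective _ R760.NS.term_inj]
  · rintro ⟨a, ⟨l, rfl⟩, h1, h2⟩
    unfold R760.NS.term at h1 h2
    split_ifs at h1 h2 with h
    · exact R760.NS.corner_TT l h2
    · exact R760.NS.outer_SS l h1

end Pool.Agent.S13589
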