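import Pool.Statements.S13596
-- import your own Pool.Agent.* helpers here

set_option autoImplicit false
open Pool Pool.MP_94b191_gt

namespace Pool.Agent.S13596

open Set

/-- The wave: `0` at even integers, `1` at odd integers. -/
noncomputable def w (s : ℝ) : ℝ := (1 - Real.cos (Real.pi * s)) / 2

/-- The point with label `s` and relative height `l`. -/
noncomputable def Phi (s l : ℝ) : ℝ × ℝ × ℝ := (w s, l / s, l / s ^ 2)

/-- Labels carrying a spoke. -/
def Lam : Set ℤ := {j | Even j ∨ ∃ m : ℕ, j = 2 ^ (m + 1) + 1}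

def Par : Set (ℝ × ℝ) :=
  {p | 2 ≤ p.1 ∧ 0 ≤ p.2 ∧ p.2 ≤ 1 ∧ (p.2 = 1 ∨ ∃ j ∈ Lam, (j : ℝ) = p.1)}

def I0 : Set (ℝ × ℝ × ℝ) := {y | 0 ≤ y.1 ∧ y.1 ≤ 1 ∧ y.2.1 = 0 ∧ y.2.2 = 0}

/-- The continuum. -/
def S : Set (ℝ × ℝ × ℝ) := I0 ∪ (fun p : ℝ × ℝ => Phi p.1 p.2) '' Par

lemma w_nonneg (s : ℝ) : 0 ≤ w s := by
  unfold w; have := Real.cos_le_one (Real.pi * s); linarith

lemma w_le (s : ℝ) : w s ≤ 1 := by
  unfold w; have := Real.neg_one_le_cos (Real.pi * s); linarith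

lemma w_cont : Continuous w := by unfold w; fun_prop

lemma w_even {j : ℤ} (h : Even j) : w j = 0 := by
  obtain ⟨k, rfl⟩ := h
  unfold w
  have : Real.pi * ((k + k : ℤ) : ℝ) = (k : ℝ) * (2 * Real.pi) := by push_cast; ring
  rw [this, Real.cos_int_mul_two_pi]
  norm_num

lemma w_odd {j : ℤ} (h : Odd j) : w j = 1 := by
  obtain ⟨k, rfl⟩ := h
  unfold w
  have : Real.pi * ((2 * k + 1 : ℤ) : ℝ) = (k : ℝ) * (2 * Real.pi) + Real.pi := by
    push_cast; ring
  rw [this, Real.cos_add_pi, Real.cos_int_mul_two_pi]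
  norm_num

lemma odd_pow (m : ℕ) : Odd ((2 : ℤ) ^ (m + 1) + 1) :=
  ⟨2 ^ m, by rw [pow_succ]; ring⟩

lemma Lam_closed : IsClosed (((↑) : ℤ → ℝ) '' Lam) :=
  Int.isClosedEmbedding_coe_real.isClosedMap _ (isClosed_discrete _)

lemma Par_closed : IsClosed Par := by
  unfold Par
  refine (isClosed_le continuous_const continuous_fst).inter
    ((isClosed_le continuous_const continuous_snd).inter
    ((isClosed_le continuous_snd continuous_const).inter
    ((isClosed_eq continuous_snd continuous_const).union ?_)))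
  exact Lam_closed.preimage continuous_fst

/-- Thin box. -/
def T (M : ℕ) : Set (ℝ × ℝ × ℝ) :=
  {y | 0 ≤ y.1 ∧ y.1 ≤ 1 ∧ 0 ≤ y.2.1 ∧ y.2.1 ≤ 1 / ((M : ℝ) + 1) ∧ 0 ≤ y.2.2 ∧ y.2.2 ≤ y.2.1}

lemma T_closed (M : ℕ) : IsClosed (T M) := by
  unfold T
  have c1 : Continuous fun y : ℝ × ℝ × ℝ => y.2.1 := continuous_fst.comp continuous_snd
  have c2 : Continuous fun y : ℝ × ℝ × ℝ => y.2.2 := continuous_snd.comp continuous_snd
  exact (isClosed_le continuous_const continuous_fst).inter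
    ((isClosed_le continuous_fst continuous_const).inter
    ((isClosed_le continuous_const c1).inter
    ((isClosed_le c1 continuous_const).inter
    ((isClosed_le continuous_const c2).inter
    (isClosed_le c2 c1)))))

lemma Phi_cont : ContinuousOn (fun p : ℝ × ℝ => Phi p.1 p.2) {p | 2 ≤ p.1} := by
  unfold Phi
  refine ContinuousOn.prodMk (w_cont.comp continuous_fst).continuousOn
    (ContinuousOn.prodMk ?_ ?_)
  · refine ContinuousOn.div continuous_snd.continuousOn continuous_fst.continuousOn ?_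
    intro p hp
    have : (2 : ℝ) ≤ p.1 := hp
    positivity
  · refine ContinuousOn.div continuous_snd.continuousOn (continuous_fst.pow 2).continuousOn ?_
    intro p hp
    have : (2 : ℝ) ≤ p.1 := hp
    positivity

lemma S_eq : S = ⋂ M : ℕ, (T M ∪ (fun p : ℝ × ℝ => Phi p.1 p.2) ''
    (Par ∩ {p | p.1 ≤ (M : ℝ) + 2})) := by
  ext y
  simp only [S, mem_iInter, mem_union]
  constructor
  · rintro (h | ⟨p, hp, rfl⟩) M
    · left
      refine ⟨h.1, h.2.1, by rw [h.2.2.1], by rw [h.2.2.1]; positivity, by rw [h.2.2.2], ?_⟩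
      rw [h.2.2.1, h.2.2.2]
    · by_cases hM : p.1 ≤ (M : ℝ) + 2
      · right; exact ⟨p, ⟨hp, hM⟩, rfl⟩
      · left
        push Not at hM
        obtain ⟨h1, h2, h3, h4⟩ := hp
        have hs : (0 : ℝ) < p.1 := by linarith
        refine ⟨w_nonneg _, w_le _, div_nonneg h2 hs.le, ?_, div_nonneg h2 (by positivity), ?_⟩
        · show p.2 / p.1 ≤ _
          rw [div_le_div_iff₀ hs (by positivity)]
          have : (0 : ℝ) ≤ M := Nat.cast_nonneg M
          nlinarith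
        · show p.2 / p.1 ^ 2 ≤ p.2 / p.1
          apply div_le_div_of_nonneg_left h2 hs
          nlinarith
  · intro h
    by_cases h2 : ∃ M : ℕ, y ∈ (fun p : ℝ × ℝ => Phi p.1 p.2) '' (Par ∩ {p | p.1 ≤ (M : ℝ) + 2})
    · obtain ⟨M, p, hp, rfl⟩ := h2
      right; exact ⟨p, hp.1, rfl⟩
    · left
      push Not at h2
      have h3 : ∀ M : ℕ, y ∈ T M := fun M => (h M).resolve_right (h2 M)
      have h4 := h3 0
      have h5 : y.2.1 ≤ 0 := by
        apply le_of_forall_pos_le_add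
        intro ε hε
        obtain ⟨M, hM⟩ := exists_nat_one_div_lt hε
        have := (h3 M).2.2.2.1
        linarith
      have h6 : y.2.1 = 0 := le_antisymm h5 h4.2.2.1
      refine ⟨h4.1, h4.2.1, h6, le_antisymm ?_ h4.2.2.2.2.1⟩
      rw [← h6]; exact h4.2.2.2.2.2

lemma S_closed : IsClosed S := by
  rw [S_eq]
  refine isClosed_iInter fun M => (T_closed M).union (IsCompact.isClosed ?_)
  refine IsCompact.image_of_continuousOn ?_ (Phi_cont.mono fun p hp => hp.1.1)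
  have : Par ∩ {p | p.1 ≤ (M : ℝ) + 2} ⊆ Icc (2 : ℝ) ((M : ℝ) + 2) ×ˢ Icc (0 : ℝ) 1 := by
    rintro p ⟨⟨h1, h2, h3, _⟩, h4⟩
    exact ⟨⟨h1, h4⟩, ⟨h2, h3⟩⟩
  exact (isCompact_Icc.prod isCompact_Icc).of_isClosed_subset
    (Par_closed.inter (isClosed_le continuous_fst continuous_const)) this

lemma S_sub : S ⊆ Icc (0, 0, 0) (1, 1, 1) := by
  have h0 : S ⊆ T 0 ∪ T 0 := by
    rintro y (h | ⟨p, ⟨h1, h2, h3, h4⟩, rfl⟩)
    · left
      refine ⟨h.1, h.2.1, by rw [h.2.2.1], by rw [h.2.2.1]; positivity, by rw [h.2.2.2], ?_⟩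
      rw [h.2.2.1, h.2.2.2]
    · left
      have hs : (0 : ℝ) < p.1 := by linarith
      refine ⟨w_nonneg _, w_le _, div_nonneg h2 hs.le, ?_, div_nonneg h2 (by positivity), ?_⟩
      · show p.2 / p.1 ≤ _
        rw [div_le_div_iff₀ hs (by positivity)]
        push_cast
        linarith
      · show p.2 / p.1 ^ 2 ≤ p.2 / p.1
        apply div_le_div_of_nonneg_left h2 hs
        nlinarith
  intro y hy
  rw [union_self] at h0
  obtain ⟨h1, h2, h3, h4, h5, h6⟩ := h0 hy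
  have h7 : y.2.1 ≤ 1 := by simpa using h4
  exact ⟨⟨h1, h3, h5⟩, ⟨h2, h7, h6.trans h7⟩⟩

lemma S_compact : IsCompact S := isCompact_Icc.of_isClosed_subset S_closed S_sub

instance : CompactSpace S := isCompact_iff_compactSpace.1 S_compact

/-- Lipschitz paths. -/
def LipP (K : ℝ) {x y : S} (p : Path x y) : Prop :=
  ∀ s t : unitInterval, dist (p s) (p t) ≤ K * |(s : ℝ) - t|

lemma LipP.mono {K K' : ℝ} {x y : S} {p : Path x y} (h : LipP K p) (hK : K ≤ K') : LipP K' p :=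
  fun s t => (h s t).trans (mul_le_mul_of_nonneg_right hK (abs_nonneg _))

lemma LipP.symm {K : ℝ} {x y : S} {p : Path x y} (h : LipP K p) : LipP K p.symm := by
  intro s t
  simp only [Path.symm_apply]
  refine (h _ _).trans (le_of_eq ?_)
  simp only [unitInterval.coe_symm_eq]
  congr 1
  rw [← abs_neg]
  congr 1
  ring

lemma LipP.trans' {K : ℝ} {x y z : S} {p : Path x y} {q : Path y z} (hp : LipP K p)
    (hq : LipP K q) {s t : unitInterval} (hst : s ≤ t) :
    dist ((p.trans q) s) ((p.trans q) t) ≤ 2 * K * ((t : ℝ) - s) := by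
  have hst' : (s : ℝ) ≤ t := hst
  rw [Path.trans_apply, Path.trans_apply]
  split_ifs with h1 h2 h2
  · refine (hp _ _).trans (le_of_eq ?_)
    simp only
    rw [abs_of_nonpos (by linarith)]
    ring
  · have e1 := hp ⟨2 * s, (unitInterval.mul_pos_mem_iff zero_lt_two).2 ⟨s.2.1, h1⟩⟩ 1
    have e2 := hq 0 ⟨2 * t - 1, unitInterval.two_mul_sub_one_mem_iff.2 ⟨(not_le.1 h2).le, t.2.2⟩⟩
    rw [Path.target] at e1
    rw [Path.source] at e2
    refine (dist_triangle _ y _).trans ((add_le_add e1 e2).trans (le_of_eq ?_))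
    simp only [Set.Icc.coe_one, Set.Icc.coe_zero]
    push Not at h2
    rw [abs_of_nonpos (by linarith), abs_of_nonpos (by linarith)]
    ring
  · push Not at h1
    linarith
  · refine (hq _ _).trans (le_of_eq ?_)
    simp only
    rw [abs_of_nonpos (by linarith)]
    ring

lemma LipP.trans {K : ℝ} {x y z : S} {p : Path x y} {q : Path y z} (hp : LipP K p)
    (hq : LipP K q) : LipP (2 * K) (p.trans q) := by
  intro s t
  rcases le_total s t with h | h
  · have h' : (s : ℝ) ≤ t := h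
    rw [abs_of_nonpos (sub_nonpos.2 h'), neg_sub]
    exact LipP.trans' hp hq h
  · have h' : (t : ℝ) ≤ s := h
    rw [abs_of_nonneg (sub_nonneg.2 h'), dist_comm]
    exact LipP.trans' hp hq h

lemma exists_uniform {K : ℝ} (hK : 0 ≤ K) {ε : ℝ} (hε : 0 < ε) {x y : S} : ∃ n : ℕ,
    ∀ p : Path x y, LipP K p → ∃ t : Fin (n + 1) → unitInterval,
      t 0 = 0 ∧ t (Fin.last n) = 1 ∧ StrictMono t ∧
        ∀ i : Fin n, Metric.diam (⇑p '' Set.Icc (t i.castSucc) (t i.succ)) ≤ ε := by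
  obtain ⟨n, hn⟩ := exists_nat_gt (K / ε)
  have hn0 : 0 < n := by
    have : (0 : ℝ) < n := lt_of_le_of_lt (div_nonneg hK hε.le) hn
    exact_mod_cast this
  have hn1 : (0 : ℝ) < n := by exact_mod_cast hn0
  refine ⟨n, fun p hp => ⟨fun i => ⟨(i : ℕ) / n, by positivity, ?_⟩, ?_, ?_, ?_, ?_⟩⟩
  · rw [div_le_one hn1]
    have := i.2
    exact_mod_cast Nat.lt_succ_iff.1 this
  · apply Subtype.ext
    simp
  · apply Subtype.ext
    simp
    exact hn0.ne'
  · intro i j hij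
    rw [← Subtype.coe_lt_coe]
    simp only
    apply div_lt_div_of_pos_right _ hn1
    exact_mod_cast hij
  · intro i
    apply Metric.diam_le_of_forall_dist_le hε.le
    rintro _ ⟨u, hu, rfl⟩ _ ⟨v, hv, rfl⟩
    refine (hp u v).trans ?_
    obtain ⟨hu1, hu2⟩ := hu
    obtain ⟨hv1, hv2⟩ := hv
    rw [← Subtype.coe_le_coe] at hu1 hu2 hv1 hv2
    simp only [Fin.val_castSucc, Fin.val_succ] at hu1 hu2 hv1 hv2
    push_cast at hu1 hu2 hv1 hv2
    have h1 : |(u : ℝ) - v| ≤ 1 / n := by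
      have e : ((i : ℕ) + 1 : ℝ) / n = (i : ℕ) / n + 1 / n := by ring
      rw [abs_le]
      constructor <;> linarith
    have h2 : K < n * ε := by
      rwa [div_lt_iff₀ hε] at hn
    calc K * |(u : ℝ) - v| ≤ K * (1 / n) := mul_le_mul_of_nonneg_left h1 hK
      _ ≤ (n * ε) * (1 / n) := mul_le_mul_of_nonneg_right h2.le (by positivity)
      _ = ε := by field_simp

def a : S := ⟨(0, 0, 0), Or.inl ⟨le_rfl, zero_le_one, rfl, rfl⟩⟩
def b : S := ⟨(1, 0, 0), Or.inl ⟨zero_le_one, le_rfl, rfl, rfl⟩⟩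

lemma exists_LipP {f : ℝ → ℝ × ℝ × ℝ} {K : ℝ}
    (hf : ∀ s ∈ Icc (0 : ℝ) 1, ∀ t ∈ Icc (0 : ℝ) 1, dist (f s) (f t) ≤ K * |s - t|)
    (hS : ∀ s ∈ Icc (0 : ℝ) 1, f s ∈ S) {x y : S} (hx : f 0 = x) (hy : f 1 = y) :
    ∃ p : Path x y, LipP K p := by
  have hcont : Continuous (fun t : unitInterval => (⟨f t, hS t t.2⟩ : S)) := by
    have : LipschitzWith (Real.toNNReal K) (fun t : unitInterval => (⟨f t, hS t t.2⟩ : S)) := by
      apply LipschitzWith.of_dist_le'
      intro s t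
      exact hf s s.2 t t.2
    exact this.continuous
  refine ⟨⟨⟨fun t => ⟨f t, hS t t.2⟩, hcont⟩, Subtype.ext ?_, Subtype.ext ?_⟩, ?_⟩
  · simpa using hx
  · simpa using hy
  · intro s t
    exact hf s s.2 t t.2

lemma Phi_dist_l {s l l' : ℝ} (hs : 2 ≤ s) : dist (Phi s l) (Phi s l') ≤ |l - l'| := by
  unfold Phi
  rw [Prod.dist_eq, Prod.dist_eq]
  simp only [dist_self]
  refine max_le (abs_nonneg _) (max_le ?_ ?_)
  · rw [Real.dist_eq, ← sub_div, abs_div, abs_of_pos (by linarith : 0 < s)]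
    exact div_le_self (abs_nonneg _) (by linarith)
  · rw [Real.dist_eq, ← sub_div, abs_div, abs_of_pos (by positivity : 0 < s ^ 2)]
    exact div_le_self (abs_nonneg _) (by nlinarith)

lemma Phi_dist_s {s s' : ℝ} (hs : 2 ≤ s) (hs' : 2 ≤ s') :
    dist (Phi s 1) (Phi s' 1) ≤ 2 * |s - s'| := by
  unfold Phi
  rw [Prod.dist_eq, Prod.dist_eq]
  have hs0 : 0 < s := by linarith
  have hs0' : 0 < s' := by linarith
  refine max_le ?_ (max_le ?_ ?_)
  · simp only
    rw [Real.dist_eq]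
    unfold w
    have h1 : (1 - Real.cos (Real.pi * s)) / 2 - (1 - Real.cos (Real.pi * s')) / 2 =
        -((Real.cos (Real.pi * s) - Real.cos (Real.pi * s')) / 2) := by ring
    rw [h1, abs_neg, abs_div, abs_two]
    have h2 := Real.abs_cos_sub_cos_le (Real.pi * s) (Real.pi * s')
    rw [← mul_sub, abs_mul, abs_of_pos Real.pi_pos] at h2
    have h3 := Real.pi_lt_d2
    have h4 := abs_nonneg (s - s')
    nlinarith
  · simp only
    rw [Real.dist_eq]
    have h1 : 1 / s - 1 / s' = -((s - s') / (s * s')) := by field_simp; ring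
    rw [h1, abs_neg, abs_div, abs_of_pos (by positivity : 0 < s * s')]
    have h2 : |s - s'| / (s * s') ≤ |s - s'| := div_le_self (abs_nonneg _) (by nlinarith)
    have h4 := abs_nonneg (s - s')
    linarith
  · simp only
    rw [Real.dist_eq]
    have h1 : 1 / s ^ 2 - 1 / s' ^ 2 = -((s - s') * ((s + s') / (s ^ 2 * s' ^ 2))) := by
      field_simp; ring
    rw [h1, abs_neg, abs_mul, abs_of_pos (by positivity : 0 < (s + s') / (s ^ 2 * s' ^ 2))]
    have h2 : (s + s') / (s ^ 2 * s' ^ 2) ≤ 1 := by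
      rw [div_le_one (by positivity)]
      have e1 : s ^ 2 * s' ^ 2 = (s * s') * (s * s') := by ring
      have e2 : s + s' ≤ s * s' := by nlinarith
      have e3 : 1 ≤ s * s' := by nlinarith
      rw [e1]
      nlinarith
    have h4 := abs_nonneg (s - s')
    nlinarith

lemma Phi_mem {s l : ℝ} (h : (s, l) ∈ Par) : Phi s l ∈ S := Or.inr ⟨(s, l), h, rfl⟩

lemma spoke_path {s l : ℝ} (hs : 2 ≤ s) (hl : l ∈ Icc (0 : ℝ) 1) (hL : ∃ j ∈ Lam, (j : ℝ) = s)
    {x y : S} (hx : (x : ℝ × ℝ × ℝ) = (w s, 0, 0)) (hy : (y : ℝ × ℝ × ℝ) = Phi s l) :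
    ∃ p : Path x y, LipP 1 p := by
  refine exists_LipP (f := fun r => Phi s (r * l)) ?_ ?_ ?_ ?_
  · intro r hr r' hr'
    refine (Phi_dist_l hs).trans ?_
    rw [← sub_mul, abs_mul, abs_of_nonneg hl.1, one_mul]
    exact mul_le_of_le_one_right (abs_nonneg _) hl.2
  · intro r hr
    exact Phi_mem ⟨hs, mul_nonneg hr.1 hl.1, mul_le_one₀ hr.2 hl.1 hl.2, Or.inr hL⟩
  · rw [hx]; simp [Phi]
  · rw [hy]; simp

lemma path_base {x y : S} (hx : (x : ℝ × ℝ × ℝ) = (0, 0, 0)) (hy : (y : ℝ × ℝ × ℝ) ∈ I0) :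
    ∃ p : Path x y, LipP 1 p := by
  obtain ⟨h1, h2, h3, h4⟩ := hy
  refine exists_LipP (f := fun r => (r * (y : ℝ × ℝ × ℝ).1, 0, 0)) ?_ ?_ ?_ ?_
  · intro r hr r' hr'
    rw [Prod.dist_eq, Prod.dist_eq]
    simp only [dist_self]
    refine max_le ?_ (max_le (by positivity) (by positivity))
    rw [Real.dist_eq, ← sub_mul, abs_mul, abs_of_nonneg h1, one_mul]
    exact mul_le_of_le_one_right (abs_nonneg _) h2
  · intro r hr
    exact Or.inl ⟨mul_nonneg hr.1 h1, mul_le_one₀ hr.2 h1 h2, rfl, rfl⟩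
  · rw [hx]; simp
  · simp only [one_mul]
    exact Prod.ext rfl (Prod.ext h3.symm h4.symm)

lemma path_all (u : S) : ∃ p : Path a u, LipP 8 p := by
  obtain ⟨u, hu⟩ := u
  rcases hu with hu | ⟨⟨s, l⟩, ⟨h1, h2, h3, h4⟩, rfl⟩
  · obtain ⟨p, hp⟩ := path_base (x := a) (y := ⟨u, Or.inl hu⟩) rfl hu
    exact ⟨p, hp.mono (by norm_num)⟩
  · simp only at h1 h2 h3 h4
    rcases h4 with h4 | ⟨j, hj, hjs⟩
    · subst h4
      -- rim point
      obtain ⟨k, hk⟩ : ∃ k : ℤ, k = ⌊s / 2⌋ := ⟨_, rfl⟩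
      have hk1 : (k : ℝ) ≤ s / 2 := by rw [hk]; exact Int.floor_le _
      have hk2 : s / 2 < k + 1 := by rw [hk]; exact Int.lt_floor_add_one _
      have hk3 : (1 : ℤ) ≤ k := by
        rw [hk, Int.le_floor]; push_cast; linarith
      have hk4 : (1 : ℝ) ≤ k := by exact_mod_cast hk3
      have hL : ∃ j ∈ Lam, (j : ℝ) = 2 * k := ⟨2 * k, Or.inl ⟨k, by ring⟩, by push_cast; ring⟩
      have he : (2 : ℝ) ≤ 2 * k := by linarith
      have hmem : Phi (2 * k) 1 ∈ S := Phi_mem ⟨he, zero_le_one, le_rfl, Or.inl rfl⟩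
      have hw : w (2 * k) = 0 := by
        have := w_even (j := 2 * k) ⟨k, by ring⟩
        push_cast at this
        exact this
      obtain ⟨p, hp⟩ := spoke_path he ⟨zero_le_one, le_rfl⟩ hL (x := a)
        (y := ⟨Phi (2 * k) 1, hmem⟩) (by rw [hw]; rfl) rfl
      have hmem2 : Phi s 1 ∈ S := Phi_mem ⟨h1, zero_le_one, le_rfl, Or.inl rfl⟩
      obtain ⟨q, hq⟩ : ∃ q : Path (⟨Phi (2 * k) 1, hmem⟩ : S) ⟨Phi s 1, hmem2⟩, LipP 4 q := by
        refine exists_LipP (f := fun r => Phi (2 * k + r * (s - 2 * k)) 1) ?_ ?_ ?_ ?_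
        · intro r hr r' hr'
          refine (Phi_dist_s ?_ ?_).trans ?_
          · have := mul_nonneg hr.1 (by linarith : 0 ≤ s - 2 * k)
            linarith
          · have := mul_nonneg hr'.1 (by linarith : 0 ≤ s - 2 * k)
            linarith
          · have : 2 * (k : ℝ) + r * (s - 2 * k) - (2 * k + r' * (s - 2 * k)) =
              (r - r') * (s - 2 * k) := by ring
            rw [this, abs_mul, abs_of_nonneg (by linarith : 0 ≤ s - 2 * k)]
            have h5 : s - 2 * k ≤ 2 := by linarith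
            have h6 := abs_nonneg (r - r')
            nlinarith
        · intro r hr
          have := mul_nonneg hr.1 (by linarith : 0 ≤ s - 2 * k)
          exact Phi_mem ⟨by simp only; linarith, zero_le_one, le_rfl, Or.inl rfl⟩
        · simp
        · simp
      exact ⟨p.trans q, ((hp.mono (by norm_num : (1 : ℝ) ≤ 4)).trans hq).mono (by norm_num)⟩
    · have hL : ∃ j ∈ Lam, (j : ℝ) = s := ⟨j, hj, hjs⟩
      rcases Int.even_or_odd j with he | ho
      · have hw : w s = 0 := by rw [← hjs]; exact w_even he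
        obtain ⟨p, hp⟩ := spoke_path h1 ⟨h2, h3⟩ hL (x := a)
          (y := ⟨Phi s l, Phi_mem ⟨h1, h2, h3, Or.inr hL⟩⟩) (by rw [hw]; rfl) rfl
        exact ⟨p, hp.mono (by norm_num)⟩
      · have hw : w s = 1 := by rw [← hjs]; exact w_odd ho
        obtain ⟨p, hp⟩ := spoke_path h1 ⟨h2, h3⟩ hL (x := b)
          (y := ⟨Phi s l, Phi_mem ⟨h1, h2, h3, Or.inr hL⟩⟩) (by rw [hw]; rfl) rfl
        obtain ⟨q, hq⟩ := path_base (x := a) (y := b) rfl ⟨zero_le_one, le_rfl, rfl, rfl⟩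
        exact ⟨q.trans p, (hq.trans hp).mono (by norm_num)⟩

instance : ConnectedSpace S := by
  have : PathConnectedSpace S := by
    rw [pathConnectedSpace_iff_univ]
    refine ⟨a, mem_univ _, fun {u} _ => ?_⟩
    obtain ⟨p, _⟩ := path_all u
    exact joinedIn_univ.2 ⟨p⟩
  infer_instance

lemma path_through (x y u : S) : ∃ p : Path x y, LipP 32 p ∧ u ∈ range p := by
  obtain ⟨px, hpx⟩ := path_all x
  obtain ⟨py, hpy⟩ := path_all y
  obtain ⟨pu, hpu⟩ := path_all u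
  refine ⟨(px.symm.trans pu).trans (pu.symm.trans py), ?_, ?_⟩
  · have h1 := hpx.symm.trans hpu
    have h2 := hpu.symm.trans hpy
    exact (h1.trans h2).mono (by norm_num)
  · rw [Path.trans_range]
    left
    rw [Path.trans_range]
    right
    exact ⟨1, pu.target⟩

lemma uniform_path (x y : S) : ∃ P : Set (Path x y),
    (∀ ε : ℝ, ε > 0 → ∃ n : ℕ, ∀ p ∈ P, ∃ t : Fin (n + 1) → unitInterval,
        t 0 = 0 ∧ t (Fin.last n) = 1 ∧ StrictMono t ∧
        ∀ i : Fin n, Metric.diam (⇑p '' Set.Icc (t i.castSucc) (t i.succ)) ≤ ε) ∧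
    (⋃ p ∈ P, Set.range ⇑p) = Set.univ := by
  refine ⟨{p | LipP 32 p}, ?_, ?_⟩
  · intro ε hε
    exact exists_uniform (by norm_num) hε
  · rw [eq_univ_iff_forall]
    intro u
    obtain ⟨p, hp, hu⟩ := path_through x y u
    exact mem_biUnion (show p ∈ {p | LipP 32 p} from hp) hu

/-- The label of a point. -/
noncomputable def lab (y : ℝ × ℝ × ℝ) : ℝ := y.2.1 / y.2.2

lemma lab_Phi {s l : ℝ} (hs : 0 < s) (hl : 0 < l) : lab (Phi s l) = s := by
  unfold lab Phi
  simp only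
  field_simp

lemma S_nonneg {y : ℝ × ℝ × ℝ} (hy : y ∈ S) : 0 ≤ y.2.1 := by
  rcases hy with hy | ⟨⟨s, l⟩, ⟨h1, h2, h3, h4⟩, rfl⟩
  · rw [hy.2.2.1]
  · simp only at h1 h2
    exact div_nonneg h2 (by linarith)

lemma S_zero {y : ℝ × ℝ × ℝ} (hy : y ∈ S) (h : y.2.1 = 0) : y.2.2 = 0 := by
  rcases hy with hy | ⟨⟨s, l⟩, ⟨h1, h2, h3, h4⟩, rfl⟩
  · exact hy.2.2.2
  · simp only at h1 h2
    unfold Phi at h ⊢
    simp only at h ⊢
    have hs : s ≠ 0 := by linarith
    rcases div_eq_zero_iff.1 h with h5 | h5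
    · rw [h5]; simp
    · exact absurd h5 hs

lemma S_pos {y : ℝ × ℝ × ℝ} (hy : y ∈ S) (h : 0 < y.2.1) : ∃ s l, y = Phi s l ∧ 2 ≤ s ∧ 0 < l ∧
    l ≤ 1 ∧ (l = 1 ∨ ∃ j ∈ Lam, (j : ℝ) = s) := by
  rcases hy with hy | ⟨⟨s, l⟩, ⟨h1, h2, h3, h4⟩, rfl⟩
  · rw [hy.2.2.1] at h
    exact absurd h (lt_irrefl _)
  · simp only at h1 h2 h3 h4
    refine ⟨s, l, rfl, h1, ?_, h3, h4⟩
    rcases h2.lt_or_eq with h5 | h5
    · exact h5
    · exfalso
      unfold Phi at h
      simp only at h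
      rw [← h5] at h
      simp at h

lemma S_pos2 {y : ℝ × ℝ × ℝ} (hy : y ∈ S) (h : 0 < y.2.1) : 0 < y.2.2 := by
  obtain ⟨s, l, rfl, hs, hl, _, _⟩ := S_pos hy h
  unfold Phi
  simp only
  positivity

lemma S_w {y : ℝ × ℝ × ℝ} (hy : y ∈ S) (h : 0 < y.2.1) : y.1 = w (lab y) := by
  obtain ⟨s, l, rfl, hs, hl, _, _⟩ := S_pos hy h
  rw [lab_Phi (by linarith) hl]
  rfl

lemma escape {g : ℝ → ℝ × ℝ × ℝ} (hg : Continuous g) (hS : ∀ t ∈ Icc (0 : ℝ) 1, g t ∈ S)
    (hinj : InjOn g (Icc 0 1)) (h0 : g 0 = (0, 0, 0)) (h1 : g 1 = (1, 0, 0)) {m : ℕ}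
    {τ : ℝ} (hτ : τ ∈ Icc (0 : ℝ) 1) (hgτ : g τ = Phi (3 * 2 ^ m) 1) :
    ∃ t1, τ ≤ t1 ∧ t1 ≤ 1 ∧ (∀ t ∈ Icc τ t1, 0 < (g t).2.1) ∧
      ((2 : ℝ) ^ (m + 2) + 1 ≤ lab (g t1) ∨ lab (g t1) ≤ (2 : ℝ) ^ (m + 1) + 1) := by
  have hq : Continuous fun t => (g t).2.1 := (continuous_fst.comp continuous_snd).comp hg
  have hx : Continuous fun t => (g t).1 := continuous_fst.comp hg
  obtain ⟨T, ⟨⟨hT1, hT2⟩, hT3⟩, hTmin⟩ : ∃ T, IsLeast {t | t ∈ Icc τ 1 ∧ (g t).2.1 = 0} T := by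
    refine IsCompact.exists_isLeast ?_ ?_
    · exact isCompact_Icc.inter_right (isClosed_eq hq continuous_const)
    · exact ⟨1, ⟨hτ.2, le_rfl⟩, by rw [h1]⟩
  have hpos : ∀ t, τ ≤ t → t < T → 0 < (g t).2.1 := by
    intro t h2 h3
    rcases (S_nonneg (hS t ⟨hτ.1.trans h2, h3.le.trans hT2⟩)).lt_or_eq with h4 | h4
    · exact h4
    · exact absurd (hTmin ⟨⟨h2, h3.le.trans hT2⟩, h4.symm⟩) (not_le.2 h3)
  have hgτ0 : 0 < (g τ).2.1 := by
    rw [hgτ]; unfold Phi; simp only; positivity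
  have hτT : τ < T := by
    rcases hT1.lt_or_eq with h | h
    · exact h
    · rw [← h] at hT3
      linarith
  by_contra hcon
  push Not at hcon
  have hc : ∀ t, τ ≤ t → t < T → (2 : ℝ) ^ (m + 1) + 1 < lab (g t) ∧
      lab (g t) < (2 : ℝ) ^ (m + 2) + 1 := by
    intro t h2 h3
    have := hcon t h2 (h3.le.trans hT2) (fun u hu => hpos u hu.1 (hu.2.trans_lt h3))
    exact ⟨this.2, this.1⟩
  set om : ℝ := (2 : ℝ) ^ (m + 2) + 1 with hom
  have hom0 : 0 < om := by positivity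
  have hev1 : ∀ᶠ t in nhds T, (g t).2.1 < 1 / om := by
    have h2 : (g T).2.1 < 1 / om := by rw [hT3]; positivity
    exact (hq.tendsto T).eventually (gt_mem_nhds h2)
  have hev2 : ∀ᶠ t in nhdsWithin T (Iio T), (g t).1 = 0 := by
    filter_upwards [mem_nhdsWithin_of_mem_nhds hev1, mem_nhdsWithin_of_mem_nhds
      (Ioi_mem_nhds hτT), self_mem_nhdsWithin] with t h2 h3 h4
    have h3' : τ ≤ t := le_of_lt h3
    have h4' : t < T := h4
    have hSt := hS t ⟨hτ.1.trans h3', h4'.le.trans hT2⟩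
    have hp := hpos t h3' h4'
    obtain ⟨c1, c2⟩ := hc t h3' h4'
    obtain ⟨s, l, hgt, hs, hl, hl1, hcase⟩ := S_pos hSt hp
    rw [hgt, lab_Phi (by linarith) hl] at c1 c2
    rw [hgt] at h2 ⊢
    have h5 : l / s < 1 / om := h2
    have hs0 : 0 < s := by linarith
    have h6 : l < 1 := by
      rw [div_lt_div_iff₀ hs0 hom0] at h5
      nlinarith
    rcases hcase with h7 | ⟨j, hj, hjs⟩
    · linarith
    · show w s = 0
      rcases hj with hj | ⟨m', hm'⟩
      · rw [← hjs]; exact w_even hj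
      · exfalso
        rw [← hjs, hm'] at c1 c2
        push_cast at c1 c2
        have c3 : (2 : ℝ) ^ (m + 1) < 2 ^ (m' + 1) := by linarith
        have c4 : (2 : ℝ) ^ (m' + 1) < 2 ^ (m + 2) := by rw [hom] at c2; linarith
        have c5 := (pow_lt_pow_iff_right₀ (by norm_num : (1 : ℝ) < 2)).1 c3
        have c6 := (pow_lt_pow_iff_right₀ (by norm_num : (1 : ℝ) < 2)).1 c4
        omega
  have hlim : (g T).1 = 0 := by
    have h2 : Filter.Tendsto (fun t => (g t).1) (nhdsWithin T (Iio T)) (nhds (g T).1) :=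
      (hx.tendsto T).mono_left nhdsWithin_le_nhds
    have h3 : Filter.Tendsto (fun t => (g t).1) (nhdsWithin T (Iio T)) (nhds 0) :=
      tendsto_const_nhds.congr' (by filter_upwards [hev2] with t ht using ht.symm)
    exact tendsto_nhds_unique h2 h3
  have hT0 : (0 : ℝ) ≤ T := hτ.1.trans hT1
  have hST := hS T ⟨hT0, hT2⟩
  have hgT : g T = g 0 := by
    rw [h0]
    exact Prod.ext hlim (Prod.ext hT3 (S_zero hST hT3))
  have hTz : T = 0 := hinj ⟨hT0, hT2⟩ ⟨le_rfl, zero_le_one⟩ hgT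
  linarith [hτ.1]

lemma exists_piece {n : ℕ} (t : Fin (n + 1) → ℝ) {u : ℝ} (j : Fin (n + 1)) :
    u ≤ t j → u ≤ t 0 ∨ ∃ i : Fin n, t i.castSucc ≤ u ∧ u ≤ t i.succ := by
  induction j using Fin.induction with
  | zero => exact fun h => Or.inl h
  | succ i ih =>
    intro h
    rcases le_total (t i.castSucc) u with h2 | h2
    · exact Or.inr ⟨i, h2, h⟩
    · exact ih h2

/-- Label along the long arc. -/
noncomputable def ss (s0 om u : ℝ) : ℝ := s0 + (om - s0) * max 0 (min (u - 1) 1)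
/-- Height along the long arc. -/
noncomputable def ll (u : ℝ) : ℝ := min (min u 1) (3 - u)

lemma regions {u s0 om : ℝ} (_ : 0 ≤ u) (_ : u ≤ 3) :
    (u ≤ 1 ∧ ss s0 om u = s0 ∧ ll u = u) ∨
    (1 ≤ u ∧ u ≤ 2 ∧ ss s0 om u = s0 + (om - s0) * (u - 1) ∧ ll u = 1) ∨
    (2 ≤ u ∧ ss s0 om u = om ∧ ll u = 3 - u) := by
  unfold ss ll
  rcases le_total u 1 with h | h
  · left
    refine ⟨h, ?_, ?_⟩
    · rw [min_eq_left (by linarith), max_eq_left (by linarith)]; ring
    · rw [min_eq_left h, min_eq_left (by linarith)]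
  · right
    rcases le_total u 2 with h' | h'
    · left
      refine ⟨h, h', ?_, ?_⟩
      · rw [min_eq_left (by linarith), max_eq_right (by linarith)]
      · rw [min_eq_right h, min_eq_left (by linarith)]
    · right
      refine ⟨h', ?_, ?_⟩
      · rw [min_eq_right (by linarith), max_eq_right (by linarith)]; ring
      · rw [min_eq_right h, min_eq_right (by linarith)]

lemma long_arc (m : ℕ) (hm : 1 ≤ m) : ∃ q : Path a b, Function.Injective q ∧
    ∃ t, (q t : ℝ × ℝ × ℝ) = Phi (3 * 2 ^ m) 1 := by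
  obtain ⟨s0, hs0⟩ : ∃ s0 : ℝ, s0 = 3 * 2 ^ m := ⟨_, rfl⟩
  obtain ⟨om, hom⟩ : ∃ om : ℝ, om = 2 ^ (m + 2) + 1 := ⟨_, rfl⟩
  rw [← hs0]
  have hpow : (2 : ℝ) ≤ 2 ^ m := by
    calc (2 : ℝ) = 2 ^ 1 := by norm_num
      _ ≤ 2 ^ m := pow_le_pow_right₀ (by norm_num) hm
  have hom2 : om = 4 * 2 ^ m + 1 := by rw [hom, pow_add]; ring
  have hlt : s0 < om := by rw [hom2, hs0]; linarith
  have hs2 : 2 ≤ s0 := by rw [hs0]; linarith
  have hLs0 : ∃ j ∈ Lam, (j : ℝ) = s0 := by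
    refine ⟨3 * 2 ^ m, Or.inl ?_, by rw [hs0]; push_cast; rfl⟩
    obtain ⟨k, rfl⟩ := Nat.exists_eq_add_of_le hm
    exact ⟨3 * 2 ^ k, by ring⟩
  have hLom : ∃ j ∈ Lam, (j : ℝ) = om :=
    ⟨2 ^ (m + 2) + 1, Or.inr ⟨m + 1, rfl⟩, by rw [hom]; push_cast; rfl⟩
  have hws0 : w s0 = 0 := by
    have he : Even (3 * 2 ^ m : ℤ) := by
      obtain ⟨k, rfl⟩ := Nat.exists_eq_add_of_le hm
      exact ⟨3 * 2 ^ k, by ring⟩
    have := w_even he
    push_cast at this
    rw [hs0]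
    exact this
  have hwom : w om = 1 := by
    have := w_odd (odd_pow (m + 1))
    push_cast at this
    rw [hom]
    exact this
  have hmemP : ∀ u, 0 ≤ u → u ≤ 3 → (ss s0 om u, ll u) ∈ Par := by
    intro u h0 h3
    rcases regions (s0 := s0) (om := om) h0 h3 with ⟨h1, e1, e2⟩ | ⟨h1, h2, e1, e2⟩ | ⟨h1, e1, e2⟩
    · rw [e1, e2]
      exact ⟨hs2, h0, h1, Or.inr hLs0⟩
    · rw [e1, e2]
      refine ⟨?_, zero_le_one, le_rfl, Or.inl rfl⟩
      have := mul_nonneg (by linarith : 0 ≤ om - s0) (by linarith : 0 ≤ u - 1)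
      simp only
      linarith
    · rw [e1, e2]
      refine ⟨by simp only; linarith, by simp only; linarith, by simp only; linarith, Or.inr hLom⟩
  have hmemS : ∀ t : unitInterval, Phi (ss s0 om (3 * t)) (ll (3 * t)) ∈ S := by
    intro t
    have h0 := t.2.1
    have h1 := t.2.2
    exact Phi_mem (hmemP _ (by linarith) (by linarith))
  have hcont : Continuous fun t : unitInterval => Phi (ss s0 om (3 * t)) (ll (3 * t)) := by
    have h1 : Continuous fun t : unitInterval => (ss s0 om (3 * (t : ℝ)), ll (3 * (t : ℝ))) := by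
      unfold ss ll
      fun_prop
    have h2 : ∀ t : unitInterval, (ss s0 om (3 * (t : ℝ)), ll (3 * (t : ℝ))) ∈
        {p : ℝ × ℝ | 2 ≤ p.1} := by
      intro t
      have h0 := t.2.1
      have h1 := t.2.2
      exact (hmemP (3 * (t : ℝ)) (by linarith) (by linarith)).1
    exact ContinuousOn.comp_continuous (g := fun p : ℝ × ℝ => Phi p.1 p.2)
      (f := fun t : unitInterval => (ss s0 om (3 * (t : ℝ)), ll (3 * (t : ℝ)))) Phi_cont h1 h2
  have hsrc : Phi (ss s0 om (3 * ((0 : unitInterval) : ℝ))) (ll (3 * ((0 : unitInterval) : ℝ))) =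
      (0, 0, 0) := by
    rw [Set.Icc.coe_zero, mul_zero]
    have e : ss s0 om 0 = s0 ∧ ll 0 = 0 := by
      rcases regions (s0 := s0) (om := om) le_rfl (by norm_num : (0 : ℝ) ≤ 3) with
        ⟨h1, e1, e2⟩ | ⟨h1, h2, e1, e2⟩ | ⟨h1, e1, e2⟩
      · exact ⟨e1, e2⟩
      · linarith
      · linarith
    rw [e.1, e.2, Phi, hws0, zero_div, zero_div]
  have htgt : Phi (ss s0 om (3 * ((1 : unitInterval) : ℝ))) (ll (3 * ((1 : unitInterval) : ℝ))) =
      (1, 0, 0) := by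
    rw [Set.Icc.coe_one, mul_one]
    have e : ss s0 om 3 = om ∧ ll 3 = 0 := by
      rcases regions (s0 := s0) (om := om) (by norm_num : (0 : ℝ) ≤ 3) le_rfl with
        ⟨h1, e1, e2⟩ | ⟨h1, h2, e1, e2⟩ | ⟨h1, e1, e2⟩
      · linarith
      · linarith
      · exact ⟨e1, by rw [e2]; ring⟩
    rw [e.1, e.2, Phi, hwom, zero_div, zero_div]
  let q : Path a b :=
    { toFun := fun t => ⟨Phi (ss s0 om (3 * t)) (ll (3 * t)), hmemS t⟩
      continuous_toFun := hcont.subtype_mk _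
      source' := Subtype.ext hsrc
      target' := Subtype.ext htgt }
  refine ⟨q, ?_, ⟨1 / 3, by norm_num, by norm_num⟩, ?_⟩
  · intro t t' htt
    have h : Phi (ss s0 om (3 * t)) (ll (3 * t)) = Phi (ss s0 om (3 * t')) (ll (3 * t')) :=
      congrArg Subtype.val htt
    have h0 := t.2.1
    have h1 := t.2.2
    have h0' := t'.2.1
    have h1' := t'.2.2
    have hu0 : (0 : ℝ) ≤ 3 * t := by linarith
    have hu3 : 3 * (t : ℝ) ≤ 3 := by linarith
    have hu0' : (0 : ℝ) ≤ 3 * t' := by linarith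
    have hu3' : 3 * (t' : ℝ) ≤ 3 := by linarith
    generalize hu : 3 * (t : ℝ) = u at h hu0 hu3
    generalize hu' : 3 * (t' : ℝ) = u' at h hu0' hu3'
    suffices u = u' by
      apply Subtype.ext
      linarith
    obtain ⟨p1, p2, p3, _⟩ := hmemP u hu0 hu3
    obtain ⟨p1', p2', p3', _⟩ := hmemP u' hu0' hu3'
    simp only at p1 p2 p3 p1' p2' p3'
    have hx : w (ss s0 om u) = w (ss s0 om u') := congrArg Prod.fst h
    have hq : ll u / ss s0 om u = ll u' / ss s0 om u' := congrArg (fun y => y.2.1) h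
    have sp : 0 < ss s0 om u := by linarith
    have sp' : 0 < ss s0 om u' := by linarith
    rcases p2.lt_or_eq with hl | hl
    · have hl' : 0 < ll u' := by
        have : 0 < ll u' / ss s0 om u' := by rw [← hq]; positivity
        rcases p2'.lt_or_eq with h5 | h5
        · exact h5
        · rw [← h5] at this; simp at this
      have hs : ss s0 om u = ss s0 om u' := by
        have := congrArg lab h
        rwa [lab_Phi sp hl, lab_Phi sp' hl'] at this
      have hll : ll u = ll u' := by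
        rw [hs] at hq
        exact (div_left_inj' sp'.ne').1 hq
      rcases regions (s0 := s0) (om := om) hu0 hu3 with
            ⟨h1, e1, e2⟩ | ⟨h1, h2, e1, e2⟩ | ⟨h1, e1, e2⟩ <;>
      rcases regions (s0 := s0) (om := om) hu0' hu3' with
            ⟨h1', e1', e2'⟩ | ⟨h1', h2', e1', e2'⟩ | ⟨h1', e1', e2'⟩ <;>
      rw [e1, e1'] at hs <;> rw [e2, e2'] at hll
      · exact hll
      · nlinarith
      · linarith
      · nlinarith
      · have : (om - s0) * (u - u') = 0 := by linarith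
        rcases mul_eq_zero.1 this with h5 | h5
        · linarith
        · linarith
      · have : (om - s0) * (u - 2) = 0 := by linarith
        rcases mul_eq_zero.1 this with h5 | h5
        · linarith
        · linarith
      · linarith
      · have : (om - s0) * (u' - 2) = 0 := by linarith
        rcases mul_eq_zero.1 this with h5 | h5
        · linarith
        · linarith
      · linarith
    · have hl' : ll u' = 0 := by
        rw [← hl, zero_div] at hq
        rcases div_eq_zero_iff.1 hq.symm with h5 | h5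
        · exact h5
        · exact absurd h5 sp'.ne'
      rcases regions (s0 := s0) (om := om) hu0 hu3 with
            ⟨h1, e1, e2⟩ | ⟨h1, h2, e1, e2⟩ | ⟨h1, e1, e2⟩ <;>
      rcases regions (s0 := s0) (om := om) hu0' hu3' with
            ⟨h1', e1', e2'⟩ | ⟨h1', h2', e1', e2'⟩ | ⟨h1', e1', e2'⟩ <;>
      rw [e1, e1'] at hx <;> rw [e2] at hl <;> rw [e2'] at hl'
      · linarith
      · linarith
      · rw [hws0, hwom] at hx; linarith
      · linarith
      · linarith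
      · linarith
      · rw [hws0, hwom] at hx; linarith
      · linarith
      · linarith
  · show Phi (ss s0 om (3 * (1 / 3 : ℝ))) (ll (3 * (1 / 3 : ℝ))) = _
    have : (3 * (1 / 3 : ℝ)) = 1 := by norm_num
    rw [this]
    rcases regions (s0 := s0) (om := om) zero_le_one (by norm_num : (1 : ℝ) ≤ 3) with
            ⟨h1, e1, e2⟩ | ⟨h1, h2, e1, e2⟩ | ⟨h1, e1, e2⟩
    · rw [e1, e2]
    · rw [e1, e2]; simp
    · linarith

lemma w_step (j : ℝ) (hj : ∃ k : ℤ, (k : ℝ) = j) (e : ℝ) (he : e = 1 ∨ e = -1) :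
    |w j - w (j + e)| = 1 := by
  obtain ⟨k, rfl⟩ := hj
  have h1 : w (k + e) = (1 + Real.cos (Real.pi * k)) / 2 := by
    unfold w
    rcases he with rfl | rfl
    · rw [mul_add, mul_one, Real.cos_add_pi]; ring
    · rw [mul_add, mul_neg, mul_one, ← sub_eq_add_neg, Real.cos_sub_pi]; ring
  rw [h1]
  unfold w
  have h2 : (1 - Real.cos (Real.pi * k)) / 2 - (1 + Real.cos (Real.pi * k)) / 2 =
      - Real.cos (Real.pi * k) := by ring
  rw [h2, abs_neg, mul_comm]
  exact Real.abs_cos_int_mul_pi k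

/-- The negation of the preceding statement: Every continuum in which any two points are joined by a uniform family of paths covering the space has, for any two points, a uniform family of arcs between them covering the union of all arcs joining them. -/
theorem result :
    ¬ (∀ (X : Type) [MetricSpace X] [CompactSpace X] [ConnectedSpace X],
      (∀ a b : X, ∃ P : Set (Path a b),
          (∀ ε : ℝ, ε > 0 → ∃ n : ℕ, ∀ p ∈ P, ∃ t : Fin (n + 1) → unitInterval,
              t 0 = 0 ∧ t (Fin.last n) = 1 ∧ StrictMono t ∧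
              ∀ i : Fin n, Metric.diam (⇑p '' Set.Icc (t i.castSucc) (t i.succ)) ≤ ε) ∧
          (⋃ p ∈ P, Set.range ⇑p) = Set.univ) →
      (∀ a b : X, ∃ P : Set (Path a b),
          (∀ p ∈ P, Function.Injective ⇑p) ∧
          (∀ ε : ℝ, ε > 0 → ∃ n : ℕ, ∀ p ∈ P, ∃ t : Fin (n + 1) → unitInterval,
              t 0 = 0 ∧ t (Fin.last n) = 1 ∧ StrictMono t ∧
              ∀ i : Fin n, Metric.diam (⇑p '' Set.Icc (t i.castSucc) (t i.succ)) ≤ ε) ∧
          (⋃ p ∈ P, Set.range ⇑p) =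
            ⋃ (q : Path a b) (_ : Function.Injective ⇑q), Set.range ⇑q)) := by
  intro H
  have H' := H S uniform_path
  obtain ⟨P, hPinj, hPunif, hPun⟩ := H' a b
  obtain ⟨n, hn⟩ := hPunif (1 / 2) (by norm_num)
  obtain ⟨m, hm⟩ : ∃ m : ℕ, m = n + 2 := ⟨_, rfl⟩
  obtain ⟨q, hqinj, t, hqt⟩ := long_arc m (by omega)
  have hz : q t ∈ ⋃ p ∈ P, Set.range ⇑p := by
    rw [hPun]
    exact mem_iUnion₂.2 ⟨q, hqinj, ⟨t, rfl⟩⟩
  obtain ⟨p, hp, τ, hτ⟩ := mem_iUnion₂.1 hz
  have hpinj := hPinj p hp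
  obtain ⟨c, hc0, hc1, hcm, hcd⟩ := hn p hp
  let g : ℝ → ℝ × ℝ × ℝ := fun u => (p.extend u : S)
  have hg : Continuous g := continuous_subtype_val.comp p.continuous_extend
  have hgS : ∀ u, g u ∈ S := fun u => (p.extend u).2
  have hgI : ∀ u (hu : u ∈ Icc (0 : ℝ) 1), g u = (p ⟨u, hu⟩ : S) := by
    intro u hu
    show ((p.extend u : S) : ℝ × ℝ × ℝ) = _
    rw [Path.extend_apply _ hu]
  have hginj : InjOn g (Icc 0 1) := by
    intro u hu v hv huv
    rw [hgI u hu, hgI v hv] at huv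
    have := hpinj (Subtype.ext huv)
    exact congrArg Subtype.val this
  have hg0 : g 0 = (0, 0, 0) := by
    show ((p.extend 0 : S) : ℝ × ℝ × ℝ) = _
    rw [Path.extend_zero]; rfl
  have hg1 : g 1 = (1, 0, 0) := by
    show ((p.extend 1 : S) : ℝ × ℝ × ℝ) = _
    rw [Path.extend_one]; rfl
  have hgτ : g τ = Phi (3 * 2 ^ m) 1 := by
    rw [hgI τ τ.2, ← hqt]
    exact congrArg Subtype.val hτ
  obtain ⟨t1, ht1, ht1', hpos, hesc⟩ := escape hg (fun u _ => hgS u) hginj hg0 hg1 τ.2 hgτ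
  have hτ0 : (0 : ℝ) ≤ τ := τ.2.1
  have hlabτ : lab (g τ) = 3 * 2 ^ m := by
    rw [hgτ, lab_Phi (by positivity) one_pos]
  have hlabc : ContinuousOn (fun u => lab (g u)) (Icc τ t1) := by
    unfold lab
    refine ContinuousOn.div ((continuous_fst.comp continuous_snd).comp hg).continuousOn
      ((continuous_snd.comp continuous_snd).comp hg).continuousOn ?_
    intro u hu
    exact (S_pos2 (hgS u) (hpos u hu)).ne'
  have hn2 : (n : ℝ) + 2 ≤ 2 ^ m := by
    have h1 : m < 2 ^ m := Nat.lt_two_pow_self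
    have h2 : (m : ℝ) < ((2 ^ m : ℕ) : ℝ) := by exact_mod_cast h1
    rw [hm] at h2 ⊢
    push_cast at h2
    linarith
  have e4 : (2 : ℝ) ^ (m + 2) = 4 * 2 ^ m := by rw [pow_add]; ring
  have e2 : (2 : ℝ) ^ (m + 1) = 2 * 2 ^ m := by rw [pow_add]; ring
  -- sign of the escape
  obtain ⟨e, he, hej⟩ : ∃ e : ℝ, (e = 1 ∨ e = -1) ∧ ∀ i : ℕ, i ≤ n →
      (3 * 2 ^ m + e * (1 + i) : ℝ) ∈ uIcc (lab (g τ)) (lab (g t1)) := by
    rcases hesc with h | h
    · refine ⟨1, Or.inl rfl, fun i hi => ?_⟩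
      have hi' : (i : ℝ) ≤ n := by exact_mod_cast hi
      have hi0 : (0 : ℝ) ≤ i := Nat.cast_nonneg i
      rw [hlabτ]
      apply Icc_subset_uIcc
      constructor
      · linarith
      · refine le_trans ?_ h
        rw [e4]
        linarith
    · refine ⟨-1, Or.inr rfl, fun i hi => ?_⟩
      have hi' : (i : ℝ) ≤ n := by exact_mod_cast hi
      have hi0 : (0 : ℝ) ≤ i := Nat.cast_nonneg i
      rw [hlabτ]
      apply Icc_subset_uIcc'
      constructor
      · refine h.trans ?_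
        rw [e2]
        linarith
      · linarith
  have huI : uIcc (τ : ℝ) t1 = Icc (τ : ℝ) t1 := uIcc_of_le ht1
  have htimes : ∀ i : Fin (n + 1), ∃ u ∈ Icc (τ : ℝ) t1,
      lab (g u) = 3 * 2 ^ m + e * (1 + (i : ℕ)) := by
    intro i
    have h1 := intermediate_value_uIcc (f := fun u => lab (g u)) (a := (τ : ℝ)) (b := t1)
      (by rw [huI]; exact hlabc) (hej i (Nat.lt_succ_iff.1 i.2))
    obtain ⟨u, hu, hu2⟩ := h1
    rw [huI] at hu
    exact ⟨u, hu, hu2⟩
  choose U hU1 hU2 using htimes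
  have hpiece : ∀ i : Fin (n + 1), ∃ k : Fin n, (c k.castSucc : ℝ) ≤ U i ∧ U i ≤ c k.succ := by
    intro i
    have h1 : U i ≤ (fun k => (c k : ℝ)) (Fin.last n) := by
      simp only [hc1]
      exact (hU1 i).2.trans ht1'
    rcases exists_piece (fun k => (c k : ℝ)) (Fin.last n) h1 with h2 | h2
    · exfalso
      simp only [hc0] at h2
      have h3 : U i = τ := le_antisymm (h2.trans hτ0) (hU1 i).1
      have h4 := hU2 i
      rw [h3, hlabτ] at h4
      have h5 : e * (1 + ((i : ℕ) : ℝ)) = 0 := by linarith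
      have h6 : (0 : ℝ) < 1 + ((i : ℕ) : ℝ) := by positivity
      rcases mul_eq_zero.1 h5 with h7 | h7
      · rcases he with rfl | rfl <;> norm_num at h7
      · linarith
    · exact h2
  choose κ hκ1 hκ2 using hpiece
  obtain ⟨i, i', hii, hκ⟩ := Fintype.exists_ne_map_eq_of_card_lt κ (by simp)
  -- wlog i < i'
  obtain ⟨i, i', hii, hκ⟩ : ∃ i i' : Fin (n + 1), i < i' ∧ κ i = κ i' := by
    rcases lt_or_gt_of_ne hii with h | h
    · exact ⟨i, i', h, hκ⟩
    · exact ⟨i', i, h, hκ.symm⟩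
  have hval : ((i : ℕ) : ℝ) + 1 ≤ (i' : ℕ) := by
    have : (i : ℕ) + 1 ≤ (i' : ℕ) := hii
    exact_mod_cast this
  have hsub : uIcc (U i) (U i') ⊆ Icc (τ : ℝ) t1 := by
    apply uIcc_subset_Icc (hU1 i) (hU1 i')
  obtain ⟨v, hv, hv2⟩ := intermediate_value_uIcc (f := fun u => lab (g u)) (hlabc.mono hsub)
    (show (3 * 2 ^ m + e * (1 + ((i : ℕ) : ℝ)) + e : ℝ) ∈ uIcc (lab (g (U i))) (lab (g (U i'))) by
      rw [hU2, hU2]
      rcases he with rfl | rfl
      · apply Icc_subset_uIcc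
        constructor <;> linarith
      · apply Icc_subset_uIcc'
        constructor <;> linarith)
  simp only at hv2
  have hvI := hsub hv
  have hUp := hpos _ (hU1 i)
  have hvp := hpos _ hvI
  have hx1 := S_w (hgS (U i)) hUp
  have hx2 := S_w (hgS v) hvp
  rw [hU2] at hx1
  rw [hv2] at hx2
  have hstep := w_step (3 * 2 ^ m + e * (1 + ((i : ℕ) : ℝ))) (by
    rcases he with rfl | rfl
    · exact ⟨3 * 2 ^ m + (1 + (i : ℕ)), by push_cast; ring⟩
    · exact ⟨3 * 2 ^ m - (1 + (i : ℕ)), by push_cast; ring⟩) e he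
  rw [← hx1, ← hx2] at hstep
  have hUI : U i ∈ Icc (0 : ℝ) 1 := ⟨hτ0.trans (hU1 i).1, (hU1 i).2.trans ht1'⟩
  have hvI' : v ∈ Icc (0 : ℝ) 1 := ⟨hτ0.trans hvI.1, hvI.2.trans ht1'⟩
  have hd := hcd (κ i)
  have hmem1 : p ⟨U i, hUI⟩ ∈ ⇑p '' Set.Icc (c (κ i).castSucc) (c (κ i).succ) :=
    ⟨_, ⟨hκ1 i, hκ2 i⟩, rfl⟩
  have hmem2 : p ⟨v, hvI'⟩ ∈ ⇑p '' Set.Icc (c (κ i).castSucc) (c (κ i).succ) := by
    refine ⟨_, ⟨?_, ?_⟩, rfl⟩
    · show (c (κ i).castSucc : ℝ) ≤ v
      refine le_trans ?_ hv.1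
      refine le_min (hκ1 i) ?_
      rw [hκ]; exact hκ1 i'
    · show v ≤ (c (κ i).succ : ℝ)
      refine le_trans hv.2 ?_
      refine max_le (hκ2 i) ?_
      rw [hκ]; exact hκ2 i'
  have hb : Bornology.IsBounded (⇑p '' Set.Icc (c (κ i).castSucc) (c (κ i).succ)) :=
    (isCompact_univ (X := S)).isBounded.subset (subset_univ _)
  have hdist := Metric.dist_le_diam_of_mem hb hmem1 hmem2
  have hdist2 : |(g (U i)).1 - (g v).1| ≤ dist (p ⟨U i, hUI⟩) (p ⟨v, hvI'⟩) := by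
    rw [hgI _ hUI, hgI _ hvI', Subtype.dist_eq, Prod.dist_eq, ← Real.dist_eq]
    exact le_max_left _ _
  rw [hstep] at hdist2
  linarith

end Pool.Agent.S13596
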