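import Pool.Statements.S13599
import Pool.Agent.R763.StrEllipse

set_option autoImplicit false
open Pool Pool.MP_94e842_gt
open Pool.Agent.R763.Str

namespace Pool.Agent.S13599

/-- Any planar convex body whose boundary has the transitivity property is an ellipse. Transitivity: string construction at length ℓ1, then at any ℓ2 above the new perimeter, equals a single string construction at some ℓ3. -/
theorem result :
    ∀ K : Set (EuclideanSpace ℝ (Fin 2)), IsCompact K → Convex ℝ K → (interior K).Nonempty →
      (∀ ℓ1 : ℝ, (MeasureTheory.Measure.hausdorffMeasure 1 (frontier K)).toReal < ℓ1 →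
        ∀ ℓ2 : ℝ,
          (MeasureTheory.Measure.hausdorffMeasure 1
              (frontier {x : EuclideanSpace ℝ (Fin 2) |
                (MeasureTheory.Measure.hausdorffMeasure 1
                  (frontier (convexHull ℝ (insert x K)))).toReal ≤ ℓ1})).toReal < ℓ2 →
          ∃ ℓ3 : ℝ,
            {y : EuclideanSpace ℝ (Fin 2) |
              (MeasureTheory.Measure.hausdorffMeasure 1
                (frontier (convexHull ℝ (insert y
                  {x : EuclideanSpace ℝ (Fin 2) |
                    (MeasureTheory.Measure.hausdorffMeasure 1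
                      (frontier (convexHull ℝ (insert x K)))).toReal ≤ ℓ1})))).toReal = ℓ2}
            = {y : EuclideanSpace ℝ (Fin 2) |
              (MeasureTheory.Measure.hausdorffMeasure 1
                (frontier (convexHull ℝ (insert y K)))).toReal = ℓ3}) →
      ∃ f : EuclideanSpace ℝ (Fin 2) ≃ᵃ[ℝ] EuclideanSpace ℝ (Fin 2),
        K = f '' Metric.closedBall 0 1 := by
  intro K hK hc hint hyp
  obtain ⟨x0, hx0⟩ := hint
  have hint : (interior K).Nonempty := ⟨x0, hx0⟩
  have hne : K.Nonempty := ⟨x0, interior_subset hx0⟩
  set T : E2 → E2 := fun x => x + -x0 with hT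
  set K' : Set E2 := T '' K with hK'def
  have hh := hs_continuous hK hne
  have hK' : IsCompact K' := hK.image (by fun_prop)
  have hc' : Convex ℝ K' := by
    have := hc.translate (-x0)
    have e : T = (fun x => -x0 + x) := by
      funext y; exact add_comm _ _
    rw [hK'def, e]; exact this
  have h0 : (0 : E2) ∈ interior K' := by
    have := (IsometryEquiv.addRight (-x0)).toHomeomorph.image_interior K
    show (0 : E2) ∈ interior ((IsometryEquiv.addRight (-x0)).toHomeomorph '' K)
    rw [← this]
    exact ⟨x0, hx0, by simp⟩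
  have hne' : K'.Nonempty := hne.image _
  -- translation formulas
  have hsK' : ∀ θ, hs K' θ = hs K θ + pr (-x0) θ := hs_translate hK hne (-x0)
  have hFF : ∀ x, FF (hs K') (x + -x0) = FF (hs K) x := by
    intro x
    have : hs K' = fun θ => hs K θ + pr (-x0) θ := funext hsK'
    rw [this]
    exact FF_translate hh x (-x0)
  have hFF' : ∀ x, FF (hs K') x = FF (hs K) (x + x0) := by
    intro x
    have := hFF (x + x0)
    rw [add_neg_cancel_right] at this
    exact this
  have hLL : ∀ l, LL (hs K') l = T '' (LL (hs K) l) := by
    intro l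
    ext y
    constructor
    · intro hy
      refine ⟨y + x0, ?_, by simp [hT]⟩
      show FF (hs K) (y + x0) ≤ l
      rw [← hFF']; exact hy
    · rintro ⟨x, hx, rfl⟩
      show FF (hs K') (x + -x0) ≤ l
      rw [hFF]; exact hx
  have hLL2 : ∀ l, LL (hs K) l = (fun x => x + x0) '' (LL (hs K') l) := by
    intro l
    rw [hLL]
    ext y
    simp [hT]
  have hypK : Hyp K' := by
    intro l hl
    have hnn' : ∀ θ, 0 ≤ hs K' θ := by
      obtain ⟨r, hr, hlow⟩ := pos_of_interior hK' h0
      exact fun θ => hr.le.trans (hlow θ)
    have hL'c : IsCompact (LL (hs K') l) :=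
      LL_compact (hs_continuous hK' hne') (hs_periodic K') hnn' l
    have hL'0 : (0 : E2) ∈ interior (LL (hs K') l) :=
      LL_interior (hs_continuous hK' hne') hnn' hl
    have hL'ne : (LL (hs K') l).Nonempty := ⟨0, interior_subset hL'0⟩
    have hLc : IsCompact (LL (hs K) l) := by
      rw [hLL2]; exact hL'c.image (by fun_prop)
    have hLconv : Convex ℝ (LL (hs K) l) := LL_convex hh l
    have hLint : (interior (LL (hs K) l)).Nonempty := by
      refine ⟨x0, ?_⟩
      have := (IsometryEquiv.addRight x0).toHomeomorph.image_interior (LL (hs K') l)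
      rw [hLL2]
      show x0 ∈ interior ((IsometryEquiv.addRight x0).toHomeomorph '' (LL (hs K') l))
      rw [← this]
      exact ⟨0, hL'0, by simp⟩
    have hLne : (LL (hs K) l).Nonempty := hLint.mono interior_subset
    -- original hypothesis
    have hset : {x : E2 | (MeasureTheory.Measure.hausdorffMeasure 1
        (frontier (convexHull ℝ (insert x K)))).toReal ≤ l} = LL (hs K) l := by
      ext x
      show (MeasureTheory.Measure.hausdorffMeasure 1
        (frontier (convexHull ℝ (insert x K)))).toReal ≤ l ↔ FF (hs K) x ≤ l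
      rw [perim_hull hK hc hint x]
    have hWK : W K' = W K := W_translate hK hne (-x0)
    have hyp1 := hyp l (by rw [perim_toReal hK hc hint, ← hWK]; exact hl)
    rw [hset, perim_toReal hLc hLconv hLint] at hyp1
    have hsL' : ∀ θ, hs (LL (hs K') l) θ = hs (LL (hs K) l) θ + pr (-x0) θ := by
      rw [hLL]; exact hs_translate hLc hLne (-x0)
    have hFFL : ∀ x, FF (hs (LL (hs K') l)) x = FF (hs (LL (hs K) l)) (x + x0) := by
      intro x
      have e : hs (LL (hs K') l) = fun θ => hs (LL (hs K) l) θ + pr (-x0) θ := funext hsL'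
      have e2 := FF_translate (hs_continuous hLc hLne) (x + x0) (-x0)
      rw [add_neg_cancel_right] at e2
      rw [e, e2]
    have hWL : W (LL (hs K') l) = W (LL (hs K) l) := by
      rw [hLL]; exact W_translate hLc hLne (-x0)
    intro x y hxy hlt
    rw [hFFL, hFFL] at hxy
    rw [hFFL, hWL] at hlt
    obtain ⟨l3, hl3⟩ := hyp1 _ hlt
    have hx : x + x0 ∈ {y : E2 | (MeasureTheory.Measure.hausdorffMeasure 1
        (frontier (convexHull ℝ (insert y (LL (hs K) l))))).toReal
          = FF (hs (LL (hs K) l)) (x + x0)} := by
      show (MeasureTheory.Measure.hausdorffMeasure 1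
        (frontier (convexHull ℝ (insert (x + x0) (LL (hs K) l))))).toReal
          = FF (hs (LL (hs K) l)) (x + x0)
      exact perim_hull hLc hLconv hLint _
    have hy : y + x0 ∈ {y : E2 | (MeasureTheory.Measure.hausdorffMeasure 1
        (frontier (convexHull ℝ (insert y (LL (hs K) l))))).toReal
          = FF (hs (LL (hs K) l)) (x + x0)} := by
      show (MeasureTheory.Measure.hausdorffMeasure 1
        (frontier (convexHull ℝ (insert (y + x0) (LL (hs K) l))))).toReal
          = FF (hs (LL (hs K) l)) (x + x0)
      rw [hxy]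
      exact perim_hull hLc hLconv hLint _
    rw [hl3] at hx hy
    have hx' : FF (hs K) (x + x0) = l3 := by
      rw [← perim_hull hK hc hint]; exact hx
    have hy' : FF (hs K) (y + x0) = l3 := by
      rw [← perim_hull hK hc hint]; exact hy
    rw [hFF', hFF', hx', hy']
  obtain ⟨v0, v1, a, p, q, hpos, hform⟩ := form hK' h0 hypK
  obtain ⟨f, hf⟩ := ellipse_of_form hK' hc' hne' hpos hform
  refine ⟨f.trans (AffineEquiv.constVAdd ℝ E2 x0), ?_⟩
  have e1 : K = (fun x => x0 + x) '' K' := by
    rw [hK'def]
    ext y
    simp [hT]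
  have e2 : ((f.trans (AffineEquiv.constVAdd ℝ E2 x0)) '' Metric.closedBall 0 1)
      = (fun x => x0 + x) '' (f '' Metric.closedBall 0 1) := by
    rw [Set.image_image]; rfl
  rw [e2, ← hf]; exact e1

end Pool.Agent.S13599
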