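import Pool.Statements.S13710
import Pool.Agent.R815.Necklace

set_option autoImplicit false
open Pool Pool.MP_a6a8af_gt

namespace Pool.Agent.S13710

/-- The negation of the preceding statement: If X is a locally connected metric continuum that is a union of two subcontinua with disconnected intersection, and f is a local homeomorphism of X onto a metric space Y, then Y is also such a union. -/
theorem result :
    ¬ (∀ (X Y : Type) [MetricSpace X] [CompactSpace X] [ConnectedSpace X]
      [LocallyConnectedSpace X] [MetricSpace Y] (f : X → Y),
      IsLocalHomeomorph f → Function.Surjective f →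
      (∃ A B : Set X, IsClosed A ∧ IsClosed B ∧ IsConnected A ∧ IsConnected B ∧
          A ∪ B = Set.univ ∧ ¬ IsConnected (A ∩ B)) →
      (∃ A B : Set Y, IsClosed A ∧ IsClosed B ∧ IsConnected A ∧ IsConnected B ∧
          A ∪ B = Set.univ ∧ ¬ IsConnected (A ∩ B))) := by
  intro h
  obtain ⟨A, B, hA, hB, hAc, hBc, hAB, hno⟩ := h R815.Necklace.X R815.Necklace.Y
    R815.Necklace.f R815.Necklace.isLocalHomeomorph_f R815.Necklace.surjective_f
    ⟨R815.Necklace.A, R815.Necklace.B, R815.Necklace.isClosed_A, R815.Necklace.isClosed_B,
      R815.Necklace.isConnected_A, R815.Necklace.isConnected_B, R815.Necklace.A_union_B,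
      R815.Necklace.not_isConnected_inter⟩
  exact hno (R815.Unicoherence.unicoherent_of_lift R815.Necklace.exists_lift A B hA hB hAc hBc hAB)

end Pool.Agent.S13710
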