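import Pool.Statements.S13772
-- import your own Pool.Agent.* helpers here

set_option autoImplicit false
open Pool Pool.MP_b1ea19_gt

namespace Pool.Agent.S13772

open Set Topology

/-- The closed topologist's sine curve. -/
def S : Set (ℝ × ℝ) :=
  {p | (0 ≤ p.1 ∧ p.1 ≤ 1) ∧ (-1 ≤ p.2 ∧ p.2 ≤ 1) ∧ p.1 * p.2 = p.1 * Real.sin (1 / p.1)}

lemma cont_xsin : Continuous fun x : ℝ => x * Real.sin (1 / x) := by
  rw [continuous_iff_continuousAt]
  intro x
  by_cases hx : x = 0
  · subst hx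
    rw [Metric.continuousAt_iff]
    intro ε hε
    refine ⟨ε, hε, fun {y} hy => ?_⟩
    rw [Real.dist_eq] at hy ⊢
    rw [sub_zero] at hy
    rw [zero_mul, sub_zero, abs_mul]
    calc |y| * |Real.sin (1 / y)| ≤ |y| * 1 :=
          mul_le_mul_of_nonneg_left (Real.abs_sin_le_one _) (abs_nonneg _)
      _ < ε := by rwa [mul_one]
  · exact continuousAt_id.mul
      (Real.continuous_sin.continuousAt.comp (continuousAt_const.div continuousAt_id hx))

lemma S_closed : IsClosed S := by
  unfold S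
  refine IsClosed.inter ?_ (IsClosed.inter ?_ ?_)
  · exact (isClosed_le continuous_const continuous_fst).inter
      (isClosed_le continuous_fst continuous_const)
  · exact (isClosed_le continuous_const continuous_snd).inter
      (isClosed_le continuous_snd continuous_const)
  · exact isClosed_eq (continuous_fst.mul continuous_snd) (cont_xsin.comp continuous_fst)

lemma S_compact : IsCompact S := by
  refine (isCompact_Icc.prod isCompact_Icc : IsCompact (Icc (0 : ℝ) 1 ×ˢ Icc (-1 : ℝ) 1)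
    ).of_isClosed_subset S_closed ?_
  rintro p ⟨h1, h2, _⟩
  exact ⟨h1, h2⟩

instance : CompactSpace S := isCompact_iff_compactSpace.1 S_compact

lemma mem_graph {t : ℝ} (h : 0 < t ∧ t ≤ 1) : (t, Real.sin (1 / t)) ∈ S :=
  ⟨⟨h.1.le, h.2⟩, ⟨Real.neg_one_le_sin _, Real.sin_le_one _⟩, rfl⟩

lemma mem_bar {y : ℝ} (h : -1 ≤ y ∧ y ≤ 1) : ((0 : ℝ), y) ∈ S :=
  ⟨⟨le_rfl, zero_le_one⟩, h, by simp⟩

def fx (q : S) : ℝ := q.1.1
def fy (q : S) : ℝ := q.1.2

lemma fx_cont : Continuous fx := continuous_fst.comp continuous_subtype_val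
lemma fy_cont : Continuous fy := continuous_snd.comp continuous_subtype_val

open Classical in
/-- Parametrisation of the ray. -/
noncomputable def gr (t : ℝ) : S :=
  if h : 0 < t ∧ t ≤ 1 then ⟨(t, Real.sin (1 / t)), mem_graph h⟩ else ⟨(0, 0), mem_bar (by norm_num)⟩

open Classical in
/-- Parametrisation of the bar. -/
noncomputable def br (y : ℝ) : S :=
  if h : -1 ≤ y ∧ y ≤ 1 then ⟨(0, y), mem_bar h⟩ else ⟨(0, 0), mem_bar (by norm_num)⟩

lemma gr_eq {t : ℝ} (h : 0 < t ∧ t ≤ 1) : gr t = ⟨(t, Real.sin (1 / t)), mem_graph h⟩ := by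
  unfold gr; rw [dif_pos h]

lemma br_eq {t : ℝ} (h : -1 ≤ t ∧ t ≤ 1) : br t = ⟨(0, t), mem_bar h⟩ := by
  unfold br; rw [dif_pos h]

lemma gr_cont : ContinuousOn gr (Ioc 0 1) := by
  rw [Topology.IsInducing.subtypeVal.continuousOn_iff]
  have h : ContinuousOn (fun t : ℝ => (t, Real.sin (1 / t))) (Ioc 0 1) := by
    refine continuousOn_id.prodMk (Real.continuous_sin.comp_continuousOn ?_)
    exact continuousOn_const.div continuousOn_id (fun t ht => ht.1.ne')
  refine h.congr fun t ht => ?_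
  show (gr t).1 = _
  rw [gr_eq ht]

lemma br_cont : ContinuousOn br (Icc (-1) 1) := by
  rw [Topology.IsInducing.subtypeVal.continuousOn_iff]
  have h : ContinuousOn (fun t : ℝ => ((0 : ℝ), t)) (Icc (-1) 1) := by fun_prop
  refine h.congr fun t ht => ?_
  show (br t).1 = _
  rw [br_eq ht]

lemma eq_gr {q : S} (h : 0 < fx q) : q = gr (fx q) := by
  obtain ⟨⟨x, y⟩, ⟨h1, h2⟩, h3, h4⟩ := q
  have hx : 0 < x := h
  have h2' : x ≤ 1 := h2
  have h5 : fx ⟨(x, y), ⟨h1, h2⟩, h3, h4⟩ = x := rfl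
  rw [h5, gr_eq ⟨hx, h2'⟩]
  apply Subtype.ext
  have h6 : x * y = x * Real.sin (1 / x) := h4
  have h7 : y = Real.sin (1 / x) := mul_left_cancel₀ hx.ne' h6
  exact Prod.ext rfl h7

lemma eq_br {q : S} (h : fx q = 0) : q = br (fy q) := by
  obtain ⟨⟨x, y⟩, h1, h3, h4⟩ := q
  have hx : x = 0 := h
  have h5 : fy ⟨(x, y), h1, h3, h4⟩ = y := rfl
  have h3' : -1 ≤ y ∧ y ≤ 1 := h3
  rw [h5, br_eq h3']
  apply Subtype.ext
  exact Prod.ext hx rfl

lemma exists_small {y : ℝ} (hy : -1 ≤ y ∧ y ≤ 1) {δ : ℝ} (hδ : 0 < δ) :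
    ∃ t, 0 < t ∧ t < δ ∧ Real.sin (1 / t) = y := by
  obtain ⟨n, hn⟩ := exists_nat_gt (1 / δ + 2)
  have hpi := Real.pi_gt_three
  have h1 : -(Real.pi / 2) ≤ Real.arcsin y := Real.neg_pi_div_two_le_arcsin y
  have h0 : 0 < 1 / δ := by positivity
  have h4 := Real.pi_lt_four
  have h2 : 1 / δ < Real.arcsin y + n * (2 * Real.pi) := by nlinarith
  have h3 : 0 < Real.arcsin y + n * (2 * Real.pi) := h0.trans h2
  refine ⟨1 / (Real.arcsin y + n * (2 * Real.pi)), by positivity, ?_, ?_⟩
  · rw [div_lt_iff₀ h3]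
    rw [div_lt_iff₀ hδ] at h2
    linarith
  · rw [one_div_one_div, Real.sin_add_nat_mul_two_pi, Real.sin_arcsin hy.1 hy.2]

/-- The bar lies in the closure of the ray. -/
lemma bar_closure {q : S} (hq : fx q = 0) {β : ℝ} (hβ : 0 < β) (hβ1 : β ≤ 1) :
    q ∈ closure (gr '' Ioo 0 β) := by
  rw [Metric.mem_closure_iff]
  intro ε hε
  have hy : -1 ≤ fy q ∧ fy q ≤ 1 := q.2.2.1
  obtain ⟨t, ht0, ht1, ht2⟩ := exists_small hy (lt_min hε hβ)
  have htβ : t < β := ht1.trans_le (min_le_right _ _)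
  refine ⟨gr t, ⟨t, ⟨ht0, htβ⟩, rfl⟩, ?_⟩
  rw [gr_eq ⟨ht0, htβ.le.trans hβ1⟩, Subtype.dist_eq, Prod.dist_eq]
  apply max_lt
  · have h1 : q.1.1 = 0 := hq
    simp only
    rw [h1, Real.dist_eq, zero_sub, abs_neg, abs_of_pos ht0]
    exact ht1.trans_le (min_le_left _ _)
  · simp only
    rw [ht2]
    show dist (fy q) (fy q) < ε
    rw [dist_self]
    exact hε

instance : ConnectedSpace S := by
  have h1 : IsPreconnected (gr '' Ioo 0 1) :=
    isPreconnected_Ioo.image _ (gr_cont.mono Ioo_subset_Ioc_self)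
  have h2 : IsPreconnected (univ : Set S) := by
    refine h1.subset_closure (subset_univ _) ?_
    intro q _
    rcases (q.2.1.1 : 0 ≤ fx q).lt_or_eq with h | h
    · have h3 : fx q ∈ closure (Ioo (0 : ℝ) 1) := by
        rw [closure_Ioo (by norm_num)]
        exact ⟨h.le, q.2.1.2⟩
      have h4 : ContinuousWithinAt gr (Ioo 0 1) (fx q) :=
        (gr_cont (fx q) ⟨h, q.2.1.2⟩).mono Ioo_subset_Ioc_self
      have h5 := h4.mem_closure_image h3
      rw [← eq_gr h] at h5
      exact h5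
    · exact bar_closure h.symm one_pos le_rfl
  have : PreconnectedSpace S := ⟨h2⟩
  have : Nonempty S := ⟨gr 1⟩
  exact ConnectedSpace.mk inferInstance

/-- The set of local separating points, as in the frozen statement. -/
def Lset (C : Set S) : Set S := {p : S | p ∈ C ∧ ∃ V : Set S, IsOpen V ∧ p ∈ V ∧
          ¬ IsPreconnected (connectedComponentIn (V ∩ C) p \ {p})}

lemma main_lemma {C : Set S} {f : S → ℝ} (hf : Continuous f) {φ : ℝ → S} {α β : ℝ}
    (hφ : ContinuousOn φ (Ioo α β)) (himg : f '' C = Icc α β)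
    (hC : ∀ q ∈ C, f q ∈ Ioo α β → q = φ (f q)) (hcl : C ⊆ closure (φ '' Ioo α β)) :
    IsPreconnected (Lset C) := by
  have hset : f ⁻¹' Ioo α β ∩ C = φ '' Ioo α β := by
    ext q
    constructor
    · rintro ⟨h1, h2⟩
      exact ⟨f q, h1, (hC q h2 h1).symm⟩
    · rintro ⟨t, ht, rfl⟩
      have : t ∈ f '' C := by rw [himg]; exact Ioo_subset_Icc_self ht
      obtain ⟨q, hq, hqt⟩ := this
      have h3 := hC q hq (by rw [hqt]; exact ht)
      rw [hqt] at h3
      rw [← h3]
      refine ⟨?_, hq⟩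
      show f q ∈ Ioo α β
      rw [hqt]; exact ht
  have hpre : IsPreconnected (φ '' Ioo α β) := isPreconnected_Ioo.image _ hφ
  refine hpre.subset_closure ?_ ?_
  · intro p hp
    have hp' := hp
    rw [← hset] at hp'
    refine ⟨hp'.2, f ⁻¹' Ioo α β, isOpen_Ioo.preimage hf, hp'.1, ?_⟩
    rw [hset, hpre.connectedComponentIn hp]
    intro hcon
    have h1 : IsPreconnected (f '' (φ '' Ioo α β \ {p})) := hcon.image _ hf.continuousOn
    have hp1 : f p ∈ Ioo α β := hp'.1
    have hmem : ∀ t ∈ Ioo α β, t ≠ f p → t ∈ f '' (φ '' Ioo α β \ {p}) := by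
      intro t ht hne
      have : t ∈ f '' C := by rw [himg]; exact Ioo_subset_Icc_self ht
      obtain ⟨q, hq, hqt⟩ := this
      refine ⟨q, ⟨?_, ?_⟩, hqt⟩
      · rw [← hset]
        refine ⟨?_, hq⟩
        show f q ∈ Ioo α β
        rw [hqt]; exact ht
      · rintro rfl
        exact hne hqt.symm
    obtain ⟨t1, ht1a, ht1b⟩ := exists_between hp1.1
    obtain ⟨t2, ht2a, ht2b⟩ := exists_between hp1.2
    have m1 := hmem t1 ⟨ht1a, ht1b.trans hp1.2⟩ ht1b.ne
    have m2 := hmem t2 ⟨hp1.1.trans ht2a, ht2b⟩ ht2a.ne'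
    have m3 : f p ∈ f '' (φ '' Ioo α β \ {p}) := h1.Icc_subset m1 m2 ⟨ht1b.le, ht2a.le⟩
    obtain ⟨q, ⟨hq1, hq2⟩, hqp⟩ := m3
    rw [← hset] at hq1
    apply hq2
    have e1 := hC q hq1.2 hq1.1
    have e2 := hC p hp'.2 hp'.1
    rw [hqp] at e1
    rw [e1, ← e2]
    rfl
  · intro p hp
    exact hcl hp.1

lemma L_preconnected (C : Set S) (hc : IsCompact C) (hconn : IsConnected C) :
    IsPreconnected (Lset C) := by
  by_cases hpos : ∃ q ∈ C, 0 < fx q
  · obtain ⟨q0, hq0, hq0'⟩ := hpos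
    have himg := eq_Icc_of_connected_compact (hconn.image _ fx_cont.continuousOn)
      (hc.image fx_cont)
    set α := sInf (fx '' C)
    set β := sSup (fx '' C)
    have hα0 : 0 ≤ α := by
      have : α ∈ fx '' C := by
        rw [himg]
        refine left_mem_Icc.2 ?_
        have : fx q0 ∈ Icc α β := by rw [← himg]; exact ⟨q0, hq0, rfl⟩
        exact this.1.trans this.2
      obtain ⟨q, _, hq⟩ := this
      rw [← hq]; exact q.2.1.1
    have hq0I : fx q0 ∈ Icc α β := by rw [← himg]; exact ⟨q0, hq0, rfl⟩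
    have hβ1 : β ≤ 1 := by
      have : β ∈ fx '' C := by
        rw [himg]
        exact right_mem_Icc.2 (hq0I.1.trans hq0I.2)
      obtain ⟨q, _, hq⟩ := this
      rw [← hq]; exact q.2.1.2
    have hβ0 : 0 < β := hq0'.trans_le hq0I.2
    rcases (hq0I.1.trans hq0I.2).lt_or_eq with hlt | heq
    · refine main_lemma (φ := gr) fx_cont (gr_cont.mono ?_) himg ?_ ?_
      · intro t ht
        exact ⟨hα0.trans_lt ht.1, ht.2.le.trans hβ1⟩
      · intro q _ hq2
        exact eq_gr (hα0.trans_lt hq2.1)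
      · intro q hq
        have hqI : fx q ∈ Icc α β := by rw [← himg]; exact ⟨q, hq, rfl⟩
        rcases (q.2.1.1 : 0 ≤ fx q).lt_or_eq with h | h
        · have h3 : fx q ∈ closure (Ioo α β) := by
            rw [closure_Ioo hlt.ne]
            exact hqI
          have h4 : ContinuousWithinAt gr (Ioo α β) (fx q) :=
            (gr_cont (fx q) ⟨h, q.2.1.2⟩).mono
              (fun t ht => ⟨hα0.trans_lt ht.1, ht.2.le.trans hβ1⟩)
          have h5 := h4.mem_closure_image h3
          rw [← eq_gr h] at h5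
          exact h5
        · have hα : α = 0 := le_antisymm (by rw [h]; exact hqI.1) hα0
          rw [hα]
          exact bar_closure h.symm hβ0 hβ1
    · apply Set.Subsingleton.isPreconnected
      intro p hp q hq
      have hpI : fx p ∈ Icc α β := by rw [← himg]; exact ⟨p, hp.1, rfl⟩
      have hqI : fx q ∈ Icc α β := by rw [← himg]; exact ⟨q, hq.1, rfl⟩
      rw [heq, Icc_self] at hpI hqI
      have e1 : fx p = β := hpI
      have e2 : fx q = β := hqI
      rw [eq_gr (q := p) (by rw [e1]; exact hβ0), eq_gr (q := q) (by rw [e2]; exact hβ0), e1, e2]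
  · push Not at hpos
    have hzero : ∀ q ∈ C, fx q = 0 := fun q hq => le_antisymm (hpos q hq) q.2.1.1
    have himg := eq_Icc_of_connected_compact (hconn.image _ fy_cont.continuousOn)
      (hc.image fy_cont)
    set α := sInf (fy '' C)
    set β := sSup (fy '' C)
    obtain ⟨q0, hq0⟩ := hconn.nonempty
    have hq0I : fy q0 ∈ Icc α β := by rw [← himg]; exact ⟨q0, hq0, rfl⟩
    have hle : α ≤ β := hq0I.1.trans hq0I.2
    have hα1 : -1 ≤ α := by
      have : α ∈ fy '' C := by rw [himg]; exact left_mem_Icc.2 hle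
      obtain ⟨q, _, hq⟩ := this
      rw [← hq]; exact q.2.2.1.1
    have hβ1 : β ≤ 1 := by
      have : β ∈ fy '' C := by rw [himg]; exact right_mem_Icc.2 hle
      obtain ⟨q, _, hq⟩ := this
      rw [← hq]; exact q.2.2.1.2
    rcases hle.lt_or_eq with hlt | heq
    · refine main_lemma (φ := br) fy_cont (br_cont.mono ?_) himg ?_ ?_
      · intro t ht
        exact ⟨hα1.trans ht.1.le, ht.2.le.trans hβ1⟩
      · intro q hq1 _
        exact eq_br (hzero q hq1)
      · intro q hq
        have hqI : fy q ∈ Icc α β := by rw [← himg]; exact ⟨q, hq, rfl⟩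
        have h3 : fy q ∈ closure (Ioo α β) := by
          rw [closure_Ioo hlt.ne]
          exact hqI
        have h4 : ContinuousWithinAt br (Ioo α β) (fy q) :=
          (br_cont (fy q) q.2.2.1).mono
            (fun t ht => ⟨hα1.trans ht.1.le, ht.2.le.trans hβ1⟩)
        have h5 := h4.mem_closure_image h3
        rw [← eq_br (hzero q hq)] at h5
        exact h5
    · apply Set.Subsingleton.isPreconnected
      intro p hp q hq
      have hpI : fy p ∈ Icc α β := by rw [← himg]; exact ⟨p, hp.1, rfl⟩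
      have hqI : fy q ∈ Icc α β := by rw [← himg]; exact ⟨q, hq.1, rfl⟩
      rw [heq, Icc_self] at hpI hqI
      have e1 : fy p = β := hpI
      have e2 : fy q = β := hqI
      rw [eq_br (hzero p hp.1), eq_br (hzero q hq.1), e1, e2]

lemma no_path (f : unitInterval → S) (hf : Continuous f) (h0 : fx (f 0) = 0)
    (h1 : fx (f 1) = 1) : False := by
  have hx : Continuous fun t => fx (f t) := fx_cont.comp hf
  have hy : Continuous fun t => fy (f t) := fy_cont.comp hf
  obtain ⟨T, hT0, hTmax⟩ : ∃ T, IsGreatest {t | fx (f t) = 0} T := by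
    refine IsCompact.exists_isGreatest ?_ ⟨0, h0⟩
    exact (isClosed_eq hx continuous_const).isCompact
  have hT1 : T < 1 := by
    rcases (unitInterval.le_one' (t := T)).lt_or_eq with h | h
    · exact h
    · rw [h] at hT0
      have : fx (f 1) = 0 := hT0
      rw [h1] at this
      norm_num at this
  have hev : ∀ᶠ t in nhds T, |fy (f t) - fy (f T)| < 1 := by
    have h2 : Continuous fun t => |fy (f t) - fy (f T)| := (hy.sub continuous_const).abs
    have h3 := h2.tendsto T
    simp only [sub_self, abs_zero] at h3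
    exact h3.eventually (gt_mem_nhds one_pos)
  obtain ⟨u, hu, hu2⟩ : ∃ u, T < u ∧ Icc T u ⊆ {t | |fy (f t) - fy (f T)| < 1} := by
    obtain ⟨v, hv, hv2⟩ := (mem_nhdsGE_iff_exists_Ico_subset' hT1).1
      (mem_nhdsWithin_of_mem_nhds hev)
    obtain ⟨u, hu, hu2⟩ := exists_between (show T < v from hv)
    exact ⟨u, hu, fun t ht => hv2 ⟨ht.1, ht.2.trans_lt hu2⟩⟩
  have hc : 0 < fx (f u) := by
    rcases ((f u).2.1.1 : 0 ≤ fx (f u)).lt_or_eq with h | h
    · exact h
    · exact absurd (hTmax h.symm) (not_le.2 hu)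
  have hivt := intermediate_value_Icc hu.le hx.continuousOn
  have hT0' : fx (f T) = 0 := hT0
  obtain ⟨a, ha0, ha1, ha2⟩ := exists_small (y := 1) (by norm_num) hc
  obtain ⟨b, hb0, hb1, hb2⟩ := exists_small (y := -1) (by norm_num) hc
  obtain ⟨ta, hta, hta2⟩ := hivt ⟨by rw [hT0']; exact ha0.le, ha1.le⟩
  obtain ⟨tb, htb, htb2⟩ := hivt ⟨by rw [hT0']; exact hb0.le, hb1.le⟩
  simp only at hta2 htb2
  have ea : fy (f ta) = 1 := by
    have h2 : 0 < fx (f ta) := by rw [hta2]; exact ha0
    have h3 := eq_gr h2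
    have h4 : fx (f ta) ≤ 1 := (f ta).2.1.2
    rw [gr_eq ⟨h2, h4⟩] at h3
    have h5 : fy (f ta) = Real.sin (1 / fx (f ta)) := congrArg fy h3
    rw [h5, hta2, ha2]
  have eb : fy (f tb) = -1 := by
    have h2 : 0 < fx (f tb) := by rw [htb2]; exact hb0
    have h3 := eq_gr h2
    have h4 : fx (f tb) ≤ 1 := (f tb).2.1.2
    rw [gr_eq ⟨h2, h4⟩] at h3
    have h5 : fy (f tb) = Real.sin (1 / fx (f tb)) := congrArg fy h3
    rw [h5, htb2, hb2]
  have f1 : |fy (f ta) - fy (f T)| < 1 := hu2 hta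
  have f2 : |fy (f tb) - fy (f T)| < 1 := hu2 htb
  rw [ea] at f1
  rw [eb] at f2
  rw [abs_lt] at f1 f2
  linarith [f1.1, f1.2, f2.1, f2.2]

/-- The negation of the preceding statement: If X is a continuum in which every subcontinuum C has a connected set of local separating points, then any two distinct points of any connected subset of X are joined by an arc lying inside that subset. -/
theorem result :
    ¬ (∀ (X : Type) [MetricSpace X] [CompactSpace X] [ConnectedSpace X],
      (∀ C : Set X, IsCompact C → IsConnected C →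
        IsPreconnected {p : X | p ∈ C ∧ ∃ V : Set X, IsOpen V ∧ p ∈ V ∧
          ¬ IsPreconnected (connectedComponentIn (V ∩ C) p \ {p})}) →
      ∀ A : Set X, IsConnected A → ∀ x ∈ A, ∀ y ∈ A, x ≠ y →
        ∃ f : unitInterval → X, Continuous f ∧ Function.Injective f ∧
          f 0 = x ∧ f 1 = y ∧ Set.range f ⊆ A) := by
  intro H
  have h := H S (fun C hc hconn => L_preconnected C hc hconn) univ isConnected_univ
    (br 0) (mem_univ _) (gr 1) (mem_univ _) ?_
  · obtain ⟨f, hf, _, hf0, hf1, _⟩ := h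
    refine no_path f hf ?_ ?_
    · rw [hf0, br_eq (by norm_num)]; rfl
    · rw [hf1, gr_eq (by norm_num)]; rfl
  · intro h
    have := congrArg fx h
    rw [br_eq (by norm_num), gr_eq (by norm_num)] at this
    simp [fx] at this

end Pool.Agent.S13772
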