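-- Proof of frozen statement S13885.
import Pool.Statements.S13885

set_option autoImplicit false
open Pool Pool.MP_c36963_gt

namespace Pool.Agent.S13885

/-- There exists r : ℂ → ℂ mapping the closed unit disk into the unit circle, fixing the circle, with connected fibers in the disk, such that only finitely many circle points y fail: for all circle sequences s_n → y, every point of the Kuratowski lim sup of the fibers r⁻¹(s_n) lies in r⁻¹(y). -/
theorem result :
    ∃ r : ℂ → ℂ,
      (∀ z ∈ Metric.closedBall (0:ℂ) 1, r z ∈ Metric.sphere (0:ℂ) 1) ∧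
      (∀ y ∈ Metric.sphere (0:ℂ) 1, r y = y) ∧
      (∀ y ∈ Metric.sphere (0:ℂ) 1,
        IsConnected {z : ℂ | z ∈ Metric.closedBall (0:ℂ) 1 ∧ r z = y}) ∧
      Set.Finite {y : ℂ | y ∈ Metric.sphere (0:ℂ) 1 ∧
        ¬ (∀ s : ℕ → ℂ, (∀ n, s n ∈ Metric.sphere (0:ℂ) 1) →
            Filter.Tendsto s Filter.atTop (nhds y) →
            ∀ x : ℂ, (∀ ε : ℝ, ε > 0 → ∀ N : ℕ, ∃ n : ℕ, n ≥ N ∧
                ∃ z : ℂ, z ∈ Metric.closedBall (0:ℂ) 1 ∧ r z = s n ∧ dist z x < ε) →
              r x = y)} := by
  classical
  refine ⟨fun z => if ‖z‖ < 1 then 1 else z, ?_, ?_, ?_, ?_⟩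
  · intro z hz
    by_cases h : ‖z‖ < 1
    · simp [h]
    · simp only [h, if_false]
      rw [mem_closedBall_zero_iff] at hz
      rw [mem_sphere_zero_iff_norm]
      linarith [not_lt.1 h]
  · intro y hy
    rw [mem_sphere_zero_iff_norm] at hy
    simp [hy]
  · intro y hy
    rw [mem_sphere_zero_iff_norm] at hy
    by_cases hy1 : y = 1
    · subst hy1
      have hset : {z : ℂ | z ∈ Metric.closedBall (0:ℂ) 1 ∧ (if ‖z‖ < 1 then (1:ℂ) else z) = 1} =
          Metric.ball (0:ℂ) 1 ∪ {1} := by
        ext z
        simp only [Set.mem_ofPred_eq, Set.mem_union, Set.mem_singleton_iff,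
          mem_closedBall_zero_iff, mem_ball_zero_iff]
        constructor
        · rintro ⟨h1, h2⟩
          by_cases h : ‖z‖ < 1
          · exact Or.inl h
          · rw [if_neg h] at h2
            exact Or.inr h2
        · rintro (h | h)
          · exact ⟨h.le, by rw [if_pos h]⟩
          · subst h
            simp
      rw [hset]
      have hb : IsConnected (Metric.ball (0:ℂ) 1) :=
        (convex_ball (0:ℂ) 1).isConnected ⟨0, by simp⟩
      refine hb.subset_closure Set.subset_union_left ?_
      rw [closure_ball (0:ℂ) one_ne_zero]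
      intro z hz
      rcases hz with h | h
      · exact Metric.ball_subset_closedBall h
      · rw [Set.mem_singleton_iff] at h
        subst h
        simp
    · have hset : {z : ℂ | z ∈ Metric.closedBall (0:ℂ) 1 ∧ (if ‖z‖ < 1 then (1:ℂ) else z) = y} =
          {y} := by
        ext z
        simp only [Set.mem_ofPred_eq, Set.mem_singleton_iff, mem_closedBall_zero_iff]
        constructor
        · rintro ⟨h1, h2⟩
          by_cases h : ‖z‖ < 1
          · rw [if_pos h] at h2
            exact absurd h2.symm hy1
          · rw [if_neg h] at h2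
            exact h2
        · rintro rfl
          exact ⟨hy.le, by simp [hy]⟩
      rw [hset]
      exact isConnected_singleton
  · refine Set.Finite.subset (Set.finite_singleton (1:ℂ)) ?_
    rintro y ⟨hy, hbad⟩
    rw [Set.mem_singleton_iff]
    by_contra hy1
    apply hbad
    rw [mem_sphere_zero_iff_norm] at hy
    intro s hs hlim x hx
    have hxy : x = y := by
      by_contra hne
      have hd : 0 < dist x y := dist_pos.2 hne
      have hd1 : 0 < dist (1:ℂ) y := dist_pos.2 (fun h => hy1 h.symm)
      rw [Metric.tendsto_atTop] at hlim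
      obtain ⟨N, hN⟩ := hlim (min (dist x y / 2) (dist (1:ℂ) y)) (lt_min (by positivity) hd1)
      obtain ⟨n, hn, z, hz, hrz, hzx⟩ := hx (dist x y / 2) (by positivity) N
      have h1 := hN n hn
      have h2 : dist (s n) y < dist x y / 2 := lt_of_lt_of_le h1 (min_le_left _ _)
      have h3 : dist (s n) y < dist (1:ℂ) y := lt_of_lt_of_le h1 (min_le_right _ _)
      have hzs : z = s n := by
        by_cases h : ‖z‖ < 1
        · simp only [h, if_true] at hrz
          rw [← hrz] at h3
          exact absurd h3 (lt_irrefl _)
        · simp only [h, if_false] at hrz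
          exact hrz
      rw [hzs] at hzx
      have h4 : dist x y ≤ dist x (s n) + dist (s n) y := dist_triangle _ _ _
      rw [dist_comm x (s n)] at h4
      linarith
    subst hxy
    simp [hy]

end Pool.Agent.S13885
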