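import Pool.Statements.S14047
import Pool.Agent.R816.Groth
import Pool.Agent.Helper639.AL

set_option autoImplicit false
open Pool Pool.MP_d985ac_gt

namespace Pool.Agent.S14047

open Set Filter Topology Pool.Agent.R816.Groth Pool.Agent.Helper639.Ebl

section

variable {X : Type} [TopologicalSpace X]

/-- a countable family of functions does not distinguish a point of the closure of the image of a
bounded set from the points of the space -/
lemma exists_point {A : Set X} (hA : ∀ f : X → ℝ, Continuous f → ∃ C : ℝ, ∀ x ∈ A, |f x| ≤ C)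
    {I : Type} (F : I → X → ℝ) (hF : ∀ i, Continuous (F i)) (p : I → ℝ)
    (hp : p ∈ closure ((fun x i => F i x) '' A)) (s : ℕ → I) : ∃ x : X, ∀ n, F (s n) x = p (s n) := by
  by_contra hcon
  push Not at hcon
  -- the map into the metrizable product
  let E : X → ℕ → ℝ := fun x n => F (s n) x
  have hE : Continuous E := continuous_pi fun n => hF _
  let P : ℕ → ℝ := fun n => p (s n)
  let _ : MetricSpace (ℕ → ℝ) := TopologicalSpace.metrizableSpaceMetric (ℕ → ℝ)
  have hne : ∀ x, E x ≠ P := fun x h => by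
    obtain ⟨n, hn⟩ := hcon x
    exact hn (congrFun h n)
  have hPc : P ∈ closure (E '' A) := by
    have hr : Continuous (fun (q : I → ℝ) (n : ℕ) => q (s n)) :=
      continuous_pi fun n => continuous_apply _
    have h1 := image_closure_subset_closure_image (s := (fun x i => F i x) '' A) hr
      (mem_image_of_mem _ hp)
    rw [image_image] at h1
    exact h1
  let h : X → ℝ := fun x => (dist (E x) P)⁻¹
  have hh : Continuous h := (hE.dist continuous_const).inv₀ fun x => (dist_pos.mpr (hne x)).ne'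
  obtain ⟨C, hC⟩ := hA h hh
  rw [Metric.mem_closure_iff] at hPc
  obtain ⟨_, ⟨x, hx, rfl⟩, hd⟩ := hPc (1 / (|C| + 1)) (by positivity)
  have h1 := hC x hx
  have h2 : 0 < dist (E x) P := dist_pos.mpr (hne x)
  rw [abs_of_pos (inv_pos.mpr h2)] at h1
  rw [dist_comm, lt_div_iff₀ (by positivity)] at hd
  have h3 : 1 ≤ C * dist (E x) P := by
    have := mul_le_mul_of_nonneg_right h1 h2.le
    rwa [inv_mul_cancel₀ h2.ne'] at this
  nlinarith [le_abs_self C]

omit [TopologicalSpace X] in
/-- sequences in a countably compact set have cluster points -/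
lemma exists_cluster {K : Set (X → ℝ)}
    (hK : ∀ U : ℕ → Set (X → ℝ), (∀ n, IsOpen (U n)) → K ⊆ ⋃ n, U n →
      ∃ N : ℕ, K ⊆ ⋃ n ∈ Finset.range N, U n) (C : Set K) (hC : IsClosed C) (s : ℕ → K)
    (hs : ∀ n, s n ∈ C) : ∃ f ∈ C, ∀ (Q : Finset X) (ε : ℝ), 0 < ε → ∀ N : ℕ,
      ∃ n, N ≤ n ∧ ∀ q ∈ Q, |(s n).1 q - f.1 q| < ε := by
  let U : ℕ → Set (X → ℝ) := fun N => (closure {g | ∃ n, N ≤ n ∧ g = (s n).1})ᶜ
  by_cases hcov : K ⊆ ⋃ n, U n
  · exfalso
    obtain ⟨N, hN⟩ := hK U (fun n => isClosed_closure.isOpen_compl) hcov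
    have h1 := hN (s N).2
    rw [mem_iUnion₂] at h1
    obtain ⟨n, hn, h2⟩ := h1
    rw [Finset.mem_range] at hn
    exact h2 (subset_closure ⟨N, hn.le, rfl⟩)
  · rw [not_subset] at hcov
    obtain ⟨f, hfK, hf⟩ := hcov
    rw [mem_iUnion] at hf
    push Not at hf
    have hf' : ∀ N, f ∈ closure {g | ∃ n, N ≤ n ∧ g = (s n).1} := fun N => by
      by_contra h
      exact hf N h
    refine ⟨⟨f, hfK⟩, ?_, fun Q ε hε N => ?_⟩
    · rw [← hC.closure_eq, closure_subtype]
      refine closure_mono ?_ (hf' 0)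
      rintro g ⟨n, -, rfl⟩
      exact ⟨s n, hs n, rfl⟩
    · obtain ⟨g, ⟨n, hn, rfl⟩, hg⟩ := mem_closure_pi' (hf' N) Q hε
      exact ⟨n, hn, hg⟩

end

theorem aux (X : Type) [TopologicalSpace X] (A : ℕ → Set X)
    (hA : ∀ n, ∀ f : X → ℝ, Continuous f → ∃ C : ℝ, ∀ x ∈ A n, |f x| ≤ C)
    (hD : Dense (⋃ n, A n)) (K : Set (X → ℝ)) (hKc : ∀ f ∈ K, Continuous f)
    (hK : ∀ U : ℕ → Set (X → ℝ), (∀ n, IsOpen (U n)) → K ⊆ ⋃ n, U n →
            ∃ N : ℕ, K ⊆ ⋃ n ∈ Finset.range N, U n) :
        IsCompact K ∧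
          ∃ (Γ : Type) (e : K → (Γ → ℝ)), Topology.IsEmbedding e ∧
            ∀ k : K, ∀ ε : ℝ, 0 < ε → {γ : Γ | ε ≤ |e k γ|}.Finite := by
  classical
  -- the compact sets
  let ev : X → (K → ℝ) := fun x f => f.1 x
  let F : ℕ → Set (K → ℝ) := fun n => closure (ev '' A n)
  have hFc : ∀ n, IsCompact (F n) := by
    intro n
    choose C hC using fun f : K => hA n f.1 (hKc f.1 f.2)
    refine (isCompact_univ_pi fun f => isCompact_Icc (a := -C f) (b := C f)).of_isClosed_subset
      isClosed_closure ?_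
    refine closure_minimal ?_ (isClosed_set_pi fun _ _ => isClosed_Icc)
    rintro _ ⟨x, hx, rfl⟩ f _
    exact abs_le.mp (hC f x hx)
  let S : Type := {p : K → ℝ // ∃ n, p ∈ F n}
  let F' : ℕ → Set S := fun n => Subtype.val ⁻¹' F n
  have hF'c : ∀ n, IsCompact (F' n) := by
    intro n
    rw [Subtype.isCompact_iff]
    have : Subtype.val '' F' n = F n := by
      ext p
      constructor
      · rintro ⟨q, hq, rfl⟩
        exact hq
      · intro hp
        exact ⟨⟨p, n, hp⟩, hp, rfl⟩
    rw [this]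
    exact hFc n
  let ψ : K → (S → ℝ) := fun f p => p.1 f
  have hψinj : Function.Injective ψ := by
    intro f g hfg
    have h1 : EqOn f.1 g.1 (⋃ n, A n) := by
      intro x hx
      obtain ⟨n, hn⟩ := mem_iUnion.mp hx
      exact congrFun hfg ⟨ev x, n, subset_closure (mem_image_of_mem _ hn)⟩
    exact Subtype.ext (Continuous.ext_on hD (hKc _ f.2) (hKc _ g.2) h1)
  have hclus : ∀ C : Set K, IsClosed C → Clusters (ψ '' C) := by
    intro C hC s hs
    choose t ht1 ht2 using hs
    obtain ⟨f, hfC, hf⟩ := exists_cluster hK C hC t ht1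
    refine ⟨ψ f, mem_image_of_mem _ hfC, fun Q ε hε N => ?_⟩
    have hpt : ∀ p : S, ∃ x : X, f.1 x = p.1 f ∧ ∀ n, (t n).1 x = p.1 (t n) := by
      rintro ⟨p, n, hp⟩
      obtain ⟨x, hx⟩ := exists_point (hA n) (fun (g : K) (x : X) => g.1 x)
        (fun g => hKc _ g.2) p hp (fun m => Nat.casesOn m f t)
      exact ⟨x, hx 0, fun n => hx (n + 1)⟩
    choose x hx1 hx2 using hpt
    obtain ⟨n, hn, hq⟩ := hf (Q.image x) ε hε N
    refine ⟨n, hn, fun p hp => ?_⟩
    have := hq (x p) (Finset.mem_image_of_mem _ hp)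
    rw [hx1, hx2] at this
    rw [← ht2]
    exact this
  have hcomp : ∀ C : Set K, IsClosed C → IsCompact (ψ '' C) := by
    intro C hC
    refine isCompact_of_clusters F' hF'c (fun p => p.2) _ ?_ (hclus C hC)
    rintro _ ⟨f, -, rfl⟩
    exact (continuous_apply f).comp continuous_subtype_val
  -- `K` is compact
  have hemb : IsClosedEmbedding ψ ∧ CompactSpace K := by
    have hr : IsCompact (range ψ) := by
      rw [← image_univ]
      exact hcomp _ isClosed_univ
    have hrc : CompactSpace (range ψ) := isCompact_iff_compactSpace.mp hr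
    let g : range ψ → K := fun y => y.2.choose
    have hg : ∀ y, ψ (g y) = y.1 := fun y => y.2.choose_spec
    have hgψ : ∀ f : K, g ⟨ψ f, mem_range_self f⟩ = f := fun f => hψinj (hg _)
    have hgc : Continuous g := by
      rw [continuous_iff_isClosed]
      intro C hC
      have : g ⁻¹' C = Subtype.val ⁻¹' (ψ '' C) := by
        ext y
        constructor
        · intro hy
          exact ⟨g y, hy, hg y⟩
        · rintro ⟨f, hf, hfy⟩
          have : g y = f := hψinj ((hg y).trans hfy.symm)
          change g y ∈ C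
          rwa [this]
      rw [this]
      exact (hcomp C hC).isClosed.preimage continuous_subtype_val
    have hgbij : Function.Bijective g := by
      refine ⟨fun y z hyz => ?_, fun f => ⟨_, hgψ f⟩⟩
      apply Subtype.ext
      rw [← hg y, ← hg z, hyz]
    have hgh : IsHomeomorph g := by
      rw [isHomeomorph_iff_continuous_isClosedMap_bijective]
      exact ⟨hgc, hgc.isClosedMap, hgbij⟩
    have hKcomp : CompactSpace K := by
      constructor
      rw [← hgbij.surjective.range_eq, ← image_univ]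
      exact isCompact_univ.image hgc
    refine ⟨?_, hKcomp⟩
    have hψc : Continuous ψ := by
      rw [continuous_iff_isClosed]
      intro C hC
      have h1 : ψ ⁻¹' C = g '' (Subtype.val ⁻¹' C) := by
        ext f
        constructor
        · intro hf
          exact ⟨⟨ψ f, mem_range_self f⟩, hf, hgψ f⟩
        · rintro ⟨y, hy, rfl⟩
          change ψ (g y) ∈ C
          rw [hg]
          exact hy
      rw [h1]
      exact hgc.isClosedMap _ (hC.preimage continuous_subtype_val)
    exact hψc.isClosedEmbedding hψinj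
  obtain ⟨hψe, hKcomp⟩ := hemb
  refine ⟨isCompact_iff_compactSpace.mpr hKcomp, ?_⟩
  -- the embedding
  let res : (n : ℕ) → K → (F n → ℝ) := fun n f p => p.1 f
  have hres : ∀ n, Continuous (res n) := by
    intro n
    refine continuous_pi fun p => ?_
    exact (continuous_apply (⟨p.1, n, p.2⟩ : S)).comp hψe.continuous
  have hal : ∀ n, ∃ (Γ : Type) (h : range (res n) → Γ → ℝ), C0 h ∧ Function.Injective h := by
    intro n
    have hc1 : CompactSpace (range (res n)) :=
      isCompact_iff_compactSpace.mp (isCompact_range (hres n))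
    have hc2 : CompactSpace (F n) := isCompact_iff_compactSpace.mp (hFc n)
    refine al (K := range (res n)) (F := F n) (fun k p => k.1 p) (fun p => ?_) (fun k => ?_) ?_
    · exact (continuous_apply p).comp continuous_subtype_val
    · obtain ⟨f, hf⟩ := k.2
      have : (fun p : F n => k.1 p) = fun p => p.1 f := by
        funext p
        rw [← hf]
      rw [this]
      exact (continuous_apply f).comp continuous_subtype_val
    · intro x y hxy
      exact Subtype.ext (funext hxy)
  choose Γ h hh hinj using hal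
  let v : (n : ℕ) → K → Γ n → ℝ := fun n f γ => h n ⟨res n f, mem_range_self f⟩ γ
  have hv : ∀ n, C0 (v n) := by
    intro n
    refine ⟨fun γ => ?_, fun x γ => (hh n).bd _ _, fun x ε hε => (hh n).fin _ ε hε⟩
    exact ((hh n).cont γ).comp ((hres n).subtype_mk _)
  have hsig := C0.sigma hv
  refine ⟨Σ n, Γ n, fun x p => v p.1 x p.2 / ((p.1 : ℝ) + 1), ?_, fun k ε hε => hsig.fin k ε hε⟩
  have hcont : Continuous (fun (x : K) (p : Σ n, Γ n) => v p.1 x p.2 / ((p.1 : ℝ) + 1)) :=
    continuous_pi fun p => hsig.cont p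
  refine (hcont.isClosedEmbedding ?_).isEmbedding
  intro f g hfg
  apply hψinj
  funext p
  obtain ⟨p, n, hp⟩ := p
  have h1 : v n f = v n g := by
    funext γ
    have h2 := congrFun hfg ⟨n, γ⟩
    have hpos : (0 : ℝ) < (n : ℝ) + 1 := by positivity
    exact (div_left_inj' hpos.ne').mp h2
  have h2 := hinj n h1
  have h3 := congrFun (congrArg Subtype.val h2) ⟨p, hp⟩
  exact h3

/-- For a Tychonoff space X with a dense countable union of bounded sets, every countably compact set of continuous functions in C_p(X) is compact and embeds into c_0(Γ) with the pointwise topology, i.e. is Eberlein compact. -/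
theorem result :
    ∀ (X : Type) [TopologicalSpace X] [T35Space X],
      (∃ A : ℕ → Set X,
          (∀ n, ∀ f : X → ℝ, Continuous f → ∃ C : ℝ, ∀ x ∈ A n, |f x| ≤ C) ∧
          Dense (⋃ n, A n)) →
      ∀ K : Set (X → ℝ), (∀ f ∈ K, Continuous f) →
        (∀ U : ℕ → Set (X → ℝ), (∀ n, IsOpen (U n)) → K ⊆ ⋃ n, U n →
            ∃ N : ℕ, K ⊆ ⋃ n ∈ Finset.range N, U n) →
        IsCompact K ∧
          ∃ (Γ : Type) (e : K → (Γ → ℝ)), Topology.IsEmbedding e ∧
            ∀ k : K, ∀ ε : ℝ, 0 < ε → {γ : Γ | ε ≤ |e k γ|}.Finite := by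
  rintro X _ _ ⟨A, hA, hD⟩ K hKc hK
  exact aux X A hA hD K hKc hK

end Pool.Agent.S14047
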