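import Pool.Statements.S14076
import Pool.Agent.R814.Pat

set_option autoImplicit false
open Pool Pool.MP_dc63d3_gt

namespace Pool.Agent.S14076

/-- The negation of the preceding statement: For every real Hilbert space there is a constant C such that, for each n ≥ 2, some retraction from nonempty subsets of at most n points onto those of at most n−1 points is C-Lipschitz for the Hausdorff distance. -/
theorem result :
    ¬ (∀ (H : Type) [NormedAddCommGroup H] [InnerProductSpace ℝ H] [CompleteSpace H],
      ∃ C : ℝ, ∀ n : ℕ, 2 ≤ n →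
        ∃ r : Finset H → Finset H,
          (∀ s : Finset H, s.Nonempty → s.card ≤ n →
              (r s).Nonempty ∧ (r s).card ≤ n - 1) ∧
          (∀ s : Finset H, s.Nonempty → s.card ≤ n - 1 → r s = s) ∧
          (∀ s t : Finset H, s.Nonempty → s.card ≤ n → t.Nonempty → t.card ≤ n →
              Metric.hausdorffDist ((r s : Finset H) : Set H) ((r t : Finset H) : Set H)
                ≤ C * Metric.hausdorffDist ((s : Finset H) : Set H) ((t : Finset H) : Set H))) := by
  intro hall
  obtain ⟨C, hC⟩ := hall (lp (fun _ : ℕ => ℝ) 2)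
  set C' : ℝ := max C 0 with hC'
  have hC0 : 0 ≤ C' := le_max_right _ _
  obtain ⟨p, hpge, hp⟩ := Nat.exists_infinite_primes (2 ^ (Nat.floor (4 * (C' + 1) ^ 2)))
  haveI : Fact p.Prime := ⟨hp⟩
  have hn2 : 2 ≤ 2 ^ p := by
    calc 2 = 2 ^ 1 := by norm_num
      _ ≤ 2 ^ p := Nat.pow_le_pow_right (by norm_num) hp.one_lt.le
  obtain ⟨r, h1, h2, h3⟩ := hC (2 ^ p) hn2
  have hr : Pool.Agent.R814.Retr (lp (fun _ : ℕ => ℝ) 2) (2 ^ p) C' r :=
    { nonempty := fun s hs hc => (h1 s hs hc).1
      card_le := fun s hs hc => (h1 s hs hc).2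
      fix := h2
      lip := fun s t hs hsc ht htc => le_trans (h3 s t hs hsc ht htc)
        (mul_le_mul_of_nonneg_right (le_max_left _ _) Metric.hausdorffDist_nonneg) }
  have b : HilbertBasis ℕ ℝ (lp (fun _ : ℕ => ℝ) 2) :=
    HilbertBasis.ofRepr (LinearIsometryEquiv.refl ℝ _)
  refine Pool.Agent.R814.main b.orthonormal hC0 hr ?_
  intro z hz
  have hz' : z ≤ Nat.floor (4 * (C' + 1) ^ 2) := Nat.le_floor hz
  exact le_trans (Nat.pow_le_pow_right (by norm_num) hz') hpge

end Pool.Agent.S14076
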