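import Pool.Statements.S14257
import Pool.Agent.R815.Congruences

set_option autoImplicit false
open Pool Pool.MP_f7c3cd_gt

namespace Pool.Agent.S14257

/-- Every proper system of at most continuum many congruences among at most continuum many (nonempty index set) sets has a solution: a partition of the hyperbolic plane where each congruence holds via some hyperbolic isometry. -/
theorem result :
    ∀ (I M : Type) (L R : M → Set I),
      Nonempty I →
      Cardinal.mk I ≤ Cardinal.continuum →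
      Cardinal.mk M ≤ Cardinal.continuum →
      (∀ i, (L i).Nonempty ∧ L i ≠ Set.univ ∧ (R i).Nonempty ∧ R i ≠ Set.univ) →
      ∃ A : I → Set UpperHalfPlane,
        Pairwise (fun j k => Disjoint (A j) (A k)) ∧
        (⋃ j, A j) = Set.univ ∧
        ∀ i, ∃ g : IsometryEquiv UpperHalfPlane UpperHalfPlane,
          g '' (⋃ j ∈ L i, A j) = ⋃ j ∈ R i, A j := by
  classical
  intro I M L R hI _ hM hLR
  obtain ⟨j₀⟩ := hI
  -- the representative of `{S, Sᶜ}` containing `j₀`
  let rep : Set I → Set I := fun S => if j₀ ∈ S then S else Sᶜ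
  have hrep : ∀ S : Set I, S.Nonempty → S ≠ Set.univ → j₀ ∈ rep S ∧ rep S ≠ Set.univ := by
    intro S hS hS'
    by_cases h : j₀ ∈ S
    · simp only [rep, if_pos h]
      exact ⟨h, hS'⟩
    · simp only [rep, if_neg h]
      refine ⟨h, fun h' => ?_⟩
      rw [Set.compl_univ_iff] at h'
      exact hS.ne_empty h'
  let F : M ⊕ M → Set I := Sum.elim (fun i => rep (L i)) (fun i => rep (R i))
  have hF : ∀ S ∈ Set.range F, j₀ ∈ S ∧ S ≠ Set.univ := by
    rintro S ⟨i | i, rfl⟩
    · exact hrep _ (hLR i).1 (hLR i).2.1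
    · exact hrep _ (hLR i).2.2.1 (hLR i).2.2.2
  have hcard : Cardinal.mk (Set.range F) ≤ Cardinal.continuum := by
    refine Cardinal.mk_range_le.trans ?_
    rw [Cardinal.mk_sum, Cardinal.lift_id]
    exact Cardinal.add_le_of_le Cardinal.aleph0_le_continuum hM hM
  obtain ⟨φ, E, H, U, hE, hU⟩ :=
    Pool.Agent.R815.Congruences.exists_universal j₀ (Set.range F) hF hcard
  -- every set of the system is the image of `E`
  have key : ∀ S : Set I, rep S ∈ Set.range F →
      ∃ g : IsometryEquiv UpperHalfPlane UpperHalfPlane, ∀ x, φ x ∈ S ↔ g x ∈ E := by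
    intro S hS
    by_cases h : j₀ ∈ S
    · refine ⟨U ⟨rep S, hS⟩, fun x => ?_⟩
      rw [← hU ⟨rep S, hS⟩ x]
      simp only [rep, if_pos h]
    · refine ⟨(U ⟨rep S, hS⟩).trans H, fun x => ?_⟩
      have h1 : φ x ∈ rep S ↔ U ⟨rep S, hS⟩ x ∈ E := hU ⟨rep S, hS⟩ x
      have h0 : φ x ∈ rep S ↔ φ x ∉ S := by
        simp only [rep, if_neg h, Set.mem_compl_iff]
      have h2 := hE (U ⟨rep S, hS⟩ x)
      rw [IsometryEquiv.trans_apply]
      generalize U ⟨rep S, hS⟩ x = y at h1 h2 ⊢
      tauto
  refine ⟨fun j => {x | φ x = j}, ?_, ?_, ?_⟩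
  · intro j k hjk
    rw [Set.disjoint_left]
    intro x hx hx'
    exact hjk (hx.symm.trans hx')
  · ext x
    simp
  · intro i
    obtain ⟨a, ha⟩ := key (L i) ⟨Sum.inl i, rfl⟩
    obtain ⟨b, hb⟩ := key (R i) ⟨Sum.inr i, rfl⟩
    have e : ∀ S : Set I, (⋃ j ∈ S, {x | φ x = j}) = {x | φ x ∈ S} := by
      intro S
      ext x
      simp
    refine ⟨a.trans b.symm, ?_⟩
    rw [e, e]
    ext y
    simp only [Set.mem_image, IsometryEquiv.trans_apply]
    constructor
    · rintro ⟨x, hx, rfl⟩
      show φ (b.symm (a x)) ∈ R i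
      rw [hb, IsometryEquiv.apply_symm_apply]
      exact (ha x).1 hx
    · intro hy
      refine ⟨a.symm (b y), ?_, ?_⟩
      · show φ (a.symm (b y)) ∈ L i
        rw [ha, IsometryEquiv.apply_symm_apply]
        exact (hb y).1 hy
      · rw [IsometryEquiv.apply_symm_apply, IsometryEquiv.symm_apply_apply]

end Pool.Agent.S14257
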