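import Pool.Statements.S14496
import Pool.Agent.R327.SE.Dif
import Pool.Agent.R604.Erg

set_option autoImplicit false
open MeasureTheory
open scoped Manifold ContDiff
open Pool Pool.MP_2602dd_lc

namespace Pool.Agent.S14496

/-- the set of smooth ergodic diffeomorphisms of the torus -/
abbrev SEt : Type := {T : Diffeomorph (𝓡 2) (𝓡 2) Pool.Agent.R327.SE.MM Pool.Agent.R327.SE.MM ∞ //
  MeasurePreserving (⇑T) volume volume ∧ Ergodic (⇑T) volume}

noncomputable def Sx (x : ℕ → ℝ) : SEt :=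
  ⟨Pool.Agent.R327.SE.Dx x, Pool.Agent.R327.SE.Tm_mp _ _, Pool.Agent.R327.SE.Tx_ergodic x⟩

open Pool.Agent.R327.SE Pool.Agent.H468R2 in
theorem core (f : SEt → (ℕ → ℕ → Bool))
    (hf : @Measurable SEt (ℕ → ℕ → Bool)
      (MeasurableSpace.comap (fun T : SEt => (⇑T.1 : MM → MM))
        (inferInstance : MeasurableSpace (MM → MM)))
      (inferInstance : MeasurableSpace (ℕ → ℕ → Bool)) f)
    (hfi : ∀ S T : SEt,
      (∃ φ ψ : MM → MM, MeasurePreserving φ volume volume ∧ MeasurePreserving ψ volume volume ∧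
        ψ ∘ φ =ᵐ[volume] id ∧ φ ∘ ψ =ᵐ[volume] id ∧ φ ∘ (⇑S.1) =ᵐ[volume] (⇑T.1) ∘ φ) ↔
      (∃ σ : Equiv.Perm ℕ, ∀ i j : ℕ, f S i j = f T (σ i) (σ j))) : False := by
  have hSx : @Measurable (ℕ → ℝ) SEt _ (MeasurableSpace.comap (fun T : SEt => (⇑T.1 : MM → MM))
        (inferInstance : MeasurableSpace (MM → MM))) Sx := by
    rw [measurable_comap_iff]
    exact measurable_pi_iff.2 fun p => Tx_meas p
  have hc := hf.comp hSx
  let F : (ℕ → ℝ) → MA.RS Unit (fun _ => 2) := fun x _ a => f (Sx x) (a 0) (a 1) = true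
  have hF : MA.Hm F := by
    constructor
    · intro r a
      have h1 : Measurable fun x => f (Sx x) (a 0) (a 1) :=
        (measurable_pi_apply (a 1)).comp ((measurable_pi_apply (a 0)).comp hc)
      exact h1 (measurableSet_singleton true)
    · intro x y hxy
      obtain ⟨φ, ψ, h1, h2, h3, h4, h5⟩ := Tx_iso hxy
      obtain ⟨σ, hσ⟩ := (hfi (Sx x) (Sx y)).1 ⟨φ, ψ, h1, h2, by rw [h3], by rw [h4],
        Filter.EventuallyEq.of_eq h5⟩
      refine ⟨σ, fun _ a => ?_⟩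
      show f (Sx y) (σ (a 0)) (σ (a 1)) = true ↔ f (Sx x) (a 0) (a 1) = true
      rw [hσ]
  obtain ⟨x, y, hg, π, hπ⟩ := Pool.Agent.R604.exists_gen_iso F hF
  obtain ⟨φ, ψ, h1, -, -, -, h5⟩ := (hfi (Sx x) (Sx y)).2 ⟨π, fun i j => by
    have h := hπ () ![i, j]
    have h' : f (Sx y) (π i) (π j) = true ↔ f (Sx x) i j = true := h
    exact (Bool.eq_iff_iff.2 h').symm⟩
  exact Tx_not_iso hg φ h1 h5

/-- The negation of the preceding statement: For every compact connected boundaryless smooth manifold of dimension at least 2 with a smooth volume, measure isomorphism of smooth ergodic volume-preserving diffeomorphisms is Borel bi-reducible with isomorphism of countable binary relations on ℕ. -/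
theorem result :
    ¬ (∀ (n : ℕ), 2 ≤ n →
  ∀ (M : Type) [TopologicalSpace M] [ChartedSpace (EuclideanSpace ℝ (Fin n)) M]
    [IsManifold (𝓡 n) ∞ M] [CompactSpace M] [ConnectedSpace M] [T2Space M]
    [MeasurableSpace M] [BorelSpace M] (ν : Measure M),
    (∀ e ∈ atlas (EuclideanSpace ℝ (Fin n)) M, ∃ ρ : EuclideanSpace ℝ (Fin n) → ℝ,
        ContDiffOn ℝ ∞ ρ e.target ∧ (∀ y ∈ e.target, 0 < ρ y) ∧
        Measure.map (⇑e) (ν.restrict e.source) =
          (volume.withDensity (fun y => ENNReal.ofReal (ρ y))).restrict e.target) →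
    (∃ f : {T : Diffeomorph (𝓡 n) (𝓡 n) M M ∞ //
              MeasurePreserving (⇑T) ν ν ∧ Ergodic (⇑T) ν} → (ℕ → ℕ → Bool),
       @Measurable {T : Diffeomorph (𝓡 n) (𝓡 n) M M ∞ //
              MeasurePreserving (⇑T) ν ν ∧ Ergodic (⇑T) ν} (ℕ → ℕ → Bool)
         (MeasurableSpace.comap
           (fun T : {T : Diffeomorph (𝓡 n) (𝓡 n) M M ∞ //
              MeasurePreserving (⇑T) ν ν ∧ Ergodic (⇑T) ν} => (⇑T.1 : M → M))
           (inferInstance : MeasurableSpace (M → M)))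
         (inferInstance : MeasurableSpace (ℕ → ℕ → Bool)) f ∧
       ∀ S T : {T : Diffeomorph (𝓡 n) (𝓡 n) M M ∞ //
              MeasurePreserving (⇑T) ν ν ∧ Ergodic (⇑T) ν},
         (∃ φ ψ : M → M, MeasurePreserving φ ν ν ∧ MeasurePreserving ψ ν ν ∧
            ψ ∘ φ =ᵐ[ν] id ∧ φ ∘ ψ =ᵐ[ν] id ∧ φ ∘ (⇑S.1) =ᵐ[ν] (⇑T.1) ∘ φ) ↔
         (∃ σ : Equiv.Perm ℕ, ∀ i j : ℕ, f S i j = f T (σ i) (σ j))) ∧
    (∃ g : (ℕ → ℕ → Bool) → {T : Diffeomorph (𝓡 n) (𝓡 n) M M ∞ //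
              MeasurePreserving (⇑T) ν ν ∧ Ergodic (⇑T) ν},
       @Measurable (ℕ → ℕ → Bool) {T : Diffeomorph (𝓡 n) (𝓡 n) M M ∞ //
              MeasurePreserving (⇑T) ν ν ∧ Ergodic (⇑T) ν}
         (inferInstance : MeasurableSpace (ℕ → ℕ → Bool))
         (MeasurableSpace.comap
           (fun T : {T : Diffeomorph (𝓡 n) (𝓡 n) M M ∞ //
              MeasurePreserving (⇑T) ν ν ∧ Ergodic (⇑T) ν} => (⇑T.1 : M → M))
           (inferInstance : MeasurableSpace (M → M))) g ∧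
       ∀ G H : ℕ → ℕ → Bool,
         (∃ σ : Equiv.Perm ℕ, ∀ i j : ℕ, G i j = H (σ i) (σ j)) ↔
         (∃ φ ψ : M → M, MeasurePreserving φ ν ν ∧ MeasurePreserving ψ ν ν ∧
            ψ ∘ φ =ᵐ[ν] id ∧ φ ∘ ψ =ᵐ[ν] id ∧
            φ ∘ (⇑(g G).1) =ᵐ[ν] (⇑(g H).1) ∘ φ))) := by
  intro h
  obtain ⟨⟨f, hf, hfi⟩, -⟩ := h 2 le_rfl Pool.Agent.R327.SE.MM volume
    Pool.Agent.R327.SE.chart_dens
  exact core f hf hfi

end Pool.Agent.S14496
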