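import Pool.Statements.S14568
import Pool.Agent.R554.Generic

set_option autoImplicit false
open Classical
open Pool Pool.MP_354b3e_lc

namespace Pool.Agent.S14568

/-- The negation of the preceding statement: For every noncomputable A Turing-below the halting set there is a computable, locally finite, planar graph on ℕ whose neighbour lists are A-computable, with chromatic number 2, but with no computable proper colouring using finitely many colours. -/
theorem result :
    ¬ (∀ A : Set ℕ,
      ¬ ComputablePred (fun n : ℕ => n ∈ A) →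
      TuringReducible (fun n : ℕ => Part.some (if n ∈ A then (1 : ℕ) else 0))
        (fun n : ℕ => Part.some
          (if ((Denumerable.ofNat Nat.Partrec.Code n).eval n).Dom then (1 : ℕ) else 0)) →
      ∃ G : SimpleGraph ℕ,
        ComputablePred (fun p : ℕ × ℕ => G.Adj p.1 p.2) ∧
        (∃ N : ℕ → Finset ℕ, (∀ x y : ℕ, G.Adj x y ↔ y ∈ N x) ∧
          TuringReducible (fun x : ℕ => Part.some (Encodable.encode (N x)))
            (fun n : ℕ => Part.some (if n ∈ A then (1 : ℕ) else 0))) ∧
        (∃ f : ℕ → EuclideanSpace ℝ (Fin 2), Function.Injective f ∧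
          ∃ γ : ∀ u v : ℕ, Path (f u) (f v),
            (∀ u v : ℕ, G.Adj u v → Function.Injective (fun t : unitInterval => γ u v t)) ∧
            (∀ u v w : ℕ, G.Adj u v → ∀ t : unitInterval, γ u v t = f w → w = u ∨ w = v) ∧
            (∀ u v u' v' : ℕ, G.Adj u v → G.Adj u' v' →
              Sym2.mk (u, v) ≠ Sym2.mk (u', v') →
              ∀ t t' : unitInterval, γ u v t = γ u' v' t' →
                ∃ w : ℕ, (w = u ∨ w = v) ∧ (w = u' ∨ w = v') ∧ γ u v t = f w)) ∧
        G.chromaticNumber = 2 ∧
        ∀ k : ℕ, ∀ c : ℕ → ℕ, Computable c → (∀ x, c x < k) →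
          ∃ x y : ℕ, G.Adj x y ∧ c x = c y) := by
  intro hall
  -- the 1-generic set
  let X : ℕ → Bool := Pool.Agent.R554.GS
  obtain ⟨A, hA⟩ : ∃ A : Set ℕ, ∀ n, n ∈ A ↔ X n = true := ⟨{n | X n = true}, fun _ => Iff.rfl⟩
  have hX : Pool.Agent.R554.OneGeneric X := Pool.Agent.R554.GS_generic
  have hchi : (fun n : ℕ => if n ∈ A then (1 : ℕ) else 0) = fun n => (X n).toNat := by
    funext n
    by_cases h : X n = true
    · rw [if_pos ((hA n).2 h), h]; rfl
    · rw [if_neg (fun h' => h ((hA n).1 h'))]
      rw [Bool.not_eq_true] at h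
      rw [h]; rfl
  have hchi' : (fun n : ℕ => Part.some (if n ∈ A then (1 : ℕ) else 0)) =
      fun n => Part.some ((X n).toNat) := by
    funext n
    rw [← congrFun hchi n]
  have hnc : ¬ ComputablePred (fun n : ℕ => n ∈ A) := by
    intro h
    apply Pool.Agent.R554.not_computable_of_generic hX
    obtain ⟨f, hf, hfe⟩ := ComputablePred.computable_iff.1 h
    refine hf.of_eq fun n => ?_
    have h1 : (n ∈ A) = (f n = true) := congrFun hfe n
    have h2 : (n ∈ A) = (X n = true) := propext (hA n)
    rw [h2] at h1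
    exact (Bool.eq_iff_iff.2 (iff_of_eq h1)).symm
  have hle : TuringReducible (fun n : ℕ => Part.some (if n ∈ A then (1 : ℕ) else 0))
        (fun n : ℕ => Part.some
          (if ((Denumerable.ofNat Nat.Partrec.Code n).eval n).Dom then (1 : ℕ) else 0)) := by
    rw [hchi']
    exact Pool.Agent.Helper743.TR_iff.1
      (Pool.Agent.Helper743.TR.trans Pool.Agent.R554.GS_TR_K Pool.Agent.R554.K_TR_Kd)
  obtain ⟨G, hG, ⟨N, hN, hNA⟩, -, hchrom, hno⟩ := hall A hnc hle
  -- the adjacency relation as a computable Boolean function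
  obtain ⟨f, hf, hfe⟩ := ComputablePred.computable_iff.1 hG
  have hadj : ∀ x y, f (x, y) = true ↔ G.Adj x y := fun x y =>
    (iff_of_eq (congrFun hfe (x, y))).symm
  rw [hchi'] at hNA
  have hlist : ∀ (l : List ℕ) (y : ℕ), y ∈ l → y ≤ Encodable.encode l := by
    intro l
    induction l with
    | nil => intro y hy; exact absurd hy (by simp)
    | cons a l ih =>
      intro y hy
      rw [Encodable.encode_list_cons]
      rcases List.mem_cons.1 hy with rfl | hy
      · exact (Nat.left_le_pair _ _).trans (Nat.le_succ _)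
      · exact (ih y hy).trans ((Nat.right_le_pair _ _).trans (Nat.le_succ _))
  have hmem : ∀ (s : Finset ℕ) (y : ℕ), y ∈ s → y ≤ Encodable.encode s := by
    intro s y hy
    have h1 : Encodable.encode s = encodeMultiset s.val := rfl
    rw [h1]
    unfold encodeMultiset
    apply hlist
    rw [Multiset.mem_sort]
    exact hy
  obtain ⟨h, hh, hb⟩ := Pool.Agent.R554.computable_bound hX (fun x y => f (x, y)) hf.to₂
    (fun x => Encodable.encode (N x)) (Pool.Agent.Helper743.TR_iff.2 hNA)
    (fun x y hxy => hmem _ _ ((hN x y).1 ((hadj x y).1 hxy)))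
  have hcol : G.Colorable 2 := by
    have : G.chromaticNumber ≤ 2 := le_of_eq hchrom
    exact SimpleGraph.chromaticNumber_le_iff_colorable.1 this
  obtain ⟨C⟩ := hcol
  obtain ⟨c, hc, hc4, hcp⟩ := Pool.Agent.R554.four_colouring (fun x y => f (x, y)) hf.to₂
    (fun x y => Bool.eq_iff_iff.2 (by rw [hadj, hadj]; exact G.adj_comm x y)) h hh hb
    (fun x => decide (C x = 0)) (fun x y hxy heq => by
      have h1 := C.valid ((hadj x y).1 hxy)
      have h2 : (C x = 0 ↔ C y = 0) := by simpa using heq
      have h3 : ∀ a b : Fin 2, (a = 0 ↔ b = 0) → a = b := by decide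
      exact h1 (h3 _ _ h2))
  obtain ⟨x, y, hxy, hcxy⟩ := hno 4 c hc hc4
  exact hcp x y ((hadj x y).2 hxy) hcxy

end Pool.Agent.S14568
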