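-- Positive numberings versus Friedberg numberings at level 2 of the Ershov hierarchy.
import Pool.Statements.S14612

set_option autoImplicit false
open Pool Pool.MP_3c695a_lc

namespace Pool.Agent.S14612

open Nat.Partrec (Code)

/-- the two events attached to `e` are searched by these computable tests: `mt e s` checks whether
two different slots have been enumerated with `3 e` in the first c.e. set. -/
def mt (e s : ℕ) : Bool :=
  (Code.evaln s.unpair.1 (Denumerable.ofNat Code e.unpair.1)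
      (Nat.pair s.unpair.2.unpair.1 (3 * e))).isSome &&
    ((Code.evaln s.unpair.1 (Denumerable.ofNat Code e.unpair.1)
      (Nat.pair s.unpair.2.unpair.2 (3 * e))).isSome &&
    !(decide (s.unpair.2.unpair.1 = s.unpair.2.unpair.2)))

/-- `dt e s` checks whether some slot has been enumerated with `3 e` in the second c.e. set. -/
def dt (e s : ℕ) : Bool :=
  (Code.evaln s.unpair.1 (Denumerable.ofNat Code e.unpair.2)
      (Nat.pair s.unpair.2 (3 * e))).isSome

/-- merge event -/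
def M (e : ℕ) : Prop := ∃ s, mt e s = true
/-- drop event -/
def D (e : ℕ) : Prop := ∃ s, dt e s = true

/-- the positive numbering -/
def nu (k : ℕ) : Set ℕ :=
  {x | (x / 3 = k / 2 ∧ (x % 3 = 0 ∨ x % 3 = 1 + k % 2 ∨ M (k / 2))) ∨ (x % 3 = 0 ∧ D (x / 3))}

theorem re_ex {α : Type*} [Primcodable α] {f : α → ℕ → Bool} (hf : Computable₂ f) :
    REPred fun a => ∃ s, f a s = true := by
  have h2 : Partrec fun a => Nat.rfind (fun s => Part.some (f a s)) :=
    Partrec.rfind (Computable.partrec hf)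
  refine h2.dom_re.of_eq fun a => ?_
  refine Nat.rfind_dom.trans ?_
  constructor
  · rintro ⟨s, h3, -⟩
    exact ⟨s, (Part.mem_some_iff.1 h3).symm⟩
  · rintro ⟨s, h3⟩
    exact ⟨s, Part.mem_some_iff.2 h3.symm, fun _ => trivial⟩

section prim
variable {α : Type*} [Primcodable α]

theorem p_un1 {f : α → ℕ} (h : Primrec f) : Primrec fun a => (f a).unpair.1 :=
  Primrec.fst.comp (Primrec.unpair.comp h)
theorem p_un2 {f : α → ℕ} (h : Primrec f) : Primrec fun a => (f a).unpair.2 :=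
  Primrec.snd.comp (Primrec.unpair.comp h)

theorem p_ev {f g h : α → ℕ} (hf : Primrec f) (hg : Primrec g) (hh : Primrec h) :
    Primrec fun a => (Code.evaln (f a) (Denumerable.ofNat Code (g a)) (h a)).isSome :=
  Primrec.option_isSome.comp (Code.primrec_evaln.comp
    (Primrec.pair (Primrec.pair hf ((Primrec.ofNat Code).comp hg)) hh))

theorem p_mt {f g : α → ℕ} (hf : Primrec f) (hg : Primrec g) : Primrec fun a => mt (f a) (g a) := by
  unfold mt
  have h3 : Primrec fun a => 3 * f a := Primrec.nat_mul.comp (Primrec.const 3) hf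
  refine Primrec.and.comp (p_ev (p_un1 hg) (p_un1 hf)
    (Primrec₂.natPair.comp (p_un1 (p_un2 hg)) h3)) (Primrec.and.comp (p_ev (p_un1 hg) (p_un1 hf)
    (Primrec₂.natPair.comp (p_un2 (p_un2 hg)) h3)) (Primrec.not.comp ?_))
  exact (Primrec.eq.comp (p_un1 (p_un2 hg)) (p_un2 (p_un2 hg))).decide

theorem p_dt {f g : α → ℕ} (hf : Primrec f) (hg : Primrec g) : Primrec fun a => dt (f a) (g a) := by
  unfold dt
  have h3 : Primrec fun a => 3 * f a := Primrec.nat_mul.comp (Primrec.const 3) hf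
  exact p_ev (p_un1 hg) (p_un2 hf) (Primrec₂.natPair.comp (p_un2 hg) h3)

end prim

theorem nu_re : REPred fun p : ℕ × ℕ => p.2 ∈ nu p.1 := by
  have h : Computable₂ fun (p : ℕ × ℕ) (s : ℕ) =>
      ((decide (p.2 / 3 = p.1 / 2) && (decide (p.2 % 3 = 0) || (decide (p.2 % 3 = 1 + p.1 % 2) ||
        mt (p.1 / 2) s))) || (decide (p.2 % 3 = 0) && dt (p.2 / 3) s)) := by
    have hx : Primrec fun q : (ℕ × ℕ) × ℕ => q.1.2 := Primrec.snd.comp Primrec.fst
    have hk : Primrec fun q : (ℕ × ℕ) × ℕ => q.1.1 := Primrec.fst.comp Primrec.fst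
    have hx3 : Primrec fun q : (ℕ × ℕ) × ℕ => q.1.2 / 3 :=
      Primrec.nat_div.comp hx (Primrec.const 3)
    have hxm : Primrec fun q : (ℕ × ℕ) × ℕ => q.1.2 % 3 :=
      Primrec.nat_mod.comp hx (Primrec.const 3)
    have hk2 : Primrec fun q : (ℕ × ℕ) × ℕ => q.1.1 / 2 :=
      Primrec.nat_div.comp hk (Primrec.const 2)
    have hkm : Primrec fun q : (ℕ × ℕ) × ℕ => 1 + q.1.1 % 2 :=
      Primrec.nat_add.comp (Primrec.const 1) (Primrec.nat_mod.comp hk (Primrec.const 2))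
    refine (Primrec.or.comp (Primrec.and.comp (Primrec.eq.comp hx3 hk2).decide
      (Primrec.or.comp (Primrec.eq.comp hxm (Primrec.const 0)).decide
        (Primrec.or.comp (Primrec.eq.comp hxm hkm).decide (p_mt hk2 Primrec.snd))))
      (Primrec.and.comp (Primrec.eq.comp hxm (Primrec.const 0)).decide
        (p_dt hx3 Primrec.snd))).to_comp
  refine (re_ex h).of_eq fun p => ?_
  simp only [nu, M, D, Set.mem_ofPred_eq, Bool.or_eq_true, Bool.and_eq_true, decide_eq_true_eq]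
  constructor
  · rintro ⟨s, ⟨h1, h2 | h2 | h2⟩ | ⟨h1, h2⟩⟩
    · exact Or.inl ⟨h1, Or.inl h2⟩
    · exact Or.inl ⟨h1, Or.inr (Or.inl h2)⟩
    · exact Or.inl ⟨h1, Or.inr (Or.inr ⟨s, h2⟩)⟩
    · exact Or.inr ⟨h1, s, h2⟩
  · rintro (⟨h1, h2 | h2 | ⟨s, h2⟩⟩ | ⟨h1, s, h2⟩)
    · exact ⟨0, Or.inl ⟨h1, Or.inl h2⟩⟩
    · exact ⟨0, Or.inl ⟨h1, Or.inr (Or.inl h2)⟩⟩
    · exact ⟨s, Or.inl ⟨h1, Or.inr (Or.inr h2)⟩⟩
    · exact ⟨s, Or.inr ⟨h1, h2⟩⟩

theorem nu_eq_iff (k l : ℕ) : nu k = nu l ↔ k = l ∨ (k / 2 = l / 2 ∧ M (k / 2)) := by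
  constructor
  · intro h
    have h1 : 3 * (k / 2) + 1 + k % 2 ∈ nu l := by
      rw [← h]
      refine Or.inl ⟨by omega, Or.inr (Or.inl (by omega))⟩
    rcases h1 with ⟨h1, h2 | h2 | h2⟩ | ⟨h1, -⟩
    · omega
    · left; omega
    · right
      refine ⟨by omega, ?_⟩
      have : k / 2 = l / 2 := by omega
      rw [this]; exact h2
    · omega
  · rintro (rfl | ⟨h1, h2⟩)
    · rfl
    · ext x
      simp only [nu, Set.mem_ofPred_eq, ← h1, h2, or_true, and_true]

theorem nu_pos : REPred fun p : ℕ × ℕ => nu p.1 = nu p.2 := by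
  have h : Computable₂ fun (p : ℕ × ℕ) (s : ℕ) =>
      (decide (p.1 = p.2) || (decide (p.1 / 2 = p.2 / 2) && mt (p.1 / 2) s)) := by
    have hx : Primrec fun q : (ℕ × ℕ) × ℕ => q.1.2 := Primrec.snd.comp Primrec.fst
    have hk : Primrec fun q : (ℕ × ℕ) × ℕ => q.1.1 := Primrec.fst.comp Primrec.fst
    have hx2 : Primrec fun q : (ℕ × ℕ) × ℕ => q.1.2 / 2 :=
      Primrec.nat_div.comp hx (Primrec.const 2)
    have hk2 : Primrec fun q : (ℕ × ℕ) × ℕ => q.1.1 / 2 :=
      Primrec.nat_div.comp hk (Primrec.const 2)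
    exact (Primrec.or.comp (Primrec.eq.comp hk hx).decide
      (Primrec.and.comp (Primrec.eq.comp hk2 hx2).decide (p_mt hk2 Primrec.snd))).to_comp
  refine (re_ex h).of_eq fun p => ?_
  rw [nu_eq_iff]
  simp only [M, Bool.or_eq_true, Bool.and_eq_true, decide_eq_true_eq]
  constructor
  · rintro ⟨s, h1 | ⟨h1, h2⟩⟩
    · exact Or.inl h1
    · exact Or.inr ⟨h1, s, h2⟩
  · rintro (h1 | ⟨h1, s, h2⟩)
    · exact ⟨0, Or.inl h1⟩
    · exact ⟨s, Or.inr ⟨h1, h2⟩⟩

/-- an index of a c.e. relation -/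
theorem exists_index {P : ℕ × ℕ → Prop} (hP : REPred P) :
    ∃ c : ℕ, ∀ j x, P (j, x) ↔ ∃ t, (Code.evaln t (Denumerable.ofNat Code c)
      (Nat.pair j x)).isSome = true := by
  have h1 : Partrec fun w : ℕ => ((Part.assert (P (Nat.unpair w))
      fun _ => Part.some ()).map fun _ => (0 : ℕ)) :=
    (Partrec.comp hP Computable.unpair).map (Computable.const 0).to₂
  obtain ⟨c, hc⟩ := Code.exists_code.1 (Partrec.nat_iff.1 h1)
  refine ⟨Encodable.encode c, fun j x => ?_⟩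
  rw [Denumerable.ofNat_encode]
  have h2 : (Code.eval c (Nat.pair j x)).Dom ↔ P (j, x) := by
    rw [hc]
    constructor
    · intro h3
      have h4 : P (Nat.unpair (Nat.pair j x)) := h3.1
      rwa [Nat.unpair_pair] at h4
    · intro h3
      have h4 : P (Nat.unpair (Nat.pair j x)) := by rwa [Nat.unpair_pair]
      exact ⟨h4, trivial⟩
  rw [← h2]
  constructor
  · intro h
    obtain ⟨t, ht⟩ := Code.evaln_complete.1 (Part.get_mem h)
    exact ⟨t, by rw [Option.mem_def.1 ht]; rfl⟩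
  · rintro ⟨t, ht⟩
    obtain ⟨y, hy⟩ := Option.isSome_iff_exists.1 ht
    exact Part.dom_iff_mem.2 ⟨y, Code.evaln_sound hy⟩

theorem evs_mono {t t' c n : ℕ} (h : t ≤ t')
    (h1 : (Code.evaln t (Denumerable.ofNat Code c) n).isSome = true) :
    (Code.evaln t' (Denumerable.ofNat Code c) n).isSome = true := by
  obtain ⟨y, hy⟩ := Option.isSome_iff_exists.1 h1
  rw [Option.mem_def.1 (Code.evaln_mono h hy)]
  rfl

/-- no injective numbering of the same family at level 2 -/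
theorem no_injective {μ : ℕ → Set ℕ} (hr : Set.range μ = Set.range nu)
    (hinj : Function.Injective μ) {P Q : ℕ × ℕ → Prop} (hP : REPred P) (hQ : REPred Q)
    (hμ : ∀ p : ℕ × ℕ, p.2 ∈ μ p.1 ↔ (P p ∧ ¬ Q p)) : False := by
  obtain ⟨a, ha⟩ := exists_index hP
  obtain ⟨b, hb⟩ := exists_index hQ
  set e := Nat.pair a b with he
  have h3e : 3 * e / 3 = e := by omega
  have h3m : 3 * e % 3 = 0 := by omega
  by_cases hD : D e
  · -- some slot has dropped `3 e`, but all sets contain it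
    obtain ⟨s, hs⟩ := hD
    have h1 : Q (s.unpair.2, 3 * e) := by
      rw [hb]
      refine ⟨s.unpair.1, ?_⟩
      have := hs
      unfold dt at this
      rw [he, Nat.unpair_pair, ← he] at this
      exact this
    have h2 : μ s.unpair.2 ∈ Set.range nu := by rw [← hr]; exact ⟨_, rfl⟩
    obtain ⟨k, hk⟩ := h2
    have h3 : 3 * e ∈ nu k := Or.inr ⟨h3m, by rw [h3e]; exact ⟨s, hs⟩⟩
    rw [hk] at h3
    exact ((hμ (s.unpair.2, 3 * e)).1 h3).2 h1
  · -- nothing is dropped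
    have h1 : ∀ j, 3 * e ∈ μ j ↔ P (j, 3 * e) := by
      intro j
      refine ((hμ (j, 3 * e)).trans ⟨fun h => h.1, fun h => ⟨h, fun h2 => hD ?_⟩⟩)
      obtain ⟨t, ht⟩ := (hb _ _).1 h2
      refine ⟨Nat.pair t j, ?_⟩
      unfold dt
      rw [he, Nat.unpair_pair, Nat.unpair_pair, ← he]
      exact ht
    have h2 : ∀ k, 3 * e ∈ nu k → k / 2 = e := by
      rintro k (⟨h, -⟩ | ⟨-, h⟩)
      · omega
      · rw [h3e] at h; exact absurd h hD
    by_cases hM : M e
    · obtain ⟨s, hs⟩ := hM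
      have hM' : M e := ⟨s, hs⟩
      unfold mt at hs
      rw [he, Nat.unpair_pair, ← he] at hs
      simp only [Bool.and_eq_true, Bool.not_eq_true', decide_eq_false_iff_not] at hs
      obtain ⟨hs1, hs2, hs3⟩ := hs
      have q1 : 3 * e ∈ μ s.unpair.2.unpair.1 := (h1 _).2 ((ha _ _).2 ⟨_, hs1⟩)
      have q2 : 3 * e ∈ μ s.unpair.2.unpair.2 := (h1 _).2 ((ha _ _).2 ⟨_, hs2⟩)
      obtain ⟨k, hk⟩ : μ s.unpair.2.unpair.1 ∈ Set.range nu := by rw [← hr]; exact ⟨_, rfl⟩
      obtain ⟨l, hl⟩ : μ s.unpair.2.unpair.2 ∈ Set.range nu := by rw [← hr]; exact ⟨_, rfl⟩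
      rw [← hk] at q1
      rw [← hl] at q2
      have e1 := h2 k q1
      have e2 := h2 l q2
      refine hs3 (hinj ?_)
      rw [← hk, ← hl, nu_eq_iff]
      right
      exact ⟨by omega, by rw [e1]; exact hM'⟩
    · obtain ⟨j0, hj0⟩ : nu (2 * e) ∈ Set.range μ := by rw [hr]; exact ⟨_, rfl⟩
      obtain ⟨j1, hj1⟩ : nu (2 * e + 1) ∈ Set.range μ := by rw [hr]; exact ⟨_, rfl⟩
      have hne : j0 ≠ j1 := by
        rintro rfl
        have h3 : nu (2 * e) = nu (2 * e + 1) := hj0.symm.trans hj1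
        rw [nu_eq_iff] at h3
        rcases h3 with h3 | ⟨-, h3⟩
        · omega
        · have : 2 * e / 2 = e := by omega
          rw [this] at h3
          exact hM h3
      have q0 : 3 * e ∈ μ j0 := by
        rw [hj0]
        exact Or.inl ⟨by omega, Or.inl h3m⟩
      have q1 : 3 * e ∈ μ j1 := by
        rw [hj1]
        exact Or.inl ⟨by omega, Or.inl h3m⟩
      obtain ⟨t0, ht0⟩ := (ha _ _).1 ((h1 _).1 q0)
      obtain ⟨t1, ht1⟩ := (ha _ _).1 ((h1 _).1 q1)
      refine hM ⟨Nat.pair (max t0 t1) (Nat.pair j0 j1), ?_⟩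
      unfold mt
      simp only [he, Nat.unpair_pair, Bool.and_eq_true, Bool.not_eq_true',
        decide_eq_false_iff_not]
      rw [← he]
      exact ⟨evs_mono (le_max_left _ _) ht0, evs_mono (le_max_right _ _) ht1, hne⟩

theorem card_two {R : ℕ → ℕ × ℕ → Prop}
    (hR : ∀ i j : ℕ, ∀ p : ℕ × ℕ, i ≤ j → R j p → R i p) (p : ℕ × ℕ) :
    Odd (Nat.card {i : Fin (0 + 2) // R i.val p}) ↔ R 0 p ∧ ¬ R 1 p := by
  classical
  have h1 : Nat.card {i : Fin (0 + 2) // R i.val p} =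
      (if R 0 p then 1 else 0) + (if R 1 p then 1 else 0) := by
    rw [Nat.card_eq_fintype_card, Fintype.card_subtype]
    rw [Finset.card_filter]
    exact Fin.sum_univ_two _
  rw [h1]
  by_cases h2 : R 1 p
  · have h3 : R 0 p := hR 0 1 p (by omega) h2
    simp [h2, h3]
  · by_cases h3 : R 0 p
    · simp [h2, h3]
    · simp [h2, h3]

/-- The negation of the preceding statement: For every n, every infinite family of sets of naturals with a positive numbering whose membership relation is (n+2)-c.e. also has an injective numbering whose membership relation is (n+2)-c.e. -/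
theorem result :
    ¬ (∀ n : ℕ, ∀ 𝒜 : Set (Set ℕ), 𝒜.Infinite →
    (∃ ν : ℕ → Set ℕ, Set.range ν = 𝒜 ∧
      (∃ R : ℕ → ℕ × ℕ → Prop, (∀ i, REPred (R i)) ∧
        (∀ i j : ℕ, ∀ p : ℕ × ℕ, i ≤ j → R j p → R i p) ∧
        ∀ p : ℕ × ℕ, (p.2 ∈ ν p.1 ↔ Odd (Nat.card {i : Fin (n + 2) // R i.val p}))) ∧
      REPred (fun p : ℕ × ℕ => ν p.1 = ν p.2)) →
    ∃ μ : ℕ → Set ℕ, Set.range μ = 𝒜 ∧ Function.Injective μ ∧
      (∃ R : ℕ → ℕ × ℕ → Prop, (∀ i, REPred (R i)) ∧
        (∀ i j : ℕ, ∀ p : ℕ × ℕ, i ≤ j → R j p → R i p) ∧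
        ∀ p : ℕ × ℕ, (p.2 ∈ μ p.1 ↔ Odd (Nat.card {i : Fin (n + 2) // R i.val p})))) := by
  intro hall
  have hinf : (Set.range nu).Infinite := by
    have h1 : Set.InjOn (fun e => nu (2 * e)) Set.univ := by
      intro e _ e' _ h
      have h2 : nu (2 * e) = nu (2 * e') := h
      rw [nu_eq_iff] at h2
      omega
    have h2 : ((fun e => nu (2 * e)) '' Set.univ).Infinite := Set.infinite_univ.image h1
    refine h2.mono ?_
    rintro _ ⟨e, -, rfl⟩
    exact ⟨2 * e, rfl⟩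
  have hre : ∀ i : ℕ, REPred fun p : ℕ × ℕ => i = 0 ∧ p.2 ∈ nu p.1 := by
    intro i
    rcases Nat.eq_zero_or_pos i with rfl | hi
    · exact nu_re.of_eq fun p => ⟨fun h => ⟨rfl, h⟩, fun h => h.2⟩
    · have h0 : REPred fun _ : ℕ × ℕ => False :=
        (re_ex (f := fun (_ : ℕ × ℕ) (_ : ℕ) => false) (Computable.const false).to₂).of_eq
          fun p => by simp
      exact h0.of_eq fun p => ⟨False.elim, fun h => by have := h.1; omega⟩
  have hdec : ∀ i j : ℕ, ∀ p : ℕ × ℕ, i ≤ j → (j = 0 ∧ p.2 ∈ nu p.1) →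
      (i = 0 ∧ p.2 ∈ nu p.1) := fun i j p hij h => ⟨by have := h.1; omega, h.2⟩
  have hodd : ∀ p : ℕ × ℕ, (p.2 ∈ nu p.1 ↔
      Odd (Nat.card {i : Fin (0 + 2) // i.val = 0 ∧ p.2 ∈ nu p.1})) := by
    intro p
    rw [card_two (R := fun i p => i = 0 ∧ p.2 ∈ nu p.1) hdec p]
    constructor
    · intro h
      exact ⟨⟨rfl, h⟩, fun h' => absurd h'.1 one_ne_zero⟩
    · intro h
      exact h.1.2
  obtain ⟨μ, h1, h2, R, h3, h4, h5⟩ := hall 0 (Set.range nu) hinf
    ⟨nu, rfl, ⟨fun i p => i = 0 ∧ p.2 ∈ nu p.1, hre, hdec, hodd⟩, nu_pos⟩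
  exact no_injective h1 h2 (h3 0) (h3 1) fun p => (h5 p).trans (card_two h4 p)

end Pool.Agent.S14612
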