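import Pool.Statements.S14615
import Pool.Agent.R554.CE.Code
import Pool.Agent.R554.CE.TorFree
import Pool.Agent.R825.IsoRE2
import Pool.Agent.R662.CE.Mach

set_option autoImplicit false
open Pool Pool.MP_3d45c4_lc

namespace Pool.Agent.S14615

/-- Isomorphism of finitely presented groups, as a relation on codes of finite presentations, is computably enumerable, and every c.e. equivalence relation on ℕ computably reduces to it. -/
theorem result :
    ∀ E : ℕ × List (List (ℕ × Bool)) → ℕ × List (List (ℕ × Bool)) → Prop,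
      (∀ a b, E a b ↔ Nonempty
        (PresentedGroup {g : FreeGroup (Fin a.1) | ∃ w ∈ a.2, g = FreeGroup.mk
            (w.filterMap (fun q => if h : q.1 < a.1 then some ((⟨q.1, h⟩ : Fin a.1), q.2) else none))}
          ≃* PresentedGroup {g : FreeGroup (Fin b.1) | ∃ w ∈ b.2, g = FreeGroup.mk
            (w.filterMap (fun q => if h : q.1 < b.1 then some ((⟨q.1, h⟩ : Fin b.1), q.2) else none))})) →
      REPred (fun p : (ℕ × List (List (ℕ × Bool))) × (ℕ × List (List (ℕ × Bool))) => E p.1 p.2) ∧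
      ∀ R : ℕ → ℕ → Prop, Equivalence R → REPred (fun p : ℕ × ℕ => R p.1 p.2) →
        ∃ f : ℕ → ℕ × List (List (ℕ × Bool)), Computable f ∧ ∀ x y, R x y ↔ E (f x) (f y) := by
  intro E hE
  refine ⟨?_, ?_⟩
  · exact Pool.Agent.R554.CE.iso_re.of_eq (fun p => (hE p.1 p.2).symm)
  · intro R hR hre
    obtain ⟨P, ι, hP, hι, D, p0, N, hN, hRN⟩ := Pool.Agent.R554.CE.exists_rules R hR hre
    obtain ⟨f, hf, hfG⟩ := Pool.Agent.R554.CE.exists_code D p0 N hN
    refine ⟨f, hf, fun x y => ?_⟩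
    rw [hRN, Pool.Agent.R554.CE.main_iff D (Pool.Agent.R554.CE.UU_tf D) p0 (N x) (N y), hE]
    obtain ⟨e1⟩ := hfG x
    obtain ⟨e2⟩ := hfG y
    exact ⟨fun ⟨θ⟩ => ⟨(e1.trans θ).trans e2.symm⟩, fun ⟨θ⟩ => ⟨(e1.symm.trans θ).trans e2⟩⟩

end Pool.Agent.S14615
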