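import Pool.Statements.S14780
import Pool.Agent.R200.BrzMain
import Pool.Agent.TH54.BU.Iter
import Pool.Agent.TH54.BU.Inf

set_option autoImplicit false
open Pool Pool.MP_604f1e_lc

namespace Pool.Agent.S14780

/-- The negation of the preceding statement: For every finite alphabet, all positive n and m, and every word w, the set of words congruent to w under the monoid congruence generated by x^n ~ x^(n+m) is accepted by some finite automaton. -/
theorem result :
    ¬ (∀ (A : Type) [Fintype A] (n m : ℕ), 0 < n → 0 < m →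
      ∀ w : FreeMonoid A,
        ∃ (σ : Type) (_ : Fintype σ) (M : DFA A σ),
          M.accepts =
            {v : List A |
              conGen (fun a b : FreeMonoid A => ∃ x : FreeMonoid A, a = x ^ n ∧ b = x ^ (n + m))
                (FreeMonoid.ofList v) w}) := by
  intro h
  obtain ⟨p0, hp0⟩ := Pool.Agent.TH54.BU.burnside
  obtain ⟨p, hp1, hp⟩ := Nat.exists_infinite_primes p0
  have hinf := Pool.Agent.TH54.BU.Burn.infinite hp (hp0 p hp hp1)
  have hG : ∀ x : FreeGroup (Fin 2) ⧸ Pool.Agent.TH54.BU.powSub (FreeGroup (Fin 2)) p,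
      x ^ p = 1 := by
    intro x
    obtain ⟨g, rfl⟩ := QuotientGroup.mk_surjective x
    rw [← QuotientGroup.mk_pow, QuotientGroup.eq_one_iff]
    exact Subgroup.subset_normalClosure ⟨g, rfl⟩
  refine Pool.Agent.R200.Brz.not_regular hp.pos
    (FreeGroup (Fin 2) ⧸ Pool.Agent.TH54.BU.powSub (FreeGroup (Fin 2)) p) hG
    (fun i => (FreeGroup.of i : FreeGroup (Fin 2))) ?_
    (h (Fin 2) 1 p one_pos hp.pos (Pool.Agent.R200.Brz.W p))
  intro H hH
  rw [eq_top_iff]
  intro x _
  obtain ⟨g, rfl⟩ := QuotientGroup.mk_surjective x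
  induction g using FreeGroup.induction_on with
  | C1 => exact H.one_mem
  | of i => exact hH i
  | inv_of i hi => exact H.inv_mem (hi trivial)
  | mul a b ha hb => exact H.mul_mem (ha trivial) (hb trivial)

end Pool.Agent.S14780
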