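import Pool.Statements.S14895

set_option autoImplicit false
open Pool Pool.MP_735cdd_lc

namespace Pool.Agent.S14895

open FirstOrder FirstOrder.Language

/-- the language of the statement -/
abbrev LL : FirstOrder.Language := FirstOrder.Language.mk (fun _ => Unit) (fun _ => Empty)

section

variable {G : Type} [Group G]

/-- `w m i z = x i * (x (i+1) * (... (x (i+m-1) * z^2)^2 ...)^2)^2` -/
def w (x : ℕ → G) (z : G) : ℕ → ℕ → G
  | 0, _ => z
  | m + 1, i => x i * (w x z m (i + 1) * w x z m (i + 1))

/-- the corresponding terms; the variable `Sum.inl (Sum.inr i)` stands for `x i`, and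
`Sum.inr 0` for `z` -/
def W : ℕ → ℕ → LL.Term ((Unit ⊕ ℕ) ⊕ Fin 1)
  | 0, _ => Term.var (Sum.inr 0)
  | m + 1, i => Term.func (l := 3) () ![Term.var (Sum.inl (Sum.inr i)), W m (i + 1), W m (i + 1)]

/-- the formulas `∃ z, c = w n 0 z` -/
def F (n : ℕ) : LL.Formula (Unit ⊕ ℕ) :=
  BoundedFormula.ex (BoundedFormula.equal (Term.var (Sum.inl (Sum.inl ()))) (W n 0))

variable [S : LL.Structure G]

theorem realize_W (hS : ∀ (n : ℕ) (f : LL.Functions n) (xs : Fin n → G),
      Structure.funMap f xs = (List.ofFn xs).prod) (x : ℕ → G) (c z : G) (m i : ℕ) :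
    (W m i).realize (Sum.elim (Sum.elim (fun _ => c) x) (fun _ => z)) = w x z m i := by
  induction m generalizing i with
  | zero => rfl
  | succ m ih =>
    rw [W, Term.realize_func, hS]
    simp [List.ofFn_succ, ih, w]

theorem realize_F (hS : ∀ (n : ℕ) (f : LL.Functions n) (xs : Fin n → G),
      Structure.funMap f xs = (List.ofFn xs).prod) (x : ℕ → G) (c : G) (n : ℕ) :
    (F n).Realize (Sum.elim (fun _ => c) x) ↔ ∃ z, c = w x z n 0 := by
  unfold F Formula.Realize
  rw [BoundedFormula.realize_ex]
  refine exists_congr fun z => ?_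
  have h := realize_W hS x c z n 0
  have e : (Fin.snoc default z : Fin 1 → G) = fun _ => z := by
    funext i
    have : i = Fin.last 0 := Fin.ext (by have := i.2; omega)
    subst this
    exact Fin.snoc_last _ _
  change (BoundedFormula.equal _ _).Realize _ (Fin.snoc default z) ↔ _
  rw [e]
  unfold BoundedFormula.Realize
  rw [h]
  rfl

omit [Group G] in
/-- formulas only depend on the variables which occur in them -/
theorem realize_congr (φ : LL.Formula ℕ) : ∃ n, ∀ a b : ℕ → G, (∀ i < n, a i = b i) →
    (φ.Realize a ↔ φ.Realize b) := by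
  classical
  refine ⟨φ.freeVarFinset.sup id + 1, fun a b h => ?_⟩
  have h1 : (φ.restrictFreeVar (id : φ.freeVarFinset → φ.freeVarFinset)).Realize
      (fun i => a i) default ↔ φ.Realize a :=
    BoundedFormula.realize_restrictFreeVar a (fun _ => rfl)
  have h2 : (φ.restrictFreeVar (id : φ.freeVarFinset → φ.freeVarFinset)).Realize
      (fun i => a i) default ↔ φ.Realize b :=
    BoundedFormula.realize_restrictFreeVar b (fun i => h i.1 (Nat.lt_succ_of_le
      (Finset.le_sup (f := id) i.2)))
  exact h1.symm.trans h2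

end

theorem map_w {G H : Type} [Group G] [Group H] (f : G →* H) (x : ℕ → G) (z : G) (m i : ℕ) :
    f (w x z m i) = w (fun j => f (x j)) (f z) m i := by
  induction m generalizing i with
  | zero => rfl
  | succ m ih => simp [w, ih]

theorem w_one {G : Type} [Group G] (x : ℕ → G) (z : G) (m i k : ℕ)
    (h : ∀ j, i ≤ j → j < i + m → x j = 1) :
    w x z (m + k) i = (w x z k (i + m)) ^ (2 ^ m) := by
  induction m generalizing i with
  | zero => simp
  | succ m ih =>
    have e : m + 1 + k = (m + k) + 1 := by ring
    rw [e, w, h i le_rfl (by omega), one_mul, ih (i + 1) (fun j h1 h2 => h j (by omega) (by omega)),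
      ← pow_two, ← pow_mul, pow_succ]
    congr 2
    ring

/-- the words `w` undo the substitution `x i ↦ x i * (x (i+1))⁻¹ ^ 2` -/
theorem w_sub {G : Type} [Group G] (x : ℕ → G) (m i : ℕ) :
    w (fun j => x j * ((x (j + 1))⁻¹ * (x (j + 1))⁻¹)) (x (i + m)) m i = x i := by
  induction m generalizing i with
  | zero => rfl
  | succ m ih =>
    have e : i + (m + 1) = (i + 1) + m := by ring
    rw [w, e, ih (i + 1)]
    group

/-- Every torsion-free group that is free in its own variety on an infinite basis fails ℵ1-homogeneity: some countable tuples a, b share a type, yet some element c has no d making (c,a) and (d,b) share a type. -/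
theorem result :
  ∀ (G : Type) [Group G],
    (∀ g : G, ∀ n : ℕ, 0 < n → g ^ n = 1 → g = 1) →
    (∃ X : Set G, X.Infinite ∧ Subgroup.closure X = ⊤ ∧
      ∀ f : X → G, ∃ φ : G →* G, ∀ x : X, φ x = f x) →
    ∀ [S : (FirstOrder.Language.mk (fun _ => Unit) (fun _ => Empty)).Structure G],
      (∀ (n : ℕ) (f : (FirstOrder.Language.mk (fun _ => Unit) (fun _ => Empty)).Functions n)
          (xs : Fin n → G),
        FirstOrder.Language.Structure.funMap f xs = (List.ofFn xs).prod) →
      ¬ ∀ a b : ℕ → G,
        (∀ φ : (FirstOrder.Language.mk (fun _ => Unit) (fun _ => Empty)).Formula ℕ,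
          φ.Realize a ↔ φ.Realize b) →
        ∀ c : G, ∃ d : G,
          ∀ ψ : (FirstOrder.Language.mk (fun _ => Unit) (fun _ => Empty)).Formula (Unit ⊕ ℕ),
            ψ.Realize (Sum.elim (fun _ => c) a) ↔ ψ.Realize (Sum.elim (fun _ => d) b) := by
  intro G _ htf ⟨X, hinf, hgen, hfree⟩ S hS hall
  classical
  -- the basis elements `x i`
  let e : ℕ ↪ X := hinf.natEmbedding
  let x : ℕ → G := fun i => (e i : G)
  have hx : Function.Injective x := Subtype.val_injective.comp e.injective
  -- endomorphisms are determined by their values on `X`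
  have hext : ∀ f g : G →* G, (∀ y ∈ X, f y = g y) → f = g := fun f g h =>
    MonoidHom.eq_of_eqOn_dense hgen h
  let a : ℕ → G := fun i => x i * ((x (i + 1))⁻¹ * (x (i + 1))⁻¹)
  -- the automorphism for the first `n` elements
  have haut : ∀ n : ℕ, ∃ β : G ≃* G, ∀ i < n, β (x i) = a i := by
    intro n
    obtain ⟨β, hβ⟩ := hfree (fun y => if h : ∃ i < n, e i = y then a h.choose else y)
    obtain ⟨γ, hγ⟩ := hfree (fun y => if h : ∃ i < n, e i = y then
      w x (x n) (n - h.choose) h.choose else y)
    have hβ1 : ∀ i < n, β (x i) = a i := by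
      intro i hi
      have h : ∃ j < n, e j = e i := ⟨i, hi, rfl⟩
      have := hβ (e i)
      rw [dif_pos h, e.injective h.choose_spec.2] at this
      exact this
    have hβ2 : ∀ y ∈ X, (∀ i < n, x i ≠ y) → β y = y := by
      intro y hy hn
      have h : ¬ ∃ j < n, e j = ⟨y, hy⟩ := by
        rintro ⟨j, hj, h⟩
        exact hn j hj (congrArg Subtype.val h)
      have := hβ ⟨y, hy⟩
      rwa [dif_neg h] at this
    have hγ1 : ∀ i < n, γ (x i) = w x (x n) (n - i) i := by
      intro i hi
      have h : ∃ j < n, e j = e i := ⟨i, hi, rfl⟩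
      have := hγ (e i)
      rw [dif_pos h, e.injective h.choose_spec.2] at this
      exact this
    have hγ2 : ∀ y ∈ X, (∀ i < n, x i ≠ y) → γ y = y := by
      intro y hy hn
      have h : ¬ ∃ j < n, e j = ⟨y, hy⟩ := by
        rintro ⟨j, hj, h⟩
        exact hn j hj (congrArg Subtype.val h)
      have := hγ ⟨y, hy⟩
      rwa [dif_neg h] at this
    have hβn : β (x n) = x n := hβ2 _ (e n).2 (fun i hi h => (hx h ▸ hi).ne rfl)
    have hγn : γ (x n) = x n := hγ2 _ (e n).2 (fun i hi h => (hx h ▸ hi).ne rfl)
    have hγ3 : ∀ i ≤ n, γ (x i) = w x (x n) (n - i) i := by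
      intro i hi
      rcases hi.lt_or_eq with h | h
      · exact hγ1 i h
      · subst h
        rw [hγn, Nat.sub_self]
        rfl
    have h1 : γ.comp β = MonoidHom.id G := by
      refine hext _ _ fun y hy => ?_
      by_cases hn : ∃ i < n, x i = y
      · obtain ⟨i, hi, rfl⟩ := hn
        rw [MonoidHom.comp_apply, hβ1 i hi, MonoidHom.id_apply]
        simp only [a, map_mul, map_inv]
        rw [hγ3 i hi.le, hγ3 (i + 1) hi]
        obtain ⟨k, hk⟩ : ∃ k, n - i = k + 1 := ⟨n - i - 1, by omega⟩
        have hk' : n - (i + 1) = k := by omega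
        rw [hk, hk', w]
        group
      · push Not at hn
        rw [MonoidHom.comp_apply, hβ2 y hy hn, hγ2 y hy hn]
        rfl
    have h2 : β.comp γ = MonoidHom.id G := by
      refine hext _ _ fun y hy => ?_
      by_cases hn : ∃ i < n, x i = y
      · obtain ⟨i, hi, rfl⟩ := hn
        rw [MonoidHom.comp_apply, hγ1 i hi, MonoidHom.id_apply, map_w, hβn]
        have key : ∀ m i, i + m = n → w (fun j => β (x j)) (x n) m i = x i := by
          intro m
          induction m with
          | zero =>
            intro i hi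
            rw [← hi]
            rfl
          | succ m ih =>
            intro i hi
            rw [w, ih (i + 1) (by omega), hβ1 i (by omega)]
            simp only [a]
            group
        exact key (n - i) i (by omega)
      · push Not at hn
        rw [MonoidHom.comp_apply, hγ2 y hy hn, hβ2 y hy hn]
        rfl
    refine ⟨MulEquiv.ofBijective β ⟨Function.LeftInverse.injective (DFunLike.congr_fun h1),
      Function.RightInverse.surjective (DFunLike.congr_fun h2)⟩, fun i hi => hβ1 i hi⟩
  -- `a` and `x` have the same type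
  have htype : ∀ φ : LL.Formula ℕ, φ.Realize a ↔ φ.Realize x := by
    intro φ
    obtain ⟨n, hn⟩ := realize_congr (G := G) φ
    obtain ⟨β, hβ⟩ := haut n
    let β' : G ≃[LL] G :=
      { toEquiv := β.toEquiv
        map_fun' := by
          intro k f xs
          rw [hS, hS]
          change β _ = _
          rw [map_list_prod, List.map_ofFn]
          rfl
        map_rel' := by
          intro k r
          exact r.elim }
    have h1 : φ.Realize ((β' : G → G) ∘ x) ↔ φ.Realize x := StrongHomClass.realize_formula β' φ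
    rw [← h1]
    refine hn _ _ fun i hi => ?_
    exact (hβ i hi).symm
  obtain ⟨d, hd⟩ := hall a x htype (x 0)
  -- `d` is `w n 0 z` for all `n`
  have hdn : ∀ n, ∃ z, d = w x z n 0 := by
    intro n
    have h1 := (realize_F hS a (x 0) n).2 ⟨x n, ?_⟩
    · exact (realize_F hS x d n).1 ((hd _).1 h1)
    · have := w_sub x n 0
      rw [zero_add] at this
      exact this.symm
  -- `d` lies in a finitely generated subgroup
  obtain ⟨T, hT, hdT⟩ : ∃ T : Finset G, (T : Set G) ⊆ X ∧ d ∈ Subgroup.closure (T : Set G) := by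
    have hd1 : d ∈ Subgroup.closure X := hgen ▸ Subgroup.mem_top d
    clear hd hdn
    induction hd1 using Subgroup.closure_induction with
    | mem y hy => exact ⟨{y}, by simpa using hy, Subgroup.subset_closure (by simp)⟩
    | one => exact ⟨∅, by simp, one_mem _⟩
    | mul y z _ _ h1 h2 =>
      obtain ⟨T1, hT1, h1⟩ := h1
      obtain ⟨T2, hT2, h2⟩ := h2
      refine ⟨T1 ∪ T2, ?_, ?_⟩
      · rw [Finset.coe_union]
        exact Set.union_subset hT1 hT2
      · rw [Finset.coe_union]
        exact mul_mem (Subgroup.closure_mono Set.subset_union_left h1)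
          (Subgroup.closure_mono Set.subset_union_right h2)
    | inv y _ h1 =>
      obtain ⟨T1, hT1, h1⟩ := h1
      exact ⟨T1, hT1, inv_mem h1⟩
  -- choose a basis element outside of it
  obtain ⟨m, hm⟩ : ∃ m, x m ∉ T := by
    by_contra hc
    push Not at hc
    exact Set.infinite_of_injective_forall_mem hx (s := (T : Set G)) (fun i => hc i)
      T.finite_toSet
  -- the retraction onto the cyclic group generated by it
  obtain ⟨ρ, hρ⟩ := hfree (fun y => if (y : G) = x m then x m else 1)
  have hρm : ρ (x m) = x m := by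
    have := hρ (e m)
    rwa [if_pos rfl] at this
  have hρ1 : ∀ y ∈ X, y ≠ x m → ρ y = 1 := by
    intro y hy hn
    have := hρ ⟨y, hy⟩
    rwa [if_neg hn] at this
  have hρd : ρ d = 1 := by
    have h1 : Subgroup.closure (T : Set G) ≤ ρ.ker := by
      rw [Subgroup.closure_le]
      intro y hy
      refine hρ1 y (hT hy) ?_
      rintro rfl
      exact hm hy
    exact h1 hdT
  have hρr : ∀ g, ρ g ∈ Subgroup.zpowers (x m) := by
    intro g
    have h1 : (⊤ : Subgroup G) ≤ (Subgroup.zpowers (x m)).comap ρ := by
      rw [← hgen, Subgroup.closure_le]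
      intro y hy
      by_cases h : y = x m
      · subst h
        simp [hρm]
      · simp [hρ1 y hy h]
    exact h1 (Subgroup.mem_top g)
  obtain ⟨z, hz⟩ := hdn (m + 1)
  have h1 : ρ d = w (fun j => ρ (x j)) (ρ z) (m + 1) 0 := by rw [hz, map_w]
  rw [hρd, w_one _ _ m 0 1 (fun j _ h => hρ1 _ (e j).2 (fun h' => by
    have := hx h'; omega))] at h1
  have h2 := htf _ _ (pow_pos two_pos m) h1.symm
  obtain ⟨k, hk⟩ := Subgroup.mem_zpowers_iff.1 (hρr z)
  simp only [w, zero_add, ← hk] at h2
  change ρ (x m) * _ = 1 at h2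
  rw [hρm] at h2
  have h3 : (x m) ^ (1 + 2 * k) = 1 := by
    rw [← h2, zpow_add, zpow_one, two_mul, zpow_add]
  have h4 : (x m) ^ (1 + 2 * k).natAbs = 1 := by
    rcases Int.natAbs_eq (1 + 2 * k) with h | h
    · rw [← zpow_natCast, ← h, h3]
    · have h5 : (((1 + 2 * k).natAbs : ℕ) : ℤ) = -(1 + 2 * k) := by omega
      rw [← zpow_natCast, h5, zpow_neg, h3, inv_one]
  have h5 : x m = 1 := htf _ _ (by omega) h4
  -- but `1` is not in the basis
  obtain ⟨τ, hτ⟩ := hfree (fun _ => x (m + 1))
  have h6 := hτ (e m)
  change τ (x m) = x (m + 1) at h6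
  rw [h5, map_one] at h6
  have h7 := hx (h5.trans h6)
  omega

end Pool.Agent.S14895
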