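import Pool.Statements.S14999

set_option autoImplicit false
open Pool Pool.MP_8565d5_lc

namespace Pool.Agent.S14999

open Classical in
/-- the exponents of binary weight at most two, without those of the orbit of `3` -/
noncomputable def DD (t : ℕ) : Finset ℕ :=
  (Finset.range (2 ^ t)).filter fun d => d = 0 ∨ (∃ i, d = 2 ^ i) ∨
    ∃ i l, i + 1 < l ∧ ¬ (i = 0 ∧ l + 1 = t) ∧ d = 2 ^ i + 2 ^ l

theorem mem_DD {t d : ℕ} : d ∈ DD t ↔ d < 2 ^ t ∧ (d = 0 ∨ (∃ i, d = 2 ^ i) ∨
    ∃ i l, i + 1 < l ∧ ¬ (i = 0 ∧ l + 1 = t) ∧ d = 2 ^ i + 2 ^ l) := by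
  simp [DD]

theorem dsum_mul (i m : ℕ) (hm : 0 < m) : (Nat.digits 2 (2 ^ i * m)).sum = (Nat.digits 2 m).sum := by
  rw [Nat.digits_base_pow_mul (by norm_num) hm, List.sum_append]
  simp

theorem dsum_pow (i : ℕ) : (Nat.digits 2 (2 ^ i)).sum = 1 := by
  have := dsum_mul i 1 one_pos
  rw [mul_one] at this
  rw [this]
  simp

theorem dsum_two (i l : ℕ) (h : i < l) : (Nat.digits 2 (2 ^ i + 2 ^ l)).sum = 2 := by
  obtain ⟨n, rfl⟩ : ∃ n, l = i + n + 1 := ⟨l - i - 1, by omega⟩
  have h1 : 2 ^ i + 2 ^ (i + n + 1) = 2 ^ i * (1 + 2 * 2 ^ n) := by ring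
  rw [h1, dsum_mul _ _ (by positivity), Nat.digits_def' (by norm_num) (by positivity)]
  have h2 : (1 + 2 * 2 ^ n) % 2 = 1 := by omega
  have h3 : (1 + 2 * 2 ^ n) / 2 = 2 ^ n := by omega
  rw [h2, h3, List.sum_cons, dsum_pow]

theorem three_notMem (t : ℕ) : 3 ∉ DD t := by
  rw [mem_DD]
  rintro ⟨-, h | ⟨i, h⟩ | ⟨i, l, h1, -, h⟩⟩
  · omega
  · rcases i with _ | _ | i
    · simp at h
    · simp at h
    · have : 1 ≤ 2 ^ i := Nat.one_le_two_pow
      rw [pow_succ, pow_succ] at h
      omega
  · obtain ⟨n, rfl⟩ : ∃ n, l = i + n + 2 := ⟨l - i - 2, by omega⟩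
    have : 1 ≤ 2 ^ (i + n) := Nat.one_le_two_pow
    have h2 : 2 ^ (i + n + 2) = 2 ^ (i + n) * 4 := by ring
    have h3 : 3 = 2 ^ i + 2 ^ (i + n) * 4 := by rw [← h2]; exact h
    generalize 2 ^ (i + n) = a at *
    generalize 2 ^ i = b at *
    omega

theorem pow_lt_of {i t : ℕ} (h : 2 ^ i < 2 ^ t) : i < t :=
  (Nat.pow_lt_pow_iff_right (by norm_num)).1 h

/-- doubling modulo `2 ^ t - 1` -/
def dbl (t d : ℕ) : ℕ := (2 * d - 1) % (2 ^ t - 1) + 1

theorem dbl_mem {t d : ℕ} (ht : 3 ≤ t) (hd : d ∈ DD t) (h0 : d ≠ 0) : dbl t d ∈ DD t := by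
  have hT : 8 ≤ 2 ^ t := by
    calc 8 = 2 ^ 3 := by norm_num
      _ ≤ 2 ^ t := Nat.pow_le_pow_right (by norm_num) ht
  rw [mem_DD] at hd
  obtain ⟨hlt, h | ⟨i, h⟩ | ⟨i, l, h1, h2, h⟩⟩ := hd
  · exact absurd h h0
  · subst h
    have hit := pow_lt_of hlt
    unfold dbl
    by_cases h3 : i + 1 < t
    · have h4 : 2 ^ (i + 1) < 2 ^ t := Nat.pow_lt_pow_right (by norm_num) h3
      have h5 : 1 ≤ 2 ^ i := Nat.one_le_two_pow
      have h6 : (2 * 2 ^ i - 1) % (2 ^ t - 1) = 2 * 2 ^ i - 1 := by
        apply Nat.mod_eq_of_lt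
        rw [pow_succ] at h4
        omega
      rw [h6, mem_DD]
      have h7 : 2 * 2 ^ i - 1 + 1 = 2 ^ (i + 1) := by
        rw [pow_succ]
        omega
      rw [h7]
      exact ⟨h4, Or.inr (Or.inl ⟨i + 1, rfl⟩)⟩
    · have h4 : i + 1 = t := by omega
      have h5 : 2 * 2 ^ i = 2 ^ t := by rw [← h4, pow_succ]; ring
      rw [h5, Nat.mod_self, mem_DD]
      exact ⟨by omega, Or.inr (Or.inl ⟨0, by norm_num⟩)⟩
  · subst h
    have hlt' : l < t := pow_lt_of (lt_of_le_of_lt (Nat.le_add_left _ _) hlt)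
    have h5 : 1 ≤ 2 ^ i := Nat.one_le_two_pow
    unfold dbl
    by_cases h3 : l + 1 < t
    · have h4 : 2 ^ (i + 1) + 2 ^ (l + 1) < 2 ^ t := by
        have a1 : 2 ^ (i + 1) < 2 ^ (l + 1) := Nat.pow_lt_pow_right (by norm_num) (by omega)
        have a2 : 2 ^ (l + 1 + 1) ≤ 2 ^ t := Nat.pow_le_pow_right (by norm_num) h3
        rw [pow_succ 2 (l + 1)] at a2
        omega
      have h7 : 2 * (2 ^ i + 2 ^ l) = 2 ^ (i + 1) + 2 ^ (l + 1) := by ring
      have h6 : (2 * (2 ^ i + 2 ^ l) - 1) % (2 ^ t - 1) = 2 * (2 ^ i + 2 ^ l) - 1 := by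
        apply Nat.mod_eq_of_lt
        omega
      have h8 : 2 * (2 ^ i + 2 ^ l) - 1 + 1 = 2 ^ (i + 1) + 2 ^ (l + 1) := by omega
      rw [h6, h8, mem_DD]
      exact ⟨h4, Or.inr (Or.inr ⟨i + 1, l + 1, by omega, by omega, rfl⟩)⟩
    · have h4 : l + 1 = t := by omega
      have h7 : 2 * (2 ^ i + 2 ^ l) = 2 ^ (i + 1) + 2 ^ t := by rw [← h4]; ring
      have h8 : 2 ^ (i + 1) + 1 < 2 ^ t := by
        have a1 : 2 ^ (i + 1) < 2 ^ l := Nat.pow_lt_pow_right (by norm_num) (by omega)
        have a2 : 2 ^ t = 2 ^ l * 2 := by rw [← h4, pow_succ]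
        omega
      have h6 : (2 * (2 ^ i + 2 ^ l) - 1) % (2 ^ t - 1) = 2 ^ (i + 1) := by
        have a1 : 2 * (2 ^ i + 2 ^ l) - 1 = 2 ^ (i + 1) + (2 ^ t - 1) := by omega
        rw [a1, Nat.add_mod_right]
        apply Nat.mod_eq_of_lt
        omega
      rw [h6, mem_DD]
      refine ⟨h8, Or.inr (Or.inr ⟨0, i + 1, by omega, by omega, ?_⟩)⟩
      rw [pow_zero]
      ring

theorem testBit_two {i l : ℕ} (h : i < l) (j : ℕ) :
    (2 ^ i + 2 ^ l).testBit j = true ↔ j = i ∨ j = l := by
  have h1 : 2 ^ i + 2 ^ l = 2 ^ l * 1 ||| 2 ^ i := by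
    rw [← Nat.two_pow_add_eq_or_of_lt (Nat.pow_lt_pow_right (by norm_num) h)]
    ring
  rw [h1, mul_one, Nat.testBit_or, Nat.testBit_two_pow, Nat.testBit_two_pow]
  simp only [Bool.or_eq_true, decide_eq_true_eq]
  omega

theorem shadow {t d : ℕ} (hd : d ∈ DD t) (e : ℕ)
    (h : ∀ i : ℕ, e.testBit i = true → d.testBit i = true) : e ∈ DD t := by
  have hle : e ≤ d := by
    have : e &&& d = e := by
      apply Nat.eq_of_testBit_eq
      intro i
      rw [Nat.testBit_and]
      cases h1 : e.testBit i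
      · simp
      · simp [h i h1]
    rw [← this]
    exact Nat.and_le_right
  rw [mem_DD] at hd ⊢
  obtain ⟨hlt, hd⟩ := hd
  refine ⟨lt_of_le_of_lt hle hlt, ?_⟩
  obtain h1 | ⟨i, h1⟩ | ⟨i, l, h1, h2, h3⟩ := hd
  · left
    omega
  · subst h1
    by_cases h4 : e.testBit i = true
    · right; left
      refine ⟨i, Nat.eq_of_testBit_eq fun j => ?_⟩
      rw [Nat.testBit_two_pow]
      by_cases hj : i = j
      · subst hj; simp [h4]
      · have := h j
        rw [Nat.testBit_two_pow] at this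
        simp only [hj, decide_false] at this ⊢
        cases h5 : e.testBit j
        · rfl
        · exact absurd (this h5) (by simp)
    · left
      refine Nat.eq_of_testBit_eq fun j => ?_
      rw [Nat.zero_testBit]
      have := h j
      rw [Nat.testBit_two_pow] at this
      cases h5 : e.testBit j
      · rfl
      · have h6 := this h5
        simp only [decide_eq_true_eq] at h6
        subst h6
        exact absurd h5 h4
  · subst h3
    have hil : i < l := by omega
    have key : ∀ j, e.testBit j = true → j = i ∨ j = l := fun j hj =>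
      (testBit_two hil j).1 (h j hj)
    by_cases h4 : e.testBit i = true
    · by_cases h5 : e.testBit l = true
      · right; right
        refine ⟨i, l, h1, h2, Nat.eq_of_testBit_eq fun j => ?_⟩
        rw [Bool.eq_iff_iff, testBit_two hil]
        constructor
        · exact key j
        · rintro (rfl | rfl)
          · exact h4
          · exact h5
      · right; left
        refine ⟨i, Nat.eq_of_testBit_eq fun j => ?_⟩
        rw [Bool.eq_iff_iff, Nat.testBit_two_pow, decide_eq_true_eq]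
        constructor
        · intro hj
          rcases key j hj with h6 | h6
          · exact h6.symm
          · subst h6; exact absurd hj h5
        · rintro rfl
          exact h4
    · by_cases h5 : e.testBit l = true
      · right; left
        refine ⟨l, Nat.eq_of_testBit_eq fun j => ?_⟩
        rw [Bool.eq_iff_iff, Nat.testBit_two_pow, decide_eq_true_eq]
        constructor
        · intro hj
          rcases key j hj with h6 | h6
          · subst h6; exact absurd hj h4
          · exact h6.symm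
        · rintro rfl
          exact h5
      · left
        refine Nat.eq_of_testBit_eq fun j => ?_
        rw [Nat.zero_testBit]
        cases h6 : e.testBit j
        · rfl
        · rcases key j h6 with h7 | h7
          · subst h7; exact absurd h6 h4
          · subst h7; exact absurd h6 h5

section field

variable (t : ℕ)

/-- the functions `∑ c_d x ^ d`, `d ∈ DD t` -/
def Good (u : GaloisField 2 t → GaloisField 2 t) : Prop :=
  ∃ c : ℕ → GaloisField 2 t, ∀ x : GaloisField 2 t, u x = ∑ d ∈ DD t, c d * x ^ d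

variable {t}

theorem Good.add {u v : GaloisField 2 t → GaloisField 2 t} (hu : Good t u) (hv : Good t v) :
    Good t (fun x => u x + v x) := by
  obtain ⟨c, hc⟩ := hu
  obtain ⟨c', hc'⟩ := hv
  refine ⟨fun d => c d + c' d, fun x => ?_⟩
  show u x + v x = _
  rw [hc, hc', ← Finset.sum_add_distrib]
  exact Finset.sum_congr rfl fun d _ => by ring

theorem Good.zero : Good t (fun _ => 0) :=
  ⟨fun _ => 0, fun x => by simp⟩

theorem Good.smul {u : GaloisField 2 t → GaloisField 2 t} (a : GaloisField 2 t) (hu : Good t u) :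
    Good t (fun x => a * u x) := by
  obtain ⟨c, hc⟩ := hu
  refine ⟨fun d => a * c d, fun x => ?_⟩
  show a * u x = _
  rw [hc, Finset.mul_sum]
  exact Finset.sum_congr rfl fun d _ => by ring

theorem Good.sum {ι : Type*} (s : Finset ι) (u : ι → GaloisField 2 t → GaloisField 2 t)
    (hu : ∀ i ∈ s, Good t (u i)) : Good t (fun x => ∑ i ∈ s, u i x) := by
  classical
  induction s using Finset.induction_on with
  | empty => simpa using Good.zero
  | insert a s ha ih =>
    simp only [Finset.sum_insert ha]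
    exact (hu a (Finset.mem_insert_self _ _)).add
      (ih fun i hi => hu i (Finset.mem_insert_of_mem hi))

theorem Good.mono {d : ℕ} (hd : d ∈ DD t) (a : GaloisField 2 t) : Good t (fun x => a * x ^ d) := by
  classical
  refine ⟨fun e => if e = d then a else 0, fun x => ?_⟩
  rw [Finset.sum_eq_single_of_mem d hd]
  · simp
  · intro b _ hb
    simp [hb]

theorem pow_card (ht : t ≠ 0) (x : GaloisField 2 t) : x ^ 2 ^ t = x := by
  have : Fintype (GaloisField 2 t) := Fintype.ofFinite _
  have h := FiniteField.pow_card x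
  rwa [← Nat.card_eq_fintype_card, GaloisField.card 2 t ht] at h

theorem pow_add_mul (ht : t ≠ 0) (x : GaloisField 2 t) (m k : ℕ) (hm : 1 ≤ m) :
    x ^ (m + (2 ^ t - 1) * k) = x ^ m := by
  induction k with
  | zero => simp
  | succ k ih =>
    obtain ⟨n, rfl⟩ : ∃ n, m = n + 1 := ⟨m - 1, by omega⟩
    have h1 : 1 ≤ 2 ^ t := Nat.one_le_two_pow
    have h2 : n + 1 + (2 ^ t - 1) * (k + 1) = (n + (2 ^ t - 1) * k) + 2 ^ t := by
      rw [mul_add, mul_one]
      omega
    rw [h2, pow_add, pow_card ht, ← pow_succ, ← ih]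
    congr 1
    omega

theorem pow_dbl (ht : t ≠ 0) (x : GaloisField 2 t) (d : ℕ) (hd : d ≠ 0) :
    x ^ (2 * d) = x ^ dbl t d := by
  have h := Nat.mod_add_div (2 * d - 1) (2 ^ t - 1)
  have h2 : 2 * d = dbl t d + (2 ^ t - 1) * ((2 * d - 1) / (2 ^ t - 1)) := by
    unfold dbl
    omega
  conv_lhs => rw [h2]
  exact pow_add_mul ht x _ _ (by unfold dbl; omega)

theorem Good.sq (ht : 3 ≤ t) {u : GaloisField 2 t → GaloisField 2 t} (hu : Good t u) :
    Good t (fun x => u x ^ 2) := by
  obtain ⟨c, hc⟩ := hu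
  have h : ∀ x, u x ^ 2 = ∑ d ∈ DD t, c d ^ 2 * x ^ (2 * d) := by
    intro x
    rw [hc, sum_pow_char 2]
    exact Finset.sum_congr rfl fun d _ => by ring
  simp only [h]
  refine Good.sum _ _ fun d hd => ?_
  by_cases h0 : d = 0
  · subst h0
    simpa using Good.mono hd (c 0 ^ 2)
  · have := Good.mono (dbl_mem ht hd h0) (c d ^ 2)
    simpa only [pow_dbl (by omega : t ≠ 0) _ d h0] using this

theorem Good.powTwo (ht : 3 ≤ t) {u : GaloisField 2 t → GaloisField 2 t} (hu : Good t u) (j : ℕ) :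
    Good t (fun x => u x ^ 2 ^ j) := by
  induction j with
  | zero => simpa using hu
  | succ j ih =>
    have := ih.sq ht
    simpa only [← pow_mul, ← pow_succ] using this

theorem trace_eq (ht : t ≠ 0) (y : GaloisField 2 t) :
    algebraMap (ZMod 2) (GaloisField 2 t) (Algebra.trace (ZMod 2) (GaloisField 2 t) y) =
      ∑ i ∈ Finset.range t, y ^ 2 ^ i := by
  rw [FiniteField.algebraMap_trace_eq_sum_pow, GaloisField.finrank 2 ht, Nat.card_zmod]

theorem Good.trace (ht : 3 ≤ t) {d : ℕ} (hd : d ∈ DD t) (a : GaloisField 2 t) :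
    Good t (fun x => algebraMap (ZMod 2) (GaloisField 2 t)
      (Algebra.trace (ZMod 2) (GaloisField 2 t) (a * x ^ d))) := by
  simp only [trace_eq (by omega : t ≠ 0)]
  exact Good.sum _ _ fun j _ => (Good.mono hd a).powTwo ht j

/-- the property with degree set `DD t` as a linear space -/
def PS (t : ℕ) : Submodule (ZMod 2) (GaloisField 2 t → ZMod 2) where
  carrier := {f | Good t fun x => algebraMap (ZMod 2) (GaloisField 2 t) (f x)}
  add_mem' := fun {f g} hf hg => by
    have := Good.add hf hg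
    simpa only [Set.mem_ofPred_eq, Pi.add_apply, map_add] using this
  zero_mem' := by
    simpa only [Set.mem_ofPred_eq, Pi.zero_apply, map_zero] using Good.zero
  smul_mem' := fun a f hf => by
    have := Good.smul (algebraMap (ZMod 2) (GaloisField 2 t) a) hf
    simpa only [Set.mem_ofPred_eq, Pi.smul_apply, smul_eq_mul, map_mul] using this

theorem mem_PS {f : GaloisField 2 t → ZMod 2} :
    f ∈ PS t ↔ Good t fun x => algebraMap (ZMod 2) (GaloisField 2 t) (f x) := Iff.rfl

/-- the cubic form `Tr (x ^ 3)`, which is not in the property -/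
noncomputable def gg (t : ℕ) (x : GaloisField 2 t) : ZMod 2 :=
  Algebra.trace (ZMod 2) (GaloisField 2 t) (x ^ 3)

open Polynomial in
theorem gg_notMem (ht : 3 ≤ t) : gg t ∉ PS t := by
  rw [mem_PS]
  rintro ⟨c, hc⟩
  have hcard : Nat.card (GaloisField 2 t) = 2 ^ t := GaloisField.card 2 t (by omega)
  have : Fintype (GaloisField 2 t) := Fintype.ofFinite _
  let P : (GaloisField 2 t)[X] := ∑ j ∈ Finset.range (t - 1), X ^ (3 * 2 ^ j) +
    X ^ (2 ^ (t - 1) + 1) - ∑ d ∈ DD t, C (c d) * X ^ d
  have h2t : 2 ^ t = 2 ^ (t - 1) * 2 := by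
    rw [← pow_succ]
    congr 1
    omega
  have h2t' : 4 ≤ 2 ^ (t - 1) := by
    calc 4 = 2 ^ 2 := by norm_num
      _ ≤ 2 ^ (t - 1) := Nat.pow_le_pow_right (by norm_num) (by omega)
  have hdeg : P.natDegree < 2 ^ t := by
    have h1 : P.degree < (2 ^ t : ℕ) := by
      refine lt_of_le_of_lt (degree_sub_le _ _) (max_lt (lt_of_le_of_lt (degree_add_le _ _)
        (max_lt ?_ ?_)) ?_)
      · refine lt_of_le_of_lt (degree_sum_le _ _) ?_
        rw [Finset.sup_lt_iff (WithBot.bot_lt_coe _)]
        intro j hj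
        rw [Finset.mem_range] at hj
        rw [degree_X_pow]
        have h3 : 2 ^ (j + 1) ≤ 2 ^ (t - 1) := Nat.pow_le_pow_right (by norm_num) hj
        rw [pow_succ] at h3
        have h4 : 1 ≤ 2 ^ j := Nat.one_le_two_pow
        have h5 : 3 * 2 ^ j < 2 ^ t := by omega
        exact_mod_cast h5
      · rw [degree_X_pow]
        have h5 : 2 ^ (t - 1) + 1 < 2 ^ t := by omega
        exact_mod_cast h5
      · refine lt_of_le_of_lt (degree_sum_le _ _) ?_
        rw [Finset.sup_lt_iff (WithBot.bot_lt_coe _)]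
        intro d hd
        refine lt_of_le_of_lt (degree_C_mul_X_pow_le _ _) ?_
        exact_mod_cast (mem_DD.1 hd).1
    by_cases hP : P = 0
    · rw [hP]
      simp
    · rwa [natDegree_lt_iff_degree_lt hP]
  have hz : P = 0 := by
    refine eq_zero_of_natDegree_lt_card_of_eval_eq_zero' P Finset.univ (fun x _ => ?_) ?_
    · have h1 : algebraMap (ZMod 2) (GaloisField 2 t) (gg t x) = _ := hc x
      unfold gg at h1
      rw [trace_eq (by omega : t ≠ 0)] at h1
      have h2 : Finset.range t = Finset.range ((t - 1) + 1) := by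
        congr 1
        omega
      rw [h2, Finset.sum_range_succ] at h1
      simp only [P, eval_sub, eval_add, eval_finsetSum, eval_pow, eval_X, eval_mul, eval_C]
      rw [← h1]
      have h3 : (x ^ 3) ^ 2 ^ (t - 1) = x ^ (2 ^ (t - 1) + 1) := by
        rw [← pow_mul]
        have h4 : 3 * 2 ^ (t - 1) = 2 ^ (t - 1) + 2 ^ t := by omega
        rw [h4, pow_add, pow_card (by omega), pow_succ]
      rw [h3]
      simp only [← pow_mul, sub_self]
    · rw [Finset.card_univ, ← Nat.card_eq_fintype_card, hcard]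
      exact hdeg
  have hco : P.coeff 3 = 1 := by
    simp only [P, coeff_sub, coeff_add, finsetSum_coeff, coeff_X_pow, coeff_C_mul]
    rw [Finset.sum_eq_single_of_mem 0 (Finset.mem_range.2 (by omega))]
    · rw [if_neg (by omega : ¬ 3 = 2 ^ (t - 1) + 1), Finset.sum_eq_zero]
      · simp
      · intro d hd
        have : ¬ 3 = d := by
          rintro rfl
          exact three_notMem t hd
        simp [this]
    · intro j _ hj
      have h1 : 2 ^ 1 ≤ 2 ^ j := Nat.pow_le_pow_right (by norm_num) (by omega)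
      rw [if_neg]
      omega
  rw [hz] at hco
  simp at hco

/-- the weighted power sum of some points -/
noncomputable def SS {k : ℕ} (w : Fin k → ZMod 2) (α : Fin k → GaloisField 2 t) (d : ℕ) :
    GaloisField 2 t :=
  ∑ i, w i • α i ^ d

theorem zmod2_sq (a : ZMod 2) : a ^ 2 = a := by
  revert a
  decide

theorem SS_sq {k : ℕ} (w : Fin k → ZMod 2) (α : Fin k → GaloisField 2 t) (d : ℕ) :
    SS w α d ^ 2 = SS w α (2 * d) := by
  unfold SS
  rw [sum_pow_char 2]
  refine Finset.sum_congr rfl fun i _ => ?_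
  rw [smul_pow, zmod2_sq, ← pow_mul, mul_comm d 2]

/-- few points do not see the cubic form -/
theorem local_eq (k : ℕ) (ht : k + 3 ≤ t) (α : Fin k → GaloisField 2 t) :
    ∃ f ∈ PS t, ∀ i, f (α i) = gg t (α i) := by
  classical
  have ht0 : t ≠ 0 := by omega
  set R : (GaloisField 2 t → ZMod 2) →ₗ[ZMod 2] (Fin k → ZMod 2) :=
    LinearMap.funLeft (ZMod 2) (ZMod 2) α with hR
  by_cases hmem : R (gg t) ∈ (PS t).map R
  · obtain ⟨f, hf, hfg⟩ := hmem
    exact ⟨f, hf, fun i => congrFun hfg i⟩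
  exfalso
  obtain ⟨φ, hφ1, hφ2⟩ := Submodule.exists_dual_map_eq_bot_of_notMem hmem inferInstance
  set w : Fin k → ZMod 2 := fun i => φ (Pi.single i 1) with hw
  have hφ : ∀ v, φ v = ∑ i, v i * w i := by
    intro v
    have h1 : v = ∑ i, v i • (Pi.single i 1 : Fin k → ZMod 2) := by
      ext j
      simp [Finset.sum_apply, Pi.single_apply]
    conv_lhs => rw [h1]
    rw [map_sum]
    exact Finset.sum_congr rfl fun i _ => by rw [map_smul, smul_eq_mul]
  have hφS : ∀ (a : GaloisField 2 t) (d : ℕ),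
      φ (R fun x => Algebra.trace (ZMod 2) (GaloisField 2 t) (a * x ^ d)) =
        Algebra.trace (ZMod 2) (GaloisField 2 t) (a * SS w α d) := by
    intro a d
    rw [hφ, SS, Finset.mul_sum, map_sum]
    refine Finset.sum_congr rfl fun i _ => ?_
    rw [mul_smul_comm, map_smul, smul_eq_mul, mul_comm]
    rfl
  have hS : ∀ d ∈ DD t, SS w α d = 0 := by
    intro d hd
    have h1 : ∀ a : GaloisField 2 t, Algebra.trace (ZMod 2) (GaloisField 2 t) (a * SS w α d) = 0 := by
      intro a
      rw [← hφS]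
      have h2 : (fun x => Algebra.trace (ZMod 2) (GaloisField 2 t) (a * x ^ d)) ∈ PS t :=
        mem_PS.2 (Good.trace (by omega) hd a)
      have h3 : φ (R fun x => Algebra.trace (ZMod 2) (GaloisField 2 t) (a * x ^ d)) ∈
          ((PS t).map R).map φ :=
        Submodule.mem_map_of_mem (Submodule.mem_map_of_mem h2)
      rw [hφ2] at h3
      exact (Submodule.mem_bot _).1 h3
    by_contra hne
    have h4 := h1 ((SS w α d)⁻¹ * (Classical.choose (Algebra.trace_surjective (ZMod 2)
      (GaloisField 2 t) 1)))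
    have h5 : (SS w α d)⁻¹ * (Classical.choose (Algebra.trace_surjective (ZMod 2)
      (GaloisField 2 t) 1)) * SS w α d =
        Classical.choose (Algebra.trace_surjective (ZMod 2) (GaloisField 2 t) 1) := by
      field_simp
    rw [h5, Classical.choose_spec (Algebra.trace_surjective (ZMod 2) (GaloisField 2 t) 1)] at h4
    exact one_ne_zero h4
  have hS3 : SS w α 3 ≠ 0 := by
    intro h0
    apply hφ1
    have h1 := hφS 1 3
    simp only [one_mul] at h1
    rw [h0, map_zero] at h1
    exact h1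
  -- the points orthogonal to all `α i`
  have hN : ∀ x : GaloisField 2 t,
      (∀ i, Algebra.trace (ZMod 2) (GaloisField 2 t) (α i * x) = 0) →
      SS w α 3 ^ 2 * x ^ 4 + SS w α 3 * x = 0 := by
    intro x hx
    have h1 : ∑ i, (w i • α i) * algebraMap (ZMod 2) (GaloisField 2 t)
        (Algebra.trace (ZMod 2) (GaloisField 2 t) (α i * x)) = 0 := by
      refine Finset.sum_eq_zero fun i _ => ?_
      rw [hx i, map_zero, mul_zero]
    have h2 : ∑ i, (w i • α i) * algebraMap (ZMod 2) (GaloisField 2 t)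
        (Algebra.trace (ZMod 2) (GaloisField 2 t) (α i * x)) =
        ∑ j ∈ Finset.range t, SS w α (1 + 2 ^ j) * x ^ 2 ^ j := by
      simp only [trace_eq ht0, Finset.mul_sum]
      rw [Finset.sum_comm]
      refine Finset.sum_congr rfl fun j _ => ?_
      rw [SS, Finset.sum_mul]
      refine Finset.sum_congr rfl fun i _ => ?_
      rw [mul_pow, pow_add, pow_one, ← mul_assoc, smul_mul_assoc]
    rw [h2] at h1
    have hmid : ∀ j ∈ Finset.range t, j ≠ 1 → j ≠ t - 1 →
        SS w α (1 + 2 ^ j) * x ^ 2 ^ j = 0 := by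
      intro j hj h3 h4
      rw [Finset.mem_range] at hj
      have h5 : (1 + 2 ^ j) ∈ DD t := by
        rw [mem_DD]
        rcases Nat.eq_zero_or_pos j with h6 | h6
        · subst h6
          have : 2 ^ 1 < 2 ^ t := Nat.pow_lt_pow_right (by norm_num) (by omega)
          exact ⟨by simpa using this, Or.inr (Or.inl ⟨1, by norm_num⟩)⟩
        · refine ⟨?_, Or.inr (Or.inr ⟨0, j, by omega, by omega, by norm_num⟩)⟩
          have a1 : 2 ^ (j + 1) ≤ 2 ^ t := Nat.pow_le_pow_right (by norm_num) (by omega)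
          have a2 : 2 ^ 1 ≤ 2 ^ j := Nat.pow_le_pow_right (by norm_num) h6
          rw [pow_succ] at a1
          omega
      rw [hS _ h5, zero_mul]
    have h6 : ∑ j ∈ Finset.range t, SS w α (1 + 2 ^ j) * x ^ 2 ^ j =
        SS w α 3 * x ^ 2 + SS w α (1 + 2 ^ (t - 1)) * x ^ 2 ^ (t - 1) := by
      rw [← Finset.sum_subset (s₁ := ({1, t - 1} : Finset ℕ)), Finset.sum_pair (by omega)]
      · norm_num
      · intro j hj
        simp only [Finset.mem_insert, Finset.mem_singleton] at hj
        rw [Finset.mem_range]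
        omega
      · intro j hj hj'
        simp only [Finset.mem_insert, Finset.mem_singleton, not_or] at hj'
        exact hmid j hj hj'.1 hj'.2
    rw [h6] at h1
    have h7 : (SS w α 3 * x ^ 2 + SS w α (1 + 2 ^ (t - 1)) * x ^ 2 ^ (t - 1)) ^ 2 = 0 := by
      rw [h1]
      norm_num
    rw [add_pow_char, mul_pow, mul_pow, SS_sq w α (1 + 2 ^ (t - 1)), ← pow_mul, ← pow_mul,
      ← pow_succ] at h7
    have h8 : t - 1 + 1 = t := by omega
    rw [h8, pow_card ht0] at h7
    have h9 : SS w α (2 * (1 + 2 ^ (t - 1))) = SS w α 3 := by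
      unfold SS
      refine Finset.sum_congr rfl fun i _ => ?_
      have h10 : 2 * (1 + 2 ^ (t - 1)) = 2 + 2 ^ t := by
        conv_rhs => rw [← h8, pow_succ]
        ring
      rw [h10, pow_add, pow_card ht0, ← pow_succ]
    rw [h9] at h7
    exact h7
  -- count
  let M : GaloisField 2 t →ₗ[ZMod 2] (Fin k → ZMod 2) :=
    LinearMap.pi fun i => (Algebra.trace (ZMod 2) (GaloisField 2 t)) ∘ₗ
      (LinearMap.mulLeft (ZMod 2) (α i))
  have hker : 3 ≤ Module.finrank (ZMod 2) (LinearMap.ker M) := by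
    have h1 := LinearMap.finrank_range_add_finrank_ker M
    rw [GaloisField.finrank 2 ht0] at h1
    have h2 : Module.finrank (ZMod 2) (LinearMap.range M) ≤ k := by
      have := Submodule.finrank_le (LinearMap.range M)
      simpa using this
    omega
  have hcard : 8 ≤ Nat.card (LinearMap.ker M) := by
    rw [Module.natCard_eq_pow_finrank (K := ZMod 2), Nat.card_zmod]
    calc 8 = 2 ^ 3 := by norm_num
      _ ≤ _ := Nat.pow_le_pow_right (by norm_num) hker
  open Polynomial in
  let Q : (GaloisField 2 t)[X] := C (SS w α 3 ^ 2) * X ^ 4 + C (SS w α 3) * X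
  have hQ0 : Q ≠ 0 := by
    intro h
    have : Q.coeff 1 = 0 := by rw [h]; simp
    simp only [Q, Polynomial.coeff_add, Polynomial.coeff_C_mul, Polynomial.coeff_X_pow,
      Polynomial.coeff_X_one] at this
    apply hS3
    simpa using this
  have hQd : Q.natDegree ≤ 4 := by
    simp only [Q]
    compute_degree
  have hsub : ∀ x ∈ LinearMap.ker M, x ∈ Q.roots.toFinset := by
    intro x hx
    rw [Multiset.mem_toFinset, Polynomial.mem_roots hQ0, Polynomial.IsRoot]
    have h1 := hN x fun i => congrFun (LinearMap.mem_ker.1 hx) i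
    simpa [Q] using h1
  have h3 : Nat.card (LinearMap.ker M) ≤ Q.roots.toFinset.card := by
    have h4 := Nat.card_le_card_of_injective
      (fun x : LinearMap.ker M => (⟨x.1, hsub x.1 x.2⟩ : {x // x ∈ Q.roots.toFinset}))
      (fun a b hab => Subtype.ext (congrArg (fun z => z.1) hab))
    rw [Nat.card_eq_fintype_card (α := {x // x ∈ Q.roots.toFinset}), Fintype.card_coe] at h4
    exact h4
  have h4 : Q.roots.toFinset.card ≤ 4 :=
    (Multiset.toFinset_card_le _).trans ((Polynomial.card_roots' Q).trans hQd)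
  omega

end field

/-- For every k there is a prime t and a proper subset D of the weight-at-most-2 exponents below 2^t, closed under doubling mod 2^t−1 and under binary shadows, such that the F_2-valued functions on F_{2^t} spanned by x^d, d in D, admit no characterization by k-point constraints. -/
theorem result :
    ∀ k : ℕ, ∃ t : ℕ, t.Prime ∧ ∃ D : Finset ℕ,
      (∀ d ∈ D, d < 2 ^ t ∧ (Nat.digits 2 d).sum ≤ 2) ∧
      (∃ d : ℕ, d < 2 ^ t ∧ (Nat.digits 2 d).sum ≤ 2 ∧ d ∉ D) ∧
      (∀ d ∈ D, d ≠ 0 → (2 * d - 1) % (2 ^ t - 1) + 1 ∈ D) ∧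
      (∀ d ∈ D, ∀ e : ℕ, (∀ i : ℕ, e.testBit i = true → d.testBit i = true) → e ∈ D) ∧
      ¬ ∃ C : Set ((Fin k → GaloisField 2 t) × Set (Fin k → ZMod 2)),
          ∀ f : GaloisField 2 t → ZMod 2,
            ((∃ c : ℕ → GaloisField 2 t, ∀ x : GaloisField 2 t,
                algebraMap (ZMod 2) (GaloisField 2 t) (f x) = ∑ d ∈ D, c d * x ^ d) ↔
              ∀ p ∈ C, (fun i => f (p.1 i)) ∈ p.2) := by
  intro k
  obtain ⟨t, htk, htp⟩ := Nat.exists_infinite_primes (k + 3)
  refine ⟨t, htp, DD t, ?_, ?_, ?_, ?_, ?_⟩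
  · intro d hd
    rw [mem_DD] at hd
    refine ⟨hd.1, ?_⟩
    obtain ⟨-, h | ⟨i, h⟩ | ⟨i, l, h1, -, h⟩⟩ := hd
    · subst h; simp
    · subst h; rw [dsum_pow]; norm_num
    · subst h; rw [dsum_two i l (by omega)]
  · refine ⟨3, ?_, by norm_num, three_notMem t⟩
    calc 3 < 2 ^ 3 := by norm_num
      _ ≤ 2 ^ t := Nat.pow_le_pow_right (by norm_num) (by omega)
  · intro d hd h0
    exact dbl_mem (by omega) hd h0
  · intro d hd e he
    exact shadow hd e he
  · rintro ⟨C, hC⟩
    apply gg_notMem (t := t) (by omega)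
    rw [mem_PS]
    refine (hC (gg t)).2 fun p hp => ?_
    obtain ⟨f, hf, hfg⟩ := local_eq k htk p.1
    have h1 := (hC f).1 hf p hp
    have h2 : (fun i => gg t (p.1 i)) = fun i => f (p.1 i) := by
      funext i
      exact (hfg i).symm
    rw [h2]
    exact h1

end Pool.Agent.S14999
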