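import Pool.Statements.S15144
import Pool.Agent.R665.IA.Halt

set_option autoImplicit false
open Pool Pool.MP_a2ec29_lc

namespace Pool.Agent.S15144

open Pool.Agent.R665.IA

theorem iso_fin {T : Type} (ψ : FCA T → Set ℕ) (hinj : Function.Injective ψ)
    (hsup : ∀ a b, ψ (a ⊔ b) = ψ a ∪ ψ b)
    (hrange : Set.range ψ = {A : Set ℕ | FC A}) (A : FCA T)
    (hA : (A : Set T).Finite) : (ψ A).Finite := by
  classical
  have h1 : ∀ y : ℕ, ∃ Z : FCA T, ψ Z = {y} := by
    intro y
    have : ({y} : Set ℕ) ∈ Set.range ψ := by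
      rw [hrange]
      exact Or.inl (Set.finite_singleton y)
    exact this
  choose Z hZ using h1
  have h2 : ∀ y ∈ ψ A, (Z y : Set T) ⊆ A := by
    intro y hy
    have h3 : ψ (Z y ⊔ A) = ψ A := by
      rw [hsup, hZ]
      exact Set.union_eq_self_of_subset_left (Set.singleton_subset_iff.2 hy)
    have h4 : Z y ⊔ A = A := hinj h3
    have h5 : Z y ≤ A := sup_eq_right.1 h4
    exact h5
  have h6 : ({B : Set T | B ⊆ (A : Set T)}).Finite := hA.finite_subsets
  refine Set.Finite.of_finite_image (f := fun y => (Z y : Set T)) ?_ ?_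
  · refine h6.subset ?_
    rintro _ ⟨y, hy, rfl⟩
    exact h2 y hy
  · intro y _ z _ hyz
    have h7 : Z y = Z z := Subtype.ext hyz
    have h8 : ({y} : Set ℕ) = {z} := by rw [← hZ y, ← hZ z, h7]
    exact Set.singleton_injective h8

theorem odd_iff_bodd (n : ℕ) : Odd n ↔ n.bodd = true := by
  have h := Nat.mod_two_of_bodd n
  rw [Nat.odd_iff]
  cases hb : n.bodd <;> simp [hb] at h ⊢ <;> omega

theorem comp_two_pow : Computable (fun s : ℕ => 2 ^ s) := by
  have h : Computable (fun s : ℕ => (Nat.rec 1 (fun _ r => 2 * r) s : ℕ)) := by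
    refine Computable.nat_rec (h := fun _ (p : ℕ × ℕ) => 2 * p.2) Computable.id
      (Computable.const 1) ?_
    refine Computable₂.mk ?_
    have dbl : Computable (fun s : ℕ => 2 * s) :=
      (Primrec.nat_mul.comp (Primrec.const 2) Primrec.id).to_comp
    exact dbl.comp (Computable.snd.comp Computable.snd)
  refine h.of_eq (fun s => ?_)
  induction s with
  | zero => rfl
  | succ n ih =>
      show 2 * (Nat.rec 1 (fun _ r => 2 * r) n : ℕ) = 2 ^ (n + 1)
      rw [ih, pow_succ]; ring

/-- The negation of the preceding statement: Take any computable infinite linear order L and computable Boolean algebra B isomorphic to the algebra of finite unions of half-open intervals of L. Then some computable copy of L makes B computably isomorphic to that copy's interval algebra. -/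
theorem result :
    ¬ (∀ (β : Type) [LinearOrder β] (l : ℕ ≃ β),
      ComputablePred (fun p : ℕ × ℕ => l p.1 ≤ l p.2) →
      ∀ (α : Type) [BooleanAlgebra α] (e : ℕ ≃ α),
        Computable₂ (fun m n : ℕ => e.symm (e m ⊔ e n)) →
        Computable₂ (fun m n : ℕ => e.symm (e m ⊓ e n)) →
        Computable (fun n : ℕ => e.symm (e n)ᶜ) →
        (∃ φ : α → Set β, Function.Injective φ ∧
            (∀ a b, φ (a ⊔ b) = φ a ∪ φ b) ∧
            (∀ a, φ aᶜ = (φ a)ᶜ) ∧
            Set.range φ = {X : Set β | ∃ S : Finset β, ∃ b : Bool,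
              X = {x : β | Xor' (b = true) (Odd (S.filter (fun s => s ≤ x)).card)}}) →
        ∃ l' : ℕ ≃ β, ComputablePred (fun p : ℕ × ℕ => l' p.1 ≤ l' p.2) ∧
          ∃ ψ : α → Set β, Function.Injective ψ ∧
            (∀ a b, ψ (a ⊔ b) = ψ a ∪ ψ b) ∧
            (∀ a, ψ aᶜ = (ψ a)ᶜ) ∧
            Set.range ψ = {X : Set β | ∃ S : Finset β, ∃ b : Bool,
              X = {x : β | Xor' (b = true) (Odd (S.filter (fun s => s ≤ x)).card)}} ∧
            ∃ c : ℕ → List ℕ × Bool, Computable c ∧
              ∀ n : ℕ, ψ (e n) = {x : β | Xor' ((c n).2 = true)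
                (Odd ((c n).1.filter (fun s => decide (l' s ≤ x))).length)}) := by
  intro H
  have hle : ComputablePred (fun p : ℕ × ℕ => (Equiv.refl ℕ) p.1 ≤ (Equiv.refl ℕ) p.2) :=
    ComputablePred.computable_iff.2 ⟨fun p => decide (p.1 ≤ p.2),
      comp_le Computable.fst Computable.snd, by funext p; simp⟩
  have hFC : {X : Set ℕ | ∃ S : Finset ℕ, ∃ b : Bool,
      X = {x : ℕ | Xor' (b = true) (Odd (S.filter (fun s => s ≤ x)).card)}}
      = {A : Set ℕ | FC A} := nat_Alg
  obtain ⟨l', hl', ψ, hinj, hsup, hcpl, hrange, c, hc, hψ⟩ :=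
    H ℕ (Equiv.refl ℕ) hle (FCA (TS gg)) (pres gg gg_inj gg_zero)
      (comp_sup comp_gg gg_inj gg_zero) (comp_inf comp_gg gg_inj gg_zero)
      (comp_cpl comp_gg gg_inj gg_zero)
      ⟨fun A => (A : Set (TS gg)), Subtype.val_injective, fun a b => rfl, fun a => rfl, by
        rw [hFC]
        ext A
        constructor
        · rintro ⟨B, rfl⟩
          exact B.2
        · intro hA
          exact ⟨⟨A, hA⟩, rfl⟩⟩
  rw [hFC] at hrange
  set e := pres gg gg_inj gg_zero with he
  -- finiteness transfers
  have hfin : ∀ A : FCA (TS gg), (A : Set (TS gg)).Finite ↔ (ψ A).Finite := by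
    intro A
    refine ⟨iso_fin ψ hinj hsup hrange A, fun h => ?_⟩
    rcases A.2 with h1 | h1
    · exact h1
    · exfalso
      have h2 := iso_fin ψ hinj hsup hrange Aᶜ h1
      rw [hcpl] at h2
      exact Set.infinite_univ (by
        have := h.union h2
        rwa [Set.union_compl_self] at this : (Set.univ : Set ℕ).Finite)
  -- the decision procedure
  have hD : ∀ n, ((ψ (e n)).Finite ↔ ¬ (xor (c n).2 (c n).1.length.bodd) = true) := by
    intro n
    obtain ⟨M, hM⟩ : ∃ M, ∀ s ∈ (c n).1, l' s ≤ M := by
      refine ⟨((c n).1.map l').sum, fun s hs => ?_⟩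
      exact List.single_le_sum (fun _ _ => Nat.zero_le _) _ (List.mem_map_of_mem hs)
    have hbig : ∀ x, M ≤ x → (x ∈ ψ (e n) ↔ (xor (c n).2 (c n).1.length.bodd) = true) := by
      intro x hx
      rw [hψ n]
      have h1 : (c n).1.filter (fun s => decide (l' s ≤ x)) = (c n).1 := by
        rw [List.filter_eq_self]
        intro s hs
        exact decide_eq_true ((hM s hs).trans hx)
      rw [Set.mem_ofPred_eq, h1, odd_iff_bodd]
      refine Iff.trans (xor_def (a := (c n).2 = true)
        (b := (c n).1.length.bodd = true)) ?_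
      cases (c n).2 <;> cases (c n).1.length.bodd <;> simp
    constructor
    · intro h h2
      have h3 : (Set.Ici M).Finite := h.subset (fun x hx => (hbig x hx).2 h2)
      exact (Set.Ici_infinite M) h3
    · intro h
      refine (Set.finite_Iio M).subset (fun x hx => ?_)
      by_contra h4
      exact h ((hbig x (not_lt.1 h4)).1 hx)
  have hcD : Computable (fun n => xor (c n).2 (c n).1.length.bodd) :=
    comp_xor (Computable.snd.comp hc)
      (Computable.nat_bodd.comp (Computable.list_length.comp (Computable.fst.comp hc)))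
  refine not_comp_Tr (fun s => xor (c (2 ^ s)).2 (c (2 ^ s)).1.length.bodd)
    (hcD.comp comp_two_pow) (fun s => ?_)
  have h1 := hD (2 ^ s)
  rw [← hfin] at h1
  have h2 : ((e (2 ^ s) : FCA (TS gg)) : Set (TS gg)) = Set.Ici (mk gg s) := by
    rw [he, pres_val]
    have h3 : SB gg (2 ^ s) = {mk gg s} := by
      ext i
      have h4 := mem_SB gg (2 ^ s) i
      rw [Finset.mem_singleton]
      refine Iff.trans h4 ?_
      rw [Nat.testBit_two_pow]
      simp only [decide_eq_true_eq]
      exact eq_comm
    rw [h3]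
    ext x
    rw [mem_X_singleton]
    rfl
  rw [h2] at h1
  constructor
  · intro h3
    by_contra h4
    exact (h1.1 (not_Tr_finite h4)) h3
  · intro h3
    by_contra h4
    have h5 : (Set.Ici (mk gg s)).Finite := h1.2 h4
    have h6 : (Set.Iio (mk gg s)).Finite := h3.finite
    have h7 : (Set.univ : Set (TS gg)).Finite := by
      have := h5.union h6
      refine this.subset (fun x _ => ?_)
      rcases le_or_gt (mk gg s) x with h | h
      · exact Or.inl h
      · exact Or.inr h
    exact Set.infinite_univ (α := ℕ) h7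

end Pool.Agent.S15144
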