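import Pool.Statements.S15186
import Pool.Agent.Results.MP_a8f5d0_lc.ManyItems

set_option autoImplicit false
open Pool Pool.MP_a8f5d0_lc

namespace Pool.Agent.S15186

open Pool.Agent.Helper555.JDP in
/-- Some supply `t ≥ s` suffices (in the sense of the helper file) if the frozen statement's
mechanisms exist. -/
theorem weak_of_frozen {ε α β : ℝ} {s t n m : ℕ} (hst : s ≤ t) (hβ : β ≤ 1)
    (h : ∀ supply : Fin m → ℕ, (∀ j, s ≤ supply j) →
  ∃ M : (Fin n → Finset (Fin m) → ℝ) → PMF (Fin n → Finset (Fin m)),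
    (∀ v : Fin n → Finset (Fin m) → ℝ,
      (∀ i, (∀ S, 0 ≤ v i S ∧ v i S ≤ 1) ∧
        ∀ p q : Fin m → ℝ, p ≤ q → ∀ S : Finset (Fin m),
          (∀ T : Finset (Fin m), v i T - ∑ j ∈ T, p j ≤ v i S - ∑ j ∈ S, p j) →
          ∃ T : Finset (Fin m),
            (∀ U : Finset (Fin m), v i U - ∑ j ∈ U, q j ≤ v i T - ∑ j ∈ T, q j) ∧
            ∀ j ∈ S, q j = p j → j ∈ T) →
      (∀ ω ∈ (M v).support, ∀ j : Fin m,
          (Finset.univ.filter (fun k : Fin n => j ∈ ω k)).card ≤ supply j) ∧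
      (M v).toOuterMeasure {ω | ∀ ω' : Fin n → Finset (Fin m),
          (∀ j : Fin m, (Finset.univ.filter (fun k : Fin n => j ∈ ω' k)).card ≤ supply j) →
          ∑ k, v k (ω' k) - α * (n : ℝ) ≤ ∑ k, v k (ω k)} ≥ ENNReal.ofReal (1 - β)) ∧
    (∀ v : Fin n → Finset (Fin m) → ℝ,
      (∀ i, (∀ S, 0 ≤ v i S ∧ v i S ≤ 1) ∧
        ∀ p q : Fin m → ℝ, p ≤ q → ∀ S : Finset (Fin m),
          (∀ T : Finset (Fin m), v i T - ∑ j ∈ T, p j ≤ v i S - ∑ j ∈ S, p j) →
          ∃ T : Finset (Fin m),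
            (∀ U : Finset (Fin m), v i U - ∑ j ∈ U, q j ≤ v i T - ∑ j ∈ T, q j) ∧
            ∀ j ∈ S, q j = p j → j ∈ T) →
      ∀ (i : Fin n) (w : Finset (Fin m) → ℝ),
      ((∀ S, 0 ≤ w S ∧ w S ≤ 1) ∧
        ∀ p q : Fin m → ℝ, p ≤ q → ∀ S : Finset (Fin m),
          (∀ T : Finset (Fin m), w T - ∑ j ∈ T, p j ≤ w S - ∑ j ∈ S, p j) →
          ∃ T : Finset (Fin m),
            (∀ U : Finset (Fin m), w U - ∑ j ∈ U, q j ≤ w T - ∑ j ∈ T, q j) ∧
            ∀ j ∈ S, q j = p j → j ∈ T) →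
      ∀ S : Set ({k : Fin n // k ≠ i} → Finset (Fin m)),
        (M v).toOuterMeasure {ω | (fun k : {k : Fin n // k ≠ i} => ω k.1) ∈ S} ≤
          ENNReal.ofReal (Real.exp ε) *
            (M (Function.update v i w)).toOuterMeasure
              {ω | (fun k : {k : Fin n // k ≠ i} => ω k.1) ∈ S})) :
    WeaklySuffices GrossSubstitutes n m ε α β t := by
  classical
  refine Suffices.weak ?_
  have hne : ∀ (μ : PMF (Fin n → Finset (Fin m))) (E : Set (Fin n → Finset (Fin m))),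
      μ.toOuterMeasure E ≠ ⊤ := by
    intro μ E
    have : μ.toOuterMeasure E ≤ 1 := by
      calc μ.toOuterMeasure E ≤ μ.toOuterMeasure Set.univ := μ.toOuterMeasure.mono (Set.subset_univ E)
        _ = 1 := by
            rw [PMF.toOuterMeasure_apply_eq_one_iff]
            exact Set.subset_univ _
    exact ne_top_of_le_ne_top ENNReal.one_ne_top this
  have hex : ∀ sup : Fin m → ℕ, ∃ M : (Fin n → Valuation m) → PMF (Allocation n m),
      (∀ j, t ≤ sup j) → (JointlyPrivate (GrossSubstitutes m) ε M ∧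
      ∀ v : Fin n → Valuation m, (∀ i, v i ∈ GrossSubstitutes m) →
        (∀ ω ∈ (M v).support, Feasible sup ω) ∧
        1 - β ≤ Pr (M v) {ω | OPT sup v - α * n ≤ welfare v ω}) := by
    intro sup
    by_cases hsup : ∀ j, t ≤ sup j
    · obtain ⟨M, hM1, hM2⟩ := h sup (fun j => le_trans hst (hsup j))
      refine ⟨M, fun _ => ⟨?_, ?_⟩⟩
      · intro i v w hv hw S
        have := hM2 v (fun k => hv k) i w hw S
        unfold Pr
        rw [← ENNReal.toReal_ofReal (Real.exp_pos ε).le, ← ENNReal.toReal_mul]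
        refine ENNReal.toReal_mono (ENNReal.mul_ne_top ENNReal.ofReal_ne_top (hne _ _)) this
      · intro v hv
        obtain ⟨h1, h2⟩ := hM1 v (fun k => hv k)
        refine ⟨fun ω hω => h1 ω hω, ?_⟩
        unfold Pr
        have h3 : ENNReal.ofReal (1 - β) ≤ (M v).toOuterMeasure
            {ω | OPT sup v - α * n ≤ welfare v ω} := by
          refine le_trans h2 ((M v).toOuterMeasure.mono ?_)
          intro ω hω
          simp only [Set.mem_setOf_eq] at hω ⊢
          have : OPT sup v ≤ welfare v ω + α * n := by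
            refine OPT_le sup v _ ?_
            intro ω' hω'
            have := hω ω' hω'
            unfold welfare
            linarith
          linarith
        calc (1 - β) = (ENNReal.ofReal (1 - β)).toReal := by
              rw [ENNReal.toReal_ofReal (by linarith)]
          _ ≤ _ := ENNReal.toReal_mono (hne _ _) h3
    · exact ⟨fun _ => PMF.pure (fun _ => ∅), fun h' => absurd h' hsup⟩
  choose M hM using hex
  exact ⟨M, fun sup hsup => hM sup hsup⟩

/-- The negation of the preceding statement: For each ε,α,β in (0,1) there is a supply s such that for all n, m and supplies ≥ s, some ε-jointly private mechanism on [0,1]-valued gross-substitute profiles always outputs feasible allocations with welfare ≥ OPT − αn with probability ≥ 1−β. -/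
theorem result :
    ¬ (∀ ε α β : ℝ, 0 < ε → ε < 1 → 0 < α → α < 1 → 0 < β → β < 1 →
  ∃ s : ℕ, ∀ n m : ℕ, ∀ supply : Fin m → ℕ, (∀ j, s ≤ supply j) →
  ∃ M : (Fin n → Finset (Fin m) → ℝ) → PMF (Fin n → Finset (Fin m)),
    (∀ v : Fin n → Finset (Fin m) → ℝ,
      (∀ i, (∀ S, 0 ≤ v i S ∧ v i S ≤ 1) ∧
        ∀ p q : Fin m → ℝ, p ≤ q → ∀ S : Finset (Fin m),
          (∀ T : Finset (Fin m), v i T - ∑ j ∈ T, p j ≤ v i S - ∑ j ∈ S, p j) →
          ∃ T : Finset (Fin m),
            (∀ U : Finset (Fin m), v i U - ∑ j ∈ U, q j ≤ v i T - ∑ j ∈ T, q j) ∧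
            ∀ j ∈ S, q j = p j → j ∈ T) →
      (∀ ω ∈ (M v).support, ∀ j : Fin m,
          (Finset.univ.filter (fun k : Fin n => j ∈ ω k)).card ≤ supply j) ∧
      (M v).toOuterMeasure {ω | ∀ ω' : Fin n → Finset (Fin m),
          (∀ j : Fin m, (Finset.univ.filter (fun k : Fin n => j ∈ ω' k)).card ≤ supply j) →
          ∑ k, v k (ω' k) - α * (n : ℝ) ≤ ∑ k, v k (ω k)} ≥ ENNReal.ofReal (1 - β)) ∧
    (∀ v : Fin n → Finset (Fin m) → ℝ,
      (∀ i, (∀ S, 0 ≤ v i S ∧ v i S ≤ 1) ∧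
        ∀ p q : Fin m → ℝ, p ≤ q → ∀ S : Finset (Fin m),
          (∀ T : Finset (Fin m), v i T - ∑ j ∈ T, p j ≤ v i S - ∑ j ∈ S, p j) →
          ∃ T : Finset (Fin m),
            (∀ U : Finset (Fin m), v i U - ∑ j ∈ U, q j ≤ v i T - ∑ j ∈ T, q j) ∧
            ∀ j ∈ S, q j = p j → j ∈ T) →
      ∀ (i : Fin n) (w : Finset (Fin m) → ℝ),
      ((∀ S, 0 ≤ w S ∧ w S ≤ 1) ∧
        ∀ p q : Fin m → ℝ, p ≤ q → ∀ S : Finset (Fin m),
          (∀ T : Finset (Fin m), w T - ∑ j ∈ T, p j ≤ w S - ∑ j ∈ S, p j) →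
          ∃ T : Finset (Fin m),
            (∀ U : Finset (Fin m), w U - ∑ j ∈ U, q j ≤ w T - ∑ j ∈ T, q j) ∧
            ∀ j ∈ S, q j = p j → j ∈ T) →
      ∀ S : Set ({k : Fin n // k ≠ i} → Finset (Fin m)),
        (M v).toOuterMeasure {ω | (fun k : {k : Fin n // k ≠ i} => ω k.1) ∈ S} ≤
          ENNReal.ofReal (Real.exp ε) *
            (M (Function.update v i w)).toOuterMeasure
              {ω | (fun k : {k : Fin n // k ≠ i} => ω k.1) ∈ S})) := by
  intro h
  obtain ⟨s, hs⟩ := h (1 / 2) (1 / 1000) (1 / 2) (by norm_num) (by norm_num) (by norm_num)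
    (by norm_num) (by norm_num) (by norm_num)
  set t : ℕ := max s 1 with ht
  have ht1 : 1 ≤ t := le_max_right _ _
  have hlim : Filter.Tendsto (fun m : ℕ => (11 / 20 : ℝ) ^ m) Filter.atTop (nhds 0) :=
    tendsto_pow_atTop_nhds_zero_of_lt_one (by norm_num) (by norm_num)
  have hpos : (0 : ℝ) < (1 / 2) / Real.exp ((1 / 2) * t) := by positivity
  obtain ⟨m₀, hm₀⟩ := Filter.eventually_atTop.mp (hlim.eventually (gt_mem_nhds hpos))
  set m : ℕ := max m₀ 1 with hm
  have h1 := hm₀ m (le_max_left _ _)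
  have hmpos : 0 < m := lt_of_lt_of_le one_pos (le_max_right _ _)
  refine Pool.Agent.Results.MP_a8f5d0_lc.ManyItems.not_suffices (1 / 2) (1 / 1000) (1 / 2)
    (le_refl _) (2 * t) m t hmpos (by omega) (le_refl _) (by omega) ?_
    (weak_of_frozen (le_max_left s 1) (by norm_num) (fun supply hsup => hs (2 * t) m supply hsup))
  have h2 : (11 / 20 : ℝ) ^ m * Real.exp ((1 / 2) * t) < 1 / 2 := by
    rwa [lt_div_iff₀ (Real.exp_pos _)] at h1
  have h3 : (11 / 10 : ℝ) ^ m = 2 ^ m * (11 / 20 : ℝ) ^ m := by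
    rw [← mul_pow]; norm_num
  rw [h3]
  have h4 : (0 : ℝ) < 2 ^ m := by positivity
  calc Real.exp ((1 / 2) * t) * (2 ^ m * (11 / 20 : ℝ) ^ m)
      = 2 ^ m * ((11 / 20 : ℝ) ^ m * Real.exp ((1 / 2) * t)) := by ring
    _ < 2 ^ m * (1 / 2) := mul_lt_mul_of_pos_left h2 h4
    _ = 2 ^ m * (1 - 1 / 2) := by norm_num

end Pool.Agent.S15186
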