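import Pool.Statements.S15550

set_option autoImplicit false
open Pool Pool.MP_e6ce3e_lc

namespace Pool.Agent.S15550

open Set Cardinal

/-- a cofinal well-ordered subset -/
theorem exists_cofinal_wf {L : Type} [LinearOrder L] (A : Set L) :
    ∃ S ⊆ A, S.WellFoundedOn (· < ·) ∧ ∀ y ∈ A, ∃ a ∈ S, y ≤ a := by
  classical
  let r : L → L → Prop := WellOrderingRel
  have hwf : WellFounded r := IsWellFounded.wf
  refine ⟨{a | a ∈ A ∧ ∀ b ∈ A, r b a → b < a}, fun a ha => ha.1, ?_, ?_⟩
  · rw [Set.wellFoundedOn_iff]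
    refine Subrelation.wf ?_ hwf
    rintro a b ⟨hab, ha, hb⟩
    rcases trichotomous_of r a b with h | h | h
    · exact h
    · exact absurd hab (by rw [h]; exact lt_irrefl _)
    · exact absurd (ha.2 b hb.1 h) (not_lt.2 hab.le)
  · intro y hy
    let T : Set L := {a | a ∈ A ∧ y ≤ a}
    have hT : T.Nonempty := ⟨y, hy, le_rfl⟩
    refine ⟨hwf.min T hT, ⟨(hwf.min_mem T hT).1, ?_⟩, (hwf.min_mem T hT).2⟩
    intro b hb hr
    by_contra hcon
    have hb' : b ∈ T := ⟨hb, (hwf.min_mem T hT).2.trans (not_lt.1 hcon)⟩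
    exact hwf.not_lt_min T hb' hr

/-- upper halves of the classes are countable -/
theorem countable_up {L : Type} [LinearOrder L]
    (h : ∀ S : Set L, S.WellFoundedOn (· < ·) → S.Countable) (x : L) :
    {y : L | x ≤ y ∧ (Icc x y).Countable}.Countable := by
  obtain ⟨S, hSA, hS, hcof⟩ := exists_cofinal_wf {y : L | x ≤ y ∧ (Icc x y).Countable}
  refine ((h S hS).biUnion (t := fun s _ => Icc x s) fun s hs => (hSA hs).2).mono ?_
  intro y hy
  obtain ⟨a, ha, hya⟩ := hcof y hy
  exact mem_iUnion₂.2 ⟨a, ha, hy.1, hya⟩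

theorem countable_down {L : Type} [LinearOrder L]
    (h : ∀ S : Set L, S.WellFoundedOn (· > ·) → S.Countable) (x : L) :
    {y : L | y ≤ x ∧ (Icc y x).Countable}.Countable := by
  have h1 := countable_up (L := Lᵒᵈ) (fun S hS => h S hS) (OrderDual.toDual x)
  refine Set.Countable.mono ?_ h1
  intro y hy
  refine ⟨hy.1, ?_⟩
  refine hy.2.mono ?_
  intro z hz
  exact ⟨hz.2, hz.1⟩

/-- far apart -/
def Far {L : Type} [LinearOrder L] (x y : L) : Prop := x < y ∧ ¬ (Icc x y).Countable

/-- the coarser preorder -/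
structure Wrap (L : Type) where
  val : L

theorem far_mid {L : Type} [LinearOrder L]
    (h : ∀ S : Set L, S.WellFoundedOn (· < ·) → S.Countable)
    (h' : ∀ S : Set L, S.WellFoundedOn (· > ·) → S.Countable) {x y : L} (hxy : Far x y) :
    ∃ z, Far x z ∧ Far z y := by
  have hne : ∃ z ∈ Icc x y, ¬ (Icc x z).Countable ∧ ¬ (Icc z y).Countable := by
    by_contra hcon
    push Not at hcon
    refine hxy.2 (((countable_up h x).union (countable_down h' y)).mono ?_)
    intro z hz
    by_cases h1 : (Icc x z).Countable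
    · exact Or.inl ⟨hz.1, h1⟩
    · exact Or.inr ⟨hz.2, hcon z hz h1⟩
  obtain ⟨z, hz, h1, h2⟩ := hne
  refine ⟨z, ⟨lt_of_le_of_ne hz.1 ?_, h1⟩, ⟨lt_of_le_of_ne hz.2 ?_, h2⟩⟩
  · rintro rfl
    exact h1 (by simp)
  · rintro rfl
    exact h2 (by simp)

theorem far_cotrans {L : Type} [LinearOrder L] {x y z : L} (h : Far z x) : Far y x ∨ Far z y := by
  by_contra hcon
  simp only [not_or, Far, not_and, not_not] at hcon
  obtain ⟨h1, h2⟩ := hcon
  rcases le_or_gt y z with hyz | hyz
  · exact h.2 ((h1 (hyz.trans_lt h.1)).mono (Icc_subset_Icc_left hyz))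
  · rcases le_or_gt x y with hxy | hxy
    · exact h.2 ((h2 hyz).mono (Icc_subset_Icc_right hxy))
    · refine h.2 (((h2 hyz).union (h1 hxy)).mono ?_)
      intro w hw
      rcases le_or_gt w y with hwy | hwy
      · exact Or.inl ⟨hw.1, hwy⟩
      · exact Or.inr ⟨hwy.le, hw.2⟩

instance instPre (L : Type) [LinearOrder L] : Preorder (Wrap L) where
  le x y := ¬ Far y.val x.val
  le_refl x h := lt_irrefl _ h.1
  le_trans x y z h1 h2 h3 := by
    rcases far_cotrans (y := y.val) h3 with h | h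
    · exact h1 h
    · exact h2 h

theorem wrap_lt {L : Type} [LinearOrder L] {x y : Wrap L} : x < y ↔ Far x.val y.val := by
  rw [lt_iff_le_not_ge]
  constructor
  · rintro ⟨-, h⟩
    exact not_not.1 h
  · intro h
    exact ⟨fun h' => lt_irrefl _ (h.1.trans h'.1), fun h' => h' h⟩

instance instTot (L : Type) [LinearOrder L] : Std.Total (α := Wrap L) (· ≤ ·) where
  total x y := by
    by_contra hcon
    rw [not_or] at hcon
    have h1 : Far y.val x.val := not_not.1 hcon.1
    have h2 : Far x.val y.val := not_not.1 hcon.2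
    exact lt_irrefl _ (h1.1.trans h2.1)

/-- an embedding of the rationals with far apart values -/
theorem exists_far_rat {L : Type} [LinearOrder L]
    (h : ∀ S : Set L, S.WellFoundedOn (· < ·) → S.Countable)
    (h' : ∀ S : Set L, S.WellFoundedOn (· > ·) → S.Countable)
    (hL : Cardinal.aleph 1 ≤ Cardinal.mk L) :
    ∃ s : ℚ → L, ∀ q r, q < r → Far (s q) (s r) := by
  classical
  have hunc : ¬ (univ : Set L).Countable := by
    intro hc
    have h1 : #L ≤ ℵ₀ := by
      rw [← mk_univ]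
      exact hc.le_aleph0
    exact absurd (hL.trans h1) (not_le.2 (by
      rw [← aleph_zero]
      exact aleph_lt_aleph.2 zero_lt_one))
  have hfar : ∃ x y : L, Far x y := by
    by_contra hcon
    push Not at hcon
    have hne : Nonempty L := by
      by_contra hem
      rw [not_nonempty_iff] at hem
      exact hunc (Set.countable_univ)
    obtain ⟨x⟩ := hne
    refine hunc (((countable_up h x).union (countable_down h' x)).mono ?_)
    intro y _
    rcases lt_trichotomy x y with hxy | hxy | hxy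
    · refine Or.inl ⟨hxy.le, ?_⟩
      by_contra hc
      exact hcon x y ⟨hxy, hc⟩
    · subst hxy
      exact Or.inl ⟨le_rfl, by simp⟩
    · refine Or.inr ⟨hxy.le, ?_⟩
      by_contra hc
      exact hcon y x ⟨hxy, hc⟩
  let D := Antisymmetrization (Wrap L) (· ≤ ·)
  have hD : DenselyOrdered D := by
    refine ⟨fun a b => ?_⟩
    induction a using Quotient.inductionOn with
    | _ a => ?_
    induction b using Quotient.inductionOn with
    | _ b => ?_
    intro hab
    have hab' : a < b := hab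
    obtain ⟨z, h1, h2⟩ := far_mid h h' (wrap_lt.1 hab')
    refine ⟨toAntisymmetrization (· ≤ ·) (⟨z⟩ : Wrap L), ?_, ?_⟩
    · exact (wrap_lt (x := a) (y := ⟨z⟩)).2 h1
    · exact (wrap_lt (x := ⟨z⟩) (y := b)).2 h2
  have hN : Nontrivial D := by
    obtain ⟨x, y, hxy⟩ := hfar
    refine ⟨toAntisymmetrization (· ≤ ·) (⟨x⟩ : Wrap L),
      toAntisymmetrization (· ≤ ·) (⟨y⟩ : Wrap L), ne_of_lt ?_⟩
    exact (wrap_lt (x := ⟨x⟩) (y := ⟨y⟩)).2 hxy
  obtain ⟨e⟩ := Order.embedding_from_countable_to_dense ℚ D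
  refine ⟨fun q => (ofAntisymmetrization (· ≤ ·) (e q)).val, fun q r hqr => ?_⟩
  rw [← wrap_lt]
  have h1 : e q < e r := e.lt_iff_lt.2 hqr
  rw [← ofAntisymmetrization_lt_ofAntisymmetrization_iff] at h1
  exact h1

/-- The negation of the preceding statement: There is a linear order L with no uncountable well-ordered or reverse-well-ordered subset, of size at least aleph_1, mapping monotonically onto every size-aleph_1 linear order embeddable in it, but with no monotone surjection onto the rationals. -/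
theorem result :
    ¬ (∃ (L : Type) (_ : LinearOrder L),
      (∀ S : Set L, S.WellFoundedOn (· < ·) → S.Countable) ∧
      (∀ S : Set L, S.WellFoundedOn (· > ·) → S.Countable) ∧
      Cardinal.aleph 1 ≤ Cardinal.mk L ∧
      (∀ (K : Type) [LinearOrder K], Cardinal.mk K = Cardinal.aleph 1 →
          Nonempty (K ↪o L) → ∃ f : L → K, Monotone f ∧ Function.Surjective f) ∧
      ¬ ∃ f : L → ℚ, Monotone f ∧ Function.Surjective f) := by
  classical
  rintro ⟨L, _, h, h', hL, hsurj, hno⟩
  apply hno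
  obtain ⟨s, hs⟩ := exists_far_rat h h' hL
  have hmono : StrictMono s := fun q r hqr => (hs q r hqr).1
  have h01 := hs 0 1 zero_lt_one
  have hbig : Cardinal.aleph 1 ≤ #(Icc (s 0) (s 1)) := by
    rw [← succ_aleph0]
    refine Order.succ_le_of_lt (not_le.1 fun hc => h01.2 ?_)
    exact mk_le_aleph0_iff.1 hc
  obtain ⟨M, hM, hMc⟩ := le_mk_iff_exists_subset.1 hbig
  let K : Set L := range s ∪ M
  have hK : #K = Cardinal.aleph 1 := by
    refine le_antisymm ?_ ?_
    · refine (mk_union_le _ _).trans ?_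
      have h1 : #(range s) ≤ ℵ₀ := (countable_range s).le_aleph0
      refine (add_le_add (h1.trans (aleph0_le_aleph 1)) hMc.le).trans ?_
      exact (add_eq_self (aleph0_le_aleph 1)).le
    · rw [← hMc]
      exact mk_le_mk_of_subset subset_union_right
  obtain ⟨F, hF, hFs⟩ := hsurj K hK ⟨OrderEmbedding.subtype _⟩
  let r : L → ℚ := Function.invFun s
  have hr : ∀ q, r (s q) = q := Function.leftInverse_invFun hmono.injective
  let g : K → ℚ := fun x => if x.1 < s 0 then r x.1 else if s 1 < x.1 then r x.1 - 1 else 0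
  have hlow : ∀ x : K, x.1 < s 0 → ∃ q : ℚ, q < 0 ∧ x.1 = s q := by
    rintro ⟨x, hx⟩ hlt
    rcases hx with ⟨q, rfl⟩ | hx
    · exact ⟨q, hmono.lt_iff_lt.1 hlt, rfl⟩
    · exact absurd (hM hx).1 (not_le.2 hlt)
  have hup : ∀ x : K, s 1 < x.1 → ∃ q : ℚ, 1 < q ∧ x.1 = s q := by
    rintro ⟨x, hx⟩ hlt
    rcases hx with ⟨q, rfl⟩ | hx
    · exact ⟨q, hmono.lt_iff_lt.1 hlt, rfl⟩
    · exact absurd (hM hx).2 (not_le.2 hlt)
  have hg1 : ∀ x : K, ∀ q : ℚ, q < 0 → x.1 = s q → g x = q := by
    intro x q hq hx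
    have : x.1 < s 0 := by rw [hx]; exact hmono hq
    simp only [g, if_pos this]
    rw [hx, hr]
  have hg2 : ∀ x : K, ∀ q : ℚ, 1 < q → x.1 = s q → g x = q - 1 := by
    intro x q hq hx
    have h1 : s 1 < x.1 := by rw [hx]; exact hmono hq
    have h2 : ¬ x.1 < s 0 := not_lt.2 ((hmono zero_lt_one).le.trans h1.le)
    simp only [g, if_neg h2, if_pos h1]
    rw [hx, hr]
  have hg3 : ∀ x : K, ¬ x.1 < s 0 → ¬ s 1 < x.1 → g x = 0 := by
    intro x h1 h2
    simp only [g, if_neg h1, if_neg h2]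
  have hgm : Monotone g := by
    intro x y hxy
    have hxy' : x.1 ≤ y.1 := hxy
    by_cases hx1 : x.1 < s 0
    · obtain ⟨q, hq, hxq⟩ := hlow x hx1
      rw [hg1 x q hq hxq]
      by_cases hy1 : y.1 < s 0
      · obtain ⟨p, hp, hyp⟩ := hlow y hy1
        rw [hg1 y p hp hyp]
        rw [hxq, hyp] at hxy'
        exact hmono.le_iff_le.1 hxy'
      · by_cases hy2 : s 1 < y.1
        · obtain ⟨p, hp, hyp⟩ := hup y hy2
          rw [hg2 y p hp hyp]
          linarith
        · rw [hg3 y hy1 hy2]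
          exact hq.le
    · have hy1 : ¬ y.1 < s 0 := not_lt.2 ((not_lt.1 hx1).trans hxy')
      by_cases hx2 : s 1 < x.1
      · obtain ⟨q, hq, hxq⟩ := hup x hx2
        obtain ⟨p, hp, hyp⟩ := hup y (hx2.trans_le hxy')
        rw [hg2 x q hq hxq, hg2 y p hp hyp]
        rw [hxq, hyp] at hxy'
        have := hmono.le_iff_le.1 hxy'
        linarith
      · rw [hg3 x hx1 hx2]
        by_cases hy2 : s 1 < y.1
        · obtain ⟨p, hp, hyp⟩ := hup y hy2
          rw [hg2 y p hp hyp]
          linarith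
        · rw [hg3 y hy1 hy2]
  have hgs : Function.Surjective g := by
    intro q
    rcases lt_trichotomy q 0 with hq | hq | hq
    · exact ⟨⟨s q, Or.inl ⟨q, rfl⟩⟩, hg1 _ q hq rfl⟩
    · refine ⟨⟨s 0, Or.inl ⟨0, rfl⟩⟩, ?_⟩
      rw [hq]
      exact hg3 _ (lt_irrefl _) (not_lt.2 (hmono zero_lt_one).le)
    · refine ⟨⟨s (q + 1), Or.inl ⟨q + 1, rfl⟩⟩, ?_⟩
      rw [hg2 _ (q + 1) (by linarith) rfl]
      ring
  exact ⟨g ∘ F, hgm.comp hF, hgs.comp hFs⟩

end Pool.Agent.S15550
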