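import Pool.Statements.S15671
import Pool.Agent.R993.LP.Asm

set_option autoImplicit false
open MeasureTheory
open Pool Pool.MP_0eac64_mp

namespace Pool.Agent.S15671

/-- For every Cantor group with a minimal translation by α, some dense set of continuous real f exists such that, for Haar-a.e. ω, the ℓ² eigenvectors of the Schrödinger operator with potential f(ω+nα) span a dense subspace of ℓ²(ℤ). -/
theorem result :
    ∀ (Ω : Type) [AddCommGroup Ω] [TopologicalSpace Ω] [IsTopologicalAddGroup Ω]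
      [CompactSpace Ω] [T2Space Ω] [TotallyDisconnectedSpace Ω]
      [TopologicalSpace.MetrizableSpace Ω] [Infinite Ω]
      [MeasurableSpace Ω] [BorelSpace Ω]
      (μ : Measure Ω) [μ.IsAddHaarMeasure] (α : Ω),
      Dense (Set.range (fun n : ℤ => n • α)) →
      ∃ D : Set C(Ω, ℝ), Dense D ∧
        ∀ f ∈ D, ∀ᵐ ω ∂μ,
          (Submodule.span ℂ
            {ψ : lp (fun _ : ℤ => ℂ) 2 |
              ∃ E : ℝ, ∀ n : ℤ,
                ψ (n + 1) + ψ (n - 1) + (f (ω + n • α) : ℂ) * ψ n = (E : ℂ) * ψ n}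
            ).topologicalClosure = ⊤ := by
  intro Ω _ _ _ _ _ _ _ _ _ _ μ _ α hα
  have hfin : IsFiniteMeasure μ := inferInstance
  refine ⟨{f : C(Ω, ℝ) | ∀ᵐ ω ∂μ,
          (Submodule.span ℂ
            {ψ : lp (fun _ : ℤ => ℂ) 2 |
              ∃ E : ℝ, ∀ n : ℤ,
                ψ (n + 1) + ψ (n - 1) + (f (ω + n • α) : ℂ) * ψ n = (E : ℂ) * ψ n}
            ).topologicalClosure = ⊤}, ?_, fun f hf => hf⟩
  rw [Metric.dense_iff]
  intro f0 r hr
  have hε : 0 < min (r / 2) 1 := by positivity
  obtain ⟨g, hg1, hg2⟩ := Pool.Agent.R993.LP.M.main_random μ hα f0 hε (min_le_right _ _)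
  refine ⟨g, ?_, ?_⟩
  · rw [Metric.mem_ball, ContinuousMap.dist_lt_iff hr]
    intro ω
    rw [Real.dist_eq]
    have h1 := hg1 ω
    have h2 := min_le_left (r / 2) 1
    linarith
  · show ∀ᵐ ω ∂μ, _
    have hshift : ∀ m : ℤ, ∀ᵐ ω ∂μ, lp.single 2 (0 : ℤ) (1 : ℂ) ∈
        (Submodule.span ℂ (Pool.Agent.R993.LP.eigs
          fun n => g ((ω + m • α) + n • α))).topologicalClosure := fun m =>
      (measurePreserving_add_right μ (m • α)).quasiMeasurePreserving.ae hg2
    have hall := ae_all_iff.2 hshift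
    filter_upwards [hall] with ω hω
    apply Pool.Agent.R993.LP.M.top_of_singles
    intro m
    apply Pool.Agent.R993.LP.M.single_mem (V := fun n => g (ω + n • α))
    have h1 := hω m
    have e : (fun n : ℤ => g (ω + m • α + n • α)) = fun n : ℤ => g (ω + (n + m) • α) := by
      funext n
      rw [add_smul, add_assoc, add_comm (m • α)]
    rw [e] at h1
    exact h1

end Pool.Agent.S15671
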