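import Pool.Statements.S16181
import Pool.Agent.H304R2.Lam

set_option autoImplicit false
open Pool Pool.MP_192724_nt

namespace Pool.Agent.S16181

/-- the Liouville function `(-1)^Ω(n)` -/
def lam (n : ℕ) : ℤ := (-1) ^ ArithmeticFunction.cardFactors n

lemma lam_mul {m n : ℕ} (hm : m ≠ 0) (hn : n ≠ 0) : lam (m * n) = lam m * lam n := by
  unfold lam
  rw [ArithmeticFunction.cardFactors_mul hm hn, pow_add]

lemma lam_pm (n : ℕ) : lam n = 1 ∨ lam n = -1 := neg_one_pow_eq_or ℤ _

lemma lam_sq (n : ℕ) : lam n * lam n = 1 := by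
  rcases lam_pm n with h | h <;> rw [h] <;> norm_num

/-- the case where `-d = m^2` is a square -/
lemma sq_case (m : ℕ) (hm : 0 < m) :
    Set.Infinite {n : ℕ | m < n ∧ lam (n - m) * lam (n + m) = -1} := by
  intro hfin
  obtain ⟨K, hK⟩ := hfin.bddAbove
  -- eventually `lam k = lam (k + 2m)`
  have h1 : ∀ k : ℕ, K < k → lam (k + 2 * m) = lam k := by
    intro k hk
    by_contra hne
    have h2 : (k + m) ∈ {n : ℕ | m < n ∧ lam (n - m) * lam (n + m) = -1} := by
      refine ⟨by omega, ?_⟩
      have e1 : k + m - m = k := by omega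
      have e2 : k + m + m = k + 2 * m := by ring
      rw [e1, e2]
      rcases lam_pm k with h | h <;> rcases lam_pm (k + 2 * m) with h' | h'
      · exact absurd (h'.trans h.symm) hne
      · rw [h, h']; norm_num
      · rw [h, h']; norm_num
      · exact absurd (h'.trans h.symm) hne
    have := hK h2
    omega
  have h2 : ∀ j k : ℕ, K < k → lam (k + 2 * m * j) = lam k := by
    intro j
    induction j with
    | zero => intro k _; simp
    | succ j ih =>
      intro k hk
      have e : k + 2 * m * (j + 1) = (k + 2 * m * j) + 2 * m := by ring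
      rw [e, h1 _ (by nlinarith [Nat.zero_le (2 * m * j)]), ih k hk]
  -- `lam (1 + 2 m j) = 1`
  have h3 : ∀ j : ℕ, lam (1 + 2 * m * j) = 1 := by
    intro j
    have h4 := h2 ((K + 1) * j) (K + 1) (by omega)
    have e : (K + 1) + 2 * m * ((K + 1) * j) = (K + 1) * (1 + 2 * m * j) := by ring
    rw [e, lam_mul (by omega) (by positivity)] at h4
    rcases lam_pm (K + 1) with h | h <;> rw [h] at h4 <;> linarith
  obtain ⟨p, hp, _, hmod⟩ := Nat.exists_prime_gt_modEq_one (k := 2 * m) 1 (by omega)
  have hp1 : 1 ≤ p := hp.one_lt.le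
  have hd : 2 * m ∣ p - 1 := (Nat.modEq_iff_dvd' hp1).1 hmod.symm
  obtain ⟨j, hj⟩ := hd
  have e : p = 1 + 2 * m * j := by omega
  have h5 := h3 j
  rw [← e] at h5
  unfold lam at h5
  rw [ArithmeticFunction.cardFactors_apply_prime hp] at h5
  norm_num at h5

/-- For every nonzero integer d, there are infinitely many n ≥ 1 such that n²+d is positive and has an odd number of prime factors counted with multiplicity, i.e. the Liouville function of n²+d equals −1. -/
theorem result :
    ∀ d : ℤ, d ≠ 0 →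
      Set.Infinite {n : ℕ | 1 ≤ n ∧ 0 < (n : ℤ) ^ 2 + d ∧
        (-1 : ℤ) ^ (ArithmeticFunction.cardFactors (((n : ℤ) ^ 2 + d).toNat)) = -1} := by
  intro d hd
  by_cases hsq : IsSquare (-d)
  · obtain ⟨r, hr⟩ := hsq
    set m := r.natAbs with hm
    have hm2 : (m : ℤ) ^ 2 = -d := by
      rw [hm, Int.natAbs_sq, hr]; ring
    have hm0 : 0 < m := by
      rcases Nat.eq_zero_or_pos m with h | h
      · rw [h] at hm2
        simp at hm2
        exact absurd hm2.symm (by simpa [eq_comm] using hd)
      · exact h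
    refine (sq_case m hm0).mono ?_
    rintro n ⟨h1, h2⟩
    have e : (n : ℤ) ^ 2 + d = ((n - m) * (n + m) : ℕ) := by
      push_cast [h1.le]
      linear_combination hm2
    have hpos : 0 < (n - m) * (n + m) := Nat.mul_pos (by omega) (by omega)
    refine ⟨by omega, ?_, ?_⟩
    · rw [e]; exact_mod_cast hpos
    · rw [e, Int.toNat_natCast]
      change lam _ = -1
      rw [lam_mul (by omega) (by omega), h2]
  · -- the nonsquare case
    have hD : ¬ IsSquare ((0 : ℤ) ^ 2 - 4 * d) := by
      rintro ⟨r, hr⟩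
      have h2 : (2 : ℤ) ∣ r := by
        have : (2 : ℤ) ∣ r * r := ⟨-2 * d, by linarith⟩
        rcases (Int.prime_two.dvd_mul).1 this with h | h <;> exact h
      obtain ⟨t, ht⟩ := h2
      apply hsq
      refine ⟨t, ?_⟩
      rw [ht] at hr
      linarith
    obtain ⟨N₀, hN⟩ := Pool.Agent.H304R2.main_lam 0 d hD (-1) (Or.inr rfl) (1 / 2) (by norm_num)
    intro hfin
    -- the set of all `n ≥ 1` with `lam (|n^2+d|) = -1` would be finite
    have hfin2 : Set.Finite {n : ℕ | 1 ≤ n ∧
        (-1 : ℤ) ^ (ArithmeticFunction.cardFactors ((n : ℤ) ^ 2 + 0 * n + d).natAbs) = -1} := by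
      refine (hfin.union (Set.finite_Iic (d.natAbs))).subset ?_
      rintro n ⟨h1, h2⟩
      rcases le_or_gt n d.natAbs with h | h
      · right; exact h
      · left
        have h3 : 0 < (n : ℤ) ^ 2 + d := by
          have h4 : (d.natAbs : ℤ) < n := by exact_mod_cast h
          have h5 : -(d.natAbs : ℤ) ≤ d := by omega
          nlinarith
        refine ⟨h1, h3, ?_⟩
        have e : ((n : ℤ) ^ 2 + 0 * n + d).natAbs = ((n : ℤ) ^ 2 + d).toNat := by
          rw [zero_mul, add_zero]
          omega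
        rw [← e]
        exact h2
    set C : ℕ := hfin2.toFinset.card with hC
    have hle : ∀ N : ℕ, N₀ ≤ N → (N : ℝ) ^ (1 - (1 / 2 : ℝ)) ≤ C := by
      intro N h
      refine (hN N h).trans ?_
      have : ((Finset.Icc 1 N).filter (fun n : ℕ =>
        (-1 : ℤ) ^ (ArithmeticFunction.cardFactors ((n : ℤ) ^ 2 + 0 * n + d).natAbs) = -1)).card
          ≤ hfin2.toFinset.card := by
        apply Finset.card_le_card
        intro n hn
        rw [Finset.mem_filter, Finset.mem_Icc] at hn
        rw [Set.Finite.mem_toFinset]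
        exact ⟨hn.1.1, hn.2⟩
      exact_mod_cast this
    have h6 := hle (N₀ + (C + 1) ^ 2) (by omega)
    have h7 : ((C : ℝ) + 1) ≤ ((N₀ + (C + 1) ^ 2 : ℕ) : ℝ) ^ (1 - (1 / 2 : ℝ)) := by
      have e : (1 - (1 / 2 : ℝ)) = 1 / 2 := by norm_num
      rw [e, ← Real.sqrt_eq_rpow]
      apply Real.le_sqrt_of_sq_le
      push_cast
      nlinarith [Nat.cast_nonneg (α := ℝ) N₀]
    linarith

end Pool.Agent.S16181
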