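import Pool.Statements.S16186
import Pool.Agent.R407.USB.Choice
import Pool.Agent.R407.USB.Deg
import Pool.Agent.R407.USB.Lim

set_option autoImplicit false
open Pool Pool.MP_19fd7d_nt

namespace Pool.Agent.S16186

open NumberField IsDedekindDomain Pool.Agent.R407.USB
open Pool.Agent.Helper259.AbsHt (Qbar absLogHeight)

lemma exists_prime_mem {R : Type*} [CommRing R] (I : Ideal R) [I.IsPrime] (n : ℕ) (hn : 0 < n)
    (hI : (n : R) ∈ I) : ∃ q : ℕ, q.Prime ∧ (q : R) ∈ I := by
  induction n using Nat.strong_induction_on with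
  | _ n ih =>
    by_cases h1 : n = 1
    · subst h1
      rw [Nat.cast_one] at hI
      exact absurd ((Ideal.eq_top_iff_one I).2 hI) (Ideal.IsPrime.ne_top inferInstance)
    · have hm := Nat.minFac_prime h1
      obtain ⟨m, hm2⟩ := Nat.minFac_dvd n
      rw [hm2, Nat.cast_mul] at hI
      rcases (inferInstance : I.IsPrime).mem_or_mem hI with h | h
      · exact ⟨_, hm, h⟩
      · have hm0 : 0 < m := by
          rcases Nat.eq_zero_or_pos m with h0 | h0
          · rw [h0, mul_zero] at hm2
            omega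
          · exact h0
        refine ih m ?_ hm0 h
        have := hm.two_le
        nlinarith

instance botNF : NumberField (⊥ : IntermediateField ℚ Qbar) where
  to_charZero := inferInstance
  to_finiteDimensional := (inferInstance : FiniteDimensional ℚ (⊥ : IntermediateField ℚ Qbar))

lemma int_of_bot (x : 𝓞 (⊥ : IntermediateField ℚ Qbar)) :
    ∃ z : ℤ, x = (z : 𝓞 (⊥ : IntermediateField ℚ Qbar)) := by
  obtain ⟨q, hq⟩ := IntermediateField.mem_bot.1 (x : (⊥ : IntermediateField ℚ Qbar)).2
  have h1 : IsIntegral ℤ ((x : (⊥ : IntermediateField ℚ Qbar)) : Qbar) :=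
    (RingOfIntegers.isIntegral_coe x).map (algebraMap (⊥ : IntermediateField ℚ Qbar) Qbar).toIntAlgHom
  rw [← hq, isIntegral_algebraMap_iff (algebraMap ℚ Qbar).injective] at h1
  obtain ⟨z, hz⟩ := IsIntegrallyClosed.isIntegral_iff.1 h1
  refine ⟨z, ?_⟩
  apply RingOfIntegers.ext
  apply Subtype.ext
  rw [← hq, ← hz]
  simp

lemma fermat_bot (v : HeightOneSpectrum (𝓞 (⊥ : IntermediateField ℚ Qbar))) (q : ℕ)
    [Fact q.Prime] (hq : (q : 𝓞 (⊥ : IntermediateField ℚ Qbar)) ∈ v.asIdeal)
    (x : 𝓞 (⊥ : IntermediateField ℚ Qbar)) : x ^ q - x ∈ v.asIdeal := by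
  obtain ⟨z, rfl⟩ := int_of_bot x
  have h1 : (q : ℤ) ∣ z ^ q - z := by
    rw [← ZMod.intCast_zmod_eq_zero_iff_dvd]
    push_cast
    rw [ZMod.pow_card, sub_self]
  obtain ⟨c, hc⟩ := h1
  have h2 : ((z : 𝓞 (⊥ : IntermediateField ℚ Qbar)) ^ q - z) =
      (q : 𝓞 (⊥ : IntermediateField ℚ Qbar)) * c := by
    have := congrArg (Int.cast : ℤ → 𝓞 (⊥ : IntermediateField ℚ Qbar)) hc
    push_cast at this
    exact this
  rw [h2]
  exact v.asIdeal.mul_mem_right _ hq

/-- the field as an extension of the rational numbers inside the algebraic closure -/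
noncomputable def FB : IntermediateField (⊥ : IntermediateField ℚ Qbar) Qbar :=
  IntermediateField.extendScalars (bot_le : ⊥ ≤ FF)

lemma mem_FB (x : Qbar) : x ∈ FB ↔ x ∈ FF := Iff.rfl

lemma FB_galois : IsGalois (⊥ : IntermediateField ℚ Qbar) FB := by
  have h1 : Algebra.IsAlgebraic (⊥ : IntermediateField ℚ Qbar) Qbar :=
    Algebra.IsAlgebraic.tower_top (K := ℚ) (⊥ : IntermediateField ℚ Qbar)
  have h2 : IsAlgClosure (⊥ : IntermediateField ℚ Qbar) Qbar := ⟨inferInstance, h1⟩
  have h3 : Normal (⊥ : IntermediateField ℚ Qbar) Qbar := inferInstance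
  have h4 : Normal (⊥ : IntermediateField ℚ Qbar) FB := by
    rw [IntermediateField.normal_iff_forall_map_le']
    rintro σ _ ⟨x, hx, rfl⟩
    have h5 := FF_stable (AlgEquiv.restrictScalars ℚ σ) x ((mem_FB x).1 hx)
    exact h5
  exact { to_isSeparable := inferInstance, to_normal := h4 }

lemma not_fin (v : HeightOneSpectrum (𝓞 (⊥ : IntermediateField ℚ Qbar)))
    (h2 : (2 : 𝓞 (⊥ : IntermediateField ℚ Qbar)) ∉ v.asIdeal)
    (ι : Qbar →ₐ[(⊥ : IntermediateField ℚ Qbar)]
      AlgebraicClosure (v.adicCompletion (⊥ : IntermediateField ℚ Qbar))) :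
    ¬ FiniteDimensional (v.adicCompletion (⊥ : IntermediateField ℚ Qbar))
            (IntermediateField.adjoin (v.adicCompletion (⊥ : IntermediateField ℚ Qbar))
              (ι '' (FB : Set Qbar))) := by
  intro hfd
  have hprime := v.isPrime
  obtain ⟨q, hq, hqv⟩ := exists_prime_mem v.asIdeal (Ideal.absNorm v.asIdeal)
    (lt_trans one_pos (HeightOneSpectrum.one_lt_absNorm v)) (Ideal.absNorm_mem _)
  have hq2 : q ≠ 2 := by
    rintro rfl
    exact h2 (by exact_mod_cast hqv)
  have : Fact q.Prime := ⟨hq⟩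
  set Kv := v.adicCompletion (⊥ : IntermediateField ℚ Qbar) with hKv
  set M := IntermediateField.adjoin Kv (ι '' (FB : Set Qbar)) with hM
  set N := Module.finrank Kv M with hN
  set j := Nat.pair q (N + q) with hj
  have hj1 : N + q ≤ j := Nat.right_le_pair _ _
  have htg : tg j = q := tg_pair q (N + q) hq hq2
  obtain ⟨hp1, hp2, hp3, hp4⟩ := pr_spec j
  rw [htg] at hp4
  have hne : pr j ≠ q := by
    unfold bd at hp2
    omega
  obtain ⟨η, hη, hdeg⟩ := local_degree v q hqv (fermat_bot v q hqv) (pr j) j hne hp3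
    (hp4 inferInstance) (ι : Qbar →+* AlgebraicClosure Kv)
  have hηF : η ∈ FF := (mem_FF η).2 ⟨j + 1, (le_sup_right : Lf (pr j) j ≤ Kt pr j ⊔ Lf (pr j) j) hη⟩
  have hmem : ι η ∈ M := IntermediateField.subset_adjoin Kv _ ⟨η, hηF, rfl⟩
  have h3 : minpoly Kv (ι η) = minpoly Kv (⟨ι η, hmem⟩ : M) := by
    rw [← minpoly.algebraMap_eq (algebraMap M (AlgebraicClosure Kv)).injective]
    rfl
  have h4 : (minpoly Kv (ι η)).natDegree ≤ N := by
    rw [h3]
    exact minpoly.natDegree_le _
  have h5 : 2 ^ j ≤ N := hdeg.trans h4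
  have h6 : j < 2 ^ j := Nat.lt_two_pow_self
  omega


/-- The negation of the preceding statement: If F in Q̄ is Galois over a number field K and has (USB) (for each rational map of degree at least 2, some c>0 leaves only finitely many points of F with canonical height below c), then F/K has finite local degree at infinitely many finite primes of K. -/
theorem result :
    ¬ (∀ h : AlgebraicClosure ℚ → ℝ,
      (∀ β : AlgebraicClosure ℚ, h β =
        Real.log (((sInf {n : ℕ | 0 < n ∧ ∀ i : ℕ, ((n : ℚ) * (minpoly ℚ β).coeff i).den = 1} : ℕ) : ℝ) *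
          (Polynomial.map (algebraMap ℚ ℂ) (minpoly ℚ β)).mahlerMeasure) /
          ((minpoly ℚ β).natDegree : ℝ)) →
    ∀ Φ : RatFunc (AlgebraicClosure ℚ) → AlgebraicClosure ℚ × AlgebraicClosure ℚ →
        AlgebraicClosure ℚ × AlgebraicClosure ℚ,
      (∀ (f : RatFunc (AlgebraicClosure ℚ)) (z : AlgebraicClosure ℚ × AlgebraicClosure ℚ),
        Φ f z =
          (∑ i ∈ Finset.range (max f.num.natDegree f.denom.natDegree + 1),
              f.num.coeff i * z.1 ^ i * z.2 ^ (max f.num.natDegree f.denom.natDegree - i),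
           ∑ i ∈ Finset.range (max f.num.natDegree f.denom.natDegree + 1),
              f.denom.coeff i * z.1 ^ i * z.2 ^ (max f.num.natDegree f.denom.natDegree - i))) →
    ∀ (K : IntermediateField ℚ (AlgebraicClosure ℚ)) [NumberField K]
      (F : IntermediateField K (AlgebraicClosure ℚ)),
      IsGalois K F →
      (∀ f : RatFunc (AlgebraicClosure ℚ),
        2 ≤ max f.num.natDegree f.denom.natDegree →
        ∃ c : ℝ, 0 < c ∧
          Set.Finite {α : AlgebraicClosure ℚ | α ∈ F ∧ ∃ L : ℝ,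
            Filter.Tendsto
              (fun n : ℕ => h (((Φ f)^[n] (α, 1)).1 / ((Φ f)^[n] (α, 1)).2) /
                ((max f.num.natDegree f.denom.natDegree : ℕ) : ℝ) ^ n)
              Filter.atTop (nhds L) ∧ L < c}) →
      Set.Infinite {v : IsDedekindDomain.HeightOneSpectrum (NumberField.RingOfIntegers K) |
        ∀ ι : AlgebraicClosure ℚ →ₐ[K] AlgebraicClosure (v.adicCompletion K),
          FiniteDimensional (v.adicCompletion K)
            (IntermediateField.adjoin (v.adicCompletion K)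
              (ι '' (F : Set (AlgebraicClosure ℚ))))}) := by
  intro hall
  have hinf := hall Pool.Agent.H58W.hM (fun β => rfl)
    (fun f z => Pool.Agent.H58W.lift f.num f.denom (max f.num.natDegree f.denom.natDegree) z)
    (fun f z => rfl) (⊥ : IntermediateField ℚ Qbar) FB FB_galois (fun f hf => by
      obtain ⟨B, hB⟩ := small_limit f.num f.denom (max f.num.natDegree f.denom.natDegree) rfl hf
        (RatFunc.isCoprime_num_denom f)
      refine ⟨1, one_pos, (northcott_FF B).subset ?_⟩
      rintro α ⟨hα, L, hL, hL1⟩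
      exact ⟨(mem_FB α).1 hα, hB α L hL1 hL⟩)
  apply hinf
  have h20 : (Ideal.span {(2 : 𝓞 (⊥ : IntermediateField ℚ Qbar))}) ≠ 0 := by
    rw [Ideal.zero_eq_bot, Ne, Ideal.span_singleton_eq_bot]
    exact two_ne_zero
  refine (Ideal.finite_factors h20).subset ?_
  intro v hv
  rw [Set.mem_ofPred_eq, Ideal.dvd_span_singleton]
  by_contra h2
  let ι : Qbar →ₐ[(⊥ : IntermediateField ℚ Qbar)]
      AlgebraicClosure (v.adicCompletion (⊥ : IntermediateField ℚ Qbar)) := IsAlgClosed.lift
  exact not_fin v h2 ι (hv ι)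

end Pool.Agent.S16186
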