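import Pool.Statements.S16522
import Pool.Agent.R446.Pisier2

/-!
# An infinite set of integers all of whose finite subsets contain a large Sidon subset, but which is
not a finite union of Sidon sets

Let `w i j = 8 ^ pair i j` and `B = {w a b + w b c - w a c : a < b < c}`.

* `B` has the property `P(1/27)`: give every index one of the types `0, 1, 2`; the elements of `B`
  whose three indices have the types `0, 1, 2`, in this order, form a Sidon set, and some typing
  catches at least a 27th part of a given finite subset of `B`.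
* `B` is not a finite union of Sidon sets: by Ramsey's theorem for triples any finite colouring of `B`
  has four indices `a < b < c < d` with all four triples of the same colour, and
  `v a b d + v b c d = v a c d + v a b c`.
-/

set_option autoImplicit false
open Pool Pool.MP_33952e_nt

namespace Pool.Agent.S16522

open Pool.Agent.R446.Pisier

/-- The negation of the preceding statement: For every δ>0 there is C such that any infinite set of naturals in which every finite subset A contains a Sidon subset of size at least δ∣A∣ can be split into C Sidon sets. -/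
theorem result :
    ¬ (∀ δ : ℝ, 0 < δ → ∃ C : ℕ, ∀ B : Set ℕ, B.Infinite →
      (∀ A : Finset ℕ, (↑A : Set ℕ) ⊆ B →
        ∃ S : Finset ℕ, S ⊆ A ∧ δ * (A.card : ℝ) ≤ (S.card : ℝ) ∧
          ∀ a ∈ S, ∀ b ∈ S, ∀ c ∈ S, ∀ d ∈ S,
            a + b = c + d → (a = c ∧ b = d) ∨ (a = d ∧ b = c)) →
      ∃ f : ℕ → Fin C, ∀ i : Fin C, ∀ a ∈ B, ∀ b ∈ B, ∀ c ∈ B, ∀ d ∈ B,
        f a = i → f b = i → f c = i → f d = i →
        a + b = c + d → (a = c ∧ b = d) ∨ (a = d ∧ b = c)) := by
  classical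
  intro H
  obtain ⟨C, hC⟩ := H (1 / 27) (by norm_num)
  set B : Set ℕ := {x | ∃ a b c : ℕ, a < b ∧ b < c ∧ x = v a b c} with hB
  have hinf : B.Infinite := by
    apply Set.infinite_of_injective_forall_mem (f := fun n : ℕ => v 0 1 (n + 2))
    · intro m n hmn
      have := v_inj ⟨by omega, by omega⟩ ⟨by omega, by omega⟩ hmn
      omega
    · intro n
      exact ⟨0, 1, n + 2, by omega, by omega, rfl⟩
  have hP : ∀ A : Finset ℕ, (↑A : Set ℕ) ⊆ B →
        ∃ S : Finset ℕ, S ⊆ A ∧ (1 / 27 : ℝ) * (A.card : ℝ) ≤ (S.card : ℝ) ∧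
          ∀ a ∈ S, ∀ b ∈ S, ∀ c ∈ S, ∀ d ∈ S,
            a + b = c + d → (a = c ∧ b = d) ∨ (a = d ∧ b = c) := by
    intro A hA
    have hA' : ∀ x : ℕ, ∃ t : ℕ × ℕ × ℕ, x ∈ A → t.1 < t.2.1 ∧ t.2.1 < t.2.2 ∧
        x = v t.1 t.2.1 t.2.2 := by
      intro x
      by_cases hx : x ∈ A
      · obtain ⟨a, b, c, h1, h2, h3⟩ := hA hx
        exact ⟨(a, b, c), fun _ => ⟨h1, h2, h3⟩⟩
      · exact ⟨(0, 0, 0), fun h => absurd h hx⟩
    choose t ht using hA'
    obtain ⟨M, hM⟩ : ∃ M : ℕ, ∀ x ∈ A, (t x).2.2 ≤ M :=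
      ⟨A.sup (fun x => (t x).2.2), fun x hx => Finset.le_sup (f := fun x => (t x).2.2) hx⟩
    have hlt : ∀ x ∈ A, (t x).1 < M + 1 ∧ (t x).2.1 < M + 1 ∧ (t x).2.2 < M + 1 := by
      intro x hx
      have h1 := ht x hx
      have h2 := hM x hx
      omega
    obtain ⟨σ, hσ⟩ := exists_typing (M + 1) A (fun x => Fin.ofNat (M + 1) (t x).1)
      (fun x => Fin.ofNat (M + 1) (t x).2.1) (fun x => Fin.ofNat (M + 1) (t x).2.2)
      (by
        intro x hx h
        have h1 := ht x hx
        have h2 := hlt x hx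
        have := congrArg Fin.val h
        simp only [Fin.val_ofNat, Nat.mod_eq_of_lt h2.1, Nat.mod_eq_of_lt h2.2.1] at this
        omega)
      (by
        intro x hx h
        have h1 := ht x hx
        have h2 := hlt x hx
        have := congrArg Fin.val h
        simp only [Fin.val_ofNat, Nat.mod_eq_of_lt h2.1, Nat.mod_eq_of_lt h2.2.2] at this
        omega)
      (by
        intro x hx h
        have h1 := ht x hx
        have h2 := hlt x hx
        have := congrArg Fin.val h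
        simp only [Fin.val_ofNat, Nat.mod_eq_of_lt h2.2.1, Nat.mod_eq_of_lt h2.2.2] at this
        omega)
    set τ : ℕ → Fin 3 := fun n => σ (Fin.ofNat (M + 1) n) with hτ
    refine ⟨A.filter (fun x => τ (t x).1 = 0 ∧ τ (t x).2.1 = 1 ∧ τ (t x).2.2 = 2),
      Finset.filter_subset _ _, ?_, ?_⟩
    · have h27 : (A.card : ℝ) ≤ 27 *
          ((A.filter (fun x => τ (t x).1 = 0 ∧ τ (t x).2.1 = 1 ∧ τ (t x).2.2 = 2)).card : ℝ) := by
        exact_mod_cast hσ
      linarith
    · intro x hx y hy z hz u hu h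
      rw [Finset.mem_filter] at hx hy hz hu
      obtain ⟨x1, x2, x3⟩ := ht x hx.1
      obtain ⟨y1, y2, y3⟩ := ht y hy.1
      obtain ⟨z1, z2, z3⟩ := ht z hz.1
      obtain ⟨u1, u2, u3⟩ := ht u hu.1
      have h' := h
      rw [x3, y3, z3, u3] at h'
      have := sidon_typed τ ⟨x1, x2⟩ ⟨y1, y2⟩ ⟨z1, z2⟩ ⟨u1, u2⟩ hx.2 hy.2 hz.2 hu.2 h'
      rw [← x3, ← y3, ← z3, ← u3] at this
      exact this
  obtain ⟨f, hf⟩ := hC B hinf hP
  obtain ⟨a, b, c, d, hab, hbc, hcd, e1, e2, e3⟩ := ramsey4 (fun i j k => f (v i j k))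
  have k1 := v_add (a := a) (b := b) (c := d) hab (hbc.trans hcd)
  have k2 := v_add (a := b) (b := c) (c := d) hbc hcd
  have k3 := v_add (a := a) (b := c) (c := d) (hab.trans hbc) hcd
  have k4 := v_add (a := a) (b := b) (c := c) hab hbc
  have hsum : v a b d + v b c d = v a c d + v a b c := by omega
  have := hf (f (v a b c)) (v a b d) ⟨a, b, d, hab, hbc.trans hcd, rfl⟩
    (v b c d) ⟨b, c, d, hbc, hcd, rfl⟩ (v a c d) ⟨a, c, d, hab.trans hbc, hcd, rfl⟩
    (v a b c) ⟨a, b, c, hab, hbc, rfl⟩ e1.symm e3.symm e2.symm rfl hsum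
  rcases this with ⟨h1, _⟩ | ⟨h1, _⟩
  · have := v_inj ⟨hab, hbc.trans hcd⟩ ⟨hab.trans hbc, hcd⟩ h1
    omega
  · have := v_inj ⟨hab, hbc.trans hcd⟩ ⟨hab, hbc⟩ h1
    omega

end Pool.Agent.S16522
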