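import Pool.Statements.S16586
import Pool.Agent.H819R3.NR4

set_option autoImplicit false
open Filter Topology
open Pool Pool.MP_38ccf3_nt

namespace Pool.Agent.S16586

open Pool.Agent.H819R3.NR

attribute [local irreducible] P e m

/-- If all the frequencies are eventually at most `1/R + ε`, then each of them tends to `1/R`. -/
lemma tendsto_of_upper (R : ℕ) (hR : 1 ≤ R) (f : ℕ → ℤ)
    (hup : ∀ ε : ℝ, 0 < ε → ∃ N0 : ℕ, ∀ N : ℕ, N0 ≤ N → ∀ A : ℤ,
      (((Finset.range N).filter (fun n => f n % (R : ℤ) = A)).card : ℝ) / N ≤ 1 / (R : ℝ) + ε)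
    (a : ℤ) (ha0 : 0 ≤ a) (ha1 : a < R) :
    Tendsto (fun N : ℕ =>
      (((Finset.range N).filter (fun n => f n % (R : ℤ) = a)).card : ℝ) / (N : ℝ))
      atTop (𝓝 (1 / (R : ℝ))) := by
  have hR1 : (1 : ℝ) ≤ R := by exact_mod_cast hR
  have hRZ : (0 : ℤ) < R := by exact_mod_cast hR
  rw [Metric.tendsto_atTop]
  intro δ hδ
  obtain ⟨N0, hN0⟩ := hup (δ / (2 * R)) (by positivity)
  refine ⟨N0 + 1, fun N hN => ?_⟩
  have hNpos : 0 < N := by omega
  have hNR : (0 : ℝ) < (N : ℝ) := by exact_mod_cast hNpos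
  have hb := hN0 N (by omega)
  set p : ℤ → ℝ := fun A =>
    (((Finset.range N).filter (fun n => f n % (R : ℤ) = A)).card : ℝ) / (N : ℝ) with hp
  have hb' : ∀ A, p A ≤ 1 / R + δ / (2 * R) := hb
  have hsum : ∑ A ∈ Finset.Ico (0 : ℤ) R, p A = 1 := by
    rw [hp, ← Finset.sum_div, div_eq_one_iff_eq hNR.ne']
    have := Finset.card_eq_sum_card_fiberwise (s := Finset.range N) (t := Finset.Ico (0 : ℤ) R)
      (f := fun n => f n % (R : ℤ)) (fun n _ => by
        rw [Finset.mem_coe, Finset.mem_Ico]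
        exact ⟨Int.emod_nonneg _ hRZ.ne', Int.emod_lt_of_pos _ hRZ⟩)
    rw [Finset.card_range] at this
    have h2 := congrArg (Nat.cast : ℕ → ℝ) this
    push_cast at h2
    exact h2.symm
  have hmem : a ∈ Finset.Ico (0 : ℤ) R := Finset.mem_Ico.mpr ⟨ha0, ha1⟩
  have hsplit := Finset.add_sum_erase (Finset.Ico (0 : ℤ) R) p hmem
  rw [hsum] at hsplit
  have hcard : (((Finset.Ico (0 : ℤ) R).erase a).card : ℝ) = R - 1 := by
    rw [Finset.card_erase_of_mem hmem, Int.card_Ico]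
    have e : ((R : ℤ) - 0).toNat = R := by omega
    rw [e, Nat.cast_sub hR]
    norm_num
  have hle : ∑ A ∈ (Finset.Ico (0 : ℤ) R).erase a, p A ≤ (R - 1) * (1 / R + δ / (2 * R)) := by
    calc ∑ A ∈ (Finset.Ico (0 : ℤ) R).erase a, p A
        ≤ ∑ A ∈ (Finset.Ico (0 : ℤ) R).erase a, (1 / (R : ℝ) + δ / (2 * R)) :=
          Finset.sum_le_sum (fun A _ => hb' A)
      _ = _ := by rw [Finset.sum_const, nsmul_eq_mul, hcard]
  have e1 : ((R : ℝ) - 1) * (1 / R + δ / (2 * R)) = 1 - 1 / R + δ / 2 - δ / (2 * R) := by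
    field_simp
    ring
  have e2 : 0 < δ / (2 * R) := by positivity
  have e3 : δ / (2 * R) ≤ δ / 2 := by
    apply div_le_div_of_nonneg_left hδ.le (by norm_num)
    linarith
  have hw := hb' a
  rw [Real.dist_eq, abs_lt]
  show -δ < p a - 1 / R ∧ p a - 1 / R < δ
  constructor <;> linarith

lemma normal_inv (r : ℕ) (hr : 2 ≤ r) (k : ℕ) (a : ℤ) (ha0 : 0 ≤ a) (ha1 : a < (r : ℤ) ^ k) :
    Tendsto (fun N : ℕ =>
      (((Finset.range N).filter
          (fun n : ℕ => ⌊(r : ℝ) ^ (n + k) * (XX r)⁻¹⌋ % (r : ℤ) ^ k = a)).card : ℝ) / (N : ℝ))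
      atTop (𝓝 (1 / (r : ℝ) ^ k)) := by
  have h := tendsto_of_upper (r ^ k) (Nat.one_le_pow _ _ (by omega))
    (fun n => ⌊(r : ℝ) ^ (n + k) * (XX r)⁻¹⌋) (by
      intro ε hε
      obtain ⟨N0, hN0⟩ := freq_upper r k hr ε hε
      refine ⟨N0, fun N hN A => ?_⟩
      have h1 := hN0 N hN A
      have e : ∀ n : ℕ, (r : ℝ) ^ n * (XX r)⁻¹ * ((r ^ k : ℕ) : ℝ) = (r : ℝ) ^ (n + k) * (XX r)⁻¹ := by
        intro n
        push_cast
        rw [pow_add]; ring
      simp only [e] at h1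
      exact h1) a ha0 (by push_cast; exact ha1)
  push_cast at h
  exact h

lemma digit_freq_one (r : ℕ) (hr : 2 ≤ r) :
    Tendsto (fun N : ℕ =>
      (((Finset.range N).filter
          (fun n : ℕ => ⌊(r : ℝ) ^ (n + 1) * XX r⌋ % (r : ℤ) ^ 1 = (r : ℤ) - 1)).card : ℝ) / (N : ℝ))
      atTop (𝓝 1) := by
  rw [Metric.tendsto_atTop]
  intro δ hδ
  obtain ⟨J, hJ⟩ := exists_nat_one_div_lt (show 0 < δ / 2 by positivity)
  refine ⟨m r J + 1, fun N hN => ?_⟩
  have hNpos : 0 < N := by omega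
  have hNR : (0 : ℝ) < (N : ℝ) := by exact_mod_cast hNpos
  have hcr := cnt_ratio r J N hr (by omega) hNpos
  have hq : (cnt r N : ℝ) / N < δ := by
    have : (2 : ℝ) / (J + 1) = 2 * (1 / (J + 1)) := by ring
    rw [this] at hcr
    linarith
  have hcard := Finset.card_filter_add_card_filter_not (s := Finset.range N)
    (fun n : ℕ => ⌊(r : ℝ) ^ (n + 1) * XX r⌋ % (r : ℤ) ^ 1 = (r : ℤ) - 1)
  rw [Finset.card_range] at hcard
  have hcc : ((Finset.range N).filter (fun n : ℕ =>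
      ¬ (⌊(r : ℝ) ^ (n + 1) * XX r⌋ % (r : ℤ) ^ 1 = (r : ℤ) - 1))).card = cnt r N := by
    unfold cnt
    congr 1
    ext n
    simp only [Finset.mem_filter, pow_one, ne_eq, mul_comm]
  rw [hcc] at hcard
  set c0 : ℕ := ((Finset.range N).filter
    (fun n : ℕ => ⌊(r : ℝ) ^ (n + 1) * XX r⌋ % (r : ℤ) ^ 1 = (r : ℤ) - 1)).card with hc0'
  have hcardR : (c0 : ℝ) + cnt r N = N := by exact_mod_cast hcard
  have h4 : (c0 : ℝ) / N = 1 - cnt r N / N := by
    rw [eq_sub_iff_add_eq, ← add_div, hcardR, div_self hNR.ne']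
  have h5 : (0 : ℝ) ≤ cnt r N / N := by positivity
  rw [Real.dist_eq, h4, abs_lt]
  constructor <;> linarith

/-- The negation of the preceding statement: For every base r ≥ 2 and every real x, if every k-block (k ≥ 1, 0 ≤ m < r^k) occurs among x's fractional base-r digit windows with limiting frequency r^(-k), then the same holds for x⁻¹. -/
theorem result :
    ¬ (∀ r : ℕ, 2 ≤ r → ∀ x : ℝ,
      (∀ k : ℕ, 1 ≤ k → ∀ m : ℤ, 0 ≤ m → m < (r : ℤ) ^ k →
        Tendsto (fun N : ℕ =>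
          (((Finset.range N).filter
              (fun n : ℕ => ⌊(r : ℝ) ^ (n + k) * x⌋ % (r : ℤ) ^ k = m)).card : ℝ) / (N : ℝ))
          atTop (𝓝 (1 / (r : ℝ) ^ k))) →
      (∀ k : ℕ, 1 ≤ k → ∀ m : ℤ, 0 ≤ m → m < (r : ℤ) ^ k →
        Tendsto (fun N : ℕ =>
          (((Finset.range N).filter
              (fun n : ℕ => ⌊(r : ℝ) ^ (n + k) * x⁻¹⌋ % (r : ℤ) ^ k = m)).card : ℝ) / (N : ℝ))
          atTop (𝓝 (1 / (r : ℝ) ^ k)))) := by
  intro H
  have h := H 2 le_rfl (XX 2)⁻¹ (fun k _ a ha0 ha1 => normal_inv 2 le_rfl k a ha0 ha1)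
    1 le_rfl 1 (by norm_num) (by norm_num)
  rw [inv_inv] at h
  have h1 := digit_freq_one 2 le_rfl
  have h2 := tendsto_nhds_unique h (by
    have e : ((2 : ℕ) : ℤ) - 1 = 1 := by norm_num
    rw [e] at h1
    exact h1)
  norm_num at h2

end Pool.Agent.S16586
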