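import Pool.Statements.S16733
import Pool.Agent.R327.Lambert

set_option autoImplicit false
open Pool Pool.MP_44e698_nt

namespace Pool.Agent.S16733

open Finset Pool.Agent.R327.Lambert

/-- the exponents of the expanded series -/
def ex (x : (ℕ × ℕ) × (ℕ × ℕ)) : ℕ :=
  2 * (x.1.1 + 1) * (x.1.2 + 1) + (x.1.1 + 1) + (2 * x.1.1 + 1) * x.2.1 + (x.1.2 + 1) * x.2.2

/-- the signs of the expanded series -/
def sg (x : (ℕ × ℕ) × (ℕ × ℕ)) : ℤ := (-1) ^ (x.1.1 + 1 + x.2.2)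

theorem norm_sg (x : (ℕ × ℕ) × (ℕ × ℕ)) : ‖((sg x : ℤ) : ℂ)‖ = 1 := by
  unfold sg
  push_cast
  rw [norm_pow, norm_neg, norm_one, one_pow]

theorem summable_f (q : ℂ) (hq : ‖q‖ < 1) : Summable (fun x => ((sg x : ℤ) : ℂ) * q ^ ex x) := by
  have hg : Summable (fun n : ℕ => ‖q‖ ^ n) := summable_geometric_of_lt_one (norm_nonneg q) hq
  have h0 : (0 : ℕ → ℝ) ≤ fun n : ℕ => ‖q‖ ^ n := fun n => pow_nonneg (norm_nonneg q) n
  have h2 : Summable (fun x : ℕ × ℕ => ‖q‖ ^ x.1 * ‖q‖ ^ x.2) := hg.mul_of_nonneg hg h0 h0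
  have h3 : (0 : ℕ × ℕ → ℝ) ≤ fun x : ℕ × ℕ => ‖q‖ ^ x.1 * ‖q‖ ^ x.2 :=
    fun x => mul_nonneg (pow_nonneg (norm_nonneg q) _) (pow_nonneg (norm_nonneg q) _)
  refine Summable.of_norm_bounded (h2.mul_of_nonneg h2 h3 h3) ?_
  rintro ⟨⟨m, n⟩, ⟨a, b⟩⟩
  rw [norm_mul, norm_sg, one_mul, norm_pow]
  simp only
  rw [← pow_add, ← pow_add, ← pow_add]
  apply pow_le_pow_of_le_one (norm_nonneg q) hq.le
  unfold ex
  simp only
  nlinarith [Nat.zero_le (m * n), Nat.zero_le (m * a), Nat.zero_le (n * b)]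

/-- The expansion of the double series. -/
theorem expand (q : ℂ) (hq : ‖q‖ < 1) :
    ∑' p : ℕ × ℕ, (-q) ^ (2 * (p.1 + 1) * (p.2 + 1) + (p.1 + 1)) /
          ((1 + q ^ (p.2 + 1)) * (1 - q ^ (2 * p.1 + 1))) =
      ∑' x, ((sg x : ℤ) : ℂ) * q ^ ex x := by
  rw [(summable_f q hq).tsum_prod]
  apply tsum_congr
  rintro ⟨m, n⟩
  have hu : ‖q ^ (2 * m + 1)‖ < 1 := by
    rw [norm_pow]
    exact pow_lt_one₀ (norm_nonneg q) hq (by omega)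
  have hv : ‖-q ^ (n + 1)‖ < 1 := by
    rw [norm_neg, norm_pow]
    exact pow_lt_one₀ (norm_nonneg q) hq (by omega)
  have h1 := tsum_mul_tsum_of_summable_norm
    (summable_norm_geometric_of_norm_lt_one hu) (summable_norm_geometric_of_norm_lt_one hv)
  rw [tsum_geometric_of_norm_lt_one hu, tsum_geometric_of_norm_lt_one hv] at h1
  have h2 : (1 + q ^ (n + 1)) = 1 - (-q ^ (n + 1)) := by ring
  simp only
  rw [h2, div_eq_mul_inv, mul_inv, mul_comm (1 - -q ^ (n + 1))⁻¹, h1, ← tsum_mul_left]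
  apply tsum_congr
  rintro ⟨a, b⟩
  simp only [ex, sg]
  push_cast
  have h3 : (-q) ^ (2 * (m + 1) * (n + 1) + (m + 1)) =
      (-1) ^ (m + 1) * q ^ (2 * (m + 1) * (n + 1) + (m + 1)) := by
    rw [neg_pow, pow_add (-1 : ℂ), mul_assoc 2, pow_mul (-1 : ℂ)]
    simp
  rw [h3, neg_pow (q ^ (n + 1))]
  ring

/-- The fibres of the exponent are the solution sets. -/
def fib (c : ℕ) (hc : 1 ≤ c) : ↥(ex ⁻¹' {c}) ≃
    {y : ℕ × ℕ × ℕ × ℕ // y ∈ (Q (2 * c - 1)).filter (fun x => x.2.1 < x.2.2.2)} where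
  toFun x := ⟨(2 * x.1.2.1 + 1, 2 * x.1.1.1 + 1, x.1.1.2 + 1, 2 * (x.1.1.1 + 1) + x.1.2.2), by
    obtain ⟨⟨⟨m, n⟩, ⟨a, b⟩⟩, hx⟩ := x
    have hx' : ex ((m, n), (a, b)) = c := hx
    unfold ex at hx'
    simp only at hx'
    rw [mem_filter, mem_Q]
    simp only
    refine ⟨⟨?_, by omega, by omega, by omega, by omega⟩, by omega⟩
    have e : (2 * a + 1) * (2 * m + 1) + 2 * (n + 1) * (2 * (m + 1) + b) + 1 =
      2 * (2 * (m + 1) * (n + 1) + (m + 1) + (2 * m + 1) * a + (n + 1) * b) := by ring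
    rw [hx'] at e
    omega⟩
  invFun y := ⟨((y.1.2.1 / 2, y.1.2.2.1 - 1), (y.1.1 / 2, y.1.2.2.2 - y.1.2.1 - 1)), by
    obtain ⟨⟨m, d, i, k⟩, hy⟩ := y
    rw [mem_filter, mem_Q] at hy
    simp only at hy
    obtain ⟨⟨h1, h2, h3, h4, h5⟩, h6⟩ := hy
    show ex ((d / 2, i - 1), (m / 2, k - d - 1)) = c
    unfold ex
    simp only
    obtain ⟨u, rfl⟩ : ∃ u, m = 2 * u + 1 := ⟨m / 2, by omega⟩
    obtain ⟨v, rfl⟩ : ∃ v, d = 2 * v + 1 := ⟨d / 2, by omega⟩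
    obtain ⟨i', rfl⟩ : ∃ i', i = i' + 1 := ⟨i - 1, by omega⟩
    obtain ⟨b, rfl⟩ : ∃ b, k = 2 * v + 2 + b := ⟨k - (2 * v + 2), by omega⟩
    have e1 : (2 * v + 1) / 2 = v := by omega
    have e2 : (2 * u + 1) / 2 = u := by omega
    have e3 : 2 * v + 2 + b - (2 * v + 1) - 1 = b := by omega
    have e4 : i' + 1 - 1 = i' := by omega
    rw [e1, e2, e3, e4]
    have e : (2 * u + 1) * (2 * v + 1) + 2 * (i' + 1) * (2 * v + 2 + b) + 1 =
      2 * (2 * (v + 1) * (i' + 1) + (v + 1) + (2 * v + 1) * u + (i' + 1) * b) := by ring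
    rw [h1] at e
    omega⟩
  left_inv := by
    rintro ⟨⟨⟨m, n⟩, ⟨a, b⟩⟩, hx⟩
    apply Subtype.ext
    simp only [Prod.mk.injEq]
    refine ⟨⟨?_, ?_⟩, ?_, ?_⟩ <;> omega
  right_inv := by
    rintro ⟨⟨m, d, i, k⟩, hy⟩
    have hy' := hy
    rw [mem_filter, mem_Q] at hy'
    simp only at hy'
    obtain ⟨⟨h1, h2, h3, h4, h5⟩, h6⟩ := hy'
    apply Subtype.ext
    simp only [Prod.mk.injEq]
    refine ⟨?_, ?_, ?_, ?_⟩ <;> omega

/-- The coefficients of even index vanish. -/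
theorem coeff_even (c : ℕ) (hc : 1 ≤ c) (h2 : c % 2 = 0) : ∑' x : ↥(ex ⁻¹' {c}), ((sg x.1 : ℤ) : ℂ) = 0 := by
  have h1 : ∑' x : ↥(ex ⁻¹' {c}), ((sg x.1 : ℤ) : ℂ) =
      ∑' y : {y : ℕ × ℕ × ℕ × ℕ // y ∈ (Q (2 * c - 1)).filter (fun x => x.2.1 < x.2.2.2)},
        ((-(chi y.1.2.1 * (-1) ^ y.1.2.2.2) : ℤ) : ℂ) := by
    rw [← (fib c hc).tsum_eq]
    apply tsum_congr
    rintro ⟨⟨⟨m, n⟩, ⟨a, b⟩⟩, hx⟩
    congr 1
    show (-1 : ℤ) ^ (m + 1 + b) = -(chi (2 * m + 1) * (-1) ^ (2 * (m + 1) + b))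
    unfold chi
    have e1 : (2 * m + 1) / 2 = m := by omega
    rw [e1, pow_add, pow_add, pow_add, pow_mul]
    simp
  rw [h1, Finset.tsum_subtype ((Q (2 * c - 1)).filter (fun x => x.2.1 < x.2.2.2))
    (fun y => ((-(chi y.2.1 * (-1) ^ y.2.2.2) : ℤ) : ℂ)), ← Int.cast_sum, sum_neg_distrib,
    main (2 * c - 1) (by omega)]
  simp

/-- For every complex q with ∣q∣<1, let Y(q) be the sum over m,n≥1 of (-q)^(2mn+m)/((1+q^n)(1-q^(2m-1))). Then Y(-q) = -Y(q), i.e. Y is an odd function. -/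
theorem result :
    ∀ q : ℂ, ‖q‖ < 1 →
      (∑' p : ℕ × ℕ, (-(-q)) ^ (2 * (p.1 + 1) * (p.2 + 1) + (p.1 + 1)) /
          ((1 + (-q) ^ (p.2 + 1)) * (1 - (-q) ^ (2 * p.1 + 1))))
        = -(∑' p : ℕ × ℕ, (-q) ^ (2 * (p.1 + 1) * (p.2 + 1) + (p.1 + 1)) /
          ((1 + q ^ (p.2 + 1)) * (1 - q ^ (2 * p.1 + 1)))) := by
  intro q hq
  have hq' : ‖-q‖ < 1 := by rwa [norm_neg]
  rw [expand (-q) hq', expand q hq, eq_neg_iff_add_eq_zero,
    ← (summable_f (-q) hq').tsum_add (summable_f q hq)]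
  have hs : Summable (fun x => ((sg x : ℤ) : ℂ) * (-q) ^ ex x + ((sg x : ℤ) : ℂ) * q ^ ex x) :=
    (summable_f (-q) hq').add (summable_f q hq)
  have h1 := hs.hasSum.tsum_fiberwise ex
  refine h1.unique ?_
  have h2 : (fun c : ℕ => ∑' b : ↥(ex ⁻¹' {c}),
      (((sg b.1 : ℤ) : ℂ) * (-q) ^ ex b.1 + ((sg b.1 : ℤ) : ℂ) * q ^ ex b.1)) = fun _ => 0 := by
    funext c
    have h3 : ∑' b : ↥(ex ⁻¹' {c}),
      (((sg b.1 : ℤ) : ℂ) * (-q) ^ ex b.1 + ((sg b.1 : ℤ) : ℂ) * q ^ ex b.1) =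
        (∑' b : ↥(ex ⁻¹' {c}), ((sg b.1 : ℤ) : ℂ)) * ((-q) ^ c + q ^ c) := by
      rw [← tsum_mul_right]
      apply tsum_congr
      rintro ⟨b, hb⟩
      have hb' : ex b = c := hb
      simp only
      rw [hb']
      ring
    rw [h3]
    rcases Nat.mod_two_eq_zero_or_one c with hc | hc
    · rcases Nat.eq_zero_or_pos c with h0 | h0
      · subst h0
        have : IsEmpty ↥(ex ⁻¹' {0}) := by
          constructor
          rintro ⟨⟨⟨m, n⟩, ⟨a, b⟩⟩, hx⟩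
          have hx' : ex ((m, n), (a, b)) = 0 := hx
          unfold ex at hx'
          simp only at hx'
          omega
        rw [tsum_empty, zero_mul]
      · rw [coeff_even c h0 hc, zero_mul]
    · have : (-q) ^ c = -q ^ c := Odd.neg_pow (Nat.odd_iff.2 hc) q
      rw [this]
      ring
  rw [h2]
  exact hasSum_zero

end Pool.Agent.S16733
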