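import Pool.Statements.S16808
import Pool.Agent.R377.ExpPairMain

set_option autoImplicit false
open Pool Pool.MP_493793_nt

namespace Pool.Agent.S16808

/-- The negation of the preceding statement: For each ε>0 and constants c_j,C_j>0 there is K: if 2≤N≤N'≤2N, F≥N, f smooth on [N,2N] with c_j F/N^j ≤ ∣f^(j)∣ ≤ C_j F/N^j for all j≥0, then ∣Σ_{N≤n≤N'} e(f(n))∣ ≤ K N^{1/2} F^ε. -/
theorem result :
    ¬ (∀ ε : ℝ, 0 < ε → ∀ c C : ℕ → ℝ, (∀ j, 0 < c j) → (∀ j, 0 < C j) →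
      ∃ K : ℝ, ∀ N N' F : ℝ, ∀ f : ℝ → ℝ,
        2 ≤ N → N ≤ N' → N' ≤ 2 * N → N ≤ F →
        ContDiffOn ℝ (⊤ : ℕ∞) f (Set.Icc N (2 * N)) →
        (∀ j : ℕ, ∀ x ∈ Set.Icc N (2 * N),
            c j * F / N ^ j ≤ |iteratedDerivWithin j f (Set.Icc N (2 * N)) x| ∧
            |iteratedDerivWithin j f (Set.Icc N (2 * N)) x| ≤ C j * F / N ^ j) →
        ‖∑ n ∈ Finset.Icc ⌈N⌉₊ ⌊N'⌋₊,
            Complex.exp (2 * (Real.pi : ℂ) * Complex.I * ((f (n : ℝ) : ℝ) : ℂ))‖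
          ≤ K * N ^ (1 / 2 : ℝ) * F ^ ε) := by
  intro h
  obtain ⟨K, hK⟩ := h (1 / 12) (by norm_num) (fun j => Pool.Agent.R377.EP.co j * (1 / 2) ^ j)
    (fun j => Pool.Agent.R377.EP.co j * 4)
    (fun j => mul_pos (Pool.Agent.R377.EP.co_pos j) (by positivity))
    (fun j => mul_pos (Pool.Agent.R377.EP.co_pos j) (by norm_num))
  obtain ⟨q, hq⟩ := exists_nat_gt (32 * |K| + 12)
  have hKabs := abs_nonneg K
  have hq12 : (12 : ℝ) < q := by linarith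
  have hq12' : 12 < q := by exact_mod_cast hq12
  set k : ℕ := q ^ 4 with hk
  have hk10 : 10 ≤ k := by
    have : 12 ^ 4 ≤ q ^ 4 := Nat.pow_le_pow_left hq12'.le 4
    omega
  obtain ⟨h2, h3, h4, h5⟩ := Pool.Agent.R377.EP.range_ok k hk10
  set N : ℝ := ((Pool.Agent.R377.EP.A (3 * k) : ℕ) : ℝ) with hN
  have hN0 : 0 < N := by linarith
  have hN1 : 1 ≤ N := by linarith
  have hNF : N ≤ N ^ (3 / 2 : ℝ) := by
    calc N = N ^ (1 : ℝ) := (Real.rpow_one N).symm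
      _ ≤ _ := Real.rpow_le_rpow_of_exponent_le hN1 (by norm_num)
  have hmain := hK N ((Pool.Agent.R377.EP.A (4 * k) - 1 : ℕ) : ℝ) (N ^ (3 / 2 : ℝ))
    Pool.Agent.R377.EP.ff h2 h3 h4 hNF
    (fun x hx => (Pool.Agent.R377.EP.ff_contDiffAt (lt_of_lt_of_le hN0 hx.1) _).contDiffWithinAt)
    (fun j x hx => Pool.Agent.R377.EP.ff_adm hN0 j x hx)
  have hlow := Pool.Agent.R377.EP.lower' k hk10
  have hsqrt : Real.sqrt (k : ℝ) = (q : ℝ) ^ 2 := by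
    rw [hk]
    push_cast
    rw [show (q : ℝ) ^ 4 = ((q : ℝ) ^ 2) ^ 2 by ring]
    exact Real.sqrt_sq (by positivity)
  have hb : N ^ (1 / 2 : ℝ) * (N ^ (3 / 2 : ℝ)) ^ (1 / 12 : ℝ) ≤ 32 * (q : ℝ) ^ 5 := by
    rw [← Real.rpow_mul hN0.le, ← Real.rpow_add hN0]
    have h6 : N ≤ (2 * (q : ℝ)) ^ 8 := by
      refine le_trans h5 ?_
      rw [hk]
      push_cast
      have : 0 ≤ (q : ℝ) ^ 8 := by positivity
      nlinarith
    calc N ^ ((1 / 2 : ℝ) + 3 / 2 * (1 / 12)) ≤ ((2 * (q : ℝ)) ^ 8) ^ ((1 / 2 : ℝ) + 3 / 2 * (1 / 12)) :=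
          Real.rpow_le_rpow hN0.le h6 (by norm_num)
      _ = (2 * (q : ℝ)) ^ 5 := by
          rw [← Real.rpow_natCast, ← Real.rpow_mul (by positivity), ← Real.rpow_natCast]
          norm_num
      _ = _ := by ring
  have h7 : (k : ℝ) * (Real.sqrt k - 11) ≤ |K| * (32 * (q : ℝ) ^ 5) := by
    refine le_trans hlow (le_trans hmain ?_)
    rw [mul_assoc]
    have h8 : 0 ≤ N ^ (1 / 2 : ℝ) * (N ^ (3 / 2 : ℝ)) ^ (1 / 12 : ℝ) := by positivity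
    calc K * (N ^ (1 / 2 : ℝ) * (N ^ (3 / 2 : ℝ)) ^ (1 / 12 : ℝ)) ≤
          |K| * (N ^ (1 / 2 : ℝ) * (N ^ (3 / 2 : ℝ)) ^ (1 / 12 : ℝ)) :=
          mul_le_mul_of_nonneg_right (le_abs_self K) h8
      _ ≤ _ := mul_le_mul_of_nonneg_left hb hKabs
  rw [hsqrt, hk] at h7
  push_cast at h7
  have h9 : (0 : ℝ) < (q : ℝ) ^ 4 := by positivity
  have h10 : (q : ℝ) ^ 4 * ((q : ℝ) ^ 2 - 11) ≤ (q : ℝ) ^ 4 * (|K| * 32 * q) := by
    calc _ ≤ |K| * (32 * (q : ℝ) ^ 5) := h7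
      _ = _ := by ring
  have h11 := le_of_mul_le_mul_left h10 h9
  nlinarith

end Pool.Agent.S16808
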