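import Pool.Statements.S16915
import Pool.Agent.R322.Clique

/-!
If `b ≠ d`, `a ∣ b d` and `gcd (a, b, d) = 1` then `gcd (a, b - d) = 1`, and the ratios
`(an+b)/(an+d)` contain all `(m+1)/m` (or all `m/(m+1)`) with `m` large in one residue class modulo
`a`, a class `c` with `a ∣ c (c + 1)`. For every `K` there are integers `n₁ < ⋯ < n_K` all of whose
quotients `n_j / n_i` (`i < j`) are of that form (`Pool.Agent.R322.exists_clique`). By pigeonhole two
of the sets `T_{n_i}⁻¹ A` meet in positive measure.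
-/

set_option autoImplicit false
open MeasureTheory
open Pool Pool.MP_4fa6ed_nt

namespace Pool.Agent.S16915

/-- Pigeonhole: among enough translates two meet in positive measure. -/
lemma pigeon (X : Type) [MeasurableSpace X] (μ : Measure X) [IsProbabilityMeasure μ]
    (S : Finset ℕ) (B : ℕ → Set X) (hB : ∀ x ∈ S, MeasurableSet (B x)) (ε : ENNReal)
    (hε : ∀ x ∈ S, μ (B x) = ε) (hcard : 1 < (S.card : ENNReal) * ε) :
    ∃ x ∈ S, ∃ y ∈ S, x < y ∧ 0 < μ (B x ∩ B y) := by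
  by_contra hcon
  push Not at hcon
  have hd : (S : Set ℕ).Pairwise (Function.onFun (AEDisjoint μ) B) := by
    intro x hx y hy hxy
    rcases lt_or_gt_of_ne hxy with h | h
    · exact le_antisymm (hcon x hx y hy h) zero_le
    · have := le_antisymm (hcon y hy x hx h) zero_le
      show μ (B x ∩ B y) = 0
      rw [Set.inter_comm]; exact this
  have h1 : μ (⋃ x ∈ S, B x) = ∑ x ∈ S, μ (B x) :=
    measure_biUnion_finset₀ hd (fun x hx => (hB x hx).nullMeasurableSet)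
  have h2 : μ (⋃ x ∈ S, B x) ≤ 1 := prob_le_one
  rw [h1, Finset.sum_congr rfl hε, Finset.sum_const, nsmul_eq_mul] at h2
  exact absurd hcard (not_lt.mpr h2)

/-- The core: if `k > 0` is coprime to `a`, `c` with `a ∣ c (c+1)`; then for some `m ≥ L` with
`m ≡ c (mod a)` both `(m+1)/m` and `m/(m+1)` return `A` to itself. -/
lemma core (a : ℕ) (ha : 0 < a) (c : ℕ) (hc : a ∣ c * (c + 1)) (L : ℕ)
    (X : Type) [MeasurableSpace X] (μ : Measure X) [IsProbabilityMeasure μ]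
    (T : ℚ → X → X)
    (hT : ∀ q r : ℚ, 0 < q → 0 < r → T (q * r) = T q ∘ T r)
    (hmp : ∀ q : ℚ, 0 < q → MeasurePreserving (T q) μ μ)
    (A : Set X) (hA : MeasurableSet A) (hpos : 0 < μ A) :
    ∃ m : ℕ, L ≤ m ∧ 0 < m ∧ m ≡ c [MOD a] ∧
      0 < μ (A ∩ T (((m : ℚ) + 1) / m) ⁻¹' A) ∧ 0 < μ (A ∩ T ((m : ℚ) / (m + 1)) ⁻¹' A) := by
  -- the two parts of a
  obtain ⟨a₁, ha₁⟩ : ∃ a₁, a₁ = Nat.gcd a c := ⟨_, rfl⟩
  obtain ⟨a₂, ha₂⟩ : ∃ a₂, a₂ = Nat.gcd a (c + 1) := ⟨_, rfl⟩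
  have h1 : 0 < a₁ := ha₁ ▸ Nat.gcd_pos_of_pos_left _ ha
  have h2 : 0 < a₂ := ha₂ ▸ Nat.gcd_pos_of_pos_left _ ha
  have hcc : Nat.Coprime c (c + 1) := by simp
  have hcop : Nat.Coprime a₁ a₂ := by
    rw [ha₁, ha₂]
    exact Nat.Coprime.coprime_dvd_left (Nat.gcd_dvd_right a c)
      (Nat.Coprime.coprime_dvd_right (Nat.gcd_dvd_right a (c + 1)) hcc)
  have hprod : a ∣ a₁ * a₂ := by
    have : Nat.gcd a (c * (c + 1)) ∣ Nat.gcd a c * Nat.gcd a (c + 1) := Nat.gcd_mul_right_dvd_mul_gcd _ _ _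
    rw [Nat.gcd_eq_left hc] at this
    rw [ha₁, ha₂]; exact this
  -- size of the clique
  obtain ⟨K, hK⟩ : ∃ K : ℕ, 1 < (K : ENNReal) * μ A := by
    obtain ⟨n, hn⟩ := ENNReal.exists_nat_mul_gt hpos.ne' (ENNReal.one_ne_top)
    exact ⟨n, hn⟩
  obtain ⟨S, ⟨hSpos, hScl⟩, hScard⟩ := Pool.Agent.R322.exists_clique a₁ a₂ (L + 1) h1 h2 hcop K
  obtain ⟨x, hx, y, hy, hxy, hμ⟩ := pigeon X μ S (fun x => T (x : ℚ) ⁻¹' A)
    (fun x hx => (hmp x (by exact_mod_cast hSpos x hx)).measurable hA) (μ A)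
    (fun x hx => (hmp x (by exact_mod_cast hSpos x hx)).measure_preimage hA.nullMeasurableSet)
    (by rw [hScard]; exact hK)
  have hx0 := hSpos x hx
  have hy0 := hSpos y hy
  obtain ⟨d1, d2, d3⟩ := hScl x hx y hy hxy
  -- m = x / (y - x)
  have hdx : (y - x) ∣ x := (Dvd.intro_left a₁ rfl).trans d1
  obtain ⟨m, hm⟩ := hdx
  obtain ⟨δ, hδ⟩ : ∃ δ, δ = y - x := ⟨_, rfl⟩
  have hδ0 : 0 < δ := by omega
  rw [← hδ] at hm d1 d2 d3
  have hyx : y = δ * (m + 1) := by rw [mul_add, ← hm]; omega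
  have hm0 : 0 < m := by
    rcases Nat.eq_zero_or_pos m with h0 | h0
    · subst h0; omega
    · exact h0
  have hLm : L ≤ m := by
    have h3 : δ * (L + 1) ≤ δ * m := by rw [← hm, mul_comm]; exact d3
    have := Nat.le_of_mul_le_mul_left h3 hδ0
    omega
  have e1 : a₁ ∣ m := by
    have h3 : δ * a₁ ∣ δ * m := by rw [← hm, mul_comm]; exact d1
    exact (Nat.mul_dvd_mul_iff_left hδ0).mp h3
  have e2 : a₂ ∣ m + 1 := by
    have h3 : δ * a₂ ∣ δ * (m + 1) := by rw [← hyx, mul_comm]; exact d2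
    exact (Nat.mul_dvd_mul_iff_left hδ0).mp h3
  have hmod : m ≡ c [MOD a] := by
    have g1 : m ≡ c [MOD a₁] :=
      ((Nat.modEq_zero_iff_dvd).mpr e1).trans
        ((Nat.modEq_zero_iff_dvd).mpr (ha₁ ▸ Nat.gcd_dvd_right a c)).symm
    have g2 : m ≡ c [MOD a₂] := by
      have : m + 1 ≡ c + 1 [MOD a₂] :=
        ((Nat.modEq_zero_iff_dvd).mpr e2).trans
          ((Nat.modEq_zero_iff_dvd).mpr (ha₂ ▸ Nat.gcd_dvd_right a (c + 1))).symm
      exact Nat.ModEq.add_right_cancel' 1 this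
    exact ((Nat.modEq_and_modEq_iff_modEq_mul hcop).mp ⟨g1, g2⟩).of_dvd hprod
  have hmq : (0 : ℚ) < m := by exact_mod_cast hm0
  have hxq : (0 : ℚ) < x := by exact_mod_cast hx0
  have hyq : (0 : ℚ) < y := by exact_mod_cast hy0
  have hδq : (0 : ℚ) < δ := by exact_mod_cast hδ0
  have hxe : (x : ℚ) = δ * m := by rw [hm]; push_cast; ring
  have hye : (y : ℚ) = δ * (m + 1) := by rw [hyx]; push_cast; ring
  refine ⟨m, hLm, hm0, hmod, ?_, ?_⟩
  · have q0 : (0 : ℚ) < ((m : ℚ) + 1) / m := by positivity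
    have hT1 : T (y : ℚ) = T (((m : ℚ) + 1) / m) ∘ T (x : ℚ) := by
      rw [← hT _ _ q0 hxq]
      congr 1
      rw [hxe, hye]; field_simp
    have hset : T (x : ℚ) ⁻¹' A ∩ T (y : ℚ) ⁻¹' A =
        T (x : ℚ) ⁻¹' (A ∩ T (((m : ℚ) + 1) / m) ⁻¹' A) := by
      rw [hT1]; rfl
    have hme : MeasurableSet (A ∩ T (((m : ℚ) + 1) / m) ⁻¹' A) :=
      hA.inter ((hmp _ q0).measurable hA)
    rw [← (hmp x hxq).measure_preimage hme.nullMeasurableSet, ← hset]
    exact hμ
  · have q0 : (0 : ℚ) < (m : ℚ) / (m + 1) := by positivity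
    have hT1 : T (x : ℚ) = T ((m : ℚ) / (m + 1)) ∘ T (y : ℚ) := by
      rw [← hT _ _ q0 hyq]
      congr 1
      rw [hxe, hye]; field_simp
    have hset : T (x : ℚ) ⁻¹' A ∩ T (y : ℚ) ⁻¹' A =
        T (y : ℚ) ⁻¹' (A ∩ T ((m : ℚ) / (m + 1)) ⁻¹' A) := by
      rw [hT1, Set.inter_comm]; rfl
    have hme : MeasurableSet (A ∩ T ((m : ℚ) / (m + 1)) ⁻¹' A) :=
      hA.inter ((hmp _ q0).measurable hA)
    rw [← (hmp y hyq).measure_preimage hme.nullMeasurableSet, ← hset]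
    exact hμ

/-- Arithmetic: if `k > 0` is coprime to `a` and `a ∣ e (e + k)`, there is a class `c` modulo `a`
with `a ∣ c (c + 1)` and `k m ≡ e (mod a)` for all `m` in that class. -/
lemma arith (a : ℕ) (ha : 0 < a) (e k : ℤ) (hcop : IsCoprime (a : ℤ) k)
    (h : (a : ℤ) ∣ e * (e + k)) :
    ∃ c : ℕ, a ∣ c * (c + 1) ∧ ∀ m : ℕ, m ≡ c [MOD a] → (a : ℤ) ∣ k * m - e := by
  have haZ : (0 : ℤ) < a := by exact_mod_cast ha
  obtain ⟨u, v, huv⟩ := hcop
  -- v * k ≡ 1 mod a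
  obtain ⟨c, hc⟩ : ∃ c : ℕ, (c : ℤ) = (v * e) % a :=
    ⟨((v * e) % a).toNat, Int.toNat_of_nonneg (Int.emod_nonneg _ haZ.ne')⟩
  have hc1 : (a : ℤ) ∣ c - v * e := by
    rw [hc]
    have := Int.emod_emod_of_dvd (v * e) (dvd_refl (a : ℤ))
    exact (Int.emod_emod_of_dvd (v * e) (dvd_refl (a : ℤ)) |> fun h =>
      Int.ModEq.dvd (by rw [Int.ModEq, h]))
  have hkc : (a : ℤ) ∣ k * c - e := by
    obtain ⟨w, hw⟩ := hc1
    refine ⟨k * w - u * e, ?_⟩
    have : (c : ℤ) = v * e + a * w := by linarith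
    rw [this]
    linear_combination e * huv
  refine ⟨c, ?_, ?_⟩
  · have h3 : (a : ℤ) ∣ (k * k) * (c * (c + 1)) := by
      have e1 : (k * k) * ((c : ℤ) * (c + 1)) = e * (e + k) + (k * c - e) * (k * c + k + e) := by ring
      rw [e1]
      exact dvd_add h (Dvd.dvd.mul_right hkc _)
    have hck : IsCoprime (a : ℤ) (k * k) := by
      have : IsCoprime (a : ℤ) k := ⟨u, v, huv⟩
      exact this.mul_right this
    have h4 : (a : ℤ) ∣ c * (c + 1) := hck.dvd_of_dvd_mul_left h3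
    exact_mod_cast h4
  · intro m hm
    have h5 : (a : ℤ) ∣ (m : ℤ) - c := by
      have := (Int.natCast_modEq_iff.mpr hm)
      exact this.symm.dvd
    have e1 : k * (m : ℤ) - e = k * (m - c) + (k * c - e) := by ring
    rw [e1]
    exact dvd_add (Dvd.dvd.mul_left h5 _) hkc

/-- If a≥1, gcd(a,b,d)=1, and b=d or a divides bd, then for every measure-preserving action of the positive rationals under multiplication and every positive-measure set A, some ratio (an+b)/(an+d) with n≥1 and both terms positive returns A to itself in positive measure. -/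
theorem result :
    ∀ (a : ℕ) (b d : ℤ), 0 < a →
      (∀ k : ℤ, k ∣ (a : ℤ) → k ∣ b → k ∣ d → IsUnit k) →
      (b = d ∨ (a : ℤ) ∣ b * d) →
      ∀ (X : Type) [MeasurableSpace X] (μ : Measure X) [IsProbabilityMeasure μ]
        (T : ℚ → X → X),
        T 1 = id →
        (∀ q r : ℚ, 0 < q → 0 < r → T (q * r) = T q ∘ T r) →
        (∀ q : ℚ, 0 < q → MeasurePreserving (T q) μ μ) →
        ∀ A : Set X, MeasurableSet A → 0 < μ A →
          ∃ n : ℕ, 0 < n ∧ 0 < (a : ℤ) * n + b ∧ 0 < (a : ℤ) * n + d ∧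
            0 < μ (A ∩ T (((a : ℚ) * n + b) / ((a : ℚ) * n + d)) ⁻¹' A) := by
  intro a b d ha hgcd hbd X _ μ _ T hT1 hTm hmp A hA hpos
  have haZ : (0 : ℤ) < a := by exact_mod_cast ha
  by_cases hbd' : b = d
  · -- the trivial case
    subst hbd'
    refine ⟨b.natAbs + 1, by omega, ?_, ?_, ?_⟩
    · have : (1 : ℤ) * ((b.natAbs + 1 : ℕ) : ℤ) ≤ a * ((b.natAbs + 1 : ℕ) : ℤ) :=
        mul_le_mul_of_nonneg_right haZ (by positivity)
      omega
    · have : (1 : ℤ) * ((b.natAbs + 1 : ℕ) : ℤ) ≤ a * ((b.natAbs + 1 : ℕ) : ℤ) :=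
        mul_le_mul_of_nonneg_right haZ (by positivity)
      omega
    · have h0 : (0 : ℤ) < a * ((b.natAbs + 1 : ℕ) : ℤ) + b := by
        have : (1 : ℤ) * ((b.natAbs + 1 : ℕ) : ℤ) ≤ a * ((b.natAbs + 1 : ℕ) : ℤ) :=
          mul_le_mul_of_nonneg_right haZ (by positivity)
        omega
      have h1 : (0 : ℚ) < (a : ℚ) * ((b.natAbs + 1 : ℕ) : ℚ) + b := by
        have h2 : ((0 : ℤ) : ℚ) < ((a * ((b.natAbs + 1 : ℕ) : ℤ) + b : ℤ) : ℚ) := Int.cast_lt.mpr h0
        rw [Int.cast_add, Int.cast_mul, Int.cast_natCast, Int.cast_natCast, Int.cast_zero] at h2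
        exact h2
      rw [div_self h1.ne', hT1]
      simpa using hpos
  have hdvd : (a : ℤ) ∣ b * d := by
    rcases hbd with h | h
    · exact absurd h hbd'
    · exact h
  have hcop : IsCoprime (a : ℤ) (b - d) := by
    rw [Int.isCoprime_iff_gcd_eq_one]
    by_contra hne
    obtain ⟨p, hp, hpd⟩ := Nat.exists_prime_and_dvd hne
    have hpZ : Prime (p : ℤ) := Nat.prime_iff_prime_int.mp hp
    have hpa : (p : ℤ) ∣ a := (Int.natCast_dvd_natCast.mpr hpd).trans (Int.gcd_dvd_left _ _)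
    have hpk : (p : ℤ) ∣ b - d := (Int.natCast_dvd_natCast.mpr hpd).trans (Int.gcd_dvd_right _ _)
    have hpbd : (p : ℤ) ∣ b * d := hpa.trans hdvd
    have hboth : (p : ℤ) ∣ b ∧ (p : ℤ) ∣ d := by
      rcases hpZ.dvd_or_dvd hpbd with h | h
      · exact ⟨h, by have := dvd_sub h hpk; simpa using this⟩
      · exact ⟨by have := dvd_add hpk h; simpa using this, h⟩
    exact hpZ.not_isUnit (hgcd p hpa hboth.1 hboth.2)
  rcases lt_or_gt_of_ne hbd' with hlt | hgt
  · -- b < d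
    obtain ⟨c, hc, hcm⟩ := arith a ha b (d - b) (by rw [← IsCoprime.neg_right_iff]; simpa using hcop)
      (by have : b * (b + (d - b)) = b * d := by ring
          rw [this]; exact hdvd)
    obtain ⟨m, hm, hm0, hmc, -, hμ⟩ := core a ha c hc (a + b.natAbs) X μ T hTm hmp A hA hpos
    obtain ⟨n', hn'⟩ := hcm m hmc
    have hk : (1 : ℤ) ≤ d - b := by omega
    have hkm : (m : ℤ) ≤ (d - b) * m := by
      nlinarith [(Int.natCast_nonneg m)]
    have hmZ : ((a + b.natAbs : ℕ) : ℤ) ≤ m := by exact_mod_cast hm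
    have hn'0 : 0 < n' := by
      by_contra hcon
      have : (a : ℤ) * n' ≤ 0 := mul_nonpos_of_nonneg_of_nonpos haZ.le (by omega)
      push_cast at hmZ
      have h9 := abs_nonneg b
      have : b ≤ |b| := le_abs_self b
      omega
    obtain ⟨n, rfl⟩ := Int.eq_ofNat_of_zero_le hn'0.le
    have e1 : (a : ℤ) * n + b = (d - b) * m := by linarith
    have e2 : (a : ℤ) * n + d = (d - b) * (m + 1) := by linarith
    have hmZ0 : (0 : ℤ) < m := by exact_mod_cast hm0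
    refine ⟨n, by exact_mod_cast hn'0, ?_, ?_, ?_⟩
    · rw [e1]; positivity
    · rw [e2]; positivity
    · have q1 : (a : ℚ) * n + b = (d - b) * m := by exact_mod_cast e1
      have q2 : (a : ℚ) * n + d = (d - b) * (m + 1) := by exact_mod_cast e2
      have hdb : ((d : ℚ) - b) ≠ 0 := by
        have : (0 : ℚ) < (d : ℚ) - b := by exact_mod_cast (by omega : (0 : ℤ) < d - b)
        exact this.ne'
      rw [q1, q2, mul_div_mul_left _ _ hdb]
      exact hμ
  · -- d < b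
    obtain ⟨c, hc, hcm⟩ := arith a ha d (b - d) hcop
      (by have : d * (d + (b - d)) = b * d := by ring
          rw [this]; exact hdvd)
    obtain ⟨m, hm, hm0, hmc, hμ, -⟩ := core a ha c hc (a + d.natAbs) X μ T hTm hmp A hA hpos
    obtain ⟨n', hn'⟩ := hcm m hmc
    have hk : (1 : ℤ) ≤ b - d := by omega
    have hkm : (m : ℤ) ≤ (b - d) * m := by
      nlinarith [(Int.natCast_nonneg m)]
    have hmZ : ((a + d.natAbs : ℕ) : ℤ) ≤ m := by exact_mod_cast hm
    have hn'0 : 0 < n' := by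
      by_contra hcon
      have : (a : ℤ) * n' ≤ 0 := mul_nonpos_of_nonneg_of_nonpos haZ.le (by omega)
      push_cast at hmZ
      have h9 := abs_nonneg d
      have : d ≤ |d| := le_abs_self d
      omega
    obtain ⟨n, rfl⟩ := Int.eq_ofNat_of_zero_le hn'0.le
    have e1 : (a : ℤ) * n + d = (b - d) * m := by linarith
    have e2 : (a : ℤ) * n + b = (b - d) * (m + 1) := by linarith
    have hmZ0 : (0 : ℤ) < m := by exact_mod_cast hm0
    refine ⟨n, by exact_mod_cast hn'0, ?_, ?_, ?_⟩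
    · rw [e2]; positivity
    · rw [e1]; positivity
    · have q1 : (a : ℚ) * n + d = (b - d) * m := by exact_mod_cast e1
      have q2 : (a : ℚ) * n + b = (b - d) * (m + 1) := by exact_mod_cast e2
      have hdb : ((b : ℚ) - d) ≠ 0 := by
        have : (0 : ℚ) < (b : ℚ) - d := by exact_mod_cast (by omega : (0 : ℤ) < b - d)
        exact this.ne'
      rw [q1, q2, mul_div_mul_left _ _ hdb]
      exact hμ

end Pool.Agent.S16915
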