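import Pool.Statements.S16940
import Pool.Agent.R311.CenFE

set_option autoImplicit false
open Complex DirichletCharacter
open Pool Pool.MP_50d0fc_nt

namespace Pool.Agent.S16940

/-- The negation of the preceding statement: There are A>0, D>1/2 such that for prime q→∞, uniformly in θ in [0,2π], the max over non-principal χ mod q with L(1/2,χ)≠0 of Re(e^{-iθ}L'/L(1/2,χ)) is asymptotic to A·√(log q)·(log log q)^D. -/
theorem result :
    ¬ (∃ A D : ℝ, 0 < A ∧ 1 / 2 < D ∧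
      ∀ ε : ℝ, 0 < ε → ∃ Q : ℕ, ∀ (q : ℕ) [NeZero q], q.Prime → Q ≤ q →
        ∀ θ : ℝ, θ ∈ Set.Icc (0 : ℝ) (2 * Real.pi) →
          (∀ χ : DirichletCharacter ℂ q, χ ≠ 1 → LFunction χ (1 / 2) ≠ 0 →
            (Complex.exp (-(θ : ℂ) * Complex.I) *
                (deriv (LFunction χ) (1 / 2) / LFunction χ (1 / 2))).re ≤
              (1 + ε) * A * Real.sqrt (Real.log q) * (Real.log (Real.log q)) ^ D) ∧
          (∃ χ : DirichletCharacter ℂ q, χ ≠ 1 ∧ LFunction χ (1 / 2) ≠ 0 ∧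
            (1 - ε) * A * Real.sqrt (Real.log q) * (Real.log (Real.log q)) ^ D ≤
              (Complex.exp (-(θ : ℂ) * Complex.I) *
                (deriv (LFunction χ) (1 / 2) / LFunction χ (1 / 2))).re)) := by
  rintro ⟨A, D, hA, hD, h⟩
  obtain ⟨Q, hQ⟩ := h (1 / 2) (by norm_num)
  obtain ⟨C, hC⟩ := Pool.Agent.R311.gamma_term_bdd
  -- a prime `q` beyond `Q` with `log q > 2 C` and `log log q > 0`
  obtain ⟨q, hq1, hq2⟩ := Nat.exists_infinite_primes (max Q (max 3 (⌈Real.exp (2 * C)⌉₊ + 1)))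
  have hqQ : Q ≤ q := (le_max_left _ _).trans hq1
  have hq3 : 3 ≤ q := ((le_max_left _ _).trans (le_max_right _ _)).trans hq1
  have hqC : ⌈Real.exp (2 * C)⌉₊ + 1 ≤ q :=
    ((le_max_right _ _).trans (le_max_right _ _)).trans hq1
  haveI : NeZero q := ⟨hq2.ne_zero⟩
  have hqpos : (0 : ℝ) < q := by exact_mod_cast hq2.pos
  have hlogC : 2 * C < Real.log q := by
    rw [Real.lt_log_iff_exp_lt hqpos]
    have h1 : Real.exp (2 * C) ≤ ⌈Real.exp (2 * C)⌉₊ := Nat.le_ceil _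
    have h2 : ((⌈Real.exp (2 * C)⌉₊ + 1 : ℕ) : ℝ) ≤ q := by exact_mod_cast hqC
    push_cast at h2
    linarith
  have hlog1 : 1 < Real.log q := by
    rw [Real.lt_log_iff_exp_lt hqpos]
    have h2 : (3 : ℝ) ≤ q := by exact_mod_cast hq3
    linarith [Real.exp_one_lt_d9]
  have hloglog : 0 < Real.log (Real.log q) := Real.log_pos hlog1
  obtain ⟨-, χ, hχ1, hχ2, hχ3⟩ := hQ q hq2 hqQ 0 ⟨le_refl _, by positivity⟩
  have hpos : 0 < (1 - 1 / 2) * A * Real.sqrt (Real.log q) * (Real.log (Real.log q)) ^ D := by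
    have h1 : 0 < Real.sqrt (Real.log q) := Real.sqrt_pos.2 (by linarith)
    have h2 : 0 < (Real.log (Real.log q)) ^ D := Real.rpow_pos_of_pos hloglog D
    have h3 : (0 : ℝ) < 1 - 1 / 2 := by norm_num
    positivity
  have hprim := Pool.Agent.R311.prim_of_ne_one hq2 hχ1
  have hre := Pool.Agent.R311.logDeriv_re hq2.one_lt hprim hχ1 hχ2
  have hCχ := (abs_le.1 (hC q χ)).1
  have hexp : Complex.exp (-((0 : ℝ) : ℂ) * Complex.I) = 1 := by simp
  rw [hexp, one_mul, hre] at hχ3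
  linarith

end Pool.Agent.S16940
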