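import Pool.Statements.S17203
import Pool.Agent.R330.Lam.E

set_option autoImplicit false
open Pool Pool.MP_637dc3_nt

namespace Pool.Agent.S17203

/-- For 1≤n≤m and transcendental real ξ: if infinitely many q≥1 have all ‖qξ^j‖≤q^(-l) for j≤n, then for every μ<(nl−m+n)/m infinitely many q≥1 have all ‖qξ^j‖≤q^(-μ) for j≤m; i.e. λ_m(ξ)≥(nλ_n(ξ)−m+n)/m. -/
theorem result :
    ∀ (m n : ℕ), 1 ≤ n → n ≤ m → ∀ ξ : ℝ, Transcendental ℚ ξ →
      ∀ l μ : ℝ,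
        {q : ℕ | 0 < q ∧ ∀ j ∈ Finset.Icc 1 n,
            |(q : ℝ) * ξ ^ j - ((round ((q : ℝ) * ξ ^ j) : ℤ) : ℝ)| ≤ (q : ℝ) ^ (-l)}.Infinite →
        μ < ((n : ℝ) * l - (m : ℝ) + (n : ℝ)) / (m : ℝ) →
        {q : ℕ | 0 < q ∧ ∀ j ∈ Finset.Icc 1 m,
            |(q : ℝ) * ξ ^ j - ((round ((q : ℝ) * ξ ^ j) : ℤ) : ℝ)| ≤ (q : ℝ) ^ (-μ)}.Infinite := by
  intro m n hn hnm ξ hξ l μ hinf hμ
  have hirr : Irrational ξ := by
    rintro ⟨r, rfl⟩
    exact hξ (isAlgebraic_algebraMap (R := ℚ) (A := ℝ) r)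
  have hm0 : (0 : ℝ) < m := by exact_mod_cast lt_of_lt_of_le hn hnm
  obtain ⟨s, rfl⟩ : ∃ s, m = n + s := ⟨m - n, by omega⟩
  rcases le_or_gt μ (1 / ((n + s : ℕ) : ℝ)) with h | h
  · exact Pool.Agent.R330.Lam.lam_lower (by omega) ξ hirr μ h
  rcases Nat.eq_zero_or_pos s with hs | hs
  · subst hs
    rw [add_zero] at hμ ⊢
    have hn0 : (0 : ℝ) < n := by exact_mod_cast hn
    have h1 : μ < l := by
      rw [lt_div_iff₀ hn0] at hμ
      nlinarith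
    apply hinf.mono
    rintro q ⟨hq0, hq⟩
    refine ⟨hq0, fun j hj => (hq j hj).trans ?_⟩
    have hq1 : (1 : ℝ) ≤ q := by exact_mod_cast hq0
    exact Real.rpow_le_rpow_of_exponent_le hq1 (by linarith)
  · refine Pool.Agent.R330.Lam.main n s hn hs ξ (fun a h0 => hirr.ne_int a (by linarith)) l μ hinf h.le ?_
    have e : ((n : ℝ) * l - ((n + s : ℕ) : ℝ) + n) = (n : ℝ) * l - s := by
      push_cast
      ring
    rw [e] at hμ
    exact hμ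

end Pool.Agent.S17203
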