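import Pool.Statements.S17877
import Pool.Agent.R465.Weird.Main

/-!
# The abundancy index of weird numbers is bounded

Let `P` be a finite set of primes with `∑_{p ∈ P} 1 / p ≥ 104`.  Call a dyadic interval
`[2 ^ k, 2 ^ (k + 1))` good if `k ≥ 100` and it contains at least `2 ^ k / k ^ 2` elements of `P`; the
elements of `P` outside the good intervals contribute at most `101` to the sum, and we drop them.
Choose the least good `k` such that the sum over the remaining primes `p < 2 ^ (k + 1)` is at least
`3 - 4 / 2 ^ k`; let `Q` be the set of these primes, `n` their product and `N = 2 ^ k`.

* (`Pairs`, `Toggle`, `Init`) Pairs of primes `a, a + d` of the top interval with the same difference `d`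
  give sums of divisors in a long arithmetic progression with difference `d ^ 2`, and together with the
  primes themselves a long interval.  Only divisors with at most four prime factors are used.
* (`Window`, `Final`) The other divisors can be added one after another: each divisor `e < n` of `n` is
  at most the sum of the smaller ones.  For large `e` put `f = n / e` and look at the divisors
  `e g' / g`, where `g ∣ e`, `g' ∣ f`, `g > g'`.  Their sum is at least `2 e` if `f` has a divisor `g'`
  larger than `64 k ^ 2`, and otherwise for `g' = f` by the minimality of `k`.

So every integer in a long interval containing `n` is a sum of distinct proper divisors of `n`, and all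
multiples of `n` are pseudoperfect.
-/

set_option autoImplicit false
open Pool Pool.MP_9b74c8_nt

namespace Pool.Agent.S17877

/-- There is a real constant C such that every weird number m (abundant, with no subset of its proper divisors summing to m) has sum of divisors divided by m at most C. -/
theorem result :
    ∃ C : ℝ, ∀ m : ℕ, 0 < m →
      m < ∑ i ∈ m.properDivisors, i →
      (¬ ∃ s ⊆ m.properDivisors, ∑ i ∈ s, i = m) →
      ((∑ i ∈ m.divisors, i : ℕ) : ℝ) / (m : ℝ) ≤ C := by
  refine ⟨Real.exp (2 * 104), ?_⟩
  intro m hm _ hweird
  refine (Pool.Agent.R465.Weird.sigma_le hm).trans (Real.exp_le_exp.2 ?_)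
  by_contra hcon
  push Not at hcon
  exact hweird (Pool.Agent.R465.Weird.main hm (by linarith))

end Pool.Agent.S17877
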