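import Pool.Statements.S17899
import Pool.Agent.R499.PhiShift

set_option autoImplicit false
open Filter Topology
open Pool Pool.MP_9d1108_nt

namespace Pool.Agent.S17899

open Pool.Agent.R499.PhiShift

lemma one_sub_ge {p : ℕ} (hp : p.Prime) : Real.exp (-(2 * (1 / (p : ℝ)))) ≤ 1 - (1 : ℝ) / p := by
  have h2 : (2 : ℝ) ≤ p := by exact_mod_cast hp.two_le
  have h3 : (1 : ℝ) / p ≤ 1 / 2 := one_div_le_one_div_of_le (by norm_num) h2
  have h4 : 0 ≤ (1 : ℝ) / p := by positivity
  set u := (1 : ℝ) / p with hu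
  rw [Real.exp_neg]
  have h5 : 1 + 2 * u ≤ Real.exp (2 * u) := by
    have := Real.add_one_le_exp (2 * u)
    linarith
  have h6 : (Real.exp (2 * u))⁻¹ ≤ (1 + 2 * u)⁻¹ := inv_anti₀ (by linarith) h5
  refine h6.trans ?_
  rw [inv_le_iff_one_le_mul₀ (by linarith)]
  nlinarith

lemma totient_ge (n : ℕ) : (n : ℝ) * Real.exp (-(2 * s 1 n)) ≤ Nat.totient n := by
  rw [totient_eq n]
  apply mul_le_mul_of_nonneg_left _ (Nat.cast_nonneg n)
  have h1 : s 1 n = ∑ p ∈ n.primeFactors, (1 : ℝ) / p := by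
    unfold s
    congr 1
    apply Finset.filter_true_of_mem
    intro p hp
    exact (Nat.prime_of_mem_primeFactors hp).one_lt
  rw [h1, Finset.mul_sum, ← Finset.sum_neg_distrib, Real.exp_sum]
  apply Finset.prod_le_prod
  · intro p _
    exact (Real.exp_pos _).le
  · intro p hp
    exact one_sub_ge (Nat.prime_of_mem_primeFactors hp)

/-- There is F with F(x)→∞ and F(n)/φ(n)→0 along a density-one set, such that for some C only finitely many x have more than C·F(x) integers n with n+φ(n) in the open interval (x, x+F(x)). -/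
theorem result :
    ∃ F : ℕ → ℝ, Tendsto F atTop atTop ∧
      (∃ A : Set ℕ,
        Tendsto (fun N : ℕ => ((A ∩ Set.Iio N).ncard : ℝ) / (N : ℝ)) atTop (𝓝 1) ∧
        Tendsto (fun n : ℕ => F n / (Nat.totient n : ℝ)) (atTop ⊓ 𝓟 A) (𝓝 0)) ∧
      ¬ (∀ C : ℝ, Set.Infinite {x : ℕ |
          ((Set.ncard {n : ℕ | (x : ℝ) < (n : ℝ) + (Nat.totient n : ℝ) ∧
              (n : ℝ) + (Nat.totient n : ℝ) < (x : ℝ) + F x} : ℕ) : ℝ) > C * F x}) := by
  -- thresholds
  have hT : ∀ k : ℕ, ∃ x₀ : ℕ, ∀ x : ℕ, x₀ ≤ x →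
      ((W x ((1 / 16 ^ k : ℝ) * x)).ncard : ℝ) ≤ 6 * (1 / 16 ^ k : ℝ) * x := by
    intro k
    apply main_count _ (by positivity)
    rw [div_le_one (by positivity)]
    exact one_le_pow₀ (by norm_num)
  choose T hT using hT
  obtain ⟨X, hXdef⟩ : ∃ X : ℕ → ℕ, X = fun k => ∑ i ∈ Finset.range (k + 1), T i + 256 ^ k := ⟨_, rfl⟩
  have hXT : ∀ k, T k ≤ X k := by
    intro k
    have h1 : T k ≤ ∑ i ∈ Finset.range (k + 1), T i :=
      Finset.single_le_sum (f := T) (fun i _ => Nat.zero_le _) (Finset.self_mem_range_succ k)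
    rw [hXdef]
    exact h1.trans (Nat.le_add_right _ _)
  have hX256 : ∀ k, 256 ^ k ≤ X k := by
    intro k
    rw [hXdef]
    exact Nat.le_add_left _ _
  -- the level function
  obtain ⟨j, hjdef⟩ : ∃ j : ℕ → ℕ, j = fun x => Nat.findGreatest (fun k => X k ≤ x) x := ⟨_, rfl⟩
  have hj1 : ∀ x, X 0 ≤ x → X (j x) ≤ x := by
    intro x hx
    rw [hjdef]
    exact Nat.findGreatest_spec (P := fun k => X k ≤ x) (Nat.zero_le x) hx
  have hj2 : ∀ k x, X k ≤ x → k ≤ j x := by
    intro k x hx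
    have h1 : k < 256 ^ k := Nat.lt_pow_self (by norm_num)
    have h2 := hX256 k
    rw [hjdef]
    exact Nat.le_findGreatest (P := fun k => X k ≤ x) (by omega) hx
  have hjtop : Tendsto j atTop atTop := by
    rw [tendsto_atTop]
    intro k
    filter_upwards [eventually_ge_atTop (X k)] with x hx
    exact hj2 k x hx
  obtain ⟨F, hFdef⟩ : ∃ F : ℕ → ℝ, F = fun x : ℕ => (1 / 16 ^ (j x) : ℝ) * x := ⟨_, rfl⟩
  refine ⟨F, ?_, ⟨{n : ℕ | s 1 n ≤ j n}, ?_, ?_⟩, ?_⟩
  · -- F → ∞
    have h1 : Tendsto (fun x : ℕ => Real.sqrt (x : ℝ)) atTop atTop :=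
      Real.tendsto_sqrt_atTop.comp tendsto_natCast_atTop_atTop
    refine tendsto_atTop_mono' atTop ?_ h1
    filter_upwards [eventually_ge_atTop (X 0)] with x hx
    have h2 : ((16 : ℝ) ^ (j x)) ^ 2 ≤ x := by
      have h3 : 256 ^ (j x) ≤ x := (hX256 (j x)).trans (hj1 x hx)
      have h4 : ((256 : ℝ) ^ (j x)) ≤ x := by exact_mod_cast h3
      calc ((16 : ℝ) ^ (j x)) ^ 2 = ((16 : ℝ) ^ 2) ^ (j x) := by rw [← pow_mul, ← pow_mul, mul_comm]
        _ = (256 : ℝ) ^ (j x) := by norm_num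
        _ ≤ x := h4
    have h5 : (16 : ℝ) ^ (j x) ≤ Real.sqrt x := Real.le_sqrt_of_sq_le h2
    have h6 : (0 : ℝ) < 16 ^ (j x) := by positivity
    have h7 : Real.sqrt x * Real.sqrt x = x := Real.mul_self_sqrt (Nat.cast_nonneg x)
    rw [hFdef]
    show Real.sqrt x ≤ 1 / 16 ^ (j x) * x
    rw [one_div, inv_mul_eq_div, le_div_iff₀ h6]
    calc Real.sqrt x * 16 ^ (j x) ≤ Real.sqrt x * Real.sqrt x :=
          mul_le_mul_of_nonneg_left h5 (Real.sqrt_nonneg _)
      _ = x := h7
  · -- density one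
    set A : Set ℕ := {n : ℕ | s 1 n ≤ j n} with hA
    have key : ∀ J : ℕ, 1 ≤ J → ∀ N : ℕ, (N : ℝ) ≤ ((A ∩ Set.Iio N).ncard : ℝ) + (X J + 1 : ℕ) + N / J := by
      intro J hJ N
      have hJ0 : (0 : ℝ) < J := by exact_mod_cast hJ
      have hcov : Set.Iio N ⊆ (A ∩ Set.Iio N) ∪ ((Finset.range (X J + 1) ∪
          (Finset.Icc 1 N).filter (fun n => (J : ℝ) < s 1 n) : Finset ℕ) : Set ℕ) := by
        intro n hn
        rw [Set.mem_Iio] at hn
        by_cases h1 : n ∈ A
        · exact Or.inl ⟨h1, hn⟩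
        · right
          rw [Finset.mem_coe, Finset.mem_union, Finset.mem_range, Finset.mem_filter, Finset.mem_Icc]
          by_cases h2 : n < X J + 1
          · exact Or.inl h2
          · right
            have h3 : ¬ (s 1 n ≤ j n) := h1
            push Not at h3
            have h4 : J ≤ j n := hj2 J n (by omega)
            have h5 : (J : ℝ) ≤ j n := by exact_mod_cast h4
            exact ⟨⟨by omega, hn.le⟩, h5.trans_lt h3⟩
      have hfin : (A ∩ Set.Iio N).Finite := (Set.finite_Iio N).subset Set.inter_subset_right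
      have h1 : (Set.Iio N).ncard ≤ (A ∩ Set.Iio N).ncard + (Finset.range (X J + 1) ∪
          (Finset.Icc 1 N).filter (fun n => (J : ℝ) < s 1 n)).card := by
        refine (Set.ncard_le_ncard hcov (hfin.union (Finset.finite_toSet _))).trans ?_
        refine (Set.ncard_union_le _ _).trans ?_
        rw [Set.ncard_coe_finset]
      have h2 : (Set.Iio N).ncard = N := by
        rw [← Finset.coe_Iio, Set.ncard_coe_finset, Nat.card_Iio]
      rw [h2] at h1
      have h3 := Finset.card_union_le (Finset.range (X J + 1))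
        ((Finset.Icc 1 N).filter (fun n => (J : ℝ) < s 1 n))
      rw [Finset.card_range] at h3
      have h4 := card_s_gt 1 N le_rfl J hJ0
      rw [Nat.cast_one, one_mul] at h4
      have h5 : (N : ℝ) ≤ ((A ∩ Set.Iio N).ncard : ℝ) + ((X J + 1 : ℕ) +
          (((Finset.Icc 1 N).filter (fun n => (J : ℝ) < s 1 n)).card : ℝ)) := by
        exact_mod_cast h1.trans (Nat.add_le_add_left h3 _)
      linarith
    have hle : ∀ N : ℕ, ((A ∩ Set.Iio N).ncard : ℝ) ≤ N := by
      intro N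
      have h1 : (A ∩ Set.Iio N).ncard ≤ (Set.Iio N).ncard :=
        Set.ncard_le_ncard Set.inter_subset_right (Set.finite_Iio N)
      have h2 : (Set.Iio N).ncard = N := by
        rw [← Finset.coe_Iio, Set.ncard_coe_finset, Nat.card_Iio]
      rw [h2] at h1
      exact_mod_cast h1
    rw [tendsto_order]
    constructor
    · intro a ha
      obtain ⟨J, hJ⟩ := exists_nat_gt (2 / (1 - a))
      have hJ0 : (0 : ℝ) < J := lt_trans (div_pos (by norm_num) (by linarith)) hJ
      have hJ1 : 1 ≤ J := by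
        have : 0 < J := by exact_mod_cast hJ0
        omega
      obtain ⟨N₀, hN₀⟩ := exists_nat_gt ((X J + 1 : ℕ) * (J : ℝ))
      filter_upwards [eventually_ge_atTop N₀, eventually_gt_atTop 0] with N hN hN0
      have hN0' : (0 : ℝ) < N := by exact_mod_cast hN0
      have h1 := key J hJ1 N
      have h2 : (N₀ : ℝ) ≤ N := by exact_mod_cast hN
      rw [lt_div_iff₀ hN0']
      have h3 : ((X J + 1 : ℕ) : ℝ) < N / J := by
        rw [lt_div_iff₀ hJ0]
        linarith
      have h4 : 2 / (J : ℝ) < 1 - a := by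
        rw [div_lt_iff₀ (by linarith)] at hJ
        rw [div_lt_iff₀ hJ0]
        linarith
      have h5 : (N : ℝ) / J = N * (1 / J) := by ring
      have h6 : 2 / (J : ℝ) = 2 * (1 / J) := by ring
      rw [h6] at h4
      rw [h5] at h1 h3
      nlinarith
    · intro a ha
      filter_upwards [eventually_gt_atTop 0] with N hN0
      have hN0' : (0 : ℝ) < N := by exact_mod_cast hN0
      rw [div_lt_iff₀ hN0']
      have := hle N
      nlinarith
  · -- F(n)/φ(n) → 0
    have hg : Tendsto (fun k : ℕ => (Real.exp 2 / 16) ^ k) atTop (𝓝 0) := by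
      apply tendsto_pow_atTop_nhds_zero_of_lt_one (by positivity)
      rw [div_lt_one (by norm_num)]
      have h1 : Real.exp 2 = Real.exp 1 * Real.exp 1 := by rw [← Real.exp_add]; norm_num
      have h2 := Real.exp_one_lt_d9
      have h3 := Real.exp_pos 1
      rw [h1]
      nlinarith
    have hg2 : Tendsto (fun n : ℕ => (Real.exp 2 / 16) ^ (j n)) (atTop ⊓ 𝓟 {n : ℕ | s 1 n ≤ j n}) (𝓝 0) :=
      (hg.comp hjtop).mono_left inf_le_left
    refine tendsto_of_tendsto_of_tendsto_of_le_of_le' tendsto_const_nhds hg2 ?_ ?_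
    · filter_upwards with n
      rw [hFdef]
      positivity
    · have h1 : ∀ᶠ n : ℕ in atTop ⊓ 𝓟 {n : ℕ | s 1 n ≤ j n}, n ∈ {n : ℕ | s 1 n ≤ j n} :=
        mem_inf_of_right (mem_principal_self _)
      have h2 : ∀ᶠ n : ℕ in atTop ⊓ 𝓟 {n : ℕ | s 1 n ≤ j n}, 0 < n :=
        (eventually_gt_atTop 0).filter_mono inf_le_left
      filter_upwards [h1, h2] with n hn hn0
      have hn' : s 1 n ≤ j n := hn
      have hφ : (0 : ℝ) < Nat.totient n := by exact_mod_cast Nat.totient_pos.2 hn0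
      rw [div_le_iff₀ hφ, hFdef]
      have h3 := totient_ge n
      have h4 : Real.exp (-(2 * (j n : ℝ))) ≤ Real.exp (-(2 * s 1 n)) := by
        apply Real.exp_le_exp.2
        linarith
      have h5 : (n : ℝ) * Real.exp (-(2 * (j n : ℝ))) ≤ Nat.totient n :=
        (mul_le_mul_of_nonneg_left h4 (Nat.cast_nonneg n)).trans h3
      have h6 : Real.exp 2 ^ (j n) * Real.exp (-(2 * (j n : ℝ))) = 1 := by
        rw [← Real.exp_nat_mul, ← Real.exp_add]
        rw [show (j n : ℝ) * 2 + -(2 * (j n : ℝ)) = 0 by ring, Real.exp_zero]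
      have h7 : (0 : ℝ) < Real.exp 2 ^ (j n) := by positivity
      have h8 : (n : ℝ) ≤ Real.exp 2 ^ (j n) * Nat.totient n := by
        calc (n : ℝ) = Real.exp 2 ^ (j n) * (n * Real.exp (-(2 * (j n : ℝ)))) := by
              rw [mul_left_comm, h6, mul_one]
          _ ≤ Real.exp 2 ^ (j n) * Nat.totient n := mul_le_mul_of_nonneg_left h5 h7.le
      show 1 / 16 ^ (j n) * (n : ℝ) ≤ (Real.exp 2 / 16) ^ (j n) * Nat.totient n
      rw [div_pow]
      calc 1 / 16 ^ (j n) * (n : ℝ) ≤ 1 / 16 ^ (j n) * (Real.exp 2 ^ (j n) * Nat.totient n) :=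
            mul_le_mul_of_nonneg_left h8 (by positivity)
        _ = Real.exp 2 ^ (j n) / 16 ^ (j n) * Nat.totient n := by ring
  · -- the bound
    intro hinf
    apply hinf 6
    apply (Set.finite_Iio (X 0)).subset
    intro x hx
    rw [Set.mem_Iio]
    by_contra hcon
    push Not at hcon
    have h1 := hT (j x) x ((hXT (j x)).trans (hj1 x hcon))
    have h2 : ((W x (F x)).ncard : ℝ) > 6 * F x := hx
    rw [hFdef] at h2
    have h3 : ((W x ((1 / 16 ^ (j x) : ℝ) * x)).ncard : ℝ) > 6 * ((1 / 16 ^ (j x) : ℝ) * x) := h2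
    linarith

end Pool.Agent.S17899
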