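-- Proof of frozen statement S18419.
import Pool.Statements.S18419

set_option autoImplicit false
open Pool Pool.MP_c520af_nt

namespace Pool.Agent.S18419

/-- For every number field K there are maps (x,y) to (y, F_d(y) − δ_d x), with deg F_d = d and δ_d ≠ 0, for each d ≥ 2, whose number of K-rational periodic points eventually exceeds C·d for every constant C.

Proof: take `F_d(y) = y (y-1) ⋯ (y-(d-1))` and `δ_d = -1`. On the grid `{0,…,d-1}²` the map is the
swap `(x,y) ↦ (y,x)`, so all `d²` grid points have period dividing `2`. -/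
theorem result :
    ∀ (K : Type) [Field K] [NumberField K],
      ∃ (F : ℕ → Polynomial K) (δ : ℕ → K),
        (∀ d : ℕ, 2 ≤ d → (F d).natDegree = d ∧ δ d ≠ 0) ∧
        ∀ C : ℕ, ∃ D : ℕ, ∀ d : ℕ, 2 ≤ d → D ≤ d →
          (((C * d : ℕ) : ℕ∞) <
            {P : K × K | ∃ n : ℕ, 1 ≤ n ∧
              (fun p : K × K => (p.2, (F d).eval p.2 - δ d * p.1))^[n] P = P}.encard) := by
  intro K _ _
  refine ⟨fun d => ∏ i ∈ Finset.range d, (Polynomial.X - Polynomial.C ((i : ℕ) : K)), fun _ => -1, ?_, ?_⟩
  · intro d _
    refine ⟨?_, by simp⟩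
    have h := Polynomial.natDegree_prod_of_monic (Finset.range d)
      (fun i : ℕ => (Polynomial.X - Polynomial.C ((i : ℕ) : K)))
      (fun i _ => Polynomial.monic_X_sub_C _)
    simp only [Polynomial.natDegree_X_sub_C, Finset.sum_const, Finset.card_range, smul_eq_mul,
      mul_one] at h
    exact h
  · intro C
    refine ⟨C + 1, fun d _ hD => ?_⟩
    set S : Set (K × K) := {P : K × K | ∃ n : ℕ, 1 ≤ n ∧
      (fun p : K × K => (p.2, (∏ i ∈ Finset.range d,
        (Polynomial.X - Polynomial.C ((i : ℕ) : K))).eval p.2 - (-1) * p.1))^[n] P = P} with hS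
    let g : ℕ × ℕ → K × K := fun q => ((q.1 : K), (q.2 : K))
    have hg : Function.Injective g := by
      intro a b hab
      have h1 : (a.1 : K) = (b.1 : K) := congrArg Prod.fst hab
      have h2 : (a.2 : K) = (b.2 : K) := congrArg Prod.snd hab
      exact Prod.ext (Nat.cast_injective h1) (Nat.cast_injective h2)
    have hsub : g '' ((Finset.range d ×ˢ Finset.range d : Finset (ℕ × ℕ)) : Set (ℕ × ℕ)) ⊆ S := by
      rintro _ ⟨⟨i, j⟩, hij, rfl⟩
      simp only [Finset.coe_product, Finset.coe_range, Set.mem_prod, Set.mem_Iio] at hij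
      obtain ⟨hi, hj⟩ := hij
      have hz : ∀ k : ℕ, k < d → (∏ i ∈ Finset.range d,
          (Polynomial.X - Polynomial.C ((i : ℕ) : K))).eval (k : K) = 0 := by
        intro k hk
        rw [Polynomial.eval_prod]
        exact Finset.prod_eq_zero (Finset.mem_range.mpr hk) (by simp)
      refine ⟨2, by norm_num, ?_⟩
      simp only [Function.iterate_succ, Function.iterate_zero, Function.comp_apply, id_eq, g]
      rw [hz j hj]
      have e : (0 : K) - (-1) * (i : K) = (i : K) := by ring
      rw [e, hz i hi]
      ext <;> simp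
    have hcard : (g '' ((Finset.range d ×ˢ Finset.range d : Finset (ℕ × ℕ)) :
        Set (ℕ × ℕ))).encard = ((d * d : ℕ) : ℕ∞) := by
      rw [hg.encard_image, Set.encard_coe_eq_coe_finsetCard, Finset.card_product, Finset.card_range]
    have hle := Set.encard_le_encard hsub
    rw [hcard] at hle
    refine lt_of_lt_of_le ?_ hle
    have hlt : C * d < d * d := Nat.mul_lt_mul_of_pos_right (by omega) (by omega)
    exact_mod_cast hlt

end Pool.Agent.S18419
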