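import Pool.Statements.S18875
import Pool.Agent.R331.SM.Perm
import Pool.Agent.R331.SM.ConjPerm
import Pool.Agent.R331.SM.Easy
import Pool.Agent.R331.SM.Easy2

set_option autoImplicit false
open scoped NumberField
open Pool Pool.MP_ed3ef1_nt

namespace Pool.Agent.S18875

/-- For every number field K and tuple a in O_K^n: some nonzero K-conjugates α_i (repeats allowed) satisfy Σ a_i α_i = 0 iff the strong archimedean and nonarchimedean absolute value criteria hold, or Σ a_i ω_i = 0 for some roots of unity ω_i. -/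
theorem result :
  ∀ (K : Type) [Field K] [NumberField K] (n : ℕ) (a : Fin n → 𝓞 K),
    (∃ α : Fin n → AlgebraicClosure K,
        (∀ i, α i ≠ 0) ∧ (∀ i j, minpoly K (α i) = minpoly K (α j)) ∧
        ∑ i, algebraMap K (AlgebraicClosure K) (a i : K) * α i = 0) ↔
    (((∀ v : NumberField.InfinitePlace K, ∀ i : Fin n,
          v (a i : K) < ∑ j ∈ Finset.univ.erase i, v (a j : K)) ∧
      (∀ v : IsDedekindDomain.HeightOneSpectrum (𝓞 K), ∀ i : Fin n,
          ∃ j : Fin n, j ≠ i ∧ v.valuation K (a i : K) ≤ v.valuation K (a j : K))) ∨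
     ∃ ω : Fin n → AlgebraicClosure K,
        (∀ i, ∃ m : ℕ, 0 < m ∧ ω i ^ m = 1) ∧
        ∑ i, algebraMap K (AlgebraicClosure K) (a i : K) * ω i = 0) := by
  intro K _ _ n a
  constructor
  · rintro ⟨α, h0, h1, h2⟩
    by_cases hR : ∃ ω : Fin n → AlgebraicClosure K,
        (∀ i, ∃ m : ℕ, 0 < m ∧ ω i ^ m = 1) ∧
        ∑ i, algebraMap K (AlgebraicClosure K) (a i : K) * ω i = 0
    · exact Or.inr hR
    · left
      refine ⟨fun v i => ?_, fun v i => ?_⟩
      · by_contra hlt
        push Not at hlt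
        exact hR (Pool.Agent.R331.SM.arch_of_conj (fun i => (a i : K)) α h0 h1 h2 v i hlt)
      · refine Pool.Agent.R331.SM.nonarch_of_conj (fun i => (a i : K)) α h0 h1 h2 ?_ v i
        by_contra hall
        push Not at hall
        apply hR
        refine ⟨fun _ => 1, fun _ => ⟨1, one_pos, one_pow _⟩, ?_⟩
        apply Finset.sum_eq_zero
        intro j _
        have h3 : (a j : K) = 0 := hall j
        rw [h3, map_zero, zero_mul]
  · rintro (⟨h1, h2⟩ | h)
    · obtain ⟨N, π, v, hv, h3⟩ := Pool.Agent.R331.SM.perm_of_local (fun i => (a i : K)) h1 h2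
      exact Pool.Agent.R331.SM.conj_of_perm (fun i => (a i : K)) π v hv h3
    · exact Pool.Agent.R331.SM.conj_of_roots (fun i => (a i : K)) h

end Pool.Agent.S18875
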