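import Pool.Statements.S19226
import Pool.Agent.Results.MP_284d10_pr.TwoSat

set_option autoImplicit false
open Pool Pool.MP_284d10_pr

namespace Pool.Agent.S19226

open Pool.Agent.H921S Pool.Agent.Results.MP_284d10_pr.TwoSat

/-- clauses as in the frozen statement -/
abbrev Cl (n : ℕ) := {c : Finset (Fin n × Bool) // c.card = 2 ∧ (c.image Prod.fst).card = 2}

theorem inj_of_card {n : ℕ} (c : Finset (Fin n × Bool)) (h : c.card = 2 ∧ (c.image Prod.fst).card = 2) :
    ∀ l ∈ c, ∀ l' ∈ c, l.1 = l'.1 → l = l' := by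
  have h1 : (c.image Prod.fst).card = c.card := by rw [h.1, h.2]
  have h2 := Finset.card_image_iff.1 h1
  intro l hl l' hl' hll
  exact h2 hl hl' hll

/-- the bijection between the two types of clauses -/
noncomputable def ce (n : ℕ) : Cl n ≃ Clause 2 n where
  toFun c := ⟨c.1, c.2.1, inj_of_card c.1 c.2⟩
  invFun C := ⟨C.lits, C.card_lits, by
    rw [Finset.card_image_of_injOn, C.card_lits]
    intro l hl l' hl' h
    exact C.distinct l hl l' hl' h⟩
  left_inv c := by simp
  right_inv C := by ext; simp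

theorem card_cl (n : ℕ) : Nat.card (Cl n) = Fintype.card (Clause 2 n) := by
  rw [← Nat.card_eq_fintype_card]
  exact Nat.card_congr (ce n)

/-- the bijection between the two types of orderings -/
noncomputable def oe (n : ℕ) : (Fin (Nat.card (Cl n)) ≃ Cl n) ≃ Ordering n where
  toFun e := (finCongr (card_cl n)).symm.trans (e.trans (ce n))
  invFun σ := (finCongr (card_cl n)).trans (σ.trans (ce n).symm)
  left_inv e := by ext x; simp
  right_inv σ := by ext x; simp

theorem oe_symm {n : ℕ} (e : Fin (Nat.card (Cl n)) ≃ Cl n) (c : Cl n) :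
    (((oe n e).symm (ce n c) : Fin _) : ℕ) = ((e.symm c : Fin _) : ℕ) := by
  simp [oe]

theorem mem_stage' {n : ℕ} (σ : Ordering n) (m : ℕ) (C : Clause 2 n) :
    C ∈ stage σ m ↔ ((σ.symm C : Fin _) : ℕ) < m := by
  simp only [stage, Finset.mem_filter, Finset.mem_univ, true_and]
  constructor
  · rintro ⟨i, hi, rfl⟩
    simpa using hi
  · intro h
    exact ⟨σ.symm C, h, by simp⟩

/-- the event of the frozen statement -/
def Ev {n : ℕ} (e : Fin (Nat.card (Cl n)) ≃ Cl n) : Prop :=
  ∃ m : ℕ,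
    (∀ j : ℕ, j < m → ∃ a : Fin n → Bool,
        ∀ c : Cl n, ((e.symm c : Fin _) : ℕ) < j → ∃ l ∈ c.val, a l.1 = l.2) ∧
    ∃ H : Finset (Cl n), H.Nonempty ∧
      (∀ c ∈ H, ((e.symm c : Fin _) : ℕ) < m) ∧
      ∃ a : Fin n → Bool,
        (∀ c ∈ H, ∃ l ∈ c.val, a l.1 = l.2) ∧
        ∀ b : Fin n → Bool, (∀ c ∈ H, ∃ l ∈ c.val, b l.1 = l.2) →
          ∀ i : Fin n, (∃ c ∈ H, ∃ l ∈ c.val, l.1 = i) → b i = a i

theorem ev_imp {n : ℕ} (e : Fin (Nat.card (Cl n)) ≃ Cl n) (h : Ev e) : ¬ NoneByUnsat (oe n e) := by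
  classical
  intro hN
  obtain ⟨m, h1, H, hH, hHm, a, ha, hu⟩ := h
  refine hN m ?_ ?_
  · intro j hj
    obtain ⟨a, ha⟩ := h1 j hj
    refine ⟨a, ?_⟩
    intro C hC
    rw [mem_stage'] at hC
    have h2 := oe_symm e ((ce n).symm C)
    rw [Equiv.apply_symm_apply] at h2
    obtain ⟨l, hl, hla⟩ := ha ((ce n).symm C) (by rw [← h2]; exact hC)
    exact ⟨l, hl, hla⟩
  · refine ⟨H.map (ce n).toEmbedding, ?_, ?_, ?_, ?_⟩
    · intro C hC
      rw [Finset.mem_map] at hC
      obtain ⟨c, hc, rfl⟩ := hC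
      rw [mem_stage']
      have := oe_symm e c
      simp only [Equiv.toEmbedding_apply]
      rw [this]
      exact hHm c hc
    · simpa using hH
    · refine ⟨a, ?_⟩
      intro C hC
      rw [Finset.mem_map] at hC
      obtain ⟨c, hc, rfl⟩ := hC
      exact ha c hc
    · intro b b' hb hb' v hv
      have key : ∀ b : Fin n → Bool, Sol b (H.map (ce n).toEmbedding) → b v = a v := by
        intro b hb
        apply hu b
        · intro c hc
          exact hb (ce n c) (Finset.mem_map_of_mem _ hc)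
        · simp only [vars, Finset.mem_biUnion, Finset.mem_image] at hv
          obtain ⟨C, hC, l, hl, hlv⟩ := hv
          rw [Finset.mem_map] at hC
          obtain ⟨c, hc, rfl⟩ := hC
          exact ⟨c, hc, l, hl, hlv⟩
      rw [key b hb, key b' hb']

theorem result :
    ¬ (∀ k : ℕ, 2 ≤ k →
    Filter.Tendsto
      (fun n : ℕ =>
        (Nat.card {e : Fin (Nat.card {c : Finset (Fin n × Bool) // c.card = k ∧ (c.image Prod.fst).card = k}) ≃
                      {c : Finset (Fin n × Bool) // c.card = k ∧ (c.image Prod.fst).card = k} //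
            ∃ m : ℕ,
              (∀ j : ℕ, j < m → ∃ a : Fin n → Bool,
                  ∀ c : {c : Finset (Fin n × Bool) // c.card = k ∧ (c.image Prod.fst).card = k},
                    ((e.symm c : Fin _) : ℕ) < j → ∃ l ∈ c.val, a l.1 = l.2) ∧
              ∃ H : Finset {c : Finset (Fin n × Bool) // c.card = k ∧ (c.image Prod.fst).card = k},
                H.Nonempty ∧
                (∀ c ∈ H, ((e.symm c : Fin _) : ℕ) < m) ∧
                ∃ a : Fin n → Bool,
                  (∀ c ∈ H, ∃ l ∈ c.val, a l.1 = l.2) ∧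
                  ∀ b : Fin n → Bool, (∀ c ∈ H, ∃ l ∈ c.val, b l.1 = l.2) →
                    ∀ i : Fin n, (∃ c ∈ H, ∃ l ∈ c.val, l.1 = i) → b i = a i} : ℝ) /
        (Nat.card (Fin (Nat.card {c : Finset (Fin n × Bool) // c.card = k ∧ (c.image Prod.fst).card = k}) ≃
                      {c : Finset (Fin n × Bool) // c.card = k ∧ (c.image Prod.fst).card = k}) : ℝ))
      Filter.atTop (nhds 1)) := by
  classical
  intro hall
  have h2 := hall 2 le_rfl
  obtain ⟨δ, hδ, n0, hn0⟩ := Pool.Agent.Results.MP_284d10_pr.TwoSat.result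
  have hlt : ∀ᶠ x : ℝ in nhds (1 : ℝ), 1 - δ < x := lt_mem_nhds (by linarith)
  obtain ⟨n, hn, hnn⟩ := ((h2.eventually hlt).and (Filter.eventually_ge_atTop n0)).exists
  have hp := hn0 n hnn
  have hE : Nat.card {e : Fin (Nat.card (Cl n)) ≃ Cl n // Ev e} ≤
      Nat.card {σ : Ordering n // ¬ NoneByUnsat σ} := by
    apply Nat.card_le_card_of_injective
      (fun x : {e : Fin (Nat.card (Cl n)) ≃ Cl n // Ev e} =>
        (⟨oe n x.1, ev_imp x.1 x.2⟩ : {σ : Ordering n // ¬ NoneByUnsat σ}))
    intro x y hxy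
    have := congrArg Subtype.val hxy
    exact Subtype.ext ((oe n).injective this)
  have hT : Nat.card (Fin (Nat.card (Cl n)) ≃ Cl n) = Nat.card (Ordering n) :=
    Nat.card_congr (oe n)
  have hpos : 0 < Fintype.card (Ordering n) := by
    by_contra h0
    have h0' : Fintype.card (Ordering n) = 0 := by omega
    unfold prob at hp
    rw [h0'] at hp
    simp at hp
    linarith
  have hsum : Nat.card {σ : Ordering n // ¬ NoneByUnsat σ} +
      (Finset.univ.filter (fun σ : Ordering n => NoneByUnsat σ)).card = Fintype.card (Ordering n) := by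
    rw [Nat.card_eq_fintype_card, Fintype.card_subtype]
    have := Finset.card_filter_add_card_filter_not (s := (Finset.univ : Finset (Ordering n)))
      (fun σ : Ordering n => NoneByUnsat σ)
    rw [Finset.card_univ] at this
    omega
  have hn' : 1 - δ < (Nat.card {e : Fin (Nat.card (Cl n)) ≃ Cl n // Ev e} : ℝ) /
      (Nat.card (Fin (Nat.card (Cl n)) ≃ Cl n) : ℝ) := hn
  rw [hT, Nat.card_eq_fintype_card (α := Ordering n)] at hn'
  have hposR : (0 : ℝ) < (Fintype.card (Ordering n) : ℝ) := by exact_mod_cast hpos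
  rw [lt_div_iff₀ hposR] at hn'
  unfold prob at hp
  rw [le_div_iff₀ hposR] at hp
  have hER : (Nat.card {e : Fin (Nat.card (Cl n)) ≃ Cl n // Ev e} : ℝ) ≤
      (Nat.card {σ : Ordering n // ¬ NoneByUnsat σ} : ℝ) := by exact_mod_cast hE
  have hsumR : (Nat.card {σ : Ordering n // ¬ NoneByUnsat σ} : ℝ) +
      ((Finset.univ.filter (fun σ : Ordering n => NoneByUnsat σ)).card : ℝ) =
      (Fintype.card (Ordering n) : ℝ) := by exact_mod_cast hsum
  nlinarith

end Pool.Agent.S19226
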