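import Pool.Statements.S19249
import Pool.Agent.R979.SV.Fin

set_option autoImplicit false
open MeasureTheory ProbabilityTheory
open Pool Pool.MP_30e781_pr

namespace Pool.Agent.S19249

open Pool.Agent.R979.SV

theorem inv_scale {n : ℕ} (B : Matrix (Fin n) (Fin n) ℝ) {s : ℝ} (hs : s ≠ 0) :
    (s • B)⁻¹ = s⁻¹ • B⁻¹ := by
  by_cases h : IsUnit B.det
  · apply Matrix.inv_eq_left_inv
    rw [Matrix.smul_mul, Matrix.mul_smul, Matrix.nonsing_inv_mul _ h, smul_smul,
      inv_mul_cancel₀ hs, one_smul]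
  · rw [Matrix.nonsing_inv_apply_not_isUnit _ h, Matrix.nonsing_inv_apply_not_isUnit, smul_zero]
    rw [Matrix.det_smul, isUnit_iff_ne_zero]
    rw [isUnit_iff_ne_zero] at h
    push Not at h ⊢
    rw [h, mul_zero]

theorem event_bound (n : ℕ) (Abar : Matrix (Fin n) (Fin n) ℝ) (s x : ℝ) (hs : 0 < s) (hx : 0 < x)
    (t : ℝ) (ht : 1 / (x * s) < t) :
    (Measure.pi (fun _ : Fin n => Measure.pi (fun _ : Fin n => gaussianReal 0 1)))
        {G : Fin n → Fin n → ℝ |
          ∃ v : Fin n → ℝ, (∑ i, v i ^ 2 ≤ 1) ∧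
            x ^ 2 ≤ ∑ i, (Matrix.mulVec (Abar + s • Matrix.of G)⁻¹ v) i ^ 2}
        ≤ ENNReal.ofReal (Real.sqrt n * t) := by
  have ht0 : 0 < t := lt_trans (by positivity) ht
  set M : Fin n → Fin n → ℝ := fun i j => s⁻¹ * Abar i j with hM
  set P : Set (Fin n → Fin n → ℝ) := {G | Psd (gr (M + G) - dg Finset.univ (t ^ 2))} with hP
  have hPm : MeasurableSet P :=
    (closed_psd _).measurableSet.preimage (measurable_const_add M)
  have hsub : {G : Fin n → Fin n → ℝ |
          ∃ v : Fin n → ℝ, (∑ i, v i ^ 2 ≤ 1) ∧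
            x ^ 2 ≤ ∑ i, (Matrix.mulVec (Abar + s • Matrix.of G)⁻¹ v) i ^ 2} ⊆ Pᶜ := by
    rintro G ⟨v, hv, hxv⟩ hG
    have h1 := inv_small ht0 (M + G) hG v
    have h2 : Abar + s • Matrix.of G = s • Matrix.of (M + G) := by
      ext i j
      simp only [Matrix.add_apply, Matrix.smul_apply, Matrix.of_apply, Pi.add_apply, hM,
        smul_eq_mul]
      field_simp
    rw [h2, inv_scale _ hs.ne'] at hxv
    have h3 : ∀ i, (Matrix.mulVec (s⁻¹ • (Matrix.of (M + G))⁻¹) v) i ^ 2 =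
        (s⁻¹) ^ 2 * (Matrix.mulVec ((Matrix.of (M + G))⁻¹) v) i ^ 2 := by
      intro i
      rw [Matrix.smul_mulVec]
      simp only [Pi.smul_apply, smul_eq_mul]
      ring
    simp only [h3] at hxv
    rw [← Finset.mul_sum] at hxv
    set Y := ∑ i, (Matrix.mulVec ((Matrix.of (M + G))⁻¹) v) i ^ 2 with hY
    have h4 : t ^ 2 * Y ≤ 1 := h1.trans hv
    have h5 : 1 < x * s * t := by
      rw [div_lt_iff₀ (by positivity)] at ht
      linarith
    have h6 : 1 < (x * s * t) ^ 2 := by nlinarith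
    have h7 : x ^ 2 * s ^ 2 ≤ Y := by
      have : (s⁻¹) ^ 2 * Y * s ^ 2 = Y := by field_simp
      rw [← this]
      exact mul_le_mul_of_nonneg_right hxv (sq_nonneg s)
    nlinarith [mul_le_mul_of_nonneg_left h7 (sq_nonneg t)]
  have hlow := prob_lower ht0 M
  rw [Fintype.card_fin] at hlow
  calc _ ≤ (Measure.pi (fun _ : Fin n => Measure.pi (fun _ : Fin n => gaussianReal 0 1))) Pᶜ :=
        measure_mono hsub
    _ = 1 - (Measure.pi (fun _ : Fin n => Measure.pi (fun _ : Fin n => gaussianReal 0 1))) P :=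
        prob_compl_eq_one_sub hPm
    _ ≤ 1 - ENNReal.ofReal (1 - √(n : ℝ) * t) := tsub_le_tsub_left hlow _
    _ ≤ ENNReal.ofReal (√(n : ℝ) * t) := by
        rw [tsub_le_iff_right]
        rw [← ENNReal.ofReal_one]
        refine le_trans ?_ ENNReal.ofReal_add_le
        apply ENNReal.ofReal_le_ofReal
        linarith

/-- For every n, real n×n matrix Abar, σ>0, x>0: if G has iid standard Gaussian entries, the probability that the spectral norm of (Abar+σG)⁻¹ is at least x is at most √n/(xσ). -/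
theorem result :
    ∀ (n : ℕ) (Abar : Matrix (Fin n) (Fin n) ℝ) (σ x : ℝ), 0 < σ → 0 < x →
      (Measure.pi (fun _ : Fin n => Measure.pi (fun _ : Fin n => gaussianReal 0 1)))
        {G : Fin n → Fin n → ℝ |
          ∃ v : Fin n → ℝ, (∑ i, v i ^ 2 ≤ 1) ∧
            x ^ 2 ≤ ∑ i, (Matrix.mulVec (Abar + σ • Matrix.of G)⁻¹ v) i ^ 2}
        ≤ ENNReal.ofReal (Real.sqrt n / (x * σ)) := by
  intro n Abar σ x hσ hx
  have hcont : Continuous fun t : ℝ => ENNReal.ofReal (Real.sqrt n * t) :=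
    ENNReal.continuous_ofReal.comp (continuous_const.mul continuous_id)
  have hlim := (hcont.tendsto (1 / (x * σ))).mono_left
    (nhdsWithin_le_nhds (s := Set.Ioi (1 / (x * σ))))
  have h1 : Real.sqrt n / (x * σ) = Real.sqrt n * (1 / (x * σ)) := by ring
  rw [h1]
  refine ge_of_tendsto hlim ?_
  filter_upwards [self_mem_nhdsWithin] with t ht
  exact event_bound n Abar σ x hσ hx t ht

end Pool.Agent.S19249
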