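import Pool.Statements.S19341
import Pool.Agent.R978.DGEnergy

set_option autoImplicit false
open Pool Pool.MP_57c4e5_pr

namespace Pool.Agent.S19341

open Pool.Agent.R978.DG in
/-- Rewriting the energy of the statement. -/
lemma energy_eq (α : ℝ) (φ : ℤ → ℤ) :
    (∑' p : ℤ × ℤ, (if p.1 = p.2 then (0 : ℝ)
                   else ((|p.1 - p.2| : ℤ) : ℝ) ^ (-α) *
                     ((φ p.1 : ℝ) - (φ p.2 : ℝ)) ^ 2)) = H α φ := by
  unfold H w
  refine tsum_congr fun p => ?_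
  split_ifs <;> simp

/-- For every α in (2,3) and every β>0, the integer-valued chain on [-N,N] with zero boundary and weight exp(-β Σ_{x≠y} ∣x-y∣^(-α)(φx-φy)²) has variance of φ at 0 tending to infinity as N grows. -/
theorem result :
    ∀ α : ℝ, 2 < α → α < 3 → ∀ β : ℝ, 0 < β →
      Filter.Tendsto
        (fun N : ℕ =>
          (∑' φ : {φ : ℤ → ℤ // ∀ x : ℤ, (N : ℤ) < |x| → φ x = 0},
              ((φ.1 0 : ℝ)) ^ 2 *
                Real.exp (-β * ∑' p : ℤ × ℤ,
                  (if p.1 = p.2 then (0 : ℝ)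
                   else ((|p.1 - p.2| : ℤ) : ℝ) ^ (-α) *
                     ((φ.1 p.1 : ℝ) - (φ.1 p.2 : ℝ)) ^ 2))) /
          (∑' φ : {φ : ℤ → ℤ // ∀ x : ℤ, (N : ℤ) < |x| → φ x = 0},
              Real.exp (-β * ∑' p : ℤ × ℤ,
                (if p.1 = p.2 then (0 : ℝ)
                 else ((|p.1 - p.2| : ℤ) : ℝ) ^ (-α) *
                   ((φ.1 p.1 : ℝ) - (φ.1 p.2 : ℝ)) ^ 2))))
        Filter.atTop Filter.atTop := by
  intro α hα hα3 β hβ
  obtain ⟨c, hc, hlow⟩ := Pool.Agent.R978.DG.lower hα hα3 hβ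
  have hgrow : Filter.Tendsto (fun N : ℕ => c * ((N : ℝ) + 1) ^ (α - 2)) Filter.atTop
      Filter.atTop := by
    refine Filter.Tendsto.const_mul_atTop hc ?_
    refine (tendsto_rpow_atTop (by linarith : 0 < α - 2)).comp ?_
    exact Filter.tendsto_atTop_add_const_right _ _ tendsto_natCast_atTop_atTop
  refine Filter.tendsto_atTop_mono (fun N => ?_) hgrow
  simp_rw [energy_eq, neg_mul]
  have hZ : 0 < ∑' φ : {φ : ℤ → ℤ // ∀ x : ℤ, (N : ℤ) < |x| → φ x = 0},
      Real.exp (-(β * Pool.Agent.R978.DG.H α φ.1)) :=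
    (Pool.Agent.R978.DG.summable_Z (by linarith) hβ N).tsum_pos
      (fun φ => (Real.exp_pos _).le) 0 (Real.exp_pos _)
  rw [le_div_iff₀ hZ]
  exact hlow N


end Pool.Agent.S19341
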