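import Pool.Statements.S19353
import Pool.Agent.Results.MP_5fc11c_pr.KacConstant

set_option autoImplicit false
open MeasureTheory Filter Topology
open Pool Pool.MP_5fc11c_pr

namespace Pool.Agent.S19353

/-- For every real law with mean 0 and variance 1, the expected number of distinct real roots of the degree-n polynomial with i.i.d. coefficients of that law, minus (2/π) log n, converges to a finite real limit. -/
theorem result :
    ∀ (μ : Measure ℝ) [IsProbabilityMeasure μ],
      Integrable (fun x : ℝ => x ^ 2) μ →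
      ∫ x, x ∂μ = 0 →
      ∫ x, x ^ 2 ∂μ = 1 →
      ∃ C : ℝ, Tendsto
        (fun n : ℕ =>
          (∫⁻ c : Fin (n + 1) → ℝ,
              (((∑ k : Fin (n + 1), Polynomial.C (c k) * Polynomial.X ^ (k : ℕ)).roots.toFinset.card : ℕ) : ENNReal)
              ∂(Measure.pi fun _ : Fin (n + 1) => μ)).toReal
            - 2 / Real.pi * Real.log (n : ℝ))
        atTop (𝓝 C) := by
  intro μ _ hint hmean hvar
  obtain ⟨-, -, -, L, -, hL⟩ :=
    Pool.Agent.Results.MP_5fc11c_pr.KacConstant.result μ hint hmean hvar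
  refine ⟨_, hL.congr fun n => ?_⟩
  have hm : Measurable (fun ω : ℕ → ℝ =>
      Pool.Agent.Results.MP_5fc11c_pr.KacConstant.numRealRoots
        (Pool.Agent.Results.MP_5fc11c_pr.KacConstant.kacPoly n ω)) := by
    have h := Kac764.H4.measurable_nz_set n Set.univ (Or.inl rfl)
    simp only [Pool.Agent.Results.MP_5fc11c_pr.KacConstant.numRealRoots_eq,
      Pool.Agent.Results.MP_5fc11c_pr.KacConstant.kacPoly_eq]
    exact h
  let Φ : (ℕ → ℝ) → (Fin (n + 1) → ℝ) := fun ξ k => ξ k
  let ext : (Fin (n + 1) → ℝ) → (ℕ → ℝ) := fun c k => if h : k < n + 1 then c ⟨k, h⟩ else 0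
  have hΦ : Measurable Φ := measurable_pi_lambda _ fun k => measurable_pi_apply _
  have hext : Measurable ext := by
    refine measurable_pi_lambda _ fun k => ?_
    by_cases h : k < n + 1
    · simp only [ext, dif_pos h]; exact measurable_pi_apply _
    · simp only [ext, dif_neg h]; exact measurable_const
  have hpoly : ∀ ξ : ℕ → ℝ, (∑ k : Fin (n + 1), Polynomial.C (Φ ξ k) * Polynomial.X ^ (k : ℕ))
      = Pool.Agent.Results.MP_5fc11c_pr.KacConstant.kacPoly n ξ := by
    intro ξ
    unfold Pool.Agent.Results.MP_5fc11c_pr.KacConstant.kacPoly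
    rw [Finset.sum_range]
  have hΦext : ∀ c, Φ (ext c) = c := by
    intro c
    funext k
    show (if h : (k : ℕ) < n + 1 then c ⟨k, h⟩ else 0) = c k
    rw [dif_pos k.2]
  let f : (Fin (n + 1) → ℝ) → ℕ := fun c =>
    (∑ k : Fin (n + 1), Polynomial.C (c k) * Polynomial.X ^ (k : ℕ)).roots.toFinset.card
  have hfΦ : ∀ ξ, f (Φ ξ) = Pool.Agent.Results.MP_5fc11c_pr.KacConstant.numRealRoots
        (Pool.Agent.Results.MP_5fc11c_pr.KacConstant.kacPoly n ξ) := by
    intro ξ
    show (∑ k : Fin (n + 1), Polynomial.C (Φ ξ k) * Polynomial.X ^ (k : ℕ)).roots.toFinset.card = _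
    rw [hpoly]
    rfl
  have hf : Measurable f := by
    have h : f = (fun ω : ℕ → ℝ =>
      Pool.Agent.Results.MP_5fc11c_pr.KacConstant.numRealRoots
        (Pool.Agent.Results.MP_5fc11c_pr.KacConstant.kacPoly n ω)) ∘ ext := by
      funext c
      rw [Function.comp, ← hfΦ, hΦext]
    rw [h]
    exact hm.comp hext
  have hmap : Measure.pi (fun _ : Fin (n + 1) => μ)
      = (Measure.infinitePi (fun _ : ℕ => μ)).map Φ := by
    refine Measure.pi_eq fun s hs => ?_
    rw [Measure.map_apply hΦ (MeasurableSet.univ_pi hs)]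
    have hpre : Φ ⁻¹' (Set.univ.pi s) = Set.pi (Finset.range (n + 1) : Set ℕ)
        (fun k => if h : k < n + 1 then s ⟨k, h⟩ else Set.univ) := by
      ext ξ
      constructor
      · intro h k hk
        have hk' : k < n + 1 := Finset.mem_range.1 hk
        show ξ k ∈ (if h : k < n + 1 then s ⟨k, h⟩ else Set.univ)
        rw [dif_pos hk']
        exact h ⟨k, hk'⟩ trivial
      · intro h k _
        have h2 : ξ k ∈ (if h : (k : ℕ) < n + 1 then s ⟨k, h⟩ else Set.univ) :=
          h (k : ℕ) (Finset.mem_coe.2 (Finset.mem_range.2 k.2))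
        rw [dif_pos k.2] at h2
        exact h2
    rw [hpre, Measure.infinitePi_pi _ (by
      intro k _
      by_cases h : k < n + 1
      · rw [dif_pos h]; exact hs _
      · rw [dif_neg h]; exact MeasurableSet.univ)]
    rw [Finset.prod_range]
    refine Finset.prod_congr rfl fun k _ => ?_
    rw [dif_pos k.2]
  have hkey : (∫⁻ c : Fin (n + 1) → ℝ, ((f c : ℕ) : ENNReal) ∂(Measure.pi fun _ : Fin (n + 1) => μ)).toReal
      = Pool.Agent.Results.MP_5fc11c_pr.KacConstant.expectedRoots μ n := by
    have hf' : Measurable (fun c : Fin (n + 1) → ℝ => ((f c : ℕ) : ENNReal)) :=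
      measurable_from_top.comp hf
    rw [hmap, lintegral_map hf' hΦ]
    unfold Pool.Agent.Results.MP_5fc11c_pr.KacConstant.expectedRoots
      Pool.Agent.Results.MP_5fc11c_pr.KacConstant.iidLaw
    rw [integral_eq_lintegral_of_nonneg_ae (Filter.Eventually.of_forall fun ξ => by positivity)
      (show Measurable (fun ξ : ℕ → ℝ =>
        ((Pool.Agent.Results.MP_5fc11c_pr.KacConstant.numRealRoots
        (Pool.Agent.Results.MP_5fc11c_pr.KacConstant.kacPoly n ξ) : ℕ) : ℝ)) from
        measurable_from_top.comp hm).aestronglyMeasurable]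
    congr 1
    refine lintegral_congr fun ξ => ?_
    rw [hfΦ, ENNReal.ofReal_natCast]
  show _ = (∫⁻ c : Fin (n + 1) → ℝ, ((f c : ℕ) : ENNReal) ∂(Measure.pi fun _ : Fin (n + 1) => μ)).toReal
      - 2 / Real.pi * Real.log (n : ℝ)
  rw [hkey]


end Pool.Agent.S19353
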