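import Pool.Statements.S19444

set_option autoImplicit false
open Filter Topology
open Pool Pool.MP_85987b_pr

namespace Pool.Agent.R978.DR

/-- The points `4, 16, 64, …` carrying the heavy tail of the initial law. -/
def g (j : ℕ) : ℕ := 4 ^ (j + 1)

/-- The mass of the initial law at `g j`. -/
noncomputable def w (j : ℕ) : ℝ := (1 / 4) * (1 / 2) ^ (g j) * (1 / 2) ^ j / (g j : ℝ)

noncomputable def W : ℝ := ∑' j, w j

/-- The initial law. -/
noncomputable def p0 (k : ℕ) : ℝ :=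
  (if k = 0 then (3 / 7 : ℝ) else 0) + (if k = 1 then 4 / 7 - W else 0) + Function.extend g w 0 k

/-- The laws of `X_n` (with `m = 2`). -/
noncomputable def p : ℕ → ℕ → ℝ
  | 0 => p0
  | (n + 1) => fun k =>
      (∑ x : Fin 2 → Fin (k + 2),
        if (∑ i, (x i : ℕ)) = k + 1 then ∏ i, p n (x i) else 0)
      + (if k = 0 then p n 0 ^ 2 else 0)

lemma g_inj : Function.Injective g := by
  intro a b h
  have := Nat.pow_right_injective (le_refl 2 |>.trans (by norm_num : 2 ≤ 4)) h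
  omega

lemma g_pos (j : ℕ) : 4 ≤ g j := by
  unfold g
  calc 4 = 4 ^ 1 := by norm_num
    _ ≤ 4 ^ (j + 1) := Nat.pow_le_pow_right (by norm_num) (by omega)

lemma w_nonneg (j : ℕ) : 0 ≤ w j := by unfold w; positivity

lemma w_le (j : ℕ) : w j ≤ (1 / 16) * (1 / 2) ^ j := by
  have h1 : ((1 : ℝ) / 2) ^ (g j) ≤ 1 := pow_le_one₀ (by norm_num) (by norm_num)
  have h4 : (4 : ℝ) ≤ g j := by exact_mod_cast g_pos j
  have h2 : (0 : ℝ) < (1 / 2) ^ j := by positivity
  unfold w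
  rw [div_le_iff₀ (by linarith)]
  calc 1 / 4 * (1 / 2) ^ g j * (1 / 2 : ℝ) ^ j ≤ 1 / 4 * 1 * (1 / 2 : ℝ) ^ j := by gcongr
    _ = 1 / 16 * (1 / 2) ^ j * 4 := by ring
    _ ≤ 1 / 16 * (1 / 2) ^ j * g j := by gcongr

lemma hasSum_half : HasSum (fun j : ℕ => ((1 : ℝ) / 2) ^ j) 2 := hasSum_geometric_two

lemma summable_w : Summable w :=
  Summable.of_nonneg_of_le w_nonneg w_le (hasSum_half.summable.mul_left _)

lemma W_le : W ≤ 1 / 8 := by
  have h := summable_w.tsum_le_tsum w_le (hasSum_half.summable.mul_left _)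
  have h2 : ∑' j : ℕ, (1 / 16 : ℝ) * (1 / 2) ^ j = 1 / 16 * 2 := (hasSum_half.mul_left _).tsum_eq
  unfold W
  linarith

lemma W_nonneg : 0 ≤ W := tsum_nonneg w_nonneg

lemma ext_zero (k : ℕ) (h : ∀ j, g j ≠ k) : Function.extend g w 0 k = 0 := by
  rw [Function.extend_apply']
  · rfl
  · rintro ⟨j, hj⟩
    exact h j hj

lemma ext_g (j : ℕ) : Function.extend g w 0 (g j) = w j := g_inj.extend_apply _ _ _

/-- A weighted sum against the initial law. -/
lemma hasSum_p0 (c : ℕ → ℝ) (s : ℝ) (hs : HasSum (fun j => c (g j) * w j) s) :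
    HasSum (fun k => c k * p0 k) (c 0 * (3 / 7) + c 1 * (4 / 7 - W) + s) := by
  have h1 : HasSum (fun k => c k * (if k = 0 then (3 / 7 : ℝ) else 0)) (c 0 * (3 / 7)) := by
    have := hasSum_ite_eq (0 : ℕ) (c 0 * (3 / 7 : ℝ))
    refine this.congr_fun ?_ |> fun h => h
    intro k
    by_cases h : k = 0 <;> simp [h]
  have h2 : HasSum (fun k => c k * (if k = 1 then 4 / 7 - W else 0)) (c 1 * (4 / 7 - W)) := by
    have := hasSum_ite_eq (1 : ℕ) (c 1 * (4 / 7 - W))
    refine this.congr_fun ?_ |> fun h => h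
    intro k
    by_cases h : k = 1 <;> simp [h]
  have h3 : HasSum (fun k => c k * Function.extend g w 0 k) s := by
    rw [← g_inj.hasSum_iff]
    · convert hs using 2 with j
      simp only [Function.comp, ext_g]
    · intro k hk
      rw [ext_zero k (fun j hj => hk ⟨j, hj⟩), mul_zero]
  convert (h1.add h2).add h3 using 2 with k
  unfold p0
  ring

lemma p0_nonneg (k : ℕ) : 0 ≤ p0 k := by
  unfold p0
  have h1 : (0 : ℝ) ≤ (if k = 0 then (3 / 7 : ℝ) else 0) := by split_ifs <;> norm_num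
  have h2 : (0 : ℝ) ≤ (if k = 1 then 4 / 7 - W else 0) := by
    split_ifs
    · have := W_le; linarith
    · exact le_rfl
  have h3 : 0 ≤ Function.extend g w 0 k := by
    by_cases h : ∃ j, g j = k
    · obtain ⟨j, rfl⟩ := h
      rw [ext_g]; exact w_nonneg j
    · rw [ext_zero k (fun j hj => h ⟨j, hj⟩)]
  linarith

lemma hasSum_p0_one : HasSum p0 1 := by
  have h := hasSum_p0 (fun _ => 1) W (by simp only [one_mul]; exact summable_w.hasSum)
  simp only [one_mul] at h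
  convert h using 1
  ring

lemma g_ne (j : ℕ) : (g j : ℝ) ≠ 0 := by
  have := g_pos j
  positivity

lemma w_mul (j : ℕ) : w j * 2 ^ (g j) = (1 / 4) * (1 / 2) ^ j / (g j : ℝ) := by
  unfold w
  have h : ((1 : ℝ) / 2) ^ (g j) * 2 ^ (g j) = 1 := by
    rw [← mul_pow]; norm_num
  calc 1 / 4 * (1 / 2) ^ g j * (1 / 2) ^ j / (g j : ℝ) * 2 ^ g j
      = (1 / 4) * (1 / 2) ^ j / (g j : ℝ) * ((1 / 2) ^ g j * 2 ^ g j) := by ring
    _ = _ := by rw [h, mul_one]

lemma hasSum_A : HasSum (fun k : ℕ => p0 k * (2 : ℝ) ^ k) (3 / 7 + 2 * (4 / 7 - W) + 1 / 14) := by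
  have h := hasSum_p0 (fun k => (2 : ℝ) ^ k) (1 / 14) (by
    have h1 : ∀ j, (2 : ℝ) ^ (g j) * w j = (1 / 16) * (1 / 8) ^ j := by
      intro j
      rw [mul_comm, w_mul]
      unfold g
      push_cast
      rw [pow_succ, div_eq_iff (by positivity)]
      have : ((1 : ℝ) / 8) ^ j * 4 ^ j = (1 / 2) ^ j := by
        rw [← mul_pow]; norm_num
      rw [← this]; ring
    simp only [h1]
    have h2 : HasSum (fun j : ℕ => ((1 : ℝ) / 8) ^ j) (1 - 1 / 8)⁻¹ :=
      hasSum_geometric_of_lt_one (by norm_num) (by norm_num)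
    have h3 := h2.mul_left (1 / 16 : ℝ)
    rwa [show (1 / 16 : ℝ) * (1 - 1 / 8)⁻¹ = 1 / 14 by norm_num] at h3)
  convert h using 1
  · ext k; ring
  · ring

lemma hasSum_B : HasSum (fun k : ℕ => (k : ℝ) * p0 k * (2 : ℝ) ^ k) (2 * (4 / 7 - W) + 1 / 2) := by
  have h := hasSum_p0 (fun k => (k : ℝ) * (2 : ℝ) ^ k) (1 / 2) (by
    have h1 : ∀ j, (g j : ℝ) * (2 : ℝ) ^ (g j) * w j = (1 / 4) * (1 / 2) ^ j := by
      intro j
      rw [mul_assoc, mul_comm _ (w j), w_mul]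
      field_simp [g_ne j]
    simp only [h1]
    have h3 := hasSum_half.mul_left (1 / 4 : ℝ)
    rwa [show (1 / 4 : ℝ) * 2 = 1 / 2 by norm_num] at h3)
  convert h using 1
  · ext k; ring
  · push_cast; ring

/-- the recursion in convolution form -/
lemma p_succ (n k : ℕ) : p (n + 1) k =
    (∑ x ∈ Finset.HasAntidiagonal.antidiagonal (k + 1), p n x.1 * p n x.2) + (if k = 0 then p n 0 ^ 2 else 0) := by
  rw [p]
  beta_reduce
  congr 1
  rw [← Finset.sum_filter]
  refine Finset.sum_bij' (fun x _ => ((x 0 : ℕ), (x 1 : ℕ)))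
    (fun x hx => ![⟨x.1, ?_⟩, ⟨x.2, ?_⟩]) ?_ ?_ ?_ ?_ ?_
  · have := Finset.HasAntidiagonal.mem_antidiagonal.mp hx; omega
  · have := Finset.HasAntidiagonal.mem_antidiagonal.mp hx; omega
  · intro x hx
    simpa [Fin.sum_univ_two] using hx
  · intro x hx
    have := Finset.HasAntidiagonal.mem_antidiagonal.mp hx
    simpa [Fin.sum_univ_two] using this
  · intro x hx
    ext i
    fin_cases i <;> simp
  · intro x hx
    simp
  · intro x hx
    simp [Fin.prod_univ_two]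

lemma p_nonneg (n k : ℕ) : 0 ≤ p n k := by
  induction n generalizing k with
  | zero => exact p0_nonneg k
  | succ n ih =>
    rw [p_succ]
    refine add_nonneg (Finset.sum_nonneg fun x _ => mul_nonneg (ih _) (ih _)) ?_
    split_ifs
    · positivity
    · exact le_rfl

/-- `P(X_n < k)` -/
noncomputable def C (n k : ℕ) : ℝ := ∑ j ∈ Finset.range k, p n j

lemma C_succ (n k : ℕ) (hk : 1 ≤ k) : C (n + 1) k ≤ C n (k + 1) ^ 2 := by
  have h1 : C (n + 1) k = ∑ j ∈ Finset.range (k + 1), ∑ x ∈ Finset.HasAntidiagonal.antidiagonal j, p n x.1 * p n x.2 := by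
    unfold C
    simp only [p_succ]
    rw [Finset.sum_add_distrib, Finset.sum_range_succ']
    congr 1
    rw [Finset.sum_ite_eq' (Finset.range k) 0 (fun _ => p n 0 ^ 2)]
    simp [sq]
    omega
  rw [h1, Finset.sum_sigma', sq]
  unfold C
  rw [Finset.sum_mul_sum, ← Finset.sum_product']
  have h2 : ∑ x ∈ (Finset.range (k + 1)).sigma fun j => Finset.HasAntidiagonal.antidiagonal j,
      p n x.snd.1 * p n x.snd.2 =
      ∑ y ∈ ((Finset.range (k + 1)).sigma fun j => Finset.HasAntidiagonal.antidiagonal j).image (fun x => x.snd),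
        p n y.1 * p n y.2 := by
    rw [Finset.sum_image]
    rintro ⟨a, x⟩ hx ⟨b, y⟩ hy hxy
    simp only [Finset.coe_sigma, Set.mem_sigma_iff, Finset.mem_coe, Finset.HasAntidiagonal.mem_antidiagonal] at hx hy hxy
    subst hxy
    have : a = b := by rw [← hx.2, ← hy.2]
    subst this
    rfl
  rw [h2]
  refine Finset.sum_le_sum_of_subset_of_nonneg ?_ fun x _ _ => mul_nonneg (p_nonneg _ _) (p_nonneg _ _)
  intro y hy
  simp only [Finset.mem_image, Finset.mem_sigma, Finset.mem_range, Finset.HasAntidiagonal.mem_antidiagonal,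
    Finset.mem_product] at hy ⊢
  obtain ⟨⟨a, x⟩, ⟨h3, h4⟩, rfl⟩ := hy
  simp only at h3 h4 ⊢
  omega

lemma C_nonneg (n k : ℕ) : 0 ≤ C n k := Finset.sum_nonneg fun j _ => p_nonneg n j

lemma C_mono (n : ℕ) {k l : ℕ} (h : k ≤ l) : C n k ≤ C n l :=
  Finset.sum_le_sum_of_subset_of_nonneg (Finset.range_subset_range.mpr h) fun j _ _ => p_nonneg n j

lemma C_zero_le (k : ℕ) : C 0 k ≤ 1 :=
  sum_le_hasSum _ (fun j _ => p0_nonneg j) hasSum_p0_one

lemma C_le_one (n k : ℕ) : C n k ≤ 1 := by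
  induction n generalizing k with
  | zero => exact C_zero_le k
  | succ n ih =>
    calc C (n + 1) k ≤ C (n + 1) (k + 1) := C_mono _ (by omega)
      _ ≤ C n (k + 1 + 1) ^ 2 := C_succ n _ (by omega)
      _ ≤ 1 ^ 2 := by gcongr; · exact C_nonneg _ _
                      · exact ih _
      _ = 1 := one_pow 2

lemma C_pow (n k : ℕ) (hk : 1 ≤ k) : C n k ≤ C 0 (k + n) ^ (2 ^ n) := by
  induction n generalizing k with
  | zero => simp
  | succ n ih =>
    calc C (n + 1) k ≤ C n (k + 1) ^ 2 := C_succ n k hk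
      _ ≤ (C 0 (k + 1 + n) ^ (2 ^ n)) ^ 2 := by
          gcongr
          · exact C_nonneg _ _
          · exact ih (k + 1) (by omega)
      _ = C 0 (k + (n + 1)) ^ (2 ^ (n + 1)) := by
          rw [← pow_mul, pow_succ, show k + 1 + n = k + (n + 1) by ring]

lemma C_zero_g (j : ℕ) : C 0 (g j) ≤ 1 - w j := by
  have h : C 0 (g j + 1) ≤ 1 := C_zero_le _
  have h2 : C 0 (g j + 1) = C 0 (g j) + p0 (g j) := by
    unfold C; rw [Finset.sum_range_succ]; rfl
  have h3 : w j ≤ p0 (g j) := by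
    unfold p0
    rw [ext_g]
    have := g_pos j
    rw [if_neg (by omega), if_neg (by omega)]
    linarith
  linarith

lemma u_bound (j : ℕ) :
    (1 / 16) * (1 / 2) ^ j / (g j : ℝ) ≤ 1 - (1 - w j) ^ (2 ^ (g j - 1)) := by
  have hg := g_pos j
  have hw := w_nonneg j
  have hw2 : w j ≤ 1 := by
    have h1 := w_le j
    have h2 : ((1 : ℝ) / 2) ^ j ≤ 1 := pow_le_one₀ (by norm_num) (by norm_num)
    linarith
  set N : ℕ := 2 ^ (g j - 1) with hN
  set u : ℝ := (N : ℝ) * w j with hu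
  have hu1 : u = (1 / 8) * (1 / 2) ^ j / (g j : ℝ) := by
    have h1 : (2 : ℝ) ^ (g j) = 2 * (N : ℝ) := by
      rw [hN]; push_cast
      rw [← pow_succ']
      congr 1; omega
    have h2 := w_mul j
    rw [h1] at h2
    have : u = (w j * (2 * (N : ℝ))) / 2 := by rw [hu]; ring
    rw [this, h2]; ring
  have hu0 : 0 ≤ u := by rw [hu]; positivity
  have hule : u ≤ 1 := by
    rw [hu1, div_le_one (by positivity)]
    have h2 : ((1 : ℝ) / 2) ^ j ≤ 1 := pow_le_one₀ (by norm_num) (by norm_num)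
    have h3 : (4 : ℝ) ≤ g j := by exact_mod_cast hg
    linarith
  have h1 : (1 - w j) ^ N * (1 + u) ≤ 1 := by
    have hb : 1 + u ≤ (1 + w j) ^ N := by
      have := one_add_mul_le_pow (by linarith : (-2 : ℝ) ≤ w j) N
      simpa [hu] using this
    calc (1 - w j) ^ N * (1 + u) ≤ (1 - w j) ^ N * (1 + w j) ^ N := by
          gcongr
      _ = (1 - w j ^ 2) ^ N := by rw [← mul_pow]; ring
      _ ≤ 1 := pow_le_one₀ (by nlinarith) (by nlinarith)
  have h2 : (1 / 16) * (1 / 2) ^ j / (g j : ℝ) = u / 2 := by rw [hu1]; ring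
  rw [h2]
  have h3 : (1 - w j) ^ N ≤ 1 / (1 + u) := by
    rw [le_div_iff₀ (by linarith)]; exact h1
  have h4 : 1 / (1 + u) ≤ 1 - u / 2 := by
    rw [div_le_iff₀ (by linarith)]
    nlinarith
  linarith

lemma S_le (n : ℕ) : ∑' k : ℕ, p n k * ((1 : ℝ) / 2) ^ k ≤ 1 / 2 + 1 / 2 * p n 0 := by
  refine Real.tsum_le_of_sum_range_le (fun k => mul_nonneg (p_nonneg n k) (by positivity)) ?_
  intro N
  have h1 : ∑ i ∈ Finset.range N, p n i * ((1 : ℝ) / 2) ^ i ≤
      ∑ i ∈ Finset.range (N + 1), p n i * ((1 : ℝ) / 2) ^ i :=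
    Finset.sum_le_sum_of_subset_of_nonneg (Finset.range_subset_range.mpr (by omega))
      fun i _ _ => mul_nonneg (p_nonneg n i) (by positivity)
  refine h1.trans ?_
  have hC := C_le_one n (N + 1)
  unfold C at hC
  rw [Finset.sum_range_succ'] at hC ⊢
  have h2 : ∑ i ∈ Finset.range N, p n (i + 1) * ((1 : ℝ) / 2) ^ (i + 1) ≤
      ∑ i ∈ Finset.range N, (1 / 2) * p n (i + 1) := by
    refine Finset.sum_le_sum fun i _ => ?_
    have h3 : ((1 : ℝ) / 2) ^ i ≤ 1 := pow_le_one₀ (by norm_num) (by norm_num)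
    have h4 := p_nonneg n (i + 1)
    rw [pow_succ]
    nlinarith
  rw [← Finset.mul_sum] at h2
  simp only [pow_zero, mul_one]
  linarith

lemma p_zero_le (j : ℕ) : p (g j - 1) 0 ≤ (1 - w j) ^ (2 ^ (g j - 1)) := by
  have h1 : p (g j - 1) 0 = C (g j - 1) 1 := by unfold C; simp
  rw [h1]
  have hg := g_pos j
  refine (C_pow (g j - 1) 1 le_rfl).trans ?_
  rw [show 1 + (g j - 1) = g j by omega]
  gcongr
  · exact C_nonneg _ _
  · exact C_zero_g j

end Pool.Agent.R978.DR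

namespace Pool.Agent.S19444

open Pool.Agent.R978.DR in
/-- The negation of the preceding statement: For integer m≥2 and any law of X_0 on ℕ with P(X_0=0)>0 and (m−1)E(X_0 m^X_0)=E(m^X_0)<∞, where X_{n+1} is (sum of m iid copies of X_n minus 1)^+: for all s in (0,m), s≠1, (E s^X_n − 1) divided by 4m/(m−1)²·(s−1)/(m−s)/n² tends to 1. -/
theorem result :
    ¬ (∀ (m : ℕ), 2 ≤ m → ∀ p : ℕ → ℕ → ℝ,
      (∀ k, 0 ≤ p 0 k) → HasSum (p 0) 1 →
      (∀ n k, p (n + 1) k =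
          (∑ x : Fin m → Fin (k + 2),
              if (∑ i, (x i : ℕ)) = k + 1 then ∏ i, p n (x i) else 0)
          + (if k = 0 then p n 0 ^ m else 0)) →
      Summable (fun k : ℕ => p 0 k * (m : ℝ) ^ k) →
      Summable (fun k : ℕ => (k : ℝ) * p 0 k * (m : ℝ) ^ k) →
      ((m : ℝ) - 1) * (∑' k : ℕ, (k : ℝ) * p 0 k * (m : ℝ) ^ k)
          = ∑' k : ℕ, p 0 k * (m : ℝ) ^ k →
      0 < p 0 0 →
      ∀ s : ℝ, 0 < s → s < (m : ℝ) → s ≠ 1 →
        Tendsto
          (fun n : ℕ =>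
            ((∑' k : ℕ, p n k * s ^ k) - 1) /
              (4 * (m : ℝ) / (((m : ℝ) - 1) ^ 2) * ((s - 1) / ((m : ℝ) - s)) / ((n : ℝ) ^ 2)))
          atTop (𝓝 1)) := by
  intro h
  have h1 := h 2 le_rfl p p0_nonneg hasSum_p0_one (fun n k => by rw [p])
    (by push_cast; exact hasSum_A.summable) (by push_cast; exact hasSum_B.summable)
    (by
      push_cast
      have hA : ∑' k : ℕ, p 0 k * (2 : ℝ) ^ k = _ := hasSum_A.tsum_eq
      have hB : ∑' k : ℕ, (k : ℝ) * p 0 k * (2 : ℝ) ^ k = _ := hasSum_B.tsum_eq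
      rw [hA, hB]; ring)
    (by
      show 0 < p0 0
      unfold p0
      rw [ext_zero 0 (fun j hj => by have := g_pos j; omega)]
      norm_num)
    (1 / 2) (by norm_num) (by norm_num) (by norm_num)
  have h2 := h1.eventually (gt_mem_nhds (by norm_num : (1 : ℝ) < 2))
  obtain ⟨N, hN⟩ := eventually_atTop.mp h2
  set j := max 8 N with hj
  have hj8 : 8 ≤ j := le_max_left _ _
  have hjN : N ≤ j := le_max_right _ _
  have hgj : j + 1 ≤ g j := by
    unfold g
    exact (Nat.lt_pow_self (by norm_num : 1 < 4)).le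
  have h3 := hN (g j - 1) (by omega)
  revert h3
  push_cast
  rw [imp_false, not_lt]
  have hg4 := g_pos j
  have hg4' : (4 : ℝ) ≤ g j := by exact_mod_cast hg4
  have hcast : ((g j - 1 : ℕ) : ℝ) = (g j : ℝ) - 1 := by
    rw [Nat.cast_sub (by omega)]; simp
  rw [hcast]
  set S := ∑' k : ℕ, p (g j - 1) k * ((1 : ℝ) / 2) ^ k with hS
  have hS1 : (1 / 32) * (1 / 2) ^ j / (g j : ℝ) ≤ 1 - S := by
    have h4 := S_le (g j - 1)
    have h5 := p_zero_le j
    have h6 := u_bound j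
    have h7 : (1 / 32) * (1 / 2) ^ j / (g j : ℝ) = (1 / 2) * ((1 / 16) * (1 / 2) ^ j / (g j : ℝ)) := by
      ring
    rw [h7]
    linarith
  have hpos : (0 : ℝ) < (g j : ℝ) - 1 := by linarith
  have hR : (S - 1) / (4 * 2 / (2 - 1) ^ 2 * ((1 / 2 - 1) / (2 - 1 / 2)) / ((g j : ℝ) - 1) ^ 2)
      = (3 / 8) * (1 - S) * ((g j : ℝ) - 1) ^ 2 := by
    field_simp
    ring
  rw [hR]
  have h8 : (g j : ℝ) / 4 ≤ ((g j : ℝ) - 1) ^ 2 / (g j : ℝ) := by
    rw [div_le_div_iff₀ (by norm_num) (by linarith)]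
    nlinarith
  have h9 : (1 / 2 : ℝ) ^ j * (g j : ℝ) = 4 * 2 ^ j := by
    unfold g
    push_cast
    rw [pow_succ, ← mul_assoc, ← mul_pow]
    norm_num
    ring
  have h10 : (256 : ℝ) ≤ 2 ^ j := by
    calc (256 : ℝ) = 2 ^ 8 := by norm_num
      _ ≤ 2 ^ j := pow_le_pow_right₀ (by norm_num) hj8
  calc (2 : ℝ) ≤ (3 / 256) * 2 ^ j := by linarith
    _ = (3 / 1024) * ((1 / 2 : ℝ) ^ j * (g j : ℝ)) := by rw [h9]; ring
    _ = (3 / 8) * (1 / 32) * (1 / 2) ^ j * ((g j : ℝ) / 4) := by ring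
    _ ≤ (3 / 8) * (1 / 32) * (1 / 2) ^ j * (((g j : ℝ) - 1) ^ 2 / (g j : ℝ)) := by gcongr
    _ = (3 / 8) * ((1 / 32) * (1 / 2) ^ j / (g j : ℝ)) * ((g j : ℝ) - 1) ^ 2 := by ring
    _ ≤ (3 / 8) * (1 - S) * ((g j : ℝ) - 1) ^ 2 := by gcongr

end Pool.Agent.S19444
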