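import Pool.Statements.S19636
import Pool.Agent.R952.BP.Final

set_option autoImplicit false
open Classical
open Pool Pool.MP_c8529a_pr

namespace Pool.Agent.S19636

attribute [local irreducible] Pool.Agent.R952.BP.U

/-- The negation of the preceding statement: For every critical d-dimensional update family (d ≥ 2), there are r in 1..d−1 and a rational α such that log p_c(torus of side n) divided by log(1/(r-fold iterated log n)) tends to α. -/
theorem result :
    ¬ (∀ d : ℕ, 2 ≤ d → ∀ U : Finset (Finset (Fin d → ℤ)),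
   (∀ X ∈ U, X.Nonempty ∧ (0 : Fin d → ℤ) ∉ X) →
   ((∃ v : Fin d → ℝ, v ≠ 0 ∧ MeasureTheory.Measure.hausdorffMeasure ((d : ℝ) - 1)
        {u : Fin d → ℝ | ∑ i, u i ^ 2 = 1 ∧ (∀ X ∈ U, ∃ x ∈ X, 0 ≤ ∑ i, (x i : ℝ) * u i) ∧
          0 ≤ ∑ i, u i * v i} = 0) ∧
    (∀ v : Fin d → ℝ, v ≠ 0 → ∃ u : Fin d → ℝ, ∑ i, u i ^ 2 = 1 ∧
        (∀ X ∈ U, ∃ x ∈ X, 0 ≤ ∑ i, (x i : ℝ) * u i) ∧ 0 < ∑ i, u i * v i)) →
   ∃ r : ℕ, 1 ≤ r ∧ r ≤ d - 1 ∧ ∃ α : ℚ,
    Filter.Tendsto (fun n : ℕ =>
      Real.log (sInf {p : ℝ | 0 ≤ p ∧ p ≤ 1 ∧ (1 / 2 : ℝ) ≤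
        Finset.sum
          (Finset.filter
            (fun A : Finset (Fin d → ZMod (n + 1)) =>
              ∀ T : Set (Fin d → ZMod (n + 1)), ((A : Set (Fin d → ZMod (n + 1))) ⊆ T) →
                (∀ y : Fin d → ZMod (n + 1),
                  (∃ X ∈ U, ∀ x ∈ X,
                    y + (fun i : Fin d => ((x i : ℤ) : ZMod (n + 1))) ∈ T) → y ∈ T) →
                T = Set.univ)
            (Finset.univ : Finset (Finset (Fin d → ZMod (n + 1)))))
          (fun A : Finset (Fin d → ZMod (n + 1)) =>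
            p ^ (Finset.card A) *
              (1 - p) ^ (Fintype.card (Fin d → ZMod (n + 1)) - Finset.card A))})
      / Real.log (1 / Real.log^[r] ((n : ℝ) + 1)))
    Filter.atTop (nhds (α : ℝ))) := by
  intro h
  have hU := h 6 (by norm_num) Pool.Agent.R952.BP.U Pool.Agent.R952.BP.U_ne
    ⟨Pool.Agent.R952.BP.U_crit1, Pool.Agent.R952.BP.U_crit2⟩
  obtain ⟨r, hr1, _, α, hα⟩ := hU
  apply Pool.Agent.R952.BP.final r hr1 α
  have hSS : ∀ n : ℕ, {p : ℝ | 0 ≤ p ∧ p ≤ 1 ∧ (1 / 2 : ℝ) ≤
        Finset.sum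
          (Finset.filter
            (fun A : Finset (Fin 6 → ZMod (n + 1)) =>
              ∀ T : Set (Fin 6 → ZMod (n + 1)), ((A : Set (Fin 6 → ZMod (n + 1))) ⊆ T) →
                (∀ y : Fin 6 → ZMod (n + 1),
                  (∃ X ∈ Pool.Agent.R952.BP.U, ∀ x ∈ X,
                    y + (fun i : Fin 6 => ((x i : ℤ) : ZMod (n + 1))) ∈ T) → y ∈ T) →
                T = Set.univ)
            (Finset.univ : Finset (Finset (Fin 6 → ZMod (n + 1)))))
          (fun A : Finset (Fin 6 → ZMod (n + 1)) =>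
            p ^ (Finset.card A) *
              (1 - p) ^ (Fintype.card (Fin 6 → ZMod (n + 1)) - Finset.card A))}
      = Pool.Agent.R952.BP.SS n := by
    intro n
    unfold Pool.Agent.R952.BP.SS
    ext p
    rw [Set.mem_ofPred_eq, Set.mem_ofPred_eq]
    have key : Finset.sum
          (Finset.filter
            (fun A : Finset (Fin 6 → ZMod (n + 1)) =>
              ∀ T : Set (Fin 6 → ZMod (n + 1)), ((A : Set (Fin 6 → ZMod (n + 1))) ⊆ T) →
                (∀ y : Fin 6 → ZMod (n + 1),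
                  (∃ X ∈ Pool.Agent.R952.BP.U, ∀ x ∈ X,
                    y + (fun i : Fin 6 => ((x i : ℤ) : ZMod (n + 1))) ∈ T) → y ∈ T) →
                T = Set.univ)
            (Finset.univ : Finset (Finset (Fin 6 → ZMod (n + 1)))))
          (fun A : Finset (Fin 6 → ZMod (n + 1)) =>
            p ^ (Finset.card A) *
              (1 - p) ^ (Fintype.card (Fin 6 → ZMod (n + 1)) - Finset.card A))
        = Pool.Agent.Helper91.BP.Pr p (fun A : Finset (Fin 6 → ZMod (n + 1)) =>
            Pool.Agent.R952.BP.Perc (n + 1) (A : Set _)) := by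
      unfold Pool.Agent.Helper91.BP.Pr
      rw [Finset.sum_filter]
      apply Finset.sum_congr rfl
      intro A _
      have hiff : (∀ T : Set (Fin 6 → ZMod (n + 1)), ((A : Set (Fin 6 → ZMod (n + 1))) ⊆ T) →
                (∀ y : Fin 6 → ZMod (n + 1),
                  (∃ X ∈ Pool.Agent.R952.BP.U, ∀ x ∈ X,
                    y + (fun i : Fin 6 => ((x i : ℤ) : ZMod (n + 1))) ∈ T) → y ∈ T) →
                T = Set.univ) ↔ Pool.Agent.R952.BP.Perc (n + 1) (A : Set _) := by
        constructor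
        · intro hA G hAG hG
          apply hA G hAG
          rintro y ⟨X, hX, hy⟩
          exact hG y X hX hy
        · intro hA T hAT hT
          apply hA T hAT
          intro y X hX hy
          exact hT y ⟨X, hX, hy⟩
      have hw : p ^ (Finset.card A) *
              (1 - p) ^ (Fintype.card (Fin 6 → ZMod (n + 1)) - Finset.card A)
          = Pool.Agent.Helper91.BP.wt p A := by
        unfold Pool.Agent.Helper91.BP.wt
        rw [Finset.card_compl]
      rw [hw]
      by_cases hp : Pool.Agent.R952.BP.Perc (n + 1) (A : Set _)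
      · rw [if_pos hp, if_pos (hiff.2 hp)]
      · rw [if_neg hp, if_neg (fun hc => hp (hiff.1 hc))]
    rw [key]
  refine Filter.Tendsto.congr ?_ hα
  intro n
  rw [← hSS n]

end Pool.Agent.S19636
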